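import Pool.Agent.Lib.MP_b6d339_lc.Pos.L1

/-!
# Erdős 592, three levels: patterns
-/

namespace MPb6P

/-- pattern -/
def pq0 : List PE := [⟨0, 4, 4, 0⟩, ⟨1, 4, 4, 11⟩, ⟨1, 3, 3, 11⟩, ⟨1, 2, 3, 5⟩, ⟨0, 1, 1, 5⟩, ⟨0, 2, 2, 5⟩, ⟨0, 1, 1, 0⟩, ⟨1, 2, 3, 7⟩, ⟨0, 1, 1, 0⟩, ⟨1, 3, 3, 6⟩, ⟨1, 1, 2, 5⟩, ⟨0, 1, 1, 0⟩, ⟨1, 3, 3, 0⟩, ⟨0, 2, 2, 5⟩, ⟨0, 3, 3, 15⟩, ⟨0, 3, 3, 6⟩, ⟨1, 3, 3, 7⟩, ⟨0, 2, 2, 11⟩, ⟨0, 1, 2, 0⟩, ⟨1, 4, 4, 0⟩, ⟨0, 4, 4, 0⟩]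

/-- pattern -/
def pq1 : List PE := [⟨0, 4, 4, 0⟩, ⟨1, 4, 4, 11⟩, ⟨1, 2, 3, 0⟩, ⟨0, 2, 2, 9⟩, ⟨0, 2, 2, 0⟩, ⟨1, 1, 1, 5⟩, ⟨1, 3, 3, 0⟩, ⟨0, 1, 1, 7⟩, ⟨0, 1, 1, 0⟩, ⟨1, 1, 1, 5⟩, ⟨0, 1, 1, 0⟩, ⟨1, 3, 3, 0⟩, ⟨0, 2, 2, 5⟩, ⟨0, 3, 3, 15⟩, ⟨0, 3, 3, 6⟩, ⟨1, 3, 3, 7⟩, ⟨0, 2, 2, 11⟩, ⟨0, 1, 2, 0⟩, ⟨1, 4, 4, 0⟩, ⟨0, 4, 4, 0⟩]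

/-- pattern -/
def pq2 : List PE := [⟨0, 4, 4, 0⟩, ⟨1, 4, 4, 11⟩, ⟨0, 2, 2, 0⟩, ⟨1, 2, 2, 5⟩, ⟨1, 3, 3, 7⟩, ⟨0, 1, 1, 0⟩, ⟨1, 1, 1, 5⟩, ⟨0, 1, 1, 0⟩, ⟨1, 3, 3, 5⟩, ⟨0, 1, 1, 5⟩, ⟨0, 2, 2, 5⟩, ⟨1, 1, 1, 0⟩, ⟨0, 3, 3, 15⟩, ⟨0, 3, 3, 6⟩, ⟨1, 3, 3, 7⟩, ⟨0, 2, 2, 11⟩, ⟨1, 1, 3, 5⟩, ⟨1, 4, 4, 0⟩, ⟨0, 4, 4, 0⟩]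

/-- pattern -/
def pq3 : List PE := [⟨0, 4, 4, 0⟩, ⟨1, 4, 4, 11⟩, ⟨1, 3, 3, 11⟩, ⟨1, 2, 3, 5⟩, ⟨0, 1, 1, 5⟩, ⟨0, 2, 2, 9⟩, ⟨0, 2, 2, 0⟩, ⟨1, 1, 1, 0⟩, ⟨0, 1, 1, 0⟩, ⟨1, 3, 3, 0⟩, ⟨0, 1, 1, 7⟩, ⟨1, 1, 3, 5⟩, ⟨0, 1, 1, 0⟩, ⟨1, 3, 3, 5⟩, ⟨1, 1, 1, 5⟩, ⟨0, 2, 2, 5⟩, ⟨1, 1, 1, 0⟩, ⟨0, 3, 3, 15⟩, ⟨0, 3, 3, 6⟩, ⟨1, 3, 3, 7⟩, ⟨0, 2, 2, 11⟩, ⟨1, 1, 3, 5⟩, ⟨1, 4, 4, 0⟩, ⟨0, 4, 4, 0⟩]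

/-- pattern -/
def pq4 : List PE := [⟨0, 4, 4, 0⟩, ⟨1, 4, 4, 6⟩, ⟨1, 1, 2, 0⟩, ⟨0, 2, 2, 11⟩, ⟨1, 2, 3, 0⟩, ⟨0, 1, 1, 9⟩, ⟨0, 2, 2, 5⟩, ⟨1, 1, 2, 6⟩, ⟨1, 3, 3, 7⟩, ⟨1, 2, 3, 0⟩, ⟨0, 1, 1, 0⟩, ⟨1, 1, 1, 5⟩, ⟨0, 1, 1, 0⟩, ⟨1, 3, 3, 5⟩, ⟨0, 1, 1, 5⟩, ⟨0, 2, 2, 5⟩, ⟨1, 1, 1, 0⟩, ⟨0, 3, 3, 15⟩, ⟨0, 3, 3, 6⟩, ⟨1, 3, 3, 7⟩, ⟨0, 2, 2, 11⟩, ⟨1, 1, 3, 5⟩, ⟨1, 4, 4, 0⟩, ⟨0, 4, 4, 0⟩]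

/-- pattern -/
def pq5 : List PE := [⟨0, 4, 4, 0⟩, ⟨1, 4, 4, 0⟩, ⟨0, 1, 1, 11⟩, ⟨1, 3, 3, 6⟩, ⟨1, 1, 2, 0⟩, ⟨0, 2, 2, 9⟩, ⟨0, 2, 2, 0⟩, ⟨1, 1, 1, 5⟩, ⟨1, 3, 3, 0⟩, ⟨0, 1, 1, 7⟩, ⟨0, 1, 1, 0⟩, ⟨1, 1, 1, 5⟩, ⟨0, 1, 1, 0⟩, ⟨1, 3, 3, 0⟩, ⟨0, 2, 2, 5⟩, ⟨0, 3, 3, 15⟩, ⟨0, 3, 3, 6⟩, ⟨1, 3, 3, 7⟩, ⟨0, 2, 2, 11⟩, ⟨0, 1, 2, 0⟩, ⟨1, 4, 4, 0⟩, ⟨0, 4, 4, 0⟩]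

/-- pattern -/
def pq6 : List PE := [⟨0, 4, 4, 0⟩, ⟨1, 4, 4, 11⟩, ⟨1, 2, 3, 0⟩, ⟨0, 2, 2, 9⟩, ⟨0, 2, 2, 5⟩, ⟨0, 1, 1, 0⟩, ⟨1, 2, 2, 7⟩, ⟨1, 3, 3, 0⟩, ⟨0, 1, 1, 6⟩, ⟨1, 2, 2, 5⟩, ⟨0, 1, 1, 0⟩, ⟨1, 3, 3, 5⟩, ⟨0, 1, 1, 5⟩, ⟨0, 2, 2, 5⟩, ⟨1, 1, 1, 0⟩, ⟨0, 3, 3, 15⟩, ⟨0, 3, 3, 6⟩, ⟨1, 3, 3, 7⟩, ⟨0, 2, 2, 11⟩, ⟨1, 1, 3, 5⟩, ⟨1, 4, 4, 0⟩, ⟨0, 4, 4, 0⟩]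

/-- pattern -/
def pq7 : List PE := [⟨0, 4, 4, 0⟩, ⟨1, 4, 4, 11⟩, ⟨1, 2, 3, 0⟩, ⟨0, 2, 2, 9⟩, ⟨0, 2, 2, 0⟩, ⟨1, 1, 1, 5⟩, ⟨1, 3, 3, 0⟩, ⟨0, 1, 1, 7⟩, ⟨0, 1, 1, 0⟩, ⟨1, 1, 1, 5⟩, ⟨0, 1, 1, 0⟩, ⟨1, 3, 3, 5⟩, ⟨1, 1, 1, 5⟩, ⟨0, 2, 2, 5⟩, ⟨1, 1, 1, 0⟩, ⟨0, 3, 3, 15⟩, ⟨0, 3, 3, 6⟩, ⟨1, 3, 3, 7⟩, ⟨0, 2, 2, 11⟩, ⟨1, 1, 3, 5⟩, ⟨1, 4, 4, 0⟩, ⟨0, 4, 4, 0⟩]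

/-- pattern -/
def pq8 : List PE := [⟨0, 4, 4, 0⟩, ⟨1, 4, 4, 0⟩, ⟨0, 1, 1, 11⟩, ⟨1, 3, 3, 11⟩, ⟨1, 2, 3, 6⟩, ⟨1, 1, 2, 0⟩, ⟨0, 2, 2, 9⟩, ⟨0, 2, 2, 0⟩, ⟨1, 1, 1, 5⟩, ⟨1, 3, 3, 0⟩, ⟨0, 1, 1, 7⟩, ⟨0, 1, 1, 0⟩, ⟨1, 1, 1, 5⟩, ⟨0, 1, 1, 0⟩, ⟨1, 3, 3, 5⟩, ⟨0, 1, 1, 5⟩, ⟨0, 2, 2, 9⟩, ⟨0, 2, 2, 5⟩, ⟨1, 1, 1, 0⟩, ⟨0, 3, 3, 15⟩, ⟨0, 3, 3, 6⟩, ⟨1, 3, 3, 7⟩, ⟨0, 2, 2, 11⟩, ⟨1, 1, 3, 5⟩, ⟨1, 4, 4, 0⟩, ⟨0, 4, 4, 0⟩]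

/-- pattern -/
def pq9 : List PE := [⟨0, 4, 4, 0⟩, ⟨1, 4, 4, 11⟩, ⟨1, 3, 3, 11⟩, ⟨1, 2, 3, 5⟩, ⟨1, 1, 1, 5⟩, ⟨0, 2, 2, 9⟩, ⟨0, 2, 2, 0⟩, ⟨1, 1, 1, 0⟩, ⟨0, 1, 1, 0⟩, ⟨1, 3, 3, 0⟩, ⟨0, 1, 1, 7⟩, ⟨1, 1, 3, 5⟩, ⟨0, 1, 1, 0⟩, ⟨1, 3, 3, 0⟩, ⟨0, 2, 2, 5⟩, ⟨0, 3, 3, 15⟩, ⟨0, 3, 3, 6⟩, ⟨1, 3, 3, 7⟩, ⟨0, 2, 2, 11⟩, ⟨0, 1, 2, 0⟩, ⟨1, 4, 4, 0⟩, ⟨0, 4, 4, 0⟩]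

/-- pattern -/
def pq10 : List PE := [⟨0, 4, 4, 0⟩, ⟨1, 4, 4, 11⟩, ⟨1, 3, 3, 11⟩, ⟨1, 2, 3, 5⟩, ⟨1, 1, 1, 5⟩, ⟨0, 2, 2, 5⟩, ⟨0, 1, 1, 0⟩, ⟨1, 2, 3, 7⟩, ⟨0, 1, 1, 0⟩, ⟨1, 3, 3, 6⟩, ⟨1, 1, 2, 5⟩, ⟨0, 1, 1, 0⟩, ⟨1, 3, 3, 5⟩, ⟨1, 1, 1, 5⟩, ⟨0, 2, 2, 5⟩, ⟨1, 1, 1, 0⟩, ⟨0, 3, 3, 15⟩, ⟨0, 3, 3, 6⟩, ⟨1, 3, 3, 7⟩, ⟨0, 2, 2, 11⟩, ⟨1, 1, 3, 5⟩, ⟨1, 4, 4, 0⟩, ⟨0, 4, 4, 0⟩]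

/-- pattern -/
def pq11 : List PE := [⟨0, 4, 4, 0⟩, ⟨1, 4, 4, 6⟩, ⟨0, 2, 2, 11⟩, ⟨0, 2, 2, 6⟩, ⟨0, 1, 1, 5⟩, ⟨1, 2, 2, 0⟩, ⟨0, 1, 1, 0⟩, ⟨1, 3, 3, 7⟩, ⟨1, 1, 3, 5⟩, ⟨0, 1, 1, 0⟩, ⟨1, 3, 3, 5⟩, ⟨1, 1, 1, 5⟩, ⟨0, 2, 2, 5⟩, ⟨1, 1, 1, 0⟩, ⟨0, 3, 3, 15⟩, ⟨0, 3, 3, 6⟩, ⟨1, 3, 3, 7⟩, ⟨0, 2, 2, 11⟩, ⟨1, 1, 3, 5⟩, ⟨1, 4, 4, 0⟩, ⟨0, 4, 4, 0⟩]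

/-- pattern -/
def pq12 : List PE := [⟨0, 4, 4, 0⟩, ⟨1, 4, 4, 7⟩, ⟨1, 2, 3, 5⟩, ⟨0, 1, 1, 5⟩, ⟨0, 2, 2, 11⟩, ⟨1, 2, 3, 0⟩, ⟨0, 1, 1, 0⟩, ⟨1, 1, 1, 9⟩, ⟨1, 1, 1, 9⟩, ⟨0, 2, 2, 0⟩, ⟨1, 2, 3, 7⟩, ⟨1, 3, 3, 6⟩, ⟨1, 1, 2, 0⟩, ⟨0, 1, 1, 0⟩, ⟨1, 3, 3, 5⟩, ⟨1, 1, 1, 5⟩, ⟨0, 2, 2, 5⟩, ⟨1, 1, 1, 0⟩, ⟨0, 3, 3, 15⟩, ⟨0, 3, 3, 6⟩, ⟨1, 3, 3, 7⟩, ⟨0, 2, 2, 11⟩, ⟨1, 1, 3, 5⟩, ⟨1, 4, 4, 0⟩, ⟨0, 4, 4, 0⟩]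

/-- pattern -/
def pq13 : List PE := [⟨0, 4, 4, 0⟩, ⟨1, 4, 4, 11⟩, ⟨0, 2, 2, 11⟩, ⟨1, 2, 3, 0⟩, ⟨0, 2, 2, 9⟩, ⟨0, 2, 2, 0⟩, ⟨1, 2, 3, 7⟩, ⟨1, 3, 3, 6⟩, ⟨1, 1, 2, 5⟩, ⟨0, 1, 1, 0⟩, ⟨1, 3, 3, 5⟩, ⟨0, 1, 1, 5⟩, ⟨0, 2, 2, 5⟩, ⟨1, 1, 1, 0⟩, ⟨0, 3, 3, 15⟩, ⟨0, 3, 3, 6⟩, ⟨1, 3, 3, 7⟩, ⟨0, 2, 2, 11⟩, ⟨1, 1, 3, 5⟩, ⟨1, 4, 4, 0⟩, ⟨0, 4, 4, 0⟩]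

/-- pattern -/
def pq14 : List PE := [⟨0, 4, 4, 0⟩, ⟨1, 4, 4, 11⟩, ⟨0, 2, 2, 11⟩, ⟨1, 2, 3, 0⟩, ⟨0, 2, 2, 9⟩, ⟨0, 2, 2, 0⟩, ⟨1, 2, 3, 7⟩, ⟨1, 3, 3, 6⟩, ⟨1, 1, 2, 5⟩, ⟨0, 1, 1, 0⟩, ⟨1, 3, 3, 5⟩, ⟨1, 1, 1, 5⟩, ⟨0, 2, 2, 9⟩, ⟨0, 2, 2, 5⟩, ⟨1, 1, 1, 0⟩, ⟨0, 3, 3, 15⟩, ⟨0, 3, 3, 6⟩, ⟨1, 3, 3, 7⟩, ⟨0, 2, 2, 11⟩, ⟨1, 1, 3, 5⟩, ⟨1, 4, 4, 0⟩, ⟨0, 4, 4, 0⟩]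

/-- pattern -/
def pq15 : List PE := [⟨0, 4, 4, 0⟩, ⟨1, 4, 4, 11⟩, ⟨1, 2, 3, 0⟩, ⟨0, 2, 2, 9⟩, ⟨0, 2, 2, 0⟩, ⟨1, 1, 1, 5⟩, ⟨1, 3, 3, 0⟩, ⟨0, 1, 1, 7⟩, ⟨0, 1, 1, 0⟩, ⟨1, 1, 1, 5⟩, ⟨0, 1, 1, 0⟩, ⟨1, 3, 3, 5⟩, ⟨1, 1, 1, 5⟩, ⟨0, 2, 2, 9⟩, ⟨0, 2, 2, 5⟩, ⟨1, 1, 1, 0⟩, ⟨0, 3, 3, 15⟩, ⟨0, 3, 3, 6⟩, ⟨1, 3, 3, 7⟩, ⟨0, 2, 2, 11⟩, ⟨1, 1, 3, 5⟩, ⟨1, 4, 4, 0⟩, ⟨0, 4, 4, 0⟩]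

/-- pattern -/
def pq16 : List PE := [⟨0, 4, 4, 0⟩, ⟨1, 4, 4, 11⟩, ⟨0, 2, 2, 11⟩, ⟨1, 3, 3, 5⟩, ⟨0, 1, 1, 5⟩, ⟨0, 2, 2, 5⟩, ⟨0, 2, 2, 0⟩, ⟨1, 2, 3, 7⟩, ⟨0, 1, 1, 0⟩, ⟨1, 3, 3, 7⟩, ⟨1, 1, 3, 5⟩, ⟨0, 1, 1, 0⟩, ⟨1, 3, 3, 0⟩, ⟨0, 2, 2, 5⟩, ⟨0, 3, 3, 15⟩, ⟨0, 3, 3, 6⟩, ⟨1, 3, 3, 7⟩, ⟨0, 2, 2, 11⟩, ⟨0, 1, 2, 0⟩, ⟨1, 4, 4, 0⟩, ⟨0, 4, 4, 0⟩]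

/-- pattern -/
def pq17 : List PE := [⟨0, 4, 4, 0⟩, ⟨1, 4, 4, 11⟩, ⟨1, 3, 3, 11⟩, ⟨1, 2, 3, 5⟩, ⟨0, 1, 1, 5⟩, ⟨0, 2, 2, 9⟩, ⟨0, 2, 2, 5⟩, ⟨0, 1, 1, 0⟩, ⟨1, 1, 1, 0⟩, ⟨0, 1, 1, 0⟩, ⟨1, 3, 3, 0⟩, ⟨0, 1, 1, 7⟩, ⟨1, 1, 3, 5⟩, ⟨0, 1, 1, 0⟩, ⟨1, 3, 3, 0⟩, ⟨0, 2, 2, 5⟩, ⟨0, 3, 3, 15⟩, ⟨0, 3, 3, 6⟩, ⟨1, 3, 3, 7⟩, ⟨0, 2, 2, 11⟩, ⟨0, 1, 2, 0⟩, ⟨1, 4, 4, 0⟩, ⟨0, 4, 4, 0⟩]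

/-- pattern -/
def pq18 : List PE := [⟨0, 4, 4, 0⟩, ⟨1, 4, 4, 7⟩, ⟨1, 3, 3, 10⟩, ⟨0, 1, 2, 0⟩, ⟨1, 2, 2, 0⟩, ⟨0, 2, 2, 9⟩, ⟨1, 1, 1, 0⟩, ⟨0, 2, 2, 0⟩, ⟨1, 3, 3, 7⟩, ⟨1, 2, 3, 5⟩, ⟨0, 1, 1, 0⟩, ⟨1, 3, 3, 5⟩, ⟨1, 1, 1, 5⟩, ⟨0, 2, 2, 5⟩, ⟨1, 1, 1, 0⟩, ⟨0, 3, 3, 15⟩, ⟨0, 3, 3, 6⟩, ⟨1, 3, 3, 7⟩, ⟨0, 2, 2, 11⟩, ⟨1, 1, 3, 5⟩, ⟨1, 4, 4, 0⟩, ⟨0, 4, 4, 0⟩]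

/-- pattern -/
def pq19 : List PE := [⟨0, 4, 4, 0⟩, ⟨1, 4, 4, 7⟩, ⟨1, 3, 3, 10⟩, ⟨0, 1, 2, 0⟩, ⟨1, 2, 2, 0⟩, ⟨0, 2, 2, 9⟩, ⟨1, 1, 1, 0⟩, ⟨0, 2, 2, 0⟩, ⟨1, 3, 3, 7⟩, ⟨1, 2, 3, 5⟩, ⟨0, 1, 1, 0⟩, ⟨1, 3, 3, 5⟩, ⟨0, 1, 1, 5⟩, ⟨0, 2, 2, 9⟩, ⟨0, 2, 2, 5⟩, ⟨1, 1, 1, 0⟩, ⟨0, 3, 3, 15⟩, ⟨0, 3, 3, 6⟩, ⟨1, 3, 3, 7⟩, ⟨0, 2, 2, 11⟩, ⟨1, 1, 3, 5⟩, ⟨1, 4, 4, 0⟩, ⟨0, 4, 4, 0⟩]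

/-- pattern -/
def pq20 : List PE := [⟨0, 4, 4, 0⟩, ⟨1, 4, 4, 10⟩, ⟨1, 2, 2, 5⟩, ⟨1, 1, 1, 5⟩, ⟨0, 2, 2, 9⟩, ⟨0, 2, 2, 5⟩, ⟨1, 1, 1, 0⟩, ⟨0, 1, 1, 0⟩, ⟨1, 3, 3, 7⟩, ⟨0, 1, 1, 0⟩, ⟨1, 2, 2, 5⟩, ⟨0, 1, 1, 0⟩, ⟨1, 3, 3, 0⟩, ⟨0, 2, 2, 5⟩, ⟨0, 3, 3, 15⟩, ⟨0, 3, 3, 6⟩, ⟨1, 3, 3, 7⟩, ⟨0, 2, 2, 11⟩, ⟨0, 1, 2, 0⟩, ⟨1, 4, 4, 0⟩, ⟨0, 4, 4, 0⟩]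

/-- pattern -/
def pq21 : List PE := [⟨0, 4, 4, 0⟩, ⟨1, 4, 4, 7⟩, ⟨1, 3, 3, 10⟩, ⟨1, 1, 2, 0⟩, ⟨0, 2, 2, 0⟩, ⟨1, 2, 2, 5⟩, ⟨0, 1, 1, 0⟩, ⟨1, 1, 1, 0⟩, ⟨0, 1, 1, 0⟩, ⟨1, 2, 3, 6⟩, ⟨1, 3, 3, 7⟩, ⟨1, 1, 3, 5⟩, ⟨0, 1, 1, 0⟩, ⟨1, 3, 3, 5⟩, ⟨0, 1, 1, 5⟩, ⟨0, 2, 2, 5⟩, ⟨1, 1, 1, 0⟩, ⟨0, 3, 3, 15⟩, ⟨0, 3, 3, 6⟩, ⟨1, 3, 3, 7⟩, ⟨0, 2, 2, 11⟩, ⟨1, 1, 3, 5⟩, ⟨1, 4, 4, 0⟩, ⟨0, 4, 4, 0⟩]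

/-- pattern -/
def pq22 : List PE := [⟨0, 4, 4, 0⟩, ⟨1, 4, 4, 7⟩, ⟨1, 2, 3, 0⟩, ⟨0, 2, 2, 11⟩, ⟨1, 2, 3, 0⟩, ⟨0, 1, 1, 9⟩, ⟨0, 2, 2, 0⟩, ⟨1, 2, 3, 7⟩, ⟨1, 3, 3, 6⟩, ⟨1, 1, 2, 5⟩, ⟨0, 1, 1, 0⟩, ⟨1, 3, 3, 5⟩, ⟨1, 1, 1, 5⟩, ⟨0, 2, 2, 5⟩, ⟨1, 1, 1, 0⟩, ⟨0, 3, 3, 15⟩, ⟨0, 3, 3, 6⟩, ⟨1, 3, 3, 7⟩, ⟨0, 2, 2, 11⟩, ⟨1, 1, 3, 5⟩, ⟨1, 4, 4, 0⟩, ⟨0, 4, 4, 0⟩]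

/-- pattern -/
def pq23 : List PE := [⟨0, 4, 4, 0⟩, ⟨1, 4, 4, 11⟩, ⟨1, 3, 3, 11⟩, ⟨1, 2, 3, 5⟩, ⟨0, 1, 1, 5⟩, ⟨0, 2, 2, 9⟩, ⟨0, 2, 2, 5⟩, ⟨0, 1, 1, 0⟩, ⟨1, 2, 2, 7⟩, ⟨0, 1, 1, 0⟩, ⟨1, 3, 3, 0⟩, ⟨0, 1, 1, 6⟩, ⟨1, 2, 2, 5⟩, ⟨0, 1, 1, 0⟩, ⟨1, 3, 3, 0⟩, ⟨0, 2, 2, 5⟩, ⟨0, 3, 3, 15⟩, ⟨0, 3, 3, 6⟩, ⟨1, 3, 3, 7⟩, ⟨0, 2, 2, 11⟩, ⟨0, 1, 2, 0⟩, ⟨1, 4, 4, 0⟩, ⟨0, 4, 4, 0⟩]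

/-- pattern -/
def pq24 : List PE := [⟨0, 4, 4, 0⟩, ⟨1, 4, 4, 6⟩, ⟨1, 2, 2, 5⟩, ⟨0, 2, 2, 9⟩, ⟨0, 2, 2, 5⟩, ⟨1, 1, 1, 5⟩, ⟨1, 3, 3, 7⟩, ⟨1, 2, 3, 0⟩, ⟨0, 1, 1, 0⟩, ⟨1, 1, 1, 5⟩, ⟨0, 1, 1, 0⟩, ⟨1, 3, 3, 5⟩, ⟨1, 1, 1, 5⟩, ⟨0, 2, 2, 5⟩, ⟨1, 1, 1, 0⟩, ⟨0, 3, 3, 15⟩, ⟨0, 3, 3, 6⟩, ⟨1, 3, 3, 7⟩, ⟨0, 2, 2, 11⟩, ⟨1, 1, 3, 5⟩, ⟨1, 4, 4, 0⟩, ⟨0, 4, 4, 0⟩]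

/-- pattern -/
def pq25 : List PE := [⟨0, 4, 4, 0⟩, ⟨1, 4, 4, 11⟩, ⟨1, 2, 3, 0⟩, ⟨0, 2, 2, 9⟩, ⟨0, 2, 2, 5⟩, ⟨0, 1, 1, 0⟩, ⟨1, 2, 2, 7⟩, ⟨1, 3, 3, 0⟩, ⟨0, 1, 1, 6⟩, ⟨1, 2, 2, 5⟩, ⟨0, 1, 1, 0⟩, ⟨1, 3, 3, 0⟩, ⟨0, 2, 2, 5⟩, ⟨0, 3, 3, 15⟩, ⟨0, 3, 3, 6⟩, ⟨1, 3, 3, 7⟩, ⟨0, 2, 2, 11⟩, ⟨0, 1, 2, 0⟩, ⟨1, 4, 4, 0⟩, ⟨0, 4, 4, 0⟩]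

/-- pattern -/
def pq26 : List PE := [⟨0, 4, 4, 0⟩, ⟨1, 4, 4, 11⟩, ⟨1, 3, 3, 11⟩, ⟨0, 2, 2, 11⟩, ⟨1, 2, 3, 5⟩, ⟨0, 1, 1, 5⟩, ⟨0, 2, 2, 0⟩, ⟨1, 1, 1, 9⟩, ⟨0, 1, 2, 9⟩, ⟨0, 2, 2, 0⟩, ⟨1, 2, 3, 7⟩, ⟨0, 1, 1, 0⟩, ⟨1, 3, 3, 6⟩, ⟨1, 1, 2, 0⟩, ⟨0, 1, 1, 0⟩, ⟨1, 3, 3, 5⟩, ⟨1, 1, 1, 5⟩, ⟨0, 2, 2, 9⟩, ⟨0, 2, 2, 5⟩, ⟨1, 1, 1, 0⟩, ⟨0, 3, 3, 15⟩, ⟨0, 3, 3, 6⟩, ⟨1, 3, 3, 7⟩, ⟨0, 2, 2, 11⟩, ⟨1, 1, 3, 5⟩, ⟨1, 4, 4, 0⟩, ⟨0, 4, 4, 0⟩]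

/-- pattern -/
def pq27 : List PE := [⟨0, 4, 4, 0⟩, ⟨1, 4, 4, 7⟩, ⟨1, 2, 3, 0⟩, ⟨0, 1, 1, 0⟩, ⟨1, 1, 1, 5⟩, ⟨0, 2, 2, 9⟩, ⟨0, 2, 2, 0⟩, ⟨1, 2, 3, 7⟩, ⟨1, 3, 3, 6⟩, ⟨1, 1, 2, 0⟩, ⟨0, 1, 1, 0⟩, ⟨1, 3, 3, 5⟩, ⟨1, 1, 1, 5⟩, ⟨0, 2, 2, 9⟩, ⟨0, 2, 2, 5⟩, ⟨1, 1, 1, 0⟩, ⟨0, 3, 3, 15⟩, ⟨0, 3, 3, 6⟩, ⟨1, 3, 3, 7⟩, ⟨0, 2, 2, 11⟩, ⟨1, 1, 3, 5⟩, ⟨1, 4, 4, 0⟩, ⟨0, 4, 4, 0⟩]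

/-- pattern -/
def pq28 : List PE := [⟨0, 4, 4, 0⟩, ⟨1, 4, 4, 11⟩, ⟨1, 3, 3, 11⟩, ⟨1, 2, 3, 5⟩, ⟨1, 1, 1, 5⟩, ⟨0, 2, 2, 5⟩, ⟨0, 1, 1, 0⟩, ⟨1, 2, 3, 7⟩, ⟨0, 1, 1, 0⟩, ⟨1, 3, 3, 6⟩, ⟨1, 1, 2, 5⟩, ⟨0, 1, 1, 0⟩, ⟨1, 3, 3, 5⟩, ⟨1, 1, 1, 5⟩, ⟨0, 2, 2, 9⟩, ⟨0, 2, 2, 5⟩, ⟨1, 1, 1, 0⟩, ⟨0, 3, 3, 15⟩, ⟨0, 3, 3, 6⟩, ⟨1, 3, 3, 7⟩, ⟨0, 2, 2, 11⟩, ⟨1, 1, 3, 5⟩, ⟨1, 4, 4, 0⟩, ⟨0, 4, 4, 0⟩]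

/-- pattern -/
def pq29 : List PE := [⟨0, 4, 4, 0⟩, ⟨1, 4, 4, 6⟩, ⟨0, 2, 2, 11⟩, ⟨1, 2, 3, 9⟩, ⟨0, 2, 2, 9⟩, ⟨1, 1, 1, 0⟩, ⟨0, 2, 2, 0⟩, ⟨1, 3, 3, 7⟩, ⟨1, 2, 3, 5⟩, ⟨0, 1, 1, 0⟩, ⟨1, 3, 3, 5⟩, ⟨0, 1, 1, 5⟩, ⟨0, 2, 2, 9⟩, ⟨0, 2, 2, 5⟩, ⟨1, 1, 1, 0⟩, ⟨0, 3, 3, 15⟩, ⟨0, 3, 3, 6⟩, ⟨1, 3, 3, 7⟩, ⟨0, 2, 2, 11⟩, ⟨1, 1, 3, 5⟩, ⟨1, 4, 4, 0⟩, ⟨0, 4, 4, 0⟩]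

/-- pattern -/
def pq30 : List PE := [⟨0, 4, 4, 0⟩, ⟨1, 4, 4, 11⟩, ⟨1, 3, 3, 5⟩, ⟨1, 1, 1, 5⟩, ⟨0, 2, 2, 5⟩, ⟨0, 1, 1, 0⟩, ⟨1, 2, 3, 7⟩, ⟨0, 1, 1, 0⟩, ⟨1, 3, 3, 6⟩, ⟨1, 1, 2, 5⟩, ⟨0, 1, 1, 0⟩, ⟨1, 3, 3, 5⟩, ⟨0, 1, 1, 5⟩, ⟨0, 2, 2, 5⟩, ⟨1, 1, 1, 0⟩, ⟨0, 3, 3, 15⟩, ⟨0, 3, 3, 6⟩, ⟨1, 3, 3, 7⟩, ⟨0, 2, 2, 11⟩, ⟨1, 1, 3, 5⟩, ⟨1, 4, 4, 0⟩, ⟨0, 4, 4, 0⟩]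

/-- pattern -/
def pq31 : List PE := [⟨0, 4, 4, 0⟩, ⟨1, 4, 4, 11⟩, ⟨1, 3, 3, 5⟩, ⟨1, 1, 1, 5⟩, ⟨0, 2, 2, 9⟩, ⟨0, 2, 2, 5⟩, ⟨0, 1, 1, 0⟩, ⟨1, 2, 2, 7⟩, ⟨0, 1, 1, 0⟩, ⟨1, 3, 3, 0⟩, ⟨0, 1, 1, 6⟩, ⟨1, 2, 2, 5⟩, ⟨0, 1, 1, 0⟩, ⟨1, 3, 3, 0⟩, ⟨0, 2, 2, 5⟩, ⟨0, 3, 3, 15⟩, ⟨0, 3, 3, 6⟩, ⟨1, 3, 3, 7⟩, ⟨0, 2, 2, 11⟩, ⟨0, 1, 2, 0⟩, ⟨1, 4, 4, 0⟩, ⟨0, 4, 4, 0⟩]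

/-- pattern -/
def pq32 : List PE := [⟨0, 4, 4, 0⟩, ⟨1, 4, 4, 11⟩, ⟨1, 3, 3, 11⟩, ⟨0, 2, 2, 11⟩, ⟨1, 2, 3, 5⟩, ⟨0, 1, 1, 5⟩, ⟨0, 2, 2, 5⟩, ⟨0, 2, 2, 0⟩, ⟨1, 2, 3, 7⟩, ⟨0, 1, 1, 0⟩, ⟨1, 3, 3, 6⟩, ⟨1, 1, 2, 5⟩, ⟨0, 1, 1, 0⟩, ⟨1, 3, 3, 5⟩, ⟨1, 1, 1, 5⟩, ⟨0, 2, 2, 5⟩, ⟨1, 1, 1, 0⟩, ⟨0, 3, 3, 15⟩, ⟨0, 3, 3, 6⟩, ⟨1, 3, 3, 7⟩, ⟨0, 2, 2, 11⟩, ⟨1, 1, 3, 5⟩, ⟨1, 4, 4, 0⟩, ⟨0, 4, 4, 0⟩]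

/-- pattern -/
def pq33 : List PE := [⟨0, 4, 4, 0⟩, ⟨1, 4, 4, 11⟩, ⟨1, 3, 3, 11⟩, ⟨1, 2, 3, 5⟩, ⟨1, 1, 1, 5⟩, ⟨0, 2, 2, 5⟩, ⟨0, 1, 1, 0⟩, ⟨1, 2, 3, 7⟩, ⟨0, 1, 1, 0⟩, ⟨1, 3, 3, 6⟩, ⟨1, 1, 2, 5⟩, ⟨0, 1, 1, 0⟩, ⟨1, 3, 3, 0⟩, ⟨0, 2, 2, 9⟩, ⟨0, 2, 2, 5⟩, ⟨0, 3, 3, 15⟩, ⟨0, 3, 3, 6⟩, ⟨1, 3, 3, 7⟩, ⟨0, 2, 2, 11⟩, ⟨0, 1, 2, 0⟩, ⟨1, 4, 4, 0⟩, ⟨0, 4, 4, 0⟩]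

/-- pattern -/
def pq34 : List PE := [⟨0, 4, 4, 0⟩, ⟨1, 4, 4, 11⟩, ⟨1, 3, 3, 11⟩, ⟨1, 2, 3, 5⟩, ⟨1, 1, 1, 5⟩, ⟨0, 2, 2, 9⟩, ⟨0, 2, 2, 5⟩, ⟨0, 1, 1, 0⟩, ⟨1, 2, 2, 7⟩, ⟨0, 1, 1, 0⟩, ⟨1, 3, 3, 0⟩, ⟨0, 1, 1, 6⟩, ⟨1, 2, 2, 5⟩, ⟨0, 1, 1, 0⟩, ⟨1, 3, 3, 5⟩, ⟨0, 1, 1, 5⟩, ⟨0, 2, 2, 5⟩, ⟨1, 1, 1, 0⟩, ⟨0, 3, 3, 15⟩, ⟨0, 3, 3, 6⟩, ⟨1, 3, 3, 7⟩, ⟨0, 2, 2, 11⟩, ⟨1, 1, 3, 5⟩, ⟨1, 4, 4, 0⟩, ⟨0, 4, 4, 0⟩]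

/-- pattern -/
def pq35 : List PE := [⟨0, 4, 4, 0⟩, ⟨1, 4, 4, 6⟩, ⟨1, 2, 2, 5⟩, ⟨0, 2, 2, 9⟩, ⟨1, 1, 1, 0⟩, ⟨0, 2, 2, 6⟩, ⟨1, 1, 2, 6⟩, ⟨1, 3, 3, 7⟩, ⟨1, 2, 3, 0⟩, ⟨0, 1, 1, 0⟩, ⟨1, 1, 1, 5⟩, ⟨0, 1, 1, 0⟩, ⟨1, 3, 3, 5⟩, ⟨1, 1, 1, 5⟩, ⟨0, 2, 2, 9⟩, ⟨0, 2, 2, 5⟩, ⟨1, 1, 1, 0⟩, ⟨0, 3, 3, 15⟩, ⟨0, 3, 3, 6⟩, ⟨1, 3, 3, 7⟩, ⟨0, 2, 2, 11⟩, ⟨1, 1, 3, 5⟩, ⟨1, 4, 4, 0⟩, ⟨0, 4, 4, 0⟩]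

/-- pattern -/
def pq36 : List PE := [⟨0, 4, 4, 0⟩, ⟨1, 4, 4, 6⟩, ⟨1, 1, 2, 0⟩, ⟨0, 2, 2, 11⟩, ⟨1, 2, 3, 0⟩, ⟨0, 1, 1, 9⟩, ⟨0, 2, 2, 5⟩, ⟨1, 1, 2, 6⟩, ⟨1, 3, 3, 7⟩, ⟨1, 2, 3, 0⟩, ⟨0, 1, 1, 0⟩, ⟨1, 1, 1, 5⟩, ⟨0, 1, 1, 0⟩, ⟨1, 3, 3, 5⟩, ⟨1, 1, 1, 5⟩, ⟨0, 2, 2, 9⟩, ⟨0, 2, 2, 5⟩, ⟨1, 1, 1, 0⟩, ⟨0, 3, 3, 15⟩, ⟨0, 3, 3, 6⟩, ⟨1, 3, 3, 7⟩, ⟨0, 2, 2, 11⟩, ⟨1, 1, 3, 5⟩, ⟨1, 4, 4, 0⟩, ⟨0, 4, 4, 0⟩]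

/-- pattern -/
def pq37 : List PE := [⟨0, 4, 4, 0⟩, ⟨1, 4, 4, 11⟩, ⟨0, 2, 2, 5⟩, ⟨1, 1, 1, 5⟩, ⟨1, 2, 2, 0⟩, ⟨0, 1, 1, 6⟩, ⟨0, 1, 1, 0⟩, ⟨1, 3, 3, 7⟩, ⟨1, 1, 3, 0⟩, ⟨0, 1, 1, 0⟩, ⟨1, 1, 1, 5⟩, ⟨0, 1, 1, 0⟩, ⟨1, 3, 3, 5⟩, ⟨0, 1, 1, 5⟩, ⟨0, 2, 2, 5⟩, ⟨1, 1, 1, 0⟩, ⟨0, 3, 3, 15⟩, ⟨0, 3, 3, 6⟩, ⟨1, 3, 3, 7⟩, ⟨0, 2, 2, 11⟩, ⟨1, 1, 3, 5⟩, ⟨1, 4, 4, 0⟩, ⟨0, 4, 4, 0⟩]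

/-- pattern -/
def pq38 : List PE := [⟨0, 4, 4, 0⟩, ⟨1, 4, 4, 5⟩, ⟨1, 2, 2, 7⟩, ⟨0, 1, 1, 5⟩, ⟨0, 2, 2, 5⟩, ⟨0, 1, 1, 5⟩, ⟨1, 3, 3, 5⟩, ⟨0, 1, 1, 5⟩, ⟨0, 2, 2, 11⟩, ⟨0, 1, 2, 0⟩, ⟨1, 3, 3, 9⟩, ⟨0, 2, 2, 5⟩, ⟨1, 1, 1, 0⟩, ⟨0, 3, 3, 15⟩, ⟨0, 3, 3, 6⟩, ⟨1, 3, 3, 7⟩, ⟨0, 2, 2, 11⟩, ⟨1, 1, 3, 5⟩, ⟨1, 4, 4, 0⟩, ⟨0, 4, 4, 0⟩]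

/-- pattern -/
def pq39 : List PE := [⟨0, 4, 4, 0⟩, ⟨1, 4, 4, 11⟩, ⟨1, 3, 3, 5⟩, ⟨1, 1, 1, 5⟩, ⟨0, 2, 2, 5⟩, ⟨0, 1, 1, 0⟩, ⟨1, 2, 3, 7⟩, ⟨0, 1, 1, 0⟩, ⟨1, 3, 3, 6⟩, ⟨1, 1, 2, 5⟩, ⟨0, 1, 1, 0⟩, ⟨1, 3, 3, 5⟩, ⟨0, 1, 1, 5⟩, ⟨0, 2, 2, 9⟩, ⟨0, 2, 2, 5⟩, ⟨1, 1, 1, 0⟩, ⟨0, 3, 3, 15⟩, ⟨0, 3, 3, 6⟩, ⟨1, 3, 3, 7⟩, ⟨0, 2, 2, 11⟩, ⟨1, 1, 3, 5⟩, ⟨1, 4, 4, 0⟩, ⟨0, 4, 4, 0⟩]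

/-- pattern -/
def pq40 : List PE := [⟨0, 4, 4, 0⟩, ⟨1, 4, 4, 11⟩, ⟨0, 2, 2, 11⟩, ⟨1, 3, 3, 5⟩, ⟨0, 1, 1, 5⟩, ⟨0, 2, 2, 0⟩, ⟨1, 1, 1, 9⟩, ⟨1, 1, 1, 9⟩, ⟨0, 2, 2, 0⟩, ⟨1, 2, 3, 7⟩, ⟨0, 1, 1, 0⟩, ⟨1, 3, 3, 7⟩, ⟨1, 1, 3, 0⟩, ⟨0, 1, 1, 0⟩, ⟨1, 3, 3, 0⟩, ⟨0, 2, 2, 9⟩, ⟨0, 2, 2, 5⟩, ⟨0, 3, 3, 15⟩, ⟨0, 3, 3, 6⟩, ⟨1, 3, 3, 7⟩, ⟨0, 2, 2, 11⟩, ⟨0, 1, 2, 0⟩, ⟨1, 4, 4, 0⟩, ⟨0, 4, 4, 0⟩]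

/-- pattern -/
def pq41 : List PE := [⟨0, 4, 4, 0⟩, ⟨1, 4, 4, 7⟩, ⟨1, 3, 3, 10⟩, ⟨1, 1, 2, 0⟩, ⟨0, 2, 2, 0⟩, ⟨1, 2, 2, 6⟩, ⟨1, 2, 2, 5⟩, ⟨1, 1, 1, 0⟩, ⟨0, 1, 1, 0⟩, ⟨1, 3, 3, 7⟩, ⟨1, 1, 3, 5⟩, ⟨0, 1, 1, 0⟩, ⟨1, 3, 3, 5⟩, ⟨1, 1, 1, 5⟩, ⟨0, 2, 2, 9⟩, ⟨0, 2, 2, 5⟩, ⟨1, 1, 1, 0⟩, ⟨0, 3, 3, 15⟩, ⟨0, 3, 3, 6⟩, ⟨1, 3, 3, 7⟩, ⟨0, 2, 2, 11⟩, ⟨1, 1, 3, 5⟩, ⟨1, 4, 4, 0⟩, ⟨0, 4, 4, 0⟩]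

/-- pattern -/
def pq42 : List PE := [⟨0, 4, 4, 0⟩, ⟨1, 4, 4, 11⟩, ⟨1, 2, 3, 0⟩, ⟨0, 2, 2, 9⟩, ⟨0, 2, 2, 5⟩, ⟨0, 1, 1, 0⟩, ⟨1, 2, 2, 7⟩, ⟨1, 3, 3, 0⟩, ⟨0, 1, 1, 6⟩, ⟨1, 2, 2, 5⟩, ⟨0, 1, 1, 0⟩, ⟨1, 3, 3, 5⟩, ⟨0, 1, 1, 5⟩, ⟨0, 2, 2, 9⟩, ⟨0, 2, 2, 5⟩, ⟨1, 1, 1, 0⟩, ⟨0, 3, 3, 15⟩, ⟨0, 3, 3, 6⟩, ⟨1, 3, 3, 7⟩, ⟨0, 2, 2, 11⟩, ⟨1, 1, 3, 5⟩, ⟨1, 4, 4, 0⟩, ⟨0, 4, 4, 0⟩]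

/-- pattern -/
def pq43 : List PE := [⟨0, 4, 4, 0⟩, ⟨1, 4, 4, 11⟩, ⟨0, 2, 2, 5⟩, ⟨0, 1, 1, 5⟩, ⟨1, 2, 2, 6⟩, ⟨0, 1, 1, 0⟩, ⟨1, 3, 3, 7⟩, ⟨0, 1, 1, 0⟩, ⟨1, 1, 1, 5⟩, ⟨0, 1, 1, 0⟩, ⟨1, 3, 3, 0⟩, ⟨0, 2, 2, 9⟩, ⟨0, 2, 2, 5⟩, ⟨0, 3, 3, 15⟩, ⟨0, 3, 3, 6⟩, ⟨1, 3, 3, 7⟩, ⟨0, 2, 2, 11⟩, ⟨0, 1, 2, 0⟩, ⟨1, 4, 4, 0⟩, ⟨0, 4, 4, 0⟩]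

/-- pattern -/
def pq44 : List PE := [⟨0, 4, 4, 0⟩, ⟨1, 4, 4, 6⟩, ⟨0, 1, 1, 0⟩, ⟨1, 2, 3, 11⟩, ⟨0, 2, 2, 11⟩, ⟨1, 3, 3, 5⟩, ⟨1, 1, 1, 0⟩, ⟨0, 2, 2, 0⟩, ⟨1, 1, 1, 9⟩, ⟨1, 1, 1, 9⟩, ⟨0, 2, 2, 0⟩, ⟨1, 2, 3, 6⟩, ⟨1, 3, 3, 7⟩, ⟨1, 1, 3, 0⟩, ⟨0, 1, 1, 0⟩, ⟨1, 3, 3, 5⟩, ⟨1, 1, 1, 5⟩, ⟨0, 2, 2, 9⟩, ⟨0, 2, 2, 5⟩, ⟨1, 1, 1, 0⟩, ⟨0, 3, 3, 15⟩, ⟨0, 3, 3, 6⟩, ⟨1, 3, 3, 7⟩, ⟨0, 2, 2, 11⟩, ⟨1, 1, 3, 5⟩, ⟨1, 4, 4, 0⟩, ⟨0, 4, 4, 0⟩]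

/-- pattern -/
def pq45 : List PE := [⟨0, 4, 4, 0⟩, ⟨1, 4, 4, 11⟩, ⟨1, 3, 3, 11⟩, ⟨1, 2, 3, 5⟩, ⟨0, 1, 1, 5⟩, ⟨0, 2, 2, 9⟩, ⟨1, 1, 1, 0⟩, ⟨0, 2, 2, 5⟩, ⟨0, 1, 1, 0⟩, ⟨1, 2, 2, 7⟩, ⟨0, 1, 1, 0⟩, ⟨1, 3, 3, 5⟩, ⟨1, 2, 2, 6⟩, ⟨1, 1, 2, 5⟩, ⟨0, 1, 1, 0⟩, ⟨1, 3, 3, 5⟩, ⟨1, 1, 1, 5⟩, ⟨0, 2, 2, 9⟩, ⟨0, 2, 2, 5⟩, ⟨1, 1, 1, 0⟩, ⟨0, 3, 3, 15⟩, ⟨0, 3, 3, 6⟩, ⟨1, 3, 3, 7⟩, ⟨0, 2, 2, 11⟩, ⟨1, 1, 3, 5⟩, ⟨1, 4, 4, 0⟩, ⟨0, 4, 4, 0⟩]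

/-- pattern -/
def pq46 : List PE := [⟨0, 4, 4, 0⟩, ⟨1, 4, 4, 11⟩, ⟨1, 3, 3, 5⟩, ⟨1, 1, 1, 5⟩, ⟨0, 2, 2, 9⟩, ⟨0, 2, 2, 5⟩, ⟨0, 1, 1, 0⟩, ⟨1, 2, 2, 7⟩, ⟨0, 1, 1, 0⟩, ⟨1, 3, 3, 0⟩, ⟨0, 1, 1, 6⟩, ⟨1, 2, 2, 5⟩, ⟨0, 1, 1, 0⟩, ⟨1, 3, 3, 0⟩, ⟨0, 2, 2, 9⟩, ⟨0, 2, 2, 5⟩, ⟨0, 3, 3, 15⟩, ⟨0, 3, 3, 6⟩, ⟨1, 3, 3, 7⟩, ⟨0, 2, 2, 11⟩, ⟨0, 1, 2, 0⟩, ⟨1, 4, 4, 0⟩, ⟨0, 4, 4, 0⟩]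

/-- pattern -/
def pq47 : List PE := [⟨0, 4, 4, 0⟩, ⟨1, 4, 4, 5⟩, ⟨0, 1, 1, 11⟩, ⟨1, 3, 3, 5⟩, ⟨1, 1, 1, 0⟩, ⟨0, 2, 2, 9⟩, ⟨1, 1, 1, 0⟩, ⟨0, 2, 2, 5⟩, ⟨0, 1, 1, 0⟩, ⟨1, 2, 2, 7⟩, ⟨1, 1, 3, 5⟩, ⟨1, 3, 3, 5⟩, ⟨1, 2, 2, 6⟩, ⟨1, 1, 2, 5⟩, ⟨0, 1, 1, 0⟩, ⟨1, 3, 3, 5⟩, ⟨0, 1, 1, 5⟩, ⟨0, 2, 2, 5⟩, ⟨1, 1, 1, 0⟩, ⟨0, 3, 3, 15⟩, ⟨0, 3, 3, 6⟩, ⟨1, 3, 3, 7⟩, ⟨0, 2, 2, 11⟩, ⟨1, 1, 3, 5⟩, ⟨1, 4, 4, 0⟩, ⟨0, 4, 4, 0⟩]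

/-- pattern -/
def pq48 : List PE := [⟨0, 4, 4, 0⟩, ⟨1, 4, 4, 11⟩, ⟨1, 3, 3, 11⟩, ⟨1, 2, 3, 5⟩, ⟨0, 1, 1, 5⟩, ⟨0, 2, 2, 9⟩, ⟨0, 2, 2, 0⟩, ⟨1, 1, 1, 5⟩, ⟨0, 1, 1, 0⟩, ⟨1, 3, 3, 0⟩, ⟨0, 1, 1, 7⟩, ⟨0, 1, 1, 0⟩, ⟨1, 1, 1, 5⟩, ⟨0, 1, 1, 0⟩, ⟨1, 3, 3, 0⟩, ⟨0, 2, 2, 9⟩, ⟨0, 2, 2, 5⟩, ⟨0, 3, 3, 15⟩, ⟨0, 3, 3, 6⟩, ⟨1, 3, 3, 7⟩, ⟨0, 2, 2, 11⟩, ⟨0, 1, 2, 0⟩, ⟨1, 4, 4, 0⟩, ⟨0, 4, 4, 0⟩]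

/-- pattern -/
def pq49 : List PE := [⟨0, 4, 4, 0⟩, ⟨1, 4, 4, 11⟩, ⟨0, 2, 2, 5⟩, ⟨1, 1, 1, 5⟩, ⟨1, 2, 2, 6⟩, ⟨0, 1, 1, 0⟩, ⟨1, 3, 3, 7⟩, ⟨0, 1, 1, 0⟩, ⟨1, 1, 1, 5⟩, ⟨0, 1, 1, 0⟩, ⟨1, 3, 3, 0⟩, ⟨0, 2, 2, 5⟩, ⟨0, 3, 3, 15⟩, ⟨0, 3, 3, 6⟩, ⟨1, 3, 3, 7⟩, ⟨0, 2, 2, 11⟩, ⟨0, 1, 2, 0⟩, ⟨1, 4, 4, 0⟩, ⟨0, 4, 4, 0⟩]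

/-- pattern -/
def pq50 : List PE := [⟨0, 4, 4, 0⟩, ⟨1, 4, 4, 11⟩, ⟨0, 2, 2, 11⟩, ⟨1, 3, 3, 5⟩, ⟨1, 1, 1, 5⟩, ⟨0, 2, 2, 0⟩, ⟨1, 1, 1, 9⟩, ⟨1, 1, 1, 9⟩, ⟨0, 2, 2, 0⟩, ⟨1, 2, 3, 7⟩, ⟨0, 1, 1, 0⟩, ⟨1, 3, 3, 7⟩, ⟨1, 1, 3, 0⟩, ⟨0, 1, 1, 0⟩, ⟨1, 3, 3, 0⟩, ⟨0, 2, 2, 5⟩, ⟨0, 3, 3, 15⟩, ⟨0, 3, 3, 6⟩, ⟨1, 3, 3, 7⟩, ⟨0, 2, 2, 11⟩, ⟨0, 1, 2, 0⟩, ⟨1, 4, 4, 0⟩, ⟨0, 4, 4, 0⟩]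

/-- pattern -/
def pq51 : List PE := [⟨0, 4, 4, 0⟩, ⟨1, 4, 4, 11⟩, ⟨0, 2, 2, 0⟩, ⟨1, 2, 2, 5⟩, ⟨1, 2, 3, 7⟩, ⟨1, 3, 3, 7⟩, ⟨0, 1, 1, 0⟩, ⟨1, 1, 1, 5⟩, ⟨0, 1, 1, 0⟩, ⟨1, 3, 3, 5⟩, ⟨1, 1, 1, 5⟩, ⟨0, 2, 2, 5⟩, ⟨1, 1, 1, 0⟩, ⟨0, 3, 3, 15⟩, ⟨0, 3, 3, 6⟩, ⟨1, 3, 3, 7⟩, ⟨0, 2, 2, 11⟩, ⟨1, 1, 3, 5⟩, ⟨1, 4, 4, 0⟩, ⟨0, 4, 4, 0⟩]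

/-- pattern -/
def pq52 : List PE := [⟨0, 4, 4, 0⟩, ⟨1, 4, 4, 11⟩, ⟨0, 2, 2, 11⟩, ⟨1, 3, 3, 11⟩, ⟨1, 2, 3, 5⟩, ⟨1, 1, 1, 5⟩, ⟨0, 2, 2, 5⟩, ⟨0, 2, 2, 0⟩, ⟨1, 2, 3, 7⟩, ⟨0, 1, 1, 0⟩, ⟨1, 3, 3, 7⟩, ⟨1, 1, 3, 5⟩, ⟨0, 1, 1, 0⟩, ⟨1, 3, 3, 5⟩, ⟨1, 1, 1, 5⟩, ⟨0, 2, 2, 9⟩, ⟨0, 2, 2, 5⟩, ⟨1, 1, 1, 0⟩, ⟨0, 3, 3, 15⟩, ⟨0, 3, 3, 6⟩, ⟨1, 3, 3, 7⟩, ⟨0, 2, 2, 11⟩, ⟨1, 1, 3, 5⟩, ⟨1, 4, 4, 0⟩, ⟨0, 4, 4, 0⟩]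

/-- pattern -/
def pq53 : List PE := [⟨0, 4, 4, 0⟩, ⟨1, 4, 4, 11⟩, ⟨1, 3, 3, 11⟩, ⟨1, 2, 3, 5⟩, ⟨1, 1, 1, 5⟩, ⟨0, 2, 2, 9⟩, ⟨0, 2, 2, 5⟩, ⟨0, 1, 1, 0⟩, ⟨1, 2, 2, 7⟩, ⟨0, 1, 1, 0⟩, ⟨1, 3, 3, 0⟩, ⟨0, 1, 1, 5⟩, ⟨1, 2, 2, 5⟩, ⟨0, 1, 1, 0⟩, ⟨1, 3, 3, 5⟩, ⟨1, 1, 1, 5⟩, ⟨0, 2, 2, 9⟩, ⟨0, 2, 2, 5⟩, ⟨1, 1, 1, 0⟩, ⟨0, 3, 3, 15⟩, ⟨0, 3, 3, 6⟩, ⟨1, 3, 3, 7⟩, ⟨0, 2, 2, 11⟩, ⟨1, 1, 3, 5⟩, ⟨1, 4, 4, 0⟩, ⟨0, 4, 4, 0⟩]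

/-- pattern -/
def pq54 : List PE := [⟨0, 4, 4, 0⟩, ⟨1, 4, 4, 11⟩, ⟨1, 3, 3, 5⟩, ⟨1, 1, 1, 5⟩, ⟨0, 2, 2, 9⟩, ⟨0, 2, 2, 5⟩, ⟨0, 1, 1, 0⟩, ⟨1, 2, 2, 7⟩, ⟨0, 1, 1, 0⟩, ⟨1, 3, 3, 0⟩, ⟨0, 1, 1, 5⟩, ⟨1, 2, 2, 5⟩, ⟨0, 1, 1, 0⟩, ⟨1, 3, 3, 5⟩, ⟨1, 1, 1, 5⟩, ⟨0, 2, 2, 5⟩, ⟨1, 1, 1, 0⟩, ⟨0, 3, 3, 15⟩, ⟨0, 3, 3, 6⟩, ⟨1, 3, 3, 7⟩, ⟨0, 2, 2, 11⟩, ⟨1, 1, 3, 5⟩, ⟨1, 4, 4, 0⟩, ⟨0, 4, 4, 0⟩]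

/-- pattern -/
def pq55 : List PE := [⟨0, 4, 4, 0⟩, ⟨1, 4, 4, 11⟩, ⟨1, 3, 3, 11⟩, ⟨1, 2, 3, 5⟩, ⟨0, 1, 1, 5⟩, ⟨0, 2, 2, 9⟩, ⟨0, 2, 2, 5⟩, ⟨0, 1, 1, 0⟩, ⟨1, 2, 2, 7⟩, ⟨0, 1, 1, 0⟩, ⟨1, 3, 3, 0⟩, ⟨0, 1, 1, 6⟩, ⟨1, 2, 2, 5⟩, ⟨0, 1, 1, 0⟩, ⟨1, 3, 3, 0⟩, ⟨0, 2, 2, 9⟩, ⟨0, 2, 2, 5⟩, ⟨0, 3, 3, 15⟩, ⟨0, 3, 3, 6⟩, ⟨1, 3, 3, 7⟩, ⟨0, 2, 2, 11⟩, ⟨0, 1, 2, 0⟩, ⟨1, 4, 4, 0⟩, ⟨0, 4, 4, 0⟩]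

/-- pattern -/
def pq56 : List PE := [⟨0, 4, 4, 0⟩, ⟨1, 4, 4, 7⟩, ⟨1, 3, 3, 10⟩, ⟨1, 2, 2, 6⟩, ⟨0, 1, 1, 0⟩, ⟨1, 1, 1, 0⟩, ⟨0, 2, 2, 9⟩, ⟨1, 1, 1, 0⟩, ⟨0, 2, 2, 0⟩, ⟨1, 3, 3, 7⟩, ⟨1, 2, 3, 5⟩, ⟨0, 1, 1, 0⟩, ⟨1, 3, 3, 5⟩, ⟨0, 1, 1, 5⟩, ⟨0, 2, 2, 9⟩, ⟨0, 2, 2, 5⟩, ⟨1, 1, 1, 0⟩, ⟨0, 3, 3, 15⟩, ⟨0, 3, 3, 6⟩, ⟨1, 3, 3, 7⟩, ⟨0, 2, 2, 11⟩, ⟨1, 1, 3, 5⟩, ⟨1, 4, 4, 0⟩, ⟨0, 4, 4, 0⟩]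

/-- pattern -/
def pq57 : List PE := [⟨0, 4, 4, 0⟩, ⟨1, 4, 4, 11⟩, ⟨1, 2, 3, 0⟩, ⟨0, 2, 2, 9⟩, ⟨0, 2, 2, 5⟩, ⟨0, 1, 1, 0⟩, ⟨1, 3, 3, 0⟩, ⟨0, 1, 1, 7⟩, ⟨1, 3, 3, 7⟩, ⟨1, 1, 3, 5⟩, ⟨0, 1, 1, 0⟩, ⟨1, 3, 3, 0⟩, ⟨0, 2, 2, 9⟩, ⟨0, 2, 2, 5⟩, ⟨0, 3, 3, 15⟩, ⟨0, 3, 3, 6⟩, ⟨1, 3, 3, 7⟩, ⟨0, 2, 2, 11⟩, ⟨0, 1, 2, 0⟩, ⟨1, 4, 4, 0⟩, ⟨0, 4, 4, 0⟩]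

/-- pattern -/
def pq58 : List PE := [⟨0, 4, 4, 0⟩, ⟨1, 4, 4, 10⟩, ⟨1, 2, 2, 5⟩, ⟨0, 1, 1, 5⟩, ⟨0, 2, 2, 9⟩, ⟨0, 2, 2, 5⟩, ⟨1, 1, 1, 0⟩, ⟨0, 1, 1, 0⟩, ⟨1, 2, 3, 7⟩, ⟨1, 3, 3, 7⟩, ⟨0, 1, 1, 0⟩, ⟨1, 2, 2, 5⟩, ⟨0, 1, 1, 0⟩, ⟨1, 3, 3, 0⟩, ⟨0, 2, 2, 9⟩, ⟨0, 2, 2, 5⟩, ⟨0, 3, 3, 15⟩, ⟨0, 3, 3, 6⟩, ⟨1, 3, 3, 7⟩, ⟨0, 2, 2, 11⟩, ⟨0, 1, 2, 0⟩, ⟨1, 4, 4, 0⟩, ⟨0, 4, 4, 0⟩]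

/-- pattern -/
def pq59 : List PE := [⟨0, 4, 4, 0⟩, ⟨1, 4, 4, 11⟩, ⟨1, 2, 3, 0⟩, ⟨0, 2, 2, 9⟩, ⟨0, 2, 2, 5⟩, ⟨0, 1, 1, 0⟩, ⟨1, 2, 2, 7⟩, ⟨1, 3, 3, 0⟩, ⟨0, 1, 1, 6⟩, ⟨1, 2, 2, 5⟩, ⟨0, 1, 1, 0⟩, ⟨1, 3, 3, 0⟩, ⟨0, 2, 2, 9⟩, ⟨0, 2, 2, 5⟩, ⟨0, 3, 3, 15⟩, ⟨0, 3, 3, 6⟩, ⟨1, 3, 3, 7⟩, ⟨0, 2, 2, 11⟩, ⟨0, 1, 2, 0⟩, ⟨1, 4, 4, 0⟩, ⟨0, 4, 4, 0⟩]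

/-- pattern -/
def pq60 : List PE := [⟨0, 4, 4, 0⟩, ⟨1, 4, 4, 7⟩, ⟨1, 3, 3, 5⟩, ⟨0, 1, 1, 6⟩, ⟨0, 2, 2, 11⟩, ⟨1, 1, 3, 0⟩, ⟨0, 2, 2, 6⟩, ⟨0, 1, 1, 5⟩, ⟨1, 2, 2, 0⟩, ⟨0, 1, 1, 0⟩, ⟨1, 3, 3, 7⟩, ⟨1, 1, 3, 5⟩, ⟨0, 1, 1, 0⟩, ⟨1, 3, 3, 0⟩, ⟨0, 2, 2, 9⟩, ⟨0, 2, 2, 5⟩, ⟨0, 3, 3, 15⟩, ⟨0, 3, 3, 6⟩, ⟨1, 3, 3, 7⟩, ⟨0, 2, 2, 11⟩, ⟨0, 1, 2, 0⟩, ⟨1, 4, 4, 0⟩, ⟨0, 4, 4, 0⟩]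

/-- pattern -/
def pq61 : List PE := [⟨0, 4, 4, 0⟩, ⟨1, 4, 4, 11⟩, ⟨1, 3, 3, 11⟩, ⟨1, 2, 3, 5⟩, ⟨0, 1, 1, 5⟩, ⟨0, 2, 2, 9⟩, ⟨0, 2, 2, 5⟩, ⟨0, 1, 1, 0⟩, ⟨1, 1, 1, 0⟩, ⟨0, 1, 1, 0⟩, ⟨1, 2, 3, 7⟩, ⟨0, 1, 1, 0⟩, ⟨1, 3, 3, 0⟩, ⟨0, 1, 1, 6⟩, ⟨1, 1, 2, 5⟩, ⟨0, 1, 1, 0⟩, ⟨1, 3, 3, 5⟩, ⟨0, 1, 1, 5⟩, ⟨0, 2, 2, 5⟩, ⟨1, 1, 1, 0⟩, ⟨0, 3, 3, 15⟩, ⟨0, 3, 3, 6⟩, ⟨1, 3, 3, 7⟩, ⟨0, 2, 2, 11⟩, ⟨1, 1, 3, 5⟩, ⟨1, 4, 4, 0⟩, ⟨0, 4, 4, 0⟩]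

/-- pattern -/
def pq62 : List PE := [⟨0, 4, 4, 0⟩, ⟨1, 4, 4, 7⟩, ⟨1, 2, 3, 0⟩, ⟨0, 1, 1, 0⟩, ⟨1, 1, 1, 5⟩, ⟨0, 2, 2, 9⟩, ⟨0, 2, 2, 0⟩, ⟨1, 2, 3, 7⟩, ⟨1, 3, 3, 6⟩, ⟨1, 1, 2, 0⟩, ⟨0, 1, 1, 0⟩, ⟨1, 3, 3, 5⟩, ⟨0, 1, 1, 5⟩, ⟨0, 2, 2, 5⟩, ⟨1, 1, 1, 0⟩, ⟨0, 3, 3, 15⟩, ⟨0, 3, 3, 6⟩, ⟨1, 3, 3, 7⟩, ⟨0, 2, 2, 11⟩, ⟨1, 1, 3, 5⟩, ⟨1, 4, 4, 0⟩, ⟨0, 4, 4, 0⟩]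

/-- pattern -/
def pq63 : List PE := [⟨0, 4, 4, 0⟩, ⟨1, 4, 4, 11⟩, ⟨0, 1, 2, 0⟩, ⟨1, 3, 3, 5⟩, ⟨1, 1, 1, 5⟩, ⟨0, 2, 2, 6⟩, ⟨1, 2, 2, 6⟩, ⟨1, 1, 2, 0⟩, ⟨0, 1, 1, 0⟩, ⟨1, 3, 3, 7⟩, ⟨1, 1, 3, 5⟩, ⟨0, 1, 1, 0⟩, ⟨1, 3, 3, 0⟩, ⟨0, 2, 2, 5⟩, ⟨0, 3, 3, 15⟩, ⟨0, 3, 3, 6⟩, ⟨1, 3, 3, 7⟩, ⟨0, 2, 2, 11⟩, ⟨0, 1, 2, 0⟩, ⟨1, 4, 4, 0⟩, ⟨0, 4, 4, 0⟩]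

/-- pattern -/
def pq64 : List PE := [⟨0, 4, 4, 0⟩, ⟨1, 4, 4, 6⟩, ⟨1, 1, 2, 0⟩, ⟨0, 2, 2, 11⟩, ⟨1, 2, 3, 0⟩, ⟨0, 1, 1, 9⟩, ⟨0, 2, 2, 6⟩, ⟨0, 1, 1, 5⟩, ⟨1, 3, 3, 7⟩, ⟨1, 2, 3, 5⟩, ⟨0, 1, 1, 0⟩, ⟨1, 1, 1, 5⟩, ⟨0, 1, 1, 0⟩, ⟨1, 3, 3, 0⟩, ⟨0, 2, 2, 9⟩, ⟨0, 2, 2, 5⟩, ⟨0, 3, 3, 15⟩, ⟨0, 3, 3, 6⟩, ⟨1, 3, 3, 7⟩, ⟨0, 2, 2, 11⟩, ⟨0, 1, 2, 0⟩, ⟨1, 4, 4, 0⟩, ⟨0, 4, 4, 0⟩]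

/-- pattern -/
def pq65 : List PE := [⟨0, 4, 4, 0⟩, ⟨1, 4, 4, 11⟩, ⟨0, 2, 2, 11⟩, ⟨1, 3, 3, 5⟩, ⟨0, 1, 1, 5⟩, ⟨0, 2, 2, 5⟩, ⟨0, 2, 2, 0⟩, ⟨1, 2, 3, 7⟩, ⟨0, 1, 1, 0⟩, ⟨1, 3, 3, 7⟩, ⟨1, 1, 3, 5⟩, ⟨0, 1, 1, 0⟩, ⟨1, 3, 3, 5⟩, ⟨1, 1, 1, 5⟩, ⟨0, 2, 2, 9⟩, ⟨0, 2, 2, 5⟩, ⟨1, 1, 1, 0⟩, ⟨0, 3, 3, 15⟩, ⟨0, 3, 3, 6⟩, ⟨1, 3, 3, 7⟩, ⟨0, 2, 2, 11⟩, ⟨1, 1, 3, 5⟩, ⟨1, 4, 4, 0⟩, ⟨0, 4, 4, 0⟩]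

/-- pattern -/
def pq66 : List PE := [⟨0, 4, 4, 0⟩, ⟨1, 4, 4, 11⟩, ⟨0, 2, 2, 0⟩, ⟨1, 2, 2, 0⟩, ⟨0, 1, 1, 5⟩, ⟨1, 1, 2, 6⟩, ⟨1, 3, 3, 7⟩, ⟨1, 1, 3, 0⟩, ⟨0, 1, 1, 0⟩, ⟨1, 1, 1, 5⟩, ⟨0, 1, 1, 0⟩, ⟨1, 3, 3, 5⟩, ⟨0, 1, 1, 5⟩, ⟨0, 2, 2, 9⟩, ⟨0, 2, 2, 5⟩, ⟨1, 1, 1, 0⟩, ⟨0, 3, 3, 15⟩, ⟨0, 3, 3, 6⟩, ⟨1, 3, 3, 7⟩, ⟨0, 2, 2, 11⟩, ⟨1, 1, 3, 5⟩, ⟨1, 4, 4, 0⟩, ⟨0, 4, 4, 0⟩]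

/-- pattern -/
def pq67 : List PE := [⟨0, 4, 4, 0⟩, ⟨1, 4, 4, 11⟩, ⟨0, 1, 2, 0⟩, ⟨1, 3, 3, 10⟩, ⟨1, 2, 2, 5⟩, ⟨0, 1, 1, 5⟩, ⟨0, 2, 2, 9⟩, ⟨0, 2, 2, 0⟩, ⟨1, 2, 2, 5⟩, ⟨1, 1, 1, 0⟩, ⟨0, 1, 1, 0⟩, ⟨1, 3, 3, 7⟩, ⟨1, 1, 3, 5⟩, ⟨0, 1, 1, 0⟩, ⟨1, 3, 3, 5⟩, ⟨0, 1, 1, 5⟩, ⟨0, 2, 2, 9⟩, ⟨0, 2, 2, 5⟩, ⟨1, 1, 1, 0⟩, ⟨0, 3, 3, 15⟩, ⟨0, 3, 3, 6⟩, ⟨1, 3, 3, 7⟩, ⟨0, 2, 2, 11⟩, ⟨1, 1, 3, 5⟩, ⟨1, 4, 4, 0⟩, ⟨0, 4, 4, 0⟩]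

/-- pattern -/
def pq68 : List PE := [⟨0, 4, 4, 0⟩, ⟨1, 4, 4, 11⟩, ⟨0, 2, 2, 11⟩, ⟨1, 3, 3, 5⟩, ⟨1, 1, 1, 5⟩, ⟨0, 2, 2, 5⟩, ⟨0, 2, 2, 0⟩, ⟨1, 2, 3, 7⟩, ⟨0, 1, 1, 0⟩, ⟨1, 3, 3, 7⟩, ⟨1, 1, 3, 5⟩, ⟨0, 1, 1, 0⟩, ⟨1, 3, 3, 0⟩, ⟨0, 2, 2, 9⟩, ⟨0, 2, 2, 5⟩, ⟨0, 3, 3, 15⟩, ⟨0, 3, 3, 6⟩, ⟨1, 3, 3, 7⟩, ⟨0, 2, 2, 11⟩, ⟨0, 1, 2, 0⟩, ⟨1, 4, 4, 0⟩, ⟨0, 4, 4, 0⟩]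

/-- pattern -/
def pq69 : List PE := [⟨0, 4, 4, 0⟩, ⟨1, 4, 4, 6⟩, ⟨0, 2, 2, 11⟩, ⟨1, 2, 3, 9⟩, ⟨0, 1, 2, 9⟩, ⟨0, 2, 2, 0⟩, ⟨1, 2, 3, 7⟩, ⟨1, 3, 3, 7⟩, ⟨1, 2, 3, 0⟩, ⟨0, 1, 1, 0⟩, ⟨1, 3, 3, 5⟩, ⟨1, 1, 1, 5⟩, ⟨0, 2, 2, 9⟩, ⟨0, 2, 2, 5⟩, ⟨1, 1, 1, 0⟩, ⟨0, 3, 3, 15⟩, ⟨0, 3, 3, 6⟩, ⟨1, 3, 3, 7⟩, ⟨0, 2, 2, 11⟩, ⟨1, 1, 3, 5⟩, ⟨1, 4, 4, 0⟩, ⟨0, 4, 4, 0⟩]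

/-- pattern -/
def pq70 : List PE := [⟨0, 4, 4, 0⟩, ⟨1, 4, 4, 11⟩, ⟨1, 3, 3, 5⟩, ⟨0, 1, 1, 5⟩, ⟨0, 2, 2, 9⟩, ⟨0, 2, 2, 0⟩, ⟨1, 1, 1, 0⟩, ⟨0, 1, 1, 0⟩, ⟨1, 2, 3, 7⟩, ⟨0, 1, 1, 0⟩, ⟨1, 3, 3, 0⟩, ⟨0, 1, 1, 6⟩, ⟨1, 1, 2, 5⟩, ⟨0, 1, 1, 0⟩, ⟨1, 3, 3, 5⟩, ⟨1, 1, 1, 5⟩, ⟨0, 2, 2, 9⟩, ⟨0, 2, 2, 5⟩, ⟨1, 1, 1, 0⟩, ⟨0, 3, 3, 15⟩, ⟨0, 3, 3, 6⟩, ⟨1, 3, 3, 7⟩, ⟨0, 2, 2, 11⟩, ⟨1, 1, 3, 5⟩, ⟨1, 4, 4, 0⟩, ⟨0, 4, 4, 0⟩]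

/-- pattern -/
def pq71 : List PE := [⟨0, 4, 4, 0⟩, ⟨1, 4, 4, 11⟩, ⟨1, 3, 3, 5⟩, ⟨0, 1, 1, 5⟩, ⟨0, 2, 2, 9⟩, ⟨0, 2, 2, 5⟩, ⟨0, 1, 1, 0⟩, ⟨1, 2, 2, 7⟩, ⟨0, 1, 1, 0⟩, ⟨1, 3, 3, 0⟩, ⟨0, 1, 1, 6⟩, ⟨1, 2, 2, 5⟩, ⟨0, 1, 1, 0⟩, ⟨1, 3, 3, 5⟩, ⟨0, 1, 1, 5⟩, ⟨0, 2, 2, 9⟩, ⟨0, 2, 2, 5⟩, ⟨1, 1, 1, 0⟩, ⟨0, 3, 3, 15⟩, ⟨0, 3, 3, 6⟩, ⟨1, 3, 3, 7⟩, ⟨0, 2, 2, 11⟩, ⟨1, 1, 3, 5⟩, ⟨1, 4, 4, 0⟩, ⟨0, 4, 4, 0⟩]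

/-- pattern -/
def pq72 : List PE := [⟨0, 4, 4, 0⟩, ⟨1, 4, 4, 11⟩, ⟨0, 2, 2, 11⟩, ⟨1, 2, 3, 0⟩, ⟨0, 2, 2, 9⟩, ⟨0, 2, 2, 0⟩, ⟨1, 2, 3, 7⟩, ⟨1, 3, 3, 6⟩, ⟨1, 1, 2, 5⟩, ⟨0, 1, 1, 0⟩, ⟨1, 3, 3, 0⟩, ⟨0, 2, 2, 5⟩, ⟨0, 3, 3, 15⟩, ⟨0, 3, 3, 6⟩, ⟨1, 3, 3, 7⟩, ⟨0, 2, 2, 11⟩, ⟨0, 1, 2, 0⟩, ⟨1, 4, 4, 0⟩, ⟨0, 4, 4, 0⟩]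

/-- pattern -/
def pq73 : List PE := [⟨0, 4, 4, 0⟩, ⟨1, 4, 4, 11⟩, ⟨1, 3, 3, 0⟩, ⟨0, 2, 2, 10⟩, ⟨0, 2, 2, 0⟩, ⟨1, 2, 2, 5⟩, ⟨1, 1, 1, 0⟩, ⟨0, 1, 1, 0⟩, ⟨1, 3, 3, 7⟩, ⟨1, 1, 3, 5⟩, ⟨0, 1, 1, 0⟩, ⟨1, 3, 3, 0⟩, ⟨0, 2, 2, 9⟩, ⟨0, 2, 2, 5⟩, ⟨0, 3, 3, 15⟩, ⟨0, 3, 3, 6⟩, ⟨1, 3, 3, 7⟩, ⟨0, 2, 2, 11⟩, ⟨0, 1, 2, 0⟩, ⟨1, 4, 4, 0⟩, ⟨0, 4, 4, 0⟩]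

/-- pattern -/
def pq74 : List PE := [⟨0, 4, 4, 0⟩, ⟨1, 4, 4, 11⟩, ⟨1, 3, 3, 5⟩, ⟨0, 1, 1, 5⟩, ⟨0, 2, 2, 5⟩, ⟨0, 1, 1, 0⟩, ⟨1, 2, 3, 7⟩, ⟨0, 1, 1, 0⟩, ⟨1, 3, 3, 6⟩, ⟨1, 1, 2, 5⟩, ⟨0, 1, 1, 0⟩, ⟨1, 3, 3, 0⟩, ⟨0, 2, 2, 9⟩, ⟨0, 2, 2, 5⟩, ⟨0, 3, 3, 15⟩, ⟨0, 3, 3, 6⟩, ⟨1, 3, 3, 7⟩, ⟨0, 2, 2, 11⟩, ⟨0, 1, 2, 0⟩, ⟨1, 4, 4, 0⟩, ⟨0, 4, 4, 0⟩]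

/-- pattern -/
def pq75 : List PE := [⟨0, 4, 4, 0⟩, ⟨1, 4, 4, 7⟩, ⟨1, 3, 3, 10⟩, ⟨1, 1, 2, 0⟩, ⟨0, 2, 2, 0⟩, ⟨1, 2, 2, 6⟩, ⟨1, 2, 2, 0⟩, ⟨0, 1, 1, 0⟩, ⟨1, 3, 3, 7⟩, ⟨1, 1, 3, 5⟩, ⟨0, 1, 1, 0⟩, ⟨1, 3, 3, 5⟩, ⟨0, 1, 1, 5⟩, ⟨0, 2, 2, 9⟩, ⟨0, 2, 2, 5⟩, ⟨1, 1, 1, 0⟩, ⟨0, 3, 3, 15⟩, ⟨0, 3, 3, 6⟩, ⟨1, 3, 3, 7⟩, ⟨0, 2, 2, 11⟩, ⟨1, 1, 3, 5⟩, ⟨1, 4, 4, 0⟩, ⟨0, 4, 4, 0⟩]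

/-- pattern -/
def pq76 : List PE := [⟨0, 4, 4, 0⟩, ⟨1, 4, 4, 11⟩, ⟨1, 3, 3, 0⟩, ⟨0, 2, 2, 10⟩, ⟨0, 2, 2, 0⟩, ⟨1, 2, 2, 6⟩, ⟨1, 2, 2, 5⟩, ⟨1, 1, 1, 0⟩, ⟨0, 1, 1, 0⟩, ⟨1, 3, 3, 7⟩, ⟨1, 1, 3, 5⟩, ⟨0, 1, 1, 0⟩, ⟨1, 3, 3, 0⟩, ⟨0, 2, 2, 9⟩, ⟨0, 2, 2, 5⟩, ⟨0, 3, 3, 15⟩, ⟨0, 3, 3, 6⟩, ⟨1, 3, 3, 7⟩, ⟨0, 2, 2, 11⟩, ⟨0, 1, 2, 0⟩, ⟨1, 4, 4, 0⟩, ⟨0, 4, 4, 0⟩]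

/-- pattern -/
def pq77 : List PE := [⟨0, 4, 4, 0⟩, ⟨1, 4, 4, 11⟩, ⟨1, 2, 3, 0⟩, ⟨0, 2, 2, 9⟩, ⟨1, 1, 1, 0⟩, ⟨0, 2, 2, 5⟩, ⟨0, 1, 1, 0⟩, ⟨1, 2, 2, 7⟩, ⟨1, 3, 3, 5⟩, ⟨1, 2, 2, 5⟩, ⟨0, 1, 1, 0⟩, ⟨1, 3, 3, 0⟩, ⟨0, 2, 2, 5⟩, ⟨0, 3, 3, 15⟩, ⟨0, 3, 3, 6⟩, ⟨1, 3, 3, 7⟩, ⟨0, 2, 2, 11⟩, ⟨0, 1, 2, 0⟩, ⟨1, 4, 4, 0⟩, ⟨0, 4, 4, 0⟩]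

/-- pattern -/
def pq78 : List PE := [⟨0, 4, 4, 0⟩, ⟨1, 4, 4, 11⟩, ⟨1, 2, 3, 0⟩, ⟨0, 2, 2, 9⟩, ⟨1, 1, 1, 0⟩, ⟨0, 2, 2, 5⟩, ⟨0, 1, 1, 0⟩, ⟨1, 2, 2, 7⟩, ⟨1, 3, 3, 5⟩, ⟨1, 2, 2, 5⟩, ⟨0, 1, 1, 0⟩, ⟨1, 3, 3, 0⟩, ⟨0, 2, 2, 9⟩, ⟨0, 2, 2, 5⟩, ⟨0, 3, 3, 15⟩, ⟨0, 3, 3, 6⟩, ⟨1, 3, 3, 7⟩, ⟨0, 2, 2, 11⟩, ⟨0, 1, 2, 0⟩, ⟨1, 4, 4, 0⟩, ⟨0, 4, 4, 0⟩]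

/-- pattern -/
def pq79 : List PE := [⟨0, 4, 4, 0⟩, ⟨1, 4, 4, 11⟩, ⟨1, 3, 3, 11⟩, ⟨1, 2, 3, 5⟩, ⟨0, 1, 1, 5⟩, ⟨0, 2, 2, 9⟩, ⟨0, 2, 2, 5⟩, ⟨0, 1, 1, 0⟩, ⟨1, 2, 2, 7⟩, ⟨0, 1, 1, 0⟩, ⟨1, 3, 3, 0⟩, ⟨0, 1, 1, 5⟩, ⟨1, 2, 2, 5⟩, ⟨0, 1, 1, 0⟩, ⟨1, 3, 3, 5⟩, ⟨1, 1, 1, 5⟩, ⟨0, 2, 2, 5⟩, ⟨1, 1, 1, 0⟩, ⟨0, 3, 3, 15⟩, ⟨0, 3, 3, 6⟩, ⟨1, 3, 3, 7⟩, ⟨0, 2, 2, 11⟩, ⟨1, 1, 3, 5⟩, ⟨1, 4, 4, 0⟩, ⟨0, 4, 4, 0⟩]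

/-- pattern -/
def pq80 : List PE := [⟨0, 4, 4, 0⟩, ⟨1, 4, 4, 11⟩, ⟨1, 3, 3, 11⟩, ⟨1, 2, 3, 5⟩, ⟨1, 1, 1, 5⟩, ⟨0, 2, 2, 9⟩, ⟨0, 2, 2, 5⟩, ⟨0, 1, 1, 0⟩, ⟨1, 2, 2, 7⟩, ⟨0, 1, 1, 0⟩, ⟨1, 3, 3, 0⟩, ⟨0, 1, 1, 5⟩, ⟨1, 2, 2, 5⟩, ⟨0, 1, 1, 0⟩, ⟨1, 3, 3, 0⟩, ⟨0, 2, 2, 9⟩, ⟨0, 2, 2, 5⟩, ⟨0, 3, 3, 15⟩, ⟨0, 3, 3, 6⟩, ⟨1, 3, 3, 7⟩, ⟨0, 2, 2, 11⟩, ⟨0, 1, 2, 0⟩, ⟨1, 4, 4, 0⟩, ⟨0, 4, 4, 0⟩]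

/-- pattern -/
def pq81 : List PE := [⟨0, 4, 4, 0⟩, ⟨1, 4, 4, 11⟩, ⟨1, 3, 3, 5⟩, ⟨1, 1, 1, 5⟩, ⟨0, 2, 2, 9⟩, ⟨1, 1, 1, 0⟩, ⟨0, 2, 2, 5⟩, ⟨0, 1, 1, 0⟩, ⟨1, 2, 2, 7⟩, ⟨0, 1, 1, 0⟩, ⟨1, 3, 3, 5⟩, ⟨1, 2, 2, 5⟩, ⟨0, 1, 1, 0⟩, ⟨1, 3, 3, 5⟩, ⟨1, 1, 1, 5⟩, ⟨0, 2, 2, 9⟩, ⟨0, 2, 2, 5⟩, ⟨1, 1, 1, 0⟩, ⟨0, 3, 3, 15⟩, ⟨0, 3, 3, 6⟩, ⟨1, 3, 3, 7⟩, ⟨0, 2, 2, 11⟩, ⟨1, 1, 3, 5⟩, ⟨1, 4, 4, 0⟩, ⟨0, 4, 4, 0⟩]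

/-- pattern -/
def pq82 : List PE := [⟨0, 4, 4, 0⟩, ⟨1, 4, 4, 7⟩, ⟨0, 1, 1, 10⟩, ⟨1, 2, 2, 5⟩, ⟨1, 1, 1, 0⟩, ⟨0, 2, 2, 9⟩, ⟨1, 1, 1, 0⟩, ⟨0, 2, 2, 0⟩, ⟨1, 2, 3, 7⟩, ⟨1, 3, 3, 5⟩, ⟨1, 2, 2, 5⟩, ⟨0, 1, 1, 0⟩, ⟨1, 3, 3, 5⟩, ⟨0, 1, 1, 5⟩, ⟨0, 2, 2, 9⟩, ⟨0, 2, 2, 5⟩, ⟨1, 1, 1, 0⟩, ⟨0, 3, 3, 15⟩, ⟨0, 3, 3, 6⟩, ⟨1, 3, 3, 7⟩, ⟨0, 2, 2, 11⟩, ⟨1, 1, 3, 5⟩, ⟨1, 4, 4, 0⟩, ⟨0, 4, 4, 0⟩]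

/-- pattern -/
def pq83 : List PE := [⟨0, 4, 4, 0⟩, ⟨1, 4, 4, 11⟩, ⟨1, 2, 3, 0⟩, ⟨0, 2, 2, 5⟩, ⟨1, 1, 1, 5⟩, ⟨1, 2, 3, 11⟩, ⟨0, 1, 2, 0⟩, ⟨1, 2, 2, 0⟩, ⟨0, 2, 2, 9⟩, ⟨0, 2, 2, 5⟩, ⟨1, 1, 1, 0⟩, ⟨0, 1, 1, 0⟩, ⟨1, 3, 3, 10⟩, ⟨0, 2, 2, 6⟩, ⟨0, 1, 1, 0⟩, ⟨1, 2, 2, 0⟩, ⟨0, 2, 2, 5⟩, ⟨0, 1, 1, 5⟩, ⟨1, 1, 1, 0⟩, ⟨0, 3, 3, 0⟩, ⟨1, 1, 1, 5⟩, ⟨0, 2, 2, 5⟩, ⟨0, 2, 2, 10⟩, ⟨1, 3, 3, 5⟩, ⟨1, 2, 2, 11⟩, ⟨1, 2, 3, 6⟩, ⟨1, 4, 4, 0⟩, ⟨0, 4, 4, 0⟩]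

/-- pattern -/
def pq84 : List PE := [⟨0, 4, 4, 0⟩, ⟨1, 4, 4, 11⟩, ⟨1, 2, 3, 0⟩, ⟨0, 2, 2, 5⟩, ⟨1, 1, 1, 5⟩, ⟨1, 2, 3, 11⟩, ⟨0, 1, 2, 0⟩, ⟨1, 2, 2, 0⟩, ⟨0, 2, 2, 9⟩, ⟨0, 2, 2, 0⟩, ⟨1, 3, 3, 0⟩, ⟨0, 1, 1, 10⟩, ⟨1, 2, 2, 10⟩, ⟨0, 2, 2, 9⟩, ⟨0, 1, 2, 0⟩, ⟨1, 2, 2, 6⟩, ⟨1, 2, 2, 0⟩, ⟨0, 2, 2, 5⟩, ⟨1, 1, 1, 5⟩, ⟨1, 1, 1, 0⟩, ⟨0, 3, 3, 0⟩, ⟨1, 1, 1, 5⟩, ⟨0, 2, 2, 5⟩, ⟨0, 2, 2, 10⟩, ⟨1, 3, 3, 5⟩, ⟨1, 2, 2, 11⟩, ⟨0, 2, 2, 9⟩, ⟨1, 2, 2, 6⟩, ⟨1, 4, 4, 0⟩, ⟨0, 4, 4, 0⟩]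

/-- pattern -/
def pq85 : List PE := [⟨0, 4, 4, 0⟩, ⟨1, 4, 4, 5⟩, ⟨0, 1, 1, 5⟩, ⟨1, 2, 2, 5⟩, ⟨0, 2, 2, 9⟩, ⟨1, 1, 1, 0⟩, ⟨0, 2, 2, 5⟩, ⟨0, 1, 1, 5⟩, ⟨1, 3, 3, 6⟩, ⟨0, 2, 2, 10⟩, ⟨0, 1, 2, 0⟩, ⟨1, 2, 2, 5⟩, ⟨0, 2, 2, 5⟩, ⟨1, 1, 1, 0⟩, ⟨0, 3, 3, 0⟩, ⟨1, 1, 1, 5⟩, ⟨0, 2, 2, 5⟩, ⟨0, 2, 2, 10⟩, ⟨1, 3, 3, 5⟩, ⟨1, 3, 3, 7⟩, ⟨1, 4, 4, 0⟩, ⟨0, 4, 4, 0⟩]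

/-- pattern -/
def pq86 : List PE := [⟨0, 4, 4, 0⟩, ⟨1, 4, 4, 5⟩, ⟨0, 1, 1, 5⟩, ⟨1, 2, 2, 5⟩, ⟨0, 2, 2, 9⟩, ⟨1, 1, 1, 0⟩, ⟨0, 2, 2, 5⟩, ⟨1, 1, 1, 5⟩, ⟨1, 3, 3, 6⟩, ⟨1, 1, 2, 6⟩, ⟨0, 2, 2, 10⟩, ⟨0, 1, 2, 0⟩, ⟨1, 2, 2, 5⟩, ⟨0, 2, 2, 5⟩, ⟨1, 1, 1, 0⟩, ⟨0, 3, 3, 0⟩, ⟨1, 1, 1, 5⟩, ⟨0, 2, 2, 5⟩, ⟨0, 2, 2, 10⟩, ⟨1, 3, 3, 5⟩, ⟨1, 3, 3, 11⟩, ⟨1, 2, 3, 5⟩, ⟨1, 4, 4, 0⟩, ⟨0, 4, 4, 0⟩]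

/-- pattern -/
def pq87 : List PE := [⟨0, 4, 4, 0⟩, ⟨1, 4, 4, 11⟩, ⟨1, 2, 3, 0⟩, ⟨0, 2, 2, 5⟩, ⟨0, 1, 1, 5⟩, ⟨1, 2, 3, 11⟩, ⟨0, 1, 2, 0⟩, ⟨1, 2, 2, 0⟩, ⟨0, 2, 2, 9⟩, ⟨0, 2, 2, 5⟩, ⟨1, 1, 1, 0⟩, ⟨0, 1, 1, 0⟩, ⟨1, 3, 3, 6⟩, ⟨0, 1, 1, 6⟩, ⟨0, 2, 2, 6⟩, ⟨0, 1, 1, 6⟩, ⟨1, 2, 2, 5⟩, ⟨0, 2, 2, 5⟩, ⟨1, 1, 1, 0⟩, ⟨0, 3, 3, 0⟩, ⟨1, 1, 1, 5⟩, ⟨0, 2, 2, 5⟩, ⟨1, 2, 2, 10⟩, ⟨1, 3, 3, 5⟩, ⟨1, 2, 2, 11⟩, ⟨1, 2, 3, 5⟩, ⟨1, 4, 4, 0⟩, ⟨0, 4, 4, 0⟩]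

/-- pattern -/
def pq88 : List PE := [⟨0, 4, 4, 0⟩, ⟨1, 4, 4, 11⟩, ⟨1, 2, 3, 0⟩, ⟨0, 2, 2, 5⟩, ⟨1, 1, 1, 5⟩, ⟨1, 2, 3, 11⟩, ⟨0, 1, 2, 0⟩, ⟨1, 2, 2, 0⟩, ⟨0, 2, 2, 9⟩, ⟨0, 2, 2, 5⟩, ⟨1, 1, 1, 0⟩, ⟨0, 1, 1, 0⟩, ⟨1, 3, 3, 10⟩, ⟨0, 2, 2, 6⟩, ⟨0, 1, 1, 0⟩, ⟨1, 2, 2, 0⟩, ⟨0, 2, 2, 5⟩, ⟨0, 1, 1, 5⟩, ⟨1, 1, 1, 0⟩, ⟨0, 3, 3, 0⟩, ⟨1, 1, 1, 5⟩, ⟨0, 2, 2, 5⟩, ⟨1, 2, 2, 10⟩, ⟨1, 3, 3, 5⟩, ⟨1, 2, 2, 11⟩, ⟨1, 2, 3, 6⟩, ⟨1, 4, 4, 0⟩, ⟨0, 4, 4, 0⟩]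

/-- pattern -/
def pq89 : List PE := [⟨0, 4, 4, 0⟩, ⟨1, 4, 4, 11⟩, ⟨1, 2, 3, 0⟩, ⟨0, 2, 2, 5⟩, ⟨0, 1, 1, 5⟩, ⟨1, 2, 2, 11⟩, ⟨0, 1, 2, 0⟩, ⟨1, 2, 2, 5⟩, ⟨0, 1, 1, 5⟩, ⟨0, 2, 2, 5⟩, ⟨1, 3, 3, 6⟩, ⟨0, 1, 1, 6⟩, ⟨0, 2, 2, 10⟩, ⟨0, 2, 2, 0⟩, ⟨1, 2, 2, 5⟩, ⟨0, 2, 2, 5⟩, ⟨1, 1, 1, 0⟩, ⟨0, 3, 3, 0⟩, ⟨1, 1, 1, 5⟩, ⟨0, 2, 2, 5⟩, ⟨1, 2, 2, 10⟩, ⟨1, 3, 3, 5⟩, ⟨1, 2, 2, 11⟩, ⟨1, 2, 3, 5⟩, ⟨1, 4, 4, 0⟩, ⟨0, 4, 4, 0⟩]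

/-- pattern -/
def pq90 : List PE := [⟨0, 4, 4, 0⟩, ⟨1, 4, 4, 5⟩, ⟨0, 1, 1, 5⟩, ⟨1, 2, 2, 5⟩, ⟨0, 2, 2, 9⟩, ⟨1, 1, 1, 0⟩, ⟨0, 2, 2, 5⟩, ⟨1, 1, 1, 5⟩, ⟨1, 3, 3, 6⟩, ⟨1, 1, 2, 6⟩, ⟨0, 2, 2, 10⟩, ⟨0, 1, 2, 0⟩, ⟨1, 2, 2, 5⟩, ⟨0, 2, 2, 5⟩, ⟨1, 1, 1, 0⟩, ⟨0, 3, 3, 0⟩, ⟨1, 1, 1, 5⟩, ⟨0, 2, 2, 5⟩, ⟨1, 2, 2, 10⟩, ⟨1, 3, 3, 5⟩, ⟨1, 3, 3, 11⟩, ⟨1, 2, 3, 5⟩, ⟨1, 4, 4, 0⟩, ⟨0, 4, 4, 0⟩]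

/-- pattern -/
def pq91 : List PE := [⟨0, 4, 4, 0⟩, ⟨1, 4, 4, 7⟩, ⟨1, 2, 3, 5⟩, ⟨0, 1, 1, 0⟩, ⟨1, 2, 2, 5⟩, ⟨0, 2, 2, 9⟩, ⟨1, 1, 1, 0⟩, ⟨0, 2, 2, 5⟩, ⟨0, 1, 1, 5⟩, ⟨1, 3, 3, 6⟩, ⟨0, 1, 1, 6⟩, ⟨0, 2, 2, 10⟩, ⟨0, 1, 2, 0⟩, ⟨1, 2, 2, 5⟩, ⟨0, 2, 2, 5⟩, ⟨1, 1, 1, 0⟩, ⟨0, 3, 3, 0⟩, ⟨1, 1, 1, 5⟩, ⟨0, 2, 2, 5⟩, ⟨1, 2, 2, 10⟩, ⟨1, 3, 3, 5⟩, ⟨1, 3, 3, 11⟩, ⟨1, 2, 3, 5⟩, ⟨1, 4, 4, 0⟩, ⟨0, 4, 4, 0⟩]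

/-- pattern -/
def pq92 : List PE := [⟨0, 4, 4, 0⟩, ⟨1, 4, 4, 7⟩, ⟨0, 1, 1, 0⟩, ⟨1, 3, 3, 10⟩, ⟨1, 2, 2, 10⟩, ⟨0, 2, 2, 6⟩, ⟨1, 2, 2, 5⟩, ⟨0, 2, 2, 0⟩, ⟨1, 3, 3, 5⟩, ⟨1, 3, 3, 5⟩, ⟨1, 1, 1, 5⟩, ⟨0, 2, 2, 9⟩, ⟨1, 2, 2, 9⟩, ⟨0, 2, 2, 5⟩, ⟨0, 2, 2, 5⟩, ⟨1, 1, 1, 0⟩, ⟨0, 3, 3, 0⟩, ⟨1, 1, 1, 5⟩, ⟨0, 2, 2, 5⟩, ⟨0, 2, 2, 10⟩, ⟨1, 3, 3, 5⟩, ⟨1, 2, 2, 11⟩, ⟨0, 1, 2, 0⟩, ⟨1, 2, 2, 9⟩, ⟨0, 2, 2, 9⟩, ⟨1, 2, 2, 7⟩, ⟨1, 4, 4, 0⟩, ⟨0, 4, 4, 0⟩]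

/-- pattern -/
def pq93 : List PE := [⟨0, 4, 4, 0⟩, ⟨1, 4, 4, 7⟩, ⟨0, 1, 1, 0⟩, ⟨1, 3, 3, 10⟩, ⟨1, 2, 2, 10⟩, ⟨0, 2, 2, 6⟩, ⟨1, 2, 2, 5⟩, ⟨0, 2, 2, 0⟩, ⟨1, 3, 3, 11⟩, ⟨1, 3, 3, 5⟩, ⟨1, 3, 3, 5⟩, ⟨1, 1, 1, 5⟩, ⟨0, 2, 2, 9⟩, ⟨1, 2, 2, 9⟩, ⟨0, 2, 2, 5⟩, ⟨0, 2, 2, 5⟩, ⟨1, 1, 1, 0⟩, ⟨0, 3, 3, 0⟩, ⟨1, 1, 1, 5⟩, ⟨0, 2, 2, 5⟩, ⟨0, 2, 2, 10⟩, ⟨1, 3, 3, 5⟩, ⟨1, 2, 2, 11⟩, ⟨0, 1, 2, 0⟩, ⟨1, 2, 2, 9⟩, ⟨0, 2, 2, 9⟩, ⟨1, 2, 2, 7⟩, ⟨1, 4, 4, 0⟩, ⟨0, 4, 4, 0⟩]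

/-- pattern -/
def pq94 : List PE := [⟨0, 4, 4, 0⟩, ⟨1, 4, 4, 7⟩, ⟨0, 1, 1, 0⟩, ⟨1, 3, 3, 10⟩, ⟨1, 1, 2, 9⟩, ⟨0, 2, 2, 6⟩, ⟨1, 2, 2, 5⟩, ⟨0, 2, 2, 0⟩, ⟨1, 3, 3, 5⟩, ⟨1, 3, 3, 0⟩, ⟨0, 2, 2, 9⟩, ⟨1, 2, 2, 9⟩, ⟨0, 2, 2, 5⟩, ⟨0, 2, 2, 5⟩, ⟨1, 1, 1, 0⟩, ⟨0, 3, 3, 0⟩, ⟨1, 1, 1, 5⟩, ⟨0, 2, 2, 5⟩, ⟨0, 2, 2, 10⟩, ⟨1, 3, 3, 5⟩, ⟨1, 2, 2, 11⟩, ⟨1, 2, 3, 9⟩, ⟨0, 2, 2, 9⟩, ⟨1, 2, 2, 7⟩, ⟨1, 4, 4, 0⟩, ⟨0, 4, 4, 0⟩]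

/-- pattern -/
def pq95 : List PE := [⟨0, 4, 4, 0⟩, ⟨1, 4, 4, 7⟩, ⟨0, 1, 1, 0⟩, ⟨1, 3, 3, 9⟩, ⟨0, 1, 2, 10⟩, ⟨0, 2, 2, 6⟩, ⟨1, 2, 2, 5⟩, ⟨0, 2, 2, 0⟩, ⟨1, 3, 3, 11⟩, ⟨1, 3, 3, 5⟩, ⟨1, 3, 3, 0⟩, ⟨0, 2, 2, 9⟩, ⟨1, 2, 2, 9⟩, ⟨0, 2, 2, 5⟩, ⟨0, 2, 2, 5⟩, ⟨1, 1, 1, 0⟩, ⟨0, 3, 3, 0⟩, ⟨1, 1, 1, 5⟩, ⟨0, 2, 2, 5⟩, ⟨0, 2, 2, 10⟩, ⟨1, 3, 3, 5⟩, ⟨1, 2, 2, 11⟩, ⟨1, 2, 3, 9⟩, ⟨0, 2, 2, 9⟩, ⟨1, 2, 2, 7⟩, ⟨1, 4, 4, 0⟩, ⟨0, 4, 4, 0⟩]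

/-- pattern -/
def pq96 : List PE := [⟨0, 4, 4, 0⟩, ⟨1, 4, 4, 7⟩, ⟨0, 2, 2, 10⟩, ⟨0, 2, 2, 10⟩, ⟨1, 2, 2, 9⟩, ⟨0, 1, 2, 0⟩, ⟨1, 3, 3, 5⟩, ⟨0, 1, 1, 6⟩, ⟨0, 2, 2, 11⟩, ⟨1, 3, 3, 5⟩, ⟨1, 3, 3, 9⟩, ⟨0, 2, 2, 9⟩, ⟨1, 1, 1, 0⟩, ⟨0, 2, 2, 5⟩, ⟨1, 1, 1, 5⟩, ⟨1, 2, 2, 9⟩, ⟨0, 2, 2, 5⟩, ⟨0, 2, 2, 5⟩, ⟨1, 1, 1, 0⟩, ⟨0, 3, 3, 0⟩, ⟨1, 1, 1, 5⟩, ⟨0, 2, 2, 5⟩, ⟨0, 2, 2, 10⟩, ⟨1, 3, 3, 5⟩, ⟨1, 2, 2, 11⟩, ⟨1, 3, 3, 11⟩, ⟨0, 2, 2, 11⟩, ⟨1, 2, 3, 5⟩, ⟨1, 4, 4, 0⟩, ⟨0, 4, 4, 0⟩]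

/-- pattern -/
def pq97 : List PE := [⟨0, 4, 4, 0⟩, ⟨1, 4, 4, 7⟩, ⟨0, 2, 2, 11⟩, ⟨1, 2, 2, 5⟩, ⟨1, 3, 3, 9⟩, ⟨0, 2, 2, 9⟩, ⟨1, 1, 1, 0⟩, ⟨0, 2, 2, 5⟩, ⟨0, 1, 1, 0⟩, ⟨1, 2, 2, 5⟩, ⟨0, 2, 2, 5⟩, ⟨0, 2, 2, 5⟩, ⟨1, 1, 1, 0⟩, ⟨0, 3, 3, 0⟩, ⟨1, 1, 1, 5⟩, ⟨0, 2, 2, 5⟩, ⟨1, 2, 2, 10⟩, ⟨1, 3, 3, 5⟩, ⟨1, 3, 3, 10⟩, ⟨0, 2, 2, 10⟩, ⟨1, 2, 2, 5⟩, ⟨1, 4, 4, 0⟩, ⟨0, 4, 4, 0⟩]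

/-- pattern -/
def pq98 : List PE := [⟨0, 4, 4, 0⟩, ⟨1, 4, 4, 7⟩, ⟨0, 2, 2, 11⟩, ⟨1, 2, 2, 5⟩, ⟨1, 3, 3, 9⟩, ⟨0, 2, 2, 9⟩, ⟨1, 1, 1, 0⟩, ⟨0, 2, 2, 5⟩, ⟨0, 1, 1, 0⟩, ⟨1, 2, 2, 5⟩, ⟨0, 2, 2, 9⟩, ⟨0, 2, 2, 5⟩, ⟨0, 2, 2, 5⟩, ⟨1, 1, 1, 0⟩, ⟨0, 3, 3, 0⟩, ⟨1, 1, 1, 5⟩, ⟨0, 2, 2, 5⟩, ⟨1, 2, 2, 10⟩, ⟨1, 3, 3, 5⟩, ⟨1, 3, 3, 10⟩, ⟨0, 2, 2, 10⟩, ⟨1, 2, 2, 5⟩, ⟨1, 4, 4, 0⟩, ⟨0, 4, 4, 0⟩]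

/-- pattern -/
def pq99 : List PE := [⟨0, 4, 4, 0⟩, ⟨1, 4, 4, 6⟩, ⟨0, 2, 2, 5⟩, ⟨0, 2, 2, 10⟩, ⟨0, 2, 2, 10⟩, ⟨1, 2, 2, 5⟩, ⟨0, 1, 1, 0⟩, ⟨1, 3, 3, 9⟩, ⟨0, 2, 2, 9⟩, ⟨1, 2, 2, 9⟩, ⟨0, 2, 2, 5⟩, ⟨1, 1, 1, 0⟩, ⟨0, 2, 2, 5⟩, ⟨0, 1, 1, 5⟩, ⟨1, 1, 1, 0⟩, ⟨0, 3, 3, 0⟩, ⟨1, 1, 1, 5⟩, ⟨0, 2, 2, 5⟩, ⟨1, 2, 2, 10⟩, ⟨1, 3, 3, 5⟩, ⟨1, 3, 3, 11⟩, ⟨1, 2, 3, 9⟩, ⟨0, 2, 2, 9⟩, ⟨1, 1, 1, 5⟩, ⟨1, 2, 2, 7⟩, ⟨1, 4, 4, 0⟩, ⟨0, 4, 4, 0⟩]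

/-- pattern -/
def pq100 : List PE := [⟨0, 4, 4, 0⟩, ⟨1, 4, 4, 7⟩, ⟨0, 2, 2, 11⟩, ⟨1, 3, 3, 5⟩, ⟨1, 3, 3, 9⟩, ⟨0, 2, 2, 9⟩, ⟨1, 1, 1, 0⟩, ⟨0, 2, 2, 5⟩, ⟨0, 1, 1, 0⟩, ⟨1, 2, 2, 5⟩, ⟨0, 2, 2, 9⟩, ⟨0, 2, 2, 5⟩, ⟨0, 2, 2, 5⟩, ⟨1, 1, 1, 0⟩, ⟨0, 3, 3, 0⟩, ⟨1, 1, 1, 5⟩, ⟨0, 2, 2, 5⟩, ⟨0, 2, 2, 10⟩, ⟨1, 3, 3, 5⟩, ⟨1, 3, 3, 10⟩, ⟨0, 2, 2, 10⟩, ⟨1, 2, 2, 5⟩, ⟨1, 4, 4, 0⟩, ⟨0, 4, 4, 0⟩]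

/-- pattern -/
def pq101 : List PE := [⟨0, 4, 4, 0⟩, ⟨1, 4, 4, 7⟩, ⟨0, 2, 2, 11⟩, ⟨1, 3, 3, 5⟩, ⟨1, 3, 3, 9⟩, ⟨0, 2, 2, 9⟩, ⟨1, 1, 1, 0⟩, ⟨0, 2, 2, 5⟩, ⟨0, 1, 1, 0⟩, ⟨1, 2, 2, 5⟩, ⟨0, 2, 2, 5⟩, ⟨0, 2, 2, 5⟩, ⟨1, 1, 1, 0⟩, ⟨0, 3, 3, 0⟩, ⟨1, 1, 1, 5⟩, ⟨0, 2, 2, 5⟩, ⟨0, 2, 2, 10⟩, ⟨1, 3, 3, 5⟩, ⟨1, 3, 3, 10⟩, ⟨0, 2, 2, 10⟩, ⟨1, 2, 2, 5⟩, ⟨1, 4, 4, 0⟩, ⟨0, 4, 4, 0⟩]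

/-- pattern -/
def pq102 : List PE := [⟨0, 4, 4, 0⟩, ⟨1, 4, 4, 5⟩, ⟨0, 1, 1, 0⟩, ⟨1, 2, 3, 7⟩, ⟨1, 3, 3, 7⟩, ⟨0, 2, 2, 11⟩, ⟨0, 2, 2, 11⟩, ⟨1, 3, 3, 5⟩, ⟨0, 1, 1, 0⟩, ⟨1, 3, 3, 6⟩, ⟨1, 2, 2, 5⟩, ⟨0, 2, 2, 9⟩, ⟨1, 1, 1, 0⟩, ⟨0, 2, 2, 5⟩, ⟨1, 1, 1, 5⟩, ⟨1, 2, 2, 9⟩, ⟨0, 2, 2, 5⟩, ⟨0, 2, 2, 5⟩, ⟨1, 1, 1, 0⟩, ⟨0, 3, 3, 0⟩, ⟨1, 1, 1, 5⟩, ⟨0, 2, 2, 5⟩, ⟨0, 2, 2, 10⟩, ⟨1, 3, 3, 5⟩, ⟨1, 3, 3, 11⟩, ⟨1, 3, 3, 11⟩, ⟨0, 2, 2, 11⟩, ⟨1, 2, 3, 5⟩, ⟨1, 4, 4, 0⟩, ⟨0, 4, 4, 0⟩]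

/-- pattern -/
def pq103 : List PE := [⟨0, 4, 4, 0⟩, ⟨1, 4, 4, 5⟩, ⟨0, 1, 1, 0⟩, ⟨1, 2, 3, 7⟩, ⟨1, 3, 3, 7⟩, ⟨0, 2, 2, 11⟩, ⟨1, 3, 3, 5⟩, ⟨1, 3, 3, 6⟩, ⟨1, 2, 2, 9⟩, ⟨0, 2, 2, 9⟩, ⟨1, 1, 1, 0⟩, ⟨0, 2, 2, 5⟩, ⟨0, 1, 1, 0⟩, ⟨1, 2, 2, 5⟩, ⟨0, 2, 2, 5⟩, ⟨0, 2, 2, 5⟩, ⟨1, 1, 1, 0⟩, ⟨0, 3, 3, 0⟩, ⟨1, 1, 1, 5⟩, ⟨0, 2, 2, 5⟩, ⟨0, 2, 2, 10⟩, ⟨1, 3, 3, 5⟩, ⟨1, 3, 3, 10⟩, ⟨0, 2, 2, 10⟩, ⟨1, 2, 2, 5⟩, ⟨1, 4, 4, 0⟩, ⟨0, 4, 4, 0⟩]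

/-- pattern -/
def pq104 : List PE := [⟨0, 4, 4, 0⟩, ⟨1, 4, 4, 7⟩, ⟨1, 2, 3, 5⟩, ⟨0, 1, 1, 0⟩, ⟨1, 2, 2, 5⟩, ⟨0, 1, 1, 5⟩, ⟨0, 2, 2, 9⟩, ⟨0, 1, 2, 0⟩, ⟨1, 3, 3, 5⟩, ⟨1, 3, 3, 6⟩, ⟨0, 2, 2, 10⟩, ⟨0, 2, 2, 5⟩, ⟨1, 1, 1, 5⟩, ⟨1, 2, 2, 9⟩, ⟨0, 2, 2, 5⟩, ⟨0, 2, 2, 5⟩, ⟨1, 1, 1, 0⟩, ⟨0, 3, 3, 0⟩, ⟨1, 1, 1, 5⟩, ⟨0, 2, 2, 5⟩, ⟨0, 2, 2, 10⟩, ⟨1, 3, 3, 5⟩, ⟨1, 3, 3, 7⟩, ⟨1, 4, 4, 0⟩, ⟨0, 4, 4, 0⟩]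

/-- pattern -/
def pq105 : List PE := [⟨0, 4, 4, 0⟩, ⟨1, 4, 4, 7⟩, ⟨0, 2, 2, 11⟩, ⟨1, 3, 3, 5⟩, ⟨1, 3, 3, 9⟩, ⟨0, 2, 2, 9⟩, ⟨1, 1, 1, 0⟩, ⟨0, 2, 2, 5⟩, ⟨0, 1, 1, 0⟩, ⟨1, 2, 2, 5⟩, ⟨0, 2, 2, 5⟩, ⟨0, 2, 2, 5⟩, ⟨1, 1, 1, 0⟩, ⟨0, 3, 3, 0⟩, ⟨1, 1, 1, 5⟩, ⟨0, 2, 2, 5⟩, ⟨1, 2, 2, 10⟩, ⟨1, 3, 3, 5⟩, ⟨1, 3, 3, 10⟩, ⟨0, 2, 2, 10⟩, ⟨1, 2, 2, 5⟩, ⟨1, 4, 4, 0⟩, ⟨0, 4, 4, 0⟩]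

/-- pattern -/
def pq106 : List PE := [⟨0, 4, 4, 0⟩, ⟨1, 4, 4, 7⟩, ⟨0, 2, 2, 11⟩, ⟨1, 3, 3, 5⟩, ⟨1, 3, 3, 9⟩, ⟨0, 2, 2, 9⟩, ⟨1, 1, 1, 0⟩, ⟨0, 2, 2, 5⟩, ⟨0, 1, 1, 0⟩, ⟨1, 2, 2, 5⟩, ⟨0, 2, 2, 9⟩, ⟨0, 2, 2, 5⟩, ⟨0, 2, 2, 5⟩, ⟨1, 1, 1, 0⟩, ⟨0, 3, 3, 0⟩, ⟨1, 1, 1, 5⟩, ⟨0, 2, 2, 5⟩, ⟨1, 2, 2, 10⟩, ⟨1, 3, 3, 5⟩, ⟨1, 3, 3, 10⟩, ⟨0, 2, 2, 10⟩, ⟨1, 2, 2, 5⟩, ⟨1, 4, 4, 0⟩, ⟨0, 4, 4, 0⟩]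

/-- pattern -/
def pq107 : List PE := [⟨0, 4, 4, 0⟩, ⟨1, 4, 4, 11⟩, ⟨1, 3, 3, 10⟩, ⟨1, 1, 2, 10⟩, ⟨0, 2, 2, 0⟩, ⟨1, 1, 1, 0⟩, ⟨0, 1, 1, 10⟩, ⟨0, 2, 2, 6⟩, ⟨1, 2, 2, 0⟩, ⟨0, 3, 3, 0⟩, ⟨1, 2, 2, 6⟩, ⟨1, 2, 2, 5⟩, ⟨0, 2, 2, 9⟩, ⟨0, 2, 2, 5⟩, ⟨0, 1, 1, 0⟩, ⟨1, 2, 2, 6⟩, ⟨0, 1, 1, 0⟩, ⟨1, 3, 3, 7⟩, ⟨1, 4, 4, 0⟩, ⟨0, 4, 4, 0⟩]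

/-- pattern -/
def pq108 : List PE := [⟨0, 4, 4, 0⟩, ⟨1, 4, 4, 7⟩, ⟨0, 1, 1, 0⟩, ⟨1, 3, 3, 6⟩, ⟨1, 2, 2, 5⟩, ⟨0, 1, 1, 0⟩, ⟨1, 1, 1, 5⟩, ⟨0, 2, 2, 9⟩, ⟨0, 2, 2, 5⟩, ⟨1, 1, 1, 0⟩, ⟨0, 1, 1, 0⟩, ⟨1, 2, 2, 6⟩, ⟨1, 2, 2, 0⟩, ⟨0, 3, 3, 0⟩, ⟨1, 2, 2, 6⟩, ⟨1, 1, 2, 0⟩, ⟨0, 1, 1, 5⟩, ⟨0, 2, 2, 10⟩, ⟨1, 3, 3, 11⟩, ⟨1, 4, 4, 0⟩, ⟨0, 4, 4, 0⟩]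

/-- pattern -/
def pq109 : List PE := [⟨0, 4, 4, 0⟩, ⟨1, 4, 4, 7⟩, ⟨0, 1, 1, 0⟩, ⟨1, 3, 3, 6⟩, ⟨0, 2, 2, 10⟩, ⟨0, 2, 2, 6⟩, ⟨1, 2, 2, 0⟩, ⟨0, 3, 3, 0⟩, ⟨1, 2, 2, 6⟩, ⟨1, 2, 2, 0⟩, ⟨0, 2, 2, 10⟩, ⟨1, 3, 3, 7⟩, ⟨1, 4, 4, 0⟩, ⟨0, 4, 4, 0⟩]

/-- pattern -/
def pq110 : List PE := [⟨0, 4, 4, 0⟩, ⟨1, 4, 4, 11⟩, ⟨1, 3, 3, 10⟩, ⟨0, 1, 2, 10⟩, ⟨0, 2, 2, 5⟩, ⟨0, 1, 1, 5⟩, ⟨1, 1, 1, 0⟩, ⟨0, 2, 2, 10⟩, ⟨0, 2, 2, 6⟩, ⟨1, 2, 2, 0⟩, ⟨0, 3, 3, 0⟩, ⟨1, 2, 2, 6⟩, ⟨0, 2, 2, 0⟩, ⟨1, 1, 1, 10⟩, ⟨1, 2, 2, 9⟩, ⟨0, 2, 2, 5⟩, ⟨0, 2, 2, 5⟩,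 ⟨0, 1, 1, 0⟩, ⟨1, 2, 2, 6⟩, ⟨0, 1, 1, 0⟩, ⟨1, 3, 3, 7⟩, ⟨1, 4, 4, 0⟩, ⟨0, 4, 4, 0⟩]

/-- pattern -/
def pq111 : List PE := [⟨0, 4, 4, 0⟩, ⟨1, 4, 4, 11⟩, ⟨1, 3, 3, 10⟩, ⟨1, 1, 2, 10⟩, ⟨0, 2, 2, 9⟩, ⟨0, 1, 2, 0⟩, ⟨1, 1, 1, 10⟩, ⟨0, 2, 2, 6⟩, ⟨1, 2, 2, 0⟩, ⟨0, 3, 3, 0⟩, ⟨1, 2, 2, 6⟩, ⟨1, 2, 2, 0⟩, ⟨0, 1, 1, 0⟩, ⟨1, 1, 1, 0⟩, ⟨0, 2, 2, 9⟩, ⟨0, 2, 2, 5⟩, ⟨0, 1, 1, 0⟩, ⟨1, 2, 2, 6⟩, ⟨0, 1, 1, 0⟩, ⟨1, 3, 3, 7⟩, ⟨1, 4, 4, 0⟩, ⟨0, 4, 4, 0⟩]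

/-- pattern -/
def pq112 : List PE := [⟨0, 4, 4, 0⟩, ⟨1, 4, 4, 7⟩, ⟨0, 1, 1, 0⟩, ⟨1, 3, 3, 6⟩, ⟨1, 2, 2, 6⟩, ⟨0, 2, 2, 9⟩, ⟨0, 2, 2, 5⟩, ⟨1, 2, 2, 0⟩, ⟨0, 1, 1, 0⟩, ⟨1, 2, 2, 0⟩, ⟨0, 3, 3, 0⟩, ⟨1, 2, 2, 0⟩, ⟨0, 1, 1, 6⟩, ⟨1, 2, 2, 6⟩, ⟨0, 2, 2, 10⟩, ⟨1, 3, 3, 11⟩, ⟨1, 4, 4, 0⟩, ⟨0, 4, 4, 0⟩]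

/-- pattern -/
def pq113 : List PE := [⟨0, 4, 4, 0⟩, ⟨1, 4, 4, 7⟩, ⟨0, 1, 1, 0⟩, ⟨1, 3, 3, 6⟩, ⟨1, 2, 2, 6⟩, ⟨0, 2, 2, 9⟩, ⟨0, 2, 2, 6⟩, ⟨1, 2, 2, 0⟩, ⟨0, 1, 1, 0⟩, ⟨1, 2, 2, 0⟩, ⟨0, 3, 3, 0⟩, ⟨1, 2, 2, 0⟩, ⟨0, 1, 1, 0⟩, ⟨1, 2, 2, 6⟩, ⟨0, 2, 2, 10⟩, ⟨1, 3, 3, 11⟩, ⟨1, 4, 4, 0⟩, ⟨0, 4, 4, 0⟩]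

/-- pattern -/
def pq114 : List PE := [⟨0, 4, 4, 0⟩, ⟨1, 4, 4, 7⟩, ⟨1, 3, 3, 10⟩, ⟨0, 1, 2, 0⟩, ⟨1, 2, 2, 5⟩, ⟨1, 1, 1, 5⟩, ⟨0, 2, 2, 10⟩, ⟨1, 1, 2, 0⟩, ⟨0, 2, 2, 6⟩, ⟨0, 1, 1, 5⟩, ⟨1, 3, 3, 10⟩, ⟨0, 2, 2, 6⟩, ⟨1, 1, 2, 0⟩, ⟨0, 1, 1, 0⟩, ⟨1, 2, 2, 5⟩, ⟨1, 1, 1, 0⟩, ⟨0, 3, 3, 0⟩, ⟨1, 1, 1, 5⟩, ⟨1, 2, 2, 6⟩, ⟨0, 2, 2, 10⟩, ⟨1, 3, 3, 11⟩, ⟨0, 1, 2, 0⟩, ⟨1, 4, 4, 0⟩, ⟨0, 4, 4, 0⟩]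

/-- pattern -/
def pq115 : List PE := [⟨0, 4, 4, 0⟩, ⟨1, 4, 4, 7⟩, ⟨1, 3, 3, 10⟩, ⟨0, 1, 2, 0⟩, ⟨1, 2, 2, 5⟩, ⟨0, 1, 1, 5⟩, ⟨0, 2, 2, 10⟩, ⟨1, 1, 2, 0⟩, ⟨0, 2, 2, 5⟩, ⟨1, 1, 2, 6⟩, ⟨1, 3, 3, 11⟩, ⟨1, 3, 3, 10⟩, ⟨0, 2, 2, 6⟩, ⟨1, 1, 2, 0⟩, ⟨0, 1, 1, 0⟩, ⟨1, 2, 2, 5⟩, ⟨1, 1, 1, 0⟩, ⟨0, 3, 3, 0⟩, ⟨1, 1, 1, 5⟩, ⟨1, 2, 2, 6⟩, ⟨0, 2, 2, 10⟩, ⟨1, 3, 3, 11⟩, ⟨0, 1, 2, 0⟩, ⟨1, 4, 4, 0⟩, ⟨0, 4, 4, 0⟩]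

/-- pattern -/
def pq116 : List PE := [⟨0, 4, 4, 0⟩, ⟨1, 4, 4, 11⟩, ⟨0, 1, 2, 0⟩, ⟨1, 3, 3, 5⟩, ⟨1, 3, 3, 5⟩, ⟨1, 1, 1, 5⟩, ⟨0, 2, 2, 11⟩, ⟨1, 3, 3, 10⟩, ⟨0, 2, 2, 6⟩, ⟨0, 3, 3, 15⟩, ⟨1, 3, 3, 7⟩, ⟨1, 2, 3, 5⟩, ⟨1, 1, 1, 5⟩, ⟨0, 3, 3, 5⟩, ⟨0, 2, 2, 9⟩, ⟨1, 1, 1, 0⟩, ⟨0, 2, 2, 6⟩, ⟨0, 1, 1, 6⟩, ⟨1, 3, 3, 11⟩, ⟨1, 1, 3, 0⟩, ⟨0, 1, 1, 0⟩, ⟨1, 4, 4, 0⟩, ⟨0, 4, 4, 0⟩]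

/-- pattern -/
def pq117 : List PE := [⟨0, 4, 4, 0⟩, ⟨1, 4, 4, 11⟩, ⟨0, 2, 2, 0⟩, ⟨1, 3, 3, 7⟩, ⟨1, 3, 3, 5⟩, ⟨1, 1, 1, 5⟩, ⟨0, 2, 2, 11⟩, ⟨1, 3, 3, 10⟩, ⟨0, 2, 2, 6⟩, ⟨0, 3, 3, 15⟩, ⟨1, 3, 3, 7⟩, ⟨1, 2, 3, 6⟩, ⟨1, 1, 2, 6⟩, ⟨0, 3, 3, 5⟩, ⟨1, 1, 1, 5⟩, ⟨1, 1, 1, 0⟩, ⟨0, 2, 2, 6⟩, ⟨0, 1, 1, 0⟩, ⟨1, 3, 3, 11⟩, ⟨0, 2, 2, 11⟩, ⟨1, 1, 3, 0⟩, ⟨0, 1, 1, 0⟩, ⟨1, 4, 4, 0⟩, ⟨0, 4, 4, 0⟩]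

/-- pattern -/
def pq118 : List PE := [⟨0, 4, 4, 0⟩, ⟨1, 4, 4, 9⟩, ⟨1, 1, 1, 9⟩, ⟨0, 2, 2, 0⟩, ⟨1, 2, 3, 11⟩, ⟨1, 3, 3, 10⟩, ⟨0, 2, 2, 6⟩, ⟨0, 3, 3, 15⟩, ⟨0, 3, 3, 9⟩, ⟨0, 2, 2, 0⟩, ⟨1, 1, 1, 5⟩, ⟨1, 2, 2, 6⟩, ⟨0, 1, 1, 0⟩, ⟨1, 3, 3, 0⟩, ⟨0, 1, 1, 0⟩, ⟨1, 3, 3, 7⟩, ⟨1, 2, 3, 5⟩, ⟨0, 1, 1, 5⟩, ⟨0, 3, 3, 6⟩, ⟨0, 2, 2, 10⟩, ⟨1, 3, 3, 11⟩, ⟨0, 1, 2, 0⟩, ⟨1, 4, 4, 0⟩, ⟨0, 4, 4, 0⟩]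

/-- pattern -/
def pq119 : List PE := [⟨0, 4, 4, 0⟩, ⟨1, 4, 4, 11⟩, ⟨0, 2, 2, 0⟩, ⟨1, 3, 3, 0⟩, ⟨0, 1, 1, 6⟩, ⟨1, 2, 2, 5⟩, ⟨0, 2, 2, 9⟩, ⟨0, 2, 2, 5⟩, ⟨1, 2, 2, 6⟩, ⟨1, 2, 2, 6⟩, ⟨0, 1, 1, 0⟩, ⟨1, 1, 1, 0⟩, ⟨0, 3, 3, 14⟩, ⟨0, 2, 2, 6⟩, ⟨1, 3, 3, 15⟩, ⟨1, 3, 3, 6⟩, ⟨0, 3, 3, 14⟩, ⟨0, 3, 3, 5⟩, ⟨0, 1, 1, 5⟩, ⟨1, 2, 2, 0⟩, ⟨0, 1, 1, 6⟩, ⟨1, 2, 2, 6⟩, ⟨0, 2, 2, 0⟩, ⟨1, 2, 2, 6⟩, ⟨1, 4, 4, 0⟩, ⟨0, 4, 4, 0⟩]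

/-- pattern -/
def pq120 : List PE := [⟨0, 4, 4, 0⟩, ⟨1, 4, 4, 11⟩, ⟨0, 2, 2, 0⟩, ⟨1, 3, 3, 0⟩, ⟨0, 1, 1, 6⟩, ⟨1, 1, 2, 0⟩, ⟨0, 2, 2, 0⟩, ⟨1, 1, 1, 0⟩, ⟨0, 2, 2, 10⟩, ⟨1, 2, 2, 10⟩, ⟨0, 2, 2, 5⟩, ⟨0, 1, 1, 5⟩, ⟨1, 2, 2, 6⟩, ⟨0, 1, 1, 0⟩, ⟨1, 1, 1, 0⟩, ⟨0, 3, 3, 14⟩, ⟨0, 2, 2, 6⟩, ⟨1, 3, 3, 15⟩, ⟨1, 3, 3, 6⟩, ⟨0, 3, 3, 14⟩, ⟨0, 3, 3, 5⟩, ⟨1, 1, 1, 5⟩, ⟨1, 2, 2, 6⟩, ⟨1, 2, 2, 0⟩, ⟨0, 2, 2, 6⟩, ⟨0, 1, 1, 6⟩, ⟨1, 4, 4, 0⟩, ⟨0, 4, 4, 0⟩]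

/-- pattern -/
def pq121 : List PE := [⟨0, 4, 4, 0⟩, ⟨1, 4, 4, 11⟩, ⟨0, 2, 2, 0⟩, ⟨1, 3, 3, 0⟩, ⟨0, 1, 1, 6⟩, ⟨1, 2, 2, 0⟩, ⟨0, 2, 2, 9⟩, ⟨1, 1, 1, 0⟩, ⟨0, 2, 2, 0⟩, ⟨1, 2, 2, 10⟩, ⟨0, 2, 2, 5⟩, ⟨0, 1, 1, 5⟩, ⟨1, 2, 2, 6⟩, ⟨0, 1, 1, 0⟩, ⟨1, 1, 1, 0⟩, ⟨0, 3, 3, 14⟩, ⟨0, 2, 2, 6⟩, ⟨1, 3, 3, 15⟩, ⟨1, 3, 3, 6⟩, ⟨0, 3, 3, 14⟩, ⟨0, 3, 3, 5⟩, ⟨0, 1, 1, 5⟩, ⟨1, 2, 2, 6⟩, ⟨1, 2, 2, 0⟩, ⟨0, 2, 2, 6⟩, ⟨0, 1, 1, 6⟩, ⟨1, 4, 4, 0⟩, ⟨0, 4, 4, 0⟩]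

/-- pattern -/
def pq122 : List PE := [⟨0, 4, 4, 0⟩, ⟨1, 4, 4, 11⟩, ⟨0, 2, 2, 0⟩, ⟨1, 3, 3, 0⟩, ⟨0, 1, 1, 6⟩, ⟨1, 2, 2, 0⟩, ⟨0, 2, 2, 9⟩, ⟨1, 1, 1, 0⟩, ⟨0, 2, 2, 0⟩, ⟨1, 2, 2, 10⟩, ⟨0, 2, 2, 0⟩, ⟨1, 2, 2, 6⟩, ⟨1, 1, 2, 0⟩, ⟨0, 3, 3, 14⟩, ⟨0, 2, 2, 6⟩, ⟨1, 3, 3, 15⟩, ⟨1, 3, 3, 6⟩, ⟨0, 3, 3, 14⟩, ⟨0, 3, 3, 5⟩, ⟨1, 1, 1, 5⟩, ⟨1, 2, 2, 6⟩, ⟨1, 2, 2, 0⟩, ⟨0, 2, 2, 6⟩, ⟨1, 1, 2, 6⟩, ⟨1, 4, 4, 0⟩, ⟨0, 4, 4, 0⟩]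

/-- pattern -/
def pq123 : List PE := [⟨0, 4, 4, 0⟩, ⟨1, 4, 4, 11⟩, ⟨0, 2, 2, 0⟩, ⟨1, 3, 3, 0⟩, ⟨0, 1, 1, 6⟩, ⟨1, 2, 2, 0⟩, ⟨0, 2, 2, 5⟩, ⟨1, 1, 1, 5⟩, ⟨1, 1, 1, 0⟩, ⟨0, 2, 2, 10⟩, ⟨0, 1, 2, 0⟩, ⟨1, 2, 2, 10⟩, ⟨0, 2, 2, 0⟩, ⟨1, 2, 2, 6⟩, ⟨1, 1, 2, 0⟩, ⟨0, 3, 3, 14⟩, ⟨0, 2, 2, 6⟩, ⟨1, 3, 3, 15⟩, ⟨1, 3, 3, 6⟩, ⟨0, 3, 3, 14⟩, ⟨0, 3, 3, 5⟩, ⟨1, 1, 1, 5⟩, ⟨1, 2, 2, 6⟩, ⟨1, 2, 2, 0⟩, ⟨0, 2, 2, 6⟩, ⟨1, 1, 2, 6⟩, ⟨1, 4, 4, 0⟩, ⟨0, 4, 4, 0⟩]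

/-- pattern -/
def pq124 : List PE := [⟨0, 4, 4, 0⟩, ⟨1, 4, 4, 11⟩, ⟨0, 2, 2, 0⟩, ⟨1, 3, 3, 0⟩, ⟨0, 1, 1, 6⟩, ⟨1, 2, 2, 0⟩, ⟨0, 2, 2, 5⟩, ⟨1, 1, 1, 5⟩, ⟨1, 1, 1, 0⟩, ⟨0, 2, 2, 10⟩, ⟨0, 1, 2, 0⟩, ⟨1, 2, 2, 10⟩, ⟨0, 2, 2, 5⟩, ⟨0, 1, 1, 5⟩, ⟨1, 2, 2, 6⟩, ⟨0, 1, 1, 0⟩, ⟨1, 1, 1, 0⟩, ⟨0, 3, 3, 14⟩, ⟨0, 2, 2, 6⟩, ⟨1, 3, 3, 15⟩, ⟨1, 3, 3, 6⟩, ⟨0, 3, 3, 14⟩, ⟨0, 3, 3, 5⟩, ⟨1, 1, 1, 5⟩, ⟨1, 2, 2, 6⟩, ⟨1, 2, 2, 0⟩, ⟨0, 2, 2, 6⟩, ⟨0, 1, 1, 6⟩, ⟨1, 4, 4, 0⟩, ⟨0, 4, 4, 0⟩]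

/-- pattern -/
def pq125 : List PE := [⟨0, 4, 4, 0⟩, ⟨1, 4, 4, 5⟩, ⟨0, 2, 2, 9⟩, ⟨0, 2, 2, 0⟩, ⟨1, 3, 3, 0⟩, ⟨0, 2, 2, 11⟩, ⟨1, 3, 3, 10⟩, ⟨1, 2, 2, 9⟩, ⟨1, 1, 1, 9⟩, ⟨0, 2, 2, 5⟩, ⟨1, 1, 1, 5⟩, ⟨1, 2, 2, 6⟩, ⟨0, 1, 1, 0⟩, ⟨1, 2, 2, 5⟩, ⟨0, 1, 1, 5⟩, ⟨0, 3, 3, 14⟩, ⟨0, 2, 2, 6⟩, ⟨1, 3, 3, 15⟩, ⟨1, 1, 3, 0⟩, ⟨0, 1, 1, 0⟩, ⟨1, 3, 3, 6⟩, ⟨0, 3, 3, 14⟩, ⟨1, 1, 2, 0⟩, ⟨0, 3, 3, 6⟩, ⟨0, 2, 2, 10⟩, ⟨1, 2, 2, 10⟩, ⟨0, 1, 2, 0⟩, ⟨1, 4, 4, 0⟩, ⟨0, 4, 4, 0⟩]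

/-- pattern -/
def pq126 : List PE := [⟨0, 4, 4, 0⟩, ⟨1, 4, 4, 5⟩, ⟨0, 2, 2, 9⟩, ⟨0, 2, 2, 0⟩, ⟨1, 3, 3, 0⟩, ⟨0, 2, 2, 11⟩, ⟨1, 3, 3, 10⟩, ⟨1, 2, 2, 9⟩, ⟨0, 1, 2, 9⟩, ⟨0, 2, 2, 5⟩, ⟨1, 1, 1, 5⟩, ⟨1, 2, 2, 6⟩, ⟨0, 1, 1, 0⟩, ⟨1, 2, 2, 5⟩, ⟨1, 1, 1, 5⟩, ⟨0, 3, 3, 14⟩, ⟨0, 2, 2, 6⟩, ⟨1, 3, 3, 7⟩, ⟨0, 1, 1, 0⟩, ⟨1, 3, 3, 6⟩, ⟨0, 3, 3, 14⟩, ⟨1, 1, 2, 0⟩, ⟨0, 3, 3, 6⟩, ⟨0, 2, 2, 10⟩, ⟨1, 2, 2, 10⟩, ⟨0, 1, 2, 0⟩, ⟨1, 4, 4, 0⟩, ⟨0, 4, 4, 0⟩]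

/-- pattern -/
def pq127 : List PE := [⟨0, 4, 4, 0⟩, ⟨1, 4, 4, 11⟩, ⟨1, 3, 3, 10⟩, ⟨0, 2, 2, 10⟩, ⟨1, 1, 2, 0⟩, ⟨0, 1, 1, 0⟩, ⟨1, 2, 2, 6⟩, ⟨0, 2, 2, 10⟩, ⟨0, 2, 2, 6⟩, ⟨0, 3, 3, 14⟩, ⟨1, 2, 2, 0⟩, ⟨0, 3, 3, 0⟩, ⟨1, 2, 2, 13⟩, ⟨1, 1, 1, 13⟩, ⟨0, 3, 3, 10⟩, ⟨0, 2, 2, 6⟩, ⟨1, 3, 3, 7⟩, ⟨0, 1, 1, 0⟩, ⟨1, 3, 3, 6⟩, ⟨1, 2, 2, 5⟩, ⟨0, 1, 1, 5⟩, ⟨0, 3, 3, 14⟩, ⟨0, 3, 3, 6⟩, ⟨1, 2, 2, 0⟩, ⟨0, 2, 2, 0⟩, ⟨1, 2, 2, 6⟩, ⟨1, 4, 4, 0⟩, ⟨0, 4, 4, 0⟩]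

/-- pattern -/
def pq128 : List PE := [⟨0, 4, 4, 0⟩, ⟨1, 4, 4, 11⟩, ⟨1, 3, 3, 0⟩, ⟨0, 2, 2, 11⟩, ⟨0, 1, 2, 0⟩, ⟨1, 3, 3, 6⟩, ⟨0, 1, 1, 6⟩, ⟨0, 2, 2, 10⟩, ⟨1, 2, 2, 9⟩, ⟨1, 1, 1, 9⟩, ⟨0, 2, 2, 6⟩, ⟨0, 3, 3, 14⟩, ⟨0, 2, 2, 6⟩, ⟨1, 3, 3, 15⟩, ⟨1, 3, 3, 6⟩, ⟨0, 3, 3, 0⟩, ⟨1, 2, 2, 9⟩, ⟨0, 1, 2, 9⟩, ⟨0, 3, 3, 6⟩, ⟨1, 2, 2, 0⟩, ⟨0, 1, 1, 0⟩, ⟨1, 2, 2, 0⟩, ⟨0, 2, 2, 0⟩, ⟨1, 2, 2, 6⟩, ⟨1, 1, 2, 5⟩, ⟨0, 1, 1, 0⟩, ⟨1, 4, 4, 0⟩, ⟨0, 4, 4, 0⟩]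

/-- pattern -/
def pq129 : List PE := [⟨0, 4, 4, 0⟩, ⟨1, 4, 4, 11⟩, ⟨0, 2, 2, 0⟩, ⟨1, 3, 3, 0⟩, ⟨0, 2, 2, 11⟩, ⟨0, 2, 2, 0⟩, ⟨1, 3, 3, 10⟩, ⟨1, 2, 2, 10⟩, ⟨0, 2, 2, 0⟩, ⟨1, 2, 2, 10⟩, ⟨0, 2, 2, 6⟩, ⟨0, 3, 3, 14⟩, ⟨0, 2, 2, 6⟩, ⟨1, 3, 3, 15⟩, ⟨1, 3, 3, 6⟩, ⟨0, 3, 3, 9⟩, ⟨1, 1, 1, 9⟩, ⟨1, 2, 2, 10⟩, ⟨0, 3, 3, 5⟩, ⟨0, 1, 1, 5⟩, ⟨1, 2, 2, 6⟩, ⟨0, 1, 1, 0⟩, ⟨1, 2, 2, 0⟩, ⟨0, 2, 2, 6⟩, ⟨0, 1, 1, 0⟩, ⟨1, 4, 4, 0⟩, ⟨0, 4, 4, 0⟩]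

/-- pattern -/
def pq130 : List PE := [⟨0, 4, 4, 0⟩, ⟨1, 4, 4, 11⟩, ⟨1, 3, 3, 0⟩, ⟨0, 2, 2, 9⟩, ⟨0, 2, 2, 0⟩, ⟨1, 3, 3, 10⟩, ⟨1, 2, 2, 0⟩, ⟨0, 2, 2, 10⟩, ⟨1, 2, 2, 10⟩, ⟨0, 2, 2, 6⟩, ⟨1, 1, 2, 0⟩, ⟨0, 3, 3, 5⟩, ⟨0, 1, 1, 0⟩, ⟨1, 2, 2, 0⟩, ⟨0, 3, 3, 14⟩, ⟨0, 2, 2, 6⟩, ⟨1, 3, 3, 0⟩, ⟨0, 1, 1, 0⟩, ⟨1, 3, 3, 6⟩, ⟨0, 3, 3, 14⟩, ⟨0, 3, 3, 5⟩, ⟨1, 1, 1, 5⟩, ⟨1, 2, 2, 6⟩, ⟨0, 2, 2, 10⟩, ⟨1, 4, 4, 0⟩, ⟨0, 4, 4, 0⟩]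

/-- pattern -/
def pq131 : List PE := [⟨0, 4, 4, 0⟩, ⟨1, 4, 4, 11⟩, ⟨0, 2, 2, 0⟩, ⟨1, 3, 3, 0⟩, ⟨0, 2, 2, 9⟩, ⟨1, 3, 3, 10⟩, ⟨0, 2, 2, 6⟩, ⟨0, 3, 3, 14⟩, ⟨0, 2, 2, 6⟩, ⟨1, 3, 3, 11⟩, ⟨1, 2, 3, 0⟩, ⟨0, 2, 2, 10⟩, ⟨1, 2, 2, 0⟩, ⟨0, 1, 1, 0⟩, ⟨1, 3, 3, 0⟩, ⟨0, 1, 1, 0⟩, ⟨1, 2, 2, 0⟩, ⟨0, 2, 2, 0⟩, ⟨1, 2, 2, 0⟩, ⟨0, 2, 3, 13⟩, ⟨0, 3, 3, 13⟩, ⟨0, 2, 3, 6⟩, ⟨0, 1, 1, 6⟩, ⟨1, 3, 3, 6⟩, ⟨0, 3, 3, 14⟩, ⟨0, 3, 3, 6⟩, ⟨0, 2, 2, 10⟩, ⟨1, 2, 2, 10⟩, ⟨0, 1, 2, 0⟩, ⟨1, 4, 4, 0⟩, ⟨0, 4, 4, 0⟩]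

/-- pattern -/
def pq132 : List PE := [⟨0, 4, 4, 0⟩, ⟨1, 4, 4, 5⟩, ⟨0, 2, 2, 11⟩, ⟨1, 1, 3, 0⟩, ⟨0, 2, 2, 0⟩, ⟨1, 3, 3, 6⟩, ⟨1, 2, 2, 10⟩, ⟨0, 2, 2, 6⟩, ⟨0, 3, 3, 14⟩, ⟨0, 2, 3, 10⟩, ⟨0, 2, 2, 10⟩, ⟨1, 3, 3, 6⟩, ⟨0, 1, 1, 6⟩, ⟨0, 1, 1, 0⟩, ⟨1, 1, 1, 0⟩, ⟨0, 3, 3, 14⟩, ⟨0, 3, 3, 6⟩, ⟨0, 2, 2, 0⟩, ⟨1, 2, 2, 6⟩, ⟨1, 4, 4, 0⟩, ⟨0, 4, 4, 0⟩]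

/-- pattern -/
def pq133 : List PE := [⟨0, 4, 4, 0⟩, ⟨1, 4, 4, 6⟩, ⟨1, 1, 2, 0⟩, ⟨0, 2, 2, 5⟩, ⟨0, 2, 2, 0⟩, ⟨1, 2, 3, 11⟩, ⟨1, 3, 3, 10⟩, ⟨0, 2, 2, 6⟩, ⟨0, 3, 3, 0⟩, ⟨1, 1, 1, 0⟩, ⟨0, 2, 3, 14⟩, ⟨1, 2, 2, 9⟩, ⟨0, 1, 2, 9⟩, ⟨0, 3, 3, 9⟩, ⟨1, 1, 1, 0⟩, ⟨0, 2, 2, 6⟩, ⟨1, 2, 2, 6⟩, ⟨0, 1, 1, 0⟩, ⟨1, 3, 3, 6⟩, ⟨0, 1, 1, 6⟩, ⟨0, 3, 3, 14⟩, ⟨0, 3, 3, 6⟩, ⟨0, 2, 2, 0⟩, ⟨1, 2, 2, 6⟩, ⟨1, 4, 4, 0⟩, ⟨0, 4, 4, 0⟩]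

/-- pattern -/
def pq134 : List PE := [⟨0, 4, 4, 0⟩, ⟨1, 4, 4, 11⟩, ⟨0, 2, 2, 5⟩, ⟨1, 1, 1, 5⟩, ⟨1, 3, 3, 7⟩, ⟨0, 1, 1, 0⟩, ⟨1, 3, 3, 5⟩, ⟨1, 2, 2, 6⟩, ⟨0, 1, 1, 0⟩, ⟨1, 2, 2, 0⟩, ⟨0, 2, 2, 10⟩, ⟨0, 2, 2, 6⟩, ⟨0, 3, 3, 14⟩, ⟨0, 3, 3, 6⟩, ⟨0, 2, 2, 10⟩, ⟨1, 2, 2, 10⟩, ⟨1, 2, 2, 10⟩, ⟨0, 2, 2, 0⟩, ⟨1, 2, 2, 6⟩, ⟨1, 4, 4, 0⟩, ⟨0, 4, 4, 0⟩]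

/-- pattern -/
def pq135 : List PE := [⟨0, 4, 4, 0⟩, ⟨1, 4, 4, 11⟩, ⟨0, 2, 2, 5⟩, ⟨1, 1, 1, 5⟩, ⟨1, 3, 3, 7⟩, ⟨0, 1, 1, 0⟩, ⟨1, 3, 3, 5⟩, ⟨1, 2, 2, 6⟩, ⟨0, 1, 1, 0⟩, ⟨1, 1, 1, 0⟩, ⟨0, 2, 2, 10⟩, ⟨0, 2, 2, 6⟩, ⟨0, 3, 3, 14⟩, ⟨0, 3, 3, 6⟩, ⟨0, 2, 2, 10⟩, ⟨1, 2, 2, 9⟩, ⟨1, 1, 1, 9⟩, ⟨0, 2, 2, 0⟩, ⟨1, 2, 2, 6⟩, ⟨1, 4, 4, 0⟩, ⟨0, 4, 4, 0⟩]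

/-- pattern -/
def pq136 : List PE := [⟨0, 4, 4, 0⟩, ⟨1, 4, 4, 11⟩, ⟨0, 2, 2, 0⟩, ⟨1, 2, 2, 6⟩, ⟨1, 3, 3, 5⟩, ⟨1, 1, 1, 5⟩, ⟨0, 1, 1, 0⟩, ⟨1, 2, 2, 6⟩, ⟨0, 1, 1, 0⟩, ⟨1, 1, 1, 0⟩, ⟨0, 2, 2, 10⟩, ⟨0, 2, 2, 6⟩, ⟨0, 3, 3, 14⟩, ⟨0, 3, 3, 6⟩, ⟨0, 2, 2, 10⟩, ⟨1, 2, 2, 9⟩, ⟨1, 1, 1, 9⟩, ⟨0, 2, 2, 0⟩, ⟨1, 2, 2, 6⟩, ⟨1, 4, 4, 0⟩, ⟨0, 4, 4, 0⟩]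

/-- pattern -/
def pq137 : List PE := [⟨0, 4, 4, 0⟩, ⟨1, 4, 4, 11⟩, ⟨0, 2, 2, 0⟩, ⟨1, 3, 3, 7⟩, ⟨0, 1, 1, 0⟩, ⟨1, 3, 3, 5⟩, ⟨1, 2, 2, 6⟩, ⟨0, 1, 1, 0⟩, ⟨1, 1, 1, 0⟩, ⟨0, 2, 2, 10⟩, ⟨0, 2, 2, 6⟩, ⟨0, 3, 3, 14⟩, ⟨0, 3, 3, 6⟩, ⟨0, 2, 2, 10⟩, ⟨1, 2, 2, 9⟩, ⟨1, 1, 1, 9⟩, ⟨0, 2, 2, 0⟩, ⟨1, 2, 2, 6⟩, ⟨1, 4, 4, 0⟩, ⟨0, 4, 4, 0⟩]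

/-- pattern -/
def pq138 : List PE := [⟨0, 4, 4, 0⟩, ⟨1, 4, 4, 11⟩, ⟨0, 2, 2, 5⟩, ⟨0, 1, 1, 5⟩, ⟨1, 2, 2, 0⟩, ⟨0, 1, 1, 6⟩, ⟨1, 2, 2, 6⟩, ⟨0, 1, 1, 0⟩, ⟨1, 3, 3, 6⟩, ⟨1, 1, 2, 5⟩, ⟨1, 2, 2, 5⟩, ⟨1, 1, 1, 5⟩, ⟨0, 2, 2, 10⟩, ⟨1, 2, 2, 10⟩, ⟨0, 2, 2, 6⟩, ⟨0, 3, 3, 14⟩, ⟨0, 3, 3, 6⟩, ⟨0, 2, 2, 10⟩, ⟨1, 1, 2, 0⟩, ⟨0, 2, 2, 0⟩, ⟨1, 2, 2, 6⟩, ⟨1, 4, 4, 0⟩, ⟨0, 4, 4, 0⟩]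

/-- pattern -/
def pq139 : List PE := [⟨0, 4, 4, 0⟩, ⟨1, 4, 4, 11⟩, ⟨0, 2, 2, 0⟩, ⟨1, 2, 2, 6⟩, ⟨1, 3, 3, 6⟩, ⟨0, 1, 1, 6⟩, ⟨0, 1, 1, 0⟩, ⟨1, 2, 2, 0⟩, ⟨0, 2, 2, 10⟩, ⟨1, 2, 2, 10⟩, ⟨0, 2, 2, 6⟩, ⟨0, 3, 3, 14⟩, ⟨0, 3, 3, 6⟩, ⟨0, 2, 2, 10⟩, ⟨0, 2, 2, 0⟩, ⟨1, 2, 2, 6⟩, ⟨1, 4, 4, 0⟩, ⟨0, 4, 4, 0⟩]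

/-- pattern -/
def pq140 : List PE := [⟨0, 4, 4, 0⟩, ⟨1, 4, 4, 7⟩, ⟨1, 3, 3, 0⟩, ⟨0, 1, 1, 6⟩, ⟨0, 1, 1, 6⟩, ⟨1, 2, 2, 9⟩, ⟨0, 1, 2, 9⟩, ⟨0, 2, 2, 0⟩, ⟨1, 2, 3, 11⟩, ⟨1, 3, 3, 10⟩, ⟨0, 2, 2, 6⟩, ⟨0, 3, 3, 14⟩, ⟨1, 1, 2, 0⟩, ⟨0, 3, 3, 5⟩, ⟨0, 2, 2, 0⟩, ⟨1, 1, 1, 0⟩, ⟨0, 2, 2, 5⟩, ⟨0, 1, 1, 5⟩, ⟨1, 2, 2, 10⟩, ⟨0, 2, 2, 10⟩, ⟨0, 1, 2, 0⟩, ⟨1, 1, 1, 0⟩, ⟨0, 2, 2, 6⟩, ⟨0, 1, 1, 0⟩, ⟨1, 4, 4, 0⟩, ⟨0, 4, 4, 0⟩]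

/-- pattern -/
def pq141 : List PE := [⟨0, 4, 4, 0⟩, ⟨1, 4, 4, 7⟩, ⟨1, 3, 3, 0⟩, ⟨0, 1, 1, 6⟩, ⟨0, 1, 1, 6⟩, ⟨1, 2, 2, 9⟩, ⟨0, 1, 2, 9⟩, ⟨0, 2, 2, 0⟩, ⟨1, 2, 3, 11⟩, ⟨1, 3, 3, 10⟩, ⟨0, 2, 2, 6⟩, ⟨0, 3, 3, 14⟩, ⟨1, 1, 2, 0⟩, ⟨0, 3, 3, 5⟩, ⟨0, 2, 2, 9⟩, ⟨0, 1, 2, 0⟩, ⟨1, 1, 1, 0⟩, ⟨0, 2, 2, 5⟩, ⟨1, 1, 1, 5⟩, ⟨1, 2, 2, 10⟩, ⟨0, 2, 2, 10⟩, ⟨0, 1, 2, 0⟩, ⟨1, 1, 1, 0⟩, ⟨0, 2, 2, 6⟩, ⟨0, 1, 1, 0⟩, ⟨1, 4, 4, 0⟩, ⟨0, 4, 4, 0⟩]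

/-- pattern -/
def pq142 : List PE := [⟨0, 4, 4, 0⟩, ⟨1, 4, 4, 11⟩, ⟨0, 2, 2, 0⟩, ⟨1, 3, 3, 7⟩, ⟨1, 3, 3, 5⟩, ⟨1, 2, 2, 6⟩, ⟨0, 1, 1, 0⟩, ⟨1, 2, 2, 0⟩, ⟨0, 2, 2, 5⟩, ⟨1, 1, 1, 5⟩, ⟨1, 2, 2, 10⟩, ⟨0, 1, 2, 0⟩, ⟨1, 1, 1, 0⟩, ⟨0, 2, 2, 6⟩, ⟨0, 3, 3, 14⟩, ⟨0, 3, 3, 6⟩, ⟨0, 2, 2, 10⟩, ⟨1, 2, 2, 9⟩, ⟨0, 1, 2, 9⟩, ⟨0, 2, 2, 0⟩, ⟨1, 2, 2, 6⟩, ⟨1, 4, 4, 0⟩, ⟨0, 4, 4, 0⟩]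

/-- pattern -/
def pq143 : List PE := [⟨0, 4, 4, 0⟩, ⟨1, 4, 4, 11⟩, ⟨0, 2, 2, 0⟩, ⟨1, 3, 3, 7⟩, ⟨0, 1, 1, 0⟩, ⟨1, 3, 3, 5⟩, ⟨1, 1, 1, 5⟩, ⟨0, 1, 1, 0⟩, ⟨1, 2, 2, 6⟩, ⟨1, 2, 2, 0⟩, ⟨0, 2, 2, 10⟩, ⟨0, 2, 2, 6⟩, ⟨0, 3, 3, 14⟩, ⟨0, 3, 3, 6⟩, ⟨0, 2, 2, 10⟩, ⟨1, 2, 2, 10⟩, ⟨0, 1, 2, 0⟩, ⟨1, 2, 2, 10⟩, ⟨0, 2, 2, 0⟩, ⟨1, 2, 2, 6⟩, ⟨1, 4, 4, 0⟩, ⟨0, 4, 4, 0⟩]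

/-- pattern -/
def pq144 : List PE := [⟨0, 4, 4, 0⟩, ⟨1, 4, 4, 11⟩, ⟨0, 2, 2, 5⟩, ⟨0, 1, 1, 5⟩, ⟨1, 2, 2, 6⟩, ⟨0, 1, 1, 0⟩, ⟨1, 3, 3, 6⟩, ⟨0, 1, 1, 6⟩, ⟨0, 1, 1, 0⟩, ⟨1, 2, 2, 0⟩, ⟨0, 2, 2, 10⟩, ⟨1, 2, 2, 10⟩, ⟨0, 2, 2, 6⟩, ⟨0, 3, 3, 14⟩, ⟨0, 3, 3, 6⟩, ⟨0, 2, 2, 10⟩, ⟨0, 2, 2, 0⟩, ⟨1, 2, 2, 6⟩, ⟨1, 4, 4, 0⟩, ⟨0, 4, 4, 0⟩]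

/-- pattern -/
def pq145 : List PE := [⟨0, 4, 4, 0⟩, ⟨1, 4, 4, 11⟩, ⟨0, 2, 2, 5⟩, ⟨0, 1, 1, 5⟩, ⟨1, 2, 3, 7⟩, ⟨1, 3, 3, 7⟩, ⟨0, 1, 1, 0⟩, ⟨1, 3, 3, 5⟩, ⟨1, 2, 2, 6⟩, ⟨0, 1, 1, 0⟩, ⟨1, 1, 1, 0⟩, ⟨0, 2, 2, 10⟩, ⟨0, 2, 2, 6⟩, ⟨0, 3, 3, 14⟩, ⟨0, 3, 3, 6⟩, ⟨0, 2, 2, 10⟩, ⟨1, 2, 2, 9⟩, ⟨1, 1, 1, 9⟩, ⟨0, 2, 2, 0⟩, ⟨1, 2, 2, 6⟩, ⟨1, 4, 4, 0⟩, ⟨0, 4, 4, 0⟩]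

/-- pattern -/
def pq146 : List PE := [⟨0, 4, 4, 0⟩, ⟨1, 4, 4, 11⟩, ⟨0, 2, 2, 0⟩, ⟨1, 2, 3, 7⟩, ⟨1, 3, 3, 7⟩, ⟨0, 1, 1, 0⟩, ⟨1, 3, 3, 5⟩, ⟨1, 2, 2, 6⟩, ⟨0, 1, 1, 0⟩, ⟨1, 1, 1, 0⟩, ⟨0, 2, 2, 10⟩, ⟨0, 2, 2, 6⟩, ⟨0, 3, 3, 14⟩, ⟨0, 3, 3, 6⟩, ⟨0, 2, 2, 10⟩, ⟨1, 2, 2, 9⟩, ⟨0, 1, 2, 9⟩, ⟨0, 2, 2, 0⟩, ⟨1, 2, 2, 6⟩, ⟨1, 4, 4, 0⟩, ⟨0, 4, 4, 0⟩]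

/-- pattern -/
def pq147 : List PE := [⟨0, 4, 4, 0⟩, ⟨1, 4, 4, 11⟩, ⟨0, 2, 2, 5⟩, ⟨1, 1, 1, 5⟩, ⟨1, 2, 2, 5⟩, ⟨0, 1, 1, 0⟩, ⟨1, 3, 3, 7⟩, ⟨1, 3, 3, 6⟩, ⟨0, 1, 1, 0⟩, ⟨1, 2, 2, 5⟩, ⟨1, 2, 2, 0⟩, ⟨0, 2, 2, 10⟩, ⟨0, 2, 2, 6⟩, ⟨0, 3, 3, 14⟩, ⟨0, 3, 3, 6⟩, ⟨0, 2, 2, 10⟩, ⟨1, 2, 2, 10⟩, ⟨0, 2, 2, 0⟩, ⟨1, 2, 2, 6⟩, ⟨1, 4, 4, 0⟩, ⟨0, 4, 4, 0⟩]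

/-- pattern -/
def pq148 : List PE := [⟨0, 4, 4, 0⟩, ⟨1, 4, 4, 11⟩, ⟨0, 2, 2, 0⟩, ⟨1, 2, 2, 5⟩, ⟨1, 2, 3, 7⟩, ⟨1, 3, 3, 6⟩, ⟨0, 1, 1, 0⟩, ⟨1, 2, 2, 0⟩, ⟨0, 1, 1, 0⟩, ⟨1, 2, 2, 0⟩, ⟨0, 2, 2, 10⟩, ⟨0, 2, 2, 6⟩, ⟨0, 3, 3, 14⟩, ⟨0, 3, 3, 6⟩, ⟨0, 2, 2, 10⟩, ⟨1, 2, 2, 10⟩, ⟨0, 2, 2, 0⟩, ⟨1, 2, 2, 6⟩, ⟨1, 4, 4, 0⟩, ⟨0, 4, 4, 0⟩]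

/-- pattern -/
def pq149 : List PE := [⟨0, 4, 4, 0⟩, ⟨1, 4, 4, 11⟩, ⟨1, 3, 3, 6⟩, ⟨1, 1, 2, 6⟩, ⟨0, 1, 1, 0⟩, ⟨1, 2, 2, 0⟩, ⟨0, 2, 2, 5⟩, ⟨1, 1, 1, 5⟩, ⟨1, 2, 2, 10⟩, ⟨1, 2, 2, 0⟩, ⟨0, 2, 2, 5⟩, ⟨0, 3, 3, 14⟩, ⟨0, 3, 3, 6⟩, ⟨0, 2, 2, 10⟩, ⟨1, 2, 2, 10⟩, ⟨1, 1, 2, 0⟩, ⟨0, 2, 2, 0⟩, ⟨1, 2, 2, 5⟩, ⟨0, 1, 1, 0⟩, ⟨1, 4, 4, 0⟩, ⟨0, 4, 4, 0⟩]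

/-- pattern -/
def pq150 : List PE := [⟨0, 4, 4, 0⟩, ⟨1, 4, 4, 11⟩, ⟨0, 2, 2, 5⟩, ⟨1, 1, 1, 5⟩, ⟨1, 3, 3, 7⟩, ⟨0, 1, 1, 0⟩, ⟨1, 3, 3, 5⟩, ⟨1, 2, 2, 6⟩, ⟨0, 1, 1, 0⟩, ⟨1, 2, 2, 0⟩, ⟨0, 2, 2, 5⟩, ⟨1, 1, 1, 5⟩, ⟨1, 2, 2, 10⟩, ⟨0, 1, 2, 0⟩, ⟨1, 1, 1, 0⟩, ⟨0, 2, 2, 6⟩, ⟨0, 3, 3, 14⟩, ⟨0, 3, 3, 6⟩, ⟨0, 2, 2, 10⟩, ⟨1, 2, 2, 9⟩, ⟨1, 1, 1, 9⟩, ⟨0, 2, 2, 0⟩, ⟨1, 2, 2, 6⟩, ⟨1, 4, 4, 0⟩, ⟨0, 4, 4, 0⟩]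

/-- pattern -/
def pq151 : List PE := [⟨0, 4, 4, 0⟩, ⟨1, 4, 4, 11⟩, ⟨1, 3, 3, 6⟩, ⟨0, 1, 1, 6⟩, ⟨0, 1, 1, 0⟩, ⟨1, 2, 2, 0⟩, ⟨0, 2, 2, 5⟩, ⟨1, 1, 1, 5⟩, ⟨1, 2, 2, 10⟩, ⟨1, 2, 2, 0⟩, ⟨0, 2, 2, 5⟩, ⟨0, 3, 3, 14⟩, ⟨0, 3, 3, 6⟩, ⟨0, 2, 2, 10⟩, ⟨1, 2, 2, 10⟩, ⟨1, 1, 2, 0⟩, ⟨0, 2, 2, 0⟩, ⟨1, 2, 2, 6⟩, ⟨1, 2, 2, 5⟩, ⟨0, 1, 1, 0⟩, ⟨1, 4, 4, 0⟩, ⟨0, 4, 4, 0⟩]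

/-- pattern -/
def pq152 : List PE := [⟨0, 4, 4, 0⟩, ⟨1, 4, 4, 11⟩, ⟨0, 2, 2, 5⟩, ⟨0, 1, 1, 5⟩, ⟨1, 3, 3, 7⟩, ⟨0, 1, 1, 0⟩, ⟨1, 3, 3, 5⟩, ⟨0, 1, 1, 0⟩, ⟨1, 2, 2, 0⟩, ⟨0, 1, 1, 6⟩, ⟨1, 2, 2, 0⟩, ⟨0, 2, 2, 0⟩, ⟨1, 1, 1, 0⟩, ⟨0, 2, 2, 10⟩, ⟨1, 2, 2, 10⟩, ⟨0, 2, 2, 6⟩, ⟨0, 3, 3, 14⟩, ⟨0, 3, 3, 6⟩, ⟨0, 2, 2, 10⟩, ⟨1, 2, 2, 6⟩, ⟨0, 2, 2, 9⟩, ⟨0, 2, 2, 0⟩, ⟨1, 2, 2, 6⟩, ⟨1, 4, 4, 0⟩, ⟨0, 4, 4, 0⟩]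

/-- pattern -/
def pq153 : List PE := [⟨0, 4, 4, 0⟩, ⟨1, 4, 4, 11⟩, ⟨0, 2, 2, 5⟩, ⟨1, 1, 1, 5⟩, ⟨1, 3, 3, 7⟩, ⟨0, 1, 1, 0⟩, ⟨1, 3, 3, 5⟩, ⟨1, 2, 2, 6⟩, ⟨0, 1, 1, 0⟩, ⟨1, 2, 2, 5⟩, ⟨0, 2, 2, 5⟩, ⟨1, 1, 1, 5⟩, ⟨1, 1, 1, 0⟩, ⟨0, 2, 2, 9⟩, ⟨0, 1, 2, 0⟩, ⟨1, 2, 2, 10⟩, ⟨0, 2, 2, 6⟩, ⟨0, 3, 3, 14⟩, ⟨0, 3, 3, 6⟩, ⟨0, 2, 2, 10⟩, ⟨1, 2, 2, 0⟩, ⟨0, 1, 1, 9⟩, ⟨0, 2, 2, 0⟩, ⟨1, 2, 2, 6⟩, ⟨1, 4, 4, 0⟩, ⟨0, 4, 4, 0⟩]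

/-- pattern -/
def pq154 : List PE := [⟨0, 4, 4, 0⟩, ⟨1, 4, 4, 11⟩, ⟨0, 2, 2, 0⟩, ⟨1, 3, 3, 7⟩, ⟨1, 3, 3, 5⟩, ⟨1, 2, 2, 6⟩, ⟨0, 1, 1, 0⟩, ⟨1, 2, 2, 5⟩, ⟨0, 2, 2, 0⟩, ⟨1, 1, 1, 0⟩, ⟨0, 2, 2, 9⟩, ⟨1, 2, 2, 10⟩, ⟨0, 2, 2, 6⟩, ⟨0, 3, 3, 14⟩, ⟨0, 3, 3, 6⟩, ⟨0, 2, 2, 10⟩, ⟨1, 2, 2, 9⟩, ⟨1, 1, 1, 9⟩, ⟨0, 2, 2, 0⟩, ⟨1, 2, 2, 6⟩, ⟨1, 4, 4, 0⟩, ⟨0, 4, 4, 0⟩]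

/-- pattern -/
def pq155 : List PE := [⟨0, 4, 4, 0⟩, ⟨1, 4, 4, 11⟩, ⟨0, 2, 2, 0⟩, ⟨1, 3, 3, 7⟩, ⟨1, 3, 3, 5⟩, ⟨1, 2, 2, 6⟩, ⟨0, 1, 1, 0⟩, ⟨1, 2, 2, 5⟩, ⟨0, 2, 2, 5⟩, ⟨1, 1, 1, 5⟩, ⟨1, 1, 1, 0⟩, ⟨0, 2, 2, 9⟩, ⟨0, 1, 2, 0⟩, ⟨1, 2, 2, 10⟩, ⟨0, 2, 2, 6⟩, ⟨0, 3, 3, 14⟩, ⟨0, 3, 3, 6⟩, ⟨0, 2, 2, 10⟩, ⟨1, 2, 2, 0⟩, ⟨0, 1, 1, 9⟩, ⟨0, 2, 2, 0⟩, ⟨1, 2, 2, 6⟩, ⟨1, 4, 4, 0⟩, ⟨0, 4, 4, 0⟩]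

/-- pattern -/
def pq156 : List PE := [⟨0, 4, 4, 0⟩, ⟨1, 4, 4, 11⟩, ⟨0, 2, 2, 0⟩, ⟨1, 2, 2, 6⟩, ⟨0, 1, 1, 0⟩, ⟨1, 3, 3, 7⟩, ⟨0, 1, 1, 0⟩, ⟨1, 3, 3, 5⟩, ⟨1, 2, 2, 5⟩, ⟨1, 2, 2, 0⟩, ⟨0, 2, 2, 10⟩, ⟨1, 2, 2, 10⟩, ⟨0, 2, 2, 6⟩, ⟨0, 3, 3, 14⟩, ⟨0, 3, 3, 6⟩, ⟨0, 2, 2, 10⟩, ⟨1, 2, 2, 10⟩, ⟨0, 2, 2, 0⟩, ⟨1, 2, 2, 6⟩, ⟨1, 4, 4, 0⟩, ⟨0, 4, 4, 0⟩]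

/-- pattern -/
def pq157 : List PE := [⟨0, 4, 4, 0⟩, ⟨1, 4, 4, 11⟩, ⟨0, 2, 2, 0⟩, ⟨1, 2, 2, 6⟩, ⟨1, 3, 3, 7⟩, ⟨1, 3, 3, 6⟩, ⟨0, 1, 1, 6⟩, ⟨0, 1, 1, 0⟩, ⟨1, 2, 2, 5⟩, ⟨1, 2, 2, 0⟩, ⟨0, 2, 2, 10⟩, ⟨1, 2, 2, 10⟩, ⟨0, 2, 2, 6⟩, ⟨0, 3, 3, 14⟩, ⟨0, 3, 3, 6⟩, ⟨0, 2, 2, 10⟩, ⟨1, 2, 2, 10⟩, ⟨0, 2, 2, 0⟩, ⟨1, 2, 2, 6⟩, ⟨1, 4, 4, 0⟩, ⟨0, 4, 4, 0⟩]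

/-- pattern -/
def pq158 : List PE := [⟨0, 4, 4, 0⟩, ⟨1, 4, 4, 11⟩, ⟨0, 2, 2, 5⟩, ⟨1, 1, 1, 5⟩, ⟨1, 2, 2, 5⟩, ⟨1, 2, 3, 7⟩, ⟨0, 1, 1, 0⟩, ⟨1, 3, 3, 7⟩, ⟨1, 3, 3, 6⟩, ⟨0, 1, 1, 0⟩, ⟨1, 2, 2, 0⟩, ⟨0, 1, 1, 0⟩, ⟨1, 2, 2, 0⟩, ⟨0, 2, 2, 10⟩, ⟨0, 2, 2, 6⟩, ⟨0, 3, 3, 14⟩, ⟨0, 3, 3, 6⟩, ⟨0, 2, 2, 10⟩, ⟨1, 2, 2, 10⟩, ⟨0, 2, 2, 0⟩, ⟨1, 2, 2, 6⟩, ⟨1, 4, 4, 0⟩, ⟨0, 4, 4, 0⟩]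

/-- pattern -/
def pq159 : List PE := [⟨0, 4, 4, 0⟩, ⟨1, 4, 4, 5⟩, ⟨0, 1, 1, 11⟩, ⟨0, 2, 2, 5⟩, ⟨0, 1, 1, 0⟩, ⟨1, 2, 2, 6⟩, ⟨1, 3, 3, 7⟩, ⟨1, 1, 3, 5⟩, ⟨1, 3, 3, 6⟩, ⟨0, 1, 1, 6⟩, ⟨0, 1, 1, 0⟩, ⟨1, 2, 2, 5⟩, ⟨1, 2, 2, 0⟩, ⟨0, 2, 2, 10⟩, ⟨1, 2, 2, 10⟩, ⟨0, 2, 2, 6⟩, ⟨0, 3, 3, 14⟩, ⟨0, 3, 3, 6⟩, ⟨0, 2, 2, 10⟩, ⟨1, 2, 2, 10⟩, ⟨0, 2, 2, 0⟩, ⟨1, 2, 2, 6⟩, ⟨1, 4, 4, 0⟩, ⟨0, 4, 4, 0⟩]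

/-- pattern -/
def pq160 : List PE := [⟨0, 4, 4, 0⟩, ⟨1, 4, 4, 7⟩, ⟨1, 3, 3, 0⟩, ⟨0, 1, 1, 0⟩, ⟨1, 2, 2, 6⟩, ⟨0, 2, 2, 9⟩, ⟨0, 1, 2, 5⟩, ⟨0, 2, 2, 6⟩, ⟨1, 1, 2, 6⟩, ⟨1, 2, 3, 11⟩, ⟨1, 3, 3, 10⟩, ⟨0, 2, 2, 6⟩, ⟨0, 3, 3, 14⟩, ⟨1, 1, 2, 0⟩, ⟨0, 3, 3, 5⟩, ⟨0, 2, 2, 6⟩, ⟨0, 1, 1, 6⟩, ⟨1, 2, 2, 0⟩, ⟨0, 1, 1, 0⟩, ⟨1, 1, 1, 5⟩, ⟨0, 2, 2, 9⟩, ⟨1, 1, 1, 0⟩, ⟨0, 2, 2, 0⟩, ⟨1, 2, 2, 6⟩, ⟨1, 1, 2, 0⟩, ⟨0, 1, 1, 0⟩, ⟨1, 4, 4, 0⟩, ⟨0, 4, 4, 0⟩]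

/-- pattern -/
def pq161 : List PE := [⟨0, 4, 4, 0⟩, ⟨1, 4, 4, 11⟩, ⟨1, 2, 3, 5⟩, ⟨0, 1, 1, 5⟩, ⟨0, 2, 2, 0⟩, ⟨1, 2, 3, 7⟩, ⟨1, 3, 3, 7⟩, ⟨0, 1, 1, 0⟩, ⟨1, 3, 3, 6⟩, ⟨1, 2, 2, 5⟩, ⟨1, 2, 2, 0⟩, ⟨0, 1, 1, 0⟩, ⟨1, 1, 1, 0⟩, ⟨0, 2, 2, 10⟩, ⟨0, 2, 2, 6⟩, ⟨0, 3, 3, 14⟩, ⟨0, 3, 3, 6⟩, ⟨0, 2, 2, 10⟩, ⟨1, 2, 2, 10⟩, ⟨0, 2, 2, 9⟩, ⟨0, 2, 2, 0⟩, ⟨1, 2, 2, 6⟩, ⟨1, 4, 4, 0⟩, ⟨0, 4, 4, 0⟩]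

/-- pattern -/
def pq162 : List PE := [⟨0, 4, 4, 0⟩, ⟨1, 4, 4, 11⟩, ⟨0, 2, 2, 0⟩, ⟨1, 2, 2, 5⟩, ⟨1, 2, 3, 7⟩, ⟨1, 3, 3, 5⟩, ⟨0, 1, 1, 0⟩, ⟨1, 2, 2, 0⟩, ⟨0, 1, 1, 0⟩, ⟨1, 2, 2, 6⟩, ⟨0, 1, 1, 0⟩, ⟨1, 1, 1, 0⟩, ⟨0, 2, 2, 10⟩, ⟨0, 2, 2, 6⟩, ⟨0, 3, 3, 14⟩, ⟨0, 3, 3, 6⟩, ⟨0, 2, 2, 10⟩, ⟨1, 2, 2, 9⟩, ⟨0, 1, 2, 9⟩, ⟨0, 2, 2, 0⟩, ⟨1, 2, 2, 6⟩, ⟨1, 4, 4, 0⟩, ⟨0, 4, 4, 0⟩]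

/-- pattern -/
def pq163 : List PE := [⟨0, 4, 4, 0⟩, ⟨1, 4, 4, 11⟩, ⟨0, 2, 2, 0⟩, ⟨1, 3, 3, 7⟩, ⟨1, 3, 3, 5⟩, ⟨0, 1, 1, 0⟩, ⟨1, 2, 2, 5⟩, ⟨0, 1, 1, 0⟩, ⟨1, 2, 2, 0⟩, ⟨0, 2, 2, 10⟩, ⟨0, 2, 2, 6⟩, ⟨0, 3, 3, 14⟩, ⟨0, 3, 3, 6⟩, ⟨0, 2, 2, 10⟩, ⟨1, 2, 2, 10⟩, ⟨1, 2, 2, 10⟩, ⟨0, 2, 2, 0⟩, ⟨1, 2, 2, 6⟩, ⟨1, 4, 4, 0⟩, ⟨0, 4, 4, 0⟩]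

/-- pattern -/
def pq164 : List PE := [⟨0, 4, 4, 0⟩, ⟨1, 4, 4, 11⟩, ⟨0, 2, 2, 0⟩, ⟨1, 2, 2, 6⟩, ⟨0, 1, 1, 0⟩, ⟨1, 2, 3, 7⟩, ⟨1, 3, 3, 5⟩, ⟨1, 2, 2, 0⟩, ⟨0, 1, 1, 0⟩, ⟨1, 2, 2, 0⟩, ⟨0, 2, 2, 10⟩, ⟨1, 2, 2, 10⟩, ⟨0, 2, 2, 6⟩, ⟨0, 3, 3, 14⟩, ⟨0, 3, 3, 6⟩, ⟨0, 2, 2, 10⟩, ⟨1, 2, 2, 10⟩, ⟨0, 2, 2, 0⟩, ⟨1, 2, 2, 6⟩, ⟨1, 4, 4, 0⟩, ⟨0, 4, 4, 0⟩]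

/-- pattern -/
def pq165 : List PE := [⟨0, 4, 4, 0⟩, ⟨1, 4, 4, 7⟩, ⟨1, 3, 3, 6⟩, ⟨1, 2, 2, 0⟩, ⟨0, 2, 2, 9⟩, ⟨0, 2, 2, 5⟩, ⟨0, 2, 2, 0⟩, ⟨1, 2, 3, 11⟩, ⟨1, 3, 3, 10⟩, ⟨0, 2, 2, 6⟩, ⟨0, 3, 3, 14⟩, ⟨1, 1, 2, 0⟩, ⟨0, 3, 3, 0⟩, ⟨1, 1, 1, 6⟩, ⟨0, 2, 2, 10⟩, ⟨1, 2, 2, 6⟩, ⟨0, 2, 2, 0⟩, ⟨1, 1, 1, 9⟩, ⟨0, 2, 2, 9⟩, ⟨1, 1, 1, 0⟩, ⟨0, 2, 2, 6⟩, ⟨1, 2, 2, 6⟩, ⟨0, 1, 1, 0⟩, ⟨1, 4, 4, 0⟩, ⟨0, 4, 4, 0⟩]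

/-- pattern -/
def pq166 : List PE := [⟨0, 4, 4, 0⟩, ⟨1, 4, 4, 6⟩, ⟨1, 3, 3, 7⟩, ⟨1, 2, 3, 0⟩, ⟨0, 2, 2, 9⟩, ⟨1, 1, 1, 0⟩, ⟨0, 2, 2, 0⟩, ⟨1, 2, 3, 7⟩, ⟨1, 3, 3, 10⟩, ⟨0, 2, 2, 6⟩, ⟨0, 3, 3, 0⟩, ⟨1, 1, 1, 0⟩, ⟨0, 1, 1, 0⟩, ⟨1, 1, 1, 0⟩, ⟨0, 3, 3, 6⟩, ⟨0, 2, 2, 10⟩, ⟨1, 2, 2, 10⟩, ⟨0, 2, 2, 5⟩, ⟨0, 2, 2, 6⟩, ⟨1, 2, 2, 6⟩, ⟨0, 1, 1, 0⟩, ⟨1, 4, 4, 0⟩, ⟨0, 4, 4, 0⟩]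

/-- pattern -/
def pq167 : List PE := [⟨0, 4, 4, 0⟩, ⟨1, 4, 4, 11⟩, ⟨0, 2, 2, 0⟩, ⟨1, 2, 2, 0⟩, ⟨0, 1, 1, 0⟩, ⟨1, 3, 3, 7⟩, ⟨1, 3, 3, 6⟩, ⟨1, 2, 2, 5⟩, ⟨0, 1, 1, 0⟩, ⟨1, 2, 2, 5⟩, ⟨0, 1, 1, 5⟩, ⟨0, 2, 2, 10⟩, ⟨1, 2, 2, 10⟩, ⟨0, 2, 2, 6⟩, ⟨0, 3, 3, 14⟩, ⟨0, 3, 3, 6⟩, ⟨0, 2, 2, 10⟩, ⟨1, 2, 2, 10⟩, ⟨1, 1, 2, 0⟩, ⟨0, 2, 2, 0⟩, ⟨1, 2, 2, 6⟩, ⟨1, 4, 4, 0⟩, ⟨0, 4, 4, 0⟩]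

/-- pattern -/
def pq168 : List PE := [⟨0, 4, 4, 0⟩, ⟨1, 4, 4, 11⟩, ⟨0, 2, 2, 0⟩, ⟨1, 2, 2, 6⟩, ⟨0, 1, 1, 0⟩, ⟨1, 3, 3, 7⟩, ⟨1, 3, 3, 5⟩, ⟨1, 2, 2, 5⟩, ⟨0, 1, 1, 0⟩, ⟨1, 2, 2, 0⟩, ⟨0, 1, 1, 5⟩, ⟨1, 1, 1, 0⟩, ⟨0, 2, 2, 10⟩, ⟨1, 2, 2, 10⟩, ⟨0, 2, 2, 6⟩, ⟨0, 3, 3, 14⟩, ⟨0, 3, 3, 6⟩, ⟨0, 2, 2, 10⟩, ⟨1, 2, 2, 10⟩, ⟨1, 1, 1, 5⟩, ⟨0, 2, 2, 0⟩, ⟨1, 2, 2, 6⟩, ⟨1, 4, 4, 0⟩, ⟨0, 4, 4, 0⟩]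

/-- pattern -/
def pq169 : List PE := [⟨0, 4, 4, 0⟩, ⟨1, 4, 4, 11⟩, ⟨0, 2, 2, 0⟩, ⟨1, 2, 2, 6⟩, ⟨0, 1, 1, 0⟩, ⟨1, 2, 3, 7⟩, ⟨1, 3, 3, 5⟩, ⟨1, 2, 2, 0⟩, ⟨0, 1, 1, 0⟩, ⟨1, 2, 2, 6⟩, ⟨0, 1, 1, 0⟩, ⟨1, 2, 2, 0⟩, ⟨0, 2, 2, 10⟩, ⟨1, 2, 2, 10⟩, ⟨0, 2, 2, 6⟩, ⟨0, 3, 3, 14⟩, ⟨0, 3, 3, 6⟩, ⟨0, 2, 2, 10⟩, ⟨1, 2, 2, 10⟩, ⟨1, 2, 2, 10⟩, ⟨0, 2, 2, 0⟩, ⟨1, 2, 2, 6⟩, ⟨1, 4, 4, 0⟩, ⟨0, 4, 4, 0⟩]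

/-- pattern -/
def pq170 : List PE := [⟨0, 4, 4, 0⟩, ⟨1, 4, 4, 7⟩, ⟨0, 1, 1, 0⟩, ⟨1, 2, 2, 0⟩, ⟨0, 2, 2, 9⟩, ⟨1, 1, 1, 5⟩, ⟨1, 1, 1, 0⟩, ⟨0, 2, 2, 0⟩, ⟨1, 2, 3, 11⟩, ⟨1, 3, 3, 10⟩, ⟨0, 2, 2, 6⟩, ⟨0, 3, 3, 14⟩, ⟨0, 2, 3, 5⟩, ⟨0, 3, 3, 6⟩, ⟨0, 2, 2, 10⟩, ⟨1, 2, 2, 5⟩, ⟨1, 1, 1, 0⟩, ⟨0, 2, 2, 5⟩, ⟨0, 1, 1, 9⟩, ⟨0, 2, 2, 6⟩, ⟨1, 2, 2, 6⟩, ⟨0, 1, 1, 0⟩, ⟨1, 4, 4, 0⟩, ⟨0, 4, 4, 0⟩]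

/-- pattern -/
def pq171 : List PE := [⟨0, 4, 4, 0⟩, ⟨1, 4, 4, 7⟩, ⟨1, 3, 3, 6⟩, ⟨1, 1, 2, 6⟩, ⟨0, 1, 1, 0⟩, ⟨1, 2, 2, 9⟩, ⟨0, 1, 2, 9⟩, ⟨0, 2, 2, 5⟩, ⟨1, 1, 1, 5⟩, ⟨1, 2, 3, 11⟩, ⟨1, 3, 3, 10⟩, ⟨0, 2, 2, 6⟩, ⟨0, 3, 3, 14⟩, ⟨1, 1, 2, 0⟩, ⟨0, 3, 3, 5⟩, ⟨0, 2, 2, 5⟩, ⟨1, 1, 1, 5⟩, ⟨1, 2, 2, 10⟩, ⟨1, 2, 2, 10⟩, ⟨0, 2, 2, 10⟩, ⟨0, 1, 2, 0⟩, ⟨1, 1, 1, 0⟩, ⟨0, 2, 2, 6⟩, ⟨1, 1, 2, 0⟩, ⟨0, 1, 1, 0⟩, ⟨1, 4, 4, 0⟩, ⟨0, 4, 4, 0⟩]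

/-- pattern -/
def pq172 : List PE := [⟨0, 4, 4, 0⟩, ⟨1, 4, 4, 7⟩, ⟨1, 3, 3, 6⟩, ⟨0, 1, 1, 6⟩, ⟨0, 1, 1, 0⟩, ⟨1, 2, 2, 0⟩, ⟨0, 2, 2, 9⟩, ⟨0, 2, 2, 5⟩, ⟨1, 1, 1, 5⟩, ⟨1, 2, 3, 11⟩, ⟨1, 3, 3, 10⟩, ⟨0, 2, 2, 6⟩, ⟨0, 3, 3, 14⟩, ⟨1, 1, 2, 0⟩, ⟨0, 3, 3, 5⟩, ⟨0, 2, 2, 10⟩, ⟨1, 2, 2, 10⟩, ⟨0, 1, 2, 0⟩, ⟨1, 2, 2, 10⟩, ⟨0, 2, 2, 5⟩, ⟨0, 1, 1, 5⟩, ⟨1, 1, 1, 0⟩, ⟨0, 2, 2, 6⟩, ⟨1, 1, 2, 0⟩, ⟨0, 1, 1, 0⟩, ⟨1, 4, 4, 0⟩, ⟨0, 4, 4, 0⟩]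

/-- pattern -/
def pq173 : List PE := [⟨0, 4, 4, 0⟩, ⟨1, 4, 4, 11⟩, ⟨0, 2, 2, 9⟩, ⟨1, 3, 3, 7⟩, ⟨1, 2, 3, 0⟩, ⟨0, 2, 2, 10⟩, ⟨1, 2, 2, 11⟩, ⟨1, 3, 3, 0⟩, ⟨0, 1, 1, 7⟩, ⟨1, 1, 3, 7⟩, ⟨1, 3, 3, 10⟩, ⟨0, 2, 2, 6⟩, ⟨0, 3, 3, 14⟩, ⟨0, 2, 3, 0⟩, ⟨1, 2, 2, 6⟩, ⟨1, 2, 2, 0⟩, ⟨0, 1, 1, 0⟩, ⟨1, 1, 1, 0⟩, ⟨0, 3, 3, 6⟩, ⟨0, 2, 2, 10⟩, ⟨0, 2, 2, 0⟩, ⟨1, 2, 2, 6⟩, ⟨1, 2, 2, 5⟩, ⟨0, 1, 1, 0⟩, ⟨1, 4, 4, 0⟩, ⟨0, 4, 4, 0⟩]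

/-- pattern -/
def pq174 : List PE := [⟨0, 4, 4, 0⟩, ⟨1, 4, 4, 5⟩, ⟨0, 2, 2, 11⟩, ⟨1, 3, 3, 10⟩, ⟨0, 2, 2, 6⟩, ⟨0, 3, 3, 14⟩, ⟨0, 3, 3, 10⟩, ⟨1, 2, 2, 10⟩, ⟨1, 1, 2, 0⟩, ⟨0, 2, 2, 5⟩, ⟨0, 1, 1, 0⟩, ⟨1, 3, 3, 5⟩, ⟨1, 2, 2, 6⟩, ⟨0, 1, 1, 0⟩, ⟨1, 1, 1, 0⟩, ⟨0, 3, 3, 14⟩, ⟨0, 3, 3, 6⟩, ⟨0, 2, 2, 10⟩, ⟨1, 3, 3, 11⟩, ⟨0, 2, 2, 6⟩, ⟨0, 1, 1, 6⟩, ⟨1, 3, 3, 7⟩, ⟨1, 4, 4, 0⟩, ⟨0, 4, 4, 0⟩]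

/-- pattern -/
def pq175 : List PE := [⟨0, 4, 4, 0⟩, ⟨1, 4, 4, 11⟩, ⟨1, 3, 3, 5⟩, ⟨0, 1, 1, 5⟩, ⟨0, 2, 2, 6⟩, ⟨1, 2, 2, 5⟩, ⟨0, 2, 2, 9⟩, ⟨1, 1, 1, 0⟩, ⟨0, 2, 2, 0⟩, ⟨1, 2, 2, 6⟩, ⟨1, 2, 2, 0⟩, ⟨0, 3, 3, 14⟩, ⟨0, 2, 2, 6⟩, ⟨1, 3, 3, 5⟩, ⟨1, 2, 2, 6⟩, ⟨0, 3, 3, 14⟩, ⟨0, 3, 3, 6⟩, ⟨0, 2, 2, 10⟩, ⟨1, 3, 3, 11⟩, ⟨0, 1, 2, 0⟩, ⟨1, 3, 3, 6⟩, ⟨1, 1, 2, 6⟩, ⟨0, 2, 2, 5⟩, ⟨0, 2, 2, 10⟩, ⟨1, 3, 3, 7⟩, ⟨1, 4, 4, 0⟩, ⟨0, 4, 4, 0⟩]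

/-- pattern -/
def pq176 : List PE := [⟨0, 4, 4, 0⟩, ⟨1, 4, 4, 11⟩, ⟨1, 3, 3, 0⟩, ⟨0, 2, 2, 10⟩, ⟨1, 2, 2, 0⟩, ⟨0, 2, 2, 6⟩, ⟨1, 2, 2, 0⟩, ⟨0, 3, 3, 0⟩, ⟨1, 1, 1, 13⟩, ⟨0, 1, 3, 13⟩, ⟨0, 3, 3, 14⟩, ⟨0, 2, 2, 6⟩, ⟨1, 3, 3, 5⟩, ⟨1, 2, 2, 6⟩, ⟨0, 3, 3, 14⟩, ⟨0, 3, 3, 6⟩, ⟨0, 2, 2, 10⟩, ⟨1, 3, 3, 11⟩, ⟨1, 3, 3, 6⟩, ⟨0, 1, 1, 6⟩, ⟨0, 2, 2, 9⟩, ⟨1, 2, 3, 7⟩, ⟨1, 3, 3, 0⟩, ⟨0, 1, 1, 0⟩, ⟨1, 4, 4, 0⟩, ⟨0, 4, 4, 0⟩]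

/-- pattern -/
def pq177 : List PE := [⟨0, 4, 4, 0⟩, ⟨1, 4, 4, 0⟩, ⟨0, 1, 1, 6⟩, ⟨1, 2, 2, 0⟩, ⟨0, 2, 2, 9⟩, ⟨1, 1, 1, 0⟩, ⟨0, 1, 1, 0⟩, ⟨1, 2, 2, 6⟩, ⟨0, 2, 2, 6⟩, ⟨1, 1, 2, 6⟩, ⟨1, 2, 2, 9⟩, ⟨0, 2, 2, 5⟩, ⟨1, 1, 1, 0⟩, ⟨0, 3, 3, 0⟩, ⟨1, 1, 1, 15⟩, ⟨0, 3, 3, 5⟩, ⟨1, 2, 2, 6⟩, ⟨0, 2, 2, 10⟩, ⟨1, 3, 3, 5⟩, ⟨1, 3, 3, 5⟩, ⟨1, 3, 3, 11⟩, ⟨1, 2, 3, 6⟩, ⟨1, 1, 2, 6⟩, ⟨0, 2, 2, 5⟩, ⟨0, 2, 2, 10⟩, ⟨1, 2, 2, 5⟩, ⟨1, 3, 3, 7⟩, ⟨1, 4, 4, 0⟩, ⟨0, 4, 4, 0⟩]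

/-- pattern -/
def pq178 : List PE := [⟨0, 4, 4, 0⟩, ⟨1, 4, 4, 6⟩, ⟨1, 2, 2, 6⟩, ⟨0, 2, 2, 5⟩, ⟨1, 1, 1, 5⟩, ⟨1, 1, 1, 0⟩, ⟨0, 2, 2, 9⟩, ⟨0, 1, 2, 0⟩, ⟨1, 2, 2, 0⟩, ⟨0, 1, 1, 10⟩, ⟨0, 2, 2, 5⟩, ⟨1, 1, 1, 5⟩, ⟨1, 1, 1, 0⟩, ⟨0, 3, 3, 0⟩, ⟨1, 1, 1, 15⟩, ⟨0, 3, 3, 5⟩, ⟨1, 2, 2, 6⟩, ⟨0, 2, 2, 10⟩, ⟨1, 3, 3, 5⟩, ⟨1, 3, 3, 5⟩, ⟨1, 3, 3, 0⟩, ⟨0, 2, 2, 9⟩, ⟨0, 2, 2, 6⟩, ⟨1, 2, 2, 5⟩, ⟨1, 3, 3, 7⟩, ⟨1, 4, 4, 0⟩, ⟨0, 4, 4, 0⟩]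

/-- pattern -/
def pq179 : List PE := [⟨0, 4, 4, 0⟩, ⟨1, 4, 4, 6⟩, ⟨0, 2, 2, 9⟩, ⟨1, 1, 1, 0⟩, ⟨0, 1, 1, 0⟩, ⟨1, 2, 2, 6⟩, ⟨0, 2, 2, 6⟩, ⟨1, 1, 2, 6⟩, ⟨1, 2, 2, 9⟩, ⟨0, 2, 2, 5⟩, ⟨1, 1, 1, 0⟩, ⟨0, 3, 3, 0⟩, ⟨1, 1, 1, 15⟩, ⟨0, 3, 3, 5⟩, ⟨1, 2, 2, 6⟩, ⟨0, 2, 2, 10⟩, ⟨1, 3, 3, 5⟩, ⟨1, 3, 3, 5⟩, ⟨1, 3, 3, 11⟩, ⟨1, 2, 3, 0⟩, ⟨0, 2, 2, 5⟩, ⟨0, 2, 2, 10⟩, ⟨1, 2, 2, 5⟩, ⟨1, 3, 3, 7⟩, ⟨1, 4, 4, 0⟩, ⟨0, 4, 4, 0⟩]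

/-- pattern -/
def pq180 : List PE := [⟨0, 4, 4, 0⟩, ⟨1, 4, 4, 0⟩, ⟨0, 1, 1, 6⟩, ⟨1, 2, 2, 0⟩, ⟨0, 2, 2, 9⟩, ⟨1, 1, 1, 0⟩, ⟨0, 1, 1, 0⟩, ⟨1, 2, 2, 6⟩, ⟨0, 2, 2, 6⟩, ⟨0, 1, 1, 6⟩, ⟨1, 2, 2, 9⟩, ⟨0, 2, 2, 5⟩, ⟨1, 1, 1, 0⟩, ⟨0, 3, 3, 0⟩, ⟨1, 1, 1, 15⟩, ⟨0, 3, 3, 5⟩, ⟨1, 2, 2, 6⟩, ⟨0, 2, 2, 10⟩, ⟨1, 3, 3, 5⟩, ⟨1, 3, 3, 5⟩, ⟨1, 3, 3, 6⟩, ⟨1, 1, 2, 6⟩, ⟨0, 2, 2, 5⟩, ⟨0, 2, 2, 10⟩, ⟨1, 2, 2, 5⟩, ⟨1, 3, 3, 7⟩, ⟨1, 4, 4, 0⟩, ⟨0, 4, 4, 0⟩]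

/-- pattern -/
def pq181 : List PE := [⟨0, 4, 4, 0⟩, ⟨1, 4, 4, 0⟩, ⟨0, 1, 1, 6⟩, ⟨1, 2, 2, 0⟩, ⟨0, 2, 2, 9⟩, ⟨0, 2, 2, 5⟩, ⟨1, 1, 1, 0⟩, ⟨0, 1, 1, 0⟩, ⟨1, 2, 2, 6⟩, ⟨1, 2, 2, 5⟩, ⟨0, 2, 2, 9⟩, ⟨0, 2, 2, 5⟩, ⟨1, 1, 1, 0⟩, ⟨0, 3, 3, 0⟩, ⟨1, 1, 1, 15⟩, ⟨0, 3, 3, 5⟩, ⟨1, 2, 2, 6⟩, ⟨0, 2, 2, 10⟩, ⟨1, 3, 3, 5⟩, ⟨1, 3, 3, 5⟩, ⟨1, 3, 3, 11⟩, ⟨1, 2, 3, 6⟩, ⟨1, 1, 2, 6⟩, ⟨0, 2, 2, 5⟩, ⟨0, 2, 2, 10⟩, ⟨1, 2, 2, 5⟩, ⟨1, 3, 3, 7⟩, ⟨1, 4, 4, 0⟩, ⟨0, 4, 4, 0⟩]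

/-- pattern -/
def pq182 : List PE := [⟨0, 4, 4, 0⟩, ⟨1, 4, 4, 0⟩, ⟨0, 1, 1, 6⟩, ⟨1, 2, 2, 0⟩, ⟨0, 2, 2, 9⟩, ⟨1, 1, 1, 0⟩, ⟨0, 1, 1, 0⟩, ⟨1, 1, 1, 0⟩, ⟨0, 2, 2, 5⟩, ⟨1, 1, 1, 5⟩, ⟨1, 2, 2, 10⟩, ⟨0, 2, 2, 5⟩, ⟨0, 1, 1, 0⟩, ⟨1, 1, 1, 0⟩, ⟨0, 3, 3, 0⟩, ⟨1, 1, 1, 15⟩, ⟨0, 3, 3, 5⟩, ⟨1, 2, 2, 6⟩, ⟨0, 2, 2, 10⟩, ⟨1, 3, 3, 5⟩, ⟨1, 3, 3, 5⟩, ⟨1, 3, 3, 6⟩, ⟨0, 1, 1, 6⟩, ⟨0, 2, 2, 5⟩, ⟨0, 1, 2, 9⟩, ⟨0, 2, 2, 6⟩, ⟨0, 1, 1, 6⟩, ⟨1, 3, 3, 7⟩, ⟨1, 4, 4, 0⟩, ⟨0, 4, 4, 0⟩]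

/-- pattern -/
def pq183 : List PE := [⟨0, 4, 4, 0⟩, ⟨1, 4, 4, 0⟩, ⟨0, 1, 1, 6⟩, ⟨1, 2, 2, 0⟩, ⟨0, 2, 2, 9⟩, ⟨1, 1, 1, 0⟩, ⟨0, 1, 1, 0⟩, ⟨1, 2, 2, 6⟩, ⟨0, 2, 2, 10⟩, ⟨0, 2, 2, 6⟩, ⟨1, 1, 2, 6⟩, ⟨1, 2, 2, 9⟩, ⟨0, 2, 2, 5⟩, ⟨1, 1, 1, 0⟩, ⟨0, 3, 3, 0⟩, ⟨1, 1, 1, 15⟩, ⟨0, 3, 3, 5⟩, ⟨1, 2, 2, 6⟩, ⟨0, 2, 2, 10⟩, ⟨1, 3, 3, 5⟩, ⟨1, 3, 3, 5⟩, ⟨1, 3, 3, 11⟩, ⟨1, 2, 3, 6⟩, ⟨1, 1, 2, 6⟩, ⟨0, 2, 2, 5⟩, ⟨0, 2, 2, 10⟩, ⟨1, 2, 2, 5⟩, ⟨1, 3, 3, 7⟩, ⟨1, 4, 4, 0⟩, ⟨0, 4, 4, 0⟩]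

/-- pattern -/
def pq184 : List PE := [⟨0, 4, 4, 0⟩, ⟨1, 4, 4, 6⟩, ⟨1, 2, 2, 6⟩, ⟨0, 2, 2, 9⟩, ⟨1, 1, 1, 0⟩, ⟨0, 1, 1, 0⟩, ⟨1, 1, 1, 0⟩, ⟨0, 2, 2, 5⟩, ⟨0, 1, 1, 5⟩, ⟨1, 2, 2, 10⟩, ⟨0, 2, 2, 5⟩, ⟨0, 1, 1, 0⟩, ⟨1, 1, 1, 0⟩, ⟨0, 3, 3, 0⟩, ⟨1, 1, 1, 15⟩, ⟨0, 3, 3, 5⟩, ⟨1, 2, 2, 6⟩, ⟨0, 2, 2, 10⟩, ⟨1, 3, 3, 5⟩, ⟨1, 3, 3, 5⟩, ⟨1, 3, 3, 11⟩, ⟨1, 2, 3, 0⟩, ⟨0, 2, 2, 5⟩, ⟨0, 1, 2, 9⟩, ⟨0, 2, 2, 6⟩, ⟨1, 1, 2, 6⟩, ⟨1, 3, 3, 7⟩, ⟨1, 4, 4, 0⟩, ⟨0, 4, 4, 0⟩]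

/-- pattern -/
def pq185 : List PE := [⟨0, 4, 4, 0⟩, ⟨1, 4, 4, 0⟩, ⟨0, 1, 1, 6⟩, ⟨1, 2, 2, 0⟩, ⟨0, 2, 2, 9⟩, ⟨0, 2, 2, 5⟩, ⟨1, 1, 1, 0⟩, ⟨0, 1, 1, 0⟩, ⟨1, 2, 2, 5⟩, ⟨0, 2, 2, 9⟩, ⟨0, 2, 2, 5⟩, ⟨1, 1, 1, 0⟩, ⟨0, 3, 3, 0⟩, ⟨1, 1, 1, 15⟩, ⟨0, 3, 3, 5⟩, ⟨1, 2, 2, 6⟩, ⟨0, 2, 2, 10⟩, ⟨1, 3, 3, 5⟩, ⟨1, 3, 3, 5⟩, ⟨1, 3, 3, 11⟩, ⟨1, 2, 3, 6⟩, ⟨0, 1, 1, 6⟩, ⟨0, 2, 2, 5⟩, ⟨1, 1, 1, 10⟩, ⟨0, 2, 2, 10⟩, ⟨1, 2, 2, 5⟩, ⟨1, 3, 3, 7⟩, ⟨1, 4, 4, 0⟩, ⟨0, 4, 4, 0⟩]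

/-- pattern -/
def pq186 : List PE := [⟨0, 4, 4, 0⟩, ⟨1, 4, 4, 5⟩, ⟨1, 2, 2, 6⟩, ⟨0, 1, 1, 0⟩, ⟨1, 1, 1, 0⟩, ⟨0, 2, 2, 9⟩, ⟨1, 1, 1, 0⟩, ⟨0, 1, 1, 0⟩, ⟨1, 2, 2, 10⟩, ⟨0, 2, 2, 5⟩, ⟨1, 1, 1, 5⟩, ⟨1, 1, 1, 0⟩, ⟨0, 3, 3, 0⟩, ⟨1, 1, 1, 15⟩, ⟨0, 3, 3, 5⟩, ⟨1, 2, 2, 6⟩, ⟨0, 2, 2, 10⟩, ⟨1, 3, 3, 5⟩, ⟨1, 3, 3, 5⟩, ⟨1, 3, 3, 9⟩, ⟨1, 1, 1, 9⟩, ⟨0, 2, 2, 5⟩, ⟨0, 1, 1, 6⟩, ⟨1, 3, 3, 7⟩, ⟨1, 4, 4, 0⟩, ⟨0, 4, 4, 0⟩]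

/-- pattern -/
def pq187 : List PE := [⟨0, 4, 4, 0⟩, ⟨1, 4, 4, 5⟩, ⟨1, 2, 2, 6⟩, ⟨0, 1, 1, 0⟩, ⟨1, 1, 1, 0⟩, ⟨0, 2, 2, 9⟩, ⟨1, 1, 1, 0⟩, ⟨0, 1, 1, 0⟩, ⟨1, 2, 2, 10⟩, ⟨0, 2, 2, 5⟩, ⟨1, 1, 1, 5⟩, ⟨1, 1, 1, 0⟩, ⟨0, 3, 3, 0⟩, ⟨1, 1, 1, 15⟩, ⟨0, 3, 3, 5⟩, ⟨1, 2, 2, 6⟩, ⟨0, 2, 2, 10⟩, ⟨1, 3, 3, 5⟩, ⟨1, 3, 3, 5⟩, ⟨1, 3, 3, 11⟩, ⟨1, 2, 3, 9⟩, ⟨1, 1, 1, 9⟩, ⟨0, 2, 2, 5⟩, ⟨0, 1, 1, 6⟩, ⟨1, 3, 3, 7⟩, ⟨1, 4, 4, 0⟩, ⟨0, 4, 4, 0⟩]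

/-- pattern -/
def pq188 : List PE := [⟨0, 4, 4, 0⟩, ⟨1, 4, 4, 0⟩, ⟨0, 1, 1, 6⟩, ⟨1, 2, 2, 5⟩, ⟨0, 2, 2, 9⟩, ⟨1, 1, 1, 0⟩, ⟨0, 2, 2, 0⟩, ⟨1, 1, 1, 0⟩, ⟨0, 2, 2, 5⟩, ⟨0, 1, 1, 5⟩, ⟨1, 2, 2, 10⟩, ⟨0, 2, 2, 5⟩, ⟨0, 1, 1, 0⟩, ⟨1, 1, 1, 0⟩, ⟨0, 3, 3, 0⟩, ⟨1, 1, 1, 15⟩, ⟨0, 3, 3, 5⟩, ⟨1, 2, 2, 6⟩, ⟨0, 2, 2, 10⟩, ⟨1, 3, 3, 5⟩, ⟨1, 3, 3, 5⟩, ⟨1, 3, 3, 6⟩, ⟨1, 1, 2, 6⟩, ⟨0, 2, 2, 5⟩, ⟨1, 1, 1, 9⟩, ⟨1, 1, 1, 9⟩, ⟨0, 2, 2, 6⟩, ⟨0, 1, 1, 6⟩, ⟨1, 3, 3, 7⟩, ⟨1, 4, 4, 0⟩, ⟨0, 4, 4, 0⟩]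

/-- pattern -/
def pq189 : List PE := [⟨0, 4, 4, 0⟩, ⟨1, 4, 4, 0⟩, ⟨0, 1, 1, 6⟩, ⟨1, 2, 2, 0⟩, ⟨0, 2, 2, 10⟩, ⟨0, 2, 2, 10⟩, ⟨1, 2, 2, 10⟩, ⟨0, 1, 2, 0⟩, ⟨1, 2, 2, 0⟩, ⟨0, 2, 2, 5⟩, ⟨1, 1, 1, 5⟩, ⟨1, 1, 1, 0⟩, ⟨0, 3, 3, 0⟩, ⟨1, 1, 1, 15⟩, ⟨0, 3, 3, 5⟩, ⟨1, 2, 2, 6⟩, ⟨0, 2, 2, 10⟩, ⟨1, 3, 3, 5⟩, ⟨1, 3, 3, 5⟩, ⟨1, 3, 3, 11⟩, ⟨1, 2, 3, 6⟩, ⟨0, 1, 1, 6⟩, ⟨0, 2, 2, 9⟩, ⟨1, 2, 2, 6⟩, ⟨1, 3, 3, 7⟩, ⟨1, 4, 4, 0⟩, ⟨0, 4, 4, 0⟩]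

/-- pattern -/
def pq190 : List PE := [⟨0, 4, 4, 0⟩, ⟨1, 4, 4, 0⟩, ⟨0, 1, 1, 6⟩, ⟨1, 2, 2, 0⟩, ⟨0, 2, 2, 10⟩, ⟨0, 2, 2, 10⟩, ⟨1, 2, 2, 10⟩, ⟨0, 1, 2, 0⟩, ⟨1, 2, 2, 0⟩, ⟨0, 2, 2, 5⟩, ⟨0, 1, 1, 5⟩, ⟨1, 1, 1, 0⟩, ⟨0, 3, 3, 0⟩, ⟨1, 1, 1, 15⟩, ⟨0, 3, 3, 5⟩, ⟨1, 2, 2, 6⟩, ⟨0, 2, 2, 10⟩, ⟨1, 3, 3, 5⟩, ⟨1, 3, 3, 5⟩, ⟨1, 3, 3, 6⟩, ⟨0, 1, 1, 6⟩, ⟨0, 2, 2, 9⟩, ⟨1, 2, 2, 6⟩, ⟨1, 3, 3, 7⟩, ⟨1, 4, 4, 0⟩, ⟨0, 4, 4, 0⟩]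

/-- pattern -/
def pq191 : List PE := [⟨0, 4, 4, 0⟩, ⟨1, 4, 4, 0⟩, ⟨0, 1, 1, 6⟩, ⟨1, 2, 2, 0⟩, ⟨0, 2, 2, 0⟩, ⟨1, 1, 1, 10⟩, ⟨0, 2, 2, 10⟩, ⟨1, 2, 2, 10⟩, ⟨0, 1, 2, 0⟩, ⟨1, 2, 2, 5⟩, ⟨0, 1, 1, 5⟩, ⟨0, 2, 2, 5⟩, ⟨1, 1, 1, 5⟩, ⟨1, 1, 1, 0⟩, ⟨0, 3, 3, 0⟩, ⟨1, 1, 1, 15⟩, ⟨0, 3, 3, 5⟩, ⟨1, 2, 2, 6⟩, ⟨0, 2, 2, 10⟩, ⟨1, 3, 3, 5⟩, ⟨1, 3, 3, 5⟩, ⟨1, 3, 3, 6⟩, ⟨0, 1, 1, 6⟩, ⟨0, 2, 2, 9⟩, ⟨0, 1, 2, 0⟩, ⟨1, 2, 2, 6⟩, ⟨1, 3, 3, 7⟩, ⟨1, 4, 4, 0⟩, ⟨0, 4, 4, 0⟩]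

/-- pattern -/
def pq192 : List PE := [⟨0, 4, 4, 0⟩, ⟨1, 4, 4, 0⟩, ⟨0, 1, 1, 6⟩, ⟨1, 2, 2, 0⟩, ⟨0, 2, 2, 0⟩, ⟨1, 1, 1, 10⟩, ⟨0, 2, 2, 10⟩, ⟨1, 2, 2, 10⟩, ⟨0, 1, 2, 0⟩, ⟨1, 2, 2, 5⟩, ⟨1, 1, 1, 5⟩, ⟨0, 2, 2, 5⟩, ⟨0, 1, 1, 5⟩, ⟨1, 1, 1, 0⟩, ⟨0, 3, 3, 0⟩, ⟨1, 1, 1, 15⟩, ⟨0, 3, 3, 5⟩, ⟨1, 2, 2, 6⟩, ⟨0, 2, 2, 10⟩, ⟨1, 3, 3, 5⟩, ⟨1, 3, 3, 5⟩, ⟨1, 3, 3, 11⟩, ⟨1, 2, 3, 6⟩, ⟨0, 1, 1, 6⟩, ⟨0, 2, 2, 9⟩, ⟨0, 1, 2, 0⟩, ⟨1, 2, 2, 6⟩, ⟨1, 3, 3, 7⟩, ⟨1, 4, 4, 0⟩, ⟨0, 4, 4, 0⟩]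

/-- pattern -/
def pq193 : List PE := [⟨0, 4, 4, 0⟩, ⟨1, 4, 4, 0⟩, ⟨0, 1, 1, 6⟩, ⟨1, 2, 2, 5⟩, ⟨0, 2, 2, 9⟩, ⟨1, 1, 1, 0⟩, ⟨0, 2, 2, 0⟩, ⟨1, 1, 1, 0⟩, ⟨0, 2, 2, 5⟩, ⟨1, 1, 1, 5⟩, ⟨1, 2, 2, 10⟩, ⟨0, 2, 2, 5⟩, ⟨0, 1, 1, 0⟩, ⟨1, 1, 1, 0⟩, ⟨0, 3, 3, 0⟩, ⟨1, 1, 1, 15⟩, ⟨0, 3, 3, 5⟩, ⟨1, 2, 2, 6⟩, ⟨0, 2, 2, 10⟩, ⟨1, 3, 3, 5⟩, ⟨1, 3, 3, 5⟩, ⟨1, 3, 3, 11⟩, ⟨1, 2, 3, 6⟩, ⟨0, 1, 1, 6⟩, ⟨0, 2, 2, 5⟩, ⟨0, 1, 2, 9⟩, ⟨0, 2, 2, 6⟩, ⟨0, 1, 1, 6⟩, ⟨1, 3, 3, 7⟩, ⟨1, 4, 4, 0⟩, ⟨0, 4, 4, 0⟩]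

/-- pattern -/
def pq194 : List PE := [⟨0, 4, 4, 0⟩, ⟨1, 4, 4, 6⟩, ⟨0, 2, 2, 5⟩, ⟨1, 1, 1, 5⟩, ⟨1, 1, 1, 0⟩, ⟨0, 2, 2, 10⟩, ⟨1, 2, 2, 10⟩, ⟨0, 1, 2, 0⟩, ⟨1, 2, 2, 10⟩, ⟨0, 2, 2, 5⟩, ⟨0, 1, 1, 5⟩, ⟨1, 1, 1, 0⟩, ⟨0, 3, 3, 0⟩, ⟨1, 1, 1, 15⟩, ⟨0, 3, 3, 5⟩, ⟨1, 2, 2, 6⟩, ⟨0, 2, 2, 10⟩, ⟨1, 3, 3, 5⟩, ⟨1, 3, 3, 5⟩, ⟨1, 3, 3, 0⟩, ⟨0, 2, 2, 9⟩, ⟨0, 2, 2, 0⟩, ⟨1, 2, 2, 6⟩, ⟨1, 3, 3, 7⟩, ⟨1, 4, 4, 0⟩, ⟨0, 4, 4, 0⟩]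

/-- pattern -/
def pq195 : List PE := [⟨0, 4, 4, 0⟩, ⟨1, 4, 4, 6⟩, ⟨1, 2, 2, 6⟩, ⟨0, 2, 2, 9⟩, ⟨0, 2, 2, 5⟩, ⟨1, 1, 1, 0⟩, ⟨0, 1, 1, 0⟩, ⟨1, 2, 2, 5⟩, ⟨0, 2, 2, 9⟩, ⟨0, 2, 2, 5⟩, ⟨1, 1, 1, 0⟩, ⟨0, 3, 3, 0⟩, ⟨1, 1, 1, 15⟩, ⟨0, 3, 3, 5⟩, ⟨1, 2, 2, 6⟩, ⟨0, 2, 2, 10⟩, ⟨1, 3, 3, 5⟩, ⟨1, 3, 3, 5⟩, ⟨1, 3, 3, 0⟩, ⟨0, 2, 2, 5⟩, ⟨0, 2, 2, 10⟩, ⟨1, 2, 2, 5⟩, ⟨1, 3, 3, 7⟩, ⟨1, 4, 4, 0⟩, ⟨0, 4, 4, 0⟩]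

/-- pattern -/
def pq196 : List PE := [⟨0, 4, 4, 0⟩, ⟨1, 4, 4, 6⟩, ⟨1, 2, 2, 6⟩, ⟨0, 2, 2, 9⟩, ⟨0, 2, 2, 5⟩, ⟨1, 1, 1, 0⟩, ⟨0, 1, 1, 0⟩, ⟨1, 2, 2, 5⟩, ⟨0, 2, 2, 9⟩, ⟨0, 2, 2, 5⟩, ⟨1, 1, 1, 0⟩, ⟨0, 3, 3, 0⟩, ⟨1, 1, 1, 15⟩, ⟨0, 3, 3, 5⟩, ⟨1, 2, 2, 6⟩, ⟨0, 2, 2, 10⟩, ⟨1, 3, 3, 5⟩, ⟨1, 3, 3, 5⟩, ⟨1, 3, 3, 11⟩, ⟨1, 2, 3, 0⟩, ⟨0, 2, 2, 5⟩, ⟨0, 2, 2, 10⟩, ⟨1, 2, 2, 5⟩, ⟨1, 3, 3, 7⟩, ⟨1, 4, 4, 0⟩, ⟨0, 4, 4, 0⟩]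

/-- pattern -/
def pq197 : List PE := [⟨0, 4, 4, 0⟩, ⟨1, 4, 4, 0⟩, ⟨0, 1, 1, 6⟩, ⟨1, 2, 2, 0⟩, ⟨0, 2, 2, 0⟩, ⟨1, 1, 1, 9⟩, ⟨0, 2, 2, 9⟩, ⟨1, 2, 2, 0⟩, ⟨0, 1, 1, 5⟩, ⟨0, 2, 2, 5⟩, ⟨1, 1, 1, 5⟩, ⟨1, 1, 1, 0⟩, ⟨0, 3, 3, 0⟩, ⟨1, 1, 1, 15⟩, ⟨0, 3, 3, 5⟩, ⟨1, 2, 2, 6⟩, ⟨0, 2, 2, 10⟩, ⟨1, 3, 3, 5⟩, ⟨1, 3, 3, 5⟩, ⟨1, 3, 3, 11⟩, ⟨1, 2, 3, 6⟩, ⟨0, 1, 1, 6⟩, ⟨0, 2, 2, 9⟩, ⟨0, 1, 2, 6⟩, ⟨1, 2, 2, 6⟩, ⟨1, 1, 2, 5⟩, ⟨1, 3, 3, 7⟩, ⟨1, 4, 4, 0⟩, ⟨0, 4, 4, 0⟩]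

/-- pattern -/
def pq198 : List PE := [⟨0, 4, 4, 0⟩, ⟨1, 4, 4, 0⟩, ⟨0, 1, 1, 6⟩, ⟨1, 2, 2, 0⟩, ⟨0, 2, 2, 0⟩, ⟨1, 1, 1, 9⟩, ⟨0, 2, 2, 9⟩, ⟨1, 2, 2, 0⟩, ⟨0, 1, 1, 5⟩, ⟨0, 2, 2, 5⟩, ⟨0, 1, 1, 5⟩, ⟨1, 1, 1, 0⟩, ⟨0, 3, 3, 0⟩, ⟨1, 1, 1, 15⟩, ⟨0, 3, 3, 5⟩, ⟨1, 2, 2, 6⟩, ⟨0, 2, 2, 10⟩, ⟨1, 3, 3, 5⟩, ⟨1, 3, 3, 5⟩, ⟨1, 3, 3, 6⟩, ⟨0, 1, 1, 6⟩, ⟨0, 2, 2, 9⟩, ⟨0, 1, 2, 6⟩, ⟨1, 2, 2, 5⟩, ⟨1, 3, 3, 7⟩, ⟨1, 4, 4, 0⟩, ⟨0, 4, 4, 0⟩]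

/-- pattern -/
def pq199 : List PE := [⟨0, 4, 4, 0⟩, ⟨1, 4, 4, 0⟩, ⟨0, 1, 1, 6⟩, ⟨1, 2, 2, 0⟩, ⟨0, 2, 2, 5⟩, ⟨1, 1, 1, 5⟩, ⟨1, 1, 1, 0⟩, ⟨0, 2, 2, 9⟩, ⟨0, 1, 2, 0⟩, ⟨1, 2, 2, 10⟩, ⟨0, 2, 2, 0⟩, ⟨1, 1, 1, 0⟩, ⟨0, 3, 3, 0⟩, ⟨1, 1, 1, 15⟩, ⟨0, 3, 3, 5⟩, ⟨1, 2, 2, 6⟩, ⟨0, 2, 2, 10⟩, ⟨1, 3, 3, 5⟩, ⟨1, 3, 3, 5⟩, ⟨1, 3, 3, 6⟩, ⟨0, 1, 1, 6⟩, ⟨0, 2, 2, 9⟩, ⟨0, 2, 2, 6⟩, ⟨0, 1, 1, 6⟩, ⟨1, 3, 3, 7⟩, ⟨1, 4, 4, 0⟩, ⟨0, 4, 4, 0⟩]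

/-- pattern -/
def pq200 : List PE := [⟨0, 4, 4, 0⟩, ⟨1, 4, 4, 0⟩, ⟨0, 1, 1, 6⟩, ⟨1, 2, 2, 0⟩, ⟨0, 2, 2, 5⟩, ⟨0, 1, 1, 5⟩, ⟨1, 1, 1, 0⟩, ⟨0, 2, 2, 9⟩, ⟨0, 1, 2, 0⟩, ⟨1, 2, 2, 10⟩, ⟨0, 2, 2, 0⟩, ⟨1, 1, 1, 0⟩, ⟨0, 3, 3, 0⟩, ⟨1, 1, 1, 15⟩, ⟨0, 3, 3, 5⟩, ⟨1, 2, 2, 6⟩, ⟨0, 2, 2, 10⟩, ⟨1, 3, 3, 5⟩, ⟨1, 3, 3, 5⟩, ⟨1, 3, 3, 11⟩, ⟨1, 2, 3, 6⟩, ⟨0, 1, 1, 6⟩, ⟨0, 2, 2, 9⟩, ⟨0, 2, 2, 6⟩, ⟨0, 1, 1, 6⟩, ⟨1, 3, 3, 7⟩, ⟨1, 4, 4, 0⟩, ⟨0, 4, 4, 0⟩]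

/-- pattern -/
def pq201 : List PE := [⟨0, 4, 4, 0⟩, ⟨1, 4, 4, 6⟩, ⟨0, 2, 2, 9⟩, ⟨1, 1, 1, 0⟩, ⟨0, 2, 2, 5⟩, ⟨1, 1, 1, 5⟩, ⟨1, 2, 2, 10⟩, ⟨0, 2, 2, 0⟩, ⟨1, 2, 2, 10⟩, ⟨0, 2, 2, 5⟩, ⟨0, 1, 1, 0⟩, ⟨1, 1, 1, 0⟩, ⟨0, 3, 3, 0⟩, ⟨1, 1, 1, 15⟩, ⟨0, 3, 3, 5⟩, ⟨1, 2, 2, 6⟩, ⟨0, 2, 2, 10⟩, ⟨1, 3, 3, 5⟩, ⟨1, 3, 3, 5⟩, ⟨1, 3, 3, 0⟩, ⟨0, 2, 2, 9⟩, ⟨0, 2, 2, 6⟩, ⟨0, 1, 1, 6⟩, ⟨1, 3, 3, 7⟩, ⟨1, 4, 4, 0⟩, ⟨0, 4, 4, 0⟩]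

/-- pattern -/
def pq202 : List PE := [⟨0, 4, 4, 0⟩, ⟨1, 4, 4, 0⟩, ⟨0, 1, 1, 6⟩, ⟨1, 2, 2, 0⟩, ⟨0, 2, 2, 9⟩, ⟨1, 1, 1, 0⟩, ⟨0, 2, 2, 5⟩, ⟨1, 1, 1, 5⟩, ⟨1, 2, 2, 10⟩, ⟨0, 2, 2, 0⟩, ⟨1, 2, 2, 10⟩, ⟨0, 2, 2, 5⟩, ⟨0, 1, 1, 0⟩, ⟨1, 1, 1, 0⟩, ⟨0, 3, 3, 0⟩, ⟨1, 1, 1, 15⟩, ⟨0, 3, 3, 5⟩, ⟨1, 2, 2, 6⟩, ⟨0, 2, 2, 10⟩, ⟨1, 3, 3, 5⟩, ⟨1, 3, 3, 5⟩, ⟨1, 3, 3, 11⟩, ⟨1, 2, 3, 6⟩, ⟨1, 1, 2, 6⟩, ⟨0, 2, 2, 9⟩, ⟨0, 2, 2, 6⟩, ⟨0, 1, 1, 6⟩, ⟨1, 3, 3, 7⟩, ⟨1, 4, 4, 0⟩, ⟨0, 4, 4, 0⟩]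

/-- pattern -/
def pq203 : List PE := [⟨0, 4, 4, 0⟩, ⟨1, 4, 4, 0⟩, ⟨0, 1, 1, 6⟩, ⟨1, 2, 2, 0⟩, ⟨0, 2, 2, 9⟩, ⟨1, 1, 1, 0⟩, ⟨0, 2, 2, 5⟩, ⟨1, 1, 1, 5⟩, ⟨1, 2, 2, 10⟩, ⟨0, 2, 2, 0⟩, ⟨1, 2, 2, 10⟩, ⟨0, 2, 2, 5⟩, ⟨0, 1, 1, 0⟩, ⟨1, 1, 1, 0⟩, ⟨0, 3, 3, 0⟩, ⟨1, 1, 1, 15⟩, ⟨0, 3, 3, 5⟩, ⟨1, 2, 2, 6⟩, ⟨0, 2, 2, 10⟩, ⟨1, 3, 3, 5⟩, ⟨1, 3, 3, 5⟩, ⟨1, 3, 3, 6⟩, ⟨0, 1, 1, 6⟩, ⟨0, 2, 2, 9⟩, ⟨0, 2, 2, 6⟩, ⟨1, 1, 2, 6⟩, ⟨1, 3, 3, 7⟩, ⟨1, 4, 4, 0⟩, ⟨0, 4, 4, 0⟩]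

/-- pattern -/
def pq204 : List PE := [⟨0, 4, 4, 0⟩, ⟨1, 4, 4, 6⟩, ⟨0, 2, 2, 9⟩, ⟨1, 1, 1, 0⟩, ⟨0, 2, 2, 5⟩, ⟨1, 1, 1, 5⟩, ⟨1, 2, 2, 10⟩, ⟨0, 2, 2, 0⟩, ⟨1, 2, 2, 10⟩, ⟨0, 2, 2, 5⟩, ⟨0, 1, 1, 0⟩, ⟨1, 1, 1, 0⟩, ⟨0, 3, 3, 0⟩, ⟨1, 1, 1, 15⟩, ⟨0, 3, 3, 5⟩, ⟨1, 2, 2, 6⟩, ⟨0, 2, 2, 10⟩, ⟨1, 3, 3, 5⟩, ⟨1, 3, 3, 5⟩, ⟨1, 3, 3, 11⟩, ⟨1, 2, 3, 0⟩, ⟨0, 2, 2, 9⟩, ⟨0, 2, 2, 6⟩, ⟨1, 1, 2, 6⟩, ⟨1, 3, 3, 7⟩, ⟨1, 4, 4, 0⟩, ⟨0, 4, 4, 0⟩]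

/-- pattern -/
def pq205 : List PE := [⟨0, 4, 4, 0⟩, ⟨1, 4, 4, 0⟩, ⟨0, 1, 1, 6⟩, ⟨1, 2, 2, 0⟩, ⟨0, 2, 2, 9⟩, ⟨1, 1, 1, 0⟩, ⟨0, 1, 1, 0⟩, ⟨1, 2, 2, 6⟩, ⟨0, 2, 2, 10⟩, ⟨0, 2, 2, 6⟩, ⟨1, 1, 2, 6⟩, ⟨1, 2, 2, 9⟩, ⟨0, 2, 2, 5⟩, ⟨1, 1, 1, 0⟩, ⟨0, 3, 3, 0⟩, ⟨1, 1, 1, 15⟩, ⟨0, 3, 3, 5⟩, ⟨1, 2, 2, 6⟩, ⟨0, 2, 2, 10⟩, ⟨1, 3, 3, 5⟩, ⟨1, 3, 3, 5⟩, ⟨1, 3, 3, 6⟩, ⟨0, 1, 1, 6⟩, ⟨0, 2, 2, 5⟩, ⟨0, 2, 2, 10⟩, ⟨1, 2, 2, 5⟩, ⟨1, 3, 3, 7⟩, ⟨1, 4, 4, 0⟩, ⟨0, 4, 4, 0⟩]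

/-- pattern -/
def pq206 : List PE := [⟨0, 4, 4, 0⟩, ⟨1, 4, 4, 6⟩, ⟨0, 2, 2, 9⟩, ⟨1, 1, 1, 0⟩, ⟨0, 1, 1, 0⟩, ⟨1, 2, 2, 6⟩, ⟨0, 2, 2, 10⟩, ⟨0, 2, 2, 6⟩, ⟨1, 1, 2, 6⟩, ⟨1, 2, 2, 9⟩, ⟨0, 2, 2, 5⟩, ⟨1, 1, 1, 0⟩, ⟨0, 3, 3, 0⟩, ⟨1, 1, 1, 15⟩, ⟨0, 3, 3, 5⟩, ⟨1, 2, 2, 6⟩, ⟨0, 2, 2, 10⟩, ⟨1, 3, 3, 5⟩, ⟨1, 3, 3, 5⟩, ⟨1, 3, 3, 11⟩, ⟨1, 2, 3, 0⟩, ⟨0, 2, 2, 5⟩, ⟨0, 2, 2, 10⟩, ⟨1, 2, 2, 5⟩, ⟨1, 3, 3, 7⟩, ⟨1, 4, 4, 0⟩, ⟨0, 4, 4, 0⟩]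

/-- pattern -/
def pq207 : List PE := [⟨0, 4, 4, 0⟩, ⟨1, 4, 4, 5⟩, ⟨1, 2, 2, 6⟩, ⟨0, 1, 1, 0⟩, ⟨1, 1, 1, 0⟩, ⟨0, 2, 2, 9⟩, ⟨1, 1, 1, 0⟩, ⟨0, 1, 1, 0⟩, ⟨1, 2, 2, 10⟩, ⟨0, 2, 2, 5⟩, ⟨1, 1, 1, 5⟩, ⟨1, 1, 1, 0⟩, ⟨0, 3, 3, 0⟩, ⟨1, 1, 1, 15⟩, ⟨0, 3, 3, 5⟩, ⟨1, 2, 2, 6⟩, ⟨0, 2, 2, 10⟩, ⟨1, 3, 3, 5⟩, ⟨1, 3, 3, 5⟩, ⟨1, 2, 2, 11⟩, ⟨1, 2, 3, 9⟩, ⟨1, 1, 1, 9⟩, ⟨0, 2, 2, 5⟩, ⟨1, 1, 1, 6⟩, ⟨1, 3, 3, 7⟩, ⟨1, 4, 4, 0⟩, ⟨0, 4, 4, 0⟩]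

/-- pattern -/
def pq208 : List PE := [⟨0, 4, 4, 0⟩, ⟨1, 4, 4, 0⟩, ⟨0, 1, 1, 6⟩, ⟨1, 2, 2, 0⟩, ⟨0, 2, 2, 0⟩, ⟨1, 1, 1, 9⟩, ⟨0, 2, 2, 9⟩, ⟨1, 2, 2, 0⟩, ⟨0, 1, 1, 5⟩, ⟨0, 2, 2, 5⟩, ⟨0, 1, 1, 5⟩, ⟨1, 1, 1, 0⟩, ⟨0, 3, 3, 0⟩, ⟨1, 1, 1, 15⟩, ⟨0, 3, 3, 5⟩, ⟨1, 2, 2, 6⟩, ⟨0, 2, 2, 10⟩, ⟨1, 3, 3, 5⟩, ⟨1, 3, 3, 5⟩, ⟨1, 2, 2, 11⟩, ⟨1, 2, 3, 6⟩, ⟨0, 1, 1, 6⟩, ⟨0, 2, 2, 9⟩, ⟨0, 1, 2, 6⟩, ⟨1, 2, 2, 5⟩, ⟨1, 3, 3, 7⟩, ⟨1, 4, 4, 0⟩, ⟨0, 4, 4, 0⟩]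

/-- pattern -/
def pq209 : List PE := [⟨0, 4, 4, 0⟩, ⟨1, 4, 4, 0⟩, ⟨0, 1, 1, 6⟩, ⟨1, 2, 2, 0⟩, ⟨0, 2, 2, 0⟩, ⟨1, 1, 1, 9⟩, ⟨0, 2, 2, 9⟩, ⟨1, 2, 2, 0⟩, ⟨0, 1, 1, 5⟩, ⟨0, 2, 2, 5⟩, ⟨1, 1, 1, 5⟩, ⟨1, 1, 1, 0⟩, ⟨0, 3, 3, 0⟩, ⟨1, 1, 1, 15⟩, ⟨0, 3, 3, 5⟩, ⟨1, 2, 2, 6⟩, ⟨0, 2, 2, 10⟩, ⟨1, 3, 3, 5⟩, ⟨1, 3, 3, 5⟩, ⟨1, 2, 2, 11⟩, ⟨1, 2, 3, 6⟩, ⟨0, 1, 1, 6⟩, ⟨0, 2, 2, 9⟩, ⟨0, 1, 2, 6⟩, ⟨1, 2, 2, 5⟩, ⟨1, 4, 4, 0⟩, ⟨0, 4, 4, 0⟩]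

/-- pattern -/
def pq210 : List PE := [⟨0, 4, 4, 0⟩, ⟨1, 4, 4, 6⟩, ⟨1, 2, 2, 6⟩, ⟨0, 2, 2, 9⟩, ⟨0, 2, 2, 5⟩, ⟨1, 1, 1, 0⟩, ⟨0, 1, 1, 0⟩, ⟨1, 2, 2, 5⟩, ⟨0, 2, 2, 9⟩, ⟨0, 2, 2, 5⟩, ⟨1, 1, 1, 0⟩, ⟨0, 3, 3, 0⟩, ⟨1, 1, 1, 15⟩, ⟨0, 3, 3, 5⟩, ⟨1, 2, 2, 6⟩, ⟨0, 2, 2, 10⟩, ⟨1, 3, 3, 5⟩, ⟨1, 3, 3, 5⟩, ⟨1, 2, 2, 11⟩, ⟨1, 2, 3, 0⟩, ⟨0, 2, 2, 5⟩, ⟨0, 2, 2, 10⟩, ⟨1, 2, 2, 5⟩, ⟨1, 3, 3, 7⟩, ⟨1, 4, 4, 0⟩, ⟨0, 4, 4, 0⟩]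

/-- pattern -/
def pq211 : List PE := [⟨0, 4, 4, 0⟩, ⟨1, 4, 4, 0⟩, ⟨0, 1, 1, 6⟩, ⟨1, 2, 2, 0⟩, ⟨0, 2, 2, 9⟩, ⟨0, 2, 2, 5⟩, ⟨1, 1, 1, 0⟩, ⟨0, 1, 1, 0⟩, ⟨1, 2, 2, 5⟩, ⟨0, 2, 2, 9⟩, ⟨0, 2, 2, 5⟩, ⟨1, 1, 1, 0⟩, ⟨0, 3, 3, 0⟩, ⟨1, 1, 1, 15⟩, ⟨0, 3, 3, 5⟩, ⟨1, 2, 2, 6⟩, ⟨0, 2, 2, 10⟩, ⟨1, 3, 3, 5⟩, ⟨1, 3, 3, 5⟩, ⟨1, 2, 2, 11⟩, ⟨1, 2, 3, 6⟩, ⟨0, 1, 1, 6⟩, ⟨0, 2, 2, 5⟩, ⟨0, 2, 2, 10⟩, ⟨1, 2, 2, 5⟩, ⟨1, 3, 3, 7⟩, ⟨1, 4, 4, 0⟩, ⟨0, 4, 4, 0⟩]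

/-- pattern -/
def pq212 : List PE := [⟨0, 4, 4, 0⟩, ⟨1, 4, 4, 0⟩, ⟨0, 1, 1, 6⟩, ⟨1, 2, 2, 0⟩, ⟨0, 2, 2, 9⟩, ⟨0, 2, 2, 5⟩, ⟨1, 1, 1, 0⟩, ⟨0, 1, 1, 0⟩, ⟨1, 2, 2, 6⟩, ⟨1, 2, 2, 5⟩, ⟨0, 2, 2, 5⟩, ⟨1, 1, 1, 0⟩, ⟨0, 3, 3, 0⟩, ⟨1, 1, 1, 15⟩, ⟨0, 3, 3, 5⟩, ⟨1, 2, 2, 6⟩, ⟨0, 2, 2, 10⟩, ⟨1, 3, 3, 5⟩, ⟨1, 3, 3, 5⟩, ⟨1, 2, 2, 11⟩, ⟨1, 2, 3, 6⟩, ⟨0, 1, 1, 6⟩, ⟨0, 2, 2, 5⟩, ⟨0, 2, 2, 10⟩, ⟨1, 2, 2, 5⟩, ⟨1, 3, 3, 7⟩, ⟨1, 4, 4, 0⟩, ⟨0, 4, 4, 0⟩]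

/-- pattern -/
def pq213 : List PE := [⟨0, 4, 4, 0⟩, ⟨1, 4, 4, 0⟩, ⟨0, 1, 1, 6⟩, ⟨1, 2, 2, 0⟩, ⟨0, 2, 2, 9⟩, ⟨0, 2, 2, 5⟩, ⟨1, 1, 1, 0⟩, ⟨0, 1, 1, 0⟩, ⟨1, 2, 2, 6⟩, ⟨1, 2, 2, 5⟩, ⟨0, 2, 2, 5⟩, ⟨1, 1, 1, 0⟩, ⟨0, 3, 3, 0⟩, ⟨1, 1, 1, 15⟩, ⟨0, 3, 3, 5⟩, ⟨1, 2, 2, 6⟩, ⟨0, 2, 2, 10⟩, ⟨1, 3, 3, 5⟩, ⟨1, 3, 3, 5⟩, ⟨1, 2, 2, 11⟩, ⟨1, 2, 3, 6⟩, ⟨1, 1, 2, 6⟩, ⟨0, 2, 2, 5⟩, ⟨0, 2, 2, 10⟩, ⟨1, 2, 2, 5⟩, ⟨1, 4, 4, 0⟩, ⟨0, 4, 4, 0⟩]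

/-- pattern -/
def pq214 : List PE := [⟨0, 4, 4, 0⟩, ⟨1, 4, 4, 6⟩, ⟨1, 2, 2, 6⟩, ⟨0, 2, 2, 9⟩, ⟨0, 2, 2, 5⟩, ⟨1, 1, 1, 0⟩, ⟨0, 1, 1, 0⟩, ⟨1, 2, 2, 6⟩, ⟨1, 2, 2, 5⟩, ⟨0, 2, 2, 9⟩, ⟨0, 2, 2, 5⟩, ⟨1, 1, 1, 0⟩, ⟨0, 3, 3, 0⟩, ⟨1, 1, 1, 15⟩, ⟨0, 3, 3, 5⟩, ⟨1, 2, 2, 6⟩, ⟨0, 2, 2, 10⟩, ⟨1, 3, 3, 5⟩, ⟨1, 3, 3, 5⟩, ⟨1, 2, 2, 11⟩, ⟨1, 2, 3, 0⟩, ⟨0, 2, 2, 5⟩, ⟨0, 2, 2, 10⟩, ⟨1, 2, 2, 5⟩, ⟨1, 3, 3, 7⟩, ⟨1, 4, 4, 0⟩, ⟨0, 4, 4, 0⟩]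

/-- pattern -/
def pq215 : List PE := [⟨0, 4, 4, 0⟩, ⟨1, 4, 4, 6⟩, ⟨0, 2, 2, 9⟩, ⟨1, 1, 1, 0⟩, ⟨0, 1, 1, 0⟩, ⟨1, 2, 2, 6⟩, ⟨0, 2, 2, 6⟩, ⟨1, 1, 2, 6⟩, ⟨1, 2, 2, 9⟩, ⟨0, 2, 2, 5⟩, ⟨1, 1, 1, 0⟩, ⟨0, 3, 3, 0⟩, ⟨1, 1, 1, 15⟩, ⟨0, 3, 3, 5⟩, ⟨1, 2, 2, 6⟩, ⟨0, 2, 2, 10⟩, ⟨1, 3, 3, 5⟩, ⟨1, 3, 3, 5⟩, ⟨1, 2, 2, 11⟩, ⟨1, 2, 3, 0⟩, ⟨0, 2, 2, 5⟩, ⟨0, 2, 2, 10⟩, ⟨1, 2, 2, 5⟩, ⟨1, 3, 3, 7⟩, ⟨1, 4, 4, 0⟩, ⟨0, 4, 4, 0⟩]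

/-- pattern -/
def pq216 : List PE := [⟨0, 4, 4, 0⟩, ⟨1, 4, 4, 0⟩, ⟨0, 1, 1, 6⟩, ⟨1, 2, 2, 0⟩, ⟨0, 2, 2, 5⟩, ⟨1, 1, 1, 5⟩, ⟨1, 1, 1, 0⟩, ⟨0, 2, 2, 9⟩, ⟨0, 1, 2, 0⟩, ⟨1, 2, 2, 10⟩, ⟨0, 2, 2, 0⟩, ⟨1, 1, 1, 0⟩, ⟨0, 3, 3, 0⟩, ⟨1, 1, 1, 15⟩, ⟨0, 3, 3, 5⟩, ⟨1, 2, 2, 6⟩, ⟨0, 2, 2, 10⟩, ⟨1, 3, 3, 5⟩, ⟨1, 3, 3, 5⟩, ⟨1, 2, 2, 11⟩, ⟨1, 2, 3, 6⟩, ⟨1, 1, 2, 6⟩, ⟨0, 2, 2, 9⟩, ⟨0, 2, 2, 6⟩, ⟨0, 1, 1, 6⟩, ⟨1, 3, 3, 7⟩, ⟨1, 4, 4, 0⟩, ⟨0, 4, 4, 0⟩]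

/-- pattern -/
def pq217 : List PE := [⟨0, 4, 4, 0⟩, ⟨1, 4, 4, 0⟩, ⟨0, 1, 1, 6⟩, ⟨1, 2, 2, 5⟩, ⟨0, 2, 2, 9⟩, ⟨1, 1, 1, 0⟩, ⟨0, 2, 2, 5⟩, ⟨0, 1, 1, 5⟩, ⟨1, 2, 2, 10⟩, ⟨0, 2, 2, 5⟩, ⟨0, 1, 1, 0⟩, ⟨1, 1, 1, 0⟩, ⟨0, 3, 3, 0⟩, ⟨1, 1, 1, 15⟩, ⟨0, 3, 3, 5⟩, ⟨1, 2, 2, 6⟩, ⟨0, 2, 2, 10⟩, ⟨1, 3, 3, 5⟩, ⟨1, 3, 3, 5⟩, ⟨1, 2, 2, 11⟩, ⟨1, 2, 3, 6⟩, ⟨0, 1, 1, 6⟩, ⟨0, 2, 2, 5⟩, ⟨0, 2, 2, 6⟩, ⟨0, 1, 1, 6⟩, ⟨1, 3, 3, 7⟩, ⟨1, 4, 4, 0⟩, ⟨0, 4, 4, 0⟩]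

/-- pattern -/
def pq218 : List PE := [⟨0, 4, 4, 0⟩, ⟨1, 4, 4, 0⟩, ⟨0, 1, 1, 6⟩, ⟨1, 2, 2, 5⟩, ⟨0, 2, 2, 9⟩, ⟨1, 1, 1, 0⟩, ⟨0, 2, 2, 0⟩, ⟨1, 1, 1, 0⟩, ⟨0, 2, 2, 5⟩, ⟨0, 1, 1, 5⟩, ⟨1, 2, 2, 10⟩, ⟨1, 2, 2, 9⟩, ⟨0, 2, 2, 5⟩, ⟨0, 1, 1, 0⟩, ⟨1, 1, 1, 0⟩, ⟨0, 3, 3, 0⟩, ⟨1, 1, 1, 15⟩, ⟨0, 3, 3, 5⟩, ⟨1, 2, 2, 6⟩, ⟨0, 2, 2, 10⟩, ⟨1, 3, 3, 5⟩, ⟨1, 3, 3, 5⟩, ⟨1, 2, 2, 11⟩, ⟨1, 2, 3, 6⟩, ⟨1, 1, 2, 6⟩, ⟨0, 2, 2, 5⟩, ⟨0, 2, 2, 9⟩, ⟨0, 1, 2, 6⟩, ⟨0, 1, 1, 6⟩, ⟨1, 3, 3, 7⟩, ⟨1, 4, 4, 0⟩, ⟨0, 4, 4, 0⟩]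

/-- pattern -/
def pq219 : List PE := [⟨0, 4, 4, 0⟩, ⟨1, 4, 4, 0⟩, ⟨0, 1, 1, 6⟩, ⟨1, 2, 2, 0⟩, ⟨0, 2, 2, 5⟩, ⟨0, 1, 1, 5⟩, ⟨1, 1, 1, 0⟩, ⟨0, 2, 2, 9⟩, ⟨0, 1, 2, 0⟩, ⟨1, 2, 2, 10⟩, ⟨0, 2, 2, 0⟩, ⟨1, 1, 1, 0⟩, ⟨0, 3, 3, 0⟩, ⟨1, 1, 1, 15⟩, ⟨0, 3, 3, 5⟩, ⟨1, 2, 2, 6⟩, ⟨0, 2, 2, 10⟩, ⟨1, 3, 3, 5⟩, ⟨1, 3, 3, 5⟩, ⟨1, 2, 2, 11⟩, ⟨1, 2, 3, 6⟩, ⟨1, 1, 2, 6⟩, ⟨0, 2, 2, 9⟩, ⟨0, 2, 2, 6⟩, ⟨0, 1, 1, 6⟩, ⟨1, 4, 4, 0⟩, ⟨0, 4, 4, 0⟩]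

/-- pattern -/
def pq220 : List PE := [⟨0, 4, 4, 0⟩, ⟨1, 4, 4, 6⟩, ⟨0, 2, 2, 9⟩, ⟨1, 1, 1, 0⟩, ⟨0, 2, 2, 5⟩, ⟨1, 1, 1, 5⟩, ⟨1, 2, 2, 10⟩, ⟨0, 2, 2, 0⟩, ⟨1, 2, 2, 10⟩, ⟨0, 2, 2, 5⟩, ⟨0, 1, 1, 0⟩, ⟨1, 1, 1, 0⟩, ⟨0, 3, 3, 0⟩, ⟨1, 1, 1, 15⟩, ⟨0, 3, 3, 5⟩, ⟨1, 2, 2, 6⟩, ⟨0, 2, 2, 10⟩, ⟨1, 3, 3, 5⟩, ⟨1, 3, 3, 5⟩, ⟨1, 2, 2, 11⟩, ⟨1, 2, 3, 0⟩, ⟨0, 2, 2, 9⟩, ⟨0, 2, 2, 6⟩, ⟨0, 1, 1, 6⟩, ⟨1, 3, 3, 7⟩, ⟨1, 4, 4, 0⟩, ⟨0, 4, 4, 0⟩]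

/-- pattern -/
def pq221 : List PE := [⟨0, 4, 4, 0⟩, ⟨1, 4, 4, 0⟩, ⟨0, 1, 1, 6⟩, ⟨1, 2, 2, 0⟩, ⟨0, 2, 2, 9⟩, ⟨1, 1, 1, 0⟩, ⟨0, 2, 2, 5⟩, ⟨0, 1, 1, 5⟩, ⟨1, 2, 2, 10⟩, ⟨0, 2, 2, 0⟩, ⟨1, 2, 2, 10⟩, ⟨0, 2, 2, 5⟩, ⟨0, 1, 1, 0⟩, ⟨1, 1, 1, 0⟩, ⟨0, 3, 3, 0⟩, ⟨1, 1, 1, 15⟩, ⟨0, 3, 3, 5⟩, ⟨1, 2, 2, 6⟩, ⟨0, 2, 2, 10⟩, ⟨1, 3, 3, 5⟩, ⟨1, 3, 3, 5⟩, ⟨1, 2, 2, 11⟩, ⟨1, 2, 3, 6⟩, ⟨1, 1, 2, 6⟩, ⟨0, 2, 2, 9⟩, ⟨0, 2, 2, 6⟩, ⟨0, 1, 1, 6⟩, ⟨1, 3, 3, 7⟩, ⟨1, 4, 4, 0⟩, ⟨0, 4, 4, 0⟩]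

/-- pattern -/
def pq222 : List PE := [⟨0, 4, 4, 0⟩, ⟨1, 4, 4, 6⟩, ⟨0, 2, 2, 9⟩, ⟨1, 1, 1, 0⟩, ⟨0, 1, 1, 0⟩, ⟨1, 2, 2, 6⟩, ⟨0, 2, 2, 10⟩, ⟨0, 2, 2, 6⟩, ⟨1, 1, 2, 6⟩, ⟨1, 2, 2, 9⟩, ⟨0, 2, 2, 5⟩, ⟨1, 1, 1, 0⟩, ⟨0, 3, 3, 0⟩, ⟨1, 1, 1, 15⟩, ⟨0, 3, 3, 5⟩, ⟨1, 2, 2, 6⟩, ⟨0, 2, 2, 10⟩, ⟨1, 3, 3, 5⟩, ⟨1, 3, 3, 5⟩, ⟨1, 2, 2, 11⟩, ⟨1, 2, 3, 0⟩, ⟨0, 2, 2, 5⟩, ⟨0, 2, 2, 10⟩, ⟨1, 2, 2, 5⟩, ⟨1, 3, 3, 7⟩, ⟨1, 4, 4, 0⟩, ⟨0, 4, 4, 0⟩]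

/-- pattern -/
def pq223 : List PE := [⟨0, 4, 4, 0⟩, ⟨1, 4, 4, 0⟩, ⟨0, 1, 1, 6⟩, ⟨1, 2, 2, 0⟩, ⟨0, 2, 2, 9⟩, ⟨1, 1, 1, 0⟩, ⟨0, 1, 1, 0⟩, ⟨1, 1, 1, 0⟩, ⟨0, 2, 2, 5⟩, ⟨1, 1, 1, 5⟩, ⟨1, 2, 2, 10⟩, ⟨0, 2, 2, 5⟩, ⟨0, 1, 1, 0⟩, ⟨1, 1, 1, 0⟩, ⟨0, 3, 3, 0⟩, ⟨1, 1, 1, 15⟩, ⟨0, 3, 3, 5⟩, ⟨1, 2, 2, 6⟩, ⟨0, 2, 2, 10⟩, ⟨1, 3, 3, 5⟩, ⟨1, 3, 3, 5⟩, ⟨1, 2, 2, 11⟩, ⟨1, 2, 3, 6⟩, ⟨1, 1, 2, 6⟩, ⟨0, 2, 2, 5⟩, ⟨0, 1, 2, 9⟩, ⟨0, 2, 2, 6⟩, ⟨0, 1, 1, 6⟩, ⟨1, 3, 3, 7⟩, ⟨1, 4, 4, 0⟩, ⟨0, 4, 4, 0⟩]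

/-- pattern -/
def pq224 : List PE := [⟨0, 4, 4, 0⟩, ⟨1, 4, 4, 0⟩, ⟨0, 1, 1, 6⟩, ⟨1, 2, 2, 0⟩, ⟨0, 2, 2, 9⟩, ⟨0, 2, 2, 5⟩, ⟨1, 1, 1, 0⟩, ⟨0, 1, 1, 0⟩, ⟨1, 2, 2, 6⟩, ⟨1, 2, 2, 5⟩, ⟨0, 2, 2, 9⟩, ⟨0, 2, 2, 5⟩, ⟨1, 1, 1, 0⟩, ⟨0, 3, 3, 0⟩, ⟨1, 1, 1, 15⟩, ⟨0, 3, 3, 5⟩, ⟨1, 2, 2, 6⟩, ⟨0, 2, 2, 10⟩, ⟨1, 3, 3, 5⟩, ⟨1, 3, 3, 5⟩, ⟨1, 2, 2, 11⟩, ⟨1, 2, 3, 6⟩, ⟨0, 1, 1, 6⟩, ⟨0, 2, 2, 5⟩, ⟨0, 2, 2, 10⟩, ⟨1, 2, 2, 5⟩, ⟨1, 3, 3, 7⟩, ⟨1, 4, 4, 0⟩, ⟨0, 4, 4, 0⟩]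

/-- pattern -/
def pq225 : List PE := [⟨0, 4, 4, 0⟩, ⟨1, 4, 4, 0⟩, ⟨0, 1, 1, 6⟩, ⟨1, 2, 2, 0⟩, ⟨0, 2, 2, 5⟩, ⟨1, 1, 1, 5⟩, ⟨1, 1, 1, 0⟩, ⟨0, 2, 2, 9⟩, ⟨1, 2, 2, 0⟩, ⟨0, 1, 1, 0⟩, ⟨1, 2, 2, 10⟩, ⟨0, 2, 2, 5⟩, ⟨0, 1, 1, 5⟩, ⟨1, 1, 1, 0⟩, ⟨0, 3, 3, 0⟩, ⟨1, 1, 1, 15⟩, ⟨0, 3, 3, 5⟩, ⟨1, 2, 2, 6⟩, ⟨0, 2, 2, 10⟩, ⟨1, 3, 3, 5⟩, ⟨1, 3, 3, 5⟩, ⟨1, 2, 2, 11⟩, ⟨1, 2, 3, 6⟩, ⟨1, 1, 2, 6⟩, ⟨0, 2, 2, 9⟩, ⟨0, 2, 2, 6⟩, ⟨1, 2, 2, 6⟩, ⟨1, 3, 3, 7⟩, ⟨1, 4, 4, 0⟩, ⟨0, 4, 4, 0⟩]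

/-- pattern -/
def pq226 : List PE := [⟨0, 4, 4, 0⟩, ⟨1, 4, 4, 0⟩, ⟨0, 1, 1, 6⟩, ⟨1, 2, 2, 0⟩, ⟨0, 2, 2, 9⟩, ⟨0, 2, 2, 9⟩, ⟨1, 1, 1, 0⟩, ⟨0, 2, 2, 5⟩, ⟨1, 1, 1, 5⟩, ⟨1, 2, 2, 10⟩, ⟨1, 2, 2, 0⟩, ⟨0, 2, 2, 10⟩, ⟨1, 2, 2, 10⟩, ⟨0, 2, 2, 5⟩, ⟨0, 1, 1, 0⟩, ⟨1, 1, 1, 0⟩, ⟨0, 3, 3, 0⟩, ⟨1, 1, 1, 15⟩, ⟨0, 3, 3, 5⟩, ⟨1, 2, 2, 6⟩, ⟨0, 2, 2, 10⟩, ⟨1, 3, 3, 5⟩, ⟨1, 3, 3, 5⟩, ⟨1, 2, 2, 11⟩, ⟨1, 2, 3, 6⟩, ⟨0, 1, 1, 6⟩, ⟨0, 2, 2, 9⟩, ⟨1, 1, 1, 5⟩, ⟨0, 2, 2, 6⟩, ⟨0, 1, 1, 6⟩, ⟨1, 3, 3, 7⟩, ⟨1, 4, 4, 0⟩, ⟨0, 4, 4, 0⟩]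

/-- class of words -/
def xNE3F : List PE := [⟨0, 4, 4, 0⟩, ⟨1, 4, 4, 10⟩, ⟨0, 3, 3, 11⟩, ⟨1, 4, 4, 0⟩, ⟨0, 4, 4, 0⟩]

/-- class of words -/
def xNFzB3F : List PE := [⟨0, 4, 4, 0⟩, ⟨1, 4, 4, 11⟩, ⟨1, 3, 3, 6⟩, ⟨0, 3, 3, 11⟩, ⟨1, 4, 4, 0⟩, ⟨0, 4, 4, 0⟩]

/-- class of words -/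
def xNB3I3F : List PE := [⟨0, 4, 4, 0⟩, ⟨1, 4, 4, 6⟩, ⟨0, 3, 3, 15⟩, ⟨0, 3, 3, 11⟩, ⟨1, 4, 4, 0⟩, ⟨0, 4, 4, 0⟩]

/-- class of words -/
def xNE2B3I3B2E : List PE := [⟨0, 4, 4, 0⟩, ⟨1, 4, 4, 10⟩, ⟨0, 2, 2, 6⟩, ⟨0, 3, 3, 15⟩, ⟨0, 3, 3, 6⟩, ⟨0, 2, 2, 10⟩, ⟨1, 4, 4, 0⟩, ⟨0, 4, 4, 0⟩]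

/-- class of words -/
def xNCzB3I3BzC : List PE := [⟨0, 4, 4, 0⟩, ⟨1, 4, 4, 7⟩, ⟨1, 3, 3, 6⟩, ⟨0, 3, 3, 15⟩, ⟨0, 3, 3, 6⟩, ⟨1, 3, 3, 7⟩, ⟨1, 4, 4, 0⟩, ⟨0, 4, 4, 0⟩]

/-- class of words -/
def xNCzB3I3B2F : List PE := [⟨0, 4, 4, 0⟩, ⟨1, 4, 4, 7⟩, ⟨1, 3, 3, 6⟩, ⟨0, 3, 3, 15⟩, ⟨0, 3, 3, 6⟩, ⟨0, 2, 2, 11⟩, ⟨1, 4, 4, 0⟩, ⟨0, 4, 4, 0⟩]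

/-- class of words -/
def xNCzB3I3BzC2F : List PE := [⟨0, 4, 4, 0⟩, ⟨1, 4, 4, 7⟩, ⟨1, 3, 3, 6⟩, ⟨0, 3, 3, 15⟩, ⟨0, 3, 3, 6⟩, ⟨1, 3, 3, 7⟩, ⟨0, 2, 2, 11⟩, ⟨1, 4, 4, 0⟩, ⟨0, 4, 4, 0⟩]

/-- class of words -/
def xNF2CzB3I3BzC2F : List PE := [⟨0, 4, 4, 0⟩, ⟨1, 4, 4, 11⟩, ⟨0, 2, 2, 7⟩, ⟨1, 3, 3, 6⟩, ⟨0, 3, 3, 15⟩, ⟨0, 3, 3, 6⟩, ⟨1, 3, 3, 7⟩, ⟨0, 2, 2, 11⟩, ⟨1, 4, 4, 0⟩, ⟨0, 4, 4, 0⟩]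

/-- class of words -/
def xNF2B3I3BzC2F : List PE := [⟨0, 4, 4, 0⟩, ⟨1, 4, 4, 11⟩, ⟨0, 2, 2, 6⟩, ⟨0, 3, 3, 15⟩, ⟨0, 3, 3, 6⟩, ⟨1, 3, 3, 7⟩, ⟨0, 2, 2, 11⟩, ⟨1, 4, 4, 0⟩, ⟨0, 4, 4, 0⟩]

/-- class of words -/
def xNA2AzE2B3B2EzF : List PE := [⟨0, 4, 4, 0⟩, ⟨1, 4, 4, 5⟩, ⟨0, 2, 2, 5⟩, ⟨1, 3, 3, 10⟩, ⟨0, 2, 2, 6⟩, ⟨0, 3, 3, 6⟩, ⟨0, 2, 2, 10⟩, ⟨1, 3, 3, 11⟩, ⟨1, 4, 4, 0⟩, ⟨0, 4, 4, 0⟩]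

/-- class of words -/
def xNCzE2B3B2EzF : List PE := [⟨0, 4, 4, 0⟩, ⟨1, 4, 4, 7⟩, ⟨1, 3, 3, 10⟩, ⟨0, 2, 2, 6⟩, ⟨0, 3, 3, 6⟩, ⟨0, 2, 2, 10⟩, ⟨1, 3, 3, 11⟩, ⟨1, 4, 4, 0⟩, ⟨0, 4, 4, 0⟩]

/-- class of words -/
def xNF2A2AzE2A2Ax3xA2A2EzAzA2F : List PE := [⟨0, 4, 4, 0⟩, ⟨1, 4, 4, 11⟩, ⟨0, 2, 2, 5⟩, ⟨0, 2, 2, 5⟩, ⟨1, 3, 3, 10⟩, ⟨0, 2, 2, 5⟩, ⟨0, 2, 2, 5⟩, ⟨1, 1, 1, 0⟩, ⟨0, 3, 3, 0⟩, ⟨1, 1, 1, 5⟩, ⟨0, 2, 2, 5⟩, ⟨0, 2, 2, 10⟩, ⟨1, 3, 3, 5⟩, ⟨1, 3, 3, 5⟩, ⟨0, 2, 2, 11⟩, ⟨1, 4, 4, 0⟩, ⟨0, 4, 4, 0⟩]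

/-- class of words -/
def xNF2A2AzE2A2Ax3xA2A2EzAzAyF : List PE := [⟨0, 4, 4, 0⟩, ⟨1, 4, 4, 11⟩, ⟨0, 2, 2, 5⟩, ⟨0, 2, 2, 5⟩, ⟨1, 3, 3, 10⟩, ⟨0, 2, 2, 5⟩, ⟨0, 2, 2, 5⟩, ⟨1, 1, 1, 0⟩, ⟨0, 3, 3, 0⟩, ⟨1, 1, 1, 5⟩, ⟨0, 2, 2, 5⟩, ⟨0, 2, 2, 10⟩, ⟨1, 3, 3, 5⟩, ⟨1, 3, 3, 5⟩, ⟨1, 2, 2, 11⟩, ⟨1, 4, 4, 0⟩, ⟨0, 4, 4, 0⟩]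

/-- class of words -/
def xNF2A2AzE2A2Ax3xA2A2EzAzAzF : List PE := [⟨0, 4, 4, 0⟩, ⟨1, 4, 4, 11⟩, ⟨0, 2, 2, 5⟩, ⟨0, 2, 2, 5⟩, ⟨1, 3, 3, 10⟩, ⟨0, 2, 2, 5⟩, ⟨0, 2, 2, 5⟩, ⟨1, 1, 1, 0⟩, ⟨0, 3, 3, 0⟩, ⟨1, 1, 1, 5⟩, ⟨0, 2, 2, 5⟩, ⟨0, 2, 2, 10⟩, ⟨1, 3, 3, 5⟩, ⟨1, 3, 3, 5⟩, ⟨1, 3, 3, 11⟩, ⟨1, 4, 4, 0⟩, ⟨0, 4, 4, 0⟩]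

/-- class of words -/
def xNF2A2AzEyA2Ax3xA2AyEzA2A2F : List PE := [⟨0, 4, 4, 0⟩, ⟨1, 4, 4, 11⟩, ⟨0, 2, 2, 5⟩, ⟨0, 2, 2, 5⟩, ⟨1, 3, 3, 10⟩, ⟨1, 2, 2, 5⟩, ⟨0, 2, 2, 5⟩, ⟨1, 1, 1, 0⟩, ⟨0, 3, 3, 0⟩, ⟨1, 1, 1, 5⟩, ⟨0, 2, 2, 5⟩, ⟨1, 2, 2, 10⟩, ⟨1, 3, 3, 5⟩, ⟨0, 2, 2, 5⟩, ⟨0, 2, 2, 11⟩, ⟨1, 4, 4, 0⟩, ⟨0, 4, 4, 0⟩]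

/-- class of words -/
def xNFyA2AzEyA2Ax3xA2AyEzA2A2F : List PE := [⟨0, 4, 4, 0⟩, ⟨1, 4, 4, 11⟩, ⟨1, 2, 2, 5⟩, ⟨0, 2, 2, 5⟩, ⟨1, 3, 3, 10⟩, ⟨1, 2, 2, 5⟩, ⟨0, 2, 2, 5⟩, ⟨1, 1, 1, 0⟩, ⟨0, 3, 3, 0⟩, ⟨1, 1, 1, 5⟩, ⟨0, 2, 2, 5⟩, ⟨1, 2, 2, 10⟩, ⟨1, 3, 3, 5⟩, ⟨0, 2, 2, 5⟩, ⟨0, 2, 2, 11⟩, ⟨1, 4, 4, 0⟩, ⟨0, 4, 4, 0⟩]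

/-- class of words -/
def xNF2AzAzE2A2Ax3xA2A2EzA2AyF : List PE := [⟨0, 4, 4, 0⟩, ⟨1, 4, 4, 11⟩, ⟨0, 2, 2, 5⟩, ⟨1, 3, 3, 5⟩, ⟨1, 3, 3, 10⟩, ⟨0, 2, 2, 5⟩, ⟨0, 2, 2, 5⟩, ⟨1, 1, 1, 0⟩, ⟨0, 3, 3, 0⟩, ⟨1, 1, 1, 5⟩, ⟨0, 2, 2, 5⟩, ⟨0, 2, 2, 10⟩, ⟨1, 3, 3, 5⟩, ⟨0, 2, 2, 5⟩, ⟨1, 2, 2, 11⟩, ⟨1, 4, 4, 0⟩, ⟨0, 4, 4, 0⟩]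

/-- class of words -/
def xNF2AzAzEyA2Ax3xA2AyEzAzA2F : List PE := [⟨0, 4, 4, 0⟩, ⟨1, 4, 4, 11⟩, ⟨0, 2, 2, 5⟩, ⟨1, 3, 3, 5⟩, ⟨1, 3, 3, 10⟩, ⟨1, 2, 2, 5⟩, ⟨0, 2, 2, 5⟩, ⟨1, 1, 1, 0⟩, ⟨0, 3, 3, 0⟩, ⟨1, 1, 1, 5⟩, ⟨0, 2, 2, 5⟩, ⟨1, 2, 2, 10⟩, ⟨1, 3, 3, 5⟩, ⟨1, 3, 3, 5⟩, ⟨0, 2, 2, 11⟩, ⟨1, 4, 4, 0⟩, ⟨0, 4, 4, 0⟩]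

/-- class of words -/
def xNFyAzAzEyA2Ax3xA2AyEzAzA2F : List PE := [⟨0, 4, 4, 0⟩, ⟨1, 4, 4, 11⟩, ⟨1, 2, 2, 5⟩, ⟨1, 3, 3, 5⟩, ⟨1, 3, 3, 10⟩, ⟨1, 2, 2, 5⟩, ⟨0, 2, 2, 5⟩, ⟨1, 1, 1, 0⟩, ⟨0, 3, 3, 0⟩, ⟨1, 1, 1, 5⟩, ⟨0, 2, 2, 5⟩, ⟨1, 2, 2, 10⟩, ⟨1, 3, 3, 5⟩, ⟨1, 3, 3, 5⟩, ⟨0, 2, 2, 11⟩, ⟨1, 4, 4, 0⟩, ⟨0, 4, 4, 0⟩]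

/-- class of words -/
def xNF2AzAzEyA2Ax3xA2AyEzAzAzF : List PE := [⟨0, 4, 4, 0⟩, ⟨1, 4, 4, 11⟩, ⟨0, 2, 2, 5⟩, ⟨1, 3, 3, 5⟩, ⟨1, 3, 3, 10⟩, ⟨1, 2, 2, 5⟩, ⟨0, 2, 2, 5⟩, ⟨1, 1, 1, 0⟩, ⟨0, 3, 3, 0⟩, ⟨1, 1, 1, 5⟩, ⟨0, 2, 2, 5⟩, ⟨1, 2, 2, 10⟩, ⟨1, 3, 3, 5⟩, ⟨1, 3, 3, 5⟩, ⟨1, 3, 3, 11⟩, ⟨1, 4, 4, 0⟩, ⟨0, 4, 4, 0⟩]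

/-- class of words -/
def xNF2AzE2A2Ax3xA2A2EzA2F : List PE := [⟨0, 4, 4, 0⟩, ⟨1, 4, 4, 11⟩, ⟨0, 2, 2, 5⟩, ⟨1, 3, 3, 10⟩, ⟨0, 2, 2, 5⟩, ⟨0, 2, 2, 5⟩, ⟨1, 1, 1, 0⟩, ⟨0, 3, 3, 0⟩, ⟨1, 1, 1, 5⟩, ⟨0, 2, 2, 5⟩, ⟨0, 2, 2, 10⟩, ⟨1, 3, 3, 5⟩, ⟨0, 2, 2, 11⟩, ⟨1, 4, 4, 0⟩, ⟨0, 4, 4, 0⟩]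

/-- class of words -/
def xNF2AzE2A2Ax3xA2A2EzAyF : List PE := [⟨0, 4, 4, 0⟩, ⟨1, 4, 4, 11⟩, ⟨0, 2, 2, 5⟩, ⟨1, 3, 3, 10⟩, ⟨0, 2, 2, 5⟩, ⟨0, 2, 2, 5⟩, ⟨1, 1, 1, 0⟩, ⟨0, 3, 3, 0⟩, ⟨1, 1, 1, 5⟩, ⟨0, 2, 2, 5⟩, ⟨0, 2, 2, 10⟩, ⟨1, 3, 3, 5⟩, ⟨1, 2, 2, 11⟩, ⟨1, 4, 4, 0⟩, ⟨0, 4, 4, 0⟩]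

/-- class of words -/
def xNF2AzE2A2Ax3xA2AyEzA2F : List PE := [⟨0, 4, 4, 0⟩, ⟨1, 4, 4, 11⟩, ⟨0, 2, 2, 5⟩, ⟨1, 3, 3, 10⟩, ⟨0, 2, 2, 5⟩, ⟨0, 2, 2, 5⟩, ⟨1, 1, 1, 0⟩, ⟨0, 3, 3, 0⟩, ⟨1, 1, 1, 5⟩, ⟨0, 2, 2, 5⟩, ⟨1, 2, 2, 10⟩, ⟨1, 3, 3, 5⟩, ⟨0, 2, 2, 11⟩, ⟨1, 4, 4, 0⟩, ⟨0, 4, 4, 0⟩]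

/-- class of words -/
def xNF2AzE2A2Ax3xA2AyEzAyF : List PE := [⟨0, 4, 4, 0⟩, ⟨1, 4, 4, 11⟩, ⟨0, 2, 2, 5⟩, ⟨1, 3, 3, 10⟩, ⟨0, 2, 2, 5⟩, ⟨0, 2, 2, 5⟩, ⟨1, 1, 1, 0⟩, ⟨0, 3, 3, 0⟩, ⟨1, 1, 1, 5⟩, ⟨0, 2, 2, 5⟩, ⟨1, 2, 2, 10⟩, ⟨1, 3, 3, 5⟩, ⟨1, 2, 2, 11⟩, ⟨1, 4, 4, 0⟩, ⟨0, 4, 4, 0⟩]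

/-- class of words -/
def xNF2AzE2A2Ax3xA2AyEzAzF : List PE := [⟨0, 4, 4, 0⟩, ⟨1, 4, 4, 11⟩, ⟨0, 2, 2, 5⟩, ⟨1, 3, 3, 10⟩, ⟨0, 2, 2, 5⟩, ⟨0, 2, 2, 5⟩, ⟨1, 1, 1, 0⟩, ⟨0, 3, 3, 0⟩, ⟨1, 1, 1, 5⟩, ⟨0, 2, 2, 5⟩, ⟨1, 2, 2, 10⟩, ⟨1, 3, 3, 5⟩, ⟨1, 3, 3, 11⟩, ⟨1, 4, 4, 0⟩, ⟨0, 4, 4, 0⟩]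

/-- class of words -/
def xNF2AzEyA2Ax3xA2A2EzAyF : List PE := [⟨0, 4, 4, 0⟩, ⟨1, 4, 4, 11⟩, ⟨0, 2, 2, 5⟩, ⟨1, 3, 3, 10⟩, ⟨1, 2, 2, 5⟩, ⟨0, 2, 2, 5⟩, ⟨1, 1, 1, 0⟩, ⟨0, 3, 3, 0⟩, ⟨1, 1, 1, 5⟩, ⟨0, 2, 2, 5⟩, ⟨0, 2, 2, 10⟩, ⟨1, 3, 3, 5⟩, ⟨1, 2, 2, 11⟩, ⟨1, 4, 4, 0⟩, ⟨0, 4, 4, 0⟩]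

/-- class of words -/
def xNF2AzEyA2Ax3xA2A2EzAzF : List PE := [⟨0, 4, 4, 0⟩, ⟨1, 4, 4, 11⟩, ⟨0, 2, 2, 5⟩, ⟨1, 3, 3, 10⟩, ⟨1, 2, 2, 5⟩, ⟨0, 2, 2, 5⟩, ⟨1, 1, 1, 0⟩, ⟨0, 3, 3, 0⟩, ⟨1, 1, 1, 5⟩, ⟨0, 2, 2, 5⟩, ⟨0, 2, 2, 10⟩, ⟨1, 3, 3, 5⟩, ⟨1, 3, 3, 11⟩, ⟨1, 4, 4, 0⟩, ⟨0, 4, 4, 0⟩]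

/-- class of words -/
def xNF2AzEyA2Ax3xA2AyEzAyF : List PE := [⟨0, 4, 4, 0⟩, ⟨1, 4, 4, 11⟩, ⟨0, 2, 2, 5⟩, ⟨1, 3, 3, 10⟩, ⟨1, 2, 2, 5⟩, ⟨0, 2, 2, 5⟩, ⟨1, 1, 1, 0⟩, ⟨0, 3, 3, 0⟩, ⟨1, 1, 1, 5⟩, ⟨0, 2, 2, 5⟩, ⟨1, 2, 2, 10⟩, ⟨1, 3, 3, 5⟩, ⟨1, 2, 2, 11⟩, ⟨1, 4, 4, 0⟩, ⟨0, 4, 4, 0⟩]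

/-- class of words -/
def xNF2AzEyA2Ax3xA2AyEzAzF : List PE := [⟨0, 4, 4, 0⟩, ⟨1, 4, 4, 11⟩, ⟨0, 2, 2, 5⟩, ⟨1, 3, 3, 10⟩, ⟨1, 2, 2, 5⟩, ⟨0, 2, 2, 5⟩, ⟨1, 1, 1, 0⟩, ⟨0, 3, 3, 0⟩, ⟨1, 1, 1, 5⟩, ⟨0, 2, 2, 5⟩, ⟨1, 2, 2, 10⟩, ⟨1, 3, 3, 5⟩, ⟨1, 3, 3, 11⟩, ⟨1, 4, 4, 0⟩, ⟨0, 4, 4, 0⟩]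

/-- class of words -/
def xNFyA2AzE2A2Ax3xA2A2EzAzAyF : List PE := [⟨0, 4, 4, 0⟩, ⟨1, 4, 4, 11⟩, ⟨1, 2, 2, 5⟩, ⟨0, 2, 2, 5⟩, ⟨1, 3, 3, 10⟩, ⟨0, 2, 2, 5⟩, ⟨0, 2, 2, 5⟩, ⟨1, 1, 1, 0⟩, ⟨0, 3, 3, 0⟩, ⟨1, 1, 1, 5⟩, ⟨0, 2, 2, 5⟩, ⟨0, 2, 2, 10⟩, ⟨1, 3, 3, 5⟩, ⟨1, 3, 3, 5⟩, ⟨1, 2, 2, 11⟩, ⟨1, 4, 4, 0⟩, ⟨0, 4, 4, 0⟩]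

/-- class of words -/
def xNFzAzAzE2A2Ax3xA2A2EzA2AyF : List PE := [⟨0, 4, 4, 0⟩, ⟨1, 4, 4, 11⟩, ⟨1, 3, 3, 5⟩, ⟨1, 3, 3, 5⟩, ⟨1, 3, 3, 10⟩, ⟨0, 2, 2, 5⟩, ⟨0, 2, 2, 5⟩, ⟨1, 1, 1, 0⟩, ⟨0, 3, 3, 0⟩, ⟨1, 1, 1, 5⟩, ⟨0, 2, 2, 5⟩, ⟨0, 2, 2, 10⟩, ⟨1, 3, 3, 5⟩, ⟨0, 2, 2, 5⟩, ⟨1, 2, 2, 11⟩, ⟨1, 4, 4, 0⟩, ⟨0, 4, 4, 0⟩]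

/-- class of words -/
def xNFyA2AzEyA2Ax3xA2AyEzA2AyF : List PE := [⟨0, 4, 4, 0⟩, ⟨1, 4, 4, 11⟩, ⟨1, 2, 2, 5⟩, ⟨0, 2, 2, 5⟩, ⟨1, 3, 3, 10⟩, ⟨1, 2, 2, 5⟩, ⟨0, 2, 2, 5⟩, ⟨1, 1, 1, 0⟩, ⟨0, 3, 3, 0⟩, ⟨1, 1, 1, 5⟩, ⟨0, 2, 2, 5⟩, ⟨1, 2, 2, 10⟩, ⟨1, 3, 3, 5⟩, ⟨0, 2, 2, 5⟩, ⟨1, 2, 2, 11⟩, ⟨1, 4, 4, 0⟩, ⟨0, 4, 4, 0⟩]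

/-- class of words -/
def xNFyAzAzEyA2Ax3xA2AyEzAzAyF : List PE := [⟨0, 4, 4, 0⟩, ⟨1, 4, 4, 11⟩, ⟨1, 2, 2, 5⟩, ⟨1, 3, 3, 5⟩, ⟨1, 3, 3, 10⟩, ⟨1, 2, 2, 5⟩, ⟨0, 2, 2, 5⟩, ⟨1, 1, 1, 0⟩, ⟨0, 3, 3, 0⟩, ⟨1, 1, 1, 5⟩, ⟨0, 2, 2, 5⟩, ⟨1, 2, 2, 10⟩, ⟨1, 3, 3, 5⟩, ⟨1, 3, 3, 5⟩, ⟨1, 2, 2, 11⟩, ⟨1, 4, 4, 0⟩, ⟨0, 4, 4, 0⟩]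

/-- class of words -/
def xNFzAzAzEyA2Ax3xA2AyEzAzAyF : List PE := [⟨0, 4, 4, 0⟩, ⟨1, 4, 4, 11⟩, ⟨1, 3, 3, 5⟩, ⟨1, 3, 3, 5⟩, ⟨1, 3, 3, 10⟩, ⟨1, 2, 2, 5⟩, ⟨0, 2, 2, 5⟩, ⟨1, 1, 1, 0⟩, ⟨0, 3, 3, 0⟩, ⟨1, 1, 1, 5⟩, ⟨0, 2, 2, 5⟩, ⟨1, 2, 2, 10⟩, ⟨1, 3, 3, 5⟩, ⟨1, 3, 3, 5⟩, ⟨1, 2, 2, 11⟩, ⟨1, 4, 4, 0⟩, ⟨0, 4, 4, 0⟩]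

/-- class of words -/
def xNFyAzE2A2Ax3xA2A2EzAyF : List PE := [⟨0, 4, 4, 0⟩, ⟨1, 4, 4, 11⟩, ⟨1, 2, 2, 5⟩, ⟨1, 3, 3, 10⟩, ⟨0, 2, 2, 5⟩, ⟨0, 2, 2, 5⟩, ⟨1, 1, 1, 0⟩, ⟨0, 3, 3, 0⟩, ⟨1, 1, 1, 5⟩, ⟨0, 2, 2, 5⟩, ⟨0, 2, 2, 10⟩, ⟨1, 3, 3, 5⟩, ⟨1, 2, 2, 11⟩, ⟨1, 4, 4, 0⟩, ⟨0, 4, 4, 0⟩]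

/-- class of words -/
def xNFzAzE2A2Ax3xA2A2EzAyF : List PE := [⟨0, 4, 4, 0⟩, ⟨1, 4, 4, 11⟩, ⟨1, 3, 3, 5⟩, ⟨1, 3, 3, 10⟩, ⟨0, 2, 2, 5⟩, ⟨0, 2, 2, 5⟩, ⟨1, 1, 1, 0⟩, ⟨0, 3, 3, 0⟩, ⟨1, 1, 1, 5⟩, ⟨0, 2, 2, 5⟩, ⟨0, 2, 2, 10⟩, ⟨1, 3, 3, 5⟩, ⟨1, 2, 2, 11⟩, ⟨1, 4, 4, 0⟩, ⟨0, 4, 4, 0⟩]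

/-- class of words -/
def xNFyAzE2A2Ax3xA2AyEzAyF : List PE := [⟨0, 4, 4, 0⟩, ⟨1, 4, 4, 11⟩, ⟨1, 2, 2, 5⟩, ⟨1, 3, 3, 10⟩, ⟨0, 2, 2, 5⟩, ⟨0, 2, 2, 5⟩, ⟨1, 1, 1, 0⟩, ⟨0, 3, 3, 0⟩, ⟨1, 1, 1, 5⟩, ⟨0, 2, 2, 5⟩, ⟨1, 2, 2, 10⟩, ⟨1, 3, 3, 5⟩, ⟨1, 2, 2, 11⟩, ⟨1, 4, 4, 0⟩, ⟨0, 4, 4, 0⟩]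

/-- class of words -/
def xNFyAzE2A2Ax3xA2AyEzAzF : List PE := [⟨0, 4, 4, 0⟩, ⟨1, 4, 4, 11⟩, ⟨1, 2, 2, 5⟩, ⟨1, 3, 3, 10⟩, ⟨0, 2, 2, 5⟩, ⟨0, 2, 2, 5⟩, ⟨1, 1, 1, 0⟩, ⟨0, 3, 3, 0⟩, ⟨1, 1, 1, 5⟩, ⟨0, 2, 2, 5⟩, ⟨1, 2, 2, 10⟩, ⟨1, 3, 3, 5⟩, ⟨1, 3, 3, 11⟩, ⟨1, 4, 4, 0⟩, ⟨0, 4, 4, 0⟩]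

/-- class of words -/
def xNFyAzEyA2Ax3xA2A2EzAzF : List PE := [⟨0, 4, 4, 0⟩, ⟨1, 4, 4, 11⟩, ⟨1, 2, 2, 5⟩, ⟨1, 3, 3, 10⟩, ⟨1, 2, 2, 5⟩, ⟨0, 2, 2, 5⟩, ⟨1, 1, 1, 0⟩, ⟨0, 3, 3, 0⟩, ⟨1, 1, 1, 5⟩, ⟨0, 2, 2, 5⟩, ⟨0, 2, 2, 10⟩, ⟨1, 3, 3, 5⟩, ⟨1, 3, 3, 11⟩, ⟨1, 4, 4, 0⟩, ⟨0, 4, 4, 0⟩]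

/-- class of words -/
def xNFyAzEyA2Ax3xA2AyEzAyF : List PE := [⟨0, 4, 4, 0⟩, ⟨1, 4, 4, 11⟩, ⟨1, 2, 2, 5⟩, ⟨1, 3, 3, 10⟩, ⟨1, 2, 2, 5⟩, ⟨0, 2, 2, 5⟩, ⟨1, 1, 1, 0⟩, ⟨0, 3, 3, 0⟩, ⟨1, 1, 1, 5⟩, ⟨0, 2, 2, 5⟩, ⟨1, 2, 2, 10⟩, ⟨1, 3, 3, 5⟩, ⟨1, 2, 2, 11⟩, ⟨1, 4, 4, 0⟩, ⟨0, 4, 4, 0⟩]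

/-- class of words -/
def xNFyAzEyA2Ax3xA2AyEzAzF : List PE := [⟨0, 4, 4, 0⟩, ⟨1, 4, 4, 11⟩, ⟨1, 2, 2, 5⟩, ⟨1, 3, 3, 10⟩, ⟨1, 2, 2, 5⟩, ⟨0, 2, 2, 5⟩, ⟨1, 1, 1, 0⟩, ⟨0, 3, 3, 0⟩, ⟨1, 1, 1, 5⟩, ⟨0, 2, 2, 5⟩, ⟨1, 2, 2, 10⟩, ⟨1, 3, 3, 5⟩, ⟨1, 3, 3, 11⟩, ⟨1, 4, 4, 0⟩, ⟨0, 4, 4, 0⟩]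

/-- class of words -/
def xNFzA2Ax3xA2A2EzF : List PE := [⟨0, 4, 4, 0⟩, ⟨1, 4, 4, 11⟩, ⟨1, 3, 3, 5⟩, ⟨0, 2, 2, 5⟩, ⟨1, 1, 1, 0⟩, ⟨0, 3, 3, 0⟩, ⟨1, 1, 1, 5⟩, ⟨0, 2, 2, 5⟩, ⟨0, 2, 2, 10⟩, ⟨1, 3, 3, 11⟩, ⟨1, 4, 4, 0⟩, ⟨0, 4, 4, 0⟩]

/-- class of words -/
def xNFzA2Ax3xA2AyEzF : List PE := [⟨0, 4, 4, 0⟩, ⟨1, 4, 4, 11⟩, ⟨1, 3, 3, 5⟩, ⟨0, 2, 2, 5⟩, ⟨1, 1, 1, 0⟩, ⟨0, 3, 3, 0⟩, ⟨1, 1, 1, 5⟩, ⟨0, 2, 2, 5⟩, ⟨1, 2, 2, 10⟩, ⟨1, 3, 3, 11⟩, ⟨1, 4, 4, 0⟩, ⟨0, 4, 4, 0⟩]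

/-- class of words -/
def xNFzA2Ax3xA2AzF : List PE := [⟨0, 4, 4, 0⟩, ⟨1, 4, 4, 11⟩, ⟨1, 3, 3, 5⟩, ⟨0, 2, 2, 5⟩, ⟨1, 1, 1, 0⟩, ⟨0, 3, 3, 0⟩, ⟨1, 1, 1, 5⟩, ⟨0, 2, 2, 5⟩, ⟨1, 3, 3, 11⟩, ⟨1, 4, 4, 0⟩, ⟨0, 4, 4, 0⟩]

/-- class of words -/
def xNFzA2AzE2B3B2EzF : List PE := [⟨0, 4, 4, 0⟩, ⟨1, 4, 4, 11⟩, ⟨1, 3, 3, 5⟩, ⟨0, 2, 2, 5⟩, ⟨1, 3, 3, 10⟩, ⟨0, 2, 2, 6⟩, ⟨0, 3, 3, 6⟩, ⟨0, 2, 2, 10⟩, ⟨1, 3, 3, 11⟩, ⟨1, 4, 4, 0⟩, ⟨0, 4, 4, 0⟩]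

/-- class of words -/
def xNFzAzAzEyA2Ax3xA2AyEzAzAzF : List PE := [⟨0, 4, 4, 0⟩, ⟨1, 4, 4, 11⟩, ⟨1, 3, 3, 5⟩, ⟨1, 3, 3, 5⟩, ⟨1, 3, 3, 10⟩, ⟨1, 2, 2, 5⟩, ⟨0, 2, 2, 5⟩, ⟨1, 1, 1, 0⟩, ⟨0, 3, 3, 0⟩, ⟨1, 1, 1, 5⟩, ⟨0, 2, 2, 5⟩, ⟨1, 2, 2, 10⟩, ⟨1, 3, 3, 5⟩, ⟨1, 3, 3, 5⟩, ⟨1, 3, 3, 11⟩, ⟨1, 4, 4, 0⟩, ⟨0, 4, 4, 0⟩]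

/-- class of words -/
def xNFzAzE2A2Ax3xA2A2EzAzF : List PE := [⟨0, 4, 4, 0⟩, ⟨1, 4, 4, 11⟩, ⟨1, 3, 3, 5⟩, ⟨1, 3, 3, 10⟩, ⟨0, 2, 2, 5⟩, ⟨0, 2, 2, 5⟩, ⟨1, 1, 1, 0⟩, ⟨0, 3, 3, 0⟩, ⟨1, 1, 1, 5⟩, ⟨0, 2, 2, 5⟩, ⟨0, 2, 2, 10⟩, ⟨1, 3, 3, 5⟩, ⟨1, 3, 3, 11⟩, ⟨1, 4, 4, 0⟩, ⟨0, 4, 4, 0⟩]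

/-- class of words -/
def xNFzAzE2A2Ax3xA2AyEzAzF : List PE := [⟨0, 4, 4, 0⟩, ⟨1, 4, 4, 11⟩, ⟨1, 3, 3, 5⟩, ⟨1, 3, 3, 10⟩, ⟨0, 2, 2, 5⟩, ⟨0, 2, 2, 5⟩, ⟨1, 1, 1, 0⟩, ⟨0, 3, 3, 0⟩, ⟨1, 1, 1, 5⟩, ⟨0, 2, 2, 5⟩, ⟨1, 2, 2, 10⟩, ⟨1, 3, 3, 5⟩, ⟨1, 3, 3, 11⟩, ⟨1, 4, 4, 0⟩, ⟨0, 4, 4, 0⟩]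

/-- class of words -/
def xNFzE2ByAx3xA2EzF : List PE := [⟨0, 4, 4, 0⟩, ⟨1, 4, 4, 11⟩, ⟨1, 3, 3, 10⟩, ⟨0, 2, 2, 6⟩, ⟨1, 2, 2, 5⟩, ⟨1, 1, 1, 0⟩, ⟨0, 3, 3, 0⟩, ⟨1, 1, 1, 5⟩, ⟨0, 2, 2, 10⟩, ⟨1, 3, 3, 11⟩, ⟨1, 4, 4, 0⟩, ⟨0, 4, 4, 0⟩]

/-- class of words -/
def xNFzE2Bx3yB2EzF : List PE := [⟨0, 4, 4, 0⟩, ⟨1, 4, 4, 11⟩, ⟨1, 3, 3, 10⟩, ⟨0, 2, 2, 6⟩, ⟨1, 1, 1, 0⟩, ⟨0, 3, 3, 0⟩, ⟨1, 2, 2, 6⟩, ⟨0, 2, 2, 10⟩, ⟨1, 3, 3, 11⟩, ⟨1, 4, 4, 0⟩, ⟨0, 4, 4, 0⟩]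

/-- class of words -/
def xNFzE2By3yB2EzF : List PE := [⟨0, 4, 4, 0⟩, ⟨1, 4, 4, 11⟩, ⟨1, 3, 3, 10⟩, ⟨0, 2, 2, 6⟩, ⟨1, 2, 2, 0⟩, ⟨0, 3, 3, 0⟩, ⟨1, 2, 2, 6⟩, ⟨0, 2, 2, 10⟩, ⟨1, 3, 3, 11⟩, ⟨1, 4, 4, 0⟩, ⟨0, 4, 4, 0⟩]

/-- class of words -/
def xNFzE2ByAx3xAyB2EzF : List PE := [⟨0, 4, 4, 0⟩, ⟨1, 4, 4, 11⟩, ⟨1, 3, 3, 10⟩, ⟨0, 2, 2, 6⟩, ⟨1, 2, 2, 5⟩, ⟨1, 1, 1, 0⟩, ⟨0, 3, 3, 0⟩, ⟨1, 1, 1, 5⟩, ⟨1, 2, 2, 6⟩, ⟨0, 2, 2, 10⟩, ⟨1, 3, 3, 11⟩, ⟨1, 4, 4, 0⟩, ⟨0, 4, 4, 0⟩]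

/-- class of words -/
def xNFzE2B3IzC3B2EzF : List PE := [⟨0, 4, 4, 0⟩, ⟨1, 4, 4, 11⟩, ⟨1, 3, 3, 10⟩, ⟨0, 2, 2, 6⟩, ⟨0, 3, 3, 15⟩, ⟨1, 3, 3, 7⟩, ⟨0, 3, 3, 6⟩, ⟨0, 2, 2, 10⟩, ⟨1, 3, 3, 11⟩, ⟨1, 4, 4, 0⟩, ⟨0, 4, 4, 0⟩]

/-- class of words -/
def xNFzE2A3BzIzB2A3A2E : List PE := [⟨0, 4, 4, 0⟩, ⟨1, 4, 4, 11⟩, ⟨1, 3, 3, 10⟩, ⟨0, 2, 2, 5⟩, ⟨0, 3, 3, 6⟩, ⟨1, 3, 3, 15⟩, ⟨1, 3, 3, 6⟩, ⟨0, 2, 2, 5⟩, ⟨0, 3, 3, 5⟩, ⟨0, 2, 2, 10⟩, ⟨1, 4, 4, 0⟩, ⟨0, 4, 4, 0⟩]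

/-- class of words -/
def xNFzE2B3BzIzB2ByA3B2E : List PE := [⟨0, 4, 4, 0⟩, ⟨1, 4, 4, 11⟩, ⟨1, 3, 3, 10⟩, ⟨0, 2, 2, 6⟩, ⟨0, 3, 3, 6⟩, ⟨1, 3, 3, 15⟩, ⟨1, 3, 3, 6⟩, ⟨0, 2, 2, 6⟩, ⟨1, 2, 2, 5⟩, ⟨0, 3, 3, 6⟩, ⟨0, 2, 2, 10⟩, ⟨1, 4, 4, 0⟩, ⟨0, 4, 4, 0⟩]

/-- class of words -/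
def xNFzE2ByA3BzIzB2B3B2E : List PE := [⟨0, 4, 4, 0⟩, ⟨1, 4, 4, 11⟩, ⟨1, 3, 3, 10⟩, ⟨0, 2, 2, 6⟩, ⟨1, 2, 2, 5⟩, ⟨0, 3, 3, 6⟩, ⟨1, 3, 3, 15⟩, ⟨1, 3, 3, 6⟩, ⟨0, 2, 2, 6⟩, ⟨0, 3, 3, 6⟩, ⟨0, 2, 2, 10⟩, ⟨1, 4, 4, 0⟩, ⟨0, 4, 4, 0⟩]

/-- class of words -/
def xNFzE2B3H3BzIzB2B3B2E : List PE := [⟨0, 4, 4, 0⟩, ⟨1, 4, 4, 11⟩, ⟨1, 3, 3, 10⟩, ⟨0, 2, 2, 6⟩, ⟨0, 3, 3, 14⟩, ⟨0, 3, 3, 6⟩, ⟨1, 3, 3, 15⟩, ⟨1, 3, 3, 6⟩, ⟨0, 2, 2, 6⟩, ⟨0, 3, 3, 6⟩, ⟨0, 2, 2, 10⟩, ⟨1, 4, 4, 0⟩, ⟨0, 4, 4, 0⟩]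

/-- class of words -/
def xNFzE2B3H3BzIzB2H3B3B2E : List PE := [⟨0, 4, 4, 0⟩, ⟨1, 4, 4, 11⟩, ⟨1, 3, 3, 10⟩, ⟨0, 2, 2, 6⟩, ⟨0, 3, 3, 14⟩, ⟨0, 3, 3, 6⟩, ⟨1, 3, 3, 15⟩, ⟨1, 3, 3, 6⟩, ⟨0, 2, 2, 14⟩, ⟨0, 3, 3, 6⟩, ⟨0, 3, 3, 6⟩, ⟨0, 2, 2, 10⟩, ⟨1, 4, 4, 0⟩, ⟨0, 4, 4, 0⟩]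

/-- class of words -/
def xNFzE2B3BzIzB3H3B2E : List PE := [⟨0, 4, 4, 0⟩, ⟨1, 4, 4, 11⟩, ⟨1, 3, 3, 10⟩, ⟨0, 2, 2, 6⟩, ⟨0, 3, 3, 6⟩, ⟨1, 3, 3, 15⟩, ⟨1, 3, 3, 6⟩, ⟨0, 3, 3, 14⟩, ⟨0, 3, 3, 6⟩, ⟨0, 2, 2, 10⟩, ⟨1, 4, 4, 0⟩, ⟨0, 4, 4, 0⟩]

/-- class of words -/
def xNE2B3B2H2BzIzAyB3H3B2EzF : List PE := [⟨0, 4, 4, 0⟩, ⟨1, 4, 4, 10⟩, ⟨0, 2, 2, 6⟩, ⟨0, 3, 3, 6⟩, ⟨0, 2, 2, 14⟩, ⟨0, 2, 2, 6⟩, ⟨1, 3, 3, 15⟩, ⟨1, 3, 3, 5⟩, ⟨1, 2, 2, 6⟩, ⟨0, 3, 3, 14⟩, ⟨0, 3, 3, 6⟩, ⟨0, 2, 2, 10⟩, ⟨1, 3, 3, 11⟩, ⟨1, 4, 4, 0⟩, ⟨0, 4, 4, 0⟩]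

/-- class of words -/
def xNFzE2B3BzIzB2H3B3B2E : List PE := [⟨0, 4, 4, 0⟩, ⟨1, 4, 4, 11⟩, ⟨1, 3, 3, 10⟩, ⟨0, 2, 2, 6⟩, ⟨0, 3, 3, 6⟩, ⟨1, 3, 3, 15⟩, ⟨1, 3, 3, 6⟩, ⟨0, 2, 2, 14⟩, ⟨0, 3, 3, 6⟩, ⟨0, 3, 3, 6⟩, ⟨0, 2, 2, 10⟩, ⟨1, 4, 4, 0⟩, ⟨0, 4, 4, 0⟩]

/-- class of words -/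
def xNFzE2B3H2BzIzB3H3B2E : List PE := [⟨0, 4, 4, 0⟩, ⟨1, 4, 4, 11⟩, ⟨1, 3, 3, 10⟩, ⟨0, 2, 2, 6⟩, ⟨0, 3, 3, 14⟩, ⟨0, 2, 2, 6⟩, ⟨1, 3, 3, 15⟩, ⟨1, 3, 3, 6⟩, ⟨0, 3, 3, 14⟩, ⟨0, 3, 3, 6⟩, ⟨0, 2, 2, 10⟩, ⟨1, 4, 4, 0⟩, ⟨0, 4, 4, 0⟩]

/-- class of words -/
def xNFzE2B3H3BzIzB3H3B2E : List PE := [⟨0, 4, 4, 0⟩, ⟨1, 4, 4, 11⟩, ⟨1, 3, 3, 10⟩, ⟨0, 2, 2, 6⟩, ⟨0, 3, 3, 14⟩, ⟨0, 3, 3, 6⟩, ⟨1, 3, 3, 15⟩, ⟨1, 3, 3, 6⟩, ⟨0, 3, 3, 14⟩, ⟨0, 3, 3, 6⟩, ⟨0, 2, 2, 10⟩, ⟨1, 4, 4, 0⟩, ⟨0, 4, 4, 0⟩]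

/-- class of words -/
def xNFzE2B3HzB3H3B2E : List PE := [⟨0, 4, 4, 0⟩, ⟨1, 4, 4, 11⟩, ⟨1, 3, 3, 10⟩, ⟨0, 2, 2, 6⟩, ⟨0, 3, 3, 14⟩, ⟨1, 3, 3, 6⟩, ⟨0, 3, 3, 14⟩, ⟨0, 3, 3, 6⟩, ⟨0, 2, 2, 10⟩, ⟨1, 4, 4, 0⟩, ⟨0, 4, 4, 0⟩]

/-- class of words -/
def xNFzE2B3IzC3B2E : List PE := [⟨0, 4, 4, 0⟩, ⟨1, 4, 4, 11⟩, ⟨1, 3, 3, 10⟩, ⟨0, 2, 2, 6⟩, ⟨0, 3, 3, 15⟩, ⟨1, 3, 3, 7⟩, ⟨0, 3, 3, 6⟩, ⟨0, 2, 2, 10⟩, ⟨1, 4, 4, 0⟩, ⟨0, 4, 4, 0⟩]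

/-- class of words -/
def xNFzE2B3H3B2E : List PE := [⟨0, 4, 4, 0⟩, ⟨1, 4, 4, 11⟩, ⟨1, 3, 3, 10⟩, ⟨0, 2, 2, 6⟩, ⟨0, 3, 3, 14⟩, ⟨0, 3, 3, 6⟩, ⟨0, 2, 2, 10⟩, ⟨1, 4, 4, 0⟩, ⟨0, 4, 4, 0⟩]

/-- class of words -/
def xNE2B3B2H2BzIzA3B2EzF : List PE := [⟨0, 4, 4, 0⟩, ⟨1, 4, 4, 10⟩, ⟨0, 2, 2, 6⟩, ⟨0, 3, 3, 6⟩, ⟨0, 2, 2, 14⟩, ⟨0, 2, 2, 6⟩, ⟨1, 3, 3, 15⟩, ⟨1, 3, 3, 5⟩, ⟨0, 3, 3, 6⟩, ⟨0, 2, 2, 10⟩, ⟨1, 3, 3, 11⟩, ⟨1, 4, 4, 0⟩, ⟨0, 4, 4, 0⟩]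

/-- class of words -/
def xNFzE2B3H3AzIzB2H2B3B2E : List PE := [⟨0, 4, 4, 0⟩, ⟨1, 4, 4, 11⟩, ⟨1, 3, 3, 10⟩, ⟨0, 2, 2, 6⟩, ⟨0, 3, 3, 14⟩, ⟨0, 3, 3, 5⟩, ⟨1, 3, 3, 15⟩, ⟨1, 3, 3, 6⟩, ⟨0, 2, 2, 14⟩, ⟨0, 2, 2, 6⟩, ⟨0, 3, 3, 6⟩, ⟨0, 2, 2, 10⟩, ⟨1, 4, 4, 0⟩, ⟨0, 4, 4, 0⟩]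

/-- class of words -/
def xNE2ByA3B2BzIzB3B2EzF : List PE := [⟨0, 4, 4, 0⟩, ⟨1, 4, 4, 10⟩, ⟨0, 2, 2, 6⟩, ⟨1, 2, 2, 5⟩, ⟨0, 3, 3, 6⟩, ⟨0, 2, 2, 6⟩, ⟨1, 3, 3, 15⟩, ⟨1, 3, 3, 6⟩, ⟨0, 3, 3, 6⟩, ⟨0, 2, 2, 10⟩, ⟨1, 3, 3, 11⟩, ⟨1, 4, 4, 0⟩, ⟨0, 4, 4, 0⟩]

/-- class of words -/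
def xNE2B3B2H2BzIzByA3B2EzF : List PE := [⟨0, 4, 4, 0⟩, ⟨1, 4, 4, 10⟩, ⟨0, 2, 2, 6⟩, ⟨0, 3, 3, 6⟩, ⟨0, 2, 2, 14⟩, ⟨0, 2, 2, 6⟩, ⟨1, 3, 3, 15⟩, ⟨1, 3, 3, 6⟩, ⟨1, 2, 2, 5⟩, ⟨0, 3, 3, 6⟩, ⟨0, 2, 2, 10⟩, ⟨1, 3, 3, 11⟩, ⟨1, 4, 4, 0⟩, ⟨0, 4, 4, 0⟩]

/-- class of words -/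
def xNFzE2B3H3BzIzB3H3B2EzF : List PE := [⟨0, 4, 4, 0⟩, ⟨1, 4, 4, 11⟩, ⟨1, 3, 3, 10⟩, ⟨0, 2, 2, 6⟩, ⟨0, 3, 3, 14⟩, ⟨0, 3, 3, 6⟩, ⟨1, 3, 3, 15⟩, ⟨1, 3, 3, 6⟩, ⟨0, 3, 3, 14⟩, ⟨0, 3, 3, 6⟩, ⟨0, 2, 2, 10⟩, ⟨1, 3, 3, 11⟩, ⟨1, 4, 4, 0⟩, ⟨0, 4, 4, 0⟩]

/-- class of words -/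
def xNFzE2B3H3BzB3H3B2EzF : List PE := [⟨0, 4, 4, 0⟩, ⟨1, 4, 4, 11⟩, ⟨1, 3, 3, 10⟩, ⟨0, 2, 2, 6⟩, ⟨0, 3, 3, 14⟩, ⟨0, 3, 3, 6⟩, ⟨1, 3, 3, 6⟩, ⟨0, 3, 3, 14⟩, ⟨0, 3, 3, 6⟩, ⟨0, 2, 2, 10⟩, ⟨1, 3, 3, 11⟩, ⟨1, 4, 4, 0⟩, ⟨0, 4, 4, 0⟩]

/-- class of words -/
def xNFzE2B3H3AzB2H3B2EzF : List PE := [⟨0, 4, 4, 0⟩, ⟨1, 4, 4, 11⟩, ⟨1, 3, 3, 10⟩, ⟨0, 2, 2, 6⟩, ⟨0, 3, 3, 14⟩, ⟨0, 3, 3, 5⟩, ⟨1, 3, 3, 6⟩, ⟨0, 2, 2, 14⟩, ⟨0, 3, 3, 6⟩, ⟨0, 2, 2, 10⟩, ⟨1, 3, 3, 11⟩, ⟨1, 4, 4, 0⟩, ⟨0, 4, 4, 0⟩]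

/-- class of words -/
def xNFzE2B3H2BzAyB3H3B2EzF : List PE := [⟨0, 4, 4, 0⟩, ⟨1, 4, 4, 11⟩, ⟨1, 3, 3, 10⟩, ⟨0, 2, 2, 6⟩, ⟨0, 3, 3, 14⟩, ⟨0, 2, 2, 6⟩, ⟨1, 3, 3, 5⟩, ⟨1, 2, 2, 6⟩, ⟨0, 3, 3, 14⟩, ⟨0, 3, 3, 6⟩, ⟨0, 2, 2, 10⟩, ⟨1, 3, 3, 11⟩, ⟨1, 4, 4, 0⟩, ⟨0, 4, 4, 0⟩]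

/-- class of words -/
def xNA2CzE2B3I3B2E : List PE := [⟨0, 4, 4, 0⟩, ⟨1, 4, 4, 5⟩, ⟨0, 2, 2, 7⟩, ⟨1, 3, 3, 10⟩, ⟨0, 2, 2, 6⟩, ⟨0, 3, 3, 15⟩, ⟨0, 3, 3, 6⟩, ⟨0, 2, 2, 10⟩, ⟨1, 4, 4, 0⟩, ⟨0, 4, 4, 0⟩]

/-- class of words -/
def xNFyA2AzE2B3HzB2H3B2E : List PE := [⟨0, 4, 4, 0⟩, ⟨1, 4, 4, 11⟩, ⟨1, 2, 2, 5⟩, ⟨0, 2, 2, 5⟩, ⟨1, 3, 3, 10⟩, ⟨0, 2, 2, 6⟩, ⟨0, 3, 3, 14⟩, ⟨1, 3, 3, 6⟩, ⟨0, 2, 2, 14⟩, ⟨0, 3, 3, 6⟩, ⟨0, 2, 2, 10⟩, ⟨1, 4, 4, 0⟩, ⟨0, 4, 4, 0⟩]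

/-- class of words -/
def xNFzAzAzE2A3Ix3AyB2E : List PE := [⟨0, 4, 4, 0⟩, ⟨1, 4, 4, 11⟩, ⟨1, 3, 3, 5⟩, ⟨1, 3, 3, 5⟩, ⟨1, 3, 3, 10⟩, ⟨0, 2, 2, 5⟩, ⟨0, 3, 3, 15⟩, ⟨1, 1, 1, 0⟩, ⟨0, 3, 3, 5⟩, ⟨1, 2, 2, 6⟩, ⟨0, 2, 2, 10⟩, ⟨1, 4, 4, 0⟩, ⟨0, 4, 4, 0⟩]

/-- class of words -/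
def xNFzA2AzE2B3HzB2H3B2E : List PE := [⟨0, 4, 4, 0⟩, ⟨1, 4, 4, 11⟩, ⟨1, 3, 3, 5⟩, ⟨0, 2, 2, 5⟩, ⟨1, 3, 3, 10⟩, ⟨0, 2, 2, 6⟩, ⟨0, 3, 3, 14⟩, ⟨1, 3, 3, 6⟩, ⟨0, 2, 2, 14⟩, ⟨0, 3, 3, 6⟩, ⟨0, 2, 2, 10⟩, ⟨1, 4, 4, 0⟩, ⟨0, 4, 4, 0⟩]

/-- class of words -/
def xNF2AzAzE2B3HzB2H3B2E : List PE := [⟨0, 4, 4, 0⟩, ⟨1, 4, 4, 11⟩, ⟨0, 2, 2, 5⟩, ⟨1, 3, 3, 5⟩, ⟨1, 3, 3, 10⟩, ⟨0, 2, 2, 6⟩, ⟨0, 3, 3, 14⟩, ⟨1, 3, 3, 6⟩, ⟨0, 2, 2, 14⟩, ⟨0, 3, 3, 6⟩, ⟨0, 2, 2, 10⟩, ⟨1, 4, 4, 0⟩, ⟨0, 4, 4, 0⟩]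

/-- class of words -/
def xNFyAzAzE2A3Ix3A2A2E : List PE := [⟨0, 4, 4, 0⟩, ⟨1, 4, 4, 11⟩, ⟨1, 2, 2, 5⟩, ⟨1, 3, 3, 5⟩, ⟨1, 3, 3, 10⟩, ⟨0, 2, 2, 5⟩, ⟨0, 3, 3, 15⟩, ⟨1, 1, 1, 0⟩, ⟨0, 3, 3, 5⟩, ⟨0, 2, 2, 5⟩, ⟨0, 2, 2, 10⟩, ⟨1, 4, 4, 0⟩, ⟨0, 4, 4, 0⟩]

/-- class of words -/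
def xNE2B3H2BzIzB2H3B2EzF : List PE := [⟨0, 4, 4, 0⟩, ⟨1, 4, 4, 10⟩, ⟨0, 2, 2, 6⟩, ⟨0, 3, 3, 14⟩, ⟨0, 2, 2, 6⟩, ⟨1, 3, 3, 15⟩, ⟨1, 3, 3, 6⟩, ⟨0, 2, 2, 14⟩, ⟨0, 3, 3, 6⟩, ⟨0, 2, 2, 10⟩, ⟨1, 3, 3, 11⟩, ⟨1, 4, 4, 0⟩, ⟨0, 4, 4, 0⟩]

/-- class of words -/
def xNFyAzAzE2ByA3Ix3AyB2E : List PE := [⟨0, 4, 4, 0⟩, ⟨1, 4, 4, 11⟩, ⟨1, 2, 2, 5⟩, ⟨1, 3, 3, 5⟩, ⟨1, 3, 3, 10⟩, ⟨0, 2, 2, 6⟩, ⟨1, 2, 2, 5⟩, ⟨0, 3, 3, 15⟩, ⟨1, 1, 1, 0⟩, ⟨0, 3, 3, 5⟩, ⟨1, 2, 2, 6⟩, ⟨0, 2, 2, 10⟩, ⟨1, 4, 4, 0⟩, ⟨0, 4, 4, 0⟩]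

/-- class of words -/
def xNFzAzAzE2ByA3Ix3AyB2E : List PE := [⟨0, 4, 4, 0⟩, ⟨1, 4, 4, 11⟩, ⟨1, 3, 3, 5⟩, ⟨1, 3, 3, 5⟩, ⟨1, 3, 3, 10⟩, ⟨0, 2, 2, 6⟩, ⟨1, 2, 2, 5⟩, ⟨0, 3, 3, 15⟩, ⟨1, 1, 1, 0⟩, ⟨0, 3, 3, 5⟩, ⟨1, 2, 2, 6⟩, ⟨0, 2, 2, 10⟩, ⟨1, 4, 4, 0⟩, ⟨0, 4, 4, 0⟩]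

/-- class of words -/
def xNE2B3H2BzH3B2EzA2A2F : List PE := [⟨0, 4, 4, 0⟩, ⟨1, 4, 4, 10⟩, ⟨0, 2, 2, 6⟩, ⟨0, 3, 3, 14⟩, ⟨0, 2, 2, 6⟩, ⟨1, 3, 3, 14⟩, ⟨0, 3, 3, 6⟩, ⟨0, 2, 2, 10⟩, ⟨1, 3, 3, 5⟩, ⟨0, 2, 2, 5⟩, ⟨0, 2, 2, 11⟩, ⟨1, 4, 4, 0⟩, ⟨0, 4, 4, 0⟩]

/-- class of words -/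
def xNCzE2B3I3B2E : List PE := [⟨0, 4, 4, 0⟩, ⟨1, 4, 4, 7⟩, ⟨1, 3, 3, 10⟩, ⟨0, 2, 2, 6⟩, ⟨0, 3, 3, 15⟩, ⟨0, 3, 3, 6⟩, ⟨0, 2, 2, 10⟩, ⟨1, 4, 4, 0⟩, ⟨0, 4, 4, 0⟩]

/-- class of words -/
def xNFzE2B3BzIzB2B3B2E : List PE := [⟨0, 4, 4, 0⟩, ⟨1, 4, 4, 11⟩, ⟨1, 3, 3, 10⟩, ⟨0, 2, 2, 6⟩, ⟨0, 3, 3, 6⟩, ⟨1, 3, 3, 15⟩, ⟨1, 3, 3, 6⟩, ⟨0, 2, 2, 6⟩, ⟨0, 3, 3, 6⟩, ⟨0, 2, 2, 10⟩, ⟨1, 4, 4, 0⟩, ⟨0, 4, 4, 0⟩]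

/-- class of words -/
def xNFyAzAzE2A3Ix3A2AyE : List PE := [⟨0, 4, 4, 0⟩, ⟨1, 4, 4, 11⟩, ⟨1, 2, 2, 5⟩, ⟨1, 3, 3, 5⟩, ⟨1, 3, 3, 10⟩, ⟨0, 2, 2, 5⟩, ⟨0, 3, 3, 15⟩, ⟨1, 1, 1, 0⟩, ⟨0, 3, 3, 5⟩, ⟨0, 2, 2, 5⟩, ⟨1, 2, 2, 10⟩, ⟨1, 4, 4, 0⟩, ⟨0, 4, 4, 0⟩]

/-- class of words -/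
def xNE2A3xI3AyB2EzAzAzF : List PE := [⟨0, 4, 4, 0⟩, ⟨1, 4, 4, 10⟩, ⟨0, 2, 2, 5⟩, ⟨0, 3, 3, 0⟩, ⟨1, 1, 1, 15⟩, ⟨0, 3, 3, 5⟩, ⟨1, 2, 2, 6⟩, ⟨0, 2, 2, 10⟩, ⟨1, 3, 3, 5⟩, ⟨1, 3, 3, 5⟩, ⟨1, 3, 3, 11⟩, ⟨1, 4, 4, 0⟩, ⟨0, 4, 4, 0⟩]

/-- class of words -/
def xNFyAzE2B3HzB2H3E3B2E : List PE := [⟨0, 4, 4, 0⟩, ⟨1, 4, 4, 11⟩, ⟨1, 2, 2, 5⟩, ⟨1, 3, 3, 10⟩, ⟨0, 2, 2, 6⟩, ⟨0, 3, 3, 14⟩, ⟨1, 3, 3, 6⟩, ⟨0, 2, 2, 14⟩, ⟨0, 3, 3, 10⟩, ⟨0, 3, 3, 6⟩, ⟨0, 2, 2, 10⟩, ⟨1, 4, 4, 0⟩, ⟨0, 4, 4, 0⟩]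

/-- class of words -/
def xNFzAzAzE2A3Ix3A2E : List PE := [⟨0, 4, 4, 0⟩, ⟨1, 4, 4, 11⟩, ⟨1, 3, 3, 5⟩, ⟨1, 3, 3, 5⟩, ⟨1, 3, 3, 10⟩, ⟨0, 2, 2, 5⟩, ⟨0, 3, 3, 15⟩, ⟨1, 1, 1, 0⟩, ⟨0, 3, 3, 5⟩, ⟨0, 2, 2, 10⟩, ⟨1, 4, 4, 0⟩, ⟨0, 4, 4, 0⟩]

/-- class of words -/
def xNFyAzAzE2A3Ix3A2A : List PE := [⟨0, 4, 4, 0⟩, ⟨1, 4, 4, 11⟩, ⟨1, 2, 2, 5⟩, ⟨1, 3, 3, 5⟩, ⟨1, 3, 3, 10⟩, ⟨0, 2, 2, 5⟩, ⟨0, 3, 3, 15⟩, ⟨1, 1, 1, 0⟩, ⟨0, 3, 3, 5⟩, ⟨0, 2, 2, 5⟩, ⟨1, 4, 4, 0⟩, ⟨0, 4, 4, 0⟩]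

/-- class of words -/
def xNFyAzAzE2A3Ix3AyB2E : List PE := [⟨0, 4, 4, 0⟩, ⟨1, 4, 4, 11⟩, ⟨1, 2, 2, 5⟩, ⟨1, 3, 3, 5⟩, ⟨1, 3, 3, 10⟩, ⟨0, 2, 2, 5⟩, ⟨0, 3, 3, 15⟩, ⟨1, 1, 1, 0⟩, ⟨0, 3, 3, 5⟩, ⟨1, 2, 2, 6⟩, ⟨0, 2, 2, 10⟩, ⟨1, 4, 4, 0⟩, ⟨0, 4, 4, 0⟩]

/-- class of words -/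
def xNE2B3B2H2BzIzAyB3B2EzF : List PE := [⟨0, 4, 4, 0⟩, ⟨1, 4, 4, 10⟩, ⟨0, 2, 2, 6⟩, ⟨0, 3, 3, 6⟩, ⟨0, 2, 2, 14⟩, ⟨0, 2, 2, 6⟩, ⟨1, 3, 3, 15⟩, ⟨1, 3, 3, 5⟩, ⟨1, 2, 2, 6⟩, ⟨0, 3, 3, 6⟩, ⟨0, 2, 2, 10⟩, ⟨1, 3, 3, 11⟩, ⟨1, 4, 4, 0⟩, ⟨0, 4, 4, 0⟩]

/-- class of words -/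
def xNFzE2B3Iy3B2E : List PE := [⟨0, 4, 4, 0⟩, ⟨1, 4, 4, 11⟩, ⟨1, 3, 3, 10⟩, ⟨0, 2, 2, 6⟩, ⟨0, 3, 3, 15⟩, ⟨1, 2, 2, 0⟩, ⟨0, 3, 3, 6⟩, ⟨0, 2, 2, 10⟩, ⟨1, 4, 4, 0⟩, ⟨0, 4, 4, 0⟩]

/-- class of words -/
def xNFyAzE2B3HzB2E3B2E : List PE := [⟨0, 4, 4, 0⟩, ⟨1, 4, 4, 11⟩, ⟨1, 2, 2, 5⟩, ⟨1, 3, 3, 10⟩, ⟨0, 2, 2, 6⟩, ⟨0, 3, 3, 14⟩, ⟨1, 3, 3, 6⟩, ⟨0, 2, 2, 10⟩, ⟨0, 3, 3, 6⟩, ⟨0, 2, 2, 10⟩, ⟨1, 4, 4, 0⟩, ⟨0, 4, 4, 0⟩]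

/-- class of words -/
def xNE2A3xI3AyB2EzAzAyF : List PE := [⟨0, 4, 4, 0⟩, ⟨1, 4, 4, 10⟩, ⟨0, 2, 2, 5⟩, ⟨0, 3, 3, 0⟩, ⟨1, 1, 1, 15⟩, ⟨0, 3, 3, 5⟩, ⟨1, 2, 2, 6⟩, ⟨0, 2, 2, 10⟩, ⟨1, 3, 3, 5⟩, ⟨1, 3, 3, 5⟩, ⟨1, 2, 2, 11⟩, ⟨1, 4, 4, 0⟩, ⟨0, 4, 4, 0⟩]

/-- class of words -/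
def xNFzE2B3B2EzF : List PE := [⟨0, 4, 4, 0⟩, ⟨1, 4, 4, 11⟩, ⟨1, 3, 3, 10⟩, ⟨0, 2, 2, 6⟩, ⟨0, 3, 3, 6⟩, ⟨0, 2, 2, 10⟩, ⟨1, 3, 3, 11⟩, ⟨1, 4, 4, 0⟩, ⟨0, 4, 4, 0⟩]

/-- class of words -/
def xNF3F : List PE := [⟨0, 4, 4, 0⟩, ⟨1, 4, 4, 11⟩, ⟨0, 3, 3, 11⟩, ⟨1, 4, 4, 0⟩, ⟨0, 4, 4, 0⟩]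

/-- class of words -/
def xNFzE2B3I3B2E : List PE := [⟨0, 4, 4, 0⟩, ⟨1, 4, 4, 11⟩, ⟨1, 3, 3, 10⟩, ⟨0, 2, 2, 6⟩, ⟨0, 3, 3, 15⟩, ⟨0, 3, 3, 6⟩, ⟨0, 2, 2, 10⟩, ⟨1, 4, 4, 0⟩, ⟨0, 4, 4, 0⟩]

/-- reversed class -/
def xNFzE2B3I3B2E_rNFzE2B3IzC3B2E : List PE := [⟨0, 4, 4, 0⟩, ⟨1, 4, 4, 10⟩, ⟨0, 2, 2, 6⟩, ⟨0, 3, 3, 7⟩, ⟨1, 3, 3, 15⟩, ⟨0, 3, 3, 6⟩, ⟨0, 2, 2, 10⟩, ⟨1, 3, 3, 11⟩, ⟨1, 4, 4, 0⟩, ⟨0, 4, 4, 0⟩]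

/-- reversed class -/
def xNFzE2B3I3B2E_rNA2CzE2B3I3B2E : List PE := [⟨0, 4, 4, 0⟩, ⟨1, 4, 4, 10⟩, ⟨0, 2, 2, 6⟩, ⟨0, 3, 3, 15⟩, ⟨0, 3, 3, 6⟩, ⟨0, 2, 2, 10⟩, ⟨1, 3, 3, 7⟩, ⟨0, 2, 2, 5⟩, ⟨1, 4, 4, 0⟩, ⟨0, 4, 4, 0⟩]

/-- reversed class -/
def xNFzE2B3I3B2E_rNFyA2AzE2B3HzB2H3B2E : List PE := [⟨0, 4, 4, 0⟩, ⟨1, 4, 4, 10⟩, ⟨0, 2, 2, 6⟩, ⟨0, 3, 3, 14⟩, ⟨0, 2, 2, 6⟩, ⟨1, 3, 3, 14⟩, ⟨0, 3, 3, 6⟩, ⟨0, 2, 2, 10⟩, ⟨1, 3, 3, 5⟩, ⟨0, 2, 2, 5⟩, ⟨1, 2, 2, 11⟩, ⟨1, 4, 4, 0⟩, ⟨0, 4, 4, 0⟩]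

/-- reversed class -/
def xNFzE2B3I3B2E_rNFzE2B3H2BzIzB3H3B2E : List PE := [⟨0, 4, 4, 0⟩, ⟨1, 4, 4, 10⟩, ⟨0, 2, 2, 6⟩, ⟨0, 3, 3, 14⟩, ⟨0, 3, 3, 6⟩, ⟨1, 3, 3, 15⟩, ⟨1, 3, 3, 6⟩, ⟨0, 2, 2, 14⟩, ⟨0, 3, 3, 6⟩, ⟨0, 2, 2, 10⟩, ⟨1, 3, 3, 11⟩, ⟨1, 4, 4, 0⟩, ⟨0, 4, 4, 0⟩]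

/-- reversed class -/
def xNFzE2B3I3B2E_rNE2B3B2H2BzIzAyB3H3B2EzF : List PE := [⟨0, 4, 4, 0⟩, ⟨1, 4, 4, 11⟩, ⟨1, 3, 3, 10⟩, ⟨0, 2, 2, 6⟩, ⟨0, 3, 3, 14⟩, ⟨0, 3, 3, 6⟩, ⟨1, 2, 2, 5⟩, ⟨1, 3, 3, 15⟩, ⟨1, 3, 3, 6⟩, ⟨0, 2, 2, 14⟩, ⟨0, 2, 2, 6⟩, ⟨0, 3, 3, 6⟩, ⟨0, 2, 2, 10⟩, ⟨1, 4, 4, 0⟩, ⟨0, 4, 4, 0⟩]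

/-- reversed class -/
def xNFzE2B3I3B2E_rNFzE2B3H3BzIzB2B3B2E : List PE := [⟨0, 4, 4, 0⟩, ⟨1, 4, 4, 10⟩, ⟨0, 2, 2, 6⟩, ⟨0, 3, 3, 6⟩, ⟨0, 2, 2, 6⟩, ⟨1, 3, 3, 15⟩, ⟨1, 3, 3, 6⟩, ⟨0, 3, 3, 14⟩, ⟨0, 3, 3, 6⟩, ⟨0, 2, 2, 10⟩, ⟨1, 3, 3, 11⟩, ⟨1, 4, 4, 0⟩, ⟨0, 4, 4, 0⟩]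

/-- reversed class -/
def xNFzE2B3I3B2E_rNFzAzAzE2A3Ix3AyB2E : List PE := [⟨0, 4, 4, 0⟩, ⟨1, 4, 4, 10⟩, ⟨0, 2, 2, 6⟩, ⟨1, 2, 2, 5⟩, ⟨0, 3, 3, 0⟩, ⟨1, 1, 1, 15⟩, ⟨0, 3, 3, 5⟩, ⟨0, 2, 2, 10⟩, ⟨1, 3, 3, 5⟩, ⟨1, 3, 3, 5⟩, ⟨1, 3, 3, 11⟩, ⟨1, 4, 4, 0⟩, ⟨0, 4, 4, 0⟩]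

/-- reversed class -/
def xNFzE2B3I3B2E_rNFzA2AzE2B3HzB2H3B2E : List PE := [⟨0, 4, 4, 0⟩, ⟨1, 4, 4, 10⟩, ⟨0, 2, 2, 6⟩, ⟨0, 3, 3, 14⟩, ⟨0, 2, 2, 6⟩, ⟨1, 3, 3, 14⟩, ⟨0, 3, 3, 6⟩, ⟨0, 2, 2, 10⟩, ⟨1, 3, 3, 5⟩, ⟨0, 2, 2, 5⟩, ⟨1, 3, 3, 11⟩, ⟨1, 4, 4, 0⟩, ⟨0, 4, 4, 0⟩]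

/-- reversed class -/
def xNFzE2B3I3B2E_rNFzE2B3BzIzB3H3B2E : List PE := [⟨0, 4, 4, 0⟩, ⟨1, 4, 4, 10⟩, ⟨0, 2, 2, 6⟩, ⟨0, 3, 3, 14⟩, ⟨0, 3, 3, 6⟩, ⟨1, 3, 3, 15⟩, ⟨1, 3, 3, 6⟩, ⟨0, 3, 3, 6⟩, ⟨0, 2, 2, 10⟩, ⟨1, 3, 3, 11⟩, ⟨1, 4, 4, 0⟩, ⟨0, 4, 4, 0⟩]

/-- reversed class -/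
def xNFzE2B3I3B2E_rNF2AzAzE2B3HzB2H3B2E : List PE := [⟨0, 4, 4, 0⟩, ⟨1, 4, 4, 10⟩, ⟨0, 2, 2, 6⟩, ⟨0, 3, 3, 14⟩, ⟨0, 2, 2, 6⟩, ⟨1, 3, 3, 14⟩, ⟨0, 3, 3, 6⟩, ⟨0, 2, 2, 10⟩, ⟨1, 3, 3, 5⟩, ⟨1, 3, 3, 5⟩, ⟨0, 2, 2, 11⟩, ⟨1, 4, 4, 0⟩, ⟨0, 4, 4, 0⟩]

/-- reversed class -/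
def xNFzE2B3I3B2E_rNFyAzAzE2A3Ix3A2A2E : List PE := [⟨0, 4, 4, 0⟩, ⟨1, 4, 4, 10⟩, ⟨0, 2, 2, 5⟩, ⟨0, 2, 2, 5⟩, ⟨0, 3, 3, 0⟩, ⟨1, 1, 1, 15⟩, ⟨0, 3, 3, 5⟩, ⟨0, 2, 2, 10⟩, ⟨1, 3, 3, 5⟩, ⟨1, 3, 3, 5⟩, ⟨1, 2, 2, 11⟩, ⟨1, 4, 4, 0⟩, ⟨0, 4, 4, 0⟩]

/-- reversed class -/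
def xNFzE2B3I3B2E_rNFzE2B3H3BzIzB3H3B2E : List PE := [⟨0, 4, 4, 0⟩, ⟨1, 4, 4, 10⟩, ⟨0, 2, 2, 6⟩, ⟨0, 3, 3, 14⟩, ⟨0, 3, 3, 6⟩, ⟨1, 3, 3, 15⟩, ⟨1, 3, 3, 6⟩, ⟨0, 3, 3, 14⟩, ⟨0, 3, 3, 6⟩, ⟨0, 2, 2, 10⟩, ⟨1, 3, 3, 11⟩, ⟨1, 4, 4, 0⟩, ⟨0, 4, 4, 0⟩]

/-- reversed class -/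
def xNFzE2B3I3B2E_rNE2B3H2BzIzB2H3B2EzF : List PE := [⟨0, 4, 4, 0⟩, ⟨1, 4, 4, 11⟩, ⟨1, 3, 3, 10⟩, ⟨0, 2, 2, 6⟩, ⟨0, 3, 3, 14⟩, ⟨0, 2, 2, 6⟩, ⟨1, 3, 3, 15⟩, ⟨1, 3, 3, 6⟩, ⟨0, 2, 2, 14⟩, ⟨0, 3, 3, 6⟩, ⟨0, 2, 2, 10⟩, ⟨1, 4, 4, 0⟩, ⟨0, 4, 4, 0⟩]

/-- reversed class -/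
def xNFzE2B3I3B2E_rNFzE2B3HzB3H3B2E : List PE := [⟨0, 4, 4, 0⟩, ⟨1, 4, 4, 10⟩, ⟨0, 2, 2, 6⟩, ⟨0, 3, 3, 14⟩, ⟨0, 3, 3, 6⟩, ⟨1, 3, 3, 14⟩, ⟨0, 3, 3, 6⟩, ⟨0, 2, 2, 10⟩, ⟨1, 3, 3, 11⟩, ⟨1, 4, 4, 0⟩, ⟨0, 4, 4, 0⟩]

/-- reversed class -/
def xNFzE2B3I3B2E_rNE2B3B2H2BzIzA3B2EzF : List PE := [⟨0, 4, 4, 0⟩, ⟨1, 4, 4, 11⟩, ⟨1, 3, 3, 10⟩, ⟨0, 2, 2, 6⟩, ⟨0, 3, 3, 5⟩, ⟨1, 3, 3, 15⟩, ⟨1, 3, 3, 6⟩, ⟨0, 2, 2, 14⟩, ⟨0, 2, 2, 6⟩, ⟨0, 3, 3, 6⟩, ⟨0, 2, 2, 10⟩, ⟨1, 4, 4, 0⟩, ⟨0, 4, 4, 0⟩]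

/-- reversed class -/
def xNFzE2B3I3B2E_rNFyAzAzE2ByA3Ix3AyB2E : List PE := [⟨0, 4, 4, 0⟩, ⟨1, 4, 4, 10⟩, ⟨0, 2, 2, 6⟩, ⟨1, 2, 2, 5⟩, ⟨0, 3, 3, 0⟩, ⟨1, 1, 1, 15⟩, ⟨0, 3, 3, 5⟩, ⟨1, 2, 2, 6⟩, ⟨0, 2, 2, 10⟩, ⟨1, 3, 3, 5⟩, ⟨1, 3, 3, 5⟩, ⟨1, 2, 2, 11⟩, ⟨1, 4, 4, 0⟩, ⟨0, 4, 4, 0⟩]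

/-- reversed class -/
def xNFzE2B3I3B2E_rNFzE2B3H3AzIzB2H2B3B2E : List PE := [⟨0, 4, 4, 0⟩, ⟨1, 4, 4, 10⟩, ⟨0, 2, 2, 6⟩, ⟨0, 3, 3, 6⟩, ⟨0, 2, 2, 14⟩, ⟨0, 2, 2, 6⟩, ⟨1, 3, 3, 15⟩, ⟨1, 3, 3, 5⟩, ⟨0, 3, 3, 14⟩, ⟨0, 3, 3, 6⟩, ⟨0, 2, 2, 10⟩, ⟨1, 3, 3, 11⟩, ⟨1, 4, 4, 0⟩, ⟨0, 4, 4, 0⟩]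

/-- reversed class -/
def xNFzE2B3I3B2E_rNFzAzAzE2ByA3Ix3AyB2E : List PE := [⟨0, 4, 4, 0⟩, ⟨1, 4, 4, 10⟩, ⟨0, 2, 2, 6⟩, ⟨1, 2, 2, 5⟩, ⟨0, 3, 3, 0⟩, ⟨1, 1, 1, 15⟩, ⟨0, 3, 3, 5⟩, ⟨1, 2, 2, 6⟩, ⟨0, 2, 2, 10⟩, ⟨1, 3, 3, 5⟩, ⟨1, 3, 3, 5⟩, ⟨1, 3, 3, 11⟩, ⟨1, 4, 4, 0⟩, ⟨0, 4, 4, 0⟩]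

/-- reversed class -/
def xNFzE2B3I3B2E_rNE2B3H2BzH3B2EzA2A2F : List PE := [⟨0, 4, 4, 0⟩, ⟨1, 4, 4, 11⟩, ⟨0, 2, 2, 5⟩, ⟨0, 2, 2, 5⟩, ⟨1, 3, 3, 10⟩, ⟨0, 2, 2, 6⟩, ⟨0, 3, 3, 14⟩, ⟨1, 3, 3, 6⟩, ⟨0, 2, 2, 14⟩, ⟨0, 3, 3, 6⟩, ⟨0, 2, 2, 10⟩, ⟨1, 4, 4, 0⟩, ⟨0, 4, 4, 0⟩]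

/-- reversed class -/
def xNFzE2B3I3B2E_rNCzE2B3I3B2E : List PE := [⟨0, 4, 4, 0⟩, ⟨1, 4, 4, 10⟩, ⟨0, 2, 2, 6⟩, ⟨0, 3, 3, 15⟩, ⟨0, 3, 3, 6⟩, ⟨0, 2, 2, 10⟩, ⟨1, 3, 3, 7⟩, ⟨1, 4, 4, 0⟩, ⟨0, 4, 4, 0⟩]

/-- reversed class -/
def xNFzE2B3I3B2E_rNFzE2B3BzIzB2B3B2E : List PE := [⟨0, 4, 4, 0⟩, ⟨1, 4, 4, 10⟩, ⟨0, 2, 2, 6⟩, ⟨0, 3, 3, 6⟩, ⟨0, 2, 2, 6⟩, ⟨1, 3, 3, 15⟩, ⟨1, 3, 3, 6⟩, ⟨0, 3, 3, 6⟩, ⟨0, 2, 2, 10⟩, ⟨1, 3, 3, 11⟩, ⟨1, 4, 4, 0⟩, ⟨0, 4, 4, 0⟩]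

/-- reversed class -/
def xNFzE2B3I3B2E_rNFzE2B3H3BzIzB2H3B3B2E : List PE := [⟨0, 4, 4, 0⟩, ⟨1, 4, 4, 10⟩, ⟨0, 2, 2, 6⟩, ⟨0, 3, 3, 6⟩, ⟨0, 3, 3, 14⟩, ⟨0, 2, 2, 6⟩, ⟨1, 3, 3, 15⟩, ⟨1, 3, 3, 6⟩, ⟨0, 3, 3, 14⟩, ⟨0, 3, 3, 6⟩, ⟨0, 2, 2, 10⟩, ⟨1, 3, 3, 11⟩, ⟨1, 4, 4, 0⟩, ⟨0, 4, 4, 0⟩]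

/-- reversed class -/
def xNFzE2B3I3B2E_rNFyAzAzE2A3Ix3A2AyE : List PE := [⟨0, 4, 4, 0⟩, ⟨1, 4, 4, 10⟩, ⟨1, 2, 2, 5⟩, ⟨0, 2, 2, 5⟩, ⟨0, 3, 3, 0⟩, ⟨1, 1, 1, 15⟩, ⟨0, 3, 3, 5⟩, ⟨0, 2, 2, 10⟩, ⟨1, 3, 3, 5⟩, ⟨1, 3, 3, 5⟩, ⟨1, 2, 2, 11⟩, ⟨1, 4, 4, 0⟩, ⟨0, 4, 4, 0⟩]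

/-- reversed class -/
def xNFzE2B3I3B2E_rNE2A3xI3AyB2EzAzAzF : List PE := [⟨0, 4, 4, 0⟩, ⟨1, 4, 4, 11⟩, ⟨1, 3, 3, 5⟩, ⟨1, 3, 3, 5⟩, ⟨1, 3, 3, 10⟩, ⟨0, 2, 2, 6⟩, ⟨1, 2, 2, 5⟩, ⟨0, 3, 3, 15⟩, ⟨1, 1, 1, 0⟩, ⟨0, 3, 3, 5⟩, ⟨0, 2, 2, 10⟩, ⟨1, 4, 4, 0⟩, ⟨0, 4, 4, 0⟩]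

/-- reversed class -/
def xNFzE2B3I3B2E_rNFyAzE2B3HzB2H3E3B2E : List PE := [⟨0, 4, 4, 0⟩, ⟨1, 4, 4, 10⟩, ⟨0, 2, 2, 6⟩, ⟨0, 3, 3, 10⟩, ⟨0, 3, 3, 14⟩, ⟨0, 2, 2, 6⟩, ⟨1, 3, 3, 14⟩, ⟨0, 3, 3, 6⟩, ⟨0, 2, 2, 10⟩, ⟨1, 3, 3, 5⟩, ⟨1, 2, 2, 11⟩, ⟨1, 4, 4, 0⟩, ⟨0, 4, 4, 0⟩]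

/-- reversed class -/
def xNFzE2B3I3B2E_rNFzAzAzE2A3Ix3A2E : List PE := [⟨0, 4, 4, 0⟩, ⟨1, 4, 4, 10⟩, ⟨0, 2, 2, 5⟩, ⟨0, 3, 3, 0⟩, ⟨1, 1, 1, 15⟩, ⟨0, 3, 3, 5⟩, ⟨0, 2, 2, 10⟩, ⟨1, 3, 3, 5⟩, ⟨1, 3, 3, 5⟩, ⟨1, 3, 3, 11⟩, ⟨1, 4, 4, 0⟩, ⟨0, 4, 4, 0⟩]

/-- reversed class -/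
def xNFzE2B3I3B2E_rNFyAzAzE2A3Ix3A2A : List PE := [⟨0, 4, 4, 0⟩, ⟨1, 4, 4, 5⟩, ⟨0, 2, 2, 5⟩, ⟨0, 3, 3, 0⟩, ⟨1, 1, 1, 15⟩, ⟨0, 3, 3, 5⟩, ⟨0, 2, 2, 10⟩, ⟨1, 3, 3, 5⟩, ⟨1, 3, 3, 5⟩, ⟨1, 2, 2, 11⟩, ⟨1, 4, 4, 0⟩, ⟨0, 4, 4, 0⟩]

/-- reversed class -/
def xNFzE2B3I3B2E_rNFzE2B3H3B2E : List PE := [⟨0, 4, 4, 0⟩, ⟨1, 4, 4, 10⟩, ⟨0, 2, 2, 6⟩, ⟨0, 3, 3, 14⟩, ⟨0, 3, 3, 6⟩, ⟨0, 2, 2, 10⟩, ⟨1, 3, 3, 11⟩, ⟨1, 4, 4, 0⟩, ⟨0, 4, 4, 0⟩]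

/-- reversed class -/
def xNFzE2B3I3B2E_rNFyAzAzE2A3Ix3AyB2E : List PE := [⟨0, 4, 4, 0⟩, ⟨1, 4, 4, 10⟩, ⟨0, 2, 2, 6⟩, ⟨1, 2, 2, 5⟩, ⟨0, 3, 3, 0⟩, ⟨1, 1, 1, 15⟩, ⟨0, 3, 3, 5⟩, ⟨0, 2, 2, 10⟩, ⟨1, 3, 3, 5⟩, ⟨1, 3, 3, 5⟩, ⟨1, 2, 2, 11⟩, ⟨1, 4, 4, 0⟩, ⟨0, 4, 4, 0⟩]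

/-- reversed class -/
def xNFzE2B3I3B2E_rNE2B3B2H2BzIzAyB3B2EzF : List PE := [⟨0, 4, 4, 0⟩, ⟨1, 4, 4, 11⟩, ⟨1, 3, 3, 10⟩, ⟨0, 2, 2, 6⟩, ⟨0, 3, 3, 6⟩, ⟨1, 2, 2, 5⟩, ⟨1, 3, 3, 15⟩, ⟨1, 3, 3, 6⟩, ⟨0, 2, 2, 14⟩, ⟨0, 2, 2, 6⟩, ⟨0, 3, 3, 6⟩, ⟨0, 2, 2, 10⟩, ⟨1, 4, 4, 0⟩, ⟨0, 4, 4, 0⟩]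

/-- reversed class -/
def xNFzE2B3I3B2E_rNFzE2B3BzIzB2H3B3B2E : List PE := [⟨0, 4, 4, 0⟩, ⟨1, 4, 4, 10⟩, ⟨0, 2, 2, 6⟩, ⟨0, 3, 3, 6⟩, ⟨0, 3, 3, 14⟩, ⟨0, 2, 2, 6⟩, ⟨1, 3, 3, 15⟩, ⟨1, 3, 3, 6⟩, ⟨0, 3, 3, 6⟩, ⟨0, 2, 2, 10⟩, ⟨1, 3, 3, 11⟩, ⟨1, 4, 4, 0⟩, ⟨0, 4, 4, 0⟩]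

/-- reversed class -/
def xNFzE2B3I3B2E_rNFzE2B3Iy3B2E : List PE := [⟨0, 4, 4, 0⟩, ⟨1, 4, 4, 10⟩, ⟨0, 2, 2, 6⟩, ⟨0, 3, 3, 0⟩, ⟨1, 2, 2, 15⟩, ⟨0, 3, 3, 6⟩, ⟨0, 2, 2, 10⟩, ⟨1, 3, 3, 11⟩, ⟨1, 4, 4, 0⟩, ⟨0, 4, 4, 0⟩]

/-- reversed class -/
def xNFzE2B3I3B2E_rNFyAzE2B3HzB2E3B2E : List PE := [⟨0, 4, 4, 0⟩, ⟨1, 4, 4, 10⟩, ⟨0, 2, 2, 6⟩, ⟨0, 3, 3, 10⟩, ⟨0, 2, 2, 6⟩, ⟨1, 3, 3, 14⟩, ⟨0, 3, 3, 6⟩, ⟨0, 2, 2, 10⟩, ⟨1, 3, 3, 5⟩, ⟨1, 2, 2, 11⟩, ⟨1, 4, 4, 0⟩, ⟨0, 4, 4, 0⟩]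

/-- reversed class -/
def xNFzE2B3I3B2E_rNE2A3xI3AyB2EzAzAyF : List PE := [⟨0, 4, 4, 0⟩, ⟨1, 4, 4, 11⟩, ⟨1, 2, 2, 5⟩, ⟨1, 3, 3, 5⟩, ⟨1, 3, 3, 10⟩, ⟨0, 2, 2, 6⟩, ⟨1, 2, 2, 5⟩, ⟨0, 3, 3, 15⟩, ⟨1, 1, 1, 0⟩, ⟨0, 3, 3, 5⟩, ⟨0, 2, 2, 10⟩, ⟨1, 4, 4, 0⟩, ⟨0, 4, 4, 0⟩]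

/-- reversed class -/
def xNFzE2B3B2EzF_rNA2AzE2B3B2EzF : List PE := [⟨0, 4, 4, 0⟩, ⟨1, 4, 4, 11⟩, ⟨1, 3, 3, 10⟩, ⟨0, 2, 2, 6⟩, ⟨0, 3, 3, 6⟩, ⟨0, 2, 2, 10⟩, ⟨1, 3, 3, 5⟩, ⟨0, 2, 2, 5⟩, ⟨1, 4, 4, 0⟩, ⟨0, 4, 4, 0⟩]

/-- reversed class -/
def xNFzE2B3B2EzF_rNCzE2B3B2EzF : List PE := [⟨0, 4, 4, 0⟩, ⟨1, 4, 4, 11⟩, ⟨1, 3, 3, 10⟩, ⟨0, 2, 2, 6⟩, ⟨0, 3, 3, 6⟩, ⟨0, 2, 2, 10⟩, ⟨1, 3, 3, 7⟩, ⟨1, 4, 4, 0⟩, ⟨0, 4, 4, 0⟩]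

/-- reversed class -/
def xNFzE2B3B2EzF_rNF2A2AzE2A2Ax3xA2A2EzAzA2F : List PE := [⟨0, 4, 4, 0⟩, ⟨1, 4, 4, 11⟩, ⟨0, 2, 2, 5⟩, ⟨1, 3, 3, 5⟩, ⟨1, 3, 3, 10⟩, ⟨0, 2, 2, 5⟩, ⟨0, 2, 2, 5⟩, ⟨1, 1, 1, 0⟩, ⟨0, 3, 3, 0⟩, ⟨1, 1, 1, 5⟩, ⟨0, 2, 2, 5⟩, ⟨0, 2, 2, 10⟩, ⟨1, 3, 3, 5⟩, ⟨0, 2, 2, 5⟩, ⟨0, 2, 2, 11⟩, ⟨1, 4, 4, 0⟩, ⟨0, 4, 4, 0⟩]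

/-- reversed class -/
def xNFzE2B3B2EzF_rNF2A2AzE2A2Ax3xA2A2EzAzAyF : List PE := [⟨0, 4, 4, 0⟩, ⟨1, 4, 4, 11⟩, ⟨1, 2, 2, 5⟩, ⟨1, 3, 3, 5⟩, ⟨1, 3, 3, 10⟩, ⟨0, 2, 2, 5⟩, ⟨0, 2, 2, 5⟩, ⟨1, 1, 1, 0⟩, ⟨0, 3, 3, 0⟩, ⟨1, 1, 1, 5⟩, ⟨0, 2, 2, 5⟩, ⟨0, 2, 2, 10⟩, ⟨1, 3, 3, 5⟩, ⟨0, 2, 2, 5⟩, ⟨0, 2, 2, 11⟩, ⟨1, 4, 4, 0⟩, ⟨0, 4, 4, 0⟩]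

/-- reversed class -/
def xNFzE2B3B2EzF_rNF2A2AzE2A2Ax3xA2A2EzAzAzF : List PE := [⟨0, 4, 4, 0⟩, ⟨1, 4, 4, 11⟩, ⟨1, 3, 3, 5⟩, ⟨1, 3, 3, 5⟩, ⟨1, 3, 3, 10⟩, ⟨0, 2, 2, 5⟩, ⟨0, 2, 2, 5⟩, ⟨1, 1, 1, 0⟩, ⟨0, 3, 3, 0⟩, ⟨1, 1, 1, 5⟩, ⟨0, 2, 2, 5⟩, ⟨0, 2, 2, 10⟩, ⟨1, 3, 3, 5⟩, ⟨0, 2, 2, 5⟩, ⟨0, 2, 2, 11⟩, ⟨1, 4, 4, 0⟩, ⟨0, 4, 4, 0⟩]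

/-- reversed class -/
def xNFzE2B3B2EzF_rNFyA2AzEyA2Ax3xA2AyEzA2A2F : List PE := [⟨0, 4, 4, 0⟩, ⟨1, 4, 4, 11⟩, ⟨0, 2, 2, 5⟩, ⟨0, 2, 2, 5⟩, ⟨1, 3, 3, 10⟩, ⟨1, 2, 2, 5⟩, ⟨0, 2, 2, 5⟩, ⟨1, 1, 1, 0⟩, ⟨0, 3, 3, 0⟩, ⟨1, 1, 1, 5⟩, ⟨0, 2, 2, 5⟩, ⟨1, 2, 2, 10⟩, ⟨1, 3, 3, 5⟩, ⟨0, 2, 2, 5⟩, ⟨1, 2, 2, 11⟩, ⟨1, 4, 4, 0⟩, ⟨0, 4, 4, 0⟩]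

/-- reversed class -/
def xNFzE2B3B2EzF_rNF2AzAzE2A2Ax3xA2A2EzA2AyF : List PE := [⟨0, 4, 4, 0⟩, ⟨1, 4, 4, 11⟩, ⟨1, 2, 2, 5⟩, ⟨0, 2, 2, 5⟩, ⟨1, 3, 3, 10⟩, ⟨0, 2, 2, 5⟩, ⟨0, 2, 2, 5⟩, ⟨1, 1, 1, 0⟩, ⟨0, 3, 3, 0⟩, ⟨1, 1, 1, 5⟩, ⟨0, 2, 2, 5⟩, ⟨0, 2, 2, 10⟩, ⟨1, 3, 3, 5⟩, ⟨1, 3, 3, 5⟩, ⟨0, 2, 2, 11⟩, ⟨1, 4, 4, 0⟩, ⟨0, 4, 4, 0⟩]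

/-- reversed class -/
def xNFzE2B3B2EzF_rNFyAzAzEyA2Ax3xA2AyEzAzA2F : List PE := [⟨0, 4, 4, 0⟩, ⟨1, 4, 4, 11⟩, ⟨0, 2, 2, 5⟩, ⟨1, 3, 3, 5⟩, ⟨1, 3, 3, 10⟩, ⟨1, 2, 2, 5⟩, ⟨0, 2, 2, 5⟩, ⟨1, 1, 1, 0⟩, ⟨0, 3, 3, 0⟩, ⟨1, 1, 1, 5⟩, ⟨0, 2, 2, 5⟩, ⟨1, 2, 2, 10⟩, ⟨1, 3, 3, 5⟩, ⟨1, 3, 3, 5⟩, ⟨1, 2, 2, 11⟩, ⟨1, 4, 4, 0⟩, ⟨0, 4, 4, 0⟩]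

/-- reversed class -/
def xNFzE2B3B2EzF_rNF2AzAzEyA2Ax3xA2AyEzAzAzF : List PE := [⟨0, 4, 4, 0⟩, ⟨1, 4, 4, 11⟩, ⟨1, 3, 3, 5⟩, ⟨1, 3, 3, 5⟩, ⟨1, 3, 3, 10⟩, ⟨1, 2, 2, 5⟩, ⟨0, 2, 2, 5⟩, ⟨1, 1, 1, 0⟩, ⟨0, 3, 3, 0⟩, ⟨1, 1, 1, 5⟩, ⟨0, 2, 2, 5⟩, ⟨1, 2, 2, 10⟩, ⟨1, 3, 3, 5⟩, ⟨1, 3, 3, 5⟩, ⟨0, 2, 2, 11⟩, ⟨1, 4, 4, 0⟩, ⟨0, 4, 4, 0⟩]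

/-- reversed class -/
def xNFzE2B3B2EzF_rNF2AzE2A2Ax3xA2A2EzAyF : List PE := [⟨0, 4, 4, 0⟩, ⟨1, 4, 4, 11⟩, ⟨1, 2, 2, 5⟩, ⟨1, 3, 3, 10⟩, ⟨0, 2, 2, 5⟩, ⟨0, 2, 2, 5⟩, ⟨1, 1, 1, 0⟩, ⟨0, 3, 3, 0⟩, ⟨1, 1, 1, 5⟩, ⟨0, 2, 2, 5⟩, ⟨0, 2, 2, 10⟩, ⟨1, 3, 3, 5⟩, ⟨0, 2, 2, 11⟩, ⟨1, 4, 4, 0⟩, ⟨0, 4, 4, 0⟩]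

/-- reversed class -/
def xNFzE2B3B2EzF_rNF2AzE2A2Ax3xA2AyEzA2F : List PE := [⟨0, 4, 4, 0⟩, ⟨1, 4, 4, 11⟩, ⟨0, 2, 2, 5⟩, ⟨1, 3, 3, 10⟩, ⟨1, 2, 2, 5⟩, ⟨0, 2, 2, 5⟩, ⟨1, 1, 1, 0⟩, ⟨0, 3, 3, 0⟩, ⟨1, 1, 1, 5⟩, ⟨0, 2, 2, 5⟩, ⟨0, 2, 2, 10⟩, ⟨1, 3, 3, 5⟩, ⟨0, 2, 2, 11⟩, ⟨1, 4, 4, 0⟩, ⟨0, 4, 4, 0⟩]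

/-- reversed class -/
def xNFzE2B3B2EzF_rNF2AzE2A2Ax3xA2AyEzAyF : List PE := [⟨0, 4, 4, 0⟩, ⟨1, 4, 4, 11⟩, ⟨1, 2, 2, 5⟩, ⟨1, 3, 3, 10⟩, ⟨1, 2, 2, 5⟩, ⟨0, 2, 2, 5⟩, ⟨1, 1, 1, 0⟩, ⟨0, 3, 3, 0⟩, ⟨1, 1, 1, 5⟩, ⟨0, 2, 2, 5⟩, ⟨0, 2, 2, 10⟩, ⟨1, 3, 3, 5⟩, ⟨0, 2, 2, 11⟩, ⟨1, 4, 4, 0⟩, ⟨0, 4, 4, 0⟩]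

/-- reversed class -/
def xNFzE2B3B2EzF_rNF2AzE2A2Ax3xA2AyEzAzF : List PE := [⟨0, 4, 4, 0⟩, ⟨1, 4, 4, 11⟩, ⟨1, 3, 3, 5⟩, ⟨1, 3, 3, 10⟩, ⟨1, 2, 2, 5⟩, ⟨0, 2, 2, 5⟩, ⟨1, 1, 1, 0⟩, ⟨0, 3, 3, 0⟩, ⟨1, 1, 1, 5⟩, ⟨0, 2, 2, 5⟩, ⟨0, 2, 2, 10⟩, ⟨1, 3, 3, 5⟩, ⟨0, 2, 2, 11⟩, ⟨1, 4, 4, 0⟩, ⟨0, 4, 4, 0⟩]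

/-- reversed class -/
def xNFzE2B3B2EzF_rNF2AzEyA2Ax3xA2A2EzAyF : List PE := [⟨0, 4, 4, 0⟩, ⟨1, 4, 4, 11⟩, ⟨1, 2, 2, 5⟩, ⟨1, 3, 3, 10⟩, ⟨0, 2, 2, 5⟩, ⟨0, 2, 2, 5⟩, ⟨1, 1, 1, 0⟩, ⟨0, 3, 3, 0⟩, ⟨1, 1, 1, 5⟩, ⟨0, 2, 2, 5⟩, ⟨1, 2, 2, 10⟩, ⟨1, 3, 3, 5⟩, ⟨0, 2, 2, 11⟩, ⟨1, 4, 4, 0⟩, ⟨0, 4, 4, 0⟩]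

/-- reversed class -/
def xNFzE2B3B2EzF_rNF2AzEyA2Ax3xA2A2EzAzF : List PE := [⟨0, 4, 4, 0⟩, ⟨1, 4, 4, 11⟩, ⟨1, 3, 3, 5⟩, ⟨1, 3, 3, 10⟩, ⟨0, 2, 2, 5⟩, ⟨0, 2, 2, 5⟩, ⟨1, 1, 1, 0⟩, ⟨0, 3, 3, 0⟩, ⟨1, 1, 1, 5⟩, ⟨0, 2, 2, 5⟩, ⟨1, 2, 2, 10⟩, ⟨1, 3, 3, 5⟩, ⟨0, 2, 2, 11⟩, ⟨1, 4, 4, 0⟩, ⟨0, 4, 4, 0⟩]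

/-- reversed class -/
def xNFzE2B3B2EzF_rNF2AzEyA2Ax3xA2AyEzAyF : List PE := [⟨0, 4, 4, 0⟩, ⟨1, 4, 4, 11⟩, ⟨1, 2, 2, 5⟩, ⟨1, 3, 3, 10⟩, ⟨1, 2, 2, 5⟩, ⟨0, 2, 2, 5⟩, ⟨1, 1, 1, 0⟩, ⟨0, 3, 3, 0⟩, ⟨1, 1, 1, 5⟩, ⟨0, 2, 2, 5⟩, ⟨1, 2, 2, 10⟩, ⟨1, 3, 3, 5⟩, ⟨0, 2, 2, 11⟩, ⟨1, 4, 4, 0⟩, ⟨0, 4, 4, 0⟩]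

/-- reversed class -/
def xNFzE2B3B2EzF_rNF2AzEyA2Ax3xA2AyEzAzF : List PE := [⟨0, 4, 4, 0⟩, ⟨1, 4, 4, 11⟩, ⟨1, 3, 3, 5⟩, ⟨1, 3, 3, 10⟩, ⟨1, 2, 2, 5⟩, ⟨0, 2, 2, 5⟩, ⟨1, 1, 1, 0⟩, ⟨0, 3, 3, 0⟩, ⟨1, 1, 1, 5⟩, ⟨0, 2, 2, 5⟩, ⟨1, 2, 2, 10⟩, ⟨1, 3, 3, 5⟩, ⟨0, 2, 2, 11⟩, ⟨1, 4, 4, 0⟩, ⟨0, 4, 4, 0⟩]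

/-- reversed class -/
def xNFzE2B3B2EzF_rNFyA2AzE2A2Ax3xA2A2EzAzAyF : List PE := [⟨0, 4, 4, 0⟩, ⟨1, 4, 4, 11⟩, ⟨1, 2, 2, 5⟩, ⟨1, 3, 3, 5⟩, ⟨1, 3, 3, 10⟩, ⟨0, 2, 2, 5⟩, ⟨0, 2, 2, 5⟩, ⟨1, 1, 1, 0⟩, ⟨0, 3, 3, 0⟩, ⟨1, 1, 1, 5⟩, ⟨0, 2, 2, 5⟩, ⟨0, 2, 2, 10⟩, ⟨1, 3, 3, 5⟩, ⟨0, 2, 2, 5⟩, ⟨1, 2, 2, 11⟩, ⟨1, 4, 4, 0⟩, ⟨0, 4, 4, 0⟩]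

/-- reversed class -/
def xNFzE2B3B2EzF_rNFzAzAzE2A2Ax3xA2A2EzA2AyF : List PE := [⟨0, 4, 4, 0⟩, ⟨1, 4, 4, 11⟩, ⟨1, 2, 2, 5⟩, ⟨0, 2, 2, 5⟩, ⟨1, 3, 3, 10⟩, ⟨0, 2, 2, 5⟩, ⟨0, 2, 2, 5⟩, ⟨1, 1, 1, 0⟩, ⟨0, 3, 3, 0⟩, ⟨1, 1, 1, 5⟩, ⟨0, 2, 2, 5⟩, ⟨0, 2, 2, 10⟩, ⟨1, 3, 3, 5⟩, ⟨1, 3, 3, 5⟩, ⟨1, 3, 3, 11⟩, ⟨1, 4, 4, 0⟩, ⟨0, 4, 4, 0⟩]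

/-- reversed class -/
def xNFzE2B3B2EzF_rNFzAzAzEyA2Ax3xA2AyEzAzAyF : List PE := [⟨0, 4, 4, 0⟩, ⟨1, 4, 4, 11⟩, ⟨1, 2, 2, 5⟩, ⟨1, 3, 3, 5⟩, ⟨1, 3, 3, 10⟩, ⟨1, 2, 2, 5⟩, ⟨0, 2, 2, 5⟩, ⟨1, 1, 1, 0⟩, ⟨0, 3, 3, 0⟩, ⟨1, 1, 1, 5⟩, ⟨0, 2, 2, 5⟩, ⟨1, 2, 2, 10⟩, ⟨1, 3, 3, 5⟩, ⟨1, 3, 3, 5⟩, ⟨1, 3, 3, 11⟩, ⟨1, 4, 4, 0⟩, ⟨0, 4, 4, 0⟩]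

/-- reversed class -/
def xNFzE2B3B2EzF_rNFzAzE2A2Ax3xA2A2EzAyF : List PE := [⟨0, 4, 4, 0⟩, ⟨1, 4, 4, 11⟩, ⟨1, 2, 2, 5⟩, ⟨1, 3, 3, 10⟩, ⟨0, 2, 2, 5⟩, ⟨0, 2, 2, 5⟩, ⟨1, 1, 1, 0⟩, ⟨0, 3, 3, 0⟩, ⟨1, 1, 1, 5⟩, ⟨0, 2, 2, 5⟩, ⟨0, 2, 2, 10⟩, ⟨1, 3, 3, 5⟩, ⟨1, 3, 3, 11⟩, ⟨1, 4, 4, 0⟩, ⟨0, 4, 4, 0⟩]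

/-- reversed class -/
def xNFzE2B3B2EzF_rNFyAzE2A2Ax3xA2AyEzAyF : List PE := [⟨0, 4, 4, 0⟩, ⟨1, 4, 4, 11⟩, ⟨1, 2, 2, 5⟩, ⟨1, 3, 3, 10⟩, ⟨1, 2, 2, 5⟩, ⟨0, 2, 2, 5⟩, ⟨1, 1, 1, 0⟩, ⟨0, 3, 3, 0⟩, ⟨1, 1, 1, 5⟩, ⟨0, 2, 2, 5⟩, ⟨0, 2, 2, 10⟩, ⟨1, 3, 3, 5⟩, ⟨1, 2, 2, 11⟩, ⟨1, 4, 4, 0⟩, ⟨0, 4, 4, 0⟩]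

/-- reversed class -/
def xNFzE2B3B2EzF_rNFyAzE2A2Ax3xA2AyEzAzF : List PE := [⟨0, 4, 4, 0⟩, ⟨1, 4, 4, 11⟩, ⟨1, 3, 3, 5⟩, ⟨1, 3, 3, 10⟩, ⟨1, 2, 2, 5⟩, ⟨0, 2, 2, 5⟩, ⟨1, 1, 1, 0⟩, ⟨0, 3, 3, 0⟩, ⟨1, 1, 1, 5⟩, ⟨0, 2, 2, 5⟩, ⟨0, 2, 2, 10⟩, ⟨1, 3, 3, 5⟩, ⟨1, 2, 2, 11⟩, ⟨1, 4, 4, 0⟩, ⟨0, 4, 4, 0⟩]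

/-- reversed class -/
def xNFzE2B3B2EzF_rNFyAzEyA2Ax3xA2A2EzAzF : List PE := [⟨0, 4, 4, 0⟩, ⟨1, 4, 4, 11⟩, ⟨1, 3, 3, 5⟩, ⟨1, 3, 3, 10⟩, ⟨0, 2, 2, 5⟩, ⟨0, 2, 2, 5⟩, ⟨1, 1, 1, 0⟩, ⟨0, 3, 3, 0⟩, ⟨1, 1, 1, 5⟩, ⟨0, 2, 2, 5⟩, ⟨1, 2, 2, 10⟩, ⟨1, 3, 3, 5⟩, ⟨1, 2, 2, 11⟩, ⟨1, 4, 4, 0⟩, ⟨0, 4, 4, 0⟩]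

/-- reversed class -/
def xNFzE2B3B2EzF_rNFyAzEyA2Ax3xA2AyEzAzF : List PE := [⟨0, 4, 4, 0⟩, ⟨1, 4, 4, 11⟩, ⟨1, 3, 3, 5⟩, ⟨1, 3, 3, 10⟩, ⟨1, 2, 2, 5⟩, ⟨0, 2, 2, 5⟩, ⟨1, 1, 1, 0⟩, ⟨0, 3, 3, 0⟩, ⟨1, 1, 1, 5⟩, ⟨0, 2, 2, 5⟩, ⟨1, 2, 2, 10⟩, ⟨1, 3, 3, 5⟩, ⟨1, 2, 2, 11⟩, ⟨1, 4, 4, 0⟩, ⟨0, 4, 4, 0⟩]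

/-- reversed class -/
def xNFzE2B3B2EzF_rNFzA2Ax3xA2A2EzF : List PE := [⟨0, 4, 4, 0⟩, ⟨1, 4, 4, 11⟩, ⟨1, 3, 3, 10⟩, ⟨0, 2, 2, 5⟩, ⟨0, 2, 2, 5⟩, ⟨1, 1, 1, 0⟩, ⟨0, 3, 3, 0⟩, ⟨1, 1, 1, 5⟩, ⟨0, 2, 2, 5⟩, ⟨1, 3, 3, 11⟩, ⟨1, 4, 4, 0⟩, ⟨0, 4, 4, 0⟩]

/-- reversed class -/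
def xNFzE2B3B2EzF_rNFzA2Ax3xA2AyEzF : List PE := [⟨0, 4, 4, 0⟩, ⟨1, 4, 4, 11⟩, ⟨1, 3, 3, 10⟩, ⟨1, 2, 2, 5⟩, ⟨0, 2, 2, 5⟩, ⟨1, 1, 1, 0⟩, ⟨0, 3, 3, 0⟩, ⟨1, 1, 1, 5⟩, ⟨0, 2, 2, 5⟩, ⟨1, 3, 3, 11⟩, ⟨1, 4, 4, 0⟩, ⟨0, 4, 4, 0⟩]

/-- reversed class -/
def xNFzE2B3B2EzF_rNFzA2AzE2B3B2EzF : List PE := [⟨0, 4, 4, 0⟩, ⟨1, 4, 4, 11⟩, ⟨1, 3, 3, 10⟩, ⟨0, 2, 2, 6⟩, ⟨0, 3, 3, 6⟩, ⟨0, 2, 2, 10⟩, ⟨1, 3, 3, 5⟩, ⟨0, 2, 2, 5⟩, ⟨1, 3, 3, 11⟩, ⟨1, 4, 4, 0⟩, ⟨0, 4, 4, 0⟩]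

/-- reversed class -/
def xNFzE2B3B2EzF_rNFzAzE2A2Ax3xA2AyEzAzF : List PE := [⟨0, 4, 4, 0⟩, ⟨1, 4, 4, 11⟩, ⟨1, 3, 3, 5⟩, ⟨1, 3, 3, 10⟩, ⟨1, 2, 2, 5⟩, ⟨0, 2, 2, 5⟩, ⟨1, 1, 1, 0⟩, ⟨0, 3, 3, 0⟩, ⟨1, 1, 1, 5⟩, ⟨0, 2, 2, 5⟩, ⟨0, 2, 2, 10⟩, ⟨1, 3, 3, 5⟩, ⟨1, 3, 3, 11⟩, ⟨1, 4, 4, 0⟩, ⟨0, 4, 4, 0⟩]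

/-- reversed class -/
def xNFzE2B3B2EzF_rNFzE2ByAx3xA2EzF : List PE := [⟨0, 4, 4, 0⟩, ⟨1, 4, 4, 11⟩, ⟨1, 3, 3, 10⟩, ⟨0, 2, 2, 5⟩, ⟨1, 1, 1, 0⟩, ⟨0, 3, 3, 0⟩, ⟨1, 1, 1, 5⟩, ⟨1, 2, 2, 6⟩, ⟨0, 2, 2, 10⟩, ⟨1, 3, 3, 11⟩, ⟨1, 4, 4, 0⟩, ⟨0, 4, 4, 0⟩]

/-- reversed class -/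
def xNFzE2B3B2EzF_rNFzE2Bx3yB2EzF : List PE := [⟨0, 4, 4, 0⟩, ⟨1, 4, 4, 11⟩, ⟨1, 3, 3, 10⟩, ⟨0, 2, 2, 6⟩, ⟨1, 2, 2, 0⟩, ⟨0, 3, 3, 0⟩, ⟨1, 1, 1, 6⟩, ⟨0, 2, 2, 10⟩, ⟨1, 3, 3, 11⟩, ⟨1, 4, 4, 0⟩, ⟨0, 4, 4, 0⟩]

/-- reversed class -/
def xNF3F_rNE3F : List PE := [⟨0, 4, 4, 0⟩, ⟨1, 4, 4, 11⟩, ⟨0, 3, 3, 10⟩, ⟨1, 4, 4, 0⟩, ⟨0, 4, 4, 0⟩]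

/-- reversed class -/
def xNF3F_rNFzB3F : List PE := [⟨0, 4, 4, 0⟩, ⟨1, 4, 4, 11⟩, ⟨0, 3, 3, 6⟩, ⟨1, 3, 3, 11⟩, ⟨1, 4, 4, 0⟩, ⟨0, 4, 4, 0⟩]


end MPb6P
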