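import Pool.Agent.Lib.MP_b6d339_lc.Cw.YE2A3xI3AyB2EzAzAzF
import Pool.Agent.Lib.MP_b6d339_lc.Cw.XL
import Pool.Agent.Lib.MP_b6d339_lc.Cw.T13
import Pool.Agent.Lib.MP_b6d339_lc.Cw.T17
import Pool.Agent.Lib.MP_b6d339_lc.Cw.T21
import Pool.Agent.Lib.MP_b6d339_lc.Cw.T22
import Pool.Agent.Lib.MP_b6d339_lc.Cw.T23
import Pool.Agent.Lib.MP_b6d339_lc.Cw.T24
import Pool.Agent.Lib.MP_b6d339_lc.Cw.T25
import Pool.Agent.Lib.MP_b6d339_lc.Cw.T26
import Pool.Agent.Lib.MP_b6d339_lc.Cw.T27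
import Pool.Agent.Lib.MP_b6d339_lc.Cw.T30
import Pool.Agent.Lib.MP_b6d339_lc.Cw.T31
import Pool.Agent.Lib.MP_b6d339_lc.Cw.T32
import Pool.Agent.Lib.MP_b6d339_lc.Cw.T33
import Pool.Agent.Lib.MP_b6d339_lc.Cw.T35
import Pool.Agent.Lib.MP_b6d339_lc.Cw.T4
import Pool.Agent.Lib.MP_b6d339_lc.Cw.T5
import Pool.Agent.Lib.MP_b6d339_lc.Cw.T6
import Pool.Agent.Lib.MP_b6d339_lc.Cw.T9

/-!
# Erdős 592, three levels: items
-/

namespace MPb6P

noncomputable def iiNE2A3xI3AyB2EzAzAzF : BT Itm := (.node (.node (.node (.node (.node (.node (.node (.leaf (.bwd 0 13 tp2056.df)) (.leaf (.bwd 13 35 tp2590.df))) (.leaf (.fwd 48 19 tp2462.df))) (.node (.node (.leaf (.fwd 67 18 tp2049.df)) (.leaf (.fwd 85 29 tp477.df))) (.leaf (.bwd 114 39 tp2866.df)))) (.node (.node (.node (.leaf (.bwd 153 11 tp1420.df)) (.leaf (.bwd 164 21 tp420.df))) (.leaf (.fwd 185 10 tp785.df))) (.node (.leaf (.fwd 195 26 tp1426.df))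 (.leaf (.fwd 221 33 tp2640.df))))) (.node (.node (.node (.node (.leaf (.fwd 254 17 tp1920.df)) (.leaf (.fwd 271 23 tp377.df))) (.leaf (.bwd 294 24 tp2099.df))) (.node (.node (.leaf (.fwd 318 21 tp2045.df)) (.leaf (.fwd 339 19 tp2642.df))) (.leaf (.bwd 358 30 tp2615.df)))) (.node (.node (.node (.leaf (.bwd 388 48 tp375.df)) (.leaf (.fwd 436 48 tp537.df))) (.leaf (.bwd 484 35 tp359.df))) (.node (.leaf (.fwd 519 25 tp433.df)) (.leaf (.bwd 544 25 tp1732.df)))))) (.node (.node (.node (.node (.node (.leaf (.fwd 569 32 tp2054.df)) (.leaf (.bwd 601 20 tp2181.df))) (.leaf (.bwd 621 43 tp1813.df))) (.node (.node (.leaf (.fwd 664 24 tp2048.df)) (.leaf (.fwd 688 18 tp1995.df))) (.leaf (.bwd 706 20 tp2119.df)))) (.node (.node (.node (.leaf (.fwd 726 21 tp2141.df)) (.leaf (.bwd 747 28 tp2052.df))) (.leaf (.fwd 775 29 tp2196.df))) (.node (.leaf (.fwd 804 23 tp1897.df)) (.leaf (.fwd 827 33 tp2131.df)))))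 (.node (.node (.node (.node (.leaf (.fwd 860 30 tp2128.df)) (.leaf (.fwd 890 38 tp2132.df))) (.leaf (.fwd 928 22 tp2683.df))) (.node (.leaf (.bwd 950 21 tp2067.df)) (.leaf (.bwd 971 23 tp2075.df)))) (.node (.node (.node (.leaf (.bwd 994 25 tp2203.df)) (.leaf (.bwd 1019 37 tp2467.df))) (.leaf (.bwd 1056 32 tp2140.df))) (.node (.leaf (.bwd 1088 45 tp2874.df)) (.leaf (.pat 1133 pq177))))))) (.node (.node (.node (.node (.node (.node (.leaf (.pat 1185 pq178)) (.leaf (.pat 1233 pq179))) (.leaf (.pat 1279 pq180))) (.node (.node (.leaf (.pat 1329 pq181)) (.leaf (.pat 1381 pq182))) (.leaf (.pat 1435 pq183)))) (.node (.node (.node (.leaf (.pat 1489 pq184)) (.leaf (.pat 1541 pq185))) (.leaf (.pat 1593 pq186))) (.node (.leaf (.pat 1639 pq187)) (.leaf (.pat 1687 pq188))))) (.node (.node (.node (.node (.leaf (.pat 1743 pq189)) (.leaf (.pat 1791 pq190))) (.leaf (.pat 1837 pq191))) (.node (.leaf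 (.pat 1889 pq192)) (.leaf (.pat 1943 pq193)))) (.node (.node (.node (.leaf (.pat 1999 pq194)) (.leaf (.bwd 2045 42 tp1099.df))) (.leaf (.fwd 2087 42 tp2687.df))) (.node (.leaf (.bwd 2129 52 tp2875.df)) (.leaf (.bwd 2181 31 tp2876.df)))))) (.node (.node (.node (.node (.node (.leaf (.fwd 2212 37 tp2008.df)) (.leaf (.bwd 2249 43 tp1941.df))) (.leaf (.fwd 2292 33 tp2877.df))) (.node (.node (.leaf (.pat 2325 pq195)) (.leaf (.pat 2369 pq196))) (.leaf (.pat 2415 pq197)))) (.node (.node (.node (.leaf (.pat 2467 pq198)) (.leaf (.fwd 2515 21 tp1733.df))) (.leaf (.fwd 2536 23 tp725.df))) (.node (.leaf (.bwd 2559 39 tp2878.df)) (.leaf (.bwd 2598 25 tp2879.df))))) (.node (.node (.node (.node (.leaf (.pat 2623 pq199)) (.leaf (.pat 2671 pq200))) (.leaf (.pat 2721 pq201))) (.node (.leaf (.pat 2767 pq202)) (.leaf (.pat 2821 pq203)))) (.node (.node (.node (.leaf (.pat 2873 pq204)) (.leaf (.pat 2921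 pq205))) (.leaf (.pat 2973 pq206))) (.node (.leaf (.bwd 3021 14 tp2060.df)) (.leaf (.bwd 3035 16 tp2715.df))))))))

theorem iiNE2A3xI3AyB2EzAzAzF_c : iiNE2A3xI3AyB2EzAzAzF.all (itB (ng 52 nnNE2A3xI3AyB2EzAzAzF)) = true := by decide +kernel
theorem nbNE2A3xI3AyB2EzAzAzF : nbB 52 3103 nnNE2A3xI3AyB2EzAzAzF = true := by decide +kernel
theorem topNE2A3xI3AyB2EzAzAzF : topY 3103 ttNE2A3xI3AyB2EzAzAzF ceNE2A3xI3AyB2EzAzAzF xNE2A3xI3AyB2EzAzAzF iiNE2A3xI3AyB2EzAzAzF = true := by decide +kernel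

end MPb6P
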