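import Pool.Agent.Lib.MP_b6d339_lc.Cw.YE2B3B2H2BzIzAyB3B2EzF
import Pool.Agent.Lib.MP_b6d339_lc.Cw.XL
import Pool.Agent.Lib.MP_b6d339_lc.Cw.T13
import Pool.Agent.Lib.MP_b6d339_lc.Cw.T14
import Pool.Agent.Lib.MP_b6d339_lc.Cw.T16
import Pool.Agent.Lib.MP_b6d339_lc.Cw.T17
import Pool.Agent.Lib.MP_b6d339_lc.Cw.T19
import Pool.Agent.Lib.MP_b6d339_lc.Cw.T20
import Pool.Agent.Lib.MP_b6d339_lc.Cw.T21
import Pool.Agent.Lib.MP_b6d339_lc.Cw.T22
import Pool.Agent.Lib.MP_b6d339_lc.Cw.T23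
import Pool.Agent.Lib.MP_b6d339_lc.Cw.T27
import Pool.Agent.Lib.MP_b6d339_lc.Cw.T28
import Pool.Agent.Lib.MP_b6d339_lc.Cw.T3
import Pool.Agent.Lib.MP_b6d339_lc.Cw.T30
import Pool.Agent.Lib.MP_b6d339_lc.Cw.T31
import Pool.Agent.Lib.MP_b6d339_lc.Cw.T35
import Pool.Agent.Lib.MP_b6d339_lc.Cw.T36
import Pool.Agent.Lib.MP_b6d339_lc.Cw.T4
import Pool.Agent.Lib.MP_b6d339_lc.Cw.T5
import Pool.Agent.Lib.MP_b6d339_lc.Cw.T6
import Pool.Agent.Lib.MP_b6d339_lc.Cw.T8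

/-!
# Erdős 592, three levels: items
-/

namespace MPb6P

noncomputable def iiNE2B3B2H2BzIzAyB3B2EzF : BT Itm := (.node (.node (.node (.node (.node (.node (.node (.leaf (.fwd 0 13 tp1762.df)) (.leaf (.fwd 13 6 tp1576.df))) (.node (.leaf (.fwd 19 21 tp295.df)) (.leaf (.bwd 40 11 tp1768.df)))) (.node (.node (.leaf (.fwd 51 61 tp2205.df)) (.leaf (.bwd 112 29 tp329.df))) (.node (.leaf (.bwd 141 25 tp361.df)) (.leaf (.fwd 166 28 tp1766.df))))) (.node (.node (.node (.leaf (.bwd 194 13 tp1771.df)) (.leaf (.bwd 207 34 tp2249.df))) (.node (.leaf (.fwd 241 27 tp1763.df)) (.leaf (.bwd 268 34 tp1664.df)))) (.node (.node (.leaf (.bwd 302 29 tp1765.df)) (.leaf (.fwd 331 37 tp2953.df))) (.node (.leaf (.fwd 368 49 tp1812.df)) (.leaf (.bwd 417 19 tp1798.df)))))) (.node (.node (.node (.node (.leaf (.fwd 436 16 tp2254.df)) (.leaf (.bwd 452 35 tp1794.df))) (.node (.leaf (.fwd 487 40 tp1658.df))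 (.leaf (.fwd 527 25 tp1799.df)))) (.node (.node (.leaf (.fwd 552 42 tp1807.df)) (.leaf (.bwd 594 38 tp2954.df))) (.node (.leaf (.fwd 632 35 tp1760.df)) (.leaf (.fwd 667 49 tp2211.df))))) (.node (.node (.node (.leaf (.fwd 716 44 tp2255.df)) (.leaf (.fwd 760 31 tp2229.df))) (.node (.leaf (.fwd 791 31 tp2233.df)) (.leaf (.fwd 822 41 tp2209.df)))) (.node (.node (.leaf (.fwd 863 20 tp2955.df)) (.leaf (.fwd 883 12 tp1653.df))) (.node (.leaf (.fwd 895 21 tp656.df)) (.leaf (.fwd 916 12 tp1833.df))))))) (.node (.node (.node (.node (.node (.leaf (.bwd 928 14 tp1782.df)) (.leaf (.fwd 942 24 tp2252.df))) (.node (.leaf (.bwd 966 18 tp1821.df)) (.leaf (.bwd 984 23 tp1785.df)))) (.node (.node (.leaf (.fwd 1007 15 tp1787.df)) (.leaf (.bwd 1022 21 tp1577.df))) (.node (.leaf (.bwd 1043 51 tp1792.df)) (.leaf (.bwd 1094 23 tp1580.df))))) (.node (.node (.node (.leaf (.fwd 1117 15 tp1786.df))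 (.leaf (.fwd 1132 36 tp1764.df))) (.node (.leaf (.bwd 1168 19 tp2256.df)) (.leaf (.bwd 1187 12 tp1803.df)))) (.node (.node (.leaf (.bwd 1199 27 tp2253.df)) (.leaf (.fwd 1226 42 tp1769.df))) (.node (.leaf (.fwd 1268 23 tp1870.df)) (.leaf (.fwd 1291 51 tp1809.df)))))) (.node (.node (.node (.node (.leaf (.fwd 1342 10 tp1783.df)) (.leaf (.fwd 1352 22 tp2260.df))) (.node (.leaf (.bwd 1374 34 tp2261.df)) (.leaf (.fwd 1408 29 tp2250.df)))) (.node (.node (.leaf (.fwd 1437 34 tp2956.df)) (.leaf (.fwd 1471 37 tp2957.df))) (.node (.leaf (.bwd 1508 9 tp1588.df)) (.leaf (.fwd 1517 21 tp1817.df))))) (.node (.node (.node (.leaf (.bwd 1538 31 tp1820.df)) (.leaf (.fwd 1569 33 tp1818.df))) (.node (.leaf (.fwd 1602 33 tp2206.df)) (.leaf (.bwd 1635 24 tp2215.df)))) (.node (.node (.leaf (.fwd 1659 21 tp1793.df)) (.leaf (.fwd 1680 43 tp1776.df))) (.node (.leaf (.fwd 1723 41 tp2958.df)) (.leaf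 (.bwd 1764 36 tp2228.df)))))))) (.node (.node (.node (.node (.node (.node (.leaf (.fwd 1800 52 tp2852.df)) (.leaf (.fwd 1852 28 tp2959.df))) (.node (.leaf (.fwd 1880 48 tp2234.df)) (.leaf (.fwd 1928 59 tp2207.df)))) (.node (.node (.leaf (.fwd 1987 58 tp2848.df)) (.leaf (.fwd 2045 25 tp2850.df))) (.node (.leaf (.fwd 2070 24 tp2213.df)) (.leaf (.bwd 2094 13 tp1824.df))))) (.node (.node (.node (.leaf (.fwd 2107 23 tp2960.df)) (.leaf (.fwd 2130 26 tp2262.df))) (.node (.leaf (.fwd 2156 52 tp2225.df)) (.leaf (.bwd 2208 62 tp2851.df)))) (.node (.node (.leaf (.fwd 2270 37 tp2216.df)) (.leaf (.fwd 2307 29 tp2214.df))) (.node (.leaf (.fwd 2336 43 tp2264.df)) (.leaf (.bwd 2379 42 tp2574.df)))))) (.node (.node (.node (.node (.leaf (.fwd 2421 25 tp1773.df)) (.leaf (.fwd 2446 33 tp2210.df))) (.node (.leaf (.fwd 2479 40 tp1829.df)) (.leaf (.fwd 2519 10 tp1781.df)))) (.node (.node (.leaf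 (.bwd 2529 23 tp292.df)) (.leaf (.fwd 2552 9 tp1588.df))) (.node (.leaf (.bwd 2561 49 tp1832.df)) (.leaf (.bwd 2610 28 tp2265.df))))) (.node (.node (.node (.leaf (.bwd 2638 6 tp1576.df)) (.leaf (.fwd 2644 23 tp1770.df))) (.node (.leaf (.bwd 2667 26 tp2266.df)) (.leaf (.fwd 2693 16 tp1354.df)))) (.node (.node (.leaf (.fwd 2709 16 tp2267.df)) (.leaf (.bwd 2725 23 tp2268.df))) (.node (.leaf (.fwd 2748 48 tp2324.df)) (.leaf (.fwd 2796 39 tp2269.df))))))) (.node (.node (.node (.node (.node (.leaf (.fwd 2835 23 tp292.df)) (.leaf (.bwd 2858 40 tp2961.df))) (.node (.leaf (.bwd 2898 23 tp366.df)) (.leaf (.fwd 2921 24 tp2218.df)))) (.node (.node (.leaf (.bwd 2945 26 tp514.df)) (.leaf (.fwd 2971 28 tp2962.df))) (.node (.leaf (.fwd 2999 33 tp1848.df)) (.leaf (.fwd 3032 54 tp1841.df))))) (.node (.node (.node (.leaf (.bwd 3086 34 tp2272.df)) (.leaf (.fwd 3120 32 tp407.df))) (.node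 (.leaf (.fwd 3152 21 tp1388.df)) (.leaf (.fwd 3173 36 tp1182.df)))) (.node (.node (.leaf (.fwd 3209 32 tp2230.df)) (.leaf (.fwd 3241 35 tp359.df))) (.node (.leaf (.bwd 3276 24 tp354.df)) (.leaf (.bwd 3300 41 tp1611.df)))))) (.node (.node (.node (.node (.leaf (.bwd 3341 18 tp1158.df)) (.leaf (.bwd 3359 37 tp2271.df))) (.node (.leaf (.fwd 3396 46 tp1849.df)) (.leaf (.bwd 3442 15 tp2309.df)))) (.node (.node (.leaf (.fwd 3457 47 tp2963.df)) (.leaf (.bwd 3504 25 tp1855.df))) (.node (.leaf (.bwd 3529 44 tp2964.df)) (.leaf (.bwd 3573 35 tp2306.df))))) (.node (.node (.node (.leaf (.fwd 3608 38 tp2247.df)) (.leaf (.fwd 3646 30 tp1105.df))) (.node (.leaf (.bwd 3676 30 tp2270.df)) (.leaf (.fwd 3706 44 tp2966.df)))) (.node (.node (.leaf (.fwd 3750 40 tp2967.df)) (.leaf (.bwd 3790 25 tp2501.df))) (.leaf (.bwd 3815 18 tp1874.df))))))))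

theorem iiNE2B3B2H2BzIzAyB3B2EzF_c : iiNE2B3B2H2BzIzAyB3B2EzF.all (itB (ng 62 nnNE2B3B2H2BzIzAyB3B2EzF)) = true := by decide +kernel
theorem nbNE2B3B2H2BzIzAyB3B2EzF : nbB 62 3895 nnNE2B3B2H2BzIzAyB3B2EzF = true := by decide +kernel
theorem topNE2B3B2H2BzIzAyB3B2EzF : topY 3895 ttNE2B3B2H2BzIzAyB3B2EzF ceNE2B3B2H2BzIzAyB3B2EzF xNE2B3B2H2BzIzAyB3B2EzF iiNE2B3B2H2BzIzAyB3B2EzF = true := by decide +kernel

end MPb6P
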