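import Pool.Agent.Lib.MP_b6d339_lc.Cw.YE2B3B2H2BzIzAyB3H3B2EzF
import Pool.Agent.Lib.MP_b6d339_lc.Cw.XL
import Pool.Agent.Lib.MP_b6d339_lc.Cw.T17
import Pool.Agent.Lib.MP_b6d339_lc.Cw.T19
import Pool.Agent.Lib.MP_b6d339_lc.Cw.T20
import Pool.Agent.Lib.MP_b6d339_lc.Cw.T21
import Pool.Agent.Lib.MP_b6d339_lc.Cw.T22
import Pool.Agent.Lib.MP_b6d339_lc.Cw.T23
import Pool.Agent.Lib.MP_b6d339_lc.Cw.T3
import Pool.Agent.Lib.MP_b6d339_lc.Cw.T4
import Pool.Agent.Lib.MP_b6d339_lc.Cw.T5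
import Pool.Agent.Lib.MP_b6d339_lc.Cw.T6
import Pool.Agent.Lib.MP_b6d339_lc.Cw.T7
import Pool.Agent.Lib.MP_b6d339_lc.Cw.T8

/-!
# Erdős 592, three levels: items
-/

namespace MPb6P

noncomputable def iiNE2B3B2H2BzIzAyB3H3B2EzF : BT Itm := (.node (.node (.node (.node (.node (.node (.node (.node (.leaf (.fwd 0 35 tp1760.df)) (.leaf (.fwd 35 33 tp1761.df))) (.leaf (.fwd 68 13 tp1762.df))) (.node (.leaf (.fwd 81 27 tp1763.df)) (.leaf (.fwd 108 36 tp1764.df)))) (.node (.node (.leaf (.bwd 144 29 tp1765.df)) (.leaf (.fwd 173 21 tp295.df))) (.node (.leaf (.bwd 194 29 tp329.df)) (.leaf (.fwd 223 28 tp1766.df))))) (.node (.node (.node (.node (.leaf (.bwd 251 25 tp361.df)) (.leaf (.bwd 276 31 tp1737.df))) (.leaf (.fwd 307 49 tp1767.df))) (.node (.leaf (.bwd 356 11 tp1768.df)) (.leaf (.fwd 367 42 tp1769.df)))) (.node (.node (.leaf (.fwd 409 23 tp1770.df)) (.leaf (.bwd 432 13 tp1771.df)))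 (.node (.leaf (.fwd 445 41 tp1772.df)) (.leaf (.fwd 486 25 tp1773.df)))))) (.node (.node (.node (.node (.node (.leaf (.fwd 511 21 tp656.df)) (.leaf (.fwd 532 20 tp1774.df))) (.leaf (.bwd 552 25 tp1732.df))) (.node (.leaf (.fwd 577 13 tp1775.df)) (.leaf (.fwd 590 43 tp1776.df)))) (.node (.node (.leaf (.bwd 633 20 tp1777.df)) (.leaf (.bwd 653 23 tp1778.df))) (.node (.leaf (.bwd 676 14 tp1779.df)) (.leaf (.bwd 690 26 tp1780.df))))) (.node (.node (.node (.node (.leaf (.fwd 716 10 tp1781.df)) (.leaf (.bwd 726 9 tp1588.df))) (.leaf (.bwd 735 14 tp1782.df))) (.node (.leaf (.fwd 749 10 tp1783.df)) (.leaf (.bwd 759 19 tp1784.df)))) (.node (.node (.leaf (.bwd 778 23 tp1785.df)) (.leaf (.fwd 801 15 tp1786.df))) (.node (.leaf (.fwd 816 6 tp1576.df)) (.leaf (.fwd 822 15 tp1787.df))))))) (.node (.node (.node (.node (.node (.node (.leaf (.fwd 837 29 tp1788.df)) (.leaf (.fwd 866 21 tp1789.df)))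 (.leaf (.fwd 887 26 tp1790.df))) (.node (.leaf (.fwd 913 14 tp1791.df)) (.leaf (.bwd 927 51 tp1792.df)))) (.node (.node (.leaf (.fwd 978 21 tp1793.df)) (.leaf (.bwd 999 35 tp1794.df))) (.node (.leaf (.bwd 1034 23 tp1580.df)) (.leaf (.bwd 1057 45 tp1795.df))))) (.node (.node (.node (.node (.leaf (.fwd 1102 21 tp1796.df)) (.leaf (.bwd 1123 56 tp1797.df))) (.leaf (.bwd 1179 19 tp1798.df))) (.node (.leaf (.fwd 1198 25 tp1799.df)) (.leaf (.bwd 1223 40 tp1800.df)))) (.node (.node (.leaf (.bwd 1263 29 tp1801.df)) (.leaf (.fwd 1292 51 tp1802.df))) (.node (.leaf (.bwd 1343 12 tp1803.df)) (.leaf (.bwd 1355 36 tp1804.df)))))) (.node (.node (.node (.node (.node (.leaf (.fwd 1391 23 tp1805.df)) (.leaf (.fwd 1414 47 tp1806.df))) (.leaf (.fwd 1461 42 tp1807.df))) (.node (.leaf (.bwd 1503 18 tp1808.df)) (.leaf (.fwd 1521 51 tp1809.df)))) (.node (.node (.leaf (.fwd 1572 51 tp1810.df)) (.leaf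 (.bwd 1623 29 tp1811.df))) (.node (.leaf (.fwd 1652 49 tp1812.df)) (.leaf (.bwd 1701 43 tp1813.df))))) (.node (.node (.node (.leaf (.bwd 1744 34 tp1664.df)) (.leaf (.fwd 1778 20 tp1814.df))) (.node (.leaf (.fwd 1798 40 tp1658.df)) (.leaf (.bwd 1838 20 tp1815.df)))) (.node (.node (.leaf (.fwd 1858 46 tp1816.df)) (.leaf (.fwd 1904 21 tp1817.df))) (.node (.leaf (.fwd 1925 33 tp1818.df)) (.leaf (.bwd 1958 26 tp1819.df)))))))) (.node (.node (.node (.node (.node (.node (.node (.leaf (.bwd 1984 31 tp1820.df)) (.leaf (.bwd 2015 18 tp1821.df))) (.leaf (.fwd 2033 37 tp1822.df))) (.node (.leaf (.bwd 2070 17 tp1823.df)) (.leaf (.bwd 2087 13 tp1824.df)))) (.node (.node (.leaf (.fwd 2100 15 tp1825.df)) (.leaf (.fwd 2115 30 tp1826.df))) (.node (.leaf (.bwd 2145 60 tp1827.df)) (.leaf (.bwd 2205 58 tp1828.df))))) (.node (.node (.node (.node (.leaf (.fwd 2263 40 tp1829.df)) (.leaf (.fwd 2303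 46 tp1830.df))) (.leaf (.bwd 2349 14 tp1831.df))) (.node (.leaf (.bwd 2363 49 tp1832.df)) (.leaf (.fwd 2412 12 tp1833.df)))) (.node (.node (.leaf (.bwd 2424 24 tp1834.df)) (.leaf (.bwd 2448 23 tp292.df))) (.node (.leaf (.bwd 2471 23 tp366.df)) (.leaf (.fwd 2494 21 tp1835.df)))))) (.node (.node (.node (.node (.node (.leaf (.fwd 2515 31 tp1836.df)) (.leaf (.fwd 2546 21 tp1388.df))) (.leaf (.fwd 2567 41 tp1837.df))) (.node (.leaf (.bwd 2608 38 tp1838.df)) (.leaf (.fwd 2646 50 tp1839.df)))) (.node (.node (.leaf (.bwd 2696 19 tp1840.df)) (.leaf (.fwd 2715 54 tp1841.df))) (.node (.leaf (.fwd 2769 36 tp1606.df)) (.leaf (.fwd 2805 44 tp1842.df))))) (.node (.node (.node (.leaf (.fwd 2849 47 tp1843.df)) (.leaf (.bwd 2896 16 tp1844.df))) (.node (.leaf (.bwd 2912 6 tp1576.df)) (.leaf (.fwd 2918 20 tp1845.df)))) (.node (.node (.leaf (.fwd 2938 26 tp1846.df)) (.leaf (.fwd 2964 51 tp1847.df)))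 (.node (.leaf (.fwd 3015 33 tp1848.df)) (.leaf (.fwd 3048 46 tp1849.df))))))) (.node (.node (.node (.node (.node (.node (.leaf (.fwd 3094 19 tp1850.df)) (.leaf (.fwd 3113 33 tp1851.df))) (.leaf (.fwd 3146 46 tp1852.df))) (.node (.leaf (.bwd 3192 17 tp608.df)) (.leaf (.bwd 3209 58 tp1853.df)))) (.node (.node (.leaf (.bwd 3267 50 tp1695.df)) (.leaf (.bwd 3317 31 tp346.df))) (.node (.leaf (.fwd 3348 17 tp1854.df)) (.leaf (.bwd 3365 25 tp1855.df))))) (.node (.node (.node (.node (.leaf (.bwd 3390 49 tp1856.df)) (.leaf (.fwd 3439 29 tp1857.df))) (.leaf (.fwd 3468 23 tp1858.df))) (.node (.leaf (.bwd 3491 38 tp1859.df)) (.leaf (.fwd 3529 32 tp407.df)))) (.node (.node (.leaf (.fwd 3561 27 tp1860.df)) (.leaf (.fwd 3588 28 tp1861.df))) (.node (.leaf (.bwd 3616 20 tp1862.df)) (.leaf (.bwd 3636 37 tp1863.df)))))) (.node (.node (.node (.node (.node (.leaf (.bwd 3673 36 tp1864.df)) (.leaf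 (.fwd 3709 21 tp1865.df))) (.leaf (.fwd 3730 34 tp1866.df))) (.node (.leaf (.bwd 3764 37 tp1867.df)) (.leaf (.bwd 3801 26 tp514.df)))) (.node (.node (.leaf (.bwd 3827 27 tp1868.df)) (.leaf (.fwd 3854 38 tp1869.df))) (.node (.leaf (.fwd 3892 23 tp1870.df)) (.leaf (.fwd 3915 59 tp1871.df))))) (.node (.node (.node (.leaf (.fwd 3974 46 tp1872.df)) (.leaf (.bwd 4020 49 tp1873.df))) (.node (.leaf (.fwd 4069 29 tp1875.df)) (.leaf (.bwd 4098 54 tp1876.df)))) (.node (.node (.leaf (.bwd 4152 40 tp1877.df)) (.leaf (.fwd 4192 23 tp1878.df))) (.node (.leaf (.fwd 4215 44 tp1880.df)) (.leaf (.bwd 4259 42 tp1881.df)))))))))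

theorem iiNE2B3B2H2BzIzAyB3H3B2EzF_c : iiNE2B3B2H2BzIzAyB3H3B2EzF.all (itB (ng 60 nnNE2B3B2H2BzIzAyB3H3B2EzF)) = true := by decide +kernel
theorem nbNE2B3B2H2BzIzAyB3H3B2EzF : nbB 60 4361 nnNE2B3B2H2BzIzAyB3H3B2EzF = true := by decide +kernel
theorem topNE2B3B2H2BzIzAyB3H3B2EzF : topY 4361 ttNE2B3B2H2BzIzAyB3H3B2EzF ceNE2B3B2H2BzIzAyB3H3B2EzF xNE2B3B2H2BzIzAyB3H3B2EzF iiNE2B3B2H2BzIzAyB3H3B2EzF = true := by decide +kernel

end MPb6P
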