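import Pool.Agent.Lib.MP_b6d339_lc.Cw.YE2B3B2H2BzIzByA3B2EzF
import Pool.Agent.Lib.MP_b6d339_lc.Cw.XL
import Pool.Agent.Lib.MP_b6d339_lc.Cw.T10
import Pool.Agent.Lib.MP_b6d339_lc.Cw.T14
import Pool.Agent.Lib.MP_b6d339_lc.Cw.T16
import Pool.Agent.Lib.MP_b6d339_lc.Cw.T18
import Pool.Agent.Lib.MP_b6d339_lc.Cw.T19
import Pool.Agent.Lib.MP_b6d339_lc.Cw.T20
import Pool.Agent.Lib.MP_b6d339_lc.Cw.T21
import Pool.Agent.Lib.MP_b6d339_lc.Cw.T22
import Pool.Agent.Lib.MP_b6d339_lc.Cw.T23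
import Pool.Agent.Lib.MP_b6d339_lc.Cw.T27
import Pool.Agent.Lib.MP_b6d339_lc.Cw.T28
import Pool.Agent.Lib.MP_b6d339_lc.Cw.T3
import Pool.Agent.Lib.MP_b6d339_lc.Cw.T4
import Pool.Agent.Lib.MP_b6d339_lc.Cw.T5
import Pool.Agent.Lib.MP_b6d339_lc.Cw.T6
import Pool.Agent.Lib.MP_b6d339_lc.Cw.T8

/-!
# Erdős 592, three levels: items
-/

namespace MPb6P

noncomputable def iiNE2B3B2H2BzIzByA3B2EzF : BT Itm := (.node (.node (.node (.node (.node (.node (.node (.leaf (.fwd 0 13 tp1762.df)) (.leaf (.fwd 13 6 tp1576.df))) (.node (.leaf (.fwd 19 21 tp295.df)) (.leaf (.bwd 40 11 tp1768.df)))) (.node (.node (.leaf (.fwd 51 61 tp2205.df)) (.leaf (.bwd 112 29 tp329.df))) (.leaf (.fwd 141 28 tp1766.df)))) (.node (.node (.node (.leaf (.bwd 169 34 tp2249.df)) (.leaf (.bwd 203 13 tp1771.df))) (.node (.leaf (.fwd 216 21 tp656.df)) (.leaf (.bwd 237 34 tp1664.df)))) (.node (.node (.leaf (.bwd 271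 31 tp1820.df)) (.leaf (.bwd 302 35 tp1794.df))) (.leaf (.fwd 337 10 tp1783.df))))) (.node (.node (.node (.node (.leaf (.fwd 347 25 tp1799.df)) (.leaf (.bwd 372 29 tp1765.df))) (.node (.leaf (.fwd 401 40 tp1658.df)) (.leaf (.bwd 441 51 tp1792.df)))) (.node (.node (.leaf (.fwd 492 42 tp1807.df)) (.leaf (.fwd 534 29 tp2250.df))) (.leaf (.fwd 563 25 tp2251.df)))) (.node (.node (.node (.leaf (.fwd 588 31 tp2229.df)) (.leaf (.bwd 619 26 tp1780.df))) (.node (.leaf (.fwd 645 41 tp2209.df)) (.leaf (.fwd 686 27 tp1763.df)))) (.node (.node (.leaf (.fwd 713 49 tp2211.df)) (.leaf (.fwd 762 12 tp1653.df))) (.leaf (.bwd 774 26 tp514.df)))))) (.node (.node (.node (.node (.node (.leaf (.bwd 800 14 tp1782.df)) (.leaf (.bwd 814 18 tp1821.df))) (.node (.leaf (.fwd 832 23 tp813.df)) (.leaf (.bwd 855 23 tp1785.df)))) (.node (.node (.leaf (.bwd 878 21 tp1577.df)) (.leaf (.fwd 899 15 tp1787.df)))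 (.leaf (.bwd 914 23 tp1580.df)))) (.node (.node (.node (.leaf (.fwd 937 15 tp1786.df)) (.leaf (.bwd 952 19 tp1798.df))) (.node (.leaf (.fwd 971 21 tp1793.df)) (.leaf (.fwd 992 24 tp2252.df)))) (.node (.node (.leaf (.fwd 1016 37 tp1822.df)) (.leaf (.bwd 1053 27 tp2253.df))) (.leaf (.fwd 1080 16 tp2254.df))))) (.node (.node (.node (.node (.leaf (.fwd 1096 44 tp2255.df)) (.leaf (.bwd 1140 19 tp2256.df))) (.node (.leaf (.bwd 1159 12 tp1803.df)) (.leaf (.bwd 1171 25 tp361.df)))) (.node (.node (.leaf (.fwd 1196 36 tp1764.df)) (.leaf (.fwd 1232 39 tp2257.df))) (.leaf (.bwd 1271 45 tp2258.df)))) (.node (.node (.node (.leaf (.fwd 1316 42 tp1769.df)) (.leaf (.fwd 1358 40 tp2259.df))) (.leaf (.bwd 1398 23 tp1778.df))) (.node (.node (.leaf (.fwd 1421 51 tp1809.df)) (.leaf (.fwd 1472 21 tp1817.df))) (.leaf (.fwd 1493 22 tp2260.df))))))) (.node (.node (.node (.node (.node (.node (.leaf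 (.bwd 1515 34 tp2261.df)) (.leaf (.fwd 1549 49 tp1812.df))) (.node (.leaf (.fwd 1598 33 tp1818.df)) (.leaf (.fwd 1631 24 tp2235.df)))) (.node (.node (.leaf (.fwd 1655 33 tp2206.df)) (.leaf (.bwd 1688 24 tp2215.df))) (.leaf (.bwd 1712 9 tp1588.df)))) (.node (.node (.node (.leaf (.bwd 1721 36 tp2228.df)) (.leaf (.fwd 1757 24 tp2218.df))) (.node (.leaf (.fwd 1781 48 tp2234.df)) (.leaf (.fwd 1829 59 tp2207.df)))) (.node (.node (.leaf (.fwd 1888 24 tp2213.df)) (.leaf (.fwd 1912 34 tp2231.df))) (.leaf (.bwd 1946 20 tp1777.df))))) (.node (.node (.node (.node (.leaf (.fwd 1966 31 tp2233.df)) (.leaf (.bwd 1997 13 tp1824.df))) (.node (.leaf (.fwd 2010 26 tp2262.df)) (.leaf (.fwd 2036 33 tp2210.df)))) (.node (.node (.leaf (.fwd 2069 37 tp2216.df)) (.leaf (.fwd 2106 29 tp2214.df))) (.leaf (.fwd 2135 35 tp1760.df)))) (.node (.node (.node (.leaf (.fwd 2170 49 tp2263.df)) (.leaf (.fwd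 2219 25 tp1773.df))) (.node (.leaf (.fwd 2244 43 tp2264.df)) (.leaf (.fwd 2287 40 tp1829.df)))) (.node (.node (.leaf (.fwd 2327 10 tp1781.df)) (.leaf (.bwd 2337 49 tp1832.df))) (.leaf (.bwd 2386 23 tp292.df)))))) (.node (.node (.node (.node (.node (.leaf (.fwd 2409 12 tp1833.df)) (.leaf (.bwd 2421 28 tp2265.df))) (.node (.leaf (.fwd 2449 23 tp1770.df)) (.leaf (.bwd 2472 23 tp366.df)))) (.node (.node (.leaf (.bwd 2495 6 tp1576.df)) (.leaf (.bwd 2501 26 tp2266.df))) (.leaf (.fwd 2527 16 tp2267.df)))) (.node (.node (.node (.leaf (.bwd 2543 23 tp2268.df)) (.leaf (.fwd 2566 16 tp1354.df))) (.node (.leaf (.fwd 2582 39 tp2269.df)) (.leaf (.fwd 2621 34 tp1866.df)))) (.node (.node (.leaf (.fwd 2655 33 tp1848.df)) (.leaf (.fwd 2688 32 tp407.df))) (.leaf (.bwd 2720 41 tp1611.df))))) (.node (.node (.node (.node (.leaf (.fwd 2761 9 tp1588.df)) (.leaf (.bwd 2770 18 tp1158.df))) (.node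 (.leaf (.bwd 2788 30 tp2270.df)) (.leaf (.bwd 2818 37 tp2271.df)))) (.node (.node (.leaf (.bwd 2855 34 tp2272.df)) (.leaf (.fwd 2889 45 tp1473.df))) (.leaf (.fwd 2934 46 tp1849.df)))) (.node (.node (.node (.leaf (.fwd 2980 32 tp2230.df)) (.leaf (.bwd 3012 17 tp2273.df))) (.leaf (.bwd 3029 22 tp2274.df))) (.node (.node (.leaf (.fwd 3051 41 tp2275.df)) (.leaf (.fwd 3092 51 tp1847.df))) (.leaf (.bwd 3143 24 tp354.df))))))))

theorem iiNE2B3B2H2BzIzByA3B2EzF_c : iiNE2B3B2H2BzIzByA3B2EzF.all (itB (ng 61 nnNE2B3B2H2BzIzByA3B2EzF)) = true := by decide +kernel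
theorem nbNE2B3B2H2BzIzByA3B2EzF : nbB 61 3228 nnNE2B3B2H2BzIzByA3B2EzF = true := by decide +kernel
theorem topNE2B3B2H2BzIzByA3B2EzF : topY 3228 ttNE2B3B2H2BzIzByA3B2EzF ceNE2B3B2H2BzIzByA3B2EzF xNE2B3B2H2BzIzByA3B2EzF iiNE2B3B2H2BzIzByA3B2EzF = true := by decide +kernel

end MPb6P
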