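import Pool.Agent.Lib.MP_b6d339_lc.Cw.YE2B3H2BzH3B2EzA2A2F
import Pool.Agent.Lib.MP_b6d339_lc.Cw.XL
import Pool.Agent.Lib.MP_b6d339_lc.Cw.T10
import Pool.Agent.Lib.MP_b6d339_lc.Cw.T12
import Pool.Agent.Lib.MP_b6d339_lc.Cw.T13
import Pool.Agent.Lib.MP_b6d339_lc.Cw.T14
import Pool.Agent.Lib.MP_b6d339_lc.Cw.T15
import Pool.Agent.Lib.MP_b6d339_lc.Cw.T16
import Pool.Agent.Lib.MP_b6d339_lc.Cw.T17
import Pool.Agent.Lib.MP_b6d339_lc.Cw.T18
import Pool.Agent.Lib.MP_b6d339_lc.Cw.T19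
import Pool.Agent.Lib.MP_b6d339_lc.Cw.T2
import Pool.Agent.Lib.MP_b6d339_lc.Cw.T20
import Pool.Agent.Lib.MP_b6d339_lc.Cw.T21
import Pool.Agent.Lib.MP_b6d339_lc.Cw.T22
import Pool.Agent.Lib.MP_b6d339_lc.Cw.T23
import Pool.Agent.Lib.MP_b6d339_lc.Cw.T24
import Pool.Agent.Lib.MP_b6d339_lc.Cw.T25
import Pool.Agent.Lib.MP_b6d339_lc.Cw.T26
import Pool.Agent.Lib.MP_b6d339_lc.Cw.T27
import Pool.Agent.Lib.MP_b6d339_lc.Cw.T28
import Pool.Agent.Lib.MP_b6d339_lc.Cw.T29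
import Pool.Agent.Lib.MP_b6d339_lc.Cw.T3
import Pool.Agent.Lib.MP_b6d339_lc.Cw.T30
import Pool.Agent.Lib.MP_b6d339_lc.Cw.T31
import Pool.Agent.Lib.MP_b6d339_lc.Cw.T32
import Pool.Agent.Lib.MP_b6d339_lc.Cw.T33
import Pool.Agent.Lib.MP_b6d339_lc.Cw.T34
import Pool.Agent.Lib.MP_b6d339_lc.Cw.T35
import Pool.Agent.Lib.MP_b6d339_lc.Cw.T4
import Pool.Agent.Lib.MP_b6d339_lc.Cw.T5
import Pool.Agent.Lib.MP_b6d339_lc.Cw.T6
import Pool.Agent.Lib.MP_b6d339_lc.Cw.T7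
import Pool.Agent.Lib.MP_b6d339_lc.Cw.T8
import Pool.Agent.Lib.MP_b6d339_lc.Cw.T9

/-!
# Erdős 592, three levels: items
-/

namespace MPb6P

noncomputable def iiNE2B3H2BzH3B2EzA2A2F : BT Itm := (.node (.node (.node (.node (.node (.node (.node (.node (.node (.leaf (.fwd 0 6 tp1576.df)) (.leaf (.fwd 6 35 tp619.df))) (.leaf (.bwd 41 23 tp292.df))) (.node (.leaf (.bwd 64 31 tp346.df)) (.leaf (.bwd 95 13 tp1771.df)))) (.node (.node (.leaf (.bwd 108 45 tp2464.df)) (.leaf (.bwd 153 55 tp2762.df))) (.node (.leaf (.fwd 208 21 tp295.df)) (.leaf (.bwd 229 35 tp352.df))))) (.node (.node (.node (.leaf (.bwd 264 25 tp1994.df)) (.leaf (.bwd 289 29 tp329.df))) (.node (.leaf (.bwd 318 24 tp2411.df)) (.leaf (.bwd 342 25 tp1945.df)))) (.node (.node (.leaf (.bwd 367 35 tp359.df)) (.leaf (.bwd 402 25 tp361.df))) (.node (.leaf (.bwd 427 30 tp299.df)) (.leaf (.bwd 457 21 tp295.df)))))) (.node (.node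 (.node (.node (.leaf (.fwd 478 17 tp337.df)) (.leaf (.fwd 495 28 tp342.df))) (.node (.leaf (.fwd 523 15 tp1787.df)) (.leaf (.fwd 538 25 tp361.df)))) (.node (.node (.leaf (.fwd 563 55 tp2763.df)) (.leaf (.bwd 618 23 tp366.df))) (.node (.leaf (.bwd 641 40 tp2062.df)) (.leaf (.fwd 681 38 tp348.df))))) (.node (.node (.node (.leaf (.fwd 719 28 tp344.df)) (.leaf (.bwd 747 28 tp2052.df))) (.node (.leaf (.fwd 775 18 tp1995.df)) (.leaf (.fwd 793 40 tp1658.df)))) (.node (.node (.leaf (.fwd 833 22 tp451.df)) (.leaf (.fwd 855 31 tp2050.df))) (.node (.leaf (.fwd 886 25 tp433.df)) (.leaf (.fwd 911 21 tp1733.df))))))) (.node (.node (.node (.node (.node (.node (.leaf (.bwd 932 19 tp493.df)) (.leaf (.fwd 951 40 tp416.df))) (.leaf (.bwd 991 35 tp472.df))) (.node (.leaf (.fwd 1026 21 tp656.df)) (.leaf (.fwd 1047 28 tp806.df)))) (.node (.node (.leaf (.fwd 1075 28 tp373.df)) (.leaf (.fwd 1103 26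 tp2414.df))) (.node (.leaf (.fwd 1129 13 tp1387.df)) (.leaf (.bwd 1142 42 tp1468.df))))) (.node (.node (.node (.leaf (.bwd 1184 24 tp2215.df)) (.leaf (.fwd 1208 30 tp2410.df))) (.node (.leaf (.fwd 1238 44 tp849.df)) (.leaf (.fwd 1282 44 tp2255.df)))) (.node (.node (.leaf (.bwd 1326 57 tp2404.df)) (.leaf (.fwd 1383 27 tp815.df))) (.node (.leaf (.bwd 1410 11 tp1768.df)) (.leaf (.fwd 1421 17 tp2764.df)))))) (.node (.node (.node (.node (.leaf (.fwd 1438 32 tp2054.df)) (.leaf (.fwd 1470 33 tp2131.df))) (.node (.leaf (.bwd 1503 40 tp2474.df)) (.leaf (.bwd 1543 20 tp2119.df)))) (.node (.node (.leaf (.fwd 1563 36 tp1182.df)) (.leaf (.fwd 1599 16 tp1986.df))) (.node (.leaf (.bwd 1615 26 tp2007.df)) (.leaf (.fwd 1641 18 tp2415.df))))) (.node (.node (.node (.leaf (.bwd 1659 24 tp2142.df)) (.leaf (.fwd 1683 20 tp2765.df))) (.node (.leaf (.fwd 1703 32 tp1442.df)) (.leaf (.fwd 1735 15 tp2766.df))))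 (.node (.node (.leaf (.bwd 1750 14 tp1782.df)) (.leaf (.fwd 1764 10 tp1783.df))) (.node (.leaf (.bwd 1774 18 tp1821.df)) (.leaf (.bwd 1792 19 tp1798.df)))))))) (.node (.node (.node (.node (.node (.node (.node (.leaf (.fwd 1811 16 tp2254.df)) (.leaf (.bwd 1827 27 tp2253.df))) (.leaf (.fwd 1854 25 tp1799.df))) (.node (.leaf (.fwd 1879 48 tp2324.df)) (.leaf (.fwd 1927 28 tp2496.df)))) (.node (.node (.leaf (.bwd 1955 30 tp2767.df)) (.leaf (.fwd 1985 17 tp1854.df))) (.node (.leaf (.bwd 2002 20 tp2284.df)) (.leaf (.bwd 2022 15 tp2027.df))))) (.node (.node (.node (.leaf (.fwd 2037 19 tp2439.df)) (.leaf (.bwd 2056 43 tp1813.df))) (.node (.leaf (.fwd 2099 18 tp2675.df)) (.leaf (.fwd 2117 19 tp2620.df)))) (.node (.node (.leaf (.bwd 2136 29 tp1410.df)) (.leaf (.fwd 2165 15 tp2768.df))) (.node (.leaf (.fwd 2180 30 tp1911.df)) (.leaf (.fwd 2210 32 tp2068.df)))))) (.node (.node (.node (.node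 (.leaf (.bwd 2242 35 tp2307.df)) (.leaf (.bwd 2277 45 tp1795.df))) (.node (.leaf (.bwd 2322 49 tp2418.df)) (.leaf (.fwd 2371 39 tp1916.df)))) (.node (.node (.leaf (.bwd 2410 32 tp369.df)) (.leaf (.bwd 2442 27 tp2769.df))) (.node (.leaf (.bwd 2469 24 tp2597.df)) (.leaf (.bwd 2493 40 tp2405.df))))) (.node (.node (.node (.leaf (.bwd 2533 28 tp2503.df)) (.leaf (.bwd 2561 54 tp2770.df))) (.node (.leaf (.fwd 2615 37 tp2578.df)) (.leaf (.fwd 2652 51 tp2665.df)))) (.node (.node (.leaf (.bwd 2703 28 tp2453.df)) (.leaf (.fwd 2731 19 tp2462.df))) (.node (.leaf (.bwd 2750 26 tp2771.df)) (.leaf (.fwd 2776 20 tp2772.df))))))) (.node (.node (.node (.node (.node (.leaf (.bwd 2796 29 tp694.df)) (.leaf (.fwd 2825 42 tp1468.df))) (.node (.leaf (.bwd 2867 33 tp2572.df)) (.leaf (.bwd 2900 39 tp2448.df)))) (.node (.node (.leaf (.bwd 2939 44 tp1459.df)) (.leaf (.bwd 2983 41 tp2773.df))) (.node (.leaf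 (.bwd 3024 38 tp587.df)) (.leaf (.bwd 3062 21 tp2419.df))))) (.node (.node (.node (.leaf (.bwd 3083 39 tp678.df)) (.leaf (.fwd 3122 44 tp1459.df))) (.node (.leaf (.bwd 3166 33 tp1903.df)) (.leaf (.fwd 3199 41 tp2773.df)))) (.node (.node (.leaf (.fwd 3240 41 tp1162.df)) (.leaf (.bwd 3281 43 tp2468.df))) (.node (.leaf (.bwd 3324 17 tp2184.df)) (.leaf (.fwd 3341 27 tp2596.df)))))) (.node (.node (.node (.node (.leaf (.bwd 3368 41 tp2487.df)) (.leaf (.bwd 3409 19 tp2774.df))) (.node (.leaf (.bwd 3428 37 tp1491.df)) (.leaf (.bwd 3465 27 tp1868.df)))) (.node (.node (.leaf (.bwd 3492 23 tp322.df)) (.leaf (.bwd 3515 16 tp1354.df))) (.node (.leaf (.bwd 3531 29 tp1440.df)) (.leaf (.fwd 3560 27 tp2456.df))))) (.node (.node (.node (.leaf (.fwd 3587 29 tp2436.df)) (.leaf (.bwd 3616 48 tp2455.df))) (.node (.leaf (.fwd 3664 15 tp2309.df)) (.leaf (.bwd 3679 32 tp2775.df)))) (.node (.node (.leaf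 (.bwd 3711 58 tp2451.df)) (.leaf (.fwd 3769 20 tp2317.df))) (.node (.leaf (.fwd 3789 22 tp2678.df)) (.leaf (.bwd 3811 29 tp2676.df))))))))) (.node (.node (.node (.node (.node (.node (.node (.node (.leaf (.bwd 3840 13 tp2406.df)) (.leaf (.fwd 3853 23 tp2702.df))) (.leaf (.fwd 3876 39 tp2407.df))) (.node (.leaf (.fwd 3915 43 tp2429.df)) (.leaf (.fwd 3958 19 tp2776.df)))) (.node (.node (.leaf (.fwd 3977 33 tp2777.df)) (.leaf (.fwd 4010 37 tp1491.df))) (.node (.leaf (.fwd 4047 20 tp2423.df)) (.leaf (.bwd 4067 21 tp2431.df))))) (.node (.node (.node (.leaf (.fwd 4088 28 tp2778.df)) (.leaf (.bwd 4116 44 tp2006.df))) (.node (.leaf (.bwd 4160 32 tp2463.df)) (.leaf (.bwd 4192 42 tp2458.df)))) (.node (.node (.leaf (.bwd 4234 22 tp2512.df)) (.leaf (.bwd 4256 44 tp2669.df))) (.node (.leaf (.fwd 4300 13 tp2459.df)) (.leaf (.fwd 4313 39 tp2037.df)))))) (.node (.node (.node (.node (.leaf (.fwd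 4352 45 tp2013.df)) (.leaf (.fwd 4397 37 tp2779.df))) (.node (.leaf (.fwd 4434 23 tp2780.df)) (.leaf (.fwd 4457 26 tp2417.df)))) (.node (.node (.leaf (.bwd 4483 42 tp1099.df)) (.leaf (.bwd 4525 40 tp2781.df))) (.node (.leaf (.fwd 4565 22 tp2685.df)) (.leaf (.fwd 4587 22 tp2683.df))))) (.node (.node (.node (.leaf (.bwd 4609 26 tp2470.df)) (.leaf (.bwd 4635 32 tp2140.df))) (.node (.leaf (.fwd 4667 31 tp2782.df)) (.leaf (.fwd 4698 23 tp1996.df)))) (.node (.node (.leaf (.fwd 4721 38 tp2783.df)) (.leaf (.fwd 4759 35 tp2784.df))) (.node (.leaf (.bwd 4794 50 tp2785.df)) (.leaf (.fwd 4844 51 tp2786.df))))))) (.node (.node (.node (.node (.node (.node (.leaf (.fwd 4895 42 tp2787.df)) (.leaf (.fwd 4937 47 tp2788.df))) (.leaf (.bwd 4984 13 tp1387.df))) (.node (.leaf (.fwd 4997 10 tp1781.df)) (.leaf (.bwd 5007 9 tp1009.df)))) (.node (.node (.leaf (.bwd 5016 21 tp2505.df)) (.leaf (.fwd 5037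 15 tp2789.df))) (.node (.leaf (.fwd 5052 42 tp2687.df)) (.leaf (.fwd 5094 23 tp366.df))))) (.node (.node (.node (.leaf (.fwd 5117 28 tp2790.df)) (.leaf (.fwd 5145 31 tp2791.df))) (.node (.leaf (.fwd 5176 17 tp608.df)) (.leaf (.bwd 5193 27 tp2792.df)))) (.node (.node (.leaf (.fwd 5220 23 tp292.df)) (.leaf (.fwd 5243 56 tp2793.df))) (.node (.leaf (.fwd 5299 18 tp2656.df)) (.leaf (.fwd 5317 12 tp2794.df)))))) (.node (.node (.node (.node (.leaf (.bwd 5329 19 tp2256.df)) (.leaf (.bwd 5348 18 tp2686.df))) (.node (.leaf (.fwd 5366 30 tp2795.df)) (.leaf (.fwd 5396 41 tp2796.df)))) (.node (.node (.leaf (.fwd 5437 39 tp2607.df)) (.leaf (.fwd 5476 39 tp2797.df))) (.node (.leaf (.fwd 5515 40 tp2798.df)) (.leaf (.fwd 5555 32 tp615.df))))) (.node (.node (.node (.leaf (.bwd 5587 39 tp2692.df)) (.leaf (.fwd 5626 24 tp354.df))) (.node (.leaf (.fwd 5650 18 tp2799.df)) (.leaf (.fwd 5668 32 tp2688.df))))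 (.node (.node (.leaf (.bwd 5700 24 tp2800.df)) (.leaf (.fwd 5724 26 tp2279.df))) (.node (.leaf (.bwd 5750 40 tp2138.df)) (.leaf (.fwd 5790 24 tp2801.df)))))))) (.node (.node (.node (.node (.node (.node (.node (.leaf (.bwd 5814 31 tp770.df)) (.leaf (.fwd 5845 35 tp2409.df))) (.leaf (.bwd 5880 22 tp2478.df))) (.node (.leaf (.bwd 5902 17 tp608.df)) (.leaf (.bwd 5919 51 tp2802.df)))) (.node (.node (.leaf (.bwd 5970 34 tp2803.df)) (.leaf (.fwd 6004 21 tp2804.df))) (.node (.leaf (.fwd 6025 27 tp2691.df)) (.leaf (.bwd 6052 50 tp2805.df))))) (.node (.node (.node (.leaf (.fwd 6102 47 tp2806.df)) (.leaf (.fwd 6149 37 tp2807.df))) (.node (.leaf (.bwd 6186 57 tp1964.df)) (.leaf (.fwd 6243 45 tp2808.df)))) (.node (.node (.leaf (.fwd 6288 25 tp2809.df)) (.leaf (.fwd 6313 33 tp2810.df))) (.node (.leaf (.fwd 6346 32 tp2811.df)) (.leaf (.fwd 6378 24 tp2812.df)))))) (.node (.node (.node (.node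 (.leaf (.fwd 6402 40 tp2813.df)) (.leaf (.fwd 6442 32 tp2814.df))) (.node (.leaf (.bwd 6474 37 tp2815.df)) (.leaf (.fwd 6511 33 tp783.df)))) (.node (.node (.leaf (.fwd 6544 26 tp419.df)) (.leaf (.bwd 6570 28 tp344.df))) (.node (.leaf (.bwd 6598 25 tp2153.df)) (.leaf (.bwd 6623 28 tp342.df))))) (.node (.node (.node (.leaf (.fwd 6651 20 tp2816.df)) (.leaf (.bwd 6671 35 tp2817.df))) (.node (.leaf (.fwd 6706 38 tp2818.df)) (.leaf (.bwd 6744 25 tp2819.df)))) (.node (.node (.leaf (.bwd 6769 11 tp2441.df)) (.leaf (.bwd 6780 49 tp2820.df))) (.node (.leaf (.fwd 6829 48 tp2821.df)) (.leaf (.bwd 6877 39 tp2822.df))))))) (.node (.node (.node (.node (.node (.leaf (.bwd 6916 17 tp2273.df)) (.leaf (.bwd 6933 25 tp2449.df))) (.node (.leaf (.bwd 6958 44 tp2823.df)) (.leaf (.fwd 7002 51 tp2824.df)))) (.node (.node (.leaf (.bwd 7053 33 tp2825.df)) (.leaf (.fwd 7086 30 tp316.df))) (.node (.leaf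 (.fwd 7116 26 tp2826.df)) (.leaf (.fwd 7142 35 tp2827.df))))) (.node (.node (.node (.leaf (.bwd 7177 23 tp2828.df)) (.leaf (.bwd 7200 35 tp2829.df))) (.node (.leaf (.fwd 7235 37 tp2830.df)) (.leaf (.fwd 7272 25 tp2831.df)))) (.node (.node (.leaf (.fwd 7297 26 tp2832.df)) (.leaf (.bwd 7323 48 tp2833.df))) (.node (.leaf (.fwd 7371 46 tp2834.df)) (.leaf (.fwd 7417 50 tp2835.df)))))) (.node (.node (.node (.node (.leaf (.fwd 7467 46 tp2836.df)) (.leaf (.bwd 7513 39 tp2837.df))) (.node (.leaf (.bwd 7552 8 tp202.df)) (.leaf (.fwd 7560 53 tp2838.df)))) (.node (.node (.leaf (.bwd 7613 36 tp2839.df)) (.leaf (.fwd 7649 29 tp2840.df))) (.node (.leaf (.fwd 7678 30 tp1184.df)) (.leaf (.fwd 7708 35 tp1265.df))))) (.node (.node (.node (.leaf (.fwd 7743 58 tp2841.df)) (.leaf (.bwd 7801 48 tp2842.df))) (.node (.leaf (.bwd 7849 23 tp2843.df)) (.leaf (.fwd 7872 29 tp2034.df)))) (.node (.node (.leaf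 (.fwd 7901 48 tp2442.df)) (.leaf (.bwd 7949 36 tp2690.df))) (.node (.leaf (.bwd 7985 48 tp375.df)) (.leaf (.fwd 8033 34 tp1010.df))))))))))

theorem iiNE2B3H2BzH3B2EzA2A2F_c : iiNE2B3H2BzH3B2EzA2A2F.all (itB (ng 58 nnNE2B3H2BzH3B2EzA2A2F)) = true := by decide +kernel
theorem nbNE2B3H2BzH3B2EzA2A2F : nbB 58 8125 nnNE2B3H2BzH3B2EzA2A2F = true := by decide +kernel
theorem topNE2B3H2BzH3B2EzA2A2F : topY 8125 ttNE2B3H2BzH3B2EzA2A2F ceNE2B3H2BzH3B2EzA2A2F xNE2B3H2BzH3B2EzA2A2F iiNE2B3H2BzH3B2EzA2A2F = true := by decide +kernel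

end MPb6P
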