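import Pool.Agent.Lib.MP_b6d339_lc.Cw.XL
import Pool.Agent.Lib.MP_b6d339_lc.Pos.XTreeC

/-!
# Erdős 592, three levels: patterns of words
-/

namespace MPb6P

theorem pq152_ok : POK 206 pq152 :=
  POK.mono (by decide) (chkPath_spec (K := 60) (path := 245317461542387027982656663793501225376354101641606745760660523430673) (by decide +kernel))

theorem pq153_ok : POK 206 pq153 :=
  POK.mono (by decide) (chkPath_spec (K := 60) (path := 8038454740034169096347255402401842520564789517898943252942609060354437905) (by decide +kernel))

theorem pq154_ok : POK 206 pq154 :=
  POK.mono (by decide) (chkPath_spec (K := 60) (path := 14622060152434529541889229262851935991384704663222975164101393) (by decide +kernel))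

theorem pq155_ok : POK 206 pq155 :=
  POK.mono (by decide) (chkPath_spec (K := 60) (path := 3833033914582333133863094044876977215082545060469267155113948525329) (by decide +kernel))

theorem pq156_ok : POK 206 pq156 :=
  POK.mono (by decide) (chkPath_spec (K := 60) (path := 446229868233063348453971746717593504525789289722376139537) (by decide +kernel))

theorem pq157_ok : POK 206 pq157 :=
  POK.mono (by decide) (chkPath_spec (K := 60) (path := 3569838945864506787631775961971350931518920871923604566801) (by decide +kernel))

theorem pq158_ok : POK 206 pq158 :=
  POK.mono (by decide) (chkPath_spec (K := 60) (path := 935811860624705268423397297677350352527503725174356707669553937) (by decide +kernel))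

theorem pq159_ok : POK 206 pq159 :=
  POK.mono (by decide) (chkPath_spec (K := 60) (path := 245317464391602737600775920753054143821790424630232456717524475418777) (by decide +kernel))

theorem pq160_ok : POK 206 pq160 :=
  POK.mono (by decide) (chkPath_spec (K := 60) (path := 516178666553899509859713383859835535604051515923570638338278652140940276313) (by decide +kernel))

theorem pq161_ok : POK 206 pq161 :=
  POK.mono (by decide) (chkPath_spec (K := 60) (path := 479135667074974664037314844150834487689609521070790895795232944913) (by decide +kernel))

theorem pq162_ok : POK 206 pq162 :=
  POK.mono (by decide) (chkPath_spec (K := 60) (path := 935811849755809890697881716416189610368314356911701250695541521) (by decide +kernel))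

theorem pq163_ok : POK 206 pq163 :=
  POK.mono (by decide) (chkPath_spec (K := 60) (path := 871542701270254227051416011927349233188918521582105361) (by decide +kernel))

theorem pq164_ok : POK 206 pq164 :=
  POK.mono (by decide) (chkPath_spec (K := 60) (path := 55778733529132918556745734290653134509473521503935705873) (by decide +kernel))

theorem pq165_ok : POK 206 pq165 :=
  POK.mono (by decide) (chkPath_spec (K := 60) (path := 3846242926388681850117341598511112459957878244517151945571256611545) (by decide +kernel))

theorem pq166_ok : POK 206 pq166 :=
  POK.mono (by decide) (chkPath_spec (K := 60) (path := 229254327112763587113234806368014943158921773798065782960857) (by decide +kernel))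

theorem pq167_ok : POK 206 pq167 :=
  POK.mono (by decide) (chkPath_spec (K := 60) (path := 14620490876999221370060864981931255040464396468156672732607249) (by decide +kernel))

theorem pq168_ok : POK 206 pq168 :=
  POK.mono (by decide) (chkPath_spec (K := 60) (path := 479135667074974664028623128706031036214013439842911740585833181969) (by decide +kernel))

theorem pq169_ok : POK 206 pq169 :=
  POK.mono (by decide) (chkPath_spec (K := 60) (path := 479135667074974664028623035235920636613539999666001410575215407889) (by decide +kernel))

theorem pq170_ok : POK 206 pq170 :=
  POK.mono (by decide) (chkPath_spec (K := 60) (path := 480781158283110384319969318515914604442219608147926794460228596313) (by decide +kernel))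

theorem pq171_ok : POK 206 pq171 :=
  POK.mono (by decide) (chkPath_spec (K := 60) (path := 8065291668606362068200340943483099412260791130548327106422012585771374297) (by decide +kernel))

theorem pq172_ok : POK 206 pq172 :=
  POK.mono (by decide) (chkPath_spec (K := 60) (path := 8065293350312019650472916208688306447430373953717068404967146648710715097) (by decide +kernel))

theorem pq173_ok : POK 206 pq173 :=
  POK.mono (by decide) (chkPath_spec (K := 60) (path := 1969276377407298607856477929891411886366760373551149976317897269417689) (by decide +kernel))

theorem pq174_ok : POK 206 pq174 :=
  POK.mono (by decide) (chkPath_spec (K := 60) (path := 479547043214688087780192170611466867177305582196722751180687619801) (by decide +kernel))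

theorem pq175_ok : POK 206 pq175 :=
  POK.mono (by decide) (chkPath_spec (K := 60) (path := 4119276865450743088823431999901129652680081712538491542585470944246978425617) (by decide +kernel))

theorem pq176_ok : POK 206 pq176 :=
  POK.mono (by decide) (chkPath_spec (K := 60) (path := 15592477725994203841664991312975074037255984173508311011379081491821329) (by decide +kernel))

theorem pq177_ok : POK 206 pq177 :=
  POK.mono (by decide) (chkPath_spec (K := 60) (path := 134980492596643733253485140795043193043145611326422718760945529241975249130853964) (by decide +kernel))

theorem pq178_ok : POK 206 pq178 :=
  POK.mono (by decide) (chkPath_spec (K := 60) (path := 8045450832860067166768291033076233100444351635583908098316109164405176012) (by decide +kernel))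

theorem pq179_ok : POK 206 pq179 :=
  POK.mono (by decide) (chkPath_spec (K := 60) (path := 1005681354107152072578072171458595646896300687819949351923897280131536588) (by decide +kernel))

theorem pq180_ok : POK 206 pq180 :=
  POK.mono (by decide) (chkPath_spec (K := 60) (path := 263633774602831467522542750609990644517284383225262030092871342921277552039500) (by decide +kernel))

theorem pq181_ok : POK 206 pq181 :=
  POK.mono (by decide) (chkPath_spec (K := 60) (path := 134980492596643733253485140795043832296140975075917389801683669352022163541825100) (by decide +kernel))

theorem pq182_ok : POK 206 pq182 :=
  POK.mono (by decide) (chkPath_spec (K := 60) (path := 134980492596643733253485140794949726873489142411295907040942373422241678958630476) (by decide +kernel))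

theorem pq183_ok : POK 206 pq183 :=
  POK.mono (by decide) (chkPath_spec (K := 60) (path := 69110012209481591425784392087062110292167892001462881000533773799195969821746763340) (by decide +kernel))

theorem pq184_ok : POK 206 pq184 :=
  POK.mono (by decide) (chkPath_spec (K := 60) (path := 263633719388849017186006706707858453309709993243715306336450391373342551881420) (by decide +kernel))

theorem pq185_ok : POK 206 pq185 :=
  POK.mono (by decide) (chkPath_spec (K := 60) (path := 16872561574580373248591005913622333855553441835878836931917203508809103334807116) (by decide +kernel))

theorem pq186_ok : POK 206 pq186 :=
  POK.mono (by decide) (chkPath_spec (K := 60) (path := 15713797486002735830377303609991316876124245988846886655412943194986188) (by decide +kernel))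

theorem pq187_ok : POK 206 pq187 :=
  POK.mono (by decide) (chkPath_spec (K := 60) (path := 8045464312830550156327598590393051857680618286165195225563085904997553868) (by decide +kernel))

theorem pq188_ok : POK 206 pq188 :=
  POK.mono (by decide) (chkPath_spec (K := 60) (path := 4423040781406797364878640654220564904253786643939542836389475404958297676675035805260) (by decide +kernel))

theorem pq189_ok : POK 206 pq189 :=
  POK.mono (by decide) (chkPath_spec (K := 60) (path := 125710379887977346192618727974804322988058333007180809662768251497453132) (by decide +kernel))

theorem pq190_ok : POK 206 pq190 :=
  POK.mono (by decide) (chkPath_spec (K := 60) (path := 245528085718792747349645368895225290164275379306936886907890832348748) (by decide +kernel))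

theorem pq191_ok : POK 206 pq191 :=
  POK.mono (by decide) (chkPath_spec (K := 60) (path := 32950688131224376571225049465060452506181825400793445218062087210424012150348) (by decide +kernel))

theorem pq192_ok : POK 206 pq192 :=
  POK.mono (by decide) (chkPath_spec (K := 60) (path := 16870752323186133584704397125703677279664550208821805644032319453263839883990604) (by decide +kernel))

theorem pq193_ok : POK 206 pq193 :=
  POK.mono (by decide) (chkPath_spec (K := 60) (path := 4423040781406797364878640654220564904253786648086777699842820623430252396851495286348) (by decide +kernel))

theorem pq194_ok : POK 206 pq194 :=
  POK.mono (by decide) (chkPath_spec (K := 60) (path := 1964010770157890173372908314882733034114016528889996896726629948896972) (by decide +kernel))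

theorem pq195_ok : POK 206 pq195 :=
  POK.mono (by decide) (chkPath_spec (K := 60) (path := 245527674342653416954598725378874491252907812868808626055023356655308) (by decide +kernel))

theorem pq196_ok : POK 206 pq196 :=
  POK.mono (by decide) (chkPath_spec (K := 60) (path := 125710169263394009072259021432362558311761758210501555402428089129875148) (by decide +kernel))

theorem pq197_ok : POK 206 pq197 :=
  POK.mono (by decide) (chkPath_spec (K := 60) (path := 16872561574580373248591005913622332745743534390431302704421469646264604700743244) (by decide +kernel))

theorem pq198_ok : POK 206 pq198 :=
  POK.mono (by decide) (chkPath_spec (K := 60) (path := 64363714502644401250620788723144414872063523814354359026975527482195482188) (by decide +kernel))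

theorem pq199_ok : POK 206 pq199 :=
  POK.mono (by decide) (chkPath_spec (K := 60) (path := 125710379887977346192618727969349608316251239746274322396316739126007372) (by decide +kernel))

theorem pq200_ok : POK 206 pq200 :=
  POK.mono (by decide) (chkPath_spec (K := 60) (path := 64363714502641550661795206449008125136015167055183244715833292222016362060) (by decide +kernel))

theorem pq201_ok : POK 206 pq201 :=
  POK.mono (by decide) (chkPath_spec (K := 60) (path := 1964221394741227335636789797406287910162037124328496292836613798336204) (by decide +kernel))

theorem pq202_ok : POK 206 pq202 :=
  POK.mono (by decide) (chkPath_spec (K := 60) (path := 134980492596643733253485140794949465354788618836195253607316922251727783720228428) (by decide +kernel))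

theorem pq203_ok : POK 206 pq203 :=
  POK.mono (by decide) (chkPath_spec (K := 60) (path := 263633774602831467522542750598274683472660321946828885889295469078769849177676) (by decide +kernel))

theorem pq204_ok : POK 206 pq204 :=
  POK.mono (by decide) (chkPath_spec (K := 60) (path := 1005681354107152072578072171413902802335204262655036661494596248829531852) (by decide +kernel))

theorem pq205_ok : POK 206 pq205 :=
  POK.mono (by decide) (chkPath_spec (K := 60) (path := 134980492596649711371541888312314641752516979503140283773757980993138353752086092) (by decide +kernel))

theorem pq206_ok : POK 206 pq206 :=
  POK.mono (by decide) (chkPath_spec (K := 60) (path := 514908853302861861159972951786798803546062870848986953280948706314810070732) (by decide +kernel))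

theorem pq207_ok : POK 206 pq207 :=
  POK.mono (by decide) (chkPath_spec (K := 60) (path := 8045464312830550156327598590393051859009846281950111098466892965277898444) (by decide +kernel))

theorem pq208_ok : POK 206 pq208 :=
  POK.mono (by decide) (chkPath_spec (K := 60) (path := 32954221825352473938839145701914859392952908644767916542187131986948035221068) (by decide +kernel))

theorem pq209_ok : POK 206 pq209 :=
  POK.mono (by decide) (chkPath_spec (K := 60) (path := 64363714502644708828605821231853509971207020535116727052881688087141062220) (by decide +kernel))

theorem pq210_ok : POK 206 pq210 :=
  POK.mono (by decide) (chkPath_spec (K := 60) (path := 125710169263394009072259021432362558311761758210501555402428089129875148) (by decide +kernel))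

theorem pq211_ok : POK 206 pq211 :=
  POK.mono (by decide) (chkPath_spec (K := 60) (path := 32954221825352473938839145701914998119183291724706013023986568217752899524172) (by decide +kernel))

theorem pq212_ok : POK 206 pq212 :=
  POK.mono (by decide) (chkPath_spec (K := 60) (path := 263633774602819791510713165615328863738306535611409492745620118026576383022668) (by decide +kernel))

theorem pq213_ok : POK 206 pq213 :=
  POK.mono (by decide) (chkPath_spec (K := 60) (path := 514909716021157670628846569864816674452922617547094224546115635689229751884) (by decide +kernel))

theorem pq214_ok : POK 206 pq214 :=
  POK.mono (by decide) (chkPath_spec (K := 60) (path := 514908853302861861159972951786957038836727180067786460807312382051492411084) (by decide +kernel))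

theorem pq215_ok : POK 206 pq215 :=
  POK.mono (by decide) (chkPath_spec (K := 60) (path := 1005681354107152072578072171458595646896300687819949351923897280131536588) (by decide +kernel))

theorem pq216_ok : POK 206 pq216 :=
  POK.mono (by decide) (chkPath_spec (K := 60) (path := 64363714502641550661795206449008125136015167055183244715833292222016362060) (by decide +kernel))

theorem pq217_ok : POK 206 pq217 :=
  POK.mono (by decide) (chkPath_spec (K := 60) (path := 32954221825352473938839145701892023162472782342311925034987677161770306614860) (by decide +kernel))

theorem pq218_ok : POK 206 pq218 :=
  POK.mono (by decide) (chkPath_spec (K := 60) (path := 2264596880080280250817864014960929212608985361175943992793825787391624134880363943409228) (by decide +kernel))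

theorem pq219_ok : POK 206 pq219 :=
  POK.mono (by decide) (chkPath_spec (K := 60) (path := 125710379887977946930870744549129270816531070353557576899209607053678156) (by decide +kernel))

theorem pq220_ok : POK 206 pq220 :=
  POK.mono (by decide) (chkPath_spec (K := 60) (path := 1005681354107152072578072171413902802335204262655036661494596248829531852) (by decide +kernel))

theorem pq221_ok : POK 206 pq221 :=
  POK.mono (by decide) (chkPath_spec (K := 60) (path := 134980492596643733253485140794949465354788618836195253607316922251727783720228428) (by decide +kernel))

theorem pq222_ok : POK 206 pq222 :=
  POK.mono (by decide) (chkPath_spec (K := 60) (path := 514908853302861861159972951786798803546062870848986953280948706314810070732) (by decide +kernel))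

theorem pq223_ok : POK 206 pq223 :=
  POK.mono (by decide) (chkPath_spec (K := 60) (path := 69110012209481208826228760222196326628965416376882588259024857518072765572406679116) (by decide +kernel))

theorem pq224_ok : POK 206 pq224 :=
  POK.mono (by decide) (chkPath_spec (K := 60) (path := 134980492596643733253485140795043832296140975075917389801683669352022163541825100) (by decide +kernel))

theorem pq225_ok : POK 206 pq225 :=
  POK.mono (by decide) (chkPath_spec (K := 60) (path := 134980492596643733253485140795043264073535646827449823883393952320683993549608524) (by decide +kernel))

theorem pq226_ok : POK 206 pq226 :=
  POK.mono (by decide) (chkPath_spec (K := 60) (path := 144934200325137936052343296957499469058530597257549504862980151816665199814002840980788812) (by decide +kernel))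


end MPb6P
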