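import Pool.Agent.Lib.MP_b6d339_lc.Cw.YE2A3xI3AyB2EzAzAyF
import Pool.Agent.Lib.MP_b6d339_lc.Cw.XL

/-!
# Erdős 592, three levels: checks of claims
-/

namespace MPb6P

theorem zoNE2A3xI3AyB2EzAzAyF_0 : cyO 48 2322 nnNE2A3xI3AyB2EzAzAyF ttNE2A3xI3AyB2EzAzAyF ceNE2A3xI3AyB2EzAzAyF xNE2A3xI3AyB2EzAzAyF coNE2A3xI3AyB2EzAzAyF_0 = true := by decide +kernel

theorem zeNE2A3xI3AyB2EzAzAyF_0 : cyE 48 2322 nnNE2A3xI3AyB2EzAzAyF ttNE2A3xI3AyB2EzAzAyF coNE2A3xI3AyB2EzAzAyF xNE2A3xI3AyB2EzAzAyF ceNE2A3xI3AyB2EzAzAyF_0 = true := by decide +kernel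

end MPb6P
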