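import Pool.Agent.Lib.MP_b6d339_lc.Cw.YE2B3B2H2BzIzAyB3B2EzF
import Pool.Agent.Lib.MP_b6d339_lc.Cw.XL

/-!
# Erdős 592, three levels: checks of claims
-/

namespace MPb6P

theorem zoNE2B3B2H2BzIzAyB3B2EzF_0 : cyO 62 3895 nnNE2B3B2H2BzIzAyB3B2EzF ttNE2B3B2H2BzIzAyB3B2EzF ceNE2B3B2H2BzIzAyB3B2EzF xNE2B3B2H2BzIzAyB3B2EzF coNE2B3B2H2BzIzAyB3B2EzF_0 = true := by decide +kernel

theorem zeNE2B3B2H2BzIzAyB3B2EzF_0 : cyE 62 3895 nnNE2B3B2H2BzIzAyB3B2EzF ttNE2B3B2H2BzIzAyB3B2EzF coNE2B3B2H2BzIzAyB3B2EzF xNE2B3B2H2BzIzAyB3B2EzF ceNE2B3B2H2BzIzAyB3B2EzF_0 = true := by decide +kernel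

end MPb6P
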