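import Pool.Agent.Lib.MP_b6d339_lc.Cw.YE2B3H2BzIzB2H3B2EzF
import Pool.Agent.Lib.MP_b6d339_lc.Cw.XL

/-!
# Erdős 592, three levels: checks of claims
-/

namespace MPb6P

theorem zoNE2B3H2BzIzB2H3B2EzF_1 : cyO 60 7085 nnNE2B3H2BzIzB2H3B2EzF ttNE2B3H2BzIzB2H3B2EzF ceNE2B3H2BzIzB2H3B2EzF xNE2B3H2BzIzB2H3B2EzF coNE2B3H2BzIzB2H3B2EzF_1 = true := by decide +kernel

end MPb6P
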