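import Pool.Agent.Lib.MP_b6d339_lc.Cw.JE2A3xI3AyB2EzAzAyF
import Pool.Agent.Lib.MP_b6d339_lc.Cw.JE2A3xI3AyB2EzAzAzF
import Pool.Agent.Lib.MP_b6d339_lc.Cw.JE2B3B2H2BzIzAyB3B2EzF
import Pool.Agent.Lib.MP_b6d339_lc.Cw.JE2B3B2H2BzIzAyB3H3B2EzF
import Pool.Agent.Lib.MP_b6d339_lc.Cw.JE2B3B2H2BzIzByA3B2EzF
import Pool.Agent.Lib.MP_b6d339_lc.Cw.JE2B3H2BzH3B2EzA2A2F
import Pool.Agent.Lib.MP_b6d339_lc.Cw.JE2B3H2BzIzB2H3B2EzF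
import Pool.Agent.Lib.MP_b6d339_lc.Cw.P2
import Pool.Agent.Lib.MP_b6d339_lc.Cw.S5
import Pool.Agent.Lib.MP_b6d339_lc.Cw.S6
import Pool.Agent.Lib.MP_b6d339_lc.Cw.S7
import Pool.Agent.Lib.MP_b6d339_lc.Cw.T0
import Pool.Agent.Lib.MP_b6d339_lc.Cw.T1
import Pool.Agent.Lib.MP_b6d339_lc.Cw.T10
import Pool.Agent.Lib.MP_b6d339_lc.Cw.T12
import Pool.Agent.Lib.MP_b6d339_lc.Cw.T13
import Pool.Agent.Lib.MP_b6d339_lc.Cw.T14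
import Pool.Agent.Lib.MP_b6d339_lc.Cw.T15
import Pool.Agent.Lib.MP_b6d339_lc.Cw.T16
import Pool.Agent.Lib.MP_b6d339_lc.Cw.T17
import Pool.Agent.Lib.MP_b6d339_lc.Cw.T18
import Pool.Agent.Lib.MP_b6d339_lc.Cw.T19
import Pool.Agent.Lib.MP_b6d339_lc.Cw.T2
import Pool.Agent.Lib.MP_b6d339_lc.Cw.T20
import Pool.Agent.Lib.MP_b6d339_lc.Cw.T21
import Pool.Agent.Lib.MP_b6d339_lc.Cw.T22
import Pool.Agent.Lib.MP_b6d339_lc.Cw.T23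
import Pool.Agent.Lib.MP_b6d339_lc.Cw.T24
import Pool.Agent.Lib.MP_b6d339_lc.Cw.T25
import Pool.Agent.Lib.MP_b6d339_lc.Cw.T26
import Pool.Agent.Lib.MP_b6d339_lc.Cw.T27
import Pool.Agent.Lib.MP_b6d339_lc.Cw.T28
import Pool.Agent.Lib.MP_b6d339_lc.Cw.T29
import Pool.Agent.Lib.MP_b6d339_lc.Cw.T3
import Pool.Agent.Lib.MP_b6d339_lc.Cw.T30
import Pool.Agent.Lib.MP_b6d339_lc.Cw.T31
import Pool.Agent.Lib.MP_b6d339_lc.Cw.T32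
import Pool.Agent.Lib.MP_b6d339_lc.Cw.T33
import Pool.Agent.Lib.MP_b6d339_lc.Cw.T34
import Pool.Agent.Lib.MP_b6d339_lc.Cw.T35
import Pool.Agent.Lib.MP_b6d339_lc.Cw.T36
import Pool.Agent.Lib.MP_b6d339_lc.Cw.T4
import Pool.Agent.Lib.MP_b6d339_lc.Cw.T5
import Pool.Agent.Lib.MP_b6d339_lc.Cw.T6
import Pool.Agent.Lib.MP_b6d339_lc.Cw.T7
import Pool.Agent.Lib.MP_b6d339_lc.Cw.T8
import Pool.Agent.Lib.MP_b6d339_lc.Cw.T9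
import Pool.Agent.Lib.MP_b6d339_lc.Cw.XL
import Pool.Agent.Lib.MP_b6d339_lc.Cw.ZE2A3xI3AyB2EzAzAyF_0
import Pool.Agent.Lib.MP_b6d339_lc.Cw.ZE2A3xI3AyB2EzAzAzF_0
import Pool.Agent.Lib.MP_b6d339_lc.Cw.ZE2B3B2H2BzIzAyB3B2EzF_0
import Pool.Agent.Lib.MP_b6d339_lc.Cw.ZE2B3B2H2BzIzAyB3H3B2EzF_0
import Pool.Agent.Lib.MP_b6d339_lc.Cw.ZE2B3B2H2BzIzByA3B2EzF_0
import Pool.Agent.Lib.MP_b6d339_lc.Cw.ZE2B3H2BzH3B2EzA2A2F_0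
import Pool.Agent.Lib.MP_b6d339_lc.Cw.ZE2B3H2BzH3B2EzA2A2F_1
import Pool.Agent.Lib.MP_b6d339_lc.Cw.ZE2B3H2BzIzB2H3B2EzF_0
import Pool.Agent.Lib.MP_b6d339_lc.Cw.ZE2B3H2BzIzB2H3B2EzF_1
import Pool.Agent.Lib.MP_b6d339_lc.Cw.ZE2B3H2BzIzB2H3B2EzF_2
import Pool.Agent.Lib.MP_b6d339_lc.Pos.XTreeC
import Pool.Agent.Lib.MP_b6d339_lc.Pos.YQ

/-!
# Erdős 592, three levels: classes of words
-/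

namespace MPb6P

theorem iiNA2AzE2B3B2EzF_k : iiNA2AzE2B3B2EzF.Fa (Itm.ok 206) := (BT.Fa_mk (BT.Fa_mk (BT.Fa_mk (BT.Fa_leaf (P := Itm.ok 206) (iqb tp281_c)) (BT.Fa_leaf (P := Itm.ok 206) (iqf tp282_c))) (BT.Fa_leaf (P := Itm.ok 206) (iqb tp283_c))) (BT.Fa_mk (BT.Fa_leaf (P := Itm.ok 206) (iqb tp284_c)) (BT.Fa_leaf (P := Itm.ok 206) (iqf tp285_c))))

/-- all words of the class have labels -/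
theorem pokNA2AzE2B3B2EzF : POK 206 xNA2AzE2B3B2EzF :=
  y_pok (C0 := ceNA2AzE2B3B2EzF) (C1 := coNA2AzE2B3B2EzF) topNA2AzE2B3B2EzF nbNA2AzE2B3B2EzF (BT.Fa_of_all iiNA2AzE2B3B2EzF_c)
    (cyE_spec zeNA2AzE2B3B2EzF_0)
    (cyO_spec zoNA2AzE2B3B2EzF_0)
    iiNA2AzE2B3B2EzF_k

theorem iiNA2CzE2B3I3B2E_k : iiNA2CzE2B3I3B2E.Fa (Itm.ok 206) := (BT.Fa_mk (BT.Fa_mk (BT.Fa_mk (BT.Fa_leaf (P := Itm.ok 206) (iqb tp2402_c)) (BT.Fa_leaf (P := Itm.ok 206) (iqb tp1985_c))) (BT.Fa_leaf (P := Itm.ok 206) (iqf tp1420_c))) (BT.Fa_mk (BT.Fa_leaf (P := Itm.ok 206) (iqf tp202_c)) (BT.Fa_leaf (P := Itm.ok 206) (iqb tp2403_c))))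

/-- all words of the class have labels -/
theorem pokNA2CzE2B3I3B2E : POK 206 xNA2CzE2B3I3B2E :=
  y_pok (C0 := ceNA2CzE2B3I3B2E) (C1 := coNA2CzE2B3I3B2E) topNA2CzE2B3I3B2E nbNA2CzE2B3I3B2E (BT.Fa_of_all iiNA2CzE2B3I3B2E_c)
    (cyE_spec zeNA2CzE2B3I3B2E_0)
    (cyO_spec zoNA2CzE2B3I3B2E_0)
    iiNA2CzE2B3I3B2E_k

theorem iiNB3I3F_k : iiNB3I3F.Fa (Itm.ok 206) := (BT.Fa_mk (BT.Fa_mk (BT.Fa_mk (BT.Fa_mk (BT.Fa_mk (BT.Fa_mk (BT.Fa_leaf (P := Itm.ok 206) (iqb tp0_c)) (BT.Fa_leaf (P := Itm.ok 206) (iqb tp2_c))) (BT.Fa_mk (BT.Fa_leaf (P := Itm.ok 206) (iqb tp154_c)) (BT.Fa_leaf (P := Itm.ok 206) (iqf tp0_c)))) (BT.Fa_mk (BT.Fa_mk (BT.Fa_leaf (P := Itm.ok 206) (iqb tp155_c)) (BT.Fa_leaf (P := Itm.ok 206) (iqb tp4_c))) (BT.Fa_leaf (P := Itm.ok 206) (iqb tp156_c))))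 (BT.Fa_mk (BT.Fa_mk (BT.Fa_mk (BT.Fa_leaf (P := Itm.ok 206) (iqf tp157_c)) (BT.Fa_leaf (P := Itm.ok 206) (iqf tp158_c))) (BT.Fa_mk (BT.Fa_leaf (P := Itm.ok 206) (iqb tp159_c)) (BT.Fa_leaf (P := Itm.ok 206) (iqf tp160_c)))) (BT.Fa_mk (BT.Fa_mk (BT.Fa_leaf (P := Itm.ok 206) (iqb tp161_c)) (BT.Fa_leaf (P := Itm.ok 206) (iqb tp162_c))) (BT.Fa_leaf (P := Itm.ok 206) (iqb tp163_c))))) (BT.Fa_mk (BT.Fa_mk (BT.Fa_mk (BT.Fa_mk (BT.Fa_leaf (P := Itm.ok 206) (iqf tp164_c)) (BT.Fa_leaf (P := Itm.ok 206) (iqb tp165_c))) (BT.Fa_mk (BT.Fa_leaf (P := Itm.ok 206) (iqf tp139_c)) (BT.Fa_leaf (P := Itm.ok 206) (iqf tp166_c)))) (BT.Fa_mk (BT.Fa_mk (BT.Fa_leaf (P := Itm.ok 206) (iqf tp167_c)) (BT.Fa_leaf (P := Itm.ok 206) (iqf tp168_c))) (BT.Fa_leaf (P := Itm.ok 206) (iqb tp169_c))))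 (BT.Fa_mk (BT.Fa_mk (BT.Fa_mk (BT.Fa_leaf (P := Itm.ok 206) (iqf tp161_c)) (BT.Fa_leaf (P := Itm.ok 206) (iqf tp170_c))) (BT.Fa_mk (BT.Fa_leaf (P := Itm.ok 206) (iqf tp171_c)) (BT.Fa_leaf (P := Itm.ok 206) (iqf tp172_c)))) (BT.Fa_mk (BT.Fa_mk (BT.Fa_leaf (P := Itm.ok 206) (iqf tp173_c)) (BT.Fa_leaf (P := Itm.ok 206) (iqf tp174_c))) (BT.Fa_leaf (P := Itm.ok 206) (iqb tp171_c)))))) (BT.Fa_mk (BT.Fa_mk (BT.Fa_mk (BT.Fa_mk (BT.Fa_mk (BT.Fa_leaf (P := Itm.ok 206) (iqb tp164_c)) (BT.Fa_leaf (P := Itm.ok 206) (iqf tp175_c))) (BT.Fa_mk (BT.Fa_leaf (P := Itm.ok 206) (iqb tp176_c)) (BT.Fa_leaf (P := Itm.ok 206) (iqb tp177_c)))) (BT.Fa_mk (BT.Fa_mk (BT.Fa_leaf (P := Itm.ok 206) (iqf tp178_c)) (BT.Fa_leaf (P := Itm.ok 206) (iqf tp177_c))) (BT.Fa_leaf (P := Itm.ok 206)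 (iqb tp179_c)))) (BT.Fa_mk (BT.Fa_mk (BT.Fa_mk (BT.Fa_leaf (P := Itm.ok 206) (iqf tp180_c)) (BT.Fa_leaf (P := Itm.ok 206) (iqb tp181_c))) (BT.Fa_mk (BT.Fa_leaf (P := Itm.ok 206) (iqb tp182_c)) (BT.Fa_leaf (P := Itm.ok 206) (iqb tp183_c)))) (BT.Fa_mk (BT.Fa_mk (BT.Fa_leaf (P := Itm.ok 206) (iqb tp173_c)) (BT.Fa_leaf (P := Itm.ok 206) (iqb tp168_c))) (BT.Fa_leaf (P := Itm.ok 206) (iqf tp176_c))))) (BT.Fa_mk (BT.Fa_mk (BT.Fa_mk (BT.Fa_mk (BT.Fa_leaf (P := Itm.ok 206) (iqf tp184_c)) (BT.Fa_leaf (P := Itm.ok 206) (iqb tp185_c))) (BT.Fa_mk (BT.Fa_leaf (P := Itm.ok 206) (iqf tp186_c)) (BT.Fa_leaf (P := Itm.ok 206) (iqb tp187_c)))) (BT.Fa_mk (BT.Fa_mk (BT.Fa_leaf (P := Itm.ok 206) (iqb tp188_c)) (BT.Fa_leaf (P := Itm.ok 206) (iqf tp189_c))) (BT.Fa_leaf (P := Itm.ok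 206) (iqf tp190_c)))) (BT.Fa_mk (BT.Fa_mk (BT.Fa_mk (BT.Fa_leaf (P := Itm.ok 206) (iqf tp191_c)) (BT.Fa_leaf (P := Itm.ok 206) (iqf tp169_c))) (BT.Fa_leaf (P := Itm.ok 206) (iqb tp192_c))) (BT.Fa_mk (BT.Fa_mk (BT.Fa_leaf (P := Itm.ok 206) (iqf tp165_c)) (BT.Fa_leaf (P := Itm.ok 206) (iqb tp194_c))) (BT.Fa_leaf (P := Itm.ok 206) (iqf tp195_c)))))))

/-- all words of the class have labels -/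
theorem pokNB3I3F : POK 206 xNB3I3F :=
  y_pok (C0 := ceNB3I3F) (C1 := coNB3I3F) topNB3I3F nbNB3I3F (BT.Fa_of_all iiNB3I3F_c)
    (cyE_spec zeNB3I3F_0)
    (cyO_spec zoNB3I3F_0)
    iiNB3I3F_k

theorem iiNCzB3I3B2F_k : iiNCzB3I3B2F.Fa (Itm.ok 206) := (BT.Fa_mk (BT.Fa_leaf (P := Itm.ok 206) (iqb tp0_c)) (BT.Fa_leaf (P := Itm.ok 206) (iqb tp26_c)))

/-- all words of the class have labels -/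
theorem pokNCzB3I3B2F : POK 206 xNCzB3I3B2F :=
  y_pok (C0 := ceNCzB3I3B2F) (C1 := coNCzB3I3B2F) topNCzB3I3B2F nbNCzB3I3B2F (BT.Fa_of_all iiNCzB3I3B2F_c)
    (cyE_spec zeNCzB3I3B2F_0)
    (cyO_spec zoNCzB3I3B2F_0)
    iiNCzB3I3B2F_k

theorem iiNCzB3I3BzC_k : iiNCzB3I3BzC.Fa (Itm.ok 206) := (BT.Fa_leaf (P := Itm.ok 206) (iqf tp209_c))

/-- all words of the class have labels -/
theorem pokNCzB3I3BzC : POK 206 xNCzB3I3BzC :=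
  y_pok (C0 := ceNCzB3I3BzC) (C1 := coNCzB3I3BzC) topNCzB3I3BzC nbNCzB3I3BzC (BT.Fa_of_all iiNCzB3I3BzC_c)
    (cyE_spec zeNCzB3I3BzC_0)
    (cyO_spec zoNCzB3I3BzC_0)
    iiNCzB3I3BzC_k

theorem iiNCzB3I3BzC2F_k : iiNCzB3I3BzC2F.Fa (Itm.ok 206) := (BT.Fa_mk (BT.Fa_leaf (P := Itm.ok 206) (iqb tp0_c)) (BT.Fa_leaf (P := Itm.ok 206) (iqb tp26_c)))

/-- all words of the class have labels -/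
theorem pokNCzB3I3BzC2F : POK 206 xNCzB3I3BzC2F :=
  y_pok (C0 := ceNCzB3I3BzC2F) (C1 := coNCzB3I3BzC2F) topNCzB3I3BzC2F nbNCzB3I3BzC2F (BT.Fa_of_all iiNCzB3I3BzC2F_c)
    (cyE_spec zeNCzB3I3BzC2F_0)
    (cyO_spec zoNCzB3I3BzC2F_0)
    iiNCzB3I3BzC2F_k

theorem iiNCzE2B3B2EzF_k : iiNCzE2B3B2EzF.Fa (Itm.ok 206) := (BT.Fa_mk (BT.Fa_mk (BT.Fa_mk (BT.Fa_mk (BT.Fa_mk (BT.Fa_mk (BT.Fa_leaf (P := Itm.ok 206) (iqb tp286_c)) (BT.Fa_leaf (P := Itm.ok 206) (iqf tp287_c))) (BT.Fa_leaf (P := Itm.ok 206) (iqb tp288_c))) (BT.Fa_mk (BT.Fa_leaf (P := Itm.ok 206) (iqb tp289_c)) (BT.Fa_leaf (P := Itm.ok 206) (iqb tp290_c)))) (BT.Fa_mk (BT.Fa_mk (BT.Fa_leaf (P := Itm.ok 206) (iqf tp291_c)) (BT.Fa_leaf (P := Itm.ok 206) (iqb tp292_c))) (BT.Fa_mk (BT.Fa_leaf (P := Itm.ok 206) (iqb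 tp293_c)) (BT.Fa_leaf (P := Itm.ok 206) (iqb tp294_c))))) (BT.Fa_mk (BT.Fa_mk (BT.Fa_mk (BT.Fa_leaf (P := Itm.ok 206) (iqb tp295_c)) (BT.Fa_leaf (P := Itm.ok 206) (iqb tp296_c))) (BT.Fa_mk (BT.Fa_leaf (P := Itm.ok 206) (iqf tp22_c)) (BT.Fa_leaf (P := Itm.ok 206) (iqf tp297_c)))) (BT.Fa_mk (BT.Fa_mk (BT.Fa_leaf (P := Itm.ok 206) (iqf tp298_c)) (BT.Fa_leaf (P := Itm.ok 206) (iqb tp299_c))) (BT.Fa_mk (BT.Fa_leaf (P := Itm.ok 206) (iqf tp300_c)) (BT.Fa_leaf (P := Itm.ok 206) (iqb tp301_c)))))) (BT.Fa_mk (BT.Fa_mk (BT.Fa_mk (BT.Fa_mk (BT.Fa_mk (BT.Fa_leaf (P := Itm.ok 206) (iqb tp302_c)) (BT.Fa_leaf (P := Itm.ok 206) (iqb tp303_c))) (BT.Fa_leaf (P := Itm.ok 206) (iqb tp304_c))) (BT.Fa_mk (BT.Fa_leaf (P := Itm.ok 206) (iqb tp305_c)) (BT.Fa_leaf (P := Itm.ok 206)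 (iqf tp306_c)))) (BT.Fa_mk (BT.Fa_mk (BT.Fa_leaf (P := Itm.ok 206) (iqb tp307_c)) (BT.Fa_leaf (P := Itm.ok 206) (iqf tp295_c))) (BT.Fa_mk (BT.Fa_leaf (P := Itm.ok 206) (iqf tp308_c)) (BT.Fa_leaf (P := Itm.ok 206) (iqf tp309_c))))) (BT.Fa_mk (BT.Fa_mk (BT.Fa_mk (BT.Fa_leaf (P := Itm.ok 206) (iqf tp310_c)) (BT.Fa_leaf (P := Itm.ok 206) (iqb tp311_c))) (BT.Fa_mk (BT.Fa_leaf (P := Itm.ok 206) (iqb tp312_c)) (BT.Fa_leaf (P := Itm.ok 206) (iqf tp313_c)))) (BT.Fa_mk (BT.Fa_mk (BT.Fa_leaf (P := Itm.ok 206) (iqb tp314_c)) (BT.Fa_leaf (P := Itm.ok 206) (iqb tp315_c))) (BT.Fa_mk (BT.Fa_leaf (P := Itm.ok 206) (iqf tp316_c)) (BT.Fa_leaf (P := Itm.ok 206) (iqf tp317_c)))))))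

/-- all words of the class have labels -/
theorem pokNCzE2B3B2EzF : POK 206 xNCzE2B3B2EzF :=
  y_pok (C0 := ceNCzE2B3B2EzF) (C1 := coNCzE2B3B2EzF) topNCzE2B3B2EzF nbNCzE2B3B2EzF (BT.Fa_of_all iiNCzE2B3B2EzF_c)
    (cyE_spec zeNCzE2B3B2EzF_0)
    (cyO_spec zoNCzE2B3B2EzF_0)
    iiNCzE2B3B2EzF_k

theorem iiNCzE2B3I3B2E_k : iiNCzE2B3I3B2E.Fa (Itm.ok 206) := (BT.Fa_mk (BT.Fa_mk (BT.Fa_mk (BT.Fa_mk (BT.Fa_mk (BT.Fa_leaf (P := Itm.ok 206) (iqb tp2131_c)) (BT.Fa_leaf (P := Itm.ok 206) (iqf tp694_c))) (BT.Fa_leaf (P := Itm.ok 206) (iqf tp2065_c))) (BT.Fa_mk (BT.Fa_mk (BT.Fa_leaf (P := Itm.ok 206) (iqf tp1356_c)) (BT.Fa_leaf (P := Itm.ok 206) (iqb tp401_c))) (BT.Fa_leaf (P := Itm.ok 206) (iqb tp1741_c)))) (BT.Fa_mk (BT.Fa_mk (BT.Fa_mk (BT.Fa_leaf (P := Itm.ok 206)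 (iqb tp1920_c)) (BT.Fa_leaf (P := Itm.ok 206) (iqf tp2449_c))) (BT.Fa_leaf (P := Itm.ok 206) (iqb tp240_c))) (BT.Fa_mk (BT.Fa_leaf (P := Itm.ok 206) (iqf tp493_c)) (BT.Fa_leaf (P := Itm.ok 206) (iqb tp1730_c))))) (BT.Fa_mk (BT.Fa_mk (BT.Fa_mk (BT.Fa_mk (BT.Fa_leaf (P := Itm.ok 206) (iqf tp2730_c)) (BT.Fa_leaf (P := Itm.ok 206) (iqf tp2661_c))) (BT.Fa_leaf (P := Itm.ok 206) (iqf tp294_c))) (BT.Fa_mk (BT.Fa_mk (BT.Fa_leaf (P := Itm.ok 206) (iqb tp1576_c)) (BT.Fa_leaf (P := Itm.ok 206) (iqb tp2658_c))) (BT.Fa_leaf (P := Itm.ok 206) (iqf tp2699_c)))) (BT.Fa_mk (BT.Fa_mk (BT.Fa_mk (BT.Fa_leaf (P := Itm.ok 206) (iqf tp2845_c)) (BT.Fa_leaf (P := Itm.ok 206) (iqf tp2611_c))) (BT.Fa_leaf (P := Itm.ok 206) (iqf tp2711_c))) (BT.Fa_mk (BT.Fa_leaf (P := Itm.ok 206) (iqb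 tp188_c)) (BT.Fa_leaf (P := Itm.ok 206) (iqb tp2846_c))))))

/-- all words of the class have labels -/
theorem pokNCzE2B3I3B2E : POK 206 xNCzE2B3I3B2E :=
  y_pok (C0 := ceNCzE2B3I3B2E) (C1 := coNCzE2B3I3B2E) topNCzE2B3I3B2E nbNCzE2B3I3B2E (BT.Fa_of_all iiNCzE2B3I3B2E_c)
    (cyE_spec zeNCzE2B3I3B2E_0)
    (cyO_spec zoNCzE2B3I3B2E_0)
    iiNCzE2B3I3B2E_k

theorem iiNE2A3xI3AyB2EzAzAyF_k : iiNE2A3xI3AyB2EzAzAyF.Fa (Itm.ok 206) := (BT.Fa_mk (BT.Fa_mk (BT.Fa_mk (BT.Fa_mk (BT.Fa_mk (BT.Fa_mk (BT.Fa_mk (BT.Fa_leaf (P := Itm.ok 206) (iqb tp1420_c)) (BT.Fa_leaf (P := Itm.ok 206) (iqb tp420_c))) (BT.Fa_leaf (P := Itm.ok 206) (iqf tp785_c))) (BT.Fa_mk (BT.Fa_leaf (P := Itm.ok 206) (iqf tp1426_c)) (BT.Fa_leaf (P := Itm.ok 206) (iqf tp2049_c)))) (BT.Fa_mk (BT.Fa_mk (BT.Fa_leaf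 (P := Itm.ok 206) (iqf tp1896_c)) (BT.Fa_leaf (P := Itm.ok 206) (iqf tp2640_c))) (BT.Fa_mk (BT.Fa_leaf (P := Itm.ok 206) (iqf tp1920_c)) (BT.Fa_leaf (P := Itm.ok 206) (iqb tp2103_c))))) (BT.Fa_mk (BT.Fa_mk (BT.Fa_mk (BT.Fa_mk (BT.Fa_leaf (P := Itm.ok 206) (iqf tp377_c)) (BT.Fa_leaf (P := Itm.ok 206) (iqb tp1813_c))) (BT.Fa_leaf (P := Itm.ok 206) (iqf tp2415_c))) (BT.Fa_mk (BT.Fa_leaf (P := Itm.ok 206) (iqb tp2099_c)) (BT.Fa_leaf (P := Itm.ok 206) (iqf tp2645_c)))) (BT.Fa_mk (BT.Fa_mk (BT.Fa_leaf (P := Itm.ok 206) (iqf tp2045_c)) (BT.Fa_leaf (P := Itm.ok 206) (iqb tp2140_c))) (BT.Fa_mk (BT.Fa_leaf (P := Itm.ok 206) (iqf tp2462_c)) (BT.Fa_leaf (P := Itm.ok 206) (iqb tp1099_c)))))) (BT.Fa_mk (BT.Fa_mk (BT.Fa_mk (BT.Fa_mk (BT.Fa_mk (BT.Fa_leaf (P := Itm.ok 206)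 (iqb tp2052_c)) (BT.Fa_leaf (P := Itm.ok 206) (iqf tp2048_c))) (BT.Fa_leaf (P := Itm.ok 206) (iqf tp2196_c))) (BT.Fa_mk (BT.Fa_leaf (P := Itm.ok 206) (iqf tp2687_c)) (BT.Fa_leaf (P := Itm.ok 206) (iqf tp2131_c)))) (BT.Fa_mk (BT.Fa_mk (BT.Fa_leaf (P := Itm.ok 206) (iqf tp2141_c)) (BT.Fa_leaf (P := Itm.ok 206) (iqf tp477_c))) (BT.Fa_mk (BT.Fa_leaf (P := Itm.ok 206) (iqf tp2683_c)) (BT.Fa_leaf (P := Itm.ok 206) (iqb tp2181_c))))) (BT.Fa_mk (BT.Fa_mk (BT.Fa_mk (BT.Fa_leaf (P := Itm.ok 206) (iqb tp2991_c)) (BT.Fa_leaf (P := Itm.ok 206) (iqf tp1995_c))) (BT.Fa_mk (BT.Fa_leaf (P := Itm.ok 206) (iqf tp2133_c)) (BT.Fa_leaf (P := Itm.ok 206) (iqb tp2467_c)))) (BT.Fa_mk (BT.Fa_mk (BT.Fa_leaf (P := Itm.ok 206) (iqb tp2615_c)) (BT.Fa_leaf (P := Itm.ok 206) (iqb tp359_c)))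 (BT.Fa_mk (BT.Fa_leaf (P := Itm.ok 206) (iqf tp1986_c)) (BT.Fa_leaf (P := Itm.ok 206) (iqb tp375_c))))))) (BT.Fa_mk (BT.Fa_mk (BT.Fa_mk (BT.Fa_mk (BT.Fa_mk (BT.Fa_mk (BT.Fa_leaf (P := Itm.ok 206) (iqb tp2878_c)) (BT.Fa_leaf (P := Itm.ok 206) (iqb tp2075_c))) (BT.Fa_leaf (P := Itm.ok 206) (iqf tp537_c))) (BT.Fa_mk (BT.Fa_leaf (P := Itm.ok 206) (iqb tp2119_c)) (BT.Fa_leaf (P := Itm.ok 206) (iqf tp2202_c)))) (BT.Fa_mk (BT.Fa_mk (BT.Fa_leaf (P := Itm.ok 206) (iqf tp2650_c)) (BT.Fa_leaf (P := Itm.ok 206) (show Itm.ok 206 (.pat 1085 pq207) from (POK.mono (by decide) pq207_ok)))) (BT.Fa_mk (BT.Fa_leaf (P := Itm.ok 206) (show Itm.ok 206 (.pat 1133 pq208) from (POK.mono (by decide) pq208_ok))) (BT.Fa_leaf (P := Itm.ok 206) (show Itm.ok 206 (.pat 1183 pq209) from (POK.mono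 (by decide) pq209_ok)))))) (BT.Fa_mk (BT.Fa_mk (BT.Fa_mk (BT.Fa_leaf (P := Itm.ok 206) (show Itm.ok 206 (.pat 1231 pq210) from (POK.mono (by decide) pq210_ok))) (BT.Fa_leaf (P := Itm.ok 206) (show Itm.ok 206 (.pat 1277 pq211) from (POK.mono (by decide) pq211_ok)))) (BT.Fa_mk (BT.Fa_leaf (P := Itm.ok 206) (show Itm.ok 206 (.pat 1327 pq212) from (POK.mono (by decide) pq212_ok))) (BT.Fa_leaf (P := Itm.ok 206) (show Itm.ok 206 (.pat 1377 pq213) from (POK.mono (by decide) pq213_ok))))) (BT.Fa_mk (BT.Fa_mk (BT.Fa_leaf (P := Itm.ok 206) (show Itm.ok 206 (.pat 1425 pq214) from (POK.mono (by decide) pq214_ok))) (BT.Fa_leaf (P := Itm.ok 206) (show Itm.ok 206 (.pat 1473 pq215) from (POK.mono (by decide) pq215_ok)))) (BT.Fa_mk (BT.Fa_leaf (P := Itm.ok 206) (iqf tp1733_c))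 (BT.Fa_leaf (P := Itm.ok 206) (iqb tp2203_c)))))) (BT.Fa_mk (BT.Fa_mk (BT.Fa_mk (BT.Fa_mk (BT.Fa_mk (BT.Fa_leaf (P := Itm.ok 206) (iqf tp2054_c)) (BT.Fa_leaf (P := Itm.ok 206) (iqf tp725_c))) (BT.Fa_leaf (P := Itm.ok 206) (show Itm.ok 206 (.pat 1620 pq216) from (POK.mono (by decide) pq216_ok)))) (BT.Fa_mk (BT.Fa_leaf (P := Itm.ok 206) (show Itm.ok 206 (.pat 1670 pq217) from (POK.mono (by decide) pq217_ok))) (BT.Fa_leaf (P := Itm.ok 206) (show Itm.ok 206 (.pat 1720 pq218) from (POK.mono (by decide) pq218_ok))))) (BT.Fa_mk (BT.Fa_mk (BT.Fa_leaf (P := Itm.ok 206) (iqf tp2992_c)) (BT.Fa_leaf (P := Itm.ok 206) (iqb tp2879_c))) (BT.Fa_mk (BT.Fa_leaf (P := Itm.ok 206) (show Itm.ok 206 (.pat 1825 pq219) from (POK.mono (by decide) pq219_ok))) (BT.Fa_leaf (P := Itm.ok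 206) (show Itm.ok 206 (.pat 1873 pq220) from (POK.mono (by decide) pq220_ok)))))) (BT.Fa_mk (BT.Fa_mk (BT.Fa_mk (BT.Fa_leaf (P := Itm.ok 206) (show Itm.ok 206 (.pat 1921 pq221) from (POK.mono (by decide) pq221_ok))) (BT.Fa_leaf (P := Itm.ok 206) (show Itm.ok 206 (.pat 1975 pq222) from (POK.mono (by decide) pq222_ok)))) (BT.Fa_mk (BT.Fa_leaf (P := Itm.ok 206) (show Itm.ok 206 (.pat 2023 pq223) from (POK.mono (by decide) pq223_ok))) (BT.Fa_leaf (P := Itm.ok 206) (iqb tp2060_c)))) (BT.Fa_mk (BT.Fa_mk (BT.Fa_leaf (P := Itm.ok 206) (iqb tp2993_c)) (BT.Fa_leaf (P := Itm.ok 206) (show Itm.ok 206 (.pat 2108 pq224) from (POK.mono (by decide) pq224_ok)))) (BT.Fa_mk (BT.Fa_leaf (P := Itm.ok 206) (show Itm.ok 206 (.pat 2160 pq225) from (POK.mono (by decide) pq225_ok)))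 (BT.Fa_leaf (P := Itm.ok 206) (show Itm.ok 206 (.pat 2214 pq226) from (POK.mono (by decide) pq226_ok)))))))))

/-- all words of the class have labels -/
theorem pokNE2A3xI3AyB2EzAzAyF : POK 206 xNE2A3xI3AyB2EzAzAyF :=
  y_pok (C0 := ceNE2A3xI3AyB2EzAzAyF) (C1 := coNE2A3xI3AyB2EzAzAyF) topNE2A3xI3AyB2EzAzAyF nbNE2A3xI3AyB2EzAzAyF (BT.Fa_of_all iiNE2A3xI3AyB2EzAzAyF_c)
    (cyE_spec zeNE2A3xI3AyB2EzAzAyF_0)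
    (cyO_spec zoNE2A3xI3AyB2EzAzAyF_0)
    iiNE2A3xI3AyB2EzAzAyF_k

theorem iiNE2A3xI3AyB2EzAzAzF_k : iiNE2A3xI3AyB2EzAzAzF.Fa (Itm.ok 206) := (BT.Fa_mk (BT.Fa_mk (BT.Fa_mk (BT.Fa_mk (BT.Fa_mk (BT.Fa_mk (BT.Fa_mk (BT.Fa_leaf (P := Itm.ok 206) (iqb tp2056_c)) (BT.Fa_leaf (P := Itm.ok 206) (iqb tp2590_c))) (BT.Fa_leaf (P := Itm.ok 206) (iqf tp2462_c))) (BT.Fa_mk (BT.Fa_mk (BT.Fa_leaf (P := Itm.ok 206) (iqf tp2049_c)) (BT.Fa_leaf (P := Itm.ok 206) (iqf tp477_c))) (BT.Fa_leaf (P := Itm.ok 206) (iqb tp2866_c)))) (BT.Fa_mk (BT.Fa_mk (BT.Fa_mk (BT.Fa_leaf (P := Itm.ok 206) (iqb tp1420_c)) (BT.Fa_leaf (P := Itm.ok 206) (iqb tp420_c))) (BT.Fa_leaf (P := Itm.ok 206) (iqf tp785_c))) (BT.Fa_mk (BT.Fa_leaf (P := Itm.ok 206) (iqf tp1426_c)) (BT.Fa_leaf (P := Itm.ok 206)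 (iqf tp2640_c))))) (BT.Fa_mk (BT.Fa_mk (BT.Fa_mk (BT.Fa_mk (BT.Fa_leaf (P := Itm.ok 206) (iqf tp1920_c)) (BT.Fa_leaf (P := Itm.ok 206) (iqf tp377_c))) (BT.Fa_leaf (P := Itm.ok 206) (iqb tp2099_c))) (BT.Fa_mk (BT.Fa_mk (BT.Fa_leaf (P := Itm.ok 206) (iqf tp2045_c)) (BT.Fa_leaf (P := Itm.ok 206) (iqf tp2642_c))) (BT.Fa_leaf (P := Itm.ok 206) (iqb tp2615_c)))) (BT.Fa_mk (BT.Fa_mk (BT.Fa_mk (BT.Fa_leaf (P := Itm.ok 206) (iqb tp375_c)) (BT.Fa_leaf (P := Itm.ok 206) (iqf tp537_c))) (BT.Fa_leaf (P := Itm.ok 206) (iqb tp359_c))) (BT.Fa_mk (BT.Fa_leaf (P := Itm.ok 206) (iqf tp433_c)) (BT.Fa_leaf (P := Itm.ok 206) (iqb tp1732_c)))))) (BT.Fa_mk (BT.Fa_mk (BT.Fa_mk (BT.Fa_mk (BT.Fa_mk (BT.Fa_leaf (P := Itm.ok 206) (iqf tp2054_c)) (BT.Fa_leaf (P := Itm.ok 206) (iqb tp2181_c)))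 (BT.Fa_leaf (P := Itm.ok 206) (iqb tp1813_c))) (BT.Fa_mk (BT.Fa_mk (BT.Fa_leaf (P := Itm.ok 206) (iqf tp2048_c)) (BT.Fa_leaf (P := Itm.ok 206) (iqf tp1995_c))) (BT.Fa_leaf (P := Itm.ok 206) (iqb tp2119_c)))) (BT.Fa_mk (BT.Fa_mk (BT.Fa_mk (BT.Fa_leaf (P := Itm.ok 206) (iqf tp2141_c)) (BT.Fa_leaf (P := Itm.ok 206) (iqb tp2052_c))) (BT.Fa_leaf (P := Itm.ok 206) (iqf tp2196_c))) (BT.Fa_mk (BT.Fa_leaf (P := Itm.ok 206) (iqf tp1897_c)) (BT.Fa_leaf (P := Itm.ok 206) (iqf tp2131_c))))) (BT.Fa_mk (BT.Fa_mk (BT.Fa_mk (BT.Fa_mk (BT.Fa_leaf (P := Itm.ok 206) (iqf tp2128_c)) (BT.Fa_leaf (P := Itm.ok 206) (iqf tp2132_c))) (BT.Fa_leaf (P := Itm.ok 206) (iqf tp2683_c))) (BT.Fa_mk (BT.Fa_leaf (P := Itm.ok 206) (iqb tp2067_c)) (BT.Fa_leaf (P := Itm.ok 206) (iqb tp2075_c))))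 (BT.Fa_mk (BT.Fa_mk (BT.Fa_mk (BT.Fa_leaf (P := Itm.ok 206) (iqb tp2203_c)) (BT.Fa_leaf (P := Itm.ok 206) (iqb tp2467_c))) (BT.Fa_leaf (P := Itm.ok 206) (iqb tp2140_c))) (BT.Fa_mk (BT.Fa_leaf (P := Itm.ok 206) (iqb tp2874_c)) (BT.Fa_leaf (P := Itm.ok 206) (show Itm.ok 206 (.pat 1133 pq177) from (POK.mono (by decide) pq177_ok)))))))) (BT.Fa_mk (BT.Fa_mk (BT.Fa_mk (BT.Fa_mk (BT.Fa_mk (BT.Fa_mk (BT.Fa_leaf (P := Itm.ok 206) (show Itm.ok 206 (.pat 1185 pq178) from (POK.mono (by decide) pq178_ok))) (BT.Fa_leaf (P := Itm.ok 206) (show Itm.ok 206 (.pat 1233 pq179) from (POK.mono (by decide) pq179_ok)))) (BT.Fa_leaf (P := Itm.ok 206) (show Itm.ok 206 (.pat 1279 pq180) from (POK.mono (by decide) pq180_ok)))) (BT.Fa_mk (BT.Fa_mk (BT.Fa_leaf (P := Itm.ok 206) (show Itm.ok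 206 (.pat 1329 pq181) from (POK.mono (by decide) pq181_ok))) (BT.Fa_leaf (P := Itm.ok 206) (show Itm.ok 206 (.pat 1381 pq182) from (POK.mono (by decide) pq182_ok)))) (BT.Fa_leaf (P := Itm.ok 206) (show Itm.ok 206 (.pat 1435 pq183) from (POK.mono (by decide) pq183_ok))))) (BT.Fa_mk (BT.Fa_mk (BT.Fa_mk (BT.Fa_leaf (P := Itm.ok 206) (show Itm.ok 206 (.pat 1489 pq184) from (POK.mono (by decide) pq184_ok))) (BT.Fa_leaf (P := Itm.ok 206) (show Itm.ok 206 (.pat 1541 pq185) from (POK.mono (by decide) pq185_ok)))) (BT.Fa_leaf (P := Itm.ok 206) (show Itm.ok 206 (.pat 1593 pq186) from (POK.mono (by decide) pq186_ok)))) (BT.Fa_mk (BT.Fa_leaf (P := Itm.ok 206) (show Itm.ok 206 (.pat 1639 pq187) from (POK.mono (by decide) pq187_ok))) (BT.Fa_leaf (P := Itm.ok 206) (show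 Itm.ok 206 (.pat 1687 pq188) from (POK.mono (by decide) pq188_ok)))))) (BT.Fa_mk (BT.Fa_mk (BT.Fa_mk (BT.Fa_mk (BT.Fa_leaf (P := Itm.ok 206) (show Itm.ok 206 (.pat 1743 pq189) from (POK.mono (by decide) pq189_ok))) (BT.Fa_leaf (P := Itm.ok 206) (show Itm.ok 206 (.pat 1791 pq190) from (POK.mono (by decide) pq190_ok)))) (BT.Fa_leaf (P := Itm.ok 206) (show Itm.ok 206 (.pat 1837 pq191) from (POK.mono (by decide) pq191_ok)))) (BT.Fa_mk (BT.Fa_leaf (P := Itm.ok 206) (show Itm.ok 206 (.pat 1889 pq192) from (POK.mono (by decide) pq192_ok))) (BT.Fa_leaf (P := Itm.ok 206) (show Itm.ok 206 (.pat 1943 pq193) from (POK.mono (by decide) pq193_ok))))) (BT.Fa_mk (BT.Fa_mk (BT.Fa_mk (BT.Fa_leaf (P := Itm.ok 206) (show Itm.ok 206 (.pat 1999 pq194) from (POK.mono (by decide)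 pq194_ok))) (BT.Fa_leaf (P := Itm.ok 206) (iqb tp1099_c))) (BT.Fa_leaf (P := Itm.ok 206) (iqf tp2687_c))) (BT.Fa_mk (BT.Fa_leaf (P := Itm.ok 206) (iqb tp2875_c)) (BT.Fa_leaf (P := Itm.ok 206) (iqb tp2876_c)))))) (BT.Fa_mk (BT.Fa_mk (BT.Fa_mk (BT.Fa_mk (BT.Fa_mk (BT.Fa_leaf (P := Itm.ok 206) (iqf tp2008_c)) (BT.Fa_leaf (P := Itm.ok 206) (iqb tp1941_c))) (BT.Fa_leaf (P := Itm.ok 206) (iqf tp2877_c))) (BT.Fa_mk (BT.Fa_mk (BT.Fa_leaf (P := Itm.ok 206) (show Itm.ok 206 (.pat 2325 pq195) from (POK.mono (by decide) pq195_ok))) (BT.Fa_leaf (P := Itm.ok 206) (show Itm.ok 206 (.pat 2369 pq196) from (POK.mono (by decide) pq196_ok)))) (BT.Fa_leaf (P := Itm.ok 206) (show Itm.ok 206 (.pat 2415 pq197) from (POK.mono (by decide) pq197_ok))))) (BT.Fa_mk (BT.Fa_mk (BT.Fa_mk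 (BT.Fa_leaf (P := Itm.ok 206) (show Itm.ok 206 (.pat 2467 pq198) from (POK.mono (by decide) pq198_ok))) (BT.Fa_leaf (P := Itm.ok 206) (iqf tp1733_c))) (BT.Fa_leaf (P := Itm.ok 206) (iqf tp725_c))) (BT.Fa_mk (BT.Fa_leaf (P := Itm.ok 206) (iqb tp2878_c)) (BT.Fa_leaf (P := Itm.ok 206) (iqb tp2879_c))))) (BT.Fa_mk (BT.Fa_mk (BT.Fa_mk (BT.Fa_mk (BT.Fa_leaf (P := Itm.ok 206) (show Itm.ok 206 (.pat 2623 pq199) from (POK.mono (by decide) pq199_ok))) (BT.Fa_leaf (P := Itm.ok 206) (show Itm.ok 206 (.pat 2671 pq200) from (POK.mono (by decide) pq200_ok)))) (BT.Fa_leaf (P := Itm.ok 206) (show Itm.ok 206 (.pat 2721 pq201) from (POK.mono (by decide) pq201_ok)))) (BT.Fa_mk (BT.Fa_leaf (P := Itm.ok 206) (show Itm.ok 206 (.pat 2767 pq202) from (POK.mono (by decide) pq202_ok)))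 (BT.Fa_leaf (P := Itm.ok 206) (show Itm.ok 206 (.pat 2821 pq203) from (POK.mono (by decide) pq203_ok))))) (BT.Fa_mk (BT.Fa_mk (BT.Fa_mk (BT.Fa_leaf (P := Itm.ok 206) (show Itm.ok 206 (.pat 2873 pq204) from (POK.mono (by decide) pq204_ok))) (BT.Fa_leaf (P := Itm.ok 206) (show Itm.ok 206 (.pat 2921 pq205) from (POK.mono (by decide) pq205_ok)))) (BT.Fa_leaf (P := Itm.ok 206) (show Itm.ok 206 (.pat 2973 pq206) from (POK.mono (by decide) pq206_ok)))) (BT.Fa_mk (BT.Fa_leaf (P := Itm.ok 206) (iqb tp2060_c)) (BT.Fa_leaf (P := Itm.ok 206) (iqb tp2715_c))))))))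

/-- all words of the class have labels -/
theorem pokNE2A3xI3AyB2EzAzAzF : POK 206 xNE2A3xI3AyB2EzAzAzF :=
  y_pok (C0 := ceNE2A3xI3AyB2EzAzAzF) (C1 := coNE2A3xI3AyB2EzAzAzF) topNE2A3xI3AyB2EzAzAzF nbNE2A3xI3AyB2EzAzAzF (BT.Fa_of_all iiNE2A3xI3AyB2EzAzAzF_c)
    (cyE_spec zeNE2A3xI3AyB2EzAzAzF_0)
    (cyO_spec zoNE2A3xI3AyB2EzAzAzF_0)
    iiNE2A3xI3AyB2EzAzAzF_k

theorem iiNE2B3B2H2BzIzA3B2EzF_k : iiNE2B3B2H2BzIzA3B2EzF.Fa (Itm.ok 206) := (BT.Fa_leaf (P := Itm.ok 206) (iqf tp1576_c))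

/-- all words of the class have labels -/
theorem pokNE2B3B2H2BzIzA3B2EzF : POK 206 xNE2B3B2H2BzIzA3B2EzF :=
  y_pok (C0 := ceNE2B3B2H2BzIzA3B2EzF) (C1 := coNE2B3B2H2BzIzA3B2EzF) topNE2B3B2H2BzIzA3B2EzF nbNE2B3B2H2BzIzA3B2EzF (BT.Fa_of_all iiNE2B3B2H2BzIzA3B2EzF_c)
    (cyE_spec zeNE2B3B2H2BzIzA3B2EzF_0)
    (cyO_spec zoNE2B3B2H2BzIzA3B2EzF_0)
    iiNE2B3B2H2BzIzA3B2EzF_k

theorem iiNE2B3B2H2BzIzAyB3B2EzF_k : iiNE2B3B2H2BzIzAyB3B2EzF.Fa (Itm.ok 206) := (BT.Fa_mk (BT.Fa_mk (BT.Fa_mk (BT.Fa_mk (BT.Fa_mk (BT.Fa_mk (BT.Fa_mk (BT.Fa_leaf (P := Itm.ok 206) (iqf tp1762_c)) (BT.Fa_leaf (P := Itm.ok 206) (iqf tp1576_c))) (BT.Fa_mk (BT.Fa_leaf (P := Itm.ok 206) (iqf tp295_c)) (BT.Fa_leaf (P := Itm.ok 206) (iqb tp1768_c)))) (BT.Fa_mk (BT.Fa_mk (BT.Fa_leaf (P := Itm.ok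 206) (iqf tp2205_c)) (BT.Fa_leaf (P := Itm.ok 206) (iqb tp329_c))) (BT.Fa_mk (BT.Fa_leaf (P := Itm.ok 206) (iqb tp361_c)) (BT.Fa_leaf (P := Itm.ok 206) (iqf tp1766_c))))) (BT.Fa_mk (BT.Fa_mk (BT.Fa_mk (BT.Fa_leaf (P := Itm.ok 206) (iqb tp1771_c)) (BT.Fa_leaf (P := Itm.ok 206) (iqb tp2249_c))) (BT.Fa_mk (BT.Fa_leaf (P := Itm.ok 206) (iqf tp1763_c)) (BT.Fa_leaf (P := Itm.ok 206) (iqb tp1664_c)))) (BT.Fa_mk (BT.Fa_mk (BT.Fa_leaf (P := Itm.ok 206) (iqb tp1765_c)) (BT.Fa_leaf (P := Itm.ok 206) (iqf tp2953_c))) (BT.Fa_mk (BT.Fa_leaf (P := Itm.ok 206) (iqf tp1812_c)) (BT.Fa_leaf (P := Itm.ok 206) (iqb tp1798_c)))))) (BT.Fa_mk (BT.Fa_mk (BT.Fa_mk (BT.Fa_mk (BT.Fa_leaf (P := Itm.ok 206) (iqf tp2254_c)) (BT.Fa_leaf (P := Itm.ok 206) (iqb tp1794_c))) (BT.Fa_mk (BT.Fa_leaf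 (P := Itm.ok 206) (iqf tp1658_c)) (BT.Fa_leaf (P := Itm.ok 206) (iqf tp1799_c)))) (BT.Fa_mk (BT.Fa_mk (BT.Fa_leaf (P := Itm.ok 206) (iqf tp1807_c)) (BT.Fa_leaf (P := Itm.ok 206) (iqb tp2954_c))) (BT.Fa_mk (BT.Fa_leaf (P := Itm.ok 206) (iqf tp1760_c)) (BT.Fa_leaf (P := Itm.ok 206) (iqf tp2211_c))))) (BT.Fa_mk (BT.Fa_mk (BT.Fa_mk (BT.Fa_leaf (P := Itm.ok 206) (iqf tp2255_c)) (BT.Fa_leaf (P := Itm.ok 206) (iqf tp2229_c))) (BT.Fa_mk (BT.Fa_leaf (P := Itm.ok 206) (iqf tp2233_c)) (BT.Fa_leaf (P := Itm.ok 206) (iqf tp2209_c)))) (BT.Fa_mk (BT.Fa_mk (BT.Fa_leaf (P := Itm.ok 206) (iqf tp2955_c)) (BT.Fa_leaf (P := Itm.ok 206) (iqf tp1653_c))) (BT.Fa_mk (BT.Fa_leaf (P := Itm.ok 206) (iqf tp656_c)) (BT.Fa_leaf (P := Itm.ok 206) (iqf tp1833_c))))))) (BT.Fa_mk (BT.Fa_mk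 (BT.Fa_mk (BT.Fa_mk (BT.Fa_mk (BT.Fa_leaf (P := Itm.ok 206) (iqb tp1782_c)) (BT.Fa_leaf (P := Itm.ok 206) (iqf tp2252_c))) (BT.Fa_mk (BT.Fa_leaf (P := Itm.ok 206) (iqb tp1821_c)) (BT.Fa_leaf (P := Itm.ok 206) (iqb tp1785_c)))) (BT.Fa_mk (BT.Fa_mk (BT.Fa_leaf (P := Itm.ok 206) (iqf tp1787_c)) (BT.Fa_leaf (P := Itm.ok 206) (iqb tp1577_c))) (BT.Fa_mk (BT.Fa_leaf (P := Itm.ok 206) (iqb tp1792_c)) (BT.Fa_leaf (P := Itm.ok 206) (iqb tp1580_c))))) (BT.Fa_mk (BT.Fa_mk (BT.Fa_mk (BT.Fa_leaf (P := Itm.ok 206) (iqf tp1786_c)) (BT.Fa_leaf (P := Itm.ok 206) (iqf tp1764_c))) (BT.Fa_mk (BT.Fa_leaf (P := Itm.ok 206) (iqb tp2256_c)) (BT.Fa_leaf (P := Itm.ok 206) (iqb tp1803_c)))) (BT.Fa_mk (BT.Fa_mk (BT.Fa_leaf (P := Itm.ok 206) (iqb tp2253_c)) (BT.Fa_leaf (P := Itm.ok 206)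 (iqf tp1769_c))) (BT.Fa_mk (BT.Fa_leaf (P := Itm.ok 206) (iqf tp1870_c)) (BT.Fa_leaf (P := Itm.ok 206) (iqf tp1809_c)))))) (BT.Fa_mk (BT.Fa_mk (BT.Fa_mk (BT.Fa_mk (BT.Fa_leaf (P := Itm.ok 206) (iqf tp1783_c)) (BT.Fa_leaf (P := Itm.ok 206) (iqf tp2260_c))) (BT.Fa_mk (BT.Fa_leaf (P := Itm.ok 206) (iqb tp2261_c)) (BT.Fa_leaf (P := Itm.ok 206) (iqf tp2250_c)))) (BT.Fa_mk (BT.Fa_mk (BT.Fa_leaf (P := Itm.ok 206) (iqf tp2956_c)) (BT.Fa_leaf (P := Itm.ok 206) (iqf tp2957_c))) (BT.Fa_mk (BT.Fa_leaf (P := Itm.ok 206) (iqb tp1588_c)) (BT.Fa_leaf (P := Itm.ok 206) (iqf tp1817_c))))) (BT.Fa_mk (BT.Fa_mk (BT.Fa_mk (BT.Fa_leaf (P := Itm.ok 206) (iqb tp1820_c)) (BT.Fa_leaf (P := Itm.ok 206) (iqf tp1818_c))) (BT.Fa_mk (BT.Fa_leaf (P := Itm.ok 206) (iqf tp2206_c)) (BT.Fa_leaf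 (P := Itm.ok 206) (iqb tp2215_c)))) (BT.Fa_mk (BT.Fa_mk (BT.Fa_leaf (P := Itm.ok 206) (iqf tp1793_c)) (BT.Fa_leaf (P := Itm.ok 206) (iqf tp1776_c))) (BT.Fa_mk (BT.Fa_leaf (P := Itm.ok 206) (iqf tp2958_c)) (BT.Fa_leaf (P := Itm.ok 206) (iqb tp2228_c)))))))) (BT.Fa_mk (BT.Fa_mk (BT.Fa_mk (BT.Fa_mk (BT.Fa_mk (BT.Fa_mk (BT.Fa_leaf (P := Itm.ok 206) (iqf tp2852_c)) (BT.Fa_leaf (P := Itm.ok 206) (iqf tp2959_c))) (BT.Fa_mk (BT.Fa_leaf (P := Itm.ok 206) (iqf tp2234_c)) (BT.Fa_leaf (P := Itm.ok 206) (iqf tp2207_c)))) (BT.Fa_mk (BT.Fa_mk (BT.Fa_leaf (P := Itm.ok 206) (iqf tp2848_c)) (BT.Fa_leaf (P := Itm.ok 206) (iqf tp2850_c))) (BT.Fa_mk (BT.Fa_leaf (P := Itm.ok 206) (iqf tp2213_c)) (BT.Fa_leaf (P := Itm.ok 206) (iqb tp1824_c))))) (BT.Fa_mk (BT.Fa_mk (BT.Fa_mk (BT.Fa_leaf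 (P := Itm.ok 206) (iqf tp2960_c)) (BT.Fa_leaf (P := Itm.ok 206) (iqf tp2262_c))) (BT.Fa_mk (BT.Fa_leaf (P := Itm.ok 206) (iqf tp2225_c)) (BT.Fa_leaf (P := Itm.ok 206) (iqb tp2851_c)))) (BT.Fa_mk (BT.Fa_mk (BT.Fa_leaf (P := Itm.ok 206) (iqf tp2216_c)) (BT.Fa_leaf (P := Itm.ok 206) (iqf tp2214_c))) (BT.Fa_mk (BT.Fa_leaf (P := Itm.ok 206) (iqf tp2264_c)) (BT.Fa_leaf (P := Itm.ok 206) (iqb tp2574_c)))))) (BT.Fa_mk (BT.Fa_mk (BT.Fa_mk (BT.Fa_mk (BT.Fa_leaf (P := Itm.ok 206) (iqf tp1773_c)) (BT.Fa_leaf (P := Itm.ok 206) (iqf tp2210_c))) (BT.Fa_mk (BT.Fa_leaf (P := Itm.ok 206) (iqf tp1829_c)) (BT.Fa_leaf (P := Itm.ok 206) (iqf tp1781_c)))) (BT.Fa_mk (BT.Fa_mk (BT.Fa_leaf (P := Itm.ok 206) (iqb tp292_c)) (BT.Fa_leaf (P := Itm.ok 206) (iqf tp1588_c))) (BT.Fa_mk (BT.Fa_leaf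 (P := Itm.ok 206) (iqb tp1832_c)) (BT.Fa_leaf (P := Itm.ok 206) (iqb tp2265_c))))) (BT.Fa_mk (BT.Fa_mk (BT.Fa_mk (BT.Fa_leaf (P := Itm.ok 206) (iqb tp1576_c)) (BT.Fa_leaf (P := Itm.ok 206) (iqf tp1770_c))) (BT.Fa_mk (BT.Fa_leaf (P := Itm.ok 206) (iqb tp2266_c)) (BT.Fa_leaf (P := Itm.ok 206) (iqf tp1354_c)))) (BT.Fa_mk (BT.Fa_mk (BT.Fa_leaf (P := Itm.ok 206) (iqf tp2267_c)) (BT.Fa_leaf (P := Itm.ok 206) (iqb tp2268_c))) (BT.Fa_mk (BT.Fa_leaf (P := Itm.ok 206) (iqf tp2324_c)) (BT.Fa_leaf (P := Itm.ok 206) (iqf tp2269_c))))))) (BT.Fa_mk (BT.Fa_mk (BT.Fa_mk (BT.Fa_mk (BT.Fa_mk (BT.Fa_leaf (P := Itm.ok 206) (iqf tp292_c)) (BT.Fa_leaf (P := Itm.ok 206) (iqb tp2961_c))) (BT.Fa_mk (BT.Fa_leaf (P := Itm.ok 206) (iqb tp366_c)) (BT.Fa_leaf (P := Itm.ok 206) (iqf tp2218_c))))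 (BT.Fa_mk (BT.Fa_mk (BT.Fa_leaf (P := Itm.ok 206) (iqb tp514_c)) (BT.Fa_leaf (P := Itm.ok 206) (iqf tp2962_c))) (BT.Fa_mk (BT.Fa_leaf (P := Itm.ok 206) (iqf tp1848_c)) (BT.Fa_leaf (P := Itm.ok 206) (iqf tp1841_c))))) (BT.Fa_mk (BT.Fa_mk (BT.Fa_mk (BT.Fa_leaf (P := Itm.ok 206) (iqb tp2272_c)) (BT.Fa_leaf (P := Itm.ok 206) (iqf tp407_c))) (BT.Fa_mk (BT.Fa_leaf (P := Itm.ok 206) (iqf tp1388_c)) (BT.Fa_leaf (P := Itm.ok 206) (iqf tp1182_c)))) (BT.Fa_mk (BT.Fa_mk (BT.Fa_leaf (P := Itm.ok 206) (iqf tp2230_c)) (BT.Fa_leaf (P := Itm.ok 206) (iqf tp359_c))) (BT.Fa_mk (BT.Fa_leaf (P := Itm.ok 206) (iqb tp354_c)) (BT.Fa_leaf (P := Itm.ok 206) (iqb tp1611_c)))))) (BT.Fa_mk (BT.Fa_mk (BT.Fa_mk (BT.Fa_mk (BT.Fa_leaf (P := Itm.ok 206) (iqb tp1158_c)) (BT.Fa_leaf (P := Itm.ok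 206) (iqb tp2271_c))) (BT.Fa_mk (BT.Fa_leaf (P := Itm.ok 206) (iqf tp1849_c)) (BT.Fa_leaf (P := Itm.ok 206) (iqb tp2309_c)))) (BT.Fa_mk (BT.Fa_mk (BT.Fa_leaf (P := Itm.ok 206) (iqf tp2963_c)) (BT.Fa_leaf (P := Itm.ok 206) (iqb tp1855_c))) (BT.Fa_mk (BT.Fa_leaf (P := Itm.ok 206) (iqb tp2964_c)) (BT.Fa_leaf (P := Itm.ok 206) (iqb tp2306_c))))) (BT.Fa_mk (BT.Fa_mk (BT.Fa_mk (BT.Fa_leaf (P := Itm.ok 206) (iqf tp2247_c)) (BT.Fa_leaf (P := Itm.ok 206) (iqf tp1105_c))) (BT.Fa_mk (BT.Fa_leaf (P := Itm.ok 206) (iqb tp2270_c)) (BT.Fa_leaf (P := Itm.ok 206) (iqf tp2966_c)))) (BT.Fa_mk (BT.Fa_mk (BT.Fa_leaf (P := Itm.ok 206) (iqf tp2967_c)) (BT.Fa_leaf (P := Itm.ok 206) (iqb tp2501_c))) (BT.Fa_leaf (P := Itm.ok 206) (iqb tp1874_c))))))))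

/-- all words of the class have labels -/
theorem pokNE2B3B2H2BzIzAyB3B2EzF : POK 206 xNE2B3B2H2BzIzAyB3B2EzF :=
  y_pok (C0 := ceNE2B3B2H2BzIzAyB3B2EzF) (C1 := coNE2B3B2H2BzIzAyB3B2EzF) topNE2B3B2H2BzIzAyB3B2EzF nbNE2B3B2H2BzIzAyB3B2EzF (BT.Fa_of_all iiNE2B3B2H2BzIzAyB3B2EzF_c)
    (cyE_spec zeNE2B3B2H2BzIzAyB3B2EzF_0)
    (cyO_spec zoNE2B3B2H2BzIzAyB3B2EzF_0)
    iiNE2B3B2H2BzIzAyB3B2EzF_k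

theorem iiNE2B3B2H2BzIzAyB3H3B2EzF_k : iiNE2B3B2H2BzIzAyB3H3B2EzF.Fa (Itm.ok 206) := (BT.Fa_mk (BT.Fa_mk (BT.Fa_mk (BT.Fa_mk (BT.Fa_mk (BT.Fa_mk (BT.Fa_mk (BT.Fa_mk (BT.Fa_leaf (P := Itm.ok 206) (iqf tp1760_c)) (BT.Fa_leaf (P := Itm.ok 206) (iqf tp1761_c))) (BT.Fa_leaf (P := Itm.ok 206) (iqf tp1762_c))) (BT.Fa_mk (BT.Fa_leaf (P := Itm.ok 206) (iqf tp1763_c)) (BT.Fa_leaf (P := Itm.ok 206) (iqf tp1764_c)))) (BT.Fa_mk (BT.Fa_mk (BT.Fa_leaf (P := Itm.ok 206) (iqb tp1765_c)) (BT.Fa_leaf (P := Itm.ok 206) (iqf tp295_c))) (BT.Fa_mk (BT.Fa_leaf (P := Itm.ok 206) (iqb tp329_c)) (BT.Fa_leaf (P := Itm.ok 206) (iqf tp1766_c))))) (BT.Fa_mk (BT.Fa_mk (BT.Fa_mk (BT.Fa_mk (BT.Fa_leaf (P := Itm.ok 206) (iqb tp361_c)) (BT.Fa_leaf (P := Itm.ok 206) (iqb tp1737_c))) (BT.Fa_leaf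 (P := Itm.ok 206) (iqf tp1767_c))) (BT.Fa_mk (BT.Fa_leaf (P := Itm.ok 206) (iqb tp1768_c)) (BT.Fa_leaf (P := Itm.ok 206) (iqf tp1769_c)))) (BT.Fa_mk (BT.Fa_mk (BT.Fa_leaf (P := Itm.ok 206) (iqf tp1770_c)) (BT.Fa_leaf (P := Itm.ok 206) (iqb tp1771_c))) (BT.Fa_mk (BT.Fa_leaf (P := Itm.ok 206) (iqf tp1772_c)) (BT.Fa_leaf (P := Itm.ok 206) (iqf tp1773_c)))))) (BT.Fa_mk (BT.Fa_mk (BT.Fa_mk (BT.Fa_mk (BT.Fa_mk (BT.Fa_leaf (P := Itm.ok 206) (iqf tp656_c)) (BT.Fa_leaf (P := Itm.ok 206) (iqf tp1774_c))) (BT.Fa_leaf (P := Itm.ok 206) (iqb tp1732_c))) (BT.Fa_mk (BT.Fa_leaf (P := Itm.ok 206) (iqf tp1775_c)) (BT.Fa_leaf (P := Itm.ok 206) (iqf tp1776_c)))) (BT.Fa_mk (BT.Fa_mk (BT.Fa_leaf (P := Itm.ok 206) (iqb tp1777_c)) (BT.Fa_leaf (P := Itm.ok 206) (iqb tp1778_c))) (BT.Fa_mk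 (BT.Fa_leaf (P := Itm.ok 206) (iqb tp1779_c)) (BT.Fa_leaf (P := Itm.ok 206) (iqb tp1780_c))))) (BT.Fa_mk (BT.Fa_mk (BT.Fa_mk (BT.Fa_mk (BT.Fa_leaf (P := Itm.ok 206) (iqf tp1781_c)) (BT.Fa_leaf (P := Itm.ok 206) (iqb tp1588_c))) (BT.Fa_leaf (P := Itm.ok 206) (iqb tp1782_c))) (BT.Fa_mk (BT.Fa_leaf (P := Itm.ok 206) (iqf tp1783_c)) (BT.Fa_leaf (P := Itm.ok 206) (iqb tp1784_c)))) (BT.Fa_mk (BT.Fa_mk (BT.Fa_leaf (P := Itm.ok 206) (iqb tp1785_c)) (BT.Fa_leaf (P := Itm.ok 206) (iqf tp1786_c))) (BT.Fa_mk (BT.Fa_leaf (P := Itm.ok 206) (iqf tp1576_c)) (BT.Fa_leaf (P := Itm.ok 206) (iqf tp1787_c))))))) (BT.Fa_mk (BT.Fa_mk (BT.Fa_mk (BT.Fa_mk (BT.Fa_mk (BT.Fa_mk (BT.Fa_leaf (P := Itm.ok 206) (iqf tp1788_c)) (BT.Fa_leaf (P := Itm.ok 206) (iqf tp1789_c))) (BT.Fa_leaf (P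 := Itm.ok 206) (iqf tp1790_c))) (BT.Fa_mk (BT.Fa_leaf (P := Itm.ok 206) (iqf tp1791_c)) (BT.Fa_leaf (P := Itm.ok 206) (iqb tp1792_c)))) (BT.Fa_mk (BT.Fa_mk (BT.Fa_leaf (P := Itm.ok 206) (iqf tp1793_c)) (BT.Fa_leaf (P := Itm.ok 206) (iqb tp1794_c))) (BT.Fa_mk (BT.Fa_leaf (P := Itm.ok 206) (iqb tp1580_c)) (BT.Fa_leaf (P := Itm.ok 206) (iqb tp1795_c))))) (BT.Fa_mk (BT.Fa_mk (BT.Fa_mk (BT.Fa_mk (BT.Fa_leaf (P := Itm.ok 206) (iqf tp1796_c)) (BT.Fa_leaf (P := Itm.ok 206) (iqb tp1797_c))) (BT.Fa_leaf (P := Itm.ok 206) (iqb tp1798_c))) (BT.Fa_mk (BT.Fa_leaf (P := Itm.ok 206) (iqf tp1799_c)) (BT.Fa_leaf (P := Itm.ok 206) (iqb tp1800_c)))) (BT.Fa_mk (BT.Fa_mk (BT.Fa_leaf (P := Itm.ok 206) (iqb tp1801_c)) (BT.Fa_leaf (P := Itm.ok 206) (iqf tp1802_c))) (BT.Fa_mk (BT.Fa_leaf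 (P := Itm.ok 206) (iqb tp1803_c)) (BT.Fa_leaf (P := Itm.ok 206) (iqb tp1804_c)))))) (BT.Fa_mk (BT.Fa_mk (BT.Fa_mk (BT.Fa_mk (BT.Fa_mk (BT.Fa_leaf (P := Itm.ok 206) (iqf tp1805_c)) (BT.Fa_leaf (P := Itm.ok 206) (iqf tp1806_c))) (BT.Fa_leaf (P := Itm.ok 206) (iqf tp1807_c))) (BT.Fa_mk (BT.Fa_leaf (P := Itm.ok 206) (iqb tp1808_c)) (BT.Fa_leaf (P := Itm.ok 206) (iqf tp1809_c)))) (BT.Fa_mk (BT.Fa_mk (BT.Fa_leaf (P := Itm.ok 206) (iqf tp1810_c)) (BT.Fa_leaf (P := Itm.ok 206) (iqb tp1811_c))) (BT.Fa_mk (BT.Fa_leaf (P := Itm.ok 206) (iqf tp1812_c)) (BT.Fa_leaf (P := Itm.ok 206) (iqb tp1813_c))))) (BT.Fa_mk (BT.Fa_mk (BT.Fa_mk (BT.Fa_leaf (P := Itm.ok 206) (iqb tp1664_c)) (BT.Fa_leaf (P := Itm.ok 206) (iqf tp1814_c))) (BT.Fa_mk (BT.Fa_leaf (P := Itm.ok 206) (iqf tp1658_c))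 (BT.Fa_leaf (P := Itm.ok 206) (iqb tp1815_c)))) (BT.Fa_mk (BT.Fa_mk (BT.Fa_leaf (P := Itm.ok 206) (iqf tp1816_c)) (BT.Fa_leaf (P := Itm.ok 206) (iqf tp1817_c))) (BT.Fa_mk (BT.Fa_leaf (P := Itm.ok 206) (iqf tp1818_c)) (BT.Fa_leaf (P := Itm.ok 206) (iqb tp1819_c)))))))) (BT.Fa_mk (BT.Fa_mk (BT.Fa_mk (BT.Fa_mk (BT.Fa_mk (BT.Fa_mk (BT.Fa_mk (BT.Fa_leaf (P := Itm.ok 206) (iqb tp1820_c)) (BT.Fa_leaf (P := Itm.ok 206) (iqb tp1821_c))) (BT.Fa_leaf (P := Itm.ok 206) (iqf tp1822_c))) (BT.Fa_mk (BT.Fa_leaf (P := Itm.ok 206) (iqb tp1823_c)) (BT.Fa_leaf (P := Itm.ok 206) (iqb tp1824_c)))) (BT.Fa_mk (BT.Fa_mk (BT.Fa_leaf (P := Itm.ok 206) (iqf tp1825_c)) (BT.Fa_leaf (P := Itm.ok 206) (iqf tp1826_c))) (BT.Fa_mk (BT.Fa_leaf (P := Itm.ok 206) (iqb tp1827_c)) (BT.Fa_leaf (P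 := Itm.ok 206) (iqb tp1828_c))))) (BT.Fa_mk (BT.Fa_mk (BT.Fa_mk (BT.Fa_mk (BT.Fa_leaf (P := Itm.ok 206) (iqf tp1829_c)) (BT.Fa_leaf (P := Itm.ok 206) (iqf tp1830_c))) (BT.Fa_leaf (P := Itm.ok 206) (iqb tp1831_c))) (BT.Fa_mk (BT.Fa_leaf (P := Itm.ok 206) (iqb tp1832_c)) (BT.Fa_leaf (P := Itm.ok 206) (iqf tp1833_c)))) (BT.Fa_mk (BT.Fa_mk (BT.Fa_leaf (P := Itm.ok 206) (iqb tp1834_c)) (BT.Fa_leaf (P := Itm.ok 206) (iqb tp292_c))) (BT.Fa_mk (BT.Fa_leaf (P := Itm.ok 206) (iqb tp366_c)) (BT.Fa_leaf (P := Itm.ok 206) (iqf tp1835_c)))))) (BT.Fa_mk (BT.Fa_mk (BT.Fa_mk (BT.Fa_mk (BT.Fa_mk (BT.Fa_leaf (P := Itm.ok 206) (iqf tp1836_c)) (BT.Fa_leaf (P := Itm.ok 206) (iqf tp1388_c))) (BT.Fa_leaf (P := Itm.ok 206) (iqf tp1837_c))) (BT.Fa_mk (BT.Fa_leaf (P := Itm.ok 206) (iqb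 tp1838_c)) (BT.Fa_leaf (P := Itm.ok 206) (iqf tp1839_c)))) (BT.Fa_mk (BT.Fa_mk (BT.Fa_leaf (P := Itm.ok 206) (iqb tp1840_c)) (BT.Fa_leaf (P := Itm.ok 206) (iqf tp1841_c))) (BT.Fa_mk (BT.Fa_leaf (P := Itm.ok 206) (iqf tp1606_c)) (BT.Fa_leaf (P := Itm.ok 206) (iqf tp1842_c))))) (BT.Fa_mk (BT.Fa_mk (BT.Fa_mk (BT.Fa_leaf (P := Itm.ok 206) (iqf tp1843_c)) (BT.Fa_leaf (P := Itm.ok 206) (iqb tp1844_c))) (BT.Fa_mk (BT.Fa_leaf (P := Itm.ok 206) (iqb tp1576_c)) (BT.Fa_leaf (P := Itm.ok 206) (iqf tp1845_c)))) (BT.Fa_mk (BT.Fa_mk (BT.Fa_leaf (P := Itm.ok 206) (iqf tp1846_c)) (BT.Fa_leaf (P := Itm.ok 206) (iqf tp1847_c))) (BT.Fa_mk (BT.Fa_leaf (P := Itm.ok 206) (iqf tp1848_c)) (BT.Fa_leaf (P := Itm.ok 206) (iqf tp1849_c))))))) (BT.Fa_mk (BT.Fa_mk (BT.Fa_mk (BT.Fa_mk (BT.Fa_mk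 (BT.Fa_mk (BT.Fa_leaf (P := Itm.ok 206) (iqf tp1850_c)) (BT.Fa_leaf (P := Itm.ok 206) (iqf tp1851_c))) (BT.Fa_leaf (P := Itm.ok 206) (iqf tp1852_c))) (BT.Fa_mk (BT.Fa_leaf (P := Itm.ok 206) (iqb tp608_c)) (BT.Fa_leaf (P := Itm.ok 206) (iqb tp1853_c)))) (BT.Fa_mk (BT.Fa_mk (BT.Fa_leaf (P := Itm.ok 206) (iqb tp1695_c)) (BT.Fa_leaf (P := Itm.ok 206) (iqb tp346_c))) (BT.Fa_mk (BT.Fa_leaf (P := Itm.ok 206) (iqf tp1854_c)) (BT.Fa_leaf (P := Itm.ok 206) (iqb tp1855_c))))) (BT.Fa_mk (BT.Fa_mk (BT.Fa_mk (BT.Fa_mk (BT.Fa_leaf (P := Itm.ok 206) (iqb tp1856_c)) (BT.Fa_leaf (P := Itm.ok 206) (iqf tp1857_c))) (BT.Fa_leaf (P := Itm.ok 206) (iqf tp1858_c))) (BT.Fa_mk (BT.Fa_leaf (P := Itm.ok 206) (iqb tp1859_c)) (BT.Fa_leaf (P := Itm.ok 206) (iqf tp407_c)))) (BT.Fa_mk (BT.Fa_mk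 (BT.Fa_leaf (P := Itm.ok 206) (iqf tp1860_c)) (BT.Fa_leaf (P := Itm.ok 206) (iqf tp1861_c))) (BT.Fa_mk (BT.Fa_leaf (P := Itm.ok 206) (iqb tp1862_c)) (BT.Fa_leaf (P := Itm.ok 206) (iqb tp1863_c)))))) (BT.Fa_mk (BT.Fa_mk (BT.Fa_mk (BT.Fa_mk (BT.Fa_mk (BT.Fa_leaf (P := Itm.ok 206) (iqb tp1864_c)) (BT.Fa_leaf (P := Itm.ok 206) (iqf tp1865_c))) (BT.Fa_leaf (P := Itm.ok 206) (iqf tp1866_c))) (BT.Fa_mk (BT.Fa_leaf (P := Itm.ok 206) (iqb tp1867_c)) (BT.Fa_leaf (P := Itm.ok 206) (iqb tp514_c)))) (BT.Fa_mk (BT.Fa_mk (BT.Fa_leaf (P := Itm.ok 206) (iqb tp1868_c)) (BT.Fa_leaf (P := Itm.ok 206) (iqf tp1869_c))) (BT.Fa_mk (BT.Fa_leaf (P := Itm.ok 206) (iqf tp1870_c)) (BT.Fa_leaf (P := Itm.ok 206) (iqf tp1871_c))))) (BT.Fa_mk (BT.Fa_mk (BT.Fa_mk (BT.Fa_leaf (P := Itm.ok 206)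 (iqf tp1872_c)) (BT.Fa_leaf (P := Itm.ok 206) (iqb tp1873_c))) (BT.Fa_mk (BT.Fa_leaf (P := Itm.ok 206) (iqf tp1875_c)) (BT.Fa_leaf (P := Itm.ok 206) (iqb tp1876_c)))) (BT.Fa_mk (BT.Fa_mk (BT.Fa_leaf (P := Itm.ok 206) (iqb tp1877_c)) (BT.Fa_leaf (P := Itm.ok 206) (iqf tp1878_c))) (BT.Fa_mk (BT.Fa_leaf (P := Itm.ok 206) (iqf tp1880_c)) (BT.Fa_leaf (P := Itm.ok 206) (iqb tp1881_c)))))))))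

/-- all words of the class have labels -/
theorem pokNE2B3B2H2BzIzAyB3H3B2EzF : POK 206 xNE2B3B2H2BzIzAyB3H3B2EzF :=
  y_pok (C0 := ceNE2B3B2H2BzIzAyB3H3B2EzF) (C1 := coNE2B3B2H2BzIzAyB3H3B2EzF) topNE2B3B2H2BzIzAyB3H3B2EzF nbNE2B3B2H2BzIzAyB3H3B2EzF (BT.Fa_of_all iiNE2B3B2H2BzIzAyB3H3B2EzF_c)
    (cyE_spec zeNE2B3B2H2BzIzAyB3H3B2EzF_0)
    (cyO_spec zoNE2B3B2H2BzIzAyB3H3B2EzF_0)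
    iiNE2B3B2H2BzIzAyB3H3B2EzF_k

theorem iiNE2B3B2H2BzIzByA3B2EzF_k : iiNE2B3B2H2BzIzByA3B2EzF.Fa (Itm.ok 206) := (BT.Fa_mk (BT.Fa_mk (BT.Fa_mk (BT.Fa_mk (BT.Fa_mk (BT.Fa_mk (BT.Fa_mk (BT.Fa_leaf (P := Itm.ok 206) (iqf tp1762_c)) (BT.Fa_leaf (P := Itm.ok 206) (iqf tp1576_c))) (BT.Fa_mk (BT.Fa_leaf (P := Itm.ok 206) (iqf tp295_c)) (BT.Fa_leaf (P := Itm.ok 206) (iqb tp1768_c)))) (BT.Fa_mk (BT.Fa_mk (BT.Fa_leaf (P := Itm.ok 206) (iqf tp2205_c)) (BT.Fa_leaf (P := Itm.ok 206) (iqb tp329_c))) (BT.Fa_leaf (P := Itm.ok 206) (iqf tp1766_c)))) (BT.Fa_mk (BT.Fa_mk (BT.Fa_mk (BT.Fa_leaf (P := Itm.ok 206) (iqb tp2249_c)) (BT.Fa_leaf (P := Itm.ok 206) (iqb tp1771_c))) (BT.Fa_mk (BT.Fa_leaf (P := Itm.ok 206) (iqf tp656_c)) (BT.Fa_leaf (P := Itm.ok 206) (iqb tp1664_c))))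 (BT.Fa_mk (BT.Fa_mk (BT.Fa_leaf (P := Itm.ok 206) (iqb tp1820_c)) (BT.Fa_leaf (P := Itm.ok 206) (iqb tp1794_c))) (BT.Fa_leaf (P := Itm.ok 206) (iqf tp1783_c))))) (BT.Fa_mk (BT.Fa_mk (BT.Fa_mk (BT.Fa_mk (BT.Fa_leaf (P := Itm.ok 206) (iqf tp1799_c)) (BT.Fa_leaf (P := Itm.ok 206) (iqb tp1765_c))) (BT.Fa_mk (BT.Fa_leaf (P := Itm.ok 206) (iqf tp1658_c)) (BT.Fa_leaf (P := Itm.ok 206) (iqb tp1792_c)))) (BT.Fa_mk (BT.Fa_mk (BT.Fa_leaf (P := Itm.ok 206) (iqf tp1807_c)) (BT.Fa_leaf (P := Itm.ok 206) (iqf tp2250_c))) (BT.Fa_leaf (P := Itm.ok 206) (iqf tp2251_c)))) (BT.Fa_mk (BT.Fa_mk (BT.Fa_mk (BT.Fa_leaf (P := Itm.ok 206) (iqf tp2229_c)) (BT.Fa_leaf (P := Itm.ok 206) (iqb tp1780_c))) (BT.Fa_mk (BT.Fa_leaf (P := Itm.ok 206) (iqf tp2209_c)) (BT.Fa_leaf (P := Itm.ok 206)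 (iqf tp1763_c)))) (BT.Fa_mk (BT.Fa_mk (BT.Fa_leaf (P := Itm.ok 206) (iqf tp2211_c)) (BT.Fa_leaf (P := Itm.ok 206) (iqf tp1653_c))) (BT.Fa_leaf (P := Itm.ok 206) (iqb tp514_c)))))) (BT.Fa_mk (BT.Fa_mk (BT.Fa_mk (BT.Fa_mk (BT.Fa_mk (BT.Fa_leaf (P := Itm.ok 206) (iqb tp1782_c)) (BT.Fa_leaf (P := Itm.ok 206) (iqb tp1821_c))) (BT.Fa_mk (BT.Fa_leaf (P := Itm.ok 206) (iqf tp813_c)) (BT.Fa_leaf (P := Itm.ok 206) (iqb tp1785_c)))) (BT.Fa_mk (BT.Fa_mk (BT.Fa_leaf (P := Itm.ok 206) (iqb tp1577_c)) (BT.Fa_leaf (P := Itm.ok 206) (iqf tp1787_c))) (BT.Fa_leaf (P := Itm.ok 206) (iqb tp1580_c)))) (BT.Fa_mk (BT.Fa_mk (BT.Fa_mk (BT.Fa_leaf (P := Itm.ok 206) (iqf tp1786_c)) (BT.Fa_leaf (P := Itm.ok 206) (iqb tp1798_c))) (BT.Fa_mk (BT.Fa_leaf (P := Itm.ok 206) (iqf tp1793_c))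 (BT.Fa_leaf (P := Itm.ok 206) (iqf tp2252_c)))) (BT.Fa_mk (BT.Fa_mk (BT.Fa_leaf (P := Itm.ok 206) (iqf tp1822_c)) (BT.Fa_leaf (P := Itm.ok 206) (iqb tp2253_c))) (BT.Fa_leaf (P := Itm.ok 206) (iqf tp2254_c))))) (BT.Fa_mk (BT.Fa_mk (BT.Fa_mk (BT.Fa_mk (BT.Fa_leaf (P := Itm.ok 206) (iqf tp2255_c)) (BT.Fa_leaf (P := Itm.ok 206) (iqb tp2256_c))) (BT.Fa_mk (BT.Fa_leaf (P := Itm.ok 206) (iqb tp1803_c)) (BT.Fa_leaf (P := Itm.ok 206) (iqb tp361_c)))) (BT.Fa_mk (BT.Fa_mk (BT.Fa_leaf (P := Itm.ok 206) (iqf tp1764_c)) (BT.Fa_leaf (P := Itm.ok 206) (iqf tp2257_c))) (BT.Fa_leaf (P := Itm.ok 206) (iqb tp2258_c)))) (BT.Fa_mk (BT.Fa_mk (BT.Fa_mk (BT.Fa_leaf (P := Itm.ok 206) (iqf tp1769_c)) (BT.Fa_leaf (P := Itm.ok 206) (iqf tp2259_c))) (BT.Fa_leaf (P := Itm.ok 206) (iqb tp1778_c)))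 (BT.Fa_mk (BT.Fa_mk (BT.Fa_leaf (P := Itm.ok 206) (iqf tp1809_c)) (BT.Fa_leaf (P := Itm.ok 206) (iqf tp1817_c))) (BT.Fa_leaf (P := Itm.ok 206) (iqf tp2260_c))))))) (BT.Fa_mk (BT.Fa_mk (BT.Fa_mk (BT.Fa_mk (BT.Fa_mk (BT.Fa_mk (BT.Fa_leaf (P := Itm.ok 206) (iqb tp2261_c)) (BT.Fa_leaf (P := Itm.ok 206) (iqf tp1812_c))) (BT.Fa_mk (BT.Fa_leaf (P := Itm.ok 206) (iqf tp1818_c)) (BT.Fa_leaf (P := Itm.ok 206) (iqf tp2235_c)))) (BT.Fa_mk (BT.Fa_mk (BT.Fa_leaf (P := Itm.ok 206) (iqf tp2206_c)) (BT.Fa_leaf (P := Itm.ok 206) (iqb tp2215_c))) (BT.Fa_leaf (P := Itm.ok 206) (iqb tp1588_c)))) (BT.Fa_mk (BT.Fa_mk (BT.Fa_mk (BT.Fa_leaf (P := Itm.ok 206) (iqb tp2228_c)) (BT.Fa_leaf (P := Itm.ok 206) (iqf tp2218_c))) (BT.Fa_mk (BT.Fa_leaf (P := Itm.ok 206) (iqf tp2234_c)) (BT.Fa_leaf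 (P := Itm.ok 206) (iqf tp2207_c)))) (BT.Fa_mk (BT.Fa_mk (BT.Fa_leaf (P := Itm.ok 206) (iqf tp2213_c)) (BT.Fa_leaf (P := Itm.ok 206) (iqf tp2231_c))) (BT.Fa_leaf (P := Itm.ok 206) (iqb tp1777_c))))) (BT.Fa_mk (BT.Fa_mk (BT.Fa_mk (BT.Fa_mk (BT.Fa_leaf (P := Itm.ok 206) (iqf tp2233_c)) (BT.Fa_leaf (P := Itm.ok 206) (iqb tp1824_c))) (BT.Fa_mk (BT.Fa_leaf (P := Itm.ok 206) (iqf tp2262_c)) (BT.Fa_leaf (P := Itm.ok 206) (iqf tp2210_c)))) (BT.Fa_mk (BT.Fa_mk (BT.Fa_leaf (P := Itm.ok 206) (iqf tp2216_c)) (BT.Fa_leaf (P := Itm.ok 206) (iqf tp2214_c))) (BT.Fa_leaf (P := Itm.ok 206) (iqf tp1760_c)))) (BT.Fa_mk (BT.Fa_mk (BT.Fa_mk (BT.Fa_leaf (P := Itm.ok 206) (iqf tp2263_c)) (BT.Fa_leaf (P := Itm.ok 206) (iqf tp1773_c))) (BT.Fa_mk (BT.Fa_leaf (P := Itm.ok 206) (iqf tp2264_c))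 (BT.Fa_leaf (P := Itm.ok 206) (iqf tp1829_c)))) (BT.Fa_mk (BT.Fa_mk (BT.Fa_leaf (P := Itm.ok 206) (iqf tp1781_c)) (BT.Fa_leaf (P := Itm.ok 206) (iqb tp1832_c))) (BT.Fa_leaf (P := Itm.ok 206) (iqb tp292_c)))))) (BT.Fa_mk (BT.Fa_mk (BT.Fa_mk (BT.Fa_mk (BT.Fa_mk (BT.Fa_leaf (P := Itm.ok 206) (iqf tp1833_c)) (BT.Fa_leaf (P := Itm.ok 206) (iqb tp2265_c))) (BT.Fa_mk (BT.Fa_leaf (P := Itm.ok 206) (iqf tp1770_c)) (BT.Fa_leaf (P := Itm.ok 206) (iqb tp366_c)))) (BT.Fa_mk (BT.Fa_mk (BT.Fa_leaf (P := Itm.ok 206) (iqb tp1576_c)) (BT.Fa_leaf (P := Itm.ok 206) (iqb tp2266_c))) (BT.Fa_leaf (P := Itm.ok 206) (iqf tp2267_c)))) (BT.Fa_mk (BT.Fa_mk (BT.Fa_mk (BT.Fa_leaf (P := Itm.ok 206) (iqb tp2268_c)) (BT.Fa_leaf (P := Itm.ok 206) (iqf tp1354_c))) (BT.Fa_mk (BT.Fa_leaf (P :=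 Itm.ok 206) (iqf tp2269_c)) (BT.Fa_leaf (P := Itm.ok 206) (iqf tp1866_c)))) (BT.Fa_mk (BT.Fa_mk (BT.Fa_leaf (P := Itm.ok 206) (iqf tp1848_c)) (BT.Fa_leaf (P := Itm.ok 206) (iqf tp407_c))) (BT.Fa_leaf (P := Itm.ok 206) (iqb tp1611_c))))) (BT.Fa_mk (BT.Fa_mk (BT.Fa_mk (BT.Fa_mk (BT.Fa_leaf (P := Itm.ok 206) (iqf tp1588_c)) (BT.Fa_leaf (P := Itm.ok 206) (iqb tp1158_c))) (BT.Fa_mk (BT.Fa_leaf (P := Itm.ok 206) (iqb tp2270_c)) (BT.Fa_leaf (P := Itm.ok 206) (iqb tp2271_c)))) (BT.Fa_mk (BT.Fa_mk (BT.Fa_leaf (P := Itm.ok 206) (iqb tp2272_c)) (BT.Fa_leaf (P := Itm.ok 206) (iqf tp1473_c))) (BT.Fa_leaf (P := Itm.ok 206) (iqf tp1849_c)))) (BT.Fa_mk (BT.Fa_mk (BT.Fa_mk (BT.Fa_leaf (P := Itm.ok 206) (iqf tp2230_c)) (BT.Fa_leaf (P := Itm.ok 206) (iqb tp2273_c))) (BT.Fa_leaf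 (P := Itm.ok 206) (iqb tp2274_c))) (BT.Fa_mk (BT.Fa_mk (BT.Fa_leaf (P := Itm.ok 206) (iqf tp2275_c)) (BT.Fa_leaf (P := Itm.ok 206) (iqf tp1847_c))) (BT.Fa_leaf (P := Itm.ok 206) (iqb tp354_c))))))))

/-- all words of the class have labels -/
theorem pokNE2B3B2H2BzIzByA3B2EzF : POK 206 xNE2B3B2H2BzIzByA3B2EzF :=
  y_pok (C0 := ceNE2B3B2H2BzIzByA3B2EzF) (C1 := coNE2B3B2H2BzIzByA3B2EzF) topNE2B3B2H2BzIzByA3B2EzF nbNE2B3B2H2BzIzByA3B2EzF (BT.Fa_of_all iiNE2B3B2H2BzIzByA3B2EzF_c)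
    (cyE_spec zeNE2B3B2H2BzIzByA3B2EzF_0)
    (cyO_spec zoNE2B3B2H2BzIzByA3B2EzF_0)
    iiNE2B3B2H2BzIzByA3B2EzF_k

theorem iiNE2B3H2BzH3B2EzA2A2F_k : iiNE2B3H2BzH3B2EzA2A2F.Fa (Itm.ok 206) := (BT.Fa_mk (BT.Fa_mk (BT.Fa_mk (BT.Fa_mk (BT.Fa_mk (BT.Fa_mk (BT.Fa_mk (BT.Fa_mk (BT.Fa_mk (BT.Fa_leaf (P := Itm.ok 206) (iqf tp1576_c)) (BT.Fa_leaf (P := Itm.ok 206) (iqf tp619_c))) (BT.Fa_leaf (P := Itm.ok 206) (iqb tp292_c))) (BT.Fa_mk (BT.Fa_leaf (P := Itm.ok 206) (iqb tp346_c)) (BT.Fa_leaf (P := Itm.ok 206) (iqb tp1771_c)))) (BT.Fa_mk (BT.Fa_mk (BT.Fa_leaf (P := Itm.ok 206) (iqb tp2464_c)) (BT.Fa_leaf (P := Itm.ok 206) (iqb tp2762_c))) (BT.Fa_mk (BT.Fa_leaf (P := Itm.ok 206) (iqf tp295_c)) (BT.Fa_leaf (P := Itm.ok 206) (iqb tp352_c))))) (BT.Fa_mk (BT.Fa_mk (BT.Fa_mk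 (BT.Fa_leaf (P := Itm.ok 206) (iqb tp1994_c)) (BT.Fa_leaf (P := Itm.ok 206) (iqb tp329_c))) (BT.Fa_mk (BT.Fa_leaf (P := Itm.ok 206) (iqb tp2411_c)) (BT.Fa_leaf (P := Itm.ok 206) (iqb tp1945_c)))) (BT.Fa_mk (BT.Fa_mk (BT.Fa_leaf (P := Itm.ok 206) (iqb tp359_c)) (BT.Fa_leaf (P := Itm.ok 206) (iqb tp361_c))) (BT.Fa_mk (BT.Fa_leaf (P := Itm.ok 206) (iqb tp299_c)) (BT.Fa_leaf (P := Itm.ok 206) (iqb tp295_c)))))) (BT.Fa_mk (BT.Fa_mk (BT.Fa_mk (BT.Fa_mk (BT.Fa_leaf (P := Itm.ok 206) (iqf tp337_c)) (BT.Fa_leaf (P := Itm.ok 206) (iqf tp342_c))) (BT.Fa_mk (BT.Fa_leaf (P := Itm.ok 206) (iqf tp1787_c)) (BT.Fa_leaf (P := Itm.ok 206) (iqf tp361_c)))) (BT.Fa_mk (BT.Fa_mk (BT.Fa_leaf (P := Itm.ok 206) (iqf tp2763_c)) (BT.Fa_leaf (P := Itm.ok 206) (iqb tp366_c))) (BT.Fa_mk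 (BT.Fa_leaf (P := Itm.ok 206) (iqb tp2062_c)) (BT.Fa_leaf (P := Itm.ok 206) (iqf tp348_c))))) (BT.Fa_mk (BT.Fa_mk (BT.Fa_mk (BT.Fa_leaf (P := Itm.ok 206) (iqf tp344_c)) (BT.Fa_leaf (P := Itm.ok 206) (iqb tp2052_c))) (BT.Fa_mk (BT.Fa_leaf (P := Itm.ok 206) (iqf tp1995_c)) (BT.Fa_leaf (P := Itm.ok 206) (iqf tp1658_c)))) (BT.Fa_mk (BT.Fa_mk (BT.Fa_leaf (P := Itm.ok 206) (iqf tp451_c)) (BT.Fa_leaf (P := Itm.ok 206) (iqf tp2050_c))) (BT.Fa_mk (BT.Fa_leaf (P := Itm.ok 206) (iqf tp433_c)) (BT.Fa_leaf (P := Itm.ok 206) (iqf tp1733_c))))))) (BT.Fa_mk (BT.Fa_mk (BT.Fa_mk (BT.Fa_mk (BT.Fa_mk (BT.Fa_mk (BT.Fa_leaf (P := Itm.ok 206) (iqb tp493_c)) (BT.Fa_leaf (P := Itm.ok 206) (iqf tp416_c))) (BT.Fa_leaf (P := Itm.ok 206) (iqb tp472_c))) (BT.Fa_mk (BT.Fa_leaf (P := Itm.ok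 206) (iqf tp656_c)) (BT.Fa_leaf (P := Itm.ok 206) (iqf tp806_c)))) (BT.Fa_mk (BT.Fa_mk (BT.Fa_leaf (P := Itm.ok 206) (iqf tp373_c)) (BT.Fa_leaf (P := Itm.ok 206) (iqf tp2414_c))) (BT.Fa_mk (BT.Fa_leaf (P := Itm.ok 206) (iqf tp1387_c)) (BT.Fa_leaf (P := Itm.ok 206) (iqb tp1468_c))))) (BT.Fa_mk (BT.Fa_mk (BT.Fa_mk (BT.Fa_leaf (P := Itm.ok 206) (iqb tp2215_c)) (BT.Fa_leaf (P := Itm.ok 206) (iqf tp2410_c))) (BT.Fa_mk (BT.Fa_leaf (P := Itm.ok 206) (iqf tp849_c)) (BT.Fa_leaf (P := Itm.ok 206) (iqf tp2255_c)))) (BT.Fa_mk (BT.Fa_mk (BT.Fa_leaf (P := Itm.ok 206) (iqb tp2404_c)) (BT.Fa_leaf (P := Itm.ok 206) (iqf tp815_c))) (BT.Fa_mk (BT.Fa_leaf (P := Itm.ok 206) (iqb tp1768_c)) (BT.Fa_leaf (P := Itm.ok 206) (iqf tp2764_c)))))) (BT.Fa_mk (BT.Fa_mk (BT.Fa_mk (BT.Fa_mk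 (BT.Fa_leaf (P := Itm.ok 206) (iqf tp2054_c)) (BT.Fa_leaf (P := Itm.ok 206) (iqf tp2131_c))) (BT.Fa_mk (BT.Fa_leaf (P := Itm.ok 206) (iqb tp2474_c)) (BT.Fa_leaf (P := Itm.ok 206) (iqb tp2119_c)))) (BT.Fa_mk (BT.Fa_mk (BT.Fa_leaf (P := Itm.ok 206) (iqf tp1182_c)) (BT.Fa_leaf (P := Itm.ok 206) (iqf tp1986_c))) (BT.Fa_mk (BT.Fa_leaf (P := Itm.ok 206) (iqb tp2007_c)) (BT.Fa_leaf (P := Itm.ok 206) (iqf tp2415_c))))) (BT.Fa_mk (BT.Fa_mk (BT.Fa_mk (BT.Fa_leaf (P := Itm.ok 206) (iqb tp2142_c)) (BT.Fa_leaf (P := Itm.ok 206) (iqf tp2765_c))) (BT.Fa_mk (BT.Fa_leaf (P := Itm.ok 206) (iqf tp1442_c)) (BT.Fa_leaf (P := Itm.ok 206) (iqf tp2766_c)))) (BT.Fa_mk (BT.Fa_mk (BT.Fa_leaf (P := Itm.ok 206) (iqb tp1782_c)) (BT.Fa_leaf (P := Itm.ok 206) (iqf tp1783_c))) (BT.Fa_mk (BT.Fa_leaf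 (P := Itm.ok 206) (iqb tp1821_c)) (BT.Fa_leaf (P := Itm.ok 206) (iqb tp1798_c)))))))) (BT.Fa_mk (BT.Fa_mk (BT.Fa_mk (BT.Fa_mk (BT.Fa_mk (BT.Fa_mk (BT.Fa_mk (BT.Fa_leaf (P := Itm.ok 206) (iqf tp2254_c)) (BT.Fa_leaf (P := Itm.ok 206) (iqb tp2253_c))) (BT.Fa_leaf (P := Itm.ok 206) (iqf tp1799_c))) (BT.Fa_mk (BT.Fa_leaf (P := Itm.ok 206) (iqf tp2324_c)) (BT.Fa_leaf (P := Itm.ok 206) (iqf tp2496_c)))) (BT.Fa_mk (BT.Fa_mk (BT.Fa_leaf (P := Itm.ok 206) (iqb tp2767_c)) (BT.Fa_leaf (P := Itm.ok 206) (iqf tp1854_c))) (BT.Fa_mk (BT.Fa_leaf (P := Itm.ok 206) (iqb tp2284_c)) (BT.Fa_leaf (P := Itm.ok 206) (iqb tp2027_c))))) (BT.Fa_mk (BT.Fa_mk (BT.Fa_mk (BT.Fa_leaf (P := Itm.ok 206) (iqf tp2439_c)) (BT.Fa_leaf (P := Itm.ok 206) (iqb tp1813_c))) (BT.Fa_mk (BT.Fa_leaf (P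 := Itm.ok 206) (iqf tp2675_c)) (BT.Fa_leaf (P := Itm.ok 206) (iqf tp2620_c)))) (BT.Fa_mk (BT.Fa_mk (BT.Fa_leaf (P := Itm.ok 206) (iqb tp1410_c)) (BT.Fa_leaf (P := Itm.ok 206) (iqf tp2768_c))) (BT.Fa_mk (BT.Fa_leaf (P := Itm.ok 206) (iqf tp1911_c)) (BT.Fa_leaf (P := Itm.ok 206) (iqf tp2068_c)))))) (BT.Fa_mk (BT.Fa_mk (BT.Fa_mk (BT.Fa_mk (BT.Fa_leaf (P := Itm.ok 206) (iqb tp2307_c)) (BT.Fa_leaf (P := Itm.ok 206) (iqb tp1795_c))) (BT.Fa_mk (BT.Fa_leaf (P := Itm.ok 206) (iqb tp2418_c)) (BT.Fa_leaf (P := Itm.ok 206) (iqf tp1916_c)))) (BT.Fa_mk (BT.Fa_mk (BT.Fa_leaf (P := Itm.ok 206) (iqb tp369_c)) (BT.Fa_leaf (P := Itm.ok 206) (iqb tp2769_c))) (BT.Fa_mk (BT.Fa_leaf (P := Itm.ok 206) (iqb tp2597_c)) (BT.Fa_leaf (P := Itm.ok 206) (iqb tp2405_c))))) (BT.Fa_mk (BT.Fa_mk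 (BT.Fa_mk (BT.Fa_leaf (P := Itm.ok 206) (iqb tp2503_c)) (BT.Fa_leaf (P := Itm.ok 206) (iqb tp2770_c))) (BT.Fa_mk (BT.Fa_leaf (P := Itm.ok 206) (iqf tp2578_c)) (BT.Fa_leaf (P := Itm.ok 206) (iqf tp2665_c)))) (BT.Fa_mk (BT.Fa_mk (BT.Fa_leaf (P := Itm.ok 206) (iqb tp2453_c)) (BT.Fa_leaf (P := Itm.ok 206) (iqf tp2462_c))) (BT.Fa_mk (BT.Fa_leaf (P := Itm.ok 206) (iqb tp2771_c)) (BT.Fa_leaf (P := Itm.ok 206) (iqf tp2772_c))))))) (BT.Fa_mk (BT.Fa_mk (BT.Fa_mk (BT.Fa_mk (BT.Fa_mk (BT.Fa_leaf (P := Itm.ok 206) (iqb tp694_c)) (BT.Fa_leaf (P := Itm.ok 206) (iqf tp1468_c))) (BT.Fa_mk (BT.Fa_leaf (P := Itm.ok 206) (iqb tp2572_c)) (BT.Fa_leaf (P := Itm.ok 206) (iqb tp2448_c)))) (BT.Fa_mk (BT.Fa_mk (BT.Fa_leaf (P := Itm.ok 206) (iqb tp1459_c)) (BT.Fa_leaf (P := Itm.ok 206)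 (iqb tp2773_c))) (BT.Fa_mk (BT.Fa_leaf (P := Itm.ok 206) (iqb tp587_c)) (BT.Fa_leaf (P := Itm.ok 206) (iqb tp2419_c))))) (BT.Fa_mk (BT.Fa_mk (BT.Fa_mk (BT.Fa_leaf (P := Itm.ok 206) (iqb tp678_c)) (BT.Fa_leaf (P := Itm.ok 206) (iqf tp1459_c))) (BT.Fa_mk (BT.Fa_leaf (P := Itm.ok 206) (iqb tp1903_c)) (BT.Fa_leaf (P := Itm.ok 206) (iqf tp2773_c)))) (BT.Fa_mk (BT.Fa_mk (BT.Fa_leaf (P := Itm.ok 206) (iqf tp1162_c)) (BT.Fa_leaf (P := Itm.ok 206) (iqb tp2468_c))) (BT.Fa_mk (BT.Fa_leaf (P := Itm.ok 206) (iqb tp2184_c)) (BT.Fa_leaf (P := Itm.ok 206) (iqf tp2596_c)))))) (BT.Fa_mk (BT.Fa_mk (BT.Fa_mk (BT.Fa_mk (BT.Fa_leaf (P := Itm.ok 206) (iqb tp2487_c)) (BT.Fa_leaf (P := Itm.ok 206) (iqb tp2774_c))) (BT.Fa_mk (BT.Fa_leaf (P := Itm.ok 206) (iqb tp1491_c)) (BT.Fa_leaf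 (P := Itm.ok 206) (iqb tp1868_c)))) (BT.Fa_mk (BT.Fa_mk (BT.Fa_leaf (P := Itm.ok 206) (iqb tp322_c)) (BT.Fa_leaf (P := Itm.ok 206) (iqb tp1354_c))) (BT.Fa_mk (BT.Fa_leaf (P := Itm.ok 206) (iqb tp1440_c)) (BT.Fa_leaf (P := Itm.ok 206) (iqf tp2456_c))))) (BT.Fa_mk (BT.Fa_mk (BT.Fa_mk (BT.Fa_leaf (P := Itm.ok 206) (iqf tp2436_c)) (BT.Fa_leaf (P := Itm.ok 206) (iqb tp2455_c))) (BT.Fa_mk (BT.Fa_leaf (P := Itm.ok 206) (iqf tp2309_c)) (BT.Fa_leaf (P := Itm.ok 206) (iqb tp2775_c)))) (BT.Fa_mk (BT.Fa_mk (BT.Fa_leaf (P := Itm.ok 206) (iqb tp2451_c)) (BT.Fa_leaf (P := Itm.ok 206) (iqf tp2317_c))) (BT.Fa_mk (BT.Fa_leaf (P := Itm.ok 206) (iqf tp2678_c)) (BT.Fa_leaf (P := Itm.ok 206) (iqb tp2676_c))))))))) (BT.Fa_mk (BT.Fa_mk (BT.Fa_mk (BT.Fa_mk (BT.Fa_mk (BT.Fa_mk (BT.Fa_mk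 (BT.Fa_mk (BT.Fa_leaf (P := Itm.ok 206) (iqb tp2406_c)) (BT.Fa_leaf (P := Itm.ok 206) (iqf tp2702_c))) (BT.Fa_leaf (P := Itm.ok 206) (iqf tp2407_c))) (BT.Fa_mk (BT.Fa_leaf (P := Itm.ok 206) (iqf tp2429_c)) (BT.Fa_leaf (P := Itm.ok 206) (iqf tp2776_c)))) (BT.Fa_mk (BT.Fa_mk (BT.Fa_leaf (P := Itm.ok 206) (iqf tp2777_c)) (BT.Fa_leaf (P := Itm.ok 206) (iqf tp1491_c))) (BT.Fa_mk (BT.Fa_leaf (P := Itm.ok 206) (iqf tp2423_c)) (BT.Fa_leaf (P := Itm.ok 206) (iqb tp2431_c))))) (BT.Fa_mk (BT.Fa_mk (BT.Fa_mk (BT.Fa_leaf (P := Itm.ok 206) (iqf tp2778_c)) (BT.Fa_leaf (P := Itm.ok 206) (iqb tp2006_c))) (BT.Fa_mk (BT.Fa_leaf (P := Itm.ok 206) (iqb tp2463_c)) (BT.Fa_leaf (P := Itm.ok 206) (iqb tp2458_c)))) (BT.Fa_mk (BT.Fa_mk (BT.Fa_leaf (P := Itm.ok 206) (iqb tp2512_c)) (BT.Fa_leaf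 (P := Itm.ok 206) (iqb tp2669_c))) (BT.Fa_mk (BT.Fa_leaf (P := Itm.ok 206) (iqf tp2459_c)) (BT.Fa_leaf (P := Itm.ok 206) (iqf tp2037_c)))))) (BT.Fa_mk (BT.Fa_mk (BT.Fa_mk (BT.Fa_mk (BT.Fa_leaf (P := Itm.ok 206) (iqf tp2013_c)) (BT.Fa_leaf (P := Itm.ok 206) (iqf tp2779_c))) (BT.Fa_mk (BT.Fa_leaf (P := Itm.ok 206) (iqf tp2780_c)) (BT.Fa_leaf (P := Itm.ok 206) (iqf tp2417_c)))) (BT.Fa_mk (BT.Fa_mk (BT.Fa_leaf (P := Itm.ok 206) (iqb tp1099_c)) (BT.Fa_leaf (P := Itm.ok 206) (iqb tp2781_c))) (BT.Fa_mk (BT.Fa_leaf (P := Itm.ok 206) (iqf tp2685_c)) (BT.Fa_leaf (P := Itm.ok 206) (iqf tp2683_c))))) (BT.Fa_mk (BT.Fa_mk (BT.Fa_mk (BT.Fa_leaf (P := Itm.ok 206) (iqb tp2470_c)) (BT.Fa_leaf (P := Itm.ok 206) (iqb tp2140_c))) (BT.Fa_mk (BT.Fa_leaf (P := Itm.ok 206) (iqf tp2782_c))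 (BT.Fa_leaf (P := Itm.ok 206) (iqf tp1996_c)))) (BT.Fa_mk (BT.Fa_mk (BT.Fa_leaf (P := Itm.ok 206) (iqf tp2783_c)) (BT.Fa_leaf (P := Itm.ok 206) (iqf tp2784_c))) (BT.Fa_mk (BT.Fa_leaf (P := Itm.ok 206) (iqb tp2785_c)) (BT.Fa_leaf (P := Itm.ok 206) (iqf tp2786_c))))))) (BT.Fa_mk (BT.Fa_mk (BT.Fa_mk (BT.Fa_mk (BT.Fa_mk (BT.Fa_mk (BT.Fa_leaf (P := Itm.ok 206) (iqf tp2787_c)) (BT.Fa_leaf (P := Itm.ok 206) (iqf tp2788_c))) (BT.Fa_leaf (P := Itm.ok 206) (iqb tp1387_c))) (BT.Fa_mk (BT.Fa_leaf (P := Itm.ok 206) (iqf tp1781_c)) (BT.Fa_leaf (P := Itm.ok 206) (iqb tp1009_c)))) (BT.Fa_mk (BT.Fa_mk (BT.Fa_leaf (P := Itm.ok 206) (iqb tp2505_c)) (BT.Fa_leaf (P := Itm.ok 206) (iqf tp2789_c))) (BT.Fa_mk (BT.Fa_leaf (P := Itm.ok 206) (iqf tp2687_c)) (BT.Fa_leaf (P := Itm.ok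 206) (iqf tp366_c))))) (BT.Fa_mk (BT.Fa_mk (BT.Fa_mk (BT.Fa_leaf (P := Itm.ok 206) (iqf tp2790_c)) (BT.Fa_leaf (P := Itm.ok 206) (iqf tp2791_c))) (BT.Fa_mk (BT.Fa_leaf (P := Itm.ok 206) (iqf tp608_c)) (BT.Fa_leaf (P := Itm.ok 206) (iqb tp2792_c)))) (BT.Fa_mk (BT.Fa_mk (BT.Fa_leaf (P := Itm.ok 206) (iqf tp292_c)) (BT.Fa_leaf (P := Itm.ok 206) (iqf tp2793_c))) (BT.Fa_mk (BT.Fa_leaf (P := Itm.ok 206) (iqf tp2656_c)) (BT.Fa_leaf (P := Itm.ok 206) (iqf tp2794_c)))))) (BT.Fa_mk (BT.Fa_mk (BT.Fa_mk (BT.Fa_mk (BT.Fa_leaf (P := Itm.ok 206) (iqb tp2256_c)) (BT.Fa_leaf (P := Itm.ok 206) (iqb tp2686_c))) (BT.Fa_mk (BT.Fa_leaf (P := Itm.ok 206) (iqf tp2795_c)) (BT.Fa_leaf (P := Itm.ok 206) (iqf tp2796_c)))) (BT.Fa_mk (BT.Fa_mk (BT.Fa_leaf (P := Itm.ok 206) (iqf tp2607_c))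 (BT.Fa_leaf (P := Itm.ok 206) (iqf tp2797_c))) (BT.Fa_mk (BT.Fa_leaf (P := Itm.ok 206) (iqf tp2798_c)) (BT.Fa_leaf (P := Itm.ok 206) (iqf tp615_c))))) (BT.Fa_mk (BT.Fa_mk (BT.Fa_mk (BT.Fa_leaf (P := Itm.ok 206) (iqb tp2692_c)) (BT.Fa_leaf (P := Itm.ok 206) (iqf tp354_c))) (BT.Fa_mk (BT.Fa_leaf (P := Itm.ok 206) (iqf tp2799_c)) (BT.Fa_leaf (P := Itm.ok 206) (iqf tp2688_c)))) (BT.Fa_mk (BT.Fa_mk (BT.Fa_leaf (P := Itm.ok 206) (iqb tp2800_c)) (BT.Fa_leaf (P := Itm.ok 206) (iqf tp2279_c))) (BT.Fa_mk (BT.Fa_leaf (P := Itm.ok 206) (iqb tp2138_c)) (BT.Fa_leaf (P := Itm.ok 206) (iqf tp2801_c)))))))) (BT.Fa_mk (BT.Fa_mk (BT.Fa_mk (BT.Fa_mk (BT.Fa_mk (BT.Fa_mk (BT.Fa_mk (BT.Fa_leaf (P := Itm.ok 206) (iqb tp770_c)) (BT.Fa_leaf (P := Itm.ok 206) (iqf tp2409_c))) (BT.Fa_leaf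 (P := Itm.ok 206) (iqb tp2478_c))) (BT.Fa_mk (BT.Fa_leaf (P := Itm.ok 206) (iqb tp608_c)) (BT.Fa_leaf (P := Itm.ok 206) (iqb tp2802_c)))) (BT.Fa_mk (BT.Fa_mk (BT.Fa_leaf (P := Itm.ok 206) (iqb tp2803_c)) (BT.Fa_leaf (P := Itm.ok 206) (iqf tp2804_c))) (BT.Fa_mk (BT.Fa_leaf (P := Itm.ok 206) (iqf tp2691_c)) (BT.Fa_leaf (P := Itm.ok 206) (iqb tp2805_c))))) (BT.Fa_mk (BT.Fa_mk (BT.Fa_mk (BT.Fa_leaf (P := Itm.ok 206) (iqf tp2806_c)) (BT.Fa_leaf (P := Itm.ok 206) (iqf tp2807_c))) (BT.Fa_mk (BT.Fa_leaf (P := Itm.ok 206) (iqb tp1964_c)) (BT.Fa_leaf (P := Itm.ok 206) (iqf tp2808_c)))) (BT.Fa_mk (BT.Fa_mk (BT.Fa_leaf (P := Itm.ok 206) (iqf tp2809_c)) (BT.Fa_leaf (P := Itm.ok 206) (iqf tp2810_c))) (BT.Fa_mk (BT.Fa_leaf (P := Itm.ok 206) (iqf tp2811_c)) (BT.Fa_leaf (P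 := Itm.ok 206) (iqf tp2812_c)))))) (BT.Fa_mk (BT.Fa_mk (BT.Fa_mk (BT.Fa_mk (BT.Fa_leaf (P := Itm.ok 206) (iqf tp2813_c)) (BT.Fa_leaf (P := Itm.ok 206) (iqf tp2814_c))) (BT.Fa_mk (BT.Fa_leaf (P := Itm.ok 206) (iqb tp2815_c)) (BT.Fa_leaf (P := Itm.ok 206) (iqf tp783_c)))) (BT.Fa_mk (BT.Fa_mk (BT.Fa_leaf (P := Itm.ok 206) (iqf tp419_c)) (BT.Fa_leaf (P := Itm.ok 206) (iqb tp344_c))) (BT.Fa_mk (BT.Fa_leaf (P := Itm.ok 206) (iqb tp2153_c)) (BT.Fa_leaf (P := Itm.ok 206) (iqb tp342_c))))) (BT.Fa_mk (BT.Fa_mk (BT.Fa_mk (BT.Fa_leaf (P := Itm.ok 206) (iqf tp2816_c)) (BT.Fa_leaf (P := Itm.ok 206) (iqb tp2817_c))) (BT.Fa_mk (BT.Fa_leaf (P := Itm.ok 206) (iqf tp2818_c)) (BT.Fa_leaf (P := Itm.ok 206) (iqb tp2819_c)))) (BT.Fa_mk (BT.Fa_mk (BT.Fa_leaf (P := Itm.ok 206) (iqb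 tp2441_c)) (BT.Fa_leaf (P := Itm.ok 206) (iqb tp2820_c))) (BT.Fa_mk (BT.Fa_leaf (P := Itm.ok 206) (iqf tp2821_c)) (BT.Fa_leaf (P := Itm.ok 206) (iqb tp2822_c))))))) (BT.Fa_mk (BT.Fa_mk (BT.Fa_mk (BT.Fa_mk (BT.Fa_mk (BT.Fa_leaf (P := Itm.ok 206) (iqb tp2273_c)) (BT.Fa_leaf (P := Itm.ok 206) (iqb tp2449_c))) (BT.Fa_mk (BT.Fa_leaf (P := Itm.ok 206) (iqb tp2823_c)) (BT.Fa_leaf (P := Itm.ok 206) (iqf tp2824_c)))) (BT.Fa_mk (BT.Fa_mk (BT.Fa_leaf (P := Itm.ok 206) (iqb tp2825_c)) (BT.Fa_leaf (P := Itm.ok 206) (iqf tp316_c))) (BT.Fa_mk (BT.Fa_leaf (P := Itm.ok 206) (iqf tp2826_c)) (BT.Fa_leaf (P := Itm.ok 206) (iqf tp2827_c))))) (BT.Fa_mk (BT.Fa_mk (BT.Fa_mk (BT.Fa_leaf (P := Itm.ok 206) (iqb tp2828_c)) (BT.Fa_leaf (P := Itm.ok 206) (iqb tp2829_c))) (BT.Fa_mk (BT.Fa_leaf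 (P := Itm.ok 206) (iqf tp2830_c)) (BT.Fa_leaf (P := Itm.ok 206) (iqf tp2831_c)))) (BT.Fa_mk (BT.Fa_mk (BT.Fa_leaf (P := Itm.ok 206) (iqf tp2832_c)) (BT.Fa_leaf (P := Itm.ok 206) (iqb tp2833_c))) (BT.Fa_mk (BT.Fa_leaf (P := Itm.ok 206) (iqf tp2834_c)) (BT.Fa_leaf (P := Itm.ok 206) (iqf tp2835_c)))))) (BT.Fa_mk (BT.Fa_mk (BT.Fa_mk (BT.Fa_mk (BT.Fa_leaf (P := Itm.ok 206) (iqf tp2836_c)) (BT.Fa_leaf (P := Itm.ok 206) (iqb tp2837_c))) (BT.Fa_mk (BT.Fa_leaf (P := Itm.ok 206) (iqb tp202_c)) (BT.Fa_leaf (P := Itm.ok 206) (iqf tp2838_c)))) (BT.Fa_mk (BT.Fa_mk (BT.Fa_leaf (P := Itm.ok 206) (iqb tp2839_c)) (BT.Fa_leaf (P := Itm.ok 206) (iqf tp2840_c))) (BT.Fa_mk (BT.Fa_leaf (P := Itm.ok 206) (iqf tp1184_c)) (BT.Fa_leaf (P := Itm.ok 206) (iqf tp1265_c))))) (BT.Fa_mk (BT.Fa_mk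 (BT.Fa_mk (BT.Fa_leaf (P := Itm.ok 206) (iqf tp2841_c)) (BT.Fa_leaf (P := Itm.ok 206) (iqb tp2842_c))) (BT.Fa_mk (BT.Fa_leaf (P := Itm.ok 206) (iqb tp2843_c)) (BT.Fa_leaf (P := Itm.ok 206) (iqf tp2034_c)))) (BT.Fa_mk (BT.Fa_mk (BT.Fa_leaf (P := Itm.ok 206) (iqf tp2442_c)) (BT.Fa_leaf (P := Itm.ok 206) (iqb tp2690_c))) (BT.Fa_mk (BT.Fa_leaf (P := Itm.ok 206) (iqb tp375_c)) (BT.Fa_leaf (P := Itm.ok 206) (iqf tp1010_c))))))))))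

/-- all words of the class have labels -/
theorem pokNE2B3H2BzH3B2EzA2A2F : POK 206 xNE2B3H2BzH3B2EzA2A2F :=
  y_pok (C0 := ceNE2B3H2BzH3B2EzA2A2F) (C1 := coNE2B3H2BzH3B2EzA2A2F) topNE2B3H2BzH3B2EzA2A2F nbNE2B3H2BzH3B2EzA2A2F (BT.Fa_of_all iiNE2B3H2BzH3B2EzA2A2F_c)
    (cyE_spec zeNE2B3H2BzH3B2EzA2A2F_0)
    (cyO_spec zoNE2B3H2BzH3B2EzA2A2F_0)
    iiNE2B3H2BzH3B2EzA2A2F_k

theorem iiNE2B3H2BzIzB2H3B2EzF_k : iiNE2B3H2BzIzB2H3B2EzF.Fa (Itm.ok 206) := (BT.Fa_mk (BT.Fa_mk (BT.Fa_mk (BT.Fa_mk (BT.Fa_mk (BT.Fa_mk (BT.Fa_mk (BT.Fa_mk (BT.Fa_leaf (P := Itm.ok 206) (iqb tp292_c)) (BT.Fa_leaf (P := Itm.ok 206) (iqf tp2646_c))) (BT.Fa_mk (BT.Fa_leaf (P := Itm.ok 206) (iqb tp2406_c)) (BT.Fa_leaf (P := Itm.ok 206) (iqf tp1576_c)))) (BT.Fa_mk (BT.Fa_mk (BT.Fa_leaf (P :=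 Itm.ok 206) (iqb tp1576_c)) (BT.Fa_leaf (P := Itm.ok 206) (iqf tp295_c))) (BT.Fa_mk (BT.Fa_leaf (P := Itm.ok 206) (iqb tp295_c)) (BT.Fa_leaf (P := Itm.ok 206) (iqf tp361_c))))) (BT.Fa_mk (BT.Fa_mk (BT.Fa_mk (BT.Fa_leaf (P := Itm.ok 206) (iqb tp361_c)) (BT.Fa_leaf (P := Itm.ok 206) (iqf tp1387_c))) (BT.Fa_mk (BT.Fa_leaf (P := Itm.ok 206) (iqb tp329_c)) (BT.Fa_leaf (P := Itm.ok 206) (iqb tp366_c)))) (BT.Fa_mk (BT.Fa_mk (BT.Fa_leaf (P := Itm.ok 206) (iqf tp2647_c)) (BT.Fa_leaf (P := Itm.ok 206) (iqf tp342_c))) (BT.Fa_leaf (P := Itm.ok 206) (iqb tp359_c))))) (BT.Fa_mk (BT.Fa_mk (BT.Fa_mk (BT.Fa_mk (BT.Fa_leaf (P := Itm.ok 206) (iqf tp656_c)) (BT.Fa_leaf (P := Itm.ok 206) (iqb tp346_c))) (BT.Fa_mk (BT.Fa_leaf (P := Itm.ok 206) (iqb tp1387_c)) (BT.Fa_leaf (P :=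 Itm.ok 206) (iqb tp369_c)))) (BT.Fa_mk (BT.Fa_mk (BT.Fa_leaf (P := Itm.ok 206) (iqf tp1771_c)) (BT.Fa_leaf (P := Itm.ok 206) (iqb tp529_c))) (BT.Fa_mk (BT.Fa_leaf (P := Itm.ok 206) (iqb tp1771_c)) (BT.Fa_leaf (P := Itm.ok 206) (iqf tp608_c))))) (BT.Fa_mk (BT.Fa_mk (BT.Fa_mk (BT.Fa_leaf (P := Itm.ok 206) (iqf tp2317_c)) (BT.Fa_leaf (P := Itm.ok 206) (iqb tp493_c))) (BT.Fa_mk (BT.Fa_leaf (P := Itm.ok 206) (iqf tp827_c)) (BT.Fa_leaf (P := Itm.ok 206) (iqb tp1158_c)))) (BT.Fa_mk (BT.Fa_mk (BT.Fa_leaf (P := Itm.ok 206) (iqf tp1182_c)) (BT.Fa_leaf (P := Itm.ok 206) (iqf tp365_c))) (BT.Fa_leaf (P := Itm.ok 206) (iqf tp416_c)))))) (BT.Fa_mk (BT.Fa_mk (BT.Fa_mk (BT.Fa_mk (BT.Fa_mk (BT.Fa_leaf (P := Itm.ok 206) (iqf tp1911_c)) (BT.Fa_leaf (P := Itm.ok 206) (iqf tp1658_c)))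 (BT.Fa_mk (BT.Fa_leaf (P := Itm.ok 206) (iqf tp2459_c)) (BT.Fa_leaf (P := Itm.ok 206) (iqb tp1491_c)))) (BT.Fa_mk (BT.Fa_mk (BT.Fa_leaf (P := Itm.ok 206) (iqf tp1995_c)) (BT.Fa_leaf (P := Itm.ok 206) (iqf tp2050_c))) (BT.Fa_mk (BT.Fa_leaf (P := Itm.ok 206) (iqf tp2547_c)) (BT.Fa_leaf (P := Itm.ok 206) (iqf tp1388_c))))) (BT.Fa_mk (BT.Fa_mk (BT.Fa_mk (BT.Fa_leaf (P := Itm.ok 206) (iqb tp1782_c)) (BT.Fa_leaf (P := Itm.ok 206) (iqf tp2462_c))) (BT.Fa_mk (BT.Fa_leaf (P := Itm.ok 206) (iqb tp2434_c)) (BT.Fa_leaf (P := Itm.ok 206) (iqf tp849_c)))) (BT.Fa_mk (BT.Fa_mk (BT.Fa_leaf (P := Itm.ok 206) (iqb tp1099_c)) (BT.Fa_leaf (P := Itm.ok 206) (iqb tp1945_c))) (BT.Fa_leaf (P := Itm.ok 206) (iqb tp2062_c))))) (BT.Fa_mk (BT.Fa_mk (BT.Fa_mk (BT.Fa_mk (BT.Fa_leaf (P :=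 Itm.ok 206) (iqb tp1821_c)) (BT.Fa_leaf (P := Itm.ok 206) (iqb tp2215_c))) (BT.Fa_mk (BT.Fa_leaf (P := Itm.ok 206) (iqf tp1799_c)) (BT.Fa_leaf (P := Itm.ok 206) (iqf tp2417_c)))) (BT.Fa_mk (BT.Fa_mk (BT.Fa_leaf (P := Itm.ok 206) (iqb tp678_c)) (BT.Fa_leaf (P := Itm.ok 206) (iqb tp2405_c))) (BT.Fa_leaf (P := Itm.ok 206) (iqf tp1888_c)))) (BT.Fa_mk (BT.Fa_mk (BT.Fa_mk (BT.Fa_leaf (P := Itm.ok 206) (iqf tp2254_c)) (BT.Fa_leaf (P := Itm.ok 206) (iqb tp2470_c))) (BT.Fa_mk (BT.Fa_leaf (P := Itm.ok 206) (iqb tp2468_c)) (BT.Fa_leaf (P := Itm.ok 206) (iqf tp2054_c)))) (BT.Fa_mk (BT.Fa_mk (BT.Fa_leaf (P := Itm.ok 206) (iqb tp2140_c)) (BT.Fa_leaf (P := Itm.ok 206) (iqf tp1833_c))) (BT.Fa_leaf (P := Itm.ok 206) (iqb tp2142_c))))))) (BT.Fa_mk (BT.Fa_mk (BT.Fa_mk (BT.Fa_mk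 (BT.Fa_mk (BT.Fa_mk (BT.Fa_leaf (P := Itm.ok 206) (iqb tp2411_c)) (BT.Fa_leaf (P := Itm.ok 206) (iqb tp1994_c))) (BT.Fa_mk (BT.Fa_leaf (P := Itm.ok 206) (iqf tp1817_c)) (BT.Fa_leaf (P := Itm.ok 206) (iqb tp1889_c)))) (BT.Fa_mk (BT.Fa_mk (BT.Fa_leaf (P := Itm.ok 206) (iqb tp2418_c)) (BT.Fa_leaf (P := Itm.ok 206) (iqf tp2255_c))) (BT.Fa_mk (BT.Fa_leaf (P := Itm.ok 206) (iqf tp2013_c)) (BT.Fa_leaf (P := Itm.ok 206) (iqb tp2590_c))))) (BT.Fa_mk (BT.Fa_mk (BT.Fa_mk (BT.Fa_leaf (P := Itm.ok 206) (iqb tp2474_c)) (BT.Fa_leaf (P := Itm.ok 206) (iqf tp2596_c))) (BT.Fa_mk (BT.Fa_leaf (P := Itm.ok 206) (iqf tp2648_c)) (BT.Fa_leaf (P := Itm.ok 206) (iqb tp2100_c)))) (BT.Fa_mk (BT.Fa_mk (BT.Fa_leaf (P := Itm.ok 206) (iqf tp2649_c)) (BT.Fa_leaf (P := Itm.ok 206) (iqf tp2650_c)))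 (BT.Fa_leaf (P := Itm.ok 206) (iqf tp2456_c))))) (BT.Fa_mk (BT.Fa_mk (BT.Fa_mk (BT.Fa_mk (BT.Fa_leaf (P := Itm.ok 206) (iqb tp2456_c)) (BT.Fa_leaf (P := Itm.ok 206) (iqb tp1738_c))) (BT.Fa_mk (BT.Fa_leaf (P := Itm.ok 206) (iqf tp1912_c)) (BT.Fa_leaf (P := Itm.ok 206) (iqb tp2006_c)))) (BT.Fa_mk (BT.Fa_mk (BT.Fa_leaf (P := Itm.ok 206) (iqb tp1941_c)) (BT.Fa_leaf (P := Itm.ok 206) (iqf tp1916_c))) (BT.Fa_leaf (P := Itm.ok 206) (iqf tp2651_c)))) (BT.Fa_mk (BT.Fa_mk (BT.Fa_mk (BT.Fa_leaf (P := Itm.ok 206) (iqf tp2420_c)) (BT.Fa_leaf (P := Itm.ok 206) (iqf tp2407_c))) (BT.Fa_mk (BT.Fa_leaf (P := Itm.ok 206) (iqf tp2652_c)) (BT.Fa_leaf (P := Itm.ok 206) (iqf tp2653_c)))) (BT.Fa_mk (BT.Fa_mk (BT.Fa_leaf (P := Itm.ok 206) (iqb tp2135_c)) (BT.Fa_leaf (P := Itm.ok 206)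 (iqf tp1908_c))) (BT.Fa_leaf (P := Itm.ok 206) (iqf tp2654_c)))))) (BT.Fa_mk (BT.Fa_mk (BT.Fa_mk (BT.Fa_mk (BT.Fa_mk (BT.Fa_leaf (P := Itm.ok 206) (iqf tp322_c)) (BT.Fa_leaf (P := Itm.ok 206) (iqb tp1798_c))) (BT.Fa_mk (BT.Fa_leaf (P := Itm.ok 206) (iqb tp2253_c)) (BT.Fa_leaf (P := Itm.ok 206) (iqf tp1774_c)))) (BT.Fa_mk (BT.Fa_mk (BT.Fa_leaf (P := Itm.ok 206) (iqb tp1813_c)) (BT.Fa_leaf (P := Itm.ok 206) (iqb tp1792_c))) (BT.Fa_mk (BT.Fa_leaf (P := Itm.ok 206) (iqf tp1793_c)) (BT.Fa_leaf (P := Itm.ok 206) (iqb tp1832_c))))) (BT.Fa_mk (BT.Fa_mk (BT.Fa_mk (BT.Fa_leaf (P := Itm.ok 206) (iqb tp1517_c)) (BT.Fa_leaf (P := Itm.ok 206) (iqb tp1855_c))) (BT.Fa_mk (BT.Fa_leaf (P := Itm.ok 206) (iqb tp2655_c)) (BT.Fa_leaf (P := Itm.ok 206) (iqb tp1468_c)))) (BT.Fa_mk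 (BT.Fa_mk (BT.Fa_leaf (P := Itm.ok 206) (iqb tp2450_c)) (BT.Fa_leaf (P := Itm.ok 206) (iqb tp2027_c))) (BT.Fa_leaf (P := Itm.ok 206) (iqf tp2279_c))))) (BT.Fa_mk (BT.Fa_mk (BT.Fa_mk (BT.Fa_mk (BT.Fa_leaf (P := Itm.ok 206) (iqf tp806_c)) (BT.Fa_leaf (P := Itm.ok 206) (iqf tp1986_c))) (BT.Fa_mk (BT.Fa_leaf (P := Itm.ok 206) (iqb tp2052_c)) (BT.Fa_leaf (P := Itm.ok 206) (iqf tp433_c)))) (BT.Fa_mk (BT.Fa_mk (BT.Fa_leaf (P := Itm.ok 206) (iqb tp1138_c)) (BT.Fa_leaf (P := Itm.ok 206) (iqb tp2580_c))) (BT.Fa_leaf (P := Itm.ok 206) (iqf tp2656_c)))) (BT.Fa_mk (BT.Fa_mk (BT.Fa_mk (BT.Fa_leaf (P := Itm.ok 206) (iqb tp2467_c)) (BT.Fa_leaf (P := Itm.ok 206) (iqb tp2595_c))) (BT.Fa_mk (BT.Fa_leaf (P := Itm.ok 206) (iqf tp2657_c)) (BT.Fa_leaf (P := Itm.ok 206) (iqf tp2658_c))))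 (BT.Fa_mk (BT.Fa_mk (BT.Fa_leaf (P := Itm.ok 206) (iqf tp2659_c)) (BT.Fa_leaf (P := Itm.ok 206) (iqb tp2503_c))) (BT.Fa_leaf (P := Itm.ok 206) (iqf tp2660_c)))))))) (BT.Fa_mk (BT.Fa_mk (BT.Fa_mk (BT.Fa_mk (BT.Fa_mk (BT.Fa_mk (BT.Fa_mk (BT.Fa_leaf (P := Itm.ok 206) (iqb tp1516_c)) (BT.Fa_leaf (P := Itm.ok 206) (iqf tp451_c))) (BT.Fa_mk (BT.Fa_leaf (P := Itm.ok 206) (iqb tp2661_c)) (BT.Fa_leaf (P := Itm.ok 206) (iqb tp1410_c)))) (BT.Fa_mk (BT.Fa_mk (BT.Fa_leaf (P := Itm.ok 206) (iqb tp2662_c)) (BT.Fa_leaf (P := Itm.ok 206) (iqb tp2307_c))) (BT.Fa_mk (BT.Fa_leaf (P := Itm.ok 206) (iqb tp2453_c)) (BT.Fa_leaf (P := Itm.ok 206) (iqf tp2663_c))))) (BT.Fa_mk (BT.Fa_mk (BT.Fa_mk (BT.Fa_leaf (P := Itm.ok 206) (iqf tp2664_c)) (BT.Fa_leaf (P := Itm.ok 206) (iqb tp1903_c)))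 (BT.Fa_mk (BT.Fa_leaf (P := Itm.ok 206) (iqb tp1795_c)) (BT.Fa_leaf (P := Itm.ok 206) (iqf tp2665_c)))) (BT.Fa_mk (BT.Fa_mk (BT.Fa_leaf (P := Itm.ok 206) (iqb tp2666_c)) (BT.Fa_leaf (P := Itm.ok 206) (iqb tp1159_c))) (BT.Fa_leaf (P := Itm.ok 206) (iqb tp1868_c))))) (BT.Fa_mk (BT.Fa_mk (BT.Fa_mk (BT.Fa_mk (BT.Fa_leaf (P := Itm.ok 206) (iqf tp1854_c)) (BT.Fa_leaf (P := Itm.ok 206) (iqb tp2512_c))) (BT.Fa_mk (BT.Fa_leaf (P := Itm.ok 206) (iqb tp2667_c)) (BT.Fa_leaf (P := Itm.ok 206) (iqf tp2131_c)))) (BT.Fa_mk (BT.Fa_mk (BT.Fa_leaf (P := Itm.ok 206) (iqb tp2471_c)) (BT.Fa_leaf (P := Itm.ok 206) (iqb tp694_c))) (BT.Fa_leaf (P := Itm.ok 206) (iqf tp1733_c)))) (BT.Fa_mk (BT.Fa_mk (BT.Fa_mk (BT.Fa_leaf (P := Itm.ok 206) (iqb tp1732_c)) (BT.Fa_leaf (P := Itm.ok 206)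 (iqb tp1794_c))) (BT.Fa_mk (BT.Fa_leaf (P := Itm.ok 206) (iqb tp1785_c)) (BT.Fa_leaf (P := Itm.ok 206) (iqf tp1787_c)))) (BT.Fa_mk (BT.Fa_mk (BT.Fa_leaf (P := Itm.ok 206) (iqb tp490_c)) (BT.Fa_leaf (P := Itm.ok 206) (iqf tp532_c))) (BT.Fa_leaf (P := Itm.ok 206) (iqb tp1801_c)))))) (BT.Fa_mk (BT.Fa_mk (BT.Fa_mk (BT.Fa_mk (BT.Fa_mk (BT.Fa_leaf (P := Itm.ok 206) (iqf tp2668_c)) (BT.Fa_leaf (P := Itm.ok 206) (iqb tp2669_c))) (BT.Fa_mk (BT.Fa_leaf (P := Itm.ok 206) (iqb tp2670_c)) (BT.Fa_leaf (P := Itm.ok 206) (iqf tp2671_c)))) (BT.Fa_mk (BT.Fa_mk (BT.Fa_leaf (P := Itm.ok 206) (iqb tp2672_c)) (BT.Fa_leaf (P := Itm.ok 206) (iqb tp2673_c))) (BT.Fa_mk (BT.Fa_leaf (P := Itm.ok 206) (iqf tp1747_c)) (BT.Fa_leaf (P := Itm.ok 206) (iqf tp1770_c))))) (BT.Fa_mk (BT.Fa_mk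 (BT.Fa_mk (BT.Fa_leaf (P := Itm.ok 206) (iqf tp2674_c)) (BT.Fa_leaf (P := Itm.ok 206) (iqf tp2675_c))) (BT.Fa_mk (BT.Fa_leaf (P := Itm.ok 206) (iqb tp2676_c)) (BT.Fa_leaf (P := Itm.ok 206) (iqf tp2677_c)))) (BT.Fa_mk (BT.Fa_mk (BT.Fa_leaf (P := Itm.ok 206) (iqf tp2678_c)) (BT.Fa_leaf (P := Itm.ok 206) (iqf tp2037_c))) (BT.Fa_leaf (P := Itm.ok 206) (iqf tp2034_c))))) (BT.Fa_mk (BT.Fa_mk (BT.Fa_mk (BT.Fa_mk (BT.Fa_leaf (P := Itm.ok 206) (iqf tp2429_c)) (BT.Fa_leaf (P := Itm.ok 206) (iqf tp1919_c))) (BT.Fa_mk (BT.Fa_leaf (P := Itm.ok 206) (iqb tp2421_c)) (BT.Fa_leaf (P := Itm.ok 206) (iqb tp2139_c)))) (BT.Fa_mk (BT.Fa_mk (BT.Fa_leaf (P := Itm.ok 206) (iqf tp1913_c)) (BT.Fa_leaf (P := Itm.ok 206) (iqf tp1918_c))) (BT.Fa_leaf (P := Itm.ok 206) (iqf tp2679_c))))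 (BT.Fa_mk (BT.Fa_mk (BT.Fa_mk (BT.Fa_leaf (P := Itm.ok 206) (iqf tp1937_c)) (BT.Fa_leaf (P := Itm.ok 206) (iqb tp2680_c))) (BT.Fa_mk (BT.Fa_leaf (P := Itm.ok 206) (iqb tp2461_c)) (BT.Fa_leaf (P := Itm.ok 206) (iqb tp2431_c)))) (BT.Fa_mk (BT.Fa_mk (BT.Fa_leaf (P := Itm.ok 206) (iqf tp2681_c)) (BT.Fa_leaf (P := Itm.ok 206) (iqf tp1197_c))) (BT.Fa_leaf (P := Itm.ok 206) (iqf tp1998_c))))))) (BT.Fa_mk (BT.Fa_mk (BT.Fa_mk (BT.Fa_mk (BT.Fa_mk (BT.Fa_mk (BT.Fa_leaf (P := Itm.ok 206) (iqb tp2682_c)) (BT.Fa_leaf (P := Itm.ok 206) (iqb tp2404_c))) (BT.Fa_mk (BT.Fa_leaf (P := Itm.ok 206) (iqf tp2683_c)) (BT.Fa_leaf (P := Itm.ok 206) (iqf tp2684_c)))) (BT.Fa_mk (BT.Fa_mk (BT.Fa_leaf (P := Itm.ok 206) (iqf tp2685_c)) (BT.Fa_leaf (P := Itm.ok 206) (iqb tp2485_c))) (BT.Fa_mk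 (BT.Fa_leaf (P := Itm.ok 206) (iqb tp2416_c)) (BT.Fa_leaf (P := Itm.ok 206) (iqf tp1574_c))))) (BT.Fa_mk (BT.Fa_mk (BT.Fa_mk (BT.Fa_leaf (P := Itm.ok 206) (iqb tp2040_c)) (BT.Fa_leaf (P := Itm.ok 206) (iqb tp2686_c))) (BT.Fa_mk (BT.Fa_leaf (P := Itm.ok 206) (iqf tp292_c)) (BT.Fa_leaf (P := Itm.ok 206) (iqf tp815_c)))) (BT.Fa_mk (BT.Fa_mk (BT.Fa_leaf (P := Itm.ok 206) (iqf tp1435_c)) (BT.Fa_leaf (P := Itm.ok 206) (iqf tp2687_c))) (BT.Fa_leaf (P := Itm.ok 206) (iqb tp342_c))))) (BT.Fa_mk (BT.Fa_mk (BT.Fa_mk (BT.Fa_mk (BT.Fa_leaf (P := Itm.ok 206) (iqf tp2475_c)) (BT.Fa_leaf (P := Itm.ok 206) (iqf tp1776_c))) (BT.Fa_mk (BT.Fa_leaf (P := Itm.ok 206) (iqb tp2285_c)) (BT.Fa_leaf (P := Itm.ok 206) (iqb tp344_c)))) (BT.Fa_mk (BT.Fa_mk (BT.Fa_leaf (P := Itm.ok 206)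 (iqf tp2688_c)) (BT.Fa_leaf (P := Itm.ok 206) (iqb tp1664_c))) (BT.Fa_leaf (P := Itm.ok 206) (iqf tp366_c)))) (BT.Fa_mk (BT.Fa_mk (BT.Fa_mk (BT.Fa_leaf (P := Itm.ok 206) (iqf tp511_c)) (BT.Fa_leaf (P := Itm.ok 206) (iqf tp2689_c))) (BT.Fa_mk (BT.Fa_leaf (P := Itm.ok 206) (iqf tp1794_c)) (BT.Fa_leaf (P := Itm.ok 206) (iqf tp1790_c)))) (BT.Fa_mk (BT.Fa_mk (BT.Fa_leaf (P := Itm.ok 206) (iqf tp1253_c)) (BT.Fa_leaf (P := Itm.ok 206) (iqb tp322_c))) (BT.Fa_leaf (P := Itm.ok 206) (iqb tp299_c)))))) (BT.Fa_mk (BT.Fa_mk (BT.Fa_mk (BT.Fa_mk (BT.Fa_mk (BT.Fa_leaf (P := Itm.ok 206) (iqf tp1473_c)) (BT.Fa_leaf (P := Itm.ok 206) (iqb tp2690_c))) (BT.Fa_mk (BT.Fa_leaf (P := Itm.ok 206) (iqb tp2270_c)) (BT.Fa_leaf (P := Itm.ok 206) (iqb tp1961_c)))) (BT.Fa_mk (BT.Fa_mk (BT.Fa_leaf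 (P := Itm.ok 206) (iqb tp2487_c)) (BT.Fa_leaf (P := Itm.ok 206) (iqb tp514_c))) (BT.Fa_mk (BT.Fa_leaf (P := Itm.ok 206) (iqf tp2019_c)) (BT.Fa_leaf (P := Itm.ok 206) (iqf tp348_c))))) (BT.Fa_mk (BT.Fa_mk (BT.Fa_mk (BT.Fa_leaf (P := Itm.ok 206) (iqf tp492_c)) (BT.Fa_leaf (P := Itm.ok 206) (iqb tp723_c))) (BT.Fa_mk (BT.Fa_leaf (P := Itm.ok 206) (iqf tp2691_c)) (BT.Fa_leaf (P := Itm.ok 206) (iqf tp354_c)))) (BT.Fa_mk (BT.Fa_mk (BT.Fa_leaf (P := Itm.ok 206) (iqf tp316_c)) (BT.Fa_leaf (P := Itm.ok 206) (iqb tp472_c))) (BT.Fa_leaf (P := Itm.ok 206) (iqb tp2692_c))))) (BT.Fa_mk (BT.Fa_mk (BT.Fa_mk (BT.Fa_mk (BT.Fa_leaf (P := Itm.ok 206) (iqb tp2693_c)) (BT.Fa_leaf (P := Itm.ok 206) (iqb tp2424_c))) (BT.Fa_mk (BT.Fa_leaf (P := Itm.ok 206) (iqf tp1162_c)) (BT.Fa_leaf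 (P := Itm.ok 206) (iqb tp2526_c)))) (BT.Fa_mk (BT.Fa_mk (BT.Fa_leaf (P := Itm.ok 206) (iqf tp1869_c)) (BT.Fa_leaf (P := Itm.ok 206) (iqb tp2694_c))) (BT.Fa_leaf (P := Itm.ok 206) (iqb tp2506_c)))) (BT.Fa_mk (BT.Fa_mk (BT.Fa_mk (BT.Fa_leaf (P := Itm.ok 206) (iqf tp2008_c)) (BT.Fa_leaf (P := Itm.ok 206) (iqf tp2009_c))) (BT.Fa_mk (BT.Fa_leaf (P := Itm.ok 206) (iqb tp587_c)) (BT.Fa_leaf (P := Itm.ok 206) (iqb tp2695_c)))) (BT.Fa_mk (BT.Fa_mk (BT.Fa_leaf (P := Itm.ok 206) (iqf tp407_c)) (BT.Fa_leaf (P := Itm.ok 206) (iqb tp2696_c))) (BT.Fa_leaf (P := Itm.ok 206) (iqf tp2697_c)))))))))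

/-- all words of the class have labels -/
theorem pokNE2B3H2BzIzB2H3B2EzF : POK 206 xNE2B3H2BzIzB2H3B2EzF :=
  y_pok (C0 := ceNE2B3H2BzIzB2H3B2EzF) (C1 := coNE2B3H2BzIzB2H3B2EzF) topNE2B3H2BzIzB2H3B2EzF nbNE2B3H2BzIzB2H3B2EzF (BT.Fa_of_all iiNE2B3H2BzIzB2H3B2EzF_c)
    (BT.Fa_mk (cyE_spec zeNE2B3H2BzIzB2H3B2EzF_0) (cyE_spec zeNE2B3H2BzIzB2H3B2EzF_1))
    (BT.Fa_mk (cyO_spec zoNE2B3H2BzIzB2H3B2EzF_0) (cyO_spec zoNE2B3H2BzIzB2H3B2EzF_1))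
    iiNE2B3H2BzIzB2H3B2EzF_k


end MPb6P
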