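import Pool.Agent.Lib.MP_b6d339_lc.Cw.YF2A2AzE2A2Ax3xA2A2EzAzA2F
import Pool.Agent.Lib.MP_b6d339_lc.Cw.XL
import Pool.Agent.Lib.MP_b6d339_lc.Cw.T3
import Pool.Agent.Lib.MP_b6d339_lc.Cw.T4

/-!
# Erdős 592, three levels: items
-/

namespace MPb6P

noncomputable def iiNF2A2AzE2A2Ax3xA2A2EzAzA2F : BT Itm := (.node (.node (.node (.node (.node (.node (.node (.leaf (.bwd 0 15 tp318.df)) (.leaf (.fwd 15 25 tp319.df))) (.leaf (.bwd 40 23 tp320.df))) (.node (.leaf (.fwd 63 27 tp321.df)) (.leaf (.fwd 90 23 tp292.df)))) (.node (.node (.node (.leaf (.fwd 113 23 tp322.df)) (.leaf (.fwd 136 25 tp323.df))) (.leaf (.bwd 161 20 tp324.df))) (.node (.leaf (.fwd 181 19 tp325.df)) (.leaf (.fwd 200 19 tp326.df))))) (.node (.node (.node (.node (.leaf (.bwd 219 19 tp327.df)) (.leaf (.fwd 238 32 tp328.df))) (.leaf (.fwd 270 29 tp329.df))) (.node (.leaf (.fwd 299 27 tp330.df)) (.leaf (.bwd 326 27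 tp331.df)))) (.node (.node (.leaf (.bwd 353 24 tp332.df)) (.leaf (.fwd 377 18 tp333.df))) (.node (.leaf (.fwd 395 22 tp334.df)) (.leaf (.fwd 417 23 tp335.df)))))) (.node (.node (.node (.node (.node (.leaf (.bwd 440 39 tp336.df)) (.leaf (.bwd 479 17 tp337.df))) (.leaf (.bwd 496 27 tp338.df))) (.node (.leaf (.bwd 523 22 tp339.df)) (.leaf (.bwd 545 32 tp340.df)))) (.node (.node (.leaf (.fwd 577 27 tp341.df)) (.leaf (.fwd 604 28 tp342.df))) (.node (.leaf (.fwd 632 29 tp343.df)) (.leaf (.fwd 661 30 tp299.df))))) (.node (.node (.node (.node (.leaf (.fwd 691 28 tp344.df)) (.leaf (.fwd 719 39 tp345.df))) (.leaf (.fwd 758 31 tp346.df))) (.node (.leaf (.fwd 789 25 tp347.df)) (.leaf (.fwd 814 38 tp348.df)))) (.node (.node (.leaf (.bwd 852 31 tp349.df)) (.leaf (.fwd 883 36 tp350.df))) (.node (.leaf (.fwd 919 40 tp351.df)) (.leaf (.fwd 959 35 tp352.df))))))) (.node (.node (.node (.node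 (.node (.node (.leaf (.fwd 994 24 tp353.df)) (.leaf (.bwd 1018 24 tp354.df))) (.leaf (.bwd 1042 13 tp355.df))) (.node (.leaf (.fwd 1055 38 tp356.df)) (.leaf (.bwd 1093 34 tp357.df)))) (.node (.node (.leaf (.bwd 1127 37 tp358.df)) (.leaf (.bwd 1164 35 tp359.df))) (.node (.leaf (.bwd 1199 35 tp360.df)) (.leaf (.bwd 1234 25 tp361.df))))) (.node (.node (.node (.node (.leaf (.fwd 1259 38 tp362.df)) (.leaf (.bwd 1297 33 tp363.df))) (.leaf (.fwd 1330 44 tp364.df))) (.node (.leaf (.fwd 1374 26 tp365.df)) (.leaf (.fwd 1400 23 tp366.df)))) (.node (.node (.leaf (.fwd 1423 26 tp367.df)) (.leaf (.fwd 1449 32 tp368.df))) (.node (.leaf (.fwd 1481 32 tp369.df)) (.leaf (.fwd 1513 26 tp370.df)))))) (.node (.node (.node (.node (.node (.leaf (.bwd 1539 19 tp371.df)) (.leaf (.bwd 1558 37 tp372.df))) (.leaf (.bwd 1595 28 tp373.df))) (.node (.leaf (.fwd 1623 26 tp374.df)) (.leaf (.fwd 1649 48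 tp375.df)))) (.node (.node (.leaf (.bwd 1697 37 tp376.df)) (.leaf (.fwd 1734 23 tp377.df))) (.node (.leaf (.bwd 1757 22 tp378.df)) (.leaf (.fwd 1779 22 tp379.df))))) (.node (.node (.node (.node (.leaf (.bwd 1801 34 tp380.df)) (.leaf (.fwd 1835 46 tp381.df))) (.leaf (.bwd 1881 24 tp382.df))) (.node (.leaf (.bwd 1905 24 tp383.df)) (.leaf (.fwd 1929 25 tp361.df)))) (.node (.node (.leaf (.fwd 1954 26 tp384.df)) (.leaf (.fwd 1980 28 tp385.df))) (.node (.leaf (.fwd 2008 31 tp386.df)) (.leaf (.bwd 2039 23 tp387.df))))))))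

theorem iiNF2A2AzE2A2Ax3xA2A2EzAzA2F_c : iiNF2A2AzE2A2Ax3xA2A2EzAzA2F.all (itB (ng 48 nnNF2A2AzE2A2Ax3xA2A2EzAzA2F)) = true := by decide +kernel
theorem nbNF2A2AzE2A2Ax3xA2A2EzAzA2F : nbB 48 2110 nnNF2A2AzE2A2Ax3xA2A2EzAzA2F = true := by decide +kernel
theorem topNF2A2AzE2A2Ax3xA2A2EzAzA2F : topY 2110 ttNF2A2AzE2A2Ax3xA2A2EzAzA2F ceNF2A2AzE2A2Ax3xA2A2EzAzA2F xNF2A2AzE2A2Ax3xA2A2EzAzA2F iiNF2A2AzE2A2Ax3xA2A2EzAzA2F = true := by decide +kernel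

end MPb6P
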