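import Pool.Agent.Lib.MP_b6d339_lc.Cw.YF2A2AzE2A2Ax3xA2A2EzAzAyF
import Pool.Agent.Lib.MP_b6d339_lc.Cw.XL
import Pool.Agent.Lib.MP_b6d339_lc.Cw.T3
import Pool.Agent.Lib.MP_b6d339_lc.Cw.T4
import Pool.Agent.Lib.MP_b6d339_lc.Cw.T5

/-!
# Erdős 592, three levels: items
-/

namespace MPb6P

noncomputable def iiNF2A2AzE2A2Ax3xA2A2EzAzAyF : BT Itm := (.node (.node (.node (.node (.node (.node (.node (.leaf (.fwd 0 28 tp388.df)) (.leaf (.fwd 28 25 tp319.df))) (.leaf (.fwd 53 27 tp321.df))) (.node (.node (.leaf (.fwd 80 23 tp292.df)) (.leaf (.fwd 103 21 tp389.df))) (.leaf (.fwd 124 11 tp390.df)))) (.node (.node (.node (.leaf (.fwd 135 19 tp391.df)) (.leaf (.fwd 154 25 tp392.df))) (.leaf (.fwd 179 19 tp326.df))) (.node (.leaf (.fwd 198 28 tp393.df)) (.leaf (.fwd 226 28 tp394.df))))) (.node (.node (.node (.node (.leaf (.fwd 254 29 tp329.df)) (.leaf (.fwd 283 18 tp333.df))) (.leaf (.fwd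 301 22 tp334.df))) (.node (.leaf (.fwd 323 28 tp395.df)) (.leaf (.fwd 351 23 tp335.df)))) (.node (.node (.node (.leaf (.fwd 374 36 tp396.df)) (.leaf (.bwd 410 32 tp397.df))) (.leaf (.bwd 442 17 tp337.df))) (.node (.leaf (.bwd 459 27 tp338.df)) (.leaf (.bwd 486 32 tp340.df)))))) (.node (.node (.node (.node (.node (.leaf (.bwd 518 22 tp378.df)) (.leaf (.fwd 540 27 tp341.df))) (.leaf (.bwd 567 29 tp398.df))) (.node (.leaf (.fwd 596 23 tp399.df)) (.leaf (.fwd 619 28 tp400.df)))) (.node (.node (.node (.leaf (.fwd 647 19 tp401.df)) (.leaf (.fwd 666 26 tp367.df))) (.leaf (.bwd 692 32 tp402.df))) (.node (.leaf (.fwd 724 30 tp299.df)) (.leaf (.fwd 754 28 tp344.df))))) (.node (.node (.node (.node (.leaf (.bwd 782 35 tp403.df)) (.leaf (.fwd 817 31 tp346.df))) (.leaf (.fwd 848 19 tp404.df))) (.node (.leaf (.fwd 867 25 tp347.df)) (.leaf (.fwd 892 38 tp348.df)))) (.node (.node (.node (.leaf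 (.fwd 930 25 tp312.df)) (.leaf (.fwd 955 19 tp405.df))) (.leaf (.bwd 974 31 tp349.df))) (.node (.leaf (.fwd 1005 51 tp406.df)) (.leaf (.bwd 1056 37 tp376.df))))))) (.node (.node (.node (.node (.node (.node (.leaf (.bwd 1093 32 tp407.df)) (.leaf (.fwd 1125 40 tp351.df))) (.leaf (.fwd 1165 24 tp353.df))) (.node (.node (.leaf (.bwd 1189 24 tp354.df)) (.leaf (.bwd 1213 28 tp373.df))) (.leaf (.bwd 1241 13 tp355.df)))) (.node (.node (.node (.leaf (.fwd 1254 38 tp356.df)) (.leaf (.bwd 1292 22 tp408.df))) (.leaf (.bwd 1314 27 tp409.df))) (.node (.leaf (.bwd 1341 37 tp410.df)) (.leaf (.fwd 1378 24 tp411.df))))) (.node (.node (.node (.node (.leaf (.bwd 1402 35 tp359.df)) (.leaf (.bwd 1437 35 tp360.df))) (.leaf (.bwd 1472 25 tp361.df))) (.node (.leaf (.fwd 1497 48 tp375.df)) (.leaf (.fwd 1545 28 tp412.df)))) (.node (.node (.node (.leaf (.fwd 1573 38 tp362.df)) (.leaf (.bwd 1611 29 tp413.df)))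 (.leaf (.fwd 1640 44 tp364.df))) (.node (.leaf (.fwd 1684 26 tp365.df)) (.leaf (.fwd 1710 31 tp386.df)))))) (.node (.node (.node (.node (.node (.leaf (.fwd 1741 23 tp366.df)) (.leaf (.fwd 1764 29 tp414.df))) (.leaf (.fwd 1793 27 tp415.df))) (.node (.leaf (.bwd 1820 40 tp416.df)) (.leaf (.fwd 1860 20 tp417.df)))) (.node (.node (.node (.leaf (.fwd 1880 35 tp352.df)) (.leaf (.bwd 1915 17 tp418.df))) (.leaf (.bwd 1932 23 tp320.df))) (.node (.leaf (.bwd 1955 26 tp419.df)) (.leaf (.fwd 1981 21 tp420.df))))) (.node (.node (.node (.node (.leaf (.bwd 2002 17 tp421.df)) (.leaf (.bwd 2019 17 tp422.df))) (.leaf (.bwd 2036 25 tp423.df))) (.node (.leaf (.fwd 2061 28 tp385.df)) (.leaf (.fwd 2089 21 tp424.df)))) (.node (.node (.node (.leaf (.fwd 2110 17 tp425.df)) (.leaf (.bwd 2127 23 tp426.df))) (.leaf (.bwd 2150 15 tp318.df))) (.node (.leaf (.fwd 2165 16 tp427.df)) (.leaf (.bwd 2181 22 tp334.df))))))))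

theorem iiNF2A2AzE2A2Ax3xA2A2EzAzAyF_c : iiNF2A2AzE2A2Ax3xA2A2EzAzAyF.all (itB (ng 51 nnNF2A2AzE2A2Ax3xA2A2EzAzAyF)) = true := by decide +kernel
theorem nbNF2A2AzE2A2Ax3xA2A2EzAzAyF : nbB 51 2254 nnNF2A2AzE2A2Ax3xA2A2EzAzAyF = true := by decide +kernel
theorem topNF2A2AzE2A2Ax3xA2A2EzAzAyF : topY 2254 ttNF2A2AzE2A2Ax3xA2A2EzAzAyF ceNF2A2AzE2A2Ax3xA2A2EzAzAyF xNF2A2AzE2A2Ax3xA2A2EzAzAyF iiNF2A2AzE2A2Ax3xA2A2EzAzAyF = true := by decide +kernel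

end MPb6P
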