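import Pool.Agent.Lib.MP_b6d339_lc.Cw.YF2A2AzE2A2Ax3xA2A2EzAzAzF
import Pool.Agent.Lib.MP_b6d339_lc.Cw.XL
import Pool.Agent.Lib.MP_b6d339_lc.Cw.T3
import Pool.Agent.Lib.MP_b6d339_lc.Cw.T4
import Pool.Agent.Lib.MP_b6d339_lc.Cw.T5

/-!
# Erdős 592, three levels: items
-/

namespace MPb6P

noncomputable def iiNF2A2AzE2A2Ax3xA2A2EzAzAzF : BT Itm := (.node (.node (.node (.node (.node (.node (.node (.leaf (.bwd 0 15 tp318.df)) (.leaf (.bwd 15 24 tp428.df))) (.leaf (.fwd 39 32 tp368.df))) (.node (.node (.leaf (.fwd 71 13 tp307.df)) (.leaf (.fwd 84 25 tp319.df))) (.leaf (.bwd 109 23 tp320.df)))) (.node (.node (.node (.leaf (.fwd 132 23 tp292.df)) (.leaf (.fwd 155 25 tp392.df))) (.leaf (.fwd 180 19 tp326.df))) (.node (.leaf (.fwd 199 21 tp429.df)) (.leaf (.bwd 220 19 tp327.df))))) (.node (.node (.node (.node (.leaf (.fwd 239 27 tp415.df)) (.leaf (.fwd 266 29 tp329.df))) (.leaf (.fwd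 295 23 tp430.df))) (.node (.leaf (.fwd 318 34 tp431.df)) (.leaf (.fwd 352 22 tp334.df)))) (.node (.node (.node (.leaf (.bwd 374 22 tp334.df)) (.leaf (.fwd 396 23 tp335.df))) (.leaf (.bwd 419 17 tp337.df))) (.node (.leaf (.bwd 436 27 tp338.df)) (.leaf (.bwd 463 32 tp340.df)))))) (.node (.node (.node (.node (.node (.leaf (.fwd 495 26 tp432.df)) (.leaf (.bwd 521 22 tp378.df))) (.leaf (.bwd 543 29 tp398.df))) (.node (.leaf (.fwd 572 23 tp399.df)) (.leaf (.fwd 595 19 tp401.df)))) (.node (.node (.node (.leaf (.fwd 614 26 tp367.df)) (.leaf (.bwd 640 25 tp433.df))) (.leaf (.bwd 665 32 tp402.df))) (.node (.leaf (.fwd 697 28 tp344.df)) (.leaf (.bwd 725 35 tp403.df))))) (.node (.node (.node (.node (.leaf (.fwd 760 31 tp346.df)) (.leaf (.fwd 791 19 tp404.df))) (.leaf (.fwd 810 25 tp347.df))) (.node (.leaf (.fwd 835 40 tp434.df)) (.leaf (.fwd 875 38 tp348.df)))) (.node (.node (.node (.leaf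 (.fwd 913 25 tp312.df)) (.leaf (.fwd 938 19 tp405.df))) (.leaf (.bwd 957 31 tp349.df))) (.node (.leaf (.fwd 988 40 tp351.df)) (.leaf (.fwd 1028 24 tp353.df))))))) (.node (.node (.node (.node (.node (.node (.leaf (.bwd 1052 24 tp354.df)) (.leaf (.bwd 1076 13 tp355.df))) (.leaf (.fwd 1089 38 tp356.df))) (.node (.node (.leaf (.bwd 1127 22 tp408.df)) (.leaf (.bwd 1149 37 tp358.df))) (.leaf (.bwd 1186 27 tp409.df)))) (.node (.node (.node (.leaf (.fwd 1213 24 tp411.df)) (.leaf (.bwd 1237 33 tp435.df))) (.leaf (.bwd 1270 35 tp359.df))) (.node (.leaf (.bwd 1305 25 tp361.df)) (.leaf (.fwd 1330 28 tp412.df))))) (.node (.node (.node (.node (.leaf (.fwd 1358 38 tp362.df)) (.leaf (.bwd 1396 29 tp413.df))) (.leaf (.fwd 1425 44 tp364.df))) (.node (.leaf (.fwd 1469 26 tp365.df)) (.leaf (.fwd 1495 31 tp386.df)))) (.node (.node (.node (.leaf (.fwd 1526 23 tp366.df)) (.leaf (.fwd 1549 25 tp436.df)))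 (.leaf (.fwd 1574 18 tp333.df))) (.node (.leaf (.bwd 1592 35 tp360.df)) (.leaf (.fwd 1627 48 tp375.df)))))) (.node (.node (.node (.node (.node (.leaf (.fwd 1675 35 tp352.df)) (.leaf (.bwd 1710 37 tp376.df))) (.leaf (.fwd 1747 27 tp321.df))) (.node (.leaf (.bwd 1774 21 tp295.df)) (.leaf (.fwd 1795 33 tp437.df)))) (.node (.node (.node (.leaf (.bwd 1828 24 tp438.df)) (.leaf (.bwd 1852 34 tp439.df))) (.leaf (.bwd 1886 17 tp421.df))) (.node (.leaf (.bwd 1903 17 tp422.df)) (.leaf (.bwd 1920 23 tp426.df))))) (.node (.node (.node (.node (.leaf (.bwd 1943 32 tp440.df)) (.leaf (.bwd 1975 26 tp419.df))) (.leaf (.fwd 2001 19 tp441.df))) (.node (.leaf (.fwd 2020 25 tp442.df)) (.leaf (.fwd 2045 20 tp443.df)))) (.node (.node (.node (.leaf (.fwd 2065 35 tp444.df)) (.leaf (.fwd 2100 16 tp427.df))) (.leaf (.fwd 2116 17 tp425.df))) (.node (.leaf (.bwd 2133 27 tp445.df)) (.leaf (.bwd 2160 15 tp446.df))))))))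

theorem iiNF2A2AzE2A2Ax3xA2A2EzAzAzF_c : iiNF2A2AzE2A2Ax3xA2A2EzAzAzF.all (itB (ng 48 nnNF2A2AzE2A2Ax3xA2A2EzAzAzF)) = true := by decide +kernel
theorem nbNF2A2AzE2A2Ax3xA2A2EzAzAzF : nbB 48 2223 nnNF2A2AzE2A2Ax3xA2A2EzAzAzF = true := by decide +kernel
theorem topNF2A2AzE2A2Ax3xA2A2EzAzAzF : topY 2223 ttNF2A2AzE2A2Ax3xA2A2EzAzAzF ceNF2A2AzE2A2Ax3xA2A2EzAzAzF xNF2A2AzE2A2Ax3xA2A2EzAzAzF iiNF2A2AzE2A2Ax3xA2A2EzAzAzF = true := by decide +kernel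

end MPb6P
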