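import Pool.Agent.Lib.MP_b6d339_lc.Cw.YF2AzAzE2A2Ax3xA2A2EzA2AyF
import Pool.Agent.Lib.MP_b6d339_lc.Cw.XL
import Pool.Agent.Lib.MP_b6d339_lc.Cw.T3
import Pool.Agent.Lib.MP_b6d339_lc.Cw.T4
import Pool.Agent.Lib.MP_b6d339_lc.Cw.T5
import Pool.Agent.Lib.MP_b6d339_lc.Cw.T6

/-!
# Erdős 592, three levels: items
-/

namespace MPb6P

noncomputable def iiNF2AzAzE2A2Ax3xA2A2EzA2AyF : BT Itm := (.node (.node (.node (.node (.node (.node (.node (.leaf (.fwd 0 15 tp318.df)) (.leaf (.fwd 15 28 tp388.df))) (.leaf (.bwd 43 25 tp479.df))) (.node (.node (.leaf (.bwd 68 16 tp480.df)) (.leaf (.fwd 84 23 tp292.df))) (.leaf (.bwd 107 29 tp452.df)))) (.node (.node (.node (.leaf (.fwd 136 19 tp326.df)) (.leaf (.fwd 155 27 tp481.df))) (.leaf (.fwd 182 21 tp482.df))) (.node (.node (.leaf (.fwd 203 30 tp483.df)) (.leaf (.bwd 233 29 tp484.df))) (.leaf (.fwd 262 22 tp334.df))))) (.node (.node (.node (.node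 (.leaf (.bwd 284 22 tp334.df)) (.leaf (.fwd 306 16 tp485.df))) (.leaf (.bwd 322 35 tp486.df))) (.node (.node (.leaf (.bwd 357 31 tp467.df)) (.leaf (.fwd 388 23 tp487.df))) (.leaf (.fwd 411 17 tp337.df)))) (.node (.node (.node (.leaf (.fwd 428 27 tp338.df)) (.leaf (.fwd 455 25 tp488.df))) (.leaf (.bwd 480 23 tp489.df))) (.node (.node (.leaf (.fwd 503 45 tp490.df)) (.leaf (.fwd 548 22 tp378.df))) (.leaf (.fwd 570 22 tp473.df)))))) (.node (.node (.node (.node (.node (.leaf (.fwd 592 27 tp341.df)) (.leaf (.fwd 619 28 tp342.df))) (.leaf (.bwd 647 37 tp491.df))) (.node (.node (.leaf (.bwd 684 32 tp402.df)) (.leaf (.bwd 716 30 tp299.df))) (.leaf (.fwd 746 47 tp492.df)))) (.node (.node (.node (.leaf (.fwd 793 19 tp493.df)) (.leaf (.fwd 812 22 tp451.df))) (.leaf (.bwd 834 37 tp372.df))) (.node (.node (.leaf (.fwd 871 34 tp494.df)) (.leaf (.bwd 905 32 tp495.df))) (.leaf (.fwd 937 28 tp496.df)))))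 (.node (.node (.node (.node (.leaf (.fwd 965 35 tp403.df)) (.leaf (.fwd 1000 36 tp497.df))) (.leaf (.fwd 1036 39 tp498.df))) (.node (.node (.leaf (.bwd 1075 31 tp346.df)) (.leaf (.fwd 1106 34 tp499.df))) (.leaf (.bwd 1140 31 tp500.df)))) (.node (.node (.node (.leaf (.bwd 1171 34 tp501.df)) (.leaf (.fwd 1205 22 tp502.df))) (.leaf (.fwd 1227 25 tp347.df))) (.node (.node (.leaf (.bwd 1252 25 tp347.df)) (.leaf (.fwd 1277 30 tp503.df))) (.leaf (.fwd 1307 29 tp504.df))))))) (.node (.node (.node (.node (.node (.node (.leaf (.bwd 1336 31 tp349.df)) (.leaf (.fwd 1367 34 tp505.df))) (.leaf (.bwd 1401 29 tp477.df))) (.node (.node (.leaf (.fwd 1430 36 tp350.df)) (.leaf (.fwd 1466 22 tp506.df))) (.leaf (.bwd 1488 24 tp353.df)))) (.node (.node (.node (.leaf (.fwd 1512 20 tp450.df)) (.leaf (.fwd 1532 13 tp355.df))) (.leaf (.bwd 1545 38 tp356.df))) (.node (.node (.leaf (.fwd 1583 19 tp371.df))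 (.leaf (.bwd 1602 18 tp507.df))) (.leaf (.bwd 1620 37 tp358.df))))) (.node (.node (.node (.node (.leaf (.fwd 1657 37 tp410.df)) (.leaf (.bwd 1694 45 tp508.df))) (.leaf (.bwd 1739 33 tp435.df))) (.node (.node (.leaf (.bwd 1772 35 tp359.df)) (.leaf (.bwd 1807 35 tp360.df))) (.leaf (.bwd 1842 25 tp361.df)))) (.node (.node (.node (.leaf (.bwd 1867 44 tp364.df)) (.leaf (.fwd 1911 26 tp365.df))) (.leaf (.fwd 1937 29 tp509.df))) (.node (.node (.leaf (.fwd 1966 27 tp445.df)) (.leaf (.bwd 1993 27 tp331.df))) (.leaf (.fwd 2020 27 tp510.df)))))) (.node (.node (.node (.node (.node (.leaf (.fwd 2047 29 tp511.df)) (.leaf (.bwd 2076 31 tp386.df))) (.leaf (.fwd 2107 48 tp375.df))) (.node (.node (.leaf (.fwd 2155 25 tp512.df)) (.leaf (.bwd 2180 38 tp513.df))) (.leaf (.fwd 2218 26 tp432.df)))) (.node (.node (.node (.leaf (.bwd 2244 22 tp378.df)) (.leaf (.fwd 2266 26 tp514.df))) (.leaf (.bwd 2292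 23 tp320.df))) (.node (.node (.leaf (.bwd 2315 16 tp515.df)) (.leaf (.bwd 2331 32 tp516.df))) (.leaf (.bwd 2363 26 tp419.df))))) (.node (.node (.node (.node (.leaf (.bwd 2389 19 tp517.df)) (.leaf (.fwd 2408 27 tp518.df))) (.leaf (.bwd 2435 29 tp519.df))) (.node (.node (.leaf (.bwd 2464 18 tp461.df)) (.leaf (.fwd 2482 11 tp520.df))) (.leaf (.fwd 2493 15 tp521.df)))) (.node (.node (.node (.leaf (.bwd 2508 15 tp318.df)) (.leaf (.bwd 2523 27 tp445.df))) (.leaf (.bwd 2550 14 tp522.df))) (.node (.node (.leaf (.bwd 2564 19 tp391.df)) (.leaf (.bwd 2583 32 tp369.df))) (.leaf (.fwd 2615 16 tp523.df))))))))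

theorem iiNF2AzAzE2A2Ax3xA2A2EzA2AyF_c : iiNF2AzAzE2A2Ax3xA2A2EzA2AyF.all (itB (ng 48 nnNF2AzAzE2A2Ax3xA2A2EzA2AyF)) = true := by decide +kernel
theorem nbNF2AzAzE2A2Ax3xA2A2EzA2AyF : nbB 48 2679 nnNF2AzAzE2A2Ax3xA2A2EzA2AyF = true := by decide +kernel
theorem topNF2AzAzE2A2Ax3xA2A2EzA2AyF : topY 2679 ttNF2AzAzE2A2Ax3xA2A2EzA2AyF ceNF2AzAzE2A2Ax3xA2A2EzA2AyF xNF2AzAzE2A2Ax3xA2A2EzA2AyF iiNF2AzAzE2A2Ax3xA2A2EzA2AyF = true := by decide +kernel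

end MPb6P
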