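import Pool.Agent.Lib.MP_b6d339_lc.Cw.YF2AzAzEyA2Ax3xA2AyEzAzA2F
import Pool.Agent.Lib.MP_b6d339_lc.Cw.XL
import Pool.Agent.Lib.MP_b6d339_lc.Cw.T3
import Pool.Agent.Lib.MP_b6d339_lc.Cw.T4
import Pool.Agent.Lib.MP_b6d339_lc.Cw.T5
import Pool.Agent.Lib.MP_b6d339_lc.Cw.T6
import Pool.Agent.Lib.MP_b6d339_lc.Cw.T7

/-!
# Erdős 592, three levels: items
-/

namespace MPb6P

noncomputable def iiNF2AzAzEyA2Ax3xA2AyEzAzA2F : BT Itm := (.node (.node (.node (.node (.node (.node (.node (.leaf (.fwd 0 43 tp524.df)) (.leaf (.bwd 43 43 tp524.df))) (.node (.leaf (.bwd 86 37 tp525.df)) (.leaf (.fwd 123 32 tp447.df)))) (.node (.node (.leaf (.fwd 155 23 tp526.df)) (.leaf (.fwd 178 22 tp527.df))) (.node (.leaf (.bwd 200 19 tp371.df)) (.leaf (.fwd 219 35 tp403.df))))) (.node (.node (.node (.leaf (.bwd 254 35 tp403.df)) (.leaf (.fwd 289 28 tp528.df))) (.node (.leaf (.fwd 317 23 tp292.df)) (.leaf (.bwd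 340 20 tp324.df)))) (.node (.node (.leaf (.bwd 360 19 tp326.df)) (.leaf (.fwd 379 27 tp331.df))) (.leaf (.bwd 406 27 tp331.df))))) (.node (.node (.node (.node (.leaf (.fwd 433 45 tp490.df)) (.leaf (.bwd 478 45 tp490.df))) (.node (.leaf (.bwd 523 29 tp477.df)) (.leaf (.fwd 552 43 tp529.df)))) (.node (.node (.leaf (.fwd 595 22 tp334.df)) (.leaf (.bwd 617 22 tp334.df))) (.leaf (.fwd 639 32 tp368.df)))) (.node (.node (.node (.leaf (.bwd 671 32 tp368.df)) (.leaf (.bwd 703 31 tp530.df))) (.node (.leaf (.fwd 734 27 tp341.df)) (.leaf (.bwd 761 27 tp341.df)))) (.node (.node (.leaf (.fwd 788 43 tp531.df)) (.leaf (.bwd 831 43 tp531.df))) (.leaf (.bwd 874 22 tp378.df)))))) (.node (.node (.node (.node (.node (.leaf (.bwd 896 37 tp532.df)) (.leaf (.fwd 933 29 tp484.df))) (.node (.leaf (.bwd 962 29 tp484.df)) (.leaf (.bwd 991 32 tp533.df)))) (.node (.node (.leaf (.bwd 1023 37 tp372.df)) (.leaf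 (.fwd 1060 34 tp499.df))) (.node (.leaf (.fwd 1094 38 tp356.df)) (.leaf (.fwd 1132 41 tp534.df))))) (.node (.node (.node (.leaf (.bwd 1173 34 tp535.df)) (.leaf (.fwd 1207 22 tp536.df))) (.node (.leaf (.fwd 1229 38 tp348.df)) (.leaf (.fwd 1267 23 tp377.df)))) (.node (.node (.leaf (.fwd 1290 48 tp375.df)) (.leaf (.fwd 1338 48 tp537.df))) (.leaf (.fwd 1386 32 tp369.df))))) (.node (.node (.node (.node (.leaf (.fwd 1418 36 tp350.df)) (.leaf (.bwd 1454 28 tp538.df))) (.node (.leaf (.bwd 1482 35 tp359.df)) (.leaf (.fwd 1517 25 tp361.df)))) (.node (.node (.leaf (.bwd 1542 44 tp364.df)) (.leaf (.fwd 1586 29 tp413.df))) (.leaf (.bwd 1615 18 tp507.df)))) (.node (.node (.node (.leaf (.bwd 1633 39 tp336.df)) (.leaf (.fwd 1672 20 tp450.df))) (.node (.leaf (.fwd 1692 29 tp398.df)) (.leaf (.bwd 1721 35 tp360.df)))) (.node (.node (.leaf (.fwd 1756 32 tp539.df)) (.leaf (.fwd 1788 22 tp540.df)))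 (.leaf (.bwd 1810 22 tp540.df))))))) (.node (.node (.node (.node (.node (.node (.leaf (.bwd 1832 33 tp363.df)) (.leaf (.fwd 1865 35 tp541.df))) (.node (.leaf (.fwd 1900 27 tp542.df)) (.leaf (.bwd 1927 27 tp542.df)))) (.node (.node (.leaf (.fwd 1954 29 tp509.df)) (.leaf (.fwd 1983 23 tp543.df))) (.node (.leaf (.fwd 2006 28 tp544.df)) (.leaf (.fwd 2034 25 tp545.df))))) (.node (.node (.node (.leaf (.bwd 2059 42 tp546.df)) (.leaf (.fwd 2101 33 tp547.df))) (.node (.leaf (.fwd 2134 35 tp444.df)) (.leaf (.fwd 2169 34 tp548.df)))) (.node (.node (.leaf (.bwd 2203 27 tp549.df)) (.leaf (.bwd 2230 25 tp361.df))) (.leaf (.fwd 2255 34 tp494.df))))) (.node (.node (.node (.node (.leaf (.bwd 2289 46 tp550.df)) (.leaf (.fwd 2335 28 tp551.df))) (.node (.leaf (.fwd 2363 46 tp552.df)) (.leaf (.bwd 2409 28 tp553.df)))) (.node (.node (.leaf (.bwd 2437 40 tp554.df)) (.leaf (.bwd 2477 28 tp555.df))) (.leaf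 (.bwd 2505 28 tp342.df)))) (.node (.node (.node (.leaf (.bwd 2533 23 tp556.df)) (.leaf (.fwd 2556 25 tp347.df))) (.node (.leaf (.fwd 2581 31 tp386.df)) (.leaf (.fwd 2612 37 tp557.df)))) (.node (.node (.leaf (.bwd 2649 46 tp558.df)) (.leaf (.fwd 2695 29 tp504.df))) (.leaf (.bwd 2724 42 tp559.df)))))) (.node (.node (.node (.node (.node (.leaf (.fwd 2766 40 tp351.df)) (.leaf (.fwd 2806 33 tp560.df))) (.node (.leaf (.fwd 2839 40 tp554.df)) (.leaf (.bwd 2879 45 tp561.df)))) (.node (.node (.leaf (.bwd 2924 27 tp562.df)) (.leaf (.fwd 2951 32 tp563.df))) (.leaf (.fwd 2983 33 tp564.df)))) (.node (.node (.node (.leaf (.fwd 3016 23 tp565.df)) (.leaf (.fwd 3039 18 tp566.df))) (.node (.leaf (.bwd 3057 34 tp380.df)) (.leaf (.bwd 3091 27 tp567.df)))) (.node (.node (.leaf (.bwd 3118 32 tp516.df)) (.leaf (.bwd 3150 43 tp568.df))) (.leaf (.bwd 3193 32 tp369.df))))) (.node (.node (.node (.node (.leaf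 (.bwd 3225 29 tp519.df)) (.leaf (.bwd 3254 23 tp320.df))) (.node (.leaf (.bwd 3277 32 tp569.df)) (.leaf (.fwd 3309 20 tp417.df)))) (.node (.node (.leaf (.fwd 3329 29 tp570.df)) (.leaf (.fwd 3358 25 tp488.df))) (.leaf (.fwd 3383 30 tp571.df)))) (.node (.node (.node (.leaf (.bwd 3413 29 tp452.df)) (.leaf (.fwd 3442 29 tp572.df))) (.node (.leaf (.fwd 3471 40 tp573.df)) (.leaf (.bwd 3511 28 tp574.df)))) (.node (.node (.leaf (.bwd 3539 40 tp575.df)) (.leaf (.bwd 3579 37 tp576.df))) (.leaf (.bwd 3616 22 tp536.df))))))))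

theorem iiNF2AzAzEyA2Ax3xA2AyEzAzA2F_c : iiNF2AzAzEyA2Ax3xA2AyEzAzA2F.all (itB (ng 48 nnNF2AzAzEyA2Ax3xA2AyEzAzA2F)) = true := by decide +kernel
theorem nbNF2AzAzEyA2Ax3xA2AyEzAzA2F : nbB 48 3686 nnNF2AzAzEyA2Ax3xA2AyEzAzA2F = true := by decide +kernel
theorem topNF2AzAzEyA2Ax3xA2AyEzAzA2F : topY 3686 ttNF2AzAzEyA2Ax3xA2AyEzAzA2F ceNF2AzAzEyA2Ax3xA2AyEzAzA2F xNF2AzAzEyA2Ax3xA2AyEzAzA2F iiNF2AzAzEyA2Ax3xA2AyEzAzA2F = true := by decide +kernel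

end MPb6P
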