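import Pool.Agent.Lib.MP_b6d339_lc.Cw.YF2AzAzEyA2Ax3xA2AyEzAzAzF
import Pool.Agent.Lib.MP_b6d339_lc.Cw.XL
import Pool.Agent.Lib.MP_b6d339_lc.Cw.T3
import Pool.Agent.Lib.MP_b6d339_lc.Cw.T4
import Pool.Agent.Lib.MP_b6d339_lc.Cw.T5
import Pool.Agent.Lib.MP_b6d339_lc.Cw.T6
import Pool.Agent.Lib.MP_b6d339_lc.Cw.T7

/-!
# Erdős 592, three levels: items
-/

namespace MPb6P

noncomputable def iiNF2AzAzEyA2Ax3xA2AyEzAzAzF : BT Itm := (.node (.node (.node (.node (.node (.node (.node (.leaf (.fwd 0 43 tp524.df)) (.leaf (.bwd 43 43 tp524.df))) (.node (.leaf (.bwd 86 37 tp525.df)) (.leaf (.fwd 123 32 tp447.df)))) (.node (.node (.leaf (.bwd 155 32 tp447.df)) (.leaf (.fwd 187 23 tp399.df))) (.leaf (.fwd 210 22 tp527.df)))) (.node (.node (.node (.leaf (.fwd 232 35 tp403.df)) (.leaf (.bwd 267 35 tp403.df))) (.node (.leaf (.fwd 302 23 tp292.df)) (.leaf (.fwd 325 19 tp326.df)))) (.node (.node (.leaf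 (.bwd 344 19 tp326.df)) (.leaf (.fwd 363 27 tp331.df))) (.leaf (.bwd 390 27 tp331.df))))) (.node (.node (.node (.node (.leaf (.fwd 417 45 tp490.df)) (.leaf (.bwd 462 29 tp477.df))) (.node (.leaf (.fwd 491 43 tp529.df)) (.leaf (.bwd 534 22 tp334.df)))) (.node (.node (.leaf (.fwd 556 32 tp368.df)) (.leaf (.fwd 588 27 tp341.df))) (.leaf (.bwd 615 27 tp341.df)))) (.node (.node (.node (.leaf (.fwd 642 43 tp531.df)) (.leaf (.bwd 685 43 tp531.df))) (.node (.leaf (.fwd 728 25 tp319.df)) (.leaf (.fwd 753 19 tp405.df)))) (.node (.node (.leaf (.fwd 772 22 tp378.df)) (.leaf (.bwd 794 37 tp532.df))) (.leaf (.fwd 831 29 tp484.df)))))) (.node (.node (.node (.node (.node (.leaf (.bwd 860 29 tp484.df)) (.leaf (.bwd 889 32 tp533.df))) (.node (.leaf (.fwd 921 27 tp510.df)) (.leaf (.bwd 948 28 tp553.df)))) (.node (.node (.leaf (.fwd 976 29 tp519.df)) (.leaf (.bwd 1005 37 tp372.df))) (.leaf (.fwd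 1042 38 tp587.df)))) (.node (.node (.node (.leaf (.bwd 1080 29 tp588.df)) (.leaf (.fwd 1109 34 tp499.df))) (.node (.leaf (.bwd 1143 24 tp589.df)) (.leaf (.fwd 1167 38 tp356.df)))) (.node (.node (.leaf (.fwd 1205 40 tp554.df)) (.leaf (.bwd 1245 40 tp554.df))) (.leaf (.fwd 1285 41 tp534.df))))) (.node (.node (.node (.node (.leaf (.fwd 1326 29 tp504.df)) (.leaf (.bwd 1355 34 tp535.df))) (.node (.leaf (.bwd 1389 22 tp536.df)) (.leaf (.fwd 1411 48 tp375.df)))) (.node (.node (.leaf (.bwd 1459 15 tp577.df)) (.leaf (.bwd 1474 35 tp359.df))) (.leaf (.fwd 1509 25 tp361.df)))) (.node (.node (.node (.leaf (.bwd 1534 25 tp361.df)) (.leaf (.fwd 1559 44 tp364.df))) (.leaf (.bwd 1603 33 tp435.df))) (.node (.node (.leaf (.fwd 1636 19 tp401.df)) (.leaf (.fwd 1655 25 tp347.df))) (.leaf (.fwd 1680 31 tp386.df))))))) (.node (.node (.node (.node (.node (.node (.leaf (.fwd 1711 26 tp432.df)) (.leaf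 (.bwd 1737 46 tp550.df))) (.node (.leaf (.fwd 1783 39 tp590.df)) (.leaf (.bwd 1822 28 tp555.df)))) (.node (.node (.leaf (.bwd 1850 38 tp591.df)) (.leaf (.fwd 1888 19 tp478.df))) (.leaf (.fwd 1907 34 tp494.df)))) (.node (.node (.node (.leaf (.fwd 1941 27 tp542.df)) (.leaf (.fwd 1968 29 tp509.df))) (.node (.leaf (.bwd 1997 29 tp592.df)) (.leaf (.bwd 2026 27 tp593.df)))) (.node (.node (.leaf (.fwd 2053 30 tp503.df)) (.leaf (.bwd 2083 42 tp559.df))) (.leaf (.bwd 2125 34 tp594.df))))) (.node (.node (.node (.node (.leaf (.bwd 2159 15 tp595.df)) (.leaf (.fwd 2174 25 tp596.df))) (.node (.leaf (.fwd 2199 33 tp547.df)) (.leaf (.bwd 2232 31 tp500.df)))) (.node (.node (.leaf (.bwd 2263 32 tp495.df)) (.leaf (.fwd 2295 28 tp342.df))) (.leaf (.fwd 2323 47 tp492.df)))) (.node (.node (.node (.leaf (.fwd 2370 29 tp597.df)) (.leaf (.fwd 2399 24 tp598.df))) (.leaf (.fwd 2423 38 tp348.df))) (.node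 (.node (.leaf (.bwd 2461 28 tp395.df)) (.leaf (.bwd 2489 46 tp558.df))) (.leaf (.fwd 2535 29 tp599.df)))))) (.node (.node (.node (.node (.node (.leaf (.fwd 2564 55 tp600.df)) (.leaf (.fwd 2619 23 tp543.df))) (.node (.leaf (.fwd 2642 25 tp601.df)) (.leaf (.fwd 2667 25 tp602.df)))) (.node (.node (.leaf (.bwd 2692 28 tp603.df)) (.leaf (.fwd 2720 29 tp477.df))) (.leaf (.fwd 2749 40 tp351.df)))) (.node (.node (.node (.leaf (.fwd 2789 27 tp604.df)) (.leaf (.fwd 2816 19 tp404.df))) (.node (.leaf (.bwd 2835 23 tp605.df)) (.leaf (.bwd 2858 23 tp320.df)))) (.node (.node (.leaf (.fwd 2881 26 tp514.df)) (.leaf (.bwd 2907 33 tp606.df))) (.leaf (.bwd 2940 18 tp607.df))))) (.node (.node (.node (.node (.leaf (.bwd 2958 21 tp295.df)) (.leaf (.bwd 2979 27 tp567.df))) (.node (.leaf (.bwd 3006 17 tp608.df)) (.leaf (.bwd 3023 34 tp609.df)))) (.node (.node (.leaf (.fwd 3057 25 tp610.df)) (.leaf (.bwd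 3082 23 tp426.df))) (.leaf (.fwd 3105 25 tp442.df)))) (.node (.node (.node (.leaf (.fwd 3130 22 tp536.df)) (.leaf (.bwd 3152 22 tp583.df))) (.leaf (.fwd 3174 18 tp611.df))) (.node (.node (.leaf (.fwd 3192 32 tp563.df)) (.leaf (.bwd 3224 29 tp519.df))) (.leaf (.fwd 3253 20 tp612.df))))))))

theorem iiNF2AzAzEyA2Ax3xA2AyEzAzAzF_c : iiNF2AzAzEyA2Ax3xA2AyEzAzAzF.all (itB (ng 55 nnNF2AzAzEyA2Ax3xA2AyEzAzAzF)) = true := by decide +kernel
theorem nbNF2AzAzEyA2Ax3xA2AyEzAzAzF : nbB 55 3328 nnNF2AzAzEyA2Ax3xA2AyEzAzAzF = true := by decide +kernel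
theorem topNF2AzAzEyA2Ax3xA2AyEzAzAzF : topY 3328 ttNF2AzAzEyA2Ax3xA2AyEzAzAzF ceNF2AzAzEyA2Ax3xA2AyEzAzAzF xNF2AzAzEyA2Ax3xA2AyEzAzAzF iiNF2AzAzEyA2Ax3xA2AyEzAzAzF = true := by decide +kernel

end MPb6P
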