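import Pool.Agent.Lib.MP_b6d339_lc.Cw.YF2AzE2A2Ax3xA2A2EzA2F
import Pool.Agent.Lib.MP_b6d339_lc.Cw.XL
import Pool.Agent.Lib.MP_b6d339_lc.Cw.T3
import Pool.Agent.Lib.MP_b6d339_lc.Cw.T4
import Pool.Agent.Lib.MP_b6d339_lc.Cw.T5
import Pool.Agent.Lib.MP_b6d339_lc.Cw.T6
import Pool.Agent.Lib.MP_b6d339_lc.Cw.T7

/-!
# Erdős 592, three levels: items
-/

namespace MPb6P

noncomputable def iiNF2AzE2A2Ax3xA2A2EzA2F : BT Itm := (.node (.node (.node (.node (.node (.node (.node (.leaf (.fwd 0 25 tp613.df)) (.leaf (.bwd 25 18 tp461.df))) (.leaf (.bwd 43 21 tp295.df))) (.node (.node (.leaf (.fwd 64 23 tp292.df)) (.leaf (.fwd 87 21 tp424.df))) (.leaf (.fwd 108 19 tp326.df)))) (.node (.node (.node (.leaf (.bwd 127 20 tp614.df)) (.leaf (.bwd 147 27 tp331.df))) (.leaf (.bwd 174 23 tp320.df))) (.node (.leaf (.fwd 197 29 tp477.df)) (.leaf (.bwd 226 29 tp477.df))))) (.node (.node (.node (.node (.leaf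 (.fwd 255 28 tp342.df)) (.leaf (.bwd 283 22 tp334.df))) (.leaf (.fwd 305 25 tp319.df))) (.node (.node (.leaf (.fwd 330 32 tp615.df)) (.leaf (.fwd 362 28 tp578.df))) (.leaf (.fwd 390 37 tp372.df)))) (.node (.node (.node (.leaf (.bwd 427 37 tp372.df)) (.leaf (.fwd 464 38 tp587.df))) (.leaf (.fwd 502 31 tp349.df))) (.node (.leaf (.bwd 533 31 tp349.df)) (.leaf (.fwd 564 22 tp502.df)))))) (.node (.node (.node (.node (.node (.leaf (.fwd 586 30 tp299.df)) (.leaf (.bwd 616 30 tp299.df))) (.leaf (.fwd 646 29 tp329.df))) (.node (.node (.leaf (.fwd 675 17 tp337.df)) (.leaf (.bwd 692 17 tp337.df))) (.leaf (.fwd 709 27 tp338.df)))) (.node (.node (.node (.leaf (.bwd 736 27 tp338.df)) (.leaf (.fwd 763 31 tp346.df))) (.leaf (.bwd 794 31 tp346.df))) (.node (.leaf (.bwd 825 40 tp416.df)) (.leaf (.fwd 865 32 tp616.df))))) (.node (.node (.node (.node (.leaf (.fwd 897 36 tp350.df)) (.leaf (.bwd 933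 25 tp361.df))) (.leaf (.fwd 958 11 tp520.df))) (.node (.node (.leaf (.bwd 969 11 tp520.df)) (.leaf (.bwd 980 19 tp327.df))) (.leaf (.fwd 999 30 tp617.df)))) (.node (.node (.node (.leaf (.fwd 1029 20 tp618.df)) (.leaf (.fwd 1049 25 tp347.df))) (.leaf (.bwd 1074 37 tp376.df))) (.node (.leaf (.fwd 1111 24 tp353.df)) (.leaf (.bwd 1135 35 tp360.df))))))) (.node (.node (.node (.node (.node (.node (.leaf (.bwd 1170 22 tp339.df)) (.leaf (.bwd 1192 27 tp409.df))) (.leaf (.bwd 1219 32 tp407.df))) (.node (.node (.leaf (.bwd 1251 17 tp608.df)) (.leaf (.bwd 1268 33 tp475.df))) (.leaf (.fwd 1301 35 tp619.df)))) (.node (.node (.node (.leaf (.fwd 1336 18 tp465.df)) (.leaf (.fwd 1354 23 tp366.df))) (.leaf (.fwd 1377 34 tp431.df))) (.node (.leaf (.bwd 1411 43 tp620.df)) (.leaf (.fwd 1454 19 tp478.df))))) (.node (.node (.node (.node (.leaf (.bwd 1473 33 tp363.df)) (.leaf (.bwd 1506 20 tp621.df)))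 (.leaf (.bwd 1526 18 tp622.df))) (.node (.node (.leaf (.bwd 1544 39 tp623.df)) (.leaf (.bwd 1583 27 tp445.df))) (.leaf (.fwd 1610 26 tp367.df)))) (.node (.node (.node (.leaf (.fwd 1636 40 tp351.df)) (.leaf (.fwd 1676 33 tp475.df))) (.leaf (.fwd 1709 14 tp624.df))) (.node (.leaf (.fwd 1723 32 tp368.df)) (.leaf (.bwd 1755 29 tp413.df)))))) (.node (.node (.node (.node (.node (.leaf (.fwd 1784 32 tp369.df)) (.leaf (.fwd 1816 27 tp415.df))) (.leaf (.bwd 1843 28 tp373.df))) (.node (.node (.leaf (.bwd 1871 22 tp408.df)) (.leaf (.fwd 1893 31 tp386.df))) (.leaf (.fwd 1924 35 tp352.df)))) (.node (.node (.node (.leaf (.fwd 1959 37 tp410.df)) (.leaf (.fwd 1996 39 tp623.df))) (.leaf (.fwd 2035 32 tp328.df))) (.node (.leaf (.fwd 2067 25 tp512.df)) (.leaf (.bwd 2092 38 tp513.df))))) (.node (.node (.node (.node (.leaf (.fwd 2130 22 tp625.df)) (.leaf (.fwd 2152 48 tp626.df))) (.leaf (.bwd 2200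 22 tp378.df))) (.node (.node (.leaf (.bwd 2222 31 tp294.df)) (.leaf (.bwd 2253 34 tp380.df))) (.leaf (.bwd 2287 11 tp290.df)))) (.node (.node (.node (.leaf (.bwd 2298 14 tp522.df)) (.leaf (.fwd 2312 24 tp354.df))) (.leaf (.bwd 2336 32 tp369.df))) (.node (.leaf (.bwd 2368 20 tp627.df)) (.leaf (.bwd 2388 21 tp628.df))))))))

theorem iiNF2AzE2A2Ax3xA2A2EzA2F_c : iiNF2AzE2A2Ax3xA2A2EzA2F.all (itB (ng 48 nnNF2AzE2A2Ax3xA2A2EzA2F)) = true := by decide +kernel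
theorem nbNF2AzE2A2Ax3xA2A2EzA2F : nbB 48 2457 nnNF2AzE2A2Ax3xA2A2EzA2F = true := by decide +kernel
theorem topNF2AzE2A2Ax3xA2A2EzA2F : topY 2457 ttNF2AzE2A2Ax3xA2A2EzA2F ceNF2AzE2A2Ax3xA2A2EzA2F xNF2AzE2A2Ax3xA2A2EzA2F iiNF2AzE2A2Ax3xA2A2EzA2F = true := by decide +kernel

end MPb6P
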