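import Pool.Agent.Lib.MP_b6d339_lc.Cw.YF2AzAzEyA2Ax3xA2AyEzAzA2F
import Pool.Agent.Lib.MP_b6d339_lc.Cw.XL

/-!
# Erdős 592, three levels: checks of claims
-/

namespace MPb6P

theorem zoNF2AzAzEyA2Ax3xA2AyEzAzA2F_0 : cyO 48 3686 nnNF2AzAzEyA2Ax3xA2AyEzAzA2F ttNF2AzAzEyA2Ax3xA2AyEzAzA2F ceNF2AzAzEyA2Ax3xA2AyEzAzA2F xNF2AzAzEyA2Ax3xA2AyEzAzA2F coNF2AzAzEyA2Ax3xA2AyEzAzA2F_0 = true := by decide +kernel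

theorem zeNF2AzAzEyA2Ax3xA2AyEzAzA2F_0 : cyE 48 3686 nnNF2AzAzEyA2Ax3xA2AyEzAzA2F ttNF2AzAzEyA2Ax3xA2AyEzAzA2F coNF2AzAzEyA2Ax3xA2AyEzAzA2F xNF2AzAzEyA2Ax3xA2AyEzAzA2F ceNF2AzAzEyA2Ax3xA2AyEzAzA2F_0 = true := by decide +kernel

end MPb6P
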