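import Pool.Agent.Lib.MP_b6d339_lc.Cw.YF2AzE2A2Ax3xA2A2EzA2F
import Pool.Agent.Lib.MP_b6d339_lc.Cw.XL

/-!
# Erdős 592, three levels: checks of claims
-/

namespace MPb6P

theorem zeNF2AzE2A2Ax3xA2A2EzA2F_0 : cyE 48 2457 nnNF2AzE2A2Ax3xA2A2EzA2F ttNF2AzE2A2Ax3xA2A2EzA2F coNF2AzE2A2Ax3xA2A2EzA2F xNF2AzE2A2Ax3xA2A2EzA2F ceNF2AzE2A2Ax3xA2A2EzA2F_0 = true := by decide +kernel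

theorem zoNF2AzE2A2Ax3xA2A2EzA2F_0 : cyO 48 2457 nnNF2AzE2A2Ax3xA2A2EzA2F ttNF2AzE2A2Ax3xA2A2EzA2F ceNF2AzE2A2Ax3xA2A2EzA2F xNF2AzE2A2Ax3xA2A2EzA2F coNF2AzE2A2Ax3xA2A2EzA2F_0 = true := by decide +kernel

end MPb6P
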