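import Pool.Agent.Lib.MP_b6d339_lc.Cw.JE2ByA3B2BzIzB3B2EzF
import Pool.Agent.Lib.MP_b6d339_lc.Cw.JF2A2AzE2A2Ax3xA2A2EzAzA2F
import Pool.Agent.Lib.MP_b6d339_lc.Cw.JF2A2AzE2A2Ax3xA2A2EzAzAyF
import Pool.Agent.Lib.MP_b6d339_lc.Cw.JF2A2AzE2A2Ax3xA2A2EzAzAzF
import Pool.Agent.Lib.MP_b6d339_lc.Cw.JF2AzAzE2A2Ax3xA2A2EzA2AyF
import Pool.Agent.Lib.MP_b6d339_lc.Cw.JF2AzAzE2B3HzB2H3B2E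
import Pool.Agent.Lib.MP_b6d339_lc.Cw.JF2AzAzEyA2Ax3xA2AyEzAzA2F
import Pool.Agent.Lib.MP_b6d339_lc.Cw.JF2AzAzEyA2Ax3xA2AyEzAzAzF
import Pool.Agent.Lib.MP_b6d339_lc.Cw.JF2AzE2A2Ax3xA2A2EzA2F
import Pool.Agent.Lib.MP_b6d339_lc.Cw.S2
import Pool.Agent.Lib.MP_b6d339_lc.Cw.S4
import Pool.Agent.Lib.MP_b6d339_lc.Cw.S6
import Pool.Agent.Lib.MP_b6d339_lc.Cw.T0
import Pool.Agent.Lib.MP_b6d339_lc.Cw.T1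
import Pool.Agent.Lib.MP_b6d339_lc.Cw.T10
import Pool.Agent.Lib.MP_b6d339_lc.Cw.T11
import Pool.Agent.Lib.MP_b6d339_lc.Cw.T14
import Pool.Agent.Lib.MP_b6d339_lc.Cw.T16
import Pool.Agent.Lib.MP_b6d339_lc.Cw.T17
import Pool.Agent.Lib.MP_b6d339_lc.Cw.T18
import Pool.Agent.Lib.MP_b6d339_lc.Cw.T19
import Pool.Agent.Lib.MP_b6d339_lc.Cw.T2
import Pool.Agent.Lib.MP_b6d339_lc.Cw.T20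
import Pool.Agent.Lib.MP_b6d339_lc.Cw.T21
import Pool.Agent.Lib.MP_b6d339_lc.Cw.T22
import Pool.Agent.Lib.MP_b6d339_lc.Cw.T23
import Pool.Agent.Lib.MP_b6d339_lc.Cw.T24
import Pool.Agent.Lib.MP_b6d339_lc.Cw.T25
import Pool.Agent.Lib.MP_b6d339_lc.Cw.T26
import Pool.Agent.Lib.MP_b6d339_lc.Cw.T27
import Pool.Agent.Lib.MP_b6d339_lc.Cw.T28
import Pool.Agent.Lib.MP_b6d339_lc.Cw.T29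
import Pool.Agent.Lib.MP_b6d339_lc.Cw.T3
import Pool.Agent.Lib.MP_b6d339_lc.Cw.T30
import Pool.Agent.Lib.MP_b6d339_lc.Cw.T31
import Pool.Agent.Lib.MP_b6d339_lc.Cw.T32
import Pool.Agent.Lib.MP_b6d339_lc.Cw.T4
import Pool.Agent.Lib.MP_b6d339_lc.Cw.T5
import Pool.Agent.Lib.MP_b6d339_lc.Cw.T6
import Pool.Agent.Lib.MP_b6d339_lc.Cw.T7
import Pool.Agent.Lib.MP_b6d339_lc.Cw.T8
import Pool.Agent.Lib.MP_b6d339_lc.Cw.T9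
import Pool.Agent.Lib.MP_b6d339_lc.Cw.XL
import Pool.Agent.Lib.MP_b6d339_lc.Cw.ZE2ByA3B2BzIzB3B2EzF_0
import Pool.Agent.Lib.MP_b6d339_lc.Cw.ZF2A2AzE2A2Ax3xA2A2EzAzA2F_0
import Pool.Agent.Lib.MP_b6d339_lc.Cw.ZF2A2AzE2A2Ax3xA2A2EzAzAyF_0
import Pool.Agent.Lib.MP_b6d339_lc.Cw.ZF2A2AzE2A2Ax3xA2A2EzAzAzF_0
import Pool.Agent.Lib.MP_b6d339_lc.Cw.ZF2AzAzE2A2Ax3xA2A2EzA2AyF_0
import Pool.Agent.Lib.MP_b6d339_lc.Cw.ZF2AzAzE2B3HzB2H3B2E_0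
import Pool.Agent.Lib.MP_b6d339_lc.Cw.ZF2AzAzEyA2Ax3xA2AyEzAzA2F_0
import Pool.Agent.Lib.MP_b6d339_lc.Cw.ZF2AzAzEyA2Ax3xA2AyEzAzAzF_0
import Pool.Agent.Lib.MP_b6d339_lc.Cw.ZF2AzE2A2Ax3xA2A2EzA2F_0
import Pool.Agent.Lib.MP_b6d339_lc.Pos.XTreeC
import Pool.Agent.Lib.MP_b6d339_lc.Pos.YQ

/-!
# Erdős 592, three levels: classes of words
-/

namespace MPb6P

theorem iiNE2B3I3B2E_k : iiNE2B3I3B2E.Fa (Itm.ok 206) := (BT.Fa_mk (BT.Fa_mk (BT.Fa_mk (BT.Fa_mk (BT.Fa_mk (BT.Fa_leaf (P := Itm.ok 206) (iqf tp196_c)) (BT.Fa_leaf (P := Itm.ok 206) (iqb tp196_c))) (BT.Fa_leaf (P := Itm.ok 206) (iqf tp197_c))) (BT.Fa_mk (BT.Fa_leaf (P := Itm.ok 206) (iqb tp198_c)) (BT.Fa_leaf (P := Itm.ok 206) (iqf tp33_c)))) (BT.Fa_mk (BT.Fa_mk (BT.Fa_mk (BT.Fa_leaf (P := Itm.ok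 206) (iqb tp33_c)) (BT.Fa_leaf (P := Itm.ok 206) (iqf tp199_c))) (BT.Fa_leaf (P := Itm.ok 206) (iqf tp200_c))) (BT.Fa_mk (BT.Fa_leaf (P := Itm.ok 206) (iqb tp200_c)) (BT.Fa_leaf (P := Itm.ok 206) (iqb tp201_c))))) (BT.Fa_mk (BT.Fa_mk (BT.Fa_mk (BT.Fa_mk (BT.Fa_leaf (P := Itm.ok 206) (iqb tp202_c)) (BT.Fa_leaf (P := Itm.ok 206) (iqb tp203_c))) (BT.Fa_leaf (P := Itm.ok 206) (iqf tp204_c))) (BT.Fa_mk (BT.Fa_leaf (P := Itm.ok 206) (iqb tp204_c)) (BT.Fa_leaf (P := Itm.ok 206) (iqb tp205_c)))) (BT.Fa_mk (BT.Fa_mk (BT.Fa_leaf (P := Itm.ok 206) (iqf tp206_c)) (BT.Fa_leaf (P := Itm.ok 206) (iqb tp206_c))) (BT.Fa_mk (BT.Fa_leaf (P := Itm.ok 206) (iqf tp207_c)) (BT.Fa_leaf (P := Itm.ok 206) (iqb tp208_c))))))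

/-- all words of the class have labels -/
theorem pokNE2B3I3B2E : POK 206 xNE2B3I3B2E :=
  y_pok (C0 := ceNE2B3I3B2E) (C1 := coNE2B3I3B2E) topNE2B3I3B2E nbNE2B3I3B2E (BT.Fa_of_all iiNE2B3I3B2E_c)
    (cyE_spec zeNE2B3I3B2E_0)
    (cyO_spec zoNE2B3I3B2E_0)
    iiNE2B3I3B2E_k

theorem iiNE2ByA3B2BzIzB3B2EzF_k : iiNE2ByA3B2BzIzB3B2EzF.Fa (Itm.ok 206) := (BT.Fa_mk (BT.Fa_mk (BT.Fa_mk (BT.Fa_mk (BT.Fa_mk (BT.Fa_mk (BT.Fa_mk (BT.Fa_leaf (P := Itm.ok 206) (iqf tp2205_c)) (BT.Fa_leaf (P := Itm.ok 206) (iqf tp1576_c))) (BT.Fa_leaf (P := Itm.ok 206) (iqf tp2206_c))) (BT.Fa_mk (BT.Fa_leaf (P := Itm.ok 206) (iqf tp2207_c)) (BT.Fa_leaf (P := Itm.ok 206) (iqb tp2208_c)))) (BT.Fa_mk (BT.Fa_mk (BT.Fa_mk (BT.Fa_leaf (P := Itm.ok 206) (iqf tp2209_c)) (BT.Fa_leaf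 (P := Itm.ok 206) (iqf tp2210_c))) (BT.Fa_leaf (P := Itm.ok 206) (iqf tp2211_c))) (BT.Fa_mk (BT.Fa_leaf (P := Itm.ok 206) (iqf tp295_c)) (BT.Fa_leaf (P := Itm.ok 206) (iqb tp361_c))))) (BT.Fa_mk (BT.Fa_mk (BT.Fa_mk (BT.Fa_mk (BT.Fa_leaf (P := Itm.ok 206) (iqb tp1664_c)) (BT.Fa_leaf (P := Itm.ok 206) (iqb tp1771_c))) (BT.Fa_leaf (P := Itm.ok 206) (iqb tp329_c))) (BT.Fa_mk (BT.Fa_leaf (P := Itm.ok 206) (iqb tp2212_c)) (BT.Fa_leaf (P := Itm.ok 206) (iqb tp1577_c)))) (BT.Fa_mk (BT.Fa_mk (BT.Fa_mk (BT.Fa_leaf (P := Itm.ok 206) (iqf tp2213_c)) (BT.Fa_leaf (P := Itm.ok 206) (iqf tp2214_c))) (BT.Fa_leaf (P := Itm.ok 206) (iqf tp1786_c))) (BT.Fa_mk (BT.Fa_leaf (P := Itm.ok 206) (iqf tp656_c)) (BT.Fa_leaf (P := Itm.ok 206) (iqb tp2215_c)))))) (BT.Fa_mk (BT.Fa_mk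 (BT.Fa_mk (BT.Fa_mk (BT.Fa_mk (BT.Fa_leaf (P := Itm.ok 206) (iqb tp1387_c)) (BT.Fa_leaf (P := Itm.ok 206) (iqf tp622_c))) (BT.Fa_leaf (P := Itm.ok 206) (iqf tp2216_c))) (BT.Fa_mk (BT.Fa_leaf (P := Itm.ok 206) (iqf tp2217_c)) (BT.Fa_leaf (P := Itm.ok 206) (iqf tp2218_c)))) (BT.Fa_mk (BT.Fa_mk (BT.Fa_mk (BT.Fa_leaf (P := Itm.ok 206) (iqb tp1576_c)) (BT.Fa_leaf (P := Itm.ok 206) (iqb tp1785_c))) (BT.Fa_leaf (P := Itm.ok 206) (iqf tp2219_c))) (BT.Fa_mk (BT.Fa_leaf (P := Itm.ok 206) (iqb tp1782_c)) (BT.Fa_leaf (P := Itm.ok 206) (iqf tp1787_c))))) (BT.Fa_mk (BT.Fa_mk (BT.Fa_mk (BT.Fa_mk (BT.Fa_leaf (P := Itm.ok 206) (iqf tp1606_c)) (BT.Fa_leaf (P := Itm.ok 206) (iqb tp1792_c))) (BT.Fa_leaf (P := Itm.ok 206) (iqb tp2220_c))) (BT.Fa_mk (BT.Fa_leaf (P :=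 Itm.ok 206) (iqb tp1580_c)) (BT.Fa_leaf (P := Itm.ok 206) (iqb tp1798_c)))) (BT.Fa_mk (BT.Fa_mk (BT.Fa_mk (BT.Fa_leaf (P := Itm.ok 206) (iqf tp1744_c)) (BT.Fa_leaf (P := Itm.ok 206) (iqf tp1822_c))) (BT.Fa_leaf (P := Itm.ok 206) (iqf tp2221_c))) (BT.Fa_mk (BT.Fa_leaf (P := Itm.ok 206) (iqb tp2222_c)) (BT.Fa_leaf (P := Itm.ok 206) (iqf tp2223_c))))))) (BT.Fa_mk (BT.Fa_mk (BT.Fa_mk (BT.Fa_mk (BT.Fa_mk (BT.Fa_mk (BT.Fa_leaf (P := Itm.ok 206) (iqf tp2224_c)) (BT.Fa_leaf (P := Itm.ok 206) (iqf tp2225_c))) (BT.Fa_leaf (P := Itm.ok 206) (iqb tp2226_c))) (BT.Fa_mk (BT.Fa_leaf (P := Itm.ok 206) (iqb tp1803_c)) (BT.Fa_leaf (P := Itm.ok 206) (iqf tp2227_c)))) (BT.Fa_mk (BT.Fa_mk (BT.Fa_mk (BT.Fa_leaf (P := Itm.ok 206) (iqb tp2228_c)) (BT.Fa_leaf (P := Itm.ok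 206) (iqf tp2229_c))) (BT.Fa_leaf (P := Itm.ok 206) (iqb tp1765_c))) (BT.Fa_mk (BT.Fa_leaf (P := Itm.ok 206) (iqf tp2230_c)) (BT.Fa_leaf (P := Itm.ok 206) (iqf tp2231_c))))) (BT.Fa_mk (BT.Fa_mk (BT.Fa_mk (BT.Fa_mk (BT.Fa_leaf (P := Itm.ok 206) (iqf tp2232_c)) (BT.Fa_leaf (P := Itm.ok 206) (iqf tp2233_c))) (BT.Fa_leaf (P := Itm.ok 206) (iqb tp1821_c))) (BT.Fa_mk (BT.Fa_leaf (P := Itm.ok 206) (iqf tp2234_c)) (BT.Fa_leaf (P := Itm.ok 206) (iqb tp1823_c)))) (BT.Fa_mk (BT.Fa_mk (BT.Fa_mk (BT.Fa_leaf (P := Itm.ok 206) (iqf tp1776_c)) (BT.Fa_leaf (P := Itm.ok 206) (iqf tp1829_c))) (BT.Fa_leaf (P := Itm.ok 206) (iqf tp1781_c))) (BT.Fa_mk (BT.Fa_leaf (P := Itm.ok 206) (iqf tp2235_c)) (BT.Fa_leaf (P := Itm.ok 206) (iqb tp1832_c)))))) (BT.Fa_mk (BT.Fa_mk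 (BT.Fa_mk (BT.Fa_mk (BT.Fa_mk (BT.Fa_leaf (P := Itm.ok 206) (iqb tp292_c)) (BT.Fa_leaf (P := Itm.ok 206) (iqf tp1354_c))) (BT.Fa_leaf (P := Itm.ok 206) (iqf tp2236_c))) (BT.Fa_mk (BT.Fa_leaf (P := Itm.ok 206) (iqf tp2237_c)) (BT.Fa_leaf (P := Itm.ok 206) (iqf tp2238_c)))) (BT.Fa_mk (BT.Fa_mk (BT.Fa_mk (BT.Fa_leaf (P := Itm.ok 206) (iqf tp1388_c)) (BT.Fa_leaf (P := Itm.ok 206) (iqf tp2239_c))) (BT.Fa_leaf (P := Itm.ok 206) (iqf tp2240_c))) (BT.Fa_mk (BT.Fa_leaf (P := Itm.ok 206) (iqf tp2241_c)) (BT.Fa_leaf (P := Itm.ok 206) (iqb tp2242_c))))) (BT.Fa_mk (BT.Fa_mk (BT.Fa_mk (BT.Fa_mk (BT.Fa_leaf (P := Itm.ok 206) (iqb tp2243_c)) (BT.Fa_leaf (P := Itm.ok 206) (iqf tp2244_c))) (BT.Fa_leaf (P := Itm.ok 206) (iqb tp514_c))) (BT.Fa_mk (BT.Fa_leaf (P :=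 Itm.ok 206) (iqb tp2245_c)) (BT.Fa_leaf (P := Itm.ok 206) (iqf tp1848_c)))) (BT.Fa_mk (BT.Fa_mk (BT.Fa_leaf (P := Itm.ok 206) (iqf tp2246_c)) (BT.Fa_leaf (P := Itm.ok 206) (iqf tp2247_c))) (BT.Fa_mk (BT.Fa_leaf (P := Itm.ok 206) (iqb tp1855_c)) (BT.Fa_leaf (P := Itm.ok 206) (iqf tp2248_c))))))))

/-- all words of the class have labels -/
theorem pokNE2ByA3B2BzIzB3B2EzF : POK 206 xNE2ByA3B2BzIzB3B2EzF :=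
  y_pok (C0 := ceNE2ByA3B2BzIzB3B2EzF) (C1 := coNE2ByA3B2BzIzB3B2EzF) topNE2ByA3B2BzIzB3B2EzF nbNE2ByA3B2BzIzB3B2EzF (BT.Fa_of_all iiNE2ByA3B2BzIzB3B2EzF_c)
    (cyE_spec zeNE2ByA3B2BzIzB3B2EzF_0)
    (cyO_spec zoNE2ByA3B2BzIzB3B2EzF_0)
    iiNE2ByA3B2BzIzB3B2EzF_k

theorem iiNE3F_k : iiNE3F.Fa (Itm.ok 206) := (BT.Fa_mk (BT.Fa_mk (BT.Fa_mk (BT.Fa_mk (BT.Fa_mk (BT.Fa_mk (BT.Fa_mk (BT.Fa_leaf (P := Itm.ok 206) (iqf tp0_c)) (BT.Fa_leaf (P := Itm.ok 206) (iqf tp1_c))) (BT.Fa_mk (BT.Fa_leaf (P := Itm.ok 206) (iqf tp2_c)) (BT.Fa_leaf (P := Itm.ok 206) (iqb tp3_c)))) (BT.Fa_mk (BT.Fa_mk (BT.Fa_leaf (P := Itm.ok 206) (iqb tp4_c)) (BT.Fa_leaf (P := Itm.ok 206) (iqf tp5_c))) (BT.Fa_mk (BT.Fa_leaf (P := Itm.ok 206) (iqf tp6_c)) (BT.Fa_leaf (P := Itm.ok 206)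 (iqf tp7_c))))) (BT.Fa_mk (BT.Fa_mk (BT.Fa_mk (BT.Fa_leaf (P := Itm.ok 206) (iqb tp8_c)) (BT.Fa_leaf (P := Itm.ok 206) (iqf tp9_c))) (BT.Fa_mk (BT.Fa_leaf (P := Itm.ok 206) (iqf tp10_c)) (BT.Fa_leaf (P := Itm.ok 206) (iqf tp11_c)))) (BT.Fa_mk (BT.Fa_mk (BT.Fa_leaf (P := Itm.ok 206) (iqf tp12_c)) (BT.Fa_leaf (P := Itm.ok 206) (iqb tp13_c))) (BT.Fa_leaf (P := Itm.ok 206) (iqb tp14_c))))) (BT.Fa_mk (BT.Fa_mk (BT.Fa_mk (BT.Fa_mk (BT.Fa_leaf (P := Itm.ok 206) (iqf tp15_c)) (BT.Fa_leaf (P := Itm.ok 206) (iqf tp16_c))) (BT.Fa_mk (BT.Fa_leaf (P := Itm.ok 206) (iqb tp17_c)) (BT.Fa_leaf (P := Itm.ok 206) (iqf tp18_c)))) (BT.Fa_mk (BT.Fa_mk (BT.Fa_leaf (P := Itm.ok 206) (iqf tp19_c)) (BT.Fa_leaf (P := Itm.ok 206) (iqf tp20_c))) (BT.Fa_leaf (P := Itm.ok 206)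 (iqb tp21_c)))) (BT.Fa_mk (BT.Fa_mk (BT.Fa_mk (BT.Fa_leaf (P := Itm.ok 206) (iqf tp22_c)) (BT.Fa_leaf (P := Itm.ok 206) (iqf tp23_c))) (BT.Fa_mk (BT.Fa_leaf (P := Itm.ok 206) (iqb tp24_c)) (BT.Fa_leaf (P := Itm.ok 206) (iqb tp25_c)))) (BT.Fa_mk (BT.Fa_mk (BT.Fa_leaf (P := Itm.ok 206) (iqf tp26_c)) (BT.Fa_leaf (P := Itm.ok 206) (iqb tp27_c))) (BT.Fa_leaf (P := Itm.ok 206) (iqf tp28_c)))))) (BT.Fa_mk (BT.Fa_mk (BT.Fa_mk (BT.Fa_mk (BT.Fa_mk (BT.Fa_leaf (P := Itm.ok 206) (iqf tp29_c)) (BT.Fa_leaf (P := Itm.ok 206) (iqb tp30_c))) (BT.Fa_mk (BT.Fa_leaf (P := Itm.ok 206) (iqf tp31_c)) (BT.Fa_leaf (P := Itm.ok 206) (iqb tp32_c)))) (BT.Fa_mk (BT.Fa_mk (BT.Fa_leaf (P := Itm.ok 206) (iqb tp33_c)) (BT.Fa_leaf (P := Itm.ok 206) (iqb tp34_c))) (BT.Fa_mk (BT.Fa_leaf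 (P := Itm.ok 206) (iqf tp35_c)) (BT.Fa_leaf (P := Itm.ok 206) (iqb tp36_c))))) (BT.Fa_mk (BT.Fa_mk (BT.Fa_mk (BT.Fa_leaf (P := Itm.ok 206) (iqb tp37_c)) (BT.Fa_leaf (P := Itm.ok 206) (iqf tp38_c))) (BT.Fa_mk (BT.Fa_leaf (P := Itm.ok 206) (iqf tp39_c)) (BT.Fa_leaf (P := Itm.ok 206) (iqf tp40_c)))) (BT.Fa_mk (BT.Fa_mk (BT.Fa_leaf (P := Itm.ok 206) (iqb tp41_c)) (BT.Fa_leaf (P := Itm.ok 206) (iqf tp42_c))) (BT.Fa_leaf (P := Itm.ok 206) (iqb tp43_c))))) (BT.Fa_mk (BT.Fa_mk (BT.Fa_mk (BT.Fa_mk (BT.Fa_leaf (P := Itm.ok 206) (iqb tp44_c)) (BT.Fa_leaf (P := Itm.ok 206) (iqf tp45_c))) (BT.Fa_mk (BT.Fa_leaf (P := Itm.ok 206) (iqb tp46_c)) (BT.Fa_leaf (P := Itm.ok 206) (iqb tp47_c)))) (BT.Fa_mk (BT.Fa_mk (BT.Fa_leaf (P := Itm.ok 206) (iqb tp48_c)) (BT.Fa_leaf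 (P := Itm.ok 206) (iqb tp49_c))) (BT.Fa_leaf (P := Itm.ok 206) (iqb tp50_c)))) (BT.Fa_mk (BT.Fa_mk (BT.Fa_mk (BT.Fa_leaf (P := Itm.ok 206) (iqf tp51_c)) (BT.Fa_leaf (P := Itm.ok 206) (iqb tp52_c))) (BT.Fa_mk (BT.Fa_leaf (P := Itm.ok 206) (iqf tp53_c)) (BT.Fa_leaf (P := Itm.ok 206) (iqf tp54_c)))) (BT.Fa_mk (BT.Fa_mk (BT.Fa_leaf (P := Itm.ok 206) (iqf tp55_c)) (BT.Fa_leaf (P := Itm.ok 206) (iqb tp56_c))) (BT.Fa_leaf (P := Itm.ok 206) (iqf tp57_c))))))) (BT.Fa_mk (BT.Fa_mk (BT.Fa_mk (BT.Fa_mk (BT.Fa_mk (BT.Fa_mk (BT.Fa_leaf (P := Itm.ok 206) (iqf tp58_c)) (BT.Fa_leaf (P := Itm.ok 206) (iqb tp59_c))) (BT.Fa_mk (BT.Fa_leaf (P := Itm.ok 206) (iqf tp60_c)) (BT.Fa_leaf (P := Itm.ok 206) (iqf tp61_c)))) (BT.Fa_mk (BT.Fa_mk (BT.Fa_leaf (P := Itm.ok 206)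 (iqf tp62_c)) (BT.Fa_leaf (P := Itm.ok 206) (iqb tp63_c))) (BT.Fa_mk (BT.Fa_leaf (P := Itm.ok 206) (iqf tp64_c)) (BT.Fa_leaf (P := Itm.ok 206) (iqb tp65_c))))) (BT.Fa_mk (BT.Fa_mk (BT.Fa_mk (BT.Fa_leaf (P := Itm.ok 206) (iqf tp66_c)) (BT.Fa_leaf (P := Itm.ok 206) (iqf tp67_c))) (BT.Fa_mk (BT.Fa_leaf (P := Itm.ok 206) (iqb tp68_c)) (BT.Fa_leaf (P := Itm.ok 206) (iqb tp69_c)))) (BT.Fa_mk (BT.Fa_mk (BT.Fa_leaf (P := Itm.ok 206) (iqb tp70_c)) (BT.Fa_leaf (P := Itm.ok 206) (iqf tp71_c))) (BT.Fa_leaf (P := Itm.ok 206) (iqf tp72_c))))) (BT.Fa_mk (BT.Fa_mk (BT.Fa_mk (BT.Fa_mk (BT.Fa_leaf (P := Itm.ok 206) (iqf tp73_c)) (BT.Fa_leaf (P := Itm.ok 206) (iqf tp74_c))) (BT.Fa_mk (BT.Fa_leaf (P := Itm.ok 206) (iqf tp75_c)) (BT.Fa_leaf (P := Itm.ok 206) (iqf tp76_c))))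 (BT.Fa_mk (BT.Fa_mk (BT.Fa_leaf (P := Itm.ok 206) (iqb tp77_c)) (BT.Fa_leaf (P := Itm.ok 206) (iqf tp78_c))) (BT.Fa_leaf (P := Itm.ok 206) (iqf tp79_c)))) (BT.Fa_mk (BT.Fa_mk (BT.Fa_mk (BT.Fa_leaf (P := Itm.ok 206) (iqf tp80_c)) (BT.Fa_leaf (P := Itm.ok 206) (iqf tp81_c))) (BT.Fa_mk (BT.Fa_leaf (P := Itm.ok 206) (iqf tp82_c)) (BT.Fa_leaf (P := Itm.ok 206) (iqf tp83_c)))) (BT.Fa_mk (BT.Fa_mk (BT.Fa_leaf (P := Itm.ok 206) (iqf tp84_c)) (BT.Fa_leaf (P := Itm.ok 206) (iqb tp85_c))) (BT.Fa_leaf (P := Itm.ok 206) (iqb tp86_c)))))) (BT.Fa_mk (BT.Fa_mk (BT.Fa_mk (BT.Fa_mk (BT.Fa_mk (BT.Fa_leaf (P := Itm.ok 206) (iqb tp87_c)) (BT.Fa_leaf (P := Itm.ok 206) (iqf tp88_c))) (BT.Fa_mk (BT.Fa_leaf (P := Itm.ok 206) (iqf tp89_c)) (BT.Fa_leaf (P := Itm.ok 206)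 (iqf tp90_c)))) (BT.Fa_mk (BT.Fa_mk (BT.Fa_leaf (P := Itm.ok 206) (iqb tp91_c)) (BT.Fa_leaf (P := Itm.ok 206) (iqf tp92_c))) (BT.Fa_leaf (P := Itm.ok 206) (iqf tp93_c)))) (BT.Fa_mk (BT.Fa_mk (BT.Fa_mk (BT.Fa_leaf (P := Itm.ok 206) (iqf tp94_c)) (BT.Fa_leaf (P := Itm.ok 206) (iqf tp95_c))) (BT.Fa_mk (BT.Fa_leaf (P := Itm.ok 206) (iqf tp96_c)) (BT.Fa_leaf (P := Itm.ok 206) (iqb tp97_c)))) (BT.Fa_mk (BT.Fa_mk (BT.Fa_leaf (P := Itm.ok 206) (iqf tp98_c)) (BT.Fa_leaf (P := Itm.ok 206) (iqf tp99_c))) (BT.Fa_leaf (P := Itm.ok 206) (iqb tp100_c))))) (BT.Fa_mk (BT.Fa_mk (BT.Fa_mk (BT.Fa_mk (BT.Fa_leaf (P := Itm.ok 206) (iqb tp101_c)) (BT.Fa_leaf (P := Itm.ok 206) (iqf tp102_c))) (BT.Fa_mk (BT.Fa_leaf (P := Itm.ok 206) (iqf tp103_c)) (BT.Fa_leaf (P := Itm.ok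 206) (iqb tp104_c)))) (BT.Fa_mk (BT.Fa_mk (BT.Fa_leaf (P := Itm.ok 206) (iqf tp105_c)) (BT.Fa_leaf (P := Itm.ok 206) (iqf tp106_c))) (BT.Fa_leaf (P := Itm.ok 206) (iqf tp107_c)))) (BT.Fa_mk (BT.Fa_mk (BT.Fa_mk (BT.Fa_leaf (P := Itm.ok 206) (iqb tp108_c)) (BT.Fa_leaf (P := Itm.ok 206) (iqb tp109_c))) (BT.Fa_mk (BT.Fa_leaf (P := Itm.ok 206) (iqb tp110_c)) (BT.Fa_leaf (P := Itm.ok 206) (iqf tp111_c)))) (BT.Fa_mk (BT.Fa_mk (BT.Fa_leaf (P := Itm.ok 206) (iqf tp112_c)) (BT.Fa_leaf (P := Itm.ok 206) (iqb tp113_c))) (BT.Fa_leaf (P := Itm.ok 206) (iqb tp114_c))))))))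

/-- all words of the class have labels -/
theorem pokNE3F : POK 206 xNE3F :=
  y_pok (C0 := ceNE3F) (C1 := coNE3F) topNE3F nbNE3F (BT.Fa_of_all iiNE3F_c)
    (cyE_spec zeNE3F_0)
    (cyO_spec zoNE3F_0)
    iiNE3F_k

theorem iiNF2A2AzE2A2Ax3xA2A2EzAzA2F_k : iiNF2A2AzE2A2Ax3xA2A2EzAzA2F.Fa (Itm.ok 206) := (BT.Fa_mk (BT.Fa_mk (BT.Fa_mk (BT.Fa_mk (BT.Fa_mk (BT.Fa_mk (BT.Fa_mk (BT.Fa_leaf (P := Itm.ok 206) (iqb tp318_c)) (BT.Fa_leaf (P := Itm.ok 206) (iqf tp319_c))) (BT.Fa_leaf (P := Itm.ok 206) (iqb tp320_c))) (BT.Fa_mk (BT.Fa_leaf (P := Itm.ok 206) (iqf tp321_c)) (BT.Fa_leaf (P := Itm.ok 206) (iqf tp292_c)))) (BT.Fa_mk (BT.Fa_mk (BT.Fa_mk (BT.Fa_leaf (P := Itm.ok 206) (iqf tp322_c)) (BT.Fa_leaf (P := Itm.ok 206) (iqf tp323_c))) (BT.Fa_leaf (P :=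 Itm.ok 206) (iqb tp324_c))) (BT.Fa_mk (BT.Fa_leaf (P := Itm.ok 206) (iqf tp325_c)) (BT.Fa_leaf (P := Itm.ok 206) (iqf tp326_c))))) (BT.Fa_mk (BT.Fa_mk (BT.Fa_mk (BT.Fa_mk (BT.Fa_leaf (P := Itm.ok 206) (iqb tp327_c)) (BT.Fa_leaf (P := Itm.ok 206) (iqf tp328_c))) (BT.Fa_leaf (P := Itm.ok 206) (iqf tp329_c))) (BT.Fa_mk (BT.Fa_leaf (P := Itm.ok 206) (iqf tp330_c)) (BT.Fa_leaf (P := Itm.ok 206) (iqb tp331_c)))) (BT.Fa_mk (BT.Fa_mk (BT.Fa_leaf (P := Itm.ok 206) (iqb tp332_c)) (BT.Fa_leaf (P := Itm.ok 206) (iqf tp333_c))) (BT.Fa_mk (BT.Fa_leaf (P := Itm.ok 206) (iqf tp334_c)) (BT.Fa_leaf (P := Itm.ok 206) (iqf tp335_c)))))) (BT.Fa_mk (BT.Fa_mk (BT.Fa_mk (BT.Fa_mk (BT.Fa_mk (BT.Fa_leaf (P := Itm.ok 206) (iqb tp336_c)) (BT.Fa_leaf (P := Itm.ok 206) (iqb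 tp337_c))) (BT.Fa_leaf (P := Itm.ok 206) (iqb tp338_c))) (BT.Fa_mk (BT.Fa_leaf (P := Itm.ok 206) (iqb tp339_c)) (BT.Fa_leaf (P := Itm.ok 206) (iqb tp340_c)))) (BT.Fa_mk (BT.Fa_mk (BT.Fa_leaf (P := Itm.ok 206) (iqf tp341_c)) (BT.Fa_leaf (P := Itm.ok 206) (iqf tp342_c))) (BT.Fa_mk (BT.Fa_leaf (P := Itm.ok 206) (iqf tp343_c)) (BT.Fa_leaf (P := Itm.ok 206) (iqf tp299_c))))) (BT.Fa_mk (BT.Fa_mk (BT.Fa_mk (BT.Fa_mk (BT.Fa_leaf (P := Itm.ok 206) (iqf tp344_c)) (BT.Fa_leaf (P := Itm.ok 206) (iqf tp345_c))) (BT.Fa_leaf (P := Itm.ok 206) (iqf tp346_c))) (BT.Fa_mk (BT.Fa_leaf (P := Itm.ok 206) (iqf tp347_c)) (BT.Fa_leaf (P := Itm.ok 206) (iqf tp348_c)))) (BT.Fa_mk (BT.Fa_mk (BT.Fa_leaf (P := Itm.ok 206) (iqb tp349_c)) (BT.Fa_leaf (P := Itm.ok 206) (iqf tp350_c)))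 (BT.Fa_mk (BT.Fa_leaf (P := Itm.ok 206) (iqf tp351_c)) (BT.Fa_leaf (P := Itm.ok 206) (iqf tp352_c))))))) (BT.Fa_mk (BT.Fa_mk (BT.Fa_mk (BT.Fa_mk (BT.Fa_mk (BT.Fa_mk (BT.Fa_leaf (P := Itm.ok 206) (iqf tp353_c)) (BT.Fa_leaf (P := Itm.ok 206) (iqb tp354_c))) (BT.Fa_leaf (P := Itm.ok 206) (iqb tp355_c))) (BT.Fa_mk (BT.Fa_leaf (P := Itm.ok 206) (iqf tp356_c)) (BT.Fa_leaf (P := Itm.ok 206) (iqb tp357_c)))) (BT.Fa_mk (BT.Fa_mk (BT.Fa_leaf (P := Itm.ok 206) (iqb tp358_c)) (BT.Fa_leaf (P := Itm.ok 206) (iqb tp359_c))) (BT.Fa_mk (BT.Fa_leaf (P := Itm.ok 206) (iqb tp360_c)) (BT.Fa_leaf (P := Itm.ok 206) (iqb tp361_c))))) (BT.Fa_mk (BT.Fa_mk (BT.Fa_mk (BT.Fa_mk (BT.Fa_leaf (P := Itm.ok 206) (iqf tp362_c)) (BT.Fa_leaf (P := Itm.ok 206) (iqb tp363_c))) (BT.Fa_leaf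 (P := Itm.ok 206) (iqf tp364_c))) (BT.Fa_mk (BT.Fa_leaf (P := Itm.ok 206) (iqf tp365_c)) (BT.Fa_leaf (P := Itm.ok 206) (iqf tp366_c)))) (BT.Fa_mk (BT.Fa_mk (BT.Fa_leaf (P := Itm.ok 206) (iqf tp367_c)) (BT.Fa_leaf (P := Itm.ok 206) (iqf tp368_c))) (BT.Fa_mk (BT.Fa_leaf (P := Itm.ok 206) (iqf tp369_c)) (BT.Fa_leaf (P := Itm.ok 206) (iqf tp370_c)))))) (BT.Fa_mk (BT.Fa_mk (BT.Fa_mk (BT.Fa_mk (BT.Fa_mk (BT.Fa_leaf (P := Itm.ok 206) (iqb tp371_c)) (BT.Fa_leaf (P := Itm.ok 206) (iqb tp372_c))) (BT.Fa_leaf (P := Itm.ok 206) (iqb tp373_c))) (BT.Fa_mk (BT.Fa_leaf (P := Itm.ok 206) (iqf tp374_c)) (BT.Fa_leaf (P := Itm.ok 206) (iqf tp375_c)))) (BT.Fa_mk (BT.Fa_mk (BT.Fa_leaf (P := Itm.ok 206) (iqb tp376_c)) (BT.Fa_leaf (P := Itm.ok 206) (iqf tp377_c))) (BT.Fa_mk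 (BT.Fa_leaf (P := Itm.ok 206) (iqb tp378_c)) (BT.Fa_leaf (P := Itm.ok 206) (iqf tp379_c))))) (BT.Fa_mk (BT.Fa_mk (BT.Fa_mk (BT.Fa_mk (BT.Fa_leaf (P := Itm.ok 206) (iqb tp380_c)) (BT.Fa_leaf (P := Itm.ok 206) (iqf tp381_c))) (BT.Fa_leaf (P := Itm.ok 206) (iqb tp382_c))) (BT.Fa_mk (BT.Fa_leaf (P := Itm.ok 206) (iqb tp383_c)) (BT.Fa_leaf (P := Itm.ok 206) (iqf tp361_c)))) (BT.Fa_mk (BT.Fa_mk (BT.Fa_leaf (P := Itm.ok 206) (iqf tp384_c)) (BT.Fa_leaf (P := Itm.ok 206) (iqf tp385_c))) (BT.Fa_mk (BT.Fa_leaf (P := Itm.ok 206) (iqf tp386_c)) (BT.Fa_leaf (P := Itm.ok 206) (iqb tp387_c))))))))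

/-- all words of the class have labels -/
theorem pokNF2A2AzE2A2Ax3xA2A2EzAzA2F : POK 206 xNF2A2AzE2A2Ax3xA2A2EzAzA2F :=
  y_pok (C0 := ceNF2A2AzE2A2Ax3xA2A2EzAzA2F) (C1 := coNF2A2AzE2A2Ax3xA2A2EzAzA2F) topNF2A2AzE2A2Ax3xA2A2EzAzA2F nbNF2A2AzE2A2Ax3xA2A2EzAzA2F (BT.Fa_of_all iiNF2A2AzE2A2Ax3xA2A2EzAzA2F_c)
    (cyE_spec zeNF2A2AzE2A2Ax3xA2A2EzAzA2F_0)
    (cyO_spec zoNF2A2AzE2A2Ax3xA2A2EzAzA2F_0)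
    iiNF2A2AzE2A2Ax3xA2A2EzAzA2F_k

theorem iiNF2A2AzE2A2Ax3xA2A2EzAzAyF_k : iiNF2A2AzE2A2Ax3xA2A2EzAzAyF.Fa (Itm.ok 206) := (BT.Fa_mk (BT.Fa_mk (BT.Fa_mk (BT.Fa_mk (BT.Fa_mk (BT.Fa_mk (BT.Fa_mk (BT.Fa_leaf (P := Itm.ok 206) (iqf tp388_c)) (BT.Fa_leaf (P := Itm.ok 206) (iqf tp319_c))) (BT.Fa_leaf (P := Itm.ok 206) (iqf tp321_c))) (BT.Fa_mk (BT.Fa_mk (BT.Fa_leaf (P := Itm.ok 206) (iqf tp292_c)) (BT.Fa_leaf (P := Itm.ok 206) (iqf tp389_c))) (BT.Fa_leaf (P := Itm.ok 206) (iqf tp390_c)))) (BT.Fa_mk (BT.Fa_mk (BT.Fa_mk (BT.Fa_leaf (P := Itm.ok 206) (iqf tp391_c)) (BT.Fa_leaf (P := Itm.ok 206) (iqf tp392_c))) (BT.Fa_leaf (P := Itm.ok 206) (iqf tp326_c))) (BT.Fa_mk (BT.Fa_leaf (P := Itm.ok 206) (iqf tp393_c)) (BT.Fa_leaf (P := Itm.ok 206) (iqf tp394_c)))))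 (BT.Fa_mk (BT.Fa_mk (BT.Fa_mk (BT.Fa_mk (BT.Fa_leaf (P := Itm.ok 206) (iqf tp329_c)) (BT.Fa_leaf (P := Itm.ok 206) (iqf tp333_c))) (BT.Fa_leaf (P := Itm.ok 206) (iqf tp334_c))) (BT.Fa_mk (BT.Fa_leaf (P := Itm.ok 206) (iqf tp395_c)) (BT.Fa_leaf (P := Itm.ok 206) (iqf tp335_c)))) (BT.Fa_mk (BT.Fa_mk (BT.Fa_mk (BT.Fa_leaf (P := Itm.ok 206) (iqf tp396_c)) (BT.Fa_leaf (P := Itm.ok 206) (iqb tp397_c))) (BT.Fa_leaf (P := Itm.ok 206) (iqb tp337_c))) (BT.Fa_mk (BT.Fa_leaf (P := Itm.ok 206) (iqb tp338_c)) (BT.Fa_leaf (P := Itm.ok 206) (iqb tp340_c)))))) (BT.Fa_mk (BT.Fa_mk (BT.Fa_mk (BT.Fa_mk (BT.Fa_mk (BT.Fa_leaf (P := Itm.ok 206) (iqb tp378_c)) (BT.Fa_leaf (P := Itm.ok 206) (iqf tp341_c))) (BT.Fa_leaf (P := Itm.ok 206) (iqb tp398_c))) (BT.Fa_mk (BT.Fa_leaf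 (P := Itm.ok 206) (iqf tp399_c)) (BT.Fa_leaf (P := Itm.ok 206) (iqf tp400_c)))) (BT.Fa_mk (BT.Fa_mk (BT.Fa_mk (BT.Fa_leaf (P := Itm.ok 206) (iqf tp401_c)) (BT.Fa_leaf (P := Itm.ok 206) (iqf tp367_c))) (BT.Fa_leaf (P := Itm.ok 206) (iqb tp402_c))) (BT.Fa_mk (BT.Fa_leaf (P := Itm.ok 206) (iqf tp299_c)) (BT.Fa_leaf (P := Itm.ok 206) (iqf tp344_c))))) (BT.Fa_mk (BT.Fa_mk (BT.Fa_mk (BT.Fa_mk (BT.Fa_leaf (P := Itm.ok 206) (iqb tp403_c)) (BT.Fa_leaf (P := Itm.ok 206) (iqf tp346_c))) (BT.Fa_leaf (P := Itm.ok 206) (iqf tp404_c))) (BT.Fa_mk (BT.Fa_leaf (P := Itm.ok 206) (iqf tp347_c)) (BT.Fa_leaf (P := Itm.ok 206) (iqf tp348_c)))) (BT.Fa_mk (BT.Fa_mk (BT.Fa_mk (BT.Fa_leaf (P := Itm.ok 206) (iqf tp312_c)) (BT.Fa_leaf (P := Itm.ok 206) (iqf tp405_c))) (BT.Fa_leaf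 (P := Itm.ok 206) (iqb tp349_c))) (BT.Fa_mk (BT.Fa_leaf (P := Itm.ok 206) (iqf tp406_c)) (BT.Fa_leaf (P := Itm.ok 206) (iqb tp376_c))))))) (BT.Fa_mk (BT.Fa_mk (BT.Fa_mk (BT.Fa_mk (BT.Fa_mk (BT.Fa_mk (BT.Fa_leaf (P := Itm.ok 206) (iqb tp407_c)) (BT.Fa_leaf (P := Itm.ok 206) (iqf tp351_c))) (BT.Fa_leaf (P := Itm.ok 206) (iqf tp353_c))) (BT.Fa_mk (BT.Fa_mk (BT.Fa_leaf (P := Itm.ok 206) (iqb tp354_c)) (BT.Fa_leaf (P := Itm.ok 206) (iqb tp373_c))) (BT.Fa_leaf (P := Itm.ok 206) (iqb tp355_c)))) (BT.Fa_mk (BT.Fa_mk (BT.Fa_mk (BT.Fa_leaf (P := Itm.ok 206) (iqf tp356_c)) (BT.Fa_leaf (P := Itm.ok 206) (iqb tp408_c))) (BT.Fa_leaf (P := Itm.ok 206) (iqb tp409_c))) (BT.Fa_mk (BT.Fa_leaf (P := Itm.ok 206) (iqb tp410_c)) (BT.Fa_leaf (P := Itm.ok 206) (iqf tp411_c)))))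 (BT.Fa_mk (BT.Fa_mk (BT.Fa_mk (BT.Fa_mk (BT.Fa_leaf (P := Itm.ok 206) (iqb tp359_c)) (BT.Fa_leaf (P := Itm.ok 206) (iqb tp360_c))) (BT.Fa_leaf (P := Itm.ok 206) (iqb tp361_c))) (BT.Fa_mk (BT.Fa_leaf (P := Itm.ok 206) (iqf tp375_c)) (BT.Fa_leaf (P := Itm.ok 206) (iqf tp412_c)))) (BT.Fa_mk (BT.Fa_mk (BT.Fa_mk (BT.Fa_leaf (P := Itm.ok 206) (iqf tp362_c)) (BT.Fa_leaf (P := Itm.ok 206) (iqb tp413_c))) (BT.Fa_leaf (P := Itm.ok 206) (iqf tp364_c))) (BT.Fa_mk (BT.Fa_leaf (P := Itm.ok 206) (iqf tp365_c)) (BT.Fa_leaf (P := Itm.ok 206) (iqf tp386_c)))))) (BT.Fa_mk (BT.Fa_mk (BT.Fa_mk (BT.Fa_mk (BT.Fa_mk (BT.Fa_leaf (P := Itm.ok 206) (iqf tp366_c)) (BT.Fa_leaf (P := Itm.ok 206) (iqf tp414_c))) (BT.Fa_leaf (P := Itm.ok 206) (iqf tp415_c))) (BT.Fa_mk (BT.Fa_leaf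 (P := Itm.ok 206) (iqb tp416_c)) (BT.Fa_leaf (P := Itm.ok 206) (iqf tp417_c)))) (BT.Fa_mk (BT.Fa_mk (BT.Fa_mk (BT.Fa_leaf (P := Itm.ok 206) (iqf tp352_c)) (BT.Fa_leaf (P := Itm.ok 206) (iqb tp418_c))) (BT.Fa_leaf (P := Itm.ok 206) (iqb tp320_c))) (BT.Fa_mk (BT.Fa_leaf (P := Itm.ok 206) (iqb tp419_c)) (BT.Fa_leaf (P := Itm.ok 206) (iqf tp420_c))))) (BT.Fa_mk (BT.Fa_mk (BT.Fa_mk (BT.Fa_mk (BT.Fa_leaf (P := Itm.ok 206) (iqb tp421_c)) (BT.Fa_leaf (P := Itm.ok 206) (iqb tp422_c))) (BT.Fa_leaf (P := Itm.ok 206) (iqb tp423_c))) (BT.Fa_mk (BT.Fa_leaf (P := Itm.ok 206) (iqf tp385_c)) (BT.Fa_leaf (P := Itm.ok 206) (iqf tp424_c)))) (BT.Fa_mk (BT.Fa_mk (BT.Fa_mk (BT.Fa_leaf (P := Itm.ok 206) (iqf tp425_c)) (BT.Fa_leaf (P := Itm.ok 206) (iqb tp426_c))) (BT.Fa_leaf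 (P := Itm.ok 206) (iqb tp318_c))) (BT.Fa_mk (BT.Fa_leaf (P := Itm.ok 206) (iqf tp427_c)) (BT.Fa_leaf (P := Itm.ok 206) (iqb tp334_c))))))))

/-- all words of the class have labels -/
theorem pokNF2A2AzE2A2Ax3xA2A2EzAzAyF : POK 206 xNF2A2AzE2A2Ax3xA2A2EzAzAyF :=
  y_pok (C0 := ceNF2A2AzE2A2Ax3xA2A2EzAzAyF) (C1 := coNF2A2AzE2A2Ax3xA2A2EzAzAyF) topNF2A2AzE2A2Ax3xA2A2EzAzAyF nbNF2A2AzE2A2Ax3xA2A2EzAzAyF (BT.Fa_of_all iiNF2A2AzE2A2Ax3xA2A2EzAzAyF_c)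
    (cyE_spec zeNF2A2AzE2A2Ax3xA2A2EzAzAyF_0)
    (cyO_spec zoNF2A2AzE2A2Ax3xA2A2EzAzAyF_0)
    iiNF2A2AzE2A2Ax3xA2A2EzAzAyF_k

theorem iiNF2A2AzE2A2Ax3xA2A2EzAzAzF_k : iiNF2A2AzE2A2Ax3xA2A2EzAzAzF.Fa (Itm.ok 206) := (BT.Fa_mk (BT.Fa_mk (BT.Fa_mk (BT.Fa_mk (BT.Fa_mk (BT.Fa_mk (BT.Fa_mk (BT.Fa_leaf (P := Itm.ok 206) (iqb tp318_c)) (BT.Fa_leaf (P := Itm.ok 206) (iqb tp428_c))) (BT.Fa_leaf (P := Itm.ok 206) (iqf tp368_c))) (BT.Fa_mk (BT.Fa_mk (BT.Fa_leaf (P := Itm.ok 206) (iqf tp307_c)) (BT.Fa_leaf (P := Itm.ok 206) (iqf tp319_c))) (BT.Fa_leaf (P := Itm.ok 206) (iqb tp320_c)))) (BT.Fa_mk (BT.Fa_mk (BT.Fa_mk (BT.Fa_leaf (P := Itm.ok 206) (iqf tp292_c)) (BT.Fa_leaf (P := Itm.ok 206) (iqf tp392_c))) (BT.Fa_leaf (P := Itm.ok 206) (iqf tp326_c))) (BT.Fa_mk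 (BT.Fa_leaf (P := Itm.ok 206) (iqf tp429_c)) (BT.Fa_leaf (P := Itm.ok 206) (iqb tp327_c))))) (BT.Fa_mk (BT.Fa_mk (BT.Fa_mk (BT.Fa_mk (BT.Fa_leaf (P := Itm.ok 206) (iqf tp415_c)) (BT.Fa_leaf (P := Itm.ok 206) (iqf tp329_c))) (BT.Fa_leaf (P := Itm.ok 206) (iqf tp430_c))) (BT.Fa_mk (BT.Fa_leaf (P := Itm.ok 206) (iqf tp431_c)) (BT.Fa_leaf (P := Itm.ok 206) (iqf tp334_c)))) (BT.Fa_mk (BT.Fa_mk (BT.Fa_mk (BT.Fa_leaf (P := Itm.ok 206) (iqb tp334_c)) (BT.Fa_leaf (P := Itm.ok 206) (iqf tp335_c))) (BT.Fa_leaf (P := Itm.ok 206) (iqb tp337_c))) (BT.Fa_mk (BT.Fa_leaf (P := Itm.ok 206) (iqb tp338_c)) (BT.Fa_leaf (P := Itm.ok 206) (iqb tp340_c)))))) (BT.Fa_mk (BT.Fa_mk (BT.Fa_mk (BT.Fa_mk (BT.Fa_mk (BT.Fa_leaf (P := Itm.ok 206) (iqf tp432_c)) (BT.Fa_leaf (P :=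 Itm.ok 206) (iqb tp378_c))) (BT.Fa_leaf (P := Itm.ok 206) (iqb tp398_c))) (BT.Fa_mk (BT.Fa_leaf (P := Itm.ok 206) (iqf tp399_c)) (BT.Fa_leaf (P := Itm.ok 206) (iqf tp401_c)))) (BT.Fa_mk (BT.Fa_mk (BT.Fa_mk (BT.Fa_leaf (P := Itm.ok 206) (iqf tp367_c)) (BT.Fa_leaf (P := Itm.ok 206) (iqb tp433_c))) (BT.Fa_leaf (P := Itm.ok 206) (iqb tp402_c))) (BT.Fa_mk (BT.Fa_leaf (P := Itm.ok 206) (iqf tp344_c)) (BT.Fa_leaf (P := Itm.ok 206) (iqb tp403_c))))) (BT.Fa_mk (BT.Fa_mk (BT.Fa_mk (BT.Fa_mk (BT.Fa_leaf (P := Itm.ok 206) (iqf tp346_c)) (BT.Fa_leaf (P := Itm.ok 206) (iqf tp404_c))) (BT.Fa_leaf (P := Itm.ok 206) (iqf tp347_c))) (BT.Fa_mk (BT.Fa_leaf (P := Itm.ok 206) (iqf tp434_c)) (BT.Fa_leaf (P := Itm.ok 206) (iqf tp348_c)))) (BT.Fa_mk (BT.Fa_mk (BT.Fa_mk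 (BT.Fa_leaf (P := Itm.ok 206) (iqf tp312_c)) (BT.Fa_leaf (P := Itm.ok 206) (iqf tp405_c))) (BT.Fa_leaf (P := Itm.ok 206) (iqb tp349_c))) (BT.Fa_mk (BT.Fa_leaf (P := Itm.ok 206) (iqf tp351_c)) (BT.Fa_leaf (P := Itm.ok 206) (iqf tp353_c))))))) (BT.Fa_mk (BT.Fa_mk (BT.Fa_mk (BT.Fa_mk (BT.Fa_mk (BT.Fa_mk (BT.Fa_leaf (P := Itm.ok 206) (iqb tp354_c)) (BT.Fa_leaf (P := Itm.ok 206) (iqb tp355_c))) (BT.Fa_leaf (P := Itm.ok 206) (iqf tp356_c))) (BT.Fa_mk (BT.Fa_mk (BT.Fa_leaf (P := Itm.ok 206) (iqb tp408_c)) (BT.Fa_leaf (P := Itm.ok 206) (iqb tp358_c))) (BT.Fa_leaf (P := Itm.ok 206) (iqb tp409_c)))) (BT.Fa_mk (BT.Fa_mk (BT.Fa_mk (BT.Fa_leaf (P := Itm.ok 206) (iqf tp411_c)) (BT.Fa_leaf (P := Itm.ok 206) (iqb tp435_c))) (BT.Fa_leaf (P := Itm.ok 206) (iqb tp359_c)))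 (BT.Fa_mk (BT.Fa_leaf (P := Itm.ok 206) (iqb tp361_c)) (BT.Fa_leaf (P := Itm.ok 206) (iqf tp412_c))))) (BT.Fa_mk (BT.Fa_mk (BT.Fa_mk (BT.Fa_mk (BT.Fa_leaf (P := Itm.ok 206) (iqf tp362_c)) (BT.Fa_leaf (P := Itm.ok 206) (iqb tp413_c))) (BT.Fa_leaf (P := Itm.ok 206) (iqf tp364_c))) (BT.Fa_mk (BT.Fa_leaf (P := Itm.ok 206) (iqf tp365_c)) (BT.Fa_leaf (P := Itm.ok 206) (iqf tp386_c)))) (BT.Fa_mk (BT.Fa_mk (BT.Fa_mk (BT.Fa_leaf (P := Itm.ok 206) (iqf tp366_c)) (BT.Fa_leaf (P := Itm.ok 206) (iqf tp436_c))) (BT.Fa_leaf (P := Itm.ok 206) (iqf tp333_c))) (BT.Fa_mk (BT.Fa_leaf (P := Itm.ok 206) (iqb tp360_c)) (BT.Fa_leaf (P := Itm.ok 206) (iqf tp375_c)))))) (BT.Fa_mk (BT.Fa_mk (BT.Fa_mk (BT.Fa_mk (BT.Fa_mk (BT.Fa_leaf (P := Itm.ok 206) (iqf tp352_c)) (BT.Fa_leaf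 (P := Itm.ok 206) (iqb tp376_c))) (BT.Fa_leaf (P := Itm.ok 206) (iqf tp321_c))) (BT.Fa_mk (BT.Fa_leaf (P := Itm.ok 206) (iqb tp295_c)) (BT.Fa_leaf (P := Itm.ok 206) (iqf tp437_c)))) (BT.Fa_mk (BT.Fa_mk (BT.Fa_mk (BT.Fa_leaf (P := Itm.ok 206) (iqb tp438_c)) (BT.Fa_leaf (P := Itm.ok 206) (iqb tp439_c))) (BT.Fa_leaf (P := Itm.ok 206) (iqb tp421_c))) (BT.Fa_mk (BT.Fa_leaf (P := Itm.ok 206) (iqb tp422_c)) (BT.Fa_leaf (P := Itm.ok 206) (iqb tp426_c))))) (BT.Fa_mk (BT.Fa_mk (BT.Fa_mk (BT.Fa_mk (BT.Fa_leaf (P := Itm.ok 206) (iqb tp440_c)) (BT.Fa_leaf (P := Itm.ok 206) (iqb tp419_c))) (BT.Fa_leaf (P := Itm.ok 206) (iqf tp441_c))) (BT.Fa_mk (BT.Fa_leaf (P := Itm.ok 206) (iqf tp442_c)) (BT.Fa_leaf (P := Itm.ok 206) (iqf tp443_c)))) (BT.Fa_mk (BT.Fa_mk (BT.Fa_mk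 (BT.Fa_leaf (P := Itm.ok 206) (iqf tp444_c)) (BT.Fa_leaf (P := Itm.ok 206) (iqf tp427_c))) (BT.Fa_leaf (P := Itm.ok 206) (iqf tp425_c))) (BT.Fa_mk (BT.Fa_leaf (P := Itm.ok 206) (iqb tp445_c)) (BT.Fa_leaf (P := Itm.ok 206) (iqb tp446_c))))))))

/-- all words of the class have labels -/
theorem pokNF2A2AzE2A2Ax3xA2A2EzAzAzF : POK 206 xNF2A2AzE2A2Ax3xA2A2EzAzAzF :=
  y_pok (C0 := ceNF2A2AzE2A2Ax3xA2A2EzAzAzF) (C1 := coNF2A2AzE2A2Ax3xA2A2EzAzAzF) topNF2A2AzE2A2Ax3xA2A2EzAzAzF nbNF2A2AzE2A2Ax3xA2A2EzAzAzF (BT.Fa_of_all iiNF2A2AzE2A2Ax3xA2A2EzAzAzF_c)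
    (cyE_spec zeNF2A2AzE2A2Ax3xA2A2EzAzAzF_0)
    (cyO_spec zoNF2A2AzE2A2Ax3xA2A2EzAzAzF_0)
    iiNF2A2AzE2A2Ax3xA2A2EzAzAzF_k

theorem iiNF2A2AzEyA2Ax3xA2AyEzA2A2F_k : iiNF2A2AzEyA2Ax3xA2AyEzA2A2F.Fa (Itm.ok 206) := (BT.Fa_mk (BT.Fa_mk (BT.Fa_mk (BT.Fa_mk (BT.Fa_mk (BT.Fa_mk (BT.Fa_leaf (P := Itm.ok 206) (iqf tp447_c)) (BT.Fa_leaf (P := Itm.ok 206) (iqf tp295_c))) (BT.Fa_mk (BT.Fa_leaf (P := Itm.ok 206) (iqf tp326_c)) (BT.Fa_leaf (P := Itm.ok 206) (iqb tp326_c)))) (BT.Fa_mk (BT.Fa_mk (BT.Fa_leaf (P := Itm.ok 206) (iqb tp320_c)) (BT.Fa_leaf (P := Itm.ok 206) (iqf tp342_c))) (BT.Fa_leaf (P := Itm.ok 206) (iqf tp334_c)))) (BT.Fa_mk (BT.Fa_mk (BT.Fa_mk (BT.Fa_leaf (P := Itm.ok 206) (iqf tp341_c)) (BT.Fa_leaf (P := Itm.ok 206) (iqf tp378_c))) (BT.Fa_mk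 (BT.Fa_leaf (P := Itm.ok 206) (iqb tp378_c)) (BT.Fa_leaf (P := Itm.ok 206) (iqf tp329_c)))) (BT.Fa_mk (BT.Fa_mk (BT.Fa_leaf (P := Itm.ok 206) (iqb tp329_c)) (BT.Fa_leaf (P := Itm.ok 206) (iqf tp337_c))) (BT.Fa_leaf (P := Itm.ok 206) (iqb tp337_c))))) (BT.Fa_mk (BT.Fa_mk (BT.Fa_mk (BT.Fa_mk (BT.Fa_leaf (P := Itm.ok 206) (iqf tp338_c)) (BT.Fa_leaf (P := Itm.ok 206) (iqb tp338_c))) (BT.Fa_mk (BT.Fa_leaf (P := Itm.ok 206) (iqf tp346_c)) (BT.Fa_leaf (P := Itm.ok 206) (iqb tp346_c)))) (BT.Fa_mk (BT.Fa_mk (BT.Fa_leaf (P := Itm.ok 206) (iqf tp448_c)) (BT.Fa_leaf (P := Itm.ok 206) (iqf tp352_c))) (BT.Fa_leaf (P := Itm.ok 206) (iqf tp373_c)))) (BT.Fa_mk (BT.Fa_mk (BT.Fa_mk (BT.Fa_leaf (P := Itm.ok 206) (iqf tp449_c)) (BT.Fa_leaf (P := Itm.ok 206) (iqb tp359_c)))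 (BT.Fa_leaf (P := Itm.ok 206) (iqf tp361_c))) (BT.Fa_mk (BT.Fa_mk (BT.Fa_leaf (P := Itm.ok 206) (iqf tp450_c)) (BT.Fa_leaf (P := Itm.ok 206) (iqf tp365_c))) (BT.Fa_leaf (P := Itm.ok 206) (iqf tp451_c)))))) (BT.Fa_mk (BT.Fa_mk (BT.Fa_mk (BT.Fa_mk (BT.Fa_mk (BT.Fa_leaf (P := Itm.ok 206) (iqf tp452_c)) (BT.Fa_leaf (P := Itm.ok 206) (iqb tp453_c))) (BT.Fa_mk (BT.Fa_leaf (P := Itm.ok 206) (iqb tp454_c)) (BT.Fa_leaf (P := Itm.ok 206) (iqf tp455_c)))) (BT.Fa_mk (BT.Fa_mk (BT.Fa_leaf (P := Itm.ok 206) (iqb tp456_c)) (BT.Fa_leaf (P := Itm.ok 206) (iqb tp410_c))) (BT.Fa_leaf (P := Itm.ok 206) (iqf tp457_c)))) (BT.Fa_mk (BT.Fa_mk (BT.Fa_mk (BT.Fa_leaf (P := Itm.ok 206) (iqb tp458_c)) (BT.Fa_leaf (P := Itm.ok 206) (iqf tp459_c))) (BT.Fa_mk (BT.Fa_leaf (P :=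 Itm.ok 206) (iqf tp460_c)) (BT.Fa_leaf (P := Itm.ok 206) (iqb tp416_c)))) (BT.Fa_mk (BT.Fa_mk (BT.Fa_leaf (P := Itm.ok 206) (iqb tp431_c)) (BT.Fa_leaf (P := Itm.ok 206) (iqf tp461_c))) (BT.Fa_leaf (P := Itm.ok 206) (iqf tp416_c))))) (BT.Fa_mk (BT.Fa_mk (BT.Fa_mk (BT.Fa_mk (BT.Fa_leaf (P := Itm.ok 206) (iqb tp462_c)) (BT.Fa_leaf (P := Itm.ok 206) (iqb tp334_c))) (BT.Fa_mk (BT.Fa_leaf (P := Itm.ok 206) (iqf tp366_c)) (BT.Fa_leaf (P := Itm.ok 206) (iqb tp299_c)))) (BT.Fa_mk (BT.Fa_mk (BT.Fa_leaf (P := Itm.ok 206) (iqf tp408_c)) (BT.Fa_leaf (P := Itm.ok 206) (iqf tp463_c))) (BT.Fa_leaf (P := Itm.ok 206) (iqf tp464_c)))) (BT.Fa_mk (BT.Fa_mk (BT.Fa_mk (BT.Fa_leaf (P := Itm.ok 206) (iqf tp465_c)) (BT.Fa_leaf (P := Itm.ok 206) (iqf tp466_c))) (BT.Fa_leaf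 (P := Itm.ok 206) (iqb tp467_c))) (BT.Fa_mk (BT.Fa_mk (BT.Fa_leaf (P := Itm.ok 206) (iqb tp468_c)) (BT.Fa_leaf (P := Itm.ok 206) (iqf tp469_c))) (BT.Fa_leaf (P := Itm.ok 206) (iqb tp470_c)))))))

/-- all words of the class have labels -/
theorem pokNF2A2AzEyA2Ax3xA2AyEzA2A2F : POK 206 xNF2A2AzEyA2Ax3xA2AyEzA2A2F :=
  y_pok (C0 := ceNF2A2AzEyA2Ax3xA2AyEzA2A2F) (C1 := coNF2A2AzEyA2Ax3xA2AyEzA2A2F) topNF2A2AzEyA2Ax3xA2AyEzA2A2F nbNF2A2AzEyA2Ax3xA2AyEzA2A2F (BT.Fa_of_all iiNF2A2AzEyA2Ax3xA2AyEzA2A2F_c)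
    (cyE_spec zeNF2A2AzEyA2Ax3xA2AyEzA2A2F_0)
    (cyO_spec zoNF2A2AzEyA2Ax3xA2AyEzA2A2F_0)
    iiNF2A2AzEyA2Ax3xA2AyEzA2A2F_k

theorem iiNF2AzAzE2A2Ax3xA2A2EzA2AyF_k : iiNF2AzAzE2A2Ax3xA2A2EzA2AyF.Fa (Itm.ok 206) := (BT.Fa_mk (BT.Fa_mk (BT.Fa_mk (BT.Fa_mk (BT.Fa_mk (BT.Fa_mk (BT.Fa_mk (BT.Fa_leaf (P := Itm.ok 206) (iqf tp318_c)) (BT.Fa_leaf (P := Itm.ok 206) (iqf tp388_c))) (BT.Fa_leaf (P := Itm.ok 206) (iqb tp479_c))) (BT.Fa_mk (BT.Fa_mk (BT.Fa_leaf (P := Itm.ok 206) (iqb tp480_c)) (BT.Fa_leaf (P := Itm.ok 206) (iqf tp292_c))) (BT.Fa_leaf (P := Itm.ok 206) (iqb tp452_c)))) (BT.Fa_mk (BT.Fa_mk (BT.Fa_mk (BT.Fa_leaf (P := Itm.ok 206) (iqf tp326_c)) (BT.Fa_leaf (P := Itm.ok 206) (iqf tp481_c))) (BT.Fa_leaf (P := Itm.ok 206) (iqf tp482_c))) (BT.Fa_mk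 (BT.Fa_mk (BT.Fa_leaf (P := Itm.ok 206) (iqf tp483_c)) (BT.Fa_leaf (P := Itm.ok 206) (iqb tp484_c))) (BT.Fa_leaf (P := Itm.ok 206) (iqf tp334_c))))) (BT.Fa_mk (BT.Fa_mk (BT.Fa_mk (BT.Fa_mk (BT.Fa_leaf (P := Itm.ok 206) (iqb tp334_c)) (BT.Fa_leaf (P := Itm.ok 206) (iqf tp485_c))) (BT.Fa_leaf (P := Itm.ok 206) (iqb tp486_c))) (BT.Fa_mk (BT.Fa_mk (BT.Fa_leaf (P := Itm.ok 206) (iqb tp467_c)) (BT.Fa_leaf (P := Itm.ok 206) (iqf tp487_c))) (BT.Fa_leaf (P := Itm.ok 206) (iqf tp337_c)))) (BT.Fa_mk (BT.Fa_mk (BT.Fa_mk (BT.Fa_leaf (P := Itm.ok 206) (iqf tp338_c)) (BT.Fa_leaf (P := Itm.ok 206) (iqf tp488_c))) (BT.Fa_leaf (P := Itm.ok 206) (iqb tp489_c))) (BT.Fa_mk (BT.Fa_mk (BT.Fa_leaf (P := Itm.ok 206) (iqf tp490_c)) (BT.Fa_leaf (P := Itm.ok 206) (iqf tp378_c)))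 (BT.Fa_leaf (P := Itm.ok 206) (iqf tp473_c)))))) (BT.Fa_mk (BT.Fa_mk (BT.Fa_mk (BT.Fa_mk (BT.Fa_mk (BT.Fa_leaf (P := Itm.ok 206) (iqf tp341_c)) (BT.Fa_leaf (P := Itm.ok 206) (iqf tp342_c))) (BT.Fa_leaf (P := Itm.ok 206) (iqb tp491_c))) (BT.Fa_mk (BT.Fa_mk (BT.Fa_leaf (P := Itm.ok 206) (iqb tp402_c)) (BT.Fa_leaf (P := Itm.ok 206) (iqb tp299_c))) (BT.Fa_leaf (P := Itm.ok 206) (iqf tp492_c)))) (BT.Fa_mk (BT.Fa_mk (BT.Fa_mk (BT.Fa_leaf (P := Itm.ok 206) (iqf tp493_c)) (BT.Fa_leaf (P := Itm.ok 206) (iqf tp451_c))) (BT.Fa_leaf (P := Itm.ok 206) (iqb tp372_c))) (BT.Fa_mk (BT.Fa_mk (BT.Fa_leaf (P := Itm.ok 206) (iqf tp494_c)) (BT.Fa_leaf (P := Itm.ok 206) (iqb tp495_c))) (BT.Fa_leaf (P := Itm.ok 206) (iqf tp496_c))))) (BT.Fa_mk (BT.Fa_mk (BT.Fa_mk (BT.Fa_mk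 (BT.Fa_leaf (P := Itm.ok 206) (iqf tp403_c)) (BT.Fa_leaf (P := Itm.ok 206) (iqf tp497_c))) (BT.Fa_leaf (P := Itm.ok 206) (iqf tp498_c))) (BT.Fa_mk (BT.Fa_mk (BT.Fa_leaf (P := Itm.ok 206) (iqb tp346_c)) (BT.Fa_leaf (P := Itm.ok 206) (iqf tp499_c))) (BT.Fa_leaf (P := Itm.ok 206) (iqb tp500_c)))) (BT.Fa_mk (BT.Fa_mk (BT.Fa_mk (BT.Fa_leaf (P := Itm.ok 206) (iqb tp501_c)) (BT.Fa_leaf (P := Itm.ok 206) (iqf tp502_c))) (BT.Fa_leaf (P := Itm.ok 206) (iqf tp347_c))) (BT.Fa_mk (BT.Fa_mk (BT.Fa_leaf (P := Itm.ok 206) (iqb tp347_c)) (BT.Fa_leaf (P := Itm.ok 206) (iqf tp503_c))) (BT.Fa_leaf (P := Itm.ok 206) (iqf tp504_c))))))) (BT.Fa_mk (BT.Fa_mk (BT.Fa_mk (BT.Fa_mk (BT.Fa_mk (BT.Fa_mk (BT.Fa_leaf (P := Itm.ok 206) (iqb tp349_c)) (BT.Fa_leaf (P := Itm.ok 206)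 (iqf tp505_c))) (BT.Fa_leaf (P := Itm.ok 206) (iqb tp477_c))) (BT.Fa_mk (BT.Fa_mk (BT.Fa_leaf (P := Itm.ok 206) (iqf tp350_c)) (BT.Fa_leaf (P := Itm.ok 206) (iqf tp506_c))) (BT.Fa_leaf (P := Itm.ok 206) (iqb tp353_c)))) (BT.Fa_mk (BT.Fa_mk (BT.Fa_mk (BT.Fa_leaf (P := Itm.ok 206) (iqf tp450_c)) (BT.Fa_leaf (P := Itm.ok 206) (iqf tp355_c))) (BT.Fa_leaf (P := Itm.ok 206) (iqb tp356_c))) (BT.Fa_mk (BT.Fa_mk (BT.Fa_leaf (P := Itm.ok 206) (iqf tp371_c)) (BT.Fa_leaf (P := Itm.ok 206) (iqb tp507_c))) (BT.Fa_leaf (P := Itm.ok 206) (iqb tp358_c))))) (BT.Fa_mk (BT.Fa_mk (BT.Fa_mk (BT.Fa_mk (BT.Fa_leaf (P := Itm.ok 206) (iqf tp410_c)) (BT.Fa_leaf (P := Itm.ok 206) (iqb tp508_c))) (BT.Fa_leaf (P := Itm.ok 206) (iqb tp435_c))) (BT.Fa_mk (BT.Fa_mk (BT.Fa_leaf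 (P := Itm.ok 206) (iqb tp359_c)) (BT.Fa_leaf (P := Itm.ok 206) (iqb tp360_c))) (BT.Fa_leaf (P := Itm.ok 206) (iqb tp361_c)))) (BT.Fa_mk (BT.Fa_mk (BT.Fa_mk (BT.Fa_leaf (P := Itm.ok 206) (iqb tp364_c)) (BT.Fa_leaf (P := Itm.ok 206) (iqf tp365_c))) (BT.Fa_leaf (P := Itm.ok 206) (iqf tp509_c))) (BT.Fa_mk (BT.Fa_mk (BT.Fa_leaf (P := Itm.ok 206) (iqf tp445_c)) (BT.Fa_leaf (P := Itm.ok 206) (iqb tp331_c))) (BT.Fa_leaf (P := Itm.ok 206) (iqf tp510_c)))))) (BT.Fa_mk (BT.Fa_mk (BT.Fa_mk (BT.Fa_mk (BT.Fa_mk (BT.Fa_leaf (P := Itm.ok 206) (iqf tp511_c)) (BT.Fa_leaf (P := Itm.ok 206) (iqb tp386_c))) (BT.Fa_leaf (P := Itm.ok 206) (iqf tp375_c))) (BT.Fa_mk (BT.Fa_mk (BT.Fa_leaf (P := Itm.ok 206) (iqf tp512_c)) (BT.Fa_leaf (P := Itm.ok 206) (iqb tp513_c))) (BT.Fa_leaf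 (P := Itm.ok 206) (iqf tp432_c)))) (BT.Fa_mk (BT.Fa_mk (BT.Fa_mk (BT.Fa_leaf (P := Itm.ok 206) (iqb tp378_c)) (BT.Fa_leaf (P := Itm.ok 206) (iqf tp514_c))) (BT.Fa_leaf (P := Itm.ok 206) (iqb tp320_c))) (BT.Fa_mk (BT.Fa_mk (BT.Fa_leaf (P := Itm.ok 206) (iqb tp515_c)) (BT.Fa_leaf (P := Itm.ok 206) (iqb tp516_c))) (BT.Fa_leaf (P := Itm.ok 206) (iqb tp419_c))))) (BT.Fa_mk (BT.Fa_mk (BT.Fa_mk (BT.Fa_mk (BT.Fa_leaf (P := Itm.ok 206) (iqb tp517_c)) (BT.Fa_leaf (P := Itm.ok 206) (iqf tp518_c))) (BT.Fa_leaf (P := Itm.ok 206) (iqb tp519_c))) (BT.Fa_mk (BT.Fa_mk (BT.Fa_leaf (P := Itm.ok 206) (iqb tp461_c)) (BT.Fa_leaf (P := Itm.ok 206) (iqf tp520_c))) (BT.Fa_leaf (P := Itm.ok 206) (iqf tp521_c)))) (BT.Fa_mk (BT.Fa_mk (BT.Fa_mk (BT.Fa_leaf (P := Itm.ok 206)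 (iqb tp318_c)) (BT.Fa_leaf (P := Itm.ok 206) (iqb tp445_c))) (BT.Fa_leaf (P := Itm.ok 206) (iqb tp522_c))) (BT.Fa_mk (BT.Fa_mk (BT.Fa_leaf (P := Itm.ok 206) (iqb tp391_c)) (BT.Fa_leaf (P := Itm.ok 206) (iqb tp369_c))) (BT.Fa_leaf (P := Itm.ok 206) (iqf tp523_c))))))))

/-- all words of the class have labels -/
theorem pokNF2AzAzE2A2Ax3xA2A2EzA2AyF : POK 206 xNF2AzAzE2A2Ax3xA2A2EzA2AyF :=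
  y_pok (C0 := ceNF2AzAzE2A2Ax3xA2A2EzA2AyF) (C1 := coNF2AzAzE2A2Ax3xA2A2EzA2AyF) topNF2AzAzE2A2Ax3xA2A2EzA2AyF nbNF2AzAzE2A2Ax3xA2A2EzA2AyF (BT.Fa_of_all iiNF2AzAzE2A2Ax3xA2A2EzA2AyF_c)
    (cyE_spec zeNF2AzAzE2A2Ax3xA2A2EzA2AyF_0)
    (cyO_spec zoNF2AzAzE2A2Ax3xA2A2EzA2AyF_0)
    iiNF2AzAzE2A2Ax3xA2A2EzA2AyF_k

theorem iiNF2AzAzE2B3HzB2H3B2E_k : iiNF2AzAzE2B3HzB2H3B2E.Fa (Itm.ok 206) := (BT.Fa_mk (BT.Fa_mk (BT.Fa_mk (BT.Fa_mk (BT.Fa_mk (BT.Fa_mk (BT.Fa_mk (BT.Fa_leaf (P := Itm.ok 206) (iqf tp292_c)) (BT.Fa_leaf (P := Itm.ok 206) (iqf tp2615_c))) (BT.Fa_mk (BT.Fa_leaf (P := Itm.ok 206) (iqb tp2616_c)) (BT.Fa_leaf (P := Itm.ok 206) (iqb tp1576_c)))) (BT.Fa_mk (BT.Fa_mk (BT.Fa_leaf (P := Itm.ok 206) (iqf tp2617_c)) (BT.Fa_leaf (P := Itm.ok 206)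 (iqb tp537_c))) (BT.Fa_leaf (P := Itm.ok 206) (iqf tp2270_c)))) (BT.Fa_mk (BT.Fa_mk (BT.Fa_mk (BT.Fa_leaf (P := Itm.ok 206) (iqf tp359_c)) (BT.Fa_leaf (P := Itm.ok 206) (iqb tp295_c))) (BT.Fa_leaf (P := Itm.ok 206) (iqf tp299_c))) (BT.Fa_mk (BT.Fa_mk (BT.Fa_leaf (P := Itm.ok 206) (iqf tp2434_c)) (BT.Fa_leaf (P := Itm.ok 206) (iqb tp361_c))) (BT.Fa_leaf (P := Itm.ok 206) (iqf tp366_c))))) (BT.Fa_mk (BT.Fa_mk (BT.Fa_mk (BT.Fa_mk (BT.Fa_leaf (P := Itm.ok 206) (iqb tp2618_c)) (BT.Fa_leaf (P := Itm.ok 206) (iqb tp1913_c))) (BT.Fa_leaf (P := Itm.ok 206) (iqb tp2619_c))) (BT.Fa_mk (BT.Fa_mk (BT.Fa_leaf (P := Itm.ok 206) (iqb tp532_c)) (BT.Fa_leaf (P := Itm.ok 206) (iqf tp493_c))) (BT.Fa_leaf (P := Itm.ok 206) (iqf tp322_c)))) (BT.Fa_mk (BT.Fa_mk (BT.Fa_mk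 (BT.Fa_leaf (P := Itm.ok 206) (iqb tp2547_c)) (BT.Fa_leaf (P := Itm.ok 206) (iqb tp433_c))) (BT.Fa_leaf (P := Itm.ok 206) (iqb tp806_c))) (BT.Fa_mk (BT.Fa_mk (BT.Fa_leaf (P := Itm.ok 206) (iqb tp1995_c)) (BT.Fa_leaf (P := Itm.ok 206) (iqb tp354_c))) (BT.Fa_leaf (P := Itm.ok 206) (iqb tp1387_c)))))) (BT.Fa_mk (BT.Fa_mk (BT.Fa_mk (BT.Fa_mk (BT.Fa_mk (BT.Fa_leaf (P := Itm.ok 206) (iqb tp783_c)) (BT.Fa_leaf (P := Itm.ok 206) (iqf tp1768_c))) (BT.Fa_mk (BT.Fa_leaf (P := Itm.ok 206) (iqb tp2415_c)) (BT.Fa_leaf (P := Itm.ok 206) (iqf tp608_c)))) (BT.Fa_mk (BT.Fa_mk (BT.Fa_leaf (P := Itm.ok 206) (iqf tp2310_c)) (BT.Fa_leaf (P := Itm.ok 206) (iqb tp815_c))) (BT.Fa_leaf (P := Itm.ok 206) (iqb tp827_c)))) (BT.Fa_mk (BT.Fa_mk (BT.Fa_mk (BT.Fa_leaf (P := Itm.ok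 206) (iqb tp2620_c)) (BT.Fa_leaf (P := Itm.ok 206) (iqf tp2441_c))) (BT.Fa_leaf (P := Itm.ok 206) (iqf tp2621_c))) (BT.Fa_mk (BT.Fa_mk (BT.Fa_leaf (P := Itm.ok 206) (iqb tp1197_c)) (BT.Fa_leaf (P := Itm.ok 206) (iqf tp2027_c))) (BT.Fa_leaf (P := Itm.ok 206) (iqf tp1994_c))))) (BT.Fa_mk (BT.Fa_mk (BT.Fa_mk (BT.Fa_mk (BT.Fa_leaf (P := Itm.ok 206) (iqf tp2479_c)) (BT.Fa_leaf (P := Itm.ok 206) (iqb tp2309_c))) (BT.Fa_leaf (P := Itm.ok 206) (iqb tp1986_c))) (BT.Fa_mk (BT.Fa_mk (BT.Fa_leaf (P := Itm.ok 206) (iqf tp2622_c)) (BT.Fa_leaf (P := Itm.ok 206) (iqf tp1440_c))) (BT.Fa_leaf (P := Itm.ok 206) (iqb tp2578_c)))) (BT.Fa_mk (BT.Fa_mk (BT.Fa_mk (BT.Fa_leaf (P := Itm.ok 206) (iqb tp2623_c)) (BT.Fa_leaf (P := Itm.ok 206) (iqf tp2624_c))) (BT.Fa_leaf (P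 := Itm.ok 206) (iqf tp1468_c))) (BT.Fa_mk (BT.Fa_mk (BT.Fa_leaf (P := Itm.ok 206) (iqb tp2131_c)) (BT.Fa_leaf (P := Itm.ok 206) (iqb tp2050_c))) (BT.Fa_leaf (P := Itm.ok 206) (iqf tp2062_c))))))) (BT.Fa_mk (BT.Fa_mk (BT.Fa_mk (BT.Fa_mk (BT.Fa_mk (BT.Fa_mk (BT.Fa_leaf (P := Itm.ok 206) (iqf tp2139_c)) (BT.Fa_leaf (P := Itm.ok 206) (iqf tp2467_c))) (BT.Fa_mk (BT.Fa_leaf (P := Itm.ok 206) (iqf tp2625_c)) (BT.Fa_leaf (P := Itm.ok 206) (iqf tp2471_c)))) (BT.Fa_mk (BT.Fa_mk (BT.Fa_leaf (P := Itm.ok 206) (iqb tp1783_c)) (BT.Fa_leaf (P := Itm.ok 206) (iqf tp1945_c))) (BT.Fa_leaf (P := Itm.ok 206) (iqb tp2417_c)))) (BT.Fa_mk (BT.Fa_mk (BT.Fa_mk (BT.Fa_leaf (P := Itm.ok 206) (iqf tp1659_c)) (BT.Fa_leaf (P := Itm.ok 206) (iqb tp2459_c))) (BT.Fa_leaf (P :=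 Itm.ok 206) (iqf tp2138_c))) (BT.Fa_mk (BT.Fa_mk (BT.Fa_leaf (P := Itm.ok 206) (iqf tp2306_c)) (BT.Fa_leaf (P := Itm.ok 206) (iqf tp2140_c))) (BT.Fa_leaf (P := Itm.ok 206) (iqb tp2462_c))))) (BT.Fa_mk (BT.Fa_mk (BT.Fa_mk (BT.Fa_mk (BT.Fa_leaf (P := Itm.ok 206) (iqf tp2627_c)) (BT.Fa_leaf (P := Itm.ok 206) (iqf tp2628_c))) (BT.Fa_leaf (P := Itm.ok 206) (iqb tp366_c))) (BT.Fa_mk (BT.Fa_mk (BT.Fa_leaf (P := Itm.ok 206) (iqf tp1387_c)) (BT.Fa_leaf (P := Itm.ok 206) (iqf tp1771_c))) (BT.Fa_leaf (P := Itm.ok 206) (iqf tp2629_c)))) (BT.Fa_mk (BT.Fa_mk (BT.Fa_mk (BT.Fa_leaf (P := Itm.ok 206) (iqf tp2630_c)) (BT.Fa_leaf (P := Itm.ok 206) (iqb tp2556_c))) (BT.Fa_leaf (P := Itm.ok 206) (iqf tp2119_c))) (BT.Fa_mk (BT.Fa_mk (BT.Fa_leaf (P := Itm.ok 206) (iqf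 tp2631_c)) (BT.Fa_leaf (P := Itm.ok 206) (iqf tp329_c))) (BT.Fa_leaf (P := Itm.ok 206) (iqb tp316_c)))))) (BT.Fa_mk (BT.Fa_mk (BT.Fa_mk (BT.Fa_mk (BT.Fa_mk (BT.Fa_leaf (P := Itm.ok 206) (iqb tp2548_c)) (BT.Fa_leaf (P := Itm.ok 206) (iqb tp2632_c))) (BT.Fa_leaf (P := Itm.ok 206) (iqb tp2633_c))) (BT.Fa_mk (BT.Fa_mk (BT.Fa_leaf (P := Itm.ok 206) (iqb tp1787_c)) (BT.Fa_leaf (P := Itm.ok 206) (iqf tp2634_c))) (BT.Fa_leaf (P := Itm.ok 206) (iqf tp352_c)))) (BT.Fa_mk (BT.Fa_mk (BT.Fa_mk (BT.Fa_leaf (P := Itm.ok 206) (iqf tp1765_c)) (BT.Fa_leaf (P := Itm.ok 206) (iqf tp2057_c))) (BT.Fa_leaf (P := Itm.ok 206) (iqf tp344_c))) (BT.Fa_mk (BT.Fa_mk (BT.Fa_leaf (P := Itm.ok 206) (iqb tp2039_c)) (BT.Fa_leaf (P := Itm.ok 206) (iqb tp846_c))) (BT.Fa_leaf (P :=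 Itm.ok 206) (iqf tp342_c))))) (BT.Fa_mk (BT.Fa_mk (BT.Fa_mk (BT.Fa_mk (BT.Fa_leaf (P := Itm.ok 206) (iqb tp2635_c)) (BT.Fa_leaf (P := Itm.ok 206) (iqf tp2052_c))) (BT.Fa_leaf (P := Itm.ok 206) (iqf tp1732_c))) (BT.Fa_mk (BT.Fa_mk (BT.Fa_leaf (P := Itm.ok 206) (iqf tp2636_c)) (BT.Fa_leaf (P := Itm.ok 206) (iqf tp2510_c))) (BT.Fa_leaf (P := Itm.ok 206) (iqf tp2505_c)))) (BT.Fa_mk (BT.Fa_mk (BT.Fa_mk (BT.Fa_leaf (P := Itm.ok 206) (iqb tp2614_c)) (BT.Fa_leaf (P := Itm.ok 206) (iqb tp342_c))) (BT.Fa_leaf (P := Itm.ok 206) (iqb tp1354_c))) (BT.Fa_mk (BT.Fa_mk (BT.Fa_leaf (P := Itm.ok 206) (iqf tp492_c)) (BT.Fa_leaf (P := Itm.ok 206) (iqf tp962_c))) (BT.Fa_leaf (P := Itm.ok 206) (iqb tp359_c))))))))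

/-- all words of the class have labels -/
theorem pokNF2AzAzE2B3HzB2H3B2E : POK 206 xNF2AzAzE2B3HzB2H3B2E :=
  y_pok (C0 := ceNF2AzAzE2B3HzB2H3B2E) (C1 := coNF2AzAzE2B3HzB2H3B2E) topNF2AzAzE2B3HzB2H3B2E nbNF2AzAzE2B3HzB2H3B2E (BT.Fa_of_all iiNF2AzAzE2B3HzB2H3B2E_c)
    (cyE_spec zeNF2AzAzE2B3HzB2H3B2E_0)
    (cyO_spec zoNF2AzAzE2B3HzB2H3B2E_0)
    iiNF2AzAzE2B3HzB2H3B2E_k

theorem iiNF2AzAzEyA2Ax3xA2AyEzAzA2F_k : iiNF2AzAzEyA2Ax3xA2AyEzAzA2F.Fa (Itm.ok 206) := (BT.Fa_mk (BT.Fa_mk (BT.Fa_mk (BT.Fa_mk (BT.Fa_mk (BT.Fa_mk (BT.Fa_mk (BT.Fa_leaf (P := Itm.ok 206) (iqf tp524_c)) (BT.Fa_leaf (P := Itm.ok 206) (iqb tp524_c))) (BT.Fa_mk (BT.Fa_leaf (P := Itm.ok 206) (iqb tp525_c)) (BT.Fa_leaf (P := Itm.ok 206) (iqf tp447_c)))) (BT.Fa_mk (BT.Fa_mk (BT.Fa_leaf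 (P := Itm.ok 206) (iqf tp526_c)) (BT.Fa_leaf (P := Itm.ok 206) (iqf tp527_c))) (BT.Fa_mk (BT.Fa_leaf (P := Itm.ok 206) (iqb tp371_c)) (BT.Fa_leaf (P := Itm.ok 206) (iqf tp403_c))))) (BT.Fa_mk (BT.Fa_mk (BT.Fa_mk (BT.Fa_leaf (P := Itm.ok 206) (iqb tp403_c)) (BT.Fa_leaf (P := Itm.ok 206) (iqf tp528_c))) (BT.Fa_mk (BT.Fa_leaf (P := Itm.ok 206) (iqf tp292_c)) (BT.Fa_leaf (P := Itm.ok 206) (iqb tp324_c)))) (BT.Fa_mk (BT.Fa_mk (BT.Fa_leaf (P := Itm.ok 206) (iqb tp326_c)) (BT.Fa_leaf (P := Itm.ok 206) (iqf tp331_c))) (BT.Fa_leaf (P := Itm.ok 206) (iqb tp331_c))))) (BT.Fa_mk (BT.Fa_mk (BT.Fa_mk (BT.Fa_mk (BT.Fa_leaf (P := Itm.ok 206) (iqf tp490_c)) (BT.Fa_leaf (P := Itm.ok 206) (iqb tp490_c))) (BT.Fa_mk (BT.Fa_leaf (P := Itm.ok 206) (iqb tp477_c)) (BT.Fa_leaf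 (P := Itm.ok 206) (iqf tp529_c)))) (BT.Fa_mk (BT.Fa_mk (BT.Fa_leaf (P := Itm.ok 206) (iqf tp334_c)) (BT.Fa_leaf (P := Itm.ok 206) (iqb tp334_c))) (BT.Fa_leaf (P := Itm.ok 206) (iqf tp368_c)))) (BT.Fa_mk (BT.Fa_mk (BT.Fa_mk (BT.Fa_leaf (P := Itm.ok 206) (iqb tp368_c)) (BT.Fa_leaf (P := Itm.ok 206) (iqb tp530_c))) (BT.Fa_mk (BT.Fa_leaf (P := Itm.ok 206) (iqf tp341_c)) (BT.Fa_leaf (P := Itm.ok 206) (iqb tp341_c)))) (BT.Fa_mk (BT.Fa_mk (BT.Fa_leaf (P := Itm.ok 206) (iqf tp531_c)) (BT.Fa_leaf (P := Itm.ok 206) (iqb tp531_c))) (BT.Fa_leaf (P := Itm.ok 206) (iqb tp378_c)))))) (BT.Fa_mk (BT.Fa_mk (BT.Fa_mk (BT.Fa_mk (BT.Fa_mk (BT.Fa_leaf (P := Itm.ok 206) (iqb tp532_c)) (BT.Fa_leaf (P := Itm.ok 206) (iqf tp484_c))) (BT.Fa_mk (BT.Fa_leaf (P := Itm.ok 206)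 (iqb tp484_c)) (BT.Fa_leaf (P := Itm.ok 206) (iqb tp533_c)))) (BT.Fa_mk (BT.Fa_mk (BT.Fa_leaf (P := Itm.ok 206) (iqb tp372_c)) (BT.Fa_leaf (P := Itm.ok 206) (iqf tp499_c))) (BT.Fa_mk (BT.Fa_leaf (P := Itm.ok 206) (iqf tp356_c)) (BT.Fa_leaf (P := Itm.ok 206) (iqf tp534_c))))) (BT.Fa_mk (BT.Fa_mk (BT.Fa_mk (BT.Fa_leaf (P := Itm.ok 206) (iqb tp535_c)) (BT.Fa_leaf (P := Itm.ok 206) (iqf tp536_c))) (BT.Fa_mk (BT.Fa_leaf (P := Itm.ok 206) (iqf tp348_c)) (BT.Fa_leaf (P := Itm.ok 206) (iqf tp377_c)))) (BT.Fa_mk (BT.Fa_mk (BT.Fa_leaf (P := Itm.ok 206) (iqf tp375_c)) (BT.Fa_leaf (P := Itm.ok 206) (iqf tp537_c))) (BT.Fa_leaf (P := Itm.ok 206) (iqf tp369_c))))) (BT.Fa_mk (BT.Fa_mk (BT.Fa_mk (BT.Fa_mk (BT.Fa_leaf (P := Itm.ok 206) (iqf tp350_c)) (BT.Fa_leaf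 (P := Itm.ok 206) (iqb tp538_c))) (BT.Fa_mk (BT.Fa_leaf (P := Itm.ok 206) (iqb tp359_c)) (BT.Fa_leaf (P := Itm.ok 206) (iqf tp361_c)))) (BT.Fa_mk (BT.Fa_mk (BT.Fa_leaf (P := Itm.ok 206) (iqb tp364_c)) (BT.Fa_leaf (P := Itm.ok 206) (iqf tp413_c))) (BT.Fa_leaf (P := Itm.ok 206) (iqb tp507_c)))) (BT.Fa_mk (BT.Fa_mk (BT.Fa_mk (BT.Fa_leaf (P := Itm.ok 206) (iqb tp336_c)) (BT.Fa_leaf (P := Itm.ok 206) (iqf tp450_c))) (BT.Fa_mk (BT.Fa_leaf (P := Itm.ok 206) (iqf tp398_c)) (BT.Fa_leaf (P := Itm.ok 206) (iqb tp360_c)))) (BT.Fa_mk (BT.Fa_mk (BT.Fa_leaf (P := Itm.ok 206) (iqf tp539_c)) (BT.Fa_leaf (P := Itm.ok 206) (iqf tp540_c))) (BT.Fa_leaf (P := Itm.ok 206) (iqb tp540_c))))))) (BT.Fa_mk (BT.Fa_mk (BT.Fa_mk (BT.Fa_mk (BT.Fa_mk (BT.Fa_mk (BT.Fa_leaf (P :=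 Itm.ok 206) (iqb tp363_c)) (BT.Fa_leaf (P := Itm.ok 206) (iqf tp541_c))) (BT.Fa_mk (BT.Fa_leaf (P := Itm.ok 206) (iqf tp542_c)) (BT.Fa_leaf (P := Itm.ok 206) (iqb tp542_c)))) (BT.Fa_mk (BT.Fa_mk (BT.Fa_leaf (P := Itm.ok 206) (iqf tp509_c)) (BT.Fa_leaf (P := Itm.ok 206) (iqf tp543_c))) (BT.Fa_mk (BT.Fa_leaf (P := Itm.ok 206) (iqf tp544_c)) (BT.Fa_leaf (P := Itm.ok 206) (iqf tp545_c))))) (BT.Fa_mk (BT.Fa_mk (BT.Fa_mk (BT.Fa_leaf (P := Itm.ok 206) (iqb tp546_c)) (BT.Fa_leaf (P := Itm.ok 206) (iqf tp547_c))) (BT.Fa_mk (BT.Fa_leaf (P := Itm.ok 206) (iqf tp444_c)) (BT.Fa_leaf (P := Itm.ok 206) (iqf tp548_c)))) (BT.Fa_mk (BT.Fa_mk (BT.Fa_leaf (P := Itm.ok 206) (iqb tp549_c)) (BT.Fa_leaf (P := Itm.ok 206) (iqb tp361_c))) (BT.Fa_leaf (P := Itm.ok 206) (iqf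 tp494_c))))) (BT.Fa_mk (BT.Fa_mk (BT.Fa_mk (BT.Fa_mk (BT.Fa_leaf (P := Itm.ok 206) (iqb tp550_c)) (BT.Fa_leaf (P := Itm.ok 206) (iqf tp551_c))) (BT.Fa_mk (BT.Fa_leaf (P := Itm.ok 206) (iqf tp552_c)) (BT.Fa_leaf (P := Itm.ok 206) (iqb tp553_c)))) (BT.Fa_mk (BT.Fa_mk (BT.Fa_leaf (P := Itm.ok 206) (iqb tp554_c)) (BT.Fa_leaf (P := Itm.ok 206) (iqb tp555_c))) (BT.Fa_leaf (P := Itm.ok 206) (iqb tp342_c)))) (BT.Fa_mk (BT.Fa_mk (BT.Fa_mk (BT.Fa_leaf (P := Itm.ok 206) (iqb tp556_c)) (BT.Fa_leaf (P := Itm.ok 206) (iqf tp347_c))) (BT.Fa_mk (BT.Fa_leaf (P := Itm.ok 206) (iqf tp386_c)) (BT.Fa_leaf (P := Itm.ok 206) (iqf tp557_c)))) (BT.Fa_mk (BT.Fa_mk (BT.Fa_leaf (P := Itm.ok 206) (iqb tp558_c)) (BT.Fa_leaf (P := Itm.ok 206) (iqf tp504_c))) (BT.Fa_leaf (P :=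 Itm.ok 206) (iqb tp559_c)))))) (BT.Fa_mk (BT.Fa_mk (BT.Fa_mk (BT.Fa_mk (BT.Fa_mk (BT.Fa_leaf (P := Itm.ok 206) (iqf tp351_c)) (BT.Fa_leaf (P := Itm.ok 206) (iqf tp560_c))) (BT.Fa_mk (BT.Fa_leaf (P := Itm.ok 206) (iqf tp554_c)) (BT.Fa_leaf (P := Itm.ok 206) (iqb tp561_c)))) (BT.Fa_mk (BT.Fa_mk (BT.Fa_leaf (P := Itm.ok 206) (iqb tp562_c)) (BT.Fa_leaf (P := Itm.ok 206) (iqf tp563_c))) (BT.Fa_leaf (P := Itm.ok 206) (iqf tp564_c)))) (BT.Fa_mk (BT.Fa_mk (BT.Fa_mk (BT.Fa_leaf (P := Itm.ok 206) (iqf tp565_c)) (BT.Fa_leaf (P := Itm.ok 206) (iqf tp566_c))) (BT.Fa_mk (BT.Fa_leaf (P := Itm.ok 206) (iqb tp380_c)) (BT.Fa_leaf (P := Itm.ok 206) (iqb tp567_c)))) (BT.Fa_mk (BT.Fa_mk (BT.Fa_leaf (P := Itm.ok 206) (iqb tp516_c)) (BT.Fa_leaf (P := Itm.ok 206) (iqb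 tp568_c))) (BT.Fa_leaf (P := Itm.ok 206) (iqb tp369_c))))) (BT.Fa_mk (BT.Fa_mk (BT.Fa_mk (BT.Fa_mk (BT.Fa_leaf (P := Itm.ok 206) (iqb tp519_c)) (BT.Fa_leaf (P := Itm.ok 206) (iqb tp320_c))) (BT.Fa_mk (BT.Fa_leaf (P := Itm.ok 206) (iqb tp569_c)) (BT.Fa_leaf (P := Itm.ok 206) (iqf tp417_c)))) (BT.Fa_mk (BT.Fa_mk (BT.Fa_leaf (P := Itm.ok 206) (iqf tp570_c)) (BT.Fa_leaf (P := Itm.ok 206) (iqf tp488_c))) (BT.Fa_leaf (P := Itm.ok 206) (iqf tp571_c)))) (BT.Fa_mk (BT.Fa_mk (BT.Fa_mk (BT.Fa_leaf (P := Itm.ok 206) (iqb tp452_c)) (BT.Fa_leaf (P := Itm.ok 206) (iqf tp572_c))) (BT.Fa_mk (BT.Fa_leaf (P := Itm.ok 206) (iqf tp573_c)) (BT.Fa_leaf (P := Itm.ok 206) (iqb tp574_c)))) (BT.Fa_mk (BT.Fa_mk (BT.Fa_leaf (P := Itm.ok 206) (iqb tp575_c)) (BT.Fa_leaf (P :=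 Itm.ok 206) (iqb tp576_c))) (BT.Fa_leaf (P := Itm.ok 206) (iqb tp536_c))))))))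

/-- all words of the class have labels -/
theorem pokNF2AzAzEyA2Ax3xA2AyEzAzA2F : POK 206 xNF2AzAzEyA2Ax3xA2AyEzAzA2F :=
  y_pok (C0 := ceNF2AzAzEyA2Ax3xA2AyEzAzA2F) (C1 := coNF2AzAzEyA2Ax3xA2AyEzAzA2F) topNF2AzAzEyA2Ax3xA2AyEzAzA2F nbNF2AzAzEyA2Ax3xA2AyEzAzA2F (BT.Fa_of_all iiNF2AzAzEyA2Ax3xA2AyEzAzA2F_c)
    (cyE_spec zeNF2AzAzEyA2Ax3xA2AyEzAzA2F_0)
    (cyO_spec zoNF2AzAzEyA2Ax3xA2AyEzAzA2F_0)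
    iiNF2AzAzEyA2Ax3xA2AyEzAzA2F_k

theorem iiNF2AzAzEyA2Ax3xA2AyEzAzAzF_k : iiNF2AzAzEyA2Ax3xA2AyEzAzAzF.Fa (Itm.ok 206) := (BT.Fa_mk (BT.Fa_mk (BT.Fa_mk (BT.Fa_mk (BT.Fa_mk (BT.Fa_mk (BT.Fa_mk (BT.Fa_leaf (P := Itm.ok 206) (iqf tp524_c)) (BT.Fa_leaf (P := Itm.ok 206) (iqb tp524_c))) (BT.Fa_mk (BT.Fa_leaf (P := Itm.ok 206) (iqb tp525_c)) (BT.Fa_leaf (P := Itm.ok 206) (iqf tp447_c)))) (BT.Fa_mk (BT.Fa_mk (BT.Fa_leaf (P := Itm.ok 206) (iqb tp447_c)) (BT.Fa_leaf (P := Itm.ok 206) (iqf tp399_c))) (BT.Fa_leaf (P := Itm.ok 206) (iqf tp527_c)))) (BT.Fa_mk (BT.Fa_mk (BT.Fa_mk (BT.Fa_leaf (P := Itm.ok 206) (iqf tp403_c)) (BT.Fa_leaf (P := Itm.ok 206) (iqb tp403_c))) (BT.Fa_mk (BT.Fa_leaf (P := Itm.ok 206) (iqf tp292_c)) (BT.Fa_leaf (P := Itm.ok 206) (iqf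 tp326_c)))) (BT.Fa_mk (BT.Fa_mk (BT.Fa_leaf (P := Itm.ok 206) (iqb tp326_c)) (BT.Fa_leaf (P := Itm.ok 206) (iqf tp331_c))) (BT.Fa_leaf (P := Itm.ok 206) (iqb tp331_c))))) (BT.Fa_mk (BT.Fa_mk (BT.Fa_mk (BT.Fa_mk (BT.Fa_leaf (P := Itm.ok 206) (iqf tp490_c)) (BT.Fa_leaf (P := Itm.ok 206) (iqb tp477_c))) (BT.Fa_mk (BT.Fa_leaf (P := Itm.ok 206) (iqf tp529_c)) (BT.Fa_leaf (P := Itm.ok 206) (iqb tp334_c)))) (BT.Fa_mk (BT.Fa_mk (BT.Fa_leaf (P := Itm.ok 206) (iqf tp368_c)) (BT.Fa_leaf (P := Itm.ok 206) (iqf tp341_c))) (BT.Fa_leaf (P := Itm.ok 206) (iqb tp341_c)))) (BT.Fa_mk (BT.Fa_mk (BT.Fa_mk (BT.Fa_leaf (P := Itm.ok 206) (iqf tp531_c)) (BT.Fa_leaf (P := Itm.ok 206) (iqb tp531_c))) (BT.Fa_mk (BT.Fa_leaf (P := Itm.ok 206) (iqf tp319_c)) (BT.Fa_leaf (P :=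 Itm.ok 206) (iqf tp405_c)))) (BT.Fa_mk (BT.Fa_mk (BT.Fa_leaf (P := Itm.ok 206) (iqf tp378_c)) (BT.Fa_leaf (P := Itm.ok 206) (iqb tp532_c))) (BT.Fa_leaf (P := Itm.ok 206) (iqf tp484_c)))))) (BT.Fa_mk (BT.Fa_mk (BT.Fa_mk (BT.Fa_mk (BT.Fa_mk (BT.Fa_leaf (P := Itm.ok 206) (iqb tp484_c)) (BT.Fa_leaf (P := Itm.ok 206) (iqb tp533_c))) (BT.Fa_mk (BT.Fa_leaf (P := Itm.ok 206) (iqf tp510_c)) (BT.Fa_leaf (P := Itm.ok 206) (iqb tp553_c)))) (BT.Fa_mk (BT.Fa_mk (BT.Fa_leaf (P := Itm.ok 206) (iqf tp519_c)) (BT.Fa_leaf (P := Itm.ok 206) (iqb tp372_c))) (BT.Fa_leaf (P := Itm.ok 206) (iqf tp587_c)))) (BT.Fa_mk (BT.Fa_mk (BT.Fa_mk (BT.Fa_leaf (P := Itm.ok 206) (iqb tp588_c)) (BT.Fa_leaf (P := Itm.ok 206) (iqf tp499_c))) (BT.Fa_mk (BT.Fa_leaf (P := Itm.ok 206) (iqb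 tp589_c)) (BT.Fa_leaf (P := Itm.ok 206) (iqf tp356_c)))) (BT.Fa_mk (BT.Fa_mk (BT.Fa_leaf (P := Itm.ok 206) (iqf tp554_c)) (BT.Fa_leaf (P := Itm.ok 206) (iqb tp554_c))) (BT.Fa_leaf (P := Itm.ok 206) (iqf tp534_c))))) (BT.Fa_mk (BT.Fa_mk (BT.Fa_mk (BT.Fa_mk (BT.Fa_leaf (P := Itm.ok 206) (iqf tp504_c)) (BT.Fa_leaf (P := Itm.ok 206) (iqb tp535_c))) (BT.Fa_mk (BT.Fa_leaf (P := Itm.ok 206) (iqb tp536_c)) (BT.Fa_leaf (P := Itm.ok 206) (iqf tp375_c)))) (BT.Fa_mk (BT.Fa_mk (BT.Fa_leaf (P := Itm.ok 206) (iqb tp577_c)) (BT.Fa_leaf (P := Itm.ok 206) (iqb tp359_c))) (BT.Fa_leaf (P := Itm.ok 206) (iqf tp361_c)))) (BT.Fa_mk (BT.Fa_mk (BT.Fa_mk (BT.Fa_leaf (P := Itm.ok 206) (iqb tp361_c)) (BT.Fa_leaf (P := Itm.ok 206) (iqf tp364_c))) (BT.Fa_leaf (P := Itm.ok 206)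 (iqb tp435_c))) (BT.Fa_mk (BT.Fa_mk (BT.Fa_leaf (P := Itm.ok 206) (iqf tp401_c)) (BT.Fa_leaf (P := Itm.ok 206) (iqf tp347_c))) (BT.Fa_leaf (P := Itm.ok 206) (iqf tp386_c))))))) (BT.Fa_mk (BT.Fa_mk (BT.Fa_mk (BT.Fa_mk (BT.Fa_mk (BT.Fa_mk (BT.Fa_leaf (P := Itm.ok 206) (iqf tp432_c)) (BT.Fa_leaf (P := Itm.ok 206) (iqb tp550_c))) (BT.Fa_mk (BT.Fa_leaf (P := Itm.ok 206) (iqf tp590_c)) (BT.Fa_leaf (P := Itm.ok 206) (iqb tp555_c)))) (BT.Fa_mk (BT.Fa_mk (BT.Fa_leaf (P := Itm.ok 206) (iqb tp591_c)) (BT.Fa_leaf (P := Itm.ok 206) (iqf tp478_c))) (BT.Fa_leaf (P := Itm.ok 206) (iqf tp494_c)))) (BT.Fa_mk (BT.Fa_mk (BT.Fa_mk (BT.Fa_leaf (P := Itm.ok 206) (iqf tp542_c)) (BT.Fa_leaf (P := Itm.ok 206) (iqf tp509_c))) (BT.Fa_mk (BT.Fa_leaf (P := Itm.ok 206) (iqb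 tp592_c)) (BT.Fa_leaf (P := Itm.ok 206) (iqb tp593_c)))) (BT.Fa_mk (BT.Fa_mk (BT.Fa_leaf (P := Itm.ok 206) (iqf tp503_c)) (BT.Fa_leaf (P := Itm.ok 206) (iqb tp559_c))) (BT.Fa_leaf (P := Itm.ok 206) (iqb tp594_c))))) (BT.Fa_mk (BT.Fa_mk (BT.Fa_mk (BT.Fa_mk (BT.Fa_leaf (P := Itm.ok 206) (iqb tp595_c)) (BT.Fa_leaf (P := Itm.ok 206) (iqf tp596_c))) (BT.Fa_mk (BT.Fa_leaf (P := Itm.ok 206) (iqf tp547_c)) (BT.Fa_leaf (P := Itm.ok 206) (iqb tp500_c)))) (BT.Fa_mk (BT.Fa_mk (BT.Fa_leaf (P := Itm.ok 206) (iqb tp495_c)) (BT.Fa_leaf (P := Itm.ok 206) (iqf tp342_c))) (BT.Fa_leaf (P := Itm.ok 206) (iqf tp492_c)))) (BT.Fa_mk (BT.Fa_mk (BT.Fa_mk (BT.Fa_leaf (P := Itm.ok 206) (iqf tp597_c)) (BT.Fa_leaf (P := Itm.ok 206) (iqf tp598_c))) (BT.Fa_leaf (P := Itm.ok 206)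 (iqf tp348_c))) (BT.Fa_mk (BT.Fa_mk (BT.Fa_leaf (P := Itm.ok 206) (iqb tp395_c)) (BT.Fa_leaf (P := Itm.ok 206) (iqb tp558_c))) (BT.Fa_leaf (P := Itm.ok 206) (iqf tp599_c)))))) (BT.Fa_mk (BT.Fa_mk (BT.Fa_mk (BT.Fa_mk (BT.Fa_mk (BT.Fa_leaf (P := Itm.ok 206) (iqf tp600_c)) (BT.Fa_leaf (P := Itm.ok 206) (iqf tp543_c))) (BT.Fa_mk (BT.Fa_leaf (P := Itm.ok 206) (iqf tp601_c)) (BT.Fa_leaf (P := Itm.ok 206) (iqf tp602_c)))) (BT.Fa_mk (BT.Fa_mk (BT.Fa_leaf (P := Itm.ok 206) (iqb tp603_c)) (BT.Fa_leaf (P := Itm.ok 206) (iqf tp477_c))) (BT.Fa_leaf (P := Itm.ok 206) (iqf tp351_c)))) (BT.Fa_mk (BT.Fa_mk (BT.Fa_mk (BT.Fa_leaf (P := Itm.ok 206) (iqf tp604_c)) (BT.Fa_leaf (P := Itm.ok 206) (iqf tp404_c))) (BT.Fa_mk (BT.Fa_leaf (P := Itm.ok 206) (iqb tp605_c)) (BT.Fa_leaf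 (P := Itm.ok 206) (iqb tp320_c)))) (BT.Fa_mk (BT.Fa_mk (BT.Fa_leaf (P := Itm.ok 206) (iqf tp514_c)) (BT.Fa_leaf (P := Itm.ok 206) (iqb tp606_c))) (BT.Fa_leaf (P := Itm.ok 206) (iqb tp607_c))))) (BT.Fa_mk (BT.Fa_mk (BT.Fa_mk (BT.Fa_mk (BT.Fa_leaf (P := Itm.ok 206) (iqb tp295_c)) (BT.Fa_leaf (P := Itm.ok 206) (iqb tp567_c))) (BT.Fa_mk (BT.Fa_leaf (P := Itm.ok 206) (iqb tp608_c)) (BT.Fa_leaf (P := Itm.ok 206) (iqb tp609_c)))) (BT.Fa_mk (BT.Fa_mk (BT.Fa_leaf (P := Itm.ok 206) (iqf tp610_c)) (BT.Fa_leaf (P := Itm.ok 206) (iqb tp426_c))) (BT.Fa_leaf (P := Itm.ok 206) (iqf tp442_c)))) (BT.Fa_mk (BT.Fa_mk (BT.Fa_mk (BT.Fa_leaf (P := Itm.ok 206) (iqf tp536_c)) (BT.Fa_leaf (P := Itm.ok 206) (iqb tp583_c))) (BT.Fa_leaf (P := Itm.ok 206) (iqf tp611_c))) (BT.Fa_mk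 (BT.Fa_mk (BT.Fa_leaf (P := Itm.ok 206) (iqf tp563_c)) (BT.Fa_leaf (P := Itm.ok 206) (iqb tp519_c))) (BT.Fa_leaf (P := Itm.ok 206) (iqf tp612_c))))))))

/-- all words of the class have labels -/
theorem pokNF2AzAzEyA2Ax3xA2AyEzAzAzF : POK 206 xNF2AzAzEyA2Ax3xA2AyEzAzAzF :=
  y_pok (C0 := ceNF2AzAzEyA2Ax3xA2AyEzAzAzF) (C1 := coNF2AzAzEyA2Ax3xA2AyEzAzAzF) topNF2AzAzEyA2Ax3xA2AyEzAzAzF nbNF2AzAzEyA2Ax3xA2AyEzAzAzF (BT.Fa_of_all iiNF2AzAzEyA2Ax3xA2AyEzAzAzF_c)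
    (cyE_spec zeNF2AzAzEyA2Ax3xA2AyEzAzAzF_0)
    (cyO_spec zoNF2AzAzEyA2Ax3xA2AyEzAzAzF_0)
    iiNF2AzAzEyA2Ax3xA2AyEzAzAzF_k

theorem iiNF2AzE2A2Ax3xA2A2EzA2F_k : iiNF2AzE2A2Ax3xA2A2EzA2F.Fa (Itm.ok 206) := (BT.Fa_mk (BT.Fa_mk (BT.Fa_mk (BT.Fa_mk (BT.Fa_mk (BT.Fa_mk (BT.Fa_mk (BT.Fa_leaf (P := Itm.ok 206) (iqf tp613_c)) (BT.Fa_leaf (P := Itm.ok 206) (iqb tp461_c))) (BT.Fa_leaf (P := Itm.ok 206) (iqb tp295_c))) (BT.Fa_mk (BT.Fa_mk (BT.Fa_leaf (P := Itm.ok 206) (iqf tp292_c)) (BT.Fa_leaf (P := Itm.ok 206) (iqf tp424_c))) (BT.Fa_leaf (P := Itm.ok 206) (iqf tp326_c)))) (BT.Fa_mk (BT.Fa_mk (BT.Fa_mk (BT.Fa_leaf (P := Itm.ok 206) (iqb tp614_c)) (BT.Fa_leaf (P := Itm.ok 206) (iqb tp331_c))) (BT.Fa_leaf (P := Itm.ok 206) (iqb tp320_c))) (BT.Fa_mk (BT.Fa_leaf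 (P := Itm.ok 206) (iqf tp477_c)) (BT.Fa_leaf (P := Itm.ok 206) (iqb tp477_c))))) (BT.Fa_mk (BT.Fa_mk (BT.Fa_mk (BT.Fa_mk (BT.Fa_leaf (P := Itm.ok 206) (iqf tp342_c)) (BT.Fa_leaf (P := Itm.ok 206) (iqb tp334_c))) (BT.Fa_leaf (P := Itm.ok 206) (iqf tp319_c))) (BT.Fa_mk (BT.Fa_mk (BT.Fa_leaf (P := Itm.ok 206) (iqf tp615_c)) (BT.Fa_leaf (P := Itm.ok 206) (iqf tp578_c))) (BT.Fa_leaf (P := Itm.ok 206) (iqf tp372_c)))) (BT.Fa_mk (BT.Fa_mk (BT.Fa_mk (BT.Fa_leaf (P := Itm.ok 206) (iqb tp372_c)) (BT.Fa_leaf (P := Itm.ok 206) (iqf tp587_c))) (BT.Fa_leaf (P := Itm.ok 206) (iqf tp349_c))) (BT.Fa_mk (BT.Fa_leaf (P := Itm.ok 206) (iqb tp349_c)) (BT.Fa_leaf (P := Itm.ok 206) (iqf tp502_c)))))) (BT.Fa_mk (BT.Fa_mk (BT.Fa_mk (BT.Fa_mk (BT.Fa_mk (BT.Fa_leaf (P :=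 Itm.ok 206) (iqf tp299_c)) (BT.Fa_leaf (P := Itm.ok 206) (iqb tp299_c))) (BT.Fa_leaf (P := Itm.ok 206) (iqf tp329_c))) (BT.Fa_mk (BT.Fa_mk (BT.Fa_leaf (P := Itm.ok 206) (iqf tp337_c)) (BT.Fa_leaf (P := Itm.ok 206) (iqb tp337_c))) (BT.Fa_leaf (P := Itm.ok 206) (iqf tp338_c)))) (BT.Fa_mk (BT.Fa_mk (BT.Fa_mk (BT.Fa_leaf (P := Itm.ok 206) (iqb tp338_c)) (BT.Fa_leaf (P := Itm.ok 206) (iqf tp346_c))) (BT.Fa_leaf (P := Itm.ok 206) (iqb tp346_c))) (BT.Fa_mk (BT.Fa_leaf (P := Itm.ok 206) (iqb tp416_c)) (BT.Fa_leaf (P := Itm.ok 206) (iqf tp616_c))))) (BT.Fa_mk (BT.Fa_mk (BT.Fa_mk (BT.Fa_mk (BT.Fa_leaf (P := Itm.ok 206) (iqf tp350_c)) (BT.Fa_leaf (P := Itm.ok 206) (iqb tp361_c))) (BT.Fa_leaf (P := Itm.ok 206) (iqf tp520_c))) (BT.Fa_mk (BT.Fa_mk (BT.Fa_leaf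 (P := Itm.ok 206) (iqb tp520_c)) (BT.Fa_leaf (P := Itm.ok 206) (iqb tp327_c))) (BT.Fa_leaf (P := Itm.ok 206) (iqf tp617_c)))) (BT.Fa_mk (BT.Fa_mk (BT.Fa_mk (BT.Fa_leaf (P := Itm.ok 206) (iqf tp618_c)) (BT.Fa_leaf (P := Itm.ok 206) (iqf tp347_c))) (BT.Fa_leaf (P := Itm.ok 206) (iqb tp376_c))) (BT.Fa_mk (BT.Fa_leaf (P := Itm.ok 206) (iqf tp353_c)) (BT.Fa_leaf (P := Itm.ok 206) (iqb tp360_c))))))) (BT.Fa_mk (BT.Fa_mk (BT.Fa_mk (BT.Fa_mk (BT.Fa_mk (BT.Fa_mk (BT.Fa_leaf (P := Itm.ok 206) (iqb tp339_c)) (BT.Fa_leaf (P := Itm.ok 206) (iqb tp409_c))) (BT.Fa_leaf (P := Itm.ok 206) (iqb tp407_c))) (BT.Fa_mk (BT.Fa_mk (BT.Fa_leaf (P := Itm.ok 206) (iqb tp608_c)) (BT.Fa_leaf (P := Itm.ok 206) (iqb tp475_c))) (BT.Fa_leaf (P := Itm.ok 206) (iqf tp619_c)))) (BT.Fa_mk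 (BT.Fa_mk (BT.Fa_mk (BT.Fa_leaf (P := Itm.ok 206) (iqf tp465_c)) (BT.Fa_leaf (P := Itm.ok 206) (iqf tp366_c))) (BT.Fa_leaf (P := Itm.ok 206) (iqf tp431_c))) (BT.Fa_mk (BT.Fa_leaf (P := Itm.ok 206) (iqb tp620_c)) (BT.Fa_leaf (P := Itm.ok 206) (iqf tp478_c))))) (BT.Fa_mk (BT.Fa_mk (BT.Fa_mk (BT.Fa_mk (BT.Fa_leaf (P := Itm.ok 206) (iqb tp363_c)) (BT.Fa_leaf (P := Itm.ok 206) (iqb tp621_c))) (BT.Fa_leaf (P := Itm.ok 206) (iqb tp622_c))) (BT.Fa_mk (BT.Fa_mk (BT.Fa_leaf (P := Itm.ok 206) (iqb tp623_c)) (BT.Fa_leaf (P := Itm.ok 206) (iqb tp445_c))) (BT.Fa_leaf (P := Itm.ok 206) (iqf tp367_c)))) (BT.Fa_mk (BT.Fa_mk (BT.Fa_mk (BT.Fa_leaf (P := Itm.ok 206) (iqf tp351_c)) (BT.Fa_leaf (P := Itm.ok 206) (iqf tp475_c))) (BT.Fa_leaf (P := Itm.ok 206) (iqf tp624_c)))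 (BT.Fa_mk (BT.Fa_leaf (P := Itm.ok 206) (iqf tp368_c)) (BT.Fa_leaf (P := Itm.ok 206) (iqb tp413_c)))))) (BT.Fa_mk (BT.Fa_mk (BT.Fa_mk (BT.Fa_mk (BT.Fa_mk (BT.Fa_leaf (P := Itm.ok 206) (iqf tp369_c)) (BT.Fa_leaf (P := Itm.ok 206) (iqf tp415_c))) (BT.Fa_leaf (P := Itm.ok 206) (iqb tp373_c))) (BT.Fa_mk (BT.Fa_mk (BT.Fa_leaf (P := Itm.ok 206) (iqb tp408_c)) (BT.Fa_leaf (P := Itm.ok 206) (iqf tp386_c))) (BT.Fa_leaf (P := Itm.ok 206) (iqf tp352_c)))) (BT.Fa_mk (BT.Fa_mk (BT.Fa_mk (BT.Fa_leaf (P := Itm.ok 206) (iqf tp410_c)) (BT.Fa_leaf (P := Itm.ok 206) (iqf tp623_c))) (BT.Fa_leaf (P := Itm.ok 206) (iqf tp328_c))) (BT.Fa_mk (BT.Fa_leaf (P := Itm.ok 206) (iqf tp512_c)) (BT.Fa_leaf (P := Itm.ok 206) (iqb tp513_c))))) (BT.Fa_mk (BT.Fa_mk (BT.Fa_mk (BT.Fa_mk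 (BT.Fa_leaf (P := Itm.ok 206) (iqf tp625_c)) (BT.Fa_leaf (P := Itm.ok 206) (iqf tp626_c))) (BT.Fa_leaf (P := Itm.ok 206) (iqb tp378_c))) (BT.Fa_mk (BT.Fa_mk (BT.Fa_leaf (P := Itm.ok 206) (iqb tp294_c)) (BT.Fa_leaf (P := Itm.ok 206) (iqb tp380_c))) (BT.Fa_leaf (P := Itm.ok 206) (iqb tp290_c)))) (BT.Fa_mk (BT.Fa_mk (BT.Fa_mk (BT.Fa_leaf (P := Itm.ok 206) (iqb tp522_c)) (BT.Fa_leaf (P := Itm.ok 206) (iqf tp354_c))) (BT.Fa_leaf (P := Itm.ok 206) (iqb tp369_c))) (BT.Fa_mk (BT.Fa_leaf (P := Itm.ok 206) (iqb tp627_c)) (BT.Fa_leaf (P := Itm.ok 206) (iqb tp628_c))))))))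

/-- all words of the class have labels -/
theorem pokNF2AzE2A2Ax3xA2A2EzA2F : POK 206 xNF2AzE2A2Ax3xA2A2EzA2F :=
  y_pok (C0 := ceNF2AzE2A2Ax3xA2A2EzA2F) (C1 := coNF2AzE2A2Ax3xA2A2EzA2F) topNF2AzE2A2Ax3xA2A2EzA2F nbNF2AzE2A2Ax3xA2A2EzA2F (BT.Fa_of_all iiNF2AzE2A2Ax3xA2A2EzA2F_c)
    (cyE_spec zeNF2AzE2A2Ax3xA2A2EzA2F_0)
    (cyO_spec zoNF2AzE2A2Ax3xA2A2EzA2F_0)
    iiNF2AzE2A2Ax3xA2A2EzA2F_k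


end MPb6P
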