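import Pool.Agent.Lib.MP_b6d339_lc.Cw.YF2AzE2A2Ax3xA2AyEzAyF
import Pool.Agent.Lib.MP_b6d339_lc.Cw.XL
import Pool.Agent.Lib.MP_b6d339_lc.Cw.T10
import Pool.Agent.Lib.MP_b6d339_lc.Cw.T11
import Pool.Agent.Lib.MP_b6d339_lc.Cw.T3
import Pool.Agent.Lib.MP_b6d339_lc.Cw.T4
import Pool.Agent.Lib.MP_b6d339_lc.Cw.T5
import Pool.Agent.Lib.MP_b6d339_lc.Cw.T6
import Pool.Agent.Lib.MP_b6d339_lc.Cw.T7
import Pool.Agent.Lib.MP_b6d339_lc.Cw.T8
import Pool.Agent.Lib.MP_b6d339_lc.Cw.T9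

/-!
# Erdős 592, three levels: items
-/

namespace MPb6P

noncomputable def iiNF2AzE2A2Ax3xA2AyEzAyF : BT Itm := (.node (.node (.node (.node (.node (.node (.node (.node (.node (.leaf (.bwd 0 23 tp292.df)) (.leaf (.bwd 23 11 tp797.df))) (.leaf (.fwd 34 41 tp798.df))) (.node (.leaf (.fwd 75 21 tp628.df)) (.leaf (.fwd 96 25 tp361.df)))) (.node (.node (.leaf (.fwd 121 38 tp362.df)) (.leaf (.bwd 159 31 tp799.df))) (.node (.leaf (.fwd 190 23 tp366.df)) (.leaf (.fwd 213 31 tp346.df))))) (.node (.node (.node (.leaf (.bwd 244 38 tp800.df)) (.leaf (.fwd 282 31 tp640.df))) (.node (.leaf (.bwd 313 37 tp358.df)) (.leaf (.fwd 350 43 tp705.df)))) (.node (.node (.leaf (.bwd 393 23 tp801.df)) (.leaf (.bwd 416 26 tp367.df))) (.node (.leaf (.bwd 442 23 tp366.df)) (.leaf (.bwd 465 35 tp644.df)))))) (.node (.node (.node (.node (.leaf (.fwd 500 34 tp802.df)) (.leaf (.bwd 534 20 tp450.df))) (.node (.leaf (.fwd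 554 34 tp803.df)) (.leaf (.bwd 588 34 tp804.df)))) (.node (.node (.leaf (.bwd 622 22 tp408.df)) (.leaf (.bwd 644 14 tp805.df))) (.node (.leaf (.bwd 658 41 tp534.df)) (.leaf (.bwd 699 22 tp502.df))))) (.node (.node (.node (.leaf (.bwd 721 17 tp337.df)) (.leaf (.fwd 738 28 tp806.df))) (.node (.leaf (.fwd 766 30 tp299.df)) (.leaf (.fwd 796 26 tp807.df)))) (.node (.node (.leaf (.bwd 822 26 tp647.df)) (.leaf (.bwd 848 27 tp808.df))) (.node (.leaf (.bwd 875 27 tp338.df)) (.leaf (.bwd 902 23 tp809.df))))))) (.node (.node (.node (.node (.node (.node (.leaf (.fwd 925 24 tp810.df)) (.leaf (.bwd 949 16 tp649.df))) (.leaf (.fwd 965 28 tp811.df))) (.node (.leaf (.fwd 993 18 tp812.df)) (.leaf (.bwd 1011 25 tp488.df)))) (.node (.node (.leaf (.fwd 1036 23 tp813.df)) (.leaf (.bwd 1059 24 tp719.df))) (.node (.leaf (.bwd 1083 26 tp654.df)) (.leaf (.bwd 1109 14 tp633.df))))) (.node (.node (.node (.leaf (.fwd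 1123 22 tp814.df)) (.leaf (.bwd 1145 33 tp783.df))) (.node (.leaf (.bwd 1178 21 tp656.df)) (.leaf (.fwd 1199 27 tp815.df)))) (.node (.node (.leaf (.fwd 1226 20 tp816.df)) (.leaf (.bwd 1246 18 tp462.df))) (.node (.leaf (.fwd 1264 22 tp817.df)) (.leaf (.fwd 1286 29 tp818.df)))))) (.node (.node (.node (.node (.leaf (.fwd 1315 14 tp819.df)) (.leaf (.fwd 1329 29 tp329.df))) (.node (.leaf (.fwd 1358 27 tp820.df)) (.leaf (.bwd 1385 25 tp821.df)))) (.node (.node (.leaf (.fwd 1410 32 tp822.df)) (.leaf (.bwd 1442 20 tp823.df))) (.node (.leaf (.bwd 1462 26 tp514.df)) (.leaf (.fwd 1488 38 tp824.df))))) (.node (.node (.node (.leaf (.fwd 1526 39 tp345.df)) (.leaf (.fwd 1565 37 tp825.df))) (.node (.leaf (.fwd 1602 31 tp826.df)) (.leaf (.fwd 1633 22 tp827.df)))) (.node (.node (.leaf (.fwd 1655 20 tp450.df)) (.leaf (.fwd 1675 19 tp828.df))) (.node (.leaf (.fwd 1694 35 tp472.df)) (.leaf (.fwd 1729 37 tp659.df))))))))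 (.node (.node (.node (.node (.node (.node (.node (.leaf (.fwd 1766 21 tp829.df)) (.leaf (.fwd 1787 29 tp343.df))) (.leaf (.fwd 1816 36 tp830.df))) (.node (.leaf (.bwd 1852 27 tp831.df)) (.leaf (.bwd 1879 29 tp832.df)))) (.node (.node (.leaf (.fwd 1908 41 tp671.df)) (.leaf (.bwd 1949 49 tp833.df))) (.node (.leaf (.fwd 1998 27 tp834.df)) (.leaf (.fwd 2025 19 tp835.df))))) (.node (.node (.node (.leaf (.fwd 2044 15 tp595.df)) (.leaf (.fwd 2059 31 tp530.df))) (.node (.leaf (.fwd 2090 24 tp836.df)) (.leaf (.fwd 2114 34 tp670.df)))) (.node (.node (.leaf (.fwd 2148 35 tp837.df)) (.leaf (.bwd 2183 34 tp666.df))) (.node (.leaf (.fwd 2217 52 tp695.df)) (.leaf (.fwd 2269 22 tp838.df)))))) (.node (.node (.node (.node (.leaf (.bwd 2291 24 tp589.df)) (.leaf (.fwd 2315 28 tp342.df))) (.node (.leaf (.fwd 2343 34 tp839.df)) (.leaf (.fwd 2377 21 tp762.df)))) (.node (.node (.leaf (.fwd 2398 27 tp562.df)) (.leaf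 (.bwd 2425 29 tp398.df))) (.node (.leaf (.fwd 2454 35 tp352.df)) (.leaf (.fwd 2489 39 tp763.df))))) (.node (.node (.node (.leaf (.fwd 2528 25 tp840.df)) (.leaf (.fwd 2553 51 tp406.df))) (.node (.leaf (.fwd 2604 29 tp675.df)) (.leaf (.fwd 2633 33 tp740.df)))) (.node (.node (.leaf (.fwd 2666 39 tp678.df)) (.leaf (.bwd 2705 28 tp841.df))) (.node (.leaf (.bwd 2733 40 tp416.df)) (.leaf (.fwd 2773 27 tp341.df))))))) (.node (.node (.node (.node (.node (.node (.leaf (.fwd 2800 30 tp617.df)) (.leaf (.bwd 2830 39 tp678.df))) (.leaf (.fwd 2869 36 tp641.df))) (.node (.leaf (.bwd 2905 32 tp842.df)) (.leaf (.fwd 2937 38 tp587.df)))) (.node (.node (.leaf (.bwd 2975 37 tp372.df)) (.leaf (.bwd 3012 43 tp664.df))) (.node (.leaf (.fwd 3055 34 tp843.df)) (.leaf (.bwd 3089 28 tp844.df))))) (.node (.node (.node (.leaf (.fwd 3117 40 tp434.df)) (.leaf (.bwd 3157 27 tp845.df))) (.node (.leaf (.bwd 3184 29 tp504.df))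 (.leaf (.bwd 3213 28 tp711.df)))) (.node (.node (.leaf (.bwd 3241 22 tp378.df)) (.leaf (.fwd 3263 29 tp846.df))) (.node (.leaf (.fwd 3292 23 tp679.df)) (.leaf (.fwd 3315 38 tp847.df)))))) (.node (.node (.node (.node (.leaf (.fwd 3353 36 tp848.df)) (.leaf (.bwd 3389 32 tp533.df))) (.node (.leaf (.fwd 3421 44 tp849.df)) (.leaf (.bwd 3465 43 tp529.df)))) (.node (.node (.leaf (.fwd 3508 31 tp850.df)) (.leaf (.bwd 3539 39 tp590.df))) (.node (.leaf (.fwd 3578 29 tp851.df)) (.leaf (.fwd 3607 35 tp638.df))))) (.node (.node (.node (.leaf (.bwd 3642 37 tp576.df)) (.leaf (.fwd 3679 40 tp852.df))) (.node (.leaf (.bwd 3719 32 tp703.df)) (.leaf (.bwd 3751 40 tp351.df)))) (.node (.node (.leaf (.bwd 3791 39 tp853.df)) (.leaf (.fwd 3830 33 tp854.df))) (.node (.leaf (.fwd 3863 34 tp855.df)) (.leaf (.bwd 3897 39 tp623.df))))))))) (.node (.node (.node (.node (.node (.node (.node (.node (.leaf (.fwd 3936 28 tp385.df))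 (.leaf (.bwd 3964 25 tp856.df))) (.leaf (.bwd 3989 32 tp402.df))) (.node (.leaf (.fwd 4021 29 tp597.df)) (.leaf (.fwd 4050 29 tp588.df)))) (.node (.node (.leaf (.bwd 4079 35 tp359.df)) (.leaf (.fwd 4114 32 tp447.df))) (.node (.leaf (.bwd 4146 32 tp857.df)) (.leaf (.bwd 4178 37 tp376.df))))) (.node (.node (.node (.leaf (.fwd 4215 35 tp444.df)) (.leaf (.fwd 4250 29 tp694.df))) (.node (.leaf (.bwd 4279 34 tp858.df)) (.leaf (.bwd 4313 22 tp859.df)))) (.node (.node (.leaf (.bwd 4335 38 tp591.df)) (.leaf (.bwd 4373 44 tp780.df))) (.node (.leaf (.bwd 4417 26 tp700.df)) (.leaf (.bwd 4443 29 tp860.df)))))) (.node (.node (.node (.node (.leaf (.fwd 4472 33 tp861.df)) (.leaf (.bwd 4505 27 tp341.df))) (.node (.leaf (.bwd 4532 34 tp448.df)) (.leaf (.fwd 4566 37 tp532.df)))) (.node (.node (.leaf (.fwd 4603 38 tp348.df)) (.leaf (.bwd 4641 31 tp349.df))) (.node (.leaf (.fwd 4672 36 tp702.df)) (.leaf (.fwd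 4708 31 tp713.df))))) (.node (.node (.node (.leaf (.bwd 4739 32 tp862.df)) (.leaf (.bwd 4771 31 tp863.df))) (.node (.leaf (.fwd 4802 39 tp682.df)) (.leaf (.fwd 4841 28 tp665.df)))) (.node (.node (.leaf (.bwd 4869 30 tp864.df)) (.leaf (.bwd 4899 26 tp865.df))) (.node (.leaf (.fwd 4925 27 tp696.df)) (.leaf (.bwd 4952 28 tp342.df))))))) (.node (.node (.node (.node (.node (.node (.leaf (.fwd 4980 32 tp866.df)) (.leaf (.bwd 5012 37 tp629.df))) (.leaf (.fwd 5049 31 tp710.df))) (.node (.leaf (.bwd 5080 33 tp651.df)) (.leaf (.bwd 5113 43 tp867.df)))) (.node (.node (.leaf (.fwd 5156 38 tp868.df)) (.leaf (.fwd 5194 37 tp714.df))) (.node (.leaf (.bwd 5231 38 tp869.df)) (.leaf (.fwd 5269 28 tp716.df))))) (.node (.node (.node (.leaf (.fwd 5297 34 tp870.df)) (.leaf (.fwd 5331 34 tp871.df))) (.node (.leaf (.bwd 5365 28 tp555.df)) (.leaf (.fwd 5393 48 tp872.df)))) (.node (.node (.leaf (.bwd 5441 44 tp718.df))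 (.leaf (.bwd 5485 40 tp717.df))) (.node (.leaf (.fwd 5525 25 tp873.df)) (.leaf (.bwd 5550 34 tp642.df)))))) (.node (.node (.node (.node (.leaf (.fwd 5584 36 tp874.df)) (.leaf (.fwd 5620 29 tp875.df))) (.node (.leaf (.fwd 5649 30 tp697.df)) (.leaf (.bwd 5679 23 tp723.df)))) (.node (.node (.leaf (.bwd 5702 25 tp876.df)) (.leaf (.fwd 5727 29 tp726.df))) (.node (.leaf (.bwd 5756 25 tp745.df)) (.leaf (.bwd 5781 19 tp877.df))))) (.node (.node (.node (.leaf (.fwd 5800 51 tp660.df)) (.leaf (.bwd 5851 36 tp685.df))) (.node (.leaf (.fwd 5887 44 tp878.df)) (.leaf (.fwd 5931 48 tp879.df)))) (.node (.node (.leaf (.fwd 5979 31 tp880.df)) (.leaf (.bwd 6010 20 tp683.df))) (.node (.leaf (.fwd 6030 26 tp882.df)) (.leaf (.fwd 6056 22 tp883.df)))))))) (.node (.node (.node (.node (.node (.node (.node (.leaf (.fwd 6078 35 tp359.df)) (.leaf (.fwd 6113 33 tp884.df))) (.leaf (.fwd 6146 31 tp885.df))) (.node (.leaf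 (.fwd 6177 26 tp886.df)) (.leaf (.fwd 6203 8 tp887.df)))) (.node (.node (.leaf (.fwd 6211 34 tp888.df)) (.leaf (.bwd 6245 26 tp889.df))) (.node (.leaf (.bwd 6271 36 tp890.df)) (.leaf (.fwd 6307 24 tp891.df))))) (.node (.node (.node (.leaf (.fwd 6331 29 tp892.df)) (.leaf (.fwd 6360 30 tp571.df))) (.node (.leaf (.bwd 6390 17 tp893.df)) (.leaf (.bwd 6407 35 tp894.df)))) (.node (.node (.leaf (.fwd 6442 37 tp895.df)) (.leaf (.fwd 6479 31 tp896.df))) (.node (.leaf (.bwd 6510 24 tp897.df)) (.leaf (.fwd 6534 17 tp898.df)))))) (.node (.node (.node (.node (.leaf (.fwd 6551 34 tp899.df)) (.leaf (.bwd 6585 33 tp756.df))) (.node (.leaf (.bwd 6618 19 tp828.df)) (.leaf (.bwd 6637 28 tp344.df)))) (.node (.node (.leaf (.fwd 6665 46 tp558.df)) (.leaf (.fwd 6711 26 tp900.df))) (.node (.leaf (.fwd 6737 26 tp901.df)) (.leaf (.fwd 6763 37 tp902.df))))) (.node (.node (.node (.leaf (.bwd 6800 34 tp903.df)) (.leaf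 (.fwd 6834 28 tp904.df))) (.node (.leaf (.fwd 6862 43 tp905.df)) (.leaf (.bwd 6905 26 tp906.df)))) (.node (.node (.leaf (.fwd 6931 31 tp907.df)) (.leaf (.fwd 6962 32 tp402.df))) (.node (.leaf (.fwd 6994 31 tp732.df)) (.leaf (.fwd 7025 27 tp774.df))))))) (.node (.node (.node (.node (.node (.node (.leaf (.fwd 7052 32 tp908.df)) (.leaf (.fwd 7084 26 tp700.df))) (.leaf (.fwd 7110 38 tp910.df))) (.node (.leaf (.bwd 7148 38 tp911.df)) (.leaf (.fwd 7186 20 tp912.df)))) (.node (.node (.leaf (.bwd 7206 28 tp551.df)) (.leaf (.fwd 7234 31 tp913.df))) (.node (.leaf (.fwd 7265 57 tp915.df)) (.leaf (.bwd 7322 19 tp916.df))))) (.node (.node (.node (.leaf (.bwd 7341 44 tp917.df)) (.leaf (.fwd 7385 26 tp918.df))) (.node (.leaf (.bwd 7411 33 tp919.df)) (.leaf (.fwd 7444 45 tp631.df)))) (.node (.node (.leaf (.fwd 7489 18 tp920.df)) (.leaf (.bwd 7507 21 tp655.df))) (.node (.leaf (.bwd 7528 22 tp921.df)) (.leaf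 (.fwd 7550 43 tp454.df)))))) (.node (.node (.node (.node (.leaf (.fwd 7593 42 tp922.df)) (.leaf (.fwd 7635 31 tp923.df))) (.node (.leaf (.fwd 7666 33 tp924.df)) (.leaf (.fwd 7699 28 tp925.df)))) (.node (.node (.leaf (.fwd 7727 30 tp926.df)) (.leaf (.fwd 7757 28 tp927.df))) (.node (.leaf (.bwd 7785 29 tp928.df)) (.leaf (.fwd 7814 25 tp929.df))))) (.node (.node (.node (.leaf (.fwd 7839 34 tp930.df)) (.leaf (.bwd 7873 34 tp931.df))) (.node (.leaf (.fwd 7907 32 tp932.df)) (.leaf (.bwd 7939 38 tp933.df)))) (.node (.node (.leaf (.bwd 7977 36 tp634.df)) (.leaf (.fwd 8013 34 tp934.df))) (.node (.leaf (.fwd 8047 34 tp782.df)) (.leaf (.fwd 8081 31 tp770.df))))))))))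

theorem iiNF2AzE2A2Ax3xA2AyEzAyF_c : iiNF2AzE2A2Ax3xA2AyEzAyF.all (itB (ng 57 nnNF2AzE2A2Ax3xA2AyEzAyF)) = true := by decide +kernel
theorem nbNF2AzE2A2Ax3xA2AyEzAyF : nbB 57 8169 nnNF2AzE2A2Ax3xA2AyEzAyF = true := by decide +kernel
theorem topNF2AzE2A2Ax3xA2AyEzAyF : topY 8169 ttNF2AzE2A2Ax3xA2AyEzAyF ceNF2AzE2A2Ax3xA2AyEzAyF xNF2AzE2A2Ax3xA2AyEzAyF iiNF2AzE2A2Ax3xA2AyEzAyF = true := by decide +kernel

end MPb6P
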