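import Pool.Agent.Lib.MP_b6d339_lc.Cw.YF2AzE2A2Ax3xA2AyEzAzF
import Pool.Agent.Lib.MP_b6d339_lc.Cw.XL
import Pool.Agent.Lib.MP_b6d339_lc.Cw.T10
import Pool.Agent.Lib.MP_b6d339_lc.Cw.T11
import Pool.Agent.Lib.MP_b6d339_lc.Cw.T3
import Pool.Agent.Lib.MP_b6d339_lc.Cw.T4
import Pool.Agent.Lib.MP_b6d339_lc.Cw.T5
import Pool.Agent.Lib.MP_b6d339_lc.Cw.T6
import Pool.Agent.Lib.MP_b6d339_lc.Cw.T7
import Pool.Agent.Lib.MP_b6d339_lc.Cw.T8

/-!
# Erdős 592, three levels: items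
-/

namespace MPb6P

noncomputable def iiNF2AzE2A2Ax3xA2AyEzAzF : BT Itm := (.node (.node (.node (.node (.node (.node (.node (.leaf (.fwd 0 28 tp388.df)) (.leaf (.fwd 28 25 tp319.df))) (.leaf (.fwd 53 23 tp292.df))) (.node (.leaf (.bwd 76 20 tp324.df)) (.leaf (.fwd 96 19 tp326.df)))) (.node (.node (.node (.leaf (.bwd 115 19 tp326.df)) (.leaf (.fwd 134 21 tp935.df))) (.leaf (.fwd 155 24 tp936.df))) (.node (.leaf (.fwd 179 29 tp329.df)) (.leaf (.bwd 208 27 tp331.df))))) (.node (.node (.node (.node (.leaf (.bwd 235 23 tp426.df)) (.leaf (.fwd 258 18 tp333.df))) (.leaf (.bwd 276 20 tp614.df))) (.node (.leaf (.fwd 296 33 tp475.df)) (.leaf (.fwd 329 22 tp334.df)))) (.node (.node (.node (.leaf (.bwd 351 22 tp334.df)) (.leaf (.bwd 373 26 tp419.df))) (.leaf (.bwd 399 17 tp337.df))) (.node (.leaf (.bwd 416 27 tp338.df)) (.leaf (.fwd 443 26 tp937.df)))))) (.node (.node (.node (.node (.node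 (.leaf (.bwd 469 32 tp340.df)) (.leaf (.fwd 501 28 tp342.df))) (.leaf (.fwd 529 23 tp399.df))) (.node (.leaf (.fwd 552 32 tp369.df)) (.leaf (.bwd 584 25 tp433.df)))) (.node (.node (.node (.leaf (.fwd 609 30 tp299.df)) (.leaf (.bwd 639 19 tp493.df))) (.leaf (.fwd 658 29 tp597.df))) (.node (.leaf (.fwd 687 32 tp447.df)) (.leaf (.bwd 719 35 tp403.df))))) (.node (.node (.node (.node (.leaf (.fwd 754 39 tp345.df)) (.leaf (.fwd 793 31 tp346.df))) (.leaf (.fwd 824 19 tp404.df))) (.node (.leaf (.fwd 843 25 tp347.df)) (.leaf (.fwd 868 38 tp348.df)))) (.node (.node (.node (.leaf (.bwd 906 40 tp416.df)) (.leaf (.fwd 946 25 tp312.df))) (.leaf (.fwd 971 19 tp405.df))) (.node (.leaf (.bwd 990 26 tp654.df)) (.leaf (.fwd 1016 51 tp406.df))))))) (.node (.node (.node (.node (.node (.node (.leaf (.fwd 1067 32 tp616.df)) (.leaf (.fwd 1099 24 tp648.df))) (.leaf (.fwd 1123 23 tp938.df))) (.node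 (.leaf (.fwd 1146 40 tp351.df)) (.leaf (.bwd 1186 24 tp354.df)))) (.node (.node (.node (.leaf (.bwd 1210 13 tp355.df)) (.leaf (.fwd 1223 38 tp356.df))) (.leaf (.fwd 1261 29 tp939.df))) (.node (.leaf (.bwd 1290 27 tp845.df)) (.leaf (.bwd 1317 22 tp408.df))))) (.node (.node (.node (.node (.leaf (.fwd 1339 33 tp861.df)) (.leaf (.bwd 1372 37 tp358.df))) (.leaf (.fwd 1409 29 tp689.df))) (.node (.leaf (.bwd 1438 35 tp359.df)) (.leaf (.bwd 1473 35 tp360.df)))) (.node (.node (.node (.leaf (.fwd 1508 25 tp361.df)) (.leaf (.bwd 1533 25 tp361.df))) (.leaf (.fwd 1558 48 tp375.df))) (.node (.leaf (.fwd 1606 38 tp362.df)) (.leaf (.bwd 1644 29 tp413.df)))))) (.node (.node (.node (.node (.node (.leaf (.bwd 1673 33 tp363.df)) (.leaf (.fwd 1706 44 tp364.df))) (.leaf (.fwd 1750 31 tp386.df))) (.node (.leaf (.fwd 1781 35 tp352.df)) (.leaf (.fwd 1816 25 tp442.df)))) (.node (.node (.node (.leaf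 (.bwd 1841 31 tp940.df)) (.leaf (.fwd 1872 24 tp941.df))) (.leaf (.bwd 1896 21 tp295.df))) (.node (.leaf (.bwd 1917 33 tp942.df)) (.leaf (.bwd 1950 25 tp613.df))))) (.node (.node (.node (.node (.leaf (.bwd 1975 23 tp663.df)) (.leaf (.fwd 1998 20 tp614.df))) (.leaf (.fwd 2018 9 tp943.df))) (.node (.leaf (.bwd 2027 29 tp944.df)) (.leaf (.bwd 2056 27 tp567.df)))) (.node (.node (.node (.leaf (.fwd 2083 32 tp539.df)) (.leaf (.bwd 2115 29 tp398.df))) (.leaf (.fwd 2144 25 tp945.df))) (.node (.leaf (.fwd 2169 16 tp946.df)) (.leaf (.bwd 2185 23 tp387.df))))))))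

theorem iiNF2AzE2A2Ax3xA2AyEzAzF_c : iiNF2AzE2A2Ax3xA2AyEzAzF.all (itB (ng 51 nnNF2AzE2A2Ax3xA2AyEzAzF)) = true := by decide +kernel
theorem nbNF2AzE2A2Ax3xA2AyEzAzF : nbB 51 2259 nnNF2AzE2A2Ax3xA2AyEzAzF = true := by decide +kernel
theorem topNF2AzE2A2Ax3xA2AyEzAzF : topY 2259 ttNF2AzE2A2Ax3xA2AyEzAzF ceNF2AzE2A2Ax3xA2AyEzAzF xNF2AzE2A2Ax3xA2AyEzAzF iiNF2AzE2A2Ax3xA2AyEzAzF = true := by decide +kernel

end MPb6P
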