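import Pool.Agent.Lib.MP_b6d339_lc.Cw.YF2AzEyA2Ax3xA2A2EzAyF
import Pool.Agent.Lib.MP_b6d339_lc.Cw.XL
import Pool.Agent.Lib.MP_b6d339_lc.Cw.T10
import Pool.Agent.Lib.MP_b6d339_lc.Cw.T11
import Pool.Agent.Lib.MP_b6d339_lc.Cw.T12
import Pool.Agent.Lib.MP_b6d339_lc.Cw.T3
import Pool.Agent.Lib.MP_b6d339_lc.Cw.T4
import Pool.Agent.Lib.MP_b6d339_lc.Cw.T5
import Pool.Agent.Lib.MP_b6d339_lc.Cw.T6
import Pool.Agent.Lib.MP_b6d339_lc.Cw.T7
import Pool.Agent.Lib.MP_b6d339_lc.Cw.T8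
import Pool.Agent.Lib.MP_b6d339_lc.Cw.T9

/-!
# Erdős 592, three levels: items
-/

namespace MPb6P

noncomputable def iiNF2AzEyA2Ax3xA2A2EzAyF : BT Itm := (.node (.node (.node (.node (.node (.node (.node (.node (.leaf (.bwd 0 25 tp947.df)) (.leaf (.bwd 25 18 tp461.df))) (.leaf (.bwd 43 32 tp447.df))) (.node (.node (.leaf (.bwd 75 32 tp948.df)) (.leaf (.fwd 107 23 tp292.df))) (.leaf (.bwd 130 20 tp324.df)))) (.node (.node (.node (.leaf (.bwd 150 26 tp647.df)) (.leaf (.bwd 176 18 tp462.df))) (.leaf (.fwd 194 21 tp424.df))) (.node (.leaf (.fwd 215 19 tp326.df)) (.leaf (.bwd 234 19 tp326.df))))) (.node (.node (.node (.node (.leaf (.bwd 253 23 tp320.df)) (.leaf (.bwd 276 29 tp477.df))) (.leaf (.bwd 305 43 tp529.df))) (.node (.leaf (.fwd 348 28 tp342.df)) (.leaf (.bwd 376 22 tp334.df)))) (.node (.node (.node (.leaf (.fwd 398 32 tp368.df)) (.leaf (.fwd 430 28 tp806.df))) (.leaf (.bwd 458 26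 tp367.df))) (.node (.leaf (.fwd 484 31 tp949.df)) (.leaf (.fwd 515 30 tp698.df)))))) (.node (.node (.node (.node (.node (.leaf (.fwd 545 27 tp341.df)) (.leaf (.fwd 572 24 tp950.df))) (.leaf (.fwd 596 19 tp405.df))) (.node (.leaf (.fwd 615 19 tp404.df)) (.leaf (.bwd 634 22 tp378.df)))) (.node (.node (.node (.leaf (.fwd 656 40 tp351.df)) (.leaf (.fwd 696 28 tp553.df))) (.leaf (.bwd 724 37 tp372.df))) (.node (.leaf (.bwd 761 31 tp349.df)) (.leaf (.bwd 792 32 tp402.df))))) (.node (.node (.node (.node (.leaf (.bwd 824 42 tp775.df)) (.leaf (.fwd 866 23 tp565.df))) (.leaf (.bwd 889 24 tp589.df))) (.node (.leaf (.bwd 913 34 tp535.df)) (.leaf (.fwd 947 30 tp299.df)))) (.node (.node (.node (.leaf (.fwd 977 31 tp294.df)) (.leaf (.fwd 1008 13 tp951.df))) (.leaf (.bwd 1021 39 tp952.df))) (.node (.leaf (.bwd 1060 23 tp663.df)) (.leaf (.bwd 1083 11 tp290.df))))))) (.node (.node (.node (.node (.node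 (.node (.leaf (.fwd 1094 29 tp329.df)) (.leaf (.bwd 1123 17 tp337.df))) (.leaf (.bwd 1140 27 tp338.df))) (.node (.node (.leaf (.fwd 1167 32 tp369.df)) (.leaf (.fwd 1199 31 tp346.df))) (.leaf (.bwd 1230 40 tp416.df)))) (.node (.node (.node (.leaf (.bwd 1270 34 tp448.df)) (.leaf (.fwd 1304 36 tp350.df))) (.leaf (.fwd 1340 35 tp352.df))) (.node (.leaf (.bwd 1375 28 tp373.df)) (.leaf (.bwd 1403 22 tp408.df))))) (.node (.node (.node (.node (.leaf (.bwd 1425 47 tp449.df)) (.leaf (.bwd 1472 25 tp361.df))) (.leaf (.fwd 1497 35 tp472.df))) (.node (.leaf (.bwd 1532 26 tp654.df)) (.leaf (.bwd 1558 29 tp413.df)))) (.node (.node (.node (.leaf (.bwd 1587 28 tp579.df)) (.leaf (.fwd 1615 27 tp321.df))) (.leaf (.bwd 1642 19 tp327.df))) (.node (.leaf (.bwd 1661 36 tp953.df)) (.leaf (.fwd 1697 23 tp335.df)))))) (.node (.node (.node (.node (.node (.leaf (.bwd 1720 56 tp954.df)) (.leaf (.bwd 1776 29 tp955.df)))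 (.leaf (.fwd 1805 37 tp659.df))) (.node (.leaf (.fwd 1842 29 tp956.df)) (.leaf (.fwd 1871 38 tp824.df)))) (.node (.node (.node (.leaf (.fwd 1909 59 tp707.df)) (.leaf (.fwd 1968 38 tp362.df))) (.leaf (.fwd 2006 26 tp370.df))) (.node (.leaf (.fwd 2032 31 tp640.df)) (.leaf (.fwd 2063 18 tp662.df))))) (.node (.node (.node (.node (.leaf (.fwd 2081 28 tp957.df)) (.leaf (.fwd 2109 36 tp958.df))) (.leaf (.fwd 2145 41 tp959.df))) (.node (.leaf (.bwd 2186 36 tp960.df)) (.leaf (.fwd 2222 19 tp401.df)))) (.node (.node (.node (.leaf (.fwd 2241 27 tp961.df)) (.leaf (.bwd 2268 29 tp398.df))) (.leaf (.fwd 2297 25 tp347.df))) (.node (.leaf (.bwd 2322 37 tp376.df)) (.leaf (.bwd 2359 35 tp360.df)))))))) (.node (.node (.node (.node (.node (.node (.node (.leaf (.bwd 2394 27 tp409.df)) (.leaf (.fwd 2421 20 tp443.df))) (.leaf (.bwd 2441 41 tp962.df))) (.node (.node (.leaf (.fwd 2482 35 tp638.df)) (.leaf (.fwd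 2517 40 tp963.df))) (.leaf (.fwd 2557 51 tp406.df)))) (.node (.node (.node (.leaf (.fwd 2608 36 tp964.df)) (.leaf (.fwd 2644 40 tp434.df))) (.leaf (.bwd 2684 50 tp455.df))) (.node (.leaf (.bwd 2734 33 tp651.df)) (.leaf (.fwd 2767 16 tp427.df))))) (.node (.node (.node (.node (.leaf (.fwd 2783 25 tp602.df)) (.leaf (.fwd 2808 17 tp456.df))) (.leaf (.fwd 2825 23 tp366.df))) (.node (.leaf (.bwd 2848 23 tp366.df)) (.leaf (.fwd 2871 18 tp566.df)))) (.node (.node (.node (.leaf (.bwd 2889 38 tp965.df)) (.leaf (.bwd 2927 46 tp632.df))) (.leaf (.fwd 2973 28 tp394.df))) (.node (.leaf (.fwd 3001 22 tp966.df)) (.leaf (.fwd 3023 19 tp478.df)))))) (.node (.node (.node (.node (.node (.leaf (.fwd 3042 30 tp967.df)) (.leaf (.bwd 3072 33 tp363.df))) (.leaf (.fwd 3105 27 tp696.df))) (.node (.leaf (.fwd 3132 33 tp968.df)) (.leaf (.fwd 3165 50 tp969.df)))) (.node (.node (.node (.leaf (.fwd 3215 52 tp695.df))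 (.leaf (.fwd 3267 25 tp601.df))) (.leaf (.fwd 3292 26 tp937.df))) (.node (.leaf (.bwd 3318 34 tp970.df)) (.leaf (.fwd 3352 27 tp971.df))))) (.node (.node (.node (.node (.leaf (.bwd 3379 25 tp821.df)) (.leaf (.bwd 3404 18 tp607.df))) (.leaf (.fwd 3422 29 tp972.df))) (.node (.leaf (.fwd 3451 32 tp973.df)) (.leaf (.bwd 3483 36 tp704.df)))) (.node (.node (.node (.leaf (.fwd 3519 24 tp974.df)) (.leaf (.bwd 3543 39 tp623.df))) (.leaf (.bwd 3582 46 tp975.df))) (.node (.leaf (.pat 3628 pq83)) (.leaf (.pat 3678 pq84))))))) (.node (.node (.node (.node (.node (.node (.leaf (.fwd 3732 28 tp976.df)) (.leaf (.fwd 3760 41 tp671.df))) (.leaf (.bwd 3801 37 tp977.df))) (.node (.leaf (.fwd 3838 44 tp849.df)) (.leaf (.fwd 3882 13 tp307.df)))) (.node (.node (.node (.leaf (.fwd 3895 25 tp319.df)) (.leaf (.bwd 3920 24 tp978.df))) (.leaf (.fwd 3944 38 tp847.df))) (.node (.leaf (.fwd 3982 38 tp587.df)) (.leaf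 (.bwd 4020 28 tp711.df))))) (.node (.node (.node (.node (.leaf (.bwd 4048 15 tp318.df)) (.leaf (.fwd 4063 22 tp979.df))) (.leaf (.bwd 4085 19 tp493.df))) (.node (.leaf (.bwd 4104 21 tp295.df)) (.leaf (.fwd 4125 46 tp980.df)))) (.node (.node (.node (.leaf (.fwd 4171 25 tp436.df)) (.leaf (.fwd 4196 26 tp384.df))) (.leaf (.bwd 4222 33 tp981.df))) (.node (.leaf (.bwd 4255 25 tp982.df)) (.leaf (.bwd 4280 23 tp426.df)))))) (.node (.node (.node (.node (.node (.leaf (.bwd 4303 25 tp392.df)) (.leaf (.bwd 4328 41 tp983.df))) (.leaf (.fwd 4369 32 tp984.df))) (.node (.leaf (.bwd 4401 24 tp985.df)) (.leaf (.bwd 4425 26 tp419.df)))) (.node (.node (.node (.leaf (.fwd 4451 18 tp611.df)) (.leaf (.bwd 4469 23 tp387.df))) (.leaf (.bwd 4492 34 tp609.df))) (.node (.leaf (.fwd 4526 33 tp986.df)) (.leaf (.fwd 4559 35 tp987.df))))) (.node (.node (.node (.node (.leaf (.fwd 4594 25 tp988.df)) (.leaf (.bwd 4619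 45 tp989.df))) (.leaf (.bwd 4664 29 tp990.df))) (.node (.leaf (.bwd 4693 28 tp342.df)) (.leaf (.fwd 4721 27 tp686.df)))) (.node (.node (.node (.leaf (.bwd 4748 36 tp991.df)) (.leaf (.bwd 4784 22 tp992.df))) (.leaf (.bwd 4806 30 tp993.df))) (.node (.leaf (.fwd 4836 20 tp994.df)) (.leaf (.fwd 4856 21 tp762.df)))))))))

theorem iiNF2AzEyA2Ax3xA2A2EzAyF_c : iiNF2AzEyA2Ax3xA2A2EzAyF.all (itB (ng 59 nnNF2AzEyA2Ax3xA2A2EzAyF)) = true := by decide +kernel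
theorem nbNF2AzEyA2Ax3xA2A2EzAyF : nbB 59 4936 nnNF2AzEyA2Ax3xA2A2EzAyF = true := by decide +kernel
theorem topNF2AzEyA2Ax3xA2A2EzAyF : topY 4936 ttNF2AzEyA2Ax3xA2A2EzAyF ceNF2AzEyA2Ax3xA2A2EzAyF xNF2AzEyA2Ax3xA2A2EzAyF iiNF2AzEyA2Ax3xA2A2EzAyF = true := by decide +kernel

end MPb6P
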