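import Pool.Agent.Lib.MP_b6d339_lc.Cw.YF2AzEyA2Ax3xA2A2EzAzF
import Pool.Agent.Lib.MP_b6d339_lc.Cw.XL
import Pool.Agent.Lib.MP_b6d339_lc.Cw.T10
import Pool.Agent.Lib.MP_b6d339_lc.Cw.T11
import Pool.Agent.Lib.MP_b6d339_lc.Cw.T12
import Pool.Agent.Lib.MP_b6d339_lc.Cw.T3
import Pool.Agent.Lib.MP_b6d339_lc.Cw.T4
import Pool.Agent.Lib.MP_b6d339_lc.Cw.T5
import Pool.Agent.Lib.MP_b6d339_lc.Cw.T6
import Pool.Agent.Lib.MP_b6d339_lc.Cw.T7
import Pool.Agent.Lib.MP_b6d339_lc.Cw.T8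

/-!
# Erdős 592, three levels: items
-/

namespace MPb6P

noncomputable def iiNF2AzEyA2Ax3xA2A2EzAzF : BT Itm := (.node (.node (.node (.node (.node (.node (.node (.leaf (.fwd 0 28 tp388.df)) (.leaf (.fwd 28 32 tp368.df))) (.leaf (.fwd 60 25 tp319.df))) (.node (.node (.leaf (.fwd 85 21 tp995.df)) (.leaf (.fwd 106 23 tp292.df))) (.leaf (.fwd 129 27 tp996.df)))) (.node (.node (.node (.leaf (.fwd 156 11 tp390.df)) (.leaf (.bwd 167 21 tp997.df))) (.leaf (.fwd 188 19 tp326.df))) (.node (.node (.leaf (.bwd 207 21 tp424.df)) (.leaf (.bwd 228 21 tp295.df))) (.leaf (.bwd 249 25 tp545.df))))) (.node (.node (.node (.node (.leaf (.fwd 274 29 tp329.df)) (.leaf (.bwd 303 22 tp334.df))) (.leaf (.bwd 325 23 tp998.df))) (.node (.node (.leaf (.bwd 348 17 tp337.df)) (.leaf (.bwd 365 27 tp338.df))) (.leaf (.fwd 392 22 tp473.df)))) (.node (.node (.node (.leaf (.fwd 414 28 tp342.df)) (.leaf (.fwd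 442 23 tp399.df))) (.leaf (.fwd 465 23 tp999.df))) (.node (.node (.leaf (.fwd 488 32 tp369.df)) (.leaf (.fwd 520 19 tp401.df))) (.leaf (.fwd 539 26 tp367.df)))))) (.node (.node (.node (.node (.node (.leaf (.fwd 565 30 tp299.df)) (.leaf (.bwd 595 34 tp535.df))) (.leaf (.fwd 629 22 tp1000.df))) (.node (.node (.leaf (.bwd 651 32 tp447.df)) (.leaf (.bwd 683 35 tp403.df))) (.leaf (.bwd 718 18 tp462.df)))) (.node (.node (.node (.leaf (.bwd 736 30 tp1001.df)) (.leaf (.fwd 766 31 tp346.df))) (.leaf (.bwd 797 17 tp418.df))) (.node (.node (.leaf (.fwd 814 19 tp405.df)) (.leaf (.bwd 833 34 tp448.df))) (.leaf (.bwd 867 29 tp477.df))))) (.node (.node (.node (.node (.leaf (.bwd 896 37 tp376.df)) (.leaf (.fwd 933 36 tp350.df))) (.leaf (.fwd 969 40 tp351.df))) (.node (.node (.leaf (.bwd 1009 28 tp373.df)) (.leaf (.fwd 1037 38 tp356.df))) (.leaf (.bwd 1075 34 tp855.df)))) (.node (.node (.node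 (.leaf (.bwd 1109 19 tp371.df)) (.leaf (.bwd 1128 22 tp408.df))) (.leaf (.bwd 1150 37 tp977.df))) (.node (.leaf (.fwd 1187 26 tp384.df)) (.leaf (.bwd 1213 28 tp538.df))))))) (.node (.node (.node (.node (.node (.node (.leaf (.bwd 1241 35 tp359.df)) (.leaf (.bwd 1276 35 tp360.df))) (.leaf (.fwd 1311 25 tp1002.df))) (.node (.node (.leaf (.bwd 1336 25 tp361.df)) (.leaf (.fwd 1361 48 tp375.df))) (.leaf (.bwd 1409 29 tp413.df)))) (.node (.node (.node (.leaf (.fwd 1438 44 tp364.df)) (.leaf (.fwd 1482 27 tp415.df))) (.leaf (.bwd 1509 32 tp340.df))) (.node (.node (.leaf (.fwd 1541 36 tp396.df)) (.leaf (.fwd 1577 30 tp617.df))) (.leaf (.fwd 1607 35 tp352.df))))) (.node (.node (.node (.node (.leaf (.fwd 1642 17 tp456.df)) (.leaf (.bwd 1659 18 tp1003.df))) (.leaf (.fwd 1677 27 tp330.df))) (.node (.node (.leaf (.bwd 1704 32 tp397.df)) (.leaf (.bwd 1736 20 tp324.df))) (.leaf (.bwd 1756 26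 tp654.df)))) (.node (.node (.node (.leaf (.fwd 1782 29 tp694.df)) (.leaf (.fwd 1811 29 tp588.df))) (.leaf (.bwd 1840 22 tp502.df))) (.node (.node (.leaf (.fwd 1862 25 tp347.df)) (.leaf (.bwd 1887 27 tp409.df))) (.leaf (.fwd 1914 27 tp341.df)))))) (.node (.node (.node (.node (.node (.leaf (.fwd 1941 37 tp1004.df)) (.leaf (.fwd 1978 35 tp987.df))) (.leaf (.fwd 2013 35 tp1005.df))) (.node (.node (.leaf (.fwd 2048 17 tp1006.df)) (.leaf (.bwd 2065 26 tp419.df))) (.leaf (.pat 2091 pq85)))) (.node (.node (.node (.leaf (.pat 2129 pq86)) (.leaf (.bwd 2171 45 tp989.df))) (.leaf (.fwd 2216 21 tp1007.df))) (.node (.node (.leaf (.bwd 2237 32 tp857.df)) (.leaf (.fwd 2269 26 tp370.df))) (.leaf (.bwd 2295 25 tp479.df))))) (.node (.node (.node (.node (.leaf (.bwd 2320 18 tp1008.df)) (.leaf (.fwd 2338 32 tp539.df))) (.leaf (.fwd 2370 13 tp307.df))) (.node (.node (.leaf (.bwd 2383 9 tp1009.df))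 (.leaf (.bwd 2392 19 tp327.df))) (.leaf (.bwd 2411 20 tp683.df)))) (.node (.node (.node (.leaf (.bwd 2431 34 tp1010.df)) (.leaf (.bwd 2465 15 tp318.df))) (.leaf (.bwd 2480 29 tp452.df))) (.node (.leaf (.bwd 2509 23 tp426.df)) (.leaf (.fwd 2532 30 tp967.df))))))))

theorem iiNF2AzEyA2Ax3xA2A2EzAzF_c : iiNF2AzEyA2Ax3xA2A2EzAzF.all (itB (ng 48 nnNF2AzEyA2Ax3xA2A2EzAzF)) = true := by decide +kernel
theorem nbNF2AzEyA2Ax3xA2A2EzAzF : nbB 48 2610 nnNF2AzEyA2Ax3xA2A2EzAzF = true := by decide +kernel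
theorem topNF2AzEyA2Ax3xA2A2EzAzF : topY 2610 ttNF2AzEyA2Ax3xA2A2EzAzF ceNF2AzEyA2Ax3xA2A2EzAzF xNF2AzEyA2Ax3xA2A2EzAzF iiNF2AzEyA2Ax3xA2A2EzAzF = true := by decide +kernel

end MPb6P
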