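import Pool.Agent.Lib.MP_b6d339_lc.Cw.YF2AzEyA2Ax3xA2AyEzAyF
import Pool.Agent.Lib.MP_b6d339_lc.Cw.XL
import Pool.Agent.Lib.MP_b6d339_lc.Cw.T10
import Pool.Agent.Lib.MP_b6d339_lc.Cw.T11
import Pool.Agent.Lib.MP_b6d339_lc.Cw.T12
import Pool.Agent.Lib.MP_b6d339_lc.Cw.T3
import Pool.Agent.Lib.MP_b6d339_lc.Cw.T4
import Pool.Agent.Lib.MP_b6d339_lc.Cw.T5
import Pool.Agent.Lib.MP_b6d339_lc.Cw.T6
import Pool.Agent.Lib.MP_b6d339_lc.Cw.T7
import Pool.Agent.Lib.MP_b6d339_lc.Cw.T8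
import Pool.Agent.Lib.MP_b6d339_lc.Cw.T9

/-!
# Erdős 592, three levels: items
-/

namespace MPb6P

noncomputable def iiNF2AzEyA2Ax3xA2AyEzAyF : BT Itm := (.node (.node (.node (.node (.node (.node (.node (.node (.leaf (.fwd 0 32 tp447.df)) (.leaf (.bwd 32 32 tp447.df))) (.leaf (.bwd 64 32 tp948.df))) (.node (.node (.leaf (.fwd 96 23 tp292.df)) (.leaf (.bwd 119 26 tp647.df))) (.leaf (.bwd 145 18 tp462.df)))) (.node (.node (.node (.leaf (.fwd 163 19 tp326.df)) (.leaf (.bwd 182 19 tp326.df))) (.leaf (.bwd 201 20 tp614.df))) (.node (.node (.leaf (.fwd 221 27 tp331.df)) (.leaf (.bwd 248 43 tp529.df))) (.leaf (.fwd 291 28 tp342.df))))) (.node (.node (.node (.node (.leaf (.bwd 319 32 tp397.df)) (.leaf (.bwd 351 22 tp334.df))) (.leaf (.fwd 373 32 tp368.df))) (.node (.node (.leaf (.fwd 405 28 tp806.df)) (.leaf (.bwd 433 26 tp367.df))) (.leaf (.fwd 459 31 tp949.df)))) (.node (.node (.node (.leaf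 (.bwd 490 27 tp481.df)) (.leaf (.bwd 517 25 tp392.df))) (.leaf (.fwd 542 30 tp698.df))) (.node (.leaf (.fwd 572 27 tp341.df)) (.leaf (.fwd 599 28 tp344.df)))))) (.node (.node (.node (.node (.node (.leaf (.fwd 627 25 tp319.df)) (.leaf (.fwd 652 19 tp405.df))) (.leaf (.fwd 671 19 tp404.df))) (.node (.node (.leaf (.bwd 690 22 tp378.df)) (.leaf (.fwd 712 40 tp351.df))) (.leaf (.fwd 752 28 tp553.df)))) (.node (.node (.node (.leaf (.bwd 780 37 tp372.df)) (.leaf (.bwd 817 29 tp588.df))) (.leaf (.bwd 846 42 tp775.df))) (.node (.node (.leaf (.fwd 888 23 tp565.df)) (.leaf (.bwd 911 24 tp589.df))) (.leaf (.bwd 935 34 tp535.df))))) (.node (.node (.node (.node (.leaf (.bwd 969 22 tp502.df)) (.leaf (.bwd 991 40 tp784.df))) (.leaf (.fwd 1031 30 tp299.df))) (.node (.node (.leaf (.fwd 1061 38 tp348.df)) (.leaf (.fwd 1099 31 tp294.df))) (.leaf (.bwd 1130 24 tp354.df)))) (.node (.node (.node (.leaf (.bwd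 1154 39 tp952.df)) (.leaf (.fwd 1193 29 tp329.df))) (.leaf (.bwd 1222 17 tp337.df))) (.node (.leaf (.bwd 1239 27 tp338.df)) (.leaf (.fwd 1266 32 tp369.df))))))) (.node (.node (.node (.node (.node (.node (.leaf (.fwd 1298 31 tp346.df)) (.leaf (.bwd 1329 40 tp416.df))) (.leaf (.bwd 1369 34 tp448.df))) (.node (.node (.leaf (.fwd 1403 36 tp350.df)) (.leaf (.fwd 1439 35 tp352.df))) (.leaf (.bwd 1474 28 tp373.df)))) (.node (.node (.node (.leaf (.bwd 1502 22 tp408.df)) (.leaf (.bwd 1524 47 tp449.df))) (.leaf (.bwd 1571 35 tp359.df))) (.node (.node (.leaf (.fwd 1606 25 tp361.df)) (.leaf (.bwd 1631 25 tp361.df))) (.leaf (.fwd 1656 35 tp472.df))))) (.node (.node (.node (.node (.leaf (.bwd 1691 29 tp413.df)) (.leaf (.fwd 1720 24 tp648.df))) (.leaf (.bwd 1744 56 tp954.df))) (.node (.node (.leaf (.bwd 1800 29 tp955.df)) (.leaf (.fwd 1829 29 tp956.df))) (.leaf (.fwd 1858 38 tp824.df)))) (.node (.node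 (.node (.leaf (.fwd 1896 38 tp362.df)) (.leaf (.fwd 1934 26 tp370.df))) (.leaf (.fwd 1960 36 tp396.df))) (.node (.leaf (.fwd 1996 28 tp957.df)) (.leaf (.bwd 2024 32 tp340.df)))))) (.node (.node (.node (.node (.node (.leaf (.fwd 2056 19 tp401.df)) (.leaf (.fwd 2075 27 tp330.df))) (.leaf (.bwd 2102 25 tp433.df))) (.node (.node (.leaf (.bwd 2127 37 tp376.df)) (.leaf (.bwd 2164 27 tp409.df))) (.leaf (.bwd 2191 41 tp962.df)))) (.node (.node (.node (.leaf (.bwd 2232 18 tp1011.df)) (.leaf (.fwd 2250 39 tp345.df))) (.leaf (.fwd 2289 29 tp661.df))) (.node (.node (.leaf (.fwd 2318 51 tp406.df)) (.leaf (.fwd 2369 36 tp964.df))) (.leaf (.fwd 2405 33 tp475.df))))) (.node (.node (.node (.node (.leaf (.fwd 2438 40 tp434.df)) (.leaf (.fwd 2478 48 tp872.df))) (.leaf (.bwd 2526 37 tp977.df))) (.node (.node (.leaf (.fwd 2563 25 tp602.df)) (.leaf (.fwd 2588 17 tp456.df))) (.leaf (.fwd 2605 23 tp366.df))))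 (.node (.node (.node (.leaf (.bwd 2628 23 tp366.df)) (.leaf (.fwd 2651 18 tp566.df))) (.leaf (.bwd 2669 29 tp1012.df))) (.node (.leaf (.bwd 2698 29 tp706.df)) (.leaf (.fwd 2727 41 tp1013.df)))))))) (.node (.node (.node (.node (.node (.node (.node (.leaf (.fwd 2768 19 tp478.df)) (.leaf (.bwd 2787 25 tp745.df))) (.leaf (.fwd 2812 30 tp1014.df))) (.node (.node (.leaf (.fwd 2842 30 tp967.df)) (.leaf (.fwd 2872 27 tp696.df))) (.leaf (.fwd 2899 39 tp1015.df)))) (.node (.node (.node (.leaf (.fwd 2938 52 tp695.df)) (.leaf (.fwd 2990 37 tp1016.df))) (.leaf (.fwd 3027 25 tp601.df))) (.node (.node (.leaf (.bwd 3052 29 tp1017.df)) (.leaf (.fwd 3081 37 tp557.df))) (.leaf (.fwd 3118 24 tp1018.df))))) (.node (.node (.node (.node (.leaf (.bwd 3142 38 tp1019.df)) (.leaf (.bwd 3180 41 tp1020.df))) (.leaf (.bwd 3221 28 tp603.df))) (.node (.node (.leaf (.bwd 3249 25 tp1021.df)) (.leaf (.bwd 3274 36 tp704.df)))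 (.leaf (.fwd 3310 46 tp1022.df)))) (.node (.node (.node (.leaf (.bwd 3356 34 tp871.df)) (.leaf (.bwd 3390 32 tp1023.df))) (.leaf (.pat 3422 pq87))) (.node (.leaf (.pat 3472 pq88)) (.leaf (.fwd 3522 41 tp671.df)))))) (.node (.node (.node (.node (.node (.leaf (.fwd 3563 24 tp1024.df)) (.leaf (.fwd 3587 46 tp980.df))) (.leaf (.fwd 3633 33 tp968.df))) (.node (.node (.leaf (.fwd 3666 23 tp1025.df)) (.leaf (.fwd 3689 27 tp961.df))) (.leaf (.fwd 3716 24 tp598.df)))) (.node (.node (.node (.leaf (.fwd 3740 25 tp1026.df)) (.leaf (.fwd 3765 38 tp847.df))) (.leaf (.fwd 3803 37 tp659.df))) (.node (.node (.leaf (.fwd 3840 39 tp1027.df)) (.leaf (.bwd 3879 38 tp965.df))) (.leaf (.fwd 3917 59 tp707.df))))) (.node (.node (.node (.node (.leaf (.fwd 3976 31 tp880.df)) (.leaf (.fwd 4007 37 tp1028.df))) (.leaf (.fwd 4044 20 tp1029.df))) (.node (.node (.leaf (.bwd 4064 23 tp1030.df)) (.leaf (.fwd 4087 27 tp415.df)))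 (.leaf (.bwd 4114 36 tp685.df)))) (.node (.node (.node (.leaf (.fwd 4150 18 tp662.df)) (.leaf (.bwd 4168 28 tp555.df))) (.leaf (.fwd 4196 26 tp937.df))) (.node (.leaf (.fwd 4222 41 tp959.df)) (.leaf (.bwd 4263 36 tp960.df))))))) (.node (.node (.node (.node (.node (.node (.leaf (.bwd 4299 32 tp440.df)) (.leaf (.fwd 4331 27 tp549.df))) (.leaf (.fwd 4358 45 tp1031.df))) (.node (.node (.leaf (.fwd 4403 40 tp963.df)) (.leaf (.bwd 4443 50 tp455.df))) (.leaf (.bwd 4493 27 tp681.df)))) (.node (.node (.node (.leaf (.fwd 4520 21 tp424.df)) (.leaf (.fwd 4541 31 tp677.df))) (.leaf (.fwd 4572 31 tp1032.df))) (.node (.node (.leaf (.bwd 4603 21 tp295.df)) (.leaf (.bwd 4624 22 tp583.df))) (.leaf (.bwd 4646 18 tp461.df))))) (.node (.node (.node (.node (.leaf (.bwd 4664 37 tp1033.df)) (.leaf (.fwd 4701 25 tp436.df))) (.leaf (.bwd 4726 33 tp363.df))) (.node (.node (.leaf (.bwd 4759 18 tp607.df)) (.leaf (.bwd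 4777 23 tp320.df))) (.leaf (.fwd 4800 27 tp321.df)))) (.node (.node (.node (.leaf (.bwd 4827 23 tp426.df)) (.leaf (.bwd 4850 27 tp562.df))) (.leaf (.bwd 4877 29 tp398.df))) (.node (.leaf (.fwd 4906 24 tp950.df)) (.leaf (.fwd 4930 28 tp388.df)))))) (.node (.node (.node (.node (.node (.leaf (.bwd 4958 45 tp989.df)) (.leaf (.bwd 5003 18 tp622.df))) (.leaf (.bwd 5021 18 tp1034.df))) (.node (.node (.leaf (.fwd 5039 20 tp612.df)) (.leaf (.bwd 5059 37 tp1035.df))) (.leaf (.fwd 5096 27 tp518.df)))) (.node (.node (.node (.leaf (.pat 5123 pq89)) (.leaf (.fwd 5169 52 tp715.df))) (.leaf (.bwd 5221 14 tp1036.df))) (.node (.node (.leaf (.fwd 5235 16 tp1037.df)) (.leaf (.fwd 5251 27 tp686.df))) (.leaf (.bwd 5278 16 tp645.df))))) (.node (.node (.node (.node (.leaf (.bwd 5294 25 tp982.df)) (.leaf (.fwd 5319 16 tp427.df))) (.leaf (.fwd 5335 24 tp1038.df))) (.node (.node (.leaf (.bwd 5359 26 tp1039.df))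 (.leaf (.bwd 5385 14 tp522.df))) (.leaf (.bwd 5399 19 tp391.df)))) (.node (.node (.node (.leaf (.bwd 5418 29 tp990.df)) (.leaf (.bwd 5447 21 tp1040.df))) (.leaf (.bwd 5468 22 tp992.df))) (.node (.leaf (.bwd 5490 30 tp993.df)) (.leaf (.fwd 5520 53 tp1041.df)))))))))

theorem iiNF2AzEyA2Ax3xA2AyEzAyF_c : iiNF2AzEyA2Ax3xA2AyEzAyF.all (itB (ng 59 nnNF2AzEyA2Ax3xA2AyEzAyF)) = true := by decide +kernel
theorem nbNF2AzEyA2Ax3xA2AyEzAyF : nbB 59 5632 nnNF2AzEyA2Ax3xA2AyEzAyF = true := by decide +kernel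
theorem topNF2AzEyA2Ax3xA2AyEzAyF : topY 5632 ttNF2AzEyA2Ax3xA2AyEzAyF ceNF2AzEyA2Ax3xA2AyEzAyF xNF2AzEyA2Ax3xA2AyEzAyF iiNF2AzEyA2Ax3xA2AyEzAyF = true := by decide +kernel

end MPb6P
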