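import Pool.Agent.Lib.MP_b6d339_lc.Cw.XL
import Pool.Agent.Lib.MP_b6d339_lc.Pos.XTreeC

/-!
# Erdős 592, three levels: patterns of words
-/

namespace MPb6P

theorem pq76_ok : POK 206 pq76 :=
  POK.mono (by decide) (chkPath_spec (K := 60) (path := 443548030189511842939871448654170712340295445550942003985) (by decide +kernel))

theorem pq77_ok : POK 206 pq77 :=
  POK.mono (by decide) (chkPath_spec (K := 60) (path := 866304746463922399328358722094535914509399252024472337) (by decide +kernel))

theorem pq78_ok : POK 206 pq78 :=
  POK.mono (by decide) (chkPath_spec (K := 60) (path := 443548030189511842939871448170943763633523417927656452881) (by decide +kernel))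

theorem pq79_ok : POK 206 pq79 :=
  POK.mono (by decide) (chkPath_spec (K := 60) (path := 15713799131488463187638802987922906198256723191623012615498104730130585) (by decide +kernel))

theorem pq80_ok : POK 206 pq80 :=
  POK.mono (by decide) (chkPath_spec (K := 60) (path := 476256070967293511907859089480355454311770754699837400457434470553) (by decide +kernel))

theorem pq81_ok : POK 206 pq81 :=
  POK.mono (by decide) (chkPath_spec (K := 60) (path := 125710393051907095373740092275262606192832657348453728759930447075324689) (by decide +kernel))

theorem pq82_ok : POK 206 pq82 :=
  POK.mono (by decide) (chkPath_spec (K := 60) (path := 30691013928688255706479514715640328525112397906557921595372786784409) (by decide +kernel))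

theorem pq83_ok : POK 206 pq83 :=
  POK.mono (by decide) (chkPath_spec (K := 60) (path := 8045464429660952372784489532371083794159467953538728192131541718149149457) (by decide +kernel))

theorem pq84_ok : POK 206 pq84 :=
  POK.mono (by decide) (chkPath_spec (K := 60) (path := 2109070200650857356945340015724369846834925863360464453558888297721893145588497) (by decide +kernel))

theorem pq85_ok : POK 206 pq85 :=
  POK.mono (by decide) (chkPath_spec (K := 60) (path := 117076927080734387955126681123614806930818134441269908459599564) (by decide +kernel))

theorem pq86_ok : POK 206 pq86 :=
  POK.mono (by decide) (chkPath_spec (K := 60) (path := 30691011160510835161726107791531803934503312112215974021987635148492) (by decide +kernel))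

theorem pq87_ok : POK 206 pq87 :=
  POK.mono (by decide) (chkPath_spec (K := 60) (path := 4119277787986407616358666179909183662741849882498711865509388035165231297297) (by decide +kernel))

theorem pq88_ok : POK 206 pq88 :=
  POK.mono (by decide) (chkPath_spec (K := 60) (path := 8045464429660952372784489532371083794159467953538728192131541718149149457) (by decide +kernel))

theorem pq89_ok : POK 206 pq89 :=
  POK.mono (by decide) (chkPath_spec (K := 60) (path := 1005683053707619046579441100112914159467325994621660386260551978384667409) (by decide +kernel))

theorem pq90_ok : POK 206 pq90 :=
  POK.mono (by decide) (chkPath_spec (K := 60) (path := 30691011160510835161726107791531803934503312112215974021987635148492) (by decide +kernel))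

theorem pq91_ok : POK 206 pq91 :=
  POK.mono (by decide) (chkPath_spec (K := 60) (path := 15713797714181547602803767189264283614465695801455011189218619945235217) (by decide +kernel))

theorem pq92_ok : POK 206 pq92 :=
  POK.mono (by decide) (chkPath_spec (K := 60) (path := 263630240916165328070926853297724071347243514881427576828182391844872274163289) (by decide +kernel))

theorem pq93_ok : POK 206 pq93 :=
  POK.mono (by decide) (chkPath_spec (K := 60) (path := 1079829466792613183778516391088858195306713768851294646738549944134913682928678489) (by decide +kernel))

theorem pq94_ok : POK 206 pq94 :=
  POK.mono (by decide) (chkPath_spec (K := 60) (path := 125710379916494133502853152818718518497509310049922319182500706508453465) (by decide +kernel))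

theorem pq95_ok : POK 206 pq95 :=
  POK.mono (by decide) (chkPath_spec (K := 60) (path := 514909716137959970827686509399670043075449479899151513364213682993101649497) (by decide +kernel))

theorem pq96_ok : POK 206 pq96 :=
  POK.mono (by decide) (chkPath_spec (K := 60) (path := 4423040782410362997724060837139704127511201428977152618503249584646764269067330959065) (by decide +kernel))

theorem pq97_ok : POK 206 pq97 :=
  POK.mono (by decide) (chkPath_spec (K := 60) (path := 59943380411222544721664046418838780504032493264159064339866502361) (by decide +kernel))

theorem pq98_ok : POK 206 pq98 :=
  POK.mono (by decide) (chkPath_spec (K := 60) (path := 30691010770545942897420963588158965917910878023463585545845071463641) (by decide +kernel))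

theorem pq99_ok : POK 206 pq99 :=
  POK.mono (by decide) (chkPath_spec (K := 60) (path := 4119277728285864003370702610474234625733463029797534928439987302207384008409) (by decide +kernel))

theorem pq100_ok : POK 206 pq100 :=
  POK.mono (by decide) (chkPath_spec (K := 60) (path := 30691010770545942897420963588158965917910878023463585545845071463641) (by decide +kernel))

theorem pq101_ok : POK 206 pq101 :=
  POK.mono (by decide) (chkPath_spec (K := 60) (path := 59943380411222544721664046418838780504032493264159064339866502361) (by decide +kernel))

theorem pq102_ok : POK 206 pq102 :=
  POK.mono (by decide) (chkPath_spec (K := 60) (path := 35384326259282903981792486741656910102357848403185983733964285876335161395608436717145) (by decide +kernel))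

theorem pq103_ok : POK 206 pq103 :=
  POK.mono (by decide) (chkPath_spec (K := 60) (path := 32954221885169646202552896264696125511785618315864140673553361919646075270745) (by decide +kernel))

theorem pq104_ok : POK 206 pq104 :=
  POK.mono (by decide) (chkPath_spec (K := 60) (path := 15713799153997842170370848176433784245904104691852624798592782618178321) (by decide +kernel))

theorem pq105_ok : POK 206 pq105 :=
  POK.mono (by decide) (chkPath_spec (K := 60) (path := 59943380411222544721664046418838780504032493264159064339866502361) (by decide +kernel))

theorem pq106_ok : POK 206 pq106 :=
  POK.mono (by decide) (chkPath_spec (K := 60) (path := 30691010770545942897420963588158965917910878023463585545845071463641) (by decide +kernel))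

theorem pq107_ok : POK 206 pq107 :=
  POK.mono (by decide) (chkPath_spec (K := 60) (path := 109083757849388678528390264227787286126112152467838681) (by decide +kernel))

theorem pq108_ok : POK 206 pq108 :=
  POK.mono (by decide) (chkPath_spec (K := 60) (path := 55825880911448958779360110161143037958671277543111144209) (by decide +kernel))

theorem pq109_ok : POK 206 pq109 :=
  POK.mono (by decide) (chkPath_spec (K := 60) (path := 94579118114446955041723022454960913) (by decide +kernel))

theorem pq110_ok : POK 206 pq110 :=
  POK.mono (by decide) (chkPath_spec (K := 60) (path := 937022344975808039670713596246310094096860864961573738680530649) (by decide +kernel))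

theorem pq111_ok : POK 206 pq111 :=
  POK.mono (by decide) (chkPath_spec (K := 60) (path := 3574456577183049927238055407320025344830651989591356913369) (by decide +kernel))

theorem pq112_ok : POK 206 pq112 :=
  POK.mono (by decide) (chkPath_spec (K := 60) (path := 6499064115833201626250690596038202936594936593) (by decide +kernel))

theorem pq113_ok : POK 206 pq113 :=
  POK.mono (by decide) (chkPath_spec (K := 60) (path := 812372125442759696143217624936064867915150097) (by decide +kernel))

theorem pq114_ok : POK 206 pq114 :=
  POK.mono (by decide) (chkPath_spec (K := 60) (path := 116273459423379944825764691872010755044656745430196000933353625) (by decide +kernel))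

theorem pq115_ok : POK 206 pq115 :=
  POK.mono (by decide) (chkPath_spec (K := 60) (path := 59532011224770531740664162914581604926566120608397061234239805593) (by decide +kernel))

theorem pq116_ok : POK 206 pq116 :=
  POK.mono (by decide) (chkPath_spec (K := 60) (path := 929388607645056413620238965482338293297141251875731488140801625) (by decide +kernel))

theorem pq117_ok : POK 206 pq117 :=
  POK.mono (by decide) (chkPath_spec (K := 60) (path := 7435077279486358833864226371496948962194689281676269336390383193) (by decide +kernel))

theorem pq118_ok : POK 206 pq118 :=
  POK.mono (by decide) (chkPath_spec (K := 60) (path := 7441505228212262237643921577010309830428289122206762217113498329) (by decide +kernel))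

theorem pq119_ok : POK 206 pq119 :=
  POK.mono (by decide) (chkPath_spec (K := 60) (path := 125602329476725124156763234269238753383902335970124992385098704516690705) (by decide +kernel))

theorem pq120_ok : POK 206 pq120 :=
  POK.mono (by decide) (chkPath_spec (K := 60) (path := 64356812756319963446112224958718492117303397370409334279253039981133706001) (by decide +kernel))

theorem pq121_ok : POK 206 pq121 :=
  POK.mono (by decide) (chkPath_spec (K := 60) (path := 64356812756319963446112224958718491947162345745602526283423490840051200785) (by decide +kernel))

theorem pq122_ok : POK 206 pq122 :=
  POK.mono (by decide) (chkPath_spec (K := 60) (path := 30687719705734235499435578813099585155748664049832186883065800176401) (by decide +kernel))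

theorem pq123_ok : POK 206 pq123 :=
  POK.mono (by decide) (chkPath_spec (K := 60) (path := 64356812756319963446112322979049150192311338351125775260714508024210666257) (by decide +kernel))

theorem pq124_ok : POK 206 pq124 :=
  POK.mono (by decide) (chkPath_spec (K := 60) (path := 134966018585541923980941144796626402806630368518908497495112057299651368349217553) (by decide +kernel))

theorem pq125_ok : POK 206 pq125 :=
  POK.mono (by decide) (chkPath_spec (K := 60) (path := 261824080526170655564133969223934440024805299220806295751970524888857538500300) (by decide +kernel))

theorem pq126_ok : POK 206 pq126 :=
  POK.mono (by decide) (chkPath_spec (K := 60) (path := 4091001259907492934204250761295391478177898214659284256370291554006409713356) (by decide +kernel))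

theorem pq127_ok : POK 206 pq127 :=
  POK.mono (by decide) (chkPath_spec (K := 60) (path := 514412790385770131731177383428995782063974014776175323940571979094545962713) (by decide +kernel))

theorem pq128_ok : POK 206 pq128 :=
  POK.mono (by decide) (chkPath_spec (K := 60) (path := 64529233199531442835817105264740395483208265175688417687552222815109092953) (by decide +kernel))

theorem pq129_ok : POK 206 pq129 :=
  POK.mono (by decide) (chkPath_spec (K := 60) (path := 126032003626726757113384300369032197193992698786386248959484527570104921) (by decide +kernel))

theorem pq130_ok : POK 206 pq130 :=
  POK.mono (by decide) (chkPath_spec (K := 60) (path := 30691009811032095551362652777560386615942989654569534614922783929105) (by decide +kernel))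

theorem pq131_ok : POK 206 pq131 :=
  POK.mono (by decide) (chkPath_spec (K := 60) (path := 16756769650984955974629881132501710363769054672305725615547553800295767843123801) (by decide +kernel))

theorem pq132_ok : POK 206 pq132 :=
  POK.mono (by decide) (chkPath_spec (K := 60) (path := 55778778092087627915084682838914662071006194470302356185) (by decide +kernel))

theorem pq133_ok : POK 206 pq133 :=
  POK.mono (by decide) (chkPath_spec (K := 60) (path := 15700330850248650925968858563598801433437314893111823975323849752155737) (by decide +kernel))

theorem pq134_ok : POK 206 pq134 :=
  POK.mono (by decide) (chkPath_spec (K := 60) (path := 228469689881789524096162593077093144187853268953773277819665) (by decide +kernel))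

theorem pq135_ok : POK 206 pq135 :=
  POK.mono (by decide) (chkPath_spec (K := 60) (path := 228469689881789524096162593077093144187853268953773277819665) (by decide +kernel))

theorem pq136_ok : POK 206 pq136 :=
  POK.mono (by decide) (chkPath_spec (K := 60) (path := 55778732881296270531289695576579807022859327275795002129) (by decide +kernel))

theorem pq137_ok : POK 206 pq137 :=
  POK.mono (by decide) (chkPath_spec (K := 60) (path := 6972341610162033816411211946932774175654701811066778385) (by decide +kernel))

theorem pq138_ok : POK 206 pq138 :=
  POK.mono (by decide) (chkPath_spec (K := 60) (path := 59885531327756210662815744564289816298946525423466420850884719377) (by decide +kernel))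

theorem pq139_ok : POK 206 pq139 :=
  POK.mono (by decide) (chkPath_spec (K := 60) (path := 51947998545901946053918647164582637173159277329) (by decide +kernel))

theorem pq140_ok : POK 206 pq140 :=
  POK.mono (by decide) (chkPath_spec (K := 60) (path := 30769532133662837331725586107316890252283173918726155313948329358937) (by decide +kernel))

theorem pq141_ok : POK 206 pq141 :=
  POK.mono (by decide) (chkPath_spec (K := 60) (path := 15754000452436745808621082360189694191472370056377737787552607746504281) (by decide +kernel))

theorem pq142_ok : POK 206 pq142 :=
  POK.mono (by decide) (chkPath_spec (K := 60) (path := 935811849755809890828304661010795371429648595547223266895115025) (by decide +kernel))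

theorem pq143_ok : POK 206 pq143 :=
  POK.mono (by decide) (chkPath_spec (K := 60) (path := 28558328069876883964623960632687775624759251392526967157521) (by decide +kernel))

theorem pq144_ok : POK 206 pq144 :=
  POK.mono (by decide) (chkPath_spec (K := 60) (path := 13617856130816919746358449842312941134437987021337361) (by decide +kernel))

theorem pq145_ok : POK 206 pq145 :=
  POK.mono (by decide) (chkPath_spec (K := 60) (path := 116976481219476236337235247655471689823950640143745732903285521) (by decide +kernel))

theorem pq146_ok : POK 206 pq146 :=
  POK.mono (by decide) (chkPath_spec (K := 60) (path := 3569838904402961314002540516829580377928181156728389022481) (by decide +kernel))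

theorem pq147_ok : POK 206 pq147 :=
  POK.mono (by decide) (chkPath_spec (K := 60) (path := 28558711566916054334235542111904237954117862277418815697681) (by decide +kernel))

theorem pq148_ok : POK 206 pq148 :=
  POK.mono (by decide) (chkPath_spec (K := 60) (path := 871542711392701853461002276909971836551892023311643409) (by decide +kernel))

theorem pq149_ok : POK 206 pq149 :=
  POK.mono (by decide) (chkPath_spec (K := 60) (path := 55969452906594200635623339053962443439160939349361333977) (by decide +kernel))

theorem pq150_ok : POK 206 pq150 :=
  POK.mono (by decide) (chkPath_spec (K := 60) (path := 1962539692339096224170360776448111534784427817689277810972986914485009) (by decide +kernel))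

theorem pq151_ok : POK 206 pq151 :=
  POK.mono (by decide) (chkPath_spec (K := 60) (path := 229253896205357598991195485434893200321732539065365575800537) (by decide +kernel))


end MPb6P
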