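import Pool.Agent.Lib.MP_b6d339_lc.Cw.YF2AzE2A2Ax3xA2AyEzAyF
import Pool.Agent.Lib.MP_b6d339_lc.Cw.XL

/-!
# Erdős 592, three levels: checks of claims
-/

namespace MPb6P

theorem zeNF2AzE2A2Ax3xA2AyEzAyF_0 : cyE 57 8169 nnNF2AzE2A2Ax3xA2AyEzAyF ttNF2AzE2A2Ax3xA2AyEzAyF coNF2AzE2A2Ax3xA2AyEzAyF xNF2AzE2A2Ax3xA2AyEzAyF ceNF2AzE2A2Ax3xA2AyEzAyF_0 = true := by decide +kernel

end MPb6P
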