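import Pool.Agent.Lib.MP_b6d339_lc.Cw.YF2AzEyA2Ax3xA2A2EzAyF
import Pool.Agent.Lib.MP_b6d339_lc.Cw.XL

/-!
# Erdős 592, three levels: checks of claims
-/

namespace MPb6P

theorem zeNF2AzEyA2Ax3xA2A2EzAyF_0 : cyE 59 4936 nnNF2AzEyA2Ax3xA2A2EzAyF ttNF2AzEyA2Ax3xA2A2EzAyF coNF2AzEyA2Ax3xA2A2EzAyF xNF2AzEyA2Ax3xA2A2EzAyF ceNF2AzEyA2Ax3xA2A2EzAyF_0 = true := by decide +kernel

end MPb6P
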