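import Pool.Agent.Lib.MP_b6d339_lc.Cw.JF2AzE2A2Ax3xA2A2EzAyF
import Pool.Agent.Lib.MP_b6d339_lc.Cw.JF2AzE2A2Ax3xA2AyEzAyF
import Pool.Agent.Lib.MP_b6d339_lc.Cw.JF2AzE2A2Ax3xA2AyEzAzF
import Pool.Agent.Lib.MP_b6d339_lc.Cw.JF2AzEyA2Ax3xA2A2EzAyF
import Pool.Agent.Lib.MP_b6d339_lc.Cw.JF2AzEyA2Ax3xA2A2EzAzF
import Pool.Agent.Lib.MP_b6d339_lc.Cw.JF2AzEyA2Ax3xA2AyEzAyF
import Pool.Agent.Lib.MP_b6d339_lc.Cw.JF2AzEyA2Ax3xA2AyEzAzF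
import Pool.Agent.Lib.MP_b6d339_lc.Cw.P1
import Pool.Agent.Lib.MP_b6d339_lc.Cw.S1
import Pool.Agent.Lib.MP_b6d339_lc.Cw.T10
import Pool.Agent.Lib.MP_b6d339_lc.Cw.T11
import Pool.Agent.Lib.MP_b6d339_lc.Cw.T12
import Pool.Agent.Lib.MP_b6d339_lc.Cw.T13
import Pool.Agent.Lib.MP_b6d339_lc.Cw.T3
import Pool.Agent.Lib.MP_b6d339_lc.Cw.T4
import Pool.Agent.Lib.MP_b6d339_lc.Cw.T5
import Pool.Agent.Lib.MP_b6d339_lc.Cw.T6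
import Pool.Agent.Lib.MP_b6d339_lc.Cw.T7
import Pool.Agent.Lib.MP_b6d339_lc.Cw.T8
import Pool.Agent.Lib.MP_b6d339_lc.Cw.T9
import Pool.Agent.Lib.MP_b6d339_lc.Cw.XL
import Pool.Agent.Lib.MP_b6d339_lc.Cw.ZF2AzE2A2Ax3xA2A2EzAyF_0
import Pool.Agent.Lib.MP_b6d339_lc.Cw.ZF2AzE2A2Ax3xA2A2EzAyF_1
import Pool.Agent.Lib.MP_b6d339_lc.Cw.ZF2AzE2A2Ax3xA2AyEzAyF_0
import Pool.Agent.Lib.MP_b6d339_lc.Cw.ZF2AzE2A2Ax3xA2AyEzAyF_1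
import Pool.Agent.Lib.MP_b6d339_lc.Cw.ZF2AzE2A2Ax3xA2AyEzAzF_0
import Pool.Agent.Lib.MP_b6d339_lc.Cw.ZF2AzEyA2Ax3xA2A2EzAyF_0
import Pool.Agent.Lib.MP_b6d339_lc.Cw.ZF2AzEyA2Ax3xA2A2EzAyF_1
import Pool.Agent.Lib.MP_b6d339_lc.Cw.ZF2AzEyA2Ax3xA2A2EzAzF_0
import Pool.Agent.Lib.MP_b6d339_lc.Cw.ZF2AzEyA2Ax3xA2AyEzAyF_0
import Pool.Agent.Lib.MP_b6d339_lc.Cw.ZF2AzEyA2Ax3xA2AyEzAyF_1
import Pool.Agent.Lib.MP_b6d339_lc.Cw.ZF2AzEyA2Ax3xA2AyEzAzF_0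
import Pool.Agent.Lib.MP_b6d339_lc.Pos.XTreeC
import Pool.Agent.Lib.MP_b6d339_lc.Pos.YQ

/-!
# Erdős 592, three levels: classes of words
-/

namespace MPb6P

theorem iiNF2AzE2A2Ax3xA2A2EzAyF_k : iiNF2AzE2A2Ax3xA2A2EzAyF.Fa (Itm.ok 206) := (BT.Fa_mk (BT.Fa_mk (BT.Fa_mk (BT.Fa_mk (BT.Fa_mk (BT.Fa_mk (BT.Fa_mk (BT.Fa_mk (BT.Fa_leaf (P := Itm.ok 206) (iqb tp608_c)) (BT.Fa_leaf (P := Itm.ok 206) (iqb tp520_c))) (BT.Fa_mk (BT.Fa_leaf (P := Itm.ok 206) (iqb tp629_c)) (BT.Fa_leaf (P := Itm.ok 206) (iqb tp630_c)))) (BT.Fa_mk (BT.Fa_mk (BT.Fa_leaf (P := Itm.ok 206) (iqf tp362_c)) (BT.Fa_leaf (P := Itm.ok 206) (iqb tp331_c))) (BT.Fa_mk (BT.Fa_leaf (P := Itm.ok 206) (iqb tp358_c)) (BT.Fa_leaf (P := Itm.ok 206) (iqf tp631_c))))) (BT.Fa_mk (BT.Fa_mk (BT.Fa_mk (BT.Fa_leaf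 (P := Itm.ok 206) (iqf tp366_c)) (BT.Fa_leaf (P := Itm.ok 206) (iqb tp408_c))) (BT.Fa_mk (BT.Fa_leaf (P := Itm.ok 206) (iqb tp632_c)) (BT.Fa_leaf (P := Itm.ok 206) (iqb tp623_c)))) (BT.Fa_mk (BT.Fa_mk (BT.Fa_leaf (P := Itm.ok 206) (iqf tp334_c)) (BT.Fa_leaf (P := Itm.ok 206) (iqf tp351_c))) (BT.Fa_leaf (P := Itm.ok 206) (iqf tp633_c))))) (BT.Fa_mk (BT.Fa_mk (BT.Fa_mk (BT.Fa_mk (BT.Fa_leaf (P := Itm.ok 206) (iqb tp634_c)) (BT.Fa_leaf (P := Itm.ok 206) (iqb tp635_c))) (BT.Fa_mk (BT.Fa_leaf (P := Itm.ok 206) (iqb tp477_c)) (BT.Fa_leaf (P := Itm.ok 206) (iqf tp636_c)))) (BT.Fa_mk (BT.Fa_mk (BT.Fa_leaf (P := Itm.ok 206) (iqb tp403_c)) (BT.Fa_leaf (P := Itm.ok 206) (iqb tp637_c))) (BT.Fa_mk (BT.Fa_leaf (P := Itm.ok 206) (iqf tp638_c)) (BT.Fa_leaf (P := Itm.ok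 206) (iqb tp366_c))))) (BT.Fa_mk (BT.Fa_mk (BT.Fa_mk (BT.Fa_leaf (P := Itm.ok 206) (iqf tp639_c)) (BT.Fa_leaf (P := Itm.ok 206) (iqf tp640_c))) (BT.Fa_mk (BT.Fa_leaf (P := Itm.ok 206) (iqb tp533_c)) (BT.Fa_leaf (P := Itm.ok 206) (iqb tp367_c)))) (BT.Fa_mk (BT.Fa_mk (BT.Fa_leaf (P := Itm.ok 206) (iqf tp341_c)) (BT.Fa_leaf (P := Itm.ok 206) (iqb tp534_c))) (BT.Fa_leaf (P := Itm.ok 206) (iqf tp641_c)))))) (BT.Fa_mk (BT.Fa_mk (BT.Fa_mk (BT.Fa_mk (BT.Fa_mk (BT.Fa_leaf (P := Itm.ok 206) (iqb tp529_c)) (BT.Fa_leaf (P := Itm.ok 206) (iqb tp642_c))) (BT.Fa_mk (BT.Fa_leaf (P := Itm.ok 206) (iqb tp429_c)) (BT.Fa_leaf (P := Itm.ok 206) (iqb tp643_c)))) (BT.Fa_mk (BT.Fa_mk (BT.Fa_leaf (P := Itm.ok 206) (iqb tp644_c)) (BT.Fa_leaf (P := Itm.ok 206) (iqf tp645_c)))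 (BT.Fa_mk (BT.Fa_leaf (P := Itm.ok 206) (iqb tp290_c)) (BT.Fa_leaf (P := Itm.ok 206) (iqf tp472_c))))) (BT.Fa_mk (BT.Fa_mk (BT.Fa_mk (BT.Fa_leaf (P := Itm.ok 206) (iqf tp646_c)) (BT.Fa_leaf (P := Itm.ok 206) (iqb tp647_c))) (BT.Fa_mk (BT.Fa_leaf (P := Itm.ok 206) (iqf tp648_c)) (BT.Fa_leaf (P := Itm.ok 206) (iqb tp649_c)))) (BT.Fa_mk (BT.Fa_mk (BT.Fa_leaf (P := Itm.ok 206) (iqf tp650_c)) (BT.Fa_leaf (P := Itm.ok 206) (iqf tp385_c))) (BT.Fa_leaf (P := Itm.ok 206) (iqb tp451_c))))) (BT.Fa_mk (BT.Fa_mk (BT.Fa_mk (BT.Fa_mk (BT.Fa_leaf (P := Itm.ok 206) (iqb tp651_c)) (BT.Fa_leaf (P := Itm.ok 206) (iqb tp652_c))) (BT.Fa_mk (BT.Fa_leaf (P := Itm.ok 206) (iqf tp653_c)) (BT.Fa_leaf (P := Itm.ok 206) (iqf tp475_c)))) (BT.Fa_mk (BT.Fa_mk (BT.Fa_leaf (P := Itm.ok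 206) (iqb tp654_c)) (BT.Fa_leaf (P := Itm.ok 206) (iqb tp462_c))) (BT.Fa_mk (BT.Fa_leaf (P := Itm.ok 206) (iqb tp655_c)) (BT.Fa_leaf (P := Itm.ok 206) (iqb tp338_c))))) (BT.Fa_mk (BT.Fa_mk (BT.Fa_mk (BT.Fa_leaf (P := Itm.ok 206) (iqb tp656_c)) (BT.Fa_leaf (P := Itm.ok 206) (iqf tp657_c))) (BT.Fa_mk (BT.Fa_leaf (P := Itm.ok 206) (iqf tp658_c)) (BT.Fa_leaf (P := Itm.ok 206) (iqb tp324_c)))) (BT.Fa_mk (BT.Fa_mk (BT.Fa_leaf (P := Itm.ok 206) (iqb tp618_c)) (BT.Fa_leaf (P := Itm.ok 206) (iqf tp329_c))) (BT.Fa_leaf (P := Itm.ok 206) (iqf tp431_c))))))) (BT.Fa_mk (BT.Fa_mk (BT.Fa_mk (BT.Fa_mk (BT.Fa_mk (BT.Fa_mk (BT.Fa_leaf (P := Itm.ok 206) (iqf tp361_c)) (BT.Fa_leaf (P := Itm.ok 206) (iqf tp346_c))) (BT.Fa_mk (BT.Fa_leaf (P := Itm.ok 206) (iqf tp659_c))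 (BT.Fa_leaf (P := Itm.ok 206) (iqf tp660_c)))) (BT.Fa_mk (BT.Fa_mk (BT.Fa_leaf (P := Itm.ok 206) (iqf tp331_c)) (BT.Fa_leaf (P := Itm.ok 206) (iqf tp661_c))) (BT.Fa_mk (BT.Fa_leaf (P := Itm.ok 206) (iqf tp662_c)) (BT.Fa_leaf (P := Itm.ok 206) (iqb tp416_c))))) (BT.Fa_mk (BT.Fa_mk (BT.Fa_mk (BT.Fa_leaf (P := Itm.ok 206) (iqf tp626_c)) (BT.Fa_leaf (P := Itm.ok 206) (iqb tp481_c))) (BT.Fa_mk (BT.Fa_leaf (P := Itm.ok 206) (iqb tp392_c)) (BT.Fa_leaf (P := Itm.ok 206) (iqb tp663_c)))) (BT.Fa_mk (BT.Fa_mk (BT.Fa_leaf (P := Itm.ok 206) (iqf tp396_c)) (BT.Fa_leaf (P := Itm.ok 206) (iqb tp664_c))) (BT.Fa_leaf (P := Itm.ok 206) (iqf tp665_c))))) (BT.Fa_mk (BT.Fa_mk (BT.Fa_mk (BT.Fa_mk (BT.Fa_leaf (P := Itm.ok 206) (iqb tp666_c)) (BT.Fa_leaf (P := Itm.ok 206)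 (iqb tp589_c))) (BT.Fa_mk (BT.Fa_leaf (P := Itm.ok 206) (iqf tp667_c)) (BT.Fa_leaf (P := Itm.ok 206) (iqf tp668_c)))) (BT.Fa_mk (BT.Fa_mk (BT.Fa_leaf (P := Itm.ok 206) (iqb tp669_c)) (BT.Fa_leaf (P := Itm.ok 206) (iqf tp670_c))) (BT.Fa_mk (BT.Fa_leaf (P := Itm.ok 206) (iqf tp671_c)) (BT.Fa_leaf (P := Itm.ok 206) (iqb tp398_c))))) (BT.Fa_mk (BT.Fa_mk (BT.Fa_mk (BT.Fa_leaf (P := Itm.ok 206) (iqf tp672_c)) (BT.Fa_leaf (P := Itm.ok 206) (iqf tp673_c))) (BT.Fa_mk (BT.Fa_leaf (P := Itm.ok 206) (iqf tp674_c)) (BT.Fa_leaf (P := Itm.ok 206) (iqf tp406_c)))) (BT.Fa_mk (BT.Fa_mk (BT.Fa_leaf (P := Itm.ok 206) (iqf tp675_c)) (BT.Fa_leaf (P := Itm.ok 206) (iqf tp676_c))) (BT.Fa_leaf (P := Itm.ok 206) (iqf tp352_c)))))) (BT.Fa_mk (BT.Fa_mk (BT.Fa_mk (BT.Fa_mk (BT.Fa_mk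 (BT.Fa_leaf (P := Itm.ok 206) (iqf tp677_c)) (BT.Fa_leaf (P := Itm.ok 206) (iqb tp397_c))) (BT.Fa_mk (BT.Fa_leaf (P := Itm.ok 206) (iqb tp678_c)) (BT.Fa_leaf (P := Itm.ok 206) (iqb tp616_c)))) (BT.Fa_mk (BT.Fa_mk (BT.Fa_leaf (P := Itm.ok 206) (iqf tp444_c)) (BT.Fa_leaf (P := Itm.ok 206) (iqb tp619_c))) (BT.Fa_mk (BT.Fa_leaf (P := Itm.ok 206) (iqb tp504_c)) (BT.Fa_leaf (P := Itm.ok 206) (iqb tp360_c))))) (BT.Fa_mk (BT.Fa_mk (BT.Fa_mk (BT.Fa_leaf (P := Itm.ok 206) (iqf tp678_c)) (BT.Fa_leaf (P := Itm.ok 206) (iqf tp519_c))) (BT.Fa_mk (BT.Fa_leaf (P := Itm.ok 206) (iqf tp679_c)) (BT.Fa_leaf (P := Itm.ok 206) (iqf tp680_c)))) (BT.Fa_mk (BT.Fa_mk (BT.Fa_leaf (P := Itm.ok 206) (iqb tp446_c)) (BT.Fa_leaf (P := Itm.ok 206) (iqb tp614_c))) (BT.Fa_leaf (P :=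 Itm.ok 206) (iqf tp517_c))))) (BT.Fa_mk (BT.Fa_mk (BT.Fa_mk (BT.Fa_mk (BT.Fa_leaf (P := Itm.ok 206) (iqf tp566_c)) (BT.Fa_leaf (P := Itm.ok 206) (iqb tp681_c))) (BT.Fa_mk (BT.Fa_leaf (P := Itm.ok 206) (iqb tp382_c)) (BT.Fa_leaf (P := Itm.ok 206) (iqf tp682_c)))) (BT.Fa_mk (BT.Fa_mk (BT.Fa_leaf (P := Itm.ok 206) (iqb tp683_c)) (BT.Fa_leaf (P := Itm.ok 206) (iqf tp345_c))) (BT.Fa_mk (BT.Fa_leaf (P := Itm.ok 206) (iqf tp617_c)) (BT.Fa_leaf (P := Itm.ok 206) (iqf tp501_c))))) (BT.Fa_mk (BT.Fa_mk (BT.Fa_mk (BT.Fa_leaf (P := Itm.ok 206) (iqf tp684_c)) (BT.Fa_leaf (P := Itm.ok 206) (iqb tp685_c))) (BT.Fa_mk (BT.Fa_leaf (P := Itm.ok 206) (iqb tp342_c)) (BT.Fa_leaf (P := Itm.ok 206) (iqf tp587_c)))) (BT.Fa_mk (BT.Fa_mk (BT.Fa_leaf (P := Itm.ok 206) (iqb tp502_c))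 (BT.Fa_leaf (P := Itm.ok 206) (iqf tp686_c))) (BT.Fa_leaf (P := Itm.ok 206) (iqf tp687_c)))))))) (BT.Fa_mk (BT.Fa_mk (BT.Fa_mk (BT.Fa_mk (BT.Fa_mk (BT.Fa_mk (BT.Fa_mk (BT.Fa_leaf (P := Itm.ok 206) (iqb tp688_c)) (BT.Fa_leaf (P := Itm.ok 206) (iqf tp689_c))) (BT.Fa_mk (BT.Fa_leaf (P := Itm.ok 206) (iqb tp690_c)) (BT.Fa_leaf (P := Itm.ok 206) (iqf tp691_c)))) (BT.Fa_mk (BT.Fa_mk (BT.Fa_leaf (P := Itm.ok 206) (iqf tp343_c)) (BT.Fa_leaf (P := Itm.ok 206) (iqf tp489_c))) (BT.Fa_mk (BT.Fa_leaf (P := Itm.ok 206) (iqf tp299_c)) (BT.Fa_leaf (P := Itm.ok 206) (iqf tp692_c))))) (BT.Fa_mk (BT.Fa_mk (BT.Fa_mk (BT.Fa_leaf (P := Itm.ok 206) (iqf tp466_c)) (BT.Fa_leaf (P := Itm.ok 206) (iqf tp344_c))) (BT.Fa_mk (BT.Fa_leaf (P := Itm.ok 206) (iqb tp693_c)) (BT.Fa_leaf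 (P := Itm.ok 206) (iqf tp588_c)))) (BT.Fa_mk (BT.Fa_mk (BT.Fa_leaf (P := Itm.ok 206) (iqf tp365_c)) (BT.Fa_leaf (P := Itm.ok 206) (iqf tp410_c))) (BT.Fa_leaf (P := Itm.ok 206) (iqf tp694_c))))) (BT.Fa_mk (BT.Fa_mk (BT.Fa_mk (BT.Fa_mk (BT.Fa_leaf (P := Itm.ok 206) (iqf tp695_c)) (BT.Fa_leaf (P := Itm.ok 206) (iqf tp434_c))) (BT.Fa_mk (BT.Fa_leaf (P := Itm.ok 206) (iqb tp555_c)) (BT.Fa_leaf (P := Itm.ok 206) (iqf tp513_c)))) (BT.Fa_mk (BT.Fa_mk (BT.Fa_leaf (P := Itm.ok 206) (iqf tp696_c)) (BT.Fa_leaf (P := Itm.ok 206) (iqf tp565_c))) (BT.Fa_mk (BT.Fa_leaf (P := Itm.ok 206) (iqf tp697_c)) (BT.Fa_leaf (P := Itm.ok 206) (iqb tp351_c))))) (BT.Fa_mk (BT.Fa_mk (BT.Fa_mk (BT.Fa_leaf (P := Itm.ok 206) (iqf tp698_c)) (BT.Fa_leaf (P := Itm.ok 206) (iqf tp699_c)))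 (BT.Fa_mk (BT.Fa_leaf (P := Itm.ok 206) (iqb tp700_c)) (BT.Fa_leaf (P := Itm.ok 206) (iqf tp701_c)))) (BT.Fa_mk (BT.Fa_mk (BT.Fa_leaf (P := Itm.ok 206) (iqf tp702_c)) (BT.Fa_leaf (P := Itm.ok 206) (iqf tp369_c))) (BT.Fa_leaf (P := Itm.ok 206) (iqb tp334_c)))))) (BT.Fa_mk (BT.Fa_mk (BT.Fa_mk (BT.Fa_mk (BT.Fa_mk (BT.Fa_leaf (P := Itm.ok 206) (iqf tp578_c)) (BT.Fa_leaf (P := Itm.ok 206) (iqf tp348_c))) (BT.Fa_mk (BT.Fa_leaf (P := Itm.ok 206) (iqb tp703_c)) (BT.Fa_leaf (P := Itm.ok 206) (iqb tp704_c)))) (BT.Fa_mk (BT.Fa_mk (BT.Fa_leaf (P := Itm.ok 206) (iqf tp705_c)) (BT.Fa_leaf (P := Itm.ok 206) (iqb tp706_c))) (BT.Fa_mk (BT.Fa_leaf (P := Itm.ok 206) (iqb tp551_c)) (BT.Fa_leaf (P := Itm.ok 206) (iqf tp707_c))))) (BT.Fa_mk (BT.Fa_mk (BT.Fa_mk (BT.Fa_leaf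 (P := Itm.ok 206) (iqb tp708_c)) (BT.Fa_leaf (P := Itm.ok 206) (iqb tp709_c))) (BT.Fa_mk (BT.Fa_leaf (P := Itm.ok 206) (iqb tp448_c)) (BT.Fa_leaf (P := Itm.ok 206) (iqf tp710_c)))) (BT.Fa_mk (BT.Fa_mk (BT.Fa_leaf (P := Itm.ok 206) (iqb tp711_c)) (BT.Fa_leaf (P := Itm.ok 206) (iqf tp712_c))) (BT.Fa_leaf (P := Itm.ok 206) (iqf tp713_c))))) (BT.Fa_mk (BT.Fa_mk (BT.Fa_mk (BT.Fa_mk (BT.Fa_leaf (P := Itm.ok 206) (iqf tp714_c)) (BT.Fa_leaf (P := Itm.ok 206) (iqf tp715_c))) (BT.Fa_mk (BT.Fa_leaf (P := Itm.ok 206) (iqf tp716_c)) (BT.Fa_leaf (P := Itm.ok 206) (iqb tp717_c)))) (BT.Fa_mk (BT.Fa_mk (BT.Fa_leaf (P := Itm.ok 206) (iqb tp718_c)) (BT.Fa_leaf (P := Itm.ok 206) (iqb tp719_c))) (BT.Fa_mk (BT.Fa_leaf (P := Itm.ok 206) (iqb tp720_c)) (BT.Fa_leaf (P := Itm.ok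 206) (iqb tp627_c))))) (BT.Fa_mk (BT.Fa_mk (BT.Fa_mk (BT.Fa_leaf (P := Itm.ok 206) (iqb tp465_c)) (BT.Fa_leaf (P := Itm.ok 206) (iqf tp328_c))) (BT.Fa_mk (BT.Fa_leaf (P := Itm.ok 206) (iqb tp721_c)) (BT.Fa_leaf (P := Itm.ok 206) (iqb tp723_c)))) (BT.Fa_mk (BT.Fa_mk (BT.Fa_leaf (P := Itm.ok 206) (iqb tp724_c)) (BT.Fa_leaf (P := Itm.ok 206) (iqf tp725_c))) (BT.Fa_leaf (P := Itm.ok 206) (iqf tp726_c))))))) (BT.Fa_mk (BT.Fa_mk (BT.Fa_mk (BT.Fa_mk (BT.Fa_mk (BT.Fa_mk (BT.Fa_leaf (P := Itm.ok 206) (iqf tp727_c)) (BT.Fa_leaf (P := Itm.ok 206) (iqf tp729_c))) (BT.Fa_mk (BT.Fa_leaf (P := Itm.ok 206) (iqb tp730_c)) (BT.Fa_leaf (P := Itm.ok 206) (iqf tp732_c)))) (BT.Fa_mk (BT.Fa_mk (BT.Fa_leaf (P := Itm.ok 206) (iqf tp733_c)) (BT.Fa_leaf (P := Itm.ok 206) (iqf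 tp571_c))) (BT.Fa_mk (BT.Fa_leaf (P := Itm.ok 206) (iqf tp735_c)) (BT.Fa_leaf (P := Itm.ok 206) (iqb tp736_c))))) (BT.Fa_mk (BT.Fa_mk (BT.Fa_mk (BT.Fa_leaf (P := Itm.ok 206) (iqb tp737_c)) (BT.Fa_leaf (P := Itm.ok 206) (iqb tp738_c))) (BT.Fa_mk (BT.Fa_leaf (P := Itm.ok 206) (iqf tp739_c)) (BT.Fa_leaf (P := Itm.ok 206) (iqf tp740_c)))) (BT.Fa_mk (BT.Fa_mk (BT.Fa_leaf (P := Itm.ok 206) (iqf tp741_c)) (BT.Fa_leaf (P := Itm.ok 206) (iqb tp742_c))) (BT.Fa_leaf (P := Itm.ok 206) (iqf tp743_c))))) (BT.Fa_mk (BT.Fa_mk (BT.Fa_mk (BT.Fa_mk (BT.Fa_leaf (P := Itm.ok 206) (iqb tp339_c)) (BT.Fa_leaf (P := Itm.ok 206) (iqb tp344_c))) (BT.Fa_mk (BT.Fa_leaf (P := Itm.ok 206) (iqb tp587_c)) (BT.Fa_leaf (P := Itm.ok 206) (iqf tp744_c)))) (BT.Fa_mk (BT.Fa_mk (BT.Fa_leaf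 (P := Itm.ok 206) (iqb tp745_c)) (BT.Fa_leaf (P := Itm.ok 206) (iqf tp746_c))) (BT.Fa_mk (BT.Fa_leaf (P := Itm.ok 206) (iqb tp333_c)) (BT.Fa_leaf (P := Itm.ok 206) (iqf tp747_c))))) (BT.Fa_mk (BT.Fa_mk (BT.Fa_mk (BT.Fa_leaf (P := Itm.ok 206) (iqf tp748_c)) (BT.Fa_leaf (P := Itm.ok 206) (iqf tp749_c))) (BT.Fa_mk (BT.Fa_leaf (P := Itm.ok 206) (iqf tp750_c)) (BT.Fa_leaf (P := Itm.ok 206) (iqf tp751_c)))) (BT.Fa_mk (BT.Fa_mk (BT.Fa_leaf (P := Itm.ok 206) (iqf tp752_c)) (BT.Fa_leaf (P := Itm.ok 206) (iqf tp753_c))) (BT.Fa_leaf (P := Itm.ok 206) (iqf tp755_c)))))) (BT.Fa_mk (BT.Fa_mk (BT.Fa_mk (BT.Fa_mk (BT.Fa_mk (BT.Fa_leaf (P := Itm.ok 206) (iqb tp756_c)) (BT.Fa_leaf (P := Itm.ok 206) (iqf tp700_c))) (BT.Fa_mk (BT.Fa_leaf (P := Itm.ok 206) (iqf tp757_c))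 (BT.Fa_leaf (P := Itm.ok 206) (iqf tp581_c)))) (BT.Fa_mk (BT.Fa_mk (BT.Fa_leaf (P := Itm.ok 206) (iqf tp758_c)) (BT.Fa_leaf (P := Itm.ok 206) (iqf tp759_c))) (BT.Fa_mk (BT.Fa_leaf (P := Itm.ok 206) (iqf tp760_c)) (BT.Fa_leaf (P := Itm.ok 206) (iqf tp761_c))))) (BT.Fa_mk (BT.Fa_mk (BT.Fa_mk (BT.Fa_leaf (P := Itm.ok 206) (iqb tp762_c)) (BT.Fa_leaf (P := Itm.ok 206) (iqf tp764_c))) (BT.Fa_mk (BT.Fa_leaf (P := Itm.ok 206) (iqf tp765_c)) (BT.Fa_leaf (P := Itm.ok 206) (iqf tp766_c)))) (BT.Fa_mk (BT.Fa_mk (BT.Fa_leaf (P := Itm.ok 206) (iqb tp767_c)) (BT.Fa_leaf (P := Itm.ok 206) (iqf tp768_c))) (BT.Fa_leaf (P := Itm.ok 206) (iqb tp769_c))))) (BT.Fa_mk (BT.Fa_mk (BT.Fa_mk (BT.Fa_mk (BT.Fa_leaf (P := Itm.ok 206) (iqf tp770_c)) (BT.Fa_leaf (P := Itm.ok 206)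 (iqf tp771_c))) (BT.Fa_mk (BT.Fa_leaf (P := Itm.ok 206) (iqf tp772_c)) (BT.Fa_leaf (P := Itm.ok 206) (iqf tp773_c)))) (BT.Fa_mk (BT.Fa_mk (BT.Fa_leaf (P := Itm.ok 206) (iqf tp774_c)) (BT.Fa_leaf (P := Itm.ok 206) (iqb tp775_c))) (BT.Fa_leaf (P := Itm.ok 206) (iqf tp776_c)))) (BT.Fa_mk (BT.Fa_mk (BT.Fa_mk (BT.Fa_leaf (P := Itm.ok 206) (iqf tp778_c)) (BT.Fa_leaf (P := Itm.ok 206) (iqf tp779_c))) (BT.Fa_mk (BT.Fa_leaf (P := Itm.ok 206) (iqb tp578_c)) (BT.Fa_leaf (P := Itm.ok 206) (iqf tp454_c)))) (BT.Fa_mk (BT.Fa_mk (BT.Fa_leaf (P := Itm.ok 206) (iqb tp780_c)) (BT.Fa_leaf (P := Itm.ok 206) (iqb tp781_c))) (BT.Fa_leaf (P := Itm.ok 206) (iqf tp782_c)))))))))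

/-- all words of the class have labels -/
theorem pokNF2AzE2A2Ax3xA2A2EzAyF : POK 206 xNF2AzE2A2Ax3xA2A2EzAyF :=
  y_pok (C0 := ceNF2AzE2A2Ax3xA2A2EzAyF) (C1 := coNF2AzE2A2Ax3xA2A2EzAyF) topNF2AzE2A2Ax3xA2A2EzAyF nbNF2AzE2A2Ax3xA2A2EzAyF (BT.Fa_of_all iiNF2AzE2A2Ax3xA2A2EzAyF_c)
    (cyE_spec zeNF2AzE2A2Ax3xA2A2EzAyF_0)
    (cyO_spec zoNF2AzE2A2Ax3xA2A2EzAyF_0)
    iiNF2AzE2A2Ax3xA2A2EzAyF_k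

theorem iiNF2AzE2A2Ax3xA2AyEzA2F_k : iiNF2AzE2A2Ax3xA2AyEzA2F.Fa (Itm.ok 206) := (BT.Fa_mk (BT.Fa_mk (BT.Fa_mk (BT.Fa_mk (BT.Fa_mk (BT.Fa_mk (BT.Fa_mk (BT.Fa_leaf (P := Itm.ok 206) (iqf tp447_c)) (BT.Fa_leaf (P := Itm.ok 206) (iqf tp292_c))) (BT.Fa_leaf (P := Itm.ok 206) (iqb tp614_c))) (BT.Fa_mk (BT.Fa_leaf (P := Itm.ok 206) (iqf tp331_c)) (BT.Fa_leaf (P := Itm.ok 206) (iqf tp477_c)))) (BT.Fa_mk (BT.Fa_mk (BT.Fa_mk (BT.Fa_leaf (P := Itm.ok 206) (iqb tp334_c)) (BT.Fa_leaf (P := Itm.ok 206) (iqb tp341_c))) (BT.Fa_leaf (P := Itm.ok 206) (iqf tp615_c))) (BT.Fa_mk (BT.Fa_leaf (P := Itm.ok 206) (iqf tp372_c)) (BT.Fa_leaf (P := Itm.ok 206) (iqb tp372_c))))) (BT.Fa_mk (BT.Fa_mk (BT.Fa_mk (BT.Fa_mk (BT.Fa_leaf (P := Itm.ok 206) (iqf tp587_c)) (BT.Fa_leaf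 (P := Itm.ok 206) (iqb tp587_c))) (BT.Fa_leaf (P := Itm.ok 206) (iqf tp349_c))) (BT.Fa_mk (BT.Fa_leaf (P := Itm.ok 206) (iqb tp783_c)) (BT.Fa_leaf (P := Itm.ok 206) (iqf tp535_c)))) (BT.Fa_mk (BT.Fa_mk (BT.Fa_leaf (P := Itm.ok 206) (iqf tp502_c)) (BT.Fa_leaf (P := Itm.ok 206) (iqb tp784_c))) (BT.Fa_mk (BT.Fa_leaf (P := Itm.ok 206) (iqb tp299_c)) (BT.Fa_leaf (P := Itm.ok 206) (iqf tp727_c)))))) (BT.Fa_mk (BT.Fa_mk (BT.Fa_mk (BT.Fa_mk (BT.Fa_mk (BT.Fa_leaf (P := Itm.ok 206) (iqb tp727_c)) (BT.Fa_leaf (P := Itm.ok 206) (iqf tp663_c))) (BT.Fa_leaf (P := Itm.ok 206) (iqb tp785_c))) (BT.Fa_mk (BT.Fa_leaf (P := Itm.ok 206) (iqb tp694_c)) (BT.Fa_leaf (P := Itm.ok 206) (iqf tp329_c)))) (BT.Fa_mk (BT.Fa_mk (BT.Fa_mk (BT.Fa_leaf (P := Itm.ok 206) (iqb tp329_c))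 (BT.Fa_leaf (P := Itm.ok 206) (iqf tp337_c))) (BT.Fa_leaf (P := Itm.ok 206) (iqb tp337_c))) (BT.Fa_mk (BT.Fa_leaf (P := Itm.ok 206) (iqf tp338_c)) (BT.Fa_leaf (P := Itm.ok 206) (iqb tp338_c))))) (BT.Fa_mk (BT.Fa_mk (BT.Fa_mk (BT.Fa_mk (BT.Fa_leaf (P := Itm.ok 206) (iqb tp369_c)) (BT.Fa_leaf (P := Itm.ok 206) (iqf tp346_c))) (BT.Fa_leaf (P := Itm.ok 206) (iqb tp346_c))) (BT.Fa_mk (BT.Fa_leaf (P := Itm.ok 206) (iqf tp416_c)) (BT.Fa_leaf (P := Itm.ok 206) (iqf tp616_c)))) (BT.Fa_mk (BT.Fa_mk (BT.Fa_leaf (P := Itm.ok 206) (iqf tp352_c)) (BT.Fa_leaf (P := Itm.ok 206) (iqb tp352_c))) (BT.Fa_mk (BT.Fa_leaf (P := Itm.ok 206) (iqb tp520_c)) (BT.Fa_leaf (P := Itm.ok 206) (iqb tp618_c))))))) (BT.Fa_mk (BT.Fa_mk (BT.Fa_mk (BT.Fa_mk (BT.Fa_mk (BT.Fa_mk (BT.Fa_leaf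 (P := Itm.ok 206) (iqb tp398_c)) (BT.Fa_leaf (P := Itm.ok 206) (iqf tp376_c))) (BT.Fa_leaf (P := Itm.ok 206) (iqf tp339_c))) (BT.Fa_mk (BT.Fa_leaf (P := Itm.ok 206) (iqf tp451_c)) (BT.Fa_leaf (P := Itm.ok 206) (iqb tp452_c)))) (BT.Fa_mk (BT.Fa_mk (BT.Fa_mk (BT.Fa_leaf (P := Itm.ok 206) (iqf tp786_c)) (BT.Fa_leaf (P := Itm.ok 206) (iqf tp787_c))) (BT.Fa_leaf (P := Itm.ok 206) (iqb tp406_c))) (BT.Fa_mk (BT.Fa_leaf (P := Itm.ok 206) (iqf tp475_c)) (BT.Fa_leaf (P := Itm.ok 206) (iqb tp475_c))))) (BT.Fa_mk (BT.Fa_mk (BT.Fa_mk (BT.Fa_mk (BT.Fa_leaf (P := Itm.ok 206) (iqf tp628_c)) (BT.Fa_leaf (P := Itm.ok 206) (iqf tp619_c))) (BT.Fa_leaf (P := Itm.ok 206) (iqb tp456_c))) (BT.Fa_mk (BT.Fa_leaf (P := Itm.ok 206) (iqb tp431_c)) (BT.Fa_leaf (P := Itm.ok 206)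 (iqf tp788_c)))) (BT.Fa_mk (BT.Fa_mk (BT.Fa_leaf (P := Itm.ok 206) (iqb tp789_c)) (BT.Fa_leaf (P := Itm.ok 206) (iqb tp361_c))) (BT.Fa_mk (BT.Fa_leaf (P := Itm.ok 206) (iqf tp373_c)) (BT.Fa_leaf (P := Itm.ok 206) (iqf tp351_c)))))) (BT.Fa_mk (BT.Fa_mk (BT.Fa_mk (BT.Fa_mk (BT.Fa_mk (BT.Fa_leaf (P := Itm.ok 206) (iqf tp367_c)) (BT.Fa_leaf (P := Itm.ok 206) (iqf tp334_c))) (BT.Fa_leaf (P := Itm.ok 206) (iqf tp353_c))) (BT.Fa_mk (BT.Fa_leaf (P := Itm.ok 206) (iqb tp413_c)) (BT.Fa_leaf (P := Itm.ok 206) (iqf tp326_c)))) (BT.Fa_mk (BT.Fa_mk (BT.Fa_leaf (P := Itm.ok 206) (iqb tp433_c)) (BT.Fa_leaf (P := Itm.ok 206) (iqf tp341_c))) (BT.Fa_mk (BT.Fa_leaf (P := Itm.ok 206) (iqb tp790_c)) (BT.Fa_leaf (P := Itm.ok 206) (iqb tp791_c))))) (BT.Fa_mk (BT.Fa_mk (BT.Fa_mk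 (BT.Fa_mk (BT.Fa_leaf (P := Itm.ok 206) (iqf tp792_c)) (BT.Fa_leaf (P := Itm.ok 206) (iqb tp793_c))) (BT.Fa_leaf (P := Itm.ok 206) (iqf tp794_c))) (BT.Fa_mk (BT.Fa_leaf (P := Itm.ok 206) (iqb tp663_c)) (BT.Fa_leaf (P := Itm.ok 206) (iqb tp292_c)))) (BT.Fa_mk (BT.Fa_mk (BT.Fa_leaf (P := Itm.ok 206) (iqb tp616_c)) (BT.Fa_leaf (P := Itm.ok 206) (iqb tp795_c))) (BT.Fa_mk (BT.Fa_leaf (P := Itm.ok 206) (iqb tp466_c)) (BT.Fa_leaf (P := Itm.ok 206) (iqf tp796_c))))))))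

/-- all words of the class have labels -/
theorem pokNF2AzE2A2Ax3xA2AyEzA2F : POK 206 xNF2AzE2A2Ax3xA2AyEzA2F :=
  y_pok (C0 := ceNF2AzE2A2Ax3xA2AyEzA2F) (C1 := coNF2AzE2A2Ax3xA2AyEzA2F) topNF2AzE2A2Ax3xA2AyEzA2F nbNF2AzE2A2Ax3xA2AyEzA2F (BT.Fa_of_all iiNF2AzE2A2Ax3xA2AyEzA2F_c)
    (cyE_spec zeNF2AzE2A2Ax3xA2AyEzA2F_0)
    (cyO_spec zoNF2AzE2A2Ax3xA2AyEzA2F_0)
    iiNF2AzE2A2Ax3xA2AyEzA2F_k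

theorem iiNF2AzE2A2Ax3xA2AyEzAyF_k : iiNF2AzE2A2Ax3xA2AyEzAyF.Fa (Itm.ok 206) := (BT.Fa_mk (BT.Fa_mk (BT.Fa_mk (BT.Fa_mk (BT.Fa_mk (BT.Fa_mk (BT.Fa_mk (BT.Fa_mk (BT.Fa_mk (BT.Fa_leaf (P := Itm.ok 206) (iqb tp292_c)) (BT.Fa_leaf (P := Itm.ok 206) (iqb tp797_c))) (BT.Fa_leaf (P := Itm.ok 206) (iqf tp798_c))) (BT.Fa_mk (BT.Fa_leaf (P := Itm.ok 206) (iqf tp628_c)) (BT.Fa_leaf (P := Itm.ok 206) (iqf tp361_c)))) (BT.Fa_mk (BT.Fa_mk (BT.Fa_leaf (P := Itm.ok 206) (iqf tp362_c)) (BT.Fa_leaf (P := Itm.ok 206) (iqb tp799_c))) (BT.Fa_mk (BT.Fa_leaf (P := Itm.ok 206) (iqf tp366_c)) (BT.Fa_leaf (P := Itm.ok 206) (iqf tp346_c))))) (BT.Fa_mk (BT.Fa_mk (BT.Fa_mk (BT.Fa_leaf (P := Itm.ok 206) (iqb tp800_c)) (BT.Fa_leaf (P := Itm.ok 206) (iqf tp640_c))) (BT.Fa_mk (BT.Fa_leaf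 (P := Itm.ok 206) (iqb tp358_c)) (BT.Fa_leaf (P := Itm.ok 206) (iqf tp705_c)))) (BT.Fa_mk (BT.Fa_mk (BT.Fa_leaf (P := Itm.ok 206) (iqb tp801_c)) (BT.Fa_leaf (P := Itm.ok 206) (iqb tp367_c))) (BT.Fa_mk (BT.Fa_leaf (P := Itm.ok 206) (iqb tp366_c)) (BT.Fa_leaf (P := Itm.ok 206) (iqb tp644_c)))))) (BT.Fa_mk (BT.Fa_mk (BT.Fa_mk (BT.Fa_mk (BT.Fa_leaf (P := Itm.ok 206) (iqf tp802_c)) (BT.Fa_leaf (P := Itm.ok 206) (iqb tp450_c))) (BT.Fa_mk (BT.Fa_leaf (P := Itm.ok 206) (iqf tp803_c)) (BT.Fa_leaf (P := Itm.ok 206) (iqb tp804_c)))) (BT.Fa_mk (BT.Fa_mk (BT.Fa_leaf (P := Itm.ok 206) (iqb tp408_c)) (BT.Fa_leaf (P := Itm.ok 206) (iqb tp805_c))) (BT.Fa_mk (BT.Fa_leaf (P := Itm.ok 206) (iqb tp534_c)) (BT.Fa_leaf (P := Itm.ok 206) (iqb tp502_c))))) (BT.Fa_mk (BT.Fa_mk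 (BT.Fa_mk (BT.Fa_leaf (P := Itm.ok 206) (iqb tp337_c)) (BT.Fa_leaf (P := Itm.ok 206) (iqf tp806_c))) (BT.Fa_mk (BT.Fa_leaf (P := Itm.ok 206) (iqf tp299_c)) (BT.Fa_leaf (P := Itm.ok 206) (iqf tp807_c)))) (BT.Fa_mk (BT.Fa_mk (BT.Fa_leaf (P := Itm.ok 206) (iqb tp647_c)) (BT.Fa_leaf (P := Itm.ok 206) (iqb tp808_c))) (BT.Fa_mk (BT.Fa_leaf (P := Itm.ok 206) (iqb tp338_c)) (BT.Fa_leaf (P := Itm.ok 206) (iqb tp809_c))))))) (BT.Fa_mk (BT.Fa_mk (BT.Fa_mk (BT.Fa_mk (BT.Fa_mk (BT.Fa_mk (BT.Fa_leaf (P := Itm.ok 206) (iqf tp810_c)) (BT.Fa_leaf (P := Itm.ok 206) (iqb tp649_c))) (BT.Fa_leaf (P := Itm.ok 206) (iqf tp811_c))) (BT.Fa_mk (BT.Fa_leaf (P := Itm.ok 206) (iqf tp812_c)) (BT.Fa_leaf (P := Itm.ok 206) (iqb tp488_c)))) (BT.Fa_mk (BT.Fa_mk (BT.Fa_leaf (P := Itm.ok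 206) (iqf tp813_c)) (BT.Fa_leaf (P := Itm.ok 206) (iqb tp719_c))) (BT.Fa_mk (BT.Fa_leaf (P := Itm.ok 206) (iqb tp654_c)) (BT.Fa_leaf (P := Itm.ok 206) (iqb tp633_c))))) (BT.Fa_mk (BT.Fa_mk (BT.Fa_mk (BT.Fa_leaf (P := Itm.ok 206) (iqf tp814_c)) (BT.Fa_leaf (P := Itm.ok 206) (iqb tp783_c))) (BT.Fa_mk (BT.Fa_leaf (P := Itm.ok 206) (iqb tp656_c)) (BT.Fa_leaf (P := Itm.ok 206) (iqf tp815_c)))) (BT.Fa_mk (BT.Fa_mk (BT.Fa_leaf (P := Itm.ok 206) (iqf tp816_c)) (BT.Fa_leaf (P := Itm.ok 206) (iqb tp462_c))) (BT.Fa_mk (BT.Fa_leaf (P := Itm.ok 206) (iqf tp817_c)) (BT.Fa_leaf (P := Itm.ok 206) (iqf tp818_c)))))) (BT.Fa_mk (BT.Fa_mk (BT.Fa_mk (BT.Fa_mk (BT.Fa_leaf (P := Itm.ok 206) (iqf tp819_c)) (BT.Fa_leaf (P := Itm.ok 206) (iqf tp329_c))) (BT.Fa_mk (BT.Fa_leaf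 (P := Itm.ok 206) (iqf tp820_c)) (BT.Fa_leaf (P := Itm.ok 206) (iqb tp821_c)))) (BT.Fa_mk (BT.Fa_mk (BT.Fa_leaf (P := Itm.ok 206) (iqf tp822_c)) (BT.Fa_leaf (P := Itm.ok 206) (iqb tp823_c))) (BT.Fa_mk (BT.Fa_leaf (P := Itm.ok 206) (iqb tp514_c)) (BT.Fa_leaf (P := Itm.ok 206) (iqf tp824_c))))) (BT.Fa_mk (BT.Fa_mk (BT.Fa_mk (BT.Fa_leaf (P := Itm.ok 206) (iqf tp345_c)) (BT.Fa_leaf (P := Itm.ok 206) (iqf tp825_c))) (BT.Fa_mk (BT.Fa_leaf (P := Itm.ok 206) (iqf tp826_c)) (BT.Fa_leaf (P := Itm.ok 206) (iqf tp827_c)))) (BT.Fa_mk (BT.Fa_mk (BT.Fa_leaf (P := Itm.ok 206) (iqf tp450_c)) (BT.Fa_leaf (P := Itm.ok 206) (iqf tp828_c))) (BT.Fa_mk (BT.Fa_leaf (P := Itm.ok 206) (iqf tp472_c)) (BT.Fa_leaf (P := Itm.ok 206) (iqf tp659_c)))))))) (BT.Fa_mk (BT.Fa_mk (BT.Fa_mk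 (BT.Fa_mk (BT.Fa_mk (BT.Fa_mk (BT.Fa_mk (BT.Fa_leaf (P := Itm.ok 206) (iqf tp829_c)) (BT.Fa_leaf (P := Itm.ok 206) (iqf tp343_c))) (BT.Fa_leaf (P := Itm.ok 206) (iqf tp830_c))) (BT.Fa_mk (BT.Fa_leaf (P := Itm.ok 206) (iqb tp831_c)) (BT.Fa_leaf (P := Itm.ok 206) (iqb tp832_c)))) (BT.Fa_mk (BT.Fa_mk (BT.Fa_leaf (P := Itm.ok 206) (iqf tp671_c)) (BT.Fa_leaf (P := Itm.ok 206) (iqb tp833_c))) (BT.Fa_mk (BT.Fa_leaf (P := Itm.ok 206) (iqf tp834_c)) (BT.Fa_leaf (P := Itm.ok 206) (iqf tp835_c))))) (BT.Fa_mk (BT.Fa_mk (BT.Fa_mk (BT.Fa_leaf (P := Itm.ok 206) (iqf tp595_c)) (BT.Fa_leaf (P := Itm.ok 206) (iqf tp530_c))) (BT.Fa_mk (BT.Fa_leaf (P := Itm.ok 206) (iqf tp836_c)) (BT.Fa_leaf (P := Itm.ok 206) (iqf tp670_c)))) (BT.Fa_mk (BT.Fa_mk (BT.Fa_leaf (P := Itm.ok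 206) (iqf tp837_c)) (BT.Fa_leaf (P := Itm.ok 206) (iqb tp666_c))) (BT.Fa_mk (BT.Fa_leaf (P := Itm.ok 206) (iqf tp695_c)) (BT.Fa_leaf (P := Itm.ok 206) (iqf tp838_c)))))) (BT.Fa_mk (BT.Fa_mk (BT.Fa_mk (BT.Fa_mk (BT.Fa_leaf (P := Itm.ok 206) (iqb tp589_c)) (BT.Fa_leaf (P := Itm.ok 206) (iqf tp342_c))) (BT.Fa_mk (BT.Fa_leaf (P := Itm.ok 206) (iqf tp839_c)) (BT.Fa_leaf (P := Itm.ok 206) (iqf tp762_c)))) (BT.Fa_mk (BT.Fa_mk (BT.Fa_leaf (P := Itm.ok 206) (iqf tp562_c)) (BT.Fa_leaf (P := Itm.ok 206) (iqb tp398_c))) (BT.Fa_mk (BT.Fa_leaf (P := Itm.ok 206) (iqf tp352_c)) (BT.Fa_leaf (P := Itm.ok 206) (iqf tp763_c))))) (BT.Fa_mk (BT.Fa_mk (BT.Fa_mk (BT.Fa_leaf (P := Itm.ok 206) (iqf tp840_c)) (BT.Fa_leaf (P := Itm.ok 206) (iqf tp406_c))) (BT.Fa_mk (BT.Fa_leaf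 (P := Itm.ok 206) (iqf tp675_c)) (BT.Fa_leaf (P := Itm.ok 206) (iqf tp740_c)))) (BT.Fa_mk (BT.Fa_mk (BT.Fa_leaf (P := Itm.ok 206) (iqf tp678_c)) (BT.Fa_leaf (P := Itm.ok 206) (iqb tp841_c))) (BT.Fa_mk (BT.Fa_leaf (P := Itm.ok 206) (iqb tp416_c)) (BT.Fa_leaf (P := Itm.ok 206) (iqf tp341_c))))))) (BT.Fa_mk (BT.Fa_mk (BT.Fa_mk (BT.Fa_mk (BT.Fa_mk (BT.Fa_mk (BT.Fa_leaf (P := Itm.ok 206) (iqf tp617_c)) (BT.Fa_leaf (P := Itm.ok 206) (iqb tp678_c))) (BT.Fa_leaf (P := Itm.ok 206) (iqf tp641_c))) (BT.Fa_mk (BT.Fa_leaf (P := Itm.ok 206) (iqb tp842_c)) (BT.Fa_leaf (P := Itm.ok 206) (iqf tp587_c)))) (BT.Fa_mk (BT.Fa_mk (BT.Fa_leaf (P := Itm.ok 206) (iqb tp372_c)) (BT.Fa_leaf (P := Itm.ok 206) (iqb tp664_c))) (BT.Fa_mk (BT.Fa_leaf (P := Itm.ok 206) (iqf tp843_c))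 (BT.Fa_leaf (P := Itm.ok 206) (iqb tp844_c))))) (BT.Fa_mk (BT.Fa_mk (BT.Fa_mk (BT.Fa_leaf (P := Itm.ok 206) (iqf tp434_c)) (BT.Fa_leaf (P := Itm.ok 206) (iqb tp845_c))) (BT.Fa_mk (BT.Fa_leaf (P := Itm.ok 206) (iqb tp504_c)) (BT.Fa_leaf (P := Itm.ok 206) (iqb tp711_c)))) (BT.Fa_mk (BT.Fa_mk (BT.Fa_leaf (P := Itm.ok 206) (iqb tp378_c)) (BT.Fa_leaf (P := Itm.ok 206) (iqf tp846_c))) (BT.Fa_mk (BT.Fa_leaf (P := Itm.ok 206) (iqf tp679_c)) (BT.Fa_leaf (P := Itm.ok 206) (iqf tp847_c)))))) (BT.Fa_mk (BT.Fa_mk (BT.Fa_mk (BT.Fa_mk (BT.Fa_leaf (P := Itm.ok 206) (iqf tp848_c)) (BT.Fa_leaf (P := Itm.ok 206) (iqb tp533_c))) (BT.Fa_mk (BT.Fa_leaf (P := Itm.ok 206) (iqf tp849_c)) (BT.Fa_leaf (P := Itm.ok 206) (iqb tp529_c)))) (BT.Fa_mk (BT.Fa_mk (BT.Fa_leaf (P := Itm.ok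 206) (iqf tp850_c)) (BT.Fa_leaf (P := Itm.ok 206) (iqb tp590_c))) (BT.Fa_mk (BT.Fa_leaf (P := Itm.ok 206) (iqf tp851_c)) (BT.Fa_leaf (P := Itm.ok 206) (iqf tp638_c))))) (BT.Fa_mk (BT.Fa_mk (BT.Fa_mk (BT.Fa_leaf (P := Itm.ok 206) (iqb tp576_c)) (BT.Fa_leaf (P := Itm.ok 206) (iqf tp852_c))) (BT.Fa_mk (BT.Fa_leaf (P := Itm.ok 206) (iqb tp703_c)) (BT.Fa_leaf (P := Itm.ok 206) (iqb tp351_c)))) (BT.Fa_mk (BT.Fa_mk (BT.Fa_leaf (P := Itm.ok 206) (iqb tp853_c)) (BT.Fa_leaf (P := Itm.ok 206) (iqf tp854_c))) (BT.Fa_mk (BT.Fa_leaf (P := Itm.ok 206) (iqf tp855_c)) (BT.Fa_leaf (P := Itm.ok 206) (iqb tp623_c))))))))) (BT.Fa_mk (BT.Fa_mk (BT.Fa_mk (BT.Fa_mk (BT.Fa_mk (BT.Fa_mk (BT.Fa_mk (BT.Fa_mk (BT.Fa_leaf (P := Itm.ok 206) (iqf tp385_c)) (BT.Fa_leaf (P := Itm.ok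 206) (iqb tp856_c))) (BT.Fa_leaf (P := Itm.ok 206) (iqb tp402_c))) (BT.Fa_mk (BT.Fa_leaf (P := Itm.ok 206) (iqf tp597_c)) (BT.Fa_leaf (P := Itm.ok 206) (iqf tp588_c)))) (BT.Fa_mk (BT.Fa_mk (BT.Fa_leaf (P := Itm.ok 206) (iqb tp359_c)) (BT.Fa_leaf (P := Itm.ok 206) (iqf tp447_c))) (BT.Fa_mk (BT.Fa_leaf (P := Itm.ok 206) (iqb tp857_c)) (BT.Fa_leaf (P := Itm.ok 206) (iqb tp376_c))))) (BT.Fa_mk (BT.Fa_mk (BT.Fa_mk (BT.Fa_leaf (P := Itm.ok 206) (iqf tp444_c)) (BT.Fa_leaf (P := Itm.ok 206) (iqf tp694_c))) (BT.Fa_mk (BT.Fa_leaf (P := Itm.ok 206) (iqb tp858_c)) (BT.Fa_leaf (P := Itm.ok 206) (iqb tp859_c)))) (BT.Fa_mk (BT.Fa_mk (BT.Fa_leaf (P := Itm.ok 206) (iqb tp591_c)) (BT.Fa_leaf (P := Itm.ok 206) (iqb tp780_c))) (BT.Fa_mk (BT.Fa_leaf (P := Itm.ok 206) (iqb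 tp700_c)) (BT.Fa_leaf (P := Itm.ok 206) (iqb tp860_c)))))) (BT.Fa_mk (BT.Fa_mk (BT.Fa_mk (BT.Fa_mk (BT.Fa_leaf (P := Itm.ok 206) (iqf tp861_c)) (BT.Fa_leaf (P := Itm.ok 206) (iqb tp341_c))) (BT.Fa_mk (BT.Fa_leaf (P := Itm.ok 206) (iqb tp448_c)) (BT.Fa_leaf (P := Itm.ok 206) (iqf tp532_c)))) (BT.Fa_mk (BT.Fa_mk (BT.Fa_leaf (P := Itm.ok 206) (iqf tp348_c)) (BT.Fa_leaf (P := Itm.ok 206) (iqb tp349_c))) (BT.Fa_mk (BT.Fa_leaf (P := Itm.ok 206) (iqf tp702_c)) (BT.Fa_leaf (P := Itm.ok 206) (iqf tp713_c))))) (BT.Fa_mk (BT.Fa_mk (BT.Fa_mk (BT.Fa_leaf (P := Itm.ok 206) (iqb tp862_c)) (BT.Fa_leaf (P := Itm.ok 206) (iqb tp863_c))) (BT.Fa_mk (BT.Fa_leaf (P := Itm.ok 206) (iqf tp682_c)) (BT.Fa_leaf (P := Itm.ok 206) (iqf tp665_c)))) (BT.Fa_mk (BT.Fa_mk (BT.Fa_leaf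 (P := Itm.ok 206) (iqb tp864_c)) (BT.Fa_leaf (P := Itm.ok 206) (iqb tp865_c))) (BT.Fa_mk (BT.Fa_leaf (P := Itm.ok 206) (iqf tp696_c)) (BT.Fa_leaf (P := Itm.ok 206) (iqb tp342_c))))))) (BT.Fa_mk (BT.Fa_mk (BT.Fa_mk (BT.Fa_mk (BT.Fa_mk (BT.Fa_mk (BT.Fa_leaf (P := Itm.ok 206) (iqf tp866_c)) (BT.Fa_leaf (P := Itm.ok 206) (iqb tp629_c))) (BT.Fa_leaf (P := Itm.ok 206) (iqf tp710_c))) (BT.Fa_mk (BT.Fa_leaf (P := Itm.ok 206) (iqb tp651_c)) (BT.Fa_leaf (P := Itm.ok 206) (iqb tp867_c)))) (BT.Fa_mk (BT.Fa_mk (BT.Fa_leaf (P := Itm.ok 206) (iqf tp868_c)) (BT.Fa_leaf (P := Itm.ok 206) (iqf tp714_c))) (BT.Fa_mk (BT.Fa_leaf (P := Itm.ok 206) (iqb tp869_c)) (BT.Fa_leaf (P := Itm.ok 206) (iqf tp716_c))))) (BT.Fa_mk (BT.Fa_mk (BT.Fa_mk (BT.Fa_leaf (P := Itm.ok 206) (iqf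 tp870_c)) (BT.Fa_leaf (P := Itm.ok 206) (iqf tp871_c))) (BT.Fa_mk (BT.Fa_leaf (P := Itm.ok 206) (iqb tp555_c)) (BT.Fa_leaf (P := Itm.ok 206) (iqf tp872_c)))) (BT.Fa_mk (BT.Fa_mk (BT.Fa_leaf (P := Itm.ok 206) (iqb tp718_c)) (BT.Fa_leaf (P := Itm.ok 206) (iqb tp717_c))) (BT.Fa_mk (BT.Fa_leaf (P := Itm.ok 206) (iqf tp873_c)) (BT.Fa_leaf (P := Itm.ok 206) (iqb tp642_c)))))) (BT.Fa_mk (BT.Fa_mk (BT.Fa_mk (BT.Fa_mk (BT.Fa_leaf (P := Itm.ok 206) (iqf tp874_c)) (BT.Fa_leaf (P := Itm.ok 206) (iqf tp875_c))) (BT.Fa_mk (BT.Fa_leaf (P := Itm.ok 206) (iqf tp697_c)) (BT.Fa_leaf (P := Itm.ok 206) (iqb tp723_c)))) (BT.Fa_mk (BT.Fa_mk (BT.Fa_leaf (P := Itm.ok 206) (iqb tp876_c)) (BT.Fa_leaf (P := Itm.ok 206) (iqf tp726_c))) (BT.Fa_mk (BT.Fa_leaf (P := Itm.ok 206) (iqb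 tp745_c)) (BT.Fa_leaf (P := Itm.ok 206) (iqb tp877_c))))) (BT.Fa_mk (BT.Fa_mk (BT.Fa_mk (BT.Fa_leaf (P := Itm.ok 206) (iqf tp660_c)) (BT.Fa_leaf (P := Itm.ok 206) (iqb tp685_c))) (BT.Fa_mk (BT.Fa_leaf (P := Itm.ok 206) (iqf tp878_c)) (BT.Fa_leaf (P := Itm.ok 206) (iqf tp879_c)))) (BT.Fa_mk (BT.Fa_mk (BT.Fa_leaf (P := Itm.ok 206) (iqf tp880_c)) (BT.Fa_leaf (P := Itm.ok 206) (iqb tp683_c))) (BT.Fa_mk (BT.Fa_leaf (P := Itm.ok 206) (iqf tp882_c)) (BT.Fa_leaf (P := Itm.ok 206) (iqf tp883_c)))))))) (BT.Fa_mk (BT.Fa_mk (BT.Fa_mk (BT.Fa_mk (BT.Fa_mk (BT.Fa_mk (BT.Fa_mk (BT.Fa_leaf (P := Itm.ok 206) (iqf tp359_c)) (BT.Fa_leaf (P := Itm.ok 206) (iqf tp884_c))) (BT.Fa_leaf (P := Itm.ok 206) (iqf tp885_c))) (BT.Fa_mk (BT.Fa_leaf (P := Itm.ok 206) (iqf tp886_c))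 (BT.Fa_leaf (P := Itm.ok 206) (iqf tp887_c)))) (BT.Fa_mk (BT.Fa_mk (BT.Fa_leaf (P := Itm.ok 206) (iqf tp888_c)) (BT.Fa_leaf (P := Itm.ok 206) (iqb tp889_c))) (BT.Fa_mk (BT.Fa_leaf (P := Itm.ok 206) (iqb tp890_c)) (BT.Fa_leaf (P := Itm.ok 206) (iqf tp891_c))))) (BT.Fa_mk (BT.Fa_mk (BT.Fa_mk (BT.Fa_leaf (P := Itm.ok 206) (iqf tp892_c)) (BT.Fa_leaf (P := Itm.ok 206) (iqf tp571_c))) (BT.Fa_mk (BT.Fa_leaf (P := Itm.ok 206) (iqb tp893_c)) (BT.Fa_leaf (P := Itm.ok 206) (iqb tp894_c)))) (BT.Fa_mk (BT.Fa_mk (BT.Fa_leaf (P := Itm.ok 206) (iqf tp895_c)) (BT.Fa_leaf (P := Itm.ok 206) (iqf tp896_c))) (BT.Fa_mk (BT.Fa_leaf (P := Itm.ok 206) (iqb tp897_c)) (BT.Fa_leaf (P := Itm.ok 206) (iqf tp898_c)))))) (BT.Fa_mk (BT.Fa_mk (BT.Fa_mk (BT.Fa_mk (BT.Fa_leaf (P := Itm.ok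 206) (iqf tp899_c)) (BT.Fa_leaf (P := Itm.ok 206) (iqb tp756_c))) (BT.Fa_mk (BT.Fa_leaf (P := Itm.ok 206) (iqb tp828_c)) (BT.Fa_leaf (P := Itm.ok 206) (iqb tp344_c)))) (BT.Fa_mk (BT.Fa_mk (BT.Fa_leaf (P := Itm.ok 206) (iqf tp558_c)) (BT.Fa_leaf (P := Itm.ok 206) (iqf tp900_c))) (BT.Fa_mk (BT.Fa_leaf (P := Itm.ok 206) (iqf tp901_c)) (BT.Fa_leaf (P := Itm.ok 206) (iqf tp902_c))))) (BT.Fa_mk (BT.Fa_mk (BT.Fa_mk (BT.Fa_leaf (P := Itm.ok 206) (iqb tp903_c)) (BT.Fa_leaf (P := Itm.ok 206) (iqf tp904_c))) (BT.Fa_mk (BT.Fa_leaf (P := Itm.ok 206) (iqf tp905_c)) (BT.Fa_leaf (P := Itm.ok 206) (iqb tp906_c)))) (BT.Fa_mk (BT.Fa_mk (BT.Fa_leaf (P := Itm.ok 206) (iqf tp907_c)) (BT.Fa_leaf (P := Itm.ok 206) (iqf tp402_c))) (BT.Fa_mk (BT.Fa_leaf (P := Itm.ok 206) (iqf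 tp732_c)) (BT.Fa_leaf (P := Itm.ok 206) (iqf tp774_c))))))) (BT.Fa_mk (BT.Fa_mk (BT.Fa_mk (BT.Fa_mk (BT.Fa_mk (BT.Fa_mk (BT.Fa_leaf (P := Itm.ok 206) (iqf tp908_c)) (BT.Fa_leaf (P := Itm.ok 206) (iqf tp700_c))) (BT.Fa_leaf (P := Itm.ok 206) (iqf tp910_c))) (BT.Fa_mk (BT.Fa_leaf (P := Itm.ok 206) (iqb tp911_c)) (BT.Fa_leaf (P := Itm.ok 206) (iqf tp912_c)))) (BT.Fa_mk (BT.Fa_mk (BT.Fa_leaf (P := Itm.ok 206) (iqb tp551_c)) (BT.Fa_leaf (P := Itm.ok 206) (iqf tp913_c))) (BT.Fa_mk (BT.Fa_leaf (P := Itm.ok 206) (iqf tp915_c)) (BT.Fa_leaf (P := Itm.ok 206) (iqb tp916_c))))) (BT.Fa_mk (BT.Fa_mk (BT.Fa_mk (BT.Fa_leaf (P := Itm.ok 206) (iqb tp917_c)) (BT.Fa_leaf (P := Itm.ok 206) (iqf tp918_c))) (BT.Fa_mk (BT.Fa_leaf (P := Itm.ok 206) (iqb tp919_c)) (BT.Fa_leaf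 (P := Itm.ok 206) (iqf tp631_c)))) (BT.Fa_mk (BT.Fa_mk (BT.Fa_leaf (P := Itm.ok 206) (iqf tp920_c)) (BT.Fa_leaf (P := Itm.ok 206) (iqb tp655_c))) (BT.Fa_mk (BT.Fa_leaf (P := Itm.ok 206) (iqb tp921_c)) (BT.Fa_leaf (P := Itm.ok 206) (iqf tp454_c)))))) (BT.Fa_mk (BT.Fa_mk (BT.Fa_mk (BT.Fa_mk (BT.Fa_leaf (P := Itm.ok 206) (iqf tp922_c)) (BT.Fa_leaf (P := Itm.ok 206) (iqf tp923_c))) (BT.Fa_mk (BT.Fa_leaf (P := Itm.ok 206) (iqf tp924_c)) (BT.Fa_leaf (P := Itm.ok 206) (iqf tp925_c)))) (BT.Fa_mk (BT.Fa_mk (BT.Fa_leaf (P := Itm.ok 206) (iqf tp926_c)) (BT.Fa_leaf (P := Itm.ok 206) (iqf tp927_c))) (BT.Fa_mk (BT.Fa_leaf (P := Itm.ok 206) (iqb tp928_c)) (BT.Fa_leaf (P := Itm.ok 206) (iqf tp929_c))))) (BT.Fa_mk (BT.Fa_mk (BT.Fa_mk (BT.Fa_leaf (P := Itm.ok 206) (iqf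 tp930_c)) (BT.Fa_leaf (P := Itm.ok 206) (iqb tp931_c))) (BT.Fa_mk (BT.Fa_leaf (P := Itm.ok 206) (iqf tp932_c)) (BT.Fa_leaf (P := Itm.ok 206) (iqb tp933_c)))) (BT.Fa_mk (BT.Fa_mk (BT.Fa_leaf (P := Itm.ok 206) (iqb tp634_c)) (BT.Fa_leaf (P := Itm.ok 206) (iqf tp934_c))) (BT.Fa_mk (BT.Fa_leaf (P := Itm.ok 206) (iqf tp782_c)) (BT.Fa_leaf (P := Itm.ok 206) (iqf tp770_c))))))))))

/-- all words of the class have labels -/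
theorem pokNF2AzE2A2Ax3xA2AyEzAyF : POK 206 xNF2AzE2A2Ax3xA2AyEzAyF :=
  y_pok (C0 := ceNF2AzE2A2Ax3xA2AyEzAyF) (C1 := coNF2AzE2A2Ax3xA2AyEzAyF) topNF2AzE2A2Ax3xA2AyEzAyF nbNF2AzE2A2Ax3xA2AyEzAyF (BT.Fa_of_all iiNF2AzE2A2Ax3xA2AyEzAyF_c)
    (cyE_spec zeNF2AzE2A2Ax3xA2AyEzAyF_0)
    (cyO_spec zoNF2AzE2A2Ax3xA2AyEzAyF_0)
    iiNF2AzE2A2Ax3xA2AyEzAyF_k

theorem iiNF2AzE2A2Ax3xA2AyEzAzF_k : iiNF2AzE2A2Ax3xA2AyEzAzF.Fa (Itm.ok 206) := (BT.Fa_mk (BT.Fa_mk (BT.Fa_mk (BT.Fa_mk (BT.Fa_mk (BT.Fa_mk (BT.Fa_mk (BT.Fa_leaf (P := Itm.ok 206) (iqf tp388_c)) (BT.Fa_leaf (P := Itm.ok 206) (iqf tp319_c))) (BT.Fa_leaf (P := Itm.ok 206) (iqf tp292_c))) (BT.Fa_mk (BT.Fa_leaf (P := Itm.ok 206) (iqb tp324_c)) (BT.Fa_leaf (P := Itm.ok 206) (iqf tp326_c)))) (BT.Fa_mk (BT.Fa_mk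 (BT.Fa_mk (BT.Fa_leaf (P := Itm.ok 206) (iqb tp326_c)) (BT.Fa_leaf (P := Itm.ok 206) (iqf tp935_c))) (BT.Fa_leaf (P := Itm.ok 206) (iqf tp936_c))) (BT.Fa_mk (BT.Fa_leaf (P := Itm.ok 206) (iqf tp329_c)) (BT.Fa_leaf (P := Itm.ok 206) (iqb tp331_c))))) (BT.Fa_mk (BT.Fa_mk (BT.Fa_mk (BT.Fa_mk (BT.Fa_leaf (P := Itm.ok 206) (iqb tp426_c)) (BT.Fa_leaf (P := Itm.ok 206) (iqf tp333_c))) (BT.Fa_leaf (P := Itm.ok 206) (iqb tp614_c))) (BT.Fa_mk (BT.Fa_leaf (P := Itm.ok 206) (iqf tp475_c)) (BT.Fa_leaf (P := Itm.ok 206) (iqf tp334_c)))) (BT.Fa_mk (BT.Fa_mk (BT.Fa_mk (BT.Fa_leaf (P := Itm.ok 206) (iqb tp334_c)) (BT.Fa_leaf (P := Itm.ok 206) (iqb tp419_c))) (BT.Fa_leaf (P := Itm.ok 206) (iqb tp337_c))) (BT.Fa_mk (BT.Fa_leaf (P := Itm.ok 206) (iqb tp338_c)) (BT.Fa_leaf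 (P := Itm.ok 206) (iqf tp937_c)))))) (BT.Fa_mk (BT.Fa_mk (BT.Fa_mk (BT.Fa_mk (BT.Fa_mk (BT.Fa_leaf (P := Itm.ok 206) (iqb tp340_c)) (BT.Fa_leaf (P := Itm.ok 206) (iqf tp342_c))) (BT.Fa_leaf (P := Itm.ok 206) (iqf tp399_c))) (BT.Fa_mk (BT.Fa_leaf (P := Itm.ok 206) (iqf tp369_c)) (BT.Fa_leaf (P := Itm.ok 206) (iqb tp433_c)))) (BT.Fa_mk (BT.Fa_mk (BT.Fa_mk (BT.Fa_leaf (P := Itm.ok 206) (iqf tp299_c)) (BT.Fa_leaf (P := Itm.ok 206) (iqb tp493_c))) (BT.Fa_leaf (P := Itm.ok 206) (iqf tp597_c))) (BT.Fa_mk (BT.Fa_leaf (P := Itm.ok 206) (iqf tp447_c)) (BT.Fa_leaf (P := Itm.ok 206) (iqb tp403_c))))) (BT.Fa_mk (BT.Fa_mk (BT.Fa_mk (BT.Fa_mk (BT.Fa_leaf (P := Itm.ok 206) (iqf tp345_c)) (BT.Fa_leaf (P := Itm.ok 206) (iqf tp346_c))) (BT.Fa_leaf (P := Itm.ok 206) (iqf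 tp404_c))) (BT.Fa_mk (BT.Fa_leaf (P := Itm.ok 206) (iqf tp347_c)) (BT.Fa_leaf (P := Itm.ok 206) (iqf tp348_c)))) (BT.Fa_mk (BT.Fa_mk (BT.Fa_mk (BT.Fa_leaf (P := Itm.ok 206) (iqb tp416_c)) (BT.Fa_leaf (P := Itm.ok 206) (iqf tp312_c))) (BT.Fa_leaf (P := Itm.ok 206) (iqf tp405_c))) (BT.Fa_mk (BT.Fa_leaf (P := Itm.ok 206) (iqb tp654_c)) (BT.Fa_leaf (P := Itm.ok 206) (iqf tp406_c))))))) (BT.Fa_mk (BT.Fa_mk (BT.Fa_mk (BT.Fa_mk (BT.Fa_mk (BT.Fa_mk (BT.Fa_leaf (P := Itm.ok 206) (iqf tp616_c)) (BT.Fa_leaf (P := Itm.ok 206) (iqf tp648_c))) (BT.Fa_leaf (P := Itm.ok 206) (iqf tp938_c))) (BT.Fa_mk (BT.Fa_leaf (P := Itm.ok 206) (iqf tp351_c)) (BT.Fa_leaf (P := Itm.ok 206) (iqb tp354_c)))) (BT.Fa_mk (BT.Fa_mk (BT.Fa_mk (BT.Fa_leaf (P := Itm.ok 206) (iqb tp355_c))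 (BT.Fa_leaf (P := Itm.ok 206) (iqf tp356_c))) (BT.Fa_leaf (P := Itm.ok 206) (iqf tp939_c))) (BT.Fa_mk (BT.Fa_leaf (P := Itm.ok 206) (iqb tp845_c)) (BT.Fa_leaf (P := Itm.ok 206) (iqb tp408_c))))) (BT.Fa_mk (BT.Fa_mk (BT.Fa_mk (BT.Fa_mk (BT.Fa_leaf (P := Itm.ok 206) (iqf tp861_c)) (BT.Fa_leaf (P := Itm.ok 206) (iqb tp358_c))) (BT.Fa_leaf (P := Itm.ok 206) (iqf tp689_c))) (BT.Fa_mk (BT.Fa_leaf (P := Itm.ok 206) (iqb tp359_c)) (BT.Fa_leaf (P := Itm.ok 206) (iqb tp360_c)))) (BT.Fa_mk (BT.Fa_mk (BT.Fa_mk (BT.Fa_leaf (P := Itm.ok 206) (iqf tp361_c)) (BT.Fa_leaf (P := Itm.ok 206) (iqb tp361_c))) (BT.Fa_leaf (P := Itm.ok 206) (iqf tp375_c))) (BT.Fa_mk (BT.Fa_leaf (P := Itm.ok 206) (iqf tp362_c)) (BT.Fa_leaf (P := Itm.ok 206) (iqb tp413_c)))))) (BT.Fa_mk (BT.Fa_mk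 (BT.Fa_mk (BT.Fa_mk (BT.Fa_mk (BT.Fa_leaf (P := Itm.ok 206) (iqb tp363_c)) (BT.Fa_leaf (P := Itm.ok 206) (iqf tp364_c))) (BT.Fa_leaf (P := Itm.ok 206) (iqf tp386_c))) (BT.Fa_mk (BT.Fa_leaf (P := Itm.ok 206) (iqf tp352_c)) (BT.Fa_leaf (P := Itm.ok 206) (iqf tp442_c)))) (BT.Fa_mk (BT.Fa_mk (BT.Fa_mk (BT.Fa_leaf (P := Itm.ok 206) (iqb tp940_c)) (BT.Fa_leaf (P := Itm.ok 206) (iqf tp941_c))) (BT.Fa_leaf (P := Itm.ok 206) (iqb tp295_c))) (BT.Fa_mk (BT.Fa_leaf (P := Itm.ok 206) (iqb tp942_c)) (BT.Fa_leaf (P := Itm.ok 206) (iqb tp613_c))))) (BT.Fa_mk (BT.Fa_mk (BT.Fa_mk (BT.Fa_mk (BT.Fa_leaf (P := Itm.ok 206) (iqb tp663_c)) (BT.Fa_leaf (P := Itm.ok 206) (iqf tp614_c))) (BT.Fa_leaf (P := Itm.ok 206) (iqf tp943_c))) (BT.Fa_mk (BT.Fa_leaf (P := Itm.ok 206) (iqb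 tp944_c)) (BT.Fa_leaf (P := Itm.ok 206) (iqb tp567_c)))) (BT.Fa_mk (BT.Fa_mk (BT.Fa_mk (BT.Fa_leaf (P := Itm.ok 206) (iqf tp539_c)) (BT.Fa_leaf (P := Itm.ok 206) (iqb tp398_c))) (BT.Fa_leaf (P := Itm.ok 206) (iqf tp945_c))) (BT.Fa_mk (BT.Fa_leaf (P := Itm.ok 206) (iqf tp946_c)) (BT.Fa_leaf (P := Itm.ok 206) (iqb tp387_c))))))))

/-- all words of the class have labels -/
theorem pokNF2AzE2A2Ax3xA2AyEzAzF : POK 206 xNF2AzE2A2Ax3xA2AyEzAzF :=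
  y_pok (C0 := ceNF2AzE2A2Ax3xA2AyEzAzF) (C1 := coNF2AzE2A2Ax3xA2AyEzAzF) topNF2AzE2A2Ax3xA2AyEzAzF nbNF2AzE2A2Ax3xA2AyEzAzF (BT.Fa_of_all iiNF2AzE2A2Ax3xA2AyEzAzF_c)
    (cyE_spec zeNF2AzE2A2Ax3xA2AyEzAzF_0)
    (cyO_spec zoNF2AzE2A2Ax3xA2AyEzAzF_0)
    iiNF2AzE2A2Ax3xA2AyEzAzF_k

theorem iiNF2AzEyA2Ax3xA2A2EzAyF_k : iiNF2AzEyA2Ax3xA2A2EzAyF.Fa (Itm.ok 206) := (BT.Fa_mk (BT.Fa_mk (BT.Fa_mk (BT.Fa_mk (BT.Fa_mk (BT.Fa_mk (BT.Fa_mk (BT.Fa_mk (BT.Fa_leaf (P := Itm.ok 206) (iqb tp947_c)) (BT.Fa_leaf (P := Itm.ok 206) (iqb tp461_c))) (BT.Fa_leaf (P := Itm.ok 206) (iqb tp447_c))) (BT.Fa_mk (BT.Fa_mk (BT.Fa_leaf (P := Itm.ok 206) (iqb tp948_c)) (BT.Fa_leaf (P := Itm.ok 206) (iqf tp292_c))) (BT.Fa_leaf (P := Itm.ok 206) (iqb tp324_c)))) (BT.Fa_mk (BT.Fa_mk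 (BT.Fa_mk (BT.Fa_leaf (P := Itm.ok 206) (iqb tp647_c)) (BT.Fa_leaf (P := Itm.ok 206) (iqb tp462_c))) (BT.Fa_leaf (P := Itm.ok 206) (iqf tp424_c))) (BT.Fa_mk (BT.Fa_leaf (P := Itm.ok 206) (iqf tp326_c)) (BT.Fa_leaf (P := Itm.ok 206) (iqb tp326_c))))) (BT.Fa_mk (BT.Fa_mk (BT.Fa_mk (BT.Fa_mk (BT.Fa_leaf (P := Itm.ok 206) (iqb tp320_c)) (BT.Fa_leaf (P := Itm.ok 206) (iqb tp477_c))) (BT.Fa_leaf (P := Itm.ok 206) (iqb tp529_c))) (BT.Fa_mk (BT.Fa_leaf (P := Itm.ok 206) (iqf tp342_c)) (BT.Fa_leaf (P := Itm.ok 206) (iqb tp334_c)))) (BT.Fa_mk (BT.Fa_mk (BT.Fa_mk (BT.Fa_leaf (P := Itm.ok 206) (iqf tp368_c)) (BT.Fa_leaf (P := Itm.ok 206) (iqf tp806_c))) (BT.Fa_leaf (P := Itm.ok 206) (iqb tp367_c))) (BT.Fa_mk (BT.Fa_leaf (P := Itm.ok 206) (iqf tp949_c)) (BT.Fa_leaf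 (P := Itm.ok 206) (iqf tp698_c)))))) (BT.Fa_mk (BT.Fa_mk (BT.Fa_mk (BT.Fa_mk (BT.Fa_mk (BT.Fa_leaf (P := Itm.ok 206) (iqf tp341_c)) (BT.Fa_leaf (P := Itm.ok 206) (iqf tp950_c))) (BT.Fa_leaf (P := Itm.ok 206) (iqf tp405_c))) (BT.Fa_mk (BT.Fa_leaf (P := Itm.ok 206) (iqf tp404_c)) (BT.Fa_leaf (P := Itm.ok 206) (iqb tp378_c)))) (BT.Fa_mk (BT.Fa_mk (BT.Fa_mk (BT.Fa_leaf (P := Itm.ok 206) (iqf tp351_c)) (BT.Fa_leaf (P := Itm.ok 206) (iqf tp553_c))) (BT.Fa_leaf (P := Itm.ok 206) (iqb tp372_c))) (BT.Fa_mk (BT.Fa_leaf (P := Itm.ok 206) (iqb tp349_c)) (BT.Fa_leaf (P := Itm.ok 206) (iqb tp402_c))))) (BT.Fa_mk (BT.Fa_mk (BT.Fa_mk (BT.Fa_mk (BT.Fa_leaf (P := Itm.ok 206) (iqb tp775_c)) (BT.Fa_leaf (P := Itm.ok 206) (iqf tp565_c))) (BT.Fa_leaf (P := Itm.ok 206) (iqb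 tp589_c))) (BT.Fa_mk (BT.Fa_leaf (P := Itm.ok 206) (iqb tp535_c)) (BT.Fa_leaf (P := Itm.ok 206) (iqf tp299_c)))) (BT.Fa_mk (BT.Fa_mk (BT.Fa_mk (BT.Fa_leaf (P := Itm.ok 206) (iqf tp294_c)) (BT.Fa_leaf (P := Itm.ok 206) (iqf tp951_c))) (BT.Fa_leaf (P := Itm.ok 206) (iqb tp952_c))) (BT.Fa_mk (BT.Fa_leaf (P := Itm.ok 206) (iqb tp663_c)) (BT.Fa_leaf (P := Itm.ok 206) (iqb tp290_c))))))) (BT.Fa_mk (BT.Fa_mk (BT.Fa_mk (BT.Fa_mk (BT.Fa_mk (BT.Fa_mk (BT.Fa_leaf (P := Itm.ok 206) (iqf tp329_c)) (BT.Fa_leaf (P := Itm.ok 206) (iqb tp337_c))) (BT.Fa_leaf (P := Itm.ok 206) (iqb tp338_c))) (BT.Fa_mk (BT.Fa_mk (BT.Fa_leaf (P := Itm.ok 206) (iqf tp369_c)) (BT.Fa_leaf (P := Itm.ok 206) (iqf tp346_c))) (BT.Fa_leaf (P := Itm.ok 206) (iqb tp416_c)))) (BT.Fa_mk (BT.Fa_mk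 (BT.Fa_mk (BT.Fa_leaf (P := Itm.ok 206) (iqb tp448_c)) (BT.Fa_leaf (P := Itm.ok 206) (iqf tp350_c))) (BT.Fa_leaf (P := Itm.ok 206) (iqf tp352_c))) (BT.Fa_mk (BT.Fa_leaf (P := Itm.ok 206) (iqb tp373_c)) (BT.Fa_leaf (P := Itm.ok 206) (iqb tp408_c))))) (BT.Fa_mk (BT.Fa_mk (BT.Fa_mk (BT.Fa_mk (BT.Fa_leaf (P := Itm.ok 206) (iqb tp449_c)) (BT.Fa_leaf (P := Itm.ok 206) (iqb tp361_c))) (BT.Fa_leaf (P := Itm.ok 206) (iqf tp472_c))) (BT.Fa_mk (BT.Fa_leaf (P := Itm.ok 206) (iqb tp654_c)) (BT.Fa_leaf (P := Itm.ok 206) (iqb tp413_c)))) (BT.Fa_mk (BT.Fa_mk (BT.Fa_mk (BT.Fa_leaf (P := Itm.ok 206) (iqb tp579_c)) (BT.Fa_leaf (P := Itm.ok 206) (iqf tp321_c))) (BT.Fa_leaf (P := Itm.ok 206) (iqb tp327_c))) (BT.Fa_mk (BT.Fa_leaf (P := Itm.ok 206) (iqb tp953_c)) (BT.Fa_leaf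 (P := Itm.ok 206) (iqf tp335_c)))))) (BT.Fa_mk (BT.Fa_mk (BT.Fa_mk (BT.Fa_mk (BT.Fa_mk (BT.Fa_leaf (P := Itm.ok 206) (iqb tp954_c)) (BT.Fa_leaf (P := Itm.ok 206) (iqb tp955_c))) (BT.Fa_leaf (P := Itm.ok 206) (iqf tp659_c))) (BT.Fa_mk (BT.Fa_leaf (P := Itm.ok 206) (iqf tp956_c)) (BT.Fa_leaf (P := Itm.ok 206) (iqf tp824_c)))) (BT.Fa_mk (BT.Fa_mk (BT.Fa_mk (BT.Fa_leaf (P := Itm.ok 206) (iqf tp707_c)) (BT.Fa_leaf (P := Itm.ok 206) (iqf tp362_c))) (BT.Fa_leaf (P := Itm.ok 206) (iqf tp370_c))) (BT.Fa_mk (BT.Fa_leaf (P := Itm.ok 206) (iqf tp640_c)) (BT.Fa_leaf (P := Itm.ok 206) (iqf tp662_c))))) (BT.Fa_mk (BT.Fa_mk (BT.Fa_mk (BT.Fa_mk (BT.Fa_leaf (P := Itm.ok 206) (iqf tp957_c)) (BT.Fa_leaf (P := Itm.ok 206) (iqf tp958_c))) (BT.Fa_leaf (P := Itm.ok 206) (iqf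 tp959_c))) (BT.Fa_mk (BT.Fa_leaf (P := Itm.ok 206) (iqb tp960_c)) (BT.Fa_leaf (P := Itm.ok 206) (iqf tp401_c)))) (BT.Fa_mk (BT.Fa_mk (BT.Fa_mk (BT.Fa_leaf (P := Itm.ok 206) (iqf tp961_c)) (BT.Fa_leaf (P := Itm.ok 206) (iqb tp398_c))) (BT.Fa_leaf (P := Itm.ok 206) (iqf tp347_c))) (BT.Fa_mk (BT.Fa_leaf (P := Itm.ok 206) (iqb tp376_c)) (BT.Fa_leaf (P := Itm.ok 206) (iqb tp360_c)))))))) (BT.Fa_mk (BT.Fa_mk (BT.Fa_mk (BT.Fa_mk (BT.Fa_mk (BT.Fa_mk (BT.Fa_mk (BT.Fa_leaf (P := Itm.ok 206) (iqb tp409_c)) (BT.Fa_leaf (P := Itm.ok 206) (iqf tp443_c))) (BT.Fa_leaf (P := Itm.ok 206) (iqb tp962_c))) (BT.Fa_mk (BT.Fa_mk (BT.Fa_leaf (P := Itm.ok 206) (iqf tp638_c)) (BT.Fa_leaf (P := Itm.ok 206) (iqf tp963_c))) (BT.Fa_leaf (P := Itm.ok 206) (iqf tp406_c)))) (BT.Fa_mk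 (BT.Fa_mk (BT.Fa_mk (BT.Fa_leaf (P := Itm.ok 206) (iqf tp964_c)) (BT.Fa_leaf (P := Itm.ok 206) (iqf tp434_c))) (BT.Fa_leaf (P := Itm.ok 206) (iqb tp455_c))) (BT.Fa_mk (BT.Fa_leaf (P := Itm.ok 206) (iqb tp651_c)) (BT.Fa_leaf (P := Itm.ok 206) (iqf tp427_c))))) (BT.Fa_mk (BT.Fa_mk (BT.Fa_mk (BT.Fa_mk (BT.Fa_leaf (P := Itm.ok 206) (iqf tp602_c)) (BT.Fa_leaf (P := Itm.ok 206) (iqf tp456_c))) (BT.Fa_leaf (P := Itm.ok 206) (iqf tp366_c))) (BT.Fa_mk (BT.Fa_leaf (P := Itm.ok 206) (iqb tp366_c)) (BT.Fa_leaf (P := Itm.ok 206) (iqf tp566_c)))) (BT.Fa_mk (BT.Fa_mk (BT.Fa_mk (BT.Fa_leaf (P := Itm.ok 206) (iqb tp965_c)) (BT.Fa_leaf (P := Itm.ok 206) (iqb tp632_c))) (BT.Fa_leaf (P := Itm.ok 206) (iqf tp394_c))) (BT.Fa_mk (BT.Fa_leaf (P := Itm.ok 206) (iqf tp966_c))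 (BT.Fa_leaf (P := Itm.ok 206) (iqf tp478_c)))))) (BT.Fa_mk (BT.Fa_mk (BT.Fa_mk (BT.Fa_mk (BT.Fa_mk (BT.Fa_leaf (P := Itm.ok 206) (iqf tp967_c)) (BT.Fa_leaf (P := Itm.ok 206) (iqb tp363_c))) (BT.Fa_leaf (P := Itm.ok 206) (iqf tp696_c))) (BT.Fa_mk (BT.Fa_leaf (P := Itm.ok 206) (iqf tp968_c)) (BT.Fa_leaf (P := Itm.ok 206) (iqf tp969_c)))) (BT.Fa_mk (BT.Fa_mk (BT.Fa_mk (BT.Fa_leaf (P := Itm.ok 206) (iqf tp695_c)) (BT.Fa_leaf (P := Itm.ok 206) (iqf tp601_c))) (BT.Fa_leaf (P := Itm.ok 206) (iqf tp937_c))) (BT.Fa_mk (BT.Fa_leaf (P := Itm.ok 206) (iqb tp970_c)) (BT.Fa_leaf (P := Itm.ok 206) (iqf tp971_c))))) (BT.Fa_mk (BT.Fa_mk (BT.Fa_mk (BT.Fa_mk (BT.Fa_leaf (P := Itm.ok 206) (iqb tp821_c)) (BT.Fa_leaf (P := Itm.ok 206) (iqb tp607_c))) (BT.Fa_leaf (P := Itm.ok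 206) (iqf tp972_c))) (BT.Fa_mk (BT.Fa_leaf (P := Itm.ok 206) (iqf tp973_c)) (BT.Fa_leaf (P := Itm.ok 206) (iqb tp704_c)))) (BT.Fa_mk (BT.Fa_mk (BT.Fa_mk (BT.Fa_leaf (P := Itm.ok 206) (iqf tp974_c)) (BT.Fa_leaf (P := Itm.ok 206) (iqb tp623_c))) (BT.Fa_leaf (P := Itm.ok 206) (iqb tp975_c))) (BT.Fa_mk (BT.Fa_leaf (P := Itm.ok 206) (show Itm.ok 206 (.pat 3628 pq83) from (POK.mono (by decide) pq83_ok))) (BT.Fa_leaf (P := Itm.ok 206) (show Itm.ok 206 (.pat 3678 pq84) from (POK.mono (by decide) pq84_ok)))))))) (BT.Fa_mk (BT.Fa_mk (BT.Fa_mk (BT.Fa_mk (BT.Fa_mk (BT.Fa_mk (BT.Fa_leaf (P := Itm.ok 206) (iqf tp976_c)) (BT.Fa_leaf (P := Itm.ok 206) (iqf tp671_c))) (BT.Fa_leaf (P := Itm.ok 206) (iqb tp977_c))) (BT.Fa_mk (BT.Fa_leaf (P := Itm.ok 206) (iqf tp849_c))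 (BT.Fa_leaf (P := Itm.ok 206) (iqf tp307_c)))) (BT.Fa_mk (BT.Fa_mk (BT.Fa_mk (BT.Fa_leaf (P := Itm.ok 206) (iqf tp319_c)) (BT.Fa_leaf (P := Itm.ok 206) (iqb tp978_c))) (BT.Fa_leaf (P := Itm.ok 206) (iqf tp847_c))) (BT.Fa_mk (BT.Fa_leaf (P := Itm.ok 206) (iqf tp587_c)) (BT.Fa_leaf (P := Itm.ok 206) (iqb tp711_c))))) (BT.Fa_mk (BT.Fa_mk (BT.Fa_mk (BT.Fa_mk (BT.Fa_leaf (P := Itm.ok 206) (iqb tp318_c)) (BT.Fa_leaf (P := Itm.ok 206) (iqf tp979_c))) (BT.Fa_leaf (P := Itm.ok 206) (iqb tp493_c))) (BT.Fa_mk (BT.Fa_leaf (P := Itm.ok 206) (iqb tp295_c)) (BT.Fa_leaf (P := Itm.ok 206) (iqf tp980_c)))) (BT.Fa_mk (BT.Fa_mk (BT.Fa_mk (BT.Fa_leaf (P := Itm.ok 206) (iqf tp436_c)) (BT.Fa_leaf (P := Itm.ok 206) (iqf tp384_c))) (BT.Fa_leaf (P := Itm.ok 206) (iqb tp981_c)))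 (BT.Fa_mk (BT.Fa_leaf (P := Itm.ok 206) (iqb tp982_c)) (BT.Fa_leaf (P := Itm.ok 206) (iqb tp426_c)))))) (BT.Fa_mk (BT.Fa_mk (BT.Fa_mk (BT.Fa_mk (BT.Fa_mk (BT.Fa_leaf (P := Itm.ok 206) (iqb tp392_c)) (BT.Fa_leaf (P := Itm.ok 206) (iqb tp983_c))) (BT.Fa_leaf (P := Itm.ok 206) (iqf tp984_c))) (BT.Fa_mk (BT.Fa_leaf (P := Itm.ok 206) (iqb tp985_c)) (BT.Fa_leaf (P := Itm.ok 206) (iqb tp419_c)))) (BT.Fa_mk (BT.Fa_mk (BT.Fa_mk (BT.Fa_leaf (P := Itm.ok 206) (iqf tp611_c)) (BT.Fa_leaf (P := Itm.ok 206) (iqb tp387_c))) (BT.Fa_leaf (P := Itm.ok 206) (iqb tp609_c))) (BT.Fa_mk (BT.Fa_leaf (P := Itm.ok 206) (iqf tp986_c)) (BT.Fa_leaf (P := Itm.ok 206) (iqf tp987_c))))) (BT.Fa_mk (BT.Fa_mk (BT.Fa_mk (BT.Fa_mk (BT.Fa_leaf (P := Itm.ok 206) (iqf tp988_c)) (BT.Fa_leaf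 (P := Itm.ok 206) (iqb tp989_c))) (BT.Fa_leaf (P := Itm.ok 206) (iqb tp990_c))) (BT.Fa_mk (BT.Fa_leaf (P := Itm.ok 206) (iqb tp342_c)) (BT.Fa_leaf (P := Itm.ok 206) (iqf tp686_c)))) (BT.Fa_mk (BT.Fa_mk (BT.Fa_mk (BT.Fa_leaf (P := Itm.ok 206) (iqb tp991_c)) (BT.Fa_leaf (P := Itm.ok 206) (iqb tp992_c))) (BT.Fa_leaf (P := Itm.ok 206) (iqb tp993_c))) (BT.Fa_mk (BT.Fa_leaf (P := Itm.ok 206) (iqf tp994_c)) (BT.Fa_leaf (P := Itm.ok 206) (iqf tp762_c)))))))))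

/-- all words of the class have labels -/
theorem pokNF2AzEyA2Ax3xA2A2EzAyF : POK 206 xNF2AzEyA2Ax3xA2A2EzAyF :=
  y_pok (C0 := ceNF2AzEyA2Ax3xA2A2EzAyF) (C1 := coNF2AzEyA2Ax3xA2A2EzAyF) topNF2AzEyA2Ax3xA2A2EzAyF nbNF2AzEyA2Ax3xA2A2EzAyF (BT.Fa_of_all iiNF2AzEyA2Ax3xA2A2EzAyF_c)
    (cyE_spec zeNF2AzEyA2Ax3xA2A2EzAyF_0)
    (cyO_spec zoNF2AzEyA2Ax3xA2A2EzAyF_0)
    iiNF2AzEyA2Ax3xA2A2EzAyF_k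

theorem iiNF2AzEyA2Ax3xA2A2EzAzF_k : iiNF2AzEyA2Ax3xA2A2EzAzF.Fa (Itm.ok 206) := (BT.Fa_mk (BT.Fa_mk (BT.Fa_mk (BT.Fa_mk (BT.Fa_mk (BT.Fa_mk (BT.Fa_mk (BT.Fa_leaf (P := Itm.ok 206) (iqf tp388_c)) (BT.Fa_leaf (P := Itm.ok 206) (iqf tp368_c))) (BT.Fa_leaf (P := Itm.ok 206) (iqf tp319_c))) (BT.Fa_mk (BT.Fa_mk (BT.Fa_leaf (P := Itm.ok 206) (iqf tp995_c)) (BT.Fa_leaf (P := Itm.ok 206) (iqf tp292_c))) (BT.Fa_leaf (P := Itm.ok 206) (iqf tp996_c)))) (BT.Fa_mk (BT.Fa_mk (BT.Fa_mk (BT.Fa_leaf (P := Itm.ok 206) (iqf tp390_c)) (BT.Fa_leaf (P := Itm.ok 206) (iqb tp997_c))) (BT.Fa_leaf (P := Itm.ok 206) (iqf tp326_c))) (BT.Fa_mk (BT.Fa_mk (BT.Fa_leaf (P := Itm.ok 206) (iqb tp424_c)) (BT.Fa_leaf (P := Itm.ok 206) (iqb tp295_c))) (BT.Fa_leaf (P := Itm.ok 206) (iqb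 tp545_c))))) (BT.Fa_mk (BT.Fa_mk (BT.Fa_mk (BT.Fa_mk (BT.Fa_leaf (P := Itm.ok 206) (iqf tp329_c)) (BT.Fa_leaf (P := Itm.ok 206) (iqb tp334_c))) (BT.Fa_leaf (P := Itm.ok 206) (iqb tp998_c))) (BT.Fa_mk (BT.Fa_mk (BT.Fa_leaf (P := Itm.ok 206) (iqb tp337_c)) (BT.Fa_leaf (P := Itm.ok 206) (iqb tp338_c))) (BT.Fa_leaf (P := Itm.ok 206) (iqf tp473_c)))) (BT.Fa_mk (BT.Fa_mk (BT.Fa_mk (BT.Fa_leaf (P := Itm.ok 206) (iqf tp342_c)) (BT.Fa_leaf (P := Itm.ok 206) (iqf tp399_c))) (BT.Fa_leaf (P := Itm.ok 206) (iqf tp999_c))) (BT.Fa_mk (BT.Fa_mk (BT.Fa_leaf (P := Itm.ok 206) (iqf tp369_c)) (BT.Fa_leaf (P := Itm.ok 206) (iqf tp401_c))) (BT.Fa_leaf (P := Itm.ok 206) (iqf tp367_c)))))) (BT.Fa_mk (BT.Fa_mk (BT.Fa_mk (BT.Fa_mk (BT.Fa_mk (BT.Fa_leaf (P := Itm.ok 206) (iqf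 tp299_c)) (BT.Fa_leaf (P := Itm.ok 206) (iqb tp535_c))) (BT.Fa_leaf (P := Itm.ok 206) (iqf tp1000_c))) (BT.Fa_mk (BT.Fa_mk (BT.Fa_leaf (P := Itm.ok 206) (iqb tp447_c)) (BT.Fa_leaf (P := Itm.ok 206) (iqb tp403_c))) (BT.Fa_leaf (P := Itm.ok 206) (iqb tp462_c)))) (BT.Fa_mk (BT.Fa_mk (BT.Fa_mk (BT.Fa_leaf (P := Itm.ok 206) (iqb tp1001_c)) (BT.Fa_leaf (P := Itm.ok 206) (iqf tp346_c))) (BT.Fa_leaf (P := Itm.ok 206) (iqb tp418_c))) (BT.Fa_mk (BT.Fa_mk (BT.Fa_leaf (P := Itm.ok 206) (iqf tp405_c)) (BT.Fa_leaf (P := Itm.ok 206) (iqb tp448_c))) (BT.Fa_leaf (P := Itm.ok 206) (iqb tp477_c))))) (BT.Fa_mk (BT.Fa_mk (BT.Fa_mk (BT.Fa_mk (BT.Fa_leaf (P := Itm.ok 206) (iqb tp376_c)) (BT.Fa_leaf (P := Itm.ok 206) (iqf tp350_c))) (BT.Fa_leaf (P := Itm.ok 206) (iqf tp351_c)))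 (BT.Fa_mk (BT.Fa_mk (BT.Fa_leaf (P := Itm.ok 206) (iqb tp373_c)) (BT.Fa_leaf (P := Itm.ok 206) (iqf tp356_c))) (BT.Fa_leaf (P := Itm.ok 206) (iqb tp855_c)))) (BT.Fa_mk (BT.Fa_mk (BT.Fa_mk (BT.Fa_leaf (P := Itm.ok 206) (iqb tp371_c)) (BT.Fa_leaf (P := Itm.ok 206) (iqb tp408_c))) (BT.Fa_leaf (P := Itm.ok 206) (iqb tp977_c))) (BT.Fa_mk (BT.Fa_leaf (P := Itm.ok 206) (iqf tp384_c)) (BT.Fa_leaf (P := Itm.ok 206) (iqb tp538_c))))))) (BT.Fa_mk (BT.Fa_mk (BT.Fa_mk (BT.Fa_mk (BT.Fa_mk (BT.Fa_mk (BT.Fa_leaf (P := Itm.ok 206) (iqb tp359_c)) (BT.Fa_leaf (P := Itm.ok 206) (iqb tp360_c))) (BT.Fa_leaf (P := Itm.ok 206) (iqf tp1002_c))) (BT.Fa_mk (BT.Fa_mk (BT.Fa_leaf (P := Itm.ok 206) (iqb tp361_c)) (BT.Fa_leaf (P := Itm.ok 206) (iqf tp375_c))) (BT.Fa_leaf (P := Itm.ok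 206) (iqb tp413_c)))) (BT.Fa_mk (BT.Fa_mk (BT.Fa_mk (BT.Fa_leaf (P := Itm.ok 206) (iqf tp364_c)) (BT.Fa_leaf (P := Itm.ok 206) (iqf tp415_c))) (BT.Fa_leaf (P := Itm.ok 206) (iqb tp340_c))) (BT.Fa_mk (BT.Fa_mk (BT.Fa_leaf (P := Itm.ok 206) (iqf tp396_c)) (BT.Fa_leaf (P := Itm.ok 206) (iqf tp617_c))) (BT.Fa_leaf (P := Itm.ok 206) (iqf tp352_c))))) (BT.Fa_mk (BT.Fa_mk (BT.Fa_mk (BT.Fa_mk (BT.Fa_leaf (P := Itm.ok 206) (iqf tp456_c)) (BT.Fa_leaf (P := Itm.ok 206) (iqb tp1003_c))) (BT.Fa_leaf (P := Itm.ok 206) (iqf tp330_c))) (BT.Fa_mk (BT.Fa_mk (BT.Fa_leaf (P := Itm.ok 206) (iqb tp397_c)) (BT.Fa_leaf (P := Itm.ok 206) (iqb tp324_c))) (BT.Fa_leaf (P := Itm.ok 206) (iqb tp654_c)))) (BT.Fa_mk (BT.Fa_mk (BT.Fa_mk (BT.Fa_leaf (P := Itm.ok 206) (iqf tp694_c))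 (BT.Fa_leaf (P := Itm.ok 206) (iqf tp588_c))) (BT.Fa_leaf (P := Itm.ok 206) (iqb tp502_c))) (BT.Fa_mk (BT.Fa_mk (BT.Fa_leaf (P := Itm.ok 206) (iqf tp347_c)) (BT.Fa_leaf (P := Itm.ok 206) (iqb tp409_c))) (BT.Fa_leaf (P := Itm.ok 206) (iqf tp341_c)))))) (BT.Fa_mk (BT.Fa_mk (BT.Fa_mk (BT.Fa_mk (BT.Fa_mk (BT.Fa_leaf (P := Itm.ok 206) (iqf tp1004_c)) (BT.Fa_leaf (P := Itm.ok 206) (iqf tp987_c))) (BT.Fa_leaf (P := Itm.ok 206) (iqf tp1005_c))) (BT.Fa_mk (BT.Fa_mk (BT.Fa_leaf (P := Itm.ok 206) (iqf tp1006_c)) (BT.Fa_leaf (P := Itm.ok 206) (iqb tp419_c))) (BT.Fa_leaf (P := Itm.ok 206) (show Itm.ok 206 (.pat 2091 pq85) from (POK.mono (by decide) pq85_ok))))) (BT.Fa_mk (BT.Fa_mk (BT.Fa_mk (BT.Fa_leaf (P := Itm.ok 206) (show Itm.ok 206 (.pat 2129 pq86) from (POK.mono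 (by decide) pq86_ok))) (BT.Fa_leaf (P := Itm.ok 206) (iqb tp989_c))) (BT.Fa_leaf (P := Itm.ok 206) (iqf tp1007_c))) (BT.Fa_mk (BT.Fa_mk (BT.Fa_leaf (P := Itm.ok 206) (iqb tp857_c)) (BT.Fa_leaf (P := Itm.ok 206) (iqf tp370_c))) (BT.Fa_leaf (P := Itm.ok 206) (iqb tp479_c))))) (BT.Fa_mk (BT.Fa_mk (BT.Fa_mk (BT.Fa_mk (BT.Fa_leaf (P := Itm.ok 206) (iqb tp1008_c)) (BT.Fa_leaf (P := Itm.ok 206) (iqf tp539_c))) (BT.Fa_leaf (P := Itm.ok 206) (iqf tp307_c))) (BT.Fa_mk (BT.Fa_mk (BT.Fa_leaf (P := Itm.ok 206) (iqb tp1009_c)) (BT.Fa_leaf (P := Itm.ok 206) (iqb tp327_c))) (BT.Fa_leaf (P := Itm.ok 206) (iqb tp683_c)))) (BT.Fa_mk (BT.Fa_mk (BT.Fa_mk (BT.Fa_leaf (P := Itm.ok 206) (iqb tp1010_c)) (BT.Fa_leaf (P := Itm.ok 206) (iqb tp318_c))) (BT.Fa_leaf (P := Itm.ok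 206) (iqb tp452_c))) (BT.Fa_mk (BT.Fa_leaf (P := Itm.ok 206) (iqb tp426_c)) (BT.Fa_leaf (P := Itm.ok 206) (iqf tp967_c))))))))

/-- all words of the class have labels -/
theorem pokNF2AzEyA2Ax3xA2A2EzAzF : POK 206 xNF2AzEyA2Ax3xA2A2EzAzF :=
  y_pok (C0 := ceNF2AzEyA2Ax3xA2A2EzAzF) (C1 := coNF2AzEyA2Ax3xA2A2EzAzF) topNF2AzEyA2Ax3xA2A2EzAzF nbNF2AzEyA2Ax3xA2A2EzAzF (BT.Fa_of_all iiNF2AzEyA2Ax3xA2A2EzAzF_c)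
    (cyE_spec zeNF2AzEyA2Ax3xA2A2EzAzF_0)
    (cyO_spec zoNF2AzEyA2Ax3xA2A2EzAzF_0)
    iiNF2AzEyA2Ax3xA2A2EzAzF_k

theorem iiNF2AzEyA2Ax3xA2AyEzAyF_k : iiNF2AzEyA2Ax3xA2AyEzAyF.Fa (Itm.ok 206) := (BT.Fa_mk (BT.Fa_mk (BT.Fa_mk (BT.Fa_mk (BT.Fa_mk (BT.Fa_mk (BT.Fa_mk (BT.Fa_mk (BT.Fa_leaf (P := Itm.ok 206) (iqf tp447_c)) (BT.Fa_leaf (P := Itm.ok 206) (iqb tp447_c))) (BT.Fa_leaf (P := Itm.ok 206) (iqb tp948_c))) (BT.Fa_mk (BT.Fa_mk (BT.Fa_leaf (P := Itm.ok 206) (iqf tp292_c)) (BT.Fa_leaf (P := Itm.ok 206) (iqb tp647_c))) (BT.Fa_leaf (P := Itm.ok 206) (iqb tp462_c)))) (BT.Fa_mk (BT.Fa_mk (BT.Fa_mk (BT.Fa_leaf (P := Itm.ok 206) (iqf tp326_c)) (BT.Fa_leaf (P := Itm.ok 206) (iqb tp326_c))) (BT.Fa_leaf (P := Itm.ok 206) (iqb tp614_c))) (BT.Fa_mk (BT.Fa_mk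 (BT.Fa_leaf (P := Itm.ok 206) (iqf tp331_c)) (BT.Fa_leaf (P := Itm.ok 206) (iqb tp529_c))) (BT.Fa_leaf (P := Itm.ok 206) (iqf tp342_c))))) (BT.Fa_mk (BT.Fa_mk (BT.Fa_mk (BT.Fa_mk (BT.Fa_leaf (P := Itm.ok 206) (iqb tp397_c)) (BT.Fa_leaf (P := Itm.ok 206) (iqb tp334_c))) (BT.Fa_leaf (P := Itm.ok 206) (iqf tp368_c))) (BT.Fa_mk (BT.Fa_mk (BT.Fa_leaf (P := Itm.ok 206) (iqf tp806_c)) (BT.Fa_leaf (P := Itm.ok 206) (iqb tp367_c))) (BT.Fa_leaf (P := Itm.ok 206) (iqf tp949_c)))) (BT.Fa_mk (BT.Fa_mk (BT.Fa_mk (BT.Fa_leaf (P := Itm.ok 206) (iqb tp481_c)) (BT.Fa_leaf (P := Itm.ok 206) (iqb tp392_c))) (BT.Fa_leaf (P := Itm.ok 206) (iqf tp698_c))) (BT.Fa_mk (BT.Fa_leaf (P := Itm.ok 206) (iqf tp341_c)) (BT.Fa_leaf (P := Itm.ok 206) (iqf tp344_c)))))) (BT.Fa_mk (BT.Fa_mk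 (BT.Fa_mk (BT.Fa_mk (BT.Fa_mk (BT.Fa_leaf (P := Itm.ok 206) (iqf tp319_c)) (BT.Fa_leaf (P := Itm.ok 206) (iqf tp405_c))) (BT.Fa_leaf (P := Itm.ok 206) (iqf tp404_c))) (BT.Fa_mk (BT.Fa_mk (BT.Fa_leaf (P := Itm.ok 206) (iqb tp378_c)) (BT.Fa_leaf (P := Itm.ok 206) (iqf tp351_c))) (BT.Fa_leaf (P := Itm.ok 206) (iqf tp553_c)))) (BT.Fa_mk (BT.Fa_mk (BT.Fa_mk (BT.Fa_leaf (P := Itm.ok 206) (iqb tp372_c)) (BT.Fa_leaf (P := Itm.ok 206) (iqb tp588_c))) (BT.Fa_leaf (P := Itm.ok 206) (iqb tp775_c))) (BT.Fa_mk (BT.Fa_mk (BT.Fa_leaf (P := Itm.ok 206) (iqf tp565_c)) (BT.Fa_leaf (P := Itm.ok 206) (iqb tp589_c))) (BT.Fa_leaf (P := Itm.ok 206) (iqb tp535_c))))) (BT.Fa_mk (BT.Fa_mk (BT.Fa_mk (BT.Fa_mk (BT.Fa_leaf (P := Itm.ok 206) (iqb tp502_c)) (BT.Fa_leaf (P := Itm.ok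 206) (iqb tp784_c))) (BT.Fa_leaf (P := Itm.ok 206) (iqf tp299_c))) (BT.Fa_mk (BT.Fa_mk (BT.Fa_leaf (P := Itm.ok 206) (iqf tp348_c)) (BT.Fa_leaf (P := Itm.ok 206) (iqf tp294_c))) (BT.Fa_leaf (P := Itm.ok 206) (iqb tp354_c)))) (BT.Fa_mk (BT.Fa_mk (BT.Fa_mk (BT.Fa_leaf (P := Itm.ok 206) (iqb tp952_c)) (BT.Fa_leaf (P := Itm.ok 206) (iqf tp329_c))) (BT.Fa_leaf (P := Itm.ok 206) (iqb tp337_c))) (BT.Fa_mk (BT.Fa_leaf (P := Itm.ok 206) (iqb tp338_c)) (BT.Fa_leaf (P := Itm.ok 206) (iqf tp369_c))))))) (BT.Fa_mk (BT.Fa_mk (BT.Fa_mk (BT.Fa_mk (BT.Fa_mk (BT.Fa_mk (BT.Fa_leaf (P := Itm.ok 206) (iqf tp346_c)) (BT.Fa_leaf (P := Itm.ok 206) (iqb tp416_c))) (BT.Fa_leaf (P := Itm.ok 206) (iqb tp448_c))) (BT.Fa_mk (BT.Fa_mk (BT.Fa_leaf (P := Itm.ok 206) (iqf tp350_c))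 (BT.Fa_leaf (P := Itm.ok 206) (iqf tp352_c))) (BT.Fa_leaf (P := Itm.ok 206) (iqb tp373_c)))) (BT.Fa_mk (BT.Fa_mk (BT.Fa_mk (BT.Fa_leaf (P := Itm.ok 206) (iqb tp408_c)) (BT.Fa_leaf (P := Itm.ok 206) (iqb tp449_c))) (BT.Fa_leaf (P := Itm.ok 206) (iqb tp359_c))) (BT.Fa_mk (BT.Fa_mk (BT.Fa_leaf (P := Itm.ok 206) (iqf tp361_c)) (BT.Fa_leaf (P := Itm.ok 206) (iqb tp361_c))) (BT.Fa_leaf (P := Itm.ok 206) (iqf tp472_c))))) (BT.Fa_mk (BT.Fa_mk (BT.Fa_mk (BT.Fa_mk (BT.Fa_leaf (P := Itm.ok 206) (iqb tp413_c)) (BT.Fa_leaf (P := Itm.ok 206) (iqf tp648_c))) (BT.Fa_leaf (P := Itm.ok 206) (iqb tp954_c))) (BT.Fa_mk (BT.Fa_mk (BT.Fa_leaf (P := Itm.ok 206) (iqb tp955_c)) (BT.Fa_leaf (P := Itm.ok 206) (iqf tp956_c))) (BT.Fa_leaf (P := Itm.ok 206) (iqf tp824_c)))) (BT.Fa_mk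 (BT.Fa_mk (BT.Fa_mk (BT.Fa_leaf (P := Itm.ok 206) (iqf tp362_c)) (BT.Fa_leaf (P := Itm.ok 206) (iqf tp370_c))) (BT.Fa_leaf (P := Itm.ok 206) (iqf tp396_c))) (BT.Fa_mk (BT.Fa_leaf (P := Itm.ok 206) (iqf tp957_c)) (BT.Fa_leaf (P := Itm.ok 206) (iqb tp340_c)))))) (BT.Fa_mk (BT.Fa_mk (BT.Fa_mk (BT.Fa_mk (BT.Fa_mk (BT.Fa_leaf (P := Itm.ok 206) (iqf tp401_c)) (BT.Fa_leaf (P := Itm.ok 206) (iqf tp330_c))) (BT.Fa_leaf (P := Itm.ok 206) (iqb tp433_c))) (BT.Fa_mk (BT.Fa_mk (BT.Fa_leaf (P := Itm.ok 206) (iqb tp376_c)) (BT.Fa_leaf (P := Itm.ok 206) (iqb tp409_c))) (BT.Fa_leaf (P := Itm.ok 206) (iqb tp962_c)))) (BT.Fa_mk (BT.Fa_mk (BT.Fa_mk (BT.Fa_leaf (P := Itm.ok 206) (iqb tp1011_c)) (BT.Fa_leaf (P := Itm.ok 206) (iqf tp345_c))) (BT.Fa_leaf (P := Itm.ok 206)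 (iqf tp661_c))) (BT.Fa_mk (BT.Fa_mk (BT.Fa_leaf (P := Itm.ok 206) (iqf tp406_c)) (BT.Fa_leaf (P := Itm.ok 206) (iqf tp964_c))) (BT.Fa_leaf (P := Itm.ok 206) (iqf tp475_c))))) (BT.Fa_mk (BT.Fa_mk (BT.Fa_mk (BT.Fa_mk (BT.Fa_leaf (P := Itm.ok 206) (iqf tp434_c)) (BT.Fa_leaf (P := Itm.ok 206) (iqf tp872_c))) (BT.Fa_leaf (P := Itm.ok 206) (iqb tp977_c))) (BT.Fa_mk (BT.Fa_mk (BT.Fa_leaf (P := Itm.ok 206) (iqf tp602_c)) (BT.Fa_leaf (P := Itm.ok 206) (iqf tp456_c))) (BT.Fa_leaf (P := Itm.ok 206) (iqf tp366_c)))) (BT.Fa_mk (BT.Fa_mk (BT.Fa_mk (BT.Fa_leaf (P := Itm.ok 206) (iqb tp366_c)) (BT.Fa_leaf (P := Itm.ok 206) (iqf tp566_c))) (BT.Fa_leaf (P := Itm.ok 206) (iqb tp1012_c))) (BT.Fa_mk (BT.Fa_leaf (P := Itm.ok 206) (iqb tp706_c)) (BT.Fa_leaf (P := Itm.ok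 206) (iqf tp1013_c)))))))) (BT.Fa_mk (BT.Fa_mk (BT.Fa_mk (BT.Fa_mk (BT.Fa_mk (BT.Fa_mk (BT.Fa_mk (BT.Fa_leaf (P := Itm.ok 206) (iqf tp478_c)) (BT.Fa_leaf (P := Itm.ok 206) (iqb tp745_c))) (BT.Fa_leaf (P := Itm.ok 206) (iqf tp1014_c))) (BT.Fa_mk (BT.Fa_mk (BT.Fa_leaf (P := Itm.ok 206) (iqf tp967_c)) (BT.Fa_leaf (P := Itm.ok 206) (iqf tp696_c))) (BT.Fa_leaf (P := Itm.ok 206) (iqf tp1015_c)))) (BT.Fa_mk (BT.Fa_mk (BT.Fa_mk (BT.Fa_leaf (P := Itm.ok 206) (iqf tp695_c)) (BT.Fa_leaf (P := Itm.ok 206) (iqf tp1016_c))) (BT.Fa_leaf (P := Itm.ok 206) (iqf tp601_c))) (BT.Fa_mk (BT.Fa_mk (BT.Fa_leaf (P := Itm.ok 206) (iqb tp1017_c)) (BT.Fa_leaf (P := Itm.ok 206) (iqf tp557_c))) (BT.Fa_leaf (P := Itm.ok 206) (iqf tp1018_c))))) (BT.Fa_mk (BT.Fa_mk (BT.Fa_mk (BT.Fa_mk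 (BT.Fa_leaf (P := Itm.ok 206) (iqb tp1019_c)) (BT.Fa_leaf (P := Itm.ok 206) (iqb tp1020_c))) (BT.Fa_leaf (P := Itm.ok 206) (iqb tp603_c))) (BT.Fa_mk (BT.Fa_mk (BT.Fa_leaf (P := Itm.ok 206) (iqb tp1021_c)) (BT.Fa_leaf (P := Itm.ok 206) (iqb tp704_c))) (BT.Fa_leaf (P := Itm.ok 206) (iqf tp1022_c)))) (BT.Fa_mk (BT.Fa_mk (BT.Fa_mk (BT.Fa_leaf (P := Itm.ok 206) (iqb tp871_c)) (BT.Fa_leaf (P := Itm.ok 206) (iqb tp1023_c))) (BT.Fa_leaf (P := Itm.ok 206) (show Itm.ok 206 (.pat 3422 pq87) from (POK.mono (by decide) pq87_ok)))) (BT.Fa_mk (BT.Fa_leaf (P := Itm.ok 206) (show Itm.ok 206 (.pat 3472 pq88) from (POK.mono (by decide) pq88_ok))) (BT.Fa_leaf (P := Itm.ok 206) (iqf tp671_c)))))) (BT.Fa_mk (BT.Fa_mk (BT.Fa_mk (BT.Fa_mk (BT.Fa_mk (BT.Fa_leaf (P := Itm.ok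 206) (iqf tp1024_c)) (BT.Fa_leaf (P := Itm.ok 206) (iqf tp980_c))) (BT.Fa_leaf (P := Itm.ok 206) (iqf tp968_c))) (BT.Fa_mk (BT.Fa_mk (BT.Fa_leaf (P := Itm.ok 206) (iqf tp1025_c)) (BT.Fa_leaf (P := Itm.ok 206) (iqf tp961_c))) (BT.Fa_leaf (P := Itm.ok 206) (iqf tp598_c)))) (BT.Fa_mk (BT.Fa_mk (BT.Fa_mk (BT.Fa_leaf (P := Itm.ok 206) (iqf tp1026_c)) (BT.Fa_leaf (P := Itm.ok 206) (iqf tp847_c))) (BT.Fa_leaf (P := Itm.ok 206) (iqf tp659_c))) (BT.Fa_mk (BT.Fa_mk (BT.Fa_leaf (P := Itm.ok 206) (iqf tp1027_c)) (BT.Fa_leaf (P := Itm.ok 206) (iqb tp965_c))) (BT.Fa_leaf (P := Itm.ok 206) (iqf tp707_c))))) (BT.Fa_mk (BT.Fa_mk (BT.Fa_mk (BT.Fa_mk (BT.Fa_leaf (P := Itm.ok 206) (iqf tp880_c)) (BT.Fa_leaf (P := Itm.ok 206) (iqf tp1028_c))) (BT.Fa_leaf (P := Itm.ok 206)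 (iqf tp1029_c))) (BT.Fa_mk (BT.Fa_mk (BT.Fa_leaf (P := Itm.ok 206) (iqb tp1030_c)) (BT.Fa_leaf (P := Itm.ok 206) (iqf tp415_c))) (BT.Fa_leaf (P := Itm.ok 206) (iqb tp685_c)))) (BT.Fa_mk (BT.Fa_mk (BT.Fa_mk (BT.Fa_leaf (P := Itm.ok 206) (iqf tp662_c)) (BT.Fa_leaf (P := Itm.ok 206) (iqb tp555_c))) (BT.Fa_leaf (P := Itm.ok 206) (iqf tp937_c))) (BT.Fa_mk (BT.Fa_leaf (P := Itm.ok 206) (iqf tp959_c)) (BT.Fa_leaf (P := Itm.ok 206) (iqb tp960_c))))))) (BT.Fa_mk (BT.Fa_mk (BT.Fa_mk (BT.Fa_mk (BT.Fa_mk (BT.Fa_mk (BT.Fa_leaf (P := Itm.ok 206) (iqb tp440_c)) (BT.Fa_leaf (P := Itm.ok 206) (iqf tp549_c))) (BT.Fa_leaf (P := Itm.ok 206) (iqf tp1031_c))) (BT.Fa_mk (BT.Fa_mk (BT.Fa_leaf (P := Itm.ok 206) (iqf tp963_c)) (BT.Fa_leaf (P := Itm.ok 206) (iqb tp455_c))) (BT.Fa_leaf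 (P := Itm.ok 206) (iqb tp681_c)))) (BT.Fa_mk (BT.Fa_mk (BT.Fa_mk (BT.Fa_leaf (P := Itm.ok 206) (iqf tp424_c)) (BT.Fa_leaf (P := Itm.ok 206) (iqf tp677_c))) (BT.Fa_leaf (P := Itm.ok 206) (iqf tp1032_c))) (BT.Fa_mk (BT.Fa_mk (BT.Fa_leaf (P := Itm.ok 206) (iqb tp295_c)) (BT.Fa_leaf (P := Itm.ok 206) (iqb tp583_c))) (BT.Fa_leaf (P := Itm.ok 206) (iqb tp461_c))))) (BT.Fa_mk (BT.Fa_mk (BT.Fa_mk (BT.Fa_mk (BT.Fa_leaf (P := Itm.ok 206) (iqb tp1033_c)) (BT.Fa_leaf (P := Itm.ok 206) (iqf tp436_c))) (BT.Fa_leaf (P := Itm.ok 206) (iqb tp363_c))) (BT.Fa_mk (BT.Fa_mk (BT.Fa_leaf (P := Itm.ok 206) (iqb tp607_c)) (BT.Fa_leaf (P := Itm.ok 206) (iqb tp320_c))) (BT.Fa_leaf (P := Itm.ok 206) (iqf tp321_c)))) (BT.Fa_mk (BT.Fa_mk (BT.Fa_mk (BT.Fa_leaf (P := Itm.ok 206)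 (iqb tp426_c)) (BT.Fa_leaf (P := Itm.ok 206) (iqb tp562_c))) (BT.Fa_leaf (P := Itm.ok 206) (iqb tp398_c))) (BT.Fa_mk (BT.Fa_leaf (P := Itm.ok 206) (iqf tp950_c)) (BT.Fa_leaf (P := Itm.ok 206) (iqf tp388_c)))))) (BT.Fa_mk (BT.Fa_mk (BT.Fa_mk (BT.Fa_mk (BT.Fa_mk (BT.Fa_leaf (P := Itm.ok 206) (iqb tp989_c)) (BT.Fa_leaf (P := Itm.ok 206) (iqb tp622_c))) (BT.Fa_leaf (P := Itm.ok 206) (iqb tp1034_c))) (BT.Fa_mk (BT.Fa_mk (BT.Fa_leaf (P := Itm.ok 206) (iqf tp612_c)) (BT.Fa_leaf (P := Itm.ok 206) (iqb tp1035_c))) (BT.Fa_leaf (P := Itm.ok 206) (iqf tp518_c)))) (BT.Fa_mk (BT.Fa_mk (BT.Fa_mk (BT.Fa_leaf (P := Itm.ok 206) (show Itm.ok 206 (.pat 5123 pq89) from (POK.mono (by decide) pq89_ok))) (BT.Fa_leaf (P := Itm.ok 206) (iqf tp715_c))) (BT.Fa_leaf (P := Itm.ok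 206) (iqb tp1036_c))) (BT.Fa_mk (BT.Fa_mk (BT.Fa_leaf (P := Itm.ok 206) (iqf tp1037_c)) (BT.Fa_leaf (P := Itm.ok 206) (iqf tp686_c))) (BT.Fa_leaf (P := Itm.ok 206) (iqb tp645_c))))) (BT.Fa_mk (BT.Fa_mk (BT.Fa_mk (BT.Fa_mk (BT.Fa_leaf (P := Itm.ok 206) (iqb tp982_c)) (BT.Fa_leaf (P := Itm.ok 206) (iqf tp427_c))) (BT.Fa_leaf (P := Itm.ok 206) (iqf tp1038_c))) (BT.Fa_mk (BT.Fa_mk (BT.Fa_leaf (P := Itm.ok 206) (iqb tp1039_c)) (BT.Fa_leaf (P := Itm.ok 206) (iqb tp522_c))) (BT.Fa_leaf (P := Itm.ok 206) (iqb tp391_c)))) (BT.Fa_mk (BT.Fa_mk (BT.Fa_mk (BT.Fa_leaf (P := Itm.ok 206) (iqb tp990_c)) (BT.Fa_leaf (P := Itm.ok 206) (iqb tp1040_c))) (BT.Fa_leaf (P := Itm.ok 206) (iqb tp992_c))) (BT.Fa_mk (BT.Fa_leaf (P := Itm.ok 206) (iqb tp993_c)) (BT.Fa_leaf (P :=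 Itm.ok 206) (iqf tp1041_c)))))))))

/-- all words of the class have labels -/
theorem pokNF2AzEyA2Ax3xA2AyEzAyF : POK 206 xNF2AzEyA2Ax3xA2AyEzAyF :=
  y_pok (C0 := ceNF2AzEyA2Ax3xA2AyEzAyF) (C1 := coNF2AzEyA2Ax3xA2AyEzAyF) topNF2AzEyA2Ax3xA2AyEzAyF nbNF2AzEyA2Ax3xA2AyEzAyF (BT.Fa_of_all iiNF2AzEyA2Ax3xA2AyEzAyF_c)
    (cyE_spec zeNF2AzEyA2Ax3xA2AyEzAyF_0)
    (BT.Fa_mk (cyO_spec zoNF2AzEyA2Ax3xA2AyEzAyF_0) (cyO_spec zoNF2AzEyA2Ax3xA2AyEzAyF_1))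
    iiNF2AzEyA2Ax3xA2AyEzAyF_k

theorem iiNF2AzEyA2Ax3xA2AyEzAzF_k : iiNF2AzEyA2Ax3xA2AyEzAzF.Fa (Itm.ok 206) := (BT.Fa_mk (BT.Fa_mk (BT.Fa_mk (BT.Fa_mk (BT.Fa_mk (BT.Fa_mk (BT.Fa_mk (BT.Fa_leaf (P := Itm.ok 206) (iqf tp946_c)) (BT.Fa_leaf (P := Itm.ok 206) (iqb tp523_c))) (BT.Fa_leaf (P := Itm.ok 206) (iqb tp607_c))) (BT.Fa_mk (BT.Fa_mk (BT.Fa_leaf (P := Itm.ok 206) (iqb tp320_c)) (BT.Fa_leaf (P := Itm.ok 206) (iqf tp292_c))) (BT.Fa_leaf (P := Itm.ok 206) (iqb tp326_c)))) (BT.Fa_mk (BT.Fa_mk (BT.Fa_mk (BT.Fa_leaf (P := Itm.ok 206) (iqb tp609_c)) (BT.Fa_leaf (P := Itm.ok 206) (iqf tp481_c))) (BT.Fa_leaf (P := Itm.ok 206) (iqf tp329_c))) (BT.Fa_mk (BT.Fa_leaf (P := Itm.ok 206) (iqf tp425_c)) (BT.Fa_leaf (P := Itm.ok 206) (iqf tp614_c))))) (BT.Fa_mk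 (BT.Fa_mk (BT.Fa_mk (BT.Fa_mk (BT.Fa_leaf (P := Itm.ok 206) (iqb tp614_c)) (BT.Fa_leaf (P := Itm.ok 206) (iqf tp1025_c))) (BT.Fa_leaf (P := Itm.ok 206) (iqf tp475_c))) (BT.Fa_mk (BT.Fa_leaf (P := Itm.ok 206) (iqf tp334_c)) (BT.Fa_leaf (P := Itm.ok 206) (iqb tp334_c)))) (BT.Fa_mk (BT.Fa_mk (BT.Fa_mk (BT.Fa_leaf (P := Itm.ok 206) (iqf tp1042_c)) (BT.Fa_leaf (P := Itm.ok 206) (iqb tp1043_c))) (BT.Fa_leaf (P := Itm.ok 206) (iqf tp1044_c))) (BT.Fa_mk (BT.Fa_leaf (P := Itm.ok 206) (iqb tp337_c)) (BT.Fa_leaf (P := Itm.ok 206) (iqb tp338_c)))))) (BT.Fa_mk (BT.Fa_mk (BT.Fa_mk (BT.Fa_mk (BT.Fa_mk (BT.Fa_leaf (P := Itm.ok 206) (iqb tp378_c)) (BT.Fa_leaf (P := Itm.ok 206) (iqf tp341_c))) (BT.Fa_leaf (P := Itm.ok 206) (iqf tp342_c))) (BT.Fa_mk (BT.Fa_mk (BT.Fa_leaf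 (P := Itm.ok 206) (iqf tp399_c)) (BT.Fa_leaf (P := Itm.ok 206) (iqf tp369_c))) (BT.Fa_leaf (P := Itm.ok 206) (iqf tp401_c)))) (BT.Fa_mk (BT.Fa_mk (BT.Fa_mk (BT.Fa_leaf (P := Itm.ok 206) (iqb tp447_c)) (BT.Fa_leaf (P := Itm.ok 206) (iqb tp403_c))) (BT.Fa_leaf (P := Itm.ok 206) (iqf tp345_c))) (BT.Fa_mk (BT.Fa_leaf (P := Itm.ok 206) (iqf tp346_c)) (BT.Fa_leaf (P := Itm.ok 206) (iqf tp347_c))))) (BT.Fa_mk (BT.Fa_mk (BT.Fa_mk (BT.Fa_mk (BT.Fa_leaf (P := Itm.ok 206) (iqf tp434_c)) (BT.Fa_leaf (P := Itm.ok 206) (iqf tp348_c))) (BT.Fa_leaf (P := Itm.ok 206) (iqb tp416_c))) (BT.Fa_mk (BT.Fa_leaf (P := Itm.ok 206) (iqb tp349_c)) (BT.Fa_leaf (P := Itm.ok 206) (iqb tp616_c)))) (BT.Fa_mk (BT.Fa_mk (BT.Fa_mk (BT.Fa_leaf (P := Itm.ok 206) (iqb tp376_c)) (BT.Fa_leaf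 (P := Itm.ok 206) (iqf tp350_c))) (BT.Fa_leaf (P := Itm.ok 206) (iqf tp352_c))) (BT.Fa_mk (BT.Fa_leaf (P := Itm.ok 206) (iqb tp354_c)) (BT.Fa_leaf (P := Itm.ok 206) (iqf tp356_c))))))) (BT.Fa_mk (BT.Fa_mk (BT.Fa_mk (BT.Fa_mk (BT.Fa_mk (BT.Fa_mk (BT.Fa_leaf (P := Itm.ok 206) (iqb tp371_c)) (BT.Fa_leaf (P := Itm.ok 206) (iqb tp449_c))) (BT.Fa_leaf (P := Itm.ok 206) (iqf tp1045_c))) (BT.Fa_mk (BT.Fa_mk (BT.Fa_leaf (P := Itm.ok 206) (iqf tp577_c)) (BT.Fa_leaf (P := Itm.ok 206) (iqb tp409_c))) (BT.Fa_leaf (P := Itm.ok 206) (iqb tp633_c)))) (BT.Fa_mk (BT.Fa_mk (BT.Fa_mk (BT.Fa_leaf (P := Itm.ok 206) (iqb tp538_c)) (BT.Fa_leaf (P := Itm.ok 206) (iqf tp361_c))) (BT.Fa_leaf (P := Itm.ok 206) (iqb tp375_c))) (BT.Fa_mk (BT.Fa_leaf (P := Itm.ok 206) (iqb tp413_c))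 (BT.Fa_leaf (P := Itm.ok 206) (iqf tp364_c))))) (BT.Fa_mk (BT.Fa_mk (BT.Fa_mk (BT.Fa_mk (BT.Fa_leaf (P := Itm.ok 206) (iqf tp366_c)) (BT.Fa_leaf (P := Itm.ok 206) (iqf tp1046_c))) (BT.Fa_leaf (P := Itm.ok 206) (iqb tp637_c))) (BT.Fa_mk (BT.Fa_leaf (P := Itm.ok 206) (iqb tp339_c)) (BT.Fa_leaf (P := Itm.ok 206) (iqf tp678_c)))) (BT.Fa_mk (BT.Fa_mk (BT.Fa_mk (BT.Fa_leaf (P := Itm.ok 206) (show Itm.ok 206 (.pat 1624 pq90) from (POK.mono (by decide) pq90_ok))) (BT.Fa_leaf (P := Itm.ok 206) (iqb tp588_c))) (BT.Fa_leaf (P := Itm.ok 206) (iqf tp578_c))) (BT.Fa_mk (BT.Fa_leaf (P := Itm.ok 206) (show Itm.ok 206 (.pat 1723 pq91) from (POK.mono (by decide) pq91_ok))) (BT.Fa_leaf (P := Itm.ok 206) (iqf tp351_c)))))) (BT.Fa_mk (BT.Fa_mk (BT.Fa_mk (BT.Fa_mk (BT.Fa_mk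 (BT.Fa_leaf (P := Itm.ok 206) (iqb tp324_c)) (BT.Fa_leaf (P := Itm.ok 206) (iqf tp1047_c))) (BT.Fa_leaf (P := Itm.ok 206) (iqf tp1048_c))) (BT.Fa_mk (BT.Fa_leaf (P := Itm.ok 206) (iqf tp344_c)) (BT.Fa_leaf (P := Itm.ok 206) (iqb tp363_c)))) (BT.Fa_mk (BT.Fa_mk (BT.Fa_mk (BT.Fa_leaf (P := Itm.ok 206) (iqf tp299_c)) (BT.Fa_leaf (P := Itm.ok 206) (iqb tp408_c))) (BT.Fa_leaf (P := Itm.ok 206) (iqb tp654_c))) (BT.Fa_mk (BT.Fa_leaf (P := Itm.ok 206) (iqf tp966_c)) (BT.Fa_leaf (P := Itm.ok 206) (iqf tp1049_c))))) (BT.Fa_mk (BT.Fa_mk (BT.Fa_mk (BT.Fa_mk (BT.Fa_leaf (P := Itm.ok 206) (iqb tp1050_c)) (BT.Fa_leaf (P := Itm.ok 206) (iqf tp1031_c))) (BT.Fa_leaf (P := Itm.ok 206) (iqf tp586_c))) (BT.Fa_mk (BT.Fa_leaf (P := Itm.ok 206) (iqf tp384_c)) (BT.Fa_leaf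 (P := Itm.ok 206) (iqb tp1051_c)))) (BT.Fa_mk (BT.Fa_mk (BT.Fa_mk (BT.Fa_leaf (P := Itm.ok 206) (iqf tp518_c)) (BT.Fa_leaf (P := Itm.ok 206) (iqf tp436_c))) (BT.Fa_leaf (P := Itm.ok 206) (iqb tp981_c))) (BT.Fa_mk (BT.Fa_leaf (P := Itm.ok 206) (iqb tp1052_c)) (BT.Fa_leaf (P := Itm.ok 206) (iqb tp944_c))))))))

/-- all words of the class have labels -/
theorem pokNF2AzEyA2Ax3xA2AyEzAzF : POK 206 xNF2AzEyA2Ax3xA2AyEzAzF :=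
  y_pok (C0 := ceNF2AzEyA2Ax3xA2AyEzAzF) (C1 := coNF2AzEyA2Ax3xA2AyEzAzF) topNF2AzEyA2Ax3xA2AyEzAzF nbNF2AzEyA2Ax3xA2AyEzAzF (BT.Fa_of_all iiNF2AzEyA2Ax3xA2AyEzAzF_c)
    (cyE_spec zeNF2AzEyA2Ax3xA2AyEzAzF_0)
    (cyO_spec zoNF2AzEyA2Ax3xA2AyEzAzF_0)
    iiNF2AzEyA2Ax3xA2AyEzAzF_k


end MPb6P
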