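import Pool.Agent.Lib.MP_b6d339_lc.Cw.YFyA2AzE2A2Ax3xA2A2EzAzAyF
import Pool.Agent.Lib.MP_b6d339_lc.Cw.XL
import Pool.Agent.Lib.MP_b6d339_lc.Cw.T10
import Pool.Agent.Lib.MP_b6d339_lc.Cw.T13
import Pool.Agent.Lib.MP_b6d339_lc.Cw.T3
import Pool.Agent.Lib.MP_b6d339_lc.Cw.T4
import Pool.Agent.Lib.MP_b6d339_lc.Cw.T5
import Pool.Agent.Lib.MP_b6d339_lc.Cw.T6
import Pool.Agent.Lib.MP_b6d339_lc.Cw.T7
import Pool.Agent.Lib.MP_b6d339_lc.Cw.T8
import Pool.Agent.Lib.MP_b6d339_lc.Cw.T9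

/-!
# Erdős 592, three levels: items
-/

namespace MPb6P

noncomputable def iiNFyA2AzE2A2Ax3xA2A2EzAzAyF : BT Itm := (.node (.node (.node (.node (.node (.node (.node (.leaf (.bwd 0 13 tp355.df)) (.leaf (.fwd 13 18 tp333.df))) (.leaf (.fwd 31 23 tp399.df))) (.node (.leaf (.bwd 54 35 tp403.df)) (.leaf (.fwd 89 23 tp292.df)))) (.node (.node (.node (.leaf (.fwd 112 21 tp424.df)) (.leaf (.fwd 133 19 tp326.df))) (.leaf (.bwd 152 27 tp331.df))) (.node (.leaf (.bwd 179 23 tp320.df)) (.leaf (.bwd 202 24 tp332.df))))) (.node (.node (.node (.node (.leaf (.bwd 226 29 tp477.df)) (.leaf (.fwd 255 28 tp342.df))) (.leaf (.fwd 283 32 tp368.df))) (.node (.leaf (.fwd 315 25 tp392.df)) (.leaf (.fwd 340 27 tp341.df)))) (.node (.node (.leaf (.fwd 367 28 tp344.df)) (.leaf (.fwd 395 25 tp319.df))) (.node (.leaf (.fwd 420 19 tp405.df)) (.leaf (.fwd 439 40 tp351.df)))))) (.node (.node (.node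 (.node (.node (.leaf (.fwd 479 38 tp356.df)) (.leaf (.bwd 517 34 tp855.df))) (.leaf (.fwd 551 30 tp299.df))) (.node (.leaf (.fwd 581 38 tp348.df)) (.leaf (.fwd 619 48 tp375.df)))) (.node (.node (.node (.leaf (.bwd 667 14 tp522.df)) (.leaf (.fwd 681 29 tp329.df))) (.leaf (.bwd 710 17 tp337.df))) (.node (.leaf (.bwd 727 27 tp338.df)) (.leaf (.fwd 754 32 tp369.df))))) (.node (.node (.node (.node (.leaf (.fwd 786 31 tp346.df)) (.leaf (.bwd 817 37 tp1053.df))) (.leaf (.fwd 854 36 tp350.df))) (.node (.leaf (.bwd 890 28 tp373.df)) (.leaf (.bwd 918 22 tp408.df)))) (.node (.node (.leaf (.fwd 940 33 tp861.df)) (.leaf (.bwd 973 35 tp359.df))) (.node (.leaf (.bwd 1008 25 tp361.df)) (.leaf (.fwd 1033 44 tp364.df))))))) (.node (.node (.node (.node (.node (.node (.leaf (.bwd 1077 29 tp413.df)) (.leaf (.fwd 1106 27 tp321.df))) (.leaf (.fwd 1133 23 tp335.df))) (.node (.leaf (.bwd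 1156 33 tp1054.df)) (.leaf (.bwd 1189 20 tp683.df)))) (.node (.node (.node (.leaf (.fwd 1209 38 tp362.df)) (.leaf (.bwd 1247 32 tp340.df))) (.leaf (.fwd 1279 19 tp401.df))) (.node (.leaf (.bwd 1298 26 tp1055.df)) (.leaf (.fwd 1324 25 tp347.df))))) (.node (.node (.node (.node (.leaf (.bwd 1349 37 tp376.df)) (.leaf (.fwd 1386 24 tp353.df))) (.leaf (.bwd 1410 37 tp358.df))) (.node (.leaf (.bwd 1447 35 tp360.df)) (.leaf (.fwd 1482 26 tp365.df)))) (.node (.node (.leaf (.fwd 1508 31 tp386.df)) (.leaf (.fwd 1539 23 tp366.df))) (.node (.leaf (.fwd 1562 11 tp390.df)) (.leaf (.fwd 1573 19 tp478.df)))))) (.node (.node (.node (.node (.node (.leaf (.bwd 1592 33 tp363.df)) (.leaf (.fwd 1625 30 tp617.df))) (.leaf (.fwd 1655 36 tp396.df))) (.node (.leaf (.fwd 1691 22 tp379.df)) (.leaf (.fwd 1713 41 tp1056.df)))) (.node (.node (.leaf (.bwd 1754 17 tp727.df)) (.leaf (.bwd 1771 11 tp290.df)))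 (.node (.leaf (.bwd 1782 21 tp295.df)) (.leaf (.bwd 1803 34 tp380.df))))) (.node (.node (.node (.node (.leaf (.fwd 1837 28 tp385.df)) (.leaf (.bwd 1865 27 tp409.df))) (.leaf (.bwd 1892 22 tp378.df))) (.node (.leaf (.bwd 1914 14 tp1057.df)) (.leaf (.fwd 1928 25 tp436.df)))) (.node (.node (.leaf (.bwd 1953 22 tp788.df)) (.leaf (.bwd 1975 19 tp326.df))) (.node (.leaf (.bwd 1994 16 tp1058.df)) (.leaf (.fwd 2010 20 tp443.df))))))))

theorem iiNFyA2AzE2A2Ax3xA2A2EzAzAyF_c : iiNFyA2AzE2A2Ax3xA2A2EzAzAyF.all (itB (ng 48 nnNFyA2AzE2A2Ax3xA2A2EzAzAyF)) = true := by decide +kernel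
theorem nbNFyA2AzE2A2Ax3xA2A2EzAzAyF : nbB 48 2078 nnNFyA2AzE2A2Ax3xA2A2EzAzAyF = true := by decide +kernel
theorem topNFyA2AzE2A2Ax3xA2A2EzAzAyF : topY 2078 ttNFyA2AzE2A2Ax3xA2A2EzAzAyF ceNFyA2AzE2A2Ax3xA2A2EzAzAyF xNFyA2AzE2A2Ax3xA2A2EzAzAyF iiNFyA2AzE2A2Ax3xA2A2EzAzAyF = true := by decide +kernel

end MPb6P
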