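import Pool.Agent.Lib.MP_b6d339_lc.Cw.YFyA2AzE2B3HzB2H3B2E
import Pool.Agent.Lib.MP_b6d339_lc.Cw.XL
import Pool.Agent.Lib.MP_b6d339_lc.Cw.T10
import Pool.Agent.Lib.MP_b6d339_lc.Cw.T13
import Pool.Agent.Lib.MP_b6d339_lc.Cw.T14
import Pool.Agent.Lib.MP_b6d339_lc.Cw.T17
import Pool.Agent.Lib.MP_b6d339_lc.Cw.T18
import Pool.Agent.Lib.MP_b6d339_lc.Cw.T19
import Pool.Agent.Lib.MP_b6d339_lc.Cw.T20
import Pool.Agent.Lib.MP_b6d339_lc.Cw.T21
import Pool.Agent.Lib.MP_b6d339_lc.Cw.T22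
import Pool.Agent.Lib.MP_b6d339_lc.Cw.T23
import Pool.Agent.Lib.MP_b6d339_lc.Cw.T24
import Pool.Agent.Lib.MP_b6d339_lc.Cw.T25
import Pool.Agent.Lib.MP_b6d339_lc.Cw.T26
import Pool.Agent.Lib.MP_b6d339_lc.Cw.T27
import Pool.Agent.Lib.MP_b6d339_lc.Cw.T28
import Pool.Agent.Lib.MP_b6d339_lc.Cw.T29
import Pool.Agent.Lib.MP_b6d339_lc.Cw.T3
import Pool.Agent.Lib.MP_b6d339_lc.Cw.T30
import Pool.Agent.Lib.MP_b6d339_lc.Cw.T31
import Pool.Agent.Lib.MP_b6d339_lc.Cw.T4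
import Pool.Agent.Lib.MP_b6d339_lc.Cw.T5
import Pool.Agent.Lib.MP_b6d339_lc.Cw.T6
import Pool.Agent.Lib.MP_b6d339_lc.Cw.T7
import Pool.Agent.Lib.MP_b6d339_lc.Cw.T8
import Pool.Agent.Lib.MP_b6d339_lc.Cw.T9

/-!
# Erdős 592, three levels: items
-/

namespace MPb6P

noncomputable def iiNFyA2AzE2B3HzB2H3B2E : BT Itm := (.node (.node (.node (.node (.node (.node (.node (.node (.leaf (.bwd 0 6 tp1576.df)) (.leaf (.fwd 6 29 tp329.df))) (.node (.leaf (.fwd 35 31 tp346.df)) (.leaf (.fwd 66 13 tp1771.df)))) (.node (.node (.leaf (.bwd 79 21 tp295.df)) (.leaf (.fwd 100 57 tp2404.df))) (.node (.leaf (.bwd 157 35 tp619.df)) (.leaf (.fwd 192 40 tp2405.df))))) (.node (.node (.node (.leaf (.fwd 232 13 tp2406.df)) (.leaf (.fwd 245 23 tp292.df))) (.node (.leaf (.bwd 268 39 tp2407.df)) (.leaf (.fwd 307 35 tp359.df)))) (.node (.node (.leaf (.fwd 342 25 tp361.df)) (.leaf (.fwd 367 58 tp2408.df))) (.leaf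 (.bwd 425 23 tp292.df))))) (.node (.node (.node (.node (.leaf (.bwd 448 25 tp361.df)) (.leaf (.fwd 473 21 tp295.df))) (.node (.leaf (.fwd 494 30 tp299.df)) (.leaf (.fwd 524 23 tp366.df)))) (.node (.node (.leaf (.fwd 547 28 tp2052.df)) (.leaf (.bwd 575 17 tp337.df))) (.leaf (.bwd 592 44 tp2255.df)))) (.node (.node (.node (.leaf (.bwd 636 35 tp2409.df)) (.leaf (.fwd 671 43 tp529.df))) (.node (.leaf (.bwd 714 30 tp2410.df)) (.leaf (.fwd 744 24 tp2215.df)))) (.node (.node (.leaf (.fwd 768 24 tp2411.df)) (.leaf (.bwd 792 40 tp1658.df))) (.leaf (.bwd 832 48 tp2324.df)))))) (.node (.node (.node (.node (.node (.leaf (.fwd 880 35 tp472.df)) (.leaf (.fwd 915 35 tp352.df))) (.node (.leaf (.fwd 950 49 tp2412.df)) (.leaf (.bwd 999 15 tp1787.df)))) (.node (.node (.leaf (.fwd 1014 19 tp493.df)) (.leaf (.fwd 1033 40 tp2413.df))) (.node (.leaf (.fwd 1073 23 tp322.df)) (.leaf (.fwd 1096 29 tp694.df)))))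 (.node (.node (.node (.leaf (.bwd 1125 25 tp433.df)) (.leaf (.bwd 1150 40 tp416.df))) (.node (.leaf (.bwd 1190 22 tp451.df)) (.leaf (.bwd 1212 28 tp806.df)))) (.node (.node (.leaf (.bwd 1240 26 tp2414.df)) (.leaf (.bwd 1266 21 tp656.df))) (.leaf (.bwd 1287 18 tp2415.df))))) (.node (.node (.node (.node (.leaf (.fwd 1305 21 tp2416.df)) (.leaf (.bwd 1326 25 tp1799.df))) (.node (.leaf (.fwd 1351 17 tp608.df)) (.leaf (.bwd 1368 30 tp316.df)))) (.node (.node (.leaf (.bwd 1398 21 tp1733.df)) (.leaf (.fwd 1419 33 tp1159.df))) (.leaf (.bwd 1452 16 tp2254.df)))) (.node (.node (.node (.leaf (.fwd 1468 51 tp406.df)) (.leaf (.bwd 1519 26 tp2417.df))) (.node (.leaf (.fwd 1545 49 tp2418.df)) (.leaf (.fwd 1594 24 tp2142.df)))) (.node (.node (.leaf (.fwd 1618 21 tp2419.df)) (.leaf (.bwd 1639 24 tp2420.df))) (.leaf (.fwd 1663 39 tp2421.df))))))) (.node (.node (.node (.node (.node (.node (.leaf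 (.bwd 1702 26 tp2279.df)) (.leaf (.bwd 1728 22 tp827.df))) (.node (.leaf (.bwd 1750 13 tp1387.df)) (.leaf (.bwd 1763 18 tp2422.df)))) (.node (.node (.leaf (.bwd 1781 20 tp2423.df)) (.leaf (.fwd 1801 43 tp1813.df))) (.node (.leaf (.bwd 1844 24 tp354.df)) (.leaf (.fwd 1868 21 tp2424.df))))) (.node (.node (.node (.leaf (.bwd 1889 27 tp815.df)) (.leaf (.bwd 1916 15 tp2309.df))) (.node (.leaf (.bwd 1931 18 tp1995.df)) (.leaf (.bwd 1949 19 tp2425.df)))) (.node (.node (.leaf (.bwd 1968 19 tp2039.df)) (.leaf (.bwd 1987 30 tp1911.df))) (.leaf (.bwd 2017 23 tp2426.df))))) (.node (.node (.node (.node (.leaf (.fwd 2040 17 tp2427.df)) (.leaf (.bwd 2057 36 tp2428.df))) (.node (.leaf (.fwd 2093 35 tp2307.df)) (.leaf (.bwd 2128 43 tp2429.df)))) (.node (.node (.leaf (.fwd 2171 22 tp2430.df)) (.leaf (.fwd 2193 21 tp2431.df))) (.leaf (.bwd 2214 36 tp2432.df)))) (.node (.node (.node (.leaf (.bwd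 2250 33 tp2433.df)) (.leaf (.fwd 2283 48 tp2434.df))) (.node (.leaf (.bwd 2331 23 tp1996.df)) (.leaf (.fwd 2354 28 tp2435.df)))) (.node (.node (.leaf (.bwd 2382 25 tp2285.df)) (.leaf (.bwd 2407 29 tp2436.df))) (.leaf (.fwd 2436 44 tp2006.df)))))) (.node (.node (.node (.node (.node (.leaf (.bwd 2480 33 tp2437.df)) (.leaf (.bwd 2513 19 tp2438.df))) (.node (.leaf (.fwd 2532 15 tp2027.df)) (.leaf (.bwd 2547 19 tp2439.df)))) (.node (.node (.leaf (.bwd 2566 48 tp2440.df)) (.leaf (.fwd 2614 11 tp2441.df))) (.leaf (.bwd 2625 48 tp2442.df)))) (.node (.node (.node (.leaf (.fwd 2673 45 tp2139.df)) (.leaf (.bwd 2718 54 tp2443.df))) (.node (.leaf (.bwd 2772 51 tp1905.df)) (.leaf (.bwd 2823 22 tp2444.df)))) (.node (.node (.leaf (.bwd 2845 36 tp1712.df)) (.leaf (.bwd 2881 20 tp2445.df))) (.leaf (.bwd 2901 28 tp2446.df))))) (.node (.node (.node (.node (.leaf (.bwd 2929 42 tp2447.df)) (.leaf (.fwd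 2971 39 tp2448.df))) (.node (.leaf (.fwd 3010 45 tp1795.df)) (.leaf (.fwd 3055 37 tp1491.df)))) (.node (.node (.leaf (.bwd 3092 39 tp1916.df)) (.leaf (.fwd 3131 25 tp2449.df))) (.leaf (.bwd 3156 10 tp1781.df)))) (.node (.node (.node (.leaf (.fwd 3166 14 tp2450.df)) (.leaf (.fwd 3180 58 tp2451.df))) (.node (.leaf (.fwd 3238 22 tp2452.df)) (.leaf (.fwd 3260 32 tp369.df)))) (.node (.node (.leaf (.fwd 3292 28 tp2453.df)) (.leaf (.fwd 3320 25 tp1994.df))) (.leaf (.bwd 3345 24 tp2454.df)))))))) (.node (.node (.node (.node (.node (.node (.node (.leaf (.fwd 3369 48 tp2455.df)) (.leaf (.bwd 3417 27 tp2456.df))) (.node (.leaf (.bwd 3444 32 tp2457.df)) (.leaf (.bwd 3476 26 tp365.df)))) (.node (.node (.leaf (.bwd 3502 33 tp2131.df)) (.leaf (.fwd 3535 40 tp2062.df))) (.node (.leaf (.fwd 3575 29 tp1410.df)) (.leaf (.fwd 3604 42 tp1468.df))))) (.node (.node (.node (.leaf (.fwd 3646 42 tp2458.df))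 (.leaf (.bwd 3688 44 tp849.df))) (.node (.leaf (.bwd 3732 31 tp2050.df)) (.leaf (.bwd 3763 13 tp2459.df)))) (.node (.node (.leaf (.fwd 3776 23 tp2460.df)) (.leaf (.bwd 3799 10 tp1783.df))) (.leaf (.bwd 3809 37 tp532.df))))) (.node (.node (.node (.node (.leaf (.fwd 3846 41 tp2461.df)) (.leaf (.fwd 3887 25 tp1945.df))) (.node (.leaf (.bwd 3912 19 tp2462.df)) (.leaf (.fwd 3931 32 tp2463.df)))) (.node (.node (.leaf (.bwd 3963 29 tp846.df)) (.leaf (.bwd 3992 32 tp2054.df))) (.leaf (.fwd 4024 45 tp2464.df)))) (.node (.node (.node (.leaf (.fwd 4069 20 tp2465.df)) (.leaf (.bwd 4089 28 tp2466.df))) (.node (.leaf (.bwd 4117 37 tp1053.df)) (.leaf (.fwd 4154 37 tp2467.df)))) (.node (.node (.leaf (.fwd 4191 43 tp2468.df)) (.leaf (.bwd 4234 36 tp685.df))) (.leaf (.bwd 4270 37 tp2469.df)))))) (.node (.node (.node (.node (.node (.leaf (.fwd 4307 26 tp2470.df)) (.leaf (.fwd 4333 40 tp2471.df)))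 (.node (.leaf (.fwd 4373 32 tp2472.df)) (.leaf (.fwd 4405 41 tp2473.df)))) (.node (.node (.leaf (.fwd 4446 40 tp2474.df)) (.leaf (.bwd 4486 35 tp2475.df))) (.leaf (.bwd 4521 19 tp2476.df)))) (.node (.node (.node (.leaf (.fwd 4540 44 tp2477.df)) (.leaf (.fwd 4584 22 tp2478.df))) (.node (.leaf (.fwd 4606 35 tp2123.df)) (.leaf (.bwd 4641 16 tp1986.df)))) (.node (.node (.leaf (.fwd 4657 27 tp1868.df)) (.leaf (.fwd 4684 27 tp1133.df))) (.leaf (.fwd 4711 14 tp2479.df))))) (.node (.node (.node (.node (.leaf (.bwd 4725 26 tp2480.df)) (.leaf (.bwd 4751 18 tp2481.df))) (.node (.leaf (.fwd 4769 48 tp2021.df)) (.leaf (.fwd 4817 31 tp770.df)))) (.node (.node (.leaf (.fwd 4848 36 tp2483.df)) (.leaf (.fwd 4884 39 tp678.df))) (.leaf (.bwd 4923 52 tp2484.df)))) (.node (.node (.node (.leaf (.fwd 4975 20 tp2284.df)) (.leaf (.fwd 4995 35 tp2485.df))) (.node (.leaf (.fwd 5030 28 tp344.df)) (.leaf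 (.fwd 5058 21 tp2486.df)))) (.node (.node (.leaf (.fwd 5079 41 tp2487.df)) (.leaf (.fwd 5120 42 tp2488.df))) (.leaf (.fwd 5162 46 tp2489.df))))))) (.node (.node (.node (.node (.node (.node (.leaf (.bwd 5208 50 tp2490.df)) (.leaf (.bwd 5258 44 tp2491.df))) (.node (.leaf (.fwd 5302 34 tp494.df)) (.leaf (.fwd 5336 22 tp2492.df)))) (.node (.node (.leaf (.fwd 5358 28 tp2493.df)) (.leaf (.fwd 5386 55 tp2494.df))) (.node (.leaf (.bwd 5441 38 tp2495.df)) (.leaf (.bwd 5479 32 tp2068.df))))) (.node (.node (.node (.leaf (.bwd 5511 28 tp2496.df)) (.leaf (.bwd 5539 33 tp1086.df))) (.node (.leaf (.fwd 5572 28 tp1956.df)) (.leaf (.bwd 5600 29 tp2499.df)))) (.node (.node (.leaf (.bwd 5629 34 tp380.df)) (.leaf (.bwd 5663 42 tp2500.df))) (.leaf (.fwd 5705 25 tp2501.df))))) (.node (.node (.node (.node (.leaf (.fwd 5730 19 tp2502.df)) (.leaf (.fwd 5749 28 tp2503.df))) (.node (.leaf (.fwd 5777 23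 tp2504.df)) (.leaf (.fwd 5800 21 tp2505.df)))) (.node (.node (.leaf (.bwd 5821 50 tp1951.df)) (.leaf (.fwd 5871 20 tp2506.df))) (.leaf (.fwd 5891 15 tp2507.df)))) (.node (.node (.node (.leaf (.bwd 5906 40 tp2508.df)) (.leaf (.bwd 5946 18 tp2509.df))) (.node (.leaf (.fwd 5964 22 tp2510.df)) (.leaf (.fwd 5986 26 tp2511.df)))) (.node (.node (.leaf (.fwd 6012 22 tp2512.df)) (.leaf (.fwd 6034 29 tp1082.df))) (.leaf (.fwd 6063 26 tp2513.df)))))) (.node (.node (.node (.node (.node (.leaf (.fwd 6089 36 tp2514.df)) (.leaf (.fwd 6125 29 tp2515.df))) (.node (.leaf (.fwd 6154 22 tp2516.df)) (.leaf (.fwd 6176 21 tp2517.df)))) (.node (.node (.leaf (.fwd 6197 48 tp2518.df)) (.leaf (.fwd 6245 38 tp2519.df))) (.leaf (.bwd 6283 26 tp2520.df)))) (.node (.node (.node (.leaf (.bwd 6309 28 tp373.df)) (.leaf (.bwd 6337 47 tp492.df))) (.node (.leaf (.bwd 6384 27 tp1435.df)) (.leaf (.fwd 6411 29 tp2057.df))))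 (.node (.node (.leaf (.bwd 6440 29 tp511.df)) (.leaf (.bwd 6469 23 tp366.df))) (.leaf (.bwd 6492 31 tp2521.df))))) (.node (.node (.node (.node (.leaf (.fwd 6523 42 tp2522.df)) (.leaf (.bwd 6565 33 tp2523.df))) (.node (.leaf (.fwd 6598 42 tp1099.df)) (.leaf (.bwd 6640 31 tp2524.df)))) (.node (.node (.leaf (.bwd 6671 30 tp2525.df)) (.leaf (.fwd 6701 46 tp2526.df))) (.leaf (.fwd 6747 35 tp1067.df)))) (.node (.node (.node (.leaf (.bwd 6782 26 tp2527.df)) (.leaf (.bwd 6808 56 tp2528.df))) (.node (.leaf (.fwd 6864 42 tp2529.df)) (.leaf (.bwd 6906 38 tp1947.df)))) (.node (.node (.leaf (.fwd 6944 57 tp2530.df)) (.leaf (.bwd 7001 33 tp2531.df))) (.leaf (.bwd 7034 34 tp535.df)))))))))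

theorem iiNFyA2AzE2B3HzB2H3B2E_c : iiNFyA2AzE2B3HzB2H3B2E.all (itB (ng 58 nnNFyA2AzE2B3HzB2H3B2E)) = true := by decide +kernel
theorem nbNFyA2AzE2B3HzB2H3B2E : nbB 58 7126 nnNFyA2AzE2B3HzB2H3B2E = true := by decide +kernel
theorem topNFyA2AzE2B3HzB2H3B2E : topY 7126 ttNFyA2AzE2B3HzB2H3B2E ceNFyA2AzE2B3HzB2H3B2E xNFyA2AzE2B3HzB2H3B2E iiNFyA2AzE2B3HzB2H3B2E = true := by decide +kernel

end MPb6P
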