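import Pool.Agent.Lib.MP_b6d339_lc.Cw.YFyA2AzEyA2Ax3xA2AyEzA2AyF
import Pool.Agent.Lib.MP_b6d339_lc.Cw.XL
import Pool.Agent.Lib.MP_b6d339_lc.Cw.T11
import Pool.Agent.Lib.MP_b6d339_lc.Cw.T12
import Pool.Agent.Lib.MP_b6d339_lc.Cw.T13
import Pool.Agent.Lib.MP_b6d339_lc.Cw.T3
import Pool.Agent.Lib.MP_b6d339_lc.Cw.T4
import Pool.Agent.Lib.MP_b6d339_lc.Cw.T5
import Pool.Agent.Lib.MP_b6d339_lc.Cw.T6
import Pool.Agent.Lib.MP_b6d339_lc.Cw.T7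
import Pool.Agent.Lib.MP_b6d339_lc.Cw.T8
import Pool.Agent.Lib.MP_b6d339_lc.Cw.T9

/-!
# Erdős 592, three levels: items
-/

namespace MPb6P

noncomputable def iiNFyA2AzEyA2Ax3xA2AyEzA2AyF : BT Itm := (.node (.node (.node (.node (.node (.node (.node (.leaf (.fwd 0 18 tp461.df)) (.leaf (.fwd 18 32 tp447.df))) (.leaf (.bwd 50 32 tp447.df))) (.node (.leaf (.bwd 82 21 tp295.df)) (.leaf (.bwd 103 18 tp462.df)))) (.node (.node (.leaf (.fwd 121 19 tp326.df)) (.leaf (.bwd 140 20 tp614.df))) (.node (.leaf (.fwd 160 27 tp331.df)) (.leaf (.fwd 187 29 tp477.df))))) (.node (.node (.node (.leaf (.bwd 216 29 tp477.df)) (.leaf (.fwd 245 28 tp342.df))) (.node (.leaf (.fwd 273 22 tp334.df)) (.leaf (.bwd 295 22 tp334.df)))) (.node (.node (.leaf (.bwd 317 32 tp368.df)) (.leaf (.fwd 349 27 tp341.df))) (.node (.leaf (.bwd 376 27 tp341.df)) (.leaf (.bwd 403 22 tp378.df)))))) (.node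 (.node (.node (.node (.leaf (.fwd 425 40 tp351.df)) (.leaf (.bwd 465 37 tp372.df))) (.node (.leaf (.fwd 502 38 tp587.df)) (.leaf (.bwd 540 34 tp535.df)))) (.node (.node (.leaf (.fwd 574 30 tp299.df)) (.leaf (.fwd 604 29 tp329.df))) (.node (.leaf (.fwd 633 17 tp337.df)) (.leaf (.bwd 650 17 tp337.df))))) (.node (.node (.node (.leaf (.fwd 667 27 tp338.df)) (.leaf (.bwd 694 27 tp338.df))) (.node (.leaf (.fwd 721 31 tp346.df)) (.leaf (.bwd 752 31 tp346.df)))) (.node (.node (.leaf (.fwd 783 47 tp449.df)) (.leaf (.bwd 830 35 tp359.df))) (.node (.leaf (.bwd 865 25 tp361.df)) (.leaf (.fwd 890 38 tp362.df))))))) (.node (.node (.node (.node (.node (.node (.leaf (.bwd 928 32 tp340.df)) (.leaf (.fwd 960 25 tp347.df))) (.leaf (.fwd 985 22 tp451.df))) (.node (.leaf (.bwd 1007 18 tp1011.df)) (.leaf (.bwd 1025 48 tp1045.df)))) (.node (.node (.leaf (.bwd 1073 17 tp456.df)) (.leaf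 (.bwd 1090 41 tp1083.df))) (.node (.leaf (.fwd 1131 23 tp366.df)) (.leaf (.bwd 1154 23 tp457.df))))) (.node (.node (.node (.leaf (.fwd 1177 22 tp789.df)) (.leaf (.fwd 1199 39 tp1084.df))) (.node (.leaf (.fwd 1238 24 tp1085.df)) (.leaf (.fwd 1262 19 tp517.df)))) (.node (.node (.leaf (.bwd 1281 30 tp299.df)) (.leaf (.bwd 1311 27 tp331.df))) (.node (.leaf (.fwd 1338 36 tp350.df)) (.leaf (.bwd 1374 22 tp473.df)))))) (.node (.node (.node (.node (.leaf (.bwd 1396 40 tp784.df)) (.leaf (.bwd 1436 33 tp1086.df))) (.node (.leaf (.bwd 1469 22 tp731.df)) (.leaf (.bwd 1491 23 tp322.df)))) (.node (.node (.leaf (.bwd 1514 21 tp628.df)) (.leaf (.bwd 1535 25 tp712.df))) (.node (.leaf (.bwd 1560 23 tp292.df)) (.leaf (.bwd 1583 27 tp961.df))))) (.node (.node (.node (.leaf (.fwd 1610 20 tp614.df)) (.leaf (.bwd 1630 20 tp1087.df))) (.node (.leaf (.bwd 1650 33 tp783.df)) (.leaf (.fwd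 1683 28 tp388.df)))) (.node (.node (.leaf (.bwd 1711 16 tp1058.df)) (.leaf (.fwd 1727 23 tp460.df))) (.node (.leaf (.bwd 1750 33 tp363.df)) (.leaf (.bwd 1783 40 tp416.df))))))))

theorem iiNFyA2AzEyA2Ax3xA2AyEzA2AyF_c : iiNFyA2AzEyA2Ax3xA2AyEzA2AyF.all (itB (ng 48 nnNFyA2AzEyA2Ax3xA2AyEzA2AyF)) = true := by decide +kernel
theorem nbNFyA2AzEyA2Ax3xA2AyEzA2AyF : nbB 48 1871 nnNFyA2AzEyA2Ax3xA2AyEzA2AyF = true := by decide +kernel
theorem topNFyA2AzEyA2Ax3xA2AyEzA2AyF : topY 1871 ttNFyA2AzEyA2Ax3xA2AyEzA2AyF ceNFyA2AzEyA2Ax3xA2AyEzA2AyF xNFyA2AzEyA2Ax3xA2AyEzA2AyF iiNFyA2AzEyA2Ax3xA2AyEzA2AyF = true := by decide +kernel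

end MPb6P
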