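import Pool.Agent.Lib.MP_b6d339_lc.Cw.YFyAzAzE2A3Ix3A2A2E
import Pool.Agent.Lib.MP_b6d339_lc.Cw.XL
import Pool.Agent.Lib.MP_b6d339_lc.Cw.T12
import Pool.Agent.Lib.MP_b6d339_lc.Cw.T16
import Pool.Agent.Lib.MP_b6d339_lc.Cw.T17
import Pool.Agent.Lib.MP_b6d339_lc.Cw.T21
import Pool.Agent.Lib.MP_b6d339_lc.Cw.T23
import Pool.Agent.Lib.MP_b6d339_lc.Cw.T25
import Pool.Agent.Lib.MP_b6d339_lc.Cw.T26
import Pool.Agent.Lib.MP_b6d339_lc.Cw.T3
import Pool.Agent.Lib.MP_b6d339_lc.Cw.T31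
import Pool.Agent.Lib.MP_b6d339_lc.Cw.T32
import Pool.Agent.Lib.MP_b6d339_lc.Cw.T4
import Pool.Agent.Lib.MP_b6d339_lc.Cw.T5
import Pool.Agent.Lib.MP_b6d339_lc.Cw.T6
import Pool.Agent.Lib.MP_b6d339_lc.Cw.T7
import Pool.Agent.Lib.MP_b6d339_lc.Cw.T8
import Pool.Agent.Lib.MP_b6d339_lc.Cw.T9

/-!
# Erdős 592, three levels: items
-/

namespace MPb6P

noncomputable def iiNFyAzAzE2A3Ix3A2A2E : BT Itm := (.node (.node (.node (.node (.node (.node (.leaf (.fwd 0 11 tp1420.df)) (.leaf (.fwd 11 13 tp1356.df))) (.node (.leaf (.fwd 24 27 tp567.df)) (.leaf (.fwd 51 21 tp420.df)))) (.node (.node (.leaf (.bwd 72 10 tp2637.df)) (.leaf (.bwd 82 13 tp307.df))) (.leaf (.fwd 95 15 tp1890.df)))) (.node (.node (.node (.leaf (.bwd 110 10 tp785.df)) (.leaf (.bwd 120 26 tp1426.df))) (.leaf (.fwd 146 35 tp2638.df))) (.node (.node (.leaf (.bwd 181 28 tp2639.df)) (.leaf (.bwd 209 33 tp2640.df)))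 (.leaf (.bwd 242 22 tp636.df))))) (.node (.node (.node (.node (.leaf (.bwd 264 17 tp1920.df)) (.leaf (.fwd 281 23 tp426.df))) (.node (.leaf (.fwd 304 25 tp2124.df)) (.leaf (.fwd 329 22 tp334.df)))) (.node (.node (.leaf (.bwd 351 21 tp2549.df)) (.leaf (.bwd 372 23 tp377.df))) (.leaf (.fwd 395 16 tp1037.df)))) (.node (.node (.node (.leaf (.fwd 411 24 tp2099.df)) (.leaf (.bwd 435 37 tp532.df))) (.leaf (.fwd 472 27 tp341.df))) (.node (.node (.leaf (.fwd 499 25 tp1931.df)) (.leaf (.fwd 524 13 tp2056.df))) (.leaf (.bwd 537 31 tp1888.df)))))) (.node (.node (.node (.node (.node (.leaf (.bwd 568 21 tp2045.df)) (.leaf (.fwd 589 19 tp2040.df))) (.node (.leaf (.fwd 608 30 tp299.df)) (.leaf (.fwd 638 29 tp694.df)))) (.node (.node (.leaf (.bwd 667 33 tp783.df)) (.leaf (.bwd 700 44 tp2641.df))) (.leaf (.bwd 744 28 tp806.df)))) (.node (.node (.node (.leaf (.fwd 772 43 tp529.df))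 (.leaf (.bwd 815 19 tp2642.df))) (.leaf (.fwd 834 38 tp2100.df))) (.node (.node (.leaf (.fwd 872 39 tp678.df)) (.leaf (.fwd 911 29 tp730.df))) (.leaf (.bwd 940 21 tp1733.df))))) (.node (.node (.node (.node (.leaf (.bwd 961 41 tp2172.df)) (.leaf (.fwd 1002 30 tp2615.df))) (.node (.leaf (.fwd 1032 48 tp375.df)) (.leaf (.bwd 1080 33 tp2069.df)))) (.node (.node (.leaf (.bwd 1113 48 tp537.df)) (.leaf (.fwd 1161 26 tp2643.df))) (.leaf (.bwd 1187 27 tp1418.df)))) (.node (.node (.node (.leaf (.fwd 1214 41 tp2644.df)) (.leaf (.bwd 1255 13 tp2645.df))) (.leaf (.fwd 1268 24 tp428.df))) (.node (.node (.leaf (.fwd 1292 37 tp2538.df)) (.leaf (.bwd 1329 17 tp1939.df))) (.leaf (.bwd 1346 37 tp372.df)))))))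

theorem iiNFyAzAzE2A3Ix3A2A2E_c : iiNFyAzAzE2A3Ix3A2A2E.all (itB (ng 48 nnNFyAzAzE2A3Ix3A2A2E)) = true := by decide +kernel
theorem nbNFyAzAzE2A3Ix3A2A2E : nbB 48 1431 nnNFyAzAzE2A3Ix3A2A2E = true := by decide +kernel
theorem topNFyAzAzE2A3Ix3A2A2E : topY 1431 ttNFyAzAzE2A3Ix3A2A2E ceNFyAzAzE2A3Ix3A2A2E xNFyAzAzE2A3Ix3A2A2E iiNFyAzAzE2A3Ix3A2A2E = true := by decide +kernel

end MPb6P
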