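import Pool.Agent.Lib.MP_b6d339_lc.Cw.YFyAzAzE2A3Ix3A2AyE
import Pool.Agent.Lib.MP_b6d339_lc.Cw.XL
import Pool.Agent.Lib.MP_b6d339_lc.Cw.T10
import Pool.Agent.Lib.MP_b6d339_lc.Cw.T11
import Pool.Agent.Lib.MP_b6d339_lc.Cw.T12
import Pool.Agent.Lib.MP_b6d339_lc.Cw.T17
import Pool.Agent.Lib.MP_b6d339_lc.Cw.T21
import Pool.Agent.Lib.MP_b6d339_lc.Cw.T23
import Pool.Agent.Lib.MP_b6d339_lc.Cw.T24
import Pool.Agent.Lib.MP_b6d339_lc.Cw.T25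
import Pool.Agent.Lib.MP_b6d339_lc.Cw.T26
import Pool.Agent.Lib.MP_b6d339_lc.Cw.T3
import Pool.Agent.Lib.MP_b6d339_lc.Cw.T30
import Pool.Agent.Lib.MP_b6d339_lc.Cw.T31
import Pool.Agent.Lib.MP_b6d339_lc.Cw.T32
import Pool.Agent.Lib.MP_b6d339_lc.Cw.T35
import Pool.Agent.Lib.MP_b6d339_lc.Cw.T4
import Pool.Agent.Lib.MP_b6d339_lc.Cw.T5
import Pool.Agent.Lib.MP_b6d339_lc.Cw.T6
import Pool.Agent.Lib.MP_b6d339_lc.Cw.T7
import Pool.Agent.Lib.MP_b6d339_lc.Cw.T8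

/-!
# Erdős 592, three levels: items
-/

namespace MPb6P

noncomputable def iiNFyAzAzE2A3Ix3A2AyE : BT Itm := (.node (.node (.node (.node (.node (.node (.leaf (.bwd 0 13 tp307.df)) (.leaf (.fwd 13 27 tp321.df))) (.node (.leaf (.bwd 40 26 tp1426.df)) (.leaf (.bwd 66 33 tp2640.df)))) (.node (.node (.leaf (.fwd 99 18 tp2863.df)) (.leaf (.bwd 117 13 tp1741.df))) (.node (.leaf (.bwd 130 22 tp636.df)) (.leaf (.bwd 152 17 tp1920.df))))) (.node (.node (.node (.leaf (.fwd 169 25 tp2124.df)) (.leaf (.fwd 194 27 tp2864.df))) (.node (.leaf (.bwd 221 21 tp2549.df)) (.leaf (.bwd 242 23 tp377.df)))) (.node (.node (.leaf (.fwd 265 41 tp962.df)) (.leaf (.bwd 306 25 tp1913.df))) (.leaf (.fwd 331 24 tp2099.df))))) (.node (.node (.node (.node (.leaf (.fwd 355 48 tp2434.df)) (.leaf (.fwd 403 27 tp341.df))) (.node (.leaf (.fwd 430 37 tp2865.df)) (.leaf (.bwd 467 31 tp1888.df))))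 (.node (.node (.leaf (.bwd 498 21 tp2045.df)) (.leaf (.bwd 519 19 tp401.df))) (.node (.leaf (.fwd 538 29 tp694.df)) (.leaf (.bwd 567 44 tp2641.df))))) (.node (.node (.node (.leaf (.fwd 611 19 tp493.df)) (.leaf (.fwd 630 39 tp2866.df))) (.node (.leaf (.bwd 669 24 tp810.df)) (.leaf (.fwd 693 43 tp529.df)))) (.node (.node (.leaf (.fwd 736 39 tp853.df)) (.leaf (.fwd 775 37 tp2538.df))) (.leaf (.bwd 812 19 tp2642.df)))))) (.node (.node (.node (.node (.node (.leaf (.fwd 831 38 tp2100.df)) (.leaf (.fwd 869 39 tp678.df))) (.node (.leaf (.bwd 908 29 tp477.df)) (.leaf (.bwd 937 33 tp2867.df)))) (.node (.node (.leaf (.fwd 970 38 tp2868.df)) (.leaf (.fwd 1008 21 tp2067.df))) (.node (.leaf (.bwd 1029 18 tp1995.df)) (.leaf (.bwd 1047 27 tp409.df))))) (.node (.node (.node (.leaf (.bwd 1074 41 tp2172.df)) (.leaf (.fwd 1115 14 tp633.df))) (.node (.leaf (.fwd 1129 14 tp2869.df))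 (.leaf (.fwd 1143 30 tp2615.df)))) (.node (.node (.leaf (.fwd 1173 48 tp375.df)) (.leaf (.bwd 1221 32 tp2054.df))) (.leaf (.bwd 1253 33 tp2069.df))))) (.node (.node (.node (.node (.leaf (.bwd 1286 48 tp537.df)) (.leaf (.fwd 1334 26 tp2643.df))) (.node (.leaf (.fwd 1360 23 tp2075.df)) (.leaf (.fwd 1383 25 tp1732.df)))) (.node (.node (.leaf (.fwd 1408 13 tp2056.df)) (.leaf (.bwd 1421 13 tp2645.df))) (.leaf (.fwd 1434 16 tp1037.df)))) (.node (.node (.node (.leaf (.bwd 1450 53 tp2870.df)) (.leaf (.fwd 1503 21 tp2871.df))) (.node (.leaf (.bwd 1524 34 tp2872.df)) (.leaf (.bwd 1558 28 tp2639.df)))) (.node (.node (.leaf (.fwd 1586 29 tp2057.df)) (.leaf (.bwd 1615 55 tp2873.df))) (.leaf (.bwd 1670 37 tp372.df)))))))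

theorem iiNFyAzAzE2A3Ix3A2AyE_c : iiNFyAzAzE2A3Ix3A2AyE.all (itB (ng 55 nnNFyAzAzE2A3Ix3A2AyE)) = true := by decide +kernel
theorem nbNFyAzAzE2A3Ix3A2AyE : nbB 55 1762 nnNFyAzAzE2A3Ix3A2AyE = true := by decide +kernel
theorem topNFyAzAzE2A3Ix3A2AyE : topY 1762 ttNFyAzAzE2A3Ix3A2AyE ceNFyAzAzE2A3Ix3A2AyE xNFyAzAzE2A3Ix3A2AyE iiNFyAzAzE2A3Ix3A2AyE = true := by decide +kernel

end MPb6P
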