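import Pool.Agent.Lib.MP_b6d339_lc.Cw.YFyAzAzEyA2Ax3xA2AyEzAzAyF
import Pool.Agent.Lib.MP_b6d339_lc.Cw.XL
import Pool.Agent.Lib.MP_b6d339_lc.Cw.T10
import Pool.Agent.Lib.MP_b6d339_lc.Cw.T11
import Pool.Agent.Lib.MP_b6d339_lc.Cw.T12
import Pool.Agent.Lib.MP_b6d339_lc.Cw.T13
import Pool.Agent.Lib.MP_b6d339_lc.Cw.T3
import Pool.Agent.Lib.MP_b6d339_lc.Cw.T4
import Pool.Agent.Lib.MP_b6d339_lc.Cw.T5
import Pool.Agent.Lib.MP_b6d339_lc.Cw.T6
import Pool.Agent.Lib.MP_b6d339_lc.Cw.T7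
import Pool.Agent.Lib.MP_b6d339_lc.Cw.T8
import Pool.Agent.Lib.MP_b6d339_lc.Cw.T9

/-!
# Erdős 592, three levels: items
-/

namespace MPb6P

noncomputable def iiNFyAzAzEyA2Ax3xA2AyEzAzAyF : BT Itm := (.node (.node (.node (.node (.node (.node (.node (.node (.leaf (.fwd 0 16 tp946.df)) (.leaf (.fwd 16 32 tp368.df))) (.leaf (.bwd 48 32 tp368.df))) (.node (.leaf (.fwd 80 25 tp319.df)) (.leaf (.fwd 105 23 tp1088.df)))) (.node (.node (.node (.leaf (.bwd 128 23 tp320.df)) (.leaf (.fwd 151 23 tp292.df))) (.leaf (.bwd 174 20 tp324.df))) (.node (.leaf (.fwd 194 24 tp1085.df)) (.leaf (.fwd 218 19 tp326.df))))) (.node (.node (.node (.node (.leaf (.bwd 237 19 tp326.df)) (.leaf (.fwd 256 13 tp1089.df))) (.leaf (.bwd 269 34 tp670.df))) (.node (.leaf (.fwd 303 27 tp961.df)) (.leaf (.bwd 330 27 tp961.df)))) (.node (.node (.node (.leaf (.bwd 357 23 tp426.df)) (.leaf (.fwd 380 29 tp484.df))) (.leaf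 (.bwd 409 29 tp484.df))) (.node (.leaf (.fwd 438 29 tp511.df)) (.leaf (.fwd 467 25 tp602.df)))))) (.node (.node (.node (.node (.node (.leaf (.fwd 492 22 tp334.df)) (.leaf (.bwd 514 22 tp334.df))) (.leaf (.fwd 536 30 tp698.df))) (.node (.leaf (.bwd 566 32 tp397.df)) (.leaf (.fwd 598 45 tp490.df)))) (.node (.node (.node (.leaf (.fwd 643 22 tp378.df)) (.leaf (.fwd 665 27 tp341.df))) (.leaf (.bwd 692 27 tp341.df))) (.node (.leaf (.fwd 719 28 tp342.df)) (.leaf (.bwd 747 28 tp342.df))))) (.node (.node (.node (.node (.leaf (.fwd 775 31 tp850.df)) (.leaf (.bwd 806 31 tp530.df))) (.leaf (.fwd 837 36 tp1090.df))) (.node (.leaf (.fwd 873 23 tp399.df)) (.leaf (.bwd 896 23 tp399.df)))) (.node (.node (.node (.leaf (.fwd 919 26 tp514.df)) (.leaf (.bwd 945 30 tp299.df))) (.leaf (.bwd 975 32 tp533.df))) (.node (.leaf (.bwd 1007 34 tp535.df)) (.leaf (.bwd 1041 46 tp550.df))))))) (.node (.node (.node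 (.node (.node (.node (.leaf (.fwd 1087 34 tp494.df)) (.leaf (.bwd 1121 43 tp531.df))) (.leaf (.fwd 1164 32 tp447.df))) (.node (.leaf (.bwd 1196 32 tp447.df)) (.leaf (.fwd 1228 37 tp525.df)))) (.node (.node (.node (.leaf (.bwd 1265 37 tp525.df)) (.leaf (.fwd 1302 43 tp524.df))) (.leaf (.fwd 1345 35 tp403.df))) (.node (.leaf (.bwd 1380 35 tp403.df)) (.leaf (.bwd 1415 23 tp1080.df))))) (.node (.node (.node (.node (.leaf (.fwd 1438 34 tp499.df)) (.leaf (.bwd 1472 31 tp500.df))) (.leaf (.bwd 1503 24 tp1091.df))) (.node (.leaf (.fwd 1527 22 tp502.df)) (.leaf (.fwd 1549 22 tp536.df)))) (.node (.node (.node (.leaf (.bwd 1571 46 tp558.df)) (.leaf (.fwd 1617 25 tp312.df))) (.leaf (.fwd 1642 19 tp405.df))) (.node (.leaf (.bwd 1661 40 tp554.df)) (.leaf (.fwd 1701 32 tp563.df)))))) (.node (.node (.node (.node (.node (.leaf (.bwd 1733 30 tp1092.df)) (.leaf (.bwd 1763 42 tp559.df))) (.leaf (.fwd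 1805 39 tp678.df))) (.node (.leaf (.fwd 1844 41 tp534.df)) (.leaf (.bwd 1885 42 tp546.df)))) (.node (.node (.node (.leaf (.bwd 1927 29 tp477.df)) (.leaf (.fwd 1956 36 tp350.df))) (.leaf (.fwd 1992 40 tp351.df))) (.node (.leaf (.fwd 2032 20 tp450.df)) (.leaf (.fwd 2052 28 tp528.df))))) (.node (.node (.node (.node (.leaf (.fwd 2080 38 tp356.df)) (.leaf (.bwd 2118 28 tp555.df))) (.leaf (.bwd 2146 19 tp371.df))) (.node (.leaf (.bwd 2165 18 tp507.df)) (.leaf (.bwd 2183 23 tp1093.df)))) (.node (.node (.node (.leaf (.fwd 2206 28 tp551.df)) (.leaf (.bwd 2234 28 tp538.df))) (.leaf (.bwd 2262 35 tp359.df))) (.node (.leaf (.bwd 2297 25 tp361.df)) (.leaf (.fwd 2322 44 tp364.df)))))))) (.node (.node (.node (.node (.node (.node (.node (.leaf (.bwd 2366 44 tp364.df)) (.leaf (.fwd 2410 27 tp542.df))) (.leaf (.bwd 2437 27 tp542.df))) (.node (.leaf (.fwd 2464 29 tp509.df)) (.leaf (.bwd 2493 23 tp366.df))))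 (.node (.node (.node (.leaf (.fwd 2516 25 tp596.df)) (.leaf (.fwd 2541 40 tp1094.df))) (.leaf (.fwd 2581 27 tp1095.df))) (.node (.leaf (.bwd 2608 45 tp490.df)) (.leaf (.bwd 2653 35 tp1096.df))))) (.node (.node (.node (.node (.leaf (.fwd 2688 43 tp529.df)) (.leaf (.bwd 2731 30 tp1097.df))) (.leaf (.fwd 2761 27 tp1098.df))) (.node (.leaf (.bwd 2788 23 tp489.df)) (.leaf (.bwd 2811 37 tp532.df)))) (.node (.node (.node (.leaf (.fwd 2848 37 tp557.df)) (.leaf (.fwd 2885 33 tp547.df))) (.leaf (.fwd 2918 29 tp504.df))) (.node (.leaf (.bwd 2947 42 tp1099.df)) (.leaf (.bwd 2989 45 tp508.df)))))) (.node (.node (.node (.node (.node (.leaf (.fwd 3034 38 tp348.df)) (.leaf (.bwd 3072 37 tp372.df))) (.leaf (.fwd 3109 25 tp347.df))) (.node (.leaf (.bwd 3134 35 tp360.df)) (.leaf (.fwd 3169 31 tp386.df)))) (.node (.node (.node (.leaf (.bwd 3200 33 tp1100.df)) (.leaf (.fwd 3233 25 tp361.df))) (.leaf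 (.fwd 3258 19 tp1101.df))) (.node (.leaf (.fwd 3277 48 tp375.df)) (.leaf (.bwd 3325 28 tp553.df))))) (.node (.node (.node (.node (.leaf (.bwd 3353 32 tp340.df)) (.leaf (.fwd 3385 42 tp1102.df))) (.leaf (.bwd 3427 30 tp1103.df))) (.node (.leaf (.fwd 3457 32 tp533.df)) (.leaf (.fwd 3489 32 tp948.df)))) (.node (.node (.node (.leaf (.bwd 3521 29 tp509.df)) (.leaf (.fwd 3550 22 tp789.df))) (.leaf (.fwd 3572 27 tp321.df))) (.node (.leaf (.fwd 3599 27 tp604.df)) (.leaf (.fwd 3626 51 tp1104.df))))))) (.node (.node (.node (.node (.node (.node (.leaf (.bwd 3677 22 tp378.df)) (.leaf (.bwd 3699 45 tp561.df))) (.leaf (.fwd 3744 19 tp404.df))) (.node (.leaf (.bwd 3763 26 tp419.df)) (.leaf (.bwd 3789 30 tp1105.df)))) (.node (.node (.node (.leaf (.bwd 3819 27 tp562.df)) (.leaf (.bwd 3846 18 tp461.df))) (.leaf (.bwd 3864 27 tp1106.df))) (.node (.leaf (.bwd 3891 41 tp1107.df)) (.leaf (.bwd 3932 21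 tp997.df))))) (.node (.node (.node (.node (.leaf (.fwd 3953 15 tp577.df)) (.leaf (.bwd 3968 29 tp1108.df))) (.leaf (.fwd 3997 30 tp289.df))) (.node (.leaf (.bwd 4027 43 tp568.df)) (.leaf (.bwd 4070 17 tp1109.df)))) (.node (.node (.node (.leaf (.bwd 4087 29 tp519.df)) (.leaf (.bwd 4116 20 tp614.df))) (.leaf (.fwd 4136 22 tp1000.df))) (.node (.leaf (.bwd 4158 27 tp567.df)) (.leaf (.bwd 4185 14 tp522.df)))))) (.node (.node (.node (.node (.node (.leaf (.bwd 4199 54 tp468.df)) (.leaf (.fwd 4253 25 tp442.df))) (.leaf (.bwd 4278 26 tp1110.df))) (.node (.leaf (.bwd 4304 32 tp616.df)) (.leaf (.bwd 4336 46 tp1111.df)))) (.node (.node (.node (.leaf (.bwd 4382 25 tp423.df)) (.leaf (.bwd 4407 21 tp295.df))) (.leaf (.fwd 4428 23 tp377.df))) (.node (.leaf (.bwd 4451 27 tp445.df)) (.leaf (.fwd 4478 25 tp488.df))))) (.node (.node (.node (.node (.leaf (.bwd 4503 17 tp727.df)) (.leaf (.fwd 4520 40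 tp573.df))) (.leaf (.fwd 4560 21 tp296.df))) (.node (.leaf (.bwd 4581 29 tp1017.df)) (.leaf (.bwd 4610 19 tp517.df)))) (.node (.node (.node (.leaf (.bwd 4629 23 tp565.df)) (.leaf (.bwd 4652 17 tp1112.df))) (.leaf (.fwd 4669 18 tp1113.df))) (.node (.leaf (.bwd 4687 54 tp1114.df)) (.leaf (.bwd 4741 30 tp1115.df)))))))))

theorem iiNFyAzAzEyA2Ax3xA2AyEzAzAyF_c : iiNFyAzAzEyA2Ax3xA2AyEzAzAyF.all (itB (ng 54 nnNFyAzAzEyA2Ax3xA2AyEzAzAyF)) = true := by decide +kernel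
theorem nbNFyAzAzEyA2Ax3xA2AyEzAzAyF : nbB 54 4825 nnNFyAzAzEyA2Ax3xA2AyEzAzAyF = true := by decide +kernel
theorem topNFyAzAzEyA2Ax3xA2AyEzAzAyF : topY 4825 ttNFyAzAzEyA2Ax3xA2AyEzAzAyF ceNFyAzAzEyA2Ax3xA2AyEzAzAyF xNFyAzAzEyA2Ax3xA2AyEzAzAyF iiNFyAzAzEyA2Ax3xA2AyEzAzAyF = true := by decide +kernel

end MPb6P
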