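import Pool.Agent.Lib.MP_b6d339_lc.Cw.XL
import Pool.Agent.Lib.MP_b6d339_lc.Pos.XTreeC

/-!
# Erdős 592, three levels: patterns of words
-/

namespace MPb6P

theorem pq0_ok : POK 206 pq0 :=
  POK.mono (by decide) (chkPath_spec (K := 60) (path := 443548030189528268456119580831595301060292233840038877337) (by decide +kernel))

theorem pq1_ok : POK 206 pq1 :=
  POK.mono (by decide) (chkPath_spec (K := 60) (path := 13536011663498787489505584802565926947839320949306129) (by decide +kernel))

theorem pq2_ok : POK 206 pq2 :=
  POK.mono (by decide) (chkPath_spec (K := 60) (path := 13629548125088499627536114771406167312586372601656081) (by decide +kernel))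

theorem pq3_ok : POK 206 pq3 :=
  POK.mono (by decide) (chkPath_spec (K := 60) (path := 7492923322433692544764901632272319840476984076221714443505866905) (by decide +kernel))

theorem pq4_ok : POK 206 pq4 :=
  POK.mono (by decide) (chkPath_spec (K := 60) (path := 3836376741086050582919629635720751160569079779357891771685732664409) (by decide +kernel))

theorem pq5_ok : POK 206 pq5 :=
  POK.mono (by decide) (chkPath_spec (K := 60) (path := 28387073932129809181191616179870738830515127399872058923145) (by decide +kernel))

theorem pq6_ok : POK 206 pq6 :=
  POK.mono (by decide) (chkPath_spec (K := 60) (path := 1829326983016038218936743562566475668683958239180825824113425) (by decide +kernel))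

theorem pq7_ok : POK 206 pq7 :=
  POK.mono (by decide) (chkPath_spec (K := 60) (path := 1829326983016038218936743562565346667381502564431592667525905) (by decide +kernel))

theorem pq8_ok : POK 206 pq8 :=
  POK.mono (by decide) (chkPath_spec (K := 60) (path := 1005683144415256762989920738202091151495218370736492330325620849752982729) (by decide +kernel))

theorem pq9_ok : POK 206 pq9 :=
  POK.mono (by decide) (chkPath_spec (K := 60) (path := 443548030189528268456119584582456664597412012035182270617) (by decide +kernel))

theorem pq10_ok : POK 206 pq10 :=
  POK.mono (by decide) (chkPath_spec (K := 60) (path := 7492923322433692544764901632272284338929492947668645635624376473) (by decide +kernel))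

theorem pq11_ok : POK 206 pq11 :=
  POK.mono (by decide) (chkPath_spec (K := 60) (path := 446613032962899955795103408829763704150940713330347448473) (by decide +kernel))

theorem pq12_ok : POK 206 pq12 :=
  POK.mono (by decide) (chkPath_spec (K := 60) (path := 3836376741086050582919629634289502567078866112459120593315473794777) (by decide +kernel))

theorem pq13_ok : POK 206 pq13 :=
  POK.mono (by decide) (chkPath_spec (K := 60) (path := 3572904263703199646360827270637974203985213723674128783513) (by decide +kernel))

theorem pq14_ok : POK 206 pq14 :=
  POK.mono (by decide) (chkPath_spec (K := 60) (path := 1829326983016029340414971990325470478839423563151844945270937) (by decide +kernel))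

theorem pq15_ok : POK 206 pq15 :=
  POK.mono (by decide) (chkPath_spec (K := 60) (path := 936615415304207022292465659046630516178178014919620315027649297) (by decide +kernel))

theorem pq16_ok : POK 206 pq16 :=
  POK.mono (by decide) (chkPath_spec (K := 60) (path := 3548384241516226147648956646652755424553117561504859527321) (by decide +kernel))

theorem pq17_ok : POK 206 pq17 :=
  POK.mono (by decide) (chkPath_spec (K := 60) (path := 227096591457038473449533227306217812273818455065502084339865) (by decide +kernel))

theorem pq18_ok : POK 206 pq18 :=
  POK.mono (by decide) (chkPath_spec (K := 60) (path := 228665872877004777367092945320839016402740944715914461386905) (by decide +kernel))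

theorem pq19_ok : POK 206 pq19 :=
  POK.mono (by decide) (chkPath_spec (K := 60) (path := 117076926913025877786558207380830179972132720291752316773669017) (by decide +kernel))

theorem pq20_ok : POK 206 pq20 :=
  POK.mono (by decide) (chkPath_spec (K := 60) (path := 55443503773691033557014877084520994145047057670305854225) (by decide +kernel))

theorem pq21_ok : POK 206 pq21 :=
  POK.mono (by decide) (chkPath_spec (K := 60) (path := 936615415304211568095612704034121109753634036812518579359520921) (by decide +kernel))

theorem pq22_ok : POK 206 pq22 :=
  POK.mono (by decide) (chkPath_spec (K := 60) (path := 1829326983016038218936743562566642792440217302784121345197145) (by decide +kernel))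

theorem pq23_ok : POK 206 pq23 :=
  POK.mono (by decide) (chkPath_spec (K := 60) (path := 930187638608029587249288068929231200148534249626338751184476313) (by decide +kernel))

theorem pq24_ok : POK 206 pq24 :=
  POK.mono (by decide) (chkPath_spec (K := 60) (path := 117076926913026446011951588004173313158261293023737314636837649) (by decide +kernel))

theorem pq25_ok : POK 206 pq25 :=
  POK.mono (by decide) (chkPath_spec (K := 60) (path := 108288093307990299916044819538963696547926819038081809) (by decide +kernel))

theorem pq26_ok : POK 206 pq26 :=
  POK.mono (by decide) (chkPath_spec (K := 60) (path := 8045465155322054103919365905569085512271625602068706002245773039644755161) (by decide +kernel))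

theorem pq27_ok : POK 206 pq27 :=
  POK.mono (by decide) (chkPath_spec (K := 60) (path := 14634615864128234723319775922518275407495788119573427743142673) (by decide +kernel))

theorem pq28_ok : POK 206 pq28 :=
  POK.mono (by decide) (chkPath_spec (K := 60) (path := 3836376741086031963309939339455035589380879435620518272235742271641) (by decide +kernel))

theorem pq29_ok : POK 206 pq29 :=
  POK.mono (by decide) (chkPath_spec (K := 60) (path := 14634615864128234723319775922603772496516580831393088862525593) (by decide +kernel))

theorem pq30_ok : POK 206 pq30 :=
  POK.mono (by decide) (chkPath_spec (K := 60) (path := 14634615864128305751493948500531805349471665913415745206596369) (by decide +kernel))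

theorem pq31_ok : POK 206 pq31 :=
  POK.mono (by decide) (chkPath_spec (K := 60) (path := 1816772731656307787596265759627404687790105956304816469553937) (by decide +kernel))

theorem pq32_ok : POK 206 pq32 :=
  POK.mono (by decide) (chkPath_spec (K := 60) (path := 30691013928688404663357037085787276652251627341889960386956465325273) (by decide +kernel))

theorem pq33_ok : POK 206 pq33 :=
  POK.mono (by decide) (chkPath_spec (K := 60) (path := 227096591457030063585214180783559671248556030130655001942169) (by decide +kernel))

theorem pq34_ok : POK 206 pq34 :=
  POK.mono (by decide) (chkPath_spec (K := 60) (path := 15713799131488463187638802987922906198256723191623012615498104730130585) (by decide +kernel))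

theorem pq35_ok : POK 206 pq35 :=
  POK.mono (by decide) (chkPath_spec (K := 60) (path := 3836376741086031963309939339454994051074426682695371961426529596177) (by decide +kernel))

theorem pq36_ok : POK 206 pq36 :=
  POK.mono (by decide) (chkPath_spec (K := 60) (path := 1964224891436048365214688941800956954150106461605636247292102170166361) (by decide +kernel))

theorem pq37_ok : POK 206 pq37 :=
  POK.mono (by decide) (chkPath_spec (K := 60) (path := 117076926913026446011951588004173314395932652114433626166113041) (by decide +kernel))

theorem pq38_ok : POK 206 pq38 :=
  POK.mono (by decide) (chkPath_spec (K := 60) (path := 446613032962896786470397573595316716282155848904976742092) (by decide +kernel))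

theorem pq39_ok : POK 206 pq39 :=
  POK.mono (by decide) (chkPath_spec (K := 60) (path := 7492923322433656178339725272373116385509530147696325172159951633) (by decide +kernel))

theorem pq40_ok : POK 206 pq40 :=
  POK.mono (by decide) (chkPath_spec (K := 60) (path := 930187638607995140445025633616909027308214193419940900136392857) (by decide +kernel))

theorem pq41_ok : POK 206 pq41 :=
  POK.mono (by decide) (chkPath_spec (K := 60) (path := 936615415304207022292465659046641439778042088050655512572795033) (by decide +kernel))

theorem pq42_ok : POK 206 pq42 :=
  POK.mono (by decide) (chkPath_spec (K := 60) (path := 936615415304207022292465659046639548188691268462044504193282833) (by decide +kernel))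

theorem pq43_ok : POK 206 pq43 :=
  POK.mono (by decide) (chkPath_spec (K := 60) (path := 13536011663498286222530256287542370086029429071262481) (by decide +kernel))

theorem pq44_ok : POK 206 pq44 :=
  POK.mono (by decide) (chkPath_spec (K := 60) (path := 1005683144415256762989920738196227565400242088435284960516644877357164121) (by decide +kernel))

theorem pq45_ok : POK 206 pq45 :=
  POK.mono (by decide) (chkPath_spec (K := 60) (path := 32954225276199133609653722749406479359217204116922359024598396679722577533081) (by decide +kernel))

theorem pq46_ok : POK 206 pq46 :=
  POK.mono (by decide) (chkPath_spec (K := 60) (path := 930187638607995140445037284141319246702677255273123296364573457) (by decide +kernel))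

theorem pq47_ok : POK 206 pq47 :=
  POK.mono (by decide) (chkPath_spec (K := 60) (path := 514909769940613961732548296308307966981546844818661315176175244549752199321) (by decide +kernel))

theorem pq48_ok : POK 206 pq48 :=
  POK.mono (by decide) (chkPath_spec (K := 60) (path := 930187638607995140445037265548079424525364412013082355459528857) (by decide +kernel))

theorem pq49_ok : POK 206 pq49 :=
  POK.mono (by decide) (chkPath_spec (K := 60) (path := 26437522780271069315440596157634181445438342542097) (by decide +kernel))

theorem pq50_ok : POK 206 pq50 :=
  POK.mono (by decide) (chkPath_spec (K := 60) (path := 1816772731656307787594809439780722334682485841088291216922777) (by decide +kernel))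

theorem pq51_ok : POK 206 pq51 :=
  POK.mono (by decide) (chkPath_spec (K := 60) (path := 6978328640045311809298490762959924600304951660158694161) (by decide +kernel))

theorem pq52_ok : POK 206 pq52 :=
  POK.mono (by decide) (chkPath_spec (K := 60) (path := 15713799131488386921717511534407825774104078592294863449797763959407833) (by decide +kernel))

theorem pq53_ok : POK 206 pq53 :=
  POK.mono (by decide) (chkPath_spec (K := 60) (path := 8045465155322054103919365905616805360773136112622375058641516583891867801) (by decide +kernel))

theorem pq54_ok : POK 206 pq54 :=
  POK.mono (by decide) (chkPath_spec (K := 60) (path := 30691013928688404663357037085786926168470162483638696518018331947793) (by decide +kernel))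

theorem pq55_ok : POK 206 pq55 :=
  POK.mono (by decide) (chkPath_spec (K := 60) (path := 476256070967293511907859089480355454311770754699837400457434470553) (by decide +kernel))

theorem pq56_ok : POK 206 pq56 :=
  POK.mono (by decide) (chkPath_spec (K := 60) (path := 59943386579469249426717802178985052145731952789364059745444272281) (by decide +kernel))

theorem pq57_ok : POK 206 pq57 :=
  POK.mono (by decide) (chkPath_spec (K := 60) (path := 866304746463890318241936421781414721361241156308742929) (by decide +kernel))

theorem pq58_ok : POK 206 pq58 :=
  POK.mono (by decide) (chkPath_spec (K := 60) (path := 14534181853249924069453707279379206896303362836287239098315537) (by decide +kernel))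

theorem pq59_ok : POK 206 pq59 :=
  POK.mono (by decide) (chkPath_spec (K := 60) (path := 55443503773688980367483930855361247863417003454002672401) (by decide +kernel))

theorem pq60_ok : POK 206 pq60 :=
  POK.mono (by decide) (chkPath_spec (K := 60) (path := 1816772731656240508681713453687483237732264098296743898523353) (by decide +kernel))

theorem pq61_ok : POK 206 pq61 :=
  POK.mono (by decide) (chkPath_spec (K := 60) (path := 8045465155322093152071067129816527973507442845576904261799437769875757209) (by decide +kernel))

theorem pq62_ok : POK 206 pq62 :=
  POK.mono (by decide) (chkPath_spec (K := 60) (path := 28583234109625597170886618154417742543595516586306430087953) (by decide +kernel))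

theorem pq63_ok : POK 206 pq63 :=
  POK.mono (by decide) (chkPath_spec (K := 60) (path := 6930437971711379194626870245664409171039333687361413913) (by decide +kernel))

theorem pq64_ok : POK 206 pq64 :=
  POK.mono (by decide) (chkPath_spec (K := 60) (path := 14534181853249924069453707279380951346931096282827947038786649) (by decide +kernel))

theorem pq65_ok : POK 206 pq65 :=
  POK.mono (by decide) (chkPath_spec (K := 60) (path := 30691013928688255706479514715640284715047028501034925868670486681753) (by decide +kernel))

theorem pq66_ok : POK 206 pq66 :=
  POK.mono (by decide) (chkPath_spec (K := 60) (path := 117076926913025877786558207380828675875074056622258537921557265) (by decide +kernel))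

theorem pq67_ok : POK 206 pq67 :=
  POK.mono (by decide) (chkPath_spec (K := 60) (path := 15713799131488386921717511534407857509707207744838826401886317507560537) (by decide +kernel))

theorem pq68_ok : POK 206 pq68 :=
  POK.mono (by decide) (chkPath_spec (K := 60) (path := 1816772731656240508681713446268477363004519020736024564045977) (by decide +kernel))

theorem pq69_ok : POK 206 pq69 :=
  POK.mono (by decide) (chkPath_spec (K := 60) (path := 28583234109625458443983937348668506655265086808029190264985) (by decide +kernel))

theorem pq70_ok : POK 206 pq70 :=
  POK.mono (by decide) (chkPath_spec (K := 60) (path := 15713799131488386921717511534407822970260031472145545886076680700539665) (by decide +kernel))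

theorem pq71_ok : POK 206 pq71 :=
  POK.mono (by decide) (chkPath_spec (K := 60) (path := 15713799131488386921717511534407822970260031469965576286412585674060561) (by decide +kernel))

theorem pq72_ok : POK 206 pq72 :=
  POK.mono (by decide) (chkPath_spec (K := 60) (path := 211500182242168554523525078636334789850925957486745) (by decide +kernel))

theorem pq73_ok : POK 206 pq73 :=
  POK.mono (by decide) (chkPath_spec (K := 60) (path := 108288093307986289780242052894084646983816906456048401) (by decide +kernel))

theorem pq74_ok : POK 206 pq74 :=
  POK.mono (by decide) (chkPath_spec (K := 60) (path := 443548030189511842939871446842889982907335996770635068177) (by decide +kernel))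

theorem pq75_ok : POK 206 pq75 :=
  POK.mono (by decide) (chkPath_spec (K := 60) (path := 1829326983016029340414971990325471562066488448720385908742297) (by decide +kernel))


end MPb6P
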