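import Pool.Agent.Lib.MP_b6d339_lc.Cw.YF2B3I3BzC2F
import Pool.Agent.Lib.MP_b6d339_lc.Cw.XL

/-!
# Erdős 592, three levels: checks of claims
-/

namespace MPb6P

theorem zeNF2B3I3BzC2F_0 : cyE 57 5284 nnNF2B3I3BzC2F ttNF2B3I3BzC2F coNF2B3I3BzC2F xNF2B3I3BzC2F ceNF2B3I3BzC2F_0 = true := by decide +kernel

theorem zoNF2B3I3BzC2F_0 : cyO 57 5284 nnNF2B3I3BzC2F ttNF2B3I3BzC2F ceNF2B3I3BzC2F xNF2B3I3BzC2F coNF2B3I3BzC2F_0 = true := by decide +kernel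

end MPb6P
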