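import Pool.Agent.Lib.MP_b6d339_lc.Cw.YFyA2AzE2A2Ax3xA2A2EzAzAyF
import Pool.Agent.Lib.MP_b6d339_lc.Cw.XL

/-!
# Erdős 592, three levels: checks of claims
-/

namespace MPb6P

theorem zoNFyA2AzE2A2Ax3xA2A2EzAzAyF_0 : cyO 48 2078 nnNFyA2AzE2A2Ax3xA2A2EzAzAyF ttNFyA2AzE2A2Ax3xA2A2EzAzAyF ceNFyA2AzE2A2Ax3xA2A2EzAzAyF xNFyA2AzE2A2Ax3xA2A2EzAzAyF coNFyA2AzE2A2Ax3xA2A2EzAzAyF_0 = true := by decide +kernel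

theorem zeNFyA2AzE2A2Ax3xA2A2EzAzAyF_0 : cyE 48 2078 nnNFyA2AzE2A2Ax3xA2A2EzAzAyF ttNFyA2AzE2A2Ax3xA2A2EzAzAyF coNFyA2AzE2A2Ax3xA2A2EzAzAyF xNFyA2AzE2A2Ax3xA2A2EzAzAyF ceNFyA2AzE2A2Ax3xA2A2EzAzAyF_0 = true := by decide +kernel

end MPb6P
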