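import Pool.Agent.Lib.MP_b6d339_lc.Cw.YFyA2AzE2B3HzB2H3B2E
import Pool.Agent.Lib.MP_b6d339_lc.Cw.XL

/-!
# Erdős 592, three levels: checks of claims
-/

namespace MPb6P

theorem zoNFyA2AzE2B3HzB2H3B2E_1 : cyO 58 7126 nnNFyA2AzE2B3HzB2H3B2E ttNFyA2AzE2B3HzB2H3B2E ceNFyA2AzE2B3HzB2H3B2E xNFyA2AzE2B3HzB2H3B2E coNFyA2AzE2B3HzB2H3B2E_1 = true := by decide +kernel

theorem zoNFyA2AzE2B3HzB2H3B2E_0 : cyO 58 7126 nnNFyA2AzE2B3HzB2H3B2E ttNFyA2AzE2B3HzB2H3B2E ceNFyA2AzE2B3HzB2H3B2E xNFyA2AzE2B3HzB2H3B2E coNFyA2AzE2B3HzB2H3B2E_0 = true := by decide +kernel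

end MPb6P
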