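import Pool.Agent.Lib.MP_b6d339_lc.Cw.YFyAzAzE2A3Ix3A2A2E
import Pool.Agent.Lib.MP_b6d339_lc.Cw.XL

/-!
# Erdős 592, three levels: checks of claims
-/

namespace MPb6P

theorem zoNFyAzAzE2A3Ix3A2A2E_0 : cyO 48 1431 nnNFyAzAzE2A3Ix3A2A2E ttNFyAzAzE2A3Ix3A2A2E ceNFyAzAzE2A3Ix3A2A2E xNFyAzAzE2A3Ix3A2A2E coNFyAzAzE2A3Ix3A2A2E_0 = true := by decide +kernel

theorem zeNFyAzAzE2A3Ix3A2A2E_0 : cyE 48 1431 nnNFyAzAzE2A3Ix3A2A2E ttNFyAzAzE2A3Ix3A2A2E coNFyAzAzE2A3Ix3A2A2E xNFyAzAzE2A3Ix3A2A2E ceNFyAzAzE2A3Ix3A2A2E_0 = true := by decide +kernel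

end MPb6P
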