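import Pool.Agent.Lib.MP_b6d339_lc.Cw.JF2B3I3BzC2F
import Pool.Agent.Lib.MP_b6d339_lc.Cw.JFyA2AzE2A2Ax3xA2A2EzAzAyF
import Pool.Agent.Lib.MP_b6d339_lc.Cw.JFyA2AzE2B3HzB2H3B2E
import Pool.Agent.Lib.MP_b6d339_lc.Cw.JFyA2AzEyA2Ax3xA2AyEzA2AyF
import Pool.Agent.Lib.MP_b6d339_lc.Cw.JFyAzAzE2A3Ix3A2A2E
import Pool.Agent.Lib.MP_b6d339_lc.Cw.JFyAzAzE2A3Ix3A2AyE
import Pool.Agent.Lib.MP_b6d339_lc.Cw.JFyAzAzEyA2Ax3xA2AyEzAzA2F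
import Pool.Agent.Lib.MP_b6d339_lc.Cw.JFyAzAzEyA2Ax3xA2AyEzAzAyF
import Pool.Agent.Lib.MP_b6d339_lc.Cw.P0
import Pool.Agent.Lib.MP_b6d339_lc.Cw.P1
import Pool.Agent.Lib.MP_b6d339_lc.Cw.S2
import Pool.Agent.Lib.MP_b6d339_lc.Cw.S3
import Pool.Agent.Lib.MP_b6d339_lc.Cw.S7
import Pool.Agent.Lib.MP_b6d339_lc.Cw.T0
import Pool.Agent.Lib.MP_b6d339_lc.Cw.T1
import Pool.Agent.Lib.MP_b6d339_lc.Cw.T10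
import Pool.Agent.Lib.MP_b6d339_lc.Cw.T11
import Pool.Agent.Lib.MP_b6d339_lc.Cw.T12
import Pool.Agent.Lib.MP_b6d339_lc.Cw.T13
import Pool.Agent.Lib.MP_b6d339_lc.Cw.T14
import Pool.Agent.Lib.MP_b6d339_lc.Cw.T16
import Pool.Agent.Lib.MP_b6d339_lc.Cw.T17
import Pool.Agent.Lib.MP_b6d339_lc.Cw.T18
import Pool.Agent.Lib.MP_b6d339_lc.Cw.T19
import Pool.Agent.Lib.MP_b6d339_lc.Cw.T2
import Pool.Agent.Lib.MP_b6d339_lc.Cw.T20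
import Pool.Agent.Lib.MP_b6d339_lc.Cw.T21
import Pool.Agent.Lib.MP_b6d339_lc.Cw.T22
import Pool.Agent.Lib.MP_b6d339_lc.Cw.T23
import Pool.Agent.Lib.MP_b6d339_lc.Cw.T24
import Pool.Agent.Lib.MP_b6d339_lc.Cw.T25
import Pool.Agent.Lib.MP_b6d339_lc.Cw.T26
import Pool.Agent.Lib.MP_b6d339_lc.Cw.T27
import Pool.Agent.Lib.MP_b6d339_lc.Cw.T28
import Pool.Agent.Lib.MP_b6d339_lc.Cw.T29
import Pool.Agent.Lib.MP_b6d339_lc.Cw.T3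
import Pool.Agent.Lib.MP_b6d339_lc.Cw.T30
import Pool.Agent.Lib.MP_b6d339_lc.Cw.T31
import Pool.Agent.Lib.MP_b6d339_lc.Cw.T32
import Pool.Agent.Lib.MP_b6d339_lc.Cw.T33
import Pool.Agent.Lib.MP_b6d339_lc.Cw.T35
import Pool.Agent.Lib.MP_b6d339_lc.Cw.T36
import Pool.Agent.Lib.MP_b6d339_lc.Cw.T4
import Pool.Agent.Lib.MP_b6d339_lc.Cw.T5
import Pool.Agent.Lib.MP_b6d339_lc.Cw.T6
import Pool.Agent.Lib.MP_b6d339_lc.Cw.T7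
import Pool.Agent.Lib.MP_b6d339_lc.Cw.T8
import Pool.Agent.Lib.MP_b6d339_lc.Cw.T9
import Pool.Agent.Lib.MP_b6d339_lc.Cw.XL
import Pool.Agent.Lib.MP_b6d339_lc.Cw.ZF2B3I3BzC2F_0
import Pool.Agent.Lib.MP_b6d339_lc.Cw.ZFyA2AzE2A2Ax3xA2A2EzAzAyF_0
import Pool.Agent.Lib.MP_b6d339_lc.Cw.ZFyA2AzE2B3HzB2H3B2E_0
import Pool.Agent.Lib.MP_b6d339_lc.Cw.ZFyA2AzE2B3HzB2H3B2E_1
import Pool.Agent.Lib.MP_b6d339_lc.Cw.ZFyA2AzEyA2Ax3xA2AyEzA2AyF_0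
import Pool.Agent.Lib.MP_b6d339_lc.Cw.ZFyAzAzE2A3Ix3A2A2E_0
import Pool.Agent.Lib.MP_b6d339_lc.Cw.ZFyAzAzE2A3Ix3A2AyE_0
import Pool.Agent.Lib.MP_b6d339_lc.Cw.ZFyAzAzEyA2Ax3xA2AyEzAzA2F_0
import Pool.Agent.Lib.MP_b6d339_lc.Cw.ZFyAzAzEyA2Ax3xA2AyEzAzAyF_0
import Pool.Agent.Lib.MP_b6d339_lc.Pos.XTreeC
import Pool.Agent.Lib.MP_b6d339_lc.Pos.YQ

/-!
# Erdős 592, three levels: classes of words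
-/

namespace MPb6P

theorem iiNF2B3I3BzC2F_k : iiNF2B3I3BzC2F.Fa (Itm.ok 206) := (BT.Fa_mk (BT.Fa_mk (BT.Fa_mk (BT.Fa_mk (BT.Fa_mk (BT.Fa_mk (BT.Fa_mk (BT.Fa_mk (BT.Fa_leaf (P := Itm.ok 206) (iqf tp210_c)) (BT.Fa_leaf (P := Itm.ok 206) (iqf tp211_c))) (BT.Fa_leaf (P := Itm.ok 206) (iqf tp212_c))) (BT.Fa_mk (BT.Fa_leaf (P := Itm.ok 206) (iqf tp213_c)) (BT.Fa_leaf (P := Itm.ok 206) (iqf tp214_c)))) (BT.Fa_mk (BT.Fa_mk (BT.Fa_mk (BT.Fa_leaf (P := Itm.ok 206) (iqf tp215_c)) (BT.Fa_leaf (P := Itm.ok 206) (iqf tp216_c))) (BT.Fa_leaf (P := Itm.ok 206) (iqb tp217_c))) (BT.Fa_mk (BT.Fa_leaf (P := Itm.ok 206) (iqf tp218_c)) (BT.Fa_leaf (P := Itm.ok 206) (iqb tp219_c))))) (BT.Fa_mk (BT.Fa_mk (BT.Fa_mk (BT.Fa_mk (BT.Fa_leaf (P := Itm.ok 206) (iqb tp127_c)) (BT.Fa_leaf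 (P := Itm.ok 206) (iqb tp220_c))) (BT.Fa_leaf (P := Itm.ok 206) (iqf tp221_c))) (BT.Fa_mk (BT.Fa_leaf (P := Itm.ok 206) (iqb tp222_c)) (BT.Fa_leaf (P := Itm.ok 206) (iqb tp223_c)))) (BT.Fa_mk (BT.Fa_mk (BT.Fa_mk (BT.Fa_leaf (P := Itm.ok 206) (iqb tp224_c)) (BT.Fa_leaf (P := Itm.ok 206) (iqb tp225_c))) (BT.Fa_leaf (P := Itm.ok 206) (iqb tp226_c))) (BT.Fa_mk (BT.Fa_leaf (P := Itm.ok 206) (iqb tp227_c)) (BT.Fa_leaf (P := Itm.ok 206) (iqf tp228_c)))))) (BT.Fa_mk (BT.Fa_mk (BT.Fa_mk (BT.Fa_mk (BT.Fa_mk (BT.Fa_leaf (P := Itm.ok 206) (iqb tp229_c)) (BT.Fa_leaf (P := Itm.ok 206) (iqf tp230_c))) (BT.Fa_leaf (P := Itm.ok 206) (iqb tp231_c))) (BT.Fa_mk (BT.Fa_leaf (P := Itm.ok 206) (iqb tp232_c)) (BT.Fa_leaf (P := Itm.ok 206) (iqf tp233_c)))) (BT.Fa_mk (BT.Fa_mk (BT.Fa_mk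 (BT.Fa_leaf (P := Itm.ok 206) (iqf tp234_c)) (BT.Fa_leaf (P := Itm.ok 206) (iqf tp235_c))) (BT.Fa_leaf (P := Itm.ok 206) (iqb tp236_c))) (BT.Fa_mk (BT.Fa_leaf (P := Itm.ok 206) (iqb tp237_c)) (BT.Fa_leaf (P := Itm.ok 206) (iqb tp238_c))))) (BT.Fa_mk (BT.Fa_mk (BT.Fa_mk (BT.Fa_mk (BT.Fa_leaf (P := Itm.ok 206) (iqb tp239_c)) (BT.Fa_leaf (P := Itm.ok 206) (iqb tp240_c))) (BT.Fa_leaf (P := Itm.ok 206) (iqb tp241_c))) (BT.Fa_mk (BT.Fa_leaf (P := Itm.ok 206) (iqb tp242_c)) (BT.Fa_leaf (P := Itm.ok 206) (iqb tp243_c)))) (BT.Fa_mk (BT.Fa_mk (BT.Fa_leaf (P := Itm.ok 206) (iqb tp244_c)) (BT.Fa_leaf (P := Itm.ok 206) (iqb tp245_c))) (BT.Fa_mk (BT.Fa_leaf (P := Itm.ok 206) (iqb tp246_c)) (BT.Fa_leaf (P := Itm.ok 206) (iqb tp247_c))))))) (BT.Fa_mk (BT.Fa_mk (BT.Fa_mk (BT.Fa_mk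 (BT.Fa_mk (BT.Fa_mk (BT.Fa_leaf (P := Itm.ok 206) (iqf tp248_c)) (BT.Fa_leaf (P := Itm.ok 206) (iqb tp249_c))) (BT.Fa_leaf (P := Itm.ok 206) (iqb tp250_c))) (BT.Fa_mk (BT.Fa_leaf (P := Itm.ok 206) (iqf tp251_c)) (BT.Fa_leaf (P := Itm.ok 206) (iqf tp252_c)))) (BT.Fa_mk (BT.Fa_mk (BT.Fa_mk (BT.Fa_leaf (P := Itm.ok 206) (iqb tp253_c)) (BT.Fa_leaf (P := Itm.ok 206) (iqf tp254_c))) (BT.Fa_leaf (P := Itm.ok 206) (iqf tp255_c))) (BT.Fa_mk (BT.Fa_leaf (P := Itm.ok 206) (iqf tp256_c)) (BT.Fa_leaf (P := Itm.ok 206) (iqf tp257_c))))) (BT.Fa_mk (BT.Fa_mk (BT.Fa_mk (BT.Fa_mk (BT.Fa_leaf (P := Itm.ok 206) (iqb tp258_c)) (BT.Fa_leaf (P := Itm.ok 206) (iqb tp259_c))) (BT.Fa_leaf (P := Itm.ok 206) (iqb tp260_c))) (BT.Fa_mk (BT.Fa_leaf (P := Itm.ok 206) (iqb tp261_c)) (BT.Fa_leaf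 (P := Itm.ok 206) (iqf tp262_c)))) (BT.Fa_mk (BT.Fa_mk (BT.Fa_mk (BT.Fa_leaf (P := Itm.ok 206) (iqf tp263_c)) (BT.Fa_leaf (P := Itm.ok 206) (iqb tp264_c))) (BT.Fa_leaf (P := Itm.ok 206) (iqb tp265_c))) (BT.Fa_mk (BT.Fa_leaf (P := Itm.ok 206) (iqb tp266_c)) (BT.Fa_leaf (P := Itm.ok 206) (iqb tp267_c)))))) (BT.Fa_mk (BT.Fa_mk (BT.Fa_mk (BT.Fa_mk (BT.Fa_mk (BT.Fa_leaf (P := Itm.ok 206) (iqb tp268_c)) (BT.Fa_leaf (P := Itm.ok 206) (iqb tp269_c))) (BT.Fa_leaf (P := Itm.ok 206) (iqb tp270_c))) (BT.Fa_mk (BT.Fa_leaf (P := Itm.ok 206) (iqb tp271_c)) (BT.Fa_leaf (P := Itm.ok 206) (iqb tp272_c)))) (BT.Fa_mk (BT.Fa_mk (BT.Fa_mk (BT.Fa_leaf (P := Itm.ok 206) (iqb tp273_c)) (BT.Fa_leaf (P := Itm.ok 206) (iqb tp274_c))) (BT.Fa_leaf (P := Itm.ok 206) (iqb tp275_c))) (BT.Fa_mk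 (BT.Fa_leaf (P := Itm.ok 206) (iqf tp276_c)) (BT.Fa_leaf (P := Itm.ok 206) (iqf tp277_c))))) (BT.Fa_mk (BT.Fa_mk (BT.Fa_mk (BT.Fa_mk (BT.Fa_leaf (P := Itm.ok 206) (show Itm.ok 206 (.pat 1853 pq0) from (POK.mono (by decide) pq0_ok))) (BT.Fa_leaf (P := Itm.ok 206) (show Itm.ok 206 (.pat 1889 pq1) from (POK.mono (by decide) pq1_ok)))) (BT.Fa_leaf (P := Itm.ok 206) (show Itm.ok 206 (.pat 1923 pq2) from (POK.mono (by decide) pq2_ok)))) (BT.Fa_mk (BT.Fa_leaf (P := Itm.ok 206) (show Itm.ok 206 (.pat 1955 pq3) from (POK.mono (by decide) pq3_ok))) (BT.Fa_leaf (P := Itm.ok 206) (show Itm.ok 206 (.pat 1997 pq4) from (POK.mono (by decide) pq4_ok))))) (BT.Fa_mk (BT.Fa_mk (BT.Fa_leaf (P := Itm.ok 206) (show Itm.ok 206 (.pat 2039 pq5) from (POK.mono (by decide) pq5_ok))) (BT.Fa_leaf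 (P := Itm.ok 206) (show Itm.ok 206 (.pat 2077 pq6) from (POK.mono (by decide) pq6_ok)))) (BT.Fa_mk (BT.Fa_leaf (P := Itm.ok 206) (show Itm.ok 206 (.pat 2115 pq7) from (POK.mono (by decide) pq7_ok))) (BT.Fa_leaf (P := Itm.ok 206) (show Itm.ok 206 (.pat 2153 pq8) from (POK.mono (by decide) pq8_ok))))))))) (BT.Fa_mk (BT.Fa_mk (BT.Fa_mk (BT.Fa_mk (BT.Fa_mk (BT.Fa_mk (BT.Fa_mk (BT.Fa_leaf (P := Itm.ok 206) (show Itm.ok 206 (.pat 2199 pq9) from (POK.mono (by decide) pq9_ok))) (BT.Fa_leaf (P := Itm.ok 206) (show Itm.ok 206 (.pat 2237 pq10) from (POK.mono (by decide) pq10_ok)))) (BT.Fa_leaf (P := Itm.ok 206) (show Itm.ok 206 (.pat 2277 pq11) from (POK.mono (by decide) pq11_ok)))) (BT.Fa_mk (BT.Fa_leaf (P := Itm.ok 206) (show Itm.ok 206 (.pat 2313 pq12) from (POK.mono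 (by decide) pq12_ok))) (BT.Fa_leaf (P := Itm.ok 206) (show Itm.ok 206 (.pat 2357 pq13) from (POK.mono (by decide) pq13_ok))))) (BT.Fa_mk (BT.Fa_mk (BT.Fa_mk (BT.Fa_leaf (P := Itm.ok 206) (show Itm.ok 206 (.pat 2393 pq14) from (POK.mono (by decide) pq14_ok))) (BT.Fa_leaf (P := Itm.ok 206) (show Itm.ok 206 (.pat 2431 pq15) from (POK.mono (by decide) pq15_ok)))) (BT.Fa_leaf (P := Itm.ok 206) (show Itm.ok 206 (.pat 2471 pq16) from (POK.mono (by decide) pq16_ok)))) (BT.Fa_mk (BT.Fa_leaf (P := Itm.ok 206) (show Itm.ok 206 (.pat 2507 pq17) from (POK.mono (by decide) pq17_ok))) (BT.Fa_leaf (P := Itm.ok 206) (show Itm.ok 206 (.pat 2547 pq18) from (POK.mono (by decide) pq18_ok)))))) (BT.Fa_mk (BT.Fa_mk (BT.Fa_mk (BT.Fa_mk (BT.Fa_leaf (P := Itm.ok 206) (show Itm.ok 206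 (.pat 2585 pq19) from (POK.mono (by decide) pq19_ok))) (BT.Fa_leaf (P := Itm.ok 206) (show Itm.ok 206 (.pat 2625 pq20) from (POK.mono (by decide) pq20_ok)))) (BT.Fa_leaf (P := Itm.ok 206) (show Itm.ok 206 (.pat 2661 pq21) from (POK.mono (by decide) pq21_ok)))) (BT.Fa_mk (BT.Fa_leaf (P := Itm.ok 206) (show Itm.ok 206 (.pat 2703 pq22) from (POK.mono (by decide) pq22_ok))) (BT.Fa_leaf (P := Itm.ok 206) (show Itm.ok 206 (.pat 2741 pq23) from (POK.mono (by decide) pq23_ok))))) (BT.Fa_mk (BT.Fa_mk (BT.Fa_mk (BT.Fa_leaf (P := Itm.ok 206) (show Itm.ok 206 (.pat 2781 pq24) from (POK.mono (by decide) pq24_ok))) (BT.Fa_leaf (P := Itm.ok 206) (show Itm.ok 206 (.pat 2819 pq25) from (POK.mono (by decide) pq25_ok)))) (BT.Fa_leaf (P := Itm.ok 206) (show Itm.ok 206 (.pat 2853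 pq26) from (POK.mono (by decide) pq26_ok)))) (BT.Fa_mk (BT.Fa_leaf (P := Itm.ok 206) (show Itm.ok 206 (.pat 2901 pq27) from (POK.mono (by decide) pq27_ok))) (BT.Fa_leaf (P := Itm.ok 206) (show Itm.ok 206 (.pat 2941 pq28) from (POK.mono (by decide) pq28_ok))))))) (BT.Fa_mk (BT.Fa_mk (BT.Fa_mk (BT.Fa_mk (BT.Fa_mk (BT.Fa_leaf (P := Itm.ok 206) (show Itm.ok 206 (.pat 2983 pq29) from (POK.mono (by decide) pq29_ok))) (BT.Fa_leaf (P := Itm.ok 206) (show Itm.ok 206 (.pat 3021 pq30) from (POK.mono (by decide) pq30_ok)))) (BT.Fa_leaf (P := Itm.ok 206) (show Itm.ok 206 (.pat 3059 pq31) from (POK.mono (by decide) pq31_ok)))) (BT.Fa_mk (BT.Fa_leaf (P := Itm.ok 206) (show Itm.ok 206 (.pat 3097 pq32) from (POK.mono (by decide) pq32_ok))) (BT.Fa_leaf (P := Itm.ok 206) (show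 Itm.ok 206 (.pat 3139 pq33) from (POK.mono (by decide) pq33_ok))))) (BT.Fa_mk (BT.Fa_mk (BT.Fa_mk (BT.Fa_leaf (P := Itm.ok 206) (show Itm.ok 206 (.pat 3177 pq34) from (POK.mono (by decide) pq34_ok))) (BT.Fa_leaf (P := Itm.ok 206) (show Itm.ok 206 (.pat 3221 pq35) from (POK.mono (by decide) pq35_ok)))) (BT.Fa_leaf (P := Itm.ok 206) (show Itm.ok 206 (.pat 3263 pq36) from (POK.mono (by decide) pq36_ok)))) (BT.Fa_mk (BT.Fa_leaf (P := Itm.ok 206) (show Itm.ok 206 (.pat 3307 pq37) from (POK.mono (by decide) pq37_ok))) (BT.Fa_leaf (P := Itm.ok 206) (show Itm.ok 206 (.pat 3347 pq38) from (POK.mono (by decide) pq38_ok)))))) (BT.Fa_mk (BT.Fa_mk (BT.Fa_mk (BT.Fa_mk (BT.Fa_leaf (P := Itm.ok 206) (show Itm.ok 206 (.pat 3381 pq39) from (POK.mono (by decide) pq39_ok))) (BT.Fa_leaf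 (P := Itm.ok 206) (show Itm.ok 206 (.pat 3421 pq40) from (POK.mono (by decide) pq40_ok)))) (BT.Fa_leaf (P := Itm.ok 206) (show Itm.ok 206 (.pat 3463 pq41) from (POK.mono (by decide) pq41_ok)))) (BT.Fa_mk (BT.Fa_leaf (P := Itm.ok 206) (show Itm.ok 206 (.pat 3505 pq42) from (POK.mono (by decide) pq42_ok))) (BT.Fa_leaf (P := Itm.ok 206) (show Itm.ok 206 (.pat 3545 pq43) from (POK.mono (by decide) pq43_ok))))) (BT.Fa_mk (BT.Fa_mk (BT.Fa_leaf (P := Itm.ok 206) (show Itm.ok 206 (.pat 3579 pq44) from (POK.mono (by decide) pq44_ok))) (BT.Fa_leaf (P := Itm.ok 206) (show Itm.ok 206 (.pat 3627 pq45) from (POK.mono (by decide) pq45_ok)))) (BT.Fa_mk (BT.Fa_leaf (P := Itm.ok 206) (show Itm.ok 206 (.pat 3675 pq46) from (POK.mono (by decide) pq46_ok))) (BT.Fa_leaf (P := Itm.ok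 206) (show Itm.ok 206 (.pat 3715 pq47) from (POK.mono (by decide) pq47_ok)))))))) (BT.Fa_mk (BT.Fa_mk (BT.Fa_mk (BT.Fa_mk (BT.Fa_mk (BT.Fa_mk (BT.Fa_leaf (P := Itm.ok 206) (show Itm.ok 206 (.pat 3761 pq48) from (POK.mono (by decide) pq48_ok))) (BT.Fa_leaf (P := Itm.ok 206) (show Itm.ok 206 (.pat 3803 pq49) from (POK.mono (by decide) pq49_ok)))) (BT.Fa_leaf (P := Itm.ok 206) (show Itm.ok 206 (.pat 3835 pq50) from (POK.mono (by decide) pq50_ok)))) (BT.Fa_mk (BT.Fa_leaf (P := Itm.ok 206) (show Itm.ok 206 (.pat 3875 pq51) from (POK.mono (by decide) pq51_ok))) (BT.Fa_leaf (P := Itm.ok 206) (show Itm.ok 206 (.pat 3909 pq52) from (POK.mono (by decide) pq52_ok))))) (BT.Fa_mk (BT.Fa_mk (BT.Fa_mk (BT.Fa_leaf (P := Itm.ok 206) (show Itm.ok 206 (.pat 3953 pq53) from (POK.mono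 (by decide) pq53_ok))) (BT.Fa_leaf (P := Itm.ok 206) (show Itm.ok 206 (.pat 3999 pq54) from (POK.mono (by decide) pq54_ok)))) (BT.Fa_leaf (P := Itm.ok 206) (show Itm.ok 206 (.pat 4041 pq55) from (POK.mono (by decide) pq55_ok)))) (BT.Fa_mk (BT.Fa_leaf (P := Itm.ok 206) (show Itm.ok 206 (.pat 4083 pq56) from (POK.mono (by decide) pq56_ok))) (BT.Fa_leaf (P := Itm.ok 206) (show Itm.ok 206 (.pat 4125 pq57) from (POK.mono (by decide) pq57_ok)))))) (BT.Fa_mk (BT.Fa_mk (BT.Fa_mk (BT.Fa_mk (BT.Fa_leaf (P := Itm.ok 206) (show Itm.ok 206 (.pat 4161 pq58) from (POK.mono (by decide) pq58_ok))) (BT.Fa_leaf (P := Itm.ok 206) (show Itm.ok 206 (.pat 4201 pq59) from (POK.mono (by decide) pq59_ok)))) (BT.Fa_leaf (P := Itm.ok 206) (show Itm.ok 206 (.pat 4237 pq60) from (POK.mono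 (by decide) pq60_ok)))) (BT.Fa_mk (BT.Fa_leaf (P := Itm.ok 206) (show Itm.ok 206 (.pat 4277 pq61) from (POK.mono (by decide) pq61_ok))) (BT.Fa_leaf (P := Itm.ok 206) (show Itm.ok 206 (.pat 4325 pq62) from (POK.mono (by decide) pq62_ok))))) (BT.Fa_mk (BT.Fa_mk (BT.Fa_mk (BT.Fa_leaf (P := Itm.ok 206) (show Itm.ok 206 (.pat 4363 pq63) from (POK.mono (by decide) pq63_ok))) (BT.Fa_leaf (P := Itm.ok 206) (show Itm.ok 206 (.pat 4399 pq64) from (POK.mono (by decide) pq64_ok)))) (BT.Fa_leaf (P := Itm.ok 206) (show Itm.ok 206 (.pat 4439 pq65) from (POK.mono (by decide) pq65_ok)))) (BT.Fa_mk (BT.Fa_leaf (P := Itm.ok 206) (show Itm.ok 206 (.pat 4481 pq66) from (POK.mono (by decide) pq66_ok))) (BT.Fa_leaf (P := Itm.ok 206) (show Itm.ok 206 (.pat 4521 pq67) from (POK.mono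 (by decide) pq67_ok))))))) (BT.Fa_mk (BT.Fa_mk (BT.Fa_mk (BT.Fa_mk (BT.Fa_mk (BT.Fa_leaf (P := Itm.ok 206) (show Itm.ok 206 (.pat 4567 pq68) from (POK.mono (by decide) pq68_ok))) (BT.Fa_leaf (P := Itm.ok 206) (show Itm.ok 206 (.pat 4605 pq69) from (POK.mono (by decide) pq69_ok)))) (BT.Fa_leaf (P := Itm.ok 206) (show Itm.ok 206 (.pat 4643 pq70) from (POK.mono (by decide) pq70_ok)))) (BT.Fa_mk (BT.Fa_leaf (P := Itm.ok 206) (show Itm.ok 206 (.pat 4689 pq71) from (POK.mono (by decide) pq71_ok))) (BT.Fa_leaf (P := Itm.ok 206) (show Itm.ok 206 (.pat 4733 pq72) from (POK.mono (by decide) pq72_ok))))) (BT.Fa_mk (BT.Fa_mk (BT.Fa_mk (BT.Fa_leaf (P := Itm.ok 206) (show Itm.ok 206 (.pat 4765 pq73) from (POK.mono (by decide) pq73_ok))) (BT.Fa_leaf (P := Itm.ok 206) (show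 Itm.ok 206 (.pat 4801 pq74) from (POK.mono (by decide) pq74_ok)))) (BT.Fa_leaf (P := Itm.ok 206) (show Itm.ok 206 (.pat 4837 pq75) from (POK.mono (by decide) pq75_ok)))) (BT.Fa_mk (BT.Fa_leaf (P := Itm.ok 206) (show Itm.ok 206 (.pat 4877 pq76) from (POK.mono (by decide) pq76_ok))) (BT.Fa_leaf (P := Itm.ok 206) (iqb tp278_c))))) (BT.Fa_mk (BT.Fa_mk (BT.Fa_mk (BT.Fa_mk (BT.Fa_leaf (P := Itm.ok 206) (iqb tp279_c)) (BT.Fa_leaf (P := Itm.ok 206) (iqb tp280_c))) (BT.Fa_leaf (P := Itm.ok 206) (iqf tp98_c))) (BT.Fa_mk (BT.Fa_leaf (P := Itm.ok 206) (show Itm.ok 206 (.pat 4985 pq77) from (POK.mono (by decide) pq77_ok))) (BT.Fa_leaf (P := Itm.ok 206) (show Itm.ok 206 (.pat 5019 pq78) from (POK.mono (by decide) pq78_ok))))) (BT.Fa_mk (BT.Fa_mk (BT.Fa_leaf (P := Itm.ok 206)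 (show Itm.ok 206 (.pat 5055 pq79) from (POK.mono (by decide) pq79_ok))) (BT.Fa_leaf (P := Itm.ok 206) (show Itm.ok 206 (.pat 5099 pq80) from (POK.mono (by decide) pq80_ok)))) (BT.Fa_mk (BT.Fa_leaf (P := Itm.ok 206) (show Itm.ok 206 (.pat 5141 pq81) from (POK.mono (by decide) pq81_ok))) (BT.Fa_leaf (P := Itm.ok 206) (show Itm.ok 206 (.pat 5185 pq82) from (POK.mono (by decide) pq82_ok))))))))))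

/-- all words of the class have labels -/
theorem pokNF2B3I3BzC2F : POK 206 xNF2B3I3BzC2F :=
  y_pok (C0 := ceNF2B3I3BzC2F) (C1 := coNF2B3I3BzC2F) topNF2B3I3BzC2F nbNF2B3I3BzC2F (BT.Fa_of_all iiNF2B3I3BzC2F_c)
    (cyE_spec zeNF2B3I3BzC2F_0)
    (cyO_spec zoNF2B3I3BzC2F_0)
    iiNF2B3I3BzC2F_k

theorem iiNF2CzB3I3BzC2F_k : iiNF2CzB3I3BzC2F.Fa (Itm.ok 206) := (BT.Fa_mk (BT.Fa_mk (BT.Fa_mk (BT.Fa_leaf (P := Itm.ok 206) (iqb tp0_c)) (BT.Fa_leaf (P := Itm.ok 206) (iqf tp115_c))) (BT.Fa_leaf (P := Itm.ok 206) (iqf tp117_c))) (BT.Fa_mk (BT.Fa_leaf (P := Itm.ok 206) (iqf tp0_c)) (BT.Fa_leaf (P := Itm.ok 206) (iqb tp26_c))))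

/-- all words of the class have labels -/
theorem pokNF2CzB3I3BzC2F : POK 206 xNF2CzB3I3BzC2F :=
  y_pok (C0 := ceNF2CzB3I3BzC2F) (C1 := coNF2CzB3I3BzC2F) topNF2CzB3I3BzC2F nbNF2CzB3I3BzC2F (BT.Fa_of_all iiNF2CzB3I3BzC2F_c)
    (cyE_spec zeNF2CzB3I3BzC2F_0)
    (cyO_spec zoNF2CzB3I3BzC2F_0)
    iiNF2CzB3I3BzC2F_k

theorem iiNFyA2AzE2A2Ax3xA2A2EzAzAyF_k : iiNFyA2AzE2A2Ax3xA2A2EzAzAyF.Fa (Itm.ok 206) := (BT.Fa_mk (BT.Fa_mk (BT.Fa_mk (BT.Fa_mk (BT.Fa_mk (BT.Fa_mk (BT.Fa_mk (BT.Fa_leaf (P := Itm.ok 206) (iqb tp355_c)) (BT.Fa_leaf (P := Itm.ok 206) (iqf tp333_c))) (BT.Fa_leaf (P := Itm.ok 206) (iqf tp399_c))) (BT.Fa_mk (BT.Fa_leaf (P := Itm.ok 206) (iqb tp403_c)) (BT.Fa_leaf (P := Itm.ok 206) (iqf tp292_c)))) (BT.Fa_mk (BT.Fa_mk (BT.Fa_mk (BT.Fa_leaf (P := Itm.ok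 206) (iqf tp424_c)) (BT.Fa_leaf (P := Itm.ok 206) (iqf tp326_c))) (BT.Fa_leaf (P := Itm.ok 206) (iqb tp331_c))) (BT.Fa_mk (BT.Fa_leaf (P := Itm.ok 206) (iqb tp320_c)) (BT.Fa_leaf (P := Itm.ok 206) (iqb tp332_c))))) (BT.Fa_mk (BT.Fa_mk (BT.Fa_mk (BT.Fa_mk (BT.Fa_leaf (P := Itm.ok 206) (iqb tp477_c)) (BT.Fa_leaf (P := Itm.ok 206) (iqf tp342_c))) (BT.Fa_leaf (P := Itm.ok 206) (iqf tp368_c))) (BT.Fa_mk (BT.Fa_leaf (P := Itm.ok 206) (iqf tp392_c)) (BT.Fa_leaf (P := Itm.ok 206) (iqf tp341_c)))) (BT.Fa_mk (BT.Fa_mk (BT.Fa_leaf (P := Itm.ok 206) (iqf tp344_c)) (BT.Fa_leaf (P := Itm.ok 206) (iqf tp319_c))) (BT.Fa_mk (BT.Fa_leaf (P := Itm.ok 206) (iqf tp405_c)) (BT.Fa_leaf (P := Itm.ok 206) (iqf tp351_c)))))) (BT.Fa_mk (BT.Fa_mk (BT.Fa_mk (BT.Fa_mk (BT.Fa_mk (BT.Fa_leaf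 (P := Itm.ok 206) (iqf tp356_c)) (BT.Fa_leaf (P := Itm.ok 206) (iqb tp855_c))) (BT.Fa_leaf (P := Itm.ok 206) (iqf tp299_c))) (BT.Fa_mk (BT.Fa_leaf (P := Itm.ok 206) (iqf tp348_c)) (BT.Fa_leaf (P := Itm.ok 206) (iqf tp375_c)))) (BT.Fa_mk (BT.Fa_mk (BT.Fa_mk (BT.Fa_leaf (P := Itm.ok 206) (iqb tp522_c)) (BT.Fa_leaf (P := Itm.ok 206) (iqf tp329_c))) (BT.Fa_leaf (P := Itm.ok 206) (iqb tp337_c))) (BT.Fa_mk (BT.Fa_leaf (P := Itm.ok 206) (iqb tp338_c)) (BT.Fa_leaf (P := Itm.ok 206) (iqf tp369_c))))) (BT.Fa_mk (BT.Fa_mk (BT.Fa_mk (BT.Fa_mk (BT.Fa_leaf (P := Itm.ok 206) (iqf tp346_c)) (BT.Fa_leaf (P := Itm.ok 206) (iqb tp1053_c))) (BT.Fa_leaf (P := Itm.ok 206) (iqf tp350_c))) (BT.Fa_mk (BT.Fa_leaf (P := Itm.ok 206) (iqb tp373_c)) (BT.Fa_leaf (P := Itm.ok 206) (iqb tp408_c))))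 (BT.Fa_mk (BT.Fa_mk (BT.Fa_leaf (P := Itm.ok 206) (iqf tp861_c)) (BT.Fa_leaf (P := Itm.ok 206) (iqb tp359_c))) (BT.Fa_mk (BT.Fa_leaf (P := Itm.ok 206) (iqb tp361_c)) (BT.Fa_leaf (P := Itm.ok 206) (iqf tp364_c))))))) (BT.Fa_mk (BT.Fa_mk (BT.Fa_mk (BT.Fa_mk (BT.Fa_mk (BT.Fa_mk (BT.Fa_leaf (P := Itm.ok 206) (iqb tp413_c)) (BT.Fa_leaf (P := Itm.ok 206) (iqf tp321_c))) (BT.Fa_leaf (P := Itm.ok 206) (iqf tp335_c))) (BT.Fa_mk (BT.Fa_leaf (P := Itm.ok 206) (iqb tp1054_c)) (BT.Fa_leaf (P := Itm.ok 206) (iqb tp683_c)))) (BT.Fa_mk (BT.Fa_mk (BT.Fa_mk (BT.Fa_leaf (P := Itm.ok 206) (iqf tp362_c)) (BT.Fa_leaf (P := Itm.ok 206) (iqb tp340_c))) (BT.Fa_leaf (P := Itm.ok 206) (iqf tp401_c))) (BT.Fa_mk (BT.Fa_leaf (P := Itm.ok 206) (iqb tp1055_c)) (BT.Fa_leaf (P := Itm.ok 206)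 (iqf tp347_c))))) (BT.Fa_mk (BT.Fa_mk (BT.Fa_mk (BT.Fa_mk (BT.Fa_leaf (P := Itm.ok 206) (iqb tp376_c)) (BT.Fa_leaf (P := Itm.ok 206) (iqf tp353_c))) (BT.Fa_leaf (P := Itm.ok 206) (iqb tp358_c))) (BT.Fa_mk (BT.Fa_leaf (P := Itm.ok 206) (iqb tp360_c)) (BT.Fa_leaf (P := Itm.ok 206) (iqf tp365_c)))) (BT.Fa_mk (BT.Fa_mk (BT.Fa_leaf (P := Itm.ok 206) (iqf tp386_c)) (BT.Fa_leaf (P := Itm.ok 206) (iqf tp366_c))) (BT.Fa_mk (BT.Fa_leaf (P := Itm.ok 206) (iqf tp390_c)) (BT.Fa_leaf (P := Itm.ok 206) (iqf tp478_c)))))) (BT.Fa_mk (BT.Fa_mk (BT.Fa_mk (BT.Fa_mk (BT.Fa_mk (BT.Fa_leaf (P := Itm.ok 206) (iqb tp363_c)) (BT.Fa_leaf (P := Itm.ok 206) (iqf tp617_c))) (BT.Fa_leaf (P := Itm.ok 206) (iqf tp396_c))) (BT.Fa_mk (BT.Fa_leaf (P := Itm.ok 206) (iqf tp379_c)) (BT.Fa_leaf (P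 := Itm.ok 206) (iqf tp1056_c)))) (BT.Fa_mk (BT.Fa_mk (BT.Fa_leaf (P := Itm.ok 206) (iqb tp727_c)) (BT.Fa_leaf (P := Itm.ok 206) (iqb tp290_c))) (BT.Fa_mk (BT.Fa_leaf (P := Itm.ok 206) (iqb tp295_c)) (BT.Fa_leaf (P := Itm.ok 206) (iqb tp380_c))))) (BT.Fa_mk (BT.Fa_mk (BT.Fa_mk (BT.Fa_mk (BT.Fa_leaf (P := Itm.ok 206) (iqf tp385_c)) (BT.Fa_leaf (P := Itm.ok 206) (iqb tp409_c))) (BT.Fa_leaf (P := Itm.ok 206) (iqb tp378_c))) (BT.Fa_mk (BT.Fa_leaf (P := Itm.ok 206) (iqb tp1057_c)) (BT.Fa_leaf (P := Itm.ok 206) (iqf tp436_c)))) (BT.Fa_mk (BT.Fa_mk (BT.Fa_leaf (P := Itm.ok 206) (iqb tp788_c)) (BT.Fa_leaf (P := Itm.ok 206) (iqb tp326_c))) (BT.Fa_mk (BT.Fa_leaf (P := Itm.ok 206) (iqb tp1058_c)) (BT.Fa_leaf (P := Itm.ok 206) (iqf tp443_c))))))))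

/-- all words of the class have labels -/
theorem pokNFyA2AzE2A2Ax3xA2A2EzAzAyF : POK 206 xNFyA2AzE2A2Ax3xA2A2EzAzAyF :=
  y_pok (C0 := ceNFyA2AzE2A2Ax3xA2A2EzAzAyF) (C1 := coNFyA2AzE2A2Ax3xA2A2EzAzAyF) topNFyA2AzE2A2Ax3xA2A2EzAzAyF nbNFyA2AzE2A2Ax3xA2A2EzAzAyF (BT.Fa_of_all iiNFyA2AzE2A2Ax3xA2A2EzAzAyF_c)
    (cyE_spec zeNFyA2AzE2A2Ax3xA2A2EzAzAyF_0)
    (cyO_spec zoNFyA2AzE2A2Ax3xA2A2EzAzAyF_0)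
    iiNFyA2AzE2A2Ax3xA2A2EzAzAyF_k

theorem iiNFyA2AzE2B3HzB2H3B2E_k : iiNFyA2AzE2B3HzB2H3B2E.Fa (Itm.ok 206) := (BT.Fa_mk (BT.Fa_mk (BT.Fa_mk (BT.Fa_mk (BT.Fa_mk (BT.Fa_mk (BT.Fa_mk (BT.Fa_mk (BT.Fa_leaf (P := Itm.ok 206) (iqb tp1576_c)) (BT.Fa_leaf (P := Itm.ok 206) (iqf tp329_c))) (BT.Fa_mk (BT.Fa_leaf (P := Itm.ok 206) (iqf tp346_c)) (BT.Fa_leaf (P := Itm.ok 206) (iqf tp1771_c)))) (BT.Fa_mk (BT.Fa_mk (BT.Fa_leaf (P := Itm.ok 206) (iqb tp295_c)) (BT.Fa_leaf (P := Itm.ok 206) (iqf tp2404_c))) (BT.Fa_mk (BT.Fa_leaf (P := Itm.ok 206) (iqb tp619_c)) (BT.Fa_leaf (P := Itm.ok 206) (iqf tp2405_c))))) (BT.Fa_mk (BT.Fa_mk (BT.Fa_mk (BT.Fa_leaf (P := Itm.ok 206) (iqf tp2406_c)) (BT.Fa_leaf (P := Itm.ok 206) (iqf tp292_c))) (BT.Fa_mk (BT.Fa_leaf (P := Itm.ok 206) (iqb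 tp2407_c)) (BT.Fa_leaf (P := Itm.ok 206) (iqf tp359_c)))) (BT.Fa_mk (BT.Fa_mk (BT.Fa_leaf (P := Itm.ok 206) (iqf tp361_c)) (BT.Fa_leaf (P := Itm.ok 206) (iqf tp2408_c))) (BT.Fa_leaf (P := Itm.ok 206) (iqb tp292_c))))) (BT.Fa_mk (BT.Fa_mk (BT.Fa_mk (BT.Fa_mk (BT.Fa_leaf (P := Itm.ok 206) (iqb tp361_c)) (BT.Fa_leaf (P := Itm.ok 206) (iqf tp295_c))) (BT.Fa_mk (BT.Fa_leaf (P := Itm.ok 206) (iqf tp299_c)) (BT.Fa_leaf (P := Itm.ok 206) (iqf tp366_c)))) (BT.Fa_mk (BT.Fa_mk (BT.Fa_leaf (P := Itm.ok 206) (iqf tp2052_c)) (BT.Fa_leaf (P := Itm.ok 206) (iqb tp337_c))) (BT.Fa_leaf (P := Itm.ok 206) (iqb tp2255_c)))) (BT.Fa_mk (BT.Fa_mk (BT.Fa_mk (BT.Fa_leaf (P := Itm.ok 206) (iqb tp2409_c)) (BT.Fa_leaf (P := Itm.ok 206) (iqf tp529_c))) (BT.Fa_mk (BT.Fa_leaf (P := Itm.ok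 206) (iqb tp2410_c)) (BT.Fa_leaf (P := Itm.ok 206) (iqf tp2215_c)))) (BT.Fa_mk (BT.Fa_mk (BT.Fa_leaf (P := Itm.ok 206) (iqf tp2411_c)) (BT.Fa_leaf (P := Itm.ok 206) (iqb tp1658_c))) (BT.Fa_leaf (P := Itm.ok 206) (iqb tp2324_c)))))) (BT.Fa_mk (BT.Fa_mk (BT.Fa_mk (BT.Fa_mk (BT.Fa_mk (BT.Fa_leaf (P := Itm.ok 206) (iqf tp472_c)) (BT.Fa_leaf (P := Itm.ok 206) (iqf tp352_c))) (BT.Fa_mk (BT.Fa_leaf (P := Itm.ok 206) (iqf tp2412_c)) (BT.Fa_leaf (P := Itm.ok 206) (iqb tp1787_c)))) (BT.Fa_mk (BT.Fa_mk (BT.Fa_leaf (P := Itm.ok 206) (iqf tp493_c)) (BT.Fa_leaf (P := Itm.ok 206) (iqf tp2413_c))) (BT.Fa_mk (BT.Fa_leaf (P := Itm.ok 206) (iqf tp322_c)) (BT.Fa_leaf (P := Itm.ok 206) (iqf tp694_c))))) (BT.Fa_mk (BT.Fa_mk (BT.Fa_mk (BT.Fa_leaf (P := Itm.ok 206) (iqb tp433_c)) (BT.Fa_leaf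 (P := Itm.ok 206) (iqb tp416_c))) (BT.Fa_mk (BT.Fa_leaf (P := Itm.ok 206) (iqb tp451_c)) (BT.Fa_leaf (P := Itm.ok 206) (iqb tp806_c)))) (BT.Fa_mk (BT.Fa_mk (BT.Fa_leaf (P := Itm.ok 206) (iqb tp2414_c)) (BT.Fa_leaf (P := Itm.ok 206) (iqb tp656_c))) (BT.Fa_leaf (P := Itm.ok 206) (iqb tp2415_c))))) (BT.Fa_mk (BT.Fa_mk (BT.Fa_mk (BT.Fa_mk (BT.Fa_leaf (P := Itm.ok 206) (iqf tp2416_c)) (BT.Fa_leaf (P := Itm.ok 206) (iqb tp1799_c))) (BT.Fa_mk (BT.Fa_leaf (P := Itm.ok 206) (iqf tp608_c)) (BT.Fa_leaf (P := Itm.ok 206) (iqb tp316_c)))) (BT.Fa_mk (BT.Fa_mk (BT.Fa_leaf (P := Itm.ok 206) (iqb tp1733_c)) (BT.Fa_leaf (P := Itm.ok 206) (iqf tp1159_c))) (BT.Fa_leaf (P := Itm.ok 206) (iqb tp2254_c)))) (BT.Fa_mk (BT.Fa_mk (BT.Fa_mk (BT.Fa_leaf (P := Itm.ok 206) (iqf tp406_c))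 (BT.Fa_leaf (P := Itm.ok 206) (iqb tp2417_c))) (BT.Fa_mk (BT.Fa_leaf (P := Itm.ok 206) (iqf tp2418_c)) (BT.Fa_leaf (P := Itm.ok 206) (iqf tp2142_c)))) (BT.Fa_mk (BT.Fa_mk (BT.Fa_leaf (P := Itm.ok 206) (iqf tp2419_c)) (BT.Fa_leaf (P := Itm.ok 206) (iqb tp2420_c))) (BT.Fa_leaf (P := Itm.ok 206) (iqf tp2421_c))))))) (BT.Fa_mk (BT.Fa_mk (BT.Fa_mk (BT.Fa_mk (BT.Fa_mk (BT.Fa_mk (BT.Fa_leaf (P := Itm.ok 206) (iqb tp2279_c)) (BT.Fa_leaf (P := Itm.ok 206) (iqb tp827_c))) (BT.Fa_mk (BT.Fa_leaf (P := Itm.ok 206) (iqb tp1387_c)) (BT.Fa_leaf (P := Itm.ok 206) (iqb tp2422_c)))) (BT.Fa_mk (BT.Fa_mk (BT.Fa_leaf (P := Itm.ok 206) (iqb tp2423_c)) (BT.Fa_leaf (P := Itm.ok 206) (iqf tp1813_c))) (BT.Fa_mk (BT.Fa_leaf (P := Itm.ok 206) (iqb tp354_c)) (BT.Fa_leaf (P := Itm.ok 206)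 (iqf tp2424_c))))) (BT.Fa_mk (BT.Fa_mk (BT.Fa_mk (BT.Fa_leaf (P := Itm.ok 206) (iqb tp815_c)) (BT.Fa_leaf (P := Itm.ok 206) (iqb tp2309_c))) (BT.Fa_mk (BT.Fa_leaf (P := Itm.ok 206) (iqb tp1995_c)) (BT.Fa_leaf (P := Itm.ok 206) (iqb tp2425_c)))) (BT.Fa_mk (BT.Fa_mk (BT.Fa_leaf (P := Itm.ok 206) (iqb tp2039_c)) (BT.Fa_leaf (P := Itm.ok 206) (iqb tp1911_c))) (BT.Fa_leaf (P := Itm.ok 206) (iqb tp2426_c))))) (BT.Fa_mk (BT.Fa_mk (BT.Fa_mk (BT.Fa_mk (BT.Fa_leaf (P := Itm.ok 206) (iqf tp2427_c)) (BT.Fa_leaf (P := Itm.ok 206) (iqb tp2428_c))) (BT.Fa_mk (BT.Fa_leaf (P := Itm.ok 206) (iqf tp2307_c)) (BT.Fa_leaf (P := Itm.ok 206) (iqb tp2429_c)))) (BT.Fa_mk (BT.Fa_mk (BT.Fa_leaf (P := Itm.ok 206) (iqf tp2430_c)) (BT.Fa_leaf (P := Itm.ok 206) (iqf tp2431_c))) (BT.Fa_leaf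 (P := Itm.ok 206) (iqb tp2432_c)))) (BT.Fa_mk (BT.Fa_mk (BT.Fa_mk (BT.Fa_leaf (P := Itm.ok 206) (iqb tp2433_c)) (BT.Fa_leaf (P := Itm.ok 206) (iqf tp2434_c))) (BT.Fa_mk (BT.Fa_leaf (P := Itm.ok 206) (iqb tp1996_c)) (BT.Fa_leaf (P := Itm.ok 206) (iqf tp2435_c)))) (BT.Fa_mk (BT.Fa_mk (BT.Fa_leaf (P := Itm.ok 206) (iqb tp2285_c)) (BT.Fa_leaf (P := Itm.ok 206) (iqb tp2436_c))) (BT.Fa_leaf (P := Itm.ok 206) (iqf tp2006_c)))))) (BT.Fa_mk (BT.Fa_mk (BT.Fa_mk (BT.Fa_mk (BT.Fa_mk (BT.Fa_leaf (P := Itm.ok 206) (iqb tp2437_c)) (BT.Fa_leaf (P := Itm.ok 206) (iqb tp2438_c))) (BT.Fa_mk (BT.Fa_leaf (P := Itm.ok 206) (iqf tp2027_c)) (BT.Fa_leaf (P := Itm.ok 206) (iqb tp2439_c)))) (BT.Fa_mk (BT.Fa_mk (BT.Fa_leaf (P := Itm.ok 206) (iqb tp2440_c)) (BT.Fa_leaf (P := Itm.ok 206)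 (iqf tp2441_c))) (BT.Fa_leaf (P := Itm.ok 206) (iqb tp2442_c)))) (BT.Fa_mk (BT.Fa_mk (BT.Fa_mk (BT.Fa_leaf (P := Itm.ok 206) (iqf tp2139_c)) (BT.Fa_leaf (P := Itm.ok 206) (iqb tp2443_c))) (BT.Fa_mk (BT.Fa_leaf (P := Itm.ok 206) (iqb tp1905_c)) (BT.Fa_leaf (P := Itm.ok 206) (iqb tp2444_c)))) (BT.Fa_mk (BT.Fa_mk (BT.Fa_leaf (P := Itm.ok 206) (iqb tp1712_c)) (BT.Fa_leaf (P := Itm.ok 206) (iqb tp2445_c))) (BT.Fa_leaf (P := Itm.ok 206) (iqb tp2446_c))))) (BT.Fa_mk (BT.Fa_mk (BT.Fa_mk (BT.Fa_mk (BT.Fa_leaf (P := Itm.ok 206) (iqb tp2447_c)) (BT.Fa_leaf (P := Itm.ok 206) (iqf tp2448_c))) (BT.Fa_mk (BT.Fa_leaf (P := Itm.ok 206) (iqf tp1795_c)) (BT.Fa_leaf (P := Itm.ok 206) (iqf tp1491_c)))) (BT.Fa_mk (BT.Fa_mk (BT.Fa_leaf (P := Itm.ok 206) (iqb tp1916_c)) (BT.Fa_leaf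 (P := Itm.ok 206) (iqf tp2449_c))) (BT.Fa_leaf (P := Itm.ok 206) (iqb tp1781_c)))) (BT.Fa_mk (BT.Fa_mk (BT.Fa_mk (BT.Fa_leaf (P := Itm.ok 206) (iqf tp2450_c)) (BT.Fa_leaf (P := Itm.ok 206) (iqf tp2451_c))) (BT.Fa_mk (BT.Fa_leaf (P := Itm.ok 206) (iqf tp2452_c)) (BT.Fa_leaf (P := Itm.ok 206) (iqf tp369_c)))) (BT.Fa_mk (BT.Fa_mk (BT.Fa_leaf (P := Itm.ok 206) (iqf tp2453_c)) (BT.Fa_leaf (P := Itm.ok 206) (iqf tp1994_c))) (BT.Fa_leaf (P := Itm.ok 206) (iqb tp2454_c)))))))) (BT.Fa_mk (BT.Fa_mk (BT.Fa_mk (BT.Fa_mk (BT.Fa_mk (BT.Fa_mk (BT.Fa_mk (BT.Fa_leaf (P := Itm.ok 206) (iqf tp2455_c)) (BT.Fa_leaf (P := Itm.ok 206) (iqb tp2456_c))) (BT.Fa_mk (BT.Fa_leaf (P := Itm.ok 206) (iqb tp2457_c)) (BT.Fa_leaf (P := Itm.ok 206) (iqb tp365_c)))) (BT.Fa_mk (BT.Fa_mk (BT.Fa_leaf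 (P := Itm.ok 206) (iqb tp2131_c)) (BT.Fa_leaf (P := Itm.ok 206) (iqf tp2062_c))) (BT.Fa_mk (BT.Fa_leaf (P := Itm.ok 206) (iqf tp1410_c)) (BT.Fa_leaf (P := Itm.ok 206) (iqf tp1468_c))))) (BT.Fa_mk (BT.Fa_mk (BT.Fa_mk (BT.Fa_leaf (P := Itm.ok 206) (iqf tp2458_c)) (BT.Fa_leaf (P := Itm.ok 206) (iqb tp849_c))) (BT.Fa_mk (BT.Fa_leaf (P := Itm.ok 206) (iqb tp2050_c)) (BT.Fa_leaf (P := Itm.ok 206) (iqb tp2459_c)))) (BT.Fa_mk (BT.Fa_mk (BT.Fa_leaf (P := Itm.ok 206) (iqf tp2460_c)) (BT.Fa_leaf (P := Itm.ok 206) (iqb tp1783_c))) (BT.Fa_leaf (P := Itm.ok 206) (iqb tp532_c))))) (BT.Fa_mk (BT.Fa_mk (BT.Fa_mk (BT.Fa_mk (BT.Fa_leaf (P := Itm.ok 206) (iqf tp2461_c)) (BT.Fa_leaf (P := Itm.ok 206) (iqf tp1945_c))) (BT.Fa_mk (BT.Fa_leaf (P := Itm.ok 206) (iqb tp2462_c)) (BT.Fa_leaf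 (P := Itm.ok 206) (iqf tp2463_c)))) (BT.Fa_mk (BT.Fa_mk (BT.Fa_leaf (P := Itm.ok 206) (iqb tp846_c)) (BT.Fa_leaf (P := Itm.ok 206) (iqb tp2054_c))) (BT.Fa_leaf (P := Itm.ok 206) (iqf tp2464_c)))) (BT.Fa_mk (BT.Fa_mk (BT.Fa_mk (BT.Fa_leaf (P := Itm.ok 206) (iqf tp2465_c)) (BT.Fa_leaf (P := Itm.ok 206) (iqb tp2466_c))) (BT.Fa_mk (BT.Fa_leaf (P := Itm.ok 206) (iqb tp1053_c)) (BT.Fa_leaf (P := Itm.ok 206) (iqf tp2467_c)))) (BT.Fa_mk (BT.Fa_mk (BT.Fa_leaf (P := Itm.ok 206) (iqf tp2468_c)) (BT.Fa_leaf (P := Itm.ok 206) (iqb tp685_c))) (BT.Fa_leaf (P := Itm.ok 206) (iqb tp2469_c)))))) (BT.Fa_mk (BT.Fa_mk (BT.Fa_mk (BT.Fa_mk (BT.Fa_mk (BT.Fa_leaf (P := Itm.ok 206) (iqf tp2470_c)) (BT.Fa_leaf (P := Itm.ok 206) (iqf tp2471_c))) (BT.Fa_mk (BT.Fa_leaf (P := Itm.ok 206)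 (iqf tp2472_c)) (BT.Fa_leaf (P := Itm.ok 206) (iqf tp2473_c)))) (BT.Fa_mk (BT.Fa_mk (BT.Fa_leaf (P := Itm.ok 206) (iqf tp2474_c)) (BT.Fa_leaf (P := Itm.ok 206) (iqb tp2475_c))) (BT.Fa_leaf (P := Itm.ok 206) (iqb tp2476_c)))) (BT.Fa_mk (BT.Fa_mk (BT.Fa_mk (BT.Fa_leaf (P := Itm.ok 206) (iqf tp2477_c)) (BT.Fa_leaf (P := Itm.ok 206) (iqf tp2478_c))) (BT.Fa_mk (BT.Fa_leaf (P := Itm.ok 206) (iqf tp2123_c)) (BT.Fa_leaf (P := Itm.ok 206) (iqb tp1986_c)))) (BT.Fa_mk (BT.Fa_mk (BT.Fa_leaf (P := Itm.ok 206) (iqf tp1868_c)) (BT.Fa_leaf (P := Itm.ok 206) (iqf tp1133_c))) (BT.Fa_leaf (P := Itm.ok 206) (iqf tp2479_c))))) (BT.Fa_mk (BT.Fa_mk (BT.Fa_mk (BT.Fa_mk (BT.Fa_leaf (P := Itm.ok 206) (iqb tp2480_c)) (BT.Fa_leaf (P := Itm.ok 206) (iqb tp2481_c))) (BT.Fa_mk (BT.Fa_leaf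 (P := Itm.ok 206) (iqf tp2021_c)) (BT.Fa_leaf (P := Itm.ok 206) (iqf tp770_c)))) (BT.Fa_mk (BT.Fa_mk (BT.Fa_leaf (P := Itm.ok 206) (iqf tp2483_c)) (BT.Fa_leaf (P := Itm.ok 206) (iqf tp678_c))) (BT.Fa_leaf (P := Itm.ok 206) (iqb tp2484_c)))) (BT.Fa_mk (BT.Fa_mk (BT.Fa_mk (BT.Fa_leaf (P := Itm.ok 206) (iqf tp2284_c)) (BT.Fa_leaf (P := Itm.ok 206) (iqf tp2485_c))) (BT.Fa_mk (BT.Fa_leaf (P := Itm.ok 206) (iqf tp344_c)) (BT.Fa_leaf (P := Itm.ok 206) (iqf tp2486_c)))) (BT.Fa_mk (BT.Fa_mk (BT.Fa_leaf (P := Itm.ok 206) (iqf tp2487_c)) (BT.Fa_leaf (P := Itm.ok 206) (iqf tp2488_c))) (BT.Fa_leaf (P := Itm.ok 206) (iqf tp2489_c))))))) (BT.Fa_mk (BT.Fa_mk (BT.Fa_mk (BT.Fa_mk (BT.Fa_mk (BT.Fa_mk (BT.Fa_leaf (P := Itm.ok 206) (iqb tp2490_c)) (BT.Fa_leaf (P := Itm.ok 206) (iqb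 tp2491_c))) (BT.Fa_mk (BT.Fa_leaf (P := Itm.ok 206) (iqf tp494_c)) (BT.Fa_leaf (P := Itm.ok 206) (iqf tp2492_c)))) (BT.Fa_mk (BT.Fa_mk (BT.Fa_leaf (P := Itm.ok 206) (iqf tp2493_c)) (BT.Fa_leaf (P := Itm.ok 206) (iqf tp2494_c))) (BT.Fa_mk (BT.Fa_leaf (P := Itm.ok 206) (iqb tp2495_c)) (BT.Fa_leaf (P := Itm.ok 206) (iqb tp2068_c))))) (BT.Fa_mk (BT.Fa_mk (BT.Fa_mk (BT.Fa_leaf (P := Itm.ok 206) (iqb tp2496_c)) (BT.Fa_leaf (P := Itm.ok 206) (iqb tp1086_c))) (BT.Fa_mk (BT.Fa_leaf (P := Itm.ok 206) (iqf tp1956_c)) (BT.Fa_leaf (P := Itm.ok 206) (iqb tp2499_c)))) (BT.Fa_mk (BT.Fa_mk (BT.Fa_leaf (P := Itm.ok 206) (iqb tp380_c)) (BT.Fa_leaf (P := Itm.ok 206) (iqb tp2500_c))) (BT.Fa_leaf (P := Itm.ok 206) (iqf tp2501_c))))) (BT.Fa_mk (BT.Fa_mk (BT.Fa_mk (BT.Fa_mk (BT.Fa_leaf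 (P := Itm.ok 206) (iqf tp2502_c)) (BT.Fa_leaf (P := Itm.ok 206) (iqf tp2503_c))) (BT.Fa_mk (BT.Fa_leaf (P := Itm.ok 206) (iqf tp2504_c)) (BT.Fa_leaf (P := Itm.ok 206) (iqf tp2505_c)))) (BT.Fa_mk (BT.Fa_mk (BT.Fa_leaf (P := Itm.ok 206) (iqb tp1951_c)) (BT.Fa_leaf (P := Itm.ok 206) (iqf tp2506_c))) (BT.Fa_leaf (P := Itm.ok 206) (iqf tp2507_c)))) (BT.Fa_mk (BT.Fa_mk (BT.Fa_mk (BT.Fa_leaf (P := Itm.ok 206) (iqb tp2508_c)) (BT.Fa_leaf (P := Itm.ok 206) (iqb tp2509_c))) (BT.Fa_mk (BT.Fa_leaf (P := Itm.ok 206) (iqf tp2510_c)) (BT.Fa_leaf (P := Itm.ok 206) (iqf tp2511_c)))) (BT.Fa_mk (BT.Fa_mk (BT.Fa_leaf (P := Itm.ok 206) (iqf tp2512_c)) (BT.Fa_leaf (P := Itm.ok 206) (iqf tp1082_c))) (BT.Fa_leaf (P := Itm.ok 206) (iqf tp2513_c)))))) (BT.Fa_mk (BT.Fa_mk (BT.Fa_mk (BT.Fa_mk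 (BT.Fa_mk (BT.Fa_leaf (P := Itm.ok 206) (iqf tp2514_c)) (BT.Fa_leaf (P := Itm.ok 206) (iqf tp2515_c))) (BT.Fa_mk (BT.Fa_leaf (P := Itm.ok 206) (iqf tp2516_c)) (BT.Fa_leaf (P := Itm.ok 206) (iqf tp2517_c)))) (BT.Fa_mk (BT.Fa_mk (BT.Fa_leaf (P := Itm.ok 206) (iqf tp2518_c)) (BT.Fa_leaf (P := Itm.ok 206) (iqf tp2519_c))) (BT.Fa_leaf (P := Itm.ok 206) (iqb tp2520_c)))) (BT.Fa_mk (BT.Fa_mk (BT.Fa_mk (BT.Fa_leaf (P := Itm.ok 206) (iqb tp373_c)) (BT.Fa_leaf (P := Itm.ok 206) (iqb tp492_c))) (BT.Fa_mk (BT.Fa_leaf (P := Itm.ok 206) (iqb tp1435_c)) (BT.Fa_leaf (P := Itm.ok 206) (iqf tp2057_c)))) (BT.Fa_mk (BT.Fa_mk (BT.Fa_leaf (P := Itm.ok 206) (iqb tp511_c)) (BT.Fa_leaf (P := Itm.ok 206) (iqb tp366_c))) (BT.Fa_leaf (P := Itm.ok 206) (iqb tp2521_c))))) (BT.Fa_mk (BT.Fa_mk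 (BT.Fa_mk (BT.Fa_mk (BT.Fa_leaf (P := Itm.ok 206) (iqf tp2522_c)) (BT.Fa_leaf (P := Itm.ok 206) (iqb tp2523_c))) (BT.Fa_mk (BT.Fa_leaf (P := Itm.ok 206) (iqf tp1099_c)) (BT.Fa_leaf (P := Itm.ok 206) (iqb tp2524_c)))) (BT.Fa_mk (BT.Fa_mk (BT.Fa_leaf (P := Itm.ok 206) (iqb tp2525_c)) (BT.Fa_leaf (P := Itm.ok 206) (iqf tp2526_c))) (BT.Fa_leaf (P := Itm.ok 206) (iqf tp1067_c)))) (BT.Fa_mk (BT.Fa_mk (BT.Fa_mk (BT.Fa_leaf (P := Itm.ok 206) (iqb tp2527_c)) (BT.Fa_leaf (P := Itm.ok 206) (iqb tp2528_c))) (BT.Fa_mk (BT.Fa_leaf (P := Itm.ok 206) (iqf tp2529_c)) (BT.Fa_leaf (P := Itm.ok 206) (iqb tp1947_c)))) (BT.Fa_mk (BT.Fa_mk (BT.Fa_leaf (P := Itm.ok 206) (iqf tp2530_c)) (BT.Fa_leaf (P := Itm.ok 206) (iqb tp2531_c))) (BT.Fa_leaf (P := Itm.ok 206) (iqb tp535_c)))))))))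

/-- all words of the class have labels -/
theorem pokNFyA2AzE2B3HzB2H3B2E : POK 206 xNFyA2AzE2B3HzB2H3B2E :=
  y_pok (C0 := ceNFyA2AzE2B3HzB2H3B2E) (C1 := coNFyA2AzE2B3HzB2H3B2E) topNFyA2AzE2B3HzB2H3B2E nbNFyA2AzE2B3HzB2H3B2E (BT.Fa_of_all iiNFyA2AzE2B3HzB2H3B2E_c)
    (BT.Fa_mk (cyE_spec zeNFyA2AzE2B3HzB2H3B2E_0) (cyE_spec zeNFyA2AzE2B3HzB2H3B2E_1))
    (BT.Fa_mk (cyO_spec zoNFyA2AzE2B3HzB2H3B2E_0) (cyO_spec zoNFyA2AzE2B3HzB2H3B2E_1))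
    iiNFyA2AzE2B3HzB2H3B2E_k

theorem iiNFyA2AzEyA2Ax3xA2AyEzA2A2F_k : iiNFyA2AzEyA2Ax3xA2AyEzA2A2F.Fa (Itm.ok 206) := (BT.Fa_mk (BT.Fa_mk (BT.Fa_mk (BT.Fa_mk (BT.Fa_mk (BT.Fa_mk (BT.Fa_leaf (P := Itm.ok 206) (iqb tp320_c)) (BT.Fa_leaf (P := Itm.ok 206) (iqf tp471_c))) (BT.Fa_mk (BT.Fa_leaf (P := Itm.ok 206) (iqf tp452_c)) (BT.Fa_leaf (P := Itm.ok 206) (iqf tp326_c)))) (BT.Fa_mk (BT.Fa_mk (BT.Fa_leaf (P := Itm.ok 206) (iqb tp326_c)) (BT.Fa_leaf (P := Itm.ok 206) (iqf tp295_c))) (BT.Fa_leaf (P := Itm.ok 206) (iqf tp329_c)))) (BT.Fa_mk (BT.Fa_mk (BT.Fa_mk (BT.Fa_leaf (P := Itm.ok 206) (iqb tp329_c)) (BT.Fa_leaf (P := Itm.ok 206) (iqb tp431_c))) (BT.Fa_mk (BT.Fa_leaf (P := Itm.ok 206) (iqf tp465_c)) (BT.Fa_leaf (P := Itm.ok 206) (iqb tp456_c)))) (BT.Fa_mk (BT.Fa_mk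 (BT.Fa_leaf (P := Itm.ok 206) (iqf tp334_c)) (BT.Fa_leaf (P := Itm.ok 206) (iqb tp334_c))) (BT.Fa_leaf (P := Itm.ok 206) (iqb tp467_c))))) (BT.Fa_mk (BT.Fa_mk (BT.Fa_mk (BT.Fa_mk (BT.Fa_leaf (P := Itm.ok 206) (iqf tp337_c)) (BT.Fa_leaf (P := Itm.ok 206) (iqf tp338_c))) (BT.Fa_mk (BT.Fa_leaf (P := Itm.ok 206) (iqb tp338_c)) (BT.Fa_leaf (P := Itm.ok 206) (iqb tp378_c)))) (BT.Fa_mk (BT.Fa_mk (BT.Fa_leaf (P := Itm.ok 206) (iqf tp472_c)) (BT.Fa_leaf (P := Itm.ok 206) (iqb tp473_c))) (BT.Fa_leaf (P := Itm.ok 206) (iqf tp341_c)))) (BT.Fa_mk (BT.Fa_mk (BT.Fa_mk (BT.Fa_leaf (P := Itm.ok 206) (iqf tp342_c)) (BT.Fa_leaf (P := Itm.ok 206) (iqb tp299_c))) (BT.Fa_leaf (P := Itm.ok 206) (iqf tp463_c))) (BT.Fa_mk (BT.Fa_mk (BT.Fa_leaf (P := Itm.ok 206) (iqf tp451_c)) (BT.Fa_leaf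 (P := Itm.ok 206) (iqf tp447_c))) (BT.Fa_leaf (P := Itm.ok 206) (iqf tp346_c)))))) (BT.Fa_mk (BT.Fa_mk (BT.Fa_mk (BT.Fa_mk (BT.Fa_mk (BT.Fa_leaf (P := Itm.ok 206) (iqb tp346_c)) (BT.Fa_leaf (P := Itm.ok 206) (iqb tp453_c))) (BT.Fa_mk (BT.Fa_leaf (P := Itm.ok 206) (iqf tp416_c)) (BT.Fa_leaf (P := Itm.ok 206) (iqf tp448_c)))) (BT.Fa_mk (BT.Fa_mk (BT.Fa_leaf (P := Itm.ok 206) (iqf tp450_c)) (BT.Fa_leaf (P := Itm.ok 206) (iqf tp408_c))) (BT.Fa_leaf (P := Itm.ok 206) (iqf tp449_c)))) (BT.Fa_mk (BT.Fa_mk (BT.Fa_mk (BT.Fa_leaf (P := Itm.ok 206) (iqb tp410_c)) (BT.Fa_leaf (P := Itm.ok 206) (iqf tp464_c))) (BT.Fa_mk (BT.Fa_leaf (P := Itm.ok 206) (iqf tp474_c)) (BT.Fa_leaf (P := Itm.ok 206) (iqf tp455_c)))) (BT.Fa_mk (BT.Fa_mk (BT.Fa_leaf (P := Itm.ok 206) (iqb tp359_c))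 (BT.Fa_leaf (P := Itm.ok 206) (iqf tp361_c))) (BT.Fa_leaf (P := Itm.ok 206) (iqf tp365_c))))) (BT.Fa_mk (BT.Fa_mk (BT.Fa_mk (BT.Fa_mk (BT.Fa_leaf (P := Itm.ok 206) (iqf tp366_c)) (BT.Fa_leaf (P := Itm.ok 206) (iqf tp459_c))) (BT.Fa_mk (BT.Fa_leaf (P := Itm.ok 206) (iqb tp337_c)) (BT.Fa_leaf (P := Itm.ok 206) (iqf tp475_c)))) (BT.Fa_mk (BT.Fa_mk (BT.Fa_leaf (P := Itm.ok 206) (iqb tp416_c)) (BT.Fa_leaf (P := Itm.ok 206) (iqf tp476_c))) (BT.Fa_leaf (P := Itm.ok 206) (iqb tp477_c)))) (BT.Fa_mk (BT.Fa_mk (BT.Fa_mk (BT.Fa_leaf (P := Itm.ok 206) (iqf tp460_c)) (BT.Fa_leaf (P := Itm.ok 206) (iqf tp469_c))) (BT.Fa_leaf (P := Itm.ok 206) (iqf tp466_c))) (BT.Fa_mk (BT.Fa_mk (BT.Fa_leaf (P := Itm.ok 206) (iqb tp470_c)) (BT.Fa_leaf (P := Itm.ok 206) (iqf tp292_c))) (BT.Fa_leaf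 (P := Itm.ok 206) (iqf tp478_c)))))))

/-- all words of the class have labels -/
theorem pokNFyA2AzEyA2Ax3xA2AyEzA2A2F : POK 206 xNFyA2AzEyA2Ax3xA2AyEzA2A2F :=
  y_pok (C0 := ceNFyA2AzEyA2Ax3xA2AyEzA2A2F) (C1 := coNFyA2AzEyA2Ax3xA2AyEzA2A2F) topNFyA2AzEyA2Ax3xA2AyEzA2A2F nbNFyA2AzEyA2Ax3xA2AyEzA2A2F (BT.Fa_of_all iiNFyA2AzEyA2Ax3xA2AyEzA2A2F_c)
    (cyE_spec zeNFyA2AzEyA2Ax3xA2AyEzA2A2F_0)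
    (cyO_spec zoNFyA2AzEyA2Ax3xA2AyEzA2A2F_0)
    iiNFyA2AzEyA2Ax3xA2AyEzA2A2F_k

theorem iiNFyA2AzEyA2Ax3xA2AyEzA2AyF_k : iiNFyA2AzEyA2Ax3xA2AyEzA2AyF.Fa (Itm.ok 206) := (BT.Fa_mk (BT.Fa_mk (BT.Fa_mk (BT.Fa_mk (BT.Fa_mk (BT.Fa_mk (BT.Fa_mk (BT.Fa_leaf (P := Itm.ok 206) (iqf tp461_c)) (BT.Fa_leaf (P := Itm.ok 206) (iqf tp447_c))) (BT.Fa_leaf (P := Itm.ok 206) (iqb tp447_c))) (BT.Fa_mk (BT.Fa_leaf (P := Itm.ok 206) (iqb tp295_c)) (BT.Fa_leaf (P := Itm.ok 206) (iqb tp462_c)))) (BT.Fa_mk (BT.Fa_mk (BT.Fa_leaf (P := Itm.ok 206) (iqf tp326_c)) (BT.Fa_leaf (P := Itm.ok 206) (iqb tp614_c))) (BT.Fa_mk (BT.Fa_leaf (P := Itm.ok 206) (iqf tp331_c)) (BT.Fa_leaf (P := Itm.ok 206) (iqf tp477_c))))) (BT.Fa_mk (BT.Fa_mk (BT.Fa_mk (BT.Fa_leaf (P := Itm.ok 206) (iqb tp477_c))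 (BT.Fa_leaf (P := Itm.ok 206) (iqf tp342_c))) (BT.Fa_mk (BT.Fa_leaf (P := Itm.ok 206) (iqf tp334_c)) (BT.Fa_leaf (P := Itm.ok 206) (iqb tp334_c)))) (BT.Fa_mk (BT.Fa_mk (BT.Fa_leaf (P := Itm.ok 206) (iqb tp368_c)) (BT.Fa_leaf (P := Itm.ok 206) (iqf tp341_c))) (BT.Fa_mk (BT.Fa_leaf (P := Itm.ok 206) (iqb tp341_c)) (BT.Fa_leaf (P := Itm.ok 206) (iqb tp378_c)))))) (BT.Fa_mk (BT.Fa_mk (BT.Fa_mk (BT.Fa_mk (BT.Fa_leaf (P := Itm.ok 206) (iqf tp351_c)) (BT.Fa_leaf (P := Itm.ok 206) (iqb tp372_c))) (BT.Fa_mk (BT.Fa_leaf (P := Itm.ok 206) (iqf tp587_c)) (BT.Fa_leaf (P := Itm.ok 206) (iqb tp535_c)))) (BT.Fa_mk (BT.Fa_mk (BT.Fa_leaf (P := Itm.ok 206) (iqf tp299_c)) (BT.Fa_leaf (P := Itm.ok 206) (iqf tp329_c))) (BT.Fa_mk (BT.Fa_leaf (P := Itm.ok 206) (iqf tp337_c)) (BT.Fa_leaf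 (P := Itm.ok 206) (iqb tp337_c))))) (BT.Fa_mk (BT.Fa_mk (BT.Fa_mk (BT.Fa_leaf (P := Itm.ok 206) (iqf tp338_c)) (BT.Fa_leaf (P := Itm.ok 206) (iqb tp338_c))) (BT.Fa_mk (BT.Fa_leaf (P := Itm.ok 206) (iqf tp346_c)) (BT.Fa_leaf (P := Itm.ok 206) (iqb tp346_c)))) (BT.Fa_mk (BT.Fa_mk (BT.Fa_leaf (P := Itm.ok 206) (iqf tp449_c)) (BT.Fa_leaf (P := Itm.ok 206) (iqb tp359_c))) (BT.Fa_mk (BT.Fa_leaf (P := Itm.ok 206) (iqb tp361_c)) (BT.Fa_leaf (P := Itm.ok 206) (iqf tp362_c))))))) (BT.Fa_mk (BT.Fa_mk (BT.Fa_mk (BT.Fa_mk (BT.Fa_mk (BT.Fa_mk (BT.Fa_leaf (P := Itm.ok 206) (iqb tp340_c)) (BT.Fa_leaf (P := Itm.ok 206) (iqf tp347_c))) (BT.Fa_leaf (P := Itm.ok 206) (iqf tp451_c))) (BT.Fa_mk (BT.Fa_leaf (P := Itm.ok 206) (iqb tp1011_c)) (BT.Fa_leaf (P := Itm.ok 206) (iqb tp1045_c))))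 (BT.Fa_mk (BT.Fa_mk (BT.Fa_leaf (P := Itm.ok 206) (iqb tp456_c)) (BT.Fa_leaf (P := Itm.ok 206) (iqb tp1083_c))) (BT.Fa_mk (BT.Fa_leaf (P := Itm.ok 206) (iqf tp366_c)) (BT.Fa_leaf (P := Itm.ok 206) (iqb tp457_c))))) (BT.Fa_mk (BT.Fa_mk (BT.Fa_mk (BT.Fa_leaf (P := Itm.ok 206) (iqf tp789_c)) (BT.Fa_leaf (P := Itm.ok 206) (iqf tp1084_c))) (BT.Fa_mk (BT.Fa_leaf (P := Itm.ok 206) (iqf tp1085_c)) (BT.Fa_leaf (P := Itm.ok 206) (iqf tp517_c)))) (BT.Fa_mk (BT.Fa_mk (BT.Fa_leaf (P := Itm.ok 206) (iqb tp299_c)) (BT.Fa_leaf (P := Itm.ok 206) (iqb tp331_c))) (BT.Fa_mk (BT.Fa_leaf (P := Itm.ok 206) (iqf tp350_c)) (BT.Fa_leaf (P := Itm.ok 206) (iqb tp473_c)))))) (BT.Fa_mk (BT.Fa_mk (BT.Fa_mk (BT.Fa_mk (BT.Fa_leaf (P := Itm.ok 206) (iqb tp784_c)) (BT.Fa_leaf (P := Itm.ok 206)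 (iqb tp1086_c))) (BT.Fa_mk (BT.Fa_leaf (P := Itm.ok 206) (iqb tp731_c)) (BT.Fa_leaf (P := Itm.ok 206) (iqb tp322_c)))) (BT.Fa_mk (BT.Fa_mk (BT.Fa_leaf (P := Itm.ok 206) (iqb tp628_c)) (BT.Fa_leaf (P := Itm.ok 206) (iqb tp712_c))) (BT.Fa_mk (BT.Fa_leaf (P := Itm.ok 206) (iqb tp292_c)) (BT.Fa_leaf (P := Itm.ok 206) (iqb tp961_c))))) (BT.Fa_mk (BT.Fa_mk (BT.Fa_mk (BT.Fa_leaf (P := Itm.ok 206) (iqf tp614_c)) (BT.Fa_leaf (P := Itm.ok 206) (iqb tp1087_c))) (BT.Fa_mk (BT.Fa_leaf (P := Itm.ok 206) (iqb tp783_c)) (BT.Fa_leaf (P := Itm.ok 206) (iqf tp388_c)))) (BT.Fa_mk (BT.Fa_mk (BT.Fa_leaf (P := Itm.ok 206) (iqb tp1058_c)) (BT.Fa_leaf (P := Itm.ok 206) (iqf tp460_c))) (BT.Fa_mk (BT.Fa_leaf (P := Itm.ok 206) (iqb tp363_c)) (BT.Fa_leaf (P := Itm.ok 206) (iqb tp416_c))))))))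

/-- all words of the class have labels -/
theorem pokNFyA2AzEyA2Ax3xA2AyEzA2AyF : POK 206 xNFyA2AzEyA2Ax3xA2AyEzA2AyF :=
  y_pok (C0 := ceNFyA2AzEyA2Ax3xA2AyEzA2AyF) (C1 := coNFyA2AzEyA2Ax3xA2AyEzA2AyF) topNFyA2AzEyA2Ax3xA2AyEzA2AyF nbNFyA2AzEyA2Ax3xA2AyEzA2AyF (BT.Fa_of_all iiNFyA2AzEyA2Ax3xA2AyEzA2AyF_c)
    (cyE_spec zeNFyA2AzEyA2Ax3xA2AyEzA2AyF_0)
    (cyO_spec zoNFyA2AzEyA2Ax3xA2AyEzA2AyF_0)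
    iiNFyA2AzEyA2Ax3xA2AyEzA2AyF_k

theorem iiNFyAzAzE2A3Ix3A2A_k : iiNFyAzAzE2A3Ix3A2A.Fa (Itm.ok 206) := (BT.Fa_mk (BT.Fa_leaf (P := Itm.ok 206) (iqf tp1890_c)) (BT.Fa_leaf (P := Itm.ok 206) (iqf tp1420_c)))

/-- all words of the class have labels -/
theorem pokNFyAzAzE2A3Ix3A2A : POK 206 xNFyAzAzE2A3Ix3A2A :=
  y_pok (C0 := ceNFyAzAzE2A3Ix3A2A) (C1 := coNFyAzAzE2A3Ix3A2A) topNFyAzAzE2A3Ix3A2A nbNFyAzAzE2A3Ix3A2A (BT.Fa_of_all iiNFyAzAzE2A3Ix3A2A_c)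
    (cyE_spec zeNFyAzAzE2A3Ix3A2A_0)
    (cyO_spec zoNFyAzAzE2A3Ix3A2A_0)
    iiNFyAzAzE2A3Ix3A2A_k

theorem iiNFyAzAzE2A3Ix3A2A2E_k : iiNFyAzAzE2A3Ix3A2A2E.Fa (Itm.ok 206) := (BT.Fa_mk (BT.Fa_mk (BT.Fa_mk (BT.Fa_mk (BT.Fa_mk (BT.Fa_mk (BT.Fa_leaf (P := Itm.ok 206) (iqf tp1420_c)) (BT.Fa_leaf (P := Itm.ok 206) (iqf tp1356_c))) (BT.Fa_mk (BT.Fa_leaf (P := Itm.ok 206) (iqf tp567_c)) (BT.Fa_leaf (P := Itm.ok 206) (iqf tp420_c)))) (BT.Fa_mk (BT.Fa_mk (BT.Fa_leaf (P := Itm.ok 206) (iqb tp2637_c)) (BT.Fa_leaf (P := Itm.ok 206) (iqb tp307_c))) (BT.Fa_leaf (P := Itm.ok 206) (iqf tp1890_c)))) (BT.Fa_mk (BT.Fa_mk (BT.Fa_mk (BT.Fa_leaf (P := Itm.ok 206) (iqb tp785_c)) (BT.Fa_leaf (P := Itm.ok 206) (iqb tp1426_c))) (BT.Fa_leaf (P := Itm.ok 206) (iqf tp2638_c))) (BT.Fa_mk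 (BT.Fa_mk (BT.Fa_leaf (P := Itm.ok 206) (iqb tp2639_c)) (BT.Fa_leaf (P := Itm.ok 206) (iqb tp2640_c))) (BT.Fa_leaf (P := Itm.ok 206) (iqb tp636_c))))) (BT.Fa_mk (BT.Fa_mk (BT.Fa_mk (BT.Fa_mk (BT.Fa_leaf (P := Itm.ok 206) (iqb tp1920_c)) (BT.Fa_leaf (P := Itm.ok 206) (iqf tp426_c))) (BT.Fa_mk (BT.Fa_leaf (P := Itm.ok 206) (iqf tp2124_c)) (BT.Fa_leaf (P := Itm.ok 206) (iqf tp334_c)))) (BT.Fa_mk (BT.Fa_mk (BT.Fa_leaf (P := Itm.ok 206) (iqb tp2549_c)) (BT.Fa_leaf (P := Itm.ok 206) (iqb tp377_c))) (BT.Fa_leaf (P := Itm.ok 206) (iqf tp1037_c)))) (BT.Fa_mk (BT.Fa_mk (BT.Fa_mk (BT.Fa_leaf (P := Itm.ok 206) (iqf tp2099_c)) (BT.Fa_leaf (P := Itm.ok 206) (iqb tp532_c))) (BT.Fa_leaf (P := Itm.ok 206) (iqf tp341_c))) (BT.Fa_mk (BT.Fa_mk (BT.Fa_leaf (P := Itm.ok 206) (iqf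 tp1931_c)) (BT.Fa_leaf (P := Itm.ok 206) (iqf tp2056_c))) (BT.Fa_leaf (P := Itm.ok 206) (iqb tp1888_c)))))) (BT.Fa_mk (BT.Fa_mk (BT.Fa_mk (BT.Fa_mk (BT.Fa_mk (BT.Fa_leaf (P := Itm.ok 206) (iqb tp2045_c)) (BT.Fa_leaf (P := Itm.ok 206) (iqf tp2040_c))) (BT.Fa_mk (BT.Fa_leaf (P := Itm.ok 206) (iqf tp299_c)) (BT.Fa_leaf (P := Itm.ok 206) (iqf tp694_c)))) (BT.Fa_mk (BT.Fa_mk (BT.Fa_leaf (P := Itm.ok 206) (iqb tp783_c)) (BT.Fa_leaf (P := Itm.ok 206) (iqb tp2641_c))) (BT.Fa_leaf (P := Itm.ok 206) (iqb tp806_c)))) (BT.Fa_mk (BT.Fa_mk (BT.Fa_mk (BT.Fa_leaf (P := Itm.ok 206) (iqf tp529_c)) (BT.Fa_leaf (P := Itm.ok 206) (iqb tp2642_c))) (BT.Fa_leaf (P := Itm.ok 206) (iqf tp2100_c))) (BT.Fa_mk (BT.Fa_mk (BT.Fa_leaf (P := Itm.ok 206) (iqf tp678_c)) (BT.Fa_leaf (P := Itm.ok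 206) (iqf tp730_c))) (BT.Fa_leaf (P := Itm.ok 206) (iqb tp1733_c))))) (BT.Fa_mk (BT.Fa_mk (BT.Fa_mk (BT.Fa_mk (BT.Fa_leaf (P := Itm.ok 206) (iqb tp2172_c)) (BT.Fa_leaf (P := Itm.ok 206) (iqf tp2615_c))) (BT.Fa_mk (BT.Fa_leaf (P := Itm.ok 206) (iqf tp375_c)) (BT.Fa_leaf (P := Itm.ok 206) (iqb tp2069_c)))) (BT.Fa_mk (BT.Fa_mk (BT.Fa_leaf (P := Itm.ok 206) (iqb tp537_c)) (BT.Fa_leaf (P := Itm.ok 206) (iqf tp2643_c))) (BT.Fa_leaf (P := Itm.ok 206) (iqb tp1418_c)))) (BT.Fa_mk (BT.Fa_mk (BT.Fa_mk (BT.Fa_leaf (P := Itm.ok 206) (iqf tp2644_c)) (BT.Fa_leaf (P := Itm.ok 206) (iqb tp2645_c))) (BT.Fa_leaf (P := Itm.ok 206) (iqf tp428_c))) (BT.Fa_mk (BT.Fa_mk (BT.Fa_leaf (P := Itm.ok 206) (iqf tp2538_c)) (BT.Fa_leaf (P := Itm.ok 206) (iqb tp1939_c))) (BT.Fa_leaf (P := Itm.ok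 206) (iqb tp372_c)))))))

/-- all words of the class have labels -/
theorem pokNFyAzAzE2A3Ix3A2A2E : POK 206 xNFyAzAzE2A3Ix3A2A2E :=
  y_pok (C0 := ceNFyAzAzE2A3Ix3A2A2E) (C1 := coNFyAzAzE2A3Ix3A2A2E) topNFyAzAzE2A3Ix3A2A2E nbNFyAzAzE2A3Ix3A2A2E (BT.Fa_of_all iiNFyAzAzE2A3Ix3A2A2E_c)
    (cyE_spec zeNFyAzAzE2A3Ix3A2A2E_0)
    (cyO_spec zoNFyAzAzE2A3Ix3A2A2E_0)
    iiNFyAzAzE2A3Ix3A2A2E_k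

theorem iiNFyAzAzE2A3Ix3A2AyE_k : iiNFyAzAzE2A3Ix3A2AyE.Fa (Itm.ok 206) := (BT.Fa_mk (BT.Fa_mk (BT.Fa_mk (BT.Fa_mk (BT.Fa_mk (BT.Fa_mk (BT.Fa_leaf (P := Itm.ok 206) (iqb tp307_c)) (BT.Fa_leaf (P := Itm.ok 206) (iqf tp321_c))) (BT.Fa_mk (BT.Fa_leaf (P := Itm.ok 206) (iqb tp1426_c)) (BT.Fa_leaf (P := Itm.ok 206) (iqb tp2640_c)))) (BT.Fa_mk (BT.Fa_mk (BT.Fa_leaf (P := Itm.ok 206) (iqf tp2863_c)) (BT.Fa_leaf (P := Itm.ok 206) (iqb tp1741_c))) (BT.Fa_mk (BT.Fa_leaf (P := Itm.ok 206) (iqb tp636_c)) (BT.Fa_leaf (P := Itm.ok 206) (iqb tp1920_c))))) (BT.Fa_mk (BT.Fa_mk (BT.Fa_mk (BT.Fa_leaf (P := Itm.ok 206) (iqf tp2124_c)) (BT.Fa_leaf (P := Itm.ok 206) (iqf tp2864_c))) (BT.Fa_mk (BT.Fa_leaf (P := Itm.ok 206) (iqb tp2549_c)) (BT.Fa_leaf (P := Itm.ok 206) (iqb tp377_c))))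 (BT.Fa_mk (BT.Fa_mk (BT.Fa_leaf (P := Itm.ok 206) (iqf tp962_c)) (BT.Fa_leaf (P := Itm.ok 206) (iqb tp1913_c))) (BT.Fa_leaf (P := Itm.ok 206) (iqf tp2099_c))))) (BT.Fa_mk (BT.Fa_mk (BT.Fa_mk (BT.Fa_mk (BT.Fa_leaf (P := Itm.ok 206) (iqf tp2434_c)) (BT.Fa_leaf (P := Itm.ok 206) (iqf tp341_c))) (BT.Fa_mk (BT.Fa_leaf (P := Itm.ok 206) (iqf tp2865_c)) (BT.Fa_leaf (P := Itm.ok 206) (iqb tp1888_c)))) (BT.Fa_mk (BT.Fa_mk (BT.Fa_leaf (P := Itm.ok 206) (iqb tp2045_c)) (BT.Fa_leaf (P := Itm.ok 206) (iqb tp401_c))) (BT.Fa_mk (BT.Fa_leaf (P := Itm.ok 206) (iqf tp694_c)) (BT.Fa_leaf (P := Itm.ok 206) (iqb tp2641_c))))) (BT.Fa_mk (BT.Fa_mk (BT.Fa_mk (BT.Fa_leaf (P := Itm.ok 206) (iqf tp493_c)) (BT.Fa_leaf (P := Itm.ok 206) (iqf tp2866_c))) (BT.Fa_mk (BT.Fa_leaf (P := Itm.ok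 206) (iqb tp810_c)) (BT.Fa_leaf (P := Itm.ok 206) (iqf tp529_c)))) (BT.Fa_mk (BT.Fa_mk (BT.Fa_leaf (P := Itm.ok 206) (iqf tp853_c)) (BT.Fa_leaf (P := Itm.ok 206) (iqf tp2538_c))) (BT.Fa_leaf (P := Itm.ok 206) (iqb tp2642_c)))))) (BT.Fa_mk (BT.Fa_mk (BT.Fa_mk (BT.Fa_mk (BT.Fa_mk (BT.Fa_leaf (P := Itm.ok 206) (iqf tp2100_c)) (BT.Fa_leaf (P := Itm.ok 206) (iqf tp678_c))) (BT.Fa_mk (BT.Fa_leaf (P := Itm.ok 206) (iqb tp477_c)) (BT.Fa_leaf (P := Itm.ok 206) (iqb tp2867_c)))) (BT.Fa_mk (BT.Fa_mk (BT.Fa_leaf (P := Itm.ok 206) (iqf tp2868_c)) (BT.Fa_leaf (P := Itm.ok 206) (iqf tp2067_c))) (BT.Fa_mk (BT.Fa_leaf (P := Itm.ok 206) (iqb tp1995_c)) (BT.Fa_leaf (P := Itm.ok 206) (iqb tp409_c))))) (BT.Fa_mk (BT.Fa_mk (BT.Fa_mk (BT.Fa_leaf (P := Itm.ok 206) (iqb tp2172_c)) (BT.Fa_leaf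 (P := Itm.ok 206) (iqf tp633_c))) (BT.Fa_mk (BT.Fa_leaf (P := Itm.ok 206) (iqf tp2869_c)) (BT.Fa_leaf (P := Itm.ok 206) (iqf tp2615_c)))) (BT.Fa_mk (BT.Fa_mk (BT.Fa_leaf (P := Itm.ok 206) (iqf tp375_c)) (BT.Fa_leaf (P := Itm.ok 206) (iqb tp2054_c))) (BT.Fa_leaf (P := Itm.ok 206) (iqb tp2069_c))))) (BT.Fa_mk (BT.Fa_mk (BT.Fa_mk (BT.Fa_mk (BT.Fa_leaf (P := Itm.ok 206) (iqb tp537_c)) (BT.Fa_leaf (P := Itm.ok 206) (iqf tp2643_c))) (BT.Fa_mk (BT.Fa_leaf (P := Itm.ok 206) (iqf tp2075_c)) (BT.Fa_leaf (P := Itm.ok 206) (iqf tp1732_c)))) (BT.Fa_mk (BT.Fa_mk (BT.Fa_leaf (P := Itm.ok 206) (iqf tp2056_c)) (BT.Fa_leaf (P := Itm.ok 206) (iqb tp2645_c))) (BT.Fa_leaf (P := Itm.ok 206) (iqf tp1037_c)))) (BT.Fa_mk (BT.Fa_mk (BT.Fa_mk (BT.Fa_leaf (P := Itm.ok 206) (iqb tp2870_c))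 (BT.Fa_leaf (P := Itm.ok 206) (iqf tp2871_c))) (BT.Fa_mk (BT.Fa_leaf (P := Itm.ok 206) (iqb tp2872_c)) (BT.Fa_leaf (P := Itm.ok 206) (iqb tp2639_c)))) (BT.Fa_mk (BT.Fa_mk (BT.Fa_leaf (P := Itm.ok 206) (iqf tp2057_c)) (BT.Fa_leaf (P := Itm.ok 206) (iqb tp2873_c))) (BT.Fa_leaf (P := Itm.ok 206) (iqb tp372_c)))))))

/-- all words of the class have labels -/
theorem pokNFyAzAzE2A3Ix3A2AyE : POK 206 xNFyAzAzE2A3Ix3A2AyE :=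
  y_pok (C0 := ceNFyAzAzE2A3Ix3A2AyE) (C1 := coNFyAzAzE2A3Ix3A2AyE) topNFyAzAzE2A3Ix3A2AyE nbNFyAzAzE2A3Ix3A2AyE (BT.Fa_of_all iiNFyAzAzE2A3Ix3A2AyE_c)
    (cyE_spec zeNFyAzAzE2A3Ix3A2AyE_0)
    (cyO_spec zoNFyAzAzE2A3Ix3A2AyE_0)
    iiNFyAzAzE2A3Ix3A2AyE_k

theorem iiNFyAzAzE2A3Ix3AyB2E_k : iiNFyAzAzE2A3Ix3AyB2E.Fa (Itm.ok 206) := (BT.Fa_mk (BT.Fa_mk (BT.Fa_mk (BT.Fa_mk (BT.Fa_mk (BT.Fa_mk (BT.Fa_leaf (P := Itm.ok 206) (iqb tp1741_c)) (BT.Fa_leaf (P := Itm.ok 206) (iqb tp2640_c))) (BT.Fa_leaf (P := Itm.ok 206) (iqf tp1991_c))) (BT.Fa_mk (BT.Fa_mk (BT.Fa_leaf (P := Itm.ok 206) (iqb tp2549_c)) (BT.Fa_leaf (P := Itm.ok 206) (iqb tp2547_c))) (BT.Fa_leaf (P := Itm.ok 206) (iqf tp2100_c)))) (BT.Fa_mk (BT.Fa_mk (BT.Fa_mk (BT.Fa_leaf (P := Itm.ok 206) (iqf tp1765_c))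 (BT.Fa_leaf (P := Itm.ok 206) (iqb tp2049_c))) (BT.Fa_leaf (P := Itm.ok 206) (iqb tp785_c))) (BT.Fa_mk (BT.Fa_mk (BT.Fa_leaf (P := Itm.ok 206) (iqb tp1576_c)) (BT.Fa_leaf (P := Itm.ok 206) (iqb tp1588_c))) (BT.Fa_leaf (P := Itm.ok 206) (iqb tp1925_c))))) (BT.Fa_mk (BT.Fa_mk (BT.Fa_mk (BT.Fa_mk (BT.Fa_leaf (P := Itm.ok 206) (iqb tp1920_c)) (BT.Fa_leaf (P := Itm.ok 206) (iqb tp307_c))) (BT.Fa_leaf (P := Itm.ok 206) (iqf tp1576_c))) (BT.Fa_mk (BT.Fa_mk (BT.Fa_leaf (P := Itm.ok 206) (iqf tp2040_c)) (BT.Fa_leaf (P := Itm.ok 206) (iqb tp1926_c))) (BT.Fa_leaf (P := Itm.ok 206) (iqb tp1940_c)))) (BT.Fa_mk (BT.Fa_mk (BT.Fa_mk (BT.Fa_leaf (P := Itm.ok 206) (iqb tp1888_c)) (BT.Fa_leaf (P := Itm.ok 206) (iqb tp2539_c))) (BT.Fa_leaf (P := Itm.ok 206) (iqf tp334_c))) (BT.Fa_mk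 (BT.Fa_leaf (P := Itm.ok 206) (iqf tp1678_c)) (BT.Fa_leaf (P := Itm.ok 206) (iqf tp2546_c)))))) (BT.Fa_mk (BT.Fa_mk (BT.Fa_mk (BT.Fa_mk (BT.Fa_mk (BT.Fa_leaf (P := Itm.ok 206) (iqf tp2493_c)) (BT.Fa_leaf (P := Itm.ok 206) (iqb tp1734_c))) (BT.Fa_leaf (P := Itm.ok 206) (iqb tp1579_c))) (BT.Fa_mk (BT.Fa_mk (BT.Fa_leaf (P := Itm.ok 206) (iqb tp2706_c)) (BT.Fa_leaf (P := Itm.ok 206) (iqf tp1468_c))) (BT.Fa_leaf (P := Itm.ok 206) (iqf tp2062_c)))) (BT.Fa_mk (BT.Fa_mk (BT.Fa_mk (BT.Fa_leaf (P := Itm.ok 206) (iqb tp2050_c)) (BT.Fa_leaf (P := Itm.ok 206) (iqf tp2533_c))) (BT.Fa_leaf (P := Itm.ok 206) (iqb tp2552_c))) (BT.Fa_mk (BT.Fa_leaf (P := Itm.ok 206) (iqf tp2306_c)) (BT.Fa_leaf (P := Itm.ok 206) (iqf tp2053_c))))) (BT.Fa_mk (BT.Fa_mk (BT.Fa_mk (BT.Fa_mk (BT.Fa_leaf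 (P := Itm.ok 206) (iqb tp401_c)) (BT.Fa_leaf (P := Itm.ok 206) (iqf tp721_c))) (BT.Fa_leaf (P := Itm.ok 206) (iqf tp1585_c))) (BT.Fa_mk (BT.Fa_mk (BT.Fa_leaf (P := Itm.ok 206) (iqb tp1730_c)) (BT.Fa_leaf (P := Itm.ok 206) (iqb tp2949_c))) (BT.Fa_leaf (P := Itm.ok 206) (iqf tp2950_c)))) (BT.Fa_mk (BT.Fa_mk (BT.Fa_mk (BT.Fa_leaf (P := Itm.ok 206) (iqb tp2454_c)) (BT.Fa_leaf (P := Itm.ok 206) (iqb tp2951_c))) (BT.Fa_leaf (P := Itm.ok 206) (iqf tp2952_c))) (BT.Fa_mk (BT.Fa_leaf (P := Itm.ok 206) (iqb tp2567_c)) (BT.Fa_leaf (P := Itm.ok 206) (iqf tp2569_c)))))))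

/-- all words of the class have labels -/
theorem pokNFyAzAzE2A3Ix3AyB2E : POK 206 xNFyAzAzE2A3Ix3AyB2E :=
  y_pok (C0 := ceNFyAzAzE2A3Ix3AyB2E) (C1 := coNFyAzAzE2A3Ix3AyB2E) topNFyAzAzE2A3Ix3AyB2E nbNFyAzAzE2A3Ix3AyB2E (BT.Fa_of_all iiNFyAzAzE2A3Ix3AyB2E_c)
    (cyE_spec zeNFyAzAzE2A3Ix3AyB2E_0)
    (cyO_spec zoNFyAzAzE2A3Ix3AyB2E_0)
    iiNFyAzAzE2A3Ix3AyB2E_k

theorem iiNFyAzAzE2ByA3Ix3AyB2E_k : iiNFyAzAzE2ByA3Ix3AyB2E.Fa (Itm.ok 206) := (BT.Fa_mk (BT.Fa_mk (BT.Fa_mk (BT.Fa_mk (BT.Fa_mk (BT.Fa_mk (BT.Fa_mk (BT.Fa_leaf (P := Itm.ok 206) (iqb tp1741_c)) (BT.Fa_leaf (P := Itm.ok 206) (iqb tp2640_c))) (BT.Fa_leaf (P := Itm.ok 206) (iqb tp1920_c))) (BT.Fa_mk (BT.Fa_leaf (P := Itm.ok 206) (iqf tp2201_c)) (BT.Fa_leaf (P := Itm.ok 206) (iqf tp2698_c)))) (BT.Fa_mk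 (BT.Fa_mk (BT.Fa_mk (BT.Fa_leaf (P := Itm.ok 206) (iqf tp2699_c)) (BT.Fa_leaf (P := Itm.ok 206) (iqf tp1468_c))) (BT.Fa_leaf (P := Itm.ok 206) (iqb tp827_c))) (BT.Fa_mk (BT.Fa_leaf (P := Itm.ok 206) (iqb tp2155_c)) (BT.Fa_leaf (P := Itm.ok 206) (iqb tp1576_c))))) (BT.Fa_mk (BT.Fa_mk (BT.Fa_mk (BT.Fa_mk (BT.Fa_leaf (P := Itm.ok 206) (iqf tp1934_c)) (BT.Fa_leaf (P := Itm.ok 206) (iqb tp1940_c))) (BT.Fa_leaf (P := Itm.ok 206) (iqb tp2049_c))) (BT.Fa_mk (BT.Fa_leaf (P := Itm.ok 206) (iqf tp1813_c)) (BT.Fa_leaf (P := Itm.ok 206) (iqb tp2700_c)))) (BT.Fa_mk (BT.Fa_mk (BT.Fa_mk (BT.Fa_leaf (P := Itm.ok 206) (iqf tp1576_c)) (BT.Fa_leaf (P := Itm.ok 206) (iqb tp1893_c))) (BT.Fa_leaf (P := Itm.ok 206) (iqb tp1995_c))) (BT.Fa_mk (BT.Fa_leaf (P := Itm.ok 206) (iqb tp1926_c))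 (BT.Fa_leaf (P := Itm.ok 206) (iqb tp1653_c)))))) (BT.Fa_mk (BT.Fa_mk (BT.Fa_mk (BT.Fa_mk (BT.Fa_mk (BT.Fa_leaf (P := Itm.ok 206) (iqf tp1991_c)) (BT.Fa_leaf (P := Itm.ok 206) (iqf tp2701_c))) (BT.Fa_leaf (P := Itm.ok 206) (iqb tp1908_c))) (BT.Fa_mk (BT.Fa_leaf (P := Itm.ok 206) (iqb tp2702_c)) (BT.Fa_leaf (P := Itm.ok 206) (iqb tp1925_c)))) (BT.Fa_mk (BT.Fa_mk (BT.Fa_mk (BT.Fa_leaf (P := Itm.ok 206) (iqf tp2703_c)) (BT.Fa_leaf (P := Itm.ok 206) (iqf tp2493_c))) (BT.Fa_leaf (P := Itm.ok 206) (iqb tp2539_c))) (BT.Fa_mk (BT.Fa_leaf (P := Itm.ok 206) (iqf tp2546_c)) (BT.Fa_leaf (P := Itm.ok 206) (iqb tp686_c))))) (BT.Fa_mk (BT.Fa_mk (BT.Fa_mk (BT.Fa_mk (BT.Fa_leaf (P := Itm.ok 206) (iqb tp1730_c)) (BT.Fa_leaf (P := Itm.ok 206) (iqb tp1579_c))) (BT.Fa_leaf (P :=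 Itm.ok 206) (iqf tp1931_c))) (BT.Fa_mk (BT.Fa_leaf (P := Itm.ok 206) (iqf tp2704_c)) (BT.Fa_leaf (P := Itm.ok 206) (iqf tp2705_c)))) (BT.Fa_mk (BT.Fa_mk (BT.Fa_leaf (P := Itm.ok 206) (iqf tp368_c)) (BT.Fa_leaf (P := Itm.ok 206) (iqb tp2706_c))) (BT.Fa_mk (BT.Fa_leaf (P := Itm.ok 206) (iqb tp2050_c)) (BT.Fa_leaf (P := Itm.ok 206) (iqf tp2062_c))))))) (BT.Fa_mk (BT.Fa_mk (BT.Fa_mk (BT.Fa_mk (BT.Fa_mk (BT.Fa_mk (BT.Fa_leaf (P := Itm.ok 206) (iqb tp2061_c)) (BT.Fa_leaf (P := Itm.ok 206) (iqb tp2073_c))) (BT.Fa_leaf (P := Itm.ok 206) (iqb tp2415_c))) (BT.Fa_mk (BT.Fa_leaf (P := Itm.ok 206) (iqf tp2707_c)) (BT.Fa_leaf (P := Itm.ok 206) (iqb tp2547_c)))) (BT.Fa_mk (BT.Fa_mk (BT.Fa_mk (BT.Fa_leaf (P := Itm.ok 206) (iqf tp1795_c)) (BT.Fa_leaf (P := Itm.ok 206) (iqf tp2627_c)))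 (BT.Fa_leaf (P := Itm.ok 206) (iqf tp2708_c))) (BT.Fa_mk (BT.Fa_leaf (P := Itm.ok 206) (iqf tp2503_c)) (BT.Fa_leaf (P := Itm.ok 206) (iqf tp2709_c))))) (BT.Fa_mk (BT.Fa_mk (BT.Fa_mk (BT.Fa_mk (BT.Fa_leaf (P := Itm.ok 206) (iqf tp2418_c)) (BT.Fa_leaf (P := Itm.ok 206) (iqf tp2474_c))) (BT.Fa_leaf (P := Itm.ok 206) (iqf tp294_c))) (BT.Fa_mk (BT.Fa_leaf (P := Itm.ok 206) (iqb tp2710_c)) (BT.Fa_leaf (P := Itm.ok 206) (iqf tp2711_c)))) (BT.Fa_mk (BT.Fa_mk (BT.Fa_leaf (P := Itm.ok 206) (iqf tp2712_c)) (BT.Fa_leaf (P := Itm.ok 206) (iqf tp2713_c))) (BT.Fa_mk (BT.Fa_leaf (P := Itm.ok 206) (iqf tp1759_c)) (BT.Fa_leaf (P := Itm.ok 206) (iqf tp2714_c)))))) (BT.Fa_mk (BT.Fa_mk (BT.Fa_mk (BT.Fa_mk (BT.Fa_mk (BT.Fa_leaf (P := Itm.ok 206) (iqf tp2005_c)) (BT.Fa_leaf (P :=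 Itm.ok 206) (iqf tp2715_c))) (BT.Fa_leaf (P := Itm.ok 206) (iqb tp2716_c))) (BT.Fa_mk (BT.Fa_leaf (P := Itm.ok 206) (iqb tp2717_c)) (BT.Fa_leaf (P := Itm.ok 206) (iqf tp2718_c)))) (BT.Fa_mk (BT.Fa_mk (BT.Fa_mk (BT.Fa_leaf (P := Itm.ok 206) (iqb tp2719_c)) (BT.Fa_leaf (P := Itm.ok 206) (iqb tp2720_c))) (BT.Fa_leaf (P := Itm.ok 206) (iqf tp2538_c))) (BT.Fa_mk (BT.Fa_leaf (P := Itm.ok 206) (iqb tp2721_c)) (BT.Fa_leaf (P := Itm.ok 206) (iqb tp2722_c))))) (BT.Fa_mk (BT.Fa_mk (BT.Fa_mk (BT.Fa_mk (BT.Fa_leaf (P := Itm.ok 206) (iqf tp2724_c)) (BT.Fa_leaf (P := Itm.ok 206) (iqb tp2725_c))) (BT.Fa_leaf (P := Itm.ok 206) (iqb tp2098_c))) (BT.Fa_mk (BT.Fa_leaf (P := Itm.ok 206) (iqb tp2726_c)) (BT.Fa_leaf (P := Itm.ok 206) (iqf tp2727_c)))) (BT.Fa_mk (BT.Fa_mk (BT.Fa_leaf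 (P := Itm.ok 206) (iqf tp2612_c)) (BT.Fa_leaf (P := Itm.ok 206) (iqf tp2728_c))) (BT.Fa_mk (BT.Fa_leaf (P := Itm.ok 206) (iqb tp2039_c)) (BT.Fa_leaf (P := Itm.ok 206) (iqb tp2729_c))))))))

/-- all words of the class have labels -/
theorem pokNFyAzAzE2ByA3Ix3AyB2E : POK 206 xNFyAzAzE2ByA3Ix3AyB2E :=
  y_pok (C0 := ceNFyAzAzE2ByA3Ix3AyB2E) (C1 := coNFyAzAzE2ByA3Ix3AyB2E) topNFyAzAzE2ByA3Ix3AyB2E nbNFyAzAzE2ByA3Ix3AyB2E (BT.Fa_of_all iiNFyAzAzE2ByA3Ix3AyB2E_c)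
    (cyE_spec zeNFyAzAzE2ByA3Ix3AyB2E_0)
    (cyO_spec zoNFyAzAzE2ByA3Ix3AyB2E_0)
    iiNFyAzAzE2ByA3Ix3AyB2E_k

theorem iiNFyAzAzEyA2Ax3xA2AyEzAzA2F_k : iiNFyAzAzEyA2Ax3xA2AyEzAzA2F.Fa (Itm.ok 206) := (BT.Fa_mk (BT.Fa_mk (BT.Fa_mk (BT.Fa_mk (BT.Fa_mk (BT.Fa_mk (BT.Fa_mk (BT.Fa_leaf (P := Itm.ok 206) (iqf tp524_c)) (BT.Fa_leaf (P := Itm.ok 206) (iqb tp524_c))) (BT.Fa_mk (BT.Fa_leaf (P := Itm.ok 206) (iqb tp525_c)) (BT.Fa_leaf (P := Itm.ok 206) (iqf tp447_c)))) (BT.Fa_mk (BT.Fa_mk (BT.Fa_leaf (P := Itm.ok 206) (iqf tp526_c)) (BT.Fa_leaf (P := Itm.ok 206) (iqf tp527_c))) (BT.Fa_leaf (P := Itm.ok 206) (iqf tp403_c)))) (BT.Fa_mk (BT.Fa_mk (BT.Fa_mk (BT.Fa_leaf (P := Itm.ok 206) (iqb tp403_c)) (BT.Fa_leaf (P := Itm.ok 206) (iqf tp292_c))) (BT.Fa_mk (BT.Fa_leaf (P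 := Itm.ok 206) (iqf tp326_c)) (BT.Fa_leaf (P := Itm.ok 206) (iqb tp326_c)))) (BT.Fa_mk (BT.Fa_mk (BT.Fa_leaf (P := Itm.ok 206) (iqf tp331_c)) (BT.Fa_leaf (P := Itm.ok 206) (iqb tp331_c))) (BT.Fa_leaf (P := Itm.ok 206) (iqf tp490_c))))) (BT.Fa_mk (BT.Fa_mk (BT.Fa_mk (BT.Fa_mk (BT.Fa_leaf (P := Itm.ok 206) (iqb tp477_c)) (BT.Fa_leaf (P := Itm.ok 206) (iqf tp342_c))) (BT.Fa_mk (BT.Fa_leaf (P := Itm.ok 206) (iqb tp342_c)) (BT.Fa_leaf (P := Itm.ok 206) (iqb tp334_c)))) (BT.Fa_mk (BT.Fa_mk (BT.Fa_leaf (P := Itm.ok 206) (iqf tp368_c)) (BT.Fa_leaf (P := Itm.ok 206) (iqb tp368_c))) (BT.Fa_leaf (P := Itm.ok 206) (iqb tp530_c)))) (BT.Fa_mk (BT.Fa_mk (BT.Fa_mk (BT.Fa_leaf (P := Itm.ok 206) (iqf tp341_c)) (BT.Fa_leaf (P := Itm.ok 206) (iqb tp341_c))) (BT.Fa_leaf (P := Itm.ok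 206) (iqb tp531_c))) (BT.Fa_mk (BT.Fa_mk (BT.Fa_leaf (P := Itm.ok 206) (iqb tp378_c)) (BT.Fa_leaf (P := Itm.ok 206) (iqb tp532_c))) (BT.Fa_leaf (P := Itm.ok 206) (iqf tp484_c)))))) (BT.Fa_mk (BT.Fa_mk (BT.Fa_mk (BT.Fa_mk (BT.Fa_mk (BT.Fa_leaf (P := Itm.ok 206) (iqb tp484_c)) (BT.Fa_leaf (P := Itm.ok 206) (iqf tp552_c))) (BT.Fa_mk (BT.Fa_leaf (P := Itm.ok 206) (iqb tp533_c)) (BT.Fa_leaf (P := Itm.ok 206) (iqf tp510_c)))) (BT.Fa_mk (BT.Fa_mk (BT.Fa_leaf (P := Itm.ok 206) (iqb tp553_c)) (BT.Fa_leaf (P := Itm.ok 206) (iqb tp372_c))) (BT.Fa_leaf (P := Itm.ok 206) (iqf tp356_c)))) (BT.Fa_mk (BT.Fa_mk (BT.Fa_mk (BT.Fa_leaf (P := Itm.ok 206) (iqb tp554_c)) (BT.Fa_leaf (P := Itm.ok 206) (iqb tp558_c))) (BT.Fa_mk (BT.Fa_leaf (P := Itm.ok 206) (iqf tp504_c)) (BT.Fa_leaf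 (P := Itm.ok 206) (iqb tp535_c)))) (BT.Fa_mk (BT.Fa_mk (BT.Fa_leaf (P := Itm.ok 206) (iqf tp536_c)) (BT.Fa_leaf (P := Itm.ok 206) (iqb tp556_c))) (BT.Fa_leaf (P := Itm.ok 206) (iqf tp375_c))))) (BT.Fa_mk (BT.Fa_mk (BT.Fa_mk (BT.Fa_mk (BT.Fa_leaf (P := Itm.ok 206) (iqf tp369_c)) (BT.Fa_leaf (P := Itm.ok 206) (iqf tp350_c))) (BT.Fa_mk (BT.Fa_leaf (P := Itm.ok 206) (iqb tp577_c)) (BT.Fa_leaf (P := Itm.ok 206) (iqb tp359_c)))) (BT.Fa_mk (BT.Fa_mk (BT.Fa_leaf (P := Itm.ok 206) (iqf tp361_c)) (BT.Fa_leaf (P := Itm.ok 206) (iqb tp361_c))) (BT.Fa_leaf (P := Itm.ok 206) (iqf tp364_c)))) (BT.Fa_mk (BT.Fa_mk (BT.Fa_mk (BT.Fa_leaf (P := Itm.ok 206) (iqb tp364_c)) (BT.Fa_leaf (P := Itm.ok 206) (iqb tp435_c))) (BT.Fa_leaf (P := Itm.ok 206) (iqb tp507_c))) (BT.Fa_mk (BT.Fa_mk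 (BT.Fa_leaf (P := Itm.ok 206) (iqf tp398_c)) (BT.Fa_leaf (P := Itm.ok 206) (iqf tp347_c))) (BT.Fa_leaf (P := Itm.ok 206) (iqb tp360_c))))))) (BT.Fa_mk (BT.Fa_mk (BT.Fa_mk (BT.Fa_mk (BT.Fa_mk (BT.Fa_mk (BT.Fa_leaf (P := Itm.ok 206) (iqf tp386_c)) (BT.Fa_leaf (P := Itm.ok 206) (iqb tp550_c))) (BT.Fa_mk (BT.Fa_leaf (P := Itm.ok 206) (iqb tp555_c)) (BT.Fa_leaf (P := Itm.ok 206) (iqb tp452_c)))) (BT.Fa_mk (BT.Fa_mk (BT.Fa_leaf (P := Itm.ok 206) (iqf tp366_c)) (BT.Fa_leaf (P := Itm.ok 206) (iqb tp540_c))) (BT.Fa_leaf (P := Itm.ok 206) (iqf tp478_c)))) (BT.Fa_mk (BT.Fa_mk (BT.Fa_mk (BT.Fa_leaf (P := Itm.ok 206) (iqb tp516_c)) (BT.Fa_leaf (P := Itm.ok 206) (iqf tp541_c))) (BT.Fa_mk (BT.Fa_leaf (P := Itm.ok 206) (iqf tp494_c)) (BT.Fa_leaf (P := Itm.ok 206) (iqf tp542_c))))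 (BT.Fa_mk (BT.Fa_mk (BT.Fa_leaf (P := Itm.ok 206) (iqf tp509_c)) (BT.Fa_leaf (P := Itm.ok 206) (iqf tp543_c))) (BT.Fa_leaf (P := Itm.ok 206) (iqf tp563_c))))) (BT.Fa_mk (BT.Fa_mk (BT.Fa_mk (BT.Fa_mk (BT.Fa_leaf (P := Itm.ok 206) (iqf tp547_c)) (BT.Fa_leaf (P := Itm.ok 206) (iqf tp499_c))) (BT.Fa_mk (BT.Fa_leaf (P := Itm.ok 206) (iqf tp539_c)) (BT.Fa_leaf (P := Itm.ok 206) (iqb tp490_c)))) (BT.Fa_mk (BT.Fa_mk (BT.Fa_leaf (P := Itm.ok 206) (iqf tp557_c)) (BT.Fa_leaf (P := Itm.ok 206) (iqf tp578_c))) (BT.Fa_leaf (P := Itm.ok 206) (iqb tp336_c)))) (BT.Fa_mk (BT.Fa_mk (BT.Fa_mk (BT.Fa_leaf (P := Itm.ok 206) (iqb tp542_c)) (BT.Fa_leaf (P := Itm.ok 206) (iqf tp528_c))) (BT.Fa_leaf (P := Itm.ok 206) (iqf tp534_c))) (BT.Fa_mk (BT.Fa_mk (BT.Fa_leaf (P := Itm.ok 206) (iqb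 tp559_c)) (BT.Fa_leaf (P := Itm.ok 206) (iqb tp579_c))) (BT.Fa_leaf (P := Itm.ok 206) (iqf tp548_c)))))) (BT.Fa_mk (BT.Fa_mk (BT.Fa_mk (BT.Fa_mk (BT.Fa_mk (BT.Fa_leaf (P := Itm.ok 206) (iqb tp528_c)) (BT.Fa_leaf (P := Itm.ok 206) (iqf tp565_c))) (BT.Fa_mk (BT.Fa_leaf (P := Itm.ok 206) (iqf tp566_c)) (BT.Fa_leaf (P := Itm.ok 206) (iqf tp560_c)))) (BT.Fa_mk (BT.Fa_mk (BT.Fa_leaf (P := Itm.ok 206) (iqf tp554_c)) (BT.Fa_leaf (P := Itm.ok 206) (iqf tp580_c))) (BT.Fa_leaf (P := Itm.ok 206) (iqb tp561_c)))) (BT.Fa_mk (BT.Fa_mk (BT.Fa_mk (BT.Fa_leaf (P := Itm.ok 206) (iqb tp567_c)) (BT.Fa_leaf (P := Itm.ok 206) (iqb tp568_c))) (BT.Fa_mk (BT.Fa_leaf (P := Itm.ok 206) (iqb tp391_c)) (BT.Fa_leaf (P := Itm.ok 206) (iqf tp344_c)))) (BT.Fa_mk (BT.Fa_mk (BT.Fa_leaf (P := Itm.ok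 206) (iqb tp581_c)) (BT.Fa_leaf (P := Itm.ok 206) (iqf tp582_c))) (BT.Fa_leaf (P := Itm.ok 206) (iqb tp583_c))))) (BT.Fa_mk (BT.Fa_mk (BT.Fa_mk (BT.Fa_mk (BT.Fa_leaf (P := Itm.ok 206) (iqb tp519_c)) (BT.Fa_leaf (P := Itm.ok 206) (iqb tp320_c))) (BT.Fa_mk (BT.Fa_leaf (P := Itm.ok 206) (iqf tp531_c)) (BT.Fa_leaf (P := Itm.ok 206) (iqb tp536_c)))) (BT.Fa_mk (BT.Fa_mk (BT.Fa_leaf (P := Itm.ok 206) (iqf tp584_c)) (BT.Fa_leaf (P := Itm.ok 206) (iqf tp540_c))) (BT.Fa_leaf (P := Itm.ok 206) (iqb tp585_c)))) (BT.Fa_mk (BT.Fa_mk (BT.Fa_mk (BT.Fa_leaf (P := Itm.ok 206) (iqf tp586_c)) (BT.Fa_leaf (P := Itm.ok 206) (iqb tp423_c))) (BT.Fa_leaf (P := Itm.ok 206) (iqf tp572_c))) (BT.Fa_mk (BT.Fa_mk (BT.Fa_leaf (P := Itm.ok 206) (iqf tp573_c)) (BT.Fa_leaf (P := Itm.ok 206) (iqb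 tp419_c))) (BT.Fa_leaf (P := Itm.ok 206) (iqb tp402_c))))))))

/-- all words of the class have labels -/
theorem pokNFyAzAzEyA2Ax3xA2AyEzAzA2F : POK 206 xNFyAzAzEyA2Ax3xA2AyEzAzA2F :=
  y_pok (C0 := ceNFyAzAzEyA2Ax3xA2AyEzAzA2F) (C1 := coNFyAzAzEyA2Ax3xA2AyEzAzA2F) topNFyAzAzEyA2Ax3xA2AyEzAzA2F nbNFyAzAzEyA2Ax3xA2AyEzAzA2F (BT.Fa_of_all iiNFyAzAzEyA2Ax3xA2AyEzAzA2F_c)
    (cyE_spec zeNFyAzAzEyA2Ax3xA2AyEzAzA2F_0)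
    (cyO_spec zoNFyAzAzEyA2Ax3xA2AyEzAzA2F_0)
    iiNFyAzAzEyA2Ax3xA2AyEzAzA2F_k

theorem iiNFyAzAzEyA2Ax3xA2AyEzAzAyF_k : iiNFyAzAzEyA2Ax3xA2AyEzAzAyF.Fa (Itm.ok 206) := (BT.Fa_mk (BT.Fa_mk (BT.Fa_mk (BT.Fa_mk (BT.Fa_mk (BT.Fa_mk (BT.Fa_mk (BT.Fa_mk (BT.Fa_leaf (P := Itm.ok 206) (iqf tp946_c)) (BT.Fa_leaf (P := Itm.ok 206) (iqf tp368_c))) (BT.Fa_leaf (P := Itm.ok 206) (iqb tp368_c))) (BT.Fa_mk (BT.Fa_leaf (P := Itm.ok 206) (iqf tp319_c)) (BT.Fa_leaf (P := Itm.ok 206) (iqf tp1088_c)))) (BT.Fa_mk (BT.Fa_mk (BT.Fa_mk (BT.Fa_leaf (P := Itm.ok 206) (iqb tp320_c)) (BT.Fa_leaf (P := Itm.ok 206) (iqf tp292_c))) (BT.Fa_leaf (P := Itm.ok 206) (iqb tp324_c))) (BT.Fa_mk (BT.Fa_leaf (P := Itm.ok 206) (iqf tp1085_c)) (BT.Fa_leaf (P := Itm.ok 206) (iqf tp326_c))))) (BT.Fa_mk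 (BT.Fa_mk (BT.Fa_mk (BT.Fa_mk (BT.Fa_leaf (P := Itm.ok 206) (iqb tp326_c)) (BT.Fa_leaf (P := Itm.ok 206) (iqf tp1089_c))) (BT.Fa_leaf (P := Itm.ok 206) (iqb tp670_c))) (BT.Fa_mk (BT.Fa_leaf (P := Itm.ok 206) (iqf tp961_c)) (BT.Fa_leaf (P := Itm.ok 206) (iqb tp961_c)))) (BT.Fa_mk (BT.Fa_mk (BT.Fa_mk (BT.Fa_leaf (P := Itm.ok 206) (iqb tp426_c)) (BT.Fa_leaf (P := Itm.ok 206) (iqf tp484_c))) (BT.Fa_leaf (P := Itm.ok 206) (iqb tp484_c))) (BT.Fa_mk (BT.Fa_leaf (P := Itm.ok 206) (iqf tp511_c)) (BT.Fa_leaf (P := Itm.ok 206) (iqf tp602_c)))))) (BT.Fa_mk (BT.Fa_mk (BT.Fa_mk (BT.Fa_mk (BT.Fa_mk (BT.Fa_leaf (P := Itm.ok 206) (iqf tp334_c)) (BT.Fa_leaf (P := Itm.ok 206) (iqb tp334_c))) (BT.Fa_leaf (P := Itm.ok 206) (iqf tp698_c))) (BT.Fa_mk (BT.Fa_leaf (P := Itm.ok 206)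 (iqb tp397_c)) (BT.Fa_leaf (P := Itm.ok 206) (iqf tp490_c)))) (BT.Fa_mk (BT.Fa_mk (BT.Fa_mk (BT.Fa_leaf (P := Itm.ok 206) (iqf tp378_c)) (BT.Fa_leaf (P := Itm.ok 206) (iqf tp341_c))) (BT.Fa_leaf (P := Itm.ok 206) (iqb tp341_c))) (BT.Fa_mk (BT.Fa_leaf (P := Itm.ok 206) (iqf tp342_c)) (BT.Fa_leaf (P := Itm.ok 206) (iqb tp342_c))))) (BT.Fa_mk (BT.Fa_mk (BT.Fa_mk (BT.Fa_mk (BT.Fa_leaf (P := Itm.ok 206) (iqf tp850_c)) (BT.Fa_leaf (P := Itm.ok 206) (iqb tp530_c))) (BT.Fa_leaf (P := Itm.ok 206) (iqf tp1090_c))) (BT.Fa_mk (BT.Fa_leaf (P := Itm.ok 206) (iqf tp399_c)) (BT.Fa_leaf (P := Itm.ok 206) (iqb tp399_c)))) (BT.Fa_mk (BT.Fa_mk (BT.Fa_mk (BT.Fa_leaf (P := Itm.ok 206) (iqf tp514_c)) (BT.Fa_leaf (P := Itm.ok 206) (iqb tp299_c))) (BT.Fa_leaf (P := Itm.ok 206) (iqb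 tp533_c))) (BT.Fa_mk (BT.Fa_leaf (P := Itm.ok 206) (iqb tp535_c)) (BT.Fa_leaf (P := Itm.ok 206) (iqb tp550_c))))))) (BT.Fa_mk (BT.Fa_mk (BT.Fa_mk (BT.Fa_mk (BT.Fa_mk (BT.Fa_mk (BT.Fa_leaf (P := Itm.ok 206) (iqf tp494_c)) (BT.Fa_leaf (P := Itm.ok 206) (iqb tp531_c))) (BT.Fa_leaf (P := Itm.ok 206) (iqf tp447_c))) (BT.Fa_mk (BT.Fa_leaf (P := Itm.ok 206) (iqb tp447_c)) (BT.Fa_leaf (P := Itm.ok 206) (iqf tp525_c)))) (BT.Fa_mk (BT.Fa_mk (BT.Fa_mk (BT.Fa_leaf (P := Itm.ok 206) (iqb tp525_c)) (BT.Fa_leaf (P := Itm.ok 206) (iqf tp524_c))) (BT.Fa_leaf (P := Itm.ok 206) (iqf tp403_c))) (BT.Fa_mk (BT.Fa_leaf (P := Itm.ok 206) (iqb tp403_c)) (BT.Fa_leaf (P := Itm.ok 206) (iqb tp1080_c))))) (BT.Fa_mk (BT.Fa_mk (BT.Fa_mk (BT.Fa_mk (BT.Fa_leaf (P := Itm.ok 206) (iqf tp499_c))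 (BT.Fa_leaf (P := Itm.ok 206) (iqb tp500_c))) (BT.Fa_leaf (P := Itm.ok 206) (iqb tp1091_c))) (BT.Fa_mk (BT.Fa_leaf (P := Itm.ok 206) (iqf tp502_c)) (BT.Fa_leaf (P := Itm.ok 206) (iqf tp536_c)))) (BT.Fa_mk (BT.Fa_mk (BT.Fa_mk (BT.Fa_leaf (P := Itm.ok 206) (iqb tp558_c)) (BT.Fa_leaf (P := Itm.ok 206) (iqf tp312_c))) (BT.Fa_leaf (P := Itm.ok 206) (iqf tp405_c))) (BT.Fa_mk (BT.Fa_leaf (P := Itm.ok 206) (iqb tp554_c)) (BT.Fa_leaf (P := Itm.ok 206) (iqf tp563_c)))))) (BT.Fa_mk (BT.Fa_mk (BT.Fa_mk (BT.Fa_mk (BT.Fa_mk (BT.Fa_leaf (P := Itm.ok 206) (iqb tp1092_c)) (BT.Fa_leaf (P := Itm.ok 206) (iqb tp559_c))) (BT.Fa_leaf (P := Itm.ok 206) (iqf tp678_c))) (BT.Fa_mk (BT.Fa_leaf (P := Itm.ok 206) (iqf tp534_c)) (BT.Fa_leaf (P := Itm.ok 206) (iqb tp546_c)))) (BT.Fa_mk (BT.Fa_mk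 (BT.Fa_mk (BT.Fa_leaf (P := Itm.ok 206) (iqb tp477_c)) (BT.Fa_leaf (P := Itm.ok 206) (iqf tp350_c))) (BT.Fa_leaf (P := Itm.ok 206) (iqf tp351_c))) (BT.Fa_mk (BT.Fa_leaf (P := Itm.ok 206) (iqf tp450_c)) (BT.Fa_leaf (P := Itm.ok 206) (iqf tp528_c))))) (BT.Fa_mk (BT.Fa_mk (BT.Fa_mk (BT.Fa_mk (BT.Fa_leaf (P := Itm.ok 206) (iqf tp356_c)) (BT.Fa_leaf (P := Itm.ok 206) (iqb tp555_c))) (BT.Fa_leaf (P := Itm.ok 206) (iqb tp371_c))) (BT.Fa_mk (BT.Fa_leaf (P := Itm.ok 206) (iqb tp507_c)) (BT.Fa_leaf (P := Itm.ok 206) (iqb tp1093_c)))) (BT.Fa_mk (BT.Fa_mk (BT.Fa_mk (BT.Fa_leaf (P := Itm.ok 206) (iqf tp551_c)) (BT.Fa_leaf (P := Itm.ok 206) (iqb tp538_c))) (BT.Fa_leaf (P := Itm.ok 206) (iqb tp359_c))) (BT.Fa_mk (BT.Fa_leaf (P := Itm.ok 206) (iqb tp361_c)) (BT.Fa_leaf (P :=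 Itm.ok 206) (iqf tp364_c)))))))) (BT.Fa_mk (BT.Fa_mk (BT.Fa_mk (BT.Fa_mk (BT.Fa_mk (BT.Fa_mk (BT.Fa_mk (BT.Fa_leaf (P := Itm.ok 206) (iqb tp364_c)) (BT.Fa_leaf (P := Itm.ok 206) (iqf tp542_c))) (BT.Fa_leaf (P := Itm.ok 206) (iqb tp542_c))) (BT.Fa_mk (BT.Fa_leaf (P := Itm.ok 206) (iqf tp509_c)) (BT.Fa_leaf (P := Itm.ok 206) (iqb tp366_c)))) (BT.Fa_mk (BT.Fa_mk (BT.Fa_mk (BT.Fa_leaf (P := Itm.ok 206) (iqf tp596_c)) (BT.Fa_leaf (P := Itm.ok 206) (iqf tp1094_c))) (BT.Fa_leaf (P := Itm.ok 206) (iqf tp1095_c))) (BT.Fa_mk (BT.Fa_leaf (P := Itm.ok 206) (iqb tp490_c)) (BT.Fa_leaf (P := Itm.ok 206) (iqb tp1096_c))))) (BT.Fa_mk (BT.Fa_mk (BT.Fa_mk (BT.Fa_mk (BT.Fa_leaf (P := Itm.ok 206) (iqf tp529_c)) (BT.Fa_leaf (P := Itm.ok 206) (iqb tp1097_c))) (BT.Fa_leaf (P := Itm.ok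 206) (iqf tp1098_c))) (BT.Fa_mk (BT.Fa_leaf (P := Itm.ok 206) (iqb tp489_c)) (BT.Fa_leaf (P := Itm.ok 206) (iqb tp532_c)))) (BT.Fa_mk (BT.Fa_mk (BT.Fa_mk (BT.Fa_leaf (P := Itm.ok 206) (iqf tp557_c)) (BT.Fa_leaf (P := Itm.ok 206) (iqf tp547_c))) (BT.Fa_leaf (P := Itm.ok 206) (iqf tp504_c))) (BT.Fa_mk (BT.Fa_leaf (P := Itm.ok 206) (iqb tp1099_c)) (BT.Fa_leaf (P := Itm.ok 206) (iqb tp508_c)))))) (BT.Fa_mk (BT.Fa_mk (BT.Fa_mk (BT.Fa_mk (BT.Fa_mk (BT.Fa_leaf (P := Itm.ok 206) (iqf tp348_c)) (BT.Fa_leaf (P := Itm.ok 206) (iqb tp372_c))) (BT.Fa_leaf (P := Itm.ok 206) (iqf tp347_c))) (BT.Fa_mk (BT.Fa_leaf (P := Itm.ok 206) (iqb tp360_c)) (BT.Fa_leaf (P := Itm.ok 206) (iqf tp386_c)))) (BT.Fa_mk (BT.Fa_mk (BT.Fa_mk (BT.Fa_leaf (P := Itm.ok 206) (iqb tp1100_c)) (BT.Fa_leaf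 (P := Itm.ok 206) (iqf tp361_c))) (BT.Fa_leaf (P := Itm.ok 206) (iqf tp1101_c))) (BT.Fa_mk (BT.Fa_leaf (P := Itm.ok 206) (iqf tp375_c)) (BT.Fa_leaf (P := Itm.ok 206) (iqb tp553_c))))) (BT.Fa_mk (BT.Fa_mk (BT.Fa_mk (BT.Fa_mk (BT.Fa_leaf (P := Itm.ok 206) (iqb tp340_c)) (BT.Fa_leaf (P := Itm.ok 206) (iqf tp1102_c))) (BT.Fa_leaf (P := Itm.ok 206) (iqb tp1103_c))) (BT.Fa_mk (BT.Fa_leaf (P := Itm.ok 206) (iqf tp533_c)) (BT.Fa_leaf (P := Itm.ok 206) (iqf tp948_c)))) (BT.Fa_mk (BT.Fa_mk (BT.Fa_mk (BT.Fa_leaf (P := Itm.ok 206) (iqb tp509_c)) (BT.Fa_leaf (P := Itm.ok 206) (iqf tp789_c))) (BT.Fa_leaf (P := Itm.ok 206) (iqf tp321_c))) (BT.Fa_mk (BT.Fa_leaf (P := Itm.ok 206) (iqf tp604_c)) (BT.Fa_leaf (P := Itm.ok 206) (iqf tp1104_c))))))) (BT.Fa_mk (BT.Fa_mk (BT.Fa_mk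 (BT.Fa_mk (BT.Fa_mk (BT.Fa_mk (BT.Fa_leaf (P := Itm.ok 206) (iqb tp378_c)) (BT.Fa_leaf (P := Itm.ok 206) (iqb tp561_c))) (BT.Fa_leaf (P := Itm.ok 206) (iqf tp404_c))) (BT.Fa_mk (BT.Fa_leaf (P := Itm.ok 206) (iqb tp419_c)) (BT.Fa_leaf (P := Itm.ok 206) (iqb tp1105_c)))) (BT.Fa_mk (BT.Fa_mk (BT.Fa_mk (BT.Fa_leaf (P := Itm.ok 206) (iqb tp562_c)) (BT.Fa_leaf (P := Itm.ok 206) (iqb tp461_c))) (BT.Fa_leaf (P := Itm.ok 206) (iqb tp1106_c))) (BT.Fa_mk (BT.Fa_leaf (P := Itm.ok 206) (iqb tp1107_c)) (BT.Fa_leaf (P := Itm.ok 206) (iqb tp997_c))))) (BT.Fa_mk (BT.Fa_mk (BT.Fa_mk (BT.Fa_mk (BT.Fa_leaf (P := Itm.ok 206) (iqf tp577_c)) (BT.Fa_leaf (P := Itm.ok 206) (iqb tp1108_c))) (BT.Fa_leaf (P := Itm.ok 206) (iqf tp289_c))) (BT.Fa_mk (BT.Fa_leaf (P := Itm.ok 206) (iqb tp568_c))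 (BT.Fa_leaf (P := Itm.ok 206) (iqb tp1109_c)))) (BT.Fa_mk (BT.Fa_mk (BT.Fa_mk (BT.Fa_leaf (P := Itm.ok 206) (iqb tp519_c)) (BT.Fa_leaf (P := Itm.ok 206) (iqb tp614_c))) (BT.Fa_leaf (P := Itm.ok 206) (iqf tp1000_c))) (BT.Fa_mk (BT.Fa_leaf (P := Itm.ok 206) (iqb tp567_c)) (BT.Fa_leaf (P := Itm.ok 206) (iqb tp522_c)))))) (BT.Fa_mk (BT.Fa_mk (BT.Fa_mk (BT.Fa_mk (BT.Fa_mk (BT.Fa_leaf (P := Itm.ok 206) (iqb tp468_c)) (BT.Fa_leaf (P := Itm.ok 206) (iqf tp442_c))) (BT.Fa_leaf (P := Itm.ok 206) (iqb tp1110_c))) (BT.Fa_mk (BT.Fa_leaf (P := Itm.ok 206) (iqb tp616_c)) (BT.Fa_leaf (P := Itm.ok 206) (iqb tp1111_c)))) (BT.Fa_mk (BT.Fa_mk (BT.Fa_mk (BT.Fa_leaf (P := Itm.ok 206) (iqb tp423_c)) (BT.Fa_leaf (P := Itm.ok 206) (iqb tp295_c))) (BT.Fa_leaf (P := Itm.ok 206) (iqf tp377_c)))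 (BT.Fa_mk (BT.Fa_leaf (P := Itm.ok 206) (iqb tp445_c)) (BT.Fa_leaf (P := Itm.ok 206) (iqf tp488_c))))) (BT.Fa_mk (BT.Fa_mk (BT.Fa_mk (BT.Fa_mk (BT.Fa_leaf (P := Itm.ok 206) (iqb tp727_c)) (BT.Fa_leaf (P := Itm.ok 206) (iqf tp573_c))) (BT.Fa_leaf (P := Itm.ok 206) (iqf tp296_c))) (BT.Fa_mk (BT.Fa_leaf (P := Itm.ok 206) (iqb tp1017_c)) (BT.Fa_leaf (P := Itm.ok 206) (iqb tp517_c)))) (BT.Fa_mk (BT.Fa_mk (BT.Fa_mk (BT.Fa_leaf (P := Itm.ok 206) (iqb tp565_c)) (BT.Fa_leaf (P := Itm.ok 206) (iqb tp1112_c))) (BT.Fa_leaf (P := Itm.ok 206) (iqf tp1113_c))) (BT.Fa_mk (BT.Fa_leaf (P := Itm.ok 206) (iqb tp1114_c)) (BT.Fa_leaf (P := Itm.ok 206) (iqb tp1115_c)))))))))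

/-- all words of the class have labels -/
theorem pokNFyAzAzEyA2Ax3xA2AyEzAzAyF : POK 206 xNFyAzAzEyA2Ax3xA2AyEzAzAyF :=
  y_pok (C0 := ceNFyAzAzEyA2Ax3xA2AyEzAzAyF) (C1 := coNFyAzAzEyA2Ax3xA2AyEzAzAyF) topNFyAzAzEyA2Ax3xA2AyEzAzAyF nbNFyAzAzEyA2Ax3xA2AyEzAzAyF (BT.Fa_of_all iiNFyAzAzEyA2Ax3xA2AyEzAzAyF_c)
    (cyE_spec zeNFyAzAzEyA2Ax3xA2AyEzAzAyF_0)
    (cyO_spec zoNFyAzAzEyA2Ax3xA2AyEzAzAyF_0)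
    iiNFyAzAzEyA2Ax3xA2AyEzAzAyF_k


end MPb6P
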