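import Pool.Agent.Lib.MP_b6d339_lc.Cw.YFyAzE2A2Ax3xA2AyEzAyF
import Pool.Agent.Lib.MP_b6d339_lc.Cw.XL
import Pool.Agent.Lib.MP_b6d339_lc.Cw.T10
import Pool.Agent.Lib.MP_b6d339_lc.Cw.T11
import Pool.Agent.Lib.MP_b6d339_lc.Cw.T12
import Pool.Agent.Lib.MP_b6d339_lc.Cw.T13
import Pool.Agent.Lib.MP_b6d339_lc.Cw.T14
import Pool.Agent.Lib.MP_b6d339_lc.Cw.T15
import Pool.Agent.Lib.MP_b6d339_lc.Cw.T16
import Pool.Agent.Lib.MP_b6d339_lc.Cw.T3
import Pool.Agent.Lib.MP_b6d339_lc.Cw.T4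
import Pool.Agent.Lib.MP_b6d339_lc.Cw.T5
import Pool.Agent.Lib.MP_b6d339_lc.Cw.T6
import Pool.Agent.Lib.MP_b6d339_lc.Cw.T7
import Pool.Agent.Lib.MP_b6d339_lc.Cw.T8
import Pool.Agent.Lib.MP_b6d339_lc.Cw.T9

/-!
# Erdős 592, three levels: items
-/

namespace MPb6P

noncomputable def iiNFyAzE2A2Ax3xA2AyEzAyF : BT Itm := (.node (.node (.node (.node (.node (.node (.node (.node (.node (.leaf (.bwd 0 23 tp292.df)) (.leaf (.bwd 23 46 tp632.df))) (.leaf (.fwd 69 11 tp290.df))) (.node (.leaf (.fwd 80 23 tp366.df)) (.leaf (.bwd 103 37 tp1278.df)))) (.node (.node (.leaf (.fwd 140 35 tp444.df)) (.leaf (.fwd 175 37 tp1278.df))) (.node (.leaf (.fwd 212 48 tp375.df)) (.leaf (.bwd 260 28 tp342.df))))) (.node (.node (.node (.leaf (.bwd 288 34 tp501.df)) (.leaf (.bwd 322 36 tp1090.df))) (.node (.leaf (.bwd 358 25 tp361.df)) (.leaf (.bwd 383 37 tp410.df)))) (.node (.node (.leaf (.bwd 420 41 tp534.df)) (.leaf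 (.bwd 461 35 tp359.df))) (.node (.leaf (.bwd 496 28 tp553.df)) (.leaf (.bwd 524 35 tp1249.df)))))) (.node (.node (.node (.node (.node (.leaf (.fwd 559 28 tp538.df)) (.leaf (.fwd 587 35 tp359.df))) (.leaf (.fwd 622 25 tp361.df))) (.node (.leaf (.bwd 647 23 tp366.df)) (.leaf (.bwd 670 29 tp1129.df)))) (.node (.node (.leaf (.fwd 699 19 tp326.df)) (.leaf (.fwd 718 30 tp1103.df))) (.node (.leaf (.fwd 748 22 tp536.df)) (.leaf (.fwd 770 28 tp342.df))))) (.node (.node (.node (.leaf (.fwd 798 32 tp447.df)) (.leaf (.fwd 830 32 tp984.df))) (.node (.leaf (.fwd 862 32 tp495.df)) (.leaf (.bwd 894 34 tp499.df)))) (.node (.node (.leaf (.fwd 928 29 tp484.df)) (.leaf (.fwd 957 40 tp351.df))) (.node (.leaf (.fwd 997 32 tp533.df)) (.leaf (.fwd 1029 25 tp319.df))))))) (.node (.node (.node (.node (.node (.node (.leaf (.bwd 1054 25 tp1279.df)) (.leaf (.fwd 1079 42 tp775.df))) (.leaf (.fwd 1121 43 tp531.df)))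 (.node (.leaf (.bwd 1164 24 tp589.df)) (.leaf (.fwd 1188 29 tp1280.df)))) (.node (.node (.leaf (.bwd 1217 15 tp577.df)) (.leaf (.fwd 1232 31 tp349.df))) (.node (.leaf (.fwd 1263 41 tp962.df)) (.leaf (.fwd 1304 34 tp1255.df))))) (.node (.node (.node (.leaf (.fwd 1338 20 tp417.df)) (.leaf (.bwd 1358 43 tp529.df))) (.node (.leaf (.fwd 1401 32 tp397.df)) (.leaf (.bwd 1433 37 tp532.df)))) (.node (.node (.leaf (.fwd 1470 27 tp341.df)) (.leaf (.fwd 1497 21 tp699.df))) (.node (.leaf (.fwd 1518 31 tp1281.df)) (.leaf (.bwd 1549 32 tp563.df)))))) (.node (.node (.node (.node (.node (.leaf (.bwd 1581 30 tp571.df)) (.leaf (.fwd 1611 22 tp1282.df))) (.leaf (.fwd 1633 16 tp650.df))) (.node (.leaf (.fwd 1649 29 tp477.df)) (.leaf (.fwd 1678 40 tp1165.df)))) (.node (.node (.leaf (.bwd 1718 33 tp435.df)) (.leaf (.fwd 1751 24 tp1283.df))) (.node (.leaf (.bwd 1775 40 tp351.df)) (.leaf (.fwd 1815 32 tp948.df)))))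 (.node (.node (.node (.leaf (.fwd 1847 22 tp1284.df)) (.leaf (.fwd 1869 23 tp489.df))) (.node (.leaf (.fwd 1892 14 tp1057.df)) (.leaf (.fwd 1906 34 tp494.df)))) (.node (.node (.leaf (.fwd 1940 27 tp1133.df)) (.leaf (.bwd 1967 18 tp566.df))) (.node (.leaf (.bwd 1985 20 tp417.df)) (.leaf (.bwd 2005 23 tp489.df)))))))) (.node (.node (.node (.node (.node (.node (.node (.leaf (.fwd 2028 24 tp978.df)) (.leaf (.fwd 2052 24 tp648.df))) (.leaf (.fwd 2076 21 tp429.df))) (.node (.leaf (.bwd 2097 25 tp488.df)) (.leaf (.bwd 2122 22 tp827.df)))) (.node (.node (.leaf (.bwd 2144 26 tp658.df)) (.leaf (.fwd 2170 20 tp324.df))) (.node (.leaf (.bwd 2190 37 tp525.df)) (.leaf (.fwd 2227 27 tp331.df))))) (.node (.node (.node (.leaf (.bwd 2254 20 tp614.df)) (.leaf (.fwd 2274 19 tp517.df))) (.node (.leaf (.fwd 2293 18 tp300.df)) (.leaf (.fwd 2311 18 tp1285.df)))) (.node (.node (.leaf (.bwd 2329 20 tp324.df))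 (.leaf (.bwd 2349 25 tp596.df))) (.node (.leaf (.bwd 2374 22 tp334.df)) (.leaf (.fwd 2396 29 tp597.df)))))) (.node (.node (.node (.node (.node (.leaf (.bwd 2425 25 tp1139.df)) (.leaf (.fwd 2450 22 tp789.df))) (.leaf (.bwd 2472 35 tp638.df))) (.node (.leaf (.bwd 2507 25 tp1286.df)) (.leaf (.fwd 2532 24 tp589.df)))) (.node (.node (.leaf (.fwd 2556 35 tp1138.df)) (.leaf (.fwd 2591 22 tp378.df))) (.node (.leaf (.fwd 2613 24 tp382.df)) (.leaf (.fwd 2637 19 tp405.df))))) (.node (.node (.node (.leaf (.fwd 2656 23 tp320.df)) (.leaf (.fwd 2679 23 tp755.df))) (.node (.leaf (.fwd 2702 29 tp519.df)) (.leaf (.bwd 2731 18 tp662.df)))) (.node (.node (.leaf (.bwd 2749 36 tp1137.df)) (.leaf (.fwd 2785 49 tp1142.df))) (.node (.leaf (.bwd 2834 27 tp481.df)) (.leaf (.fwd 2861 27 tp1287.df))))))) (.node (.node (.node (.node (.node (.node (.leaf (.bwd 2888 25 tp1288.df)) (.leaf (.bwd 2913 29 tp504.df))) (.leaf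 (.bwd 2942 29 tp1197.df))) (.node (.leaf (.fwd 2971 38 tp965.df)) (.leaf (.fwd 3009 17 tp1151.df)))) (.node (.node (.leaf (.fwd 3026 22 tp527.df)) (.leaf (.bwd 3048 34 tp494.df))) (.node (.leaf (.fwd 3082 40 tp575.df)) (.leaf (.fwd 3122 35 tp1249.df))))) (.node (.node (.node (.leaf (.fwd 3157 32 tp402.df)) (.leaf (.fwd 3189 19 tp404.df))) (.node (.leaf (.fwd 3208 21 tp1140.df)) (.leaf (.bwd 3229 32 tp984.df)))) (.node (.node (.leaf (.fwd 3261 37 tp525.df)) (.leaf (.fwd 3298 23 tp556.df))) (.node (.leaf (.bwd 3321 40 tp1289.df)) (.leaf (.fwd 3361 44 tp1290.df)))))) (.node (.node (.node (.node (.leaf (.fwd 3405 33 tp606.df)) (.leaf (.fwd 3438 37 tp1157.df))) (.node (.leaf (.bwd 3475 29 tp519.df)) (.leaf (.bwd 3504 31 tp530.df)))) (.node (.node (.leaf (.bwd 3535 40 tp575.df)) (.leaf (.fwd 3575 49 tp1291.df))) (.node (.leaf (.fwd 3624 29 tp504.df)) (.leaf (.fwd 3653 24 tp667.df))))) (.node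 (.node (.node (.leaf (.fwd 3677 23 tp565.df)) (.leaf (.fwd 3700 28 tp665.df))) (.node (.leaf (.fwd 3728 30 tp1292.df)) (.leaf (.fwd 3758 30 tp1184.df)))) (.node (.node (.leaf (.fwd 3788 28 tp1293.df)) (.leaf (.fwd 3816 33 tp1173.df))) (.node (.leaf (.fwd 3849 28 tp344.df)) (.leaf (.fwd 3877 26 tp658.df))))))))) (.node (.node (.node (.node (.node (.node (.node (.node (.leaf (.bwd 3903 28 tp344.df)) (.leaf (.fwd 3931 33 tp1163.df))) (.leaf (.bwd 3964 32 tp533.df))) (.node (.leaf (.bwd 3996 42 tp559.df)) (.leaf (.bwd 4038 27 tp1294.df)))) (.node (.node (.leaf (.bwd 4065 23 tp556.df)) (.leaf (.bwd 4088 22 tp1077.df))) (.node (.leaf (.fwd 4110 31 tp907.df)) (.leaf (.bwd 4141 24 tp648.df))))) (.node (.node (.node (.leaf (.fwd 4165 40 tp1289.df)) (.leaf (.fwd 4205 30 tp1065.df))) (.node (.leaf (.bwd 4235 46 tp550.df)) (.leaf (.fwd 4281 47 tp492.df)))) (.node (.node (.leaf (.bwd 4328 46 tp558.df))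 (.leaf (.bwd 4374 41 tp1162.df))) (.node (.leaf (.bwd 4415 36 tp1182.df)) (.leaf (.fwd 4451 31 tp1156.df)))))) (.node (.node (.node (.node (.node (.leaf (.fwd 4482 27 tp1294.df)) (.leaf (.bwd 4509 33 tp1163.df))) (.leaf (.bwd 4542 27 tp1133.df))) (.node (.leaf (.bwd 4569 35 tp1119.df)) (.leaf (.bwd 4604 27 tp341.df)))) (.node (.node (.leaf (.bwd 4631 28 tp578.df)) (.leaf (.bwd 4659 22 tp502.df))) (.node (.leaf (.fwd 4681 27 tp1128.df)) (.leaf (.fwd 4708 28 tp578.df))))) (.node (.node (.node (.leaf (.fwd 4736 28 tp385.df)) (.leaf (.bwd 4764 21 tp1295.df))) (.node (.leaf (.bwd 4785 32 tp1296.df)) (.leaf (.bwd 4817 39 tp678.df)))) (.node (.node (.leaf (.fwd 4856 18 tp1297.df)) (.leaf (.fwd 4874 28 tp1126.df))) (.node (.leaf (.fwd 4902 34 tp501.df)) (.leaf (.bwd 4936 34 tp1298.df))))))) (.node (.node (.node (.node (.node (.node (.leaf (.bwd 4970 31 tp1188.df)) (.leaf (.bwd 5001 37 tp581.df)))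 (.leaf (.fwd 5038 38 tp348.df))) (.node (.leaf (.bwd 5076 29 tp694.df)) (.leaf (.fwd 5105 31 tp1299.df)))) (.node (.node (.leaf (.fwd 5136 46 tp550.df)) (.leaf (.fwd 5182 46 tp1300.df))) (.node (.leaf (.fwd 5228 27 tp1301.df)) (.leaf (.bwd 5255 34 tp1302.df))))) (.node (.node (.node (.leaf (.fwd 5289 34 tp499.df)) (.leaf (.bwd 5323 31 tp386.df))) (.node (.leaf (.bwd 5354 27 tp1269.df)) (.leaf (.bwd 5381 33 tp560.df)))) (.node (.node (.leaf (.bwd 5414 38 tp1303.df)) (.leaf (.bwd 5452 27 tp1301.df))) (.node (.leaf (.bwd 5479 28 tp555.df)) (.leaf (.fwd 5507 46 tp558.df)))))) (.node (.node (.node (.node (.node (.leaf (.fwd 5553 30 tp299.df)) (.leaf (.bwd 5583 30 tp1065.df))) (.leaf (.fwd 5613 24 tp1304.df))) (.node (.leaf (.bwd 5637 30 tp1251.df)) (.leaf (.bwd 5667 39 tp623.df)))) (.node (.node (.leaf (.bwd 5706 24 tp1305.df)) (.leaf (.bwd 5730 28 tp1181.df))) (.node (.leaf (.fwd 5758 26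 tp647.df)) (.leaf (.bwd 5784 26 tp367.df))))) (.node (.node (.node (.leaf (.fwd 5810 22 tp1135.df)) (.leaf (.fwd 5832 31 tp949.df))) (.node (.leaf (.bwd 5863 23 tp565.df)) (.leaf (.bwd 5886 29 tp592.df)))) (.node (.node (.leaf (.bwd 5915 31 tp1191.df)) (.leaf (.fwd 5946 28 tp1193.df))) (.node (.leaf (.fwd 5974 30 tp1306.df)) (.leaf (.bwd 6004 32 tp402.df)))))))) (.node (.node (.node (.node (.node (.node (.node (.leaf (.bwd 6036 33 tp1201.df)) (.leaf (.bwd 6069 18 tp1285.df))) (.leaf (.fwd 6087 29 tp509.df))) (.node (.leaf (.fwd 6116 21 tp1307.df)) (.leaf (.fwd 6137 30 tp571.df)))) (.node (.node (.leaf (.fwd 6167 39 tp1225.df)) (.leaf (.fwd 6206 37 tp1146.df))) (.node (.leaf (.fwd 6243 21 tp741.df)) (.leaf (.fwd 6264 25 tp1196.df))))) (.node (.node (.node (.leaf (.bwd 6289 26 tp365.df)) (.leaf (.fwd 6315 23 tp1308.df))) (.node (.leaf (.fwd 6338 27 tp1130.df)) (.leaf (.fwd 6365 18 tp461.df))))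 (.node (.node (.leaf (.fwd 6383 29 tp1150.df)) (.leaf (.fwd 6412 42 tp1309.df))) (.node (.leaf (.bwd 6454 24 tp897.df)) (.leaf (.fwd 6478 36 tp669.df)))))) (.node (.node (.node (.node (.node (.leaf (.bwd 6514 34 tp380.df)) (.leaf (.bwd 6548 43 tp568.df))) (.leaf (.fwd 6591 35 tp541.df))) (.node (.leaf (.fwd 6626 38 tp1311.df)) (.leaf (.fwd 6664 24 tp693.df)))) (.node (.node (.leaf (.bwd 6688 41 tp1204.df)) (.leaf (.bwd 6729 20 tp737.df))) (.node (.leaf (.fwd 6749 26 tp1312.df)) (.leaf (.bwd 6775 22 tp1313.df))))) (.node (.node (.node (.leaf (.fwd 6797 12 tp1314.df)) (.leaf (.fwd 6809 39 tp682.df))) (.node (.leaf (.bwd 6848 40 tp1166.df)) (.leaf (.fwd 6888 23 tp1315.df)))) (.node (.node (.leaf (.fwd 6911 30 tp1164.df)) (.leaf (.bwd 6941 34 tp642.df))) (.node (.leaf (.fwd 6975 54 tp1114.df)) (.leaf (.bwd 7029 25 tp1026.df))))))) (.node (.node (.node (.node (.node (.node (.leaf (.fwd 7054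 25 tp1316.df)) (.leaf (.fwd 7079 35 tp1317.df))) (.leaf (.bwd 7114 23 tp1318.df))) (.node (.leaf (.fwd 7137 36 tp1319.df)) (.leaf (.fwd 7173 24 tp1320.df)))) (.node (.node (.leaf (.bwd 7197 28 tp1321.df)) (.leaf (.bwd 7225 38 tp1147.df))) (.node (.leaf (.bwd 7263 26 tp1110.df)) (.leaf (.fwd 7289 14 tp1310.df))))) (.node (.node (.node (.leaf (.fwd 7303 33 tp1246.df)) (.leaf (.fwd 7336 20 tp1323.df))) (.node (.leaf (.fwd 7356 22 tp731.df)) (.leaf (.bwd 7378 36 tp641.df)))) (.node (.node (.leaf (.bwd 7414 28 tp1324.df)) (.leaf (.bwd 7442 39 tp1143.df))) (.node (.leaf (.fwd 7481 53 tp1325.df)) (.leaf (.fwd 7534 26 tp1326.df)))))) (.node (.node (.node (.node (.leaf (.fwd 7560 26 tp1327.df)) (.leaf (.bwd 7586 17 tp1328.df))) (.node (.leaf (.bwd 7603 19 tp1329.df)) (.leaf (.bwd 7622 39 tp1330.df)))) (.node (.node (.leaf (.fwd 7661 31 tp1331.df)) (.leaf (.bwd 7692 37 tp1332.df))) (.node (.leaf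 (.bwd 7729 25 tp1333.df)) (.leaf (.bwd 7754 40 tp1165.df))))) (.node (.node (.node (.leaf (.fwd 7794 38 tp1334.df)) (.leaf (.fwd 7832 33 tp986.df))) (.node (.leaf (.bwd 7865 33 tp606.df)) (.leaf (.fwd 7898 29 tp1335.df)))) (.node (.node (.leaf (.bwd 7927 32 tp639.df)) (.leaf (.fwd 7959 31 tp770.df))) (.node (.leaf (.bwd 7990 38 tp1336.df)) (.leaf (.bwd 8028 30 tp1103.df))))))))))

theorem iiNFyAzE2A2Ax3xA2AyEzAyF_c : iiNFyAzE2A2Ax3xA2AyEzAyF.all (itB (ng 54 nnNFyAzE2A2Ax3xA2AyEzAyF)) = true := by decide +kernel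
theorem nbNFyAzE2A2Ax3xA2AyEzAyF : nbB 54 8112 nnNFyAzE2A2Ax3xA2AyEzAyF = true := by decide +kernel
theorem topNFyAzE2A2Ax3xA2AyEzAyF : topY 8112 ttNFyAzE2A2Ax3xA2AyEzAyF ceNFyAzE2A2Ax3xA2AyEzAyF xNFyAzE2A2Ax3xA2AyEzAyF iiNFyAzE2A2Ax3xA2AyEzAyF = true := by decide +kernel

end MPb6P
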