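import Pool.Agent.Lib.MP_b6d339_lc.Cw.YFyAzE2A2Ax3xA2AyEzAzF
import Pool.Agent.Lib.MP_b6d339_lc.Cw.XL
import Pool.Agent.Lib.MP_b6d339_lc.Cw.T10
import Pool.Agent.Lib.MP_b6d339_lc.Cw.T11
import Pool.Agent.Lib.MP_b6d339_lc.Cw.T12
import Pool.Agent.Lib.MP_b6d339_lc.Cw.T13
import Pool.Agent.Lib.MP_b6d339_lc.Cw.T14
import Pool.Agent.Lib.MP_b6d339_lc.Cw.T15
import Pool.Agent.Lib.MP_b6d339_lc.Cw.T16
import Pool.Agent.Lib.MP_b6d339_lc.Cw.T3
import Pool.Agent.Lib.MP_b6d339_lc.Cw.T4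
import Pool.Agent.Lib.MP_b6d339_lc.Cw.T5
import Pool.Agent.Lib.MP_b6d339_lc.Cw.T6
import Pool.Agent.Lib.MP_b6d339_lc.Cw.T7
import Pool.Agent.Lib.MP_b6d339_lc.Cw.T8
import Pool.Agent.Lib.MP_b6d339_lc.Cw.T9

/-!
# Erdős 592, three levels: items
-/

namespace MPb6P

noncomputable def iiNFyAzE2A2Ax3xA2AyEzAzF : BT Itm := (.node (.node (.node (.node (.node (.node (.node (.node (.leaf (.bwd 0 13 tp355.df)) (.leaf (.fwd 13 43 tp524.df))) (.leaf (.fwd 56 55 tp600.df))) (.node (.leaf (.bwd 111 37 tp525.df)) (.leaf (.fwd 148 32 tp447.df)))) (.node (.node (.node (.leaf (.fwd 180 28 tp1126.df)) (.leaf (.fwd 208 23 tp526.df))) (.leaf (.fwd 231 23 tp399.df))) (.node (.leaf (.fwd 254 22 tp527.df)) (.leaf (.fwd 276 32 tp948.df))))) (.node (.node (.node (.node (.leaf (.bwd 308 35 tp403.df)) (.leaf (.fwd 343 28 tp528.df))) (.leaf (.fwd 371 23 tp292.df))) (.node (.leaf (.fwd 394 20 tp324.df)) (.leaf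 (.fwd 414 26 tp647.df)))) (.node (.node (.node (.leaf (.fwd 440 19 tp326.df)) (.leaf (.bwd 459 19 tp326.df))) (.leaf (.bwd 478 20 tp614.df))) (.node (.leaf (.fwd 498 27 tp331.df)) (.leaf (.bwd 525 27 tp331.df)))))) (.node (.node (.node (.node (.node (.leaf (.bwd 552 45 tp490.df)) (.leaf (.fwd 597 29 tp477.df))) (.leaf (.fwd 626 43 tp529.df))) (.node (.leaf (.fwd 669 26 tp514.df)) (.leaf (.fwd 695 28 tp342.df)))) (.node (.node (.node (.leaf (.fwd 723 22 tp334.df)) (.leaf (.bwd 745 22 tp334.df))) (.leaf (.fwd 767 32 tp368.df))) (.node (.leaf (.bwd 799 32 tp984.df)) (.leaf (.fwd 831 26 tp367.df))))) (.node (.node (.node (.node (.leaf (.bwd 857 31 tp949.df)) (.leaf (.bwd 888 31 tp530.df))) (.leaf (.bwd 919 23 tp489.df))) (.node (.leaf (.fwd 942 30 tp698.df)) (.leaf (.fwd 972 27 tp341.df)))) (.node (.node (.node (.leaf (.bwd 999 27 tp341.df)) (.leaf (.fwd 1026 28 tp344.df))) (.leaf (.bwd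 1054 43 tp531.df))) (.node (.leaf (.fwd 1097 25 tp319.df)) (.leaf (.fwd 1122 19 tp405.df))))))) (.node (.node (.node (.node (.node (.node (.leaf (.fwd 1141 19 tp404.df)) (.leaf (.fwd 1160 37 tp1157.df))) (.leaf (.fwd 1197 22 tp378.df))) (.node (.leaf (.bwd 1219 40 tp351.df)) (.leaf (.bwd 1259 37 tp532.df)))) (.node (.node (.node (.leaf (.fwd 1296 29 tp484.df)) (.leaf (.bwd 1325 29 tp484.df))) (.leaf (.fwd 1354 46 tp552.df))) (.node (.leaf (.fwd 1400 32 tp533.df)) (.leaf (.bwd 1432 32 tp533.df))))) (.node (.node (.node (.node (.leaf (.fwd 1464 27 tp510.df)) (.leaf (.bwd 1491 28 tp553.df))) (.leaf (.bwd 1519 29 tp519.df))) (.node (.leaf (.fwd 1548 28 tp578.df)) (.leaf (.bwd 1576 37 tp372.df)))) (.node (.node (.node (.leaf (.fwd 1613 42 tp775.df)) (.leaf (.bwd 1655 23 tp565.df))) (.leaf (.fwd 1678 24 tp589.df))) (.node (.leaf (.fwd 1702 38 tp356.df)) (.leaf (.fwd 1740 41 tp534.df))))))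 (.node (.node (.node (.node (.node (.leaf (.bwd 1781 24 tp810.df)) (.leaf (.fwd 1805 22 tp536.df))) (.leaf (.fwd 1827 38 tp348.df))) (.node (.leaf (.fwd 1865 47 tp492.df)) (.leaf (.bwd 1912 32 tp569.df)))) (.node (.node (.node (.leaf (.bwd 1944 24 tp354.df)) (.leaf (.bwd 1968 30 tp1252.df))) (.leaf (.bwd 1998 35 tp1253.df))) (.node (.leaf (.fwd 2033 48 tp375.df)) (.leaf (.bwd 2081 36 tp1043.df))))) (.node (.node (.node (.node (.leaf (.fwd 2117 36 tp350.df)) (.leaf (.bwd 2153 15 tp577.df))) (.leaf (.fwd 2168 25 tp361.df))) (.node (.leaf (.bwd 2193 25 tp361.df)) (.leaf (.fwd 2218 44 tp364.df)))) (.node (.node (.leaf (.bwd 2262 14 tp653.df)) (.leaf (.bwd 2276 35 tp690.df))) (.node (.leaf (.fwd 2311 25 tp312.df)) (.leaf (.fwd 2336 19 tp401.df)))))))) (.node (.node (.node (.node (.node (.node (.node (.leaf (.fwd 2355 30 tp289.df)) (.leaf (.bwd 2385 25 tp433.df))) (.leaf (.fwd 2410 25 tp347.df)))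 (.node (.leaf (.bwd 2435 35 tp360.df)) (.leaf (.fwd 2470 26 tp365.df)))) (.node (.node (.node (.leaf (.fwd 2496 31 tp386.df)) (.leaf (.bwd 2527 46 tp550.df))) (.leaf (.fwd 2573 39 tp590.df))) (.node (.leaf (.bwd 2612 27 tp1301.df)) (.leaf (.bwd 2639 28 tp555.df))))) (.node (.node (.node (.node (.leaf (.fwd 2667 18 tp1158.df)) (.leaf (.fwd 2685 23 tp366.df))) (.leaf (.bwd 2708 37 tp410.df))) (.node (.leaf (.fwd 2745 36 tp1337.df)) (.leaf (.bwd 2781 34 tp609.df)))) (.node (.node (.node (.leaf (.bwd 2815 46 tp632.df)) (.leaf (.bwd 2861 28 tp395.df))) (.leaf (.bwd 2889 33 tp363.df))) (.node (.leaf (.fwd 2922 26 tp882.df)) (.leaf (.fwd 2948 34 tp494.df)))))) (.node (.node (.node (.node (.node (.leaf (.fwd 2982 27 tp542.df)) (.leaf (.fwd 3009 29 tp509.df))) (.leaf (.bwd 3038 29 tp509.df))) (.node (.leaf (.fwd 3067 28 tp544.df)) (.leaf (.fwd 3095 32 tp563.df)))) (.node (.node (.node (.leaf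 (.bwd 3127 42 tp559.df)) (.leaf (.fwd 3169 32 tp1338.df))) (.leaf (.bwd 3201 28 tp603.df))) (.node (.leaf (.bwd 3229 15 tp595.df)) (.leaf (.fwd 3244 25 tp596.df))))) (.node (.node (.node (.node (.leaf (.bwd 3269 42 tp546.df)) (.leaf (.bwd 3311 23 tp1080.df))) (.leaf (.bwd 3334 27 tp549.df))) (.node (.leaf (.fwd 3361 28 tp1267.df)) (.leaf (.pat 3389 pq97)))) (.node (.node (.leaf (.pat 3429 pq98)) (.leaf (.pat 3471 pq99))) (.node (.leaf (.bwd 3519 18 tp566.df)) (.leaf (.bwd 3537 33 tp1339.df))))))) (.node (.node (.node (.node (.node (.node (.leaf (.fwd 3570 27 tp1133.df)) (.leaf (.fwd 3597 34 tp499.df))) (.leaf (.fwd 3631 34 tp839.df))) (.node (.leaf (.fwd 3665 35 tp1138.df)) (.leaf (.bwd 3700 34 tp501.df)))) (.node (.node (.node (.leaf (.fwd 3734 35 tp1119.df)) (.leaf (.fwd 3769 25 tp610.df))) (.leaf (.fwd 3794 33 tp547.df))) (.node (.leaf (.fwd 3827 40 tp351.df)) (.leaf (.fwd 3867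 37 tp525.df))))) (.node (.node (.node (.node (.leaf (.fwd 3904 24 tp353.df)) (.leaf (.fwd 3928 24 tp411.df))) (.leaf (.fwd 3952 29 tp504.df))) (.node (.leaf (.bwd 3981 30 tp1065.df)) (.leaf (.bwd 4011 46 tp558.df)))) (.node (.node (.node (.leaf (.fwd 4057 25 tp436.df)) (.leaf (.bwd 4082 23 tp426.df))) (.leaf (.fwd 4105 36 tp669.df))) (.node (.leaf (.fwd 4141 50 tp969.df)) (.leaf (.bwd 4191 33 tp1201.df)))))) (.node (.node (.node (.node (.node (.leaf (.fwd 4224 20 tp612.df)) (.leaf (.fwd 4244 30 tp1340.df))) (.leaf (.fwd 4274 51 tp1104.df))) (.node (.leaf (.bwd 4325 23 tp320.df)) (.leaf (.bwd 4348 21 tp424.df)))) (.node (.node (.node (.leaf (.fwd 4369 27 tp604.df)) (.leaf (.bwd 4396 22 tp378.df))) (.leaf (.fwd 4418 28 tp388.df))) (.node (.leaf (.fwd 4446 30 tp571.df)) (.leaf (.bwd 4476 41 tp1107.df))))) (.node (.node (.node (.node (.leaf (.bwd 4517 29 tp452.df)) (.leaf (.fwd 4546 35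 tp444.df))) (.leaf (.bwd 4581 12 tp1049.df))) (.node (.leaf (.fwd 4593 20 tp614.df)) (.leaf (.fwd 4613 43 tp531.df)))) (.node (.node (.leaf (.bwd 4656 18 tp607.df)) (.leaf (.fwd 4674 20 tp1341.df))) (.node (.leaf (.fwd 4694 9 tp943.df)) (.leaf (.bwd 4703 29 tp398.df)))))))))

theorem iiNFyAzE2A2Ax3xA2AyEzAzF_c : iiNFyAzE2A2Ax3xA2AyEzAzF.all (itB (ng 55 nnNFyAzE2A2Ax3xA2AyEzAzF)) = true := by decide +kernel
theorem nbNFyAzE2A2Ax3xA2AyEzAzF : nbB 55 4787 nnNFyAzE2A2Ax3xA2AyEzAzF = true := by decide +kernel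
theorem topNFyAzE2A2Ax3xA2AyEzAzF : topY 4787 ttNFyAzE2A2Ax3xA2AyEzAzF ceNFyAzE2A2Ax3xA2AyEzAzF xNFyAzE2A2Ax3xA2AyEzAzF iiNFyAzE2A2Ax3xA2AyEzAzF = true := by decide +kernel

end MPb6P
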