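import Pool.Agent.Lib.MP_b6d339_lc.Cw.YFyAzE2B3HzB2E3B2E
import Pool.Agent.Lib.MP_b6d339_lc.Cw.XL
import Pool.Agent.Lib.MP_b6d339_lc.Cw.T10
import Pool.Agent.Lib.MP_b6d339_lc.Cw.T13
import Pool.Agent.Lib.MP_b6d339_lc.Cw.T14
import Pool.Agent.Lib.MP_b6d339_lc.Cw.T17
import Pool.Agent.Lib.MP_b6d339_lc.Cw.T18
import Pool.Agent.Lib.MP_b6d339_lc.Cw.T19
import Pool.Agent.Lib.MP_b6d339_lc.Cw.T20
import Pool.Agent.Lib.MP_b6d339_lc.Cw.T21
import Pool.Agent.Lib.MP_b6d339_lc.Cw.T22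
import Pool.Agent.Lib.MP_b6d339_lc.Cw.T24
import Pool.Agent.Lib.MP_b6d339_lc.Cw.T25
import Pool.Agent.Lib.MP_b6d339_lc.Cw.T26
import Pool.Agent.Lib.MP_b6d339_lc.Cw.T27
import Pool.Agent.Lib.MP_b6d339_lc.Cw.T28
import Pool.Agent.Lib.MP_b6d339_lc.Cw.T29
import Pool.Agent.Lib.MP_b6d339_lc.Cw.T3
import Pool.Agent.Lib.MP_b6d339_lc.Cw.T30
import Pool.Agent.Lib.MP_b6d339_lc.Cw.T31
import Pool.Agent.Lib.MP_b6d339_lc.Cw.T32
import Pool.Agent.Lib.MP_b6d339_lc.Cw.T33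
import Pool.Agent.Lib.MP_b6d339_lc.Cw.T36
import Pool.Agent.Lib.MP_b6d339_lc.Cw.T4
import Pool.Agent.Lib.MP_b6d339_lc.Cw.T5
import Pool.Agent.Lib.MP_b6d339_lc.Cw.T6
import Pool.Agent.Lib.MP_b6d339_lc.Cw.T7
import Pool.Agent.Lib.MP_b6d339_lc.Cw.T8
import Pool.Agent.Lib.MP_b6d339_lc.Cw.T9

/-!
# Erdős 592, three levels: items
-/

namespace MPb6P

noncomputable def iiNFyAzE2B3HzB2E3B2E : BT Itm := (.node (.node (.node (.node (.node (.node (.node (.leaf (.fwd 0 23 tp292.df)) (.leaf (.bwd 23 6 tp1576.df))) (.node (.leaf (.bwd 29 21 tp295.df)) (.leaf (.fwd 50 13 tp1771.df)))) (.node (.node (.leaf (.bwd 63 23 tp292.df)) (.leaf (.bwd 86 15 tp1747.df))) (.leaf (.fwd 101 25 tp361.df)))) (.node (.node (.node (.leaf (.bwd 126 25 tp361.df)) (.leaf (.fwd 151 29 tp329.df))) (.node (.leaf (.bwd 180 40 tp1658.df)) (.leaf (.fwd 220 43 tp529.df)))) (.node (.node (.leaf (.bwd 263 13 tp1387.df))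 (.leaf (.fwd 276 23 tp366.df))) (.leaf (.fwd 299 35 tp359.df))))) (.node (.node (.node (.node (.leaf (.fwd 334 31 tp346.df)) (.leaf (.bwd 365 36 tp1182.df))) (.node (.leaf (.bwd 401 28 tp342.df)) (.leaf (.bwd 429 18 tp1995.df)))) (.node (.node (.leaf (.fwd 447 30 tp299.df)) (.leaf (.bwd 477 21 tp656.df))) (.leaf (.fwd 498 18 tp1158.df)))) (.node (.node (.node (.leaf (.fwd 516 32 tp369.df)) (.leaf (.bwd 548 31 tp2050.df))) (.node (.leaf (.fwd 579 17 tp608.df)) (.leaf (.bwd 596 21 tp1388.df)))) (.node (.node (.leaf (.fwd 617 34 tp1664.df)) (.leaf (.bwd 651 22 tp827.df))) (.leaf (.bwd 673 27 tp815.df)))))) (.node (.node (.node (.node (.node (.leaf (.fwd 700 11 tp1768.df)) (.leaf (.bwd 711 26 tp365.df))) (.node (.leaf (.fwd 737 13 tp2459.df)) (.leaf (.bwd 750 20 tp2317.df)))) (.node (.node (.leaf (.bwd 770 24 tp354.df)) (.leaf (.fwd 794 42 tp1468.df))) (.leaf (.bwd 836 13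 tp2459.df)))) (.node (.node (.node (.leaf (.bwd 849 33 tp2131.df)) (.leaf (.fwd 882 19 tp1798.df))) (.node (.leaf (.fwd 901 29 tp694.df)) (.leaf (.fwd 930 40 tp2062.df)))) (.node (.node (.leaf (.fwd 970 25 tp1945.df)) (.leaf (.fwd 995 43 tp1813.df))) (.leaf (.fwd 1038 19 tp2040.df))))) (.node (.node (.node (.node (.leaf (.bwd 1057 21 tp1817.df)) (.leaf (.fwd 1078 33 tp1159.df))) (.node (.leaf (.fwd 1111 24 tp2215.df)) (.leaf (.bwd 1135 16 tp1986.df)))) (.node (.node (.leaf (.bwd 1151 26 tp2417.df)) (.leaf (.fwd 1177 28 tp2052.df))) (.leaf (.bwd 1205 30 tp316.df)))) (.node (.node (.node (.leaf (.fwd 1235 26 tp2470.df)) (.leaf (.fwd 1261 25 tp1994.df))) (.node (.leaf (.fwd 1286 25 tp2449.df)) (.leaf (.bwd 1311 21 tp1793.df)))) (.node (.node (.leaf (.fwd 1332 27 tp2253.df)) (.leaf (.fwd 1359 38 tp2100.df))) (.leaf (.bwd 1397 35 tp619.df))))))) (.node (.node (.node (.node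 (.node (.node (.leaf (.bwd 1432 44 tp2255.df)) (.leaf (.bwd 1476 27 tp2596.df))) (.node (.leaf (.bwd 1503 22 tp2685.df)) (.leaf (.bwd 1525 18 tp1739.df)))) (.node (.node (.leaf (.fwd 1543 15 tp2027.df)) (.leaf (.bwd 1558 15 tp2309.df))) (.leaf (.fwd 1573 19 tp493.df)))) (.node (.node (.node (.leaf (.bwd 1592 19 tp2462.df)) (.leaf (.bwd 1611 40 tp416.df))) (.node (.leaf (.fwd 1651 14 tp2450.df)) (.leaf (.fwd 1665 39 tp2692.df)))) (.node (.node (.leaf (.bwd 1704 28 tp806.df)) (.leaf (.fwd 1732 23 tp2580.df))) (.leaf (.bwd 1755 12 tp1833.df))))) (.node (.node (.node (.node (.leaf (.fwd 1767 23 tp1785.df)) (.leaf (.bwd 1790 32 tp2054.df))) (.node (.leaf (.fwd 1822 40 tp2471.df)) (.leaf (.bwd 1862 28 tp344.df)))) (.node (.node (.leaf (.bwd 1890 44 tp849.df)) (.leaf (.fwd 1934 43 tp2468.df))) (.leaf (.fwd 1977 25 tp1732.df)))) (.node (.node (.node (.leaf (.fwd 2002 29 tp2057.df))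 (.leaf (.bwd 2031 18 tp2422.df))) (.node (.leaf (.fwd 2049 35 tp2590.df)) (.leaf (.bwd 2084 25 tp433.df)))) (.node (.node (.leaf (.bwd 2109 15 tp1787.df)) (.leaf (.bwd 2124 43 tp1776.df))) (.leaf (.fwd 2167 18 tp1821.df)))))) (.node (.node (.node (.node (.node (.leaf (.bwd 2185 16 tp2254.df)) (.leaf (.bwd 2201 29 tp846.df))) (.node (.leaf (.bwd 2230 21 tp2988.df)) (.leaf (.bwd 2251 21 tp1733.df)))) (.node (.node (.leaf (.fwd 2272 20 tp2465.df)) (.leaf (.fwd 2292 21 tp2416.df))) (.leaf (.fwd 2313 24 tp2411.df)))) (.node (.node (.node (.leaf (.fwd 2337 20 tp2119.df)) (.leaf (.fwd 2357 22 tp827.df))) (.node (.leaf (.fwd 2379 36 tp2989.df)) (.leaf (.fwd 2415 20 tp2317.df)))) (.node (.node (.leaf (.fwd 2435 28 tp344.df)) (.leaf (.bwd 2463 23 tp366.df))) (.leaf (.fwd 2486 23 tp322.df))))) (.node (.node (.node (.node (.leaf (.fwd 2509 40 tp1658.df)) (.leaf (.bwd 2549 25 tp1574.df)))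 (.node (.leaf (.fwd 2574 13 tp1387.df)) (.leaf (.fwd 2587 12 tp1803.df)))) (.node (.node (.leaf (.bwd 2599 35 tp359.df)) (.leaf (.fwd 2634 38 tp587.df))) (.leaf (.bwd 2672 35 tp360.df)))) (.node (.node (.node (.leaf (.bwd 2707 27 tp2975.df)) (.leaf (.fwd 2734 28 tp342.df))) (.node (.leaf (.bwd 2762 33 tp2609.df)) (.leaf (.bwd 2795 27 tp1435.df)))) (.node (.node (.leaf (.bwd 2822 21 tp2141.df)) (.leaf (.fwd 2843 47 tp492.df))) (.leaf (.fwd 2890 42 tp1099.df))))))))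

theorem iiNFyAzE2B3HzB2E3B2E_c : iiNFyAzE2B3HzB2E3B2E.all (itB (ng 47 nnNFyAzE2B3HzB2E3B2E)) = true := by decide +kernel
theorem nbNFyAzE2B3HzB2E3B2E : nbB 47 2979 nnNFyAzE2B3HzB2E3B2E = true := by decide +kernel
theorem topNFyAzE2B3HzB2E3B2E : topY 2979 ttNFyAzE2B3HzB2E3B2E ceNFyAzE2B3HzB2E3B2E xNFyAzE2B3HzB2E3B2E iiNFyAzE2B3HzB2E3B2E = true := by decide +kernel

end MPb6P
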