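import Pool.Agent.Lib.MP_b6d339_lc.Cw.YFyAzE2B3HzB2H3E3B2E
import Pool.Agent.Lib.MP_b6d339_lc.Cw.XL
import Pool.Agent.Lib.MP_b6d339_lc.Cw.T10
import Pool.Agent.Lib.MP_b6d339_lc.Cw.T13
import Pool.Agent.Lib.MP_b6d339_lc.Cw.T14
import Pool.Agent.Lib.MP_b6d339_lc.Cw.T17
import Pool.Agent.Lib.MP_b6d339_lc.Cw.T18
import Pool.Agent.Lib.MP_b6d339_lc.Cw.T19
import Pool.Agent.Lib.MP_b6d339_lc.Cw.T20
import Pool.Agent.Lib.MP_b6d339_lc.Cw.T21
import Pool.Agent.Lib.MP_b6d339_lc.Cw.T22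
import Pool.Agent.Lib.MP_b6d339_lc.Cw.T23
import Pool.Agent.Lib.MP_b6d339_lc.Cw.T24
import Pool.Agent.Lib.MP_b6d339_lc.Cw.T25
import Pool.Agent.Lib.MP_b6d339_lc.Cw.T26
import Pool.Agent.Lib.MP_b6d339_lc.Cw.T27
import Pool.Agent.Lib.MP_b6d339_lc.Cw.T28
import Pool.Agent.Lib.MP_b6d339_lc.Cw.T29
import Pool.Agent.Lib.MP_b6d339_lc.Cw.T3
import Pool.Agent.Lib.MP_b6d339_lc.Cw.T30
import Pool.Agent.Lib.MP_b6d339_lc.Cw.T31
import Pool.Agent.Lib.MP_b6d339_lc.Cw.T32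
import Pool.Agent.Lib.MP_b6d339_lc.Cw.T33
import Pool.Agent.Lib.MP_b6d339_lc.Cw.T35
import Pool.Agent.Lib.MP_b6d339_lc.Cw.T36
import Pool.Agent.Lib.MP_b6d339_lc.Cw.T4
import Pool.Agent.Lib.MP_b6d339_lc.Cw.T5
import Pool.Agent.Lib.MP_b6d339_lc.Cw.T6
import Pool.Agent.Lib.MP_b6d339_lc.Cw.T7
import Pool.Agent.Lib.MP_b6d339_lc.Cw.T8

/-!
# Erdős 592, three levels: items
-/

namespace MPb6P

noncomputable def iiNFyAzE2B3HzB2H3E3B2E : BT Itm := (.node (.node (.node (.node (.node (.node (.node (.node (.leaf (.bwd 0 6 tp1576.df)) (.leaf (.fwd 6 23 tp292.df))) (.node (.leaf (.bwd 29 21 tp295.df)) (.leaf (.bwd 50 25 tp361.df)))) (.node (.node (.leaf (.bwd 75 13 tp1387.df)) (.leaf (.fwd 88 25 tp361.df))) (.leaf (.fwd 113 29 tp329.df)))) (.node (.node (.node (.leaf (.fwd 142 23 tp366.df)) (.leaf (.fwd 165 13 tp1771.df))) (.leaf (.fwd 178 31 tp346.df))) (.node (.node (.leaf (.fwd 209 35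 tp359.df)) (.leaf (.bwd 244 9 tp1588.df))) (.leaf (.bwd 253 28 tp342.df))))) (.node (.node (.node (.node (.leaf (.bwd 281 21 tp656.df)) (.leaf (.fwd 302 11 tp1768.df))) (.node (.leaf (.bwd 313 36 tp1182.df)) (.leaf (.fwd 349 27 tp341.df)))) (.node (.node (.leaf (.fwd 376 18 tp1158.df)) (.leaf (.fwd 394 17 tp608.df))) (.leaf (.bwd 411 22 tp827.df)))) (.node (.node (.node (.leaf (.fwd 433 19 tp493.df)) (.leaf (.fwd 452 37 tp1491.df))) (.leaf (.bwd 489 26 tp365.df))) (.node (.node (.leaf (.fwd 515 26 tp514.df)) (.leaf (.bwd 541 20 tp2317.df))) (.leaf (.bwd 561 31 tp2050.df)))))) (.node (.node (.node (.node (.node (.leaf (.fwd 592 35 tp1138.df)) (.leaf (.fwd 627 40 tp2062.df))) (.node (.leaf (.fwd 667 42 tp1468.df)) (.leaf (.fwd 709 38 tp587.df)))) (.node (.node (.leaf (.bwd 747 13 tp2459.df)) (.leaf (.bwd 760 20 tp1774.df))) (.leaf (.bwd 780 18 tp1995.df)))) (.node (.node (.node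 (.leaf (.fwd 798 13 tp2459.df)) (.leaf (.bwd 811 44 tp849.df))) (.leaf (.fwd 855 25 tp1945.df))) (.node (.node (.leaf (.fwd 880 42 tp1099.df)) (.leaf (.bwd 922 23 tp1770.df))) (.leaf (.fwd 945 19 tp2040.df))))) (.node (.node (.node (.node (.leaf (.bwd 964 16 tp1986.df)) (.leaf (.fwd 980 28 tp2052.df))) (.node (.leaf (.fwd 1008 45 tp1795.df)) (.leaf (.bwd 1053 31 tp1888.df)))) (.node (.node (.leaf (.bwd 1084 21 tp1817.df)) (.leaf (.fwd 1105 43 tp2468.df))) (.leaf (.bwd 1148 27 tp2880.df)))) (.node (.node (.node (.leaf (.fwd 1175 49 tp2418.df)) (.leaf (.fwd 1224 40 tp2474.df))) (.leaf (.fwd 1264 33 tp1159.df))) (.node (.node (.leaf (.bwd 1297 22 tp2683.df)) (.leaf (.fwd 1319 26 tp2470.df))) (.leaf (.fwd 1345 21 tp2416.df))))))) (.node (.node (.node (.node (.node (.node (.leaf (.bwd 1366 27 tp2456.df)) (.leaf (.fwd 1393 33 tp1903.df))) (.node (.leaf (.fwd 1426 38 tp2100.df)) (.leaf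 (.bwd 1464 27 tp2596.df)))) (.node (.node (.leaf (.fwd 1491 21 tp1889.df)) (.leaf (.fwd 1512 43 tp1941.df))) (.leaf (.fwd 1555 24 tp2411.df)))) (.node (.node (.node (.leaf (.fwd 1579 40 tp2471.df)) (.leaf (.bwd 1619 24 tp2652.df))) (.leaf (.fwd 1643 27 tp2881.df))) (.node (.node (.leaf (.fwd 1670 30 tp1516.df)) (.leaf (.bwd 1700 45 tp2013.df))) (.leaf (.bwd 1745 15 tp2309.df))))) (.node (.node (.node (.node (.leaf (.bwd 1760 27 tp815.df)) (.leaf (.fwd 1787 15 tp2027.df))) (.node (.leaf (.bwd 1802 26 tp2417.df)) (.leaf (.bwd 1828 20 tp2423.df)))) (.node (.node (.leaf (.fwd 1848 43 tp529.df)) (.leaf (.bwd 1891 17 tp2273.df))) (.leaf (.bwd 1908 25 tp2285.df)))) (.node (.node (.node (.leaf (.fwd 1933 21 tp2431.df)) (.leaf (.bwd 1954 39 tp1613.df))) (.leaf (.bwd 1993 29 tp2034.df))) (.node (.node (.leaf (.fwd 2022 21 tp2882.df)) (.leaf (.bwd 2043 27 tp2691.df))) (.leaf (.fwd 2070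 43 tp1813.df)))))) (.node (.node (.node (.node (.node (.leaf (.bwd 2113 29 tp1908.df)) (.leaf (.bwd 2142 39 tp2037.df))) (.node (.leaf (.fwd 2181 23 tp2580.df)) (.leaf (.fwd 2204 21 tp1654.df)))) (.node (.node (.leaf (.fwd 2225 37 tp2467.df)) (.leaf (.bwd 2262 19 tp2620.df))) (.leaf (.bwd 2281 16 tp2674.df)))) (.node (.node (.node (.leaf (.fwd 2297 28 tp2595.df)) (.leaf (.bwd 2325 27 tp2658.df))) (.leaf (.fwd 2352 14 tp2450.df))) (.node (.node (.leaf (.fwd 2366 19 tp2883.df)) (.leaf (.bwd 2385 20 tp2659.df))) (.leaf (.bwd 2405 20 tp2884.df))))) (.node (.node (.node (.node (.leaf (.fwd 2425 17 tp2661.df)) (.leaf (.fwd 2442 29 tp511.df))) (.leaf (.bwd 2471 19 tp2462.df))) (.node (.node (.leaf (.bwd 2490 33 tp2131.df)) (.leaf (.bwd 2523 37 tp2660.df))) (.leaf (.fwd 2560 32 tp369.df)))) (.node (.node (.node (.leaf (.bwd 2592 10 tp1783.df)) (.leaf (.fwd 2602 36 tp2696.df))) (.leaf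 (.fwd 2638 35 tp2885.df))) (.node (.node (.leaf (.fwd 2673 35 tp2590.df)) (.leaf (.bwd 2708 37 tp2008.df))) (.leaf (.bwd 2745 58 tp1937.df)))))))) (.node (.node (.node (.node (.node (.node (.node (.leaf (.fwd 2803 25 tp1994.df)) (.leaf (.bwd 2828 45 tp2679.df))) (.node (.leaf (.fwd 2873 24 tp2142.df)) (.leaf (.bwd 2897 21 tp1388.df)))) (.node (.node (.leaf (.bwd 2918 12 tp1833.df)) (.leaf (.fwd 2930 18 tp1821.df))) (.leaf (.fwd 2948 27 tp2253.df)))) (.node (.node (.node (.leaf (.fwd 2975 23 tp1785.df)) (.leaf (.fwd 2998 35 tp2886.df))) (.leaf (.fwd 3033 45 tp2139.df))) (.node (.node (.leaf (.fwd 3078 19 tp2439.df)) (.leaf (.fwd 3097 33 tp2667.df))) (.leaf (.bwd 3130 19 tp2887.df))))) (.node (.node (.node (.node (.leaf (.fwd 3149 35 tp2888.df)) (.leaf (.bwd 3184 37 tp532.df))) (.node (.leaf (.bwd 3221 10 tp1781.df)) (.leaf (.bwd 3231 21 tp1733.df)))) (.node (.node (.leaf (.fwd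 3252 25 tp1732.df)) (.leaf (.bwd 3277 39 tp2654.df))) (.leaf (.bwd 3316 25 tp433.df)))) (.node (.node (.node (.leaf (.fwd 3341 17 tp2636.df)) (.leaf (.bwd 3358 53 tp2889.df))) (.leaf (.fwd 3411 31 tp2890.df))) (.node (.node (.leaf (.bwd 3442 44 tp2891.df)) (.leaf (.bwd 3486 43 tp2892.df))) (.leaf (.bwd 3529 29 tp2347.df)))))) (.node (.node (.node (.node (.node (.leaf (.bwd 3558 24 tp2893.df)) (.leaf (.bwd 3582 30 tp2894.df))) (.node (.leaf (.fwd 3612 28 tp2503.df)) (.leaf (.bwd 3640 15 tp1758.df)))) (.node (.node (.leaf (.fwd 3655 49 tp1832.df)) (.leaf (.bwd 3704 31 tp2895.df))) (.leaf (.fwd 3735 58 tp2666.df)))) (.node (.node (.node (.leaf (.fwd 3793 44 tp2669.df)) (.leaf (.bwd 3837 51 tp2665.df))) (.leaf (.bwd 3888 22 tp2650.df))) (.node (.node (.leaf (.fwd 3910 33 tp2896.df)) (.leaf (.fwd 3943 20 tp2119.df))) (.leaf (.fwd 3963 24 tp2897.df))))) (.node (.node (.node (.node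 (.leaf (.bwd 3987 50 tp2898.df)) (.leaf (.fwd 4037 13 tp1387.df))) (.leaf (.bwd 4050 38 tp1947.df))) (.node (.node (.leaf (.fwd 4088 23 tp322.df)) (.leaf (.fwd 4111 30 tp2899.df))) (.leaf (.bwd 4141 41 tp2900.df)))) (.node (.node (.node (.leaf (.fwd 4182 35 tp2485.df)) (.leaf (.fwd 4217 29 tp504.df))) (.leaf (.fwd 4246 21 tp295.df))) (.node (.node (.leaf (.bwd 4267 27 tp1435.df)) (.leaf (.bwd 4294 18 tp2657.df))) (.leaf (.fwd 4312 46 tp2901.df))))))) (.node (.node (.node (.node (.node (.node (.leaf (.bwd 4358 47 tp2902.df)) (.leaf (.fwd 4405 42 tp2903.df))) (.node (.leaf (.bwd 4447 57 tp2904.df)) (.leaf (.fwd 4504 59 tp2905.df)))) (.node (.node (.leaf (.bwd 4563 35 tp2906.df)) (.leaf (.bwd 4598 33 tp2609.df))) (.leaf (.fwd 4631 41 tp2176.df)))) (.node (.node (.node (.leaf (.bwd 4672 42 tp2907.df)) (.leaf (.fwd 4714 50 tp2908.df))) (.leaf (.bwd 4764 29 tp2909.df))) (.node (.node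 (.leaf (.fwd 4793 29 tp2347.df)) (.leaf (.bwd 4822 54 tp2910.df))) (.leaf (.fwd 4876 40 tp1658.df))))) (.node (.node (.node (.node (.leaf (.bwd 4916 23 tp322.df)) (.leaf (.bwd 4939 49 tp2911.df))) (.node (.leaf (.bwd 4988 27 tp2318.df)) (.leaf (.fwd 5015 45 tp2464.df)))) (.node (.node (.leaf (.fwd 5060 49 tp2912.df)) (.leaf (.fwd 5109 31 tp2072.df))) (.leaf (.fwd 5140 32 tp2913.df)))) (.node (.node (.node (.leaf (.fwd 5172 27 tp1961.df)) (.leaf (.bwd 5199 40 tp416.df))) (.leaf (.fwd 5239 14 tp1782.df))) (.node (.node (.leaf (.fwd 5253 30 tp2615.df)) (.leaf (.bwd 5283 46 tp2915.df))) (.leaf (.bwd 5329 36 tp2916.df)))))) (.node (.node (.node (.node (.node (.leaf (.fwd 5365 22 tp2510.df)) (.leaf (.fwd 5387 12 tp1803.df))) (.node (.leaf (.bwd 5399 42 tp1468.df)) (.leaf (.bwd 5441 36 tp2917.df)))) (.node (.node (.leaf (.bwd 5477 58 tp2918.df)) (.leaf (.bwd 5535 48 tp2919.df))) (.leaf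 (.bwd 5583 53 tp2920.df)))) (.node (.node (.node (.leaf (.fwd 5636 36 tp2921.df)) (.leaf (.bwd 5672 28 tp373.df))) (.leaf (.fwd 5700 56 tp2922.df))) (.node (.node (.leaf (.bwd 5756 22 tp451.df)) (.leaf (.bwd 5778 30 tp1911.df))) (.leaf (.fwd 5808 42 tp2923.df))))) (.node (.node (.node (.node (.leaf (.bwd 5850 42 tp2924.df)) (.leaf (.fwd 5892 20 tp2506.df))) (.leaf (.fwd 5912 24 tp2925.df))) (.node (.node (.leaf (.bwd 5936 49 tp2926.df)) (.leaf (.bwd 5985 32 tp2927.df))) (.leaf (.bwd 6017 40 tp2928.df)))) (.node (.node (.node (.leaf (.bwd 6057 41 tp2929.df)) (.leaf (.fwd 6098 52 tp2930.df))) (.leaf (.fwd 6150 22 tp2512.df))) (.node (.node (.leaf (.bwd 6172 62 tp2931.df)) (.leaf (.fwd 6234 35 tp2307.df))) (.leaf (.bwd 6269 22 tp2512.df)))))))))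

theorem iiNFyAzE2B3HzB2H3E3B2E_c : iiNFyAzE2B3HzB2H3E3B2E.all (itB (ng 62 nnNFyAzE2B3HzB2H3E3B2E)) = true := by decide +kernel
theorem nbNFyAzE2B3HzB2H3E3B2E : nbB 62 6353 nnNFyAzE2B3HzB2H3E3B2E = true := by decide +kernel
theorem topNFyAzE2B3HzB2H3E3B2E : topY 6353 ttNFyAzE2B3HzB2H3E3B2E ceNFyAzE2B3HzB2H3E3B2E xNFyAzE2B3HzB2H3E3B2E iiNFyAzE2B3HzB2H3E3B2E = true := by decide +kernel

end MPb6P
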