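import Pool.Agent.Lib.MP_b6d339_lc.Cw.YFyAzEyA2Ax3xA2A2EzAzF
import Pool.Agent.Lib.MP_b6d339_lc.Cw.XL
import Pool.Agent.Lib.MP_b6d339_lc.Cw.T10
import Pool.Agent.Lib.MP_b6d339_lc.Cw.T11
import Pool.Agent.Lib.MP_b6d339_lc.Cw.T12
import Pool.Agent.Lib.MP_b6d339_lc.Cw.T13
import Pool.Agent.Lib.MP_b6d339_lc.Cw.T14
import Pool.Agent.Lib.MP_b6d339_lc.Cw.T15
import Pool.Agent.Lib.MP_b6d339_lc.Cw.T16
import Pool.Agent.Lib.MP_b6d339_lc.Cw.T3
import Pool.Agent.Lib.MP_b6d339_lc.Cw.T4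
import Pool.Agent.Lib.MP_b6d339_lc.Cw.T5
import Pool.Agent.Lib.MP_b6d339_lc.Cw.T6
import Pool.Agent.Lib.MP_b6d339_lc.Cw.T7
import Pool.Agent.Lib.MP_b6d339_lc.Cw.T8
import Pool.Agent.Lib.MP_b6d339_lc.Cw.T9

/-!
# Erdős 592, three levels: items
-/

namespace MPb6P

noncomputable def iiNFyAzEyA2Ax3xA2A2EzAzF : BT Itm := (.node (.node (.node (.node (.node (.node (.node (.node (.leaf (.fwd 0 43 tp524.df)) (.leaf (.fwd 43 37 tp525.df))) (.node (.leaf (.bwd 80 37 tp525.df)) (.leaf (.bwd 117 32 tp447.df)))) (.node (.node (.leaf (.bwd 149 28 tp1126.df)) (.leaf (.bwd 177 21 tp295.df))) (.node (.leaf (.fwd 198 23 tp526.df)) (.leaf (.fwd 221 23 tp399.df))))) (.node (.node (.node (.leaf (.bwd 244 37 tp1116.df)) (.leaf (.bwd 281 19 tp371.df))) (.node (.leaf (.fwd 300 34 tp505.df)) (.leaf (.bwd 334 35 tp403.df)))) (.node (.node (.leaf (.fwd 369 28 tp528.df)) (.leaf (.fwd 397 23 tp292.df))) (.leaf (.fwd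 420 20 tp324.df))))) (.node (.node (.node (.node (.leaf (.fwd 440 26 tp647.df)) (.leaf (.fwd 466 19 tp326.df))) (.node (.leaf (.fwd 485 35 tp1138.df)) (.leaf (.bwd 520 27 tp331.df)))) (.node (.node (.leaf (.bwd 547 25 tp1250.df)) (.leaf (.bwd 572 45 tp490.df))) (.node (.leaf (.bwd 617 24 tp332.df)) (.leaf (.bwd 641 29 tp477.df))))) (.node (.node (.node (.leaf (.fwd 670 43 tp529.df)) (.leaf (.fwd 713 26 tp514.df))) (.node (.leaf (.fwd 739 28 tp342.df)) (.leaf (.bwd 767 28 tp342.df)))) (.node (.node (.leaf (.fwd 795 25 tp488.df)) (.leaf (.bwd 820 22 tp334.df))) (.leaf (.fwd 842 32 tp368.df)))))) (.node (.node (.node (.node (.node (.leaf (.bwd 874 32 tp984.df)) (.leaf (.fwd 906 26 tp367.df))) (.node (.leaf (.bwd 932 31 tp949.df)) (.leaf (.fwd 963 27 tp341.df)))) (.node (.node (.leaf (.bwd 990 27 tp341.df)) (.leaf (.bwd 1017 43 tp531.df))) (.node (.leaf (.bwd 1060 25 tp319.df)) (.leaf (.fwd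 1085 19 tp405.df))))) (.node (.node (.node (.leaf (.bwd 1104 37 tp1157.df)) (.leaf (.bwd 1141 22 tp378.df))) (.node (.leaf (.fwd 1163 33 tp1342.df)) (.leaf (.bwd 1196 40 tp351.df)))) (.node (.node (.leaf (.bwd 1236 37 tp532.df)) (.leaf (.fwd 1273 29 tp484.df))) (.leaf (.bwd 1302 29 tp484.df))))) (.node (.node (.node (.node (.leaf (.fwd 1331 46 tp552.df)) (.leaf (.fwd 1377 32 tp533.df))) (.node (.leaf (.bwd 1409 32 tp533.df)) (.leaf (.fwd 1441 27 tp510.df)))) (.node (.node (.leaf (.bwd 1468 29 tp519.df)) (.leaf (.bwd 1497 37 tp372.df))) (.leaf (.bwd 1534 31 tp349.df)))) (.node (.node (.node (.leaf (.bwd 1565 32 tp402.df)) (.leaf (.fwd 1597 34 tp499.df))) (.node (.leaf (.fwd 1631 30 tp1065.df)) (.leaf (.bwd 1661 30 tp1065.df)))) (.node (.node (.leaf (.fwd 1691 24 tp589.df)) (.leaf (.fwd 1715 38 tp356.df))) (.leaf (.fwd 1753 41 tp534.df))))))) (.node (.node (.node (.node (.node (.node (.leaf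 (.bwd 1794 46 tp558.df)) (.leaf (.fwd 1840 29 tp504.df))) (.node (.leaf (.fwd 1869 27 tp1133.df)) (.leaf (.bwd 1896 34 tp855.df)))) (.node (.node (.leaf (.bwd 1930 24 tp810.df)) (.leaf (.fwd 1954 39 tp853.df))) (.node (.leaf (.bwd 1993 34 tp535.df)) (.leaf (.fwd 2027 22 tp502.df))))) (.node (.node (.node (.leaf (.fwd 2049 40 tp784.df)) (.leaf (.bwd 2089 28 tp385.df))) (.node (.leaf (.fwd 2117 22 tp536.df)) (.leaf (.fwd 2139 31 tp850.df)))) (.node (.node (.leaf (.bwd 2170 31 tp850.df)) (.leaf (.bwd 2201 23 tp556.df))) (.leaf (.bwd 2224 35 tp1253.df))))) (.node (.node (.node (.node (.leaf (.fwd 2259 48 tp375.df)) (.leaf (.fwd 2307 36 tp350.df))) (.node (.leaf (.bwd 2343 28 tp538.df)) (.leaf (.bwd 2371 25 tp361.df)))) (.node (.node (.leaf (.fwd 2396 44 tp364.df)) (.leaf (.bwd 2440 18 tp507.df))) (.leaf (.bwd 2458 19 tp327.df)))) (.node (.node (.node (.leaf (.fwd 2477 23 tp335.df)) (.leaf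 (.bwd 2500 29 tp939.df))) (.node (.leaf (.fwd 2529 19 tp401.df)) (.leaf (.fwd 2548 30 tp289.df)))) (.node (.node (.leaf (.bwd 2578 30 tp289.df)) (.leaf (.fwd 2608 28 tp388.df))) (.leaf (.fwd 2636 25 tp347.df)))))) (.node (.node (.node (.node (.node (.leaf (.bwd 2661 37 tp376.df)) (.leaf (.fwd 2698 24 tp353.df))) (.node (.leaf (.bwd 2722 35 tp360.df)) (.leaf (.fwd 2757 31 tp386.df)))) (.node (.node (.leaf (.bwd 2788 22 tp339.df)) (.leaf (.fwd 2810 29 tp511.df))) (.node (.leaf (.bwd 2839 46 tp550.df)) (.leaf (.fwd 2885 40 tp1094.df))))) (.node (.node (.node (.leaf (.bwd 2925 15 tp1149.df)) (.leaf (.fwd 2940 36 tp1090.df))) (.node (.leaf (.bwd 2976 27 tp1301.df)) (.leaf (.fwd 3003 32 tp539.df)))) (.node (.node (.leaf (.fwd 3035 28 tp555.df)) (.leaf (.bwd 3063 28 tp555.df))) (.leaf (.fwd 3091 15 tp1213.df))))) (.node (.node (.node (.node (.leaf (.fwd 3106 24 tp1091.df)) (.leaf (.bwd 3130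 24 tp1091.df))) (.node (.leaf (.fwd 3154 18 tp1158.df)) (.leaf (.fwd 3172 25 tp602.df)))) (.node (.node (.leaf (.fwd 3197 23 tp366.df)) (.leaf (.bwd 3220 23 tp366.df))) (.leaf (.bwd 3243 31 tp1188.df)))) (.node (.node (.node (.leaf (.bwd 3274 37 tp1343.df)) (.leaf (.bwd 3311 40 tp1165.df))) (.node (.leaf (.bwd 3351 44 tp849.df)) (.leaf (.bwd 3395 29 tp846.df)))) (.node (.node (.leaf (.bwd 3424 33 tp1169.df)) (.leaf (.fwd 3457 46 tp632.df))) (.leaf (.bwd 3503 46 tp632.df)))))))) (.node (.node (.node (.node (.node (.node (.node (.leaf (.bwd 3549 24 tp1344.df)) (.leaf (.fwd 3573 22 tp789.df))) (.node (.leaf (.fwd 3595 11 tp390.df)) (.leaf (.bwd 3606 28 tp395.df)))) (.node (.node (.leaf (.fwd 3634 32 tp703.df)) (.leaf (.fwd 3666 19 tp478.df))) (.node (.leaf (.bwd 3685 33 tp363.df)) (.leaf (.fwd 3718 20 tp1341.df))))) (.node (.node (.node (.leaf (.fwd 3738 26 tp882.df)) (.leaf (.bwd 3764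 29 tp1108.df))) (.node (.leaf (.fwd 3793 35 tp541.df)) (.leaf (.fwd 3828 34 tp494.df)))) (.node (.node (.leaf (.bwd 3862 33 tp1163.df)) (.leaf (.fwd 3895 27 tp542.df))) (.leaf (.fwd 3922 29 tp509.df))))) (.node (.node (.node (.node (.leaf (.bwd 3951 30 tp1092.df)) (.leaf (.bwd 3981 43 tp1345.df))) (.node (.leaf (.bwd 4024 32 tp1261.df)) (.leaf (.fwd 4056 37 tp1146.df)))) (.node (.node (.leaf (.fwd 4093 32 tp563.df)) (.leaf (.fwd 4125 42 tp559.df))) (.leaf (.bwd 4167 42 tp559.df)))) (.node (.node (.node (.leaf (.fwd 4209 17 tp1006.df)) (.leaf (.bwd 4226 29 tp1346.df))) (.node (.leaf (.fwd 4255 25 tp596.df)) (.leaf (.bwd 4280 42 tp546.df)))) (.node (.node (.leaf (.fwd 4322 33 tp547.df)) (.leaf (.fwd 4355 35 tp444.df))) (.leaf (.fwd 4390 34 tp548.df)))))) (.node (.node (.node (.node (.node (.leaf (.bwd 4424 31 tp500.df)) (.leaf (.bwd 4455 32 tp495.df))) (.node (.leaf (.fwd 4487 40 tp351.df))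 (.leaf (.bwd 4527 20 tp324.df)))) (.node (.node (.leaf (.fwd 4547 32 tp862.df)) (.leaf (.fwd 4579 24 tp693.df))) (.node (.leaf (.fwd 4603 22 tp378.df)) (.leaf (.fwd 4625 28 tp578.df))))) (.node (.node (.node (.leaf (.fwd 4653 27 tp330.df)) (.leaf (.bwd 4680 36 tp1127.df))) (.node (.leaf (.fwd 4716 24 tp950.df)) (.leaf (.fwd 4740 20 tp417.df)))) (.node (.node (.leaf (.bwd 4760 33 tp606.df)) (.leaf (.fwd 4793 29 tp588.df))) (.leaf (.bwd 4822 22 tp502.df))))) (.node (.node (.node (.node (.leaf (.fwd 4844 29 tp694.df)) (.leaf (.fwd 4873 37 tp1060.df))) (.node (.leaf (.fwd 4910 25 tp319.df)) (.leaf (.bwd 4935 18 tp566.df)))) (.node (.node (.leaf (.bwd 4953 27 tp1269.df)) (.leaf (.fwd 4980 20 tp450.df))) (.leaf (.bwd 5000 19 tp326.df)))) (.node (.node (.node (.leaf (.fwd 5019 25 tp361.df)) (.leaf (.fwd 5044 24 tp411.df))) (.node (.leaf (.fwd 5068 22 tp1347.df)) (.leaf (.bwd 5090 26 tp1348.df))))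 (.node (.node (.leaf (.fwd 5116 23 tp999.df)) (.leaf (.bwd 5139 41 tp1349.df))) (.leaf (.bwd 5180 34 tp858.df))))))) (.node (.node (.node (.node (.node (.node (.leaf (.fwd 5214 41 tp1162.df)) (.leaf (.bwd 5255 39 tp682.df))) (.node (.leaf (.fwd 5294 31 tp770.df)) (.leaf (.bwd 5325 54 tp1114.df)))) (.node (.node (.leaf (.fwd 5379 49 tp1079.df)) (.leaf (.fwd 5428 33 tp861.df))) (.node (.leaf (.fwd 5461 33 tp1350.df)) (.leaf (.fwd 5494 30 tp299.df))))) (.node (.node (.node (.leaf (.fwd 5524 20 tp1351.df)) (.leaf (.fwd 5544 21 tp424.df))) (.node (.leaf (.bwd 5565 27 tp1352.df)) (.leaf (.fwd 5592 39 tp1353.df)))) (.node (.node (.leaf (.bwd 5631 43 tp905.df)) (.leaf (.bwd 5674 29 tp509.df))) (.leaf (.fwd 5703 27 tp686.df))))) (.node (.node (.node (.node (.leaf (.fwd 5730 27 tp518.df)) (.leaf (.fwd 5757 28 tp551.df))) (.node (.leaf (.bwd 5785 23 tp320.df)) (.leaf (.bwd 5808 11 tp290.df))))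 (.node (.node (.leaf (.bwd 5819 21 tp997.df)) (.leaf (.bwd 5840 20 tp614.df))) (.leaf (.fwd 5860 27 tp1068.df)))) (.node (.node (.node (.leaf (.bwd 5887 16 tp1354.df)) (.leaf (.bwd 5903 14 tp1057.df))) (.node (.leaf (.bwd 5917 18 tp607.df)) (.leaf (.bwd 5935 43 tp568.df)))) (.node (.node (.leaf (.fwd 5978 13 tp951.df)) (.leaf (.bwd 5991 21 tp429.df))) (.leaf (.fwd 6012 22 tp1000.df)))))) (.node (.node (.node (.node (.node (.leaf (.fwd 6034 25 tp436.df)) (.leaf (.bwd 6059 29 tp398.df))) (.node (.leaf (.bwd 6088 38 tp1273.df)) (.leaf (.bwd 6126 36 tp747.df)))) (.node (.node (.leaf (.bwd 6162 22 tp536.df)) (.leaf (.fwd 6184 13 tp307.df))) (.node (.leaf (.bwd 6197 30 tp1105.df)) (.leaf (.bwd 6227 31 tp1203.df))))) (.node (.node (.node (.leaf (.fwd 6258 18 tp611.df)) (.leaf (.bwd 6276 9 tp1009.df))) (.node (.leaf (.fwd 6285 19 tp493.df)) (.leaf (.bwd 6304 17 tp727.df)))) (.node (.node (.leaf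 (.bwd 6321 20 tp1355.df)) (.leaf (.bwd 6341 27 tp445.df))) (.leaf (.fwd 6368 19 tp404.df))))) (.node (.node (.node (.node (.leaf (.fwd 6387 30 tp571.df)) (.leaf (.fwd 6417 27 tp331.df))) (.node (.leaf (.bwd 6444 34 tp609.df)) (.leaf (.bwd 6478 26 tp1110.df)))) (.node (.node (.leaf (.bwd 6504 26 tp419.df)) (.leaf (.bwd 6530 15 tp318.df))) (.leaf (.fwd 6545 13 tp1356.df)))) (.node (.node (.node (.leaf (.bwd 6558 19 tp517.df)) (.leaf (.bwd 6577 17 tp1109.df))) (.node (.leaf (.fwd 6594 25 tp610.df)) (.leaf (.bwd 6619 44 tp364.df)))) (.node (.node (.leaf (.bwd 6663 54 tp1357.df)) (.leaf (.fwd 6717 23 tp1358.df))) (.leaf (.bwd 6740 51 tp1359.df)))))))))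

theorem iiNFyAzEyA2Ax3xA2A2EzAzF_c : iiNFyAzEyA2Ax3xA2A2EzAzF.all (itB (ng 54 nnNFyAzEyA2Ax3xA2A2EzAzF)) = true := by decide +kernel
theorem nbNFyAzEyA2Ax3xA2A2EzAzF : nbB 54 6845 nnNFyAzEyA2Ax3xA2A2EzAzF = true := by decide +kernel
theorem topNFyAzEyA2Ax3xA2A2EzAzF : topY 6845 ttNFyAzEyA2Ax3xA2A2EzAzF ceNFyAzEyA2Ax3xA2A2EzAzF xNFyAzEyA2Ax3xA2A2EzAzF iiNFyAzEyA2Ax3xA2A2EzAzF = true := by decide +kernel

end MPb6P
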