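import Pool.Agent.Lib.MP_b6d339_lc.Cw.YFyAzE2A2Ax3xA2A2EzAyF
import Pool.Agent.Lib.MP_b6d339_lc.Cw.XL

/-!
# Erdős 592, three levels: checks of claims
-/

namespace MPb6P

theorem zeNFyAzE2A2Ax3xA2A2EzAyF_1 : cyE 56 10555 nnNFyAzE2A2Ax3xA2A2EzAyF ttNFyAzE2A2Ax3xA2A2EzAyF coNFyAzE2A2Ax3xA2A2EzAyF xNFyAzE2A2Ax3xA2A2EzAyF ceNFyAzE2A2Ax3xA2A2EzAyF_1 = true := by decide +kernel

end MPb6P
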