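import Pool.Agent.Lib.MP_b6d339_lc.Cw.YFyAzE2B3HzB2E3B2E
import Pool.Agent.Lib.MP_b6d339_lc.Cw.XL

/-!
# Erdős 592, three levels: checks of claims
-/

namespace MPb6P

theorem zeNFyAzE2B3HzB2E3B2E_0 : cyE 47 2979 nnNFyAzE2B3HzB2E3B2E ttNFyAzE2B3HzB2E3B2E coNFyAzE2B3HzB2E3B2E xNFyAzE2B3HzB2E3B2E ceNFyAzE2B3HzB2E3B2E_0 = true := by decide +kernel

theorem zoNFyAzE2B3HzB2E3B2E_0 : cyO 47 2979 nnNFyAzE2B3HzB2E3B2E ttNFyAzE2B3HzB2E3B2E ceNFyAzE2B3HzB2E3B2E xNFyAzE2B3HzB2E3B2E coNFyAzE2B3HzB2E3B2E_0 = true := by decide +kernel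

end MPb6P
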