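import Pool.Agent.Lib.MP_b6d339_lc.Cw.YFyAzE2B3HzB2H3E3B2E
import Pool.Agent.Lib.MP_b6d339_lc.Cw.XL

/-!
# Erdős 592, three levels: checks of claims
-/

namespace MPb6P

theorem zoNFyAzE2B3HzB2H3E3B2E_0 : cyO 62 6353 nnNFyAzE2B3HzB2H3E3B2E ttNFyAzE2B3HzB2H3E3B2E ceNFyAzE2B3HzB2H3E3B2E xNFyAzE2B3HzB2H3E3B2E coNFyAzE2B3HzB2H3E3B2E_0 = true := by decide +kernel

end MPb6P
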