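import Pool.Agent.Lib.MP_b6d339_lc.Cw.YFyAzEyA2Ax3xA2A2EzAzF
import Pool.Agent.Lib.MP_b6d339_lc.Cw.XL

/-!
# Erdős 592, three levels: checks of claims
-/

namespace MPb6P

theorem zoNFyAzEyA2Ax3xA2A2EzAzF_0 : cyO 54 6845 nnNFyAzEyA2Ax3xA2A2EzAzF ttNFyAzEyA2Ax3xA2A2EzAzF ceNFyAzEyA2Ax3xA2A2EzAzF xNFyAzEyA2Ax3xA2A2EzAzF coNFyAzEyA2Ax3xA2A2EzAzF_0 = true := by decide +kernel

end MPb6P
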