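import Pool.Agent.Lib.MP_b6d339_lc.Cw.JFyAzE2A2Ax3xA2A2EzAyF
import Pool.Agent.Lib.MP_b6d339_lc.Cw.JFyAzE2A2Ax3xA2AyEzAyF
import Pool.Agent.Lib.MP_b6d339_lc.Cw.JFyAzE2A2Ax3xA2AyEzAzF
import Pool.Agent.Lib.MP_b6d339_lc.Cw.JFyAzE2B3HzB2E3B2E
import Pool.Agent.Lib.MP_b6d339_lc.Cw.JFyAzE2B3HzB2H3E3B2E
import Pool.Agent.Lib.MP_b6d339_lc.Cw.JFyAzEyA2Ax3xA2A2EzAzF
import Pool.Agent.Lib.MP_b6d339_lc.Cw.P1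
import Pool.Agent.Lib.MP_b6d339_lc.Cw.T1
import Pool.Agent.Lib.MP_b6d339_lc.Cw.T10
import Pool.Agent.Lib.MP_b6d339_lc.Cw.T11
import Pool.Agent.Lib.MP_b6d339_lc.Cw.T12
import Pool.Agent.Lib.MP_b6d339_lc.Cw.T13
import Pool.Agent.Lib.MP_b6d339_lc.Cw.T14
import Pool.Agent.Lib.MP_b6d339_lc.Cw.T15
import Pool.Agent.Lib.MP_b6d339_lc.Cw.T16
import Pool.Agent.Lib.MP_b6d339_lc.Cw.T17
import Pool.Agent.Lib.MP_b6d339_lc.Cw.T18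
import Pool.Agent.Lib.MP_b6d339_lc.Cw.T19
import Pool.Agent.Lib.MP_b6d339_lc.Cw.T20
import Pool.Agent.Lib.MP_b6d339_lc.Cw.T21
import Pool.Agent.Lib.MP_b6d339_lc.Cw.T22
import Pool.Agent.Lib.MP_b6d339_lc.Cw.T23
import Pool.Agent.Lib.MP_b6d339_lc.Cw.T24
import Pool.Agent.Lib.MP_b6d339_lc.Cw.T25
import Pool.Agent.Lib.MP_b6d339_lc.Cw.T26
import Pool.Agent.Lib.MP_b6d339_lc.Cw.T27
import Pool.Agent.Lib.MP_b6d339_lc.Cw.T28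
import Pool.Agent.Lib.MP_b6d339_lc.Cw.T29
import Pool.Agent.Lib.MP_b6d339_lc.Cw.T3
import Pool.Agent.Lib.MP_b6d339_lc.Cw.T30
import Pool.Agent.Lib.MP_b6d339_lc.Cw.T31
import Pool.Agent.Lib.MP_b6d339_lc.Cw.T32
import Pool.Agent.Lib.MP_b6d339_lc.Cw.T33
import Pool.Agent.Lib.MP_b6d339_lc.Cw.T35
import Pool.Agent.Lib.MP_b6d339_lc.Cw.T36
import Pool.Agent.Lib.MP_b6d339_lc.Cw.T4
import Pool.Agent.Lib.MP_b6d339_lc.Cw.T5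
import Pool.Agent.Lib.MP_b6d339_lc.Cw.T6
import Pool.Agent.Lib.MP_b6d339_lc.Cw.T7
import Pool.Agent.Lib.MP_b6d339_lc.Cw.T8
import Pool.Agent.Lib.MP_b6d339_lc.Cw.T9
import Pool.Agent.Lib.MP_b6d339_lc.Cw.XL
import Pool.Agent.Lib.MP_b6d339_lc.Cw.ZFyAzE2A2Ax3xA2A2EzAyF_0
import Pool.Agent.Lib.MP_b6d339_lc.Cw.ZFyAzE2A2Ax3xA2A2EzAyF_1
import Pool.Agent.Lib.MP_b6d339_lc.Cw.ZFyAzE2A2Ax3xA2A2EzAyF_2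
import Pool.Agent.Lib.MP_b6d339_lc.Cw.ZFyAzE2A2Ax3xA2A2EzAyF_3
import Pool.Agent.Lib.MP_b6d339_lc.Cw.ZFyAzE2A2Ax3xA2AyEzAyF_0
import Pool.Agent.Lib.MP_b6d339_lc.Cw.ZFyAzE2A2Ax3xA2AyEzAyF_1
import Pool.Agent.Lib.MP_b6d339_lc.Cw.ZFyAzE2A2Ax3xA2AyEzAzF_0
import Pool.Agent.Lib.MP_b6d339_lc.Cw.ZFyAzE2B3HzB2E3B2E_0
import Pool.Agent.Lib.MP_b6d339_lc.Cw.ZFyAzE2B3HzB2H3E3B2E_0
import Pool.Agent.Lib.MP_b6d339_lc.Cw.ZFyAzE2B3HzB2H3E3B2E_1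
import Pool.Agent.Lib.MP_b6d339_lc.Cw.ZFyAzEyA2Ax3xA2A2EzAzF_0
import Pool.Agent.Lib.MP_b6d339_lc.Cw.ZFyAzEyA2Ax3xA2A2EzAzF_1
import Pool.Agent.Lib.MP_b6d339_lc.Pos.XTreeC
import Pool.Agent.Lib.MP_b6d339_lc.Pos.YQ

/-!
# Erdős 592, three levels: classes of words
-/

namespace MPb6P

theorem iiNFyAzE2A2Ax3xA2A2EzAyF_k : iiNFyAzE2A2Ax3xA2A2EzAyF.Fa (Itm.ok 206) := (BT.Fa_mk (BT.Fa_mk (BT.Fa_mk (BT.Fa_mk (BT.Fa_mk (BT.Fa_mk (BT.Fa_mk (BT.Fa_mk (BT.Fa_mk (BT.Fa_leaf (P := Itm.ok 206) (iqb tp608_c)) (BT.Fa_leaf (P := Itm.ok 206) (iqf tp855_c))) (BT.Fa_leaf (P := Itm.ok 206) (iqb tp855_c))) (BT.Fa_mk (BT.Fa_mk (BT.Fa_leaf (P := Itm.ok 206) (iqb tp307_c)) (BT.Fa_leaf (P := Itm.ok 206) (iqf tp444_c))) (BT.Fa_leaf (P := Itm.ok 206) (iqb tp444_c)))) (BT.Fa_mk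 (BT.Fa_mk (BT.Fa_mk (BT.Fa_leaf (P := Itm.ok 206) (iqf tp366_c)) (BT.Fa_leaf (P := Itm.ok 206) (iqb tp508_c))) (BT.Fa_leaf (P := Itm.ok 206) (iqb tp501_c))) (BT.Fa_mk (BT.Fa_mk (BT.Fa_leaf (P := Itm.ok 206) (iqf tp1124_c)) (BT.Fa_leaf (P := Itm.ok 206) (iqf tp501_c))) (BT.Fa_leaf (P := Itm.ok 206) (iqf tp525_c))))) (BT.Fa_mk (BT.Fa_mk (BT.Fa_mk (BT.Fa_mk (BT.Fa_leaf (P := Itm.ok 206) (iqb tp366_c)) (BT.Fa_leaf (P := Itm.ok 206) (iqf tp1125_c))) (BT.Fa_leaf (P := Itm.ok 206) (iqb tp342_c))) (BT.Fa_mk (BT.Fa_mk (BT.Fa_leaf (P := Itm.ok 206) (iqb tp358_c)) (BT.Fa_leaf (P := Itm.ok 206) (iqb tp367_c))) (BT.Fa_leaf (P := Itm.ok 206) (iqf tp367_c)))) (BT.Fa_mk (BT.Fa_mk (BT.Fa_mk (BT.Fa_leaf (P := Itm.ok 206) (iqf tp351_c)) (BT.Fa_leaf (P := Itm.ok 206)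 (iqf tp342_c))) (BT.Fa_leaf (P := Itm.ok 206) (iqb tp290_c))) (BT.Fa_mk (BT.Fa_leaf (P := Itm.ok 206) (iqb tp1126_c)) (BT.Fa_leaf (P := Itm.ok 206) (iqf tp361_c)))))) (BT.Fa_mk (BT.Fa_mk (BT.Fa_mk (BT.Fa_mk (BT.Fa_mk (BT.Fa_leaf (P := Itm.ok 206) (iqf tp560_c)) (BT.Fa_leaf (P := Itm.ok 206) (iqb tp647_c))) (BT.Fa_leaf (P := Itm.ok 206) (iqf tp949_c))) (BT.Fa_mk (BT.Fa_mk (BT.Fa_leaf (P := Itm.ok 206) (iqf tp1126_c)) (BT.Fa_leaf (P := Itm.ok 206) (iqf tp536_c))) (BT.Fa_leaf (P := Itm.ok 206) (iqb tp1127_c)))) (BT.Fa_mk (BT.Fa_mk (BT.Fa_mk (BT.Fa_leaf (P := Itm.ok 206) (iqf tp587_c)) (BT.Fa_leaf (P := Itm.ok 206) (iqb tp949_c))) (BT.Fa_leaf (P := Itm.ok 206) (iqb tp351_c))) (BT.Fa_mk (BT.Fa_leaf (P := Itm.ok 206) (iqb tp984_c)) (BT.Fa_leaf (P := Itm.ok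 206) (iqf tp358_c))))) (BT.Fa_mk (BT.Fa_mk (BT.Fa_mk (BT.Fa_mk (BT.Fa_leaf (P := Itm.ok 206) (iqb tp331_c)) (BT.Fa_leaf (P := Itm.ok 206) (iqf tp477_c))) (BT.Fa_leaf (P := Itm.ok 206) (iqf tp319_c))) (BT.Fa_mk (BT.Fa_mk (BT.Fa_leaf (P := Itm.ok 206) (iqb tp529_c)) (BT.Fa_leaf (P := Itm.ok 206) (iqb tp319_c))) (BT.Fa_leaf (P := Itm.ok 206) (iqf tp853_c)))) (BT.Fa_mk (BT.Fa_mk (BT.Fa_mk (BT.Fa_leaf (P := Itm.ok 206) (iqf tp496_c)) (BT.Fa_leaf (P := Itm.ok 206) (iqb tp853_c))) (BT.Fa_leaf (P := Itm.ok 206) (iqf tp484_c))) (BT.Fa_mk (BT.Fa_leaf (P := Itm.ok 206) (iqf tp334_c)) (BT.Fa_leaf (P := Itm.ok 206) (iqb tp365_c))))))) (BT.Fa_mk (BT.Fa_mk (BT.Fa_mk (BT.Fa_mk (BT.Fa_mk (BT.Fa_mk (BT.Fa_leaf (P := Itm.ok 206) (iqf tp495_c)) (BT.Fa_leaf (P := Itm.ok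 206) (iqb tp533_c))) (BT.Fa_leaf (P := Itm.ok 206) (iqb tp326_c))) (BT.Fa_mk (BT.Fa_mk (BT.Fa_leaf (P := Itm.ok 206) (iqb tp499_c)) (BT.Fa_leaf (P := Itm.ok 206) (iqb tp348_c))) (BT.Fa_leaf (P := Itm.ok 206) (iqf tp551_c)))) (BT.Fa_mk (BT.Fa_mk (BT.Fa_mk (BT.Fa_leaf (P := Itm.ok 206) (iqb tp504_c)) (BT.Fa_leaf (P := Itm.ok 206) (iqf tp489_c))) (BT.Fa_leaf (P := Itm.ok 206) (iqf tp1128_c))) (BT.Fa_mk (BT.Fa_leaf (P := Itm.ok 206) (iqf tp800_c)) (BT.Fa_leaf (P := Itm.ok 206) (iqb tp1129_c))))) (BT.Fa_mk (BT.Fa_mk (BT.Fa_mk (BT.Fa_mk (BT.Fa_leaf (P := Itm.ok 206) (iqb tp534_c)) (BT.Fa_leaf (P := Itm.ok 206) (iqf tp589_c))) (BT.Fa_leaf (P := Itm.ok 206) (iqf tp559_c))) (BT.Fa_mk (BT.Fa_mk (BT.Fa_leaf (P := Itm.ok 206) (iqb tp1130_c)) (BT.Fa_leaf (P :=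 Itm.ok 206) (iqf tp1131_c))) (BT.Fa_leaf (P := Itm.ok 206) (iqf tp692_c)))) (BT.Fa_mk (BT.Fa_mk (BT.Fa_mk (BT.Fa_leaf (P := Itm.ok 206) (iqf tp984_c)) (BT.Fa_leaf (P := Itm.ok 206) (iqb tp589_c))) (BT.Fa_leaf (P := Itm.ok 206) (iqb tp810_c))) (BT.Fa_mk (BT.Fa_leaf (P := Itm.ok 206) (iqf tp713_c)) (BT.Fa_leaf (P := Itm.ok 206) (iqb tp1132_c)))))) (BT.Fa_mk (BT.Fa_mk (BT.Fa_mk (BT.Fa_mk (BT.Fa_mk (BT.Fa_leaf (P := Itm.ok 206) (iqf tp648_c)) (BT.Fa_leaf (P := Itm.ok 206) (iqb tp648_c))) (BT.Fa_leaf (P := Itm.ok 206) (iqb tp1133_c))) (BT.Fa_mk (BT.Fa_mk (BT.Fa_leaf (P := Itm.ok 206) (iqf tp1134_c)) (BT.Fa_leaf (P := Itm.ok 206) (iqf tp1132_c))) (BT.Fa_leaf (P := Itm.ok 206) (iqb tp489_c)))) (BT.Fa_mk (BT.Fa_mk (BT.Fa_mk (BT.Fa_leaf (P := Itm.ok 206) (iqf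 tp556_c)) (BT.Fa_leaf (P := Itm.ok 206) (iqf tp353_c))) (BT.Fa_leaf (P := Itm.ok 206) (iqf tp647_c))) (BT.Fa_mk (BT.Fa_leaf (P := Itm.ok 206) (iqf tp555_c)) (BT.Fa_leaf (P := Itm.ok 206) (iqb tp652_c))))) (BT.Fa_mk (BT.Fa_mk (BT.Fa_mk (BT.Fa_mk (BT.Fa_leaf (P := Itm.ok 206) (iqb tp633_c)) (BT.Fa_leaf (P := Itm.ok 206) (iqf tp145_c))) (BT.Fa_leaf (P := Itm.ok 206) (iqb tp1135_c))) (BT.Fa_mk (BT.Fa_mk (BT.Fa_leaf (P := Itm.ok 206) (iqb tp432_c)) (BT.Fa_leaf (P := Itm.ok 206) (iqb tp1136_c))) (BT.Fa_leaf (P := Itm.ok 206) (iqb tp662_c)))) (BT.Fa_mk (BT.Fa_mk (BT.Fa_mk (BT.Fa_leaf (P := Itm.ok 206) (iqb tp354_c)) (BT.Fa_leaf (P := Itm.ok 206) (iqf tp1122_c))) (BT.Fa_leaf (P := Itm.ok 206) (iqb tp312_c))) (BT.Fa_mk (BT.Fa_leaf (P := Itm.ok 206) (iqb tp1137_c))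 (BT.Fa_leaf (P := Itm.ok 206) (iqf tp839_c)))))))) (BT.Fa_mk (BT.Fa_mk (BT.Fa_mk (BT.Fa_mk (BT.Fa_mk (BT.Fa_mk (BT.Fa_mk (BT.Fa_leaf (P := Itm.ok 206) (iqb tp693_c)) (BT.Fa_leaf (P := Itm.ok 206) (iqb tp596_c))) (BT.Fa_leaf (P := Itm.ok 206) (iqf tp519_c))) (BT.Fa_mk (BT.Fa_mk (BT.Fa_leaf (P := Itm.ok 206) (iqf tp614_c)) (BT.Fa_leaf (P := Itm.ok 206) (iqf tp529_c))) (BT.Fa_leaf (P := Itm.ok 206) (iqb tp587_c)))) (BT.Fa_mk (BT.Fa_mk (BT.Fa_mk (BT.Fa_leaf (P := Itm.ok 206) (iqb tp477_c)) (BT.Fa_leaf (P := Itm.ok 206) (iqf tp290_c))) (BT.Fa_leaf (P := Itm.ok 206) (iqf tp1138_c))) (BT.Fa_mk (BT.Fa_leaf (P := Itm.ok 206) (iqf tp1139_c)) (BT.Fa_leaf (P := Itm.ok 206) (iqf tp1140_c))))) (BT.Fa_mk (BT.Fa_mk (BT.Fa_mk (BT.Fa_mk (BT.Fa_leaf (P := Itm.ok 206)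 (iqf tp1141_c)) (BT.Fa_leaf (P := Itm.ok 206) (iqf tp789_c))) (BT.Fa_leaf (P := Itm.ok 206) (iqb tp344_c))) (BT.Fa_mk (BT.Fa_mk (BT.Fa_leaf (P := Itm.ok 206) (iqf tp511_c)) (BT.Fa_leaf (P := Itm.ok 206) (iqb tp1142_c))) (BT.Fa_leaf (P := Itm.ok 206) (iqf tp1061_c)))) (BT.Fa_mk (BT.Fa_mk (BT.Fa_mk (BT.Fa_leaf (P := Itm.ok 206) (iqb tp1143_c)) (BT.Fa_leaf (P := Itm.ok 206) (iqf tp1144_c))) (BT.Fa_leaf (P := Itm.ok 206) (iqf tp1136_c))) (BT.Fa_mk (BT.Fa_leaf (P := Itm.ok 206) (iqb tp1145_c)) (BT.Fa_leaf (P := Itm.ok 206) (iqf tp344_c)))))) (BT.Fa_mk (BT.Fa_mk (BT.Fa_mk (BT.Fa_mk (BT.Fa_mk (BT.Fa_leaf (P := Itm.ok 206) (iqf tp1146_c)) (BT.Fa_leaf (P := Itm.ok 206) (iqb tp1147_c))) (BT.Fa_leaf (P := Itm.ok 206) (iqb tp1103_c))) (BT.Fa_mk (BT.Fa_mk (BT.Fa_leaf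 (P := Itm.ok 206) (iqb tp863_c)) (BT.Fa_leaf (P := Itm.ok 206) (iqf tp1148_c))) (BT.Fa_leaf (P := Itm.ok 206) (iqb tp701_c)))) (BT.Fa_mk (BT.Fa_mk (BT.Fa_mk (BT.Fa_leaf (P := Itm.ok 206) (iqf tp1149_c)) (BT.Fa_leaf (P := Itm.ok 206) (iqf tp299_c))) (BT.Fa_leaf (P := Itm.ok 206) (iqf tp1150_c))) (BT.Fa_mk (BT.Fa_leaf (P := Itm.ok 206) (iqb tp536_c)) (BT.Fa_leaf (P := Itm.ok 206) (iqf tp1142_c))))) (BT.Fa_mk (BT.Fa_mk (BT.Fa_mk (BT.Fa_mk (BT.Fa_leaf (P := Itm.ok 206) (iqb tp1151_c)) (BT.Fa_leaf (P := Itm.ok 206) (iqb tp1152_c))) (BT.Fa_leaf (P := Itm.ok 206) (iqf tp385_c))) (BT.Fa_mk (BT.Fa_mk (BT.Fa_leaf (P := Itm.ok 206) (iqb tp347_c)) (BT.Fa_leaf (P := Itm.ok 206) (iqf tp492_c))) (BT.Fa_leaf (P := Itm.ok 206) (iqf tp578_c)))) (BT.Fa_mk (BT.Fa_mk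 (BT.Fa_mk (BT.Fa_leaf (P := Itm.ok 206) (iqf tp1060_c)) (BT.Fa_leaf (P := Itm.ok 206) (iqb tp897_c))) (BT.Fa_leaf (P := Itm.ok 206) (iqb tp385_c))) (BT.Fa_mk (BT.Fa_leaf (P := Itm.ok 206) (iqf tp558_c)) (BT.Fa_leaf (P := Itm.ok 206) (iqf tp1143_c))))))) (BT.Fa_mk (BT.Fa_mk (BT.Fa_mk (BT.Fa_mk (BT.Fa_mk (BT.Fa_mk (BT.Fa_leaf (P := Itm.ok 206) (iqb tp1153_c)) (BT.Fa_leaf (P := Itm.ok 206) (iqb tp571_c))) (BT.Fa_leaf (P := Itm.ok 206) (iqb tp1154_c))) (BT.Fa_mk (BT.Fa_mk (BT.Fa_leaf (P := Itm.ok 206) (iqb tp402_c)) (BT.Fa_leaf (P := Itm.ok 206) (iqb tp382_c))) (BT.Fa_leaf (P := Itm.ok 206) (iqf tp684_c)))) (BT.Fa_mk (BT.Fa_mk (BT.Fa_mk (BT.Fa_leaf (P := Itm.ok 206) (iqf tp588_c)) (BT.Fa_leaf (P := Itm.ok 206) (iqb tp1065_c))) (BT.Fa_leaf (P := Itm.ok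 206) (iqb tp502_c))) (BT.Fa_mk (BT.Fa_leaf (P := Itm.ok 206) (iqf tp541_c)) (BT.Fa_leaf (P := Itm.ok 206) (iqf tp499_c))))) (BT.Fa_mk (BT.Fa_mk (BT.Fa_mk (BT.Fa_mk (BT.Fa_leaf (P := Itm.ok 206) (iqb tp532_c)) (BT.Fa_leaf (P := Itm.ok 206) (iqf tp404_c))) (BT.Fa_leaf (P := Itm.ok 206) (iqb tp530_c))) (BT.Fa_mk (BT.Fa_mk (BT.Fa_leaf (P := Itm.ok 206) (iqf tp527_c)) (BT.Fa_leaf (P := Itm.ok 206) (iqf tp1155_c))) (BT.Fa_leaf (P := Itm.ok 206) (iqb tp1156_c)))) (BT.Fa_mk (BT.Fa_mk (BT.Fa_mk (BT.Fa_leaf (P := Itm.ok 206) (iqb tp575_c)) (BT.Fa_leaf (P := Itm.ok 206) (iqb tp525_c))) (BT.Fa_leaf (P := Itm.ok 206) (iqf tp1133_c))) (BT.Fa_mk (BT.Fa_leaf (P := Itm.ok 206) (iqf tp700_c)) (BT.Fa_leaf (P := Itm.ok 206) (iqf tp1157_c)))))) (BT.Fa_mk (BT.Fa_mk (BT.Fa_mk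 (BT.Fa_mk (BT.Fa_mk (BT.Fa_leaf (P := Itm.ok 206) (iqf tp638_c)) (BT.Fa_leaf (P := Itm.ok 206) (iqf tp1158_c))) (BT.Fa_leaf (P := Itm.ok 206) (iqf tp1024_c))) (BT.Fa_mk (BT.Fa_mk (BT.Fa_leaf (P := Itm.ok 206) (iqb tp481_c)) (BT.Fa_leaf (P := Itm.ok 206) (iqf tp531_c))) (BT.Fa_leaf (P := Itm.ok 206) (iqf tp667_c)))) (BT.Fa_mk (BT.Fa_mk (BT.Fa_mk (BT.Fa_leaf (P := Itm.ok 206) (iqb tp519_c)) (BT.Fa_leaf (P := Itm.ok 206) (iqb tp429_c))) (BT.Fa_leaf (P := Itm.ok 206) (iqf tp331_c))) (BT.Fa_mk (BT.Fa_leaf (P := Itm.ok 206) (iqb tp664_c)) (BT.Fa_leaf (P := Itm.ok 206) (iqb tp563_c))))) (BT.Fa_mk (BT.Fa_mk (BT.Fa_mk (BT.Fa_mk (BT.Fa_leaf (P := Itm.ok 206) (iqb tp1159_c)) (BT.Fa_leaf (P := Itm.ok 206) (iqf tp1160_c))) (BT.Fa_leaf (P := Itm.ok 206) (iqb tp1161_c)))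 (BT.Fa_mk (BT.Fa_mk (BT.Fa_leaf (P := Itm.ok 206) (iqb tp1148_c)) (BT.Fa_leaf (P := Itm.ok 206) (iqf tp341_c))) (BT.Fa_leaf (P := Itm.ok 206) (iqf tp974_c)))) (BT.Fa_mk (BT.Fa_mk (BT.Fa_mk (BT.Fa_leaf (P := Itm.ok 206) (iqf tp1162_c)) (BT.Fa_leaf (P := Itm.ok 206) (iqf tp380_c))) (BT.Fa_leaf (P := Itm.ok 206) (iqf tp1086_c))) (BT.Fa_mk (BT.Fa_leaf (P := Itm.ok 206) (iqf tp749_c)) (BT.Fa_leaf (P := Itm.ok 206) (iqf tp1163_c))))))))) (BT.Fa_mk (BT.Fa_mk (BT.Fa_mk (BT.Fa_mk (BT.Fa_mk (BT.Fa_mk (BT.Fa_mk (BT.Fa_mk (BT.Fa_leaf (P := Itm.ok 206) (iqf tp682_c)) (BT.Fa_leaf (P := Itm.ok 206) (iqb tp1164_c))) (BT.Fa_leaf (P := Itm.ok 206) (iqf tp565_c))) (BT.Fa_mk (BT.Fa_mk (BT.Fa_leaf (P := Itm.ok 206) (iqf tp897_c)) (BT.Fa_leaf (P := Itm.ok 206) (iqf tp1114_c)))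 (BT.Fa_leaf (P := Itm.ok 206) (iqf tp741_c)))) (BT.Fa_mk (BT.Fa_mk (BT.Fa_mk (BT.Fa_leaf (P := Itm.ok 206) (iqf tp1103_c)) (BT.Fa_leaf (P := Itm.ok 206) (iqb tp417_c))) (BT.Fa_leaf (P := Itm.ok 206) (iqb tp559_c))) (BT.Fa_mk (BT.Fa_leaf (P := Itm.ok 206) (iqb tp555_c)) (BT.Fa_leaf (P := Itm.ok 206) (iqf tp1165_c))))) (BT.Fa_mk (BT.Fa_mk (BT.Fa_mk (BT.Fa_mk (BT.Fa_leaf (P := Itm.ok 206) (iqf tp1065_c)) (BT.Fa_leaf (P := Itm.ok 206) (iqb tp1166_c))) (BT.Fa_leaf (P := Itm.ok 206) (iqf tp518_c))) (BT.Fa_mk (BT.Fa_mk (BT.Fa_leaf (P := Itm.ok 206) (iqb tp623_c)) (BT.Fa_leaf (P := Itm.ok 206) (iqf tp533_c))) (BT.Fa_leaf (P := Itm.ok 206) (iqf tp646_c)))) (BT.Fa_mk (BT.Fa_mk (BT.Fa_mk (BT.Fa_leaf (P := Itm.ok 206) (iqf tp1167_c)) (BT.Fa_leaf (P := Itm.ok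 206) (iqf tp606_c))) (BT.Fa_leaf (P := Itm.ok 206) (iqb tp558_c))) (BT.Fa_mk (BT.Fa_leaf (P := Itm.ok 206) (iqf tp837_c)) (BT.Fa_leaf (P := Itm.ok 206) (iqf tp1168_c)))))) (BT.Fa_mk (BT.Fa_mk (BT.Fa_mk (BT.Fa_mk (BT.Fa_mk (BT.Fa_leaf (P := Itm.ok 206) (iqf tp339_c)) (BT.Fa_leaf (P := Itm.ok 206) (iqf tp810_c))) (BT.Fa_leaf (P := Itm.ok 206) (iqb tp644_c))) (BT.Fa_mk (BT.Fa_mk (BT.Fa_leaf (P := Itm.ok 206) (iqf tp640_c)) (BT.Fa_leaf (P := Itm.ok 206) (iqf tp1169_c))) (BT.Fa_leaf (P := Itm.ok 206) (iqf tp1170_c)))) (BT.Fa_mk (BT.Fa_mk (BT.Fa_mk (BT.Fa_leaf (P := Itm.ok 206) (iqb tp667_c)) (BT.Fa_leaf (P := Itm.ok 206) (iqb tp665_c))) (BT.Fa_leaf (P := Itm.ok 206) (iqf tp1171_c))) (BT.Fa_mk (BT.Fa_leaf (P := Itm.ok 206) (iqb tp1172_c)) (BT.Fa_leaf (P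 := Itm.ok 206) (iqf tp502_c))))) (BT.Fa_mk (BT.Fa_mk (BT.Fa_mk (BT.Fa_mk (BT.Fa_leaf (P := Itm.ok 206) (iqf tp736_c)) (BT.Fa_leaf (P := Itm.ok 206) (iqb tp299_c))) (BT.Fa_leaf (P := Itm.ok 206) (iqf tp623_c))) (BT.Fa_mk (BT.Fa_mk (BT.Fa_leaf (P := Itm.ok 206) (iqb tp496_c)) (BT.Fa_leaf (P := Itm.ok 206) (iqb tp1163_c))) (BT.Fa_leaf (P := Itm.ok 206) (iqb tp1165_c)))) (BT.Fa_mk (BT.Fa_mk (BT.Fa_mk (BT.Fa_leaf (P := Itm.ok 206) (iqb tp560_c)) (BT.Fa_leaf (P := Itm.ok 206) (iqf tp1173_c))) (BT.Fa_leaf (P := Itm.ok 206) (iqb tp1168_c))) (BT.Fa_mk (BT.Fa_leaf (P := Itm.ok 206) (iqb tp1174_c)) (BT.Fa_leaf (P := Itm.ok 206) (iqf tp1175_c))))))) (BT.Fa_mk (BT.Fa_mk (BT.Fa_mk (BT.Fa_mk (BT.Fa_mk (BT.Fa_mk (BT.Fa_leaf (P := Itm.ok 206) (iqf tp626_c)) (BT.Fa_leaf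 (P := Itm.ok 206) (iqf tp1174_c))) (BT.Fa_leaf (P := Itm.ok 206) (iqb tp503_c))) (BT.Fa_mk (BT.Fa_mk (BT.Fa_leaf (P := Itm.ok 206) (iqf tp503_c)) (BT.Fa_leaf (P := Itm.ok 206) (iqf tp1090_c))) (BT.Fa_leaf (P := Itm.ok 206) (iqf tp1156_c)))) (BT.Fa_mk (BT.Fa_mk (BT.Fa_mk (BT.Fa_leaf (P := Itm.ok 206) (iqf tp1119_c)) (BT.Fa_leaf (P := Itm.ok 206) (iqb tp1176_c))) (BT.Fa_leaf (P := Itm.ok 206) (iqf tp1177_c))) (BT.Fa_mk (BT.Fa_leaf (P := Itm.ok 206) (iqf tp1178_c)) (BT.Fa_leaf (P := Itm.ok 206) (iqb tp1177_c))))) (BT.Fa_mk (BT.Fa_mk (BT.Fa_mk (BT.Fa_mk (BT.Fa_leaf (P := Itm.ok 206) (iqf tp1076_c)) (BT.Fa_leaf (P := Itm.ok 206) (iqf tp1179_c))) (BT.Fa_leaf (P := Itm.ok 206) (iqf tp412_c))) (BT.Fa_mk (BT.Fa_mk (BT.Fa_leaf (P := Itm.ok 206) (iqb tp1180_c))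 (BT.Fa_leaf (P := Itm.ok 206) (iqb tp1140_c))) (BT.Fa_leaf (P := Itm.ok 206) (iqb tp324_c)))) (BT.Fa_mk (BT.Fa_mk (BT.Fa_mk (BT.Fa_leaf (P := Itm.ok 206) (iqb tp789_c)) (BT.Fa_leaf (P := Itm.ok 206) (iqb tp334_c))) (BT.Fa_leaf (P := Itm.ok 206) (iqf tp843_c))) (BT.Fa_mk (BT.Fa_leaf (P := Itm.ok 206) (iqf tp699_c)) (BT.Fa_leaf (P := Itm.ok 206) (iqf tp532_c)))))) (BT.Fa_mk (BT.Fa_mk (BT.Fa_mk (BT.Fa_mk (BT.Fa_mk (BT.Fa_leaf (P := Itm.ok 206) (iqf tp1181_c)) (BT.Fa_leaf (P := Itm.ok 206) (iqf tp359_c))) (BT.Fa_leaf (P := Itm.ok 206) (iqb tp436_c))) (BT.Fa_mk (BT.Fa_mk (BT.Fa_leaf (P := Itm.ok 206) (iqb tp1182_c)) (BT.Fa_leaf (P := Itm.ok 206) (iqb tp1183_c))) (BT.Fa_leaf (P := Itm.ok 206) (iqf tp1184_c)))) (BT.Fa_mk (BT.Fa_mk (BT.Fa_mk (BT.Fa_leaf (P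 := Itm.ok 206) (iqf tp1185_c)) (BT.Fa_leaf (P := Itm.ok 206) (iqb tp510_c))) (BT.Fa_leaf (P := Itm.ok 206) (iqf tp348_c))) (BT.Fa_mk (BT.Fa_leaf (P := Itm.ok 206) (iqb tp1119_c)) (BT.Fa_leaf (P := Itm.ok 206) (iqf tp1186_c))))) (BT.Fa_mk (BT.Fa_mk (BT.Fa_mk (BT.Fa_mk (BT.Fa_leaf (P := Itm.ok 206) (iqf tp1187_c)) (BT.Fa_leaf (P := Itm.ok 206) (iqb tp1188_c))) (BT.Fa_leaf (P := Itm.ok 206) (iqb tp565_c))) (BT.Fa_mk (BT.Fa_mk (BT.Fa_leaf (P := Itm.ok 206) (iqb tp403_c)) (BT.Fa_leaf (P := Itm.ok 206) (iqf tp1166_c))) (BT.Fa_leaf (P := Itm.ok 206) (iqb tp713_c)))) (BT.Fa_mk (BT.Fa_mk (BT.Fa_mk (BT.Fa_leaf (P := Itm.ok 206) (iqf tp534_c)) (BT.Fa_leaf (P := Itm.ok 206) (iqb tp626_c))) (BT.Fa_leaf (P := Itm.ok 206) (iqb tp509_c))) (BT.Fa_mk (BT.Fa_leaf (P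 := Itm.ok 206) (iqb tp1189_c)) (BT.Fa_leaf (P := Itm.ok 206) (iqb tp1190_c)))))))) (BT.Fa_mk (BT.Fa_mk (BT.Fa_mk (BT.Fa_mk (BT.Fa_mk (BT.Fa_mk (BT.Fa_mk (BT.Fa_leaf (P := Itm.ok 206) (iqb tp1191_c)) (BT.Fa_leaf (P := Itm.ok 206) (iqb tp827_c))) (BT.Fa_leaf (P := Itm.ok 206) (iqb tp1192_c))) (BT.Fa_mk (BT.Fa_mk (BT.Fa_leaf (P := Itm.ok 206) (iqf tp1193_c)) (BT.Fa_leaf (P := Itm.ok 206) (iqf tp1194_c))) (BT.Fa_leaf (P := Itm.ok 206) (iqb tp1195_c)))) (BT.Fa_mk (BT.Fa_mk (BT.Fa_mk (BT.Fa_leaf (P := Itm.ok 206) (iqf tp564_c)) (BT.Fa_leaf (P := Itm.ok 206) (iqf tp1196_c))) (BT.Fa_leaf (P := Itm.ok 206) (iqf tp759_c))) (BT.Fa_mk (BT.Fa_leaf (P := Itm.ok 206) (iqb tp1197_c)) (BT.Fa_leaf (P := Itm.ok 206) (iqb tp568_c))))) (BT.Fa_mk (BT.Fa_mk (BT.Fa_mk (BT.Fa_mk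 (BT.Fa_leaf (P := Itm.ok 206) (iqb tp1198_c)) (BT.Fa_leaf (P := Itm.ok 206) (iqb tp703_c))) (BT.Fa_leaf (P := Itm.ok 206) (iqf tp324_c))) (BT.Fa_mk (BT.Fa_mk (BT.Fa_leaf (P := Itm.ok 206) (iqf tp1199_c)) (BT.Fa_leaf (P := Itm.ok 206) (iqf tp1200_c))) (BT.Fa_leaf (P := Itm.ok 206) (iqb tp1201_c)))) (BT.Fa_mk (BT.Fa_mk (BT.Fa_mk (BT.Fa_leaf (P := Itm.ok 206) (iqf tp1202_c)) (BT.Fa_leaf (P := Itm.ok 206) (iqb tp1203_c))) (BT.Fa_leaf (P := Itm.ok 206) (iqb tp1204_c))) (BT.Fa_mk (BT.Fa_leaf (P := Itm.ok 206) (iqf tp952_c)) (BT.Fa_leaf (P := Itm.ok 206) (iqf tp727_c)))))) (BT.Fa_mk (BT.Fa_mk (BT.Fa_mk (BT.Fa_mk (BT.Fa_mk (BT.Fa_leaf (P := Itm.ok 206) (iqf tp882_c)) (BT.Fa_leaf (P := Itm.ok 206) (iqb tp1205_c))) (BT.Fa_leaf (P := Itm.ok 206) (iqf tp1206_c)))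 (BT.Fa_mk (BT.Fa_mk (BT.Fa_leaf (P := Itm.ok 206) (iqb tp762_c)) (BT.Fa_leaf (P := Itm.ok 206) (iqb tp1207_c))) (BT.Fa_leaf (P := Itm.ok 206) (iqb tp1208_c)))) (BT.Fa_mk (BT.Fa_mk (BT.Fa_mk (BT.Fa_leaf (P := Itm.ok 206) (iqf tp1209_c)) (BT.Fa_leaf (P := Itm.ok 206) (iqf tp1210_c))) (BT.Fa_leaf (P := Itm.ok 206) (iqb tp1211_c))) (BT.Fa_mk (BT.Fa_leaf (P := Itm.ok 206) (iqb tp1212_c)) (BT.Fa_leaf (P := Itm.ok 206) (iqb tp1213_c))))) (BT.Fa_mk (BT.Fa_mk (BT.Fa_mk (BT.Fa_mk (BT.Fa_leaf (P := Itm.ok 206) (iqf tp1214_c)) (BT.Fa_leaf (P := Itm.ok 206) (iqb tp1215_c))) (BT.Fa_leaf (P := Itm.ok 206) (iqb tp1216_c))) (BT.Fa_mk (BT.Fa_mk (BT.Fa_leaf (P := Itm.ok 206) (iqb tp1217_c)) (BT.Fa_leaf (P := Itm.ok 206) (iqf tp1218_c))) (BT.Fa_leaf (P := Itm.ok 206)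 (iqf tp383_c)))) (BT.Fa_mk (BT.Fa_mk (BT.Fa_mk (BT.Fa_leaf (P := Itm.ok 206) (iqf tp1219_c)) (BT.Fa_leaf (P := Itm.ok 206) (iqf tp703_c))) (BT.Fa_leaf (P := Itm.ok 206) (iqf tp1220_c))) (BT.Fa_mk (BT.Fa_leaf (P := Itm.ok 206) (iqb tp1222_c)) (BT.Fa_leaf (P := Itm.ok 206) (iqb tp1223_c))))))) (BT.Fa_mk (BT.Fa_mk (BT.Fa_mk (BT.Fa_mk (BT.Fa_mk (BT.Fa_mk (BT.Fa_leaf (P := Itm.ok 206) (iqb tp1224_c)) (BT.Fa_leaf (P := Itm.ok 206) (iqf tp1225_c))) (BT.Fa_leaf (P := Itm.ok 206) (iqb tp724_c))) (BT.Fa_mk (BT.Fa_mk (BT.Fa_leaf (P := Itm.ok 206) (iqf tp382_c)) (BT.Fa_leaf (P := Itm.ok 206) (iqb tp1226_c))) (BT.Fa_leaf (P := Itm.ok 206) (iqf tp1227_c)))) (BT.Fa_mk (BT.Fa_mk (BT.Fa_mk (BT.Fa_leaf (P := Itm.ok 206) (iqb tp1228_c)) (BT.Fa_leaf (P := Itm.ok 206)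 (iqf tp1229_c))) (BT.Fa_leaf (P := Itm.ok 206) (iqb tp1230_c))) (BT.Fa_mk (BT.Fa_leaf (P := Itm.ok 206) (iqb tp634_c)) (BT.Fa_leaf (P := Itm.ok 206) (iqb tp1231_c))))) (BT.Fa_mk (BT.Fa_mk (BT.Fa_mk (BT.Fa_mk (BT.Fa_leaf (P := Itm.ok 206) (iqf tp1232_c)) (BT.Fa_leaf (P := Itm.ok 206) (iqb tp1233_c))) (BT.Fa_leaf (P := Itm.ok 206) (iqb tp1234_c))) (BT.Fa_mk (BT.Fa_mk (BT.Fa_leaf (P := Itm.ok 206) (iqf tp1235_c)) (BT.Fa_leaf (P := Itm.ok 206) (iqb tp1236_c))) (BT.Fa_leaf (P := Itm.ok 206) (iqb tp1237_c)))) (BT.Fa_mk (BT.Fa_mk (BT.Fa_mk (BT.Fa_leaf (P := Itm.ok 206) (iqb tp1238_c)) (BT.Fa_leaf (P := Itm.ok 206) (iqb tp1239_c))) (BT.Fa_leaf (P := Itm.ok 206) (iqf tp678_c))) (BT.Fa_mk (BT.Fa_leaf (P := Itm.ok 206) (iqb tp1240_c)) (BT.Fa_leaf (P := Itm.ok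 206) (iqf tp1241_c)))))) (BT.Fa_mk (BT.Fa_mk (BT.Fa_mk (BT.Fa_mk (BT.Fa_mk (BT.Fa_leaf (P := Itm.ok 206) (iqb tp1102_c)) (BT.Fa_leaf (P := Itm.ok 206) (iqf tp1154_c))) (BT.Fa_leaf (P := Itm.ok 206) (iqb tp775_c))) (BT.Fa_mk (BT.Fa_mk (BT.Fa_leaf (P := Itm.ok 206) (iqf tp1242_c)) (BT.Fa_leaf (P := Itm.ok 206) (iqf tp795_c))) (BT.Fa_leaf (P := Itm.ok 206) (iqb tp1155_c)))) (BT.Fa_mk (BT.Fa_mk (BT.Fa_mk (BT.Fa_leaf (P := Itm.ok 206) (iqf tp1243_c)) (BT.Fa_leaf (P := Itm.ok 206) (iqb tp1086_c))) (BT.Fa_leaf (P := Itm.ok 206) (iqf tp1244_c))) (BT.Fa_mk (BT.Fa_leaf (P := Itm.ok 206) (iqf tp402_c)) (BT.Fa_leaf (P := Itm.ok 206) (iqf tp300_c))))) (BT.Fa_mk (BT.Fa_mk (BT.Fa_mk (BT.Fa_mk (BT.Fa_leaf (P := Itm.ok 206) (iqb tp1138_c)) (BT.Fa_leaf (P := Itm.ok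 206) (iqf tp1213_c))) (BT.Fa_leaf (P := Itm.ok 206) (iqb tp1245_c))) (BT.Fa_mk (BT.Fa_mk (BT.Fa_leaf (P := Itm.ok 206) (iqb tp807_c)) (BT.Fa_leaf (P := Itm.ok 206) (iqb tp1246_c))) (BT.Fa_leaf (P := Itm.ok 206) (iqb tp297_c)))) (BT.Fa_mk (BT.Fa_mk (BT.Fa_mk (BT.Fa_leaf (P := Itm.ok 206) (iqb tp1247_c)) (BT.Fa_leaf (P := Itm.ok 206) (iqf tp1248_c))) (BT.Fa_leaf (P := Itm.ok 206) (iqb tp1249_c))) (BT.Fa_mk (BT.Fa_leaf (P := Itm.ok 206) (iqb tp1141_c)) (BT.Fa_leaf (P := Itm.ok 206) (iqb tp1158_c))))))))))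

/-- all words of the class have labels -/
theorem pokNFyAzE2A2Ax3xA2A2EzAyF : POK 206 xNFyAzE2A2Ax3xA2A2EzAyF :=
  y_pok (C0 := ceNFyAzE2A2Ax3xA2A2EzAyF) (C1 := coNFyAzE2A2Ax3xA2A2EzAyF) topNFyAzE2A2Ax3xA2A2EzAyF nbNFyAzE2A2Ax3xA2A2EzAyF (BT.Fa_of_all iiNFyAzE2A2Ax3xA2A2EzAyF_c)
    (BT.Fa_mk (cyE_spec zeNFyAzE2A2Ax3xA2A2EzAyF_0) (BT.Fa_mk (cyE_spec zeNFyAzE2A2Ax3xA2A2EzAyF_1) (cyE_spec zeNFyAzE2A2Ax3xA2A2EzAyF_2)))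
    (BT.Fa_mk (cyO_spec zoNFyAzE2A2Ax3xA2A2EzAyF_0) (BT.Fa_mk (cyO_spec zoNFyAzE2A2Ax3xA2A2EzAyF_1) (cyO_spec zoNFyAzE2A2Ax3xA2A2EzAyF_2)))
    iiNFyAzE2A2Ax3xA2A2EzAyF_k

theorem iiNFyAzE2A2Ax3xA2AyEzAyF_k : iiNFyAzE2A2Ax3xA2AyEzAyF.Fa (Itm.ok 206) := (BT.Fa_mk (BT.Fa_mk (BT.Fa_mk (BT.Fa_mk (BT.Fa_mk (BT.Fa_mk (BT.Fa_mk (BT.Fa_mk (BT.Fa_mk (BT.Fa_leaf (P := Itm.ok 206) (iqb tp292_c)) (BT.Fa_leaf (P := Itm.ok 206) (iqb tp632_c))) (BT.Fa_leaf (P := Itm.ok 206) (iqf tp290_c))) (BT.Fa_mk (BT.Fa_leaf (P := Itm.ok 206) (iqf tp366_c)) (BT.Fa_leaf (P := Itm.ok 206) (iqb tp1278_c)))) (BT.Fa_mk (BT.Fa_mk (BT.Fa_leaf (P := Itm.ok 206) (iqf tp444_c)) (BT.Fa_leaf (P := Itm.ok 206) (iqf tp1278_c))) (BT.Fa_mk (BT.Fa_leaf (P := Itm.ok 206) (iqf tp375_c)) (BT.Fa_leaf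 (P := Itm.ok 206) (iqb tp342_c))))) (BT.Fa_mk (BT.Fa_mk (BT.Fa_mk (BT.Fa_leaf (P := Itm.ok 206) (iqb tp501_c)) (BT.Fa_leaf (P := Itm.ok 206) (iqb tp1090_c))) (BT.Fa_mk (BT.Fa_leaf (P := Itm.ok 206) (iqb tp361_c)) (BT.Fa_leaf (P := Itm.ok 206) (iqb tp410_c)))) (BT.Fa_mk (BT.Fa_mk (BT.Fa_leaf (P := Itm.ok 206) (iqb tp534_c)) (BT.Fa_leaf (P := Itm.ok 206) (iqb tp359_c))) (BT.Fa_mk (BT.Fa_leaf (P := Itm.ok 206) (iqb tp553_c)) (BT.Fa_leaf (P := Itm.ok 206) (iqb tp1249_c)))))) (BT.Fa_mk (BT.Fa_mk (BT.Fa_mk (BT.Fa_mk (BT.Fa_mk (BT.Fa_leaf (P := Itm.ok 206) (iqf tp538_c)) (BT.Fa_leaf (P := Itm.ok 206) (iqf tp359_c))) (BT.Fa_leaf (P := Itm.ok 206) (iqf tp361_c))) (BT.Fa_mk (BT.Fa_leaf (P := Itm.ok 206) (iqb tp366_c)) (BT.Fa_leaf (P := Itm.ok 206) (iqb tp1129_c))))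 (BT.Fa_mk (BT.Fa_mk (BT.Fa_leaf (P := Itm.ok 206) (iqf tp326_c)) (BT.Fa_leaf (P := Itm.ok 206) (iqf tp1103_c))) (BT.Fa_mk (BT.Fa_leaf (P := Itm.ok 206) (iqf tp536_c)) (BT.Fa_leaf (P := Itm.ok 206) (iqf tp342_c))))) (BT.Fa_mk (BT.Fa_mk (BT.Fa_mk (BT.Fa_leaf (P := Itm.ok 206) (iqf tp447_c)) (BT.Fa_leaf (P := Itm.ok 206) (iqf tp984_c))) (BT.Fa_mk (BT.Fa_leaf (P := Itm.ok 206) (iqf tp495_c)) (BT.Fa_leaf (P := Itm.ok 206) (iqb tp499_c)))) (BT.Fa_mk (BT.Fa_mk (BT.Fa_leaf (P := Itm.ok 206) (iqf tp484_c)) (BT.Fa_leaf (P := Itm.ok 206) (iqf tp351_c))) (BT.Fa_mk (BT.Fa_leaf (P := Itm.ok 206) (iqf tp533_c)) (BT.Fa_leaf (P := Itm.ok 206) (iqf tp319_c))))))) (BT.Fa_mk (BT.Fa_mk (BT.Fa_mk (BT.Fa_mk (BT.Fa_mk (BT.Fa_mk (BT.Fa_leaf (P := Itm.ok 206) (iqb tp1279_c))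 (BT.Fa_leaf (P := Itm.ok 206) (iqf tp775_c))) (BT.Fa_leaf (P := Itm.ok 206) (iqf tp531_c))) (BT.Fa_mk (BT.Fa_leaf (P := Itm.ok 206) (iqb tp589_c)) (BT.Fa_leaf (P := Itm.ok 206) (iqf tp1280_c)))) (BT.Fa_mk (BT.Fa_mk (BT.Fa_leaf (P := Itm.ok 206) (iqb tp577_c)) (BT.Fa_leaf (P := Itm.ok 206) (iqf tp349_c))) (BT.Fa_mk (BT.Fa_leaf (P := Itm.ok 206) (iqf tp962_c)) (BT.Fa_leaf (P := Itm.ok 206) (iqf tp1255_c))))) (BT.Fa_mk (BT.Fa_mk (BT.Fa_mk (BT.Fa_leaf (P := Itm.ok 206) (iqf tp417_c)) (BT.Fa_leaf (P := Itm.ok 206) (iqb tp529_c))) (BT.Fa_mk (BT.Fa_leaf (P := Itm.ok 206) (iqf tp397_c)) (BT.Fa_leaf (P := Itm.ok 206) (iqb tp532_c)))) (BT.Fa_mk (BT.Fa_mk (BT.Fa_leaf (P := Itm.ok 206) (iqf tp341_c)) (BT.Fa_leaf (P := Itm.ok 206) (iqf tp699_c))) (BT.Fa_mk (BT.Fa_leaf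 (P := Itm.ok 206) (iqf tp1281_c)) (BT.Fa_leaf (P := Itm.ok 206) (iqb tp563_c)))))) (BT.Fa_mk (BT.Fa_mk (BT.Fa_mk (BT.Fa_mk (BT.Fa_mk (BT.Fa_leaf (P := Itm.ok 206) (iqb tp571_c)) (BT.Fa_leaf (P := Itm.ok 206) (iqf tp1282_c))) (BT.Fa_leaf (P := Itm.ok 206) (iqf tp650_c))) (BT.Fa_mk (BT.Fa_leaf (P := Itm.ok 206) (iqf tp477_c)) (BT.Fa_leaf (P := Itm.ok 206) (iqf tp1165_c)))) (BT.Fa_mk (BT.Fa_mk (BT.Fa_leaf (P := Itm.ok 206) (iqb tp435_c)) (BT.Fa_leaf (P := Itm.ok 206) (iqf tp1283_c))) (BT.Fa_mk (BT.Fa_leaf (P := Itm.ok 206) (iqb tp351_c)) (BT.Fa_leaf (P := Itm.ok 206) (iqf tp948_c))))) (BT.Fa_mk (BT.Fa_mk (BT.Fa_mk (BT.Fa_leaf (P := Itm.ok 206) (iqf tp1284_c)) (BT.Fa_leaf (P := Itm.ok 206) (iqf tp489_c))) (BT.Fa_mk (BT.Fa_leaf (P := Itm.ok 206) (iqf tp1057_c))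 (BT.Fa_leaf (P := Itm.ok 206) (iqf tp494_c)))) (BT.Fa_mk (BT.Fa_mk (BT.Fa_leaf (P := Itm.ok 206) (iqf tp1133_c)) (BT.Fa_leaf (P := Itm.ok 206) (iqb tp566_c))) (BT.Fa_mk (BT.Fa_leaf (P := Itm.ok 206) (iqb tp417_c)) (BT.Fa_leaf (P := Itm.ok 206) (iqb tp489_c)))))))) (BT.Fa_mk (BT.Fa_mk (BT.Fa_mk (BT.Fa_mk (BT.Fa_mk (BT.Fa_mk (BT.Fa_mk (BT.Fa_leaf (P := Itm.ok 206) (iqf tp978_c)) (BT.Fa_leaf (P := Itm.ok 206) (iqf tp648_c))) (BT.Fa_leaf (P := Itm.ok 206) (iqf tp429_c))) (BT.Fa_mk (BT.Fa_leaf (P := Itm.ok 206) (iqb tp488_c)) (BT.Fa_leaf (P := Itm.ok 206) (iqb tp827_c)))) (BT.Fa_mk (BT.Fa_mk (BT.Fa_leaf (P := Itm.ok 206) (iqb tp658_c)) (BT.Fa_leaf (P := Itm.ok 206) (iqf tp324_c))) (BT.Fa_mk (BT.Fa_leaf (P := Itm.ok 206) (iqb tp525_c)) (BT.Fa_leaf (P :=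 Itm.ok 206) (iqf tp331_c))))) (BT.Fa_mk (BT.Fa_mk (BT.Fa_mk (BT.Fa_leaf (P := Itm.ok 206) (iqb tp614_c)) (BT.Fa_leaf (P := Itm.ok 206) (iqf tp517_c))) (BT.Fa_mk (BT.Fa_leaf (P := Itm.ok 206) (iqf tp300_c)) (BT.Fa_leaf (P := Itm.ok 206) (iqf tp1285_c)))) (BT.Fa_mk (BT.Fa_mk (BT.Fa_leaf (P := Itm.ok 206) (iqb tp324_c)) (BT.Fa_leaf (P := Itm.ok 206) (iqb tp596_c))) (BT.Fa_mk (BT.Fa_leaf (P := Itm.ok 206) (iqb tp334_c)) (BT.Fa_leaf (P := Itm.ok 206) (iqf tp597_c)))))) (BT.Fa_mk (BT.Fa_mk (BT.Fa_mk (BT.Fa_mk (BT.Fa_mk (BT.Fa_leaf (P := Itm.ok 206) (iqb tp1139_c)) (BT.Fa_leaf (P := Itm.ok 206) (iqf tp789_c))) (BT.Fa_leaf (P := Itm.ok 206) (iqb tp638_c))) (BT.Fa_mk (BT.Fa_leaf (P := Itm.ok 206) (iqb tp1286_c)) (BT.Fa_leaf (P := Itm.ok 206) (iqf tp589_c))))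 (BT.Fa_mk (BT.Fa_mk (BT.Fa_leaf (P := Itm.ok 206) (iqf tp1138_c)) (BT.Fa_leaf (P := Itm.ok 206) (iqf tp378_c))) (BT.Fa_mk (BT.Fa_leaf (P := Itm.ok 206) (iqf tp382_c)) (BT.Fa_leaf (P := Itm.ok 206) (iqf tp405_c))))) (BT.Fa_mk (BT.Fa_mk (BT.Fa_mk (BT.Fa_leaf (P := Itm.ok 206) (iqf tp320_c)) (BT.Fa_leaf (P := Itm.ok 206) (iqf tp755_c))) (BT.Fa_mk (BT.Fa_leaf (P := Itm.ok 206) (iqf tp519_c)) (BT.Fa_leaf (P := Itm.ok 206) (iqb tp662_c)))) (BT.Fa_mk (BT.Fa_mk (BT.Fa_leaf (P := Itm.ok 206) (iqb tp1137_c)) (BT.Fa_leaf (P := Itm.ok 206) (iqf tp1142_c))) (BT.Fa_mk (BT.Fa_leaf (P := Itm.ok 206) (iqb tp481_c)) (BT.Fa_leaf (P := Itm.ok 206) (iqf tp1287_c))))))) (BT.Fa_mk (BT.Fa_mk (BT.Fa_mk (BT.Fa_mk (BT.Fa_mk (BT.Fa_mk (BT.Fa_leaf (P := Itm.ok 206) (iqb tp1288_c))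 (BT.Fa_leaf (P := Itm.ok 206) (iqb tp504_c))) (BT.Fa_leaf (P := Itm.ok 206) (iqb tp1197_c))) (BT.Fa_mk (BT.Fa_leaf (P := Itm.ok 206) (iqf tp965_c)) (BT.Fa_leaf (P := Itm.ok 206) (iqf tp1151_c)))) (BT.Fa_mk (BT.Fa_mk (BT.Fa_leaf (P := Itm.ok 206) (iqf tp527_c)) (BT.Fa_leaf (P := Itm.ok 206) (iqb tp494_c))) (BT.Fa_mk (BT.Fa_leaf (P := Itm.ok 206) (iqf tp575_c)) (BT.Fa_leaf (P := Itm.ok 206) (iqf tp1249_c))))) (BT.Fa_mk (BT.Fa_mk (BT.Fa_mk (BT.Fa_leaf (P := Itm.ok 206) (iqf tp402_c)) (BT.Fa_leaf (P := Itm.ok 206) (iqf tp404_c))) (BT.Fa_mk (BT.Fa_leaf (P := Itm.ok 206) (iqf tp1140_c)) (BT.Fa_leaf (P := Itm.ok 206) (iqb tp984_c)))) (BT.Fa_mk (BT.Fa_mk (BT.Fa_leaf (P := Itm.ok 206) (iqf tp525_c)) (BT.Fa_leaf (P := Itm.ok 206) (iqf tp556_c))) (BT.Fa_mk (BT.Fa_leaf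 (P := Itm.ok 206) (iqb tp1289_c)) (BT.Fa_leaf (P := Itm.ok 206) (iqf tp1290_c)))))) (BT.Fa_mk (BT.Fa_mk (BT.Fa_mk (BT.Fa_mk (BT.Fa_leaf (P := Itm.ok 206) (iqf tp606_c)) (BT.Fa_leaf (P := Itm.ok 206) (iqf tp1157_c))) (BT.Fa_mk (BT.Fa_leaf (P := Itm.ok 206) (iqb tp519_c)) (BT.Fa_leaf (P := Itm.ok 206) (iqb tp530_c)))) (BT.Fa_mk (BT.Fa_mk (BT.Fa_leaf (P := Itm.ok 206) (iqb tp575_c)) (BT.Fa_leaf (P := Itm.ok 206) (iqf tp1291_c))) (BT.Fa_mk (BT.Fa_leaf (P := Itm.ok 206) (iqf tp504_c)) (BT.Fa_leaf (P := Itm.ok 206) (iqf tp667_c))))) (BT.Fa_mk (BT.Fa_mk (BT.Fa_mk (BT.Fa_leaf (P := Itm.ok 206) (iqf tp565_c)) (BT.Fa_leaf (P := Itm.ok 206) (iqf tp665_c))) (BT.Fa_mk (BT.Fa_leaf (P := Itm.ok 206) (iqf tp1292_c)) (BT.Fa_leaf (P := Itm.ok 206) (iqf tp1184_c))))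 (BT.Fa_mk (BT.Fa_mk (BT.Fa_leaf (P := Itm.ok 206) (iqf tp1293_c)) (BT.Fa_leaf (P := Itm.ok 206) (iqf tp1173_c))) (BT.Fa_mk (BT.Fa_leaf (P := Itm.ok 206) (iqf tp344_c)) (BT.Fa_leaf (P := Itm.ok 206) (iqf tp658_c))))))))) (BT.Fa_mk (BT.Fa_mk (BT.Fa_mk (BT.Fa_mk (BT.Fa_mk (BT.Fa_mk (BT.Fa_mk (BT.Fa_mk (BT.Fa_leaf (P := Itm.ok 206) (iqb tp344_c)) (BT.Fa_leaf (P := Itm.ok 206) (iqf tp1163_c))) (BT.Fa_leaf (P := Itm.ok 206) (iqb tp533_c))) (BT.Fa_mk (BT.Fa_leaf (P := Itm.ok 206) (iqb tp559_c)) (BT.Fa_leaf (P := Itm.ok 206) (iqb tp1294_c)))) (BT.Fa_mk (BT.Fa_mk (BT.Fa_leaf (P := Itm.ok 206) (iqb tp556_c)) (BT.Fa_leaf (P := Itm.ok 206) (iqb tp1077_c))) (BT.Fa_mk (BT.Fa_leaf (P := Itm.ok 206) (iqf tp907_c)) (BT.Fa_leaf (P := Itm.ok 206) (iqb tp648_c))))) (BT.Fa_mk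 (BT.Fa_mk (BT.Fa_mk (BT.Fa_leaf (P := Itm.ok 206) (iqf tp1289_c)) (BT.Fa_leaf (P := Itm.ok 206) (iqf tp1065_c))) (BT.Fa_mk (BT.Fa_leaf (P := Itm.ok 206) (iqb tp550_c)) (BT.Fa_leaf (P := Itm.ok 206) (iqf tp492_c)))) (BT.Fa_mk (BT.Fa_mk (BT.Fa_leaf (P := Itm.ok 206) (iqb tp558_c)) (BT.Fa_leaf (P := Itm.ok 206) (iqb tp1162_c))) (BT.Fa_mk (BT.Fa_leaf (P := Itm.ok 206) (iqb tp1182_c)) (BT.Fa_leaf (P := Itm.ok 206) (iqf tp1156_c)))))) (BT.Fa_mk (BT.Fa_mk (BT.Fa_mk (BT.Fa_mk (BT.Fa_mk (BT.Fa_leaf (P := Itm.ok 206) (iqf tp1294_c)) (BT.Fa_leaf (P := Itm.ok 206) (iqb tp1163_c))) (BT.Fa_leaf (P := Itm.ok 206) (iqb tp1133_c))) (BT.Fa_mk (BT.Fa_leaf (P := Itm.ok 206) (iqb tp1119_c)) (BT.Fa_leaf (P := Itm.ok 206) (iqb tp341_c)))) (BT.Fa_mk (BT.Fa_mk (BT.Fa_leaf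 (P := Itm.ok 206) (iqb tp578_c)) (BT.Fa_leaf (P := Itm.ok 206) (iqb tp502_c))) (BT.Fa_mk (BT.Fa_leaf (P := Itm.ok 206) (iqf tp1128_c)) (BT.Fa_leaf (P := Itm.ok 206) (iqf tp578_c))))) (BT.Fa_mk (BT.Fa_mk (BT.Fa_mk (BT.Fa_leaf (P := Itm.ok 206) (iqf tp385_c)) (BT.Fa_leaf (P := Itm.ok 206) (iqb tp1295_c))) (BT.Fa_mk (BT.Fa_leaf (P := Itm.ok 206) (iqb tp1296_c)) (BT.Fa_leaf (P := Itm.ok 206) (iqb tp678_c)))) (BT.Fa_mk (BT.Fa_mk (BT.Fa_leaf (P := Itm.ok 206) (iqf tp1297_c)) (BT.Fa_leaf (P := Itm.ok 206) (iqf tp1126_c))) (BT.Fa_mk (BT.Fa_leaf (P := Itm.ok 206) (iqf tp501_c)) (BT.Fa_leaf (P := Itm.ok 206) (iqb tp1298_c))))))) (BT.Fa_mk (BT.Fa_mk (BT.Fa_mk (BT.Fa_mk (BT.Fa_mk (BT.Fa_mk (BT.Fa_leaf (P := Itm.ok 206) (iqb tp1188_c)) (BT.Fa_leaf (P := Itm.ok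 206) (iqb tp581_c))) (BT.Fa_leaf (P := Itm.ok 206) (iqf tp348_c))) (BT.Fa_mk (BT.Fa_leaf (P := Itm.ok 206) (iqb tp694_c)) (BT.Fa_leaf (P := Itm.ok 206) (iqf tp1299_c)))) (BT.Fa_mk (BT.Fa_mk (BT.Fa_leaf (P := Itm.ok 206) (iqf tp550_c)) (BT.Fa_leaf (P := Itm.ok 206) (iqf tp1300_c))) (BT.Fa_mk (BT.Fa_leaf (P := Itm.ok 206) (iqf tp1301_c)) (BT.Fa_leaf (P := Itm.ok 206) (iqb tp1302_c))))) (BT.Fa_mk (BT.Fa_mk (BT.Fa_mk (BT.Fa_leaf (P := Itm.ok 206) (iqf tp499_c)) (BT.Fa_leaf (P := Itm.ok 206) (iqb tp386_c))) (BT.Fa_mk (BT.Fa_leaf (P := Itm.ok 206) (iqb tp1269_c)) (BT.Fa_leaf (P := Itm.ok 206) (iqb tp560_c)))) (BT.Fa_mk (BT.Fa_mk (BT.Fa_leaf (P := Itm.ok 206) (iqb tp1303_c)) (BT.Fa_leaf (P := Itm.ok 206) (iqb tp1301_c))) (BT.Fa_mk (BT.Fa_leaf (P := Itm.ok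 206) (iqb tp555_c)) (BT.Fa_leaf (P := Itm.ok 206) (iqf tp558_c)))))) (BT.Fa_mk (BT.Fa_mk (BT.Fa_mk (BT.Fa_mk (BT.Fa_mk (BT.Fa_leaf (P := Itm.ok 206) (iqf tp299_c)) (BT.Fa_leaf (P := Itm.ok 206) (iqb tp1065_c))) (BT.Fa_leaf (P := Itm.ok 206) (iqf tp1304_c))) (BT.Fa_mk (BT.Fa_leaf (P := Itm.ok 206) (iqb tp1251_c)) (BT.Fa_leaf (P := Itm.ok 206) (iqb tp623_c)))) (BT.Fa_mk (BT.Fa_mk (BT.Fa_leaf (P := Itm.ok 206) (iqb tp1305_c)) (BT.Fa_leaf (P := Itm.ok 206) (iqb tp1181_c))) (BT.Fa_mk (BT.Fa_leaf (P := Itm.ok 206) (iqf tp647_c)) (BT.Fa_leaf (P := Itm.ok 206) (iqb tp367_c))))) (BT.Fa_mk (BT.Fa_mk (BT.Fa_mk (BT.Fa_leaf (P := Itm.ok 206) (iqf tp1135_c)) (BT.Fa_leaf (P := Itm.ok 206) (iqf tp949_c))) (BT.Fa_mk (BT.Fa_leaf (P := Itm.ok 206) (iqb tp565_c)) (BT.Fa_leaf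 (P := Itm.ok 206) (iqb tp592_c)))) (BT.Fa_mk (BT.Fa_mk (BT.Fa_leaf (P := Itm.ok 206) (iqb tp1191_c)) (BT.Fa_leaf (P := Itm.ok 206) (iqf tp1193_c))) (BT.Fa_mk (BT.Fa_leaf (P := Itm.ok 206) (iqf tp1306_c)) (BT.Fa_leaf (P := Itm.ok 206) (iqb tp402_c)))))))) (BT.Fa_mk (BT.Fa_mk (BT.Fa_mk (BT.Fa_mk (BT.Fa_mk (BT.Fa_mk (BT.Fa_mk (BT.Fa_leaf (P := Itm.ok 206) (iqb tp1201_c)) (BT.Fa_leaf (P := Itm.ok 206) (iqb tp1285_c))) (BT.Fa_leaf (P := Itm.ok 206) (iqf tp509_c))) (BT.Fa_mk (BT.Fa_leaf (P := Itm.ok 206) (iqf tp1307_c)) (BT.Fa_leaf (P := Itm.ok 206) (iqf tp571_c)))) (BT.Fa_mk (BT.Fa_mk (BT.Fa_leaf (P := Itm.ok 206) (iqf tp1225_c)) (BT.Fa_leaf (P := Itm.ok 206) (iqf tp1146_c))) (BT.Fa_mk (BT.Fa_leaf (P := Itm.ok 206) (iqf tp741_c)) (BT.Fa_leaf (P := Itm.ok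 206) (iqf tp1196_c))))) (BT.Fa_mk (BT.Fa_mk (BT.Fa_mk (BT.Fa_leaf (P := Itm.ok 206) (iqb tp365_c)) (BT.Fa_leaf (P := Itm.ok 206) (iqf tp1308_c))) (BT.Fa_mk (BT.Fa_leaf (P := Itm.ok 206) (iqf tp1130_c)) (BT.Fa_leaf (P := Itm.ok 206) (iqf tp461_c)))) (BT.Fa_mk (BT.Fa_mk (BT.Fa_leaf (P := Itm.ok 206) (iqf tp1150_c)) (BT.Fa_leaf (P := Itm.ok 206) (iqf tp1309_c))) (BT.Fa_mk (BT.Fa_leaf (P := Itm.ok 206) (iqb tp897_c)) (BT.Fa_leaf (P := Itm.ok 206) (iqf tp669_c)))))) (BT.Fa_mk (BT.Fa_mk (BT.Fa_mk (BT.Fa_mk (BT.Fa_mk (BT.Fa_leaf (P := Itm.ok 206) (iqb tp380_c)) (BT.Fa_leaf (P := Itm.ok 206) (iqb tp568_c))) (BT.Fa_leaf (P := Itm.ok 206) (iqf tp541_c))) (BT.Fa_mk (BT.Fa_leaf (P := Itm.ok 206) (iqf tp1311_c)) (BT.Fa_leaf (P := Itm.ok 206) (iqf tp693_c)))) (BT.Fa_mk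 (BT.Fa_mk (BT.Fa_leaf (P := Itm.ok 206) (iqb tp1204_c)) (BT.Fa_leaf (P := Itm.ok 206) (iqb tp737_c))) (BT.Fa_mk (BT.Fa_leaf (P := Itm.ok 206) (iqf tp1312_c)) (BT.Fa_leaf (P := Itm.ok 206) (iqb tp1313_c))))) (BT.Fa_mk (BT.Fa_mk (BT.Fa_mk (BT.Fa_leaf (P := Itm.ok 206) (iqf tp1314_c)) (BT.Fa_leaf (P := Itm.ok 206) (iqf tp682_c))) (BT.Fa_mk (BT.Fa_leaf (P := Itm.ok 206) (iqb tp1166_c)) (BT.Fa_leaf (P := Itm.ok 206) (iqf tp1315_c)))) (BT.Fa_mk (BT.Fa_mk (BT.Fa_leaf (P := Itm.ok 206) (iqf tp1164_c)) (BT.Fa_leaf (P := Itm.ok 206) (iqb tp642_c))) (BT.Fa_mk (BT.Fa_leaf (P := Itm.ok 206) (iqf tp1114_c)) (BT.Fa_leaf (P := Itm.ok 206) (iqb tp1026_c))))))) (BT.Fa_mk (BT.Fa_mk (BT.Fa_mk (BT.Fa_mk (BT.Fa_mk (BT.Fa_mk (BT.Fa_leaf (P := Itm.ok 206) (iqf tp1316_c))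 (BT.Fa_leaf (P := Itm.ok 206) (iqf tp1317_c))) (BT.Fa_leaf (P := Itm.ok 206) (iqb tp1318_c))) (BT.Fa_mk (BT.Fa_leaf (P := Itm.ok 206) (iqf tp1319_c)) (BT.Fa_leaf (P := Itm.ok 206) (iqf tp1320_c)))) (BT.Fa_mk (BT.Fa_mk (BT.Fa_leaf (P := Itm.ok 206) (iqb tp1321_c)) (BT.Fa_leaf (P := Itm.ok 206) (iqb tp1147_c))) (BT.Fa_mk (BT.Fa_leaf (P := Itm.ok 206) (iqb tp1110_c)) (BT.Fa_leaf (P := Itm.ok 206) (iqf tp1310_c))))) (BT.Fa_mk (BT.Fa_mk (BT.Fa_mk (BT.Fa_leaf (P := Itm.ok 206) (iqf tp1246_c)) (BT.Fa_leaf (P := Itm.ok 206) (iqf tp1323_c))) (BT.Fa_mk (BT.Fa_leaf (P := Itm.ok 206) (iqf tp731_c)) (BT.Fa_leaf (P := Itm.ok 206) (iqb tp641_c)))) (BT.Fa_mk (BT.Fa_mk (BT.Fa_leaf (P := Itm.ok 206) (iqb tp1324_c)) (BT.Fa_leaf (P := Itm.ok 206) (iqb tp1143_c))) (BT.Fa_mk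 (BT.Fa_leaf (P := Itm.ok 206) (iqf tp1325_c)) (BT.Fa_leaf (P := Itm.ok 206) (iqf tp1326_c)))))) (BT.Fa_mk (BT.Fa_mk (BT.Fa_mk (BT.Fa_mk (BT.Fa_leaf (P := Itm.ok 206) (iqf tp1327_c)) (BT.Fa_leaf (P := Itm.ok 206) (iqb tp1328_c))) (BT.Fa_mk (BT.Fa_leaf (P := Itm.ok 206) (iqb tp1329_c)) (BT.Fa_leaf (P := Itm.ok 206) (iqb tp1330_c)))) (BT.Fa_mk (BT.Fa_mk (BT.Fa_leaf (P := Itm.ok 206) (iqf tp1331_c)) (BT.Fa_leaf (P := Itm.ok 206) (iqb tp1332_c))) (BT.Fa_mk (BT.Fa_leaf (P := Itm.ok 206) (iqb tp1333_c)) (BT.Fa_leaf (P := Itm.ok 206) (iqb tp1165_c))))) (BT.Fa_mk (BT.Fa_mk (BT.Fa_mk (BT.Fa_leaf (P := Itm.ok 206) (iqf tp1334_c)) (BT.Fa_leaf (P := Itm.ok 206) (iqf tp986_c))) (BT.Fa_mk (BT.Fa_leaf (P := Itm.ok 206) (iqb tp606_c)) (BT.Fa_leaf (P := Itm.ok 206)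 (iqf tp1335_c)))) (BT.Fa_mk (BT.Fa_mk (BT.Fa_leaf (P := Itm.ok 206) (iqb tp639_c)) (BT.Fa_leaf (P := Itm.ok 206) (iqf tp770_c))) (BT.Fa_mk (BT.Fa_leaf (P := Itm.ok 206) (iqb tp1336_c)) (BT.Fa_leaf (P := Itm.ok 206) (iqb tp1103_c))))))))))

/-- all words of the class have labels -/
theorem pokNFyAzE2A2Ax3xA2AyEzAyF : POK 206 xNFyAzE2A2Ax3xA2AyEzAyF :=
  y_pok (C0 := ceNFyAzE2A2Ax3xA2AyEzAyF) (C1 := coNFyAzE2A2Ax3xA2AyEzAyF) topNFyAzE2A2Ax3xA2AyEzAyF nbNFyAzE2A2Ax3xA2AyEzAyF (BT.Fa_of_all iiNFyAzE2A2Ax3xA2AyEzAyF_c)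
    (cyE_spec zeNFyAzE2A2Ax3xA2AyEzAyF_0)
    (cyO_spec zoNFyAzE2A2Ax3xA2AyEzAyF_0)
    iiNFyAzE2A2Ax3xA2AyEzAyF_k

theorem iiNFyAzE2A2Ax3xA2AyEzAzF_k : iiNFyAzE2A2Ax3xA2AyEzAzF.Fa (Itm.ok 206) := (BT.Fa_mk (BT.Fa_mk (BT.Fa_mk (BT.Fa_mk (BT.Fa_mk (BT.Fa_mk (BT.Fa_mk (BT.Fa_mk (BT.Fa_leaf (P := Itm.ok 206) (iqb tp355_c)) (BT.Fa_leaf (P := Itm.ok 206) (iqf tp524_c))) (BT.Fa_leaf (P := Itm.ok 206) (iqf tp600_c))) (BT.Fa_mk (BT.Fa_leaf (P := Itm.ok 206) (iqb tp525_c)) (BT.Fa_leaf (P := Itm.ok 206) (iqf tp447_c)))) (BT.Fa_mk (BT.Fa_mk (BT.Fa_mk (BT.Fa_leaf (P := Itm.ok 206) (iqf tp1126_c)) (BT.Fa_leaf (P := Itm.ok 206) (iqf tp526_c))) (BT.Fa_leaf (P := Itm.ok 206) (iqf tp399_c))) (BT.Fa_mk (BT.Fa_leaf (P := Itm.ok 206) (iqf tp527_c)) (BT.Fa_leaf (P :=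 Itm.ok 206) (iqf tp948_c))))) (BT.Fa_mk (BT.Fa_mk (BT.Fa_mk (BT.Fa_mk (BT.Fa_leaf (P := Itm.ok 206) (iqb tp403_c)) (BT.Fa_leaf (P := Itm.ok 206) (iqf tp528_c))) (BT.Fa_leaf (P := Itm.ok 206) (iqf tp292_c))) (BT.Fa_mk (BT.Fa_leaf (P := Itm.ok 206) (iqf tp324_c)) (BT.Fa_leaf (P := Itm.ok 206) (iqf tp647_c)))) (BT.Fa_mk (BT.Fa_mk (BT.Fa_mk (BT.Fa_leaf (P := Itm.ok 206) (iqf tp326_c)) (BT.Fa_leaf (P := Itm.ok 206) (iqb tp326_c))) (BT.Fa_leaf (P := Itm.ok 206) (iqb tp614_c))) (BT.Fa_mk (BT.Fa_leaf (P := Itm.ok 206) (iqf tp331_c)) (BT.Fa_leaf (P := Itm.ok 206) (iqb tp331_c)))))) (BT.Fa_mk (BT.Fa_mk (BT.Fa_mk (BT.Fa_mk (BT.Fa_mk (BT.Fa_leaf (P := Itm.ok 206) (iqb tp490_c)) (BT.Fa_leaf (P := Itm.ok 206) (iqf tp477_c))) (BT.Fa_leaf (P := Itm.ok 206) (iqf tp529_c)))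 (BT.Fa_mk (BT.Fa_leaf (P := Itm.ok 206) (iqf tp514_c)) (BT.Fa_leaf (P := Itm.ok 206) (iqf tp342_c)))) (BT.Fa_mk (BT.Fa_mk (BT.Fa_mk (BT.Fa_leaf (P := Itm.ok 206) (iqf tp334_c)) (BT.Fa_leaf (P := Itm.ok 206) (iqb tp334_c))) (BT.Fa_leaf (P := Itm.ok 206) (iqf tp368_c))) (BT.Fa_mk (BT.Fa_leaf (P := Itm.ok 206) (iqb tp984_c)) (BT.Fa_leaf (P := Itm.ok 206) (iqf tp367_c))))) (BT.Fa_mk (BT.Fa_mk (BT.Fa_mk (BT.Fa_mk (BT.Fa_leaf (P := Itm.ok 206) (iqb tp949_c)) (BT.Fa_leaf (P := Itm.ok 206) (iqb tp530_c))) (BT.Fa_leaf (P := Itm.ok 206) (iqb tp489_c))) (BT.Fa_mk (BT.Fa_leaf (P := Itm.ok 206) (iqf tp698_c)) (BT.Fa_leaf (P := Itm.ok 206) (iqf tp341_c)))) (BT.Fa_mk (BT.Fa_mk (BT.Fa_mk (BT.Fa_leaf (P := Itm.ok 206) (iqb tp341_c)) (BT.Fa_leaf (P := Itm.ok 206) (iqf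 tp344_c))) (BT.Fa_leaf (P := Itm.ok 206) (iqb tp531_c))) (BT.Fa_mk (BT.Fa_leaf (P := Itm.ok 206) (iqf tp319_c)) (BT.Fa_leaf (P := Itm.ok 206) (iqf tp405_c))))))) (BT.Fa_mk (BT.Fa_mk (BT.Fa_mk (BT.Fa_mk (BT.Fa_mk (BT.Fa_mk (BT.Fa_leaf (P := Itm.ok 206) (iqf tp404_c)) (BT.Fa_leaf (P := Itm.ok 206) (iqf tp1157_c))) (BT.Fa_leaf (P := Itm.ok 206) (iqf tp378_c))) (BT.Fa_mk (BT.Fa_leaf (P := Itm.ok 206) (iqb tp351_c)) (BT.Fa_leaf (P := Itm.ok 206) (iqb tp532_c)))) (BT.Fa_mk (BT.Fa_mk (BT.Fa_mk (BT.Fa_leaf (P := Itm.ok 206) (iqf tp484_c)) (BT.Fa_leaf (P := Itm.ok 206) (iqb tp484_c))) (BT.Fa_leaf (P := Itm.ok 206) (iqf tp552_c))) (BT.Fa_mk (BT.Fa_leaf (P := Itm.ok 206) (iqf tp533_c)) (BT.Fa_leaf (P := Itm.ok 206) (iqb tp533_c))))) (BT.Fa_mk (BT.Fa_mk (BT.Fa_mk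 (BT.Fa_mk (BT.Fa_leaf (P := Itm.ok 206) (iqf tp510_c)) (BT.Fa_leaf (P := Itm.ok 206) (iqb tp553_c))) (BT.Fa_leaf (P := Itm.ok 206) (iqb tp519_c))) (BT.Fa_mk (BT.Fa_leaf (P := Itm.ok 206) (iqf tp578_c)) (BT.Fa_leaf (P := Itm.ok 206) (iqb tp372_c)))) (BT.Fa_mk (BT.Fa_mk (BT.Fa_mk (BT.Fa_leaf (P := Itm.ok 206) (iqf tp775_c)) (BT.Fa_leaf (P := Itm.ok 206) (iqb tp565_c))) (BT.Fa_leaf (P := Itm.ok 206) (iqf tp589_c))) (BT.Fa_mk (BT.Fa_leaf (P := Itm.ok 206) (iqf tp356_c)) (BT.Fa_leaf (P := Itm.ok 206) (iqf tp534_c)))))) (BT.Fa_mk (BT.Fa_mk (BT.Fa_mk (BT.Fa_mk (BT.Fa_mk (BT.Fa_leaf (P := Itm.ok 206) (iqb tp810_c)) (BT.Fa_leaf (P := Itm.ok 206) (iqf tp536_c))) (BT.Fa_leaf (P := Itm.ok 206) (iqf tp348_c))) (BT.Fa_mk (BT.Fa_leaf (P := Itm.ok 206) (iqf tp492_c))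 (BT.Fa_leaf (P := Itm.ok 206) (iqb tp569_c)))) (BT.Fa_mk (BT.Fa_mk (BT.Fa_mk (BT.Fa_leaf (P := Itm.ok 206) (iqb tp354_c)) (BT.Fa_leaf (P := Itm.ok 206) (iqb tp1252_c))) (BT.Fa_leaf (P := Itm.ok 206) (iqb tp1253_c))) (BT.Fa_mk (BT.Fa_leaf (P := Itm.ok 206) (iqf tp375_c)) (BT.Fa_leaf (P := Itm.ok 206) (iqb tp1043_c))))) (BT.Fa_mk (BT.Fa_mk (BT.Fa_mk (BT.Fa_mk (BT.Fa_leaf (P := Itm.ok 206) (iqf tp350_c)) (BT.Fa_leaf (P := Itm.ok 206) (iqb tp577_c))) (BT.Fa_leaf (P := Itm.ok 206) (iqf tp361_c))) (BT.Fa_mk (BT.Fa_leaf (P := Itm.ok 206) (iqb tp361_c)) (BT.Fa_leaf (P := Itm.ok 206) (iqf tp364_c)))) (BT.Fa_mk (BT.Fa_mk (BT.Fa_leaf (P := Itm.ok 206) (iqb tp653_c)) (BT.Fa_leaf (P := Itm.ok 206) (iqb tp690_c))) (BT.Fa_mk (BT.Fa_leaf (P := Itm.ok 206) (iqf tp312_c))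 (BT.Fa_leaf (P := Itm.ok 206) (iqf tp401_c)))))))) (BT.Fa_mk (BT.Fa_mk (BT.Fa_mk (BT.Fa_mk (BT.Fa_mk (BT.Fa_mk (BT.Fa_mk (BT.Fa_leaf (P := Itm.ok 206) (iqf tp289_c)) (BT.Fa_leaf (P := Itm.ok 206) (iqb tp433_c))) (BT.Fa_leaf (P := Itm.ok 206) (iqf tp347_c))) (BT.Fa_mk (BT.Fa_leaf (P := Itm.ok 206) (iqb tp360_c)) (BT.Fa_leaf (P := Itm.ok 206) (iqf tp365_c)))) (BT.Fa_mk (BT.Fa_mk (BT.Fa_mk (BT.Fa_leaf (P := Itm.ok 206) (iqf tp386_c)) (BT.Fa_leaf (P := Itm.ok 206) (iqb tp550_c))) (BT.Fa_leaf (P := Itm.ok 206) (iqf tp590_c))) (BT.Fa_mk (BT.Fa_leaf (P := Itm.ok 206) (iqb tp1301_c)) (BT.Fa_leaf (P := Itm.ok 206) (iqb tp555_c))))) (BT.Fa_mk (BT.Fa_mk (BT.Fa_mk (BT.Fa_mk (BT.Fa_leaf (P := Itm.ok 206) (iqf tp1158_c)) (BT.Fa_leaf (P := Itm.ok 206) (iqf tp366_c)))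 (BT.Fa_leaf (P := Itm.ok 206) (iqb tp410_c))) (BT.Fa_mk (BT.Fa_leaf (P := Itm.ok 206) (iqf tp1337_c)) (BT.Fa_leaf (P := Itm.ok 206) (iqb tp609_c)))) (BT.Fa_mk (BT.Fa_mk (BT.Fa_mk (BT.Fa_leaf (P := Itm.ok 206) (iqb tp632_c)) (BT.Fa_leaf (P := Itm.ok 206) (iqb tp395_c))) (BT.Fa_leaf (P := Itm.ok 206) (iqb tp363_c))) (BT.Fa_mk (BT.Fa_leaf (P := Itm.ok 206) (iqf tp882_c)) (BT.Fa_leaf (P := Itm.ok 206) (iqf tp494_c)))))) (BT.Fa_mk (BT.Fa_mk (BT.Fa_mk (BT.Fa_mk (BT.Fa_mk (BT.Fa_leaf (P := Itm.ok 206) (iqf tp542_c)) (BT.Fa_leaf (P := Itm.ok 206) (iqf tp509_c))) (BT.Fa_leaf (P := Itm.ok 206) (iqb tp509_c))) (BT.Fa_mk (BT.Fa_leaf (P := Itm.ok 206) (iqf tp544_c)) (BT.Fa_leaf (P := Itm.ok 206) (iqf tp563_c)))) (BT.Fa_mk (BT.Fa_mk (BT.Fa_mk (BT.Fa_leaf (P :=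 Itm.ok 206) (iqb tp559_c)) (BT.Fa_leaf (P := Itm.ok 206) (iqf tp1338_c))) (BT.Fa_leaf (P := Itm.ok 206) (iqb tp603_c))) (BT.Fa_mk (BT.Fa_leaf (P := Itm.ok 206) (iqb tp595_c)) (BT.Fa_leaf (P := Itm.ok 206) (iqf tp596_c))))) (BT.Fa_mk (BT.Fa_mk (BT.Fa_mk (BT.Fa_mk (BT.Fa_leaf (P := Itm.ok 206) (iqb tp546_c)) (BT.Fa_leaf (P := Itm.ok 206) (iqb tp1080_c))) (BT.Fa_leaf (P := Itm.ok 206) (iqb tp549_c))) (BT.Fa_mk (BT.Fa_leaf (P := Itm.ok 206) (iqf tp1267_c)) (BT.Fa_leaf (P := Itm.ok 206) (show Itm.ok 206 (.pat 3389 pq97) from (POK.mono (by decide) pq97_ok))))) (BT.Fa_mk (BT.Fa_mk (BT.Fa_leaf (P := Itm.ok 206) (show Itm.ok 206 (.pat 3429 pq98) from (POK.mono (by decide) pq98_ok))) (BT.Fa_leaf (P := Itm.ok 206) (show Itm.ok 206 (.pat 3471 pq99) from (POK.mono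 (by decide) pq99_ok)))) (BT.Fa_mk (BT.Fa_leaf (P := Itm.ok 206) (iqb tp566_c)) (BT.Fa_leaf (P := Itm.ok 206) (iqb tp1339_c))))))) (BT.Fa_mk (BT.Fa_mk (BT.Fa_mk (BT.Fa_mk (BT.Fa_mk (BT.Fa_mk (BT.Fa_leaf (P := Itm.ok 206) (iqf tp1133_c)) (BT.Fa_leaf (P := Itm.ok 206) (iqf tp499_c))) (BT.Fa_leaf (P := Itm.ok 206) (iqf tp839_c))) (BT.Fa_mk (BT.Fa_leaf (P := Itm.ok 206) (iqf tp1138_c)) (BT.Fa_leaf (P := Itm.ok 206) (iqb tp501_c)))) (BT.Fa_mk (BT.Fa_mk (BT.Fa_mk (BT.Fa_leaf (P := Itm.ok 206) (iqf tp1119_c)) (BT.Fa_leaf (P := Itm.ok 206) (iqf tp610_c))) (BT.Fa_leaf (P := Itm.ok 206) (iqf tp547_c))) (BT.Fa_mk (BT.Fa_leaf (P := Itm.ok 206) (iqf tp351_c)) (BT.Fa_leaf (P := Itm.ok 206) (iqf tp525_c))))) (BT.Fa_mk (BT.Fa_mk (BT.Fa_mk (BT.Fa_mk (BT.Fa_leaf (P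 := Itm.ok 206) (iqf tp353_c)) (BT.Fa_leaf (P := Itm.ok 206) (iqf tp411_c))) (BT.Fa_leaf (P := Itm.ok 206) (iqf tp504_c))) (BT.Fa_mk (BT.Fa_leaf (P := Itm.ok 206) (iqb tp1065_c)) (BT.Fa_leaf (P := Itm.ok 206) (iqb tp558_c)))) (BT.Fa_mk (BT.Fa_mk (BT.Fa_mk (BT.Fa_leaf (P := Itm.ok 206) (iqf tp436_c)) (BT.Fa_leaf (P := Itm.ok 206) (iqb tp426_c))) (BT.Fa_leaf (P := Itm.ok 206) (iqf tp669_c))) (BT.Fa_mk (BT.Fa_leaf (P := Itm.ok 206) (iqf tp969_c)) (BT.Fa_leaf (P := Itm.ok 206) (iqb tp1201_c)))))) (BT.Fa_mk (BT.Fa_mk (BT.Fa_mk (BT.Fa_mk (BT.Fa_mk (BT.Fa_leaf (P := Itm.ok 206) (iqf tp612_c)) (BT.Fa_leaf (P := Itm.ok 206) (iqf tp1340_c))) (BT.Fa_leaf (P := Itm.ok 206) (iqf tp1104_c))) (BT.Fa_mk (BT.Fa_leaf (P := Itm.ok 206) (iqb tp320_c)) (BT.Fa_leaf (P :=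 Itm.ok 206) (iqb tp424_c)))) (BT.Fa_mk (BT.Fa_mk (BT.Fa_mk (BT.Fa_leaf (P := Itm.ok 206) (iqf tp604_c)) (BT.Fa_leaf (P := Itm.ok 206) (iqb tp378_c))) (BT.Fa_leaf (P := Itm.ok 206) (iqf tp388_c))) (BT.Fa_mk (BT.Fa_leaf (P := Itm.ok 206) (iqf tp571_c)) (BT.Fa_leaf (P := Itm.ok 206) (iqb tp1107_c))))) (BT.Fa_mk (BT.Fa_mk (BT.Fa_mk (BT.Fa_mk (BT.Fa_leaf (P := Itm.ok 206) (iqb tp452_c)) (BT.Fa_leaf (P := Itm.ok 206) (iqf tp444_c))) (BT.Fa_leaf (P := Itm.ok 206) (iqb tp1049_c))) (BT.Fa_mk (BT.Fa_leaf (P := Itm.ok 206) (iqf tp614_c)) (BT.Fa_leaf (P := Itm.ok 206) (iqf tp531_c)))) (BT.Fa_mk (BT.Fa_mk (BT.Fa_leaf (P := Itm.ok 206) (iqb tp607_c)) (BT.Fa_leaf (P := Itm.ok 206) (iqf tp1341_c))) (BT.Fa_mk (BT.Fa_leaf (P := Itm.ok 206) (iqf tp943_c)) (BT.Fa_leaf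 (P := Itm.ok 206) (iqb tp398_c)))))))))

/-- all words of the class have labels -/
theorem pokNFyAzE2A2Ax3xA2AyEzAzF : POK 206 xNFyAzE2A2Ax3xA2AyEzAzF :=
  y_pok (C0 := ceNFyAzE2A2Ax3xA2AyEzAzF) (C1 := coNFyAzE2A2Ax3xA2AyEzAzF) topNFyAzE2A2Ax3xA2AyEzAzF nbNFyAzE2A2Ax3xA2AyEzAzF (BT.Fa_of_all iiNFyAzE2A2Ax3xA2AyEzAzF_c)
    (cyE_spec zeNFyAzE2A2Ax3xA2AyEzAzF_0)
    (cyO_spec zoNFyAzE2A2Ax3xA2AyEzAzF_0)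
    iiNFyAzE2A2Ax3xA2AyEzAzF_k

theorem iiNFyAzE2B3HzB2E3B2E_k : iiNFyAzE2B3HzB2E3B2E.Fa (Itm.ok 206) := (BT.Fa_mk (BT.Fa_mk (BT.Fa_mk (BT.Fa_mk (BT.Fa_mk (BT.Fa_mk (BT.Fa_mk (BT.Fa_leaf (P := Itm.ok 206) (iqf tp292_c)) (BT.Fa_leaf (P := Itm.ok 206) (iqb tp1576_c))) (BT.Fa_mk (BT.Fa_leaf (P := Itm.ok 206) (iqb tp295_c)) (BT.Fa_leaf (P := Itm.ok 206) (iqf tp1771_c)))) (BT.Fa_mk (BT.Fa_mk (BT.Fa_leaf (P := Itm.ok 206) (iqb tp292_c)) (BT.Fa_leaf (P := Itm.ok 206) (iqb tp1747_c))) (BT.Fa_leaf (P := Itm.ok 206) (iqf tp361_c)))) (BT.Fa_mk (BT.Fa_mk (BT.Fa_mk (BT.Fa_leaf (P := Itm.ok 206) (iqb tp361_c)) (BT.Fa_leaf (P := Itm.ok 206) (iqf tp329_c))) (BT.Fa_mk (BT.Fa_leaf (P := Itm.ok 206) (iqb tp1658_c)) (BT.Fa_leaf (P := Itm.ok 206) (iqf tp529_c)))) (BT.Fa_mk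 (BT.Fa_mk (BT.Fa_leaf (P := Itm.ok 206) (iqb tp1387_c)) (BT.Fa_leaf (P := Itm.ok 206) (iqf tp366_c))) (BT.Fa_leaf (P := Itm.ok 206) (iqf tp359_c))))) (BT.Fa_mk (BT.Fa_mk (BT.Fa_mk (BT.Fa_mk (BT.Fa_leaf (P := Itm.ok 206) (iqf tp346_c)) (BT.Fa_leaf (P := Itm.ok 206) (iqb tp1182_c))) (BT.Fa_mk (BT.Fa_leaf (P := Itm.ok 206) (iqb tp342_c)) (BT.Fa_leaf (P := Itm.ok 206) (iqb tp1995_c)))) (BT.Fa_mk (BT.Fa_mk (BT.Fa_leaf (P := Itm.ok 206) (iqf tp299_c)) (BT.Fa_leaf (P := Itm.ok 206) (iqb tp656_c))) (BT.Fa_leaf (P := Itm.ok 206) (iqf tp1158_c)))) (BT.Fa_mk (BT.Fa_mk (BT.Fa_mk (BT.Fa_leaf (P := Itm.ok 206) (iqf tp369_c)) (BT.Fa_leaf (P := Itm.ok 206) (iqb tp2050_c))) (BT.Fa_mk (BT.Fa_leaf (P := Itm.ok 206) (iqf tp608_c)) (BT.Fa_leaf (P := Itm.ok 206) (iqb tp1388_c))))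 (BT.Fa_mk (BT.Fa_mk (BT.Fa_leaf (P := Itm.ok 206) (iqf tp1664_c)) (BT.Fa_leaf (P := Itm.ok 206) (iqb tp827_c))) (BT.Fa_leaf (P := Itm.ok 206) (iqb tp815_c)))))) (BT.Fa_mk (BT.Fa_mk (BT.Fa_mk (BT.Fa_mk (BT.Fa_mk (BT.Fa_leaf (P := Itm.ok 206) (iqf tp1768_c)) (BT.Fa_leaf (P := Itm.ok 206) (iqb tp365_c))) (BT.Fa_mk (BT.Fa_leaf (P := Itm.ok 206) (iqf tp2459_c)) (BT.Fa_leaf (P := Itm.ok 206) (iqb tp2317_c)))) (BT.Fa_mk (BT.Fa_mk (BT.Fa_leaf (P := Itm.ok 206) (iqb tp354_c)) (BT.Fa_leaf (P := Itm.ok 206) (iqf tp1468_c))) (BT.Fa_leaf (P := Itm.ok 206) (iqb tp2459_c)))) (BT.Fa_mk (BT.Fa_mk (BT.Fa_mk (BT.Fa_leaf (P := Itm.ok 206) (iqb tp2131_c)) (BT.Fa_leaf (P := Itm.ok 206) (iqf tp1798_c))) (BT.Fa_mk (BT.Fa_leaf (P := Itm.ok 206) (iqf tp694_c)) (BT.Fa_leaf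 (P := Itm.ok 206) (iqf tp2062_c)))) (BT.Fa_mk (BT.Fa_mk (BT.Fa_leaf (P := Itm.ok 206) (iqf tp1945_c)) (BT.Fa_leaf (P := Itm.ok 206) (iqf tp1813_c))) (BT.Fa_leaf (P := Itm.ok 206) (iqf tp2040_c))))) (BT.Fa_mk (BT.Fa_mk (BT.Fa_mk (BT.Fa_mk (BT.Fa_leaf (P := Itm.ok 206) (iqb tp1817_c)) (BT.Fa_leaf (P := Itm.ok 206) (iqf tp1159_c))) (BT.Fa_mk (BT.Fa_leaf (P := Itm.ok 206) (iqf tp2215_c)) (BT.Fa_leaf (P := Itm.ok 206) (iqb tp1986_c)))) (BT.Fa_mk (BT.Fa_mk (BT.Fa_leaf (P := Itm.ok 206) (iqb tp2417_c)) (BT.Fa_leaf (P := Itm.ok 206) (iqf tp2052_c))) (BT.Fa_leaf (P := Itm.ok 206) (iqb tp316_c)))) (BT.Fa_mk (BT.Fa_mk (BT.Fa_mk (BT.Fa_leaf (P := Itm.ok 206) (iqf tp2470_c)) (BT.Fa_leaf (P := Itm.ok 206) (iqf tp1994_c))) (BT.Fa_mk (BT.Fa_leaf (P := Itm.ok 206)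 (iqf tp2449_c)) (BT.Fa_leaf (P := Itm.ok 206) (iqb tp1793_c)))) (BT.Fa_mk (BT.Fa_mk (BT.Fa_leaf (P := Itm.ok 206) (iqf tp2253_c)) (BT.Fa_leaf (P := Itm.ok 206) (iqf tp2100_c))) (BT.Fa_leaf (P := Itm.ok 206) (iqb tp619_c))))))) (BT.Fa_mk (BT.Fa_mk (BT.Fa_mk (BT.Fa_mk (BT.Fa_mk (BT.Fa_mk (BT.Fa_leaf (P := Itm.ok 206) (iqb tp2255_c)) (BT.Fa_leaf (P := Itm.ok 206) (iqb tp2596_c))) (BT.Fa_mk (BT.Fa_leaf (P := Itm.ok 206) (iqb tp2685_c)) (BT.Fa_leaf (P := Itm.ok 206) (iqb tp1739_c)))) (BT.Fa_mk (BT.Fa_mk (BT.Fa_leaf (P := Itm.ok 206) (iqf tp2027_c)) (BT.Fa_leaf (P := Itm.ok 206) (iqb tp2309_c))) (BT.Fa_leaf (P := Itm.ok 206) (iqf tp493_c)))) (BT.Fa_mk (BT.Fa_mk (BT.Fa_mk (BT.Fa_leaf (P := Itm.ok 206) (iqb tp2462_c)) (BT.Fa_leaf (P := Itm.ok 206) (iqb tp416_c)))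 (BT.Fa_mk (BT.Fa_leaf (P := Itm.ok 206) (iqf tp2450_c)) (BT.Fa_leaf (P := Itm.ok 206) (iqf tp2692_c)))) (BT.Fa_mk (BT.Fa_mk (BT.Fa_leaf (P := Itm.ok 206) (iqb tp806_c)) (BT.Fa_leaf (P := Itm.ok 206) (iqf tp2580_c))) (BT.Fa_leaf (P := Itm.ok 206) (iqb tp1833_c))))) (BT.Fa_mk (BT.Fa_mk (BT.Fa_mk (BT.Fa_mk (BT.Fa_leaf (P := Itm.ok 206) (iqf tp1785_c)) (BT.Fa_leaf (P := Itm.ok 206) (iqb tp2054_c))) (BT.Fa_mk (BT.Fa_leaf (P := Itm.ok 206) (iqf tp2471_c)) (BT.Fa_leaf (P := Itm.ok 206) (iqb tp344_c)))) (BT.Fa_mk (BT.Fa_mk (BT.Fa_leaf (P := Itm.ok 206) (iqb tp849_c)) (BT.Fa_leaf (P := Itm.ok 206) (iqf tp2468_c))) (BT.Fa_leaf (P := Itm.ok 206) (iqf tp1732_c)))) (BT.Fa_mk (BT.Fa_mk (BT.Fa_mk (BT.Fa_leaf (P := Itm.ok 206) (iqf tp2057_c)) (BT.Fa_leaf (P := Itm.ok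 206) (iqb tp2422_c))) (BT.Fa_mk (BT.Fa_leaf (P := Itm.ok 206) (iqf tp2590_c)) (BT.Fa_leaf (P := Itm.ok 206) (iqb tp433_c)))) (BT.Fa_mk (BT.Fa_mk (BT.Fa_leaf (P := Itm.ok 206) (iqb tp1787_c)) (BT.Fa_leaf (P := Itm.ok 206) (iqb tp1776_c))) (BT.Fa_leaf (P := Itm.ok 206) (iqf tp1821_c)))))) (BT.Fa_mk (BT.Fa_mk (BT.Fa_mk (BT.Fa_mk (BT.Fa_mk (BT.Fa_leaf (P := Itm.ok 206) (iqb tp2254_c)) (BT.Fa_leaf (P := Itm.ok 206) (iqb tp846_c))) (BT.Fa_mk (BT.Fa_leaf (P := Itm.ok 206) (iqb tp2988_c)) (BT.Fa_leaf (P := Itm.ok 206) (iqb tp1733_c)))) (BT.Fa_mk (BT.Fa_mk (BT.Fa_leaf (P := Itm.ok 206) (iqf tp2465_c)) (BT.Fa_leaf (P := Itm.ok 206) (iqf tp2416_c))) (BT.Fa_leaf (P := Itm.ok 206) (iqf tp2411_c)))) (BT.Fa_mk (BT.Fa_mk (BT.Fa_mk (BT.Fa_leaf (P := Itm.ok 206) (iqf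 tp2119_c)) (BT.Fa_leaf (P := Itm.ok 206) (iqf tp827_c))) (BT.Fa_mk (BT.Fa_leaf (P := Itm.ok 206) (iqf tp2989_c)) (BT.Fa_leaf (P := Itm.ok 206) (iqf tp2317_c)))) (BT.Fa_mk (BT.Fa_mk (BT.Fa_leaf (P := Itm.ok 206) (iqf tp344_c)) (BT.Fa_leaf (P := Itm.ok 206) (iqb tp366_c))) (BT.Fa_leaf (P := Itm.ok 206) (iqf tp322_c))))) (BT.Fa_mk (BT.Fa_mk (BT.Fa_mk (BT.Fa_mk (BT.Fa_leaf (P := Itm.ok 206) (iqf tp1658_c)) (BT.Fa_leaf (P := Itm.ok 206) (iqb tp1574_c))) (BT.Fa_mk (BT.Fa_leaf (P := Itm.ok 206) (iqf tp1387_c)) (BT.Fa_leaf (P := Itm.ok 206) (iqf tp1803_c)))) (BT.Fa_mk (BT.Fa_mk (BT.Fa_leaf (P := Itm.ok 206) (iqb tp359_c)) (BT.Fa_leaf (P := Itm.ok 206) (iqf tp587_c))) (BT.Fa_leaf (P := Itm.ok 206) (iqb tp360_c)))) (BT.Fa_mk (BT.Fa_mk (BT.Fa_mk (BT.Fa_leaf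 (P := Itm.ok 206) (iqb tp2975_c)) (BT.Fa_leaf (P := Itm.ok 206) (iqf tp342_c))) (BT.Fa_mk (BT.Fa_leaf (P := Itm.ok 206) (iqb tp2609_c)) (BT.Fa_leaf (P := Itm.ok 206) (iqb tp1435_c)))) (BT.Fa_mk (BT.Fa_mk (BT.Fa_leaf (P := Itm.ok 206) (iqb tp2141_c)) (BT.Fa_leaf (P := Itm.ok 206) (iqf tp492_c))) (BT.Fa_leaf (P := Itm.ok 206) (iqf tp1099_c))))))))

/-- all words of the class have labels -/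
theorem pokNFyAzE2B3HzB2E3B2E : POK 206 xNFyAzE2B3HzB2E3B2E :=
  y_pok (C0 := ceNFyAzE2B3HzB2E3B2E) (C1 := coNFyAzE2B3HzB2E3B2E) topNFyAzE2B3HzB2E3B2E nbNFyAzE2B3HzB2E3B2E (BT.Fa_of_all iiNFyAzE2B3HzB2E3B2E_c)
    (cyE_spec zeNFyAzE2B3HzB2E3B2E_0)
    (cyO_spec zoNFyAzE2B3HzB2E3B2E_0)
    iiNFyAzE2B3HzB2E3B2E_k

theorem iiNFyAzE2B3HzB2H3E3B2E_k : iiNFyAzE2B3HzB2H3E3B2E.Fa (Itm.ok 206) := (BT.Fa_mk (BT.Fa_mk (BT.Fa_mk (BT.Fa_mk (BT.Fa_mk (BT.Fa_mk (BT.Fa_mk (BT.Fa_mk (BT.Fa_leaf (P := Itm.ok 206) (iqb tp1576_c)) (BT.Fa_leaf (P := Itm.ok 206) (iqf tp292_c))) (BT.Fa_mk (BT.Fa_leaf (P := Itm.ok 206) (iqb tp295_c)) (BT.Fa_leaf (P := Itm.ok 206) (iqb tp361_c)))) (BT.Fa_mk (BT.Fa_mk (BT.Fa_leaf (P := Itm.ok 206) (iqb tp1387_c)) (BT.Fa_leaf (P := Itm.ok 206)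 (iqf tp361_c))) (BT.Fa_leaf (P := Itm.ok 206) (iqf tp329_c)))) (BT.Fa_mk (BT.Fa_mk (BT.Fa_mk (BT.Fa_leaf (P := Itm.ok 206) (iqf tp366_c)) (BT.Fa_leaf (P := Itm.ok 206) (iqf tp1771_c))) (BT.Fa_leaf (P := Itm.ok 206) (iqf tp346_c))) (BT.Fa_mk (BT.Fa_mk (BT.Fa_leaf (P := Itm.ok 206) (iqf tp359_c)) (BT.Fa_leaf (P := Itm.ok 206) (iqb tp1588_c))) (BT.Fa_leaf (P := Itm.ok 206) (iqb tp342_c))))) (BT.Fa_mk (BT.Fa_mk (BT.Fa_mk (BT.Fa_mk (BT.Fa_leaf (P := Itm.ok 206) (iqb tp656_c)) (BT.Fa_leaf (P := Itm.ok 206) (iqf tp1768_c))) (BT.Fa_mk (BT.Fa_leaf (P := Itm.ok 206) (iqb tp1182_c)) (BT.Fa_leaf (P := Itm.ok 206) (iqf tp341_c)))) (BT.Fa_mk (BT.Fa_mk (BT.Fa_leaf (P := Itm.ok 206) (iqf tp1158_c)) (BT.Fa_leaf (P := Itm.ok 206) (iqf tp608_c))) (BT.Fa_leaf (P := Itm.ok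 206) (iqb tp827_c)))) (BT.Fa_mk (BT.Fa_mk (BT.Fa_mk (BT.Fa_leaf (P := Itm.ok 206) (iqf tp493_c)) (BT.Fa_leaf (P := Itm.ok 206) (iqf tp1491_c))) (BT.Fa_leaf (P := Itm.ok 206) (iqb tp365_c))) (BT.Fa_mk (BT.Fa_mk (BT.Fa_leaf (P := Itm.ok 206) (iqf tp514_c)) (BT.Fa_leaf (P := Itm.ok 206) (iqb tp2317_c))) (BT.Fa_leaf (P := Itm.ok 206) (iqb tp2050_c)))))) (BT.Fa_mk (BT.Fa_mk (BT.Fa_mk (BT.Fa_mk (BT.Fa_mk (BT.Fa_leaf (P := Itm.ok 206) (iqf tp1138_c)) (BT.Fa_leaf (P := Itm.ok 206) (iqf tp2062_c))) (BT.Fa_mk (BT.Fa_leaf (P := Itm.ok 206) (iqf tp1468_c)) (BT.Fa_leaf (P := Itm.ok 206) (iqf tp587_c)))) (BT.Fa_mk (BT.Fa_mk (BT.Fa_leaf (P := Itm.ok 206) (iqb tp2459_c)) (BT.Fa_leaf (P := Itm.ok 206) (iqb tp1774_c))) (BT.Fa_leaf (P := Itm.ok 206) (iqb tp1995_c))))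 (BT.Fa_mk (BT.Fa_mk (BT.Fa_mk (BT.Fa_leaf (P := Itm.ok 206) (iqf tp2459_c)) (BT.Fa_leaf (P := Itm.ok 206) (iqb tp849_c))) (BT.Fa_leaf (P := Itm.ok 206) (iqf tp1945_c))) (BT.Fa_mk (BT.Fa_mk (BT.Fa_leaf (P := Itm.ok 206) (iqf tp1099_c)) (BT.Fa_leaf (P := Itm.ok 206) (iqb tp1770_c))) (BT.Fa_leaf (P := Itm.ok 206) (iqf tp2040_c))))) (BT.Fa_mk (BT.Fa_mk (BT.Fa_mk (BT.Fa_mk (BT.Fa_leaf (P := Itm.ok 206) (iqb tp1986_c)) (BT.Fa_leaf (P := Itm.ok 206) (iqf tp2052_c))) (BT.Fa_mk (BT.Fa_leaf (P := Itm.ok 206) (iqf tp1795_c)) (BT.Fa_leaf (P := Itm.ok 206) (iqb tp1888_c)))) (BT.Fa_mk (BT.Fa_mk (BT.Fa_leaf (P := Itm.ok 206) (iqb tp1817_c)) (BT.Fa_leaf (P := Itm.ok 206) (iqf tp2468_c))) (BT.Fa_leaf (P := Itm.ok 206) (iqb tp2880_c)))) (BT.Fa_mk (BT.Fa_mk (BT.Fa_mk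 (BT.Fa_leaf (P := Itm.ok 206) (iqf tp2418_c)) (BT.Fa_leaf (P := Itm.ok 206) (iqf tp2474_c))) (BT.Fa_leaf (P := Itm.ok 206) (iqf tp1159_c))) (BT.Fa_mk (BT.Fa_mk (BT.Fa_leaf (P := Itm.ok 206) (iqb tp2683_c)) (BT.Fa_leaf (P := Itm.ok 206) (iqf tp2470_c))) (BT.Fa_leaf (P := Itm.ok 206) (iqf tp2416_c))))))) (BT.Fa_mk (BT.Fa_mk (BT.Fa_mk (BT.Fa_mk (BT.Fa_mk (BT.Fa_mk (BT.Fa_leaf (P := Itm.ok 206) (iqb tp2456_c)) (BT.Fa_leaf (P := Itm.ok 206) (iqf tp1903_c))) (BT.Fa_mk (BT.Fa_leaf (P := Itm.ok 206) (iqf tp2100_c)) (BT.Fa_leaf (P := Itm.ok 206) (iqb tp2596_c)))) (BT.Fa_mk (BT.Fa_mk (BT.Fa_leaf (P := Itm.ok 206) (iqf tp1889_c)) (BT.Fa_leaf (P := Itm.ok 206) (iqf tp1941_c))) (BT.Fa_leaf (P := Itm.ok 206) (iqf tp2411_c)))) (BT.Fa_mk (BT.Fa_mk (BT.Fa_mk (BT.Fa_leaf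 (P := Itm.ok 206) (iqf tp2471_c)) (BT.Fa_leaf (P := Itm.ok 206) (iqb tp2652_c))) (BT.Fa_leaf (P := Itm.ok 206) (iqf tp2881_c))) (BT.Fa_mk (BT.Fa_mk (BT.Fa_leaf (P := Itm.ok 206) (iqf tp1516_c)) (BT.Fa_leaf (P := Itm.ok 206) (iqb tp2013_c))) (BT.Fa_leaf (P := Itm.ok 206) (iqb tp2309_c))))) (BT.Fa_mk (BT.Fa_mk (BT.Fa_mk (BT.Fa_mk (BT.Fa_leaf (P := Itm.ok 206) (iqb tp815_c)) (BT.Fa_leaf (P := Itm.ok 206) (iqf tp2027_c))) (BT.Fa_mk (BT.Fa_leaf (P := Itm.ok 206) (iqb tp2417_c)) (BT.Fa_leaf (P := Itm.ok 206) (iqb tp2423_c)))) (BT.Fa_mk (BT.Fa_mk (BT.Fa_leaf (P := Itm.ok 206) (iqf tp529_c)) (BT.Fa_leaf (P := Itm.ok 206) (iqb tp2273_c))) (BT.Fa_leaf (P := Itm.ok 206) (iqb tp2285_c)))) (BT.Fa_mk (BT.Fa_mk (BT.Fa_mk (BT.Fa_leaf (P := Itm.ok 206) (iqf tp2431_c))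 (BT.Fa_leaf (P := Itm.ok 206) (iqb tp1613_c))) (BT.Fa_leaf (P := Itm.ok 206) (iqb tp2034_c))) (BT.Fa_mk (BT.Fa_mk (BT.Fa_leaf (P := Itm.ok 206) (iqf tp2882_c)) (BT.Fa_leaf (P := Itm.ok 206) (iqb tp2691_c))) (BT.Fa_leaf (P := Itm.ok 206) (iqf tp1813_c)))))) (BT.Fa_mk (BT.Fa_mk (BT.Fa_mk (BT.Fa_mk (BT.Fa_mk (BT.Fa_leaf (P := Itm.ok 206) (iqb tp1908_c)) (BT.Fa_leaf (P := Itm.ok 206) (iqb tp2037_c))) (BT.Fa_mk (BT.Fa_leaf (P := Itm.ok 206) (iqf tp2580_c)) (BT.Fa_leaf (P := Itm.ok 206) (iqf tp1654_c)))) (BT.Fa_mk (BT.Fa_mk (BT.Fa_leaf (P := Itm.ok 206) (iqf tp2467_c)) (BT.Fa_leaf (P := Itm.ok 206) (iqb tp2620_c))) (BT.Fa_leaf (P := Itm.ok 206) (iqb tp2674_c)))) (BT.Fa_mk (BT.Fa_mk (BT.Fa_mk (BT.Fa_leaf (P := Itm.ok 206) (iqf tp2595_c)) (BT.Fa_leaf (P :=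 Itm.ok 206) (iqb tp2658_c))) (BT.Fa_leaf (P := Itm.ok 206) (iqf tp2450_c))) (BT.Fa_mk (BT.Fa_mk (BT.Fa_leaf (P := Itm.ok 206) (iqf tp2883_c)) (BT.Fa_leaf (P := Itm.ok 206) (iqb tp2659_c))) (BT.Fa_leaf (P := Itm.ok 206) (iqb tp2884_c))))) (BT.Fa_mk (BT.Fa_mk (BT.Fa_mk (BT.Fa_mk (BT.Fa_leaf (P := Itm.ok 206) (iqf tp2661_c)) (BT.Fa_leaf (P := Itm.ok 206) (iqf tp511_c))) (BT.Fa_leaf (P := Itm.ok 206) (iqb tp2462_c))) (BT.Fa_mk (BT.Fa_mk (BT.Fa_leaf (P := Itm.ok 206) (iqb tp2131_c)) (BT.Fa_leaf (P := Itm.ok 206) (iqb tp2660_c))) (BT.Fa_leaf (P := Itm.ok 206) (iqf tp369_c)))) (BT.Fa_mk (BT.Fa_mk (BT.Fa_mk (BT.Fa_leaf (P := Itm.ok 206) (iqb tp1783_c)) (BT.Fa_leaf (P := Itm.ok 206) (iqf tp2696_c))) (BT.Fa_leaf (P := Itm.ok 206) (iqf tp2885_c))) (BT.Fa_mk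 (BT.Fa_mk (BT.Fa_leaf (P := Itm.ok 206) (iqf tp2590_c)) (BT.Fa_leaf (P := Itm.ok 206) (iqb tp2008_c))) (BT.Fa_leaf (P := Itm.ok 206) (iqb tp1937_c)))))))) (BT.Fa_mk (BT.Fa_mk (BT.Fa_mk (BT.Fa_mk (BT.Fa_mk (BT.Fa_mk (BT.Fa_mk (BT.Fa_leaf (P := Itm.ok 206) (iqf tp1994_c)) (BT.Fa_leaf (P := Itm.ok 206) (iqb tp2679_c))) (BT.Fa_mk (BT.Fa_leaf (P := Itm.ok 206) (iqf tp2142_c)) (BT.Fa_leaf (P := Itm.ok 206) (iqb tp1388_c)))) (BT.Fa_mk (BT.Fa_mk (BT.Fa_leaf (P := Itm.ok 206) (iqb tp1833_c)) (BT.Fa_leaf (P := Itm.ok 206) (iqf tp1821_c))) (BT.Fa_leaf (P := Itm.ok 206) (iqf tp2253_c)))) (BT.Fa_mk (BT.Fa_mk (BT.Fa_mk (BT.Fa_leaf (P := Itm.ok 206) (iqf tp1785_c)) (BT.Fa_leaf (P := Itm.ok 206) (iqf tp2886_c))) (BT.Fa_leaf (P := Itm.ok 206) (iqf tp2139_c))) (BT.Fa_mk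 (BT.Fa_mk (BT.Fa_leaf (P := Itm.ok 206) (iqf tp2439_c)) (BT.Fa_leaf (P := Itm.ok 206) (iqf tp2667_c))) (BT.Fa_leaf (P := Itm.ok 206) (iqb tp2887_c))))) (BT.Fa_mk (BT.Fa_mk (BT.Fa_mk (BT.Fa_mk (BT.Fa_leaf (P := Itm.ok 206) (iqf tp2888_c)) (BT.Fa_leaf (P := Itm.ok 206) (iqb tp532_c))) (BT.Fa_mk (BT.Fa_leaf (P := Itm.ok 206) (iqb tp1781_c)) (BT.Fa_leaf (P := Itm.ok 206) (iqb tp1733_c)))) (BT.Fa_mk (BT.Fa_mk (BT.Fa_leaf (P := Itm.ok 206) (iqf tp1732_c)) (BT.Fa_leaf (P := Itm.ok 206) (iqb tp2654_c))) (BT.Fa_leaf (P := Itm.ok 206) (iqb tp433_c)))) (BT.Fa_mk (BT.Fa_mk (BT.Fa_mk (BT.Fa_leaf (P := Itm.ok 206) (iqf tp2636_c)) (BT.Fa_leaf (P := Itm.ok 206) (iqb tp2889_c))) (BT.Fa_leaf (P := Itm.ok 206) (iqf tp2890_c))) (BT.Fa_mk (BT.Fa_mk (BT.Fa_leaf (P := Itm.ok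 206) (iqb tp2891_c)) (BT.Fa_leaf (P := Itm.ok 206) (iqb tp2892_c))) (BT.Fa_leaf (P := Itm.ok 206) (iqb tp2347_c)))))) (BT.Fa_mk (BT.Fa_mk (BT.Fa_mk (BT.Fa_mk (BT.Fa_mk (BT.Fa_leaf (P := Itm.ok 206) (iqb tp2893_c)) (BT.Fa_leaf (P := Itm.ok 206) (iqb tp2894_c))) (BT.Fa_mk (BT.Fa_leaf (P := Itm.ok 206) (iqf tp2503_c)) (BT.Fa_leaf (P := Itm.ok 206) (iqb tp1758_c)))) (BT.Fa_mk (BT.Fa_mk (BT.Fa_leaf (P := Itm.ok 206) (iqf tp1832_c)) (BT.Fa_leaf (P := Itm.ok 206) (iqb tp2895_c))) (BT.Fa_leaf (P := Itm.ok 206) (iqf tp2666_c)))) (BT.Fa_mk (BT.Fa_mk (BT.Fa_mk (BT.Fa_leaf (P := Itm.ok 206) (iqf tp2669_c)) (BT.Fa_leaf (P := Itm.ok 206) (iqb tp2665_c))) (BT.Fa_leaf (P := Itm.ok 206) (iqb tp2650_c))) (BT.Fa_mk (BT.Fa_mk (BT.Fa_leaf (P := Itm.ok 206) (iqf tp2896_c))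 (BT.Fa_leaf (P := Itm.ok 206) (iqf tp2119_c))) (BT.Fa_leaf (P := Itm.ok 206) (iqf tp2897_c))))) (BT.Fa_mk (BT.Fa_mk (BT.Fa_mk (BT.Fa_mk (BT.Fa_leaf (P := Itm.ok 206) (iqb tp2898_c)) (BT.Fa_leaf (P := Itm.ok 206) (iqf tp1387_c))) (BT.Fa_leaf (P := Itm.ok 206) (iqb tp1947_c))) (BT.Fa_mk (BT.Fa_mk (BT.Fa_leaf (P := Itm.ok 206) (iqf tp322_c)) (BT.Fa_leaf (P := Itm.ok 206) (iqf tp2899_c))) (BT.Fa_leaf (P := Itm.ok 206) (iqb tp2900_c)))) (BT.Fa_mk (BT.Fa_mk (BT.Fa_mk (BT.Fa_leaf (P := Itm.ok 206) (iqf tp2485_c)) (BT.Fa_leaf (P := Itm.ok 206) (iqf tp504_c))) (BT.Fa_leaf (P := Itm.ok 206) (iqf tp295_c))) (BT.Fa_mk (BT.Fa_mk (BT.Fa_leaf (P := Itm.ok 206) (iqb tp1435_c)) (BT.Fa_leaf (P := Itm.ok 206) (iqb tp2657_c))) (BT.Fa_leaf (P := Itm.ok 206) (iqf tp2901_c)))))))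 (BT.Fa_mk (BT.Fa_mk (BT.Fa_mk (BT.Fa_mk (BT.Fa_mk (BT.Fa_mk (BT.Fa_leaf (P := Itm.ok 206) (iqb tp2902_c)) (BT.Fa_leaf (P := Itm.ok 206) (iqf tp2903_c))) (BT.Fa_mk (BT.Fa_leaf (P := Itm.ok 206) (iqb tp2904_c)) (BT.Fa_leaf (P := Itm.ok 206) (iqf tp2905_c)))) (BT.Fa_mk (BT.Fa_mk (BT.Fa_leaf (P := Itm.ok 206) (iqb tp2906_c)) (BT.Fa_leaf (P := Itm.ok 206) (iqb tp2609_c))) (BT.Fa_leaf (P := Itm.ok 206) (iqf tp2176_c)))) (BT.Fa_mk (BT.Fa_mk (BT.Fa_mk (BT.Fa_leaf (P := Itm.ok 206) (iqb tp2907_c)) (BT.Fa_leaf (P := Itm.ok 206) (iqf tp2908_c))) (BT.Fa_leaf (P := Itm.ok 206) (iqb tp2909_c))) (BT.Fa_mk (BT.Fa_mk (BT.Fa_leaf (P := Itm.ok 206) (iqf tp2347_c)) (BT.Fa_leaf (P := Itm.ok 206) (iqb tp2910_c))) (BT.Fa_leaf (P := Itm.ok 206) (iqf tp1658_c))))) (BT.Fa_mk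 (BT.Fa_mk (BT.Fa_mk (BT.Fa_mk (BT.Fa_leaf (P := Itm.ok 206) (iqb tp322_c)) (BT.Fa_leaf (P := Itm.ok 206) (iqb tp2911_c))) (BT.Fa_mk (BT.Fa_leaf (P := Itm.ok 206) (iqb tp2318_c)) (BT.Fa_leaf (P := Itm.ok 206) (iqf tp2464_c)))) (BT.Fa_mk (BT.Fa_mk (BT.Fa_leaf (P := Itm.ok 206) (iqf tp2912_c)) (BT.Fa_leaf (P := Itm.ok 206) (iqf tp2072_c))) (BT.Fa_leaf (P := Itm.ok 206) (iqf tp2913_c)))) (BT.Fa_mk (BT.Fa_mk (BT.Fa_mk (BT.Fa_leaf (P := Itm.ok 206) (iqf tp1961_c)) (BT.Fa_leaf (P := Itm.ok 206) (iqb tp416_c))) (BT.Fa_leaf (P := Itm.ok 206) (iqf tp1782_c))) (BT.Fa_mk (BT.Fa_mk (BT.Fa_leaf (P := Itm.ok 206) (iqf tp2615_c)) (BT.Fa_leaf (P := Itm.ok 206) (iqb tp2915_c))) (BT.Fa_leaf (P := Itm.ok 206) (iqb tp2916_c)))))) (BT.Fa_mk (BT.Fa_mk (BT.Fa_mk (BT.Fa_mk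 (BT.Fa_mk (BT.Fa_leaf (P := Itm.ok 206) (iqf tp2510_c)) (BT.Fa_leaf (P := Itm.ok 206) (iqf tp1803_c))) (BT.Fa_mk (BT.Fa_leaf (P := Itm.ok 206) (iqb tp1468_c)) (BT.Fa_leaf (P := Itm.ok 206) (iqb tp2917_c)))) (BT.Fa_mk (BT.Fa_mk (BT.Fa_leaf (P := Itm.ok 206) (iqb tp2918_c)) (BT.Fa_leaf (P := Itm.ok 206) (iqb tp2919_c))) (BT.Fa_leaf (P := Itm.ok 206) (iqb tp2920_c)))) (BT.Fa_mk (BT.Fa_mk (BT.Fa_mk (BT.Fa_leaf (P := Itm.ok 206) (iqf tp2921_c)) (BT.Fa_leaf (P := Itm.ok 206) (iqb tp373_c))) (BT.Fa_leaf (P := Itm.ok 206) (iqf tp2922_c))) (BT.Fa_mk (BT.Fa_mk (BT.Fa_leaf (P := Itm.ok 206) (iqb tp451_c)) (BT.Fa_leaf (P := Itm.ok 206) (iqb tp1911_c))) (BT.Fa_leaf (P := Itm.ok 206) (iqf tp2923_c))))) (BT.Fa_mk (BT.Fa_mk (BT.Fa_mk (BT.Fa_mk (BT.Fa_leaf (P := Itm.ok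 206) (iqb tp2924_c)) (BT.Fa_leaf (P := Itm.ok 206) (iqf tp2506_c))) (BT.Fa_leaf (P := Itm.ok 206) (iqf tp2925_c))) (BT.Fa_mk (BT.Fa_mk (BT.Fa_leaf (P := Itm.ok 206) (iqb tp2926_c)) (BT.Fa_leaf (P := Itm.ok 206) (iqb tp2927_c))) (BT.Fa_leaf (P := Itm.ok 206) (iqb tp2928_c)))) (BT.Fa_mk (BT.Fa_mk (BT.Fa_mk (BT.Fa_leaf (P := Itm.ok 206) (iqb tp2929_c)) (BT.Fa_leaf (P := Itm.ok 206) (iqf tp2930_c))) (BT.Fa_leaf (P := Itm.ok 206) (iqf tp2512_c))) (BT.Fa_mk (BT.Fa_mk (BT.Fa_leaf (P := Itm.ok 206) (iqb tp2931_c)) (BT.Fa_leaf (P := Itm.ok 206) (iqf tp2307_c))) (BT.Fa_leaf (P := Itm.ok 206) (iqb tp2512_c)))))))))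

/-- all words of the class have labels -/
theorem pokNFyAzE2B3HzB2H3E3B2E : POK 206 xNFyAzE2B3HzB2H3E3B2E :=
  y_pok (C0 := ceNFyAzE2B3HzB2H3E3B2E) (C1 := coNFyAzE2B3HzB2H3E3B2E) topNFyAzE2B3HzB2H3E3B2E nbNFyAzE2B3HzB2H3E3B2E (BT.Fa_of_all iiNFyAzE2B3HzB2H3E3B2E_c)
    (BT.Fa_mk (cyE_spec zeNFyAzE2B3HzB2H3E3B2E_0) (cyE_spec zeNFyAzE2B3HzB2H3E3B2E_1))
    (cyO_spec zoNFyAzE2B3HzB2H3E3B2E_0)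
    iiNFyAzE2B3HzB2H3E3B2E_k

theorem iiNFyAzEyA2Ax3xA2A2EzAzF_k : iiNFyAzEyA2Ax3xA2A2EzAzF.Fa (Itm.ok 206) := (BT.Fa_mk (BT.Fa_mk (BT.Fa_mk (BT.Fa_mk (BT.Fa_mk (BT.Fa_mk (BT.Fa_mk (BT.Fa_mk (BT.Fa_leaf (P := Itm.ok 206) (iqf tp524_c)) (BT.Fa_leaf (P := Itm.ok 206) (iqf tp525_c))) (BT.Fa_mk (BT.Fa_leaf (P := Itm.ok 206) (iqb tp525_c)) (BT.Fa_leaf (P := Itm.ok 206) (iqb tp447_c)))) (BT.Fa_mk (BT.Fa_mk (BT.Fa_leaf (P := Itm.ok 206) (iqb tp1126_c)) (BT.Fa_leaf (P := Itm.ok 206) (iqb tp295_c))) (BT.Fa_mk (BT.Fa_leaf (P := Itm.ok 206) (iqf tp526_c)) (BT.Fa_leaf (P := Itm.ok 206) (iqf tp399_c))))) (BT.Fa_mk (BT.Fa_mk (BT.Fa_mk (BT.Fa_leaf (P := Itm.ok 206) (iqb tp1116_c)) (BT.Fa_leaf (P := Itm.ok 206) (iqb tp371_c))) (BT.Fa_mk (BT.Fa_leaf (P := Itm.ok 206)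 (iqf tp505_c)) (BT.Fa_leaf (P := Itm.ok 206) (iqb tp403_c)))) (BT.Fa_mk (BT.Fa_mk (BT.Fa_leaf (P := Itm.ok 206) (iqf tp528_c)) (BT.Fa_leaf (P := Itm.ok 206) (iqf tp292_c))) (BT.Fa_leaf (P := Itm.ok 206) (iqf tp324_c))))) (BT.Fa_mk (BT.Fa_mk (BT.Fa_mk (BT.Fa_mk (BT.Fa_leaf (P := Itm.ok 206) (iqf tp647_c)) (BT.Fa_leaf (P := Itm.ok 206) (iqf tp326_c))) (BT.Fa_mk (BT.Fa_leaf (P := Itm.ok 206) (iqf tp1138_c)) (BT.Fa_leaf (P := Itm.ok 206) (iqb tp331_c)))) (BT.Fa_mk (BT.Fa_mk (BT.Fa_leaf (P := Itm.ok 206) (iqb tp1250_c)) (BT.Fa_leaf (P := Itm.ok 206) (iqb tp490_c))) (BT.Fa_mk (BT.Fa_leaf (P := Itm.ok 206) (iqb tp332_c)) (BT.Fa_leaf (P := Itm.ok 206) (iqb tp477_c))))) (BT.Fa_mk (BT.Fa_mk (BT.Fa_mk (BT.Fa_leaf (P := Itm.ok 206) (iqf tp529_c)) (BT.Fa_leaf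 (P := Itm.ok 206) (iqf tp514_c))) (BT.Fa_mk (BT.Fa_leaf (P := Itm.ok 206) (iqf tp342_c)) (BT.Fa_leaf (P := Itm.ok 206) (iqb tp342_c)))) (BT.Fa_mk (BT.Fa_mk (BT.Fa_leaf (P := Itm.ok 206) (iqf tp488_c)) (BT.Fa_leaf (P := Itm.ok 206) (iqb tp334_c))) (BT.Fa_leaf (P := Itm.ok 206) (iqf tp368_c)))))) (BT.Fa_mk (BT.Fa_mk (BT.Fa_mk (BT.Fa_mk (BT.Fa_mk (BT.Fa_leaf (P := Itm.ok 206) (iqb tp984_c)) (BT.Fa_leaf (P := Itm.ok 206) (iqf tp367_c))) (BT.Fa_mk (BT.Fa_leaf (P := Itm.ok 206) (iqb tp949_c)) (BT.Fa_leaf (P := Itm.ok 206) (iqf tp341_c)))) (BT.Fa_mk (BT.Fa_mk (BT.Fa_leaf (P := Itm.ok 206) (iqb tp341_c)) (BT.Fa_leaf (P := Itm.ok 206) (iqb tp531_c))) (BT.Fa_mk (BT.Fa_leaf (P := Itm.ok 206) (iqb tp319_c)) (BT.Fa_leaf (P := Itm.ok 206) (iqf tp405_c))))) (BT.Fa_mk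 (BT.Fa_mk (BT.Fa_mk (BT.Fa_leaf (P := Itm.ok 206) (iqb tp1157_c)) (BT.Fa_leaf (P := Itm.ok 206) (iqb tp378_c))) (BT.Fa_mk (BT.Fa_leaf (P := Itm.ok 206) (iqf tp1342_c)) (BT.Fa_leaf (P := Itm.ok 206) (iqb tp351_c)))) (BT.Fa_mk (BT.Fa_mk (BT.Fa_leaf (P := Itm.ok 206) (iqb tp532_c)) (BT.Fa_leaf (P := Itm.ok 206) (iqf tp484_c))) (BT.Fa_leaf (P := Itm.ok 206) (iqb tp484_c))))) (BT.Fa_mk (BT.Fa_mk (BT.Fa_mk (BT.Fa_mk (BT.Fa_leaf (P := Itm.ok 206) (iqf tp552_c)) (BT.Fa_leaf (P := Itm.ok 206) (iqf tp533_c))) (BT.Fa_mk (BT.Fa_leaf (P := Itm.ok 206) (iqb tp533_c)) (BT.Fa_leaf (P := Itm.ok 206) (iqf tp510_c)))) (BT.Fa_mk (BT.Fa_mk (BT.Fa_leaf (P := Itm.ok 206) (iqb tp519_c)) (BT.Fa_leaf (P := Itm.ok 206) (iqb tp372_c))) (BT.Fa_leaf (P := Itm.ok 206) (iqb tp349_c))))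 (BT.Fa_mk (BT.Fa_mk (BT.Fa_mk (BT.Fa_leaf (P := Itm.ok 206) (iqb tp402_c)) (BT.Fa_leaf (P := Itm.ok 206) (iqf tp499_c))) (BT.Fa_mk (BT.Fa_leaf (P := Itm.ok 206) (iqf tp1065_c)) (BT.Fa_leaf (P := Itm.ok 206) (iqb tp1065_c)))) (BT.Fa_mk (BT.Fa_mk (BT.Fa_leaf (P := Itm.ok 206) (iqf tp589_c)) (BT.Fa_leaf (P := Itm.ok 206) (iqf tp356_c))) (BT.Fa_leaf (P := Itm.ok 206) (iqf tp534_c))))))) (BT.Fa_mk (BT.Fa_mk (BT.Fa_mk (BT.Fa_mk (BT.Fa_mk (BT.Fa_mk (BT.Fa_leaf (P := Itm.ok 206) (iqb tp558_c)) (BT.Fa_leaf (P := Itm.ok 206) (iqf tp504_c))) (BT.Fa_mk (BT.Fa_leaf (P := Itm.ok 206) (iqf tp1133_c)) (BT.Fa_leaf (P := Itm.ok 206) (iqb tp855_c)))) (BT.Fa_mk (BT.Fa_mk (BT.Fa_leaf (P := Itm.ok 206) (iqb tp810_c)) (BT.Fa_leaf (P := Itm.ok 206) (iqf tp853_c))) (BT.Fa_mk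 (BT.Fa_leaf (P := Itm.ok 206) (iqb tp535_c)) (BT.Fa_leaf (P := Itm.ok 206) (iqf tp502_c))))) (BT.Fa_mk (BT.Fa_mk (BT.Fa_mk (BT.Fa_leaf (P := Itm.ok 206) (iqf tp784_c)) (BT.Fa_leaf (P := Itm.ok 206) (iqb tp385_c))) (BT.Fa_mk (BT.Fa_leaf (P := Itm.ok 206) (iqf tp536_c)) (BT.Fa_leaf (P := Itm.ok 206) (iqf tp850_c)))) (BT.Fa_mk (BT.Fa_mk (BT.Fa_leaf (P := Itm.ok 206) (iqb tp850_c)) (BT.Fa_leaf (P := Itm.ok 206) (iqb tp556_c))) (BT.Fa_leaf (P := Itm.ok 206) (iqb tp1253_c))))) (BT.Fa_mk (BT.Fa_mk (BT.Fa_mk (BT.Fa_mk (BT.Fa_leaf (P := Itm.ok 206) (iqf tp375_c)) (BT.Fa_leaf (P := Itm.ok 206) (iqf tp350_c))) (BT.Fa_mk (BT.Fa_leaf (P := Itm.ok 206) (iqb tp538_c)) (BT.Fa_leaf (P := Itm.ok 206) (iqb tp361_c)))) (BT.Fa_mk (BT.Fa_mk (BT.Fa_leaf (P := Itm.ok 206)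 (iqf tp364_c)) (BT.Fa_leaf (P := Itm.ok 206) (iqb tp507_c))) (BT.Fa_leaf (P := Itm.ok 206) (iqb tp327_c)))) (BT.Fa_mk (BT.Fa_mk (BT.Fa_mk (BT.Fa_leaf (P := Itm.ok 206) (iqf tp335_c)) (BT.Fa_leaf (P := Itm.ok 206) (iqb tp939_c))) (BT.Fa_mk (BT.Fa_leaf (P := Itm.ok 206) (iqf tp401_c)) (BT.Fa_leaf (P := Itm.ok 206) (iqf tp289_c)))) (BT.Fa_mk (BT.Fa_mk (BT.Fa_leaf (P := Itm.ok 206) (iqb tp289_c)) (BT.Fa_leaf (P := Itm.ok 206) (iqf tp388_c))) (BT.Fa_leaf (P := Itm.ok 206) (iqf tp347_c)))))) (BT.Fa_mk (BT.Fa_mk (BT.Fa_mk (BT.Fa_mk (BT.Fa_mk (BT.Fa_leaf (P := Itm.ok 206) (iqb tp376_c)) (BT.Fa_leaf (P := Itm.ok 206) (iqf tp353_c))) (BT.Fa_mk (BT.Fa_leaf (P := Itm.ok 206) (iqb tp360_c)) (BT.Fa_leaf (P := Itm.ok 206) (iqf tp386_c)))) (BT.Fa_mk (BT.Fa_mk (BT.Fa_leaf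 (P := Itm.ok 206) (iqb tp339_c)) (BT.Fa_leaf (P := Itm.ok 206) (iqf tp511_c))) (BT.Fa_mk (BT.Fa_leaf (P := Itm.ok 206) (iqb tp550_c)) (BT.Fa_leaf (P := Itm.ok 206) (iqf tp1094_c))))) (BT.Fa_mk (BT.Fa_mk (BT.Fa_mk (BT.Fa_leaf (P := Itm.ok 206) (iqb tp1149_c)) (BT.Fa_leaf (P := Itm.ok 206) (iqf tp1090_c))) (BT.Fa_mk (BT.Fa_leaf (P := Itm.ok 206) (iqb tp1301_c)) (BT.Fa_leaf (P := Itm.ok 206) (iqf tp539_c)))) (BT.Fa_mk (BT.Fa_mk (BT.Fa_leaf (P := Itm.ok 206) (iqf tp555_c)) (BT.Fa_leaf (P := Itm.ok 206) (iqb tp555_c))) (BT.Fa_leaf (P := Itm.ok 206) (iqf tp1213_c))))) (BT.Fa_mk (BT.Fa_mk (BT.Fa_mk (BT.Fa_mk (BT.Fa_leaf (P := Itm.ok 206) (iqf tp1091_c)) (BT.Fa_leaf (P := Itm.ok 206) (iqb tp1091_c))) (BT.Fa_mk (BT.Fa_leaf (P := Itm.ok 206) (iqf tp1158_c))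 (BT.Fa_leaf (P := Itm.ok 206) (iqf tp602_c)))) (BT.Fa_mk (BT.Fa_mk (BT.Fa_leaf (P := Itm.ok 206) (iqf tp366_c)) (BT.Fa_leaf (P := Itm.ok 206) (iqb tp366_c))) (BT.Fa_leaf (P := Itm.ok 206) (iqb tp1188_c)))) (BT.Fa_mk (BT.Fa_mk (BT.Fa_mk (BT.Fa_leaf (P := Itm.ok 206) (iqb tp1343_c)) (BT.Fa_leaf (P := Itm.ok 206) (iqb tp1165_c))) (BT.Fa_mk (BT.Fa_leaf (P := Itm.ok 206) (iqb tp849_c)) (BT.Fa_leaf (P := Itm.ok 206) (iqb tp846_c)))) (BT.Fa_mk (BT.Fa_mk (BT.Fa_leaf (P := Itm.ok 206) (iqb tp1169_c)) (BT.Fa_leaf (P := Itm.ok 206) (iqf tp632_c))) (BT.Fa_leaf (P := Itm.ok 206) (iqb tp632_c)))))))) (BT.Fa_mk (BT.Fa_mk (BT.Fa_mk (BT.Fa_mk (BT.Fa_mk (BT.Fa_mk (BT.Fa_mk (BT.Fa_leaf (P := Itm.ok 206) (iqb tp1344_c)) (BT.Fa_leaf (P := Itm.ok 206) (iqf tp789_c))) (BT.Fa_mk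 (BT.Fa_leaf (P := Itm.ok 206) (iqf tp390_c)) (BT.Fa_leaf (P := Itm.ok 206) (iqb tp395_c)))) (BT.Fa_mk (BT.Fa_mk (BT.Fa_leaf (P := Itm.ok 206) (iqf tp703_c)) (BT.Fa_leaf (P := Itm.ok 206) (iqf tp478_c))) (BT.Fa_mk (BT.Fa_leaf (P := Itm.ok 206) (iqb tp363_c)) (BT.Fa_leaf (P := Itm.ok 206) (iqf tp1341_c))))) (BT.Fa_mk (BT.Fa_mk (BT.Fa_mk (BT.Fa_leaf (P := Itm.ok 206) (iqf tp882_c)) (BT.Fa_leaf (P := Itm.ok 206) (iqb tp1108_c))) (BT.Fa_mk (BT.Fa_leaf (P := Itm.ok 206) (iqf tp541_c)) (BT.Fa_leaf (P := Itm.ok 206) (iqf tp494_c)))) (BT.Fa_mk (BT.Fa_mk (BT.Fa_leaf (P := Itm.ok 206) (iqb tp1163_c)) (BT.Fa_leaf (P := Itm.ok 206) (iqf tp542_c))) (BT.Fa_leaf (P := Itm.ok 206) (iqf tp509_c))))) (BT.Fa_mk (BT.Fa_mk (BT.Fa_mk (BT.Fa_mk (BT.Fa_leaf (P := Itm.ok 206)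 (iqb tp1092_c)) (BT.Fa_leaf (P := Itm.ok 206) (iqb tp1345_c))) (BT.Fa_mk (BT.Fa_leaf (P := Itm.ok 206) (iqb tp1261_c)) (BT.Fa_leaf (P := Itm.ok 206) (iqf tp1146_c)))) (BT.Fa_mk (BT.Fa_mk (BT.Fa_leaf (P := Itm.ok 206) (iqf tp563_c)) (BT.Fa_leaf (P := Itm.ok 206) (iqf tp559_c))) (BT.Fa_leaf (P := Itm.ok 206) (iqb tp559_c)))) (BT.Fa_mk (BT.Fa_mk (BT.Fa_mk (BT.Fa_leaf (P := Itm.ok 206) (iqf tp1006_c)) (BT.Fa_leaf (P := Itm.ok 206) (iqb tp1346_c))) (BT.Fa_mk (BT.Fa_leaf (P := Itm.ok 206) (iqf tp596_c)) (BT.Fa_leaf (P := Itm.ok 206) (iqb tp546_c)))) (BT.Fa_mk (BT.Fa_mk (BT.Fa_leaf (P := Itm.ok 206) (iqf tp547_c)) (BT.Fa_leaf (P := Itm.ok 206) (iqf tp444_c))) (BT.Fa_leaf (P := Itm.ok 206) (iqf tp548_c)))))) (BT.Fa_mk (BT.Fa_mk (BT.Fa_mk (BT.Fa_mk (BT.Fa_mk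 (BT.Fa_leaf (P := Itm.ok 206) (iqb tp500_c)) (BT.Fa_leaf (P := Itm.ok 206) (iqb tp495_c))) (BT.Fa_mk (BT.Fa_leaf (P := Itm.ok 206) (iqf tp351_c)) (BT.Fa_leaf (P := Itm.ok 206) (iqb tp324_c)))) (BT.Fa_mk (BT.Fa_mk (BT.Fa_leaf (P := Itm.ok 206) (iqf tp862_c)) (BT.Fa_leaf (P := Itm.ok 206) (iqf tp693_c))) (BT.Fa_mk (BT.Fa_leaf (P := Itm.ok 206) (iqf tp378_c)) (BT.Fa_leaf (P := Itm.ok 206) (iqf tp578_c))))) (BT.Fa_mk (BT.Fa_mk (BT.Fa_mk (BT.Fa_leaf (P := Itm.ok 206) (iqf tp330_c)) (BT.Fa_leaf (P := Itm.ok 206) (iqb tp1127_c))) (BT.Fa_mk (BT.Fa_leaf (P := Itm.ok 206) (iqf tp950_c)) (BT.Fa_leaf (P := Itm.ok 206) (iqf tp417_c)))) (BT.Fa_mk (BT.Fa_mk (BT.Fa_leaf (P := Itm.ok 206) (iqb tp606_c)) (BT.Fa_leaf (P := Itm.ok 206) (iqf tp588_c))) (BT.Fa_leaf (P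 := Itm.ok 206) (iqb tp502_c))))) (BT.Fa_mk (BT.Fa_mk (BT.Fa_mk (BT.Fa_mk (BT.Fa_leaf (P := Itm.ok 206) (iqf tp694_c)) (BT.Fa_leaf (P := Itm.ok 206) (iqf tp1060_c))) (BT.Fa_mk (BT.Fa_leaf (P := Itm.ok 206) (iqf tp319_c)) (BT.Fa_leaf (P := Itm.ok 206) (iqb tp566_c)))) (BT.Fa_mk (BT.Fa_mk (BT.Fa_leaf (P := Itm.ok 206) (iqb tp1269_c)) (BT.Fa_leaf (P := Itm.ok 206) (iqf tp450_c))) (BT.Fa_leaf (P := Itm.ok 206) (iqb tp326_c)))) (BT.Fa_mk (BT.Fa_mk (BT.Fa_mk (BT.Fa_leaf (P := Itm.ok 206) (iqf tp361_c)) (BT.Fa_leaf (P := Itm.ok 206) (iqf tp411_c))) (BT.Fa_mk (BT.Fa_leaf (P := Itm.ok 206) (iqf tp1347_c)) (BT.Fa_leaf (P := Itm.ok 206) (iqb tp1348_c)))) (BT.Fa_mk (BT.Fa_mk (BT.Fa_leaf (P := Itm.ok 206) (iqf tp999_c)) (BT.Fa_leaf (P := Itm.ok 206) (iqb tp1349_c)))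 (BT.Fa_leaf (P := Itm.ok 206) (iqb tp858_c))))))) (BT.Fa_mk (BT.Fa_mk (BT.Fa_mk (BT.Fa_mk (BT.Fa_mk (BT.Fa_mk (BT.Fa_leaf (P := Itm.ok 206) (iqf tp1162_c)) (BT.Fa_leaf (P := Itm.ok 206) (iqb tp682_c))) (BT.Fa_mk (BT.Fa_leaf (P := Itm.ok 206) (iqf tp770_c)) (BT.Fa_leaf (P := Itm.ok 206) (iqb tp1114_c)))) (BT.Fa_mk (BT.Fa_mk (BT.Fa_leaf (P := Itm.ok 206) (iqf tp1079_c)) (BT.Fa_leaf (P := Itm.ok 206) (iqf tp861_c))) (BT.Fa_mk (BT.Fa_leaf (P := Itm.ok 206) (iqf tp1350_c)) (BT.Fa_leaf (P := Itm.ok 206) (iqf tp299_c))))) (BT.Fa_mk (BT.Fa_mk (BT.Fa_mk (BT.Fa_leaf (P := Itm.ok 206) (iqf tp1351_c)) (BT.Fa_leaf (P := Itm.ok 206) (iqf tp424_c))) (BT.Fa_mk (BT.Fa_leaf (P := Itm.ok 206) (iqb tp1352_c)) (BT.Fa_leaf (P := Itm.ok 206) (iqf tp1353_c)))) (BT.Fa_mk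 (BT.Fa_mk (BT.Fa_leaf (P := Itm.ok 206) (iqb tp905_c)) (BT.Fa_leaf (P := Itm.ok 206) (iqb tp509_c))) (BT.Fa_leaf (P := Itm.ok 206) (iqf tp686_c))))) (BT.Fa_mk (BT.Fa_mk (BT.Fa_mk (BT.Fa_mk (BT.Fa_leaf (P := Itm.ok 206) (iqf tp518_c)) (BT.Fa_leaf (P := Itm.ok 206) (iqf tp551_c))) (BT.Fa_mk (BT.Fa_leaf (P := Itm.ok 206) (iqb tp320_c)) (BT.Fa_leaf (P := Itm.ok 206) (iqb tp290_c)))) (BT.Fa_mk (BT.Fa_mk (BT.Fa_leaf (P := Itm.ok 206) (iqb tp997_c)) (BT.Fa_leaf (P := Itm.ok 206) (iqb tp614_c))) (BT.Fa_leaf (P := Itm.ok 206) (iqf tp1068_c)))) (BT.Fa_mk (BT.Fa_mk (BT.Fa_mk (BT.Fa_leaf (P := Itm.ok 206) (iqb tp1354_c)) (BT.Fa_leaf (P := Itm.ok 206) (iqb tp1057_c))) (BT.Fa_mk (BT.Fa_leaf (P := Itm.ok 206) (iqb tp607_c)) (BT.Fa_leaf (P := Itm.ok 206) (iqb tp568_c))))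 (BT.Fa_mk (BT.Fa_mk (BT.Fa_leaf (P := Itm.ok 206) (iqf tp951_c)) (BT.Fa_leaf (P := Itm.ok 206) (iqb tp429_c))) (BT.Fa_leaf (P := Itm.ok 206) (iqf tp1000_c)))))) (BT.Fa_mk (BT.Fa_mk (BT.Fa_mk (BT.Fa_mk (BT.Fa_mk (BT.Fa_leaf (P := Itm.ok 206) (iqf tp436_c)) (BT.Fa_leaf (P := Itm.ok 206) (iqb tp398_c))) (BT.Fa_mk (BT.Fa_leaf (P := Itm.ok 206) (iqb tp1273_c)) (BT.Fa_leaf (P := Itm.ok 206) (iqb tp747_c)))) (BT.Fa_mk (BT.Fa_mk (BT.Fa_leaf (P := Itm.ok 206) (iqb tp536_c)) (BT.Fa_leaf (P := Itm.ok 206) (iqf tp307_c))) (BT.Fa_mk (BT.Fa_leaf (P := Itm.ok 206) (iqb tp1105_c)) (BT.Fa_leaf (P := Itm.ok 206) (iqb tp1203_c))))) (BT.Fa_mk (BT.Fa_mk (BT.Fa_mk (BT.Fa_leaf (P := Itm.ok 206) (iqf tp611_c)) (BT.Fa_leaf (P := Itm.ok 206) (iqb tp1009_c))) (BT.Fa_mk (BT.Fa_leaf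 (P := Itm.ok 206) (iqf tp493_c)) (BT.Fa_leaf (P := Itm.ok 206) (iqb tp727_c)))) (BT.Fa_mk (BT.Fa_mk (BT.Fa_leaf (P := Itm.ok 206) (iqb tp1355_c)) (BT.Fa_leaf (P := Itm.ok 206) (iqb tp445_c))) (BT.Fa_leaf (P := Itm.ok 206) (iqf tp404_c))))) (BT.Fa_mk (BT.Fa_mk (BT.Fa_mk (BT.Fa_mk (BT.Fa_leaf (P := Itm.ok 206) (iqf tp571_c)) (BT.Fa_leaf (P := Itm.ok 206) (iqf tp331_c))) (BT.Fa_mk (BT.Fa_leaf (P := Itm.ok 206) (iqb tp609_c)) (BT.Fa_leaf (P := Itm.ok 206) (iqb tp1110_c)))) (BT.Fa_mk (BT.Fa_mk (BT.Fa_leaf (P := Itm.ok 206) (iqb tp419_c)) (BT.Fa_leaf (P := Itm.ok 206) (iqb tp318_c))) (BT.Fa_leaf (P := Itm.ok 206) (iqf tp1356_c)))) (BT.Fa_mk (BT.Fa_mk (BT.Fa_mk (BT.Fa_leaf (P := Itm.ok 206) (iqb tp517_c)) (BT.Fa_leaf (P := Itm.ok 206) (iqb tp1109_c))) (BT.Fa_mk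 (BT.Fa_leaf (P := Itm.ok 206) (iqf tp610_c)) (BT.Fa_leaf (P := Itm.ok 206) (iqb tp364_c)))) (BT.Fa_mk (BT.Fa_mk (BT.Fa_leaf (P := Itm.ok 206) (iqb tp1357_c)) (BT.Fa_leaf (P := Itm.ok 206) (iqf tp1358_c))) (BT.Fa_leaf (P := Itm.ok 206) (iqb tp1359_c)))))))))

/-- all words of the class have labels -/
theorem pokNFyAzEyA2Ax3xA2A2EzAzF : POK 206 xNFyAzEyA2Ax3xA2A2EzAzF :=
  y_pok (C0 := ceNFyAzEyA2Ax3xA2A2EzAzF) (C1 := coNFyAzEyA2Ax3xA2A2EzAzF) topNFyAzEyA2Ax3xA2A2EzAzF nbNFyAzEyA2Ax3xA2A2EzAzF (BT.Fa_of_all iiNFyAzEyA2Ax3xA2A2EzAzF_c)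
    (cyE_spec zeNFyAzEyA2Ax3xA2A2EzAzF_0)
    (cyO_spec zoNFyAzEyA2Ax3xA2A2EzAzF_0)
    iiNFyAzEyA2Ax3xA2A2EzAzF_k


end MPb6P
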