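import Pool.Agent.Lib.MP_b6d339_lc.Cw.YFyAzEyA2Ax3xA2AyEzAzF
import Pool.Agent.Lib.MP_b6d339_lc.Cw.XL
import Pool.Agent.Lib.MP_b6d339_lc.Cw.T10
import Pool.Agent.Lib.MP_b6d339_lc.Cw.T11
import Pool.Agent.Lib.MP_b6d339_lc.Cw.T12
import Pool.Agent.Lib.MP_b6d339_lc.Cw.T13
import Pool.Agent.Lib.MP_b6d339_lc.Cw.T14
import Pool.Agent.Lib.MP_b6d339_lc.Cw.T15
import Pool.Agent.Lib.MP_b6d339_lc.Cw.T16
import Pool.Agent.Lib.MP_b6d339_lc.Cw.T17
import Pool.Agent.Lib.MP_b6d339_lc.Cw.T3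
import Pool.Agent.Lib.MP_b6d339_lc.Cw.T4
import Pool.Agent.Lib.MP_b6d339_lc.Cw.T5
import Pool.Agent.Lib.MP_b6d339_lc.Cw.T6
import Pool.Agent.Lib.MP_b6d339_lc.Cw.T7
import Pool.Agent.Lib.MP_b6d339_lc.Cw.T8
import Pool.Agent.Lib.MP_b6d339_lc.Cw.T9

/-!
# Erdős 592, three levels: items
-/

namespace MPb6P

noncomputable def iiNFyAzEyA2Ax3xA2AyEzAzF : BT Itm := (.node (.node (.node (.node (.node (.node (.node (.node (.leaf (.fwd 0 43 tp524.df)) (.leaf (.bwd 43 37 tp525.df))) (.leaf (.fwd 80 18 tp333.df))) (.node (.leaf (.fwd 98 32 tp447.df)) (.leaf (.bwd 130 32 tp447.df)))) (.node (.node (.node (.leaf (.fwd 162 23 tp526.df)) (.leaf (.fwd 185 23 tp399.df))) (.leaf (.fwd 208 22 tp527.df))) (.node (.leaf (.fwd 230 32 tp948.df)) (.leaf (.bwd 262 19 tp371.df))))) (.node (.node (.node (.node (.leaf (.bwd 281 35 tp403.df)) (.leaf (.fwd 316 28 tp528.df))) (.leaf (.fwd 344 23 tp292.df))) (.node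 (.leaf (.fwd 367 20 tp324.df)) (.leaf (.fwd 387 26 tp647.df)))) (.node (.node (.leaf (.fwd 413 19 tp326.df)) (.leaf (.bwd 432 19 tp326.df))) (.node (.leaf (.fwd 451 27 tp331.df)) (.leaf (.bwd 478 27 tp331.df)))))) (.node (.node (.node (.node (.node (.leaf (.bwd 505 45 tp490.df)) (.leaf (.bwd 550 29 tp477.df))) (.leaf (.fwd 579 43 tp529.df))) (.node (.leaf (.fwd 622 26 tp514.df)) (.leaf (.fwd 648 28 tp342.df)))) (.node (.node (.node (.leaf (.bwd 676 28 tp342.df)) (.leaf (.fwd 704 22 tp334.df))) (.leaf (.bwd 726 22 tp334.df))) (.node (.leaf (.fwd 748 32 tp368.df)) (.leaf (.bwd 780 32 tp984.df))))) (.node (.node (.node (.node (.leaf (.fwd 812 26 tp367.df)) (.leaf (.bwd 838 31 tp949.df))) (.leaf (.fwd 869 30 tp698.df))) (.node (.leaf (.fwd 899 27 tp341.df)) (.leaf (.bwd 926 27 tp341.df)))) (.node (.node (.leaf (.fwd 953 43 tp531.df)) (.leaf (.bwd 996 43 tp531.df))) (.node (.leaf (.fwd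 1039 24 tp950.df)) (.leaf (.fwd 1063 25 tp319.df))))))) (.node (.node (.node (.node (.node (.node (.leaf (.bwd 1088 25 tp319.df)) (.leaf (.fwd 1113 19 tp405.df))) (.leaf (.fwd 1132 37 tp1157.df))) (.node (.leaf (.fwd 1169 40 tp351.df)) (.leaf (.bwd 1209 40 tp351.df)))) (.node (.node (.node (.leaf (.bwd 1249 37 tp532.df)) (.leaf (.fwd 1286 29 tp484.df))) (.leaf (.fwd 1315 46 tp552.df))) (.node (.leaf (.fwd 1361 32 tp533.df)) (.leaf (.bwd 1393 32 tp533.df))))) (.node (.node (.node (.node (.leaf (.bwd 1425 28 tp553.df)) (.leaf (.bwd 1453 29 tp519.df))) (.leaf (.bwd 1482 37 tp372.df))) (.node (.leaf (.fwd 1519 34 tp499.df)) (.leaf (.fwd 1553 42 tp775.df)))) (.node (.node (.leaf (.fwd 1595 24 tp589.df)) (.leaf (.fwd 1619 38 tp356.df))) (.node (.leaf (.fwd 1657 41 tp534.df)) (.leaf (.bwd 1698 46 tp558.df)))))) (.node (.node (.node (.node (.node (.leaf (.bwd 1744 24 tp810.df)) (.leaf (.bwd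 1768 34 tp535.df))) (.leaf (.fwd 1802 22 tp536.df))) (.node (.leaf (.bwd 1824 32 tp569.df)) (.leaf (.bwd 1856 35 tp1253.df)))) (.node (.node (.node (.leaf (.fwd 1891 48 tp375.df)) (.leaf (.fwd 1939 36 tp350.df))) (.leaf (.fwd 1975 15 tp577.df))) (.node (.leaf (.bwd 1990 15 tp577.df)) (.leaf (.bwd 2005 28 tp538.df))))) (.node (.node (.node (.node (.leaf (.bwd 2033 35 tp359.df)) (.leaf (.fwd 2068 25 tp361.df))) (.leaf (.bwd 2093 25 tp361.df))) (.node (.leaf (.fwd 2118 44 tp364.df)) (.leaf (.bwd 2162 14 tp653.df)))) (.node (.node (.leaf (.bwd 2176 18 tp507.df)) (.leaf (.fwd 2194 25 tp312.df))) (.node (.leaf (.fwd 2219 19 tp401.df)) (.leaf (.fwd 2238 30 tp289.df)))))))) (.node (.node (.node (.node (.node (.node (.node (.leaf (.fwd 2268 25 tp347.df)) (.leaf (.bwd 2293 35 tp360.df))) (.leaf (.fwd 2328 31 tp386.df))) (.node (.leaf (.fwd 2359 19 tp391.df)) (.leaf (.fwd 2378 29 tp511.df))))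 (.node (.node (.node (.leaf (.bwd 2407 29 tp597.df)) (.leaf (.bwd 2436 46 tp550.df))) (.leaf (.fwd 2482 39 tp590.df))) (.node (.leaf (.bwd 2521 27 tp1301.df)) (.leaf (.fwd 2548 32 tp539.df))))) (.node (.node (.node (.node (.leaf (.bwd 2580 28 tp555.df)) (.leaf (.fwd 2608 23 tp366.df))) (.leaf (.bwd 2631 23 tp366.df))) (.node (.leaf (.bwd 2654 34 tp609.df)) (.leaf (.bwd 2688 28 tp395.df)))) (.node (.node (.leaf (.bwd 2716 33 tp363.df)) (.leaf (.fwd 2749 27 tp542.df))) (.node (.leaf (.fwd 2776 29 tp509.df)) (.leaf (.fwd 2805 37 tp557.df)))))) (.node (.node (.node (.node (.node (.leaf (.bwd 2842 32 tp563.df)) (.leaf (.bwd 2874 42 tp559.df))) (.leaf (.bwd 2916 34 tp594.df))) (.node (.leaf (.fwd 2950 25 tp610.df)) (.leaf (.bwd 2975 28 tp603.df)))) (.node (.node (.node (.leaf (.bwd 3003 15 tp595.df)) (.leaf (.fwd 3018 25 tp596.df))) (.leaf (.bwd 3043 42 tp546.df))) (.node (.leaf (.fwd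 3085 33 tp547.df)) (.leaf (.fwd 3118 35 tp444.df))))) (.node (.node (.node (.node (.leaf (.bwd 3153 40 tp1385.df)) (.leaf (.bwd 3193 23 tp1080.df))) (.leaf (.fwd 3216 28 tp1267.df))) (.node (.leaf (.bwd 3244 33 tp1201.df)) (.leaf (.fwd 3277 36 tp1061.df)))) (.node (.node (.leaf (.fwd 3313 35 tp1138.df)) (.leaf (.fwd 3348 47 tp492.df))) (.node (.leaf (.bwd 3395 31 tp530.df)) (.leaf (.fwd 3426 55 tp600.df))))))) (.node (.node (.node (.node (.node (.node (.leaf (.fwd 3481 37 tp525.df)) (.leaf (.fwd 3518 27 tp1133.df))) (.leaf (.fwd 3545 22 tp789.df))) (.node (.leaf (.fwd 3567 30 tp1065.df)) (.leaf (.bwd 3597 29 tp509.df)))) (.node (.node (.node (.leaf (.bwd 3626 33 tp606.df)) (.leaf (.bwd 3659 23 tp565.df))) (.leaf (.fwd 3682 20 tp450.df))) (.node (.leaf (.bwd 3702 30 tp1065.df)) (.leaf (.fwd 3732 28 tp388.df))))) (.node (.node (.node (.node (.leaf (.fwd 3760 17 tp425.df)) (.leaf (.fwd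 3777 27 tp604.df))) (.leaf (.fwd 3804 25 tp436.df))) (.node (.leaf (.fwd 3829 20 tp1351.df)) (.leaf (.bwd 3849 23 tp426.df)))) (.node (.node (.leaf (.fwd 3872 20 tp1341.df)) (.leaf (.fwd 3892 20 tp612.df))) (.node (.leaf (.bwd 3912 22 tp378.df)) (.leaf (.bwd 3934 27 tp409.df)))))) (.node (.node (.node (.node (.node (.leaf (.fwd 3961 19 tp404.df)) (.leaf (.fwd 3980 20 tp614.df))) (.leaf (.bwd 4000 21 tp997.df))) (.node (.leaf (.bwd 4021 29 tp1197.df)) (.leaf (.fwd 4050 17 tp1042.df)))) (.node (.node (.node (.leaf (.bwd 4067 19 tp391.df)) (.leaf (.fwd 4086 32 tp563.df))) (.leaf (.fwd 4118 51 tp1104.df))) (.node (.leaf (.bwd 4169 29 tp452.df)) (.leaf (.bwd 4198 22 tp583.df))))) (.node (.node (.node (.node (.leaf (.fwd 4220 20 tp417.df)) (.leaf (.fwd 4240 18 tp1158.df))) (.leaf (.bwd 4258 23 tp320.df))) (.node (.leaf (.fwd 4281 27 tp1130.df)) (.leaf (.bwd 4308 20 tp614.df)))) (.node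 (.node (.leaf (.bwd 4328 18 tp607.df)) (.leaf (.bwd 4346 21 tp295.df))) (.node (.leaf (.fwd 4367 39 tp678.df)) (.leaf (.fwd 4406 32 tp862.df)))))))))

theorem iiNFyAzEyA2Ax3xA2AyEzAzF_c : iiNFyAzEyA2Ax3xA2AyEzAzF.all (itB (ng 55 nnNFyAzEyA2Ax3xA2AyEzAzF)) = true := by decide +kernel
theorem nbNFyAzEyA2Ax3xA2AyEzAzF : nbB 55 4493 nnNFyAzEyA2Ax3xA2AyEzAzF = true := by decide +kernel
theorem topNFyAzEyA2Ax3xA2AyEzAzF : topY 4493 ttNFyAzEyA2Ax3xA2AyEzAzF ceNFyAzEyA2Ax3xA2AyEzAzF xNFyAzEyA2Ax3xA2AyEzAzF iiNFyAzEyA2Ax3xA2AyEzAzF = true := by decide +kernel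

end MPb6P
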