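import Pool.Agent.Lib.MP_b6d339_lc.Cw.YFzA2AzE2B3HzB2H3B2E
import Pool.Agent.Lib.MP_b6d339_lc.Cw.XL
import Pool.Agent.Lib.MP_b6d339_lc.Cw.T10
import Pool.Agent.Lib.MP_b6d339_lc.Cw.T13
import Pool.Agent.Lib.MP_b6d339_lc.Cw.T14
import Pool.Agent.Lib.MP_b6d339_lc.Cw.T17
import Pool.Agent.Lib.MP_b6d339_lc.Cw.T18
import Pool.Agent.Lib.MP_b6d339_lc.Cw.T19
import Pool.Agent.Lib.MP_b6d339_lc.Cw.T20
import Pool.Agent.Lib.MP_b6d339_lc.Cw.T21
import Pool.Agent.Lib.MP_b6d339_lc.Cw.T22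
import Pool.Agent.Lib.MP_b6d339_lc.Cw.T23
import Pool.Agent.Lib.MP_b6d339_lc.Cw.T25
import Pool.Agent.Lib.MP_b6d339_lc.Cw.T26
import Pool.Agent.Lib.MP_b6d339_lc.Cw.T27
import Pool.Agent.Lib.MP_b6d339_lc.Cw.T28
import Pool.Agent.Lib.MP_b6d339_lc.Cw.T29
import Pool.Agent.Lib.MP_b6d339_lc.Cw.T3
import Pool.Agent.Lib.MP_b6d339_lc.Cw.T30
import Pool.Agent.Lib.MP_b6d339_lc.Cw.T31
import Pool.Agent.Lib.MP_b6d339_lc.Cw.T32
import Pool.Agent.Lib.MP_b6d339_lc.Cw.T4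
import Pool.Agent.Lib.MP_b6d339_lc.Cw.T6
import Pool.Agent.Lib.MP_b6d339_lc.Cw.T7
import Pool.Agent.Lib.MP_b6d339_lc.Cw.T8

/-!
# Erdős 592, three levels: items
-/

namespace MPb6P

noncomputable def iiNFzA2AzE2B3HzB2H3B2E : BT Itm := (.node (.node (.node (.node (.node (.node (.node (.leaf (.fwd 0 29 tp329.df)) (.leaf (.bwd 29 6 tp1576.df))) (.node (.leaf (.bwd 35 46 tp2570.df)) (.leaf (.bwd 81 27 tp2571.df)))) (.node (.node (.leaf (.bwd 108 40 tp1658.df)) (.leaf (.fwd 148 33 tp2572.df))) (.leaf (.fwd 181 28 tp2573.df)))) (.node (.node (.node (.leaf (.bwd 209 15 tp1787.df)) (.leaf (.fwd 224 40 tp2413.df))) (.leaf (.fwd 264 23 tp292.df))) (.node (.node (.leaf (.bwd 287 23 tp292.df)) (.leaf (.bwd 310 21 tp295.df))) (.leaf (.fwd 331 25 tp361.df))))) (.node (.node (.node (.node (.leaf (.bwd 356 28 tp342.df)) (.leaf (.fwd 384 24 tp2215.df))) (.node (.leaf (.fwd 408 42 tp2574.df))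 (.leaf (.fwd 450 32 tp369.df)))) (.node (.node (.leaf (.bwd 482 31 tp2575.df)) (.leaf (.fwd 513 19 tp493.df))) (.leaf (.bwd 532 26 tp2279.df)))) (.node (.node (.node (.leaf (.bwd 558 21 tp656.df)) (.leaf (.bwd 579 13 tp1387.df))) (.leaf (.fwd 592 24 tp2576.df))) (.node (.node (.leaf (.fwd 616 23 tp723.df)) (.leaf (.bwd 639 17 tp1939.df))) (.leaf (.fwd 656 17 tp608.df)))))) (.node (.node (.node (.node (.node (.leaf (.fwd 673 29 tp1410.df)) (.leaf (.fwd 702 17 tp2577.df))) (.node (.leaf (.fwd 719 28 tp2453.df)) (.leaf (.bwd 747 10 tp1783.df)))) (.node (.node (.leaf (.fwd 757 13 tp2406.df)) (.leaf (.bwd 770 37 tp2578.df))) (.leaf (.fwd 807 25 tp2579.df)))) (.node (.node (.node (.leaf (.fwd 832 23 tp2580.df)) (.leaf (.fwd 855 43 tp2581.df))) (.leaf (.fwd 898 19 tp1798.df))) (.node (.node (.leaf (.bwd 917 16 tp2582.df)) (.leaf (.bwd 933 25 tp1799.df))) (.leaf (.fwd 958 42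 tp1468.df))))) (.node (.node (.node (.node (.leaf (.bwd 1000 26 tp365.df)) (.leaf (.bwd 1026 44 tp849.df))) (.leaf (.fwd 1070 36 tp2583.df))) (.node (.node (.leaf (.fwd 1106 40 tp2062.df)) (.leaf (.bwd 1146 21 tp1733.df))) (.leaf (.fwd 1167 30 tp2584.df)))) (.node (.node (.node (.leaf (.bwd 1197 13 tp2459.df)) (.leaf (.fwd 1210 51 tp2585.df))) (.leaf (.fwd 1261 14 tp2450.df))) (.node (.node (.leaf (.bwd 1275 19 tp2462.df)) (.leaf (.bwd 1294 36 tp1182.df))) (.leaf (.fwd 1330 26 tp2586.df))))))) (.node (.node (.node (.node (.node (.node (.leaf (.bwd 1356 49 tp2587.df)) (.leaf (.fwd 1405 23 tp2460.df))) (.node (.leaf (.bwd 1428 30 tp2588.df)) (.leaf (.fwd 1458 45 tp1795.df)))) (.node (.node (.leaf (.fwd 1503 32 tp2589.df)) (.leaf (.fwd 1535 35 tp2590.df))) (.leaf (.fwd 1570 24 tp2591.df)))) (.node (.node (.node (.leaf (.fwd 1594 40 tp2405.df)) (.leaf (.fwd 1634 20 tp2119.df)))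 (.leaf (.bwd 1654 23 tp2592.df))) (.node (.node (.leaf (.fwd 1677 19 tp2593.df)) (.leaf (.bwd 1696 23 tp1770.df))) (.leaf (.bwd 1719 24 tp2235.df))))) (.node (.node (.node (.node (.leaf (.fwd 1743 18 tp1821.df)) (.leaf (.fwd 1761 21 tp2594.df))) (.leaf (.bwd 1782 16 tp2254.df))) (.node (.node (.leaf (.fwd 1798 13 tp1771.df)) (.leaf (.fwd 1811 30 tp1516.df))) (.leaf (.bwd 1841 27 tp1435.df)))) (.node (.node (.node (.leaf (.fwd 1868 49 tp2418.df)) (.leaf (.fwd 1917 28 tp2595.df))) (.leaf (.fwd 1945 32 tp2472.df))) (.node (.node (.leaf (.fwd 1977 23 tp366.df)) (.leaf (.bwd 2000 27 tp2596.df))) (.leaf (.fwd 2027 24 tp2597.df)))))) (.node (.node (.node (.node (.node (.leaf (.fwd 2051 48 tp2598.df)) (.leaf (.bwd 2099 25 tp2599.df))) (.node (.leaf (.bwd 2124 44 tp2255.df)) (.leaf (.fwd 2168 36 tp2600.df)))) (.node (.node (.leaf (.bwd 2204 21 tp2601.df)) (.leaf (.bwd 2225 23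 tp366.df))) (.leaf (.fwd 2248 14 tp1782.df)))) (.node (.node (.node (.leaf (.bwd 2262 47 tp2602.df)) (.leaf (.fwd 2309 21 tp2603.df))) (.leaf (.bwd 2330 31 tp2604.df))) (.node (.node (.leaf (.fwd 2361 12 tp2605.df)) (.leaf (.fwd 2373 42 tp2458.df))) (.leaf (.fwd 2415 21 tp2505.df))))) (.node (.node (.node (.node (.leaf (.bwd 2436 47 tp2606.df)) (.leaf (.bwd 2483 39 tp2607.df))) (.leaf (.bwd 2522 30 tp1105.df))) (.node (.node (.leaf (.bwd 2552 25 tp2608.df)) (.leaf (.bwd 2577 32 tp2068.df))) (.leaf (.fwd 2609 41 tp2473.df)))) (.node (.node (.node (.leaf (.bwd 2650 33 tp2609.df)) (.leaf (.fwd 2683 12 tp2611.df))) (.leaf (.fwd 2695 28 tp2612.df))) (.node (.node (.leaf (.bwd 2723 28 tp344.df)) (.leaf (.fwd 2751 17 tp2613.df))) (.leaf (.bwd 2768 33 tp2614.df))))))))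

theorem iiNFzA2AzE2B3HzB2H3B2E_c : iiNFzA2AzE2B3HzB2H3B2E.all (itB (ng 51 nnNFzA2AzE2B3HzB2H3B2E)) = true := by decide +kernel
theorem nbNFzA2AzE2B3HzB2H3B2E : nbB 51 2852 nnNFzA2AzE2B3HzB2H3B2E = true := by decide +kernel
theorem topNFzA2AzE2B3HzB2H3B2E : topY 2852 ttNFzA2AzE2B3HzB2H3B2E ceNFzA2AzE2B3HzB2H3B2E xNFzA2AzE2B3HzB2H3B2E iiNFzA2AzE2B3HzB2H3B2E = true := by decide +kernel

end MPb6P
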