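import Pool.Agent.Lib.MP_b6d339_lc.Cw.YFzAzAzE2A2Ax3xA2A2EzA2AyF
import Pool.Agent.Lib.MP_b6d339_lc.Cw.XL
import Pool.Agent.Lib.MP_b6d339_lc.Cw.T10
import Pool.Agent.Lib.MP_b6d339_lc.Cw.T11
import Pool.Agent.Lib.MP_b6d339_lc.Cw.T12
import Pool.Agent.Lib.MP_b6d339_lc.Cw.T13
import Pool.Agent.Lib.MP_b6d339_lc.Cw.T3
import Pool.Agent.Lib.MP_b6d339_lc.Cw.T4
import Pool.Agent.Lib.MP_b6d339_lc.Cw.T5
import Pool.Agent.Lib.MP_b6d339_lc.Cw.T6
import Pool.Agent.Lib.MP_b6d339_lc.Cw.T7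
import Pool.Agent.Lib.MP_b6d339_lc.Cw.T8
import Pool.Agent.Lib.MP_b6d339_lc.Cw.T9

/-!
# Erdős 592, three levels: items
-/

namespace MPb6P

noncomputable def iiNFzAzAzE2A2Ax3xA2A2EzA2AyF : BT Itm := (.node (.node (.node (.node (.node (.node (.node (.leaf (.fwd 0 15 tp318.df)) (.leaf (.bwd 15 27 tp567.df))) (.node (.leaf (.fwd 42 32 tp368.df)) (.leaf (.bwd 74 32 tp368.df)))) (.node (.node (.leaf (.bwd 106 13 tp307.df)) (.leaf (.bwd 119 23 tp320.df))) (.node (.leaf (.fwd 142 27 tp321.df)) (.leaf (.fwd 169 23 tp292.df))))) (.node (.node (.node (.leaf (.bwd 192 29 tp452.df)) (.leaf (.bwd 221 28 tp1059.df))) (.node (.leaf (.fwd 249 27 tp330.df)) (.leaf (.bwd 276 27 tp331.df)))) (.node (.node (.leaf (.fwd 303 38 tp688.df)) (.leaf (.bwd 341 29 tp484.df))) (.leaf (.fwd 370 22 tp334.df))))) (.node (.node (.node (.node (.leaf (.bwd 392 22 tp334.df)) (.leaf (.fwd 414 37 tp1060.df)))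 (.node (.leaf (.fwd 451 16 tp485.df)) (.leaf (.fwd 467 23 tp335.df)))) (.node (.node (.leaf (.fwd 490 36 tp1061.df)) (.leaf (.fwd 526 32 tp397.df))) (.leaf (.bwd 558 32 tp397.df)))) (.node (.node (.node (.leaf (.fwd 590 17 tp337.df)) (.leaf (.fwd 607 30 tp1062.df))) (.node (.leaf (.fwd 637 35 tp1063.df)) (.leaf (.bwd 672 23 tp1064.df)))) (.node (.node (.leaf (.fwd 695 30 tp1065.df)) (.leaf (.fwd 725 45 tp490.df))) (.leaf (.fwd 770 22 tp378.df)))))) (.node (.node (.node (.node (.node (.leaf (.bwd 792 37 tp532.df)) (.leaf (.fwd 829 22 tp473.df))) (.node (.leaf (.fwd 851 28 tp342.df)) (.leaf (.bwd 879 32 tp1066.df)))) (.node (.node (.leaf (.bwd 911 30 tp299.df)) (.leaf (.fwd 941 33 tp783.df))) (.node (.leaf (.fwd 974 22 tp451.df)) (.leaf (.fwd 996 35 tp403.df))))) (.node (.node (.node (.leaf (.fwd 1031 35 tp1067.df)) (.leaf (.fwd 1066 38 tp587.df))) (.node (.leaf (.fwd 1104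 33 tp1054.df)) (.leaf (.fwd 1137 39 tp498.df)))) (.node (.node (.leaf (.bwd 1176 31 tp346.df)) (.leaf (.fwd 1207 34 tp499.df))) (.leaf (.bwd 1241 31 tp500.df))))) (.node (.node (.node (.node (.leaf (.fwd 1272 27 tp1068.df)) (.leaf (.bwd 1299 25 tp347.df))) (.node (.leaf (.fwd 1324 22 tp789.df)) (.leaf (.fwd 1346 30 tp503.df)))) (.node (.node (.leaf (.bwd 1376 25 tp312.df)) (.leaf (.fwd 1401 29 tp504.df))) (.leaf (.fwd 1430 40 tp784.df)))) (.node (.node (.node (.leaf (.bwd 1470 29 tp477.df)) (.leaf (.bwd 1499 37 tp376.df))) (.node (.leaf (.fwd 1536 24 tp353.df)) (.leaf (.bwd 1560 24 tp353.df)))) (.node (.node (.leaf (.bwd 1584 20 tp450.df)) (.leaf (.fwd 1604 13 tp355.df))) (.leaf (.bwd 1617 38 tp356.df))))))) (.node (.node (.node (.node (.node (.node (.leaf (.fwd 1655 26 tp1069.df)) (.leaf (.fwd 1681 38 tp1070.df))) (.node (.leaf (.bwd 1719 37 tp358.df)) (.leaf (.fwd 1756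 37 tp410.df)))) (.node (.node (.leaf (.fwd 1793 34 tp1071.df)) (.leaf (.bwd 1827 35 tp359.df))) (.node (.leaf (.bwd 1862 25 tp361.df)) (.leaf (.fwd 1887 48 tp375.df))))) (.node (.node (.node (.leaf (.bwd 1935 16 tp1072.df)) (.leaf (.bwd 1951 29 tp1073.df))) (.node (.leaf (.bwd 1980 28 tp1074.df)) (.leaf (.bwd 2008 44 tp364.df)))) (.node (.node (.leaf (.fwd 2052 26 tp365.df)) (.leaf (.bwd 2078 23 tp366.df))) (.leaf (.fwd 2101 27 tp445.df))))) (.node (.node (.node (.node (.leaf (.bwd 2128 27 tp445.df)) (.leaf (.fwd 2155 28 tp578.df))) (.node (.leaf (.bwd 2183 23 tp489.df)) (.leaf (.fwd 2206 23 tp1075.df)))) (.node (.node (.leaf (.fwd 2229 27 tp338.df)) (.leaf (.fwd 2256 23 tp796.df))) (.leaf (.fwd 2279 47 tp492.df)))) (.node (.node (.node (.leaf (.fwd 2326 29 tp832.df)) (.leaf (.bwd 2355 42 tp458.df))) (.node (.leaf (.bwd 2397 43 tp454.df)) (.leaf (.fwd 2440 29 tp511.df))))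 (.node (.node (.leaf (.fwd 2469 28 tp496.df)) (.leaf (.bwd 2497 33 tp1076.df))) (.leaf (.fwd 2530 27 tp510.df)))))) (.node (.node (.node (.node (.node (.leaf (.fwd 2557 22 tp1077.df)) (.leaf (.fwd 2579 36 tp350.df))) (.node (.leaf (.fwd 2615 19 tp371.df)) (.leaf (.bwd 2634 45 tp508.df)))) (.node (.node (.leaf (.bwd 2679 32 tp495.df)) (.leaf (.fwd 2711 18 tp586.df))) (.leaf (.bwd 2729 40 tp963.df)))) (.node (.node (.node (.leaf (.fwd 2769 25 tp512.df)) (.leaf (.bwd 2794 30 tp1078.df))) (.node (.leaf (.fwd 2824 25 tp488.df)) (.leaf (.bwd 2849 40 tp575.df)))) (.node (.node (.leaf (.fwd 2889 15 tp521.df)) (.leaf (.bwd 2904 33 tp585.df))) (.leaf (.fwd 2937 22 tp625.df))))) (.node (.node (.node (.node (.leaf (.fwd 2959 49 tp1079.df)) (.leaf (.bwd 3008 22 tp788.df))) (.node (.leaf (.fwd 3030 25 tp347.df)) (.leaf (.bwd 3055 31 tp349.df)))) (.node (.node (.leaf (.bwd 3086 29 tp519.df))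 (.leaf (.bwd 3115 37 tp581.df))) (.leaf (.fwd 3152 26 tp514.df)))) (.node (.node (.node (.leaf (.bwd 3178 29 tp694.df)) (.leaf (.bwd 3207 23 tp1080.df))) (.node (.leaf (.bwd 3230 21 tp1081.df)) (.leaf (.fwd 3251 25 tp361.df)))) (.node (.node (.leaf (.fwd 3276 29 tp1082.df)) (.leaf (.bwd 3305 15 tp318.df))) (.leaf (.bwd 3320 34 tp1010.df))))))))

theorem iiNFzAzAzE2A2Ax3xA2A2EzA2AyF_c : iiNFzAzAzE2A2Ax3xA2A2EzA2AyF.all (itB (ng 49 nnNFzAzAzE2A2Ax3xA2A2EzA2AyF)) = true := by decide +kernel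
theorem nbNFzAzAzE2A2Ax3xA2A2EzA2AyF : nbB 49 3403 nnNFzAzAzE2A2Ax3xA2A2EzA2AyF = true := by decide +kernel
theorem topNFzAzAzE2A2Ax3xA2A2EzA2AyF : topY 3403 ttNFzAzAzE2A2Ax3xA2A2EzA2AyF ceNFzAzAzE2A2Ax3xA2A2EzA2AyF xNFzAzAzE2A2Ax3xA2A2EzA2AyF iiNFzAzAzE2A2Ax3xA2A2EzA2AyF = true := by decide +kernel

end MPb6P
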