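import Pool.Agent.Lib.MP_b6d339_lc.Cw.YFzAzAzEyA2Ax3xA2AyEzAzAyF
import Pool.Agent.Lib.MP_b6d339_lc.Cw.XL
import Pool.Agent.Lib.MP_b6d339_lc.Cw.T10
import Pool.Agent.Lib.MP_b6d339_lc.Cw.T11
import Pool.Agent.Lib.MP_b6d339_lc.Cw.T12
import Pool.Agent.Lib.MP_b6d339_lc.Cw.T13
import Pool.Agent.Lib.MP_b6d339_lc.Cw.T3
import Pool.Agent.Lib.MP_b6d339_lc.Cw.T4
import Pool.Agent.Lib.MP_b6d339_lc.Cw.T5
import Pool.Agent.Lib.MP_b6d339_lc.Cw.T6
import Pool.Agent.Lib.MP_b6d339_lc.Cw.T7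
import Pool.Agent.Lib.MP_b6d339_lc.Cw.T8
import Pool.Agent.Lib.MP_b6d339_lc.Cw.T9

/-!
# Erdős 592, three levels: items
-/

namespace MPb6P

noncomputable def iiNFzAzAzEyA2Ax3xA2AyEzAzAyF : BT Itm := (.node (.node (.node (.node (.node (.node (.node (.node (.leaf (.fwd 0 43 tp524.df)) (.leaf (.fwd 43 18 tp461.df))) (.leaf (.bwd 61 37 tp525.df))) (.node (.leaf (.fwd 98 32 tp447.df)) (.leaf (.bwd 130 32 tp447.df)))) (.node (.node (.leaf (.fwd 162 21 tp295.df)) (.leaf (.fwd 183 23 tp399.df))) (.node (.leaf (.bwd 206 23 tp399.df)) (.leaf (.bwd 229 37 tp1116.df))))) (.node (.node (.node (.node (.leaf (.fwd 266 35 tp403.df)) (.leaf (.bwd 301 35 tp403.df))) (.leaf (.fwd 336 23 tp292.df))) (.node (.leaf (.bwd 359 20 tp324.df)) (.leaf (.fwd 379 19 tp326.df)))) (.node (.node (.leaf (.fwd 398 27 tp331.df)) (.leaf (.bwd 425 45 tp490.df))) (.node (.leaf (.fwd 470 29 tp477.df)) (.leaf (.bwd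 499 29 tp477.df)))))) (.node (.node (.node (.node (.node (.leaf (.fwd 528 43 tp529.df)) (.leaf (.fwd 571 26 tp514.df))) (.leaf (.fwd 597 28 tp342.df))) (.node (.leaf (.bwd 625 28 tp342.df)) (.leaf (.fwd 653 25 tp488.df)))) (.node (.node (.leaf (.fwd 678 38 tp688.df)) (.leaf (.fwd 716 22 tp334.df))) (.node (.leaf (.bwd 738 22 tp334.df)) (.leaf (.fwd 760 32 tp368.df))))) (.node (.node (.node (.node (.leaf (.bwd 792 32 tp368.df)) (.leaf (.bwd 824 31 tp530.df))) (.leaf (.bwd 855 23 tp489.df))) (.node (.leaf (.fwd 878 30 tp698.df)) (.leaf (.fwd 908 27 tp341.df)))) (.node (.node (.leaf (.bwd 935 27 tp341.df)) (.leaf (.fwd 962 43 tp531.df))) (.node (.leaf (.bwd 1005 43 tp531.df)) (.leaf (.fwd 1048 19 tp405.df))))))) (.node (.node (.node (.node (.node (.node (.leaf (.bwd 1067 22 tp378.df)) (.leaf (.bwd 1089 37 tp532.df))) (.leaf (.fwd 1126 29 tp484.df))) (.node (.leaf (.bwd 1155 29 tp484.df))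 (.leaf (.bwd 1184 32 tp533.df)))) (.node (.node (.leaf (.fwd 1216 28 tp578.df)) (.leaf (.bwd 1244 37 tp372.df))) (.node (.leaf (.fwd 1281 34 tp499.df)) (.leaf (.fwd 1315 38 tp356.df))))) (.node (.node (.node (.node (.leaf (.bwd 1353 46 tp558.df)) (.leaf (.bwd 1399 34 tp535.df))) (.leaf (.fwd 1433 22 tp536.df))) (.node (.leaf (.fwd 1455 38 tp348.df)) (.leaf (.fwd 1493 31 tp850.df)))) (.node (.node (.leaf (.bwd 1524 23 tp426.df)) (.leaf (.fwd 1547 48 tp375.df))) (.node (.leaf (.bwd 1595 35 tp359.df)) (.leaf (.fwd 1630 44 tp364.df)))))) (.node (.node (.node (.node (.node (.leaf (.bwd 1674 44 tp364.df)) (.leaf (.bwd 1718 18 tp507.df))) (.leaf (.fwd 1736 25 tp312.df))) (.node (.leaf (.fwd 1761 27 tp961.df)) (.leaf (.fwd 1788 25 tp347.df)))) (.node (.node (.leaf (.bwd 1813 35 tp360.df)) (.leaf (.fwd 1848 31 tp386.df))) (.node (.leaf (.bwd 1879 46 tp550.df)) (.leaf (.fwd 1925 29 tp1082.df)))))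 (.node (.node (.node (.leaf (.bwd 1954 23 tp366.df)) (.leaf (.fwd 1977 29 tp599.df))) (.node (.leaf (.fwd 2006 18 tp566.df)) (.leaf (.bwd 2024 33 tp363.df)))) (.node (.node (.leaf (.fwd 2057 24 tp1085.df)) (.leaf (.fwd 2081 27 tp542.df))) (.node (.leaf (.fwd 2108 29 tp509.df)) (.leaf (.bwd 2137 30 tp1092.df)))))))) (.node (.node (.node (.node (.node (.node (.node (.leaf (.fwd 2167 37 tp557.df)) (.leaf (.bwd 2204 33 tp1117.df))) (.leaf (.bwd 2237 23 tp1118.df))) (.node (.leaf (.fwd 2260 25 tp596.df)) (.leaf (.bwd 2285 42 tp546.df)))) (.node (.node (.leaf (.fwd 2327 33 tp547.df)) (.leaf (.bwd 2360 23 tp1080.df))) (.node (.leaf (.bwd 2383 32 tp495.df)) (.leaf (.fwd 2415 23 tp1088.df))))) (.node (.node (.node (.node (.leaf (.bwd 2438 23 tp1093.df)) (.leaf (.fwd 2461 18 tp300.df))) (.leaf (.fwd 2479 29 tp398.df))) (.node (.leaf (.bwd 2508 30 tp1103.df)) (.leaf (.fwd 2538 20 tp450.df))))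 (.node (.node (.leaf (.fwd 2558 22 tp527.df)) (.leaf (.fwd 2580 30 tp1065.df))) (.node (.leaf (.bwd 2610 34 tp501.df)) (.leaf (.fwd 2644 29 tp504.df)))))) (.node (.node (.node (.node (.node (.leaf (.fwd 2673 35 tp1119.df)) (.leaf (.fwd 2708 25 tp361.df))) (.leaf (.fwd 2733 27 tp996.df))) (.node (.leaf (.bwd 2760 40 tp554.df)) (.leaf (.fwd 2800 41 tp534.df)))) (.node (.node (.leaf (.bwd 2841 28 tp555.df)) (.leaf (.fwd 2869 25 tp602.df))) (.node (.leaf (.fwd 2894 34 tp494.df)) (.leaf (.bwd 2928 27 tp542.df))))) (.node (.node (.node (.node (.leaf (.bwd 2955 28 tp528.df)) (.leaf (.fwd 2983 35 tp541.df))) (.leaf (.bwd 3018 42 tp559.df))) (.node (.leaf (.fwd 3060 25 tp319.df)) (.leaf (.fwd 3085 46 tp552.df)))) (.node (.node (.leaf (.bwd 3131 32 tp340.df)) (.leaf (.fwd 3163 28 tp528.df))) (.node (.leaf (.fwd 3191 37 tp525.df)) (.leaf (.fwd 3228 22 tp789.df))))))) (.node (.node (.node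 (.node (.node (.node (.leaf (.fwd 3250 32 tp563.df)) (.leaf (.bwd 3282 21 tp295.df))) (.leaf (.fwd 3303 28 tp551.df))) (.node (.leaf (.bwd 3331 29 tp519.df)) (.leaf (.bwd 3360 23 tp320.df)))) (.node (.node (.leaf (.fwd 3383 19 tp404.df)) (.leaf (.bwd 3402 27 tp562.df))) (.node (.leaf (.fwd 3429 21 tp296.df)) (.leaf (.bwd 3450 27 tp445.df))))) (.node (.node (.node (.node (.leaf (.fwd 3477 22 tp1000.df)) (.leaf (.fwd 3499 25 tp610.df))) (.leaf (.bwd 3524 17 tp1109.df))) (.node (.leaf (.bwd 3541 43 tp568.df)) (.leaf (.bwd 3584 35 tp1120.df)))) (.node (.node (.leaf (.bwd 3619 18 tp461.df)) (.leaf (.fwd 3637 28 tp388.df))) (.node (.leaf (.fwd 3665 12 tp1121.df)) (.leaf (.bwd 3677 24 tp1122.df)))))) (.node (.node (.node (.node (.node (.leaf (.fwd 3701 20 tp417.df)) (.leaf (.bwd 3721 35 tp1123.df))) (.leaf (.bwd 3756 25 tp423.df))) (.node (.leaf (.fwd 3781 30 tp289.df)) (.leaf (.bwd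 3811 27 tp567.df)))) (.node (.node (.leaf (.fwd 3838 29 tp572.df)) (.leaf (.bwd 3867 27 tp961.df))) (.node (.leaf (.fwd 3894 25 tp442.df)) (.leaf (.bwd 3919 14 tp522.df))))) (.node (.node (.node (.leaf (.fwd 3933 23 tp377.df)) (.leaf (.fwd 3956 40 tp573.df))) (.node (.leaf (.bwd 3996 39 tp682.df)) (.leaf (.bwd 4035 22 tp339.df)))) (.node (.node (.leaf (.bwd 4057 19 tp517.df)) (.leaf (.fwd 4076 16 tp946.df))) (.node (.leaf (.bwd 4092 29 tp1017.df)) (.leaf (.bwd 4121 30 tp1105.df)))))))))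

theorem iiNFzAzAzEyA2Ax3xA2AyEzAzAyF_c : iiNFzAzAzEyA2Ax3xA2AyEzAzAyF.all (itB (ng 48 nnNFzAzAzEyA2Ax3xA2AyEzAzAyF)) = true := by decide +kernel
theorem nbNFzAzAzEyA2Ax3xA2AyEzAzAyF : nbB 48 4199 nnNFzAzAzEyA2Ax3xA2AyEzAzAyF = true := by decide +kernel
theorem topNFzAzAzEyA2Ax3xA2AyEzAzAyF : topY 4199 ttNFzAzAzEyA2Ax3xA2AyEzAzAyF ceNFzAzAzEyA2Ax3xA2AyEzAzAyF xNFzAzAzEyA2Ax3xA2AyEzAzAyF iiNFzAzAzEyA2Ax3xA2AyEzAzAyF = true := by decide +kernel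

end MPb6P
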