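import Pool.Agent.Lib.MP_b6d339_lc.Cw.YFzAzAzEyA2Ax3xA2AyEzAzAzF
import Pool.Agent.Lib.MP_b6d339_lc.Cw.XL
import Pool.Agent.Lib.MP_b6d339_lc.Cw.T10
import Pool.Agent.Lib.MP_b6d339_lc.Cw.T11
import Pool.Agent.Lib.MP_b6d339_lc.Cw.T13
import Pool.Agent.Lib.MP_b6d339_lc.Cw.T14
import Pool.Agent.Lib.MP_b6d339_lc.Cw.T15
import Pool.Agent.Lib.MP_b6d339_lc.Cw.T17
import Pool.Agent.Lib.MP_b6d339_lc.Cw.T3
import Pool.Agent.Lib.MP_b6d339_lc.Cw.T4
import Pool.Agent.Lib.MP_b6d339_lc.Cw.T5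
import Pool.Agent.Lib.MP_b6d339_lc.Cw.T6
import Pool.Agent.Lib.MP_b6d339_lc.Cw.T7
import Pool.Agent.Lib.MP_b6d339_lc.Cw.T8

/-!
# Erdős 592, three levels: items
-/

namespace MPb6P

noncomputable def iiNFzAzAzEyA2Ax3xA2AyEzAzAzF : BT Itm := (.node (.node (.node (.node (.node (.node (.node (.leaf (.fwd 0 32 tp368.df)) (.leaf (.bwd 32 32 tp368.df))) (.node (.leaf (.bwd 64 23 tp320.df)) (.leaf (.bwd 87 28 tp603.df)))) (.node (.node (.leaf (.fwd 115 23 tp292.df)) (.leaf (.fwd 138 25 tp392.df))) (.node (.leaf (.fwd 163 19 tp326.df)) (.leaf (.bwd 182 19 tp326.df))))) (.node (.node (.node (.leaf (.bwd 201 34 tp609.df)) (.leaf (.fwd 235 18 tp300.df))) (.node (.leaf (.fwd 253 27 tp961.df)) (.leaf (.fwd 280 19 tp478.df)))) (.node (.node (.leaf (.bwd 299 20 tp614.df)) (.leaf (.fwd 319 29 tp484.df))) (.leaf (.bwd 348 29 tp484.df))))) (.node (.node (.node (.node (.leaf (.fwd 377 23 tp526.df))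 (.leaf (.bwd 400 29 tp1187.df))) (.node (.leaf (.bwd 429 22 tp334.df)) (.leaf (.bwd 451 15 tp721.df)))) (.node (.node (.leaf (.fwd 466 45 tp490.df)) (.leaf (.bwd 511 45 tp490.df))) (.node (.leaf (.fwd 556 22 tp378.df)) (.leaf (.fwd 578 27 tp341.df))))) (.node (.node (.node (.leaf (.bwd 605 27 tp341.df)) (.leaf (.fwd 632 28 tp342.df))) (.node (.leaf (.bwd 660 28 tp342.df)) (.leaf (.fwd 688 31 tp850.df)))) (.node (.node (.leaf (.fwd 719 23 tp399.df)) (.leaf (.fwd 742 32 tp369.df))) (.leaf (.fwd 774 19 tp401.df)))))) (.node (.node (.node (.node (.node (.leaf (.bwd 793 30 tp289.df)) (.leaf (.bwd 823 32 tp440.df))) (.node (.leaf (.bwd 855 32 tp533.df)) (.leaf (.bwd 887 34 tp535.df)))) (.node (.node (.leaf (.bwd 921 37 tp372.df)) (.leaf (.bwd 958 28 tp553.df))) (.node (.leaf (.fwd 986 43 tp531.df)) (.leaf (.bwd 1029 43 tp531.df))))) (.node (.node (.node (.leaf (.fwd 1072 32 tp447.df))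 (.leaf (.bwd 1104 32 tp447.df))) (.node (.leaf (.fwd 1136 37 tp525.df)) (.leaf (.bwd 1173 37 tp525.df)))) (.node (.node (.leaf (.fwd 1210 43 tp524.df)) (.leaf (.bwd 1253 43 tp524.df))) (.leaf (.fwd 1296 35 tp403.df))))) (.node (.node (.node (.node (.leaf (.bwd 1331 35 tp403.df)) (.leaf (.fwd 1366 34 tp499.df))) (.node (.leaf (.fwd 1400 35 tp541.df)) (.leaf (.bwd 1435 24 tp1091.df)))) (.node (.node (.leaf (.fwd 1459 22 tp536.df)) (.leaf (.bwd 1481 46 tp558.df))) (.leaf (.fwd 1527 19 tp405.df)))) (.node (.node (.node (.leaf (.fwd 1546 40 tp554.df)) (.leaf (.bwd 1586 30 tp1092.df))) (.node (.leaf (.bwd 1616 42 tp559.df)) (.leaf (.fwd 1658 41 tp534.df)))) (.node (.node (.leaf (.bwd 1699 29 tp477.df)) (.leaf (.bwd 1728 37 tp376.df))) (.leaf (.fwd 1765 22 tp527.df))))))) (.node (.node (.node (.node (.node (.node (.leaf (.fwd 1787 23 tp543.df)) (.leaf (.fwd 1810 40 tp351.df))) (.node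 (.leaf (.fwd 1850 24 tp353.df)) (.leaf (.bwd 1874 38 tp687.df)))) (.node (.node (.leaf (.bwd 1912 28 tp555.df)) (.leaf (.fwd 1940 19 tp371.df))) (.node (.leaf (.bwd 1959 19 tp371.df)) (.leaf (.bwd 1978 26 tp1412.df))))) (.node (.node (.node (.leaf (.bwd 2004 34 tp1413.df)) (.leaf (.fwd 2038 24 tp411.df))) (.node (.leaf (.bwd 2062 33 tp435.df)) (.leaf (.bwd 2095 28 tp538.df)))) (.node (.node (.leaf (.bwd 2123 35 tp359.df)) (.leaf (.bwd 2158 35 tp360.df))) (.leaf (.fwd 2193 25 tp361.df))))) (.node (.node (.node (.node (.leaf (.bwd 2218 25 tp361.df)) (.leaf (.fwd 2243 48 tp375.df))) (.node (.leaf (.bwd 2291 29 tp1073.df)) (.leaf (.fwd 2320 44 tp364.df)))) (.node (.node (.leaf (.bwd 2364 44 tp364.df)) (.leaf (.fwd 2408 31 tp386.df))) (.leaf (.bwd 2439 27 tp542.df)))) (.node (.node (.node (.leaf (.fwd 2466 29 tp509.df)) (.leaf (.fwd 2495 23 tp366.df))) (.node (.leaf (.bwd 2518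 23 tp366.df)) (.leaf (.fwd 2541 25 tp596.df)))) (.node (.node (.leaf (.fwd 2566 27 tp542.df)) (.leaf (.fwd 2593 29 tp504.df))) (.leaf (.bwd 2622 42 tp546.df)))))) (.node (.node (.node (.node (.node (.leaf (.fwd 2664 46 tp552.df)) (.leaf (.fwd 2710 22 tp473.df))) (.node (.leaf (.fwd 2732 36 tp350.df)) (.leaf (.fwd 2768 55 tp600.df)))) (.node (.node (.leaf (.fwd 2823 25 tp319.df)) (.leaf (.bwd 2848 40 tp351.df))) (.node (.leaf (.bwd 2888 37 tp532.df)) (.leaf (.fwd 2925 33 tp547.df))))) (.node (.node (.node (.leaf (.bwd 2958 40 tp554.df)) (.leaf (.bwd 2998 30 tp1103.df))) (.node (.leaf (.fwd 3028 26 tp432.df)) (.leaf (.fwd 3054 20 tp612.df)))) (.node (.node (.leaf (.bwd 3074 30 tp1105.df)) (.leaf (.bwd 3104 41 tp1414.df))) (.leaf (.bwd 3145 26 tp419.df))))) (.node (.node (.node (.node (.leaf (.fwd 3171 19 tp404.df)) (.leaf (.bwd 3190 33 tp606.df))) (.node (.leaf (.bwd 3223 29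 tp519.df)) (.leaf (.bwd 3252 15 tp1415.df)))) (.node (.node (.leaf (.fwd 3267 16 tp1416.df)) (.leaf (.fwd 3283 14 tp653.df))) (.leaf (.bwd 3297 22 tp378.df)))) (.node (.node (.node (.leaf (.fwd 3319 35 tp444.df)) (.leaf (.bwd 3354 35 tp1123.df))) (.node (.leaf (.fwd 3389 27 tp1068.df)) (.leaf (.bwd 3416 24 tp897.df)))) (.node (.node (.leaf (.fwd 3440 39 tp1264.df)) (.leaf (.fwd 3479 17 tp1417.df))) (.leaf (.bwd 3496 43 tp568.df))))))))

theorem iiNFzAzAzEyA2Ax3xA2AyEzAzAzF_c : iiNFzAzAzEyA2Ax3xA2AyEzAzAzF.all (itB (ng 55 nnNFzAzAzEyA2Ax3xA2AyEzAzAzF)) = true := by decide +kernel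
theorem nbNFzAzAzEyA2Ax3xA2AyEzAzAzF : nbB 55 3594 nnNFzAzAzEyA2Ax3xA2AyEzAzAzF = true := by decide +kernel
theorem topNFzAzAzEyA2Ax3xA2AyEzAzAzF : topY 3594 ttNFzAzAzEyA2Ax3xA2AyEzAzAzF ceNFzAzAzEyA2Ax3xA2AyEzAzAzF xNFzAzAzEyA2Ax3xA2AyEzAzAzF iiNFzAzAzEyA2Ax3xA2AyEzAzAzF = true := by decide +kernel

end MPb6P
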