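import Pool.Agent.Lib.MP_b6d339_lc.Cw.YFzA2AzE2B3HzB2H3B2E
import Pool.Agent.Lib.MP_b6d339_lc.Cw.XL

/-!
# Erdős 592, three levels: checks of claims
-/

namespace MPb6P

theorem zeNFzA2AzE2B3HzB2H3B2E_0 : cyE 51 2852 nnNFzA2AzE2B3HzB2H3B2E ttNFzA2AzE2B3HzB2H3B2E coNFzA2AzE2B3HzB2H3B2E xNFzA2AzE2B3HzB2H3B2E ceNFzA2AzE2B3HzB2H3B2E_0 = true := by decide +kernel

theorem zoNFzA2AzE2B3HzB2H3B2E_0 : cyO 51 2852 nnNFzA2AzE2B3HzB2H3B2E ttNFzA2AzE2B3HzB2H3B2E ceNFzA2AzE2B3HzB2H3B2E xNFzA2AzE2B3HzB2H3B2E coNFzA2AzE2B3HzB2H3B2E_0 = true := by decide +kernel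

end MPb6P
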