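import Pool.Agent.Lib.MP_b6d339_lc.Cw.JFyAzEyA2Ax3xA2AyEzAyF
import Pool.Agent.Lib.MP_b6d339_lc.Cw.JFyAzEyA2Ax3xA2AyEzAzF
import Pool.Agent.Lib.MP_b6d339_lc.Cw.JFzA2AzE2B3HzB2H3B2E
import Pool.Agent.Lib.MP_b6d339_lc.Cw.JFzAzAzE2A2Ax3xA2A2EzA2AyF
import Pool.Agent.Lib.MP_b6d339_lc.Cw.JFzAzAzEyA2Ax3xA2AyEzAzAyF
import Pool.Agent.Lib.MP_b6d339_lc.Cw.JFzAzAzEyA2Ax3xA2AyEzAzAzF
import Pool.Agent.Lib.MP_b6d339_lc.Cw.S0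
import Pool.Agent.Lib.MP_b6d339_lc.Cw.S1
import Pool.Agent.Lib.MP_b6d339_lc.Cw.S3
import Pool.Agent.Lib.MP_b6d339_lc.Cw.S6
import Pool.Agent.Lib.MP_b6d339_lc.Cw.S7
import Pool.Agent.Lib.MP_b6d339_lc.Cw.T0
import Pool.Agent.Lib.MP_b6d339_lc.Cw.T1
import Pool.Agent.Lib.MP_b6d339_lc.Cw.T10
import Pool.Agent.Lib.MP_b6d339_lc.Cw.T11
import Pool.Agent.Lib.MP_b6d339_lc.Cw.T12
import Pool.Agent.Lib.MP_b6d339_lc.Cw.T13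
import Pool.Agent.Lib.MP_b6d339_lc.Cw.T14
import Pool.Agent.Lib.MP_b6d339_lc.Cw.T15
import Pool.Agent.Lib.MP_b6d339_lc.Cw.T16
import Pool.Agent.Lib.MP_b6d339_lc.Cw.T17
import Pool.Agent.Lib.MP_b6d339_lc.Cw.T18
import Pool.Agent.Lib.MP_b6d339_lc.Cw.T19
import Pool.Agent.Lib.MP_b6d339_lc.Cw.T2
import Pool.Agent.Lib.MP_b6d339_lc.Cw.T20
import Pool.Agent.Lib.MP_b6d339_lc.Cw.T21
import Pool.Agent.Lib.MP_b6d339_lc.Cw.T22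
import Pool.Agent.Lib.MP_b6d339_lc.Cw.T23
import Pool.Agent.Lib.MP_b6d339_lc.Cw.T24
import Pool.Agent.Lib.MP_b6d339_lc.Cw.T25
import Pool.Agent.Lib.MP_b6d339_lc.Cw.T26
import Pool.Agent.Lib.MP_b6d339_lc.Cw.T27
import Pool.Agent.Lib.MP_b6d339_lc.Cw.T28
import Pool.Agent.Lib.MP_b6d339_lc.Cw.T29
import Pool.Agent.Lib.MP_b6d339_lc.Cw.T3
import Pool.Agent.Lib.MP_b6d339_lc.Cw.T30
import Pool.Agent.Lib.MP_b6d339_lc.Cw.T31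
import Pool.Agent.Lib.MP_b6d339_lc.Cw.T32
import Pool.Agent.Lib.MP_b6d339_lc.Cw.T33
import Pool.Agent.Lib.MP_b6d339_lc.Cw.T34
import Pool.Agent.Lib.MP_b6d339_lc.Cw.T35
import Pool.Agent.Lib.MP_b6d339_lc.Cw.T36
import Pool.Agent.Lib.MP_b6d339_lc.Cw.T4
import Pool.Agent.Lib.MP_b6d339_lc.Cw.T5
import Pool.Agent.Lib.MP_b6d339_lc.Cw.T6
import Pool.Agent.Lib.MP_b6d339_lc.Cw.T7
import Pool.Agent.Lib.MP_b6d339_lc.Cw.T8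
import Pool.Agent.Lib.MP_b6d339_lc.Cw.T9
import Pool.Agent.Lib.MP_b6d339_lc.Cw.XL
import Pool.Agent.Lib.MP_b6d339_lc.Cw.ZFyAzEyA2Ax3xA2AyEzAyF_0
import Pool.Agent.Lib.MP_b6d339_lc.Cw.ZFyAzEyA2Ax3xA2AyEzAyF_1
import Pool.Agent.Lib.MP_b6d339_lc.Cw.ZFyAzEyA2Ax3xA2AyEzAzF_0
import Pool.Agent.Lib.MP_b6d339_lc.Cw.ZFzA2AzE2B3HzB2H3B2E_0
import Pool.Agent.Lib.MP_b6d339_lc.Cw.ZFzAzAzE2A2Ax3xA2A2EzA2AyF_0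
import Pool.Agent.Lib.MP_b6d339_lc.Cw.ZFzAzAzEyA2Ax3xA2AyEzAzAyF_0
import Pool.Agent.Lib.MP_b6d339_lc.Cw.ZFzAzAzEyA2Ax3xA2AyEzAzAzF_0
import Pool.Agent.Lib.MP_b6d339_lc.Pos.XTreeC
import Pool.Agent.Lib.MP_b6d339_lc.Pos.YQ

/-!
# Erdős 592, three levels: classes of words
-/

namespace MPb6P

theorem iiNFyAzEyA2Ax3xA2AyEzAyF_k : iiNFyAzEyA2Ax3xA2AyEzAyF.Fa (Itm.ok 206) := (BT.Fa_mk (BT.Fa_mk (BT.Fa_mk (BT.Fa_mk (BT.Fa_mk (BT.Fa_mk (BT.Fa_mk (BT.Fa_mk (BT.Fa_leaf (P := Itm.ok 206) (iqf tp361_c)) (BT.Fa_leaf (P := Itm.ok 206) (iqb tp444_c))) (BT.Fa_mk (BT.Fa_leaf (P := Itm.ok 206) (iqf tp444_c)) (BT.Fa_leaf (P := Itm.ok 206) (iqf tp351_c)))) (BT.Fa_mk (BT.Fa_mk (BT.Fa_leaf (P := Itm.ok 206) (iqf tp292_c)) (BT.Fa_leaf (P := Itm.ok 206) (iqf tp359_c)))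 (BT.Fa_mk (BT.Fa_leaf (P := Itm.ok 206) (iqb tp527_c)) (BT.Fa_leaf (P := Itm.ok 206) (iqf tp1278_c))))) (BT.Fa_mk (BT.Fa_mk (BT.Fa_mk (BT.Fa_leaf (P := Itm.ok 206) (iqf tp532_c)) (BT.Fa_leaf (P := Itm.ok 206) (iqb tp366_c))) (BT.Fa_mk (BT.Fa_leaf (P := Itm.ok 206) (iqf tp342_c)) (BT.Fa_leaf (P := Itm.ok 206) (iqb tp361_c)))) (BT.Fa_mk (BT.Fa_mk (BT.Fa_leaf (P := Itm.ok 206) (iqf tp948_c)) (BT.Fa_leaf (P := Itm.ok 206) (iqb tp534_c))) (BT.Fa_mk (BT.Fa_leaf (P := Itm.ok 206) (iqb tp635_c)) (BT.Fa_leaf (P := Itm.ok 206) (iqb tp538_c)))))) (BT.Fa_mk (BT.Fa_mk (BT.Fa_mk (BT.Fa_mk (BT.Fa_leaf (P := Itm.ok 206) (iqb tp499_c)) (BT.Fa_leaf (P := Itm.ok 206) (iqf tp375_c))) (BT.Fa_mk (BT.Fa_leaf (P := Itm.ok 206) (iqf tp538_c)) (BT.Fa_leaf (P := Itm.ok 206)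 (iqf tp495_c)))) (BT.Fa_mk (BT.Fa_mk (BT.Fa_leaf (P := Itm.ok 206) (iqf tp531_c)) (BT.Fa_leaf (P := Itm.ok 206) (iqb tp1360_c))) (BT.Fa_mk (BT.Fa_leaf (P := Itm.ok 206) (iqf tp366_c)) (BT.Fa_leaf (P := Itm.ok 206) (iqb tp948_c))))) (BT.Fa_mk (BT.Fa_mk (BT.Fa_mk (BT.Fa_leaf (P := Itm.ok 206) (iqb tp1163_c)) (BT.Fa_leaf (P := Itm.ok 206) (iqf tp1159_c))) (BT.Fa_mk (BT.Fa_leaf (P := Itm.ok 206) (iqf tp638_c)) (BT.Fa_leaf (P := Itm.ok 206) (iqb tp402_c)))) (BT.Fa_mk (BT.Fa_mk (BT.Fa_leaf (P := Itm.ok 206) (iqb tp531_c)) (BT.Fa_leaf (P := Itm.ok 206) (iqb tp984_c))) (BT.Fa_leaf (P := Itm.ok 206) (iqb tp536_c)))))) (BT.Fa_mk (BT.Fa_mk (BT.Fa_mk (BT.Fa_mk (BT.Fa_mk (BT.Fa_leaf (P := Itm.ok 206) (iqb tp694_c)) (BT.Fa_leaf (P := Itm.ok 206) (iqf tp534_c)))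 (BT.Fa_mk (BT.Fa_leaf (P := Itm.ok 206) (iqf tp984_c)) (BT.Fa_leaf (P := Itm.ok 206) (iqb tp326_c)))) (BT.Fa_mk (BT.Fa_mk (BT.Fa_leaf (P := Itm.ok 206) (iqb tp410_c)) (BT.Fa_leaf (P := Itm.ok 206) (iqb tp648_c))) (BT.Fa_mk (BT.Fa_leaf (P := Itm.ok 206) (iqf tp326_c)) (BT.Fa_leaf (P := Itm.ok 206) (iqf tp577_c))))) (BT.Fa_mk (BT.Fa_mk (BT.Fa_mk (BT.Fa_leaf (P := Itm.ok 206) (iqb tp588_c)) (BT.Fa_leaf (P := Itm.ok 206) (iqb tp319_c))) (BT.Fa_mk (BT.Fa_leaf (P := Itm.ok 206) (iqb tp577_c)) (BT.Fa_leaf (P := Itm.ok 206) (iqf tp514_c)))) (BT.Fa_mk (BT.Fa_mk (BT.Fa_leaf (P := Itm.ok 206) (iqb tp1103_c)) (BT.Fa_leaf (P := Itm.ok 206) (iqf tp551_c))) (BT.Fa_leaf (P := Itm.ok 206) (iqb tp533_c))))) (BT.Fa_mk (BT.Fa_mk (BT.Fa_mk (BT.Fa_mk (BT.Fa_leaf (P :=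 Itm.ok 206) (iqf tp565_c)) (BT.Fa_leaf (P := Itm.ok 206) (iqb tp565_c))) (BT.Fa_mk (BT.Fa_leaf (P := Itm.ok 206) (iqb tp435_c)) (BT.Fa_leaf (P := Itm.ok 206) (iqb tp597_c)))) (BT.Fa_mk (BT.Fa_mk (BT.Fa_leaf (P := Itm.ok 206) (iqf tp1130_c)) (BT.Fa_leaf (P := Itm.ok 206) (iqb tp1361_c))) (BT.Fa_mk (BT.Fa_leaf (P := Itm.ok 206) (iqb tp1175_c)) (BT.Fa_leaf (P := Itm.ok 206) (iqb tp1149_c))))) (BT.Fa_mk (BT.Fa_mk (BT.Fa_mk (BT.Fa_leaf (P := Itm.ok 206) (iqf tp1301_c)) (BT.Fa_leaf (P := Itm.ok 206) (iqb tp342_c))) (BT.Fa_mk (BT.Fa_leaf (P := Itm.ok 206) (iqf tp810_c)) (BT.Fa_leaf (P := Itm.ok 206) (iqf tp555_c)))) (BT.Fa_mk (BT.Fa_mk (BT.Fa_leaf (P := Itm.ok 206) (iqf tp519_c)) (BT.Fa_leaf (P := Itm.ok 206) (iqb tp331_c))) (BT.Fa_leaf (P := Itm.ok 206)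 (iqf tp324_c))))))) (BT.Fa_mk (BT.Fa_mk (BT.Fa_mk (BT.Fa_mk (BT.Fa_mk (BT.Fa_mk (BT.Fa_leaf (P := Itm.ok 206) (iqf tp334_c)) (BT.Fa_leaf (P := Itm.ok 206) (iqb tp1136_c))) (BT.Fa_mk (BT.Fa_leaf (P := Itm.ok 206) (iqf tp504_c)) (BT.Fa_leaf (P := Itm.ok 206) (iqb tp636_c)))) (BT.Fa_mk (BT.Fa_mk (BT.Fa_leaf (P := Itm.ok 206) (iqb tp1091_c)) (BT.Fa_leaf (P := Itm.ok 206) (iqf tp1296_c))) (BT.Fa_mk (BT.Fa_leaf (P := Itm.ok 206) (iqb tp312_c)) (BT.Fa_leaf (P := Itm.ok 206) (iqf tp1362_c))))) (BT.Fa_mk (BT.Fa_mk (BT.Fa_mk (BT.Fa_leaf (P := Itm.ok 206) (iqb tp289_c)) (BT.Fa_leaf (P := Itm.ok 206) (iqb tp950_c))) (BT.Fa_mk (BT.Fa_leaf (P := Itm.ok 206) (iqf tp447_c)) (BT.Fa_leaf (P := Itm.ok 206) (iqf tp589_c)))) (BT.Fa_mk (BT.Fa_mk (BT.Fa_leaf (P := Itm.ok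 206) (iqf tp1138_c)) (BT.Fa_leaf (P := Itm.ok 206) (iqf tp755_c))) (BT.Fa_leaf (P := Itm.ok 206) (iqf tp1363_c))))) (BT.Fa_mk (BT.Fa_mk (BT.Fa_mk (BT.Fa_mk (BT.Fa_leaf (P := Itm.ok 206) (iqf tp511_c)) (BT.Fa_leaf (P := Itm.ok 206) (iqb tp755_c))) (BT.Fa_mk (BT.Fa_leaf (P := Itm.ok 206) (iqf tp517_c)) (BT.Fa_leaf (P := Itm.ok 206) (iqf tp344_c)))) (BT.Fa_mk (BT.Fa_mk (BT.Fa_leaf (P := Itm.ok 206) (iqf tp405_c)) (BT.Fa_leaf (P := Itm.ok 206) (iqf tp1364_c))) (BT.Fa_mk (BT.Fa_leaf (P := Itm.ok 206) (iqf tp529_c)) (BT.Fa_leaf (P := Itm.ok 206) (iqf tp341_c))))) (BT.Fa_mk (BT.Fa_mk (BT.Fa_mk (BT.Fa_leaf (P := Itm.ok 206) (iqb tp481_c)) (BT.Fa_leaf (P := Itm.ok 206) (iqb tp489_c))) (BT.Fa_mk (BT.Fa_leaf (P := Itm.ok 206) (iqf tp527_c)) (BT.Fa_leaf (P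 := Itm.ok 206) (iqf tp1280_c)))) (BT.Fa_mk (BT.Fa_mk (BT.Fa_leaf (P := Itm.ok 206) (iqb tp1365_c)) (BT.Fa_leaf (P := Itm.ok 206) (iqf tp597_c))) (BT.Fa_leaf (P := Itm.ok 206) (iqb tp1288_c)))))) (BT.Fa_mk (BT.Fa_mk (BT.Fa_mk (BT.Fa_mk (BT.Fa_mk (BT.Fa_leaf (P := Itm.ok 206) (iqf tp1290_c)) (BT.Fa_leaf (P := Itm.ok 206) (iqf tp693_c))) (BT.Fa_mk (BT.Fa_leaf (P := Itm.ok 206) (iqf tp489_c)) (BT.Fa_leaf (P := Itm.ok 206) (iqb tp484_c)))) (BT.Fa_mk (BT.Fa_mk (BT.Fa_leaf (P := Itm.ok 206) (iqf tp501_c)) (BT.Fa_leaf (P := Itm.ok 206) (iqf tp1178_c))) (BT.Fa_mk (BT.Fa_leaf (P := Itm.ok 206) (iqf tp1107_c)) (BT.Fa_leaf (P := Itm.ok 206) (iqb tp1366_c))))) (BT.Fa_mk (BT.Fa_mk (BT.Fa_mk (BT.Fa_leaf (P := Itm.ok 206) (iqb tp496_c)) (BT.Fa_leaf (P := Itm.ok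 206) (iqf tp556_c))) (BT.Fa_mk (BT.Fa_leaf (P := Itm.ok 206) (iqb tp1289_c)) (BT.Fa_leaf (P := Itm.ok 206) (iqf tp1249_c)))) (BT.Fa_mk (BT.Fa_mk (BT.Fa_leaf (P := Itm.ok 206) (iqf tp550_c)) (BT.Fa_leaf (P := Itm.ok 206) (iqf tp1060_c))) (BT.Fa_leaf (P := Itm.ok 206) (iqb tp762_c))))) (BT.Fa_mk (BT.Fa_mk (BT.Fa_mk (BT.Fa_mk (BT.Fa_leaf (P := Itm.ok 206) (iqf tp533_c)) (BT.Fa_leaf (P := Itm.ok 206) (iqb tp532_c))) (BT.Fa_mk (BT.Fa_leaf (P := Itm.ok 206) (iqb tp1367_c)) (BT.Fa_leaf (P := Itm.ok 206) (iqb tp1368_c)))) (BT.Fa_mk (BT.Fa_mk (BT.Fa_leaf (P := Itm.ok 206) (iqf tp1142_c)) (BT.Fa_leaf (P := Itm.ok 206) (iqf tp319_c))) (BT.Fa_mk (BT.Fa_leaf (P := Itm.ok 206) (iqf tp525_c)) (BT.Fa_leaf (P := Itm.ok 206) (iqf tp1369_c))))) (BT.Fa_mk (BT.Fa_mk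 (BT.Fa_mk (BT.Fa_leaf (P := Itm.ok 206) (iqb tp810_c)) (BT.Fa_leaf (P := Itm.ok 206) (iqb tp905_c))) (BT.Fa_mk (BT.Fa_leaf (P := Itm.ok 206) (iqf tp1155_c)) (BT.Fa_leaf (P := Itm.ok 206) (iqf tp1279_c)))) (BT.Fa_mk (BT.Fa_mk (BT.Fa_leaf (P := Itm.ok 206) (iqb tp1133_c)) (BT.Fa_leaf (P := Itm.ok 206) (iqf tp571_c))) (BT.Fa_leaf (P := Itm.ok 206) (iqb tp569_c)))))))) (BT.Fa_mk (BT.Fa_mk (BT.Fa_mk (BT.Fa_mk (BT.Fa_mk (BT.Fa_mk (BT.Fa_mk (BT.Fa_leaf (P := Itm.ok 206) (iqb tp530_c)) (BT.Fa_leaf (P := Itm.ok 206) (iqb tp525_c))) (BT.Fa_mk (BT.Fa_leaf (P := Itm.ok 206) (iqf tp1133_c)) (BT.Fa_leaf (P := Itm.ok 206) (iqf tp1157_c)))) (BT.Fa_mk (BT.Fa_mk (BT.Fa_leaf (P := Itm.ok 206) (iqb tp324_c)) (BT.Fa_leaf (P := Itm.ok 206) (iqb tp647_c))) (BT.Fa_mk (BT.Fa_leaf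 (P := Itm.ok 206) (iqf tp700_c)) (BT.Fa_leaf (P := Itm.ok 206) (iqb tp589_c))))) (BT.Fa_mk (BT.Fa_mk (BT.Fa_mk (BT.Fa_leaf (P := Itm.ok 206) (iqf tp762_c)) (BT.Fa_leaf (P := Itm.ok 206) (iqb tp703_c))) (BT.Fa_mk (BT.Fa_leaf (P := Itm.ok 206) (iqf tp682_c)) (BT.Fa_leaf (P := Itm.ok 206) (iqf tp665_c)))) (BT.Fa_mk (BT.Fa_mk (BT.Fa_leaf (P := Itm.ok 206) (iqb tp978_c)) (BT.Fa_leaf (P := Itm.ok 206) (iqf tp331_c))) (BT.Fa_mk (BT.Fa_leaf (P := Itm.ok 206) (iqb tp519_c)) (BT.Fa_leaf (P := Itm.ok 206) (iqf tp1162_c)))))) (BT.Fa_mk (BT.Fa_mk (BT.Fa_mk (BT.Fa_mk (BT.Fa_leaf (P := Itm.ok 206) (iqf tp908_c)) (BT.Fa_leaf (P := Itm.ok 206) (iqf tp587_c))) (BT.Fa_mk (BT.Fa_leaf (P := Itm.ok 206) (iqb tp737_c)) (BT.Fa_leaf (P := Itm.ok 206) (iqb tp447_c)))) (BT.Fa_mk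 (BT.Fa_mk (BT.Fa_leaf (P := Itm.ok 206) (iqb tp775_c)) (BT.Fa_leaf (P := Itm.ok 206) (iqf tp536_c))) (BT.Fa_mk (BT.Fa_leaf (P := Itm.ok 206) (iqb tp1294_c)) (BT.Fa_leaf (P := Itm.ok 206) (iqb tp1107_c))))) (BT.Fa_mk (BT.Fa_mk (BT.Fa_mk (BT.Fa_leaf (P := Itm.ok 206) (iqb tp556_c)) (BT.Fa_leaf (P := Itm.ok 206) (iqf tp1292_c))) (BT.Fa_mk (BT.Fa_leaf (P := Itm.ok 206) (iqf tp1103_c)) (BT.Fa_leaf (P := Itm.ok 206) (iqf tp1114_c)))) (BT.Fa_mk (BT.Fa_mk (BT.Fa_leaf (P := Itm.ok 206) (iqf tp1065_c)) (BT.Fa_leaf (P := Itm.ok 206) (iqf tp1090_c))) (BT.Fa_leaf (P := Itm.ok 206) (iqb tp550_c)))))) (BT.Fa_mk (BT.Fa_mk (BT.Fa_mk (BT.Fa_mk (BT.Fa_mk (BT.Fa_leaf (P := Itm.ok 206) (iqf tp494_c)) (BT.Fa_leaf (P := Itm.ok 206) (iqb tp1301_c))) (BT.Fa_mk (BT.Fa_leaf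 (P := Itm.ok 206) (iqb tp1076_c)) (BT.Fa_leaf (P := Itm.ok 206) (iqf tp380_c)))) (BT.Fa_mk (BT.Fa_mk (BT.Fa_leaf (P := Itm.ok 206) (iqf tp535_c)) (BT.Fa_leaf (P := Itm.ok 206) (iqf tp1141_c))) (BT.Fa_mk (BT.Fa_leaf (P := Itm.ok 206) (iqb tp606_c)) (BT.Fa_leaf (P := Itm.ok 206) (iqf tp1140_c))))) (BT.Fa_mk (BT.Fa_mk (BT.Fa_mk (BT.Fa_leaf (P := Itm.ok 206) (iqf tp528_c)) (BT.Fa_leaf (P := Itm.ok 206) (iqb tp529_c))) (BT.Fa_mk (BT.Fa_leaf (P := Itm.ok 206) (iqf tp662_c)) (BT.Fa_leaf (P := Itm.ok 206) (iqb tp1082_c)))) (BT.Fa_mk (BT.Fa_mk (BT.Fa_leaf (P := Itm.ok 206) (iqf tp1370_c)) (BT.Fa_leaf (P := Itm.ok 206) (iqf tp1166_c))) (BT.Fa_leaf (P := Itm.ok 206) (iqb tp713_c))))) (BT.Fa_mk (BT.Fa_mk (BT.Fa_mk (BT.Fa_mk (BT.Fa_leaf (P := Itm.ok 206) (iqb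 tp1343_c)) (BT.Fa_leaf (P := Itm.ok 206) (iqf tp559_c))) (BT.Fa_mk (BT.Fa_leaf (P := Itm.ok 206) (iqf tp546_c)) (BT.Fa_leaf (P := Itm.ok 206) (iqb tp665_c)))) (BT.Fa_mk (BT.Fa_mk (BT.Fa_leaf (P := Itm.ok 206) (iqb tp510_c)) (BT.Fa_leaf (P := Itm.ok 206) (iqb tp1065_c))) (BT.Fa_mk (BT.Fa_leaf (P := Itm.ok 206) (iqb tp299_c)) (BT.Fa_leaf (P := Itm.ok 206) (iqb tp334_c))))) (BT.Fa_mk (BT.Fa_mk (BT.Fa_mk (BT.Fa_leaf (P := Itm.ok 206) (iqf tp1304_c)) (BT.Fa_leaf (P := Itm.ok 206) (iqf tp1148_c))) (BT.Fa_mk (BT.Fa_leaf (P := Itm.ok 206) (iqb tp504_c)) (BT.Fa_leaf (P := Itm.ok 206) (iqb tp1180_c)))) (BT.Fa_mk (BT.Fa_mk (BT.Fa_leaf (P := Itm.ok 206) (iqf tp417_c)) (BT.Fa_leaf (P := Itm.ok 206) (iqf tp530_c))) (BT.Fa_leaf (P := Itm.ok 206) (iqf tp499_c)))))))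 (BT.Fa_mk (BT.Fa_mk (BT.Fa_mk (BT.Fa_mk (BT.Fa_mk (BT.Fa_mk (BT.Fa_leaf (P := Itm.ok 206) (iqb tp351_c)) (BT.Fa_leaf (P := Itm.ok 206) (iqf tp1371_c))) (BT.Fa_mk (BT.Fa_leaf (P := Itm.ok 206) (iqb tp1119_c)) (BT.Fa_leaf (P := Itm.ok 206) (iqf tp1128_c)))) (BT.Fa_mk (BT.Fa_mk (BT.Fa_leaf (P := Itm.ok 206) (iqf tp1298_c)) (BT.Fa_leaf (P := Itm.ok 206) (iqb tp1298_c))) (BT.Fa_mk (BT.Fa_leaf (P := Itm.ok 206) (iqb tp341_c)) (BT.Fa_leaf (P := Itm.ok 206) (iqb tp1190_c))))) (BT.Fa_mk (BT.Fa_mk (BT.Fa_mk (BT.Fa_leaf (P := Itm.ok 206) (iqf tp442_c)) (BT.Fa_leaf (P := Itm.ok 206) (iqf tp492_c))) (BT.Fa_mk (BT.Fa_leaf (P := Itm.ok 206) (iqb tp568_c)) (BT.Fa_leaf (P := Itm.ok 206) (iqf tp1196_c)))) (BT.Fa_mk (BT.Fa_mk (BT.Fa_leaf (P := Itm.ok 206) (iqb tp1310_c))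 (BT.Fa_leaf (P := Itm.ok 206) (iqb tp827_c))) (BT.Fa_leaf (P := Itm.ok 206) (iqf tp1193_c))))) (BT.Fa_mk (BT.Fa_mk (BT.Fa_mk (BT.Fa_mk (BT.Fa_leaf (P := Itm.ok 206) (iqf tp1225_c)) (BT.Fa_leaf (P := Itm.ok 206) (iqf tp461_c))) (BT.Fa_mk (BT.Fa_leaf (P := Itm.ok 206) (iqf tp1372_c)) (BT.Fa_leaf (P := Itm.ok 206) (iqf tp880_c)))) (BT.Fa_mk (BT.Fa_mk (BT.Fa_leaf (P := Itm.ok 206) (iqf tp1202_c)) (BT.Fa_leaf (P := Itm.ok 206) (iqf tp1272_c))) (BT.Fa_mk (BT.Fa_leaf (P := Itm.ok 206) (iqb tp1203_c)) (BT.Fa_leaf (P := Itm.ok 206) (iqb tp897_c))))) (BT.Fa_mk (BT.Fa_mk (BT.Fa_mk (BT.Fa_leaf (P := Itm.ok 206) (iqf tp1374_c)) (BT.Fa_leaf (P := Itm.ok 206) (iqf tp1211_c))) (BT.Fa_mk (BT.Fa_leaf (P := Itm.ok 206) (iqf tp300_c)) (BT.Fa_leaf (P := Itm.ok 206)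 (iqb tp404_c)))) (BT.Fa_mk (BT.Fa_mk (BT.Fa_leaf (P := Itm.ok 206) (iqb tp555_c)) (BT.Fa_leaf (P := Itm.ok 206) (iqf tp753_c))) (BT.Fa_leaf (P := Itm.ok 206) (iqf tp886_c)))))) (BT.Fa_mk (BT.Fa_mk (BT.Fa_mk (BT.Fa_mk (BT.Fa_mk (BT.Fa_leaf (P := Itm.ok 206) (iqf tp678_c)) (BT.Fa_leaf (P := Itm.ok 206) (iqf tp1227_c))) (BT.Fa_mk (BT.Fa_leaf (P := Itm.ok 206) (iqb tp1249_c)) (BT.Fa_leaf (P := Itm.ok 206) (iqb tp1204_c)))) (BT.Fa_mk (BT.Fa_mk (BT.Fa_leaf (P := Itm.ok 206) (iqf tp1314_c)) (BT.Fa_leaf (P := Itm.ok 206) (iqf tp773_c))) (BT.Fa_mk (BT.Fa_leaf (P := Itm.ok 206) (iqf tp1375_c)) (BT.Fa_leaf (P := Itm.ok 206) (iqb tp1026_c))))) (BT.Fa_mk (BT.Fa_mk (BT.Fa_mk (BT.Fa_leaf (P := Itm.ok 206) (iqf tp402_c)) (BT.Fa_leaf (P := Itm.ok 206) (iqb tp1112_c)))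 (BT.Fa_mk (BT.Fa_leaf (P := Itm.ok 206) (iqb tp461_c)) (BT.Fa_leaf (P := Itm.ok 206) (iqb tp575_c)))) (BT.Fa_mk (BT.Fa_mk (BT.Fa_leaf (P := Itm.ok 206) (iqf tp1377_c)) (BT.Fa_leaf (P := Itm.ok 206) (iqb tp747_c))) (BT.Fa_leaf (P := Itm.ok 206) (iqf tp1163_c))))) (BT.Fa_mk (BT.Fa_mk (BT.Fa_mk (BT.Fa_mk (BT.Fa_leaf (P := Itm.ok 206) (iqb tp1378_c)) (BT.Fa_leaf (P := Itm.ok 206) (iqb tp1296_c))) (BT.Fa_mk (BT.Fa_leaf (P := Itm.ok 206) (iqb tp1379_c)) (BT.Fa_leaf (P := Itm.ok 206) (iqb tp1166_c)))) (BT.Fa_mk (BT.Fa_mk (BT.Fa_leaf (P := Itm.ok 206) (iqb tp1284_c)) (BT.Fa_leaf (P := Itm.ok 206) (iqf tp1380_c))) (BT.Fa_mk (BT.Fa_leaf (P := Itm.ok 206) (iqb tp1236_c)) (BT.Fa_leaf (P := Itm.ok 206) (iqb tp639_c))))) (BT.Fa_mk (BT.Fa_mk (BT.Fa_mk (BT.Fa_leaf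 (P := Itm.ok 206) (iqb tp1381_c)) (BT.Fa_leaf (P := Itm.ok 206) (iqb tp1382_c))) (BT.Fa_mk (BT.Fa_leaf (P := Itm.ok 206) (iqf tp1246_c)) (BT.Fa_leaf (P := Itm.ok 206) (iqf tp1383_c)))) (BT.Fa_mk (BT.Fa_mk (BT.Fa_leaf (P := Itm.ok 206) (iqb tp1384_c)) (BT.Fa_leaf (P := Itm.ok 206) (iqb tp1225_c))) (BT.Fa_leaf (P := Itm.ok 206) (iqb tp1339_c)))))))))

/-- all words of the class have labels -/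
theorem pokNFyAzEyA2Ax3xA2AyEzAyF : POK 206 xNFyAzEyA2Ax3xA2AyEzAyF :=
  y_pok (C0 := ceNFyAzEyA2Ax3xA2AyEzAyF) (C1 := coNFyAzEyA2Ax3xA2AyEzAyF) topNFyAzEyA2Ax3xA2AyEzAyF nbNFyAzEyA2Ax3xA2AyEzAyF (BT.Fa_of_all iiNFyAzEyA2Ax3xA2AyEzAyF_c)
    (cyE_spec zeNFyAzEyA2Ax3xA2AyEzAyF_0)
    (cyO_spec zoNFyAzEyA2Ax3xA2AyEzAyF_0)
    iiNFyAzEyA2Ax3xA2AyEzAyF_k

theorem iiNFyAzEyA2Ax3xA2AyEzAzF_k : iiNFyAzEyA2Ax3xA2AyEzAzF.Fa (Itm.ok 206) := (BT.Fa_mk (BT.Fa_mk (BT.Fa_mk (BT.Fa_mk (BT.Fa_mk (BT.Fa_mk (BT.Fa_mk (BT.Fa_mk (BT.Fa_leaf (P := Itm.ok 206) (iqf tp524_c)) (BT.Fa_leaf (P := Itm.ok 206) (iqb tp525_c))) (BT.Fa_leaf (P := Itm.ok 206) (iqf tp333_c))) (BT.Fa_mk (BT.Fa_leaf (P := Itm.ok 206) (iqf tp447_c)) (BT.Fa_leaf (P := Itm.ok 206) (iqb tp447_c)))) (BT.Fa_mk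 (BT.Fa_mk (BT.Fa_mk (BT.Fa_leaf (P := Itm.ok 206) (iqf tp526_c)) (BT.Fa_leaf (P := Itm.ok 206) (iqf tp399_c))) (BT.Fa_leaf (P := Itm.ok 206) (iqf tp527_c))) (BT.Fa_mk (BT.Fa_leaf (P := Itm.ok 206) (iqf tp948_c)) (BT.Fa_leaf (P := Itm.ok 206) (iqb tp371_c))))) (BT.Fa_mk (BT.Fa_mk (BT.Fa_mk (BT.Fa_mk (BT.Fa_leaf (P := Itm.ok 206) (iqb tp403_c)) (BT.Fa_leaf (P := Itm.ok 206) (iqf tp528_c))) (BT.Fa_leaf (P := Itm.ok 206) (iqf tp292_c))) (BT.Fa_mk (BT.Fa_leaf (P := Itm.ok 206) (iqf tp324_c)) (BT.Fa_leaf (P := Itm.ok 206) (iqf tp647_c)))) (BT.Fa_mk (BT.Fa_mk (BT.Fa_leaf (P := Itm.ok 206) (iqf tp326_c)) (BT.Fa_leaf (P := Itm.ok 206) (iqb tp326_c))) (BT.Fa_mk (BT.Fa_leaf (P := Itm.ok 206) (iqf tp331_c)) (BT.Fa_leaf (P := Itm.ok 206) (iqb tp331_c)))))) (BT.Fa_mk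 (BT.Fa_mk (BT.Fa_mk (BT.Fa_mk (BT.Fa_mk (BT.Fa_leaf (P := Itm.ok 206) (iqb tp490_c)) (BT.Fa_leaf (P := Itm.ok 206) (iqb tp477_c))) (BT.Fa_leaf (P := Itm.ok 206) (iqf tp529_c))) (BT.Fa_mk (BT.Fa_leaf (P := Itm.ok 206) (iqf tp514_c)) (BT.Fa_leaf (P := Itm.ok 206) (iqf tp342_c)))) (BT.Fa_mk (BT.Fa_mk (BT.Fa_mk (BT.Fa_leaf (P := Itm.ok 206) (iqb tp342_c)) (BT.Fa_leaf (P := Itm.ok 206) (iqf tp334_c))) (BT.Fa_leaf (P := Itm.ok 206) (iqb tp334_c))) (BT.Fa_mk (BT.Fa_leaf (P := Itm.ok 206) (iqf tp368_c)) (BT.Fa_leaf (P := Itm.ok 206) (iqb tp984_c))))) (BT.Fa_mk (BT.Fa_mk (BT.Fa_mk (BT.Fa_mk (BT.Fa_leaf (P := Itm.ok 206) (iqf tp367_c)) (BT.Fa_leaf (P := Itm.ok 206) (iqb tp949_c))) (BT.Fa_leaf (P := Itm.ok 206) (iqf tp698_c))) (BT.Fa_mk (BT.Fa_leaf (P := Itm.ok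 206) (iqf tp341_c)) (BT.Fa_leaf (P := Itm.ok 206) (iqb tp341_c)))) (BT.Fa_mk (BT.Fa_mk (BT.Fa_leaf (P := Itm.ok 206) (iqf tp531_c)) (BT.Fa_leaf (P := Itm.ok 206) (iqb tp531_c))) (BT.Fa_mk (BT.Fa_leaf (P := Itm.ok 206) (iqf tp950_c)) (BT.Fa_leaf (P := Itm.ok 206) (iqf tp319_c))))))) (BT.Fa_mk (BT.Fa_mk (BT.Fa_mk (BT.Fa_mk (BT.Fa_mk (BT.Fa_mk (BT.Fa_leaf (P := Itm.ok 206) (iqb tp319_c)) (BT.Fa_leaf (P := Itm.ok 206) (iqf tp405_c))) (BT.Fa_leaf (P := Itm.ok 206) (iqf tp1157_c))) (BT.Fa_mk (BT.Fa_leaf (P := Itm.ok 206) (iqf tp351_c)) (BT.Fa_leaf (P := Itm.ok 206) (iqb tp351_c)))) (BT.Fa_mk (BT.Fa_mk (BT.Fa_mk (BT.Fa_leaf (P := Itm.ok 206) (iqb tp532_c)) (BT.Fa_leaf (P := Itm.ok 206) (iqf tp484_c))) (BT.Fa_leaf (P := Itm.ok 206) (iqf tp552_c))) (BT.Fa_mk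 (BT.Fa_leaf (P := Itm.ok 206) (iqf tp533_c)) (BT.Fa_leaf (P := Itm.ok 206) (iqb tp533_c))))) (BT.Fa_mk (BT.Fa_mk (BT.Fa_mk (BT.Fa_mk (BT.Fa_leaf (P := Itm.ok 206) (iqb tp553_c)) (BT.Fa_leaf (P := Itm.ok 206) (iqb tp519_c))) (BT.Fa_leaf (P := Itm.ok 206) (iqb tp372_c))) (BT.Fa_mk (BT.Fa_leaf (P := Itm.ok 206) (iqf tp499_c)) (BT.Fa_leaf (P := Itm.ok 206) (iqf tp775_c)))) (BT.Fa_mk (BT.Fa_mk (BT.Fa_leaf (P := Itm.ok 206) (iqf tp589_c)) (BT.Fa_leaf (P := Itm.ok 206) (iqf tp356_c))) (BT.Fa_mk (BT.Fa_leaf (P := Itm.ok 206) (iqf tp534_c)) (BT.Fa_leaf (P := Itm.ok 206) (iqb tp558_c)))))) (BT.Fa_mk (BT.Fa_mk (BT.Fa_mk (BT.Fa_mk (BT.Fa_mk (BT.Fa_leaf (P := Itm.ok 206) (iqb tp810_c)) (BT.Fa_leaf (P := Itm.ok 206) (iqb tp535_c))) (BT.Fa_leaf (P := Itm.ok 206)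 (iqf tp536_c))) (BT.Fa_mk (BT.Fa_leaf (P := Itm.ok 206) (iqb tp569_c)) (BT.Fa_leaf (P := Itm.ok 206) (iqb tp1253_c)))) (BT.Fa_mk (BT.Fa_mk (BT.Fa_mk (BT.Fa_leaf (P := Itm.ok 206) (iqf tp375_c)) (BT.Fa_leaf (P := Itm.ok 206) (iqf tp350_c))) (BT.Fa_leaf (P := Itm.ok 206) (iqf tp577_c))) (BT.Fa_mk (BT.Fa_leaf (P := Itm.ok 206) (iqb tp577_c)) (BT.Fa_leaf (P := Itm.ok 206) (iqb tp538_c))))) (BT.Fa_mk (BT.Fa_mk (BT.Fa_mk (BT.Fa_mk (BT.Fa_leaf (P := Itm.ok 206) (iqb tp359_c)) (BT.Fa_leaf (P := Itm.ok 206) (iqf tp361_c))) (BT.Fa_leaf (P := Itm.ok 206) (iqb tp361_c))) (BT.Fa_mk (BT.Fa_leaf (P := Itm.ok 206) (iqf tp364_c)) (BT.Fa_leaf (P := Itm.ok 206) (iqb tp653_c)))) (BT.Fa_mk (BT.Fa_mk (BT.Fa_leaf (P := Itm.ok 206) (iqb tp507_c)) (BT.Fa_leaf (P := Itm.ok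 206) (iqf tp312_c))) (BT.Fa_mk (BT.Fa_leaf (P := Itm.ok 206) (iqf tp401_c)) (BT.Fa_leaf (P := Itm.ok 206) (iqf tp289_c)))))))) (BT.Fa_mk (BT.Fa_mk (BT.Fa_mk (BT.Fa_mk (BT.Fa_mk (BT.Fa_mk (BT.Fa_mk (BT.Fa_leaf (P := Itm.ok 206) (iqf tp347_c)) (BT.Fa_leaf (P := Itm.ok 206) (iqb tp360_c))) (BT.Fa_leaf (P := Itm.ok 206) (iqf tp386_c))) (BT.Fa_mk (BT.Fa_leaf (P := Itm.ok 206) (iqf tp391_c)) (BT.Fa_leaf (P := Itm.ok 206) (iqf tp511_c)))) (BT.Fa_mk (BT.Fa_mk (BT.Fa_mk (BT.Fa_leaf (P := Itm.ok 206) (iqb tp597_c)) (BT.Fa_leaf (P := Itm.ok 206) (iqb tp550_c))) (BT.Fa_leaf (P := Itm.ok 206) (iqf tp590_c))) (BT.Fa_mk (BT.Fa_leaf (P := Itm.ok 206) (iqb tp1301_c)) (BT.Fa_leaf (P := Itm.ok 206) (iqf tp539_c))))) (BT.Fa_mk (BT.Fa_mk (BT.Fa_mk (BT.Fa_mk (BT.Fa_leaf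 (P := Itm.ok 206) (iqb tp555_c)) (BT.Fa_leaf (P := Itm.ok 206) (iqf tp366_c))) (BT.Fa_leaf (P := Itm.ok 206) (iqb tp366_c))) (BT.Fa_mk (BT.Fa_leaf (P := Itm.ok 206) (iqb tp609_c)) (BT.Fa_leaf (P := Itm.ok 206) (iqb tp395_c)))) (BT.Fa_mk (BT.Fa_mk (BT.Fa_leaf (P := Itm.ok 206) (iqb tp363_c)) (BT.Fa_leaf (P := Itm.ok 206) (iqf tp542_c))) (BT.Fa_mk (BT.Fa_leaf (P := Itm.ok 206) (iqf tp509_c)) (BT.Fa_leaf (P := Itm.ok 206) (iqf tp557_c)))))) (BT.Fa_mk (BT.Fa_mk (BT.Fa_mk (BT.Fa_mk (BT.Fa_mk (BT.Fa_leaf (P := Itm.ok 206) (iqb tp563_c)) (BT.Fa_leaf (P := Itm.ok 206) (iqb tp559_c))) (BT.Fa_leaf (P := Itm.ok 206) (iqb tp594_c))) (BT.Fa_mk (BT.Fa_leaf (P := Itm.ok 206) (iqf tp610_c)) (BT.Fa_leaf (P := Itm.ok 206) (iqb tp603_c)))) (BT.Fa_mk (BT.Fa_mk (BT.Fa_mk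 (BT.Fa_leaf (P := Itm.ok 206) (iqb tp595_c)) (BT.Fa_leaf (P := Itm.ok 206) (iqf tp596_c))) (BT.Fa_leaf (P := Itm.ok 206) (iqb tp546_c))) (BT.Fa_mk (BT.Fa_leaf (P := Itm.ok 206) (iqf tp547_c)) (BT.Fa_leaf (P := Itm.ok 206) (iqf tp444_c))))) (BT.Fa_mk (BT.Fa_mk (BT.Fa_mk (BT.Fa_mk (BT.Fa_leaf (P := Itm.ok 206) (iqb tp1385_c)) (BT.Fa_leaf (P := Itm.ok 206) (iqb tp1080_c))) (BT.Fa_leaf (P := Itm.ok 206) (iqf tp1267_c))) (BT.Fa_mk (BT.Fa_leaf (P := Itm.ok 206) (iqb tp1201_c)) (BT.Fa_leaf (P := Itm.ok 206) (iqf tp1061_c)))) (BT.Fa_mk (BT.Fa_mk (BT.Fa_leaf (P := Itm.ok 206) (iqf tp1138_c)) (BT.Fa_leaf (P := Itm.ok 206) (iqf tp492_c))) (BT.Fa_mk (BT.Fa_leaf (P := Itm.ok 206) (iqb tp530_c)) (BT.Fa_leaf (P := Itm.ok 206) (iqf tp600_c))))))) (BT.Fa_mk (BT.Fa_mk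 (BT.Fa_mk (BT.Fa_mk (BT.Fa_mk (BT.Fa_mk (BT.Fa_leaf (P := Itm.ok 206) (iqf tp525_c)) (BT.Fa_leaf (P := Itm.ok 206) (iqf tp1133_c))) (BT.Fa_leaf (P := Itm.ok 206) (iqf tp789_c))) (BT.Fa_mk (BT.Fa_leaf (P := Itm.ok 206) (iqf tp1065_c)) (BT.Fa_leaf (P := Itm.ok 206) (iqb tp509_c)))) (BT.Fa_mk (BT.Fa_mk (BT.Fa_mk (BT.Fa_leaf (P := Itm.ok 206) (iqb tp606_c)) (BT.Fa_leaf (P := Itm.ok 206) (iqb tp565_c))) (BT.Fa_leaf (P := Itm.ok 206) (iqf tp450_c))) (BT.Fa_mk (BT.Fa_leaf (P := Itm.ok 206) (iqb tp1065_c)) (BT.Fa_leaf (P := Itm.ok 206) (iqf tp388_c))))) (BT.Fa_mk (BT.Fa_mk (BT.Fa_mk (BT.Fa_mk (BT.Fa_leaf (P := Itm.ok 206) (iqf tp425_c)) (BT.Fa_leaf (P := Itm.ok 206) (iqf tp604_c))) (BT.Fa_leaf (P := Itm.ok 206) (iqf tp436_c))) (BT.Fa_mk (BT.Fa_leaf (P :=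 Itm.ok 206) (iqf tp1351_c)) (BT.Fa_leaf (P := Itm.ok 206) (iqb tp426_c)))) (BT.Fa_mk (BT.Fa_mk (BT.Fa_leaf (P := Itm.ok 206) (iqf tp1341_c)) (BT.Fa_leaf (P := Itm.ok 206) (iqf tp612_c))) (BT.Fa_mk (BT.Fa_leaf (P := Itm.ok 206) (iqb tp378_c)) (BT.Fa_leaf (P := Itm.ok 206) (iqb tp409_c)))))) (BT.Fa_mk (BT.Fa_mk (BT.Fa_mk (BT.Fa_mk (BT.Fa_mk (BT.Fa_leaf (P := Itm.ok 206) (iqf tp404_c)) (BT.Fa_leaf (P := Itm.ok 206) (iqf tp614_c))) (BT.Fa_leaf (P := Itm.ok 206) (iqb tp997_c))) (BT.Fa_mk (BT.Fa_leaf (P := Itm.ok 206) (iqb tp1197_c)) (BT.Fa_leaf (P := Itm.ok 206) (iqf tp1042_c)))) (BT.Fa_mk (BT.Fa_mk (BT.Fa_mk (BT.Fa_leaf (P := Itm.ok 206) (iqb tp391_c)) (BT.Fa_leaf (P := Itm.ok 206) (iqf tp563_c))) (BT.Fa_leaf (P := Itm.ok 206) (iqf tp1104_c))) (BT.Fa_mk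 (BT.Fa_leaf (P := Itm.ok 206) (iqb tp452_c)) (BT.Fa_leaf (P := Itm.ok 206) (iqb tp583_c))))) (BT.Fa_mk (BT.Fa_mk (BT.Fa_mk (BT.Fa_mk (BT.Fa_leaf (P := Itm.ok 206) (iqf tp417_c)) (BT.Fa_leaf (P := Itm.ok 206) (iqf tp1158_c))) (BT.Fa_leaf (P := Itm.ok 206) (iqb tp320_c))) (BT.Fa_mk (BT.Fa_leaf (P := Itm.ok 206) (iqf tp1130_c)) (BT.Fa_leaf (P := Itm.ok 206) (iqb tp614_c)))) (BT.Fa_mk (BT.Fa_mk (BT.Fa_leaf (P := Itm.ok 206) (iqb tp607_c)) (BT.Fa_leaf (P := Itm.ok 206) (iqb tp295_c))) (BT.Fa_mk (BT.Fa_leaf (P := Itm.ok 206) (iqf tp678_c)) (BT.Fa_leaf (P := Itm.ok 206) (iqf tp862_c)))))))))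

/-- all words of the class have labels -/
theorem pokNFyAzEyA2Ax3xA2AyEzAzF : POK 206 xNFyAzEyA2Ax3xA2AyEzAzF :=
  y_pok (C0 := ceNFyAzEyA2Ax3xA2AyEzAzF) (C1 := coNFyAzEyA2Ax3xA2AyEzAzF) topNFyAzEyA2Ax3xA2AyEzAzF nbNFyAzEyA2Ax3xA2AyEzAzF (BT.Fa_of_all iiNFyAzEyA2Ax3xA2AyEzAzF_c)
    (cyE_spec zeNFyAzEyA2Ax3xA2AyEzAzF_0)
    (cyO_spec zoNFyAzEyA2Ax3xA2AyEzAzF_0)
    iiNFyAzEyA2Ax3xA2AyEzAzF_k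

theorem iiNFzA2Ax3xA2A2EzF_k : iiNFzA2Ax3xA2A2EzF.Fa (Itm.ok 206) := (BT.Fa_mk (BT.Fa_mk (BT.Fa_mk (BT.Fa_mk (BT.Fa_mk (BT.Fa_leaf (P := Itm.ok 206) (iqf tp1386_c)) (BT.Fa_leaf (P := Itm.ok 206) (iqb tp1387_c))) (BT.Fa_leaf (P := Itm.ok 206) (iqb tp466_c))) (BT.Fa_mk (BT.Fa_mk (BT.Fa_leaf (P := Itm.ok 206) (iqb tp283_c)) (BT.Fa_leaf (P := Itm.ok 206) (iqb tp1388_c))) (BT.Fa_leaf (P := Itm.ok 206) (iqf tp1389_c)))) (BT.Fa_mk (BT.Fa_mk (BT.Fa_mk (BT.Fa_leaf (P := Itm.ok 206) (iqb tp1390_c)) (BT.Fa_leaf (P := Itm.ok 206) (iqf tp1391_c))) (BT.Fa_leaf (P := Itm.ok 206) (iqf tp1387_c))) (BT.Fa_mk (BT.Fa_leaf (P := Itm.ok 206) (iqf tp1392_c)) (BT.Fa_leaf (P := Itm.ok 206) (iqb tp1393_c))))) (BT.Fa_mk (BT.Fa_mk (BT.Fa_mk (BT.Fa_mk (BT.Fa_leaf (P := Itm.ok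 206) (iqf tp815_c)) (BT.Fa_leaf (P := Itm.ok 206) (iqb tp1394_c))) (BT.Fa_leaf (P := Itm.ok 206) (iqb tp1395_c))) (BT.Fa_mk (BT.Fa_leaf (P := Itm.ok 206) (iqf tp599_c)) (BT.Fa_leaf (P := Itm.ok 206) (iqb tp645_c)))) (BT.Fa_mk (BT.Fa_mk (BT.Fa_mk (BT.Fa_leaf (P := Itm.ok 206) (iqb tp1396_c)) (BT.Fa_leaf (P := Itm.ok 206) (iqf tp1397_c))) (BT.Fa_leaf (P := Itm.ok 206) (iqf tp1398_c))) (BT.Fa_mk (BT.Fa_leaf (P := Itm.ok 206) (iqf tp1400_c)) (BT.Fa_leaf (P := Itm.ok 206) (iqf tp1401_c))))))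

/-- all words of the class have labels -/
theorem pokNFzA2Ax3xA2A2EzF : POK 206 xNFzA2Ax3xA2A2EzF :=
  y_pok (C0 := ceNFzA2Ax3xA2A2EzF) (C1 := coNFzA2Ax3xA2A2EzF) topNFzA2Ax3xA2A2EzF nbNFzA2Ax3xA2A2EzF (BT.Fa_of_all iiNFzA2Ax3xA2A2EzF_c)
    (cyE_spec zeNFzA2Ax3xA2A2EzF_0)
    (cyO_spec zoNFzA2Ax3xA2A2EzF_0)
    iiNFzA2Ax3xA2A2EzF_k

theorem iiNFzA2Ax3xA2AyEzF_k : iiNFzA2Ax3xA2AyEzF.Fa (Itm.ok 206) := (BT.Fa_mk (BT.Fa_mk (BT.Fa_mk (BT.Fa_mk (BT.Fa_leaf (P := Itm.ok 206) (iqf tp457_c)) (BT.Fa_leaf (P := Itm.ok 206) (iqf tp1392_c))) (BT.Fa_mk (BT.Fa_leaf (P := Itm.ok 206) (iqf tp1389_c)) (BT.Fa_leaf (P := Itm.ok 206) (iqb tp1404_c)))) (BT.Fa_mk (BT.Fa_mk (BT.Fa_leaf (P := Itm.ok 206) (iqf tp1064_c)) (BT.Fa_leaf (P := Itm.ok 206) (iqb tp1394_c)))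 (BT.Fa_leaf (P := Itm.ok 206) (iqb tp991_c)))) (BT.Fa_mk (BT.Fa_mk (BT.Fa_mk (BT.Fa_leaf (P := Itm.ok 206) (iqf tp1405_c)) (BT.Fa_leaf (P := Itm.ok 206) (iqb tp283_c))) (BT.Fa_mk (BT.Fa_leaf (P := Itm.ok 206) (iqf tp815_c)) (BT.Fa_leaf (P := Itm.ok 206) (iqf tp1406_c)))) (BT.Fa_mk (BT.Fa_mk (BT.Fa_leaf (P := Itm.ok 206) (iqf tp599_c)) (BT.Fa_leaf (P := Itm.ok 206) (iqb tp1407_c))) (BT.Fa_leaf (P := Itm.ok 206) (iqf tp1397_c)))))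

/-- all words of the class have labels -/
theorem pokNFzA2Ax3xA2AyEzF : POK 206 xNFzA2Ax3xA2AyEzF :=
  y_pok (C0 := ceNFzA2Ax3xA2AyEzF) (C1 := coNFzA2Ax3xA2AyEzF) topNFzA2Ax3xA2AyEzF nbNFzA2Ax3xA2AyEzF (BT.Fa_of_all iiNFzA2Ax3xA2AyEzF_c)
    (cyE_spec zeNFzA2Ax3xA2AyEzF_0)
    (cyO_spec zoNFzA2Ax3xA2AyEzF_0)
    iiNFzA2Ax3xA2AyEzF_k

theorem iiNFzA2Ax3xA2AzF_k : iiNFzA2Ax3xA2AzF.Fa (Itm.ok 206) := (BT.Fa_mk (BT.Fa_mk (BT.Fa_leaf (P := Itm.ok 206) (iqf tp1408_c)) (BT.Fa_leaf (P := Itm.ok 206) (iqb tp1387_c))) (BT.Fa_leaf (P := Itm.ok 206) (iqb tp1392_c)))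

/-- all words of the class have labels -/
theorem pokNFzA2Ax3xA2AzF : POK 206 xNFzA2Ax3xA2AzF :=
  y_pok (C0 := ceNFzA2Ax3xA2AzF) (C1 := coNFzA2Ax3xA2AzF) topNFzA2Ax3xA2AzF nbNFzA2Ax3xA2AzF (BT.Fa_of_all iiNFzA2Ax3xA2AzF_c)
    (cyE_spec zeNFzA2Ax3xA2AzF_0)
    (cyO_spec zoNFzA2Ax3xA2AzF_0)
    iiNFzA2Ax3xA2AzF_k

theorem iiNFzA2AzE2B3B2EzF_k : iiNFzA2AzE2B3B2EzF.Fa (Itm.ok 206) := (BT.Fa_mk (BT.Fa_mk (BT.Fa_mk (BT.Fa_mk (BT.Fa_leaf (P := Itm.ok 206) (iqb tp1132_c)) (BT.Fa_leaf (P := Itm.ok 206) (iqb tp283_c))) (BT.Fa_leaf (P := Itm.ok 206) (iqf tp1386_c))) (BT.Fa_mk (BT.Fa_leaf (P := Itm.ok 206) (iqf tp329_c)) (BT.Fa_leaf (P := Itm.ok 206) (iqf tp1409_c)))) (BT.Fa_mk (BT.Fa_mk (BT.Fa_mk (BT.Fa_leaf (P := Itm.ok 206) (iqb tp1392_c)) (BT.Fa_leaf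 (P := Itm.ok 206) (iqf tp1389_c))) (BT.Fa_leaf (P := Itm.ok 206) (iqf tp1410_c))) (BT.Fa_mk (BT.Fa_leaf (P := Itm.ok 206) (iqb tp947_c)) (BT.Fa_leaf (P := Itm.ok 206) (iqb tp1411_c)))))

/-- all words of the class have labels -/
theorem pokNFzA2AzE2B3B2EzF : POK 206 xNFzA2AzE2B3B2EzF :=
  y_pok (C0 := ceNFzA2AzE2B3B2EzF) (C1 := coNFzA2AzE2B3B2EzF) topNFzA2AzE2B3B2EzF nbNFzA2AzE2B3B2EzF (BT.Fa_of_all iiNFzA2AzE2B3B2EzF_c)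
    (cyE_spec zeNFzA2AzE2B3B2EzF_0)
    (cyO_spec zoNFzA2AzE2B3B2EzF_0)
    iiNFzA2AzE2B3B2EzF_k

theorem iiNFzA2AzE2B3HzB2H3B2E_k : iiNFzA2AzE2B3HzB2H3B2E.Fa (Itm.ok 206) := (BT.Fa_mk (BT.Fa_mk (BT.Fa_mk (BT.Fa_mk (BT.Fa_mk (BT.Fa_mk (BT.Fa_mk (BT.Fa_leaf (P := Itm.ok 206) (iqf tp329_c)) (BT.Fa_leaf (P := Itm.ok 206) (iqb tp1576_c))) (BT.Fa_mk (BT.Fa_leaf (P := Itm.ok 206) (iqb tp2570_c)) (BT.Fa_leaf (P := Itm.ok 206) (iqb tp2571_c)))) (BT.Fa_mk (BT.Fa_mk (BT.Fa_leaf (P := Itm.ok 206) (iqb tp1658_c)) (BT.Fa_leaf (P := Itm.ok 206) (iqf tp2572_c))) (BT.Fa_leaf (P := Itm.ok 206) (iqf tp2573_c)))) (BT.Fa_mk (BT.Fa_mk (BT.Fa_mk (BT.Fa_leaf (P := Itm.ok 206) (iqb tp1787_c)) (BT.Fa_leaf (P := Itm.ok 206) (iqf tp2413_c))) (BT.Fa_leaf (P := Itm.ok 206)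 (iqf tp292_c))) (BT.Fa_mk (BT.Fa_mk (BT.Fa_leaf (P := Itm.ok 206) (iqb tp292_c)) (BT.Fa_leaf (P := Itm.ok 206) (iqb tp295_c))) (BT.Fa_leaf (P := Itm.ok 206) (iqf tp361_c))))) (BT.Fa_mk (BT.Fa_mk (BT.Fa_mk (BT.Fa_mk (BT.Fa_leaf (P := Itm.ok 206) (iqb tp342_c)) (BT.Fa_leaf (P := Itm.ok 206) (iqf tp2215_c))) (BT.Fa_mk (BT.Fa_leaf (P := Itm.ok 206) (iqf tp2574_c)) (BT.Fa_leaf (P := Itm.ok 206) (iqf tp369_c)))) (BT.Fa_mk (BT.Fa_mk (BT.Fa_leaf (P := Itm.ok 206) (iqb tp2575_c)) (BT.Fa_leaf (P := Itm.ok 206) (iqf tp493_c))) (BT.Fa_leaf (P := Itm.ok 206) (iqb tp2279_c)))) (BT.Fa_mk (BT.Fa_mk (BT.Fa_mk (BT.Fa_leaf (P := Itm.ok 206) (iqb tp656_c)) (BT.Fa_leaf (P := Itm.ok 206) (iqb tp1387_c))) (BT.Fa_leaf (P := Itm.ok 206) (iqf tp2576_c))) (BT.Fa_mk (BT.Fa_mk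 (BT.Fa_leaf (P := Itm.ok 206) (iqf tp723_c)) (BT.Fa_leaf (P := Itm.ok 206) (iqb tp1939_c))) (BT.Fa_leaf (P := Itm.ok 206) (iqf tp608_c)))))) (BT.Fa_mk (BT.Fa_mk (BT.Fa_mk (BT.Fa_mk (BT.Fa_mk (BT.Fa_leaf (P := Itm.ok 206) (iqf tp1410_c)) (BT.Fa_leaf (P := Itm.ok 206) (iqf tp2577_c))) (BT.Fa_mk (BT.Fa_leaf (P := Itm.ok 206) (iqf tp2453_c)) (BT.Fa_leaf (P := Itm.ok 206) (iqb tp1783_c)))) (BT.Fa_mk (BT.Fa_mk (BT.Fa_leaf (P := Itm.ok 206) (iqf tp2406_c)) (BT.Fa_leaf (P := Itm.ok 206) (iqb tp2578_c))) (BT.Fa_leaf (P := Itm.ok 206) (iqf tp2579_c)))) (BT.Fa_mk (BT.Fa_mk (BT.Fa_mk (BT.Fa_leaf (P := Itm.ok 206) (iqf tp2580_c)) (BT.Fa_leaf (P := Itm.ok 206) (iqf tp2581_c))) (BT.Fa_leaf (P := Itm.ok 206) (iqf tp1798_c))) (BT.Fa_mk (BT.Fa_mk (BT.Fa_leaf (P :=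 Itm.ok 206) (iqb tp2582_c)) (BT.Fa_leaf (P := Itm.ok 206) (iqb tp1799_c))) (BT.Fa_leaf (P := Itm.ok 206) (iqf tp1468_c))))) (BT.Fa_mk (BT.Fa_mk (BT.Fa_mk (BT.Fa_mk (BT.Fa_leaf (P := Itm.ok 206) (iqb tp365_c)) (BT.Fa_leaf (P := Itm.ok 206) (iqb tp849_c))) (BT.Fa_leaf (P := Itm.ok 206) (iqf tp2583_c))) (BT.Fa_mk (BT.Fa_mk (BT.Fa_leaf (P := Itm.ok 206) (iqf tp2062_c)) (BT.Fa_leaf (P := Itm.ok 206) (iqb tp1733_c))) (BT.Fa_leaf (P := Itm.ok 206) (iqf tp2584_c)))) (BT.Fa_mk (BT.Fa_mk (BT.Fa_mk (BT.Fa_leaf (P := Itm.ok 206) (iqb tp2459_c)) (BT.Fa_leaf (P := Itm.ok 206) (iqf tp2585_c))) (BT.Fa_leaf (P := Itm.ok 206) (iqf tp2450_c))) (BT.Fa_mk (BT.Fa_mk (BT.Fa_leaf (P := Itm.ok 206) (iqb tp2462_c)) (BT.Fa_leaf (P := Itm.ok 206) (iqb tp1182_c))) (BT.Fa_leaf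 (P := Itm.ok 206) (iqf tp2586_c))))))) (BT.Fa_mk (BT.Fa_mk (BT.Fa_mk (BT.Fa_mk (BT.Fa_mk (BT.Fa_mk (BT.Fa_leaf (P := Itm.ok 206) (iqb tp2587_c)) (BT.Fa_leaf (P := Itm.ok 206) (iqf tp2460_c))) (BT.Fa_mk (BT.Fa_leaf (P := Itm.ok 206) (iqb tp2588_c)) (BT.Fa_leaf (P := Itm.ok 206) (iqf tp1795_c)))) (BT.Fa_mk (BT.Fa_mk (BT.Fa_leaf (P := Itm.ok 206) (iqf tp2589_c)) (BT.Fa_leaf (P := Itm.ok 206) (iqf tp2590_c))) (BT.Fa_leaf (P := Itm.ok 206) (iqf tp2591_c)))) (BT.Fa_mk (BT.Fa_mk (BT.Fa_mk (BT.Fa_leaf (P := Itm.ok 206) (iqf tp2405_c)) (BT.Fa_leaf (P := Itm.ok 206) (iqf tp2119_c))) (BT.Fa_leaf (P := Itm.ok 206) (iqb tp2592_c))) (BT.Fa_mk (BT.Fa_mk (BT.Fa_leaf (P := Itm.ok 206) (iqf tp2593_c)) (BT.Fa_leaf (P := Itm.ok 206) (iqb tp1770_c))) (BT.Fa_leaf (P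 := Itm.ok 206) (iqb tp2235_c))))) (BT.Fa_mk (BT.Fa_mk (BT.Fa_mk (BT.Fa_mk (BT.Fa_leaf (P := Itm.ok 206) (iqf tp1821_c)) (BT.Fa_leaf (P := Itm.ok 206) (iqf tp2594_c))) (BT.Fa_leaf (P := Itm.ok 206) (iqb tp2254_c))) (BT.Fa_mk (BT.Fa_mk (BT.Fa_leaf (P := Itm.ok 206) (iqf tp1771_c)) (BT.Fa_leaf (P := Itm.ok 206) (iqf tp1516_c))) (BT.Fa_leaf (P := Itm.ok 206) (iqb tp1435_c)))) (BT.Fa_mk (BT.Fa_mk (BT.Fa_mk (BT.Fa_leaf (P := Itm.ok 206) (iqf tp2418_c)) (BT.Fa_leaf (P := Itm.ok 206) (iqf tp2595_c))) (BT.Fa_leaf (P := Itm.ok 206) (iqf tp2472_c))) (BT.Fa_mk (BT.Fa_mk (BT.Fa_leaf (P := Itm.ok 206) (iqf tp366_c)) (BT.Fa_leaf (P := Itm.ok 206) (iqb tp2596_c))) (BT.Fa_leaf (P := Itm.ok 206) (iqf tp2597_c)))))) (BT.Fa_mk (BT.Fa_mk (BT.Fa_mk (BT.Fa_mk (BT.Fa_mk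 (BT.Fa_leaf (P := Itm.ok 206) (iqf tp2598_c)) (BT.Fa_leaf (P := Itm.ok 206) (iqb tp2599_c))) (BT.Fa_mk (BT.Fa_leaf (P := Itm.ok 206) (iqb tp2255_c)) (BT.Fa_leaf (P := Itm.ok 206) (iqf tp2600_c)))) (BT.Fa_mk (BT.Fa_mk (BT.Fa_leaf (P := Itm.ok 206) (iqb tp2601_c)) (BT.Fa_leaf (P := Itm.ok 206) (iqb tp366_c))) (BT.Fa_leaf (P := Itm.ok 206) (iqf tp1782_c)))) (BT.Fa_mk (BT.Fa_mk (BT.Fa_mk (BT.Fa_leaf (P := Itm.ok 206) (iqb tp2602_c)) (BT.Fa_leaf (P := Itm.ok 206) (iqf tp2603_c))) (BT.Fa_leaf (P := Itm.ok 206) (iqb tp2604_c))) (BT.Fa_mk (BT.Fa_mk (BT.Fa_leaf (P := Itm.ok 206) (iqf tp2605_c)) (BT.Fa_leaf (P := Itm.ok 206) (iqf tp2458_c))) (BT.Fa_leaf (P := Itm.ok 206) (iqf tp2505_c))))) (BT.Fa_mk (BT.Fa_mk (BT.Fa_mk (BT.Fa_mk (BT.Fa_leaf (P := Itm.ok 206)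 (iqb tp2606_c)) (BT.Fa_leaf (P := Itm.ok 206) (iqb tp2607_c))) (BT.Fa_leaf (P := Itm.ok 206) (iqb tp1105_c))) (BT.Fa_mk (BT.Fa_mk (BT.Fa_leaf (P := Itm.ok 206) (iqb tp2608_c)) (BT.Fa_leaf (P := Itm.ok 206) (iqb tp2068_c))) (BT.Fa_leaf (P := Itm.ok 206) (iqf tp2473_c)))) (BT.Fa_mk (BT.Fa_mk (BT.Fa_mk (BT.Fa_leaf (P := Itm.ok 206) (iqb tp2609_c)) (BT.Fa_leaf (P := Itm.ok 206) (iqf tp2611_c))) (BT.Fa_leaf (P := Itm.ok 206) (iqf tp2612_c))) (BT.Fa_mk (BT.Fa_mk (BT.Fa_leaf (P := Itm.ok 206) (iqb tp344_c)) (BT.Fa_leaf (P := Itm.ok 206) (iqf tp2613_c))) (BT.Fa_leaf (P := Itm.ok 206) (iqb tp2614_c))))))))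

/-- all words of the class have labels -/
theorem pokNFzA2AzE2B3HzB2H3B2E : POK 206 xNFzA2AzE2B3HzB2H3B2E :=
  y_pok (C0 := ceNFzA2AzE2B3HzB2H3B2E) (C1 := coNFzA2AzE2B3HzB2H3B2E) topNFzA2AzE2B3HzB2H3B2E nbNFzA2AzE2B3HzB2H3B2E (BT.Fa_of_all iiNFzA2AzE2B3HzB2H3B2E_c)
    (cyE_spec zeNFzA2AzE2B3HzB2H3B2E_0)
    (cyO_spec zoNFzA2AzE2B3HzB2H3B2E_0)
    iiNFzA2AzE2B3HzB2H3B2E_k

theorem iiNFzAzAzE2A2Ax3xA2A2EzA2AyF_k : iiNFzAzAzE2A2Ax3xA2A2EzA2AyF.Fa (Itm.ok 206) := (BT.Fa_mk (BT.Fa_mk (BT.Fa_mk (BT.Fa_mk (BT.Fa_mk (BT.Fa_mk (BT.Fa_mk (BT.Fa_leaf (P := Itm.ok 206) (iqf tp318_c)) (BT.Fa_leaf (P := Itm.ok 206) (iqb tp567_c))) (BT.Fa_mk (BT.Fa_leaf (P := Itm.ok 206) (iqf tp368_c)) (BT.Fa_leaf (P := Itm.ok 206) (iqb tp368_c)))) (BT.Fa_mk (BT.Fa_mk (BT.Fa_leaf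 (P := Itm.ok 206) (iqb tp307_c)) (BT.Fa_leaf (P := Itm.ok 206) (iqb tp320_c))) (BT.Fa_mk (BT.Fa_leaf (P := Itm.ok 206) (iqf tp321_c)) (BT.Fa_leaf (P := Itm.ok 206) (iqf tp292_c))))) (BT.Fa_mk (BT.Fa_mk (BT.Fa_mk (BT.Fa_leaf (P := Itm.ok 206) (iqb tp452_c)) (BT.Fa_leaf (P := Itm.ok 206) (iqb tp1059_c))) (BT.Fa_mk (BT.Fa_leaf (P := Itm.ok 206) (iqf tp330_c)) (BT.Fa_leaf (P := Itm.ok 206) (iqb tp331_c)))) (BT.Fa_mk (BT.Fa_mk (BT.Fa_leaf (P := Itm.ok 206) (iqf tp688_c)) (BT.Fa_leaf (P := Itm.ok 206) (iqb tp484_c))) (BT.Fa_leaf (P := Itm.ok 206) (iqf tp334_c))))) (BT.Fa_mk (BT.Fa_mk (BT.Fa_mk (BT.Fa_mk (BT.Fa_leaf (P := Itm.ok 206) (iqb tp334_c)) (BT.Fa_leaf (P := Itm.ok 206) (iqf tp1060_c))) (BT.Fa_mk (BT.Fa_leaf (P := Itm.ok 206) (iqf tp485_c)) (BT.Fa_leaf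 (P := Itm.ok 206) (iqf tp335_c)))) (BT.Fa_mk (BT.Fa_mk (BT.Fa_leaf (P := Itm.ok 206) (iqf tp1061_c)) (BT.Fa_leaf (P := Itm.ok 206) (iqf tp397_c))) (BT.Fa_leaf (P := Itm.ok 206) (iqb tp397_c)))) (BT.Fa_mk (BT.Fa_mk (BT.Fa_mk (BT.Fa_leaf (P := Itm.ok 206) (iqf tp337_c)) (BT.Fa_leaf (P := Itm.ok 206) (iqf tp1062_c))) (BT.Fa_mk (BT.Fa_leaf (P := Itm.ok 206) (iqf tp1063_c)) (BT.Fa_leaf (P := Itm.ok 206) (iqb tp1064_c)))) (BT.Fa_mk (BT.Fa_mk (BT.Fa_leaf (P := Itm.ok 206) (iqf tp1065_c)) (BT.Fa_leaf (P := Itm.ok 206) (iqf tp490_c))) (BT.Fa_leaf (P := Itm.ok 206) (iqf tp378_c)))))) (BT.Fa_mk (BT.Fa_mk (BT.Fa_mk (BT.Fa_mk (BT.Fa_mk (BT.Fa_leaf (P := Itm.ok 206) (iqb tp532_c)) (BT.Fa_leaf (P := Itm.ok 206) (iqf tp473_c))) (BT.Fa_mk (BT.Fa_leaf (P := Itm.ok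 206) (iqf tp342_c)) (BT.Fa_leaf (P := Itm.ok 206) (iqb tp1066_c)))) (BT.Fa_mk (BT.Fa_mk (BT.Fa_leaf (P := Itm.ok 206) (iqb tp299_c)) (BT.Fa_leaf (P := Itm.ok 206) (iqf tp783_c))) (BT.Fa_mk (BT.Fa_leaf (P := Itm.ok 206) (iqf tp451_c)) (BT.Fa_leaf (P := Itm.ok 206) (iqf tp403_c))))) (BT.Fa_mk (BT.Fa_mk (BT.Fa_mk (BT.Fa_leaf (P := Itm.ok 206) (iqf tp1067_c)) (BT.Fa_leaf (P := Itm.ok 206) (iqf tp587_c))) (BT.Fa_mk (BT.Fa_leaf (P := Itm.ok 206) (iqf tp1054_c)) (BT.Fa_leaf (P := Itm.ok 206) (iqf tp498_c)))) (BT.Fa_mk (BT.Fa_mk (BT.Fa_leaf (P := Itm.ok 206) (iqb tp346_c)) (BT.Fa_leaf (P := Itm.ok 206) (iqf tp499_c))) (BT.Fa_leaf (P := Itm.ok 206) (iqb tp500_c))))) (BT.Fa_mk (BT.Fa_mk (BT.Fa_mk (BT.Fa_mk (BT.Fa_leaf (P := Itm.ok 206) (iqf tp1068_c)) (BT.Fa_leaf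 (P := Itm.ok 206) (iqb tp347_c))) (BT.Fa_mk (BT.Fa_leaf (P := Itm.ok 206) (iqf tp789_c)) (BT.Fa_leaf (P := Itm.ok 206) (iqf tp503_c)))) (BT.Fa_mk (BT.Fa_mk (BT.Fa_leaf (P := Itm.ok 206) (iqb tp312_c)) (BT.Fa_leaf (P := Itm.ok 206) (iqf tp504_c))) (BT.Fa_leaf (P := Itm.ok 206) (iqf tp784_c)))) (BT.Fa_mk (BT.Fa_mk (BT.Fa_mk (BT.Fa_leaf (P := Itm.ok 206) (iqb tp477_c)) (BT.Fa_leaf (P := Itm.ok 206) (iqb tp376_c))) (BT.Fa_mk (BT.Fa_leaf (P := Itm.ok 206) (iqf tp353_c)) (BT.Fa_leaf (P := Itm.ok 206) (iqb tp353_c)))) (BT.Fa_mk (BT.Fa_mk (BT.Fa_leaf (P := Itm.ok 206) (iqb tp450_c)) (BT.Fa_leaf (P := Itm.ok 206) (iqf tp355_c))) (BT.Fa_leaf (P := Itm.ok 206) (iqb tp356_c))))))) (BT.Fa_mk (BT.Fa_mk (BT.Fa_mk (BT.Fa_mk (BT.Fa_mk (BT.Fa_mk (BT.Fa_leaf (P :=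 Itm.ok 206) (iqf tp1069_c)) (BT.Fa_leaf (P := Itm.ok 206) (iqf tp1070_c))) (BT.Fa_mk (BT.Fa_leaf (P := Itm.ok 206) (iqb tp358_c)) (BT.Fa_leaf (P := Itm.ok 206) (iqf tp410_c)))) (BT.Fa_mk (BT.Fa_mk (BT.Fa_leaf (P := Itm.ok 206) (iqf tp1071_c)) (BT.Fa_leaf (P := Itm.ok 206) (iqb tp359_c))) (BT.Fa_mk (BT.Fa_leaf (P := Itm.ok 206) (iqb tp361_c)) (BT.Fa_leaf (P := Itm.ok 206) (iqf tp375_c))))) (BT.Fa_mk (BT.Fa_mk (BT.Fa_mk (BT.Fa_leaf (P := Itm.ok 206) (iqb tp1072_c)) (BT.Fa_leaf (P := Itm.ok 206) (iqb tp1073_c))) (BT.Fa_mk (BT.Fa_leaf (P := Itm.ok 206) (iqb tp1074_c)) (BT.Fa_leaf (P := Itm.ok 206) (iqb tp364_c)))) (BT.Fa_mk (BT.Fa_mk (BT.Fa_leaf (P := Itm.ok 206) (iqf tp365_c)) (BT.Fa_leaf (P := Itm.ok 206) (iqb tp366_c))) (BT.Fa_leaf (P := Itm.ok 206)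 (iqf tp445_c))))) (BT.Fa_mk (BT.Fa_mk (BT.Fa_mk (BT.Fa_mk (BT.Fa_leaf (P := Itm.ok 206) (iqb tp445_c)) (BT.Fa_leaf (P := Itm.ok 206) (iqf tp578_c))) (BT.Fa_mk (BT.Fa_leaf (P := Itm.ok 206) (iqb tp489_c)) (BT.Fa_leaf (P := Itm.ok 206) (iqf tp1075_c)))) (BT.Fa_mk (BT.Fa_mk (BT.Fa_leaf (P := Itm.ok 206) (iqf tp338_c)) (BT.Fa_leaf (P := Itm.ok 206) (iqf tp796_c))) (BT.Fa_leaf (P := Itm.ok 206) (iqf tp492_c)))) (BT.Fa_mk (BT.Fa_mk (BT.Fa_mk (BT.Fa_leaf (P := Itm.ok 206) (iqf tp832_c)) (BT.Fa_leaf (P := Itm.ok 206) (iqb tp458_c))) (BT.Fa_mk (BT.Fa_leaf (P := Itm.ok 206) (iqb tp454_c)) (BT.Fa_leaf (P := Itm.ok 206) (iqf tp511_c)))) (BT.Fa_mk (BT.Fa_mk (BT.Fa_leaf (P := Itm.ok 206) (iqf tp496_c)) (BT.Fa_leaf (P := Itm.ok 206) (iqb tp1076_c))) (BT.Fa_leaf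 (P := Itm.ok 206) (iqf tp510_c)))))) (BT.Fa_mk (BT.Fa_mk (BT.Fa_mk (BT.Fa_mk (BT.Fa_mk (BT.Fa_leaf (P := Itm.ok 206) (iqf tp1077_c)) (BT.Fa_leaf (P := Itm.ok 206) (iqf tp350_c))) (BT.Fa_mk (BT.Fa_leaf (P := Itm.ok 206) (iqf tp371_c)) (BT.Fa_leaf (P := Itm.ok 206) (iqb tp508_c)))) (BT.Fa_mk (BT.Fa_mk (BT.Fa_leaf (P := Itm.ok 206) (iqb tp495_c)) (BT.Fa_leaf (P := Itm.ok 206) (iqf tp586_c))) (BT.Fa_leaf (P := Itm.ok 206) (iqb tp963_c)))) (BT.Fa_mk (BT.Fa_mk (BT.Fa_mk (BT.Fa_leaf (P := Itm.ok 206) (iqf tp512_c)) (BT.Fa_leaf (P := Itm.ok 206) (iqb tp1078_c))) (BT.Fa_mk (BT.Fa_leaf (P := Itm.ok 206) (iqf tp488_c)) (BT.Fa_leaf (P := Itm.ok 206) (iqb tp575_c)))) (BT.Fa_mk (BT.Fa_mk (BT.Fa_leaf (P := Itm.ok 206) (iqf tp521_c)) (BT.Fa_leaf (P := Itm.ok 206)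 (iqb tp585_c))) (BT.Fa_leaf (P := Itm.ok 206) (iqf tp625_c))))) (BT.Fa_mk (BT.Fa_mk (BT.Fa_mk (BT.Fa_mk (BT.Fa_leaf (P := Itm.ok 206) (iqf tp1079_c)) (BT.Fa_leaf (P := Itm.ok 206) (iqb tp788_c))) (BT.Fa_mk (BT.Fa_leaf (P := Itm.ok 206) (iqf tp347_c)) (BT.Fa_leaf (P := Itm.ok 206) (iqb tp349_c)))) (BT.Fa_mk (BT.Fa_mk (BT.Fa_leaf (P := Itm.ok 206) (iqb tp519_c)) (BT.Fa_leaf (P := Itm.ok 206) (iqb tp581_c))) (BT.Fa_leaf (P := Itm.ok 206) (iqf tp514_c)))) (BT.Fa_mk (BT.Fa_mk (BT.Fa_mk (BT.Fa_leaf (P := Itm.ok 206) (iqb tp694_c)) (BT.Fa_leaf (P := Itm.ok 206) (iqb tp1080_c))) (BT.Fa_mk (BT.Fa_leaf (P := Itm.ok 206) (iqb tp1081_c)) (BT.Fa_leaf (P := Itm.ok 206) (iqf tp361_c)))) (BT.Fa_mk (BT.Fa_mk (BT.Fa_leaf (P := Itm.ok 206) (iqf tp1082_c)) (BT.Fa_leaf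 (P := Itm.ok 206) (iqb tp318_c))) (BT.Fa_leaf (P := Itm.ok 206) (iqb tp1010_c))))))))

/-- all words of the class have labels -/
theorem pokNFzAzAzE2A2Ax3xA2A2EzA2AyF : POK 206 xNFzAzAzE2A2Ax3xA2A2EzA2AyF :=
  y_pok (C0 := ceNFzAzAzE2A2Ax3xA2A2EzA2AyF) (C1 := coNFzAzAzE2A2Ax3xA2A2EzA2AyF) topNFzAzAzE2A2Ax3xA2A2EzA2AyF nbNFzAzAzE2A2Ax3xA2A2EzA2AyF (BT.Fa_of_all iiNFzAzAzE2A2Ax3xA2A2EzA2AyF_c)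
    (cyE_spec zeNFzAzAzE2A2Ax3xA2A2EzA2AyF_0)
    (cyO_spec zoNFzAzAzE2A2Ax3xA2A2EzA2AyF_0)
    iiNFzAzAzE2A2Ax3xA2A2EzA2AyF_k

theorem iiNFzAzAzE2A3Ix3A2E_k : iiNFzAzAzE2A3Ix3A2E.Fa (Itm.ok 206) := (BT.Fa_mk (BT.Fa_mk (BT.Fa_mk (BT.Fa_mk (BT.Fa_mk (BT.Fa_mk (BT.Fa_mk (BT.Fa_leaf (P := Itm.ok 206) (iqf tp1890_c)) (BT.Fa_leaf (P := Itm.ok 206) (iqf tp2615_c))) (BT.Fa_leaf (P := Itm.ok 206) (iqf tp1420_c))) (BT.Fa_mk (BT.Fa_mk (BT.Fa_leaf (P := Itm.ok 206) (iqb tp1730_c)) (BT.Fa_leaf (P := Itm.ok 206) (iqb tp391_c))) (BT.Fa_leaf (P := Itm.ok 206) (iqf tp1991_c)))) (BT.Fa_mk (BT.Fa_mk (BT.Fa_mk (BT.Fa_leaf (P := Itm.ok 206) (iqf tp529_c)) (BT.Fa_leaf (P := Itm.ok 206) (iqb tp401_c))) (BT.Fa_leaf (P := Itm.ok 206) (iqb tp2045_c))) (BT.Fa_mk (BT.Fa_mk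 (BT.Fa_leaf (P := Itm.ok 206) (iqb tp1888_c)) (BT.Fa_leaf (P := Itm.ok 206) (iqf tp2869_c))) (BT.Fa_leaf (P := Itm.ok 206) (iqb tp2049_c))))) (BT.Fa_mk (BT.Fa_mk (BT.Fa_mk (BT.Fa_mk (BT.Fa_leaf (P := Itm.ok 206) (iqb tp636_c)) (BT.Fa_leaf (P := Itm.ok 206) (iqb tp2054_c))) (BT.Fa_leaf (P := Itm.ok 206) (iqf tp2184_c))) (BT.Fa_mk (BT.Fa_mk (BT.Fa_leaf (P := Itm.ok 206) (iqb tp785_c)) (BT.Fa_leaf (P := Itm.ok 206) (iqb tp1576_c))) (BT.Fa_leaf (P := Itm.ok 206) (iqb tp1588_c)))) (BT.Fa_mk (BT.Fa_mk (BT.Fa_mk (BT.Fa_leaf (P := Itm.ok 206) (iqf tp1576_c)) (BT.Fa_leaf (P := Itm.ok 206) (iqf tp2040_c))) (BT.Fa_leaf (P := Itm.ok 206) (iqf tp1356_c))) (BT.Fa_mk (BT.Fa_mk (BT.Fa_leaf (P := Itm.ok 206) (iqf tp493_c)) (BT.Fa_leaf (P := Itm.ok 206) (iqb tp1920_c)))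 (BT.Fa_leaf (P := Itm.ok 206) (iqb tp1926_c)))))) (BT.Fa_mk (BT.Fa_mk (BT.Fa_mk (BT.Fa_mk (BT.Fa_mk (BT.Fa_leaf (P := Itm.ok 206) (iqf tp2099_c)) (BT.Fa_leaf (P := Itm.ok 206) (iqf tp2932_c))) (BT.Fa_leaf (P := Itm.ok 206) (iqf tp2933_c))) (BT.Fa_mk (BT.Fa_mk (BT.Fa_leaf (P := Itm.ok 206) (iqb tp2637_c)) (BT.Fa_leaf (P := Itm.ok 206) (iqb tp307_c))) (BT.Fa_leaf (P := Itm.ok 206) (iqf tp420_c)))) (BT.Fa_mk (BT.Fa_mk (BT.Fa_mk (BT.Fa_leaf (P := Itm.ok 206) (iqb tp2934_c)) (BT.Fa_leaf (P := Itm.ok 206) (iqb tp2039_c))) (BT.Fa_leaf (P := Itm.ok 206) (iqb tp477_c))) (BT.Fa_mk (BT.Fa_mk (BT.Fa_leaf (P := Itm.ok 206) (iqf tp2100_c)) (BT.Fa_leaf (P := Itm.ok 206) (iqf tp334_c))) (BT.Fa_leaf (P := Itm.ok 206) (iqb tp1260_c))))) (BT.Fa_mk (BT.Fa_mk (BT.Fa_mk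 (BT.Fa_mk (BT.Fa_leaf (P := Itm.ok 206) (iqf tp2540_c)) (BT.Fa_leaf (P := Itm.ok 206) (iqf tp2119_c))) (BT.Fa_leaf (P := Itm.ok 206) (iqf tp1099_c))) (BT.Fa_mk (BT.Fa_mk (BT.Fa_leaf (P := Itm.ok 206) (iqb tp1733_c)) (BT.Fa_leaf (P := Itm.ok 206) (iqb tp2127_c))) (BT.Fa_leaf (P := Itm.ok 206) (iqb tp2935_c)))) (BT.Fa_mk (BT.Fa_mk (BT.Fa_mk (BT.Fa_leaf (P := Itm.ok 206) (iqb tp2172_c)) (BT.Fa_leaf (P := Itm.ok 206) (iqb tp849_c))) (BT.Fa_leaf (P := Itm.ok 206) (iqf tp2538_c))) (BT.Fa_mk (BT.Fa_leaf (P := Itm.ok 206) (iqb tp846_c)) (BT.Fa_leaf (P := Itm.ok 206) (iqf tp730_c))))))) (BT.Fa_mk (BT.Fa_mk (BT.Fa_mk (BT.Fa_mk (BT.Fa_mk (BT.Fa_mk (BT.Fa_leaf (P := Itm.ok 206) (iqb tp1183_c)) (BT.Fa_leaf (P := Itm.ok 206) (iqf tp1037_c))) (BT.Fa_leaf (P :=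 Itm.ok 206) (iqb tp2936_c))) (BT.Fa_mk (BT.Fa_mk (BT.Fa_leaf (P := Itm.ok 206) (iqb tp441_c)) (BT.Fa_leaf (P := Itm.ok 206) (iqb tp1740_c))) (BT.Fa_leaf (P := Itm.ok 206) (iqf tp2124_c)))) (BT.Fa_mk (BT.Fa_mk (BT.Fa_mk (BT.Fa_leaf (P := Itm.ok 206) (iqb tp377_c)) (BT.Fa_leaf (P := Itm.ok 206) (iqf tp1731_c))) (BT.Fa_leaf (P := Itm.ok 206) (iqf tp2113_c))) (BT.Fa_mk (BT.Fa_mk (BT.Fa_leaf (P := Itm.ok 206) (iqb tp397_c)) (BT.Fa_leaf (P := Itm.ok 206) (iqb tp1169_c))) (BT.Fa_leaf (P := Itm.ok 206) (iqb tp1299_c))))) (BT.Fa_mk (BT.Fa_mk (BT.Fa_mk (BT.Fa_mk (BT.Fa_leaf (P := Itm.ok 206) (iqb tp2069_c)) (BT.Fa_leaf (P := Itm.ok 206) (iqb tp2133_c))) (BT.Fa_leaf (P := Itm.ok 206) (iqf tp2643_c))) (BT.Fa_mk (BT.Fa_mk (BT.Fa_leaf (P := Itm.ok 206) (iqb tp2764_c))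 (BT.Fa_leaf (P := Itm.ok 206) (iqf tp2468_c))) (BT.Fa_leaf (P := Itm.ok 206) (iqf tp632_c)))) (BT.Fa_mk (BT.Fa_mk (BT.Fa_mk (BT.Fa_leaf (P := Itm.ok 206) (iqf tp375_c)) (BT.Fa_leaf (P := Itm.ok 206) (iqb tp2937_c))) (BT.Fa_leaf (P := Itm.ok 206) (iqb tp2141_c))) (BT.Fa_mk (BT.Fa_mk (BT.Fa_leaf (P := Itm.ok 206) (iqb tp2938_c)) (BT.Fa_leaf (P := Itm.ok 206) (iqf tp2151_c))) (BT.Fa_leaf (P := Itm.ok 206) (iqf tp2939_c)))))) (BT.Fa_mk (BT.Fa_mk (BT.Fa_mk (BT.Fa_mk (BT.Fa_mk (BT.Fa_leaf (P := Itm.ok 206) (iqf tp2056_c)) (BT.Fa_leaf (P := Itm.ok 206) (iqb tp2940_c))) (BT.Fa_leaf (P := Itm.ok 206) (iqf tp1732_c))) (BT.Fa_mk (BT.Fa_mk (BT.Fa_leaf (P := Itm.ok 206) (iqf tp2941_c)) (BT.Fa_leaf (P := Itm.ok 206) (iqf tp2057_c))) (BT.Fa_leaf (P := Itm.ok 206)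 (iqb tp2942_c)))) (BT.Fa_mk (BT.Fa_mk (BT.Fa_mk (BT.Fa_leaf (P := Itm.ok 206) (iqb tp2561_c)) (BT.Fa_leaf (P := Itm.ok 206) (iqb tp2943_c))) (BT.Fa_leaf (P := Itm.ok 206) (iqb tp2944_c))) (BT.Fa_mk (BT.Fa_mk (BT.Fa_leaf (P := Itm.ok 206) (iqb tp29_c)) (BT.Fa_leaf (P := Itm.ok 206) (iqf tp678_c))) (BT.Fa_leaf (P := Itm.ok 206) (iqf tp2945_c))))) (BT.Fa_mk (BT.Fa_mk (BT.Fa_mk (BT.Fa_mk (BT.Fa_leaf (P := Itm.ok 206) (iqf tp2866_c)) (BT.Fa_leaf (P := Itm.ok 206) (iqb tp783_c))) (BT.Fa_leaf (P := Itm.ok 206) (iqb tp2560_c))) (BT.Fa_mk (BT.Fa_mk (BT.Fa_leaf (P := Itm.ok 206) (iqb tp1736_c)) (BT.Fa_leaf (P := Itm.ok 206) (iqf tp2946_c))) (BT.Fa_leaf (P := Itm.ok 206) (iqf tp2052_c)))) (BT.Fa_mk (BT.Fa_mk (BT.Fa_mk (BT.Fa_leaf (P := Itm.ok 206) (iqb tp2058_c))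 (BT.Fa_leaf (P := Itm.ok 206) (iqb tp2196_c))) (BT.Fa_leaf (P := Itm.ok 206) (iqf tp2179_c))) (BT.Fa_mk (BT.Fa_leaf (P := Itm.ok 206) (iqf tp2947_c)) (BT.Fa_leaf (P := Itm.ok 206) (iqb tp2948_c))))))))

/-- all words of the class have labels -/
theorem pokNFzAzAzE2A3Ix3A2E : POK 206 xNFzAzAzE2A3Ix3A2E :=
  y_pok (C0 := ceNFzAzAzE2A3Ix3A2E) (C1 := coNFzAzAzE2A3Ix3A2E) topNFzAzAzE2A3Ix3A2E nbNFzAzAzE2A3Ix3A2E (BT.Fa_of_all iiNFzAzAzE2A3Ix3A2E_c)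
    (cyE_spec zeNFzAzAzE2A3Ix3A2E_0)
    (cyO_spec zoNFzAzAzE2A3Ix3A2E_0)
    iiNFzAzAzE2A3Ix3A2E_k

theorem iiNFzAzAzE2A3Ix3AyB2E_k : iiNFzAzAzE2A3Ix3AyB2E.Fa (Itm.ok 206) := (BT.Fa_mk (BT.Fa_mk (BT.Fa_mk (BT.Fa_mk (BT.Fa_mk (BT.Fa_mk (BT.Fa_mk (BT.Fa_leaf (P := Itm.ok 206) (iqb tp1741_c)) (BT.Fa_leaf (P := Itm.ok 206) (iqb tp1730_c))) (BT.Fa_leaf (P := Itm.ok 206) (iqf tp2532_c))) (BT.Fa_mk (BT.Fa_leaf (P := Itm.ok 206) (iqf tp1576_c)) (BT.Fa_leaf (P := Itm.ok 206) (iqb tp1781_c)))) (BT.Fa_mk (BT.Fa_mk (BT.Fa_mk (BT.Fa_leaf (P := Itm.ok 206) (iqb tp1736_c)) (BT.Fa_leaf (P := Itm.ok 206) (iqf tp2533_c))) (BT.Fa_leaf (P := Itm.ok 206) (iqb tp1576_c))) (BT.Fa_mk (BT.Fa_leaf (P := Itm.ok 206) (iqb tp1734_c)) (BT.Fa_leaf (P := Itm.ok 206) (iqb tp2049_c)))))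 (BT.Fa_mk (BT.Fa_mk (BT.Fa_mk (BT.Fa_mk (BT.Fa_leaf (P := Itm.ok 206) (iqf tp2534_c)) (BT.Fa_leaf (P := Itm.ok 206) (iqf tp2535_c))) (BT.Fa_leaf (P := Itm.ok 206) (iqb tp1588_c))) (BT.Fa_mk (BT.Fa_leaf (P := Itm.ok 206) (iqb tp2536_c)) (BT.Fa_leaf (P := Itm.ok 206) (iqf tp2124_c)))) (BT.Fa_mk (BT.Fa_mk (BT.Fa_mk (BT.Fa_leaf (P := Itm.ok 206) (iqf tp2179_c)) (BT.Fa_leaf (P := Itm.ok 206) (iqf tp2040_c))) (BT.Fa_leaf (P := Itm.ok 206) (iqf tp2537_c))) (BT.Fa_mk (BT.Fa_leaf (P := Itm.ok 206) (iqf tp2538_c)) (BT.Fa_leaf (P := Itm.ok 206) (iqb tp2539_c)))))) (BT.Fa_mk (BT.Fa_mk (BT.Fa_mk (BT.Fa_mk (BT.Fa_mk (BT.Fa_leaf (P := Itm.ok 206) (iqb tp1009_c)) (BT.Fa_leaf (P := Itm.ok 206) (iqb tp1920_c))) (BT.Fa_leaf (P := Itm.ok 206) (iqf tp2540_c))) (BT.Fa_mk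 (BT.Fa_leaf (P := Itm.ok 206) (iqf tp2095_c)) (BT.Fa_leaf (P := Itm.ok 206) (iqb tp2098_c)))) (BT.Fa_mk (BT.Fa_mk (BT.Fa_mk (BT.Fa_leaf (P := Itm.ok 206) (iqb tp2541_c)) (BT.Fa_leaf (P := Itm.ok 206) (iqb tp1940_c))) (BT.Fa_leaf (P := Itm.ok 206) (iqb tp2542_c))) (BT.Fa_mk (BT.Fa_leaf (P := Itm.ok 206) (iqf tp1468_c)) (BT.Fa_leaf (P := Itm.ok 206) (iqf tp2543_c))))) (BT.Fa_mk (BT.Fa_mk (BT.Fa_mk (BT.Fa_mk (BT.Fa_leaf (P := Itm.ok 206) (iqf tp2062_c)) (BT.Fa_leaf (P := Itm.ok 206) (iqb tp1579_c))) (BT.Fa_leaf (P := Itm.ok 206) (iqf tp2544_c))) (BT.Fa_mk (BT.Fa_leaf (P := Itm.ok 206) (iqb tp1888_c)) (BT.Fa_leaf (P := Itm.ok 206) (iqf tp334_c)))) (BT.Fa_mk (BT.Fa_mk (BT.Fa_leaf (P := Itm.ok 206) (iqf tp2545_c)) (BT.Fa_leaf (P := Itm.ok 206) (iqb tp2050_c)))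 (BT.Fa_mk (BT.Fa_leaf (P := Itm.ok 206) (iqf tp2100_c)) (BT.Fa_leaf (P := Itm.ok 206) (iqb tp1939_c))))))) (BT.Fa_mk (BT.Fa_mk (BT.Fa_mk (BT.Fa_mk (BT.Fa_mk (BT.Fa_mk (BT.Fa_leaf (P := Itm.ok 206) (iqf tp2546_c)) (BT.Fa_leaf (P := Itm.ok 206) (iqf tp2493_c))) (BT.Fa_leaf (P := Itm.ok 206) (iqb tp2547_c))) (BT.Fa_mk (BT.Fa_leaf (P := Itm.ok 206) (iqb tp1758_c)) (BT.Fa_leaf (P := Itm.ok 206) (iqf tp2548_c)))) (BT.Fa_mk (BT.Fa_mk (BT.Fa_mk (BT.Fa_leaf (P := Itm.ok 206) (iqb tp1793_c)) (BT.Fa_leaf (P := Itm.ok 206) (iqb tp2549_c))) (BT.Fa_leaf (P := Itm.ok 206) (iqf tp1659_c))) (BT.Fa_mk (BT.Fa_leaf (P := Itm.ok 206) (iqb tp240_c)) (BT.Fa_leaf (P := Itm.ok 206) (iqf tp2306_c))))) (BT.Fa_mk (BT.Fa_mk (BT.Fa_mk (BT.Fa_mk (BT.Fa_leaf (P := Itm.ok 206)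 (iqf tp2053_c)) (BT.Fa_leaf (P := Itm.ok 206) (iqb tp1770_c))) (BT.Fa_leaf (P := Itm.ok 206) (iqf tp1759_c))) (BT.Fa_mk (BT.Fa_leaf (P := Itm.ok 206) (iqb tp401_c)) (BT.Fa_leaf (P := Itm.ok 206) (iqb tp2550_c)))) (BT.Fa_mk (BT.Fa_mk (BT.Fa_leaf (P := Itm.ok 206) (iqf tp1765_c)) (BT.Fa_leaf (P := Itm.ok 206) (iqb tp1742_c))) (BT.Fa_mk (BT.Fa_leaf (P := Itm.ok 206) (iqf tp2551_c)) (BT.Fa_leaf (P := Itm.ok 206) (iqb tp2552_c)))))) (BT.Fa_mk (BT.Fa_mk (BT.Fa_mk (BT.Fa_mk (BT.Fa_mk (BT.Fa_leaf (P := Itm.ok 206) (iqf tp2150_c)) (BT.Fa_leaf (P := Itm.ok 206) (iqb tp2553_c))) (BT.Fa_leaf (P := Itm.ok 206) (iqb tp1259_c))) (BT.Fa_mk (BT.Fa_leaf (P := Itm.ok 206) (iqf tp2554_c)) (BT.Fa_leaf (P := Itm.ok 206) (iqf tp2555_c)))) (BT.Fa_mk (BT.Fa_mk (BT.Fa_mk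 (BT.Fa_leaf (P := Itm.ok 206) (iqb tp2556_c)) (BT.Fa_leaf (P := Itm.ok 206) (iqb tp1740_c))) (BT.Fa_leaf (P := Itm.ok 206) (iqb tp2558_c))) (BT.Fa_mk (BT.Fa_leaf (P := Itm.ok 206) (iqf tp2559_c)) (BT.Fa_leaf (P := Itm.ok 206) (iqb tp2560_c))))) (BT.Fa_mk (BT.Fa_mk (BT.Fa_mk (BT.Fa_mk (BT.Fa_leaf (P := Itm.ok 206) (iqb tp2561_c)) (BT.Fa_leaf (P := Itm.ok 206) (iqf tp2562_c))) (BT.Fa_leaf (P := Itm.ok 206) (iqb tp149_c))) (BT.Fa_mk (BT.Fa_leaf (P := Itm.ok 206) (iqb tp2563_c)) (BT.Fa_leaf (P := Itm.ok 206) (iqf tp2564_c)))) (BT.Fa_mk (BT.Fa_mk (BT.Fa_leaf (P := Itm.ok 206) (iqb tp2565_c)) (BT.Fa_leaf (P := Itm.ok 206) (iqb tp2566_c))) (BT.Fa_mk (BT.Fa_leaf (P := Itm.ok 206) (iqb tp2567_c)) (BT.Fa_leaf (P := Itm.ok 206) (iqb tp2568_c))))))))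

/-- all words of the class have labels -/
theorem pokNFzAzAzE2A3Ix3AyB2E : POK 206 xNFzAzAzE2A3Ix3AyB2E :=
  y_pok (C0 := ceNFzAzAzE2A3Ix3AyB2E) (C1 := coNFzAzAzE2A3Ix3AyB2E) topNFzAzAzE2A3Ix3AyB2E nbNFzAzAzE2A3Ix3AyB2E (BT.Fa_of_all iiNFzAzAzE2A3Ix3AyB2E_c)
    (cyE_spec zeNFzAzAzE2A3Ix3AyB2E_0)
    (cyO_spec zoNFzAzAzE2A3Ix3AyB2E_0)
    iiNFzAzAzE2A3Ix3AyB2E_k

theorem iiNFzAzAzE2ByA3Ix3AyB2E_k : iiNFzAzAzE2ByA3Ix3AyB2E.Fa (Itm.ok 206) := (BT.Fa_mk (BT.Fa_mk (BT.Fa_mk (BT.Fa_mk (BT.Fa_mk (BT.Fa_mk (BT.Fa_mk (BT.Fa_leaf (P := Itm.ok 206) (iqb tp1741_c)) (BT.Fa_leaf (P := Itm.ok 206) (iqb tp2049_c))) (BT.Fa_leaf (P := Itm.ok 206) (iqb tp2640_c))) (BT.Fa_mk (BT.Fa_mk (BT.Fa_leaf (P := Itm.ok 206) (iqf tp1813_c)) (BT.Fa_leaf (P := Itm.ok 206) (iqb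 tp1576_c))) (BT.Fa_leaf (P := Itm.ok 206) (iqf tp1576_c)))) (BT.Fa_mk (BT.Fa_mk (BT.Fa_mk (BT.Fa_leaf (P := Itm.ok 206) (iqb tp668_c)) (BT.Fa_leaf (P := Itm.ok 206) (iqb tp2148_c))) (BT.Fa_leaf (P := Itm.ok 206) (iqb tp2134_c))) (BT.Fa_mk (BT.Fa_mk (BT.Fa_leaf (P := Itm.ok 206) (iqb tp1653_c)) (BT.Fa_leaf (P := Itm.ok 206) (iqb tp1920_c))) (BT.Fa_leaf (P := Itm.ok 206) (iqf tp2730_c))))) (BT.Fa_mk (BT.Fa_mk (BT.Fa_mk (BT.Fa_mk (BT.Fa_leaf (P := Itm.ok 206) (iqf tp2731_c)) (BT.Fa_leaf (P := Itm.ok 206) (iqb tp1940_c))) (BT.Fa_leaf (P := Itm.ok 206) (iqf tp2732_c))) (BT.Fa_mk (BT.Fa_mk (BT.Fa_leaf (P := Itm.ok 206) (iqf tp2708_c)) (BT.Fa_leaf (P := Itm.ok 206) (iqb tp2706_c))) (BT.Fa_leaf (P := Itm.ok 206) (iqf tp1468_c)))) (BT.Fa_mk (BT.Fa_mk (BT.Fa_mk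 (BT.Fa_leaf (P := Itm.ok 206) (iqf tp1994_c)) (BT.Fa_leaf (P := Itm.ok 206) (iqf tp2703_c))) (BT.Fa_leaf (P := Itm.ok 206) (iqf tp368_c))) (BT.Fa_mk (BT.Fa_mk (BT.Fa_leaf (P := Itm.ok 206) (iqb tp686_c)) (BT.Fa_leaf (P := Itm.ok 206) (iqf tp2733_c))) (BT.Fa_leaf (P := Itm.ok 206) (iqf tp2544_c)))))) (BT.Fa_mk (BT.Fa_mk (BT.Fa_mk (BT.Fa_mk (BT.Fa_mk (BT.Fa_leaf (P := Itm.ok 206) (iqf tp2543_c)) (BT.Fa_leaf (P := Itm.ok 206) (iqf tp2734_c))) (BT.Fa_leaf (P := Itm.ok 206) (iqb tp2547_c))) (BT.Fa_mk (BT.Fa_mk (BT.Fa_leaf (P := Itm.ok 206) (iqf tp2062_c)) (BT.Fa_leaf (P := Itm.ok 206) (iqb tp1935_c))) (BT.Fa_leaf (P := Itm.ok 206) (iqb tp2050_c)))) (BT.Fa_mk (BT.Fa_mk (BT.Fa_mk (BT.Fa_leaf (P := Itm.ok 206) (iqb tp2735_c)) (BT.Fa_leaf (P := Itm.ok 206)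 (iqf tp2139_c))) (BT.Fa_leaf (P := Itm.ok 206) (iqf tp2493_c))) (BT.Fa_mk (BT.Fa_mk (BT.Fa_leaf (P := Itm.ok 206) (iqb tp1908_c)) (BT.Fa_leaf (P := Itm.ok 206) (iqf tp1934_c))) (BT.Fa_leaf (P := Itm.ok 206) (iqb tp1579_c))))) (BT.Fa_mk (BT.Fa_mk (BT.Fa_mk (BT.Fa_mk (BT.Fa_leaf (P := Itm.ok 206) (iqb tp1730_c)) (BT.Fa_leaf (P := Itm.ok 206) (iqb tp2039_c))) (BT.Fa_leaf (P := Itm.ok 206) (iqb tp2539_c))) (BT.Fa_mk (BT.Fa_mk (BT.Fa_leaf (P := Itm.ok 206) (iqf tp2546_c)) (BT.Fa_leaf (P := Itm.ok 206) (iqb tp2415_c))) (BT.Fa_leaf (P := Itm.ok 206) (iqb tp2048_c)))) (BT.Fa_mk (BT.Fa_mk (BT.Fa_mk (BT.Fa_leaf (P := Itm.ok 206) (iqf tp2627_c)) (BT.Fa_leaf (P := Itm.ok 206) (iqf tp1795_c))) (BT.Fa_leaf (P := Itm.ok 206) (iqf tp2709_c))) (BT.Fa_mk (BT.Fa_mk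 (BT.Fa_leaf (P := Itm.ok 206) (iqf tp2434_c)) (BT.Fa_leaf (P := Itm.ok 206) (iqf tp2736_c))) (BT.Fa_leaf (P := Itm.ok 206) (iqf tp1516_c))))))) (BT.Fa_mk (BT.Fa_mk (BT.Fa_mk (BT.Fa_mk (BT.Fa_mk (BT.Fa_mk (BT.Fa_leaf (P := Itm.ok 206) (iqf tp2711_c)) (BT.Fa_leaf (P := Itm.ok 206) (iqf tp2474_c))) (BT.Fa_leaf (P := Itm.ok 206) (iqb tp2737_c))) (BT.Fa_mk (BT.Fa_mk (BT.Fa_leaf (P := Itm.ok 206) (iqb tp2738_c)) (BT.Fa_leaf (P := Itm.ok 206) (iqf tp2739_c))) (BT.Fa_leaf (P := Itm.ok 206) (iqf tp294_c)))) (BT.Fa_mk (BT.Fa_mk (BT.Fa_mk (BT.Fa_leaf (P := Itm.ok 206) (iqf tp2707_c)) (BT.Fa_leaf (P := Itm.ok 206) (iqb tp2073_c))) (BT.Fa_leaf (P := Itm.ok 206) (iqf tp2740_c))) (BT.Fa_mk (BT.Fa_mk (BT.Fa_leaf (P := Itm.ok 206) (iqf tp1730_c)) (BT.Fa_leaf (P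 := Itm.ok 206) (iqf tp1759_c))) (BT.Fa_leaf (P := Itm.ok 206) (iqf tp2418_c))))) (BT.Fa_mk (BT.Fa_mk (BT.Fa_mk (BT.Fa_mk (BT.Fa_leaf (P := Itm.ok 206) (iqb tp2716_c)) (BT.Fa_leaf (P := Itm.ok 206) (iqf tp2005_c))) (BT.Fa_leaf (P := Itm.ok 206) (iqf tp2741_c))) (BT.Fa_mk (BT.Fa_mk (BT.Fa_leaf (P := Itm.ok 206) (iqf tp2441_c)) (BT.Fa_leaf (P := Itm.ok 206) (iqb tp2742_c))) (BT.Fa_leaf (P := Itm.ok 206) (iqf tp2699_c)))) (BT.Fa_mk (BT.Fa_mk (BT.Fa_mk (BT.Fa_leaf (P := Itm.ok 206) (iqf tp2743_c)) (BT.Fa_leaf (P := Itm.ok 206) (iqf tp2744_c))) (BT.Fa_leaf (P := Itm.ok 206) (iqf tp2745_c))) (BT.Fa_mk (BT.Fa_mk (BT.Fa_leaf (P := Itm.ok 206) (iqf tp2746_c)) (BT.Fa_leaf (P := Itm.ok 206) (iqb tp1259_c))) (BT.Fa_leaf (P := Itm.ok 206) (iqf tp2747_c))))))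 (BT.Fa_mk (BT.Fa_mk (BT.Fa_mk (BT.Fa_mk (BT.Fa_mk (BT.Fa_leaf (P := Itm.ok 206) (iqf tp2748_c)) (BT.Fa_leaf (P := Itm.ok 206) (iqb tp2749_c))) (BT.Fa_leaf (P := Itm.ok 206) (iqb tp2750_c))) (BT.Fa_mk (BT.Fa_mk (BT.Fa_leaf (P := Itm.ok 206) (iqb tp2751_c)) (BT.Fa_leaf (P := Itm.ok 206) (iqb tp2725_c))) (BT.Fa_leaf (P := Itm.ok 206) (iqb tp2752_c)))) (BT.Fa_mk (BT.Fa_mk (BT.Fa_mk (BT.Fa_leaf (P := Itm.ok 206) (iqf tp2064_c)) (BT.Fa_leaf (P := Itm.ok 206) (iqb tp2347_c))) (BT.Fa_leaf (P := Itm.ok 206) (iqb tp2753_c))) (BT.Fa_mk (BT.Fa_mk (BT.Fa_leaf (P := Itm.ok 206) (iqb tp2032_c)) (BT.Fa_leaf (P := Itm.ok 206) (iqf tp2503_c))) (BT.Fa_leaf (P := Itm.ok 206) (iqf tp2754_c))))) (BT.Fa_mk (BT.Fa_mk (BT.Fa_mk (BT.Fa_mk (BT.Fa_leaf (P := Itm.ok 206) (iqb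 tp2445_c)) (BT.Fa_leaf (P := Itm.ok 206) (iqb tp2755_c))) (BT.Fa_leaf (P := Itm.ok 206) (iqb tp2454_c))) (BT.Fa_mk (BT.Fa_mk (BT.Fa_leaf (P := Itm.ok 206) (iqb tp2756_c)) (BT.Fa_leaf (P := Itm.ok 206) (iqf tp2757_c))) (BT.Fa_leaf (P := Itm.ok 206) (iqf tp2089_c)))) (BT.Fa_mk (BT.Fa_mk (BT.Fa_mk (BT.Fa_leaf (P := Itm.ok 206) (iqf tp2758_c)) (BT.Fa_leaf (P := Itm.ok 206) (iqf tp2612_c))) (BT.Fa_leaf (P := Itm.ok 206) (iqf tp2759_c))) (BT.Fa_mk (BT.Fa_leaf (P := Itm.ok 206) (iqf tp2559_c)) (BT.Fa_leaf (P := Itm.ok 206) (iqb tp2761_c))))))))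

/-- all words of the class have labels -/
theorem pokNFzAzAzE2ByA3Ix3AyB2E : POK 206 xNFzAzAzE2ByA3Ix3AyB2E :=
  y_pok (C0 := ceNFzAzAzE2ByA3Ix3AyB2E) (C1 := coNFzAzAzE2ByA3Ix3AyB2E) topNFzAzAzE2ByA3Ix3AyB2E nbNFzAzAzE2ByA3Ix3AyB2E (BT.Fa_of_all iiNFzAzAzE2ByA3Ix3AyB2E_c)
    (cyE_spec zeNFzAzAzE2ByA3Ix3AyB2E_0)
    (cyO_spec zoNFzAzAzE2ByA3Ix3AyB2E_0)
    iiNFzAzAzE2ByA3Ix3AyB2E_k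

theorem iiNFzAzAzEyA2Ax3xA2AyEzAzAyF_k : iiNFzAzAzEyA2Ax3xA2AyEzAzAyF.Fa (Itm.ok 206) := (BT.Fa_mk (BT.Fa_mk (BT.Fa_mk (BT.Fa_mk (BT.Fa_mk (BT.Fa_mk (BT.Fa_mk (BT.Fa_mk (BT.Fa_leaf (P := Itm.ok 206) (iqf tp524_c)) (BT.Fa_leaf (P := Itm.ok 206) (iqf tp461_c))) (BT.Fa_leaf (P := Itm.ok 206) (iqb tp525_c))) (BT.Fa_mk (BT.Fa_leaf (P := Itm.ok 206) (iqf tp447_c)) (BT.Fa_leaf (P := Itm.ok 206) (iqb tp447_c)))) (BT.Fa_mk (BT.Fa_mk (BT.Fa_leaf (P := Itm.ok 206) (iqf tp295_c)) (BT.Fa_leaf (P := Itm.ok 206) (iqf tp399_c))) (BT.Fa_mk (BT.Fa_leaf (P := Itm.ok 206) (iqb tp399_c)) (BT.Fa_leaf (P := Itm.ok 206) (iqb tp1116_c))))) (BT.Fa_mk (BT.Fa_mk (BT.Fa_mk (BT.Fa_mk (BT.Fa_leaf (P := Itm.ok 206) (iqf tp403_c)) (BT.Fa_leaf (P := Itm.ok 206) (iqb tp403_c)))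 (BT.Fa_leaf (P := Itm.ok 206) (iqf tp292_c))) (BT.Fa_mk (BT.Fa_leaf (P := Itm.ok 206) (iqb tp324_c)) (BT.Fa_leaf (P := Itm.ok 206) (iqf tp326_c)))) (BT.Fa_mk (BT.Fa_mk (BT.Fa_leaf (P := Itm.ok 206) (iqf tp331_c)) (BT.Fa_leaf (P := Itm.ok 206) (iqb tp490_c))) (BT.Fa_mk (BT.Fa_leaf (P := Itm.ok 206) (iqf tp477_c)) (BT.Fa_leaf (P := Itm.ok 206) (iqb tp477_c)))))) (BT.Fa_mk (BT.Fa_mk (BT.Fa_mk (BT.Fa_mk (BT.Fa_mk (BT.Fa_leaf (P := Itm.ok 206) (iqf tp529_c)) (BT.Fa_leaf (P := Itm.ok 206) (iqf tp514_c))) (BT.Fa_leaf (P := Itm.ok 206) (iqf tp342_c))) (BT.Fa_mk (BT.Fa_leaf (P := Itm.ok 206) (iqb tp342_c)) (BT.Fa_leaf (P := Itm.ok 206) (iqf tp488_c)))) (BT.Fa_mk (BT.Fa_mk (BT.Fa_leaf (P := Itm.ok 206) (iqf tp688_c)) (BT.Fa_leaf (P := Itm.ok 206) (iqf tp334_c)))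 (BT.Fa_mk (BT.Fa_leaf (P := Itm.ok 206) (iqb tp334_c)) (BT.Fa_leaf (P := Itm.ok 206) (iqf tp368_c))))) (BT.Fa_mk (BT.Fa_mk (BT.Fa_mk (BT.Fa_mk (BT.Fa_leaf (P := Itm.ok 206) (iqb tp368_c)) (BT.Fa_leaf (P := Itm.ok 206) (iqb tp530_c))) (BT.Fa_leaf (P := Itm.ok 206) (iqb tp489_c))) (BT.Fa_mk (BT.Fa_leaf (P := Itm.ok 206) (iqf tp698_c)) (BT.Fa_leaf (P := Itm.ok 206) (iqf tp341_c)))) (BT.Fa_mk (BT.Fa_mk (BT.Fa_leaf (P := Itm.ok 206) (iqb tp341_c)) (BT.Fa_leaf (P := Itm.ok 206) (iqf tp531_c))) (BT.Fa_mk (BT.Fa_leaf (P := Itm.ok 206) (iqb tp531_c)) (BT.Fa_leaf (P := Itm.ok 206) (iqf tp405_c))))))) (BT.Fa_mk (BT.Fa_mk (BT.Fa_mk (BT.Fa_mk (BT.Fa_mk (BT.Fa_mk (BT.Fa_leaf (P := Itm.ok 206) (iqb tp378_c)) (BT.Fa_leaf (P := Itm.ok 206) (iqb tp532_c))) (BT.Fa_leaf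 (P := Itm.ok 206) (iqf tp484_c))) (BT.Fa_mk (BT.Fa_leaf (P := Itm.ok 206) (iqb tp484_c)) (BT.Fa_leaf (P := Itm.ok 206) (iqb tp533_c)))) (BT.Fa_mk (BT.Fa_mk (BT.Fa_leaf (P := Itm.ok 206) (iqf tp578_c)) (BT.Fa_leaf (P := Itm.ok 206) (iqb tp372_c))) (BT.Fa_mk (BT.Fa_leaf (P := Itm.ok 206) (iqf tp499_c)) (BT.Fa_leaf (P := Itm.ok 206) (iqf tp356_c))))) (BT.Fa_mk (BT.Fa_mk (BT.Fa_mk (BT.Fa_mk (BT.Fa_leaf (P := Itm.ok 206) (iqb tp558_c)) (BT.Fa_leaf (P := Itm.ok 206) (iqb tp535_c))) (BT.Fa_leaf (P := Itm.ok 206) (iqf tp536_c))) (BT.Fa_mk (BT.Fa_leaf (P := Itm.ok 206) (iqf tp348_c)) (BT.Fa_leaf (P := Itm.ok 206) (iqf tp850_c)))) (BT.Fa_mk (BT.Fa_mk (BT.Fa_leaf (P := Itm.ok 206) (iqb tp426_c)) (BT.Fa_leaf (P := Itm.ok 206) (iqf tp375_c))) (BT.Fa_mk (BT.Fa_leaf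 (P := Itm.ok 206) (iqb tp359_c)) (BT.Fa_leaf (P := Itm.ok 206) (iqf tp364_c)))))) (BT.Fa_mk (BT.Fa_mk (BT.Fa_mk (BT.Fa_mk (BT.Fa_mk (BT.Fa_leaf (P := Itm.ok 206) (iqb tp364_c)) (BT.Fa_leaf (P := Itm.ok 206) (iqb tp507_c))) (BT.Fa_leaf (P := Itm.ok 206) (iqf tp312_c))) (BT.Fa_mk (BT.Fa_leaf (P := Itm.ok 206) (iqf tp961_c)) (BT.Fa_leaf (P := Itm.ok 206) (iqf tp347_c)))) (BT.Fa_mk (BT.Fa_mk (BT.Fa_leaf (P := Itm.ok 206) (iqb tp360_c)) (BT.Fa_leaf (P := Itm.ok 206) (iqf tp386_c))) (BT.Fa_mk (BT.Fa_leaf (P := Itm.ok 206) (iqb tp550_c)) (BT.Fa_leaf (P := Itm.ok 206) (iqf tp1082_c))))) (BT.Fa_mk (BT.Fa_mk (BT.Fa_mk (BT.Fa_leaf (P := Itm.ok 206) (iqb tp366_c)) (BT.Fa_leaf (P := Itm.ok 206) (iqf tp599_c))) (BT.Fa_mk (BT.Fa_leaf (P := Itm.ok 206) (iqf tp566_c))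 (BT.Fa_leaf (P := Itm.ok 206) (iqb tp363_c)))) (BT.Fa_mk (BT.Fa_mk (BT.Fa_leaf (P := Itm.ok 206) (iqf tp1085_c)) (BT.Fa_leaf (P := Itm.ok 206) (iqf tp542_c))) (BT.Fa_mk (BT.Fa_leaf (P := Itm.ok 206) (iqf tp509_c)) (BT.Fa_leaf (P := Itm.ok 206) (iqb tp1092_c)))))))) (BT.Fa_mk (BT.Fa_mk (BT.Fa_mk (BT.Fa_mk (BT.Fa_mk (BT.Fa_mk (BT.Fa_mk (BT.Fa_leaf (P := Itm.ok 206) (iqf tp557_c)) (BT.Fa_leaf (P := Itm.ok 206) (iqb tp1117_c))) (BT.Fa_leaf (P := Itm.ok 206) (iqb tp1118_c))) (BT.Fa_mk (BT.Fa_leaf (P := Itm.ok 206) (iqf tp596_c)) (BT.Fa_leaf (P := Itm.ok 206) (iqb tp546_c)))) (BT.Fa_mk (BT.Fa_mk (BT.Fa_leaf (P := Itm.ok 206) (iqf tp547_c)) (BT.Fa_leaf (P := Itm.ok 206) (iqb tp1080_c))) (BT.Fa_mk (BT.Fa_leaf (P := Itm.ok 206) (iqb tp495_c)) (BT.Fa_leaf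 (P := Itm.ok 206) (iqf tp1088_c))))) (BT.Fa_mk (BT.Fa_mk (BT.Fa_mk (BT.Fa_mk (BT.Fa_leaf (P := Itm.ok 206) (iqb tp1093_c)) (BT.Fa_leaf (P := Itm.ok 206) (iqf tp300_c))) (BT.Fa_leaf (P := Itm.ok 206) (iqf tp398_c))) (BT.Fa_mk (BT.Fa_leaf (P := Itm.ok 206) (iqb tp1103_c)) (BT.Fa_leaf (P := Itm.ok 206) (iqf tp450_c)))) (BT.Fa_mk (BT.Fa_mk (BT.Fa_leaf (P := Itm.ok 206) (iqf tp527_c)) (BT.Fa_leaf (P := Itm.ok 206) (iqf tp1065_c))) (BT.Fa_mk (BT.Fa_leaf (P := Itm.ok 206) (iqb tp501_c)) (BT.Fa_leaf (P := Itm.ok 206) (iqf tp504_c)))))) (BT.Fa_mk (BT.Fa_mk (BT.Fa_mk (BT.Fa_mk (BT.Fa_mk (BT.Fa_leaf (P := Itm.ok 206) (iqf tp1119_c)) (BT.Fa_leaf (P := Itm.ok 206) (iqf tp361_c))) (BT.Fa_leaf (P := Itm.ok 206) (iqf tp996_c))) (BT.Fa_mk (BT.Fa_leaf (P := Itm.ok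 206) (iqb tp554_c)) (BT.Fa_leaf (P := Itm.ok 206) (iqf tp534_c)))) (BT.Fa_mk (BT.Fa_mk (BT.Fa_leaf (P := Itm.ok 206) (iqb tp555_c)) (BT.Fa_leaf (P := Itm.ok 206) (iqf tp602_c))) (BT.Fa_mk (BT.Fa_leaf (P := Itm.ok 206) (iqf tp494_c)) (BT.Fa_leaf (P := Itm.ok 206) (iqb tp542_c))))) (BT.Fa_mk (BT.Fa_mk (BT.Fa_mk (BT.Fa_mk (BT.Fa_leaf (P := Itm.ok 206) (iqb tp528_c)) (BT.Fa_leaf (P := Itm.ok 206) (iqf tp541_c))) (BT.Fa_leaf (P := Itm.ok 206) (iqb tp559_c))) (BT.Fa_mk (BT.Fa_leaf (P := Itm.ok 206) (iqf tp319_c)) (BT.Fa_leaf (P := Itm.ok 206) (iqf tp552_c)))) (BT.Fa_mk (BT.Fa_mk (BT.Fa_leaf (P := Itm.ok 206) (iqb tp340_c)) (BT.Fa_leaf (P := Itm.ok 206) (iqf tp528_c))) (BT.Fa_mk (BT.Fa_leaf (P := Itm.ok 206) (iqf tp525_c)) (BT.Fa_leaf (P := Itm.ok 206)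 (iqf tp789_c))))))) (BT.Fa_mk (BT.Fa_mk (BT.Fa_mk (BT.Fa_mk (BT.Fa_mk (BT.Fa_mk (BT.Fa_leaf (P := Itm.ok 206) (iqf tp563_c)) (BT.Fa_leaf (P := Itm.ok 206) (iqb tp295_c))) (BT.Fa_leaf (P := Itm.ok 206) (iqf tp551_c))) (BT.Fa_mk (BT.Fa_leaf (P := Itm.ok 206) (iqb tp519_c)) (BT.Fa_leaf (P := Itm.ok 206) (iqb tp320_c)))) (BT.Fa_mk (BT.Fa_mk (BT.Fa_leaf (P := Itm.ok 206) (iqf tp404_c)) (BT.Fa_leaf (P := Itm.ok 206) (iqb tp562_c))) (BT.Fa_mk (BT.Fa_leaf (P := Itm.ok 206) (iqf tp296_c)) (BT.Fa_leaf (P := Itm.ok 206) (iqb tp445_c))))) (BT.Fa_mk (BT.Fa_mk (BT.Fa_mk (BT.Fa_mk (BT.Fa_leaf (P := Itm.ok 206) (iqf tp1000_c)) (BT.Fa_leaf (P := Itm.ok 206) (iqf tp610_c))) (BT.Fa_leaf (P := Itm.ok 206) (iqb tp1109_c))) (BT.Fa_mk (BT.Fa_leaf (P := Itm.ok 206) (iqb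 tp568_c)) (BT.Fa_leaf (P := Itm.ok 206) (iqb tp1120_c)))) (BT.Fa_mk (BT.Fa_mk (BT.Fa_leaf (P := Itm.ok 206) (iqb tp461_c)) (BT.Fa_leaf (P := Itm.ok 206) (iqf tp388_c))) (BT.Fa_mk (BT.Fa_leaf (P := Itm.ok 206) (iqf tp1121_c)) (BT.Fa_leaf (P := Itm.ok 206) (iqb tp1122_c)))))) (BT.Fa_mk (BT.Fa_mk (BT.Fa_mk (BT.Fa_mk (BT.Fa_mk (BT.Fa_leaf (P := Itm.ok 206) (iqf tp417_c)) (BT.Fa_leaf (P := Itm.ok 206) (iqb tp1123_c))) (BT.Fa_leaf (P := Itm.ok 206) (iqb tp423_c))) (BT.Fa_mk (BT.Fa_leaf (P := Itm.ok 206) (iqf tp289_c)) (BT.Fa_leaf (P := Itm.ok 206) (iqb tp567_c)))) (BT.Fa_mk (BT.Fa_mk (BT.Fa_leaf (P := Itm.ok 206) (iqf tp572_c)) (BT.Fa_leaf (P := Itm.ok 206) (iqb tp961_c))) (BT.Fa_mk (BT.Fa_leaf (P := Itm.ok 206) (iqf tp442_c)) (BT.Fa_leaf (P := Itm.ok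 206) (iqb tp522_c))))) (BT.Fa_mk (BT.Fa_mk (BT.Fa_mk (BT.Fa_leaf (P := Itm.ok 206) (iqf tp377_c)) (BT.Fa_leaf (P := Itm.ok 206) (iqf tp573_c))) (BT.Fa_mk (BT.Fa_leaf (P := Itm.ok 206) (iqb tp682_c)) (BT.Fa_leaf (P := Itm.ok 206) (iqb tp339_c)))) (BT.Fa_mk (BT.Fa_mk (BT.Fa_leaf (P := Itm.ok 206) (iqb tp517_c)) (BT.Fa_leaf (P := Itm.ok 206) (iqf tp946_c))) (BT.Fa_mk (BT.Fa_leaf (P := Itm.ok 206) (iqb tp1017_c)) (BT.Fa_leaf (P := Itm.ok 206) (iqb tp1105_c)))))))))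

/-- all words of the class have labels -/
theorem pokNFzAzAzEyA2Ax3xA2AyEzAzAyF : POK 206 xNFzAzAzEyA2Ax3xA2AyEzAzAyF :=
  y_pok (C0 := ceNFzAzAzEyA2Ax3xA2AyEzAzAyF) (C1 := coNFzAzAzEyA2Ax3xA2AyEzAzAyF) topNFzAzAzEyA2Ax3xA2AyEzAzAyF nbNFzAzAzEyA2Ax3xA2AyEzAzAyF (BT.Fa_of_all iiNFzAzAzEyA2Ax3xA2AyEzAzAyF_c)
    (cyE_spec zeNFzAzAzEyA2Ax3xA2AyEzAzAyF_0)
    (cyO_spec zoNFzAzAzEyA2Ax3xA2AyEzAzAyF_0)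
    iiNFzAzAzEyA2Ax3xA2AyEzAzAyF_k

theorem iiNFzAzAzEyA2Ax3xA2AyEzAzAzF_k : iiNFzAzAzEyA2Ax3xA2AyEzAzAzF.Fa (Itm.ok 206) := (BT.Fa_mk (BT.Fa_mk (BT.Fa_mk (BT.Fa_mk (BT.Fa_mk (BT.Fa_mk (BT.Fa_mk (BT.Fa_leaf (P := Itm.ok 206) (iqf tp368_c)) (BT.Fa_leaf (P := Itm.ok 206) (iqb tp368_c))) (BT.Fa_mk (BT.Fa_leaf (P := Itm.ok 206) (iqb tp320_c)) (BT.Fa_leaf (P := Itm.ok 206) (iqb tp603_c)))) (BT.Fa_mk (BT.Fa_mk (BT.Fa_leaf (P := Itm.ok 206) (iqf tp292_c)) (BT.Fa_leaf (P := Itm.ok 206) (iqf tp392_c))) (BT.Fa_mk (BT.Fa_leaf (P := Itm.ok 206) (iqf tp326_c)) (BT.Fa_leaf (P := Itm.ok 206) (iqb tp326_c))))) (BT.Fa_mk (BT.Fa_mk (BT.Fa_mk (BT.Fa_leaf (P := Itm.ok 206) (iqb tp609_c)) (BT.Fa_leaf (P := Itm.ok 206) (iqf tp300_c))) (BT.Fa_mk (BT.Fa_leaf (P := Itm.ok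 206) (iqf tp961_c)) (BT.Fa_leaf (P := Itm.ok 206) (iqf tp478_c)))) (BT.Fa_mk (BT.Fa_mk (BT.Fa_leaf (P := Itm.ok 206) (iqb tp614_c)) (BT.Fa_leaf (P := Itm.ok 206) (iqf tp484_c))) (BT.Fa_leaf (P := Itm.ok 206) (iqb tp484_c))))) (BT.Fa_mk (BT.Fa_mk (BT.Fa_mk (BT.Fa_mk (BT.Fa_leaf (P := Itm.ok 206) (iqf tp526_c)) (BT.Fa_leaf (P := Itm.ok 206) (iqb tp1187_c))) (BT.Fa_mk (BT.Fa_leaf (P := Itm.ok 206) (iqb tp334_c)) (BT.Fa_leaf (P := Itm.ok 206) (iqb tp721_c)))) (BT.Fa_mk (BT.Fa_mk (BT.Fa_leaf (P := Itm.ok 206) (iqf tp490_c)) (BT.Fa_leaf (P := Itm.ok 206) (iqb tp490_c))) (BT.Fa_mk (BT.Fa_leaf (P := Itm.ok 206) (iqf tp378_c)) (BT.Fa_leaf (P := Itm.ok 206) (iqf tp341_c))))) (BT.Fa_mk (BT.Fa_mk (BT.Fa_mk (BT.Fa_leaf (P := Itm.ok 206) (iqb tp341_c)) (BT.Fa_leaf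 (P := Itm.ok 206) (iqf tp342_c))) (BT.Fa_mk (BT.Fa_leaf (P := Itm.ok 206) (iqb tp342_c)) (BT.Fa_leaf (P := Itm.ok 206) (iqf tp850_c)))) (BT.Fa_mk (BT.Fa_mk (BT.Fa_leaf (P := Itm.ok 206) (iqf tp399_c)) (BT.Fa_leaf (P := Itm.ok 206) (iqf tp369_c))) (BT.Fa_leaf (P := Itm.ok 206) (iqf tp401_c)))))) (BT.Fa_mk (BT.Fa_mk (BT.Fa_mk (BT.Fa_mk (BT.Fa_mk (BT.Fa_leaf (P := Itm.ok 206) (iqb tp289_c)) (BT.Fa_leaf (P := Itm.ok 206) (iqb tp440_c))) (BT.Fa_mk (BT.Fa_leaf (P := Itm.ok 206) (iqb tp533_c)) (BT.Fa_leaf (P := Itm.ok 206) (iqb tp535_c)))) (BT.Fa_mk (BT.Fa_mk (BT.Fa_leaf (P := Itm.ok 206) (iqb tp372_c)) (BT.Fa_leaf (P := Itm.ok 206) (iqb tp553_c))) (BT.Fa_mk (BT.Fa_leaf (P := Itm.ok 206) (iqf tp531_c)) (BT.Fa_leaf (P := Itm.ok 206) (iqb tp531_c))))) (BT.Fa_mk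 (BT.Fa_mk (BT.Fa_mk (BT.Fa_leaf (P := Itm.ok 206) (iqf tp447_c)) (BT.Fa_leaf (P := Itm.ok 206) (iqb tp447_c))) (BT.Fa_mk (BT.Fa_leaf (P := Itm.ok 206) (iqf tp525_c)) (BT.Fa_leaf (P := Itm.ok 206) (iqb tp525_c)))) (BT.Fa_mk (BT.Fa_mk (BT.Fa_leaf (P := Itm.ok 206) (iqf tp524_c)) (BT.Fa_leaf (P := Itm.ok 206) (iqb tp524_c))) (BT.Fa_leaf (P := Itm.ok 206) (iqf tp403_c))))) (BT.Fa_mk (BT.Fa_mk (BT.Fa_mk (BT.Fa_mk (BT.Fa_leaf (P := Itm.ok 206) (iqb tp403_c)) (BT.Fa_leaf (P := Itm.ok 206) (iqf tp499_c))) (BT.Fa_mk (BT.Fa_leaf (P := Itm.ok 206) (iqf tp541_c)) (BT.Fa_leaf (P := Itm.ok 206) (iqb tp1091_c)))) (BT.Fa_mk (BT.Fa_mk (BT.Fa_leaf (P := Itm.ok 206) (iqf tp536_c)) (BT.Fa_leaf (P := Itm.ok 206) (iqb tp558_c))) (BT.Fa_leaf (P := Itm.ok 206) (iqf tp405_c))))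 (BT.Fa_mk (BT.Fa_mk (BT.Fa_mk (BT.Fa_leaf (P := Itm.ok 206) (iqf tp554_c)) (BT.Fa_leaf (P := Itm.ok 206) (iqb tp1092_c))) (BT.Fa_mk (BT.Fa_leaf (P := Itm.ok 206) (iqb tp559_c)) (BT.Fa_leaf (P := Itm.ok 206) (iqf tp534_c)))) (BT.Fa_mk (BT.Fa_mk (BT.Fa_leaf (P := Itm.ok 206) (iqb tp477_c)) (BT.Fa_leaf (P := Itm.ok 206) (iqb tp376_c))) (BT.Fa_leaf (P := Itm.ok 206) (iqf tp527_c))))))) (BT.Fa_mk (BT.Fa_mk (BT.Fa_mk (BT.Fa_mk (BT.Fa_mk (BT.Fa_mk (BT.Fa_leaf (P := Itm.ok 206) (iqf tp543_c)) (BT.Fa_leaf (P := Itm.ok 206) (iqf tp351_c))) (BT.Fa_mk (BT.Fa_leaf (P := Itm.ok 206) (iqf tp353_c)) (BT.Fa_leaf (P := Itm.ok 206) (iqb tp687_c)))) (BT.Fa_mk (BT.Fa_mk (BT.Fa_leaf (P := Itm.ok 206) (iqb tp555_c)) (BT.Fa_leaf (P := Itm.ok 206) (iqf tp371_c))) (BT.Fa_mk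 (BT.Fa_leaf (P := Itm.ok 206) (iqb tp371_c)) (BT.Fa_leaf (P := Itm.ok 206) (iqb tp1412_c))))) (BT.Fa_mk (BT.Fa_mk (BT.Fa_mk (BT.Fa_leaf (P := Itm.ok 206) (iqb tp1413_c)) (BT.Fa_leaf (P := Itm.ok 206) (iqf tp411_c))) (BT.Fa_mk (BT.Fa_leaf (P := Itm.ok 206) (iqb tp435_c)) (BT.Fa_leaf (P := Itm.ok 206) (iqb tp538_c)))) (BT.Fa_mk (BT.Fa_mk (BT.Fa_leaf (P := Itm.ok 206) (iqb tp359_c)) (BT.Fa_leaf (P := Itm.ok 206) (iqb tp360_c))) (BT.Fa_leaf (P := Itm.ok 206) (iqf tp361_c))))) (BT.Fa_mk (BT.Fa_mk (BT.Fa_mk (BT.Fa_mk (BT.Fa_leaf (P := Itm.ok 206) (iqb tp361_c)) (BT.Fa_leaf (P := Itm.ok 206) (iqf tp375_c))) (BT.Fa_mk (BT.Fa_leaf (P := Itm.ok 206) (iqb tp1073_c)) (BT.Fa_leaf (P := Itm.ok 206) (iqf tp364_c)))) (BT.Fa_mk (BT.Fa_mk (BT.Fa_leaf (P := Itm.ok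 206) (iqb tp364_c)) (BT.Fa_leaf (P := Itm.ok 206) (iqf tp386_c))) (BT.Fa_leaf (P := Itm.ok 206) (iqb tp542_c)))) (BT.Fa_mk (BT.Fa_mk (BT.Fa_mk (BT.Fa_leaf (P := Itm.ok 206) (iqf tp509_c)) (BT.Fa_leaf (P := Itm.ok 206) (iqf tp366_c))) (BT.Fa_mk (BT.Fa_leaf (P := Itm.ok 206) (iqb tp366_c)) (BT.Fa_leaf (P := Itm.ok 206) (iqf tp596_c)))) (BT.Fa_mk (BT.Fa_mk (BT.Fa_leaf (P := Itm.ok 206) (iqf tp542_c)) (BT.Fa_leaf (P := Itm.ok 206) (iqf tp504_c))) (BT.Fa_leaf (P := Itm.ok 206) (iqb tp546_c)))))) (BT.Fa_mk (BT.Fa_mk (BT.Fa_mk (BT.Fa_mk (BT.Fa_mk (BT.Fa_leaf (P := Itm.ok 206) (iqf tp552_c)) (BT.Fa_leaf (P := Itm.ok 206) (iqf tp473_c))) (BT.Fa_mk (BT.Fa_leaf (P := Itm.ok 206) (iqf tp350_c)) (BT.Fa_leaf (P := Itm.ok 206) (iqf tp600_c)))) (BT.Fa_mk (BT.Fa_mk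 (BT.Fa_leaf (P := Itm.ok 206) (iqf tp319_c)) (BT.Fa_leaf (P := Itm.ok 206) (iqb tp351_c))) (BT.Fa_mk (BT.Fa_leaf (P := Itm.ok 206) (iqb tp532_c)) (BT.Fa_leaf (P := Itm.ok 206) (iqf tp547_c))))) (BT.Fa_mk (BT.Fa_mk (BT.Fa_mk (BT.Fa_leaf (P := Itm.ok 206) (iqb tp554_c)) (BT.Fa_leaf (P := Itm.ok 206) (iqb tp1103_c))) (BT.Fa_mk (BT.Fa_leaf (P := Itm.ok 206) (iqf tp432_c)) (BT.Fa_leaf (P := Itm.ok 206) (iqf tp612_c)))) (BT.Fa_mk (BT.Fa_mk (BT.Fa_leaf (P := Itm.ok 206) (iqb tp1105_c)) (BT.Fa_leaf (P := Itm.ok 206) (iqb tp1414_c))) (BT.Fa_leaf (P := Itm.ok 206) (iqb tp419_c))))) (BT.Fa_mk (BT.Fa_mk (BT.Fa_mk (BT.Fa_mk (BT.Fa_leaf (P := Itm.ok 206) (iqf tp404_c)) (BT.Fa_leaf (P := Itm.ok 206) (iqb tp606_c))) (BT.Fa_mk (BT.Fa_leaf (P := Itm.ok 206) (iqb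 tp519_c)) (BT.Fa_leaf (P := Itm.ok 206) (iqb tp1415_c)))) (BT.Fa_mk (BT.Fa_mk (BT.Fa_leaf (P := Itm.ok 206) (iqf tp1416_c)) (BT.Fa_leaf (P := Itm.ok 206) (iqf tp653_c))) (BT.Fa_leaf (P := Itm.ok 206) (iqb tp378_c)))) (BT.Fa_mk (BT.Fa_mk (BT.Fa_mk (BT.Fa_leaf (P := Itm.ok 206) (iqf tp444_c)) (BT.Fa_leaf (P := Itm.ok 206) (iqb tp1123_c))) (BT.Fa_mk (BT.Fa_leaf (P := Itm.ok 206) (iqf tp1068_c)) (BT.Fa_leaf (P := Itm.ok 206) (iqb tp897_c)))) (BT.Fa_mk (BT.Fa_mk (BT.Fa_leaf (P := Itm.ok 206) (iqf tp1264_c)) (BT.Fa_leaf (P := Itm.ok 206) (iqf tp1417_c))) (BT.Fa_leaf (P := Itm.ok 206) (iqb tp568_c))))))))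

/-- all words of the class have labels -/
theorem pokNFzAzAzEyA2Ax3xA2AyEzAzAzF : POK 206 xNFzAzAzEyA2Ax3xA2AyEzAzAzF :=
  y_pok (C0 := ceNFzAzAzEyA2Ax3xA2AyEzAzAzF) (C1 := coNFzAzAzEyA2Ax3xA2AyEzAzAzF) topNFzAzAzEyA2Ax3xA2AyEzAzAzF nbNFzAzAzEyA2Ax3xA2AyEzAzAzF (BT.Fa_of_all iiNFzAzAzEyA2Ax3xA2AyEzAzAzF_c)
    (cyE_spec zeNFzAzAzEyA2Ax3xA2AyEzAzAzF_0)
    (cyO_spec zoNFzAzAzEyA2Ax3xA2AyEzAzAzF_0)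
    iiNFzAzAzEyA2Ax3xA2AyEzAzAzF_k


end MPb6P
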