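import Pool.Agent.Lib.MP_b6d339_lc.Cw.YFzAzE2A2Ax3xA2A2EzAzF
import Pool.Agent.Lib.MP_b6d339_lc.Cw.XL
import Pool.Agent.Lib.MP_b6d339_lc.Cw.T10
import Pool.Agent.Lib.MP_b6d339_lc.Cw.T11
import Pool.Agent.Lib.MP_b6d339_lc.Cw.T12
import Pool.Agent.Lib.MP_b6d339_lc.Cw.T13
import Pool.Agent.Lib.MP_b6d339_lc.Cw.T14
import Pool.Agent.Lib.MP_b6d339_lc.Cw.T15
import Pool.Agent.Lib.MP_b6d339_lc.Cw.T16
import Pool.Agent.Lib.MP_b6d339_lc.Cw.T17
import Pool.Agent.Lib.MP_b6d339_lc.Cw.T3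
import Pool.Agent.Lib.MP_b6d339_lc.Cw.T4
import Pool.Agent.Lib.MP_b6d339_lc.Cw.T5
import Pool.Agent.Lib.MP_b6d339_lc.Cw.T6
import Pool.Agent.Lib.MP_b6d339_lc.Cw.T7
import Pool.Agent.Lib.MP_b6d339_lc.Cw.T8
import Pool.Agent.Lib.MP_b6d339_lc.Cw.T9

/-!
# Erdős 592, three levels: items
-/

namespace MPb6P

noncomputable def iiNFzAzE2A2Ax3xA2A2EzAzF : BT Itm := (.node (.node (.node (.node (.node (.node (.node (.node (.leaf (.fwd 0 13 tp355.df)) (.leaf (.bwd 13 13 tp355.df))) (.leaf (.fwd 26 43 tp524.df))) (.node (.node (.leaf (.bwd 69 43 tp524.df)) (.leaf (.fwd 112 37 tp525.df))) (.leaf (.bwd 149 37 tp525.df)))) (.node (.node (.node (.leaf (.bwd 186 21 tp295.df)) (.leaf (.fwd 207 23 tp399.df))) (.leaf (.fwd 230 19 tp371.df))) (.node (.leaf (.bwd 249 19 tp371.df)) (.leaf (.fwd 268 35 tp403.df))))) (.node (.node (.node (.node (.leaf (.bwd 303 35 tp403.df)) (.leaf (.fwd 338 23 tp292.df)))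 (.leaf (.fwd 361 21 tp424.df))) (.node (.node (.leaf (.fwd 382 19 tp326.df)) (.leaf (.bwd 401 27 tp331.df))) (.leaf (.bwd 428 25 tp1250.df)))) (.node (.node (.node (.leaf (.fwd 453 45 tp490.df)) (.leaf (.bwd 498 29 tp477.df))) (.leaf (.fwd 527 28 tp342.df))) (.node (.leaf (.bwd 555 28 tp342.df)) (.leaf (.bwd 583 22 tp334.df)))))) (.node (.node (.node (.node (.node (.leaf (.fwd 605 32 tp368.df)) (.leaf (.bwd 637 31 tp530.df))) (.leaf (.fwd 668 27 tp341.df))) (.node (.node (.leaf (.bwd 695 27 tp341.df)) (.leaf (.fwd 722 28 tp344.df))) (.leaf (.fwd 750 43 tp531.df)))) (.node (.node (.node (.leaf (.bwd 793 43 tp531.df)) (.leaf (.fwd 836 25 tp319.df))) (.leaf (.fwd 861 19 tp405.df))) (.node (.leaf (.fwd 880 22 tp378.df)) (.leaf (.bwd 902 40 tp351.df))))) (.node (.node (.node (.node (.leaf (.fwd 942 37 tp532.df)) (.leaf (.fwd 979 29 tp484.df))) (.leaf (.bwd 1008 29 tp484.df))) (.node (.node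 (.leaf (.fwd 1037 46 tp552.df)) (.leaf (.bwd 1083 32 tp533.df))) (.leaf (.fwd 1115 27 tp510.df)))) (.node (.node (.node (.leaf (.bwd 1142 30 tp1184.df)) (.leaf (.bwd 1172 37 tp372.df))) (.leaf (.fwd 1209 41 tp1162.df))) (.node (.leaf (.bwd 1250 34 tp501.df)) (.leaf (.bwd 1284 31 tp349.df))))))) (.node (.node (.node (.node (.node (.node (.leaf (.fwd 1315 34 tp499.df)) (.leaf (.bwd 1349 38 tp356.df))) (.leaf (.bwd 1387 40 tp554.df))) (.node (.node (.leaf (.fwd 1427 41 tp534.df)) (.leaf (.bwd 1468 46 tp558.df))) (.leaf (.fwd 1514 29 tp504.df)))) (.node (.node (.node (.leaf (.bwd 1543 34 tp855.df)) (.leaf (.bwd 1577 24 tp810.df))) (.leaf (.fwd 1601 39 tp853.df))) (.node (.leaf (.fwd 1640 40 tp784.df)) (.leaf (.fwd 1680 30 tp299.df))))) (.node (.node (.node (.node (.leaf (.bwd 1710 28 tp385.df)) (.leaf (.fwd 1738 22 tp536.df))) (.leaf (.fwd 1760 38 tp348.df))) (.node (.node (.leaf (.bwd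 1798 23 tp426.df)) (.leaf (.fwd 1821 27 tp1418.df))) (.leaf (.fwd 1848 32 tp616.df)))) (.node (.node (.node (.leaf (.fwd 1880 36 tp350.df)) (.leaf (.fwd 1916 33 tp861.df))) (.leaf (.bwd 1949 35 tp359.df))) (.node (.leaf (.bwd 1984 25 tp361.df)) (.leaf (.fwd 2009 44 tp364.df)))))) (.node (.node (.node (.node (.node (.leaf (.bwd 2053 44 tp364.df)) (.leaf (.bwd 2097 19 tp327.df))) (.leaf (.fwd 2116 23 tp335.df))) (.node (.node (.leaf (.fwd 2139 25 tp312.df)) (.leaf (.bwd 2164 32 tp340.df))) (.leaf (.fwd 2196 30 tp289.df)))) (.node (.node (.node (.leaf (.fwd 2226 28 tp388.df)) (.leaf (.fwd 2254 27 tp330.df))) (.leaf (.fwd 2281 22 tp1000.df))) (.node (.leaf (.fwd 2303 25 tp347.df)) (.leaf (.bwd 2328 37 tp376.df))))) (.node (.node (.node (.node (.leaf (.fwd 2365 24 tp353.df)) (.leaf (.bwd 2389 37 tp358.df))) (.leaf (.bwd 2426 35 tp360.df))) (.node (.leaf (.bwd 2461 22 tp339.df)) (.leaf (.bwd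 2483 34 tp1256.df)))) (.node (.node (.node (.leaf (.bwd 2517 15 tp1149.df)) (.leaf (.bwd 2532 28 tp555.df))) (.leaf (.fwd 2560 15 tp1213.df))) (.node (.leaf (.fwd 2575 24 tp1091.df)) (.leaf (.bwd 2599 24 tp1091.df)))))))) (.node (.node (.node (.node (.node (.node (.node (.leaf (.fwd 2623 16 tp485.df)) (.leaf (.fwd 2639 23 tp366.df))) (.leaf (.bwd 2662 33 tp1169.df))) (.node (.node (.leaf (.bwd 2695 46 tp632.df)) (.leaf (.fwd 2741 22 tp789.df))) (.leaf (.fwd 2763 24 tp693.df)))) (.node (.node (.node (.leaf (.fwd 2787 19 tp478.df)) (.leaf (.fwd 2806 26 tp882.df))) (.leaf (.bwd 2832 29 tp1108.df))) (.node (.leaf (.fwd 2861 35 tp541.df)) (.leaf (.bwd 2896 27 tp1269.df))))) (.node (.node (.node (.node (.leaf (.fwd 2923 22 tp1135.df)) (.leaf (.fwd 2945 28 tp496.df))) (.leaf (.fwd 2973 34 tp494.df))) (.node (.node (.leaf (.fwd 3007 27 tp542.df)) (.leaf (.bwd 3034 27 tp542.df))) (.leaf (.fwd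 3061 29 tp509.df)))) (.node (.node (.node (.leaf (.fwd 3090 23 tp543.df)) (.leaf (.bwd 3113 30 tp1092.df))) (.leaf (.bwd 3143 16 tp650.df))) (.node (.leaf (.fwd 3159 37 tp557.df)) (.leaf (.bwd 3196 32 tp1261.df)))))) (.node (.node (.node (.node (.node (.leaf (.bwd 3228 42 tp559.df)) (.leaf (.fwd 3270 25 tp610.df))) (.leaf (.bwd 3295 37 tp491.df))) (.node (.node (.leaf (.bwd 3332 39 tp623.df)) (.leaf (.fwd 3371 25 tp596.df))) (.leaf (.bwd 3396 42 tp546.df)))) (.node (.node (.node (.leaf (.fwd 3438 33 tp547.df)) (.leaf (.fwd 3471 35 tp444.df))) (.leaf (.pat 3506 pq100))) (.node (.leaf (.pat 3548 pq101)) (.leaf (.fwd 3588 29 tp1082.df))))) (.node (.node (.node (.node (.leaf (.fwd 3617 28 tp578.df)) (.leaf (.fwd 3645 40 tp1094.df))) (.leaf (.bwd 3685 35 tp1265.df))) (.node (.leaf (.fwd 3720 43 tp529.df)) (.leaf (.bwd 3763 29 tp599.df)))) (.node (.node (.node (.leaf (.bwd 3792 32 tp495.df))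 (.leaf (.fwd 3824 20 tp417.df))) (.leaf (.fwd 3844 23 tp526.df))) (.node (.leaf (.fwd 3867 40 tp351.df)) (.leaf (.bwd 3907 32 tp397.df))))))) (.node (.node (.node (.node (.node (.node (.leaf (.bwd 3939 29 tp504.df)) (.leaf (.bwd 3968 24 tp897.df))) (.leaf (.bwd 3992 30 tp1103.df))) (.node (.node (.leaf (.bwd 4022 34 tp1368.df)) (.leaf (.fwd 4056 23 tp1318.df))) (.leaf (.bwd 4079 45 tp561.df)))) (.node (.node (.node (.leaf (.fwd 4124 25 tp436.df)) (.leaf (.bwd 4149 29 tp398.df))) (.leaf (.bwd 4178 18 tp461.df))) (.node (.leaf (.fwd 4196 32 tp563.df)) (.leaf (.bwd 4228 20 tp614.df))))) (.node (.node (.node (.node (.leaf (.bwd 4248 34 tp1010.df)) (.leaf (.bwd 4282 43 tp568.df))) (.leaf (.fwd 4325 27 tp1068.df))) (.node (.node (.leaf (.bwd 4352 11 tp290.df)) (.leaf (.fwd 4363 20 tp450.df))) (.leaf (.fwd 4383 26 tp432.df)))) (.node (.node (.node (.leaf (.fwd 4409 32 tp1200.df)) (.leaf (.bwd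 4441 23 tp320.df))) (.leaf (.bwd 4464 29 tp519.df))) (.node (.leaf (.bwd 4493 23 tp366.df)) (.leaf (.bwd 4516 22 tp378.df)))))) (.node (.node (.node (.node (.node (.leaf (.bwd 4538 17 tp1109.df)) (.leaf (.fwd 4555 30 tp571.df))) (.leaf (.bwd 4585 15 tp318.df))) (.node (.node (.leaf (.bwd 4600 27 tp445.df)) (.leaf (.bwd 4627 28 tp1419.df))) (.leaf (.fwd 4655 27 tp686.df)))) (.node (.node (.node (.leaf (.bwd 4682 30 tp1065.df)) (.leaf (.fwd 4712 11 tp1420.df))) (.leaf (.bwd 4723 39 tp1143.df))) (.node (.leaf (.bwd 4762 20 tp1355.df)) (.leaf (.bwd 4782 9 tp1009.df))))) (.node (.node (.node (.node (.leaf (.pat 4791 pq102)) (.leaf (.pat 4845 pq103))) (.leaf (.bwd 4893 29 tp944.df))) (.node (.leaf (.fwd 4922 25 tp392.df)) (.leaf (.bwd 4947 37 tp532.df)))) (.node (.node (.node (.leaf (.fwd 4984 19 tp404.df)) (.leaf (.fwd 5003 25 tp488.df))) (.leaf (.pat 5028 pq104))) (.node (.leaf (.bwd 5072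 14 tp1057.df)) (.leaf (.fwd 5086 19 tp1180.df)))))))))

theorem iiNFzAzE2A2Ax3xA2A2EzAzF_c : iiNFzAzE2A2Ax3xA2A2EzAzF.all (itB (ng 46 nnNFzAzE2A2Ax3xA2A2EzAzF)) = true := by decide +kernel
theorem nbNFzAzE2A2Ax3xA2A2EzAzF : nbB 46 5151 nnNFzAzE2A2Ax3xA2A2EzAzF = true := by decide +kernel
theorem topNFzAzE2A2Ax3xA2A2EzAzF : topY 5151 ttNFzAzE2A2Ax3xA2A2EzAzF ceNFzAzE2A2Ax3xA2A2EzAzF xNFzAzE2A2Ax3xA2A2EzAzF iiNFzAzE2A2Ax3xA2A2EzAzF = true := by decide +kernel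

end MPb6P
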