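import Pool.Agent.Lib.MP_b6d339_lc.Cw.YFzAzE2A2Ax3xA2AyEzAzF
import Pool.Agent.Lib.MP_b6d339_lc.Cw.XL
import Pool.Agent.Lib.MP_b6d339_lc.Cw.T10
import Pool.Agent.Lib.MP_b6d339_lc.Cw.T12
import Pool.Agent.Lib.MP_b6d339_lc.Cw.T13
import Pool.Agent.Lib.MP_b6d339_lc.Cw.T14
import Pool.Agent.Lib.MP_b6d339_lc.Cw.T15
import Pool.Agent.Lib.MP_b6d339_lc.Cw.T16
import Pool.Agent.Lib.MP_b6d339_lc.Cw.T17
import Pool.Agent.Lib.MP_b6d339_lc.Cw.T3
import Pool.Agent.Lib.MP_b6d339_lc.Cw.T4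
import Pool.Agent.Lib.MP_b6d339_lc.Cw.T5
import Pool.Agent.Lib.MP_b6d339_lc.Cw.T6
import Pool.Agent.Lib.MP_b6d339_lc.Cw.T7
import Pool.Agent.Lib.MP_b6d339_lc.Cw.T8

/-!
# Erdős 592, three levels: items
-/

namespace MPb6P

noncomputable def iiNFzAzE2A2Ax3xA2AyEzAzF : BT Itm := (.node (.node (.node (.node (.node (.node (.node (.node (.leaf (.bwd 0 13 tp355.df)) (.leaf (.fwd 13 43 tp524.df))) (.leaf (.fwd 56 18 tp461.df))) (.node (.leaf (.bwd 74 37 tp525.df)) (.leaf (.fwd 111 32 tp447.df)))) (.node (.node (.leaf (.fwd 143 23 tp399.df)) (.leaf (.fwd 166 19 tp371.df))) (.node (.leaf (.fwd 185 35 tp403.df)) (.leaf (.bwd 220 35 tp403.df))))) (.node (.node (.node (.node (.leaf (.fwd 255 23 tp292.df)) (.leaf (.fwd 278 19 tp326.df))) (.leaf (.bwd 297 19 tp326.df))) (.node (.leaf (.fwd 316 27 tp331.df)) (.leaf (.bwd 343 27 tp331.df)))) (.node (.node (.leaf (.fwd 370 45 tp490.df)) (.leaf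 (.fwd 415 29 tp477.df))) (.node (.leaf (.fwd 444 26 tp514.df)) (.leaf (.fwd 470 28 tp342.df)))))) (.node (.node (.node (.node (.node (.leaf (.bwd 498 28 tp342.df)) (.leaf (.fwd 526 22 tp334.df))) (.leaf (.bwd 548 22 tp334.df))) (.node (.leaf (.fwd 570 32 tp368.df)) (.leaf (.fwd 602 27 tp341.df)))) (.node (.node (.leaf (.bwd 629 27 tp341.df)) (.leaf (.fwd 656 43 tp531.df))) (.node (.leaf (.bwd 699 43 tp531.df)) (.leaf (.fwd 742 25 tp319.df))))) (.node (.node (.node (.leaf (.fwd 767 19 tp404.df)) (.leaf (.fwd 786 37 tp1157.df))) (.node (.leaf (.bwd 823 22 tp378.df)) (.leaf (.bwd 845 40 tp351.df)))) (.node (.node (.leaf (.fwd 885 29 tp484.df)) (.leaf (.bwd 914 32 tp533.df))) (.node (.leaf (.fwd 946 27 tp510.df)) (.leaf (.bwd 973 28 tp553.df))))))) (.node (.node (.node (.node (.node (.node (.leaf (.fwd 1001 28 tp578.df)) (.leaf (.bwd 1029 37 tp372.df))) (.leaf (.bwd 1066 34 tp501.df)))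 (.node (.leaf (.fwd 1100 34 tp499.df)) (.leaf (.fwd 1134 38 tp356.df)))) (.node (.node (.leaf (.bwd 1172 40 tp554.df)) (.leaf (.fwd 1212 41 tp534.df))) (.node (.leaf (.fwd 1253 29 tp504.df)) (.leaf (.fwd 1282 35 tp1119.df))))) (.node (.node (.node (.leaf (.bwd 1317 24 tp354.df)) (.leaf (.fwd 1341 48 tp375.df))) (.node (.leaf (.bwd 1389 36 tp1043.df)) (.leaf (.fwd 1425 36 tp350.df)))) (.node (.node (.leaf (.fwd 1461 25 tp361.df)) (.leaf (.bwd 1486 25 tp361.df))) (.node (.leaf (.fwd 1511 44 tp364.df)) (.leaf (.bwd 1555 14 tp653.df)))))) (.node (.node (.node (.node (.node (.leaf (.fwd 1569 25 tp312.df)) (.leaf (.fwd 1594 20 tp450.df))) (.leaf (.fwd 1614 19 tp401.df))) (.node (.leaf (.bwd 1633 25 tp433.df)) (.leaf (.bwd 1658 35 tp360.df)))) (.node (.node (.leaf (.fwd 1693 26 tp365.df)) (.leaf (.bwd 1719 32 tp407.df))) (.node (.leaf (.fwd 1751 12 tp1049.df)) (.leaf (.fwd 1763 29 tp511.df)))))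 (.node (.node (.node (.leaf (.bwd 1792 46 tp550.df)) (.leaf (.fwd 1838 39 tp590.df))) (.node (.leaf (.fwd 1877 32 tp539.df)) (.leaf (.bwd 1909 28 tp555.df)))) (.node (.node (.leaf (.fwd 1937 23 tp366.df)) (.leaf (.bwd 1960 37 tp410.df))) (.node (.leaf (.fwd 1997 42 tp1102.df)) (.leaf (.bwd 2039 34 tp609.df)))))))) (.node (.node (.node (.node (.node (.node (.node (.leaf (.bwd 2073 46 tp632.df)) (.leaf (.bwd 2119 28 tp395.df))) (.leaf (.bwd 2147 33 tp363.df))) (.node (.leaf (.fwd 2180 18 tp1421.df)) (.leaf (.bwd 2198 45 tp508.df)))) (.node (.node (.leaf (.fwd 2243 27 tp542.df)) (.leaf (.fwd 2270 29 tp509.df))) (.node (.leaf (.fwd 2299 23 tp543.df)) (.leaf (.fwd 2322 25 tp596.df))))) (.node (.node (.node (.node (.leaf (.bwd 2347 42 tp546.df)) (.leaf (.fwd 2389 35 tp444.df))) (.leaf (.bwd 2424 23 tp1080.df))) (.node (.leaf (.fwd 2447 28 tp1267.df)) (.leaf (.pat 2475 pq105)))) (.node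 (.node (.leaf (.bwd 2515 25 tp319.df)) (.leaf (.bwd 2540 18 tp662.df))) (.node (.leaf (.fwd 2558 55 tp600.df)) (.leaf (.bwd 2613 37 tp532.df)))))) (.node (.node (.node (.node (.node (.leaf (.fwd 2650 33 tp547.df)) (.leaf (.bwd 2683 45 tp490.df))) (.leaf (.fwd 2728 19 tp405.df))) (.node (.leaf (.fwd 2747 22 tp536.df)) (.leaf (.bwd 2769 15 tp595.df)))) (.node (.node (.leaf (.fwd 2784 43 tp529.df)) (.leaf (.fwd 2827 30 tp1065.df))) (.node (.leaf (.fwd 2857 30 tp289.df)) (.leaf (.bwd 2887 46 tp558.df))))) (.node (.node (.node (.leaf (.bwd 2933 33 tp606.df)) (.leaf (.fwd 2966 36 tp1061.df))) (.node (.leaf (.fwd 3002 23 tp526.df)) (.leaf (.bwd 3025 31 tp530.df)))) (.node (.node (.leaf (.fwd 3056 30 tp698.df)) (.leaf (.bwd 3086 42 tp559.df))) (.node (.leaf (.bwd 3128 43 tp524.df)) (.leaf (.bwd 3171 40 tp1385.df))))))) (.node (.node (.node (.node (.node (.node (.leaf (.fwd 3211 26 tp882.df))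 (.leaf (.fwd 3237 46 tp552.df))) (.leaf (.fwd 3283 41 tp1162.df))) (.node (.leaf (.fwd 3324 24 tp693.df)) (.leaf (.fwd 3348 37 tp557.df)))) (.node (.node (.leaf (.bwd 3385 17 tp1422.df)) (.leaf (.fwd 3402 38 tp348.df))) (.node (.leaf (.pat 3440 pq106)) (.leaf (.fwd 3482 40 tp351.df))))) (.node (.node (.node (.leaf (.fwd 3522 25 tp347.df)) (.leaf (.fwd 3547 31 tp386.df))) (.node (.leaf (.bwd 3578 23 tp426.df)) (.leaf (.fwd 3601 39 tp1143.df)))) (.node (.node (.leaf (.bwd 3640 38 tp1070.df)) (.leaf (.fwd 3678 25 tp436.df))) (.node (.leaf (.bwd 3703 29 tp1197.df)) (.leaf (.bwd 3732 41 tp1414.df)))))) (.node (.node (.node (.node (.node (.leaf (.bwd 3773 14 tp1050.df)) (.leaf (.bwd 3787 29 tp519.df))) (.leaf (.fwd 3816 25 tp1423.df))) (.node (.leaf (.bwd 3841 43 tp568.df)) (.leaf (.fwd 3884 20 tp1341.df)))) (.node (.node (.leaf (.fwd 3904 28 tp388.df)) (.leaf (.fwd 3932 20 tp614.df)))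 (.node (.leaf (.fwd 3952 25 tp610.df)) (.leaf (.bwd 3977 15 tp577.df))))) (.node (.node (.node (.leaf (.bwd 3992 29 tp452.df)) (.leaf (.bwd 4021 44 tp364.df))) (.node (.leaf (.bwd 4065 21 tp295.df)) (.leaf (.bwd 4086 33 tp981.df)))) (.node (.node (.leaf (.bwd 4119 18 tp607.df)) (.leaf (.bwd 4137 31 tp1424.df))) (.node (.leaf (.fwd 4168 23 tp377.df)) (.leaf (.fwd 4191 32 tp563.df)))))))))

theorem iiNFzAzE2A2Ax3xA2AyEzAzF_c : iiNFzAzE2A2Ax3xA2AyEzAzF.all (itB (ng 55 nnNFzAzE2A2Ax3xA2AyEzAzF)) = true := by decide +kernel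
theorem nbNFzAzE2A2Ax3xA2AyEzAzF : nbB 55 4278 nnNFzAzE2A2Ax3xA2AyEzAzF = true := by decide +kernel
theorem topNFzAzE2A2Ax3xA2AyEzAzF : topY 4278 ttNFzAzE2A2Ax3xA2AyEzAzF ceNFzAzE2A2Ax3xA2AyEzAzF xNFzAzE2A2Ax3xA2AyEzAzF iiNFzAzE2A2Ax3xA2AyEzAzF = true := by decide +kernel

end MPb6P
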