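import Pool.Agent.Lib.MP_b6d339_lc.Cw.YFzE2B3H2BzAyB3H3B2EzF
import Pool.Agent.Lib.MP_b6d339_lc.Cw.XL
import Pool.Agent.Lib.MP_b6d339_lc.Cw.T10
import Pool.Agent.Lib.MP_b6d339_lc.Cw.T11
import Pool.Agent.Lib.MP_b6d339_lc.Cw.T12
import Pool.Agent.Lib.MP_b6d339_lc.Cw.T13
import Pool.Agent.Lib.MP_b6d339_lc.Cw.T14
import Pool.Agent.Lib.MP_b6d339_lc.Cw.T15
import Pool.Agent.Lib.MP_b6d339_lc.Cw.T16
import Pool.Agent.Lib.MP_b6d339_lc.Cw.T17
import Pool.Agent.Lib.MP_b6d339_lc.Cw.T18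
import Pool.Agent.Lib.MP_b6d339_lc.Cw.T19
import Pool.Agent.Lib.MP_b6d339_lc.Cw.T20
import Pool.Agent.Lib.MP_b6d339_lc.Cw.T21
import Pool.Agent.Lib.MP_b6d339_lc.Cw.T22
import Pool.Agent.Lib.MP_b6d339_lc.Cw.T28
import Pool.Agent.Lib.MP_b6d339_lc.Cw.T29
import Pool.Agent.Lib.MP_b6d339_lc.Cw.T3
import Pool.Agent.Lib.MP_b6d339_lc.Cw.T4
import Pool.Agent.Lib.MP_b6d339_lc.Cw.T5
import Pool.Agent.Lib.MP_b6d339_lc.Cw.T6
import Pool.Agent.Lib.MP_b6d339_lc.Cw.T7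
import Pool.Agent.Lib.MP_b6d339_lc.Cw.T8
import Pool.Agent.Lib.MP_b6d339_lc.Cw.T9

/-!
# Erdős 592, three levels: items
-/

namespace MPb6P

noncomputable def iiNFzE2B3H2BzAyB3H3B2EzF : BT Itm := (.node (.node (.node (.node (.node (.node (.node (.node (.leaf (.bwd 0 13 tp1771.df)) (.leaf (.bwd 13 40 tp1800.df))) (.node (.leaf (.bwd 53 23 tp292.df)) (.leaf (.bwd 76 21 tp2277.df)))) (.node (.node (.leaf (.fwd 97 23 tp292.df)) (.leaf (.fwd 120 21 tp295.df))) (.leaf (.bwd 141 29 tp329.df)))) (.node (.node (.node (.leaf (.fwd 170 31 tp346.df)) (.leaf (.fwd 201 40 tp1658.df))) (.leaf (.bwd 241 37 tp532.df))) (.node (.node (.leaf (.fwd 278 23 tp322.df)) (.leaf (.bwd 301 26 tp514.df))) (.leaf (.bwd 327 40 tp416.df))))) (.node (.node (.node (.node (.leaf (.bwd 367 40 tp2278.df)) (.leaf (.bwd 407 26 tp2279.df))) (.leaf (.bwd 433 18 tp1158.df))) (.node (.node (.leaf (.bwd 451 19 tp2280.df))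 (.leaf (.bwd 470 23 tp1580.df))) (.leaf (.fwd 493 17 tp2281.df)))) (.node (.node (.node (.leaf (.bwd 510 17 tp317.df)) (.leaf (.bwd 527 13 tp1387.df))) (.leaf (.fwd 540 16 tp2282.df))) (.node (.node (.leaf (.fwd 556 17 tp608.df)) (.leaf (.bwd 573 22 tp827.df))) (.leaf (.fwd 595 19 tp2283.df)))))) (.node (.node (.node (.node (.node (.leaf (.fwd 614 20 tp2284.df)) (.leaf (.bwd 634 27 tp1435.df))) (.leaf (.fwd 661 15 tp1747.df))) (.node (.node (.leaf (.bwd 676 21 tp995.df)) (.leaf (.bwd 697 25 tp2285.df))) (.leaf (.bwd 722 32 tp369.df)))) (.node (.node (.node (.leaf (.fwd 754 25 tp1574.df)) (.leaf (.fwd 779 15 tp1786.df))) (.leaf (.bwd 794 17 tp2286.df))) (.node (.node (.leaf (.fwd 811 24 tp2287.df)) (.leaf (.fwd 835 49 tp2288.df))) (.leaf (.bwd 884 21 tp1604.df))))) (.node (.node (.node (.node (.leaf (.fwd 905 18 tp2289.df)) (.leaf (.bwd 923 27 tp815.df))) (.leaf (.fwd 950 16 tp2290.df)))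 (.node (.node (.leaf (.fwd 966 35 tp1138.df)) (.leaf (.fwd 1001 30 tp2291.df))) (.leaf (.fwd 1031 28 tp2292.df)))) (.node (.node (.node (.leaf (.fwd 1059 36 tp2293.df)) (.leaf (.bwd 1095 20 tp2294.df))) (.leaf (.fwd 1115 21 tp2295.df))) (.node (.node (.leaf (.fwd 1136 32 tp2296.df)) (.leaf (.fwd 1168 11 tp797.df))) (.leaf (.bwd 1179 33 tp2297.df))))))) (.node (.node (.node (.node (.node (.node (.leaf (.bwd 1212 27 tp2298.df)) (.leaf (.fwd 1239 36 tp1182.df))) (.leaf (.bwd 1275 41 tp2299.df))) (.node (.node (.leaf (.bwd 1316 33 tp2300.df)) (.leaf (.fwd 1349 21 tp1388.df))) (.leaf (.bwd 1370 35 tp1253.df)))) (.node (.node (.node (.leaf (.fwd 1405 29 tp2301.df)) (.leaf (.fwd 1434 35 tp2302.df))) (.leaf (.fwd 1469 21 tp2303.df))) (.node (.node (.leaf (.bwd 1490 38 tp2304.df)) (.leaf (.fwd 1528 21 tp1654.df))) (.leaf (.fwd 1549 58 tp2305.df))))) (.node (.node (.node (.node (.leaf (.bwd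 1607 35 tp2306.df)) (.leaf (.fwd 1642 35 tp2307.df))) (.leaf (.bwd 1677 53 tp2308.df))) (.node (.node (.leaf (.bwd 1730 15 tp2309.df)) (.leaf (.fwd 1745 12 tp2310.df))) (.leaf (.fwd 1757 20 tp1774.df)))) (.node (.node (.node (.leaf (.fwd 1777 23 tp813.df)) (.leaf (.bwd 1800 27 tp2311.df))) (.leaf (.bwd 1827 24 tp2312.df))) (.node (.node (.leaf (.bwd 1851 19 tp2313.df)) (.leaf (.bwd 1870 21 tp2314.df))) (.leaf (.fwd 1891 21 tp2315.df)))))) (.node (.node (.node (.node (.node (.leaf (.fwd 1912 22 tp2316.df)) (.leaf (.bwd 1934 20 tp2317.df))) (.leaf (.bwd 1954 27 tp2318.df))) (.node (.node (.leaf (.bwd 1981 55 tp2319.df)) (.leaf (.fwd 2036 59 tp2320.df))) (.leaf (.bwd 2095 28 tp1517.df)))) (.node (.node (.node (.leaf (.pat 2123 pq174)) (.leaf (.bwd 2165 40 tp1649.df))) (.leaf (.bwd 2205 38 tp1582.df))) (.node (.node (.leaf (.fwd 2243 12 tp1653.df)) (.leaf (.bwd 2255 20 tp2321.df)))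 (.leaf (.fwd 2275 22 tp2322.df))))) (.node (.node (.node (.node (.leaf (.fwd 2297 34 tp2323.df)) (.leaf (.fwd 2331 48 tp2324.df))) (.leaf (.fwd 2379 26 tp2325.df))) (.node (.node (.leaf (.fwd 2405 26 tp2326.df)) (.leaf (.fwd 2431 18 tp507.df))) (.leaf (.fwd 2449 28 tp2327.df)))) (.node (.node (.node (.leaf (.bwd 2477 15 tp2328.df)) (.leaf (.fwd 2492 32 tp1338.df))) (.leaf (.fwd 2524 42 tp1807.df))) (.node (.node (.leaf (.fwd 2566 32 tp2329.df)) (.leaf (.bwd 2598 16 tp2330.df))) (.leaf (.bwd 2614 56 tp1578.df)))))))) (.node (.node (.node (.node (.node (.node (.node (.leaf (.fwd 2670 20 tp2331.df)) (.leaf (.bwd 2690 34 tp1664.df))) (.leaf (.bwd 2724 37 tp2332.df))) (.node (.node (.leaf (.fwd 2761 21 tp2333.df)) (.leaf (.bwd 2782 27 tp2334.df))) (.leaf (.fwd 2809 29 tp2335.df)))) (.node (.node (.node (.leaf (.fwd 2838 29 tp2336.df)) (.leaf (.bwd 2867 32 tp2337.df))) (.leaf (.bwd 2899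 30 tp2338.df))) (.node (.node (.leaf (.bwd 2929 17 tp2339.df)) (.leaf (.bwd 2946 23 tp2340.df))) (.leaf (.fwd 2969 27 tp2341.df))))) (.node (.node (.node (.node (.leaf (.fwd 2996 36 tp2342.df)) (.leaf (.bwd 3032 21 tp2343.df))) (.leaf (.fwd 3053 24 tp2344.df))) (.node (.node (.leaf (.fwd 3077 27 tp1133.df)) (.leaf (.fwd 3104 29 tp1440.df))) (.leaf (.fwd 3133 33 tp547.df)))) (.node (.node (.node (.leaf (.fwd 3166 35 tp2345.df)) (.leaf (.fwd 3201 27 tp2346.df))) (.leaf (.bwd 3228 27 tp820.df))) (.node (.node (.leaf (.bwd 3255 29 tp2347.df)) (.leaf (.bwd 3284 30 tp2348.df))) (.leaf (.fwd 3314 37 tp2349.df)))))) (.node (.node (.node (.node (.node (.leaf (.bwd 3351 26 tp2350.df)) (.leaf (.fwd 3377 27 tp2351.df))) (.leaf (.fwd 3404 19 tp2352.df))) (.node (.node (.leaf (.fwd 3423 16 tp1354.df)) (.leaf (.bwd 3439 23 tp2353.df))) (.leaf (.fwd 3462 28 tp1679.df)))) (.node (.node (.node (.leaf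 (.fwd 3490 24 tp2354.df)) (.leaf (.bwd 3514 21 tp656.df))) (.leaf (.fwd 3535 29 tp2355.df))) (.node (.node (.leaf (.fwd 3564 25 tp2356.df)) (.leaf (.bwd 3589 31 tp2357.df))) (.leaf (.bwd 3620 17 tp2358.df))))) (.node (.node (.node (.node (.leaf (.bwd 3637 16 tp2359.df)) (.leaf (.bwd 3653 22 tp451.df))) (.leaf (.bwd 3675 33 tp1136.df))) (.node (.node (.leaf (.fwd 3708 13 tp2360.df)) (.leaf (.bwd 3721 31 tp530.df))) (.leaf (.fwd 3752 15 tp577.df)))) (.node (.node (.node (.leaf (.fwd 3767 25 tp2362.df)) (.leaf (.fwd 3792 27 tp2363.df))) (.leaf (.bwd 3819 18 tp2364.df))) (.node (.node (.leaf (.bwd 3837 26 tp2365.df)) (.leaf (.fwd 3863 26 tp1790.df))) (.leaf (.fwd 3889 20 tp1648.df))))))) (.node (.node (.node (.node (.node (.node (.leaf (.fwd 3909 31 tp2366.df)) (.leaf (.fwd 3940 26 tp2367.df))) (.leaf (.fwd 3966 17 tp2368.df))) (.node (.node (.leaf (.bwd 3983 28 tp806.df)) (.leaf (.bwd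 4011 24 tp354.df))) (.leaf (.fwd 4035 28 tp2370.df)))) (.node (.node (.node (.leaf (.fwd 4063 31 tp530.df)) (.leaf (.bwd 4094 22 tp2371.df))) (.leaf (.bwd 4116 26 tp2372.df))) (.node (.node (.leaf (.bwd 4142 17 tp608.df)) (.leaf (.fwd 4159 35 tp359.df))) (.leaf (.bwd 4194 29 tp1082.df))))) (.node (.node (.node (.node (.leaf (.fwd 4223 24 tp897.df)) (.leaf (.fwd 4247 34 tp670.df))) (.leaf (.fwd 4281 42 tp2375.df))) (.node (.node (.leaf (.bwd 4323 29 tp2376.df)) (.leaf (.bwd 4352 54 tp2377.df))) (.leaf (.bwd 4406 26 tp2378.df)))) (.node (.node (.node (.leaf (.fwd 4432 28 tp2379.df)) (.leaf (.bwd 4460 34 tp2380.df))) (.leaf (.fwd 4494 28 tp2381.df))) (.node (.node (.leaf (.fwd 4522 28 tp904.df)) (.leaf (.fwd 4550 23 tp2382.df))) (.leaf (.fwd 4573 25 tp2383.df)))))) (.node (.node (.node (.node (.node (.leaf (.bwd 4598 38 tp587.df)) (.leaf (.fwd 4636 33 tp1136.df))) (.leaf (.fwd 4669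 38 tp2384.df))) (.node (.node (.leaf (.bwd 4707 58 tp1853.df)) (.leaf (.bwd 4765 23 tp2385.df))) (.leaf (.fwd 4788 26 tp2386.df)))) (.node (.node (.node (.leaf (.fwd 4814 22 tp2387.df)) (.leaf (.bwd 4836 50 tp2388.df))) (.leaf (.fwd 4886 38 tp2389.df))) (.node (.node (.leaf (.fwd 4924 38 tp2390.df)) (.leaf (.fwd 4962 37 tp2391.df))) (.leaf (.fwd 4999 60 tp2392.df))))) (.node (.node (.node (.node (.leaf (.fwd 5059 32 tp2393.df)) (.leaf (.fwd 5091 32 tp407.df))) (.leaf (.bwd 5123 31 tp2394.df))) (.node (.node (.leaf (.bwd 5154 25 tp2395.df)) (.leaf (.bwd 5179 30 tp2396.df))) (.leaf (.pat 5209 pq175)))) (.node (.node (.node (.leaf (.bwd 5257 37 tp2397.df)) (.leaf (.fwd 5294 27 tp2398.df))) (.leaf (.bwd 5321 33 tp2399.df))) (.node (.node (.leaf (.fwd 5354 26 tp2400.df)) (.leaf (.bwd 5380 46 tp558.df))) (.leaf (.bwd 5426 23 tp2401.df)))))))))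

theorem iiNFzE2B3H2BzAyB3H3B2EzF_c : iiNFzE2B3H2BzAyB3H3B2EzF.all (itB (ng 60 nnNFzE2B3H2BzAyB3H3B2EzF)) = true := by decide +kernel
theorem nbNFzE2B3H2BzAyB3H3B2EzF : nbB 60 5509 nnNFzE2B3H2BzAyB3H3B2EzF = true := by decide +kernel
theorem topNFzE2B3H2BzAyB3H3B2EzF : topY 5509 ttNFzE2B3H2BzAyB3H3B2EzF ceNFzE2B3H2BzAyB3H3B2EzF xNFzE2B3H2BzAyB3H3B2EzF iiNFzE2B3H2BzAyB3H3B2EzF = true := by decide +kernel

end MPb6P
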