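import Pool.Agent.Lib.MP_b6d339_lc.Cw.YFzE2B3H2BzIzB3H3B2E
import Pool.Agent.Lib.MP_b6d339_lc.Cw.XL
import Pool.Agent.Lib.MP_b6d339_lc.Cw.T10
import Pool.Agent.Lib.MP_b6d339_lc.Cw.T15
import Pool.Agent.Lib.MP_b6d339_lc.Cw.T17
import Pool.Agent.Lib.MP_b6d339_lc.Cw.T19
import Pool.Agent.Lib.MP_b6d339_lc.Cw.T21
import Pool.Agent.Lib.MP_b6d339_lc.Cw.T23
import Pool.Agent.Lib.MP_b6d339_lc.Cw.T24
import Pool.Agent.Lib.MP_b6d339_lc.Cw.T4
import Pool.Agent.Lib.MP_b6d339_lc.Cw.T5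
import Pool.Agent.Lib.MP_b6d339_lc.Cw.T7

/-!
# Erdős 592, three levels: items
-/

namespace MPb6P

noncomputable def iiNFzE2B3H2BzIzB3H3B2E : BT Itm := (.node (.node (.node (.node (.node (.node (.node (.leaf (.fwd 0 25 tp1882.df)) (.leaf (.fwd 25 6 tp1576.df))) (.node (.leaf (.bwd 31 25 tp1883.df)) (.leaf (.fwd 56 13 tp1759.df)))) (.node (.node (.leaf (.bwd 69 19 tp1884.df)) (.leaf (.bwd 88 20 tp1885.df))) (.node (.leaf (.bwd 108 32 tp1886.df)) (.leaf (.bwd 140 20 tp1887.df))))) (.node (.node (.node (.leaf (.fwd 160 7 tp1745.df)) (.leaf (.bwd 167 31 tp1888.df))) (.node (.leaf (.bwd 198 11 tp1420.df)) (.leaf (.fwd 209 21 tp1889.df)))) (.node (.node (.leaf (.fwd 230 15 tp1890.df)) (.leaf (.fwd 245 21 tp420.df))) (.node (.leaf (.fwd 266 29 tp414.df)) (.leaf (.fwd 295 35 tp1891.df)))))) (.node (.node (.node (.node (.leaf (.bwd 330 26 tp1892.df)) (.leaf (.fwd 356 23 tp605.df))) (.node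 (.leaf (.bwd 379 18 tp1893.df)) (.leaf (.bwd 397 22 tp827.df)))) (.node (.node (.leaf (.fwd 419 33 tp1894.df)) (.leaf (.bwd 452 21 tp1895.df))) (.node (.leaf (.bwd 473 28 tp1896.df)) (.leaf (.bwd 501 6 tp1576.df))))) (.node (.node (.node (.leaf (.bwd 507 23 tp1897.df)) (.leaf (.bwd 530 25 tp1898.df))) (.node (.leaf (.fwd 555 24 tp428.df)) (.leaf (.fwd 579 43 tp1899.df)))) (.node (.node (.leaf (.bwd 622 24 tp1553.df)) (.leaf (.bwd 646 33 tp1900.df))) (.node (.leaf (.bwd 679 41 tp1901.df)) (.leaf (.bwd 720 40 tp1902.df))))))) (.node (.node (.node (.node (.node (.leaf (.fwd 760 33 tp1903.df)) (.leaf (.fwd 793 21 tp1904.df))) (.node (.leaf (.bwd 814 51 tp1905.df)) (.leaf (.bwd 865 54 tp1906.df)))) (.node (.node (.leaf (.bwd 919 29 tp1907.df)) (.leaf (.bwd 948 29 tp1908.df))) (.node (.leaf (.fwd 977 29 tp1909.df)) (.leaf (.bwd 1006 32 tp1910.df))))) (.node (.node (.node (.leaf (.bwd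 1038 30 tp1911.df)) (.leaf (.bwd 1068 30 tp1912.df))) (.node (.leaf (.bwd 1098 25 tp1913.df)) (.leaf (.bwd 1123 47 tp1914.df)))) (.node (.node (.leaf (.bwd 1170 31 tp1915.df)) (.leaf (.bwd 1201 39 tp1916.df))) (.node (.leaf (.bwd 1240 39 tp1917.df)) (.leaf (.bwd 1279 34 tp1918.df)))))) (.node (.node (.node (.node (.leaf (.bwd 1313 33 tp1919.df)) (.leaf (.bwd 1346 17 tp1920.df))) (.node (.leaf (.bwd 1363 43 tp1921.df)) (.leaf (.pat 1406 pq119)))) (.node (.node (.leaf (.bwd 1452 50 tp1922.df)) (.leaf (.fwd 1502 48 tp1923.df))) (.node (.leaf (.bwd 1550 29 tp1924.df)) (.leaf (.pat 1579 pq120))))) (.node (.node (.node (.leaf (.pat 1629 pq121)) (.leaf (.pat 1679 pq122))) (.node (.leaf (.bwd 1725 20 tp1925.df)) (.leaf (.bwd 1745 20 tp1926.df)))) (.node (.node (.leaf (.fwd 1765 50 tp1927.df)) (.leaf (.fwd 1815 57 tp1928.df))) (.leaf (.fwd 1872 47 tp1929.df))))))) (.node (.node (.node (.node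 (.node (.node (.leaf (.bwd 1919 23 tp1930.df)) (.leaf (.pat 1942 pq123))) (.node (.leaf (.pat 1992 pq124)) (.leaf (.fwd 2046 25 tp1931.df)))) (.node (.node (.leaf (.fwd 2071 51 tp1932.df)) (.leaf (.bwd 2122 40 tp1933.df))) (.node (.leaf (.fwd 2162 39 tp1934.df)) (.leaf (.bwd 2201 27 tp1935.df))))) (.node (.node (.node (.leaf (.bwd 2228 52 tp1936.df)) (.leaf (.bwd 2280 58 tp1937.df))) (.node (.leaf (.bwd 2338 18 tp1938.df)) (.leaf (.bwd 2356 17 tp1939.df)))) (.node (.node (.leaf (.bwd 2373 23 tp1940.df)) (.leaf (.bwd 2396 25 tp433.df))) (.node (.leaf (.fwd 2421 43 tp1941.df)) (.leaf (.bwd 2464 16 tp1942.df)))))) (.node (.node (.node (.node (.leaf (.fwd 2480 14 tp1943.df)) (.leaf (.bwd 2494 17 tp337.df))) (.node (.leaf (.bwd 2511 21 tp1944.df)) (.leaf (.bwd 2532 18 tp1259.df)))) (.node (.node (.leaf (.fwd 2550 25 tp1945.df)) (.leaf (.bwd 2575 38 tp1947.df))) (.node (.leaf (.bwd 2613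 25 tp1948.df)) (.leaf (.bwd 2638 56 tp1949.df))))) (.node (.node (.node (.leaf (.bwd 2694 46 tp1950.df)) (.leaf (.bwd 2740 50 tp1951.df))) (.node (.leaf (.fwd 2790 35 tp1952.df)) (.leaf (.fwd 2825 19 tp1953.df)))) (.node (.node (.leaf (.fwd 2844 35 tp1954.df)) (.leaf (.bwd 2879 41 tp1955.df))) (.leaf (.fwd 2920 28 tp1956.df)))))) (.node (.node (.node (.node (.node (.leaf (.bwd 2948 26 tp1957.df)) (.leaf (.bwd 2974 21 tp1958.df))) (.node (.leaf (.fwd 2995 27 tp1959.df)) (.leaf (.fwd 3022 18 tp1960.df)))) (.node (.node (.leaf (.fwd 3040 27 tp1961.df)) (.leaf (.bwd 3067 46 tp1962.df))) (.node (.leaf (.bwd 3113 26 tp1426.df)) (.leaf (.fwd 3139 39 tp1963.df))))) (.node (.node (.node (.leaf (.fwd 3178 57 tp1964.df)) (.leaf (.fwd 3235 26 tp1965.df))) (.node (.leaf (.bwd 3261 38 tp1966.df)) (.leaf (.fwd 3299 52 tp1967.df)))) (.node (.node (.leaf (.pat 3351 pq125)) (.leaf (.pat 3403 pq126)))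 (.node (.leaf (.fwd 3453 46 tp1968.df)) (.leaf (.bwd 3499 30 tp1969.df)))))) (.node (.node (.node (.node (.leaf (.fwd 3529 32 tp1970.df)) (.leaf (.bwd 3561 39 tp1971.df))) (.node (.leaf (.pat 3600 pq127)) (.leaf (.fwd 3650 20 tp1972.df)))) (.node (.node (.leaf (.pat 3670 pq128)) (.leaf (.bwd 3720 49 tp1973.df))) (.node (.leaf (.fwd 3769 16 tp1974.df)) (.leaf (.bwd 3785 27 tp1975.df))))) (.node (.node (.node (.leaf (.fwd 3812 26 tp1976.df)) (.leaf (.fwd 3838 26 tp1977.df))) (.node (.leaf (.pat 3864 pq129)) (.leaf (.bwd 3912 49 tp1978.df)))) (.node (.node (.leaf (.bwd 3961 51 tp1979.df)) (.leaf (.pat 4012 pq130))) (.leaf (.pat 4058 pq131))))))))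

theorem iiNFzE2B3H2BzIzB3H3B2E_c : iiNFzE2B3H2BzIzB3H3B2E.all (itB (ng 58 nnNFzE2B3H2BzIzB3H3B2E)) = true := by decide +kernel
theorem nbNFzE2B3H2BzIzB3H3B2E : nbB 58 4172 nnNFzE2B3H2BzIzB3H3B2E = true := by decide +kernel
theorem topNFzE2B3H2BzIzB3H3B2E : topY 4172 ttNFzE2B3H2BzIzB3H3B2E ceNFzE2B3H2BzIzB3H3B2E xNFzE2B3H2BzIzB3H3B2E iiNFzE2B3H2BzIzB3H3B2E = true := by decide +kernel

end MPb6P
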