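import Pool.Agent.Lib.MP_b6d339_lc.Cw.YFzAzE2A2Ax3xA2A2EzAyF
import Pool.Agent.Lib.MP_b6d339_lc.Cw.XL

/-!
# Erdős 592, three levels: checks of claims
-/

namespace MPb6P

theorem zoNFzAzE2A2Ax3xA2A2EzAyF_0 : cyO 48 6607 nnNFzAzE2A2Ax3xA2A2EzAyF ttNFzAzE2A2Ax3xA2A2EzAyF ceNFzAzE2A2Ax3xA2A2EzAyF xNFzAzE2A2Ax3xA2A2EzAyF coNFzAzE2A2Ax3xA2A2EzAyF_0 = true := by decide +kernel

end MPb6P
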