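import Pool.Agent.Lib.MP_b6d339_lc.Cw.JFzAzE2A2Ax3xA2A2EzAyF
import Pool.Agent.Lib.MP_b6d339_lc.Cw.JFzAzE2A2Ax3xA2A2EzAzF
import Pool.Agent.Lib.MP_b6d339_lc.Cw.JFzAzE2A2Ax3xA2AyEzAzF
import Pool.Agent.Lib.MP_b6d339_lc.Cw.JFzE2B3H2BzAyB3H3B2EzF
import Pool.Agent.Lib.MP_b6d339_lc.Cw.JFzE2B3H2BzIzB3H3B2E
import Pool.Agent.Lib.MP_b6d339_lc.Cw.P1
import Pool.Agent.Lib.MP_b6d339_lc.Cw.P2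
import Pool.Agent.Lib.MP_b6d339_lc.Cw.S0
import Pool.Agent.Lib.MP_b6d339_lc.Cw.S4
import Pool.Agent.Lib.MP_b6d339_lc.Cw.S6
import Pool.Agent.Lib.MP_b6d339_lc.Cw.S7
import Pool.Agent.Lib.MP_b6d339_lc.Cw.T0
import Pool.Agent.Lib.MP_b6d339_lc.Cw.T1
import Pool.Agent.Lib.MP_b6d339_lc.Cw.T10
import Pool.Agent.Lib.MP_b6d339_lc.Cw.T11
import Pool.Agent.Lib.MP_b6d339_lc.Cw.T12
import Pool.Agent.Lib.MP_b6d339_lc.Cw.T13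
import Pool.Agent.Lib.MP_b6d339_lc.Cw.T14
import Pool.Agent.Lib.MP_b6d339_lc.Cw.T15
import Pool.Agent.Lib.MP_b6d339_lc.Cw.T16
import Pool.Agent.Lib.MP_b6d339_lc.Cw.T17
import Pool.Agent.Lib.MP_b6d339_lc.Cw.T18
import Pool.Agent.Lib.MP_b6d339_lc.Cw.T19
import Pool.Agent.Lib.MP_b6d339_lc.Cw.T2
import Pool.Agent.Lib.MP_b6d339_lc.Cw.T20
import Pool.Agent.Lib.MP_b6d339_lc.Cw.T21
import Pool.Agent.Lib.MP_b6d339_lc.Cw.T22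
import Pool.Agent.Lib.MP_b6d339_lc.Cw.T23
import Pool.Agent.Lib.MP_b6d339_lc.Cw.T24
import Pool.Agent.Lib.MP_b6d339_lc.Cw.T27
import Pool.Agent.Lib.MP_b6d339_lc.Cw.T28
import Pool.Agent.Lib.MP_b6d339_lc.Cw.T29
import Pool.Agent.Lib.MP_b6d339_lc.Cw.T3
import Pool.Agent.Lib.MP_b6d339_lc.Cw.T30
import Pool.Agent.Lib.MP_b6d339_lc.Cw.T35
import Pool.Agent.Lib.MP_b6d339_lc.Cw.T4
import Pool.Agent.Lib.MP_b6d339_lc.Cw.T5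
import Pool.Agent.Lib.MP_b6d339_lc.Cw.T6
import Pool.Agent.Lib.MP_b6d339_lc.Cw.T7
import Pool.Agent.Lib.MP_b6d339_lc.Cw.T8
import Pool.Agent.Lib.MP_b6d339_lc.Cw.T9
import Pool.Agent.Lib.MP_b6d339_lc.Cw.XL
import Pool.Agent.Lib.MP_b6d339_lc.Cw.ZFzAzE2A2Ax3xA2A2EzAyF_0
import Pool.Agent.Lib.MP_b6d339_lc.Cw.ZFzAzE2A2Ax3xA2A2EzAyF_1
import Pool.Agent.Lib.MP_b6d339_lc.Cw.ZFzAzE2A2Ax3xA2A2EzAzF_0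
import Pool.Agent.Lib.MP_b6d339_lc.Cw.ZFzAzE2A2Ax3xA2AyEzAzF_0
import Pool.Agent.Lib.MP_b6d339_lc.Cw.ZFzE2B3H2BzAyB3H3B2EzF_0
import Pool.Agent.Lib.MP_b6d339_lc.Cw.ZFzE2B3H2BzIzB3H3B2E_0
import Pool.Agent.Lib.MP_b6d339_lc.Pos.XTreeC
import Pool.Agent.Lib.MP_b6d339_lc.Pos.YQ

/-!
# Erdős 592, three levels: classes of words
-/

namespace MPb6P

theorem iiNFzAzE2A2Ax3xA2A2EzAyF_k : iiNFzAzE2A2Ax3xA2A2EzAyF.Fa (Itm.ok 206) := (BT.Fa_mk (BT.Fa_mk (BT.Fa_mk (BT.Fa_mk (BT.Fa_mk (BT.Fa_mk (BT.Fa_mk (BT.Fa_mk (BT.Fa_leaf (P := Itm.ok 206) (iqf tp355_c)) (BT.Fa_leaf (P := Itm.ok 206) (iqb tp524_c))) (BT.Fa_mk (BT.Fa_leaf (P := Itm.ok 206) (iqf tp525_c)) (BT.Fa_leaf (P := Itm.ok 206) (iqb tp525_c)))) (BT.Fa_mk (BT.Fa_mk (BT.Fa_leaf (P := Itm.ok 206) (iqb tp1126_c))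 (BT.Fa_leaf (P := Itm.ok 206) (iqb tp295_c))) (BT.Fa_leaf (P := Itm.ok 206) (iqb tp527_c)))) (BT.Fa_mk (BT.Fa_mk (BT.Fa_mk (BT.Fa_leaf (P := Itm.ok 206) (iqf tp371_c)) (BT.Fa_leaf (P := Itm.ok 206) (iqf tp505_c))) (BT.Fa_mk (BT.Fa_leaf (P := Itm.ok 206) (iqf tp403_c)) (BT.Fa_leaf (P := Itm.ok 206) (iqf tp292_c)))) (BT.Fa_mk (BT.Fa_mk (BT.Fa_leaf (P := Itm.ok 206) (iqf tp424_c)) (BT.Fa_leaf (P := Itm.ok 206) (iqf tp326_c))) (BT.Fa_leaf (P := Itm.ok 206) (iqb tp614_c))))) (BT.Fa_mk (BT.Fa_mk (BT.Fa_mk (BT.Fa_mk (BT.Fa_leaf (P := Itm.ok 206) (iqb tp1250_c)) (BT.Fa_leaf (P := Itm.ok 206) (iqf tp490_c))) (BT.Fa_mk (BT.Fa_leaf (P := Itm.ok 206) (iqb tp320_c)) (BT.Fa_leaf (P := Itm.ok 206) (iqb tp332_c)))) (BT.Fa_mk (BT.Fa_mk (BT.Fa_leaf (P := Itm.ok 206) (iqf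 tp477_c)) (BT.Fa_leaf (P := Itm.ok 206) (iqb tp477_c))) (BT.Fa_leaf (P := Itm.ok 206) (iqb tp529_c)))) (BT.Fa_mk (BT.Fa_mk (BT.Fa_mk (BT.Fa_leaf (P := Itm.ok 206) (iqf tp514_c)) (BT.Fa_leaf (P := Itm.ok 206) (iqf tp342_c))) (BT.Fa_mk (BT.Fa_leaf (P := Itm.ok 206) (iqf tp488_c)) (BT.Fa_leaf (P := Itm.ok 206) (iqf tp688_c)))) (BT.Fa_mk (BT.Fa_mk (BT.Fa_leaf (P := Itm.ok 206) (iqb tp334_c)) (BT.Fa_leaf (P := Itm.ok 206) (iqf tp368_c))) (BT.Fa_leaf (P := Itm.ok 206) (iqf tp806_c)))))) (BT.Fa_mk (BT.Fa_mk (BT.Fa_mk (BT.Fa_mk (BT.Fa_mk (BT.Fa_leaf (P := Itm.ok 206) (iqf tp984_c)) (BT.Fa_leaf (P := Itm.ok 206) (iqb tp367_c))) (BT.Fa_mk (BT.Fa_leaf (P := Itm.ok 206) (iqf tp949_c)) (BT.Fa_leaf (P := Itm.ok 206) (iqf tp530_c)))) (BT.Fa_mk (BT.Fa_mk (BT.Fa_leaf (P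 := Itm.ok 206) (iqf tp481_c)) (BT.Fa_leaf (P := Itm.ok 206) (iqf tp489_c))) (BT.Fa_leaf (P := Itm.ok 206) (iqb tp489_c)))) (BT.Fa_mk (BT.Fa_mk (BT.Fa_mk (BT.Fa_leaf (P := Itm.ok 206) (iqf tp698_c)) (BT.Fa_leaf (P := Itm.ok 206) (iqf tp341_c))) (BT.Fa_mk (BT.Fa_leaf (P := Itm.ok 206) (iqb tp341_c)) (BT.Fa_leaf (P := Itm.ok 206) (iqf tp344_c)))) (BT.Fa_mk (BT.Fa_mk (BT.Fa_leaf (P := Itm.ok 206) (iqf tp531_c)) (BT.Fa_leaf (P := Itm.ok 206) (iqb tp531_c))) (BT.Fa_leaf (P := Itm.ok 206) (iqf tp405_c))))) (BT.Fa_mk (BT.Fa_mk (BT.Fa_mk (BT.Fa_mk (BT.Fa_leaf (P := Itm.ok 206) (iqf tp404_c)) (BT.Fa_leaf (P := Itm.ok 206) (iqf tp378_c))) (BT.Fa_mk (BT.Fa_leaf (P := Itm.ok 206) (iqf tp351_c)) (BT.Fa_leaf (P := Itm.ok 206) (iqb tp532_c)))) (BT.Fa_mk (BT.Fa_mk (BT.Fa_leaf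 (P := Itm.ok 206) (iqf tp484_c)) (BT.Fa_leaf (P := Itm.ok 206) (iqb tp484_c))) (BT.Fa_leaf (P := Itm.ok 206) (iqf tp1156_c)))) (BT.Fa_mk (BT.Fa_mk (BT.Fa_mk (BT.Fa_leaf (P := Itm.ok 206) (iqb tp533_c)) (BT.Fa_leaf (P := Itm.ok 206) (iqf tp510_c))) (BT.Fa_mk (BT.Fa_leaf (P := Itm.ok 206) (iqf tp519_c)) (BT.Fa_leaf (P := Itm.ok 206) (iqf tp578_c)))) (BT.Fa_mk (BT.Fa_mk (BT.Fa_leaf (P := Itm.ok 206) (iqf tp1128_c)) (BT.Fa_leaf (P := Itm.ok 206) (iqb tp1184_c))) (BT.Fa_leaf (P := Itm.ok 206) (iqb tp372_c))))))) (BT.Fa_mk (BT.Fa_mk (BT.Fa_mk (BT.Fa_mk (BT.Fa_mk (BT.Fa_mk (BT.Fa_leaf (P := Itm.ok 206) (iqf tp587_c)) (BT.Fa_leaf (P := Itm.ok 206) (iqf tp501_c))) (BT.Fa_mk (BT.Fa_leaf (P := Itm.ok 206) (iqb tp501_c)) (BT.Fa_leaf (P := Itm.ok 206) (iqb tp349_c))))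 (BT.Fa_mk (BT.Fa_mk (BT.Fa_leaf (P := Itm.ok 206) (iqf tp499_c)) (BT.Fa_leaf (P := Itm.ok 206) (iqb tp499_c))) (BT.Fa_leaf (P := Itm.ok 206) (iqf tp1065_c)))) (BT.Fa_mk (BT.Fa_mk (BT.Fa_mk (BT.Fa_leaf (P := Itm.ok 206) (iqb tp589_c)) (BT.Fa_leaf (P := Itm.ok 206) (iqb tp554_c))) (BT.Fa_mk (BT.Fa_leaf (P := Itm.ok 206) (iqf tp534_c)) (BT.Fa_leaf (P := Itm.ok 206) (iqb tp1103_c)))) (BT.Fa_mk (BT.Fa_mk (BT.Fa_leaf (P := Itm.ok 206) (iqf tp504_c)) (BT.Fa_leaf (P := Itm.ok 206) (iqb tp855_c))) (BT.Fa_leaf (P := Itm.ok 206) (iqf tp853_c))))) (BT.Fa_mk (BT.Fa_mk (BT.Fa_mk (BT.Fa_mk (BT.Fa_leaf (P := Itm.ok 206) (iqf tp1251_c)) (BT.Fa_leaf (P := Itm.ok 206) (iqf tp784_c))) (BT.Fa_mk (BT.Fa_leaf (P := Itm.ok 206) (iqb tp784_c)) (BT.Fa_leaf (P := Itm.ok 206) (iqf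 tp299_c)))) (BT.Fa_mk (BT.Fa_mk (BT.Fa_leaf (P := Itm.ok 206) (iqb tp299_c)) (BT.Fa_leaf (P := Itm.ok 206) (iqb tp687_c))) (BT.Fa_leaf (P := Itm.ok 206) (iqb tp385_c)))) (BT.Fa_mk (BT.Fa_mk (BT.Fa_mk (BT.Fa_leaf (P := Itm.ok 206) (iqf tp536_c)) (BT.Fa_leaf (P := Itm.ok 206) (iqf tp1119_c))) (BT.Fa_mk (BT.Fa_leaf (P := Itm.ok 206) (iqf tp348_c)) (BT.Fa_leaf (P := Itm.ok 206) (iqf tp951_c)))) (BT.Fa_mk (BT.Fa_mk (BT.Fa_leaf (P := Itm.ok 206) (iqb tp1252_c)) (BT.Fa_leaf (P := Itm.ok 206) (iqf tp1253_c))) (BT.Fa_leaf (P := Itm.ok 206) (iqf tp369_c)))))) (BT.Fa_mk (BT.Fa_mk (BT.Fa_mk (BT.Fa_mk (BT.Fa_mk (BT.Fa_leaf (P := Itm.ok 206) (iqb tp369_c)) (BT.Fa_leaf (P := Itm.ok 206) (iqf tp350_c))) (BT.Fa_mk (BT.Fa_leaf (P := Itm.ok 206) (iqb tp359_c)) (BT.Fa_leaf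 (P := Itm.ok 206) (iqf tp361_c)))) (BT.Fa_mk (BT.Fa_mk (BT.Fa_leaf (P := Itm.ok 206) (iqb tp361_c)) (BT.Fa_leaf (P := Itm.ok 206) (iqb tp364_c))) (BT.Fa_leaf (P := Itm.ok 206) (iqf tp648_c)))) (BT.Fa_mk (BT.Fa_mk (BT.Fa_mk (BT.Fa_leaf (P := Itm.ok 206) (iqb tp507_c)) (BT.Fa_leaf (P := Itm.ok 206) (iqb tp327_c))) (BT.Fa_mk (BT.Fa_leaf (P := Itm.ok 206) (iqf tp335_c)) (BT.Fa_leaf (P := Itm.ok 206) (iqb tp690_c)))) (BT.Fa_mk (BT.Fa_mk (BT.Fa_leaf (P := Itm.ok 206) (iqf tp312_c)) (BT.Fa_leaf (P := Itm.ok 206) (iqb tp340_c))) (BT.Fa_leaf (P := Itm.ok 206) (iqf tp401_c))))) (BT.Fa_mk (BT.Fa_mk (BT.Fa_mk (BT.Fa_mk (BT.Fa_leaf (P := Itm.ok 206) (iqf tp289_c)) (BT.Fa_leaf (P := Itm.ok 206) (iqf tp1254_c))) (BT.Fa_mk (BT.Fa_leaf (P := Itm.ok 206) (iqf tp347_c))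 (BT.Fa_leaf (P := Itm.ok 206) (iqb tp376_c)))) (BT.Fa_mk (BT.Fa_mk (BT.Fa_leaf (P := Itm.ok 206) (iqf tp353_c)) (BT.Fa_leaf (P := Itm.ok 206) (iqb tp358_c))) (BT.Fa_leaf (P := Itm.ok 206) (iqf tp365_c)))) (BT.Fa_mk (BT.Fa_mk (BT.Fa_mk (BT.Fa_leaf (P := Itm.ok 206) (iqb tp386_c)) (BT.Fa_leaf (P := Itm.ok 206) (iqb tp339_c))) (BT.Fa_mk (BT.Fa_leaf (P := Itm.ok 206) (iqb tp407_c)) (BT.Fa_leaf (P := Itm.ok 206) (iqf tp633_c)))) (BT.Fa_mk (BT.Fa_mk (BT.Fa_leaf (P := Itm.ok 206) (iqf tp1255_c)) (BT.Fa_leaf (P := Itm.ok 206) (iqf tp511_c))) (BT.Fa_leaf (P := Itm.ok 206) (iqf tp443_c)))))))) (BT.Fa_mk (BT.Fa_mk (BT.Fa_mk (BT.Fa_mk (BT.Fa_mk (BT.Fa_mk (BT.Fa_mk (BT.Fa_leaf (P := Itm.ok 206) (iqf tp1256_c)) (BT.Fa_leaf (P := Itm.ok 206) (iqf tp1257_c))) (BT.Fa_mk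 (BT.Fa_leaf (P := Itm.ok 206) (iqf tp638_c)) (BT.Fa_leaf (P := Itm.ok 206) (iqb tp634_c)))) (BT.Fa_mk (BT.Fa_mk (BT.Fa_leaf (P := Itm.ok 206) (iqb tp555_c)) (BT.Fa_leaf (P := Itm.ok 206) (iqf tp1213_c))) (BT.Fa_leaf (P := Itm.ok 206) (iqf tp1091_c)))) (BT.Fa_mk (BT.Fa_mk (BT.Fa_mk (BT.Fa_leaf (P := Itm.ok 206) (iqb tp1091_c)) (BT.Fa_leaf (P := Itm.ok 206) (iqf tp485_c))) (BT.Fa_mk (BT.Fa_leaf (P := Itm.ok 206) (iqf tp602_c)) (BT.Fa_leaf (P := Itm.ok 206) (iqf tp366_c)))) (BT.Fa_mk (BT.Fa_mk (BT.Fa_leaf (P := Itm.ok 206) (iqb tp366_c)) (BT.Fa_leaf (P := Itm.ok 206) (iqf tp410_c))) (BT.Fa_leaf (P := Itm.ok 206) (iqf tp566_c))))) (BT.Fa_mk (BT.Fa_mk (BT.Fa_mk (BT.Fa_mk (BT.Fa_leaf (P := Itm.ok 206) (iqf tp1258_c)) (BT.Fa_leaf (P := Itm.ok 206) (iqb tp1188_c)))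 (BT.Fa_mk (BT.Fa_leaf (P := Itm.ok 206) (iqf tp1259_c)) (BT.Fa_leaf (P := Itm.ok 206) (iqb tp1260_c)))) (BT.Fa_mk (BT.Fa_mk (BT.Fa_leaf (P := Itm.ok 206) (iqf tp849_c)) (BT.Fa_leaf (P := Itm.ok 206) (iqb tp632_c))) (BT.Fa_leaf (P := Itm.ok 206) (iqf tp789_c)))) (BT.Fa_mk (BT.Fa_mk (BT.Fa_mk (BT.Fa_leaf (P := Itm.ok 206) (iqb tp390_c)) (BT.Fa_leaf (P := Itm.ok 206) (iqf tp478_c))) (BT.Fa_mk (BT.Fa_leaf (P := Itm.ok 206) (iqf tp1214_c)) (BT.Fa_leaf (P := Itm.ok 206) (iqb tp363_c)))) (BT.Fa_mk (BT.Fa_mk (BT.Fa_leaf (P := Itm.ok 206) (iqb tp998_c)) (BT.Fa_leaf (P := Itm.ok 206) (iqf tp541_c))) (BT.Fa_leaf (P := Itm.ok 206) (iqf tp684_c)))))) (BT.Fa_mk (BT.Fa_mk (BT.Fa_mk (BT.Fa_mk (BT.Fa_mk (BT.Fa_leaf (P := Itm.ok 206) (iqf tp1177_c)) (BT.Fa_leaf (P := Itm.ok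 206) (iqf tp496_c))) (BT.Fa_mk (BT.Fa_leaf (P := Itm.ok 206) (iqf tp689_c)) (BT.Fa_leaf (P := Itm.ok 206) (iqf tp494_c)))) (BT.Fa_mk (BT.Fa_mk (BT.Fa_leaf (P := Itm.ok 206) (iqb tp542_c)) (BT.Fa_leaf (P := Itm.ok 206) (iqb tp592_c))) (BT.Fa_leaf (P := Itm.ok 206) (iqf tp1261_c)))) (BT.Fa_mk (BT.Fa_mk (BT.Fa_mk (BT.Fa_leaf (P := Itm.ok 206) (iqb tp1127_c)) (BT.Fa_leaf (P := Itm.ok 206) (iqb tp881_c))) (BT.Fa_mk (BT.Fa_leaf (P := Itm.ok 206) (iqb tp559_c)) (BT.Fa_leaf (P := Itm.ok 206) (iqf tp1262_c)))) (BT.Fa_mk (BT.Fa_mk (BT.Fa_leaf (P := Itm.ok 206) (iqb tp607_c)) (BT.Fa_leaf (P := Itm.ok 206) (iqf tp1263_c))) (BT.Fa_leaf (P := Itm.ok 206) (iqb tp704_c))))) (BT.Fa_mk (BT.Fa_mk (BT.Fa_mk (BT.Fa_mk (BT.Fa_leaf (P := Itm.ok 206) (iqb tp1118_c)) (BT.Fa_leaf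 (P := Itm.ok 206) (iqb tp623_c))) (BT.Fa_mk (BT.Fa_leaf (P := Itm.ok 206) (iqf tp596_c)) (BT.Fa_leaf (P := Itm.ok 206) (iqf tp547_c)))) (BT.Fa_mk (BT.Fa_mk (BT.Fa_leaf (P := Itm.ok 206) (iqb tp1264_c)) (BT.Fa_leaf (P := Itm.ok 206) (iqb tp1265_c))) (BT.Fa_leaf (P := Itm.ok 206) (iqb tp1266_c)))) (BT.Fa_mk (BT.Fa_mk (BT.Fa_mk (BT.Fa_leaf (P := Itm.ok 206) (show Itm.ok 206 (.pat 4740 pq92) from (POK.mono (by decide) pq92_ok))) (BT.Fa_leaf (P := Itm.ok 206) (show Itm.ok 206 (.pat 4790 pq93) from (POK.mono (by decide) pq93_ok)))) (BT.Fa_mk (BT.Fa_leaf (P := Itm.ok 206) (show Itm.ok 206 (.pat 4842 pq94) from (POK.mono (by decide) pq94_ok))) (BT.Fa_leaf (P := Itm.ok 206) (show Itm.ok 206 (.pat 4888 pq95) from (POK.mono (by decide) pq95_ok))))) (BT.Fa_mk (BT.Fa_mk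 (BT.Fa_leaf (P := Itm.ok 206) (iqb tp806_c)) (BT.Fa_leaf (P := Itm.ok 206) (iqb tp342_c))) (BT.Fa_leaf (P := Itm.ok 206) (iqf tp1157_c))))))) (BT.Fa_mk (BT.Fa_mk (BT.Fa_mk (BT.Fa_mk (BT.Fa_mk (BT.Fa_mk (BT.Fa_leaf (P := Itm.ok 206) (iqf tp1267_c)) (BT.Fa_leaf (P := Itm.ok 206) (iqb tp530_c))) (BT.Fa_mk (BT.Fa_leaf (P := Itm.ok 206) (iqb tp1256_c)) (BT.Fa_leaf (P := Itm.ok 206) (iqb tp495_c)))) (BT.Fa_mk (BT.Fa_mk (BT.Fa_leaf (P := Itm.ok 206) (iqf tp417_c)) (BT.Fa_leaf (P := Itm.ok 206) (iqf tp1060_c))) (BT.Fa_leaf (P := Itm.ok 206) (iqf tp626_c)))) (BT.Fa_mk (BT.Fa_mk (BT.Fa_mk (BT.Fa_leaf (P := Itm.ok 206) (iqf tp1268_c)) (BT.Fa_leaf (P := Itm.ok 206) (iqf tp319_c))) (BT.Fa_mk (BT.Fa_leaf (P := Itm.ok 206) (iqb tp606_c)) (BT.Fa_leaf (P := Itm.ok 206)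 (iqf tp427_c)))) (BT.Fa_mk (BT.Fa_mk (BT.Fa_leaf (P := Itm.ok 206) (iqb tp1269_c)) (BT.Fa_leaf (P := Itm.ok 206) (iqb tp402_c))) (BT.Fa_leaf (P := Itm.ok 206) (iqb tp1096_c))))) (BT.Fa_mk (BT.Fa_mk (BT.Fa_mk (BT.Fa_mk (BT.Fa_leaf (P := Itm.ok 206) (iqf tp739_c)) (BT.Fa_leaf (P := Itm.ok 206) (iqb tp858_c))) (BT.Fa_mk (BT.Fa_leaf (P := Itm.ok 206) (iqf tp1173_c)) (BT.Fa_leaf (P := Itm.ok 206) (iqf tp539_c)))) (BT.Fa_mk (BT.Fa_mk (BT.Fa_leaf (P := Itm.ok 206) (iqf tp1143_c)) (BT.Fa_leaf (P := Itm.ok 206) (iqb tp1070_c))) (BT.Fa_leaf (P := Itm.ok 206) (iqb tp504_c)))) (BT.Fa_mk (BT.Fa_mk (BT.Fa_mk (BT.Fa_leaf (P := Itm.ok 206) (iqb tp897_c)) (BT.Fa_leaf (P := Itm.ok 206) (iqf tp1209_c))) (BT.Fa_mk (BT.Fa_leaf (P := Itm.ok 206) (iqf tp937_c)) (BT.Fa_leaf (P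 := Itm.ok 206) (iqf tp1270_c)))) (BT.Fa_mk (BT.Fa_mk (BT.Fa_leaf (P := Itm.ok 206) (iqf tp322_c)) (BT.Fa_leaf (P := Itm.ok 206) (iqf tp611_c))) (BT.Fa_leaf (P := Itm.ok 206) (iqb tp1271_c)))))) (BT.Fa_mk (BT.Fa_mk (BT.Fa_mk (BT.Fa_mk (BT.Fa_mk (BT.Fa_leaf (P := Itm.ok 206) (iqb tp1033_c)) (BT.Fa_leaf (P := Itm.ok 206) (iqf tp436_c))) (BT.Fa_mk (BT.Fa_leaf (P := Itm.ok 206) (iqf tp563_c)) (BT.Fa_leaf (P := Itm.ok 206) (iqb tp290_c)))) (BT.Fa_mk (BT.Fa_mk (BT.Fa_leaf (P := Itm.ok 206) (iqb tp561_c)) (BT.Fa_leaf (P := Itm.ok 206) (show Itm.ok 206 (.pat 6018 pq96) from (POK.mono (by decide) pq96_ok)))) (BT.Fa_leaf (P := Itm.ok 206) (iqf tp1272_c)))) (BT.Fa_mk (BT.Fa_mk (BT.Fa_mk (BT.Fa_leaf (P := Itm.ok 206) (iqf tp392_c)) (BT.Fa_leaf (P := Itm.ok 206) (iqb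 tp519_c))) (BT.Fa_mk (BT.Fa_leaf (P := Itm.ok 206) (iqb tp426_c)) (BT.Fa_leaf (P := Itm.ok 206) (iqb tp1009_c)))) (BT.Fa_mk (BT.Fa_mk (BT.Fa_leaf (P := Itm.ok 206) (iqb tp727_c)) (BT.Fa_leaf (P := Itm.ok 206) (iqb tp1131_c))) (BT.Fa_leaf (P := Itm.ok 206) (iqb tp1109_c))))) (BT.Fa_mk (BT.Fa_mk (BT.Fa_mk (BT.Fa_mk (BT.Fa_leaf (P := Itm.ok 206) (iqb tp1072_c)) (BT.Fa_leaf (P := Itm.ok 206) (iqb tp1251_c))) (BT.Fa_mk (BT.Fa_leaf (P := Itm.ok 206) (iqf tp652_c)) (BT.Fa_leaf (P := Itm.ok 206) (iqf tp377_c)))) (BT.Fa_mk (BT.Fa_mk (BT.Fa_leaf (P := Itm.ok 206) (iqb tp1273_c)) (BT.Fa_leaf (P := Itm.ok 206) (iqb tp1274_c))) (BT.Fa_leaf (P := Itm.ok 206) (iqb tp1275_c)))) (BT.Fa_mk (BT.Fa_mk (BT.Fa_mk (BT.Fa_leaf (P := Itm.ok 206) (iqb tp461_c)) (BT.Fa_leaf (P :=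 Itm.ok 206) (iqb tp1276_c))) (BT.Fa_leaf (P := Itm.ok 206) (iqf tp1277_c))) (BT.Fa_mk (BT.Fa_mk (BT.Fa_leaf (P := Itm.ok 206) (iqb tp731_c)) (BT.Fa_leaf (P := Itm.ok 206) (iqb tp326_c))) (BT.Fa_leaf (P := Itm.ok 206) (iqf tp572_c)))))))))

/-- all words of the class have labels -/
theorem pokNFzAzE2A2Ax3xA2A2EzAyF : POK 206 xNFzAzE2A2Ax3xA2A2EzAyF :=
  y_pok (C0 := ceNFzAzE2A2Ax3xA2A2EzAyF) (C1 := coNFzAzE2A2Ax3xA2A2EzAyF) topNFzAzE2A2Ax3xA2A2EzAyF nbNFzAzE2A2Ax3xA2A2EzAyF (BT.Fa_of_all iiNFzAzE2A2Ax3xA2A2EzAyF_c)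
    (cyE_spec zeNFzAzE2A2Ax3xA2A2EzAyF_0)
    (cyO_spec zoNFzAzE2A2Ax3xA2A2EzAyF_0)
    iiNFzAzE2A2Ax3xA2A2EzAyF_k

theorem iiNFzAzE2A2Ax3xA2A2EzAzF_k : iiNFzAzE2A2Ax3xA2A2EzAzF.Fa (Itm.ok 206) := (BT.Fa_mk (BT.Fa_mk (BT.Fa_mk (BT.Fa_mk (BT.Fa_mk (BT.Fa_mk (BT.Fa_mk (BT.Fa_mk (BT.Fa_leaf (P := Itm.ok 206) (iqf tp355_c)) (BT.Fa_leaf (P := Itm.ok 206) (iqb tp355_c))) (BT.Fa_leaf (P := Itm.ok 206) (iqf tp524_c))) (BT.Fa_mk (BT.Fa_mk (BT.Fa_leaf (P := Itm.ok 206) (iqb tp524_c)) (BT.Fa_leaf (P := Itm.ok 206) (iqf tp525_c))) (BT.Fa_leaf (P := Itm.ok 206) (iqb tp525_c)))) (BT.Fa_mk (BT.Fa_mk (BT.Fa_mk (BT.Fa_leaf (P := Itm.ok 206) (iqb tp295_c)) (BT.Fa_leaf (P := Itm.ok 206) (iqf tp399_c))) (BT.Fa_leaf (P := Itm.ok 206) (iqf tp371_c))) (BT.Fa_mk (BT.Fa_leaf (P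 := Itm.ok 206) (iqb tp371_c)) (BT.Fa_leaf (P := Itm.ok 206) (iqf tp403_c))))) (BT.Fa_mk (BT.Fa_mk (BT.Fa_mk (BT.Fa_mk (BT.Fa_leaf (P := Itm.ok 206) (iqb tp403_c)) (BT.Fa_leaf (P := Itm.ok 206) (iqf tp292_c))) (BT.Fa_leaf (P := Itm.ok 206) (iqf tp424_c))) (BT.Fa_mk (BT.Fa_mk (BT.Fa_leaf (P := Itm.ok 206) (iqf tp326_c)) (BT.Fa_leaf (P := Itm.ok 206) (iqb tp331_c))) (BT.Fa_leaf (P := Itm.ok 206) (iqb tp1250_c)))) (BT.Fa_mk (BT.Fa_mk (BT.Fa_mk (BT.Fa_leaf (P := Itm.ok 206) (iqf tp490_c)) (BT.Fa_leaf (P := Itm.ok 206) (iqb tp477_c))) (BT.Fa_leaf (P := Itm.ok 206) (iqf tp342_c))) (BT.Fa_mk (BT.Fa_leaf (P := Itm.ok 206) (iqb tp342_c)) (BT.Fa_leaf (P := Itm.ok 206) (iqb tp334_c)))))) (BT.Fa_mk (BT.Fa_mk (BT.Fa_mk (BT.Fa_mk (BT.Fa_mk (BT.Fa_leaf (P := Itm.ok 206)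 (iqf tp368_c)) (BT.Fa_leaf (P := Itm.ok 206) (iqb tp530_c))) (BT.Fa_leaf (P := Itm.ok 206) (iqf tp341_c))) (BT.Fa_mk (BT.Fa_mk (BT.Fa_leaf (P := Itm.ok 206) (iqb tp341_c)) (BT.Fa_leaf (P := Itm.ok 206) (iqf tp344_c))) (BT.Fa_leaf (P := Itm.ok 206) (iqf tp531_c)))) (BT.Fa_mk (BT.Fa_mk (BT.Fa_mk (BT.Fa_leaf (P := Itm.ok 206) (iqb tp531_c)) (BT.Fa_leaf (P := Itm.ok 206) (iqf tp319_c))) (BT.Fa_leaf (P := Itm.ok 206) (iqf tp405_c))) (BT.Fa_mk (BT.Fa_leaf (P := Itm.ok 206) (iqf tp378_c)) (BT.Fa_leaf (P := Itm.ok 206) (iqb tp351_c))))) (BT.Fa_mk (BT.Fa_mk (BT.Fa_mk (BT.Fa_mk (BT.Fa_leaf (P := Itm.ok 206) (iqf tp532_c)) (BT.Fa_leaf (P := Itm.ok 206) (iqf tp484_c))) (BT.Fa_leaf (P := Itm.ok 206) (iqb tp484_c))) (BT.Fa_mk (BT.Fa_mk (BT.Fa_leaf (P := Itm.ok 206)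 (iqf tp552_c)) (BT.Fa_leaf (P := Itm.ok 206) (iqb tp533_c))) (BT.Fa_leaf (P := Itm.ok 206) (iqf tp510_c)))) (BT.Fa_mk (BT.Fa_mk (BT.Fa_mk (BT.Fa_leaf (P := Itm.ok 206) (iqb tp1184_c)) (BT.Fa_leaf (P := Itm.ok 206) (iqb tp372_c))) (BT.Fa_leaf (P := Itm.ok 206) (iqf tp1162_c))) (BT.Fa_mk (BT.Fa_leaf (P := Itm.ok 206) (iqb tp501_c)) (BT.Fa_leaf (P := Itm.ok 206) (iqb tp349_c))))))) (BT.Fa_mk (BT.Fa_mk (BT.Fa_mk (BT.Fa_mk (BT.Fa_mk (BT.Fa_mk (BT.Fa_leaf (P := Itm.ok 206) (iqf tp499_c)) (BT.Fa_leaf (P := Itm.ok 206) (iqb tp356_c))) (BT.Fa_leaf (P := Itm.ok 206) (iqb tp554_c))) (BT.Fa_mk (BT.Fa_mk (BT.Fa_leaf (P := Itm.ok 206) (iqf tp534_c)) (BT.Fa_leaf (P := Itm.ok 206) (iqb tp558_c))) (BT.Fa_leaf (P := Itm.ok 206) (iqf tp504_c)))) (BT.Fa_mk (BT.Fa_mk (BT.Fa_mk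 (BT.Fa_leaf (P := Itm.ok 206) (iqb tp855_c)) (BT.Fa_leaf (P := Itm.ok 206) (iqb tp810_c))) (BT.Fa_leaf (P := Itm.ok 206) (iqf tp853_c))) (BT.Fa_mk (BT.Fa_leaf (P := Itm.ok 206) (iqf tp784_c)) (BT.Fa_leaf (P := Itm.ok 206) (iqf tp299_c))))) (BT.Fa_mk (BT.Fa_mk (BT.Fa_mk (BT.Fa_mk (BT.Fa_leaf (P := Itm.ok 206) (iqb tp385_c)) (BT.Fa_leaf (P := Itm.ok 206) (iqf tp536_c))) (BT.Fa_leaf (P := Itm.ok 206) (iqf tp348_c))) (BT.Fa_mk (BT.Fa_mk (BT.Fa_leaf (P := Itm.ok 206) (iqb tp426_c)) (BT.Fa_leaf (P := Itm.ok 206) (iqf tp1418_c))) (BT.Fa_leaf (P := Itm.ok 206) (iqf tp616_c)))) (BT.Fa_mk (BT.Fa_mk (BT.Fa_mk (BT.Fa_leaf (P := Itm.ok 206) (iqf tp350_c)) (BT.Fa_leaf (P := Itm.ok 206) (iqf tp861_c))) (BT.Fa_leaf (P := Itm.ok 206) (iqb tp359_c))) (BT.Fa_mk (BT.Fa_leaf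 (P := Itm.ok 206) (iqb tp361_c)) (BT.Fa_leaf (P := Itm.ok 206) (iqf tp364_c)))))) (BT.Fa_mk (BT.Fa_mk (BT.Fa_mk (BT.Fa_mk (BT.Fa_mk (BT.Fa_leaf (P := Itm.ok 206) (iqb tp364_c)) (BT.Fa_leaf (P := Itm.ok 206) (iqb tp327_c))) (BT.Fa_leaf (P := Itm.ok 206) (iqf tp335_c))) (BT.Fa_mk (BT.Fa_mk (BT.Fa_leaf (P := Itm.ok 206) (iqf tp312_c)) (BT.Fa_leaf (P := Itm.ok 206) (iqb tp340_c))) (BT.Fa_leaf (P := Itm.ok 206) (iqf tp289_c)))) (BT.Fa_mk (BT.Fa_mk (BT.Fa_mk (BT.Fa_leaf (P := Itm.ok 206) (iqf tp388_c)) (BT.Fa_leaf (P := Itm.ok 206) (iqf tp330_c))) (BT.Fa_leaf (P := Itm.ok 206) (iqf tp1000_c))) (BT.Fa_mk (BT.Fa_leaf (P := Itm.ok 206) (iqf tp347_c)) (BT.Fa_leaf (P := Itm.ok 206) (iqb tp376_c))))) (BT.Fa_mk (BT.Fa_mk (BT.Fa_mk (BT.Fa_mk (BT.Fa_leaf (P := Itm.ok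 206) (iqf tp353_c)) (BT.Fa_leaf (P := Itm.ok 206) (iqb tp358_c))) (BT.Fa_leaf (P := Itm.ok 206) (iqb tp360_c))) (BT.Fa_mk (BT.Fa_leaf (P := Itm.ok 206) (iqb tp339_c)) (BT.Fa_leaf (P := Itm.ok 206) (iqb tp1256_c)))) (BT.Fa_mk (BT.Fa_mk (BT.Fa_mk (BT.Fa_leaf (P := Itm.ok 206) (iqb tp1149_c)) (BT.Fa_leaf (P := Itm.ok 206) (iqb tp555_c))) (BT.Fa_leaf (P := Itm.ok 206) (iqf tp1213_c))) (BT.Fa_mk (BT.Fa_leaf (P := Itm.ok 206) (iqf tp1091_c)) (BT.Fa_leaf (P := Itm.ok 206) (iqb tp1091_c)))))))) (BT.Fa_mk (BT.Fa_mk (BT.Fa_mk (BT.Fa_mk (BT.Fa_mk (BT.Fa_mk (BT.Fa_mk (BT.Fa_leaf (P := Itm.ok 206) (iqf tp485_c)) (BT.Fa_leaf (P := Itm.ok 206) (iqf tp366_c))) (BT.Fa_leaf (P := Itm.ok 206) (iqb tp1169_c))) (BT.Fa_mk (BT.Fa_mk (BT.Fa_leaf (P := Itm.ok 206) (iqb tp632_c))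 (BT.Fa_leaf (P := Itm.ok 206) (iqf tp789_c))) (BT.Fa_leaf (P := Itm.ok 206) (iqf tp693_c)))) (BT.Fa_mk (BT.Fa_mk (BT.Fa_mk (BT.Fa_leaf (P := Itm.ok 206) (iqf tp478_c)) (BT.Fa_leaf (P := Itm.ok 206) (iqf tp882_c))) (BT.Fa_leaf (P := Itm.ok 206) (iqb tp1108_c))) (BT.Fa_mk (BT.Fa_leaf (P := Itm.ok 206) (iqf tp541_c)) (BT.Fa_leaf (P := Itm.ok 206) (iqb tp1269_c))))) (BT.Fa_mk (BT.Fa_mk (BT.Fa_mk (BT.Fa_mk (BT.Fa_leaf (P := Itm.ok 206) (iqf tp1135_c)) (BT.Fa_leaf (P := Itm.ok 206) (iqf tp496_c))) (BT.Fa_leaf (P := Itm.ok 206) (iqf tp494_c))) (BT.Fa_mk (BT.Fa_mk (BT.Fa_leaf (P := Itm.ok 206) (iqf tp542_c)) (BT.Fa_leaf (P := Itm.ok 206) (iqb tp542_c))) (BT.Fa_leaf (P := Itm.ok 206) (iqf tp509_c)))) (BT.Fa_mk (BT.Fa_mk (BT.Fa_mk (BT.Fa_leaf (P := Itm.ok 206) (iqf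 tp543_c)) (BT.Fa_leaf (P := Itm.ok 206) (iqb tp1092_c))) (BT.Fa_leaf (P := Itm.ok 206) (iqb tp650_c))) (BT.Fa_mk (BT.Fa_leaf (P := Itm.ok 206) (iqf tp557_c)) (BT.Fa_leaf (P := Itm.ok 206) (iqb tp1261_c)))))) (BT.Fa_mk (BT.Fa_mk (BT.Fa_mk (BT.Fa_mk (BT.Fa_mk (BT.Fa_leaf (P := Itm.ok 206) (iqb tp559_c)) (BT.Fa_leaf (P := Itm.ok 206) (iqf tp610_c))) (BT.Fa_leaf (P := Itm.ok 206) (iqb tp491_c))) (BT.Fa_mk (BT.Fa_mk (BT.Fa_leaf (P := Itm.ok 206) (iqb tp623_c)) (BT.Fa_leaf (P := Itm.ok 206) (iqf tp596_c))) (BT.Fa_leaf (P := Itm.ok 206) (iqb tp546_c)))) (BT.Fa_mk (BT.Fa_mk (BT.Fa_mk (BT.Fa_leaf (P := Itm.ok 206) (iqf tp547_c)) (BT.Fa_leaf (P := Itm.ok 206) (iqf tp444_c))) (BT.Fa_leaf (P := Itm.ok 206) (show Itm.ok 206 (.pat 3506 pq100) from (POK.mono (by decide)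 pq100_ok)))) (BT.Fa_mk (BT.Fa_leaf (P := Itm.ok 206) (show Itm.ok 206 (.pat 3548 pq101) from (POK.mono (by decide) pq101_ok))) (BT.Fa_leaf (P := Itm.ok 206) (iqf tp1082_c))))) (BT.Fa_mk (BT.Fa_mk (BT.Fa_mk (BT.Fa_mk (BT.Fa_leaf (P := Itm.ok 206) (iqf tp578_c)) (BT.Fa_leaf (P := Itm.ok 206) (iqf tp1094_c))) (BT.Fa_leaf (P := Itm.ok 206) (iqb tp1265_c))) (BT.Fa_mk (BT.Fa_leaf (P := Itm.ok 206) (iqf tp529_c)) (BT.Fa_leaf (P := Itm.ok 206) (iqb tp599_c)))) (BT.Fa_mk (BT.Fa_mk (BT.Fa_mk (BT.Fa_leaf (P := Itm.ok 206) (iqb tp495_c)) (BT.Fa_leaf (P := Itm.ok 206) (iqf tp417_c))) (BT.Fa_leaf (P := Itm.ok 206) (iqf tp526_c))) (BT.Fa_mk (BT.Fa_leaf (P := Itm.ok 206) (iqf tp351_c)) (BT.Fa_leaf (P := Itm.ok 206) (iqb tp397_c))))))) (BT.Fa_mk (BT.Fa_mk (BT.Fa_mk (BT.Fa_mk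 (BT.Fa_mk (BT.Fa_mk (BT.Fa_leaf (P := Itm.ok 206) (iqb tp504_c)) (BT.Fa_leaf (P := Itm.ok 206) (iqb tp897_c))) (BT.Fa_leaf (P := Itm.ok 206) (iqb tp1103_c))) (BT.Fa_mk (BT.Fa_mk (BT.Fa_leaf (P := Itm.ok 206) (iqb tp1368_c)) (BT.Fa_leaf (P := Itm.ok 206) (iqf tp1318_c))) (BT.Fa_leaf (P := Itm.ok 206) (iqb tp561_c)))) (BT.Fa_mk (BT.Fa_mk (BT.Fa_mk (BT.Fa_leaf (P := Itm.ok 206) (iqf tp436_c)) (BT.Fa_leaf (P := Itm.ok 206) (iqb tp398_c))) (BT.Fa_leaf (P := Itm.ok 206) (iqb tp461_c))) (BT.Fa_mk (BT.Fa_leaf (P := Itm.ok 206) (iqf tp563_c)) (BT.Fa_leaf (P := Itm.ok 206) (iqb tp614_c))))) (BT.Fa_mk (BT.Fa_mk (BT.Fa_mk (BT.Fa_mk (BT.Fa_leaf (P := Itm.ok 206) (iqb tp1010_c)) (BT.Fa_leaf (P := Itm.ok 206) (iqb tp568_c))) (BT.Fa_leaf (P := Itm.ok 206) (iqf tp1068_c)))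 (BT.Fa_mk (BT.Fa_mk (BT.Fa_leaf (P := Itm.ok 206) (iqb tp290_c)) (BT.Fa_leaf (P := Itm.ok 206) (iqf tp450_c))) (BT.Fa_leaf (P := Itm.ok 206) (iqf tp432_c)))) (BT.Fa_mk (BT.Fa_mk (BT.Fa_mk (BT.Fa_leaf (P := Itm.ok 206) (iqf tp1200_c)) (BT.Fa_leaf (P := Itm.ok 206) (iqb tp320_c))) (BT.Fa_leaf (P := Itm.ok 206) (iqb tp519_c))) (BT.Fa_mk (BT.Fa_leaf (P := Itm.ok 206) (iqb tp366_c)) (BT.Fa_leaf (P := Itm.ok 206) (iqb tp378_c)))))) (BT.Fa_mk (BT.Fa_mk (BT.Fa_mk (BT.Fa_mk (BT.Fa_mk (BT.Fa_leaf (P := Itm.ok 206) (iqb tp1109_c)) (BT.Fa_leaf (P := Itm.ok 206) (iqf tp571_c))) (BT.Fa_leaf (P := Itm.ok 206) (iqb tp318_c))) (BT.Fa_mk (BT.Fa_mk (BT.Fa_leaf (P := Itm.ok 206) (iqb tp445_c)) (BT.Fa_leaf (P := Itm.ok 206) (iqb tp1419_c))) (BT.Fa_leaf (P := Itm.ok 206) (iqf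 tp686_c)))) (BT.Fa_mk (BT.Fa_mk (BT.Fa_mk (BT.Fa_leaf (P := Itm.ok 206) (iqb tp1065_c)) (BT.Fa_leaf (P := Itm.ok 206) (iqf tp1420_c))) (BT.Fa_leaf (P := Itm.ok 206) (iqb tp1143_c))) (BT.Fa_mk (BT.Fa_leaf (P := Itm.ok 206) (iqb tp1355_c)) (BT.Fa_leaf (P := Itm.ok 206) (iqb tp1009_c))))) (BT.Fa_mk (BT.Fa_mk (BT.Fa_mk (BT.Fa_mk (BT.Fa_leaf (P := Itm.ok 206) (show Itm.ok 206 (.pat 4791 pq102) from (POK.mono (by decide) pq102_ok))) (BT.Fa_leaf (P := Itm.ok 206) (show Itm.ok 206 (.pat 4845 pq103) from (POK.mono (by decide) pq103_ok)))) (BT.Fa_leaf (P := Itm.ok 206) (iqb tp944_c))) (BT.Fa_mk (BT.Fa_leaf (P := Itm.ok 206) (iqf tp392_c)) (BT.Fa_leaf (P := Itm.ok 206) (iqb tp532_c)))) (BT.Fa_mk (BT.Fa_mk (BT.Fa_mk (BT.Fa_leaf (P := Itm.ok 206) (iqf tp404_c)) (BT.Fa_leaf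 (P := Itm.ok 206) (iqf tp488_c))) (BT.Fa_leaf (P := Itm.ok 206) (show Itm.ok 206 (.pat 5028 pq104) from (POK.mono (by decide) pq104_ok)))) (BT.Fa_mk (BT.Fa_leaf (P := Itm.ok 206) (iqb tp1057_c)) (BT.Fa_leaf (P := Itm.ok 206) (iqf tp1180_c)))))))))

/-- all words of the class have labels -/
theorem pokNFzAzE2A2Ax3xA2A2EzAzF : POK 206 xNFzAzE2A2Ax3xA2A2EzAzF :=
  y_pok (C0 := ceNFzAzE2A2Ax3xA2A2EzAzF) (C1 := coNFzAzE2A2Ax3xA2A2EzAzF) topNFzAzE2A2Ax3xA2A2EzAzF nbNFzAzE2A2Ax3xA2A2EzAzF (BT.Fa_of_all iiNFzAzE2A2Ax3xA2A2EzAzF_c)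
    (cyE_spec zeNFzAzE2A2Ax3xA2A2EzAzF_0)
    (cyO_spec zoNFzAzE2A2Ax3xA2A2EzAzF_0)
    iiNFzAzE2A2Ax3xA2A2EzAzF_k

theorem iiNFzAzE2A2Ax3xA2AyEzAzF_k : iiNFzAzE2A2Ax3xA2AyEzAzF.Fa (Itm.ok 206) := (BT.Fa_mk (BT.Fa_mk (BT.Fa_mk (BT.Fa_mk (BT.Fa_mk (BT.Fa_mk (BT.Fa_mk (BT.Fa_mk (BT.Fa_leaf (P := Itm.ok 206) (iqb tp355_c)) (BT.Fa_leaf (P := Itm.ok 206) (iqf tp524_c))) (BT.Fa_leaf (P := Itm.ok 206) (iqf tp461_c))) (BT.Fa_mk (BT.Fa_leaf (P := Itm.ok 206) (iqb tp525_c)) (BT.Fa_leaf (P := Itm.ok 206) (iqf tp447_c)))) (BT.Fa_mk (BT.Fa_mk (BT.Fa_leaf (P := Itm.ok 206) (iqf tp399_c)) (BT.Fa_leaf (P := Itm.ok 206) (iqf tp371_c))) (BT.Fa_mk (BT.Fa_leaf (P := Itm.ok 206) (iqf tp403_c)) (BT.Fa_leaf (P := Itm.ok 206) (iqb tp403_c))))) (BT.Fa_mk (BT.Fa_mk (BT.Fa_mk (BT.Fa_mk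 (BT.Fa_leaf (P := Itm.ok 206) (iqf tp292_c)) (BT.Fa_leaf (P := Itm.ok 206) (iqf tp326_c))) (BT.Fa_leaf (P := Itm.ok 206) (iqb tp326_c))) (BT.Fa_mk (BT.Fa_leaf (P := Itm.ok 206) (iqf tp331_c)) (BT.Fa_leaf (P := Itm.ok 206) (iqb tp331_c)))) (BT.Fa_mk (BT.Fa_mk (BT.Fa_leaf (P := Itm.ok 206) (iqf tp490_c)) (BT.Fa_leaf (P := Itm.ok 206) (iqf tp477_c))) (BT.Fa_mk (BT.Fa_leaf (P := Itm.ok 206) (iqf tp514_c)) (BT.Fa_leaf (P := Itm.ok 206) (iqf tp342_c)))))) (BT.Fa_mk (BT.Fa_mk (BT.Fa_mk (BT.Fa_mk (BT.Fa_mk (BT.Fa_leaf (P := Itm.ok 206) (iqb tp342_c)) (BT.Fa_leaf (P := Itm.ok 206) (iqf tp334_c))) (BT.Fa_leaf (P := Itm.ok 206) (iqb tp334_c))) (BT.Fa_mk (BT.Fa_leaf (P := Itm.ok 206) (iqf tp368_c)) (BT.Fa_leaf (P := Itm.ok 206) (iqf tp341_c)))) (BT.Fa_mk (BT.Fa_mk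 (BT.Fa_leaf (P := Itm.ok 206) (iqb tp341_c)) (BT.Fa_leaf (P := Itm.ok 206) (iqf tp531_c))) (BT.Fa_mk (BT.Fa_leaf (P := Itm.ok 206) (iqb tp531_c)) (BT.Fa_leaf (P := Itm.ok 206) (iqf tp319_c))))) (BT.Fa_mk (BT.Fa_mk (BT.Fa_mk (BT.Fa_leaf (P := Itm.ok 206) (iqf tp404_c)) (BT.Fa_leaf (P := Itm.ok 206) (iqf tp1157_c))) (BT.Fa_mk (BT.Fa_leaf (P := Itm.ok 206) (iqb tp378_c)) (BT.Fa_leaf (P := Itm.ok 206) (iqb tp351_c)))) (BT.Fa_mk (BT.Fa_mk (BT.Fa_leaf (P := Itm.ok 206) (iqf tp484_c)) (BT.Fa_leaf (P := Itm.ok 206) (iqb tp533_c))) (BT.Fa_mk (BT.Fa_leaf (P := Itm.ok 206) (iqf tp510_c)) (BT.Fa_leaf (P := Itm.ok 206) (iqb tp553_c))))))) (BT.Fa_mk (BT.Fa_mk (BT.Fa_mk (BT.Fa_mk (BT.Fa_mk (BT.Fa_mk (BT.Fa_leaf (P := Itm.ok 206) (iqf tp578_c)) (BT.Fa_leaf (P := Itm.ok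 206) (iqb tp372_c))) (BT.Fa_leaf (P := Itm.ok 206) (iqb tp501_c))) (BT.Fa_mk (BT.Fa_leaf (P := Itm.ok 206) (iqf tp499_c)) (BT.Fa_leaf (P := Itm.ok 206) (iqf tp356_c)))) (BT.Fa_mk (BT.Fa_mk (BT.Fa_leaf (P := Itm.ok 206) (iqb tp554_c)) (BT.Fa_leaf (P := Itm.ok 206) (iqf tp534_c))) (BT.Fa_mk (BT.Fa_leaf (P := Itm.ok 206) (iqf tp504_c)) (BT.Fa_leaf (P := Itm.ok 206) (iqf tp1119_c))))) (BT.Fa_mk (BT.Fa_mk (BT.Fa_mk (BT.Fa_leaf (P := Itm.ok 206) (iqb tp354_c)) (BT.Fa_leaf (P := Itm.ok 206) (iqf tp375_c))) (BT.Fa_mk (BT.Fa_leaf (P := Itm.ok 206) (iqb tp1043_c)) (BT.Fa_leaf (P := Itm.ok 206) (iqf tp350_c)))) (BT.Fa_mk (BT.Fa_mk (BT.Fa_leaf (P := Itm.ok 206) (iqf tp361_c)) (BT.Fa_leaf (P := Itm.ok 206) (iqb tp361_c))) (BT.Fa_mk (BT.Fa_leaf (P := Itm.ok 206) (iqf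 tp364_c)) (BT.Fa_leaf (P := Itm.ok 206) (iqb tp653_c)))))) (BT.Fa_mk (BT.Fa_mk (BT.Fa_mk (BT.Fa_mk (BT.Fa_mk (BT.Fa_leaf (P := Itm.ok 206) (iqf tp312_c)) (BT.Fa_leaf (P := Itm.ok 206) (iqf tp450_c))) (BT.Fa_leaf (P := Itm.ok 206) (iqf tp401_c))) (BT.Fa_mk (BT.Fa_leaf (P := Itm.ok 206) (iqb tp433_c)) (BT.Fa_leaf (P := Itm.ok 206) (iqb tp360_c)))) (BT.Fa_mk (BT.Fa_mk (BT.Fa_leaf (P := Itm.ok 206) (iqf tp365_c)) (BT.Fa_leaf (P := Itm.ok 206) (iqb tp407_c))) (BT.Fa_mk (BT.Fa_leaf (P := Itm.ok 206) (iqf tp1049_c)) (BT.Fa_leaf (P := Itm.ok 206) (iqf tp511_c))))) (BT.Fa_mk (BT.Fa_mk (BT.Fa_mk (BT.Fa_leaf (P := Itm.ok 206) (iqb tp550_c)) (BT.Fa_leaf (P := Itm.ok 206) (iqf tp590_c))) (BT.Fa_mk (BT.Fa_leaf (P := Itm.ok 206) (iqf tp539_c)) (BT.Fa_leaf (P := Itm.ok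 206) (iqb tp555_c)))) (BT.Fa_mk (BT.Fa_mk (BT.Fa_leaf (P := Itm.ok 206) (iqf tp366_c)) (BT.Fa_leaf (P := Itm.ok 206) (iqb tp410_c))) (BT.Fa_mk (BT.Fa_leaf (P := Itm.ok 206) (iqf tp1102_c)) (BT.Fa_leaf (P := Itm.ok 206) (iqb tp609_c)))))))) (BT.Fa_mk (BT.Fa_mk (BT.Fa_mk (BT.Fa_mk (BT.Fa_mk (BT.Fa_mk (BT.Fa_mk (BT.Fa_leaf (P := Itm.ok 206) (iqb tp632_c)) (BT.Fa_leaf (P := Itm.ok 206) (iqb tp395_c))) (BT.Fa_leaf (P := Itm.ok 206) (iqb tp363_c))) (BT.Fa_mk (BT.Fa_leaf (P := Itm.ok 206) (iqf tp1421_c)) (BT.Fa_leaf (P := Itm.ok 206) (iqb tp508_c)))) (BT.Fa_mk (BT.Fa_mk (BT.Fa_leaf (P := Itm.ok 206) (iqf tp542_c)) (BT.Fa_leaf (P := Itm.ok 206) (iqf tp509_c))) (BT.Fa_mk (BT.Fa_leaf (P := Itm.ok 206) (iqf tp543_c)) (BT.Fa_leaf (P := Itm.ok 206) (iqf tp596_c)))))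 (BT.Fa_mk (BT.Fa_mk (BT.Fa_mk (BT.Fa_mk (BT.Fa_leaf (P := Itm.ok 206) (iqb tp546_c)) (BT.Fa_leaf (P := Itm.ok 206) (iqf tp444_c))) (BT.Fa_leaf (P := Itm.ok 206) (iqb tp1080_c))) (BT.Fa_mk (BT.Fa_leaf (P := Itm.ok 206) (iqf tp1267_c)) (BT.Fa_leaf (P := Itm.ok 206) (show Itm.ok 206 (.pat 2475 pq105) from (POK.mono (by decide) pq105_ok))))) (BT.Fa_mk (BT.Fa_mk (BT.Fa_leaf (P := Itm.ok 206) (iqb tp319_c)) (BT.Fa_leaf (P := Itm.ok 206) (iqb tp662_c))) (BT.Fa_mk (BT.Fa_leaf (P := Itm.ok 206) (iqf tp600_c)) (BT.Fa_leaf (P := Itm.ok 206) (iqb tp532_c)))))) (BT.Fa_mk (BT.Fa_mk (BT.Fa_mk (BT.Fa_mk (BT.Fa_mk (BT.Fa_leaf (P := Itm.ok 206) (iqf tp547_c)) (BT.Fa_leaf (P := Itm.ok 206) (iqb tp490_c))) (BT.Fa_leaf (P := Itm.ok 206) (iqf tp405_c))) (BT.Fa_mk (BT.Fa_leaf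 (P := Itm.ok 206) (iqf tp536_c)) (BT.Fa_leaf (P := Itm.ok 206) (iqb tp595_c)))) (BT.Fa_mk (BT.Fa_mk (BT.Fa_leaf (P := Itm.ok 206) (iqf tp529_c)) (BT.Fa_leaf (P := Itm.ok 206) (iqf tp1065_c))) (BT.Fa_mk (BT.Fa_leaf (P := Itm.ok 206) (iqf tp289_c)) (BT.Fa_leaf (P := Itm.ok 206) (iqb tp558_c))))) (BT.Fa_mk (BT.Fa_mk (BT.Fa_mk (BT.Fa_leaf (P := Itm.ok 206) (iqb tp606_c)) (BT.Fa_leaf (P := Itm.ok 206) (iqf tp1061_c))) (BT.Fa_mk (BT.Fa_leaf (P := Itm.ok 206) (iqf tp526_c)) (BT.Fa_leaf (P := Itm.ok 206) (iqb tp530_c)))) (BT.Fa_mk (BT.Fa_mk (BT.Fa_leaf (P := Itm.ok 206) (iqf tp698_c)) (BT.Fa_leaf (P := Itm.ok 206) (iqb tp559_c))) (BT.Fa_mk (BT.Fa_leaf (P := Itm.ok 206) (iqb tp524_c)) (BT.Fa_leaf (P := Itm.ok 206) (iqb tp1385_c))))))) (BT.Fa_mk (BT.Fa_mk (BT.Fa_mk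 (BT.Fa_mk (BT.Fa_mk (BT.Fa_mk (BT.Fa_leaf (P := Itm.ok 206) (iqf tp882_c)) (BT.Fa_leaf (P := Itm.ok 206) (iqf tp552_c))) (BT.Fa_leaf (P := Itm.ok 206) (iqf tp1162_c))) (BT.Fa_mk (BT.Fa_leaf (P := Itm.ok 206) (iqf tp693_c)) (BT.Fa_leaf (P := Itm.ok 206) (iqf tp557_c)))) (BT.Fa_mk (BT.Fa_mk (BT.Fa_leaf (P := Itm.ok 206) (iqb tp1422_c)) (BT.Fa_leaf (P := Itm.ok 206) (iqf tp348_c))) (BT.Fa_mk (BT.Fa_leaf (P := Itm.ok 206) (show Itm.ok 206 (.pat 3440 pq106) from (POK.mono (by decide) pq106_ok))) (BT.Fa_leaf (P := Itm.ok 206) (iqf tp351_c))))) (BT.Fa_mk (BT.Fa_mk (BT.Fa_mk (BT.Fa_leaf (P := Itm.ok 206) (iqf tp347_c)) (BT.Fa_leaf (P := Itm.ok 206) (iqf tp386_c))) (BT.Fa_mk (BT.Fa_leaf (P := Itm.ok 206) (iqb tp426_c)) (BT.Fa_leaf (P := Itm.ok 206) (iqf tp1143_c))))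 (BT.Fa_mk (BT.Fa_mk (BT.Fa_leaf (P := Itm.ok 206) (iqb tp1070_c)) (BT.Fa_leaf (P := Itm.ok 206) (iqf tp436_c))) (BT.Fa_mk (BT.Fa_leaf (P := Itm.ok 206) (iqb tp1197_c)) (BT.Fa_leaf (P := Itm.ok 206) (iqb tp1414_c)))))) (BT.Fa_mk (BT.Fa_mk (BT.Fa_mk (BT.Fa_mk (BT.Fa_mk (BT.Fa_leaf (P := Itm.ok 206) (iqb tp1050_c)) (BT.Fa_leaf (P := Itm.ok 206) (iqb tp519_c))) (BT.Fa_leaf (P := Itm.ok 206) (iqf tp1423_c))) (BT.Fa_mk (BT.Fa_leaf (P := Itm.ok 206) (iqb tp568_c)) (BT.Fa_leaf (P := Itm.ok 206) (iqf tp1341_c)))) (BT.Fa_mk (BT.Fa_mk (BT.Fa_leaf (P := Itm.ok 206) (iqf tp388_c)) (BT.Fa_leaf (P := Itm.ok 206) (iqf tp614_c))) (BT.Fa_mk (BT.Fa_leaf (P := Itm.ok 206) (iqf tp610_c)) (BT.Fa_leaf (P := Itm.ok 206) (iqb tp577_c))))) (BT.Fa_mk (BT.Fa_mk (BT.Fa_mk (BT.Fa_leaf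 (P := Itm.ok 206) (iqb tp452_c)) (BT.Fa_leaf (P := Itm.ok 206) (iqb tp364_c))) (BT.Fa_mk (BT.Fa_leaf (P := Itm.ok 206) (iqb tp295_c)) (BT.Fa_leaf (P := Itm.ok 206) (iqb tp981_c)))) (BT.Fa_mk (BT.Fa_mk (BT.Fa_leaf (P := Itm.ok 206) (iqb tp607_c)) (BT.Fa_leaf (P := Itm.ok 206) (iqb tp1424_c))) (BT.Fa_mk (BT.Fa_leaf (P := Itm.ok 206) (iqf tp377_c)) (BT.Fa_leaf (P := Itm.ok 206) (iqf tp563_c)))))))))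

/-- all words of the class have labels -/
theorem pokNFzAzE2A2Ax3xA2AyEzAzF : POK 206 xNFzAzE2A2Ax3xA2AyEzAzF :=
  y_pok (C0 := ceNFzAzE2A2Ax3xA2AyEzAzF) (C1 := coNFzAzE2A2Ax3xA2AyEzAzF) topNFzAzE2A2Ax3xA2AyEzAzF nbNFzAzE2A2Ax3xA2AyEzAzF (BT.Fa_of_all iiNFzAzE2A2Ax3xA2AyEzAzF_c)
    (cyE_spec zeNFzAzE2A2Ax3xA2AyEzAzF_0)
    (cyO_spec zoNFzAzE2A2Ax3xA2AyEzAzF_0)
    iiNFzAzE2A2Ax3xA2AyEzAzF_k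

theorem iiNFzB3F_k : iiNFzB3F.Fa (Itm.ok 206) := (BT.Fa_mk (BT.Fa_mk (BT.Fa_mk (BT.Fa_mk (BT.Fa_mk (BT.Fa_mk (BT.Fa_leaf (P := Itm.ok 206) (iqf tp115_c)) (BT.Fa_leaf (P := Itm.ok 206) (iqb tp0_c))) (BT.Fa_leaf (P := Itm.ok 206) (iqf tp116_c))) (BT.Fa_mk (BT.Fa_mk (BT.Fa_leaf (P := Itm.ok 206) (iqb tp98_c)) (BT.Fa_leaf (P := Itm.ok 206) (iqf tp91_c))) (BT.Fa_leaf (P := Itm.ok 206) (iqf tp0_c)))) (BT.Fa_mk (BT.Fa_mk (BT.Fa_mk (BT.Fa_leaf (P := Itm.ok 206) (iqf tp34_c)) (BT.Fa_leaf (P := Itm.ok 206) (iqb tp117_c))) (BT.Fa_leaf (P := Itm.ok 206) (iqb tp118_c))) (BT.Fa_mk (BT.Fa_mk (BT.Fa_leaf (P := Itm.ok 206) (iqb tp115_c)) (BT.Fa_leaf (P := Itm.ok 206) (iqf tp119_c))) (BT.Fa_leaf (P := Itm.ok 206) (iqf tp120_c))))) (BT.Fa_mk (BT.Fa_mk (BT.Fa_mk (BT.Fa_mk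 (BT.Fa_leaf (P := Itm.ok 206) (iqb tp121_c)) (BT.Fa_leaf (P := Itm.ok 206) (iqf tp117_c))) (BT.Fa_leaf (P := Itm.ok 206) (iqf tp122_c))) (BT.Fa_mk (BT.Fa_mk (BT.Fa_leaf (P := Itm.ok 206) (iqb tp123_c)) (BT.Fa_leaf (P := Itm.ok 206) (iqf tp124_c))) (BT.Fa_leaf (P := Itm.ok 206) (iqb tp125_c)))) (BT.Fa_mk (BT.Fa_mk (BT.Fa_mk (BT.Fa_leaf (P := Itm.ok 206) (iqb tp126_c)) (BT.Fa_leaf (P := Itm.ok 206) (iqf tp127_c))) (BT.Fa_leaf (P := Itm.ok 206) (iqb tp128_c))) (BT.Fa_mk (BT.Fa_leaf (P := Itm.ok 206) (iqb tp129_c)) (BT.Fa_leaf (P := Itm.ok 206) (iqf tp130_c)))))) (BT.Fa_mk (BT.Fa_mk (BT.Fa_mk (BT.Fa_mk (BT.Fa_mk (BT.Fa_leaf (P := Itm.ok 206) (iqb tp131_c)) (BT.Fa_leaf (P := Itm.ok 206) (iqb tp132_c))) (BT.Fa_leaf (P := Itm.ok 206) (iqb tp133_c))) (BT.Fa_mk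 (BT.Fa_mk (BT.Fa_leaf (P := Itm.ok 206) (iqf tp134_c)) (BT.Fa_leaf (P := Itm.ok 206) (iqf tp135_c))) (BT.Fa_leaf (P := Itm.ok 206) (iqf tp136_c)))) (BT.Fa_mk (BT.Fa_mk (BT.Fa_mk (BT.Fa_leaf (P := Itm.ok 206) (iqf tp137_c)) (BT.Fa_leaf (P := Itm.ok 206) (iqf tp138_c))) (BT.Fa_leaf (P := Itm.ok 206) (iqf tp139_c))) (BT.Fa_mk (BT.Fa_mk (BT.Fa_leaf (P := Itm.ok 206) (iqf tp26_c)) (BT.Fa_leaf (P := Itm.ok 206) (iqb tp26_c))) (BT.Fa_leaf (P := Itm.ok 206) (iqf tp140_c))))) (BT.Fa_mk (BT.Fa_mk (BT.Fa_mk (BT.Fa_mk (BT.Fa_leaf (P := Itm.ok 206) (iqb tp141_c)) (BT.Fa_leaf (P := Itm.ok 206) (iqb tp142_c))) (BT.Fa_leaf (P := Itm.ok 206) (iqf tp143_c))) (BT.Fa_mk (BT.Fa_mk (BT.Fa_leaf (P := Itm.ok 206) (iqb tp144_c)) (BT.Fa_leaf (P := Itm.ok 206) (iqf tp145_c))) (BT.Fa_leaf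 (P := Itm.ok 206) (iqf tp146_c)))) (BT.Fa_mk (BT.Fa_mk (BT.Fa_mk (BT.Fa_leaf (P := Itm.ok 206) (iqf tp148_c)) (BT.Fa_leaf (P := Itm.ok 206) (iqf tp149_c))) (BT.Fa_leaf (P := Itm.ok 206) (iqf tp150_c))) (BT.Fa_mk (BT.Fa_leaf (P := Itm.ok 206) (iqf tp151_c)) (BT.Fa_leaf (P := Itm.ok 206) (iqb tp152_c)))))))

/-- all words of the class have labels -/
theorem pokNFzB3F : POK 206 xNFzB3F :=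
  y_pok (C0 := ceNFzB3F) (C1 := coNFzB3F) topNFzB3F nbNFzB3F (BT.Fa_of_all iiNFzB3F_c)
    (cyE_spec zeNFzB3F_0)
    (cyO_spec zoNFzB3F_0)
    iiNFzB3F_k

theorem iiNFzE2A3BzIzB2A3A2E_k : iiNFzE2A3BzIzB2A3A2E.Fa (Itm.ok 206) := (BT.Fa_mk (BT.Fa_mk (BT.Fa_mk (BT.Fa_mk (BT.Fa_mk (BT.Fa_leaf (P := Itm.ok 206) (iqb tp1576_c)) (BT.Fa_leaf (P := Itm.ok 206) (iqb tp1588_c))) (BT.Fa_leaf (P := Itm.ok 206) (iqf tp292_c))) (BT.Fa_mk (BT.Fa_leaf (P := Itm.ok 206) (iqf tp1420_c)) (BT.Fa_leaf (P := Itm.ok 206) (iqb tp295_c)))) (BT.Fa_mk (BT.Fa_mk (BT.Fa_mk (BT.Fa_leaf (P := Itm.ok 206) (iqb tp361_c)) (BT.Fa_leaf (P := Itm.ok 206) (iqf tp366_c))) (BT.Fa_leaf (P := Itm.ok 206) (iqb tp391_c))) (BT.Fa_mk (BT.Fa_leaf (P := Itm.ok 206) (iqb tp377_c)) (BT.Fa_leaf (P := Itm.ok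 206) (iqf tp1037_c))))) (BT.Fa_mk (BT.Fa_mk (BT.Fa_mk (BT.Fa_mk (BT.Fa_leaf (P := Itm.ok 206) (iqb tp1730_c)) (BT.Fa_leaf (P := Itm.ok 206) (iqb tp307_c))) (BT.Fa_leaf (P := Itm.ok 206) (iqf tp1678_c))) (BT.Fa_mk (BT.Fa_leaf (P := Itm.ok 206) (iqf tp1731_c)) (BT.Fa_leaf (P := Itm.ok 206) (iqb tp452_c)))) (BT.Fa_mk (BT.Fa_mk (BT.Fa_leaf (P := Itm.ok 206) (iqb tp331_c)) (BT.Fa_leaf (P := Itm.ok 206) (iqf tp1732_c))) (BT.Fa_mk (BT.Fa_leaf (P := Itm.ok 206) (iqb tp477_c)) (BT.Fa_leaf (P := Itm.ok 206) (iqb tp1733_c))))))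

/-- all words of the class have labels -/
theorem pokNFzE2A3BzIzB2A3A2E : POK 206 xNFzE2A3BzIzB2A3A2E :=
  y_pok (C0 := ceNFzE2A3BzIzB2A3A2E) (C1 := coNFzE2A3BzIzB2A3A2E) topNFzE2A3BzIzB2A3A2E nbNFzE2A3BzIzB2A3A2E (BT.Fa_of_all iiNFzE2A3BzIzB2A3A2E_c)
    (cyE_spec zeNFzE2A3BzIzB2A3A2E_0)
    (cyO_spec zoNFzE2A3BzIzB2A3A2E_0)
    iiNFzE2A3BzIzB2A3A2E_k

theorem iiNFzE2B3BzIzB2B3B2E_k : iiNFzE2B3BzIzB2B3B2E.Fa (Itm.ok 206) := (BT.Fa_mk (BT.Fa_mk (BT.Fa_mk (BT.Fa_mk (BT.Fa_mk (BT.Fa_mk (BT.Fa_mk (BT.Fa_leaf (P := Itm.ok 206) (iqb tp1576_c)) (BT.Fa_leaf (P := Itm.ok 206) (iqb tp2209_c))) (BT.Fa_leaf (P := Itm.ok 206) (iqb tp2847_c))) (BT.Fa_mk (BT.Fa_leaf (P := Itm.ok 206) (iqb tp2848_c)) (BT.Fa_leaf (P := Itm.ok 206) (iqf tp2212_c)))) (BT.Fa_mk (BT.Fa_mk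 (BT.Fa_leaf (P := Itm.ok 206) (iqb tp2849_c)) (BT.Fa_leaf (P := Itm.ok 206) (iqb tp295_c))) (BT.Fa_mk (BT.Fa_leaf (P := Itm.ok 206) (iqf tp1577_c)) (BT.Fa_leaf (P := Itm.ok 206) (iqf tp361_c))))) (BT.Fa_mk (BT.Fa_mk (BT.Fa_mk (BT.Fa_leaf (P := Itm.ok 206) (iqf tp329_c)) (BT.Fa_leaf (P := Itm.ok 206) (iqb tp2211_c))) (BT.Fa_mk (BT.Fa_leaf (P := Itm.ok 206) (iqf tp1771_c)) (BT.Fa_leaf (P := Itm.ok 206) (iqb tp1744_c)))) (BT.Fa_mk (BT.Fa_mk (BT.Fa_leaf (P := Itm.ok 206) (iqb tp2850_c)) (BT.Fa_leaf (P := Itm.ok 206) (iqf tp2851_c))) (BT.Fa_mk (BT.Fa_leaf (P := Itm.ok 206) (iqb tp2206_c)) (BT.Fa_leaf (P := Itm.ok 206) (iqb tp2852_c)))))) (BT.Fa_mk (BT.Fa_mk (BT.Fa_mk (BT.Fa_mk (BT.Fa_mk (BT.Fa_leaf (P := Itm.ok 206) (iqb tp1786_c)) (BT.Fa_leaf (P := Itm.ok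 206) (iqf tp1768_c))) (BT.Fa_leaf (P := Itm.ok 206) (iqb tp2853_c))) (BT.Fa_mk (BT.Fa_leaf (P := Itm.ok 206) (iqf tp1664_c)) (BT.Fa_leaf (P := Itm.ok 206) (iqb tp1799_c)))) (BT.Fa_mk (BT.Fa_mk (BT.Fa_leaf (P := Itm.ok 206) (iqb tp1182_c)) (BT.Fa_leaf (P := Itm.ok 206) (iqf tp1794_c))) (BT.Fa_mk (BT.Fa_leaf (P := Itm.ok 206) (iqb tp2214_c)) (BT.Fa_leaf (P := Itm.ok 206) (iqb tp2854_c))))) (BT.Fa_mk (BT.Fa_mk (BT.Fa_mk (BT.Fa_leaf (P := Itm.ok 206) (iqb tp1588_c)) (BT.Fa_leaf (P := Itm.ok 206) (iqb tp2219_c))) (BT.Fa_mk (BT.Fa_leaf (P := Itm.ok 206) (iqb tp656_c)) (BT.Fa_leaf (P := Itm.ok 206) (iqb tp1781_c)))) (BT.Fa_mk (BT.Fa_mk (BT.Fa_leaf (P := Itm.ok 206) (iqb tp1787_c)) (BT.Fa_leaf (P := Itm.ok 206) (iqf tp1821_c))) (BT.Fa_mk (BT.Fa_leaf (P := Itm.ok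 206) (iqf tp1576_c)) (BT.Fa_leaf (P := Itm.ok 206) (iqf tp1785_c))))))) (BT.Fa_mk (BT.Fa_mk (BT.Fa_mk (BT.Fa_mk (BT.Fa_mk (BT.Fa_mk (BT.Fa_leaf (P := Itm.ok 206) (iqf tp1588_c)) (BT.Fa_leaf (P := Itm.ok 206) (iqb tp2229_c))) (BT.Fa_leaf (P := Itm.ok 206) (iqf tp514_c))) (BT.Fa_mk (BT.Fa_leaf (P := Itm.ok 206) (iqb tp2230_c)) (BT.Fa_leaf (P := Itm.ok 206) (iqb tp2210_c)))) (BT.Fa_mk (BT.Fa_mk (BT.Fa_leaf (P := Itm.ok 206) (iqb tp2855_c)) (BT.Fa_leaf (P := Itm.ok 206) (iqf tp2222_c))) (BT.Fa_mk (BT.Fa_leaf (P := Itm.ok 206) (iqf tp2215_c)) (BT.Fa_leaf (P := Itm.ok 206) (iqf tp2220_c))))) (BT.Fa_mk (BT.Fa_mk (BT.Fa_mk (BT.Fa_leaf (P := Itm.ok 206) (iqf tp1580_c)) (BT.Fa_leaf (P := Itm.ok 206) (iqb tp1822_c))) (BT.Fa_mk (BT.Fa_leaf (P := Itm.ok 206) (iqb tp1774_c))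 (BT.Fa_leaf (P := Itm.ok 206) (iqb tp1776_c)))) (BT.Fa_mk (BT.Fa_mk (BT.Fa_leaf (P := Itm.ok 206) (iqf tp2856_c)) (BT.Fa_leaf (P := Itm.ok 206) (iqf tp1855_c))) (BT.Fa_mk (BT.Fa_leaf (P := Itm.ok 206) (iqf tp1792_c)) (BT.Fa_leaf (P := Itm.ok 206) (iqf tp2857_c)))))) (BT.Fa_mk (BT.Fa_mk (BT.Fa_mk (BT.Fa_mk (BT.Fa_leaf (P := Itm.ok 206) (iqb tp2235_c)) (BT.Fa_leaf (P := Itm.ok 206) (iqb tp361_c))) (BT.Fa_mk (BT.Fa_leaf (P := Itm.ok 206) (iqb tp1606_c)) (BT.Fa_leaf (P := Itm.ok 206) (iqf tp2858_c)))) (BT.Fa_mk (BT.Fa_mk (BT.Fa_leaf (P := Itm.ok 206) (iqb tp2859_c)) (BT.Fa_leaf (P := Itm.ok 206) (iqf tp2208_c))) (BT.Fa_mk (BT.Fa_leaf (P := Itm.ok 206) (iqf tp1731_c)) (BT.Fa_leaf (P := Itm.ok 206) (iqf tp292_c))))) (BT.Fa_mk (BT.Fa_mk (BT.Fa_mk (BT.Fa_leaf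 (P := Itm.ok 206) (iqb tp1747_c)) (BT.Fa_leaf (P := Itm.ok 206) (iqf tp2506_c))) (BT.Fa_mk (BT.Fa_leaf (P := Itm.ok 206) (iqf tp342_c)) (BT.Fa_leaf (P := Itm.ok 206) (iqb tp2860_c)))) (BT.Fa_mk (BT.Fa_mk (BT.Fa_leaf (P := Itm.ok 206) (iqf tp1798_c)) (BT.Fa_leaf (P := Itm.ok 206) (iqf tp2861_c))) (BT.Fa_mk (BT.Fa_leaf (P := Itm.ok 206) (iqf tp633_c)) (BT.Fa_leaf (P := Itm.ok 206) (iqf tp2862_c))))))))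

/-- all words of the class have labels -/
theorem pokNFzE2B3BzIzB2B3B2E : POK 206 xNFzE2B3BzIzB2B3B2E :=
  y_pok (C0 := ceNFzE2B3BzIzB2B3B2E) (C1 := coNFzE2B3BzIzB2B3B2E) topNFzE2B3BzIzB2B3B2E nbNFzE2B3BzIzB2B3B2E (BT.Fa_of_all iiNFzE2B3BzIzB2B3B2E_c)
    (cyE_spec zeNFzE2B3BzIzB2B3B2E_0)
    (cyO_spec zoNFzE2B3BzIzB2B3B2E_0)
    iiNFzE2B3BzIzB2B3B2E_k

theorem iiNFzE2B3BzIzB2ByA3B2E_k : iiNFzE2B3BzIzB2ByA3B2E.Fa (Itm.ok 206) := (BT.Fa_mk (BT.Fa_mk (BT.Fa_mk (BT.Fa_leaf (P := Itm.ok 206) (iqf tp292_c)) (BT.Fa_leaf (P := Itm.ok 206) (iqb tp1576_c))) (BT.Fa_leaf (P := Itm.ok 206) (iqb tp1579_c))) (BT.Fa_mk (BT.Fa_mk (BT.Fa_leaf (P := Itm.ok 206) (iqb tp295_c)) (BT.Fa_leaf (P := Itm.ok 206) (iqf tp1420_c))) (BT.Fa_leaf (P := Itm.ok 206) (iqb tp1734_c))))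

/-- all words of the class have labels -/
theorem pokNFzE2B3BzIzB2ByA3B2E : POK 206 xNFzE2B3BzIzB2ByA3B2E :=
  y_pok (C0 := ceNFzE2B3BzIzB2ByA3B2E) (C1 := coNFzE2B3BzIzB2ByA3B2E) topNFzE2B3BzIzB2ByA3B2E nbNFzE2B3BzIzB2ByA3B2E (BT.Fa_of_all iiNFzE2B3BzIzB2ByA3B2E_c)
    (cyE_spec zeNFzE2B3BzIzB2ByA3B2E_0)
    (cyO_spec zoNFzE2B3BzIzB2ByA3B2E_0)
    iiNFzE2B3BzIzB2ByA3B2E_k

theorem iiNFzE2B3BzIzB2H3B3B2E_k : iiNFzE2B3BzIzB2H3B3B2E.Fa (Itm.ok 206) := (BT.Fa_mk (BT.Fa_mk (BT.Fa_mk (BT.Fa_leaf (P := Itm.ok 206) (iqb tp1576_c)) (BT.Fa_leaf (P := Itm.ok 206) (iqb tp1588_c))) (BT.Fa_mk (BT.Fa_leaf (P := Itm.ok 206) (iqf tp1420_c)) (BT.Fa_leaf (P := Itm.ok 206) (iqb tp1579_c)))) (BT.Fa_mk (BT.Fa_mk (BT.Fa_leaf (P := Itm.ok 206) (iqb tp1758_c)) (BT.Fa_leaf (P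 := Itm.ok 206) (iqb tp1741_c))) (BT.Fa_mk (BT.Fa_leaf (P := Itm.ok 206) (iqb tp240_c)) (BT.Fa_leaf (P := Itm.ok 206) (iqb tp1734_c)))))

/-- all words of the class have labels -/
theorem pokNFzE2B3BzIzB2H3B3B2E : POK 206 xNFzE2B3BzIzB2H3B3B2E :=
  y_pok (C0 := ceNFzE2B3BzIzB2H3B3B2E) (C1 := coNFzE2B3BzIzB2H3B3B2E) topNFzE2B3BzIzB2H3B3B2E nbNFzE2B3BzIzB2H3B3B2E (BT.Fa_of_all iiNFzE2B3BzIzB2H3B3B2E_c)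
    (cyE_spec zeNFzE2B3BzIzB2H3B3B2E_0)
    (cyO_spec zoNFzE2B3BzIzB2H3B3B2E_0)
    iiNFzE2B3BzIzB2H3B3B2E_k

theorem iiNFzE2B3BzIzB3H3B2E_k : iiNFzE2B3BzIzB3H3B2E.Fa (Itm.ok 206) := (BT.Fa_mk (BT.Fa_mk (BT.Fa_mk (BT.Fa_leaf (P := Itm.ok 206) (iqb tp1576_c)) (BT.Fa_leaf (P := Itm.ok 206) (iqb tp1588_c))) (BT.Fa_leaf (P := Itm.ok 206) (iqf tp1576_c))) (BT.Fa_mk (BT.Fa_mk (BT.Fa_leaf (P := Itm.ok 206) (iqf tp1759_c)) (BT.Fa_leaf (P := Itm.ok 206) (iqb tp1585_c))) (BT.Fa_leaf (P := Itm.ok 206) (iqf tp1678_c))))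

/-- all words of the class have labels -/
theorem pokNFzE2B3BzIzB3H3B2E : POK 206 xNFzE2B3BzIzB3H3B2E :=
  y_pok (C0 := ceNFzE2B3BzIzB3H3B2E) (C1 := coNFzE2B3BzIzB3H3B2E) topNFzE2B3BzIzB3H3B2E nbNFzE2B3BzIzB3H3B2E (BT.Fa_of_all iiNFzE2B3BzIzB3H3B2E_c)
    (cyE_spec zeNFzE2B3BzIzB3H3B2E_0)
    (cyO_spec zoNFzE2B3BzIzB3H3B2E_0)
    iiNFzE2B3BzIzB3H3B2E_k

theorem iiNFzE2B3H2BzAyB3H3B2EzF_k : iiNFzE2B3H2BzAyB3H3B2EzF.Fa (Itm.ok 206) := (BT.Fa_mk (BT.Fa_mk (BT.Fa_mk (BT.Fa_mk (BT.Fa_mk (BT.Fa_mk (BT.Fa_mk (BT.Fa_mk (BT.Fa_leaf (P := Itm.ok 206) (iqb tp1771_c)) (BT.Fa_leaf (P := Itm.ok 206) (iqb tp1800_c))) (BT.Fa_mk (BT.Fa_leaf (P := Itm.ok 206) (iqb tp292_c)) (BT.Fa_leaf (P := Itm.ok 206) (iqb tp2277_c)))) (BT.Fa_mk (BT.Fa_mk (BT.Fa_leaf (P := Itm.ok 206)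 (iqf tp292_c)) (BT.Fa_leaf (P := Itm.ok 206) (iqf tp295_c))) (BT.Fa_leaf (P := Itm.ok 206) (iqb tp329_c)))) (BT.Fa_mk (BT.Fa_mk (BT.Fa_mk (BT.Fa_leaf (P := Itm.ok 206) (iqf tp346_c)) (BT.Fa_leaf (P := Itm.ok 206) (iqf tp1658_c))) (BT.Fa_leaf (P := Itm.ok 206) (iqb tp532_c))) (BT.Fa_mk (BT.Fa_mk (BT.Fa_leaf (P := Itm.ok 206) (iqf tp322_c)) (BT.Fa_leaf (P := Itm.ok 206) (iqb tp514_c))) (BT.Fa_leaf (P := Itm.ok 206) (iqb tp416_c))))) (BT.Fa_mk (BT.Fa_mk (BT.Fa_mk (BT.Fa_mk (BT.Fa_leaf (P := Itm.ok 206) (iqb tp2278_c)) (BT.Fa_leaf (P := Itm.ok 206) (iqb tp2279_c))) (BT.Fa_leaf (P := Itm.ok 206) (iqb tp1158_c))) (BT.Fa_mk (BT.Fa_mk (BT.Fa_leaf (P := Itm.ok 206) (iqb tp2280_c)) (BT.Fa_leaf (P := Itm.ok 206) (iqb tp1580_c))) (BT.Fa_leaf (P := Itm.ok 206) (iqf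 tp2281_c)))) (BT.Fa_mk (BT.Fa_mk (BT.Fa_mk (BT.Fa_leaf (P := Itm.ok 206) (iqb tp317_c)) (BT.Fa_leaf (P := Itm.ok 206) (iqb tp1387_c))) (BT.Fa_leaf (P := Itm.ok 206) (iqf tp2282_c))) (BT.Fa_mk (BT.Fa_mk (BT.Fa_leaf (P := Itm.ok 206) (iqf tp608_c)) (BT.Fa_leaf (P := Itm.ok 206) (iqb tp827_c))) (BT.Fa_leaf (P := Itm.ok 206) (iqf tp2283_c)))))) (BT.Fa_mk (BT.Fa_mk (BT.Fa_mk (BT.Fa_mk (BT.Fa_mk (BT.Fa_leaf (P := Itm.ok 206) (iqf tp2284_c)) (BT.Fa_leaf (P := Itm.ok 206) (iqb tp1435_c))) (BT.Fa_leaf (P := Itm.ok 206) (iqf tp1747_c))) (BT.Fa_mk (BT.Fa_mk (BT.Fa_leaf (P := Itm.ok 206) (iqb tp995_c)) (BT.Fa_leaf (P := Itm.ok 206) (iqb tp2285_c))) (BT.Fa_leaf (P := Itm.ok 206) (iqb tp369_c)))) (BT.Fa_mk (BT.Fa_mk (BT.Fa_mk (BT.Fa_leaf (P := Itm.ok 206) (iqf tp1574_c))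 (BT.Fa_leaf (P := Itm.ok 206) (iqf tp1786_c))) (BT.Fa_leaf (P := Itm.ok 206) (iqb tp2286_c))) (BT.Fa_mk (BT.Fa_mk (BT.Fa_leaf (P := Itm.ok 206) (iqf tp2287_c)) (BT.Fa_leaf (P := Itm.ok 206) (iqf tp2288_c))) (BT.Fa_leaf (P := Itm.ok 206) (iqb tp1604_c))))) (BT.Fa_mk (BT.Fa_mk (BT.Fa_mk (BT.Fa_mk (BT.Fa_leaf (P := Itm.ok 206) (iqf tp2289_c)) (BT.Fa_leaf (P := Itm.ok 206) (iqb tp815_c))) (BT.Fa_leaf (P := Itm.ok 206) (iqf tp2290_c))) (BT.Fa_mk (BT.Fa_mk (BT.Fa_leaf (P := Itm.ok 206) (iqf tp1138_c)) (BT.Fa_leaf (P := Itm.ok 206) (iqf tp2291_c))) (BT.Fa_leaf (P := Itm.ok 206) (iqf tp2292_c)))) (BT.Fa_mk (BT.Fa_mk (BT.Fa_mk (BT.Fa_leaf (P := Itm.ok 206) (iqf tp2293_c)) (BT.Fa_leaf (P := Itm.ok 206) (iqb tp2294_c))) (BT.Fa_leaf (P := Itm.ok 206) (iqf tp2295_c)))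 (BT.Fa_mk (BT.Fa_mk (BT.Fa_leaf (P := Itm.ok 206) (iqf tp2296_c)) (BT.Fa_leaf (P := Itm.ok 206) (iqf tp797_c))) (BT.Fa_leaf (P := Itm.ok 206) (iqb tp2297_c))))))) (BT.Fa_mk (BT.Fa_mk (BT.Fa_mk (BT.Fa_mk (BT.Fa_mk (BT.Fa_mk (BT.Fa_leaf (P := Itm.ok 206) (iqb tp2298_c)) (BT.Fa_leaf (P := Itm.ok 206) (iqf tp1182_c))) (BT.Fa_leaf (P := Itm.ok 206) (iqb tp2299_c))) (BT.Fa_mk (BT.Fa_mk (BT.Fa_leaf (P := Itm.ok 206) (iqb tp2300_c)) (BT.Fa_leaf (P := Itm.ok 206) (iqf tp1388_c))) (BT.Fa_leaf (P := Itm.ok 206) (iqb tp1253_c)))) (BT.Fa_mk (BT.Fa_mk (BT.Fa_mk (BT.Fa_leaf (P := Itm.ok 206) (iqf tp2301_c)) (BT.Fa_leaf (P := Itm.ok 206) (iqf tp2302_c))) (BT.Fa_leaf (P := Itm.ok 206) (iqf tp2303_c))) (BT.Fa_mk (BT.Fa_mk (BT.Fa_leaf (P := Itm.ok 206) (iqb tp2304_c)) (BT.Fa_leaf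 (P := Itm.ok 206) (iqf tp1654_c))) (BT.Fa_leaf (P := Itm.ok 206) (iqf tp2305_c))))) (BT.Fa_mk (BT.Fa_mk (BT.Fa_mk (BT.Fa_mk (BT.Fa_leaf (P := Itm.ok 206) (iqb tp2306_c)) (BT.Fa_leaf (P := Itm.ok 206) (iqf tp2307_c))) (BT.Fa_leaf (P := Itm.ok 206) (iqb tp2308_c))) (BT.Fa_mk (BT.Fa_mk (BT.Fa_leaf (P := Itm.ok 206) (iqb tp2309_c)) (BT.Fa_leaf (P := Itm.ok 206) (iqf tp2310_c))) (BT.Fa_leaf (P := Itm.ok 206) (iqf tp1774_c)))) (BT.Fa_mk (BT.Fa_mk (BT.Fa_mk (BT.Fa_leaf (P := Itm.ok 206) (iqf tp813_c)) (BT.Fa_leaf (P := Itm.ok 206) (iqb tp2311_c))) (BT.Fa_leaf (P := Itm.ok 206) (iqb tp2312_c))) (BT.Fa_mk (BT.Fa_mk (BT.Fa_leaf (P := Itm.ok 206) (iqb tp2313_c)) (BT.Fa_leaf (P := Itm.ok 206) (iqb tp2314_c))) (BT.Fa_leaf (P := Itm.ok 206) (iqf tp2315_c)))))) (BT.Fa_mk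 (BT.Fa_mk (BT.Fa_mk (BT.Fa_mk (BT.Fa_mk (BT.Fa_leaf (P := Itm.ok 206) (iqf tp2316_c)) (BT.Fa_leaf (P := Itm.ok 206) (iqb tp2317_c))) (BT.Fa_leaf (P := Itm.ok 206) (iqb tp2318_c))) (BT.Fa_mk (BT.Fa_mk (BT.Fa_leaf (P := Itm.ok 206) (iqb tp2319_c)) (BT.Fa_leaf (P := Itm.ok 206) (iqf tp2320_c))) (BT.Fa_leaf (P := Itm.ok 206) (iqb tp1517_c)))) (BT.Fa_mk (BT.Fa_mk (BT.Fa_mk (BT.Fa_leaf (P := Itm.ok 206) (show Itm.ok 206 (.pat 2123 pq174) from (POK.mono (by decide) pq174_ok))) (BT.Fa_leaf (P := Itm.ok 206) (iqb tp1649_c))) (BT.Fa_leaf (P := Itm.ok 206) (iqb tp1582_c))) (BT.Fa_mk (BT.Fa_mk (BT.Fa_leaf (P := Itm.ok 206) (iqf tp1653_c)) (BT.Fa_leaf (P := Itm.ok 206) (iqb tp2321_c))) (BT.Fa_leaf (P := Itm.ok 206) (iqf tp2322_c))))) (BT.Fa_mk (BT.Fa_mk (BT.Fa_mk (BT.Fa_mk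 (BT.Fa_leaf (P := Itm.ok 206) (iqf tp2323_c)) (BT.Fa_leaf (P := Itm.ok 206) (iqf tp2324_c))) (BT.Fa_leaf (P := Itm.ok 206) (iqf tp2325_c))) (BT.Fa_mk (BT.Fa_mk (BT.Fa_leaf (P := Itm.ok 206) (iqf tp2326_c)) (BT.Fa_leaf (P := Itm.ok 206) (iqf tp507_c))) (BT.Fa_leaf (P := Itm.ok 206) (iqf tp2327_c)))) (BT.Fa_mk (BT.Fa_mk (BT.Fa_mk (BT.Fa_leaf (P := Itm.ok 206) (iqb tp2328_c)) (BT.Fa_leaf (P := Itm.ok 206) (iqf tp1338_c))) (BT.Fa_leaf (P := Itm.ok 206) (iqf tp1807_c))) (BT.Fa_mk (BT.Fa_mk (BT.Fa_leaf (P := Itm.ok 206) (iqf tp2329_c)) (BT.Fa_leaf (P := Itm.ok 206) (iqb tp2330_c))) (BT.Fa_leaf (P := Itm.ok 206) (iqb tp1578_c)))))))) (BT.Fa_mk (BT.Fa_mk (BT.Fa_mk (BT.Fa_mk (BT.Fa_mk (BT.Fa_mk (BT.Fa_mk (BT.Fa_leaf (P := Itm.ok 206) (iqf tp2331_c)) (BT.Fa_leaf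 (P := Itm.ok 206) (iqb tp1664_c))) (BT.Fa_leaf (P := Itm.ok 206) (iqb tp2332_c))) (BT.Fa_mk (BT.Fa_mk (BT.Fa_leaf (P := Itm.ok 206) (iqf tp2333_c)) (BT.Fa_leaf (P := Itm.ok 206) (iqb tp2334_c))) (BT.Fa_leaf (P := Itm.ok 206) (iqf tp2335_c)))) (BT.Fa_mk (BT.Fa_mk (BT.Fa_mk (BT.Fa_leaf (P := Itm.ok 206) (iqf tp2336_c)) (BT.Fa_leaf (P := Itm.ok 206) (iqb tp2337_c))) (BT.Fa_leaf (P := Itm.ok 206) (iqb tp2338_c))) (BT.Fa_mk (BT.Fa_mk (BT.Fa_leaf (P := Itm.ok 206) (iqb tp2339_c)) (BT.Fa_leaf (P := Itm.ok 206) (iqb tp2340_c))) (BT.Fa_leaf (P := Itm.ok 206) (iqf tp2341_c))))) (BT.Fa_mk (BT.Fa_mk (BT.Fa_mk (BT.Fa_mk (BT.Fa_leaf (P := Itm.ok 206) (iqf tp2342_c)) (BT.Fa_leaf (P := Itm.ok 206) (iqb tp2343_c))) (BT.Fa_leaf (P := Itm.ok 206) (iqf tp2344_c))) (BT.Fa_mk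 (BT.Fa_mk (BT.Fa_leaf (P := Itm.ok 206) (iqf tp1133_c)) (BT.Fa_leaf (P := Itm.ok 206) (iqf tp1440_c))) (BT.Fa_leaf (P := Itm.ok 206) (iqf tp547_c)))) (BT.Fa_mk (BT.Fa_mk (BT.Fa_mk (BT.Fa_leaf (P := Itm.ok 206) (iqf tp2345_c)) (BT.Fa_leaf (P := Itm.ok 206) (iqf tp2346_c))) (BT.Fa_leaf (P := Itm.ok 206) (iqb tp820_c))) (BT.Fa_mk (BT.Fa_mk (BT.Fa_leaf (P := Itm.ok 206) (iqb tp2347_c)) (BT.Fa_leaf (P := Itm.ok 206) (iqb tp2348_c))) (BT.Fa_leaf (P := Itm.ok 206) (iqf tp2349_c)))))) (BT.Fa_mk (BT.Fa_mk (BT.Fa_mk (BT.Fa_mk (BT.Fa_mk (BT.Fa_leaf (P := Itm.ok 206) (iqb tp2350_c)) (BT.Fa_leaf (P := Itm.ok 206) (iqf tp2351_c))) (BT.Fa_leaf (P := Itm.ok 206) (iqf tp2352_c))) (BT.Fa_mk (BT.Fa_mk (BT.Fa_leaf (P := Itm.ok 206) (iqf tp1354_c)) (BT.Fa_leaf (P := Itm.ok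 206) (iqb tp2353_c))) (BT.Fa_leaf (P := Itm.ok 206) (iqf tp1679_c)))) (BT.Fa_mk (BT.Fa_mk (BT.Fa_mk (BT.Fa_leaf (P := Itm.ok 206) (iqf tp2354_c)) (BT.Fa_leaf (P := Itm.ok 206) (iqb tp656_c))) (BT.Fa_leaf (P := Itm.ok 206) (iqf tp2355_c))) (BT.Fa_mk (BT.Fa_mk (BT.Fa_leaf (P := Itm.ok 206) (iqf tp2356_c)) (BT.Fa_leaf (P := Itm.ok 206) (iqb tp2357_c))) (BT.Fa_leaf (P := Itm.ok 206) (iqb tp2358_c))))) (BT.Fa_mk (BT.Fa_mk (BT.Fa_mk (BT.Fa_mk (BT.Fa_leaf (P := Itm.ok 206) (iqb tp2359_c)) (BT.Fa_leaf (P := Itm.ok 206) (iqb tp451_c))) (BT.Fa_leaf (P := Itm.ok 206) (iqb tp1136_c))) (BT.Fa_mk (BT.Fa_mk (BT.Fa_leaf (P := Itm.ok 206) (iqf tp2360_c)) (BT.Fa_leaf (P := Itm.ok 206) (iqb tp530_c))) (BT.Fa_leaf (P := Itm.ok 206) (iqf tp577_c)))) (BT.Fa_mk (BT.Fa_mk (BT.Fa_mk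 (BT.Fa_leaf (P := Itm.ok 206) (iqf tp2362_c)) (BT.Fa_leaf (P := Itm.ok 206) (iqf tp2363_c))) (BT.Fa_leaf (P := Itm.ok 206) (iqb tp2364_c))) (BT.Fa_mk (BT.Fa_mk (BT.Fa_leaf (P := Itm.ok 206) (iqb tp2365_c)) (BT.Fa_leaf (P := Itm.ok 206) (iqf tp1790_c))) (BT.Fa_leaf (P := Itm.ok 206) (iqf tp1648_c))))))) (BT.Fa_mk (BT.Fa_mk (BT.Fa_mk (BT.Fa_mk (BT.Fa_mk (BT.Fa_mk (BT.Fa_leaf (P := Itm.ok 206) (iqf tp2366_c)) (BT.Fa_leaf (P := Itm.ok 206) (iqf tp2367_c))) (BT.Fa_leaf (P := Itm.ok 206) (iqf tp2368_c))) (BT.Fa_mk (BT.Fa_mk (BT.Fa_leaf (P := Itm.ok 206) (iqb tp806_c)) (BT.Fa_leaf (P := Itm.ok 206) (iqb tp354_c))) (BT.Fa_leaf (P := Itm.ok 206) (iqf tp2370_c)))) (BT.Fa_mk (BT.Fa_mk (BT.Fa_mk (BT.Fa_leaf (P := Itm.ok 206) (iqf tp530_c)) (BT.Fa_leaf (P := Itm.ok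 206) (iqb tp2371_c))) (BT.Fa_leaf (P := Itm.ok 206) (iqb tp2372_c))) (BT.Fa_mk (BT.Fa_mk (BT.Fa_leaf (P := Itm.ok 206) (iqb tp608_c)) (BT.Fa_leaf (P := Itm.ok 206) (iqf tp359_c))) (BT.Fa_leaf (P := Itm.ok 206) (iqb tp1082_c))))) (BT.Fa_mk (BT.Fa_mk (BT.Fa_mk (BT.Fa_mk (BT.Fa_leaf (P := Itm.ok 206) (iqf tp897_c)) (BT.Fa_leaf (P := Itm.ok 206) (iqf tp670_c))) (BT.Fa_leaf (P := Itm.ok 206) (iqf tp2375_c))) (BT.Fa_mk (BT.Fa_mk (BT.Fa_leaf (P := Itm.ok 206) (iqb tp2376_c)) (BT.Fa_leaf (P := Itm.ok 206) (iqb tp2377_c))) (BT.Fa_leaf (P := Itm.ok 206) (iqb tp2378_c)))) (BT.Fa_mk (BT.Fa_mk (BT.Fa_mk (BT.Fa_leaf (P := Itm.ok 206) (iqf tp2379_c)) (BT.Fa_leaf (P := Itm.ok 206) (iqb tp2380_c))) (BT.Fa_leaf (P := Itm.ok 206) (iqf tp2381_c))) (BT.Fa_mk (BT.Fa_mk (BT.Fa_leaf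 (P := Itm.ok 206) (iqf tp904_c)) (BT.Fa_leaf (P := Itm.ok 206) (iqf tp2382_c))) (BT.Fa_leaf (P := Itm.ok 206) (iqf tp2383_c)))))) (BT.Fa_mk (BT.Fa_mk (BT.Fa_mk (BT.Fa_mk (BT.Fa_mk (BT.Fa_leaf (P := Itm.ok 206) (iqb tp587_c)) (BT.Fa_leaf (P := Itm.ok 206) (iqf tp1136_c))) (BT.Fa_leaf (P := Itm.ok 206) (iqf tp2384_c))) (BT.Fa_mk (BT.Fa_mk (BT.Fa_leaf (P := Itm.ok 206) (iqb tp1853_c)) (BT.Fa_leaf (P := Itm.ok 206) (iqb tp2385_c))) (BT.Fa_leaf (P := Itm.ok 206) (iqf tp2386_c)))) (BT.Fa_mk (BT.Fa_mk (BT.Fa_mk (BT.Fa_leaf (P := Itm.ok 206) (iqf tp2387_c)) (BT.Fa_leaf (P := Itm.ok 206) (iqb tp2388_c))) (BT.Fa_leaf (P := Itm.ok 206) (iqf tp2389_c))) (BT.Fa_mk (BT.Fa_mk (BT.Fa_leaf (P := Itm.ok 206) (iqf tp2390_c)) (BT.Fa_leaf (P := Itm.ok 206) (iqf tp2391_c)))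 (BT.Fa_leaf (P := Itm.ok 206) (iqf tp2392_c))))) (BT.Fa_mk (BT.Fa_mk (BT.Fa_mk (BT.Fa_mk (BT.Fa_leaf (P := Itm.ok 206) (iqf tp2393_c)) (BT.Fa_leaf (P := Itm.ok 206) (iqf tp407_c))) (BT.Fa_leaf (P := Itm.ok 206) (iqb tp2394_c))) (BT.Fa_mk (BT.Fa_mk (BT.Fa_leaf (P := Itm.ok 206) (iqb tp2395_c)) (BT.Fa_leaf (P := Itm.ok 206) (iqb tp2396_c))) (BT.Fa_leaf (P := Itm.ok 206) (show Itm.ok 206 (.pat 5209 pq175) from (POK.mono (by decide) pq175_ok))))) (BT.Fa_mk (BT.Fa_mk (BT.Fa_mk (BT.Fa_leaf (P := Itm.ok 206) (iqb tp2397_c)) (BT.Fa_leaf (P := Itm.ok 206) (iqf tp2398_c))) (BT.Fa_leaf (P := Itm.ok 206) (iqb tp2399_c))) (BT.Fa_mk (BT.Fa_mk (BT.Fa_leaf (P := Itm.ok 206) (iqf tp2400_c)) (BT.Fa_leaf (P := Itm.ok 206) (iqb tp558_c))) (BT.Fa_leaf (P := Itm.ok 206) (iqb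 tp2401_c)))))))))

/-- all words of the class have labels -/
theorem pokNFzE2B3H2BzAyB3H3B2EzF : POK 206 xNFzE2B3H2BzAyB3H3B2EzF :=
  y_pok (C0 := ceNFzE2B3H2BzAyB3H3B2EzF) (C1 := coNFzE2B3H2BzAyB3H3B2EzF) topNFzE2B3H2BzAyB3H3B2EzF nbNFzE2B3H2BzAyB3H3B2EzF (BT.Fa_of_all iiNFzE2B3H2BzAyB3H3B2EzF_c)
    (cyE_spec zeNFzE2B3H2BzAyB3H3B2EzF_0)
    (cyO_spec zoNFzE2B3H2BzAyB3H3B2EzF_0)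
    iiNFzE2B3H2BzAyB3H3B2EzF_k

theorem iiNFzE2B3H2BzIzB3H3B2E_k : iiNFzE2B3H2BzIzB3H3B2E.Fa (Itm.ok 206) := (BT.Fa_mk (BT.Fa_mk (BT.Fa_mk (BT.Fa_mk (BT.Fa_mk (BT.Fa_mk (BT.Fa_mk (BT.Fa_leaf (P := Itm.ok 206) (iqf tp1882_c)) (BT.Fa_leaf (P := Itm.ok 206) (iqf tp1576_c))) (BT.Fa_mk (BT.Fa_leaf (P := Itm.ok 206) (iqb tp1883_c)) (BT.Fa_leaf (P := Itm.ok 206) (iqf tp1759_c)))) (BT.Fa_mk (BT.Fa_mk (BT.Fa_leaf (P := Itm.ok 206) (iqb tp1884_c)) (BT.Fa_leaf (P := Itm.ok 206) (iqb tp1885_c))) (BT.Fa_mk (BT.Fa_leaf (P := Itm.ok 206) (iqb tp1886_c)) (BT.Fa_leaf (P := Itm.ok 206) (iqb tp1887_c))))) (BT.Fa_mk (BT.Fa_mk (BT.Fa_mk (BT.Fa_leaf (P := Itm.ok 206) (iqf tp1745_c)) (BT.Fa_leaf (P := Itm.ok 206) (iqb tp1888_c))) (BT.Fa_mk (BT.Fa_leaf (P := Itm.ok 206) (iqb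 tp1420_c)) (BT.Fa_leaf (P := Itm.ok 206) (iqf tp1889_c)))) (BT.Fa_mk (BT.Fa_mk (BT.Fa_leaf (P := Itm.ok 206) (iqf tp1890_c)) (BT.Fa_leaf (P := Itm.ok 206) (iqf tp420_c))) (BT.Fa_mk (BT.Fa_leaf (P := Itm.ok 206) (iqf tp414_c)) (BT.Fa_leaf (P := Itm.ok 206) (iqf tp1891_c)))))) (BT.Fa_mk (BT.Fa_mk (BT.Fa_mk (BT.Fa_mk (BT.Fa_leaf (P := Itm.ok 206) (iqb tp1892_c)) (BT.Fa_leaf (P := Itm.ok 206) (iqf tp605_c))) (BT.Fa_mk (BT.Fa_leaf (P := Itm.ok 206) (iqb tp1893_c)) (BT.Fa_leaf (P := Itm.ok 206) (iqb tp827_c)))) (BT.Fa_mk (BT.Fa_mk (BT.Fa_leaf (P := Itm.ok 206) (iqf tp1894_c)) (BT.Fa_leaf (P := Itm.ok 206) (iqb tp1895_c))) (BT.Fa_mk (BT.Fa_leaf (P := Itm.ok 206) (iqb tp1896_c)) (BT.Fa_leaf (P := Itm.ok 206) (iqb tp1576_c))))) (BT.Fa_mk (BT.Fa_mk (BT.Fa_mk (BT.Fa_leaf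 (P := Itm.ok 206) (iqb tp1897_c)) (BT.Fa_leaf (P := Itm.ok 206) (iqb tp1898_c))) (BT.Fa_mk (BT.Fa_leaf (P := Itm.ok 206) (iqf tp428_c)) (BT.Fa_leaf (P := Itm.ok 206) (iqf tp1899_c)))) (BT.Fa_mk (BT.Fa_mk (BT.Fa_leaf (P := Itm.ok 206) (iqb tp1553_c)) (BT.Fa_leaf (P := Itm.ok 206) (iqb tp1900_c))) (BT.Fa_mk (BT.Fa_leaf (P := Itm.ok 206) (iqb tp1901_c)) (BT.Fa_leaf (P := Itm.ok 206) (iqb tp1902_c))))))) (BT.Fa_mk (BT.Fa_mk (BT.Fa_mk (BT.Fa_mk (BT.Fa_mk (BT.Fa_leaf (P := Itm.ok 206) (iqf tp1903_c)) (BT.Fa_leaf (P := Itm.ok 206) (iqf tp1904_c))) (BT.Fa_mk (BT.Fa_leaf (P := Itm.ok 206) (iqb tp1905_c)) (BT.Fa_leaf (P := Itm.ok 206) (iqb tp1906_c)))) (BT.Fa_mk (BT.Fa_mk (BT.Fa_leaf (P := Itm.ok 206) (iqb tp1907_c)) (BT.Fa_leaf (P := Itm.ok 206) (iqb tp1908_c)))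 (BT.Fa_mk (BT.Fa_leaf (P := Itm.ok 206) (iqf tp1909_c)) (BT.Fa_leaf (P := Itm.ok 206) (iqb tp1910_c))))) (BT.Fa_mk (BT.Fa_mk (BT.Fa_mk (BT.Fa_leaf (P := Itm.ok 206) (iqb tp1911_c)) (BT.Fa_leaf (P := Itm.ok 206) (iqb tp1912_c))) (BT.Fa_mk (BT.Fa_leaf (P := Itm.ok 206) (iqb tp1913_c)) (BT.Fa_leaf (P := Itm.ok 206) (iqb tp1914_c)))) (BT.Fa_mk (BT.Fa_mk (BT.Fa_leaf (P := Itm.ok 206) (iqb tp1915_c)) (BT.Fa_leaf (P := Itm.ok 206) (iqb tp1916_c))) (BT.Fa_mk (BT.Fa_leaf (P := Itm.ok 206) (iqb tp1917_c)) (BT.Fa_leaf (P := Itm.ok 206) (iqb tp1918_c)))))) (BT.Fa_mk (BT.Fa_mk (BT.Fa_mk (BT.Fa_mk (BT.Fa_leaf (P := Itm.ok 206) (iqb tp1919_c)) (BT.Fa_leaf (P := Itm.ok 206) (iqb tp1920_c))) (BT.Fa_mk (BT.Fa_leaf (P := Itm.ok 206) (iqb tp1921_c)) (BT.Fa_leaf (P := Itm.ok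 206) (show Itm.ok 206 (.pat 1406 pq119) from (POK.mono (by decide) pq119_ok))))) (BT.Fa_mk (BT.Fa_mk (BT.Fa_leaf (P := Itm.ok 206) (iqb tp1922_c)) (BT.Fa_leaf (P := Itm.ok 206) (iqf tp1923_c))) (BT.Fa_mk (BT.Fa_leaf (P := Itm.ok 206) (iqb tp1924_c)) (BT.Fa_leaf (P := Itm.ok 206) (show Itm.ok 206 (.pat 1579 pq120) from (POK.mono (by decide) pq120_ok)))))) (BT.Fa_mk (BT.Fa_mk (BT.Fa_mk (BT.Fa_leaf (P := Itm.ok 206) (show Itm.ok 206 (.pat 1629 pq121) from (POK.mono (by decide) pq121_ok))) (BT.Fa_leaf (P := Itm.ok 206) (show Itm.ok 206 (.pat 1679 pq122) from (POK.mono (by decide) pq122_ok)))) (BT.Fa_mk (BT.Fa_leaf (P := Itm.ok 206) (iqb tp1925_c)) (BT.Fa_leaf (P := Itm.ok 206) (iqb tp1926_c)))) (BT.Fa_mk (BT.Fa_mk (BT.Fa_leaf (P := Itm.ok 206) (iqf tp1927_c))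 (BT.Fa_leaf (P := Itm.ok 206) (iqf tp1928_c))) (BT.Fa_leaf (P := Itm.ok 206) (iqf tp1929_c))))))) (BT.Fa_mk (BT.Fa_mk (BT.Fa_mk (BT.Fa_mk (BT.Fa_mk (BT.Fa_mk (BT.Fa_leaf (P := Itm.ok 206) (iqb tp1930_c)) (BT.Fa_leaf (P := Itm.ok 206) (show Itm.ok 206 (.pat 1942 pq123) from (POK.mono (by decide) pq123_ok)))) (BT.Fa_mk (BT.Fa_leaf (P := Itm.ok 206) (show Itm.ok 206 (.pat 1992 pq124) from (POK.mono (by decide) pq124_ok))) (BT.Fa_leaf (P := Itm.ok 206) (iqf tp1931_c)))) (BT.Fa_mk (BT.Fa_mk (BT.Fa_leaf (P := Itm.ok 206) (iqf tp1932_c)) (BT.Fa_leaf (P := Itm.ok 206) (iqb tp1933_c))) (BT.Fa_mk (BT.Fa_leaf (P := Itm.ok 206) (iqf tp1934_c)) (BT.Fa_leaf (P := Itm.ok 206) (iqb tp1935_c))))) (BT.Fa_mk (BT.Fa_mk (BT.Fa_mk (BT.Fa_leaf (P := Itm.ok 206) (iqb tp1936_c))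 (BT.Fa_leaf (P := Itm.ok 206) (iqb tp1937_c))) (BT.Fa_mk (BT.Fa_leaf (P := Itm.ok 206) (iqb tp1938_c)) (BT.Fa_leaf (P := Itm.ok 206) (iqb tp1939_c)))) (BT.Fa_mk (BT.Fa_mk (BT.Fa_leaf (P := Itm.ok 206) (iqb tp1940_c)) (BT.Fa_leaf (P := Itm.ok 206) (iqb tp433_c))) (BT.Fa_mk (BT.Fa_leaf (P := Itm.ok 206) (iqf tp1941_c)) (BT.Fa_leaf (P := Itm.ok 206) (iqb tp1942_c)))))) (BT.Fa_mk (BT.Fa_mk (BT.Fa_mk (BT.Fa_mk (BT.Fa_leaf (P := Itm.ok 206) (iqf tp1943_c)) (BT.Fa_leaf (P := Itm.ok 206) (iqb tp337_c))) (BT.Fa_mk (BT.Fa_leaf (P := Itm.ok 206) (iqb tp1944_c)) (BT.Fa_leaf (P := Itm.ok 206) (iqb tp1259_c)))) (BT.Fa_mk (BT.Fa_mk (BT.Fa_leaf (P := Itm.ok 206) (iqf tp1945_c)) (BT.Fa_leaf (P := Itm.ok 206) (iqb tp1947_c))) (BT.Fa_mk (BT.Fa_leaf (P := Itm.ok 206) (iqb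 tp1948_c)) (BT.Fa_leaf (P := Itm.ok 206) (iqb tp1949_c))))) (BT.Fa_mk (BT.Fa_mk (BT.Fa_mk (BT.Fa_leaf (P := Itm.ok 206) (iqb tp1950_c)) (BT.Fa_leaf (P := Itm.ok 206) (iqb tp1951_c))) (BT.Fa_mk (BT.Fa_leaf (P := Itm.ok 206) (iqf tp1952_c)) (BT.Fa_leaf (P := Itm.ok 206) (iqf tp1953_c)))) (BT.Fa_mk (BT.Fa_mk (BT.Fa_leaf (P := Itm.ok 206) (iqf tp1954_c)) (BT.Fa_leaf (P := Itm.ok 206) (iqb tp1955_c))) (BT.Fa_leaf (P := Itm.ok 206) (iqf tp1956_c)))))) (BT.Fa_mk (BT.Fa_mk (BT.Fa_mk (BT.Fa_mk (BT.Fa_mk (BT.Fa_leaf (P := Itm.ok 206) (iqb tp1957_c)) (BT.Fa_leaf (P := Itm.ok 206) (iqb tp1958_c))) (BT.Fa_mk (BT.Fa_leaf (P := Itm.ok 206) (iqf tp1959_c)) (BT.Fa_leaf (P := Itm.ok 206) (iqf tp1960_c)))) (BT.Fa_mk (BT.Fa_mk (BT.Fa_leaf (P := Itm.ok 206) (iqf tp1961_c))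 (BT.Fa_leaf (P := Itm.ok 206) (iqb tp1962_c))) (BT.Fa_mk (BT.Fa_leaf (P := Itm.ok 206) (iqb tp1426_c)) (BT.Fa_leaf (P := Itm.ok 206) (iqf tp1963_c))))) (BT.Fa_mk (BT.Fa_mk (BT.Fa_mk (BT.Fa_leaf (P := Itm.ok 206) (iqf tp1964_c)) (BT.Fa_leaf (P := Itm.ok 206) (iqf tp1965_c))) (BT.Fa_mk (BT.Fa_leaf (P := Itm.ok 206) (iqb tp1966_c)) (BT.Fa_leaf (P := Itm.ok 206) (iqf tp1967_c)))) (BT.Fa_mk (BT.Fa_mk (BT.Fa_leaf (P := Itm.ok 206) (show Itm.ok 206 (.pat 3351 pq125) from (POK.mono (by decide) pq125_ok))) (BT.Fa_leaf (P := Itm.ok 206) (show Itm.ok 206 (.pat 3403 pq126) from (POK.mono (by decide) pq126_ok)))) (BT.Fa_mk (BT.Fa_leaf (P := Itm.ok 206) (iqf tp1968_c)) (BT.Fa_leaf (P := Itm.ok 206) (iqb tp1969_c)))))) (BT.Fa_mk (BT.Fa_mk (BT.Fa_mk (BT.Fa_mk (BT.Fa_leaf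 (P := Itm.ok 206) (iqf tp1970_c)) (BT.Fa_leaf (P := Itm.ok 206) (iqb tp1971_c))) (BT.Fa_mk (BT.Fa_leaf (P := Itm.ok 206) (show Itm.ok 206 (.pat 3600 pq127) from (POK.mono (by decide) pq127_ok))) (BT.Fa_leaf (P := Itm.ok 206) (iqf tp1972_c)))) (BT.Fa_mk (BT.Fa_mk (BT.Fa_leaf (P := Itm.ok 206) (show Itm.ok 206 (.pat 3670 pq128) from (POK.mono (by decide) pq128_ok))) (BT.Fa_leaf (P := Itm.ok 206) (iqb tp1973_c))) (BT.Fa_mk (BT.Fa_leaf (P := Itm.ok 206) (iqf tp1974_c)) (BT.Fa_leaf (P := Itm.ok 206) (iqb tp1975_c))))) (BT.Fa_mk (BT.Fa_mk (BT.Fa_mk (BT.Fa_leaf (P := Itm.ok 206) (iqf tp1976_c)) (BT.Fa_leaf (P := Itm.ok 206) (iqf tp1977_c))) (BT.Fa_mk (BT.Fa_leaf (P := Itm.ok 206) (show Itm.ok 206 (.pat 3864 pq129) from (POK.mono (by decide) pq129_ok))) (BT.Fa_leaf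 (P := Itm.ok 206) (iqb tp1978_c)))) (BT.Fa_mk (BT.Fa_mk (BT.Fa_leaf (P := Itm.ok 206) (iqb tp1979_c)) (BT.Fa_leaf (P := Itm.ok 206) (show Itm.ok 206 (.pat 4012 pq130) from (POK.mono (by decide) pq130_ok)))) (BT.Fa_leaf (P := Itm.ok 206) (show Itm.ok 206 (.pat 4058 pq131) from (POK.mono (by decide) pq131_ok)))))))))

/-- all words of the class have labels -/
theorem pokNFzE2B3H2BzIzB3H3B2E : POK 206 xNFzE2B3H2BzIzB3H3B2E :=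
  y_pok (C0 := ceNFzE2B3H2BzIzB3H3B2E) (C1 := coNFzE2B3H2BzIzB3H3B2E) topNFzE2B3H2BzIzB3H3B2E nbNFzE2B3H2BzIzB3H3B2E (BT.Fa_of_all iiNFzE2B3H2BzIzB3H3B2E_c)
    (cyE_spec zeNFzE2B3H2BzIzB3H3B2E_0)
    (cyO_spec zoNFzE2B3H2BzIzB3H3B2E_0)
    iiNFzE2B3H2BzIzB3H3B2E_k

theorem iiNFzE2B3H3AzB2H3B2EzF_k : iiNFzE2B3H3AzB2H3B2EzF.Fa (Itm.ok 206) := (BT.Fa_leaf (P := Itm.ok 206) (iqb tp1576_c))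

/-- all words of the class have labels -/
theorem pokNFzE2B3H3AzB2H3B2EzF : POK 206 xNFzE2B3H3AzB2H3B2EzF :=
  y_pok (C0 := ceNFzE2B3H3AzB2H3B2EzF) (C1 := coNFzE2B3H3AzB2H3B2EzF) topNFzE2B3H3AzB2H3B2EzF nbNFzE2B3H3AzB2H3B2EzF (BT.Fa_of_all iiNFzE2B3H3AzB2H3B2EzF_c)
    (cyE_spec zeNFzE2B3H3AzB2H3B2EzF_0)
    (cyO_spec zoNFzE2B3H3AzB2H3B2EzF_0)
    iiNFzE2B3H3AzB2H3B2EzF_k

theorem iiNFzE2B3H3AzIzB2H2B3B2E_k : iiNFzE2B3H3AzIzB2H2B3B2E.Fa (Itm.ok 206) := (BT.Fa_leaf (P := Itm.ok 206) (iqb tp1576_c))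

/-- all words of the class have labels -/
theorem pokNFzE2B3H3AzIzB2H2B3B2E : POK 206 xNFzE2B3H3AzIzB2H2B3B2E :=
  y_pok (C0 := ceNFzE2B3H3AzIzB2H2B3B2E) (C1 := coNFzE2B3H3AzIzB2H2B3B2E) topNFzE2B3H3AzIzB2H2B3B2E nbNFzE2B3H3AzIzB2H2B3B2E (BT.Fa_of_all iiNFzE2B3H3AzIzB2H2B3B2E_c)
    (cyE_spec zeNFzE2B3H3AzIzB2H2B3B2E_0)
    (cyO_spec zoNFzE2B3H3AzIzB2H2B3B2E_0)
    iiNFzE2B3H3AzIzB2H2B3B2E_k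


end MPb6P
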