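import Pool.Agent.Lib.MP_b6d339_lc.Cw.YFzE2B3HzB3H3B2E
import Pool.Agent.Lib.MP_b6d339_lc.Cw.XL
import Pool.Agent.Lib.MP_b6d339_lc.Cw.T10
import Pool.Agent.Lib.MP_b6d339_lc.Cw.T15
import Pool.Agent.Lib.MP_b6d339_lc.Cw.T17
import Pool.Agent.Lib.MP_b6d339_lc.Cw.T19
import Pool.Agent.Lib.MP_b6d339_lc.Cw.T2
import Pool.Agent.Lib.MP_b6d339_lc.Cw.T20
import Pool.Agent.Lib.MP_b6d339_lc.Cw.T21
import Pool.Agent.Lib.MP_b6d339_lc.Cw.T22
import Pool.Agent.Lib.MP_b6d339_lc.Cw.T23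
import Pool.Agent.Lib.MP_b6d339_lc.Cw.T24
import Pool.Agent.Lib.MP_b6d339_lc.Cw.T25
import Pool.Agent.Lib.MP_b6d339_lc.Cw.T3
import Pool.Agent.Lib.MP_b6d339_lc.Cw.T4
import Pool.Agent.Lib.MP_b6d339_lc.Cw.T5

/-!
# Erdős 592, three levels: items
-/

namespace MPb6P

noncomputable def iiNFzE2B3HzB3H3B2E : BT Itm := (.node (.node (.node (.node (.node (.node (.node (.leaf (.fwd 0 13 tp1759.df)) (.leaf (.fwd 13 6 tp1576.df))) (.node (.leaf (.bwd 19 18 tp1980.df)) (.leaf (.fwd 37 36 tp1981.df)))) (.node (.node (.leaf (.bwd 73 43 tp1982.df)) (.leaf (.bwd 116 7 tp1745.df))) (.leaf (.bwd 123 25 tp1883.df)))) (.node (.node (.node (.leaf (.fwd 148 48 tp1983.df)) (.leaf (.bwd 196 15 tp1984.df))) (.node (.leaf (.bwd 211 20 tp1887.df)) (.leaf (.bwd 231 16 tp1985.df)))) (.node (.node (.leaf (.bwd 247 16 tp1986.df)) (.leaf (.bwd 263 29 tp1908.df))) (.leaf (.fwd 292 7 tp1745.df))))) (.node (.node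 (.node (.node (.leaf (.bwd 299 17 tp1987.df)) (.leaf (.fwd 316 11 tp1585.df))) (.node (.leaf (.bwd 327 5 tp188.df)) (.leaf (.fwd 332 18 tp1988.df)))) (.node (.node (.leaf (.fwd 350 15 tp1890.df)) (.leaf (.bwd 365 11 tp1585.df))) (.leaf (.fwd 376 19 tp1989.df)))) (.node (.node (.node (.leaf (.bwd 395 14 tp1990.df)) (.leaf (.bwd 409 17 tp317.df))) (.node (.leaf (.bwd 426 22 tp827.df)) (.leaf (.bwd 448 13 tp307.df)))) (.node (.node (.leaf (.bwd 461 18 tp1893.df)) (.leaf (.fwd 479 33 tp1848.df))) (.leaf (.fwd 512 20 tp1991.df)))))) (.node (.node (.node (.node (.node (.leaf (.bwd 532 27 tp1992.df)) (.leaf (.fwd 559 15 tp1747.df))) (.node (.leaf (.fwd 574 16 tp1993.df)) (.leaf (.fwd 590 33 tp1903.df)))) (.node (.node (.leaf (.fwd 623 25 tp1994.df)) (.leaf (.bwd 648 18 tp1995.df))) (.leaf (.bwd 666 23 tp1996.df)))) (.node (.node (.node (.leaf (.bwd 689 30 tp1997.df)) (.leaf (.bwd 719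 33 tp1998.df))) (.node (.leaf (.fwd 752 21 tp1889.df)) (.leaf (.bwd 773 17 tp1920.df)))) (.node (.node (.leaf (.fwd 790 29 tp414.df)) (.leaf (.bwd 819 31 tp1999.df))) (.leaf (.bwd 850 19 tp1884.df))))) (.node (.node (.node (.node (.leaf (.bwd 869 40 tp1902.df)) (.leaf (.bwd 909 28 tp1896.df))) (.node (.leaf (.bwd 937 21 tp2000.df)) (.leaf (.bwd 958 17 tp337.df)))) (.node (.node (.leaf (.bwd 975 26 tp1426.df)) (.leaf (.bwd 1001 31 tp1915.df))) (.leaf (.bwd 1032 49 tp2001.df)))) (.node (.node (.node (.leaf (.bwd 1081 21 tp1895.df)) (.leaf (.pat 1102 pq132))) (.leaf (.bwd 1138 47 tp1914.df))) (.node (.node (.leaf (.bwd 1185 43 tp1921.df)) (.leaf (.fwd 1228 28 tp2002.df))) (.leaf (.bwd 1256 15 tp2003.df))))))) (.node (.node (.node (.node (.node (.node (.leaf (.bwd 1271 30 tp1911.df)) (.leaf (.bwd 1301 20 tp2004.df))) (.node (.leaf (.bwd 1321 27 tp1935.df)) (.leaf (.bwd 1348 31 tp1888.df))))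 (.node (.node (.leaf (.fwd 1379 31 tp2005.df)) (.leaf (.fwd 1410 44 tp2006.df))) (.leaf (.fwd 1454 26 tp2007.df)))) (.node (.node (.node (.leaf (.bwd 1480 18 tp1259.df)) (.leaf (.bwd 1498 37 tp2008.df))) (.node (.leaf (.bwd 1535 29 tp2009.df)) (.leaf (.fwd 1564 25 tp1931.df)))) (.node (.node (.leaf (.bwd 1589 19 tp2010.df)) (.leaf (.bwd 1608 21 tp2011.df))) (.leaf (.bwd 1629 21 tp2012.df))))) (.node (.node (.node (.node (.leaf (.bwd 1650 25 tp433.df)) (.leaf (.bwd 1675 51 tp1905.df))) (.node (.leaf (.bwd 1726 45 tp2013.df)) (.leaf (.fwd 1771 22 tp2014.df)))) (.node (.node (.leaf (.bwd 1793 20 tp1925.df)) (.leaf (.fwd 1813 51 tp2015.df))) (.leaf (.bwd 1864 58 tp1937.df)))) (.node (.node (.node (.leaf (.fwd 1922 27 tp2016.df)) (.leaf (.fwd 1949 14 tp2017.df))) (.leaf (.bwd 1963 28 tp1591.df))) (.node (.node (.leaf (.bwd 1991 29 tp2018.df)) (.leaf (.bwd 2020 32 tp1910.df))) (.leaf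 (.bwd 2052 22 tp2019.df)))))) (.node (.node (.node (.node (.node (.leaf (.bwd 2074 23 tp2020.df)) (.leaf (.fwd 2097 48 tp2021.df))) (.node (.leaf (.bwd 2145 26 tp2022.df)) (.leaf (.fwd 2171 19 tp2023.df)))) (.node (.node (.leaf (.bwd 2190 33 tp2024.df)) (.leaf (.fwd 2223 24 tp2025.df))) (.leaf (.bwd 2247 13 tp2026.df)))) (.node (.node (.node (.leaf (.bwd 2260 56 tp1949.df)) (.leaf (.fwd 2316 15 tp2027.df))) (.node (.leaf (.bwd 2331 28 tp2028.df)) (.leaf (.bwd 2359 25 tp1948.df)))) (.node (.node (.leaf (.bwd 2384 50 tp1951.df)) (.leaf (.fwd 2434 27 tp1961.df))) (.leaf (.fwd 2461 27 tp1959.df))))) (.node (.node (.node (.node (.leaf (.bwd 2488 46 tp2029.df)) (.leaf (.fwd 2534 19 tp1953.df))) (.node (.leaf (.bwd 2553 34 tp2030.df)) (.leaf (.bwd 2587 23 tp2031.df)))) (.node (.node (.leaf (.bwd 2610 57 tp1686.df)) (.leaf (.bwd 2667 15 tp2032.df))) (.leaf (.bwd 2682 29 tp2034.df))))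 (.node (.node (.node (.leaf (.bwd 2711 38 tp1947.df)) (.leaf (.fwd 2749 51 tp2035.df))) (.leaf (.fwd 2800 24 tp2036.df))) (.node (.node (.leaf (.fwd 2824 57 tp1964.df)) (.leaf (.pat 2881 pq133))) (.leaf (.bwd 2927 39 tp2037.df))))))))

theorem iiNFzE2B3HzB3H3B2E_c : iiNFzE2B3HzB3H3B2E.all (itB (ng 58 nnNFzE2B3HzB3H3B2E)) = true := by decide +kernel
theorem nbNFzE2B3HzB3H3B2E : nbB 58 3024 nnNFzE2B3HzB3H3B2E = true := by decide +kernel
theorem topNFzE2B3HzB3H3B2E : topY 3024 ttNFzE2B3HzB3H3B2E ceNFzE2B3HzB3H3B2E xNFzE2B3HzB3H3B2E iiNFzE2B3HzB3H3B2E = true := by decide +kernel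

end MPb6P
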