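import Pool.Agent.Lib.MP_b6d339_lc.Cw.YFzE2B3IzC3B2EzF
import Pool.Agent.Lib.MP_b6d339_lc.Cw.XL
import Pool.Agent.Lib.MP_b6d339_lc.Cw.T10
import Pool.Agent.Lib.MP_b6d339_lc.Cw.T11
import Pool.Agent.Lib.MP_b6d339_lc.Cw.T14
import Pool.Agent.Lib.MP_b6d339_lc.Cw.T16
import Pool.Agent.Lib.MP_b6d339_lc.Cw.T17
import Pool.Agent.Lib.MP_b6d339_lc.Cw.T18
import Pool.Agent.Lib.MP_b6d339_lc.Cw.T19
import Pool.Agent.Lib.MP_b6d339_lc.Cw.T20
import Pool.Agent.Lib.MP_b6d339_lc.Cw.T21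
import Pool.Agent.Lib.MP_b6d339_lc.Cw.T3
import Pool.Agent.Lib.MP_b6d339_lc.Cw.T4
import Pool.Agent.Lib.MP_b6d339_lc.Cw.T5
import Pool.Agent.Lib.MP_b6d339_lc.Cw.T6
import Pool.Agent.Lib.MP_b6d339_lc.Cw.T7
import Pool.Agent.Lib.MP_b6d339_lc.Cw.T8
import Pool.Agent.Lib.MP_b6d339_lc.Cw.T9

/-!
# Erdős 592, three levels: items
-/

namespace MPb6P

noncomputable def iiNFzE2B3IzC3B2EzF : BT Itm := (.node (.node (.node (.node (.node (.node (.node (.node (.leaf (.fwd 0 6 tp1576.df)) (.leaf (.bwd 6 21 tp1577.df))) (.node (.leaf (.bwd 27 56 tp1578.df)) (.leaf (.fwd 83 13 tp1579.df)))) (.node (.node (.leaf (.bwd 96 23 tp1580.df)) (.leaf (.fwd 119 15 tp1581.df))) (.leaf (.bwd 134 36 tp350.df)))) (.node (.node (.node (.leaf (.bwd 170 38 tp1582.df)) (.leaf (.fwd 208 28 tp1583.df))) (.leaf (.bwd 236 20 tp1584.df))) (.node (.node (.leaf (.fwd 256 11 tp1585.df)) (.leaf (.bwd 267 31 tp1586.df))) (.leaf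 (.fwd 298 15 tp1587.df))))) (.node (.node (.node (.node (.leaf (.bwd 313 24 tp1553.df)) (.leaf (.fwd 337 9 tp1588.df))) (.leaf (.bwd 346 20 tp1589.df))) (.node (.node (.leaf (.fwd 366 56 tp954.df)) (.leaf (.fwd 422 27 tp1590.df))) (.leaf (.bwd 449 28 tp1591.df)))) (.node (.node (.node (.leaf (.fwd 477 20 tp1592.df)) (.leaf (.fwd 497 31 tp1593.df))) (.leaf (.bwd 528 16 tp1594.df))) (.node (.node (.leaf (.bwd 544 17 tp1405.df)) (.leaf (.fwd 561 17 tp1595.df))) (.leaf (.bwd 578 26 tp1327.df)))))) (.node (.node (.node (.node (.node (.leaf (.bwd 604 17 tp1596.df)) (.leaf (.fwd 621 17 tp1597.df))) (.leaf (.bwd 638 27 tp1598.df))) (.node (.node (.leaf (.bwd 665 6 tp1576.df)) (.leaf (.fwd 671 23 tp292.df))) (.leaf (.fwd 694 23 tp322.df)))) (.node (.node (.node (.leaf (.bwd 717 19 tp1599.df)) (.leaf (.bwd 736 13 tp307.df))) (.leaf (.bwd 749 25 tp1460.df))) (.node (.node (.leaf (.fwd 774 21 tp656.df))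 (.leaf (.fwd 795 18 tp1600.df))) (.leaf (.fwd 813 23 tp320.df))))) (.node (.node (.node (.node (.leaf (.bwd 836 25 tp1601.df)) (.leaf (.fwd 861 15 tp521.df))) (.leaf (.bwd 876 29 tp329.df))) (.node (.node (.leaf (.bwd 905 22 tp827.df)) (.leaf (.fwd 927 20 tp324.df))) (.leaf (.fwd 947 32 tp1602.df)))) (.node (.node (.node (.leaf (.bwd 979 24 tp1603.df)) (.leaf (.bwd 1003 36 tp1432.df))) (.leaf (.bwd 1039 17 tp337.df))) (.node (.node (.leaf (.bwd 1056 21 tp1604.df)) (.leaf (.fwd 1077 22 tp788.df))) (.leaf (.fwd 1099 19 tp1605.df))))))) (.node (.node (.node (.node (.node (.node (.leaf (.fwd 1118 36 tp1606.df)) (.leaf (.fwd 1154 18 tp1607.df))) (.node (.leaf (.bwd 1172 26 tp1426.df)) (.leaf (.fwd 1198 21 tp295.df)))) (.node (.node (.leaf (.bwd 1219 22 tp1608.df)) (.leaf (.fwd 1241 29 tp1609.df))) (.leaf (.fwd 1270 37 tp1610.df)))) (.node (.node (.node (.leaf (.bwd 1307 27 tp1435.df)) (.leaf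 (.bwd 1334 33 tp1136.df))) (.leaf (.bwd 1367 37 tp1148.df))) (.node (.node (.leaf (.bwd 1404 41 tp1611.df)) (.leaf (.fwd 1445 45 tp1612.df))) (.leaf (.fwd 1490 31 tp346.df))))) (.node (.node (.node (.node (.leaf (.bwd 1521 39 tp1613.df)) (.leaf (.fwd 1560 28 tp1614.df))) (.leaf (.fwd 1588 31 tp1615.df))) (.node (.node (.leaf (.fwd 1619 25 tp1616.df)) (.leaf (.bwd 1644 33 tp1617.df))) (.leaf (.fwd 1677 22 tp1618.df)))) (.node (.node (.node (.leaf (.bwd 1699 12 tp1619.df)) (.leaf (.fwd 1711 21 tp1620.df))) (.leaf (.bwd 1732 25 tp1621.df))) (.node (.node (.leaf (.bwd 1757 23 tp1622.df)) (.leaf (.fwd 1780 22 tp1623.df))) (.leaf (.fwd 1802 22 tp1624.df)))))) (.node (.node (.node (.node (.node (.leaf (.fwd 1824 40 tp1625.df)) (.leaf (.fwd 1864 39 tp952.df))) (.leaf (.bwd 1903 23 tp1626.df))) (.node (.node (.leaf (.bwd 1926 32 tp1627.df)) (.leaf (.pat 1958 pq116))) (.leaf (.pat 1998 pq117))))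 (.node (.node (.node (.leaf (.bwd 2040 25 tp1628.df)) (.leaf (.bwd 2065 24 tp1629.df))) (.leaf (.bwd 2089 26 tp1630.df))) (.node (.node (.leaf (.bwd 2115 26 tp1631.df)) (.leaf (.fwd 2141 41 tp1632.df))) (.leaf (.fwd 2182 29 tp1633.df))))) (.node (.node (.node (.node (.leaf (.bwd 2211 31 tp1634.df)) (.leaf (.fwd 2242 24 tp1635.df))) (.leaf (.bwd 2266 42 tp1636.df))) (.node (.node (.leaf (.fwd 2308 21 tp1637.df)) (.leaf (.fwd 2329 43 tp1638.df))) (.leaf (.fwd 2372 35 tp1639.df)))) (.node (.node (.node (.leaf (.bwd 2407 31 tp949.df)) (.leaf (.bwd 2438 27 tp331.df))) (.leaf (.bwd 2465 23 tp1640.df))) (.node (.node (.leaf (.bwd 2488 16 tp1641.df)) (.leaf (.bwd 2504 18 tp1642.df))) (.leaf (.bwd 2522 19 tp1643.df)))))))) (.node (.node (.node (.node (.node (.node (.node (.leaf (.fwd 2541 19 tp1644.df)) (.leaf (.bwd 2560 34 tp1645.df))) (.node (.leaf (.bwd 2594 22 tp1646.df)) (.leaf (.fwd 2616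 19 tp1647.df)))) (.node (.node (.leaf (.fwd 2635 38 tp688.df)) (.leaf (.fwd 2673 20 tp1648.df))) (.leaf (.bwd 2693 40 tp1649.df)))) (.node (.node (.node (.leaf (.fwd 2733 28 tp1650.df)) (.leaf (.fwd 2761 20 tp1651.df))) (.leaf (.bwd 2781 26 tp1652.df))) (.node (.node (.leaf (.bwd 2807 18 tp1158.df)) (.leaf (.bwd 2825 26 tp514.df))) (.leaf (.fwd 2851 12 tp1653.df))))) (.node (.node (.node (.node (.leaf (.fwd 2863 21 tp1654.df)) (.leaf (.bwd 2884 16 tp1655.df))) (.leaf (.fwd 2900 29 tp511.df))) (.node (.node (.leaf (.bwd 2929 41 tp1656.df)) (.leaf (.fwd 2970 34 tp1657.df))) (.leaf (.fwd 3004 40 tp1658.df)))) (.node (.node (.node (.leaf (.bwd 3044 46 tp1659.df)) (.leaf (.fwd 3090 20 tp618.df))) (.leaf (.fwd 3110 45 tp1660.df))) (.node (.node (.leaf (.bwd 3155 31 tp1661.df)) (.leaf (.fwd 3186 25 tp1662.df))) (.leaf (.fwd 3211 15 tp1663.df)))))) (.node (.node (.node (.node (.node (.leaf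 (.fwd 3226 17 tp692.df)) (.leaf (.bwd 3243 34 tp1664.df))) (.leaf (.fwd 3277 30 tp1665.df))) (.node (.node (.leaf (.fwd 3307 15 tp1666.df)) (.leaf (.bwd 3322 19 tp1479.df))) (.leaf (.fwd 3341 35 tp1667.df)))) (.node (.node (.node (.leaf (.bwd 3376 18 tp662.df)) (.leaf (.fwd 3394 24 tp1668.df))) (.leaf (.fwd 3418 26 tp1669.df))) (.node (.node (.leaf (.fwd 3444 17 tp282.df)) (.leaf (.bwd 3461 27 tp1670.df))) (.leaf (.fwd 3488 27 tp1671.df))))) (.node (.node (.node (.node (.leaf (.bwd 3515 25 tp1672.df)) (.leaf (.bwd 3540 17 tp1673.df))) (.leaf (.fwd 3557 40 tp1674.df))) (.node (.node (.leaf (.bwd 3597 12 tp1675.df)) (.leaf (.fwd 3609 35 tp1676.df))) (.leaf (.fwd 3644 29 tp414.df)))) (.node (.node (.node (.leaf (.fwd 3673 24 tp1305.df)) (.leaf (.fwd 3697 28 tp1677.df))) (.leaf (.bwd 3725 13 tp1678.df))) (.node (.node (.leaf (.fwd 3738 28 tp1679.df)) (.leaf (.bwd 3766 18 tp1680.df))) (.leaf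 (.fwd 3784 34 tp1681.df))))))) (.node (.node (.node (.node (.node (.node (.leaf (.fwd 3818 28 tp904.df)) (.leaf (.bwd 3846 20 tp1682.df))) (.leaf (.fwd 3866 14 tp734.df))) (.node (.node (.leaf (.bwd 3880 33 tp1683.df)) (.leaf (.bwd 3913 22 tp1684.df))) (.leaf (.pat 3935 pq118)))) (.node (.node (.node (.leaf (.fwd 3977 22 tp1685.df)) (.leaf (.bwd 3999 57 tp1686.df))) (.leaf (.fwd 4056 34 tp1687.df))) (.node (.node (.leaf (.fwd 4090 19 tp1688.df)) (.leaf (.fwd 4109 30 tp1689.df))) (.leaf (.bwd 4139 27 tp1690.df))))) (.node (.node (.node (.node (.leaf (.fwd 4166 32 tp1691.df)) (.leaf (.fwd 4198 34 tp1692.df))) (.leaf (.bwd 4232 25 tp1693.df))) (.node (.node (.leaf (.fwd 4257 24 tp1694.df)) (.leaf (.bwd 4281 50 tp1695.df))) (.leaf (.fwd 4331 25 tp1696.df)))) (.node (.node (.node (.leaf (.fwd 4356 33 tp1697.df)) (.leaf (.fwd 4389 26 tp1698.df))) (.leaf (.fwd 4415 39 tp1699.df))) (.node (.node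 (.leaf (.bwd 4454 31 tp1700.df)) (.leaf (.bwd 4485 24 tp1701.df))) (.leaf (.fwd 4509 19 tp1703.df)))))) (.node (.node (.node (.node (.node (.leaf (.bwd 4528 28 tp1704.df)) (.leaf (.fwd 4556 21 tp1705.df))) (.leaf (.fwd 4577 24 tp1706.df))) (.node (.node (.leaf (.bwd 4601 23 tp1707.df)) (.leaf (.bwd 4624 27 tp820.df))) (.leaf (.fwd 4651 22 tp1708.df)))) (.node (.node (.node (.leaf (.bwd 4673 25 tp1709.df)) (.leaf (.bwd 4698 30 tp1710.df))) (.leaf (.fwd 4728 33 tp1711.df))) (.node (.node (.leaf (.bwd 4761 36 tp1712.df)) (.leaf (.fwd 4797 27 tp1713.df))) (.leaf (.fwd 4824 56 tp1714.df))))) (.node (.node (.node (.node (.leaf (.fwd 4880 42 tp1715.df)) (.leaf (.bwd 4922 17 tp1716.df))) (.leaf (.fwd 4939 29 tp1717.df))) (.node (.node (.leaf (.bwd 4968 34 tp1718.df)) (.leaf (.bwd 5002 21 tp1719.df))) (.leaf (.fwd 5023 26 tp1720.df)))) (.node (.node (.node (.leaf (.fwd 5049 34 tp1721.df)) (.leaf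 (.fwd 5083 22 tp1724.df))) (.leaf (.fwd 5105 31 tp1725.df))) (.node (.node (.leaf (.fwd 5136 22 tp1727.df)) (.leaf (.fwd 5158 20 tp1728.df))) (.leaf (.bwd 5178 35 tp1729.df)))))))))

theorem iiNFzE2B3IzC3B2EzF_c : iiNFzE2B3IzC3B2EzF.all (itB (ng 57 nnNFzE2B3IzC3B2EzF)) = true := by decide +kernel
theorem nbNFzE2B3IzC3B2EzF : nbB 57 5270 nnNFzE2B3IzC3B2EzF = true := by decide +kernel
theorem topNFzE2B3IzC3B2EzF : topY 5270 ttNFzE2B3IzC3B2EzF ceNFzE2B3IzC3B2EzF xNFzE2B3IzC3B2EzF iiNFzE2B3IzC3B2EzF = true := by decide +kernel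

end MPb6P
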