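import Pool.Agent.Lib.MP_b6d339_lc.Cw.YFzE2ByAx3xA2EzF
import Pool.Agent.Lib.MP_b6d339_lc.Cw.XL
import Pool.Agent.Lib.MP_b6d339_lc.Cw.T11
import Pool.Agent.Lib.MP_b6d339_lc.Cw.T12
import Pool.Agent.Lib.MP_b6d339_lc.Cw.T13
import Pool.Agent.Lib.MP_b6d339_lc.Cw.T15
import Pool.Agent.Lib.MP_b6d339_lc.Cw.T17
import Pool.Agent.Lib.MP_b6d339_lc.Cw.T18
import Pool.Agent.Lib.MP_b6d339_lc.Cw.T3
import Pool.Agent.Lib.MP_b6d339_lc.Cw.T4
import Pool.Agent.Lib.MP_b6d339_lc.Cw.T5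
import Pool.Agent.Lib.MP_b6d339_lc.Cw.T6
import Pool.Agent.Lib.MP_b6d339_lc.Cw.T7
import Pool.Agent.Lib.MP_b6d339_lc.Cw.T9

/-!
# Erdős 592, three levels: items
-/

namespace MPb6P

noncomputable def iiNFzE2ByAx3xA2EzF : BT Itm := (.node (.node (.node (.node (.node (.node (.node (.leaf (.fwd 0 32 tp368.df)) (.leaf (.bwd 32 18 tp607.df))) (.node (.leaf (.fwd 50 21 tp1425.df)) (.leaf (.bwd 71 23 tp320.df)))) (.node (.node (.leaf (.fwd 94 27 tp321.df)) (.leaf (.bwd 121 27 tp321.df))) (.leaf (.bwd 148 26 tp1426.df)))) (.node (.node (.node (.leaf (.bwd 174 11 tp290.df)) (.leaf (.fwd 185 23 tp292.df))) (.node (.leaf (.bwd 208 20 tp1427.df)) (.leaf (.fwd 228 19 tp391.df)))) (.node (.node (.leaf (.fwd 247 27 tp1428.df)) (.leaf (.fwd 274 20 tp612.df))) (.leaf (.fwd 294 19 tp327.df))))) (.node (.node (.node (.node (.leaf (.fwd 313 25 tp1429.df)) (.leaf (.fwd 338 21 tp1430.df))) (.node (.leaf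 (.bwd 359 31 tp294.df)) (.leaf (.fwd 390 26 tp1431.df)))) (.node (.node (.leaf (.bwd 416 36 tp1432.df)) (.leaf (.bwd 452 29 tp329.df))) (.leaf (.bwd 481 18 tp300.df)))) (.node (.node (.node (.leaf (.fwd 499 28 tp1433.df)) (.leaf (.fwd 527 25 tp1434.df))) (.leaf (.fwd 552 24 tp332.df))) (.node (.node (.leaf (.bwd 576 24 tp332.df)) (.leaf (.bwd 600 27 tp1435.df))) (.leaf (.fwd 627 24 tp1436.df)))))) (.node (.node (.node (.node (.node (.leaf (.fwd 651 18 tp315.df)) (.leaf (.fwd 669 23 tp335.df))) (.node (.leaf (.bwd 692 23 tp1437.df)) (.leaf (.fwd 715 25 tp1438.df)))) (.node (.node (.leaf (.fwd 740 20 tp1439.df)) (.leaf (.bwd 760 41 tp962.df))) (.leaf (.fwd 801 29 tp1440.df)))) (.node (.node (.node (.leaf (.fwd 830 17 tp337.df)) (.leaf (.fwd 847 19 tp1441.df))) (.leaf (.bwd 866 32 tp1442.df))) (.node (.node (.leaf (.fwd 898 32 tp984.df)) (.leaf (.bwd 930 25 tp610.df))) (.leaf (.bwd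 955 23 tp1064.df))))) (.node (.node (.node (.node (.leaf (.fwd 978 21 tp1443.df)) (.leaf (.fwd 999 23 tp1444.df))) (.node (.leaf (.fwd 1022 29 tp1445.df)) (.leaf (.fwd 1051 42 tp1446.df)))) (.node (.node (.leaf (.bwd 1093 24 tp589.df)) (.leaf (.fwd 1117 32 tp369.df))) (.leaf (.fwd 1149 28 tp400.df)))) (.node (.node (.node (.leaf (.fwd 1177 32 tp1447.df)) (.leaf (.fwd 1209 21 tp1448.df))) (.leaf (.bwd 1230 32 tp402.df))) (.node (.node (.leaf (.bwd 1262 30 tp299.df)) (.leaf (.fwd 1292 21 tp1449.df))) (.leaf (.fwd 1313 25 tp1450.df))))))) (.node (.node (.node (.node (.node (.node (.leaf (.fwd 1338 29 tp288.df)) (.leaf (.bwd 1367 31 tp346.df))) (.node (.leaf (.fwd 1398 37 tp1451.df)) (.leaf (.bwd 1435 20 tp1452.df)))) (.node (.node (.leaf (.bwd 1455 32 tp1453.df)) (.leaf (.bwd 1487 24 tp286.df))) (.leaf (.fwd 1511 33 tp1454.df)))) (.node (.node (.node (.leaf (.fwd 1544 42 tp1455.df))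 (.leaf (.bwd 1586 28 tp1456.df))) (.leaf (.fwd 1614 19 tp517.df))) (.node (.node (.leaf (.fwd 1633 28 tp373.df)) (.leaf (.bwd 1661 24 tp985.df))) (.leaf (.bwd 1685 29 tp413.df))))) (.node (.node (.node (.node (.leaf (.bwd 1714 23 tp366.df)) (.leaf (.fwd 1737 25 tp301.df))) (.node (.leaf (.fwd 1762 25 tp1457.df)) (.leaf (.fwd 1787 29 tp1458.df)))) (.node (.node (.leaf (.fwd 1816 44 tp1459.df)) (.leaf (.fwd 1860 25 tp1460.df))) (.leaf (.fwd 1885 28 tp1461.df)))) (.node (.node (.node (.leaf (.fwd 1913 26 tp1462.df)) (.leaf (.fwd 1939 53 tp1463.df))) (.leaf (.bwd 1992 16 tp1464.df))) (.node (.node (.leaf (.fwd 2008 50 tp1465.df)) (.leaf (.fwd 2058 45 tp1466.df))) (.leaf (.fwd 2103 24 tp1467.df)))))) (.node (.node (.node (.node (.node (.leaf (.bwd 2127 42 tp1468.df)) (.leaf (.fwd 2169 20 tp1469.df))) (.node (.leaf (.bwd 2189 25 tp1288.df)) (.leaf (.bwd 2214 28 tp1126.df)))) (.node (.node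 (.leaf (.fwd 2242 31 tp1470.df)) (.leaf (.bwd 2273 21 tp1471.df))) (.leaf (.fwd 2294 16 tp1472.df)))) (.node (.node (.node (.leaf (.fwd 2310 23 tp489.df)) (.leaf (.bwd 2333 34 tp499.df))) (.leaf (.fwd 2367 45 tp1473.df))) (.node (.node (.leaf (.bwd 2412 15 tp318.df)) (.leaf (.bwd 2427 22 tp1474.df))) (.leaf (.fwd 2449 24 tp1263.df))))) (.node (.node (.node (.node (.leaf (.bwd 2473 20 tp1475.df)) (.leaf (.bwd 2493 19 tp306.df))) (.node (.leaf (.fwd 2512 33 tp1476.df)) (.leaf (.fwd 2545 27 tp1477.df)))) (.node (.node (.leaf (.fwd 2572 29 tp1478.df)) (.leaf (.bwd 2601 19 tp1479.df))) (.leaf (.bwd 2620 17 tp727.df)))) (.node (.node (.node (.leaf (.fwd 2637 26 tp1480.df)) (.leaf (.bwd 2663 33 tp1481.df))) (.leaf (.bwd 2696 23 tp426.df))) (.node (.node (.leaf (.bwd 2719 17 tp422.df)) (.leaf (.bwd 2736 11 tp1482.df))) (.leaf (.bwd 2747 37 tp1483.df))))))))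

theorem iiNFzE2ByAx3xA2EzF_c : iiNFzE2ByAx3xA2EzF.all (itB (ng 53 nnNFzE2ByAx3xA2EzF)) = true := by decide +kernel
theorem nbNFzE2ByAx3xA2EzF : nbB 53 2837 nnNFzE2ByAx3xA2EzF = true := by decide +kernel
theorem topNFzE2ByAx3xA2EzF : topY 2837 ttNFzE2ByAx3xA2EzF ceNFzE2ByAx3xA2EzF xNFzE2ByAx3xA2EzF iiNFzE2ByAx3xA2EzF = true := by decide +kernel

end MPb6P
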