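import Pool.Agent.Lib.MP_b6d339_lc.Cw.YFzE2B3HzB3H3B2E
import Pool.Agent.Lib.MP_b6d339_lc.Cw.XL

/-!
# Erdős 592, three levels: checks of claims
-/

namespace MPb6P

theorem zeNFzE2B3HzB3H3B2E_0 : cyE 58 3024 nnNFzE2B3HzB3H3B2E ttNFzE2B3HzB3H3B2E coNFzE2B3HzB3H3B2E xNFzE2B3HzB3H3B2E ceNFzE2B3HzB3H3B2E_0 = true := by decide +kernel

theorem zoNFzE2B3HzB3H3B2E_0 : cyO 58 3024 nnNFzE2B3HzB3H3B2E ttNFzE2B3HzB3H3B2E ceNFzE2B3HzB3H3B2E xNFzE2B3HzB3H3B2E coNFzE2B3HzB3H3B2E_0 = true := by decide +kernel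

end MPb6P
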