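import Pool.Agent.Lib.MP_b6d339_lc.Cw.YFzE2ByAx3xA2EzF
import Pool.Agent.Lib.MP_b6d339_lc.Cw.XL

/-!
# Erdős 592, three levels: checks of claims
-/

namespace MPb6P

theorem zoNFzE2ByAx3xA2EzF_0 : cyO 53 2837 nnNFzE2ByAx3xA2EzF ttNFzE2ByAx3xA2EzF ceNFzE2ByAx3xA2EzF xNFzE2ByAx3xA2EzF coNFzE2ByAx3xA2EzF_0 = true := by decide +kernel

theorem zeNFzE2ByAx3xA2EzF_0 : cyE 53 2837 nnNFzE2ByAx3xA2EzF ttNFzE2ByAx3xA2EzF coNFzE2ByAx3xA2EzF xNFzE2ByAx3xA2EzF ceNFzE2ByAx3xA2EzF_0 = true := by decide +kernel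

end MPb6P
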