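import Pool.Agent.Lib.MP_b6d339_lc.Cw.JFzE2B3H3B2E
import Pool.Agent.Lib.MP_b6d339_lc.Cw.JFzE2B3HzB3H3B2E
import Pool.Agent.Lib.MP_b6d339_lc.Cw.JFzE2B3IzC3B2EzF
import Pool.Agent.Lib.MP_b6d339_lc.Cw.JFzE2ByAx3xA2EzF
import Pool.Agent.Lib.MP_b6d339_lc.Cw.P1
import Pool.Agent.Lib.MP_b6d339_lc.Cw.P2
import Pool.Agent.Lib.MP_b6d339_lc.Cw.S0
import Pool.Agent.Lib.MP_b6d339_lc.Cw.S2
import Pool.Agent.Lib.MP_b6d339_lc.Cw.S4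
import Pool.Agent.Lib.MP_b6d339_lc.Cw.S5
import Pool.Agent.Lib.MP_b6d339_lc.Cw.S6
import Pool.Agent.Lib.MP_b6d339_lc.Cw.S7
import Pool.Agent.Lib.MP_b6d339_lc.Cw.T0
import Pool.Agent.Lib.MP_b6d339_lc.Cw.T1
import Pool.Agent.Lib.MP_b6d339_lc.Cw.T10
import Pool.Agent.Lib.MP_b6d339_lc.Cw.T11
import Pool.Agent.Lib.MP_b6d339_lc.Cw.T12
import Pool.Agent.Lib.MP_b6d339_lc.Cw.T13
import Pool.Agent.Lib.MP_b6d339_lc.Cw.T14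
import Pool.Agent.Lib.MP_b6d339_lc.Cw.T15
import Pool.Agent.Lib.MP_b6d339_lc.Cw.T16
import Pool.Agent.Lib.MP_b6d339_lc.Cw.T17
import Pool.Agent.Lib.MP_b6d339_lc.Cw.T18
import Pool.Agent.Lib.MP_b6d339_lc.Cw.T19
import Pool.Agent.Lib.MP_b6d339_lc.Cw.T2
import Pool.Agent.Lib.MP_b6d339_lc.Cw.T20
import Pool.Agent.Lib.MP_b6d339_lc.Cw.T21
import Pool.Agent.Lib.MP_b6d339_lc.Cw.T22
import Pool.Agent.Lib.MP_b6d339_lc.Cw.T23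
import Pool.Agent.Lib.MP_b6d339_lc.Cw.T24
import Pool.Agent.Lib.MP_b6d339_lc.Cw.T25
import Pool.Agent.Lib.MP_b6d339_lc.Cw.T26
import Pool.Agent.Lib.MP_b6d339_lc.Cw.T27
import Pool.Agent.Lib.MP_b6d339_lc.Cw.T28
import Pool.Agent.Lib.MP_b6d339_lc.Cw.T3
import Pool.Agent.Lib.MP_b6d339_lc.Cw.T30
import Pool.Agent.Lib.MP_b6d339_lc.Cw.T31
import Pool.Agent.Lib.MP_b6d339_lc.Cw.T32
import Pool.Agent.Lib.MP_b6d339_lc.Cw.T33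
import Pool.Agent.Lib.MP_b6d339_lc.Cw.T35
import Pool.Agent.Lib.MP_b6d339_lc.Cw.T36
import Pool.Agent.Lib.MP_b6d339_lc.Cw.T4
import Pool.Agent.Lib.MP_b6d339_lc.Cw.T5
import Pool.Agent.Lib.MP_b6d339_lc.Cw.T6
import Pool.Agent.Lib.MP_b6d339_lc.Cw.T7
import Pool.Agent.Lib.MP_b6d339_lc.Cw.T8
import Pool.Agent.Lib.MP_b6d339_lc.Cw.T9
import Pool.Agent.Lib.MP_b6d339_lc.Cw.XL
import Pool.Agent.Lib.MP_b6d339_lc.Cw.ZFzE2B3H3B2E_0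
import Pool.Agent.Lib.MP_b6d339_lc.Cw.ZFzE2B3H3B2E_1
import Pool.Agent.Lib.MP_b6d339_lc.Cw.ZFzE2B3HzB3H3B2E_0
import Pool.Agent.Lib.MP_b6d339_lc.Cw.ZFzE2B3IzC3B2EzF_0
import Pool.Agent.Lib.MP_b6d339_lc.Cw.ZFzE2ByAx3xA2EzF_0
import Pool.Agent.Lib.MP_b6d339_lc.Pos.XTreeC
import Pool.Agent.Lib.MP_b6d339_lc.Pos.YQ

/-!
# Erdős 592, three levels: classes of words
-/

namespace MPb6P

theorem iiNFzE2B3H3B2E_k : iiNFzE2B3H3B2E.Fa (Itm.ok 206) := (BT.Fa_mk (BT.Fa_mk (BT.Fa_mk (BT.Fa_mk (BT.Fa_mk (BT.Fa_mk (BT.Fa_mk (BT.Fa_mk (BT.Fa_leaf (P := Itm.ok 206) (iqf tp1890_c)) (BT.Fa_leaf (P := Itm.ok 206) (iqf tp2043_c))) (BT.Fa_mk (BT.Fa_leaf (P := Itm.ok 206) (iqf tp2044_c)) (BT.Fa_leaf (P := Itm.ok 206) (iqb tp2045_c)))) (BT.Fa_mk (BT.Fa_mk (BT.Fa_leaf (P := Itm.ok 206)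 (iqb tp1995_c)) (BT.Fa_leaf (P := Itm.ok 206) (iqf tp2046_c))) (BT.Fa_mk (BT.Fa_leaf (P := Itm.ok 206) (iqb tp2047_c)) (BT.Fa_leaf (P := Itm.ok 206) (iqb tp2048_c))))) (BT.Fa_mk (BT.Fa_mk (BT.Fa_mk (BT.Fa_leaf (P := Itm.ok 206) (iqb tp2049_c)) (BT.Fa_leaf (P := Itm.ok 206) (iqf tp1420_c))) (BT.Fa_mk (BT.Fa_leaf (P := Itm.ok 206) (iqb tp1888_c)) (BT.Fa_leaf (P := Itm.ok 206) (iqb tp2050_c)))) (BT.Fa_mk (BT.Fa_mk (BT.Fa_leaf (P := Itm.ok 206) (iqb tp2051_c)) (BT.Fa_leaf (P := Itm.ok 206) (iqf tp2052_c))) (BT.Fa_mk (BT.Fa_leaf (P := Itm.ok 206) (iqf tp2053_c)) (BT.Fa_leaf (P := Itm.ok 206) (iqb tp2054_c)))))) (BT.Fa_mk (BT.Fa_mk (BT.Fa_mk (BT.Fa_mk (BT.Fa_leaf (P := Itm.ok 206) (iqf tp2055_c)) (BT.Fa_leaf (P := Itm.ok 206) (iqf tp2056_c))) (BT.Fa_mk (BT.Fa_leaf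 (P := Itm.ok 206) (iqb tp1741_c)) (BT.Fa_leaf (P := Itm.ok 206) (iqf tp2057_c)))) (BT.Fa_mk (BT.Fa_mk (BT.Fa_leaf (P := Itm.ok 206) (iqb tp636_c)) (BT.Fa_leaf (P := Itm.ok 206) (iqb tp2058_c))) (BT.Fa_mk (BT.Fa_leaf (P := Itm.ok 206) (iqb tp2059_c)) (BT.Fa_leaf (P := Itm.ok 206) (iqf tp2060_c))))) (BT.Fa_mk (BT.Fa_mk (BT.Fa_mk (BT.Fa_leaf (P := Itm.ok 206) (iqb tp2061_c)) (BT.Fa_leaf (P := Itm.ok 206) (iqf tp2062_c))) (BT.Fa_mk (BT.Fa_leaf (P := Itm.ok 206) (iqf tp290_c)) (BT.Fa_leaf (P := Itm.ok 206) (iqb tp1734_c)))) (BT.Fa_mk (BT.Fa_mk (BT.Fa_leaf (P := Itm.ok 206) (iqf tp1813_c)) (BT.Fa_leaf (P := Itm.ok 206) (iqf tp1731_c))) (BT.Fa_mk (BT.Fa_leaf (P := Itm.ok 206) (iqb tp1939_c)) (BT.Fa_leaf (P := Itm.ok 206) (iqb tp2063_c))))))) (BT.Fa_mk (BT.Fa_mk (BT.Fa_mk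 (BT.Fa_mk (BT.Fa_mk (BT.Fa_leaf (P := Itm.ok 206) (iqb tp1817_c)) (BT.Fa_leaf (P := Itm.ok 206) (iqf tp2064_c))) (BT.Fa_mk (BT.Fa_leaf (P := Itm.ok 206) (iqb tp2065_c)) (BT.Fa_leaf (P := Itm.ok 206) (iqb tp2066_c)))) (BT.Fa_mk (BT.Fa_mk (BT.Fa_leaf (P := Itm.ok 206) (iqf tp2067_c)) (BT.Fa_leaf (P := Itm.ok 206) (iqb tp2068_c))) (BT.Fa_mk (BT.Fa_leaf (P := Itm.ok 206) (iqb tp2069_c)) (BT.Fa_leaf (P := Itm.ok 206) (iqb tp2070_c))))) (BT.Fa_mk (BT.Fa_mk (BT.Fa_mk (BT.Fa_leaf (P := Itm.ok 206) (iqb tp2071_c)) (BT.Fa_leaf (P := Itm.ok 206) (iqf tp2072_c))) (BT.Fa_mk (BT.Fa_leaf (P := Itm.ok 206) (iqb tp2073_c)) (BT.Fa_leaf (P := Itm.ok 206) (iqb tp2074_c)))) (BT.Fa_mk (BT.Fa_mk (BT.Fa_leaf (P := Itm.ok 206) (iqf tp2075_c)) (BT.Fa_leaf (P := Itm.ok 206) (iqb tp317_c)))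 (BT.Fa_mk (BT.Fa_leaf (P := Itm.ok 206) (iqb tp827_c)) (BT.Fa_leaf (P := Itm.ok 206) (iqb tp2076_c)))))) (BT.Fa_mk (BT.Fa_mk (BT.Fa_mk (BT.Fa_mk (BT.Fa_leaf (P := Itm.ok 206) (iqb tp1781_c)) (BT.Fa_leaf (P := Itm.ok 206) (iqf tp2077_c))) (BT.Fa_mk (BT.Fa_leaf (P := Itm.ok 206) (iqb tp2078_c)) (BT.Fa_leaf (P := Itm.ok 206) (iqb tp520_c)))) (BT.Fa_mk (BT.Fa_mk (BT.Fa_leaf (P := Itm.ok 206) (iqf tp2079_c)) (BT.Fa_leaf (P := Itm.ok 206) (iqb tp2080_c))) (BT.Fa_mk (BT.Fa_leaf (P := Itm.ok 206) (iqf tp2081_c)) (BT.Fa_leaf (P := Itm.ok 206) (iqb tp2082_c))))) (BT.Fa_mk (BT.Fa_mk (BT.Fa_mk (BT.Fa_leaf (P := Itm.ok 206) (iqb tp2083_c)) (BT.Fa_leaf (P := Itm.ok 206) (iqb tp2084_c))) (BT.Fa_mk (BT.Fa_leaf (P := Itm.ok 206) (iqb tp2085_c)) (BT.Fa_leaf (P := Itm.ok 206) (iqb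 tp2086_c)))) (BT.Fa_mk (BT.Fa_mk (BT.Fa_leaf (P := Itm.ok 206) (iqb tp2087_c)) (BT.Fa_leaf (P := Itm.ok 206) (iqb tp613_c))) (BT.Fa_leaf (P := Itm.ok 206) (iqb tp240_c))))))) (BT.Fa_mk (BT.Fa_mk (BT.Fa_mk (BT.Fa_mk (BT.Fa_mk (BT.Fa_mk (BT.Fa_leaf (P := Itm.ok 206) (iqf tp302_c)) (BT.Fa_leaf (P := Itm.ok 206) (iqf tp2088_c))) (BT.Fa_mk (BT.Fa_leaf (P := Itm.ok 206) (iqf tp2089_c)) (BT.Fa_leaf (P := Itm.ok 206) (iqf tp2090_c)))) (BT.Fa_mk (BT.Fa_mk (BT.Fa_leaf (P := Itm.ok 206) (iqf tp2091_c)) (BT.Fa_leaf (P := Itm.ok 206) (iqb tp2092_c))) (BT.Fa_mk (BT.Fa_leaf (P := Itm.ok 206) (iqf tp2093_c)) (BT.Fa_leaf (P := Itm.ok 206) (iqb tp2094_c))))) (BT.Fa_mk (BT.Fa_mk (BT.Fa_mk (BT.Fa_leaf (P := Itm.ok 206) (iqf tp1732_c)) (BT.Fa_leaf (P := Itm.ok 206) (iqf tp2095_c)))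 (BT.Fa_mk (BT.Fa_leaf (P := Itm.ok 206) (iqf tp2040_c)) (BT.Fa_leaf (P := Itm.ok 206) (iqf tp2096_c)))) (BT.Fa_mk (BT.Fa_mk (BT.Fa_leaf (P := Itm.ok 206) (iqb tp1896_c)) (BT.Fa_leaf (P := Itm.ok 206) (iqf tp1945_c))) (BT.Fa_mk (BT.Fa_leaf (P := Itm.ok 206) (iqb tp2097_c)) (BT.Fa_leaf (P := Itm.ok 206) (iqb tp2098_c)))))) (BT.Fa_mk (BT.Fa_mk (BT.Fa_mk (BT.Fa_mk (BT.Fa_leaf (P := Itm.ok 206) (iqf tp2099_c)) (BT.Fa_leaf (P := Itm.ok 206) (iqf tp2100_c))) (BT.Fa_mk (BT.Fa_leaf (P := Itm.ok 206) (iqf tp2027_c)) (BT.Fa_leaf (P := Itm.ok 206) (iqf tp2101_c)))) (BT.Fa_mk (BT.Fa_mk (BT.Fa_leaf (P := Itm.ok 206) (iqb tp2102_c)) (BT.Fa_leaf (P := Itm.ok 206) (iqf tp359_c))) (BT.Fa_mk (BT.Fa_leaf (P := Itm.ok 206) (iqf tp2103_c)) (BT.Fa_leaf (P := Itm.ok 206) (iqf tp2104_c)))))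 (BT.Fa_mk (BT.Fa_mk (BT.Fa_mk (BT.Fa_leaf (P := Itm.ok 206) (iqf tp2105_c)) (BT.Fa_leaf (P := Itm.ok 206) (iqb tp619_c))) (BT.Fa_mk (BT.Fa_leaf (P := Itm.ok 206) (iqf tp414_c)) (BT.Fa_leaf (P := Itm.ok 206) (iqf tp2106_c)))) (BT.Fa_mk (BT.Fa_mk (BT.Fa_leaf (P := Itm.ok 206) (iqf tp1891_c)) (BT.Fa_leaf (P := Itm.ok 206) (iqf tp2107_c))) (BT.Fa_mk (BT.Fa_leaf (P := Itm.ok 206) (iqb tp2108_c)) (BT.Fa_leaf (P := Itm.ok 206) (iqb tp2109_c))))))) (BT.Fa_mk (BT.Fa_mk (BT.Fa_mk (BT.Fa_mk (BT.Fa_mk (BT.Fa_leaf (P := Itm.ok 206) (iqb tp377_c)) (BT.Fa_leaf (P := Itm.ok 206) (iqf tp1099_c))) (BT.Fa_mk (BT.Fa_leaf (P := Itm.ok 206) (iqb tp1733_c)) (BT.Fa_leaf (P := Itm.ok 206) (iqb tp401_c)))) (BT.Fa_mk (BT.Fa_mk (BT.Fa_leaf (P := Itm.ok 206) (iqf tp2110_c)) (BT.Fa_leaf (P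 := Itm.ok 206) (iqf tp2111_c))) (BT.Fa_mk (BT.Fa_leaf (P := Itm.ok 206) (iqf tp2112_c)) (BT.Fa_leaf (P := Itm.ok 206) (iqf tp2113_c))))) (BT.Fa_mk (BT.Fa_mk (BT.Fa_mk (BT.Fa_leaf (P := Itm.ok 206) (iqf tp2114_c)) (BT.Fa_leaf (P := Itm.ok 206) (iqb tp2115_c))) (BT.Fa_mk (BT.Fa_leaf (P := Itm.ok 206) (iqf tp2116_c)) (BT.Fa_leaf (P := Itm.ok 206) (iqf tp2117_c)))) (BT.Fa_mk (BT.Fa_mk (BT.Fa_leaf (P := Itm.ok 206) (iqb tp1999_c)) (BT.Fa_leaf (P := Itm.ok 206) (iqb tp2118_c))) (BT.Fa_mk (BT.Fa_leaf (P := Itm.ok 206) (iqf tp299_c)) (BT.Fa_leaf (P := Itm.ok 206) (iqf tp2119_c)))))) (BT.Fa_mk (BT.Fa_mk (BT.Fa_mk (BT.Fa_mk (BT.Fa_leaf (P := Itm.ok 206) (iqf tp678_c)) (BT.Fa_leaf (P := Itm.ok 206) (iqb tp2120_c))) (BT.Fa_mk (BT.Fa_leaf (P := Itm.ok 206) (iqf tp1082_c))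 (BT.Fa_leaf (P := Itm.ok 206) (iqb tp2121_c)))) (BT.Fa_mk (BT.Fa_mk (BT.Fa_leaf (P := Itm.ok 206) (iqf tp2122_c)) (BT.Fa_leaf (P := Itm.ok 206) (iqf tp2123_c))) (BT.Fa_mk (BT.Fa_leaf (P := Itm.ok 206) (show Itm.ok 206 (.pat 2972 pq134) from (POK.mono (by decide) pq134_ok))) (BT.Fa_leaf (P := Itm.ok 206) (iqb tp1299_c))))) (BT.Fa_mk (BT.Fa_mk (BT.Fa_mk (BT.Fa_leaf (P := Itm.ok 206) (iqb tp1169_c)) (BT.Fa_leaf (P := Itm.ok 206) (iqb tp907_c))) (BT.Fa_mk (BT.Fa_leaf (P := Itm.ok 206) (show Itm.ok 206 (.pat 3103 pq135) from (POK.mono (by decide) pq135_ok))) (BT.Fa_leaf (P := Itm.ok 206) (show Itm.ok 206 (.pat 3139 pq136) from (POK.mono (by decide) pq136_ok))))) (BT.Fa_mk (BT.Fa_mk (BT.Fa_leaf (P := Itm.ok 206) (show Itm.ok 206 (.pat 3175 pq137) from (POK.mono (by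 decide) pq137_ok))) (BT.Fa_leaf (P := Itm.ok 206) (show Itm.ok 206 (.pat 3209 pq138) from (POK.mono (by decide) pq138_ok)))) (BT.Fa_leaf (P := Itm.ok 206) (show Itm.ok 206 (.pat 3249 pq139) from (POK.mono (by decide) pq139_ok))))))))) (BT.Fa_mk (BT.Fa_mk (BT.Fa_mk (BT.Fa_mk (BT.Fa_mk (BT.Fa_mk (BT.Fa_mk (BT.Fa_leaf (P := Itm.ok 206) (iqf tp2124_c)) (BT.Fa_leaf (P := Itm.ok 206) (iqb tp2125_c))) (BT.Fa_mk (BT.Fa_leaf (P := Itm.ok 206) (iqf tp2126_c)) (BT.Fa_leaf (P := Itm.ok 206) (iqb tp2127_c)))) (BT.Fa_mk (BT.Fa_mk (BT.Fa_leaf (P := Itm.ok 206) (iqb tp1770_c)) (BT.Fa_leaf (P := Itm.ok 206) (iqb tp2128_c))) (BT.Fa_mk (BT.Fa_leaf (P := Itm.ok 206) (iqf tp2129_c)) (BT.Fa_leaf (P := Itm.ok 206) (iqb tp2130_c))))) (BT.Fa_mk (BT.Fa_mk (BT.Fa_mk (BT.Fa_leaf (P := Itm.ok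 206) (iqb tp2131_c)) (BT.Fa_leaf (P := Itm.ok 206) (iqb tp2132_c))) (BT.Fa_mk (BT.Fa_leaf (P := Itm.ok 206) (iqb tp2133_c)) (BT.Fa_leaf (P := Itm.ok 206) (iqb tp2134_c)))) (BT.Fa_mk (BT.Fa_mk (BT.Fa_leaf (P := Itm.ok 206) (show Itm.ok 206 (.pat 3633 pq140) from (POK.mono (by decide) pq140_ok))) (BT.Fa_leaf (P := Itm.ok 206) (show Itm.ok 206 (.pat 3679 pq141) from (POK.mono (by decide) pq141_ok)))) (BT.Fa_mk (BT.Fa_leaf (P := Itm.ok 206) (iqb tp1553_c)) (BT.Fa_leaf (P := Itm.ok 206) (show Itm.ok 206 (.pat 3751 pq142) from (POK.mono (by decide) pq142_ok))))))) (BT.Fa_mk (BT.Fa_mk (BT.Fa_mk (BT.Fa_mk (BT.Fa_leaf (P := Itm.ok 206) (iqb tp846_c)) (BT.Fa_leaf (P := Itm.ok 206) (show Itm.ok 206 (.pat 3820 pq143) from (POK.mono (by decide) pq143_ok)))) (BT.Fa_mk (BT.Fa_leaf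 (P := Itm.ok 206) (show Itm.ok 206 (.pat 3858 pq144) from (POK.mono (by decide) pq144_ok))) (BT.Fa_leaf (P := Itm.ok 206) (show Itm.ok 206 (.pat 3892 pq145) from (POK.mono (by decide) pq145_ok))))) (BT.Fa_mk (BT.Fa_mk (BT.Fa_leaf (P := Itm.ok 206) (show Itm.ok 206 (.pat 3930 pq146) from (POK.mono (by decide) pq146_ok))) (BT.Fa_leaf (P := Itm.ok 206) (show Itm.ok 206 (.pat 3966 pq147) from (POK.mono (by decide) pq147_ok)))) (BT.Fa_mk (BT.Fa_leaf (P := Itm.ok 206) (show Itm.ok 206 (.pat 4002 pq148) from (POK.mono (by decide) pq148_ok))) (BT.Fa_leaf (P := Itm.ok 206) (show Itm.ok 206 (.pat 4036 pq149) from (POK.mono (by decide) pq149_ok)))))) (BT.Fa_mk (BT.Fa_mk (BT.Fa_mk (BT.Fa_leaf (P := Itm.ok 206) (show Itm.ok 206 (.pat 4072 pq150) from (POK.mono (by decide)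 pq150_ok))) (BT.Fa_leaf (P := Itm.ok 206) (show Itm.ok 206 (.pat 4116 pq151) from (POK.mono (by decide) pq151_ok)))) (BT.Fa_mk (BT.Fa_leaf (P := Itm.ok 206) (show Itm.ok 206 (.pat 4154 pq152) from (POK.mono (by decide) pq152_ok))) (BT.Fa_leaf (P := Itm.ok 206) (show Itm.ok 206 (.pat 4198 pq153) from (POK.mono (by decide) pq153_ok))))) (BT.Fa_mk (BT.Fa_mk (BT.Fa_leaf (P := Itm.ok 206) (show Itm.ok 206 (.pat 4244 pq154) from (POK.mono (by decide) pq154_ok))) (BT.Fa_leaf (P := Itm.ok 206) (show Itm.ok 206 (.pat 4282 pq155) from (POK.mono (by decide) pq155_ok)))) (BT.Fa_mk (BT.Fa_leaf (P := Itm.ok 206) (show Itm.ok 206 (.pat 4324 pq156) from (POK.mono (by decide) pq156_ok))) (BT.Fa_leaf (P := Itm.ok 206) (show Itm.ok 206 (.pat 4360 pq157) from (POK.mono (by decide)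 pq157_ok)))))))) (BT.Fa_mk (BT.Fa_mk (BT.Fa_mk (BT.Fa_mk (BT.Fa_mk (BT.Fa_leaf (P := Itm.ok 206) (show Itm.ok 206 (.pat 4396 pq158) from (POK.mono (by decide) pq158_ok))) (BT.Fa_leaf (P := Itm.ok 206) (show Itm.ok 206 (.pat 4436 pq159) from (POK.mono (by decide) pq159_ok)))) (BT.Fa_mk (BT.Fa_leaf (P := Itm.ok 206) (iqb tp1986_c)) (BT.Fa_leaf (P := Itm.ok 206) (iqf tp2135_c)))) (BT.Fa_mk (BT.Fa_mk (BT.Fa_leaf (P := Itm.ok 206) (iqf tp2136_c)) (BT.Fa_leaf (P := Itm.ok 206) (iqb tp2137_c))) (BT.Fa_mk (BT.Fa_leaf (P := Itm.ok 206) (iqf tp2138_c)) (BT.Fa_leaf (P := Itm.ok 206) (iqf tp2139_c))))) (BT.Fa_mk (BT.Fa_mk (BT.Fa_mk (BT.Fa_leaf (P := Itm.ok 206) (iqb tp1182_c)) (BT.Fa_leaf (P := Itm.ok 206) (iqf tp2140_c))) (BT.Fa_mk (BT.Fa_leaf (P := Itm.ok 206) (iqb tp2141_c))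 (BT.Fa_leaf (P := Itm.ok 206) (iqf tp2142_c)))) (BT.Fa_mk (BT.Fa_mk (BT.Fa_leaf (P := Itm.ok 206) (iqb tp2143_c)) (BT.Fa_leaf (P := Itm.ok 206) (iqb tp2144_c))) (BT.Fa_mk (BT.Fa_leaf (P := Itm.ok 206) (iqb tp2145_c)) (BT.Fa_leaf (P := Itm.ok 206) (iqb tp1749_c)))))) (BT.Fa_mk (BT.Fa_mk (BT.Fa_mk (BT.Fa_mk (BT.Fa_leaf (P := Itm.ok 206) (iqb tp2146_c)) (BT.Fa_leaf (P := Itm.ok 206) (iqb tp2147_c))) (BT.Fa_mk (BT.Fa_leaf (P := Itm.ok 206) (iqb tp2148_c)) (BT.Fa_leaf (P := Itm.ok 206) (iqb tp1265_c)))) (BT.Fa_mk (BT.Fa_mk (BT.Fa_leaf (P := Itm.ok 206) (iqb tp2149_c)) (BT.Fa_leaf (P := Itm.ok 206) (iqb tp145_c))) (BT.Fa_mk (BT.Fa_leaf (P := Itm.ok 206) (iqf tp2150_c)) (BT.Fa_leaf (P := Itm.ok 206) (iqf tp2151_c))))) (BT.Fa_mk (BT.Fa_mk (BT.Fa_mk (BT.Fa_leaf (P :=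 Itm.ok 206) (iqb tp2152_c)) (BT.Fa_leaf (P := Itm.ok 206) (iqb tp2018_c))) (BT.Fa_mk (BT.Fa_leaf (P := Itm.ok 206) (iqf tp2153_c)) (BT.Fa_leaf (P := Itm.ok 206) (iqf tp2016_c)))) (BT.Fa_mk (BT.Fa_mk (BT.Fa_leaf (P := Itm.ok 206) (iqf tp2154_c)) (BT.Fa_leaf (P := Itm.ok 206) (iqb tp2156_c))) (BT.Fa_leaf (P := Itm.ok 206) (iqb tp2157_c))))))) (BT.Fa_mk (BT.Fa_mk (BT.Fa_mk (BT.Fa_mk (BT.Fa_mk (BT.Fa_mk (BT.Fa_leaf (P := Itm.ok 206) (iqb tp2022_c)) (BT.Fa_leaf (P := Itm.ok 206) (iqf tp2158_c))) (BT.Fa_mk (BT.Fa_leaf (P := Itm.ok 206) (iqb tp2159_c)) (BT.Fa_leaf (P := Itm.ok 206) (iqb tp2160_c)))) (BT.Fa_mk (BT.Fa_mk (BT.Fa_leaf (P := Itm.ok 206) (iqb tp2161_c)) (BT.Fa_leaf (P := Itm.ok 206) (iqf tp2162_c))) (BT.Fa_mk (BT.Fa_leaf (P := Itm.ok 206) (iqf tp2163_c))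 (BT.Fa_leaf (P := Itm.ok 206) (iqb tp2164_c))))) (BT.Fa_mk (BT.Fa_mk (BT.Fa_mk (BT.Fa_leaf (P := Itm.ok 206) (iqb tp2166_c)) (BT.Fa_leaf (P := Itm.ok 206) (iqb tp2167_c))) (BT.Fa_mk (BT.Fa_leaf (P := Itm.ok 206) (iqb tp2168_c)) (BT.Fa_leaf (P := Itm.ok 206) (iqb tp2169_c)))) (BT.Fa_mk (BT.Fa_mk (BT.Fa_leaf (P := Itm.ok 206) (iqf tp2170_c)) (BT.Fa_leaf (P := Itm.ok 206) (show Itm.ok 206 (.pat 5545 pq160) from (POK.mono (by decide) pq160_ok)))) (BT.Fa_mk (BT.Fa_leaf (P := Itm.ok 206) (iqf tp2171_c)) (BT.Fa_leaf (P := Itm.ok 206) (iqb tp1736_c)))))) (BT.Fa_mk (BT.Fa_mk (BT.Fa_mk (BT.Fa_mk (BT.Fa_leaf (P := Itm.ok 206) (iqb tp2172_c)) (BT.Fa_leaf (P := Itm.ok 206) (iqf tp2173_c))) (BT.Fa_mk (BT.Fa_leaf (P := Itm.ok 206) (iqb tp2174_c)) (BT.Fa_leaf (P := Itm.ok 206)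 (iqf tp2175_c)))) (BT.Fa_mk (BT.Fa_mk (BT.Fa_leaf (P := Itm.ok 206) (iqb tp1364_c)) (BT.Fa_leaf (P := Itm.ok 206) (iqf tp2176_c))) (BT.Fa_mk (BT.Fa_leaf (P := Itm.ok 206) (iqf tp2177_c)) (BT.Fa_leaf (P := Itm.ok 206) (show Itm.ok 206 (.pat 5876 pq161) from (POK.mono (by decide) pq161_ok)))))) (BT.Fa_mk (BT.Fa_mk (BT.Fa_mk (BT.Fa_leaf (P := Itm.ok 206) (iqb tp2178_c)) (BT.Fa_leaf (P := Itm.ok 206) (iqf tp2179_c))) (BT.Fa_mk (BT.Fa_leaf (P := Itm.ok 206) (iqf tp2180_c)) (BT.Fa_leaf (P := Itm.ok 206) (iqf tp2182_c)))) (BT.Fa_mk (BT.Fa_mk (BT.Fa_leaf (P := Itm.ok 206) (show Itm.ok 206 (.pat 6035 pq162) from (POK.mono (by decide) pq162_ok))) (BT.Fa_leaf (P := Itm.ok 206) (iqb tp2183_c))) (BT.Fa_leaf (P := Itm.ok 206) (iqf tp2184_c)))))) (BT.Fa_mk (BT.Fa_mk (BT.Fa_mk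 (BT.Fa_mk (BT.Fa_mk (BT.Fa_leaf (P := Itm.ok 206) (iqb tp2185_c)) (BT.Fa_leaf (P := Itm.ok 206) (iqf tp2186_c))) (BT.Fa_mk (BT.Fa_leaf (P := Itm.ok 206) (iqb tp2187_c)) (BT.Fa_leaf (P := Itm.ok 206) (iqb tp2188_c)))) (BT.Fa_mk (BT.Fa_mk (BT.Fa_leaf (P := Itm.ok 206) (iqb tp2189_c)) (BT.Fa_leaf (P := Itm.ok 206) (iqf tp2190_c))) (BT.Fa_mk (BT.Fa_leaf (P := Itm.ok 206) (iqb tp2191_c)) (BT.Fa_leaf (P := Itm.ok 206) (show Itm.ok 206 (.pat 6346 pq163) from (POK.mono (by decide) pq163_ok)))))) (BT.Fa_mk (BT.Fa_mk (BT.Fa_mk (BT.Fa_leaf (P := Itm.ok 206) (show Itm.ok 206 (.pat 6380 pq164) from (POK.mono (by decide) pq164_ok))) (BT.Fa_leaf (P := Itm.ok 206) (iqf tp2192_c))) (BT.Fa_mk (BT.Fa_leaf (P := Itm.ok 206) (show Itm.ok 206 (.pat 6439 pq165) from (POK.mono (by decide)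 pq165_ok))) (BT.Fa_leaf (P := Itm.ok 206) (show Itm.ok 206 (.pat 6483 pq166) from (POK.mono (by decide) pq166_ok))))) (BT.Fa_mk (BT.Fa_mk (BT.Fa_leaf (P := Itm.ok 206) (iqb tp2193_c)) (BT.Fa_leaf (P := Itm.ok 206) (iqb tp2194_c))) (BT.Fa_mk (BT.Fa_leaf (P := Itm.ok 206) (show Itm.ok 206 (.pat 6602 pq167) from (POK.mono (by decide) pq167_ok))) (BT.Fa_leaf (P := Itm.ok 206) (show Itm.ok 206 (.pat 6642 pq168) from (POK.mono (by decide) pq168_ok))))))) (BT.Fa_mk (BT.Fa_mk (BT.Fa_mk (BT.Fa_mk (BT.Fa_leaf (P := Itm.ok 206) (show Itm.ok 206 (.pat 6684 pq169) from (POK.mono (by decide) pq169_ok))) (BT.Fa_leaf (P := Itm.ok 206) (iqb tp615_c))) (BT.Fa_mk (BT.Fa_leaf (P := Itm.ok 206) (iqb tp2196_c)) (BT.Fa_leaf (P := Itm.ok 206) (iqb tp2197_c)))) (BT.Fa_mk (BT.Fa_mk (BT.Fa_leaf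 (P := Itm.ok 206) (iqb tp2198_c)) (BT.Fa_leaf (P := Itm.ok 206) (iqf tp2199_c))) (BT.Fa_mk (BT.Fa_leaf (P := Itm.ok 206) (show Itm.ok 206 (.pat 6885 pq170) from (POK.mono (by decide) pq170_ok))) (BT.Fa_leaf (P := Itm.ok 206) (iqb tp2200_c))))) (BT.Fa_mk (BT.Fa_mk (BT.Fa_mk (BT.Fa_leaf (P := Itm.ok 206) (show Itm.ok 206 (.pat 6952 pq171) from (POK.mono (by decide) pq171_ok))) (BT.Fa_leaf (P := Itm.ok 206) (iqf tp2201_c))) (BT.Fa_mk (BT.Fa_leaf (P := Itm.ok 206) (iqb tp2202_c)) (BT.Fa_leaf (P := Itm.ok 206) (show Itm.ok 206 (.pat 7051 pq172) from (POK.mono (by decide) pq172_ok))))) (BT.Fa_mk (BT.Fa_mk (BT.Fa_leaf (P := Itm.ok 206) (iqf tp2203_c)) (BT.Fa_leaf (P := Itm.ok 206) (iqb tp2204_c))) (BT.Fa_leaf (P := Itm.ok 206) (show Itm.ok 206 (.pat 7138 pq173) from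 (POK.mono (by decide) pq173_ok))))))))))

/-- all words of the class have labels -/
theorem pokNFzE2B3H3B2E : POK 206 xNFzE2B3H3B2E :=
  y_pok (C0 := ceNFzE2B3H3B2E) (C1 := coNFzE2B3H3B2E) topNFzE2B3H3B2E nbNFzE2B3H3B2E (BT.Fa_of_all iiNFzE2B3H3B2E_c)
    (cyE_spec zeNFzE2B3H3B2E_0)
    (cyO_spec zoNFzE2B3H3B2E_0)
    iiNFzE2B3H3B2E_k

theorem iiNFzE2B3H3BzB3H3B2EzF_k : iiNFzE2B3H3BzB3H3B2EzF.Fa (Itm.ok 206) := (BT.Fa_mk (BT.Fa_mk (BT.Fa_mk (BT.Fa_leaf (P := Itm.ok 206) (iqf tp1588_c)) (BT.Fa_leaf (P := Itm.ok 206) (iqb tp1576_c))) (BT.Fa_leaf (P := Itm.ok 206) (iqf tp1579_c))) (BT.Fa_mk (BT.Fa_mk (BT.Fa_leaf (P := Itm.ok 206) (iqf tp1678_c)) (BT.Fa_leaf (P := Itm.ok 206) (iqf tp1576_c))) (BT.Fa_leaf (P := Itm.ok 206) (iqf tp2276_c))))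

/-- all words of the class have labels -/
theorem pokNFzE2B3H3BzB3H3B2EzF : POK 206 xNFzE2B3H3BzB3H3B2EzF :=
  y_pok (C0 := ceNFzE2B3H3BzB3H3B2EzF) (C1 := coNFzE2B3H3BzB3H3B2EzF) topNFzE2B3H3BzB3H3B2EzF nbNFzE2B3H3BzB3H3B2EzF (BT.Fa_of_all iiNFzE2B3H3BzB3H3B2EzF_c)
    (cyE_spec zeNFzE2B3H3BzB3H3B2EzF_0)
    (cyO_spec zoNFzE2B3H3BzB3H3B2EzF_0)
    iiNFzE2B3H3BzB3H3B2EzF_k

theorem iiNFzE2B3H3BzIzB2B3B2E_k : iiNFzE2B3H3BzIzB2B3B2E.Fa (Itm.ok 206) := (BT.Fa_mk (BT.Fa_mk (BT.Fa_mk (BT.Fa_mk (BT.Fa_mk (BT.Fa_mk (BT.Fa_leaf (P := Itm.ok 206) (iqb tp1576_c)) (BT.Fa_leaf (P := Itm.ok 206) (iqf tp1737_c))) (BT.Fa_leaf (P := Itm.ok 206) (iqb tp1588_c))) (BT.Fa_mk (BT.Fa_leaf (P := Itm.ok 206) (iqf tp1738_c)) (BT.Fa_leaf (P := Itm.ok 206) (iqb tp1739_c)))) (BT.Fa_mk (BT.Fa_mk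 (BT.Fa_leaf (P := Itm.ok 206) (iqb tp1740_c)) (BT.Fa_leaf (P := Itm.ok 206) (iqf tp1420_c))) (BT.Fa_mk (BT.Fa_leaf (P := Itm.ok 206) (iqb tp1579_c)) (BT.Fa_leaf (P := Itm.ok 206) (iqb tp1650_c))))) (BT.Fa_mk (BT.Fa_mk (BT.Fa_mk (BT.Fa_mk (BT.Fa_leaf (P := Itm.ok 206) (iqb tp521_c)) (BT.Fa_leaf (P := Itm.ok 206) (iqf tp1664_c))) (BT.Fa_leaf (P := Itm.ok 206) (iqb tp1741_c))) (BT.Fa_mk (BT.Fa_leaf (P := Itm.ok 206) (iqb tp1742_c)) (BT.Fa_leaf (P := Itm.ok 206) (iqb tp1388_c)))) (BT.Fa_mk (BT.Fa_mk (BT.Fa_leaf (P := Itm.ok 206) (iqb tp1736_c)) (BT.Fa_leaf (P := Itm.ok 206) (iqb tp1743_c))) (BT.Fa_mk (BT.Fa_leaf (P := Itm.ok 206) (iqb tp1744_c)) (BT.Fa_leaf (P := Itm.ok 206) (iqf tp1745_c)))))) (BT.Fa_mk (BT.Fa_mk (BT.Fa_mk (BT.Fa_mk (BT.Fa_mk (BT.Fa_leaf (P := Itm.ok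 206) (iqb tp1746_c)) (BT.Fa_leaf (P := Itm.ok 206) (iqb tp240_c))) (BT.Fa_leaf (P := Itm.ok 206) (iqb tp613_c))) (BT.Fa_mk (BT.Fa_leaf (P := Itm.ok 206) (iqb tp1734_c)) (BT.Fa_leaf (P := Itm.ok 206) (iqf tp1576_c)))) (BT.Fa_mk (BT.Fa_mk (BT.Fa_leaf (P := Itm.ok 206) (iqb tp1747_c)) (BT.Fa_leaf (P := Itm.ok 206) (iqf tp1748_c))) (BT.Fa_mk (BT.Fa_leaf (P := Itm.ok 206) (iqb tp1749_c)) (BT.Fa_leaf (P := Itm.ok 206) (iqb tp1751_c))))) (BT.Fa_mk (BT.Fa_mk (BT.Fa_mk (BT.Fa_leaf (P := Itm.ok 206) (iqf tp1752_c)) (BT.Fa_leaf (P := Itm.ok 206) (iqb tp1587_c))) (BT.Fa_mk (BT.Fa_leaf (P := Itm.ok 206) (iqb tp1753_c)) (BT.Fa_leaf (P := Itm.ok 206) (iqb tp145_c)))) (BT.Fa_mk (BT.Fa_mk (BT.Fa_leaf (P := Itm.ok 206) (iqb tp1754_c)) (BT.Fa_leaf (P := Itm.ok 206) (iqb tp1691_c)))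 (BT.Fa_mk (BT.Fa_leaf (P := Itm.ok 206) (iqf tp1756_c)) (BT.Fa_leaf (P := Itm.ok 206) (iqf tp1757_c)))))))

/-- all words of the class have labels -/
theorem pokNFzE2B3H3BzIzB2B3B2E : POK 206 xNFzE2B3H3BzIzB2B3B2E :=
  y_pok (C0 := ceNFzE2B3H3BzIzB2B3B2E) (C1 := coNFzE2B3H3BzIzB2B3B2E) topNFzE2B3H3BzIzB2B3B2E nbNFzE2B3H3BzIzB2B3B2E (BT.Fa_of_all iiNFzE2B3H3BzIzB2B3B2E_c)
    (cyE_spec zeNFzE2B3H3BzIzB2B3B2E_0)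
    (cyO_spec zoNFzE2B3H3BzIzB2B3B2E_0)
    iiNFzE2B3H3BzIzB2B3B2E_k

theorem iiNFzE2B3H3BzIzB2H3B3B2E_k : iiNFzE2B3H3BzIzB2H3B3B2E.Fa (Itm.ok 206) := (BT.Fa_mk (BT.Fa_mk (BT.Fa_mk (BT.Fa_leaf (P := Itm.ok 206) (iqb tp1576_c)) (BT.Fa_leaf (P := Itm.ok 206) (iqb tp1588_c))) (BT.Fa_mk (BT.Fa_leaf (P := Itm.ok 206) (iqf tp1420_c)) (BT.Fa_leaf (P := Itm.ok 206) (iqb tp1758_c)))) (BT.Fa_mk (BT.Fa_mk (BT.Fa_leaf (P := Itm.ok 206) (iqb tp1579_c)) (BT.Fa_leaf (P := Itm.ok 206) (iqb tp1741_c))) (BT.Fa_mk (BT.Fa_leaf (P := Itm.ok 206) (iqb tp1734_c)) (BT.Fa_leaf (P := Itm.ok 206) (iqb tp240_c)))))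

/-- all words of the class have labels -/
theorem pokNFzE2B3H3BzIzB2H3B3B2E : POK 206 xNFzE2B3H3BzIzB2H3B3B2E :=
  y_pok (C0 := ceNFzE2B3H3BzIzB2H3B3B2E) (C1 := coNFzE2B3H3BzIzB2H3B3B2E) topNFzE2B3H3BzIzB2H3B3B2E nbNFzE2B3H3BzIzB2H3B3B2E (BT.Fa_of_all iiNFzE2B3H3BzIzB2H3B3B2E_c)
    (cyE_spec zeNFzE2B3H3BzIzB2H3B3B2E_0)
    (cyO_spec zoNFzE2B3H3BzIzB2H3B3B2E_0)
    iiNFzE2B3H3BzIzB2H3B3B2E_k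

theorem iiNFzE2B3H3BzIzB3H3B2E_k : iiNFzE2B3H3BzIzB3H3B2E.Fa (Itm.ok 206) := (BT.Fa_mk (BT.Fa_mk (BT.Fa_mk (BT.Fa_leaf (P := Itm.ok 206) (iqb tp1576_c)) (BT.Fa_leaf (P := Itm.ok 206) (iqb tp1588_c))) (BT.Fa_leaf (P := Itm.ok 206) (iqf tp1576_c))) (BT.Fa_mk (BT.Fa_leaf (P := Itm.ok 206) (iqb tp1585_c)) (BT.Fa_leaf (P := Itm.ok 206) (iqb tp1579_c))))

/-- all words of the class have labels -/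
theorem pokNFzE2B3H3BzIzB3H3B2E : POK 206 xNFzE2B3H3BzIzB3H3B2E :=
  y_pok (C0 := ceNFzE2B3H3BzIzB3H3B2E) (C1 := coNFzE2B3H3BzIzB3H3B2E) topNFzE2B3H3BzIzB3H3B2E nbNFzE2B3H3BzIzB3H3B2E (BT.Fa_of_all iiNFzE2B3H3BzIzB3H3B2E_c)
    (cyE_spec zeNFzE2B3H3BzIzB3H3B2E_0)
    (cyO_spec zoNFzE2B3H3BzIzB3H3B2E_0)
    iiNFzE2B3H3BzIzB3H3B2E_k

theorem iiNFzE2B3H3BzIzB3H3B2EzF_k : iiNFzE2B3H3BzIzB3H3B2EzF.Fa (Itm.ok 206) := (BT.Fa_mk (BT.Fa_mk (BT.Fa_mk (BT.Fa_mk (BT.Fa_leaf (P := Itm.ok 206) (iqf tp1576_c)) (BT.Fa_leaf (P := Itm.ok 206) (iqb tp1588_c))) (BT.Fa_leaf (P := Itm.ok 206) (iqf tp1579_c))) (BT.Fa_mk (BT.Fa_leaf (P := Itm.ok 206) (iqf tp292_c)) (BT.Fa_leaf (P := Itm.ok 206) (iqb tp1576_c)))) (BT.Fa_mk (BT.Fa_mk (BT.Fa_leaf (P := Itm.ok 206) (iqb tp1579_c)) (BT.Fa_leaf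 (P := Itm.ok 206) (iqb tp292_c))) (BT.Fa_mk (BT.Fa_leaf (P := Itm.ok 206) (iqf tp307_c)) (BT.Fa_leaf (P := Itm.ok 206) (iqf tp290_c)))))

/-- all words of the class have labels -/
theorem pokNFzE2B3H3BzIzB3H3B2EzF : POK 206 xNFzE2B3H3BzIzB3H3B2EzF :=
  y_pok (C0 := ceNFzE2B3H3BzIzB3H3B2EzF) (C1 := coNFzE2B3H3BzIzB3H3B2EzF) topNFzE2B3H3BzIzB3H3B2EzF nbNFzE2B3H3BzIzB3H3B2EzF (BT.Fa_of_all iiNFzE2B3H3BzIzB3H3B2EzF_c)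
    (cyE_spec zeNFzE2B3H3BzIzB3H3B2EzF_0)
    (cyO_spec zoNFzE2B3H3BzIzB3H3B2EzF_0)
    iiNFzE2B3H3BzIzB3H3B2EzF_k

theorem iiNFzE2B3HzB3H3B2E_k : iiNFzE2B3HzB3H3B2E.Fa (Itm.ok 206) := (BT.Fa_mk (BT.Fa_mk (BT.Fa_mk (BT.Fa_mk (BT.Fa_mk (BT.Fa_mk (BT.Fa_mk (BT.Fa_leaf (P := Itm.ok 206) (iqf tp1759_c)) (BT.Fa_leaf (P := Itm.ok 206) (iqf tp1576_c))) (BT.Fa_mk (BT.Fa_leaf (P := Itm.ok 206) (iqb tp1980_c)) (BT.Fa_leaf (P := Itm.ok 206) (iqf tp1981_c)))) (BT.Fa_mk (BT.Fa_mk (BT.Fa_leaf (P := Itm.ok 206) (iqb tp1982_c)) (BT.Fa_leaf (P := Itm.ok 206) (iqb tp1745_c))) (BT.Fa_leaf (P := Itm.ok 206) (iqb tp1883_c)))) (BT.Fa_mk (BT.Fa_mk (BT.Fa_mk (BT.Fa_leaf (P := Itm.ok 206) (iqf tp1983_c)) (BT.Fa_leaf (P := Itm.ok 206) (iqb tp1984_c))) (BT.Fa_mk (BT.Fa_leaf (P := Itm.ok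 206) (iqb tp1887_c)) (BT.Fa_leaf (P := Itm.ok 206) (iqb tp1985_c)))) (BT.Fa_mk (BT.Fa_mk (BT.Fa_leaf (P := Itm.ok 206) (iqb tp1986_c)) (BT.Fa_leaf (P := Itm.ok 206) (iqb tp1908_c))) (BT.Fa_leaf (P := Itm.ok 206) (iqf tp1745_c))))) (BT.Fa_mk (BT.Fa_mk (BT.Fa_mk (BT.Fa_mk (BT.Fa_leaf (P := Itm.ok 206) (iqb tp1987_c)) (BT.Fa_leaf (P := Itm.ok 206) (iqf tp1585_c))) (BT.Fa_mk (BT.Fa_leaf (P := Itm.ok 206) (iqb tp188_c)) (BT.Fa_leaf (P := Itm.ok 206) (iqf tp1988_c)))) (BT.Fa_mk (BT.Fa_mk (BT.Fa_leaf (P := Itm.ok 206) (iqf tp1890_c)) (BT.Fa_leaf (P := Itm.ok 206) (iqb tp1585_c))) (BT.Fa_leaf (P := Itm.ok 206) (iqf tp1989_c)))) (BT.Fa_mk (BT.Fa_mk (BT.Fa_mk (BT.Fa_leaf (P := Itm.ok 206) (iqb tp1990_c)) (BT.Fa_leaf (P := Itm.ok 206) (iqb tp317_c))) (BT.Fa_mk (BT.Fa_leaf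 (P := Itm.ok 206) (iqb tp827_c)) (BT.Fa_leaf (P := Itm.ok 206) (iqb tp307_c)))) (BT.Fa_mk (BT.Fa_mk (BT.Fa_leaf (P := Itm.ok 206) (iqb tp1893_c)) (BT.Fa_leaf (P := Itm.ok 206) (iqf tp1848_c))) (BT.Fa_leaf (P := Itm.ok 206) (iqf tp1991_c)))))) (BT.Fa_mk (BT.Fa_mk (BT.Fa_mk (BT.Fa_mk (BT.Fa_mk (BT.Fa_leaf (P := Itm.ok 206) (iqb tp1992_c)) (BT.Fa_leaf (P := Itm.ok 206) (iqf tp1747_c))) (BT.Fa_mk (BT.Fa_leaf (P := Itm.ok 206) (iqf tp1993_c)) (BT.Fa_leaf (P := Itm.ok 206) (iqf tp1903_c)))) (BT.Fa_mk (BT.Fa_mk (BT.Fa_leaf (P := Itm.ok 206) (iqf tp1994_c)) (BT.Fa_leaf (P := Itm.ok 206) (iqb tp1995_c))) (BT.Fa_leaf (P := Itm.ok 206) (iqb tp1996_c)))) (BT.Fa_mk (BT.Fa_mk (BT.Fa_mk (BT.Fa_leaf (P := Itm.ok 206) (iqb tp1997_c)) (BT.Fa_leaf (P := Itm.ok 206) (iqb tp1998_c)))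 (BT.Fa_mk (BT.Fa_leaf (P := Itm.ok 206) (iqf tp1889_c)) (BT.Fa_leaf (P := Itm.ok 206) (iqb tp1920_c)))) (BT.Fa_mk (BT.Fa_mk (BT.Fa_leaf (P := Itm.ok 206) (iqf tp414_c)) (BT.Fa_leaf (P := Itm.ok 206) (iqb tp1999_c))) (BT.Fa_leaf (P := Itm.ok 206) (iqb tp1884_c))))) (BT.Fa_mk (BT.Fa_mk (BT.Fa_mk (BT.Fa_mk (BT.Fa_leaf (P := Itm.ok 206) (iqb tp1902_c)) (BT.Fa_leaf (P := Itm.ok 206) (iqb tp1896_c))) (BT.Fa_mk (BT.Fa_leaf (P := Itm.ok 206) (iqb tp2000_c)) (BT.Fa_leaf (P := Itm.ok 206) (iqb tp337_c)))) (BT.Fa_mk (BT.Fa_mk (BT.Fa_leaf (P := Itm.ok 206) (iqb tp1426_c)) (BT.Fa_leaf (P := Itm.ok 206) (iqb tp1915_c))) (BT.Fa_leaf (P := Itm.ok 206) (iqb tp2001_c)))) (BT.Fa_mk (BT.Fa_mk (BT.Fa_mk (BT.Fa_leaf (P := Itm.ok 206) (iqb tp1895_c)) (BT.Fa_leaf (P := Itm.ok 206) (show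 Itm.ok 206 (.pat 1102 pq132) from (POK.mono (by decide) pq132_ok)))) (BT.Fa_leaf (P := Itm.ok 206) (iqb tp1914_c))) (BT.Fa_mk (BT.Fa_mk (BT.Fa_leaf (P := Itm.ok 206) (iqb tp1921_c)) (BT.Fa_leaf (P := Itm.ok 206) (iqf tp2002_c))) (BT.Fa_leaf (P := Itm.ok 206) (iqb tp2003_c))))))) (BT.Fa_mk (BT.Fa_mk (BT.Fa_mk (BT.Fa_mk (BT.Fa_mk (BT.Fa_mk (BT.Fa_leaf (P := Itm.ok 206) (iqb tp1911_c)) (BT.Fa_leaf (P := Itm.ok 206) (iqb tp2004_c))) (BT.Fa_mk (BT.Fa_leaf (P := Itm.ok 206) (iqb tp1935_c)) (BT.Fa_leaf (P := Itm.ok 206) (iqb tp1888_c)))) (BT.Fa_mk (BT.Fa_mk (BT.Fa_leaf (P := Itm.ok 206) (iqf tp2005_c)) (BT.Fa_leaf (P := Itm.ok 206) (iqf tp2006_c))) (BT.Fa_leaf (P := Itm.ok 206) (iqf tp2007_c)))) (BT.Fa_mk (BT.Fa_mk (BT.Fa_mk (BT.Fa_leaf (P := Itm.ok 206) (iqb tp1259_c))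 (BT.Fa_leaf (P := Itm.ok 206) (iqb tp2008_c))) (BT.Fa_mk (BT.Fa_leaf (P := Itm.ok 206) (iqb tp2009_c)) (BT.Fa_leaf (P := Itm.ok 206) (iqf tp1931_c)))) (BT.Fa_mk (BT.Fa_mk (BT.Fa_leaf (P := Itm.ok 206) (iqb tp2010_c)) (BT.Fa_leaf (P := Itm.ok 206) (iqb tp2011_c))) (BT.Fa_leaf (P := Itm.ok 206) (iqb tp2012_c))))) (BT.Fa_mk (BT.Fa_mk (BT.Fa_mk (BT.Fa_mk (BT.Fa_leaf (P := Itm.ok 206) (iqb tp433_c)) (BT.Fa_leaf (P := Itm.ok 206) (iqb tp1905_c))) (BT.Fa_mk (BT.Fa_leaf (P := Itm.ok 206) (iqb tp2013_c)) (BT.Fa_leaf (P := Itm.ok 206) (iqf tp2014_c)))) (BT.Fa_mk (BT.Fa_mk (BT.Fa_leaf (P := Itm.ok 206) (iqb tp1925_c)) (BT.Fa_leaf (P := Itm.ok 206) (iqf tp2015_c))) (BT.Fa_leaf (P := Itm.ok 206) (iqb tp1937_c)))) (BT.Fa_mk (BT.Fa_mk (BT.Fa_mk (BT.Fa_leaf (P := Itm.ok 206)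 (iqf tp2016_c)) (BT.Fa_leaf (P := Itm.ok 206) (iqf tp2017_c))) (BT.Fa_leaf (P := Itm.ok 206) (iqb tp1591_c))) (BT.Fa_mk (BT.Fa_mk (BT.Fa_leaf (P := Itm.ok 206) (iqb tp2018_c)) (BT.Fa_leaf (P := Itm.ok 206) (iqb tp1910_c))) (BT.Fa_leaf (P := Itm.ok 206) (iqb tp2019_c)))))) (BT.Fa_mk (BT.Fa_mk (BT.Fa_mk (BT.Fa_mk (BT.Fa_mk (BT.Fa_leaf (P := Itm.ok 206) (iqb tp2020_c)) (BT.Fa_leaf (P := Itm.ok 206) (iqf tp2021_c))) (BT.Fa_mk (BT.Fa_leaf (P := Itm.ok 206) (iqb tp2022_c)) (BT.Fa_leaf (P := Itm.ok 206) (iqf tp2023_c)))) (BT.Fa_mk (BT.Fa_mk (BT.Fa_leaf (P := Itm.ok 206) (iqb tp2024_c)) (BT.Fa_leaf (P := Itm.ok 206) (iqf tp2025_c))) (BT.Fa_leaf (P := Itm.ok 206) (iqb tp2026_c)))) (BT.Fa_mk (BT.Fa_mk (BT.Fa_mk (BT.Fa_leaf (P := Itm.ok 206) (iqb tp1949_c)) (BT.Fa_leaf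 (P := Itm.ok 206) (iqf tp2027_c))) (BT.Fa_mk (BT.Fa_leaf (P := Itm.ok 206) (iqb tp2028_c)) (BT.Fa_leaf (P := Itm.ok 206) (iqb tp1948_c)))) (BT.Fa_mk (BT.Fa_mk (BT.Fa_leaf (P := Itm.ok 206) (iqb tp1951_c)) (BT.Fa_leaf (P := Itm.ok 206) (iqf tp1961_c))) (BT.Fa_leaf (P := Itm.ok 206) (iqf tp1959_c))))) (BT.Fa_mk (BT.Fa_mk (BT.Fa_mk (BT.Fa_mk (BT.Fa_leaf (P := Itm.ok 206) (iqb tp2029_c)) (BT.Fa_leaf (P := Itm.ok 206) (iqf tp1953_c))) (BT.Fa_mk (BT.Fa_leaf (P := Itm.ok 206) (iqb tp2030_c)) (BT.Fa_leaf (P := Itm.ok 206) (iqb tp2031_c)))) (BT.Fa_mk (BT.Fa_mk (BT.Fa_leaf (P := Itm.ok 206) (iqb tp1686_c)) (BT.Fa_leaf (P := Itm.ok 206) (iqb tp2032_c))) (BT.Fa_leaf (P := Itm.ok 206) (iqb tp2034_c)))) (BT.Fa_mk (BT.Fa_mk (BT.Fa_mk (BT.Fa_leaf (P := Itm.ok 206) (iqb tp1947_c))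 (BT.Fa_leaf (P := Itm.ok 206) (iqf tp2035_c))) (BT.Fa_leaf (P := Itm.ok 206) (iqf tp2036_c))) (BT.Fa_mk (BT.Fa_mk (BT.Fa_leaf (P := Itm.ok 206) (iqf tp1964_c)) (BT.Fa_leaf (P := Itm.ok 206) (show Itm.ok 206 (.pat 2881 pq133) from (POK.mono (by decide) pq133_ok)))) (BT.Fa_leaf (P := Itm.ok 206) (iqb tp2037_c))))))))

/-- all words of the class have labels -/
theorem pokNFzE2B3HzB3H3B2E : POK 206 xNFzE2B3HzB3H3B2E :=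
  y_pok (C0 := ceNFzE2B3HzB3H3B2E) (C1 := coNFzE2B3HzB3H3B2E) topNFzE2B3HzB3H3B2E nbNFzE2B3HzB3H3B2E (BT.Fa_of_all iiNFzE2B3HzB3H3B2E_c)
    (cyE_spec zeNFzE2B3HzB3H3B2E_0)
    (cyO_spec zoNFzE2B3HzB3H3B2E_0)
    iiNFzE2B3HzB3H3B2E_k

theorem iiNFzE2B3Iy3B2E_k : iiNFzE2B3Iy3B2E.Fa (Itm.ok 206) := (BT.Fa_mk (BT.Fa_mk (BT.Fa_mk (BT.Fa_mk (BT.Fa_mk (BT.Fa_mk (BT.Fa_leaf (P := Itm.ok 206) (iqf tp1890_c)) (BT.Fa_leaf (P := Itm.ok 206) (iqf tp1420_c))) (BT.Fa_mk (BT.Fa_leaf (P := Itm.ok 206) (iqb tp307_c)) (BT.Fa_leaf (P := Itm.ok 206) (iqb tp1734_c)))) (BT.Fa_mk (BT.Fa_mk (BT.Fa_leaf (P := Itm.ok 206) (iqb tp2968_c)) (BT.Fa_leaf (P := Itm.ok 206) (iqf tp2699_c))) (BT.Fa_mk (BT.Fa_leaf (P := Itm.ok 206) (iqf tp290_c)) (BT.Fa_leaf (P := Itm.ok 206) (iqb tp2969_c)))))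 (BT.Fa_mk (BT.Fa_mk (BT.Fa_mk (BT.Fa_leaf (P := Itm.ok 206) (iqb tp1576_c)) (BT.Fa_leaf (P := Itm.ok 206) (iqb tp1532_c))) (BT.Fa_mk (BT.Fa_leaf (P := Itm.ok 206) (iqb tp1588_c)) (BT.Fa_leaf (P := Itm.ok 206) (iqb tp31_c)))) (BT.Fa_mk (BT.Fa_mk (BT.Fa_leaf (P := Itm.ok 206) (iqb tp2039_c)) (BT.Fa_leaf (P := Itm.ok 206) (iqf tp2970_c))) (BT.Fa_leaf (P := Itm.ok 206) (iqf tp2040_c))))) (BT.Fa_mk (BT.Fa_mk (BT.Fa_mk (BT.Fa_mk (BT.Fa_leaf (P := Itm.ok 206) (iqb tp2685_c)) (BT.Fa_leaf (P := Itm.ok 206) (iqf tp1356_c))) (BT.Fa_mk (BT.Fa_leaf (P := Itm.ok 206) (iqb tp1940_c)) (BT.Fa_leaf (P := Itm.ok 206) (iqb tp1579_c)))) (BT.Fa_mk (BT.Fa_mk (BT.Fa_leaf (P := Itm.ok 206) (iqb tp2971_c)) (BT.Fa_leaf (P := Itm.ok 206) (iqb tp240_c))) (BT.Fa_leaf (P := Itm.ok 206) (iqb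 tp2706_c)))) (BT.Fa_mk (BT.Fa_mk (BT.Fa_mk (BT.Fa_leaf (P := Itm.ok 206) (iqb tp2050_c)) (BT.Fa_leaf (P := Itm.ok 206) (iqf tp2543_c))) (BT.Fa_mk (BT.Fa_leaf (P := Itm.ok 206) (iqf tp2544_c)) (BT.Fa_leaf (P := Itm.ok 206) (iqf tp2062_c)))) (BT.Fa_mk (BT.Fa_mk (BT.Fa_leaf (P := Itm.ok 206) (iqb tp2972_c)) (BT.Fa_leaf (P := Itm.ok 206) (iqb tp2973_c))) (BT.Fa_leaf (P := Itm.ok 206) (iqf tp2449_c)))))) (BT.Fa_mk (BT.Fa_mk (BT.Fa_mk (BT.Fa_mk (BT.Fa_mk (BT.Fa_leaf (P := Itm.ok 206) (iqb tp401_c)) (BT.Fa_leaf (P := Itm.ok 206) (iqf tp294_c))) (BT.Fa_mk (BT.Fa_leaf (P := Itm.ok 206) (iqf tp2974_c)) (BT.Fa_leaf (P := Itm.ok 206) (iqb tp2975_c)))) (BT.Fa_mk (BT.Fa_mk (BT.Fa_leaf (P := Itm.ok 206) (iqf tp1468_c)) (BT.Fa_leaf (P := Itm.ok 206) (iqf tp1945_c))) (BT.Fa_leaf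 (P := Itm.ok 206) (iqb tp2976_c)))) (BT.Fa_mk (BT.Fa_mk (BT.Fa_mk (BT.Fa_leaf (P := Itm.ok 206) (iqf tp2711_c)) (BT.Fa_leaf (P := Itm.ok 206) (iqf tp2661_c))) (BT.Fa_mk (BT.Fa_leaf (P := Itm.ok 206) (iqf tp2177_c)) (BT.Fa_leaf (P := Itm.ok 206) (iqf tp420_c)))) (BT.Fa_mk (BT.Fa_mk (BT.Fa_leaf (P := Itm.ok 206) (iqf tp2559_c)) (BT.Fa_leaf (P := Itm.ok 206) (iqf tp2977_c))) (BT.Fa_leaf (P := Itm.ok 206) (iqb tp2155_c))))) (BT.Fa_mk (BT.Fa_mk (BT.Fa_mk (BT.Fa_mk (BT.Fa_leaf (P := Itm.ok 206) (iqb tp2466_c)) (BT.Fa_leaf (P := Itm.ok 206) (iqf tp2978_c))) (BT.Fa_mk (BT.Fa_leaf (P := Itm.ok 206) (iqf tp2979_c)) (BT.Fa_leaf (P := Itm.ok 206) (iqf tp2980_c)))) (BT.Fa_mk (BT.Fa_mk (BT.Fa_leaf (P := Itm.ok 206) (iqf tp2981_c)) (BT.Fa_leaf (P := Itm.ok 206) (iqb tp2982_c)))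 (BT.Fa_leaf (P := Itm.ok 206) (iqf tp2612_c)))) (BT.Fa_mk (BT.Fa_mk (BT.Fa_mk (BT.Fa_leaf (P := Itm.ok 206) (iqf tp2983_c)) (BT.Fa_leaf (P := Itm.ok 206) (iqb tp1781_c))) (BT.Fa_mk (BT.Fa_leaf (P := Itm.ok 206) (iqb tp2984_c)) (BT.Fa_leaf (P := Itm.ok 206) (iqf tp2730_c)))) (BT.Fa_mk (BT.Fa_mk (BT.Fa_leaf (P := Itm.ok 206) (iqf tp2986_c)) (BT.Fa_leaf (P := Itm.ok 206) (iqf tp2882_c))) (BT.Fa_leaf (P := Itm.ok 206) (iqf tp2987_c)))))))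

/-- all words of the class have labels -/
theorem pokNFzE2B3Iy3B2E : POK 206 xNFzE2B3Iy3B2E :=
  y_pok (C0 := ceNFzE2B3Iy3B2E) (C1 := coNFzE2B3Iy3B2E) topNFzE2B3Iy3B2E nbNFzE2B3Iy3B2E (BT.Fa_of_all iiNFzE2B3Iy3B2E_c)
    (cyE_spec zeNFzE2B3Iy3B2E_0)
    (cyO_spec zoNFzE2B3Iy3B2E_0)
    iiNFzE2B3Iy3B2E_k

theorem iiNFzE2B3IzC3B2E_k : iiNFzE2B3IzC3B2E.Fa (Itm.ok 206) := (BT.Fa_mk (BT.Fa_mk (BT.Fa_mk (BT.Fa_mk (BT.Fa_mk (BT.Fa_leaf (P := Itm.ok 206) (iqf tp1576_c)) (BT.Fa_leaf (P := Itm.ok 206) (iqb tp1576_c))) (BT.Fa_leaf (P := Itm.ok 206) (iqf tp1759_c))) (BT.Fa_mk (BT.Fa_mk (BT.Fa_leaf (P := Itm.ok 206) (iqb tp1985_c)) (BT.Fa_leaf (P := Itm.ok 206) (iqb tp2038_c))) (BT.Fa_leaf (P := Itm.ok 206) (iqb tp1588_c)))) (BT.Fa_mk (BT.Fa_mk (BT.Fa_mk (BT.Fa_leaf (P :=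 Itm.ok 206) (iqb tp785_c)) (BT.Fa_leaf (P := Itm.ok 206) (iqb tp1939_c))) (BT.Fa_leaf (P := Itm.ok 206) (iqb tp1885_c))) (BT.Fa_mk (BT.Fa_mk (BT.Fa_leaf (P := Itm.ok 206) (iqb tp1585_c)) (BT.Fa_leaf (P := Itm.ok 206) (iqb tp307_c))) (BT.Fa_leaf (P := Itm.ok 206) (iqf tp1678_c))))) (BT.Fa_mk (BT.Fa_mk (BT.Fa_mk (BT.Fa_mk (BT.Fa_leaf (P := Itm.ok 206) (iqb tp2039_c)) (BT.Fa_leaf (P := Itm.ok 206) (iqb tp1426_c))) (BT.Fa_leaf (P := Itm.ok 206) (iqf tp2040_c))) (BT.Fa_mk (BT.Fa_mk (BT.Fa_leaf (P := Itm.ok 206) (iqb tp1920_c)) (BT.Fa_leaf (P := Itm.ok 206) (iqf tp428_c))) (BT.Fa_leaf (P := Itm.ok 206) (iqb tp2041_c)))) (BT.Fa_mk (BT.Fa_mk (BT.Fa_mk (BT.Fa_leaf (P := Itm.ok 206) (iqf tp1945_c)) (BT.Fa_leaf (P := Itm.ok 206) (iqf tp2027_c))) (BT.Fa_leaf (P := Itm.ok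 206) (iqb tp1990_c))) (BT.Fa_mk (BT.Fa_leaf (P := Itm.ok 206) (iqb tp2042_c)) (BT.Fa_leaf (P := Itm.ok 206) (iqb tp337_c))))))

/-- all words of the class have labels -/
theorem pokNFzE2B3IzC3B2E : POK 206 xNFzE2B3IzC3B2E :=
  y_pok (C0 := ceNFzE2B3IzC3B2E) (C1 := coNFzE2B3IzC3B2E) topNFzE2B3IzC3B2E nbNFzE2B3IzC3B2E (BT.Fa_of_all iiNFzE2B3IzC3B2E_c)
    (cyE_spec zeNFzE2B3IzC3B2E_0)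
    (cyO_spec zoNFzE2B3IzC3B2E_0)
    iiNFzE2B3IzC3B2E_k

theorem iiNFzE2B3IzC3B2EzF_k : iiNFzE2B3IzC3B2EzF.Fa (Itm.ok 206) := (BT.Fa_mk (BT.Fa_mk (BT.Fa_mk (BT.Fa_mk (BT.Fa_mk (BT.Fa_mk (BT.Fa_mk (BT.Fa_mk (BT.Fa_leaf (P := Itm.ok 206) (iqf tp1576_c)) (BT.Fa_leaf (P := Itm.ok 206) (iqb tp1577_c))) (BT.Fa_mk (BT.Fa_leaf (P := Itm.ok 206) (iqb tp1578_c)) (BT.Fa_leaf (P := Itm.ok 206) (iqf tp1579_c)))) (BT.Fa_mk (BT.Fa_mk (BT.Fa_leaf (P := Itm.ok 206) (iqb tp1580_c)) (BT.Fa_leaf (P := Itm.ok 206) (iqf tp1581_c))) (BT.Fa_leaf (P := Itm.ok 206) (iqb tp350_c)))) (BT.Fa_mk (BT.Fa_mk (BT.Fa_mk (BT.Fa_leaf (P := Itm.ok 206) (iqb tp1582_c)) (BT.Fa_leaf (P := Itm.ok 206) (iqf tp1583_c))) (BT.Fa_leaf (P := Itm.ok 206) (iqb tp1584_c))) (BT.Fa_mk (BT.Fa_mk (BT.Fa_leaf (P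 := Itm.ok 206) (iqf tp1585_c)) (BT.Fa_leaf (P := Itm.ok 206) (iqb tp1586_c))) (BT.Fa_leaf (P := Itm.ok 206) (iqf tp1587_c))))) (BT.Fa_mk (BT.Fa_mk (BT.Fa_mk (BT.Fa_mk (BT.Fa_leaf (P := Itm.ok 206) (iqb tp1553_c)) (BT.Fa_leaf (P := Itm.ok 206) (iqf tp1588_c))) (BT.Fa_leaf (P := Itm.ok 206) (iqb tp1589_c))) (BT.Fa_mk (BT.Fa_mk (BT.Fa_leaf (P := Itm.ok 206) (iqf tp954_c)) (BT.Fa_leaf (P := Itm.ok 206) (iqf tp1590_c))) (BT.Fa_leaf (P := Itm.ok 206) (iqb tp1591_c)))) (BT.Fa_mk (BT.Fa_mk (BT.Fa_mk (BT.Fa_leaf (P := Itm.ok 206) (iqf tp1592_c)) (BT.Fa_leaf (P := Itm.ok 206) (iqf tp1593_c))) (BT.Fa_leaf (P := Itm.ok 206) (iqb tp1594_c))) (BT.Fa_mk (BT.Fa_mk (BT.Fa_leaf (P := Itm.ok 206) (iqb tp1405_c)) (BT.Fa_leaf (P := Itm.ok 206) (iqf tp1595_c))) (BT.Fa_leaf (P := Itm.ok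 206) (iqb tp1327_c)))))) (BT.Fa_mk (BT.Fa_mk (BT.Fa_mk (BT.Fa_mk (BT.Fa_mk (BT.Fa_leaf (P := Itm.ok 206) (iqb tp1596_c)) (BT.Fa_leaf (P := Itm.ok 206) (iqf tp1597_c))) (BT.Fa_leaf (P := Itm.ok 206) (iqb tp1598_c))) (BT.Fa_mk (BT.Fa_mk (BT.Fa_leaf (P := Itm.ok 206) (iqb tp1576_c)) (BT.Fa_leaf (P := Itm.ok 206) (iqf tp292_c))) (BT.Fa_leaf (P := Itm.ok 206) (iqf tp322_c)))) (BT.Fa_mk (BT.Fa_mk (BT.Fa_mk (BT.Fa_leaf (P := Itm.ok 206) (iqb tp1599_c)) (BT.Fa_leaf (P := Itm.ok 206) (iqb tp307_c))) (BT.Fa_leaf (P := Itm.ok 206) (iqb tp1460_c))) (BT.Fa_mk (BT.Fa_mk (BT.Fa_leaf (P := Itm.ok 206) (iqf tp656_c)) (BT.Fa_leaf (P := Itm.ok 206) (iqf tp1600_c))) (BT.Fa_leaf (P := Itm.ok 206) (iqf tp320_c))))) (BT.Fa_mk (BT.Fa_mk (BT.Fa_mk (BT.Fa_mk (BT.Fa_leaf (P := Itm.ok 206)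 (iqb tp1601_c)) (BT.Fa_leaf (P := Itm.ok 206) (iqf tp521_c))) (BT.Fa_leaf (P := Itm.ok 206) (iqb tp329_c))) (BT.Fa_mk (BT.Fa_mk (BT.Fa_leaf (P := Itm.ok 206) (iqb tp827_c)) (BT.Fa_leaf (P := Itm.ok 206) (iqf tp324_c))) (BT.Fa_leaf (P := Itm.ok 206) (iqf tp1602_c)))) (BT.Fa_mk (BT.Fa_mk (BT.Fa_mk (BT.Fa_leaf (P := Itm.ok 206) (iqb tp1603_c)) (BT.Fa_leaf (P := Itm.ok 206) (iqb tp1432_c))) (BT.Fa_leaf (P := Itm.ok 206) (iqb tp337_c))) (BT.Fa_mk (BT.Fa_mk (BT.Fa_leaf (P := Itm.ok 206) (iqb tp1604_c)) (BT.Fa_leaf (P := Itm.ok 206) (iqf tp788_c))) (BT.Fa_leaf (P := Itm.ok 206) (iqf tp1605_c))))))) (BT.Fa_mk (BT.Fa_mk (BT.Fa_mk (BT.Fa_mk (BT.Fa_mk (BT.Fa_mk (BT.Fa_leaf (P := Itm.ok 206) (iqf tp1606_c)) (BT.Fa_leaf (P := Itm.ok 206) (iqf tp1607_c))) (BT.Fa_mk (BT.Fa_leaf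 (P := Itm.ok 206) (iqb tp1426_c)) (BT.Fa_leaf (P := Itm.ok 206) (iqf tp295_c)))) (BT.Fa_mk (BT.Fa_mk (BT.Fa_leaf (P := Itm.ok 206) (iqb tp1608_c)) (BT.Fa_leaf (P := Itm.ok 206) (iqf tp1609_c))) (BT.Fa_leaf (P := Itm.ok 206) (iqf tp1610_c)))) (BT.Fa_mk (BT.Fa_mk (BT.Fa_mk (BT.Fa_leaf (P := Itm.ok 206) (iqb tp1435_c)) (BT.Fa_leaf (P := Itm.ok 206) (iqb tp1136_c))) (BT.Fa_leaf (P := Itm.ok 206) (iqb tp1148_c))) (BT.Fa_mk (BT.Fa_mk (BT.Fa_leaf (P := Itm.ok 206) (iqb tp1611_c)) (BT.Fa_leaf (P := Itm.ok 206) (iqf tp1612_c))) (BT.Fa_leaf (P := Itm.ok 206) (iqf tp346_c))))) (BT.Fa_mk (BT.Fa_mk (BT.Fa_mk (BT.Fa_mk (BT.Fa_leaf (P := Itm.ok 206) (iqb tp1613_c)) (BT.Fa_leaf (P := Itm.ok 206) (iqf tp1614_c))) (BT.Fa_leaf (P := Itm.ok 206) (iqf tp1615_c))) (BT.Fa_mk (BT.Fa_mk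 (BT.Fa_leaf (P := Itm.ok 206) (iqf tp1616_c)) (BT.Fa_leaf (P := Itm.ok 206) (iqb tp1617_c))) (BT.Fa_leaf (P := Itm.ok 206) (iqf tp1618_c)))) (BT.Fa_mk (BT.Fa_mk (BT.Fa_mk (BT.Fa_leaf (P := Itm.ok 206) (iqb tp1619_c)) (BT.Fa_leaf (P := Itm.ok 206) (iqf tp1620_c))) (BT.Fa_leaf (P := Itm.ok 206) (iqb tp1621_c))) (BT.Fa_mk (BT.Fa_mk (BT.Fa_leaf (P := Itm.ok 206) (iqb tp1622_c)) (BT.Fa_leaf (P := Itm.ok 206) (iqf tp1623_c))) (BT.Fa_leaf (P := Itm.ok 206) (iqf tp1624_c)))))) (BT.Fa_mk (BT.Fa_mk (BT.Fa_mk (BT.Fa_mk (BT.Fa_mk (BT.Fa_leaf (P := Itm.ok 206) (iqf tp1625_c)) (BT.Fa_leaf (P := Itm.ok 206) (iqf tp952_c))) (BT.Fa_leaf (P := Itm.ok 206) (iqb tp1626_c))) (BT.Fa_mk (BT.Fa_mk (BT.Fa_leaf (P := Itm.ok 206) (iqb tp1627_c)) (BT.Fa_leaf (P := Itm.ok 206) (show Itm.ok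 206 (.pat 1958 pq116) from (POK.mono (by decide) pq116_ok)))) (BT.Fa_leaf (P := Itm.ok 206) (show Itm.ok 206 (.pat 1998 pq117) from (POK.mono (by decide) pq117_ok))))) (BT.Fa_mk (BT.Fa_mk (BT.Fa_mk (BT.Fa_leaf (P := Itm.ok 206) (iqb tp1628_c)) (BT.Fa_leaf (P := Itm.ok 206) (iqb tp1629_c))) (BT.Fa_leaf (P := Itm.ok 206) (iqb tp1630_c))) (BT.Fa_mk (BT.Fa_mk (BT.Fa_leaf (P := Itm.ok 206) (iqb tp1631_c)) (BT.Fa_leaf (P := Itm.ok 206) (iqf tp1632_c))) (BT.Fa_leaf (P := Itm.ok 206) (iqf tp1633_c))))) (BT.Fa_mk (BT.Fa_mk (BT.Fa_mk (BT.Fa_mk (BT.Fa_leaf (P := Itm.ok 206) (iqb tp1634_c)) (BT.Fa_leaf (P := Itm.ok 206) (iqf tp1635_c))) (BT.Fa_leaf (P := Itm.ok 206) (iqb tp1636_c))) (BT.Fa_mk (BT.Fa_mk (BT.Fa_leaf (P := Itm.ok 206) (iqf tp1637_c)) (BT.Fa_leaf (P := Itm.ok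 206) (iqf tp1638_c))) (BT.Fa_leaf (P := Itm.ok 206) (iqf tp1639_c)))) (BT.Fa_mk (BT.Fa_mk (BT.Fa_mk (BT.Fa_leaf (P := Itm.ok 206) (iqb tp949_c)) (BT.Fa_leaf (P := Itm.ok 206) (iqb tp331_c))) (BT.Fa_leaf (P := Itm.ok 206) (iqb tp1640_c))) (BT.Fa_mk (BT.Fa_mk (BT.Fa_leaf (P := Itm.ok 206) (iqb tp1641_c)) (BT.Fa_leaf (P := Itm.ok 206) (iqb tp1642_c))) (BT.Fa_leaf (P := Itm.ok 206) (iqb tp1643_c)))))))) (BT.Fa_mk (BT.Fa_mk (BT.Fa_mk (BT.Fa_mk (BT.Fa_mk (BT.Fa_mk (BT.Fa_mk (BT.Fa_leaf (P := Itm.ok 206) (iqf tp1644_c)) (BT.Fa_leaf (P := Itm.ok 206) (iqb tp1645_c))) (BT.Fa_mk (BT.Fa_leaf (P := Itm.ok 206) (iqb tp1646_c)) (BT.Fa_leaf (P := Itm.ok 206) (iqf tp1647_c)))) (BT.Fa_mk (BT.Fa_mk (BT.Fa_leaf (P := Itm.ok 206) (iqf tp688_c)) (BT.Fa_leaf (P := Itm.ok 206) (iqf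 tp1648_c))) (BT.Fa_leaf (P := Itm.ok 206) (iqb tp1649_c)))) (BT.Fa_mk (BT.Fa_mk (BT.Fa_mk (BT.Fa_leaf (P := Itm.ok 206) (iqf tp1650_c)) (BT.Fa_leaf (P := Itm.ok 206) (iqf tp1651_c))) (BT.Fa_leaf (P := Itm.ok 206) (iqb tp1652_c))) (BT.Fa_mk (BT.Fa_mk (BT.Fa_leaf (P := Itm.ok 206) (iqb tp1158_c)) (BT.Fa_leaf (P := Itm.ok 206) (iqb tp514_c))) (BT.Fa_leaf (P := Itm.ok 206) (iqf tp1653_c))))) (BT.Fa_mk (BT.Fa_mk (BT.Fa_mk (BT.Fa_mk (BT.Fa_leaf (P := Itm.ok 206) (iqf tp1654_c)) (BT.Fa_leaf (P := Itm.ok 206) (iqb tp1655_c))) (BT.Fa_leaf (P := Itm.ok 206) (iqf tp511_c))) (BT.Fa_mk (BT.Fa_mk (BT.Fa_leaf (P := Itm.ok 206) (iqb tp1656_c)) (BT.Fa_leaf (P := Itm.ok 206) (iqf tp1657_c))) (BT.Fa_leaf (P := Itm.ok 206) (iqf tp1658_c)))) (BT.Fa_mk (BT.Fa_mk (BT.Fa_mk (BT.Fa_leaf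 (P := Itm.ok 206) (iqb tp1659_c)) (BT.Fa_leaf (P := Itm.ok 206) (iqf tp618_c))) (BT.Fa_leaf (P := Itm.ok 206) (iqf tp1660_c))) (BT.Fa_mk (BT.Fa_mk (BT.Fa_leaf (P := Itm.ok 206) (iqb tp1661_c)) (BT.Fa_leaf (P := Itm.ok 206) (iqf tp1662_c))) (BT.Fa_leaf (P := Itm.ok 206) (iqf tp1663_c)))))) (BT.Fa_mk (BT.Fa_mk (BT.Fa_mk (BT.Fa_mk (BT.Fa_mk (BT.Fa_leaf (P := Itm.ok 206) (iqf tp692_c)) (BT.Fa_leaf (P := Itm.ok 206) (iqb tp1664_c))) (BT.Fa_leaf (P := Itm.ok 206) (iqf tp1665_c))) (BT.Fa_mk (BT.Fa_mk (BT.Fa_leaf (P := Itm.ok 206) (iqf tp1666_c)) (BT.Fa_leaf (P := Itm.ok 206) (iqb tp1479_c))) (BT.Fa_leaf (P := Itm.ok 206) (iqf tp1667_c)))) (BT.Fa_mk (BT.Fa_mk (BT.Fa_mk (BT.Fa_leaf (P := Itm.ok 206) (iqb tp662_c)) (BT.Fa_leaf (P := Itm.ok 206) (iqf tp1668_c))) (BT.Fa_leaf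 (P := Itm.ok 206) (iqf tp1669_c))) (BT.Fa_mk (BT.Fa_mk (BT.Fa_leaf (P := Itm.ok 206) (iqf tp282_c)) (BT.Fa_leaf (P := Itm.ok 206) (iqb tp1670_c))) (BT.Fa_leaf (P := Itm.ok 206) (iqf tp1671_c))))) (BT.Fa_mk (BT.Fa_mk (BT.Fa_mk (BT.Fa_mk (BT.Fa_leaf (P := Itm.ok 206) (iqb tp1672_c)) (BT.Fa_leaf (P := Itm.ok 206) (iqb tp1673_c))) (BT.Fa_leaf (P := Itm.ok 206) (iqf tp1674_c))) (BT.Fa_mk (BT.Fa_mk (BT.Fa_leaf (P := Itm.ok 206) (iqb tp1675_c)) (BT.Fa_leaf (P := Itm.ok 206) (iqf tp1676_c))) (BT.Fa_leaf (P := Itm.ok 206) (iqf tp414_c)))) (BT.Fa_mk (BT.Fa_mk (BT.Fa_mk (BT.Fa_leaf (P := Itm.ok 206) (iqf tp1305_c)) (BT.Fa_leaf (P := Itm.ok 206) (iqf tp1677_c))) (BT.Fa_leaf (P := Itm.ok 206) (iqb tp1678_c))) (BT.Fa_mk (BT.Fa_mk (BT.Fa_leaf (P := Itm.ok 206) (iqf tp1679_c))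 (BT.Fa_leaf (P := Itm.ok 206) (iqb tp1680_c))) (BT.Fa_leaf (P := Itm.ok 206) (iqf tp1681_c))))))) (BT.Fa_mk (BT.Fa_mk (BT.Fa_mk (BT.Fa_mk (BT.Fa_mk (BT.Fa_mk (BT.Fa_leaf (P := Itm.ok 206) (iqf tp904_c)) (BT.Fa_leaf (P := Itm.ok 206) (iqb tp1682_c))) (BT.Fa_leaf (P := Itm.ok 206) (iqf tp734_c))) (BT.Fa_mk (BT.Fa_mk (BT.Fa_leaf (P := Itm.ok 206) (iqb tp1683_c)) (BT.Fa_leaf (P := Itm.ok 206) (iqb tp1684_c))) (BT.Fa_leaf (P := Itm.ok 206) (show Itm.ok 206 (.pat 3935 pq118) from (POK.mono (by decide) pq118_ok))))) (BT.Fa_mk (BT.Fa_mk (BT.Fa_mk (BT.Fa_leaf (P := Itm.ok 206) (iqf tp1685_c)) (BT.Fa_leaf (P := Itm.ok 206) (iqb tp1686_c))) (BT.Fa_leaf (P := Itm.ok 206) (iqf tp1687_c))) (BT.Fa_mk (BT.Fa_mk (BT.Fa_leaf (P := Itm.ok 206) (iqf tp1688_c)) (BT.Fa_leaf (P :=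 Itm.ok 206) (iqf tp1689_c))) (BT.Fa_leaf (P := Itm.ok 206) (iqb tp1690_c))))) (BT.Fa_mk (BT.Fa_mk (BT.Fa_mk (BT.Fa_mk (BT.Fa_leaf (P := Itm.ok 206) (iqf tp1691_c)) (BT.Fa_leaf (P := Itm.ok 206) (iqf tp1692_c))) (BT.Fa_leaf (P := Itm.ok 206) (iqb tp1693_c))) (BT.Fa_mk (BT.Fa_mk (BT.Fa_leaf (P := Itm.ok 206) (iqf tp1694_c)) (BT.Fa_leaf (P := Itm.ok 206) (iqb tp1695_c))) (BT.Fa_leaf (P := Itm.ok 206) (iqf tp1696_c)))) (BT.Fa_mk (BT.Fa_mk (BT.Fa_mk (BT.Fa_leaf (P := Itm.ok 206) (iqf tp1697_c)) (BT.Fa_leaf (P := Itm.ok 206) (iqf tp1698_c))) (BT.Fa_leaf (P := Itm.ok 206) (iqf tp1699_c))) (BT.Fa_mk (BT.Fa_mk (BT.Fa_leaf (P := Itm.ok 206) (iqb tp1700_c)) (BT.Fa_leaf (P := Itm.ok 206) (iqb tp1701_c))) (BT.Fa_leaf (P := Itm.ok 206) (iqf tp1703_c)))))) (BT.Fa_mk (BT.Fa_mk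 (BT.Fa_mk (BT.Fa_mk (BT.Fa_mk (BT.Fa_leaf (P := Itm.ok 206) (iqb tp1704_c)) (BT.Fa_leaf (P := Itm.ok 206) (iqf tp1705_c))) (BT.Fa_leaf (P := Itm.ok 206) (iqf tp1706_c))) (BT.Fa_mk (BT.Fa_mk (BT.Fa_leaf (P := Itm.ok 206) (iqb tp1707_c)) (BT.Fa_leaf (P := Itm.ok 206) (iqb tp820_c))) (BT.Fa_leaf (P := Itm.ok 206) (iqf tp1708_c)))) (BT.Fa_mk (BT.Fa_mk (BT.Fa_mk (BT.Fa_leaf (P := Itm.ok 206) (iqb tp1709_c)) (BT.Fa_leaf (P := Itm.ok 206) (iqb tp1710_c))) (BT.Fa_leaf (P := Itm.ok 206) (iqf tp1711_c))) (BT.Fa_mk (BT.Fa_mk (BT.Fa_leaf (P := Itm.ok 206) (iqb tp1712_c)) (BT.Fa_leaf (P := Itm.ok 206) (iqf tp1713_c))) (BT.Fa_leaf (P := Itm.ok 206) (iqf tp1714_c))))) (BT.Fa_mk (BT.Fa_mk (BT.Fa_mk (BT.Fa_mk (BT.Fa_leaf (P := Itm.ok 206) (iqf tp1715_c)) (BT.Fa_leaf (P := Itm.ok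 206) (iqb tp1716_c))) (BT.Fa_leaf (P := Itm.ok 206) (iqf tp1717_c))) (BT.Fa_mk (BT.Fa_mk (BT.Fa_leaf (P := Itm.ok 206) (iqb tp1718_c)) (BT.Fa_leaf (P := Itm.ok 206) (iqb tp1719_c))) (BT.Fa_leaf (P := Itm.ok 206) (iqf tp1720_c)))) (BT.Fa_mk (BT.Fa_mk (BT.Fa_mk (BT.Fa_leaf (P := Itm.ok 206) (iqf tp1721_c)) (BT.Fa_leaf (P := Itm.ok 206) (iqf tp1724_c))) (BT.Fa_leaf (P := Itm.ok 206) (iqf tp1725_c))) (BT.Fa_mk (BT.Fa_mk (BT.Fa_leaf (P := Itm.ok 206) (iqf tp1727_c)) (BT.Fa_leaf (P := Itm.ok 206) (iqf tp1728_c))) (BT.Fa_leaf (P := Itm.ok 206) (iqb tp1729_c)))))))))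

/-- all words of the class have labels -/
theorem pokNFzE2B3IzC3B2EzF : POK 206 xNFzE2B3IzC3B2EzF :=
  y_pok (C0 := ceNFzE2B3IzC3B2EzF) (C1 := coNFzE2B3IzC3B2EzF) topNFzE2B3IzC3B2EzF nbNFzE2B3IzC3B2EzF (BT.Fa_of_all iiNFzE2B3IzC3B2EzF_c)
    (cyE_spec zeNFzE2B3IzC3B2EzF_0)
    (cyO_spec zoNFzE2B3IzC3B2EzF_0)
    iiNFzE2B3IzC3B2EzF_k

theorem iiNFzE2Bx3yB2EzF_k : iiNFzE2Bx3yB2EzF.Fa (Itm.ok 206) := (BT.Fa_mk (BT.Fa_mk (BT.Fa_mk (BT.Fa_mk (BT.Fa_mk (BT.Fa_mk (BT.Fa_mk (BT.Fa_leaf (P := Itm.ok 206) (iqf tp1484_c)) (BT.Fa_leaf (P := Itm.ok 206) (iqf tp1426_c))) (BT.Fa_leaf (P := Itm.ok 206) (iqf tp389_c))) (BT.Fa_mk (BT.Fa_leaf (P := Itm.ok 206) (iqb tp1485_c)) (BT.Fa_leaf (P := Itm.ok 206) (iqf tp1486_c)))) (BT.Fa_mk (BT.Fa_mk (BT.Fa_leaf (P := Itm.ok 206) (iqf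 tp1487_c)) (BT.Fa_leaf (P := Itm.ok 206) (iqf tp1488_c))) (BT.Fa_mk (BT.Fa_leaf (P := Itm.ok 206) (iqf tp1489_c)) (BT.Fa_leaf (P := Itm.ok 206) (iqf tp1490_c))))) (BT.Fa_mk (BT.Fa_mk (BT.Fa_mk (BT.Fa_leaf (P := Itm.ok 206) (iqb tp1491_c)) (BT.Fa_leaf (P := Itm.ok 206) (iqf tp1492_c))) (BT.Fa_mk (BT.Fa_leaf (P := Itm.ok 206) (iqf tp294_c)) (BT.Fa_leaf (P := Itm.ok 206) (iqf tp1493_c)))) (BT.Fa_mk (BT.Fa_mk (BT.Fa_leaf (P := Itm.ok 206) (iqb tp1494_c)) (BT.Fa_leaf (P := Itm.ok 206) (iqb tp1495_c))) (BT.Fa_mk (BT.Fa_leaf (P := Itm.ok 206) (iqb tp1496_c)) (BT.Fa_leaf (P := Itm.ok 206) (iqb tp1497_c)))))) (BT.Fa_mk (BT.Fa_mk (BT.Fa_mk (BT.Fa_mk (BT.Fa_mk (BT.Fa_leaf (P := Itm.ok 206) (iqf tp1498_c)) (BT.Fa_leaf (P := Itm.ok 206) (iqf tp1499_c))) (BT.Fa_leaf (P :=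 Itm.ok 206) (iqb tp1500_c))) (BT.Fa_mk (BT.Fa_leaf (P := Itm.ok 206) (iqf tp1501_c)) (BT.Fa_leaf (P := Itm.ok 206) (iqf tp1502_c)))) (BT.Fa_mk (BT.Fa_mk (BT.Fa_leaf (P := Itm.ok 206) (iqb tp1458_c)) (BT.Fa_leaf (P := Itm.ok 206) (iqf tp1503_c))) (BT.Fa_mk (BT.Fa_leaf (P := Itm.ok 206) (iqb tp1504_c)) (BT.Fa_leaf (P := Itm.ok 206) (iqf tp1505_c))))) (BT.Fa_mk (BT.Fa_mk (BT.Fa_mk (BT.Fa_leaf (P := Itm.ok 206) (iqb tp1506_c)) (BT.Fa_leaf (P := Itm.ok 206) (iqb tp1507_c))) (BT.Fa_mk (BT.Fa_leaf (P := Itm.ok 206) (iqb tp489_c)) (BT.Fa_leaf (P := Itm.ok 206) (iqf tp1508_c)))) (BT.Fa_mk (BT.Fa_mk (BT.Fa_leaf (P := Itm.ok 206) (iqf tp473_c)) (BT.Fa_leaf (P := Itm.ok 206) (iqb tp1509_c))) (BT.Fa_mk (BT.Fa_leaf (P := Itm.ok 206) (iqf tp1510_c)) (BT.Fa_leaf (P := Itm.ok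 206) (iqf tp1511_c))))))) (BT.Fa_mk (BT.Fa_mk (BT.Fa_mk (BT.Fa_mk (BT.Fa_mk (BT.Fa_mk (BT.Fa_leaf (P := Itm.ok 206) (iqf tp1512_c)) (BT.Fa_leaf (P := Itm.ok 206) (iqf tp1513_c))) (BT.Fa_leaf (P := Itm.ok 206) (iqb tp447_c))) (BT.Fa_mk (BT.Fa_leaf (P := Itm.ok 206) (iqf tp346_c)) (BT.Fa_leaf (P := Itm.ok 206) (iqf tp1514_c)))) (BT.Fa_mk (BT.Fa_mk (BT.Fa_leaf (P := Itm.ok 206) (iqf tp1515_c)) (BT.Fa_leaf (P := Itm.ok 206) (iqf tp1516_c))) (BT.Fa_mk (BT.Fa_leaf (P := Itm.ok 206) (iqf tp1517_c)) (BT.Fa_leaf (P := Itm.ok 206) (iqf tp1518_c))))) (BT.Fa_mk (BT.Fa_mk (BT.Fa_mk (BT.Fa_leaf (P := Itm.ok 206) (iqf tp351_c)) (BT.Fa_leaf (P := Itm.ok 206) (iqf tp1519_c))) (BT.Fa_mk (BT.Fa_leaf (P := Itm.ok 206) (iqf tp1444_c)) (BT.Fa_leaf (P := Itm.ok 206) (iqf tp1520_c))))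 (BT.Fa_mk (BT.Fa_mk (BT.Fa_leaf (P := Itm.ok 206) (iqb tp310_c)) (BT.Fa_leaf (P := Itm.ok 206) (iqb tp1521_c))) (BT.Fa_mk (BT.Fa_leaf (P := Itm.ok 206) (iqf tp504_c)) (BT.Fa_leaf (P := Itm.ok 206) (iqb tp1522_c)))))) (BT.Fa_mk (BT.Fa_mk (BT.Fa_mk (BT.Fa_mk (BT.Fa_mk (BT.Fa_leaf (P := Itm.ok 206) (iqf tp1523_c)) (BT.Fa_leaf (P := Itm.ok 206) (iqf tp1524_c))) (BT.Fa_leaf (P := Itm.ok 206) (iqb tp1169_c))) (BT.Fa_mk (BT.Fa_leaf (P := Itm.ok 206) (iqb tp491_c)) (BT.Fa_leaf (P := Itm.ok 206) (iqb tp1261_c)))) (BT.Fa_mk (BT.Fa_mk (BT.Fa_leaf (P := Itm.ok 206) (iqb tp635_c)) (BT.Fa_leaf (P := Itm.ok 206) (iqf tp1525_c))) (BT.Fa_mk (BT.Fa_leaf (P := Itm.ok 206) (iqb tp1526_c)) (BT.Fa_leaf (P := Itm.ok 206) (iqb tp382_c))))) (BT.Fa_mk (BT.Fa_mk (BT.Fa_mk (BT.Fa_leaf (P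 := Itm.ok 206) (iqf tp1527_c)) (BT.Fa_leaf (P := Itm.ok 206) (iqb tp1528_c))) (BT.Fa_mk (BT.Fa_leaf (P := Itm.ok 206) (iqb tp1529_c)) (BT.Fa_leaf (P := Itm.ok 206) (iqf tp1530_c)))) (BT.Fa_mk (BT.Fa_mk (BT.Fa_leaf (P := Itm.ok 206) (iqb tp1531_c)) (BT.Fa_leaf (P := Itm.ok 206) (iqf tp1532_c))) (BT.Fa_mk (BT.Fa_leaf (P := Itm.ok 206) (iqb tp871_c)) (BT.Fa_leaf (P := Itm.ok 206) (iqb tp561_c))))))))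

/-- all words of the class have labels -/
theorem pokNFzE2Bx3yB2EzF : POK 206 xNFzE2Bx3yB2EzF :=
  y_pok (C0 := ceNFzE2Bx3yB2EzF) (C1 := coNFzE2Bx3yB2EzF) topNFzE2Bx3yB2EzF nbNFzE2Bx3yB2EzF (BT.Fa_of_all iiNFzE2Bx3yB2EzF_c)
    (cyE_spec zeNFzE2Bx3yB2EzF_0)
    (cyO_spec zoNFzE2Bx3yB2EzF_0)
    iiNFzE2Bx3yB2EzF_k

theorem iiNFzE2By3yB2EzF_k : iiNFzE2By3yB2EzF.Fa (Itm.ok 206) := (BT.Fa_mk (BT.Fa_mk (BT.Fa_mk (BT.Fa_mk (BT.Fa_mk (BT.Fa_mk (BT.Fa_leaf (P := Itm.ok 206) (iqb tp1533_c)) (BT.Fa_leaf (P := Itm.ok 206) (iqb tp1534_c))) (BT.Fa_leaf (P := Itm.ok 206) (iqf tp1534_c))) (BT.Fa_mk (BT.Fa_leaf (P := Itm.ok 206) (iqb tp1535_c)) (BT.Fa_leaf (P := Itm.ok 206) (iqf tp1536_c)))) (BT.Fa_mk (BT.Fa_mk (BT.Fa_leaf (P := Itm.ok 206) (iqb tp1536_c)) (BT.Fa_leaf (P :=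 Itm.ok 206) (iqb tp1537_c))) (BT.Fa_mk (BT.Fa_leaf (P := Itm.ok 206) (iqf tp1538_c)) (BT.Fa_leaf (P := Itm.ok 206) (iqf tp1539_c))))) (BT.Fa_mk (BT.Fa_mk (BT.Fa_mk (BT.Fa_leaf (P := Itm.ok 206) (iqb tp1539_c)) (BT.Fa_leaf (P := Itm.ok 206) (iqb tp1540_c))) (BT.Fa_mk (BT.Fa_leaf (P := Itm.ok 206) (iqf tp1541_c)) (BT.Fa_leaf (P := Itm.ok 206) (iqf tp1540_c)))) (BT.Fa_mk (BT.Fa_mk (BT.Fa_leaf (P := Itm.ok 206) (iqf tp1542_c)) (BT.Fa_leaf (P := Itm.ok 206) (iqb tp1543_c))) (BT.Fa_mk (BT.Fa_leaf (P := Itm.ok 206) (iqb tp1544_c)) (BT.Fa_leaf (P := Itm.ok 206) (iqb tp1545_c)))))) (BT.Fa_mk (BT.Fa_mk (BT.Fa_mk (BT.Fa_mk (BT.Fa_mk (BT.Fa_leaf (P := Itm.ok 206) (iqb tp1541_c)) (BT.Fa_leaf (P := Itm.ok 206) (iqf tp1491_c))) (BT.Fa_leaf (P := Itm.ok 206) (iqb tp1546_c)))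 (BT.Fa_mk (BT.Fa_leaf (P := Itm.ok 206) (iqb tp1547_c)) (BT.Fa_leaf (P := Itm.ok 206) (iqf tp1547_c)))) (BT.Fa_mk (BT.Fa_mk (BT.Fa_leaf (P := Itm.ok 206) (show Itm.ok 206 (.pat 451 pq107) from (POK.mono (by decide) pq107_ok))) (BT.Fa_leaf (P := Itm.ok 206) (show Itm.ok 206 (.pat 485 pq108) from (POK.mono (by decide) pq108_ok)))) (BT.Fa_mk (BT.Fa_leaf (P := Itm.ok 206) (show Itm.ok 206 (.pat 521 pq109) from (POK.mono (by decide) pq109_ok))) (BT.Fa_leaf (P := Itm.ok 206) (show Itm.ok 206 (.pat 543 pq110) from (POK.mono (by decide) pq110_ok)))))) (BT.Fa_mk (BT.Fa_mk (BT.Fa_mk (BT.Fa_leaf (P := Itm.ok 206) (iqf tp1548_c)) (BT.Fa_leaf (P := Itm.ok 206) (iqb tp1522_c))) (BT.Fa_mk (BT.Fa_leaf (P := Itm.ok 206) (iqb tp1549_c)) (BT.Fa_leaf (P := Itm.ok 206) (iqf tp1550_c))))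 (BT.Fa_mk (BT.Fa_mk (BT.Fa_leaf (P := Itm.ok 206) (show Itm.ok 206 (.pat 671 pq111) from (POK.mono (by decide) pq111_ok))) (BT.Fa_leaf (P := Itm.ok 206) (show Itm.ok 206 (.pat 709 pq112) from (POK.mono (by decide) pq112_ok)))) (BT.Fa_mk (BT.Fa_leaf (P := Itm.ok 206) (show Itm.ok 206 (.pat 739 pq113) from (POK.mono (by decide) pq113_ok))) (BT.Fa_leaf (P := Itm.ok 206) (iqb tp1551_c)))))))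

/-- all words of the class have labels -/
theorem pokNFzE2By3yB2EzF : POK 206 xNFzE2By3yB2EzF :=
  y_pok (C0 := ceNFzE2By3yB2EzF) (C1 := coNFzE2By3yB2EzF) topNFzE2By3yB2EzF nbNFzE2By3yB2EzF (BT.Fa_of_all iiNFzE2By3yB2EzF_c)
    (cyE_spec zeNFzE2By3yB2EzF_0)
    (cyO_spec zoNFzE2By3yB2EzF_0)
    iiNFzE2By3yB2EzF_k

theorem iiNFzE2ByA3BzIzB2B3B2E_k : iiNFzE2ByA3BzIzB2B3B2E.Fa (Itm.ok 206) := (BT.Fa_mk (BT.Fa_mk (BT.Fa_mk (BT.Fa_mk (BT.Fa_leaf (P := Itm.ok 206) (iqf tp292_c)) (BT.Fa_leaf (P := Itm.ok 206) (iqb tp1576_c))) (BT.Fa_mk (BT.Fa_leaf (P := Itm.ok 206) (iqb tp1587_c)) (BT.Fa_leaf (P := Itm.ok 206) (iqb tp295_c)))) (BT.Fa_mk (BT.Fa_mk (BT.Fa_leaf (P := Itm.ok 206) (iqf tp1664_c)) (BT.Fa_leaf (P := Itm.ok 206) (iqf tp329_c))) (BT.Fa_mk (BT.Fa_leaf (P :=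 Itm.ok 206) (iqf tp1420_c)) (BT.Fa_leaf (P := Itm.ok 206) (iqb tp1588_c))))) (BT.Fa_mk (BT.Fa_mk (BT.Fa_mk (BT.Fa_leaf (P := Itm.ok 206) (iqb tp1579_c)) (BT.Fa_leaf (P := Itm.ok 206) (iqb tp1734_c))) (BT.Fa_mk (BT.Fa_leaf (P := Itm.ok 206) (iqb tp1650_c)) (BT.Fa_leaf (P := Itm.ok 206) (iqf tp1735_c)))) (BT.Fa_mk (BT.Fa_mk (BT.Fa_leaf (P := Itm.ok 206) (iqb tp1730_c)) (BT.Fa_leaf (P := Itm.ok 206) (iqf tp493_c))) (BT.Fa_mk (BT.Fa_leaf (P := Itm.ok 206) (iqb tp1420_c)) (BT.Fa_leaf (P := Itm.ok 206) (iqb tp1736_c))))))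

/-- all words of the class have labels -/
theorem pokNFzE2ByA3BzIzB2B3B2E : POK 206 xNFzE2ByA3BzIzB2B3B2E :=
  y_pok (C0 := ceNFzE2ByA3BzIzB2B3B2E) (C1 := coNFzE2ByA3BzIzB2B3B2E) topNFzE2ByA3BzIzB2B3B2E nbNFzE2ByA3BzIzB2B3B2E (BT.Fa_of_all iiNFzE2ByA3BzIzB2B3B2E_c)
    (cyE_spec zeNFzE2ByA3BzIzB2B3B2E_0)
    (cyO_spec zoNFzE2ByA3BzIzB2B3B2E_0)
    iiNFzE2ByA3BzIzB2B3B2E_k

theorem iiNFzE2ByAx3xA2EzF_k : iiNFzE2ByAx3xA2EzF.Fa (Itm.ok 206) := (BT.Fa_mk (BT.Fa_mk (BT.Fa_mk (BT.Fa_mk (BT.Fa_mk (BT.Fa_mk (BT.Fa_mk (BT.Fa_leaf (P := Itm.ok 206) (iqf tp368_c)) (BT.Fa_leaf (P := Itm.ok 206) (iqb tp607_c))) (BT.Fa_mk (BT.Fa_leaf (P := Itm.ok 206) (iqf tp1425_c)) (BT.Fa_leaf (P := Itm.ok 206) (iqb tp320_c)))) (BT.Fa_mk (BT.Fa_mk (BT.Fa_leaf (P := Itm.ok 206) (iqf tp321_c))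 (BT.Fa_leaf (P := Itm.ok 206) (iqb tp321_c))) (BT.Fa_leaf (P := Itm.ok 206) (iqb tp1426_c)))) (BT.Fa_mk (BT.Fa_mk (BT.Fa_mk (BT.Fa_leaf (P := Itm.ok 206) (iqb tp290_c)) (BT.Fa_leaf (P := Itm.ok 206) (iqf tp292_c))) (BT.Fa_mk (BT.Fa_leaf (P := Itm.ok 206) (iqb tp1427_c)) (BT.Fa_leaf (P := Itm.ok 206) (iqf tp391_c)))) (BT.Fa_mk (BT.Fa_mk (BT.Fa_leaf (P := Itm.ok 206) (iqf tp1428_c)) (BT.Fa_leaf (P := Itm.ok 206) (iqf tp612_c))) (BT.Fa_leaf (P := Itm.ok 206) (iqf tp327_c))))) (BT.Fa_mk (BT.Fa_mk (BT.Fa_mk (BT.Fa_mk (BT.Fa_leaf (P := Itm.ok 206) (iqf tp1429_c)) (BT.Fa_leaf (P := Itm.ok 206) (iqf tp1430_c))) (BT.Fa_mk (BT.Fa_leaf (P := Itm.ok 206) (iqb tp294_c)) (BT.Fa_leaf (P := Itm.ok 206) (iqf tp1431_c)))) (BT.Fa_mk (BT.Fa_mk (BT.Fa_leaf (P := Itm.ok 206) (iqb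 tp1432_c)) (BT.Fa_leaf (P := Itm.ok 206) (iqb tp329_c))) (BT.Fa_leaf (P := Itm.ok 206) (iqb tp300_c)))) (BT.Fa_mk (BT.Fa_mk (BT.Fa_mk (BT.Fa_leaf (P := Itm.ok 206) (iqf tp1433_c)) (BT.Fa_leaf (P := Itm.ok 206) (iqf tp1434_c))) (BT.Fa_leaf (P := Itm.ok 206) (iqf tp332_c))) (BT.Fa_mk (BT.Fa_mk (BT.Fa_leaf (P := Itm.ok 206) (iqb tp332_c)) (BT.Fa_leaf (P := Itm.ok 206) (iqb tp1435_c))) (BT.Fa_leaf (P := Itm.ok 206) (iqf tp1436_c)))))) (BT.Fa_mk (BT.Fa_mk (BT.Fa_mk (BT.Fa_mk (BT.Fa_mk (BT.Fa_leaf (P := Itm.ok 206) (iqf tp315_c)) (BT.Fa_leaf (P := Itm.ok 206) (iqf tp335_c))) (BT.Fa_mk (BT.Fa_leaf (P := Itm.ok 206) (iqb tp1437_c)) (BT.Fa_leaf (P := Itm.ok 206) (iqf tp1438_c)))) (BT.Fa_mk (BT.Fa_mk (BT.Fa_leaf (P := Itm.ok 206) (iqf tp1439_c)) (BT.Fa_leaf (P := Itm.ok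 206) (iqb tp962_c))) (BT.Fa_leaf (P := Itm.ok 206) (iqf tp1440_c)))) (BT.Fa_mk (BT.Fa_mk (BT.Fa_mk (BT.Fa_leaf (P := Itm.ok 206) (iqf tp337_c)) (BT.Fa_leaf (P := Itm.ok 206) (iqf tp1441_c))) (BT.Fa_leaf (P := Itm.ok 206) (iqb tp1442_c))) (BT.Fa_mk (BT.Fa_mk (BT.Fa_leaf (P := Itm.ok 206) (iqf tp984_c)) (BT.Fa_leaf (P := Itm.ok 206) (iqb tp610_c))) (BT.Fa_leaf (P := Itm.ok 206) (iqb tp1064_c))))) (BT.Fa_mk (BT.Fa_mk (BT.Fa_mk (BT.Fa_mk (BT.Fa_leaf (P := Itm.ok 206) (iqf tp1443_c)) (BT.Fa_leaf (P := Itm.ok 206) (iqf tp1444_c))) (BT.Fa_mk (BT.Fa_leaf (P := Itm.ok 206) (iqf tp1445_c)) (BT.Fa_leaf (P := Itm.ok 206) (iqf tp1446_c)))) (BT.Fa_mk (BT.Fa_mk (BT.Fa_leaf (P := Itm.ok 206) (iqb tp589_c)) (BT.Fa_leaf (P := Itm.ok 206) (iqf tp369_c))) (BT.Fa_leaf (P := Itm.ok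 206) (iqf tp400_c)))) (BT.Fa_mk (BT.Fa_mk (BT.Fa_mk (BT.Fa_leaf (P := Itm.ok 206) (iqf tp1447_c)) (BT.Fa_leaf (P := Itm.ok 206) (iqf tp1448_c))) (BT.Fa_leaf (P := Itm.ok 206) (iqb tp402_c))) (BT.Fa_mk (BT.Fa_mk (BT.Fa_leaf (P := Itm.ok 206) (iqb tp299_c)) (BT.Fa_leaf (P := Itm.ok 206) (iqf tp1449_c))) (BT.Fa_leaf (P := Itm.ok 206) (iqf tp1450_c))))))) (BT.Fa_mk (BT.Fa_mk (BT.Fa_mk (BT.Fa_mk (BT.Fa_mk (BT.Fa_mk (BT.Fa_leaf (P := Itm.ok 206) (iqf tp288_c)) (BT.Fa_leaf (P := Itm.ok 206) (iqb tp346_c))) (BT.Fa_mk (BT.Fa_leaf (P := Itm.ok 206) (iqf tp1451_c)) (BT.Fa_leaf (P := Itm.ok 206) (iqb tp1452_c)))) (BT.Fa_mk (BT.Fa_mk (BT.Fa_leaf (P := Itm.ok 206) (iqb tp1453_c)) (BT.Fa_leaf (P := Itm.ok 206) (iqb tp286_c))) (BT.Fa_leaf (P := Itm.ok 206) (iqf tp1454_c))))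 (BT.Fa_mk (BT.Fa_mk (BT.Fa_mk (BT.Fa_leaf (P := Itm.ok 206) (iqf tp1455_c)) (BT.Fa_leaf (P := Itm.ok 206) (iqb tp1456_c))) (BT.Fa_leaf (P := Itm.ok 206) (iqf tp517_c))) (BT.Fa_mk (BT.Fa_mk (BT.Fa_leaf (P := Itm.ok 206) (iqf tp373_c)) (BT.Fa_leaf (P := Itm.ok 206) (iqb tp985_c))) (BT.Fa_leaf (P := Itm.ok 206) (iqb tp413_c))))) (BT.Fa_mk (BT.Fa_mk (BT.Fa_mk (BT.Fa_mk (BT.Fa_leaf (P := Itm.ok 206) (iqb tp366_c)) (BT.Fa_leaf (P := Itm.ok 206) (iqf tp301_c))) (BT.Fa_mk (BT.Fa_leaf (P := Itm.ok 206) (iqf tp1457_c)) (BT.Fa_leaf (P := Itm.ok 206) (iqf tp1458_c)))) (BT.Fa_mk (BT.Fa_mk (BT.Fa_leaf (P := Itm.ok 206) (iqf tp1459_c)) (BT.Fa_leaf (P := Itm.ok 206) (iqf tp1460_c))) (BT.Fa_leaf (P := Itm.ok 206) (iqf tp1461_c)))) (BT.Fa_mk (BT.Fa_mk (BT.Fa_mk (BT.Fa_leaf (P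 := Itm.ok 206) (iqf tp1462_c)) (BT.Fa_leaf (P := Itm.ok 206) (iqf tp1463_c))) (BT.Fa_leaf (P := Itm.ok 206) (iqb tp1464_c))) (BT.Fa_mk (BT.Fa_mk (BT.Fa_leaf (P := Itm.ok 206) (iqf tp1465_c)) (BT.Fa_leaf (P := Itm.ok 206) (iqf tp1466_c))) (BT.Fa_leaf (P := Itm.ok 206) (iqf tp1467_c)))))) (BT.Fa_mk (BT.Fa_mk (BT.Fa_mk (BT.Fa_mk (BT.Fa_mk (BT.Fa_leaf (P := Itm.ok 206) (iqb tp1468_c)) (BT.Fa_leaf (P := Itm.ok 206) (iqf tp1469_c))) (BT.Fa_mk (BT.Fa_leaf (P := Itm.ok 206) (iqb tp1288_c)) (BT.Fa_leaf (P := Itm.ok 206) (iqb tp1126_c)))) (BT.Fa_mk (BT.Fa_mk (BT.Fa_leaf (P := Itm.ok 206) (iqf tp1470_c)) (BT.Fa_leaf (P := Itm.ok 206) (iqb tp1471_c))) (BT.Fa_leaf (P := Itm.ok 206) (iqf tp1472_c)))) (BT.Fa_mk (BT.Fa_mk (BT.Fa_mk (BT.Fa_leaf (P := Itm.ok 206) (iqf tp489_c))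 (BT.Fa_leaf (P := Itm.ok 206) (iqb tp499_c))) (BT.Fa_leaf (P := Itm.ok 206) (iqf tp1473_c))) (BT.Fa_mk (BT.Fa_mk (BT.Fa_leaf (P := Itm.ok 206) (iqb tp318_c)) (BT.Fa_leaf (P := Itm.ok 206) (iqb tp1474_c))) (BT.Fa_leaf (P := Itm.ok 206) (iqf tp1263_c))))) (BT.Fa_mk (BT.Fa_mk (BT.Fa_mk (BT.Fa_mk (BT.Fa_leaf (P := Itm.ok 206) (iqb tp1475_c)) (BT.Fa_leaf (P := Itm.ok 206) (iqb tp306_c))) (BT.Fa_mk (BT.Fa_leaf (P := Itm.ok 206) (iqf tp1476_c)) (BT.Fa_leaf (P := Itm.ok 206) (iqf tp1477_c)))) (BT.Fa_mk (BT.Fa_mk (BT.Fa_leaf (P := Itm.ok 206) (iqf tp1478_c)) (BT.Fa_leaf (P := Itm.ok 206) (iqb tp1479_c))) (BT.Fa_leaf (P := Itm.ok 206) (iqb tp727_c)))) (BT.Fa_mk (BT.Fa_mk (BT.Fa_mk (BT.Fa_leaf (P := Itm.ok 206) (iqf tp1480_c)) (BT.Fa_leaf (P := Itm.ok 206) (iqb tp1481_c)))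 (BT.Fa_leaf (P := Itm.ok 206) (iqb tp426_c))) (BT.Fa_mk (BT.Fa_mk (BT.Fa_leaf (P := Itm.ok 206) (iqb tp422_c)) (BT.Fa_leaf (P := Itm.ok 206) (iqb tp1482_c))) (BT.Fa_leaf (P := Itm.ok 206) (iqb tp1483_c))))))))

/-- all words of the class have labels -/
theorem pokNFzE2ByAx3xA2EzF : POK 206 xNFzE2ByAx3xA2EzF :=
  y_pok (C0 := ceNFzE2ByAx3xA2EzF) (C1 := coNFzE2ByAx3xA2EzF) topNFzE2ByAx3xA2EzF nbNFzE2ByAx3xA2EzF (BT.Fa_of_all iiNFzE2ByAx3xA2EzF_c)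
    (cyE_spec zeNFzE2ByAx3xA2EzF_0)
    (cyO_spec zoNFzE2ByAx3xA2EzF_0)
    iiNFzE2ByAx3xA2EzF_k

theorem iiNFzE2ByAx3xAyB2EzF_k : iiNFzE2ByAx3xAyB2EzF.Fa (Itm.ok 206) := (BT.Fa_mk (BT.Fa_mk (BT.Fa_mk (BT.Fa_mk (BT.Fa_mk (BT.Fa_mk (BT.Fa_leaf (P := Itm.ok 206) (iqf tp420_c)) (BT.Fa_leaf (P := Itm.ok 206) (iqf tp368_c))) (BT.Fa_mk (BT.Fa_leaf (P := Itm.ok 206) (iqb tp607_c)) (BT.Fa_leaf (P := Itm.ok 206) (iqf tp1552_c)))) (BT.Fa_mk (BT.Fa_mk (BT.Fa_leaf (P := Itm.ok 206) (iqf tp321_c)) (BT.Fa_leaf (P := Itm.ok 206) (iqb tp389_c))) (BT.Fa_leaf (P := Itm.ok 206) (iqf tp391_c)))) (BT.Fa_mk (BT.Fa_mk (BT.Fa_mk (BT.Fa_leaf (P := Itm.ok 206) (iqf tp461_c)) (BT.Fa_leaf (P := Itm.ok 206) (iqf tp1428_c))) (BT.Fa_leaf (P := Itm.ok 206) (iqb tp1428_c))) (BT.Fa_mk (BT.Fa_mk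 (BT.Fa_leaf (P := Itm.ok 206) (iqb tp1553_c)) (BT.Fa_leaf (P := Itm.ok 206) (iqb tp327_c))) (BT.Fa_leaf (P := Itm.ok 206) (iqb tp1460_c))))) (BT.Fa_mk (BT.Fa_mk (BT.Fa_mk (BT.Fa_mk (BT.Fa_leaf (P := Itm.ok 206) (iqf tp1554_c)) (BT.Fa_leaf (P := Itm.ok 206) (iqf tp1555_c))) (BT.Fa_mk (BT.Fa_leaf (P := Itm.ok 206) (iqf tp1556_c)) (BT.Fa_leaf (P := Itm.ok 206) (iqb tp294_c)))) (BT.Fa_mk (BT.Fa_mk (BT.Fa_leaf (P := Itm.ok 206) (iqf tp1557_c)) (BT.Fa_leaf (P := Itm.ok 206) (iqf tp1558_c))) (BT.Fa_leaf (P := Itm.ok 206) (iqf tp1559_c)))) (BT.Fa_mk (BT.Fa_mk (BT.Fa_mk (BT.Fa_leaf (P := Itm.ok 206) (iqf tp1560_c)) (BT.Fa_leaf (P := Itm.ok 206) (iqf tp1435_c))) (BT.Fa_leaf (P := Itm.ok 206) (iqb tp1435_c))) (BT.Fa_mk (BT.Fa_mk (BT.Fa_leaf (P := Itm.ok 206) (iqf tp315_c))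 (BT.Fa_leaf (P := Itm.ok 206) (iqb tp1561_c))) (BT.Fa_leaf (P := Itm.ok 206) (iqb tp301_c)))))) (BT.Fa_mk (BT.Fa_mk (BT.Fa_mk (BT.Fa_mk (BT.Fa_mk (BT.Fa_leaf (P := Itm.ok 206) (iqf tp1444_c)) (BT.Fa_leaf (P := Itm.ok 206) (iqf tp1562_c))) (BT.Fa_mk (BT.Fa_leaf (P := Itm.ok 206) (iqf tp1511_c)) (BT.Fa_leaf (P := Itm.ok 206) (iqb tp288_c)))) (BT.Fa_mk (BT.Fa_mk (BT.Fa_leaf (P := Itm.ok 206) (iqf tp1563_c)) (BT.Fa_leaf (P := Itm.ok 206) (iqb tp451_c))) (BT.Fa_leaf (P := Itm.ok 206) (iqf tp1564_c)))) (BT.Fa_mk (BT.Fa_mk (BT.Fa_mk (BT.Fa_leaf (P := Itm.ok 206) (iqf tp1565_c)) (BT.Fa_leaf (P := Itm.ok 206) (iqb tp1566_c))) (BT.Fa_leaf (P := Itm.ok 206) (iqb tp1567_c))) (BT.Fa_mk (BT.Fa_mk (BT.Fa_leaf (P := Itm.ok 206) (show Itm.ok 206 (.pat 945 pq114) from (POK.mono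 (by decide) pq114_ok))) (BT.Fa_leaf (P := Itm.ok 206) (show Itm.ok 206 (.pat 987 pq115) from (POK.mono (by decide) pq115_ok)))) (BT.Fa_leaf (P := Itm.ok 206) (iqf tp1568_c))))) (BT.Fa_mk (BT.Fa_mk (BT.Fa_mk (BT.Fa_mk (BT.Fa_leaf (P := Itm.ok 206) (iqf tp1569_c)) (BT.Fa_leaf (P := Itm.ok 206) (iqf tp1570_c))) (BT.Fa_mk (BT.Fa_leaf (P := Itm.ok 206) (iqb tp1571_c)) (BT.Fa_leaf (P := Itm.ok 206) (iqf tp1460_c)))) (BT.Fa_mk (BT.Fa_mk (BT.Fa_leaf (P := Itm.ok 206) (iqf tp486_c)) (BT.Fa_leaf (P := Itm.ok 206) (iqf tp1572_c))) (BT.Fa_leaf (P := Itm.ok 206) (iqf tp1483_c)))) (BT.Fa_mk (BT.Fa_mk (BT.Fa_mk (BT.Fa_leaf (P := Itm.ok 206) (iqf tp1456_c)) (BT.Fa_leaf (P := Itm.ok 206) (iqf tp294_c))) (BT.Fa_leaf (P := Itm.ok 206) (iqb tp1573_c))) (BT.Fa_mk (BT.Fa_mk (BT.Fa_leaf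 (P := Itm.ok 206) (iqb tp1574_c)) (BT.Fa_leaf (P := Itm.ok 206) (iqf tp1575_c))) (BT.Fa_leaf (P := Itm.ok 206) (iqb tp416_c)))))))

/-- all words of the class have labels -/
theorem pokNFzE2ByAx3xAyB2EzF : POK 206 xNFzE2ByAx3xAyB2EzF :=
  y_pok (C0 := ceNFzE2ByAx3xAyB2EzF) (C1 := coNFzE2ByAx3xAyB2EzF) topNFzE2ByAx3xAyB2EzF nbNFzE2ByAx3xAyB2EzF (BT.Fa_of_all iiNFzE2ByAx3xAyB2EzF_c)
    (cyE_spec zeNFzE2ByAx3xAyB2EzF_0)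
    (cyO_spec zoNFzE2ByAx3xAyB2EzF_0)
    iiNFzE2ByAx3xAyB2EzF_k


end MPb6P
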