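import Pool.Agent.Lib.MP_b6d339_lc.Cw.F0
import Pool.Agent.Lib.MP_b6d339_lc.Cw.F1
import Pool.Agent.Lib.MP_b6d339_lc.Cw.F2
import Pool.Agent.Lib.MP_b6d339_lc.Cw.F3
import Pool.Agent.Lib.MP_b6d339_lc.Cw.F4
import Pool.Agent.Lib.MP_b6d339_lc.Cw.F5
import Pool.Agent.Lib.MP_b6d339_lc.Cw.F6
import Pool.Agent.Lib.MP_b6d339_lc.Cw.F7
import Pool.Agent.Lib.MP_b6d339_lc.Cw.S5
import Pool.Agent.Lib.MP_b6d339_lc.Cw.XL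
import Pool.Agent.Lib.MP_b6d339_lc.Pos.XTreeC
import Pool.Agent.Lib.MP_b6d339_lc.Pos.YQ

/-!
# Erdős 592, three levels: classes of words
-/

namespace MPb6P

theorem xNFzE2B3B2EzF_rNA2AzE2B3B2EzF_ok : POK 420 xNFzE2B3B2EzF_rNA2AzE2B3B2EzF := POK.rev' pokNA2AzE2B3B2EzF (by decide +kernel)

theorem xNFzE2B3B2EzF_rNCzE2B3B2EzF_ok : POK 420 xNFzE2B3B2EzF_rNCzE2B3B2EzF := POK.rev' pokNCzE2B3B2EzF (by decide +kernel)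

theorem xNFzE2B3B2EzF_rNF2A2AzE2A2Ax3xA2A2EzAzA2F_ok : POK 420 xNFzE2B3B2EzF_rNF2A2AzE2A2Ax3xA2A2EzAzA2F := POK.rev' pokNF2A2AzE2A2Ax3xA2A2EzAzA2F (by decide +kernel)

theorem xNFzE2B3B2EzF_rNF2A2AzE2A2Ax3xA2A2EzAzAyF_ok : POK 420 xNFzE2B3B2EzF_rNF2A2AzE2A2Ax3xA2A2EzAzAyF := POK.rev' pokNF2A2AzE2A2Ax3xA2A2EzAzAyF (by decide +kernel)

theorem xNFzE2B3B2EzF_rNF2A2AzE2A2Ax3xA2A2EzAzAzF_ok : POK 420 xNFzE2B3B2EzF_rNF2A2AzE2A2Ax3xA2A2EzAzAzF := POK.rev' pokNF2A2AzE2A2Ax3xA2A2EzAzAzF (by decide +kernel)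

theorem xNFzE2B3B2EzF_rNF2AzAzE2A2Ax3xA2A2EzA2AyF_ok : POK 420 xNFzE2B3B2EzF_rNF2AzAzE2A2Ax3xA2A2EzA2AyF := POK.rev' pokNF2AzAzE2A2Ax3xA2A2EzA2AyF (by decide +kernel)

theorem xNFzE2B3B2EzF_rNF2AzAzEyA2Ax3xA2AyEzAzAzF_ok : POK 420 xNFzE2B3B2EzF_rNF2AzAzEyA2Ax3xA2AyEzAzAzF := POK.rev' pokNF2AzAzEyA2Ax3xA2AyEzAzAzF (by decide +kernel)

theorem xNFzE2B3B2EzF_rNF2AzE2A2Ax3xA2A2EzAyF_ok : POK 420 xNFzE2B3B2EzF_rNF2AzE2A2Ax3xA2A2EzAyF := POK.rev' pokNF2AzE2A2Ax3xA2A2EzAyF (by decide +kernel)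

theorem xNFzE2B3B2EzF_rNF2AzE2A2Ax3xA2AyEzA2F_ok : POK 420 xNFzE2B3B2EzF_rNF2AzE2A2Ax3xA2AyEzA2F := POK.rev' pokNF2AzE2A2Ax3xA2AyEzA2F (by decide +kernel)

theorem xNFzE2B3B2EzF_rNF2AzE2A2Ax3xA2AyEzAyF_ok : POK 420 xNFzE2B3B2EzF_rNF2AzE2A2Ax3xA2AyEzAyF := POK.rev' pokNF2AzE2A2Ax3xA2AyEzAyF (by decide +kernel)

theorem xNFzE2B3B2EzF_rNF2AzE2A2Ax3xA2AyEzAzF_ok : POK 420 xNFzE2B3B2EzF_rNF2AzE2A2Ax3xA2AyEzAzF := POK.rev' pokNF2AzE2A2Ax3xA2AyEzAzF (by decide +kernel)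

theorem xNFzE2B3B2EzF_rNF2AzEyA2Ax3xA2A2EzAyF_ok : POK 420 xNFzE2B3B2EzF_rNF2AzEyA2Ax3xA2A2EzAyF := POK.rev' pokNF2AzEyA2Ax3xA2A2EzAyF (by decide +kernel)

theorem xNFzE2B3B2EzF_rNF2AzEyA2Ax3xA2A2EzAzF_ok : POK 420 xNFzE2B3B2EzF_rNF2AzEyA2Ax3xA2A2EzAzF := POK.rev' pokNF2AzEyA2Ax3xA2A2EzAzF (by decide +kernel)

theorem xNFzE2B3B2EzF_rNF2AzEyA2Ax3xA2AyEzAyF_ok : POK 420 xNFzE2B3B2EzF_rNF2AzEyA2Ax3xA2AyEzAyF := POK.rev' pokNF2AzEyA2Ax3xA2AyEzAyF (by decide +kernel)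

theorem xNFzE2B3B2EzF_rNF2AzEyA2Ax3xA2AyEzAzF_ok : POK 420 xNFzE2B3B2EzF_rNF2AzEyA2Ax3xA2AyEzAzF := POK.rev' pokNF2AzEyA2Ax3xA2AyEzAzF (by decide +kernel)

theorem xNFzE2B3B2EzF_rNFyA2AzE2A2Ax3xA2A2EzAzAyF_ok : POK 420 xNFzE2B3B2EzF_rNFyA2AzE2A2Ax3xA2A2EzAzAyF := POK.rev' pokNFyA2AzE2A2Ax3xA2A2EzAzAyF (by decide +kernel)

theorem xNFzE2B3B2EzF_rNFyA2AzEyA2Ax3xA2AyEzA2A2F_ok : POK 420 xNFzE2B3B2EzF_rNFyA2AzEyA2Ax3xA2AyEzA2A2F := POK.rev' pokNFyA2AzEyA2Ax3xA2AyEzA2A2F (by decide +kernel)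

theorem xNFzE2B3B2EzF_rNFyAzAzEyA2Ax3xA2AyEzAzA2F_ok : POK 420 xNFzE2B3B2EzF_rNFyAzAzEyA2Ax3xA2AyEzAzA2F := POK.rev' pokNFyAzAzEyA2Ax3xA2AyEzAzA2F (by decide +kernel)

theorem xNFzE2B3B2EzF_rNFyAzE2A2Ax3xA2AyEzAyF_ok : POK 420 xNFzE2B3B2EzF_rNFyAzE2A2Ax3xA2AyEzAyF := POK.rev' pokNFyAzE2A2Ax3xA2AyEzAyF (by decide +kernel)

theorem xNFzE2B3B2EzF_rNFyAzE2A2Ax3xA2AyEzAzF_ok : POK 420 xNFzE2B3B2EzF_rNFyAzE2A2Ax3xA2AyEzAzF := POK.rev' pokNFyAzE2A2Ax3xA2AyEzAzF (by decide +kernel)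

theorem xNFzE2B3B2EzF_rNFyAzEyA2Ax3xA2A2EzAzF_ok : POK 420 xNFzE2B3B2EzF_rNFyAzEyA2Ax3xA2A2EzAzF := POK.rev' pokNFyAzEyA2Ax3xA2A2EzAzF (by decide +kernel)

theorem xNFzE2B3B2EzF_rNFyAzEyA2Ax3xA2AyEzAzF_ok : POK 420 xNFzE2B3B2EzF_rNFyAzEyA2Ax3xA2AyEzAzF := POK.rev' pokNFyAzEyA2Ax3xA2AyEzAzF (by decide +kernel)

theorem xNFzE2B3B2EzF_rNFzA2Ax3xA2A2EzF_ok : POK 420 xNFzE2B3B2EzF_rNFzA2Ax3xA2A2EzF := POK.rev' pokNFzA2Ax3xA2A2EzF (by decide +kernel)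

theorem xNFzE2B3B2EzF_rNFzA2Ax3xA2AyEzF_ok : POK 420 xNFzE2B3B2EzF_rNFzA2Ax3xA2AyEzF := POK.rev' pokNFzA2Ax3xA2AyEzF (by decide +kernel)

theorem xNFzE2B3B2EzF_rNFzA2AzE2B3B2EzF_ok : POK 420 xNFzE2B3B2EzF_rNFzA2AzE2B3B2EzF := POK.rev' pokNFzA2AzE2B3B2EzF (by decide +kernel)

theorem xNFzE2B3B2EzF_rNFzAzAzE2A2Ax3xA2A2EzA2AyF_ok : POK 420 xNFzE2B3B2EzF_rNFzAzAzE2A2Ax3xA2A2EzA2AyF := POK.rev' pokNFzAzAzE2A2Ax3xA2A2EzA2AyF (by decide +kernel)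

theorem xNFzE2B3B2EzF_rNFzAzAzEyA2Ax3xA2AyEzAzAyF_ok : POK 420 xNFzE2B3B2EzF_rNFzAzAzEyA2Ax3xA2AyEzAzAyF := POK.rev' pokNFzAzAzEyA2Ax3xA2AyEzAzAyF (by decide +kernel)

theorem xNFzE2B3B2EzF_rNFzAzE2A2Ax3xA2A2EzAyF_ok : POK 420 xNFzE2B3B2EzF_rNFzAzE2A2Ax3xA2A2EzAyF := POK.rev' pokNFzAzE2A2Ax3xA2A2EzAyF (by decide +kernel)

theorem xNFzE2B3B2EzF_rNFzAzE2A2Ax3xA2AyEzAzF_ok : POK 420 xNFzE2B3B2EzF_rNFzAzE2A2Ax3xA2AyEzAzF := POK.rev' pokNFzAzE2A2Ax3xA2AyEzAzF (by decide +kernel)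

theorem xNFzE2B3B2EzF_rNFzE2Bx3yB2EzF_ok : POK 420 xNFzE2B3B2EzF_rNFzE2Bx3yB2EzF := POK.rev' pokNFzE2Bx3yB2EzF (by decide +kernel)

theorem xNFzE2B3B2EzF_rNFzE2ByAx3xA2EzF_ok : POK 420 xNFzE2B3B2EzF_rNFzE2ByAx3xA2EzF := POK.rev' pokNFzE2ByAx3xA2EzF (by decide +kernel)

theorem iiNFzE2B3B2EzF_k : iiNFzE2B3B2EzF.Fa (Itm.ok 420) := (BT.Fa_mk (BT.Fa_mk (BT.Fa_mk (BT.Fa_mk (BT.Fa_mk (BT.Fa_mk (BT.Fa_mk (BT.Fa_leaf (P := Itm.ok 420) (show Itm.ok 420 (.pat 0 xNA2AzE2B3B2EzF) from (POK.mono (by decide) pokNA2AzE2B3B2EzF))) (BT.Fa_leaf (P := Itm.ok 420) (show Itm.ok 420 (.pat 14 xNFzE2B3B2EzF_rNA2AzE2B3B2EzF) from (POK.mono (by decide) xNFzE2B3B2EzF_rNA2AzE2B3B2EzF_ok)))) (BT.Fa_leaf (P := Itm.ok 420) (show Itm.ok 420 (.pat 28 xNCzE2B3B2EzF) from (POK.mono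 (by decide) pokNCzE2B3B2EzF)))) (BT.Fa_mk (BT.Fa_leaf (P := Itm.ok 420) (show Itm.ok 420 (.pat 40 xNFzE2B3B2EzF_rNCzE2B3B2EzF) from (POK.mono (by decide) xNFzE2B3B2EzF_rNCzE2B3B2EzF_ok))) (BT.Fa_leaf (P := Itm.ok 420) (show Itm.ok 420 (.pat 52 xNF2A2AzE2A2Ax3xA2A2EzAzA2F) from (POK.mono (by decide) pokNF2A2AzE2A2Ax3xA2A2EzAzA2F))))) (BT.Fa_mk (BT.Fa_mk (BT.Fa_mk (BT.Fa_leaf (P := Itm.ok 420) (show Itm.ok 420 (.pat 80 xNFzE2B3B2EzF_rNF2A2AzE2A2Ax3xA2A2EzAzA2F) from (POK.mono (by decide) xNFzE2B3B2EzF_rNF2A2AzE2A2Ax3xA2A2EzAzA2F_ok))) (BT.Fa_leaf (P := Itm.ok 420) (show Itm.ok 420 (.pat 108 xNF2A2AzE2A2Ax3xA2A2EzAzAyF) from (POK.mono (by decide) pokNF2A2AzE2A2Ax3xA2A2EzAzAyF)))) (BT.Fa_leaf (P := Itm.ok 420) (show Itm.ok 420 (.pat 136 xNFzE2B3B2EzF_rNF2A2AzE2A2Ax3xA2A2EzAzAyF)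 from (POK.mono (by decide) xNFzE2B3B2EzF_rNF2A2AzE2A2Ax3xA2A2EzAzAyF_ok)))) (BT.Fa_mk (BT.Fa_leaf (P := Itm.ok 420) (show Itm.ok 420 (.pat 164 xNF2A2AzE2A2Ax3xA2A2EzAzAzF) from (POK.mono (by decide) pokNF2A2AzE2A2Ax3xA2A2EzAzAzF))) (BT.Fa_leaf (P := Itm.ok 420) (show Itm.ok 420 (.pat 192 xNFzE2B3B2EzF_rNF2A2AzE2A2Ax3xA2A2EzAzAzF) from (POK.mono (by decide) xNFzE2B3B2EzF_rNF2A2AzE2A2Ax3xA2A2EzAzAzF_ok)))))) (BT.Fa_mk (BT.Fa_mk (BT.Fa_mk (BT.Fa_mk (BT.Fa_leaf (P := Itm.ok 420) (show Itm.ok 420 (.pat 220 xNF2A2AzEyA2Ax3xA2AyEzA2A2F) from (POK.mono (by decide) pokNF2A2AzEyA2Ax3xA2AyEzA2A2F))) (BT.Fa_leaf (P := Itm.ok 420) (show Itm.ok 420 (.pat 248 xNFyA2AzEyA2Ax3xA2AyEzA2A2F) from (POK.mono (by decide) pokNFyA2AzEyA2Ax3xA2AyEzA2A2F)))) (BT.Fa_leaf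 (P := Itm.ok 420) (show Itm.ok 420 (.pat 276 xNFzE2B3B2EzF_rNFyA2AzEyA2Ax3xA2AyEzA2A2F) from (POK.mono (by decide) xNFzE2B3B2EzF_rNFyA2AzEyA2Ax3xA2AyEzA2A2F_ok)))) (BT.Fa_mk (BT.Fa_leaf (P := Itm.ok 420) (show Itm.ok 420 (.pat 304 xNF2AzAzE2A2Ax3xA2A2EzA2AyF) from (POK.mono (by decide) pokNF2AzAzE2A2Ax3xA2A2EzA2AyF))) (BT.Fa_leaf (P := Itm.ok 420) (show Itm.ok 420 (.pat 332 xNFzE2B3B2EzF_rNF2AzAzE2A2Ax3xA2A2EzA2AyF) from (POK.mono (by decide) xNFzE2B3B2EzF_rNF2AzAzE2A2Ax3xA2A2EzA2AyF_ok))))) (BT.Fa_mk (BT.Fa_mk (BT.Fa_leaf (P := Itm.ok 420) (show Itm.ok 420 (.pat 360 xNF2AzAzEyA2Ax3xA2AyEzAzA2F) from (POK.mono (by decide) pokNF2AzAzEyA2Ax3xA2AyEzAzA2F))) (BT.Fa_leaf (P := Itm.ok 420) (show Itm.ok 420 (.pat 388 xNFyAzAzEyA2Ax3xA2AyEzAzA2F) from (POK.mono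 (by decide) pokNFyAzAzEyA2Ax3xA2AyEzAzA2F)))) (BT.Fa_mk (BT.Fa_leaf (P := Itm.ok 420) (show Itm.ok 420 (.pat 416 xNFzE2B3B2EzF_rNFyAzAzEyA2Ax3xA2AyEzAzA2F) from (POK.mono (by decide) xNFzE2B3B2EzF_rNFyAzAzEyA2Ax3xA2AyEzAzA2F_ok))) (BT.Fa_leaf (P := Itm.ok 420) (show Itm.ok 420 (.pat 444 xNF2AzAzEyA2Ax3xA2AyEzAzAzF) from (POK.mono (by decide) pokNF2AzAzEyA2Ax3xA2AyEzAzAzF))))))) (BT.Fa_mk (BT.Fa_mk (BT.Fa_mk (BT.Fa_mk (BT.Fa_mk (BT.Fa_leaf (P := Itm.ok 420) (show Itm.ok 420 (.pat 472 xNFzE2B3B2EzF_rNF2AzAzEyA2Ax3xA2AyEzAzAzF) from (POK.mono (by decide) xNFzE2B3B2EzF_rNF2AzAzEyA2Ax3xA2AyEzAzAzF_ok))) (BT.Fa_leaf (P := Itm.ok 420) (show Itm.ok 420 (.pat 500 xNF2AzE2A2Ax3xA2A2EzA2F) from (POK.mono (by decide) pokNF2AzE2A2Ax3xA2A2EzA2F)))) (BT.Fa_leaf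 (P := Itm.ok 420) (show Itm.ok 420 (.pat 524 xNF2AzE2A2Ax3xA2A2EzAyF) from (POK.mono (by decide) pokNF2AzE2A2Ax3xA2A2EzAyF)))) (BT.Fa_mk (BT.Fa_leaf (P := Itm.ok 420) (show Itm.ok 420 (.pat 548 xNFzE2B3B2EzF_rNF2AzE2A2Ax3xA2A2EzAyF) from (POK.mono (by decide) xNFzE2B3B2EzF_rNF2AzE2A2Ax3xA2A2EzAyF_ok))) (BT.Fa_leaf (P := Itm.ok 420) (show Itm.ok 420 (.pat 572 xNF2AzE2A2Ax3xA2AyEzA2F) from (POK.mono (by decide) pokNF2AzE2A2Ax3xA2AyEzA2F))))) (BT.Fa_mk (BT.Fa_mk (BT.Fa_leaf (P := Itm.ok 420) (show Itm.ok 420 (.pat 596 xNFzE2B3B2EzF_rNF2AzE2A2Ax3xA2AyEzA2F) from (POK.mono (by decide) xNFzE2B3B2EzF_rNF2AzE2A2Ax3xA2AyEzA2F_ok))) (BT.Fa_leaf (P := Itm.ok 420) (show Itm.ok 420 (.pat 620 xNF2AzE2A2Ax3xA2AyEzAyF) from (POK.mono (by decide) pokNF2AzE2A2Ax3xA2AyEzAyF))))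 (BT.Fa_mk (BT.Fa_leaf (P := Itm.ok 420) (show Itm.ok 420 (.pat 644 xNFzE2B3B2EzF_rNF2AzE2A2Ax3xA2AyEzAyF) from (POK.mono (by decide) xNFzE2B3B2EzF_rNF2AzE2A2Ax3xA2AyEzAyF_ok))) (BT.Fa_leaf (P := Itm.ok 420) (show Itm.ok 420 (.pat 668 xNF2AzE2A2Ax3xA2AyEzAzF) from (POK.mono (by decide) pokNF2AzE2A2Ax3xA2AyEzAzF)))))) (BT.Fa_mk (BT.Fa_mk (BT.Fa_mk (BT.Fa_mk (BT.Fa_leaf (P := Itm.ok 420) (show Itm.ok 420 (.pat 692 xNFzE2B3B2EzF_rNF2AzE2A2Ax3xA2AyEzAzF) from (POK.mono (by decide) xNFzE2B3B2EzF_rNF2AzE2A2Ax3xA2AyEzAzF_ok))) (BT.Fa_leaf (P := Itm.ok 420) (show Itm.ok 420 (.pat 716 xNF2AzEyA2Ax3xA2A2EzAyF) from (POK.mono (by decide) pokNF2AzEyA2Ax3xA2A2EzAyF)))) (BT.Fa_leaf (P := Itm.ok 420) (show Itm.ok 420 (.pat 740 xNFzE2B3B2EzF_rNF2AzEyA2Ax3xA2A2EzAyF)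 from (POK.mono (by decide) xNFzE2B3B2EzF_rNF2AzEyA2Ax3xA2A2EzAyF_ok)))) (BT.Fa_mk (BT.Fa_leaf (P := Itm.ok 420) (show Itm.ok 420 (.pat 764 xNF2AzEyA2Ax3xA2A2EzAzF) from (POK.mono (by decide) pokNF2AzEyA2Ax3xA2A2EzAzF))) (BT.Fa_leaf (P := Itm.ok 420) (show Itm.ok 420 (.pat 788 xNFzE2B3B2EzF_rNF2AzEyA2Ax3xA2A2EzAzF) from (POK.mono (by decide) xNFzE2B3B2EzF_rNF2AzEyA2Ax3xA2A2EzAzF_ok))))) (BT.Fa_mk (BT.Fa_mk (BT.Fa_leaf (P := Itm.ok 420) (show Itm.ok 420 (.pat 812 xNF2AzEyA2Ax3xA2AyEzAyF) from (POK.mono (by decide) pokNF2AzEyA2Ax3xA2AyEzAyF))) (BT.Fa_leaf (P := Itm.ok 420) (show Itm.ok 420 (.pat 836 xNFzE2B3B2EzF_rNF2AzEyA2Ax3xA2AyEzAyF) from (POK.mono (by decide) xNFzE2B3B2EzF_rNF2AzEyA2Ax3xA2AyEzAyF_ok)))) (BT.Fa_mk (BT.Fa_leaf (P := Itm.ok 420)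 (show Itm.ok 420 (.pat 860 xNF2AzEyA2Ax3xA2AyEzAzF) from (POK.mono (by decide) pokNF2AzEyA2Ax3xA2AyEzAzF))) (BT.Fa_leaf (P := Itm.ok 420) (show Itm.ok 420 (.pat 884 xNFzE2B3B2EzF_rNF2AzEyA2Ax3xA2AyEzAzF) from (POK.mono (by decide) xNFzE2B3B2EzF_rNF2AzEyA2Ax3xA2AyEzAzF_ok)))))))) (BT.Fa_mk (BT.Fa_mk (BT.Fa_mk (BT.Fa_mk (BT.Fa_mk (BT.Fa_mk (BT.Fa_leaf (P := Itm.ok 420) (show Itm.ok 420 (.pat 908 xNFyA2AzE2A2Ax3xA2A2EzAzAyF) from (POK.mono (by decide) pokNFyA2AzE2A2Ax3xA2A2EzAzAyF))) (BT.Fa_leaf (P := Itm.ok 420) (show Itm.ok 420 (.pat 936 xNFzE2B3B2EzF_rNFyA2AzE2A2Ax3xA2A2EzAzAyF) from (POK.mono (by decide) xNFzE2B3B2EzF_rNFyA2AzE2A2Ax3xA2A2EzAzAyF_ok)))) (BT.Fa_leaf (P := Itm.ok 420) (show Itm.ok 420 (.pat 964 xNFzAzAzE2A2Ax3xA2A2EzA2AyF) from (POK.mono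 (by decide) pokNFzAzAzE2A2Ax3xA2A2EzA2AyF)))) (BT.Fa_mk (BT.Fa_leaf (P := Itm.ok 420) (show Itm.ok 420 (.pat 992 xNFzE2B3B2EzF_rNFzAzAzE2A2Ax3xA2A2EzA2AyF) from (POK.mono (by decide) xNFzE2B3B2EzF_rNFzAzAzE2A2Ax3xA2A2EzA2AyF_ok))) (BT.Fa_leaf (P := Itm.ok 420) (show Itm.ok 420 (.pat 1020 xNFyA2AzEyA2Ax3xA2AyEzA2AyF) from (POK.mono (by decide) pokNFyA2AzEyA2Ax3xA2AyEzA2AyF))))) (BT.Fa_mk (BT.Fa_mk (BT.Fa_mk (BT.Fa_leaf (P := Itm.ok 420) (show Itm.ok 420 (.pat 1048 xNFyAzAzEyA2Ax3xA2AyEzAzAyF) from (POK.mono (by decide) pokNFyAzAzEyA2Ax3xA2AyEzAzAyF))) (BT.Fa_leaf (P := Itm.ok 420) (show Itm.ok 420 (.pat 1076 xNFzAzAzEyA2Ax3xA2AyEzAzAyF) from (POK.mono (by decide) pokNFzAzAzEyA2Ax3xA2AyEzAzAyF)))) (BT.Fa_leaf (P := Itm.ok 420) (show Itm.ok 420 (.pat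 1104 xNFzE2B3B2EzF_rNFzAzAzEyA2Ax3xA2AyEzAzAyF) from (POK.mono (by decide) xNFzE2B3B2EzF_rNFzAzAzEyA2Ax3xA2AyEzAzAyF_ok)))) (BT.Fa_mk (BT.Fa_leaf (P := Itm.ok 420) (show Itm.ok 420 (.pat 1132 xNFyAzE2A2Ax3xA2A2EzAyF) from (POK.mono (by decide) pokNFyAzE2A2Ax3xA2A2EzAyF))) (BT.Fa_leaf (P := Itm.ok 420) (show Itm.ok 420 (.pat 1156 xNFzAzE2A2Ax3xA2A2EzAyF) from (POK.mono (by decide) pokNFzAzE2A2Ax3xA2A2EzAyF)))))) (BT.Fa_mk (BT.Fa_mk (BT.Fa_mk (BT.Fa_mk (BT.Fa_leaf (P := Itm.ok 420) (show Itm.ok 420 (.pat 1180 xNFzE2B3B2EzF_rNFzAzE2A2Ax3xA2A2EzAyF) from (POK.mono (by decide) xNFzE2B3B2EzF_rNFzAzE2A2Ax3xA2A2EzAyF_ok))) (BT.Fa_leaf (P := Itm.ok 420) (show Itm.ok 420 (.pat 1204 xNFyAzE2A2Ax3xA2AyEzAyF) from (POK.mono (by decide) pokNFyAzE2A2Ax3xA2AyEzAyF))))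 (BT.Fa_leaf (P := Itm.ok 420) (show Itm.ok 420 (.pat 1228 xNFzE2B3B2EzF_rNFyAzE2A2Ax3xA2AyEzAyF) from (POK.mono (by decide) xNFzE2B3B2EzF_rNFyAzE2A2Ax3xA2AyEzAyF_ok)))) (BT.Fa_mk (BT.Fa_leaf (P := Itm.ok 420) (show Itm.ok 420 (.pat 1252 xNFyAzE2A2Ax3xA2AyEzAzF) from (POK.mono (by decide) pokNFyAzE2A2Ax3xA2AyEzAzF))) (BT.Fa_leaf (P := Itm.ok 420) (show Itm.ok 420 (.pat 1276 xNFzE2B3B2EzF_rNFyAzE2A2Ax3xA2AyEzAzF) from (POK.mono (by decide) xNFzE2B3B2EzF_rNFyAzE2A2Ax3xA2AyEzAzF_ok))))) (BT.Fa_mk (BT.Fa_mk (BT.Fa_leaf (P := Itm.ok 420) (show Itm.ok 420 (.pat 1300 xNFyAzEyA2Ax3xA2A2EzAzF) from (POK.mono (by decide) pokNFyAzEyA2Ax3xA2A2EzAzF))) (BT.Fa_leaf (P := Itm.ok 420) (show Itm.ok 420 (.pat 1324 xNFzE2B3B2EzF_rNFyAzEyA2Ax3xA2A2EzAzF) from (POK.mono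 (by decide) xNFzE2B3B2EzF_rNFyAzEyA2Ax3xA2A2EzAzF_ok)))) (BT.Fa_mk (BT.Fa_leaf (P := Itm.ok 420) (show Itm.ok 420 (.pat 1348 xNFyAzEyA2Ax3xA2AyEzAyF) from (POK.mono (by decide) pokNFyAzEyA2Ax3xA2AyEzAyF))) (BT.Fa_leaf (P := Itm.ok 420) (show Itm.ok 420 (.pat 1372 xNFyAzEyA2Ax3xA2AyEzAzF) from (POK.mono (by decide) pokNFyAzEyA2Ax3xA2AyEzAzF))))))) (BT.Fa_mk (BT.Fa_mk (BT.Fa_mk (BT.Fa_mk (BT.Fa_mk (BT.Fa_leaf (P := Itm.ok 420) (show Itm.ok 420 (.pat 1396 xNFzE2B3B2EzF_rNFyAzEyA2Ax3xA2AyEzAzF) from (POK.mono (by decide) xNFzE2B3B2EzF_rNFyAzEyA2Ax3xA2AyEzAzF_ok))) (BT.Fa_leaf (P := Itm.ok 420) (show Itm.ok 420 (.pat 1420 xNFzA2Ax3xA2A2EzF) from (POK.mono (by decide) pokNFzA2Ax3xA2A2EzF)))) (BT.Fa_leaf (P := Itm.ok 420) (show Itm.ok 420 (.pat 1438 xNFzE2B3B2EzF_rNFzA2Ax3xA2A2EzF)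 from (POK.mono (by decide) xNFzE2B3B2EzF_rNFzA2Ax3xA2A2EzF_ok)))) (BT.Fa_mk (BT.Fa_leaf (P := Itm.ok 420) (show Itm.ok 420 (.pat 1456 xNFzA2Ax3xA2AyEzF) from (POK.mono (by decide) pokNFzA2Ax3xA2AyEzF))) (BT.Fa_leaf (P := Itm.ok 420) (show Itm.ok 420 (.pat 1474 xNFzE2B3B2EzF_rNFzA2Ax3xA2AyEzF) from (POK.mono (by decide) xNFzE2B3B2EzF_rNFzA2Ax3xA2AyEzF_ok))))) (BT.Fa_mk (BT.Fa_mk (BT.Fa_leaf (P := Itm.ok 420) (show Itm.ok 420 (.pat 1492 xNFzA2Ax3xA2AzF) from (POK.mono (by decide) pokNFzA2Ax3xA2AzF))) (BT.Fa_leaf (P := Itm.ok 420) (show Itm.ok 420 (.pat 1508 xNFzA2AzE2B3B2EzF) from (POK.mono (by decide) pokNFzA2AzE2B3B2EzF)))) (BT.Fa_mk (BT.Fa_leaf (P := Itm.ok 420) (show Itm.ok 420 (.pat 1524 xNFzE2B3B2EzF_rNFzA2AzE2B3B2EzF) from (POK.mono (by decide)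 xNFzE2B3B2EzF_rNFzA2AzE2B3B2EzF_ok))) (BT.Fa_leaf (P := Itm.ok 420) (show Itm.ok 420 (.pat 1540 xNFzAzAzEyA2Ax3xA2AyEzAzAzF) from (POK.mono (by decide) pokNFzAzAzEyA2Ax3xA2AyEzAzAzF)))))) (BT.Fa_mk (BT.Fa_mk (BT.Fa_mk (BT.Fa_mk (BT.Fa_leaf (P := Itm.ok 420) (show Itm.ok 420 (.pat 1568 xNFzAzE2A2Ax3xA2A2EzAzF) from (POK.mono (by decide) pokNFzAzE2A2Ax3xA2A2EzAzF))) (BT.Fa_leaf (P := Itm.ok 420) (show Itm.ok 420 (.pat 1592 xNFzAzE2A2Ax3xA2AyEzAzF) from (POK.mono (by decide) pokNFzAzE2A2Ax3xA2AyEzAzF)))) (BT.Fa_leaf (P := Itm.ok 420) (show Itm.ok 420 (.pat 1616 xNFzE2B3B2EzF_rNFzAzE2A2Ax3xA2AyEzAzF) from (POK.mono (by decide) xNFzE2B3B2EzF_rNFzAzE2A2Ax3xA2AyEzAzF_ok)))) (BT.Fa_mk (BT.Fa_leaf (P := Itm.ok 420) (show Itm.ok 420 (.pat 1640 xNFzE2ByAx3xA2EzF)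 from (POK.mono (by decide) pokNFzE2ByAx3xA2EzF))) (BT.Fa_leaf (P := Itm.ok 420) (show Itm.ok 420 (.pat 1658 xNFzE2B3B2EzF_rNFzE2ByAx3xA2EzF) from (POK.mono (by decide) xNFzE2B3B2EzF_rNFzE2ByAx3xA2EzF_ok))))) (BT.Fa_mk (BT.Fa_mk (BT.Fa_leaf (P := Itm.ok 420) (show Itm.ok 420 (.pat 1676 xNFzE2Bx3yB2EzF) from (POK.mono (by decide) pokNFzE2Bx3yB2EzF))) (BT.Fa_leaf (P := Itm.ok 420) (show Itm.ok 420 (.pat 1692 xNFzE2B3B2EzF_rNFzE2Bx3yB2EzF) from (POK.mono (by decide) xNFzE2B3B2EzF_rNFzE2Bx3yB2EzF_ok)))) (BT.Fa_mk (BT.Fa_leaf (P := Itm.ok 420) (show Itm.ok 420 (.pat 1708 xNFzE2By3yB2EzF) from (POK.mono (by decide) pokNFzE2By3yB2EzF))) (BT.Fa_leaf (P := Itm.ok 420) (show Itm.ok 420 (.pat 1724 xNFzE2ByAx3xAyB2EzF) from (POK.mono (by decide) pokNFzE2ByAx3xAyB2EzF)))))))))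

/-- all words of the class have labels -/
theorem pokNFzE2B3B2EzF : POK 420 xNFzE2B3B2EzF :=
  y_pok (C0 := ceNFzE2B3B2EzF) (C1 := coNFzE2B3B2EzF) topNFzE2B3B2EzF nbNFzE2B3B2EzF (BT.Fa_of_all iiNFzE2B3B2EzF_c)
    (cyE_spec zeNFzE2B3B2EzF_0)
    (cyO_spec zoNFzE2B3B2EzF_0)
    iiNFzE2B3B2EzF_k

theorem xNFzE2B3I3B2E_rNA2CzE2B3I3B2E_ok : POK 420 xNFzE2B3I3B2E_rNA2CzE2B3I3B2E := POK.rev' pokNA2CzE2B3I3B2E (by decide +kernel)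

theorem xNFzE2B3I3B2E_rNCzE2B3I3B2E_ok : POK 420 xNFzE2B3I3B2E_rNCzE2B3I3B2E := POK.rev' pokNCzE2B3I3B2E (by decide +kernel)

theorem xNFzE2B3I3B2E_rNE2A3xI3AyB2EzAzAyF_ok : POK 420 xNFzE2B3I3B2E_rNE2A3xI3AyB2EzAzAyF := POK.rev' pokNE2A3xI3AyB2EzAzAyF (by decide +kernel)

theorem xNFzE2B3I3B2E_rNE2A3xI3AyB2EzAzAzF_ok : POK 420 xNFzE2B3I3B2E_rNE2A3xI3AyB2EzAzAzF := POK.rev' pokNE2A3xI3AyB2EzAzAzF (by decide +kernel)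

theorem xNFzE2B3I3B2E_rNE2B3B2H2BzIzA3B2EzF_ok : POK 420 xNFzE2B3I3B2E_rNE2B3B2H2BzIzA3B2EzF := POK.rev' pokNE2B3B2H2BzIzA3B2EzF (by decide +kernel)

theorem xNFzE2B3I3B2E_rNE2B3B2H2BzIzAyB3B2EzF_ok : POK 420 xNFzE2B3I3B2E_rNE2B3B2H2BzIzAyB3B2EzF := POK.rev' pokNE2B3B2H2BzIzAyB3B2EzF (by decide +kernel)

theorem xNFzE2B3I3B2E_rNE2B3B2H2BzIzAyB3H3B2EzF_ok : POK 420 xNFzE2B3I3B2E_rNE2B3B2H2BzIzAyB3H3B2EzF := POK.rev' pokNE2B3B2H2BzIzAyB3H3B2EzF (by decide +kernel)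

theorem xNFzE2B3I3B2E_rNE2B3H2BzH3B2EzA2A2F_ok : POK 420 xNFzE2B3I3B2E_rNE2B3H2BzH3B2EzA2A2F := POK.rev' pokNE2B3H2BzH3B2EzA2A2F (by decide +kernel)

theorem xNFzE2B3I3B2E_rNE2B3H2BzIzB2H3B2EzF_ok : POK 420 xNFzE2B3I3B2E_rNE2B3H2BzIzB2H3B2EzF := POK.rev' pokNE2B3H2BzIzB2H3B2EzF (by decide +kernel)

theorem xNFzE2B3I3B2E_rNF2AzAzE2B3HzB2H3B2E_ok : POK 420 xNFzE2B3I3B2E_rNF2AzAzE2B3HzB2H3B2E := POK.rev' pokNF2AzAzE2B3HzB2H3B2E (by decide +kernel)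

theorem xNFzE2B3I3B2E_rNFyA2AzE2B3HzB2H3B2E_ok : POK 420 xNFzE2B3I3B2E_rNFyA2AzE2B3HzB2H3B2E := POK.rev' pokNFyA2AzE2B3HzB2H3B2E (by decide +kernel)

theorem xNFzE2B3I3B2E_rNFyAzAzE2A3Ix3A2A_ok : POK 420 xNFzE2B3I3B2E_rNFyAzAzE2A3Ix3A2A := POK.rev' pokNFyAzAzE2A3Ix3A2A (by decide +kernel)

theorem xNFzE2B3I3B2E_rNFyAzAzE2A3Ix3A2A2E_ok : POK 420 xNFzE2B3I3B2E_rNFyAzAzE2A3Ix3A2A2E := POK.rev' pokNFyAzAzE2A3Ix3A2A2E (by decide +kernel)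

theorem xNFzE2B3I3B2E_rNFyAzAzE2A3Ix3A2AyE_ok : POK 420 xNFzE2B3I3B2E_rNFyAzAzE2A3Ix3A2AyE := POK.rev' pokNFyAzAzE2A3Ix3A2AyE (by decide +kernel)

theorem xNFzE2B3I3B2E_rNFyAzAzE2A3Ix3AyB2E_ok : POK 420 xNFzE2B3I3B2E_rNFyAzAzE2A3Ix3AyB2E := POK.rev' pokNFyAzAzE2A3Ix3AyB2E (by decide +kernel)

theorem xNFzE2B3I3B2E_rNFyAzAzE2ByA3Ix3AyB2E_ok : POK 420 xNFzE2B3I3B2E_rNFyAzAzE2ByA3Ix3AyB2E := POK.rev' pokNFyAzAzE2ByA3Ix3AyB2E (by decide +kernel)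

theorem xNFzE2B3I3B2E_rNFyAzE2B3HzB2E3B2E_ok : POK 420 xNFzE2B3I3B2E_rNFyAzE2B3HzB2E3B2E := POK.rev' pokNFyAzE2B3HzB2E3B2E (by decide +kernel)

theorem xNFzE2B3I3B2E_rNFyAzE2B3HzB2H3E3B2E_ok : POK 420 xNFzE2B3I3B2E_rNFyAzE2B3HzB2H3E3B2E := POK.rev' pokNFyAzE2B3HzB2H3E3B2E (by decide +kernel)

theorem xNFzE2B3I3B2E_rNFzA2AzE2B3HzB2H3B2E_ok : POK 420 xNFzE2B3I3B2E_rNFzA2AzE2B3HzB2H3B2E := POK.rev' pokNFzA2AzE2B3HzB2H3B2E (by decide +kernel)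

theorem xNFzE2B3I3B2E_rNFzAzAzE2A3Ix3A2E_ok : POK 420 xNFzE2B3I3B2E_rNFzAzAzE2A3Ix3A2E := POK.rev' pokNFzAzAzE2A3Ix3A2E (by decide +kernel)

theorem xNFzE2B3I3B2E_rNFzAzAzE2A3Ix3AyB2E_ok : POK 420 xNFzE2B3I3B2E_rNFzAzAzE2A3Ix3AyB2E := POK.rev' pokNFzAzAzE2A3Ix3AyB2E (by decide +kernel)

theorem xNFzE2B3I3B2E_rNFzAzAzE2ByA3Ix3AyB2E_ok : POK 420 xNFzE2B3I3B2E_rNFzAzAzE2ByA3Ix3AyB2E := POK.rev' pokNFzAzAzE2ByA3Ix3AyB2E (by decide +kernel)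

theorem xNFzE2B3I3B2E_rNFzE2B3BzIzB2B3B2E_ok : POK 420 xNFzE2B3I3B2E_rNFzE2B3BzIzB2B3B2E := POK.rev' pokNFzE2B3BzIzB2B3B2E (by decide +kernel)

theorem xNFzE2B3I3B2E_rNFzE2B3BzIzB2H3B3B2E_ok : POK 420 xNFzE2B3I3B2E_rNFzE2B3BzIzB2H3B3B2E := POK.rev' pokNFzE2B3BzIzB2H3B3B2E (by decide +kernel)

theorem xNFzE2B3I3B2E_rNFzE2B3BzIzB3H3B2E_ok : POK 420 xNFzE2B3I3B2E_rNFzE2B3BzIzB3H3B2E := POK.rev' pokNFzE2B3BzIzB3H3B2E (by decide +kernel)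

theorem xNFzE2B3I3B2E_rNFzE2B3H2BzIzB3H3B2E_ok : POK 420 xNFzE2B3I3B2E_rNFzE2B3H2BzIzB3H3B2E := POK.rev' pokNFzE2B3H2BzIzB3H3B2E (by decide +kernel)

theorem xNFzE2B3I3B2E_rNFzE2B3H3AzIzB2H2B3B2E_ok : POK 420 xNFzE2B3I3B2E_rNFzE2B3H3AzIzB2H2B3B2E := POK.rev' pokNFzE2B3H3AzIzB2H2B3B2E (by decide +kernel)

theorem xNFzE2B3I3B2E_rNFzE2B3H3B2E_ok : POK 420 xNFzE2B3I3B2E_rNFzE2B3H3B2E := POK.rev' pokNFzE2B3H3B2E (by decide +kernel)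

theorem xNFzE2B3I3B2E_rNFzE2B3H3BzIzB2B3B2E_ok : POK 420 xNFzE2B3I3B2E_rNFzE2B3H3BzIzB2B3B2E := POK.rev' pokNFzE2B3H3BzIzB2B3B2E (by decide +kernel)

theorem xNFzE2B3I3B2E_rNFzE2B3H3BzIzB2H3B3B2E_ok : POK 420 xNFzE2B3I3B2E_rNFzE2B3H3BzIzB2H3B3B2E := POK.rev' pokNFzE2B3H3BzIzB2H3B3B2E (by decide +kernel)

theorem xNFzE2B3I3B2E_rNFzE2B3H3BzIzB3H3B2E_ok : POK 420 xNFzE2B3I3B2E_rNFzE2B3H3BzIzB3H3B2E := POK.rev' pokNFzE2B3H3BzIzB3H3B2E (by decide +kernel)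

theorem xNFzE2B3I3B2E_rNFzE2B3HzB3H3B2E_ok : POK 420 xNFzE2B3I3B2E_rNFzE2B3HzB3H3B2E := POK.rev' pokNFzE2B3HzB3H3B2E (by decide +kernel)

theorem xNFzE2B3I3B2E_rNFzE2B3Iy3B2E_ok : POK 420 xNFzE2B3I3B2E_rNFzE2B3Iy3B2E := POK.rev' pokNFzE2B3Iy3B2E (by decide +kernel)

theorem xNFzE2B3I3B2E_rNFzE2B3IzC3B2E_ok : POK 420 xNFzE2B3I3B2E_rNFzE2B3IzC3B2E := POK.rev' pokNFzE2B3IzC3B2E (by decide +kernel)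

theorem iiNFzE2B3I3B2E_k : iiNFzE2B3I3B2E.Fa (Itm.ok 420) := (BT.Fa_mk (BT.Fa_mk (BT.Fa_mk (BT.Fa_mk (BT.Fa_mk (BT.Fa_mk (BT.Fa_mk (BT.Fa_leaf (P := Itm.ok 420) (show Itm.ok 420 (.pat 0 xNFzE2B3IzC3B2E) from (POK.mono (by decide) pokNFzE2B3IzC3B2E))) (BT.Fa_leaf (P := Itm.ok 420) (show Itm.ok 420 (.pat 14 xNFzE2B3I3B2E_rNFzE2B3IzC3B2E) from (POK.mono (by decide) xNFzE2B3I3B2E_rNFzE2B3IzC3B2E_ok)))) (BT.Fa_leaf (P := Itm.ok 420) (show Itm.ok 420 (.pat 28 xNA2CzE2B3I3B2E) from (POK.mono (by decide) pokNA2CzE2B3I3B2E)))) (BT.Fa_mk (BT.Fa_leaf (P := Itm.ok 420) (show Itm.ok 420 (.pat 42 xNFzE2B3I3B2E_rNA2CzE2B3I3B2E) from (POK.mono (by decide) xNFzE2B3I3B2E_rNA2CzE2B3I3B2E_ok))) (BT.Fa_leaf (P := Itm.ok 420) (show Itm.ok 420 (.pat 56 xNFyA2AzE2B3HzB2H3B2E)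 from (POK.mono (by decide) pokNFyA2AzE2B3HzB2H3B2E))))) (BT.Fa_mk (BT.Fa_mk (BT.Fa_leaf (P := Itm.ok 420) (show Itm.ok 420 (.pat 76 xNFzE2B3I3B2E_rNFyA2AzE2B3HzB2H3B2E) from (POK.mono (by decide) xNFzE2B3I3B2E_rNFyA2AzE2B3HzB2H3B2E_ok))) (BT.Fa_leaf (P := Itm.ok 420) (show Itm.ok 420 (.pat 96 xNFzE2B3H2BzIzB3H3B2E) from (POK.mono (by decide) pokNFzE2B3H2BzIzB3H3B2E)))) (BT.Fa_mk (BT.Fa_leaf (P := Itm.ok 420) (show Itm.ok 420 (.pat 116 xNFzE2B3I3B2E_rNFzE2B3H2BzIzB3H3B2E) from (POK.mono (by decide) xNFzE2B3I3B2E_rNFzE2B3H2BzIzB3H3B2E_ok))) (BT.Fa_leaf (P := Itm.ok 420) (show Itm.ok 420 (.pat 136 xNE2B3B2H2BzIzAyB3H3B2EzF) from (POK.mono (by decide) pokNE2B3B2H2BzIzAyB3H3B2EzF)))))) (BT.Fa_mk (BT.Fa_mk (BT.Fa_mk (BT.Fa_leaf (P := Itm.ok 420) (show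 Itm.ok 420 (.pat 160 xNFzE2B3I3B2E_rNE2B3B2H2BzIzAyB3H3B2EzF) from (POK.mono (by decide) xNFzE2B3I3B2E_rNE2B3B2H2BzIzAyB3H3B2EzF_ok))) (BT.Fa_leaf (P := Itm.ok 420) (show Itm.ok 420 (.pat 184 xNFzE2B3H3BzIzB2B3B2E) from (POK.mono (by decide) pokNFzE2B3H3BzIzB2B3B2E)))) (BT.Fa_mk (BT.Fa_leaf (P := Itm.ok 420) (show Itm.ok 420 (.pat 204 xNFzE2B3I3B2E_rNFzE2B3H3BzIzB2B3B2E) from (POK.mono (by decide) xNFzE2B3I3B2E_rNFzE2B3H3BzIzB2B3B2E_ok))) (BT.Fa_leaf (P := Itm.ok 420) (show Itm.ok 420 (.pat 224 xNFzAzAzE2A3Ix3AyB2E) from (POK.mono (by decide) pokNFzAzAzE2A3Ix3AyB2E))))) (BT.Fa_mk (BT.Fa_mk (BT.Fa_leaf (P := Itm.ok 420) (show Itm.ok 420 (.pat 244 xNFzE2B3I3B2E_rNFzAzAzE2A3Ix3AyB2E) from (POK.mono (by decide) xNFzE2B3I3B2E_rNFzAzAzE2A3Ix3AyB2E_ok)))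 (BT.Fa_leaf (P := Itm.ok 420) (show Itm.ok 420 (.pat 264 xNFzA2AzE2B3HzB2H3B2E) from (POK.mono (by decide) pokNFzA2AzE2B3HzB2H3B2E)))) (BT.Fa_mk (BT.Fa_leaf (P := Itm.ok 420) (show Itm.ok 420 (.pat 284 xNFzE2B3I3B2E_rNFzA2AzE2B3HzB2H3B2E) from (POK.mono (by decide) xNFzE2B3I3B2E_rNFzA2AzE2B3HzB2H3B2E_ok))) (BT.Fa_leaf (P := Itm.ok 420) (show Itm.ok 420 (.pat 304 xNFzE2B3BzIzB3H3B2E) from (POK.mono (by decide) pokNFzE2B3BzIzB3H3B2E))))))) (BT.Fa_mk (BT.Fa_mk (BT.Fa_mk (BT.Fa_mk (BT.Fa_mk (BT.Fa_leaf (P := Itm.ok 420) (show Itm.ok 420 (.pat 322 xNFzE2B3I3B2E_rNFzE2B3BzIzB3H3B2E) from (POK.mono (by decide) xNFzE2B3I3B2E_rNFzE2B3BzIzB3H3B2E_ok))) (BT.Fa_leaf (P := Itm.ok 420) (show Itm.ok 420 (.pat 340 xNF2AzAzE2B3HzB2H3B2E) from (POK.mono (by decide)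 pokNF2AzAzE2B3HzB2H3B2E)))) (BT.Fa_leaf (P := Itm.ok 420) (show Itm.ok 420 (.pat 360 xNFzE2B3I3B2E_rNF2AzAzE2B3HzB2H3B2E) from (POK.mono (by decide) xNFzE2B3I3B2E_rNF2AzAzE2B3HzB2H3B2E_ok)))) (BT.Fa_mk (BT.Fa_leaf (P := Itm.ok 420) (show Itm.ok 420 (.pat 380 xNFyAzAzE2A3Ix3A2A2E) from (POK.mono (by decide) pokNFyAzAzE2A3Ix3A2A2E))) (BT.Fa_leaf (P := Itm.ok 420) (show Itm.ok 420 (.pat 400 xNFzE2B3I3B2E_rNFyAzAzE2A3Ix3A2A2E) from (POK.mono (by decide) xNFzE2B3I3B2E_rNFyAzAzE2A3Ix3A2A2E_ok))))) (BT.Fa_mk (BT.Fa_mk (BT.Fa_leaf (P := Itm.ok 420) (show Itm.ok 420 (.pat 420 xNFzE2B3H3BzIzB3H3B2E) from (POK.mono (by decide) pokNFzE2B3H3BzIzB3H3B2E))) (BT.Fa_leaf (P := Itm.ok 420) (show Itm.ok 420 (.pat 440 xNFzE2B3I3B2E_rNFzE2B3H3BzIzB3H3B2E) from (POK.mono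 (by decide) xNFzE2B3I3B2E_rNFzE2B3H3BzIzB3H3B2E_ok)))) (BT.Fa_mk (BT.Fa_leaf (P := Itm.ok 420) (show Itm.ok 420 (.pat 460 xNE2B3H2BzIzB2H3B2EzF) from (POK.mono (by decide) pokNE2B3H2BzIzB2H3B2EzF))) (BT.Fa_leaf (P := Itm.ok 420) (show Itm.ok 420 (.pat 480 xNFzE2B3I3B2E_rNE2B3H2BzIzB2H3B2EzF) from (POK.mono (by decide) xNFzE2B3I3B2E_rNE2B3H2BzIzB2H3B2EzF_ok)))))) (BT.Fa_mk (BT.Fa_mk (BT.Fa_mk (BT.Fa_leaf (P := Itm.ok 420) (show Itm.ok 420 (.pat 500 xNFzE2B3HzB3H3B2E) from (POK.mono (by decide) pokNFzE2B3HzB3H3B2E))) (BT.Fa_leaf (P := Itm.ok 420) (show Itm.ok 420 (.pat 516 xNFzE2B3I3B2E_rNFzE2B3HzB3H3B2E) from (POK.mono (by decide) xNFzE2B3I3B2E_rNFzE2B3HzB3H3B2E_ok)))) (BT.Fa_mk (BT.Fa_leaf (P := Itm.ok 420) (show Itm.ok 420 (.pat 532 xNE2B3B2H2BzIzA3B2EzF)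 from (POK.mono (by decide) pokNE2B3B2H2BzIzA3B2EzF))) (BT.Fa_leaf (P := Itm.ok 420) (show Itm.ok 420 (.pat 552 xNFzE2B3I3B2E_rNE2B3B2H2BzIzA3B2EzF) from (POK.mono (by decide) xNFzE2B3I3B2E_rNE2B3B2H2BzIzA3B2EzF_ok))))) (BT.Fa_mk (BT.Fa_mk (BT.Fa_leaf (P := Itm.ok 420) (show Itm.ok 420 (.pat 572 xNFyAzAzE2ByA3Ix3AyB2E) from (POK.mono (by decide) pokNFyAzAzE2ByA3Ix3AyB2E))) (BT.Fa_leaf (P := Itm.ok 420) (show Itm.ok 420 (.pat 594 xNFzE2B3I3B2E_rNFyAzAzE2ByA3Ix3AyB2E) from (POK.mono (by decide) xNFzE2B3I3B2E_rNFyAzAzE2ByA3Ix3AyB2E_ok)))) (BT.Fa_mk (BT.Fa_leaf (P := Itm.ok 420) (show Itm.ok 420 (.pat 616 xNFzE2B3H3AzIzB2H2B3B2E) from (POK.mono (by decide) pokNFzE2B3H3AzIzB2H2B3B2E))) (BT.Fa_leaf (P := Itm.ok 420) (show Itm.ok 420 (.pat 638 xNFzE2B3I3B2E_rNFzE2B3H3AzIzB2H2B3B2E)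 from (POK.mono (by decide) xNFzE2B3I3B2E_rNFzE2B3H3AzIzB2H2B3B2E_ok)))))))) (BT.Fa_mk (BT.Fa_mk (BT.Fa_mk (BT.Fa_mk (BT.Fa_mk (BT.Fa_mk (BT.Fa_leaf (P := Itm.ok 420) (show Itm.ok 420 (.pat 660 xNFzAzAzE2ByA3Ix3AyB2E) from (POK.mono (by decide) pokNFzAzAzE2ByA3Ix3AyB2E))) (BT.Fa_leaf (P := Itm.ok 420) (show Itm.ok 420 (.pat 682 xNFzE2B3I3B2E_rNFzAzAzE2ByA3Ix3AyB2E) from (POK.mono (by decide) xNFzE2B3I3B2E_rNFzAzAzE2ByA3Ix3AyB2E_ok)))) (BT.Fa_leaf (P := Itm.ok 420) (show Itm.ok 420 (.pat 704 xNE2B3H2BzH3B2EzA2A2F) from (POK.mono (by decide) pokNE2B3H2BzH3B2EzA2A2F)))) (BT.Fa_mk (BT.Fa_leaf (P := Itm.ok 420) (show Itm.ok 420 (.pat 724 xNFzE2B3I3B2E_rNE2B3H2BzH3B2EzA2A2F) from (POK.mono (by decide) xNFzE2B3I3B2E_rNE2B3H2BzH3B2EzA2A2F_ok))) (BT.Fa_leaf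 (P := Itm.ok 420) (show Itm.ok 420 (.pat 744 xNCzE2B3I3B2E) from (POK.mono (by decide) pokNCzE2B3I3B2E))))) (BT.Fa_mk (BT.Fa_mk (BT.Fa_leaf (P := Itm.ok 420) (show Itm.ok 420 (.pat 756 xNFzE2B3I3B2E_rNCzE2B3I3B2E) from (POK.mono (by decide) xNFzE2B3I3B2E_rNCzE2B3I3B2E_ok))) (BT.Fa_leaf (P := Itm.ok 420) (show Itm.ok 420 (.pat 768 xNFzE2B3BzIzB2B3B2E) from (POK.mono (by decide) pokNFzE2B3BzIzB2B3B2E)))) (BT.Fa_mk (BT.Fa_leaf (P := Itm.ok 420) (show Itm.ok 420 (.pat 786 xNFzE2B3I3B2E_rNFzE2B3BzIzB2B3B2E) from (POK.mono (by decide) xNFzE2B3I3B2E_rNFzE2B3BzIzB2B3B2E_ok))) (BT.Fa_leaf (P := Itm.ok 420) (show Itm.ok 420 (.pat 804 xNFzE2B3H3BzIzB2H3B3B2E) from (POK.mono (by decide) pokNFzE2B3H3BzIzB2H3B3B2E)))))) (BT.Fa_mk (BT.Fa_mk (BT.Fa_mk (BT.Fa_leaf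 (P := Itm.ok 420) (show Itm.ok 420 (.pat 826 xNFzE2B3I3B2E_rNFzE2B3H3BzIzB2H3B3B2E) from (POK.mono (by decide) xNFzE2B3I3B2E_rNFzE2B3H3BzIzB2H3B3B2E_ok))) (BT.Fa_leaf (P := Itm.ok 420) (show Itm.ok 420 (.pat 848 xNFyAzAzE2A3Ix3A2AyE) from (POK.mono (by decide) pokNFyAzAzE2A3Ix3A2AyE)))) (BT.Fa_mk (BT.Fa_leaf (P := Itm.ok 420) (show Itm.ok 420 (.pat 868 xNFzE2B3I3B2E_rNFyAzAzE2A3Ix3A2AyE) from (POK.mono (by decide) xNFzE2B3I3B2E_rNFyAzAzE2A3Ix3A2AyE_ok))) (BT.Fa_leaf (P := Itm.ok 420) (show Itm.ok 420 (.pat 888 xNE2A3xI3AyB2EzAzAzF) from (POK.mono (by decide) pokNE2A3xI3AyB2EzAzAzF))))) (BT.Fa_mk (BT.Fa_mk (BT.Fa_leaf (P := Itm.ok 420) (show Itm.ok 420 (.pat 908 xNFzE2B3I3B2E_rNE2A3xI3AyB2EzAzAzF) from (POK.mono (by decide) xNFzE2B3I3B2E_rNE2A3xI3AyB2EzAzAzF_ok)))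 (BT.Fa_leaf (P := Itm.ok 420) (show Itm.ok 420 (.pat 928 xNFyAzE2B3HzB2H3E3B2E) from (POK.mono (by decide) pokNFyAzE2B3HzB2H3E3B2E)))) (BT.Fa_mk (BT.Fa_leaf (P := Itm.ok 420) (show Itm.ok 420 (.pat 948 xNFzE2B3I3B2E_rNFyAzE2B3HzB2H3E3B2E) from (POK.mono (by decide) xNFzE2B3I3B2E_rNFyAzE2B3HzB2H3E3B2E_ok))) (BT.Fa_leaf (P := Itm.ok 420) (show Itm.ok 420 (.pat 968 xNFzAzAzE2A3Ix3A2E) from (POK.mono (by decide) pokNFzAzAzE2A3Ix3A2E))))))) (BT.Fa_mk (BT.Fa_mk (BT.Fa_mk (BT.Fa_mk (BT.Fa_mk (BT.Fa_leaf (P := Itm.ok 420) (show Itm.ok 420 (.pat 986 xNFzE2B3I3B2E_rNFzAzAzE2A3Ix3A2E) from (POK.mono (by decide) xNFzE2B3I3B2E_rNFzAzAzE2A3Ix3A2E_ok))) (BT.Fa_leaf (P := Itm.ok 420) (show Itm.ok 420 (.pat 1004 xNFyAzAzE2A3Ix3A2A) from (POK.mono (by decide) pokNFyAzAzE2A3Ix3A2A))))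 (BT.Fa_leaf (P := Itm.ok 420) (show Itm.ok 420 (.pat 1022 xNFzE2B3I3B2E_rNFyAzAzE2A3Ix3A2A) from (POK.mono (by decide) xNFzE2B3I3B2E_rNFyAzAzE2A3Ix3A2A_ok)))) (BT.Fa_mk (BT.Fa_leaf (P := Itm.ok 420) (show Itm.ok 420 (.pat 1040 xNFzE2B3H3B2E) from (POK.mono (by decide) pokNFzE2B3H3B2E))) (BT.Fa_leaf (P := Itm.ok 420) (show Itm.ok 420 (.pat 1052 xNFzE2B3I3B2E_rNFzE2B3H3B2E) from (POK.mono (by decide) xNFzE2B3I3B2E_rNFzE2B3H3B2E_ok))))) (BT.Fa_mk (BT.Fa_mk (BT.Fa_leaf (P := Itm.ok 420) (show Itm.ok 420 (.pat 1064 xNFyAzAzE2A3Ix3AyB2E) from (POK.mono (by decide) pokNFyAzAzE2A3Ix3AyB2E))) (BT.Fa_leaf (P := Itm.ok 420) (show Itm.ok 420 (.pat 1084 xNFzE2B3I3B2E_rNFyAzAzE2A3Ix3AyB2E) from (POK.mono (by decide) xNFzE2B3I3B2E_rNFyAzAzE2A3Ix3AyB2E_ok)))) (BT.Fa_mk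 (BT.Fa_leaf (P := Itm.ok 420) (show Itm.ok 420 (.pat 1104 xNE2B3B2H2BzIzAyB3B2EzF) from (POK.mono (by decide) pokNE2B3B2H2BzIzAyB3B2EzF))) (BT.Fa_leaf (P := Itm.ok 420) (show Itm.ok 420 (.pat 1126 xNFzE2B3I3B2E_rNE2B3B2H2BzIzAyB3B2EzF) from (POK.mono (by decide) xNFzE2B3I3B2E_rNE2B3B2H2BzIzAyB3B2EzF_ok)))))) (BT.Fa_mk (BT.Fa_mk (BT.Fa_mk (BT.Fa_leaf (P := Itm.ok 420) (show Itm.ok 420 (.pat 1148 xNFzE2B3BzIzB2H3B3B2E) from (POK.mono (by decide) pokNFzE2B3BzIzB2H3B3B2E))) (BT.Fa_leaf (P := Itm.ok 420) (show Itm.ok 420 (.pat 1168 xNFzE2B3I3B2E_rNFzE2B3BzIzB2H3B3B2E) from (POK.mono (by decide) xNFzE2B3I3B2E_rNFzE2B3BzIzB2H3B3B2E_ok)))) (BT.Fa_mk (BT.Fa_leaf (P := Itm.ok 420) (show Itm.ok 420 (.pat 1188 xNFzE2B3Iy3B2E) from (POK.mono (by decide) pokNFzE2B3Iy3B2E)))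 (BT.Fa_leaf (P := Itm.ok 420) (show Itm.ok 420 (.pat 1202 xNFzE2B3I3B2E_rNFzE2B3Iy3B2E) from (POK.mono (by decide) xNFzE2B3I3B2E_rNFzE2B3Iy3B2E_ok))))) (BT.Fa_mk (BT.Fa_mk (BT.Fa_leaf (P := Itm.ok 420) (show Itm.ok 420 (.pat 1216 xNFyAzE2B3HzB2E3B2E) from (POK.mono (by decide) pokNFyAzE2B3HzB2E3B2E))) (BT.Fa_leaf (P := Itm.ok 420) (show Itm.ok 420 (.pat 1234 xNFzE2B3I3B2E_rNFyAzE2B3HzB2E3B2E) from (POK.mono (by decide) xNFzE2B3I3B2E_rNFyAzE2B3HzB2E3B2E_ok)))) (BT.Fa_mk (BT.Fa_leaf (P := Itm.ok 420) (show Itm.ok 420 (.pat 1252 xNE2A3xI3AyB2EzAzAyF) from (POK.mono (by decide) pokNE2A3xI3AyB2EzAzAyF))) (BT.Fa_leaf (P := Itm.ok 420) (show Itm.ok 420 (.pat 1272 xNFzE2B3I3B2E_rNE2A3xI3AyB2EzAzAyF) from (POK.mono (by decide) xNFzE2B3I3B2E_rNE2A3xI3AyB2EzAzAyF_ok)))))))))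

/-- all words of the class have labels -/
theorem pokNFzE2B3I3B2E : POK 420 xNFzE2B3I3B2E :=
  y_pok (C0 := ceNFzE2B3I3B2E) (C1 := coNFzE2B3I3B2E) topNFzE2B3I3B2E nbNFzE2B3I3B2E (BT.Fa_of_all iiNFzE2B3I3B2E_c)
    (cyE_spec zeNFzE2B3I3B2E_0)
    (cyO_spec zoNFzE2B3I3B2E_0)
    iiNFzE2B3I3B2E_k


end MPb6P
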