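import Pool.Agent.Lib.MP_b6d339_lc.Cw.F1
import Pool.Agent.Lib.MP_b6d339_lc.Cw.F6
import Pool.Agent.Lib.MP_b6d339_lc.Cw.F8
import Pool.Agent.Lib.MP_b6d339_lc.Cw.S7
import Pool.Agent.Lib.MP_b6d339_lc.Cw.XL
import Pool.Agent.Lib.MP_b6d339_lc.Pos.XTreeC
import Pool.Agent.Lib.MP_b6d339_lc.Pos.YQ

/-!
# Erdős 592, three levels: classes of words
-/

namespace MPb6P

theorem xNF3F_rNE3F_ok : POK 420 xNF3F_rNE3F := POK.rev' pokNE3F (by decide +kernel)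

theorem xNF3F_rNFzB3F_ok : POK 420 xNF3F_rNFzB3F := POK.rev' pokNFzB3F (by decide +kernel)

theorem iiNF3F_k : iiNF3F.Fa (Itm.ok 420) := (BT.Fa_mk (BT.Fa_mk (BT.Fa_mk (BT.Fa_leaf (P := Itm.ok 420) (show Itm.ok 420 (.pat 0 xNE3F) from (POK.mono (by decide) pokNE3F))) (BT.Fa_leaf (P := Itm.ok 420) (show Itm.ok 420 (.pat 4 xNF3F_rNE3F) from (POK.mono (by decide) xNF3F_rNE3F_ok)))) (BT.Fa_leaf (P := Itm.ok 420) (show Itm.ok 420 (.pat 8 xNFzB3F) from (POK.mono (by decide) pokNFzB3F)))) (BT.Fa_mk (BT.Fa_leaf (P := Itm.ok 420) (show Itm.ok 420 (.pat 14 xNF3F_rNFzB3F) from (POK.mono (by decide) xNF3F_rNFzB3F_ok))) (BT.Fa_leaf (P := Itm.ok 420) (show Itm.ok 420 (.pat 20 xNFzE2B3B2EzF) from (POK.mono (by decide) pokNFzE2B3B2EzF)))))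

/-- all words of the class have labels -/
theorem pokNF3F : POK 420 xNF3F :=
  y_pok (C0 := ceNF3F) (C1 := coNF3F) topNF3F nbNF3F (BT.Fa_of_all iiNF3F_c)
    (cyE_spec zeNF3F_0)
    (cyO_spec zoNF3F_0)
    iiNF3F_k


end MPb6P
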