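import Pool.Agent.Lib.MP_b6d339_lc.Cw.YE2A3xI3AyB2EzAzAyF
import Pool.Agent.Lib.MP_b6d339_lc.Cw.XL
import Pool.Agent.Lib.MP_b6d339_lc.Cw.T13
import Pool.Agent.Lib.MP_b6d339_lc.Cw.T17
import Pool.Agent.Lib.MP_b6d339_lc.Cw.T21
import Pool.Agent.Lib.MP_b6d339_lc.Cw.T22
import Pool.Agent.Lib.MP_b6d339_lc.Cw.T23
import Pool.Agent.Lib.MP_b6d339_lc.Cw.T24
import Pool.Agent.Lib.MP_b6d339_lc.Cw.T25
import Pool.Agent.Lib.MP_b6d339_lc.Cw.T26
import Pool.Agent.Lib.MP_b6d339_lc.Cw.T27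
import Pool.Agent.Lib.MP_b6d339_lc.Cw.T29
import Pool.Agent.Lib.MP_b6d339_lc.Cw.T30
import Pool.Agent.Lib.MP_b6d339_lc.Cw.T32
import Pool.Agent.Lib.MP_b6d339_lc.Cw.T33
import Pool.Agent.Lib.MP_b6d339_lc.Cw.T35
import Pool.Agent.Lib.MP_b6d339_lc.Cw.T36
import Pool.Agent.Lib.MP_b6d339_lc.Cw.T4
import Pool.Agent.Lib.MP_b6d339_lc.Cw.T5
import Pool.Agent.Lib.MP_b6d339_lc.Cw.T6
import Pool.Agent.Lib.MP_b6d339_lc.Cw.T9

/-!
# Erdős 592, three levels: items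
-/

namespace MPb6P

noncomputable def iiNE2A3xI3AyB2EzAzAyF : BT Itm := (.node (.node (.node (.node (.node (.node (.node (.leaf (.bwd 0 11 tp1420.df)) (.leaf (.bwd 11 21 tp420.df))) (.leaf (.fwd 32 10 tp785.df))) (.node (.leaf (.fwd 42 26 tp1426.df)) (.leaf (.fwd 68 18 tp2049.df)))) (.node (.node (.leaf (.fwd 86 28 tp1896.df)) (.leaf (.fwd 114 33 tp2640.df))) (.node (.leaf (.fwd 147 17 tp1920.df)) (.leaf (.bwd 164 31 tp2103.df))))) (.node (.node (.node (.node (.leaf (.fwd 195 23 tp377.df)) (.leaf (.bwd 218 43 tp1813.df))) (.leaf (.fwd 261 18 tp2415.df))) (.node (.leaf (.bwd 279 24 tp2099.df)) (.leaf (.fwd 303 13 tp2645.df)))) (.node (.node (.leaf (.fwd 316 21 tp2045.df)) (.leaf (.bwd 337 32 tp2140.df))) (.node (.leaf (.fwd 369 19 tp2462.df)) (.leaf (.bwd 388 42 tp1099.df)))))) (.node (.node (.node (.node (.node (.leaf (.bwd 430 28 tp2052.df)) (.leaf (.fwd 458 24 tp2048.df)))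 (.leaf (.fwd 482 29 tp2196.df))) (.node (.leaf (.fwd 511 42 tp2687.df)) (.leaf (.fwd 553 33 tp2131.df)))) (.node (.node (.leaf (.fwd 586 21 tp2141.df)) (.leaf (.fwd 607 29 tp477.df))) (.node (.leaf (.fwd 636 22 tp2683.df)) (.leaf (.bwd 658 20 tp2181.df))))) (.node (.node (.node (.leaf (.bwd 678 31 tp2991.df)) (.leaf (.fwd 709 18 tp1995.df))) (.node (.leaf (.fwd 727 22 tp2133.df)) (.leaf (.bwd 749 37 tp2467.df)))) (.node (.node (.leaf (.bwd 786 30 tp2615.df)) (.leaf (.bwd 816 35 tp359.df))) (.node (.leaf (.fwd 851 16 tp1986.df)) (.leaf (.bwd 867 48 tp375.df))))))) (.node (.node (.node (.node (.node (.node (.leaf (.bwd 915 39 tp2878.df)) (.leaf (.bwd 954 23 tp2075.df))) (.leaf (.fwd 977 48 tp537.df))) (.node (.leaf (.bwd 1025 20 tp2119.df)) (.leaf (.fwd 1045 18 tp2202.df)))) (.node (.node (.leaf (.fwd 1063 22 tp2650.df)) (.leaf (.pat 1085 pq207))) (.node (.leaf (.pat 1133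 pq208)) (.leaf (.pat 1183 pq209))))) (.node (.node (.node (.leaf (.pat 1231 pq210)) (.leaf (.pat 1277 pq211))) (.node (.leaf (.pat 1327 pq212)) (.leaf (.pat 1377 pq213)))) (.node (.node (.leaf (.pat 1425 pq214)) (.leaf (.pat 1473 pq215))) (.node (.leaf (.fwd 1519 21 tp1733.df)) (.leaf (.bwd 1540 25 tp2203.df)))))) (.node (.node (.node (.node (.node (.leaf (.fwd 1565 32 tp2054.df)) (.leaf (.fwd 1597 23 tp725.df))) (.leaf (.pat 1620 pq216))) (.node (.leaf (.pat 1670 pq217)) (.leaf (.pat 1720 pq218)))) (.node (.node (.leaf (.fwd 1778 22 tp2992.df)) (.leaf (.bwd 1800 25 tp2879.df))) (.node (.leaf (.pat 1825 pq219)) (.leaf (.pat 1873 pq220))))) (.node (.node (.node (.leaf (.pat 1921 pq221)) (.leaf (.pat 1975 pq222))) (.node (.leaf (.pat 2023 pq223)) (.leaf (.bwd 2079 14 tp2060.df)))) (.node (.node (.leaf (.bwd 2093 15 tp2993.df)) (.leaf (.pat 2108 pq224))) (.node (.leaf (.pat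 2160 pq225)) (.leaf (.pat 2214 pq226))))))))

theorem iiNE2A3xI3AyB2EzAzAyF_c : iiNE2A3xI3AyB2EzAzAyF.all (itB (ng 48 nnNE2A3xI3AyB2EzAzAyF)) = true := by decide +kernel
theorem nbNE2A3xI3AyB2EzAzAyF : nbB 48 2322 nnNE2A3xI3AyB2EzAzAyF = true := by decide +kernel
theorem topNE2A3xI3AyB2EzAzAyF : topY 2322 ttNE2A3xI3AyB2EzAzAyF ceNE2A3xI3AyB2EzAzAyF xNE2A3xI3AyB2EzAzAyF iiNE2A3xI3AyB2EzAzAyF = true := by decide +kernel

end MPb6P
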