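import Pool.Agent.Lib.MP_b6d339_lc.Cw.YE2B3H2BzIzB2H3B2EzF
import Pool.Agent.Lib.MP_b6d339_lc.Cw.XL
import Pool.Agent.Lib.MP_b6d339_lc.Cw.T10
import Pool.Agent.Lib.MP_b6d339_lc.Cw.T13
import Pool.Agent.Lib.MP_b6d339_lc.Cw.T14
import Pool.Agent.Lib.MP_b6d339_lc.Cw.T15
import Pool.Agent.Lib.MP_b6d339_lc.Cw.T17
import Pool.Agent.Lib.MP_b6d339_lc.Cw.T18
import Pool.Agent.Lib.MP_b6d339_lc.Cw.T19
import Pool.Agent.Lib.MP_b6d339_lc.Cw.T20
import Pool.Agent.Lib.MP_b6d339_lc.Cw.T21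
import Pool.Agent.Lib.MP_b6d339_lc.Cw.T22
import Pool.Agent.Lib.MP_b6d339_lc.Cw.T23
import Pool.Agent.Lib.MP_b6d339_lc.Cw.T24
import Pool.Agent.Lib.MP_b6d339_lc.Cw.T25
import Pool.Agent.Lib.MP_b6d339_lc.Cw.T26
import Pool.Agent.Lib.MP_b6d339_lc.Cw.T27
import Pool.Agent.Lib.MP_b6d339_lc.Cw.T28
import Pool.Agent.Lib.MP_b6d339_lc.Cw.T29
import Pool.Agent.Lib.MP_b6d339_lc.Cw.T3
import Pool.Agent.Lib.MP_b6d339_lc.Cw.T30
import Pool.Agent.Lib.MP_b6d339_lc.Cw.T31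
import Pool.Agent.Lib.MP_b6d339_lc.Cw.T32
import Pool.Agent.Lib.MP_b6d339_lc.Cw.T33
import Pool.Agent.Lib.MP_b6d339_lc.Cw.T4
import Pool.Agent.Lib.MP_b6d339_lc.Cw.T5
import Pool.Agent.Lib.MP_b6d339_lc.Cw.T6
import Pool.Agent.Lib.MP_b6d339_lc.Cw.T7
import Pool.Agent.Lib.MP_b6d339_lc.Cw.T8
import Pool.Agent.Lib.MP_b6d339_lc.Cw.T9

/-!
# Erdős 592, three levels: items
-/

namespace MPb6P

noncomputable def iiNE2B3H2BzIzB2H3B2EzF : BT Itm := (.node (.node (.node (.node (.node (.node (.node (.node (.leaf (.bwd 0 23 tp292.df)) (.leaf (.fwd 23 30 tp2646.df))) (.node (.leaf (.bwd 53 13 tp2406.df)) (.leaf (.fwd 66 6 tp1576.df)))) (.node (.node (.leaf (.bwd 72 6 tp1576.df)) (.leaf (.fwd 78 21 tp295.df))) (.node (.leaf (.bwd 99 21 tp295.df)) (.leaf (.fwd 120 25 tp361.df))))) (.node (.node (.node (.leaf (.bwd 145 25 tp361.df)) (.leaf (.fwd 170 13 tp1387.df))) (.node (.leaf (.bwd 183 29 tp329.df))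 (.leaf (.bwd 212 23 tp366.df)))) (.node (.node (.leaf (.fwd 235 37 tp2647.df)) (.leaf (.fwd 272 28 tp342.df))) (.leaf (.bwd 300 35 tp359.df))))) (.node (.node (.node (.node (.leaf (.fwd 335 21 tp656.df)) (.leaf (.bwd 356 31 tp346.df))) (.node (.leaf (.bwd 387 13 tp1387.df)) (.leaf (.bwd 400 32 tp369.df)))) (.node (.node (.leaf (.fwd 432 13 tp1771.df)) (.leaf (.bwd 445 43 tp529.df))) (.node (.leaf (.bwd 488 13 tp1771.df)) (.leaf (.fwd 501 17 tp608.df))))) (.node (.node (.node (.leaf (.fwd 518 20 tp2317.df)) (.leaf (.bwd 538 19 tp493.df))) (.node (.leaf (.fwd 557 22 tp827.df)) (.leaf (.bwd 579 18 tp1158.df)))) (.node (.node (.leaf (.fwd 597 36 tp1182.df)) (.leaf (.fwd 633 26 tp365.df))) (.leaf (.fwd 659 40 tp416.df)))))) (.node (.node (.node (.node (.node (.leaf (.fwd 699 30 tp1911.df)) (.leaf (.fwd 729 40 tp1658.df))) (.node (.leaf (.fwd 769 13 tp2459.df)) (.leaf (.bwd 782 37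 tp1491.df)))) (.node (.node (.leaf (.fwd 819 18 tp1995.df)) (.leaf (.fwd 837 31 tp2050.df))) (.node (.leaf (.fwd 868 42 tp2547.df)) (.leaf (.fwd 910 21 tp1388.df))))) (.node (.node (.node (.leaf (.bwd 931 14 tp1782.df)) (.leaf (.fwd 945 19 tp2462.df))) (.node (.leaf (.bwd 964 48 tp2434.df)) (.leaf (.fwd 1012 44 tp849.df)))) (.node (.node (.leaf (.bwd 1056 42 tp1099.df)) (.leaf (.bwd 1098 25 tp1945.df))) (.leaf (.bwd 1123 40 tp2062.df))))) (.node (.node (.node (.node (.leaf (.bwd 1163 18 tp1821.df)) (.leaf (.bwd 1181 24 tp2215.df))) (.node (.leaf (.fwd 1205 25 tp1799.df)) (.leaf (.fwd 1230 26 tp2417.df)))) (.node (.node (.leaf (.bwd 1256 39 tp678.df)) (.leaf (.bwd 1295 40 tp2405.df))) (.leaf (.fwd 1335 31 tp1888.df)))) (.node (.node (.node (.leaf (.fwd 1366 16 tp2254.df)) (.leaf (.bwd 1382 26 tp2470.df))) (.node (.leaf (.bwd 1408 43 tp2468.df)) (.leaf (.fwd 1451 32 tp2054.df))))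 (.node (.node (.leaf (.bwd 1483 32 tp2140.df)) (.leaf (.fwd 1515 12 tp1833.df))) (.leaf (.bwd 1527 24 tp2142.df))))))) (.node (.node (.node (.node (.node (.node (.leaf (.bwd 1551 24 tp2411.df)) (.leaf (.bwd 1575 25 tp1994.df))) (.node (.leaf (.fwd 1600 21 tp1817.df)) (.leaf (.bwd 1621 21 tp1889.df)))) (.node (.node (.leaf (.bwd 1642 49 tp2418.df)) (.leaf (.fwd 1691 44 tp2255.df))) (.node (.leaf (.fwd 1735 45 tp2013.df)) (.leaf (.bwd 1780 35 tp2590.df))))) (.node (.node (.node (.leaf (.bwd 1815 40 tp2474.df)) (.leaf (.fwd 1855 27 tp2596.df))) (.node (.leaf (.fwd 1882 50 tp2648.df)) (.leaf (.bwd 1932 38 tp2100.df)))) (.node (.node (.leaf (.fwd 1970 29 tp2649.df)) (.leaf (.fwd 1999 22 tp2650.df))) (.leaf (.fwd 2021 27 tp2456.df))))) (.node (.node (.node (.node (.leaf (.bwd 2048 27 tp2456.df)) (.leaf (.bwd 2075 32 tp1738.df))) (.node (.leaf (.fwd 2107 30 tp1912.df)) (.leaf (.bwd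 2137 44 tp2006.df)))) (.node (.node (.leaf (.bwd 2181 43 tp1941.df)) (.leaf (.fwd 2224 39 tp1916.df))) (.leaf (.fwd 2263 26 tp2651.df)))) (.node (.node (.node (.leaf (.fwd 2289 24 tp2420.df)) (.leaf (.fwd 2313 39 tp2407.df))) (.node (.leaf (.fwd 2352 24 tp2652.df)) (.leaf (.fwd 2376 47 tp2653.df)))) (.node (.node (.leaf (.bwd 2423 39 tp2135.df)) (.leaf (.fwd 2462 29 tp1908.df))) (.leaf (.fwd 2491 39 tp2654.df)))))) (.node (.node (.node (.node (.node (.leaf (.fwd 2530 23 tp322.df)) (.leaf (.bwd 2553 19 tp1798.df))) (.node (.leaf (.bwd 2572 27 tp2253.df)) (.leaf (.fwd 2599 20 tp1774.df)))) (.node (.node (.leaf (.bwd 2619 43 tp1813.df)) (.leaf (.bwd 2662 51 tp1792.df))) (.node (.leaf (.fwd 2713 21 tp1793.df)) (.leaf (.bwd 2734 49 tp1832.df))))) (.node (.node (.node (.leaf (.bwd 2783 28 tp1517.df)) (.leaf (.bwd 2811 25 tp1855.df))) (.node (.leaf (.bwd 2836 32 tp2655.df)) (.leaf (.bwd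 2868 42 tp1468.df)))) (.node (.node (.leaf (.bwd 2910 14 tp2450.df)) (.leaf (.bwd 2924 15 tp2027.df))) (.leaf (.fwd 2939 26 tp2279.df))))) (.node (.node (.node (.node (.leaf (.fwd 2965 28 tp806.df)) (.leaf (.fwd 2993 16 tp1986.df))) (.node (.leaf (.bwd 3009 28 tp2052.df)) (.leaf (.fwd 3037 25 tp433.df)))) (.node (.node (.leaf (.bwd 3062 35 tp1138.df)) (.leaf (.bwd 3097 23 tp2580.df))) (.leaf (.fwd 3120 18 tp2656.df)))) (.node (.node (.node (.leaf (.bwd 3138 37 tp2467.df)) (.leaf (.bwd 3175 28 tp2595.df))) (.node (.leaf (.fwd 3203 18 tp2657.df)) (.leaf (.fwd 3221 27 tp2658.df)))) (.node (.node (.leaf (.fwd 3248 20 tp2659.df)) (.leaf (.bwd 3268 28 tp2503.df))) (.leaf (.fwd 3296 37 tp2660.df)))))))) (.node (.node (.node (.node (.node (.node (.node (.leaf (.bwd 3333 30 tp1516.df)) (.leaf (.fwd 3363 22 tp451.df))) (.node (.leaf (.bwd 3385 17 tp2661.df)) (.leaf (.bwd 3402 29 tp1410.df))))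 (.node (.node (.leaf (.bwd 3431 33 tp2662.df)) (.leaf (.bwd 3464 35 tp2307.df))) (.node (.leaf (.bwd 3499 28 tp2453.df)) (.leaf (.fwd 3527 33 tp2663.df))))) (.node (.node (.node (.leaf (.fwd 3560 30 tp2664.df)) (.leaf (.bwd 3590 33 tp1903.df))) (.node (.leaf (.bwd 3623 45 tp1795.df)) (.leaf (.fwd 3668 51 tp2665.df)))) (.node (.node (.leaf (.bwd 3719 58 tp2666.df)) (.leaf (.bwd 3777 33 tp1159.df))) (.leaf (.bwd 3810 27 tp1868.df))))) (.node (.node (.node (.node (.leaf (.fwd 3837 17 tp1854.df)) (.leaf (.bwd 3854 22 tp2512.df))) (.node (.leaf (.bwd 3876 33 tp2667.df)) (.leaf (.fwd 3909 33 tp2131.df)))) (.node (.node (.leaf (.bwd 3942 40 tp2471.df)) (.leaf (.bwd 3982 29 tp694.df))) (.leaf (.fwd 4011 21 tp1733.df)))) (.node (.node (.node (.leaf (.bwd 4032 25 tp1732.df)) (.leaf (.bwd 4057 35 tp1794.df))) (.node (.leaf (.bwd 4092 23 tp1785.df)) (.leaf (.fwd 4115 15 tp1787.df)))) (.node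 (.node (.leaf (.bwd 4130 45 tp490.df)) (.leaf (.fwd 4175 37 tp532.df))) (.leaf (.bwd 4212 29 tp1801.df)))))) (.node (.node (.node (.node (.node (.leaf (.fwd 4241 37 tp2668.df)) (.leaf (.bwd 4278 44 tp2669.df))) (.node (.leaf (.bwd 4322 30 tp2670.df)) (.leaf (.fwd 4352 23 tp2671.df)))) (.node (.node (.leaf (.bwd 4375 53 tp2672.df)) (.leaf (.bwd 4428 18 tp2673.df))) (.node (.leaf (.fwd 4446 15 tp1747.df)) (.leaf (.fwd 4461 23 tp1770.df))))) (.node (.node (.node (.leaf (.fwd 4484 16 tp2674.df)) (.leaf (.fwd 4500 18 tp2675.df))) (.node (.leaf (.bwd 4518 29 tp2676.df)) (.leaf (.fwd 4547 35 tp2677.df)))) (.node (.node (.leaf (.fwd 4582 22 tp2678.df)) (.leaf (.fwd 4604 39 tp2037.df))) (.leaf (.fwd 4643 29 tp2034.df))))) (.node (.node (.node (.node (.leaf (.fwd 4672 43 tp2429.df)) (.leaf (.fwd 4715 33 tp1919.df))) (.node (.leaf (.bwd 4748 39 tp2421.df)) (.leaf (.bwd 4787 45 tp2139.df))))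 (.node (.node (.leaf (.fwd 4832 25 tp1913.df)) (.leaf (.fwd 4857 34 tp1918.df))) (.leaf (.fwd 4891 45 tp2679.df)))) (.node (.node (.node (.leaf (.fwd 4936 58 tp1937.df)) (.leaf (.bwd 4994 47 tp2680.df))) (.node (.leaf (.bwd 5041 41 tp2461.df)) (.leaf (.bwd 5082 21 tp2431.df)))) (.node (.node (.leaf (.fwd 5103 27 tp2681.df)) (.leaf (.fwd 5130 29 tp1197.df))) (.leaf (.fwd 5159 33 tp1998.df))))))) (.node (.node (.node (.node (.node (.node (.leaf (.bwd 5192 38 tp2682.df)) (.leaf (.bwd 5230 57 tp2404.df))) (.node (.leaf (.fwd 5287 22 tp2683.df)) (.leaf (.fwd 5309 29 tp2684.df)))) (.node (.node (.leaf (.fwd 5338 22 tp2685.df)) (.leaf (.bwd 5360 35 tp2485.df))) (.node (.leaf (.bwd 5395 21 tp2416.df)) (.leaf (.fwd 5416 25 tp1574.df))))) (.node (.node (.node (.leaf (.bwd 5441 19 tp2040.df)) (.leaf (.bwd 5460 18 tp2686.df))) (.node (.leaf (.fwd 5478 23 tp292.df)) (.leaf (.fwd 5501 27 tp815.df))))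 (.node (.node (.leaf (.fwd 5528 27 tp1435.df)) (.leaf (.fwd 5555 42 tp2687.df))) (.leaf (.bwd 5597 28 tp342.df))))) (.node (.node (.node (.node (.leaf (.fwd 5625 35 tp2475.df)) (.leaf (.fwd 5660 43 tp1776.df))) (.node (.leaf (.bwd 5703 25 tp2285.df)) (.leaf (.bwd 5728 28 tp344.df)))) (.node (.node (.leaf (.fwd 5756 32 tp2688.df)) (.leaf (.bwd 5788 34 tp1664.df))) (.leaf (.fwd 5822 23 tp366.df)))) (.node (.node (.node (.leaf (.fwd 5845 29 tp511.df)) (.leaf (.fwd 5874 60 tp2689.df))) (.node (.leaf (.fwd 5934 35 tp1794.df)) (.leaf (.fwd 5969 26 tp1790.df)))) (.node (.node (.leaf (.fwd 5995 35 tp1253.df)) (.leaf (.bwd 6030 23 tp322.df))) (.leaf (.bwd 6053 30 tp299.df)))))) (.node (.node (.node (.node (.node (.leaf (.fwd 6083 45 tp1473.df)) (.leaf (.bwd 6128 36 tp2690.df))) (.node (.leaf (.bwd 6164 30 tp2270.df)) (.leaf (.bwd 6194 27 tp1961.df)))) (.node (.node (.leaf (.bwd 6221 41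 tp2487.df)) (.leaf (.bwd 6262 26 tp514.df))) (.node (.leaf (.fwd 6288 22 tp2019.df)) (.leaf (.fwd 6310 38 tp348.df))))) (.node (.node (.node (.leaf (.fwd 6348 47 tp492.df)) (.leaf (.bwd 6395 23 tp723.df))) (.node (.leaf (.fwd 6418 27 tp2691.df)) (.leaf (.fwd 6445 24 tp354.df)))) (.node (.node (.leaf (.fwd 6469 30 tp316.df)) (.leaf (.bwd 6499 35 tp472.df))) (.leaf (.bwd 6534 39 tp2692.df))))) (.node (.node (.node (.node (.leaf (.bwd 6573 21 tp2693.df)) (.leaf (.bwd 6594 21 tp2424.df))) (.node (.leaf (.fwd 6615 41 tp1162.df)) (.leaf (.bwd 6656 46 tp2526.df)))) (.node (.node (.leaf (.fwd 6702 38 tp1869.df)) (.leaf (.bwd 6740 27 tp2694.df))) (.leaf (.bwd 6767 20 tp2506.df)))) (.node (.node (.node (.leaf (.fwd 6787 37 tp2008.df)) (.leaf (.fwd 6824 29 tp2009.df))) (.node (.leaf (.bwd 6853 38 tp587.df)) (.leaf (.bwd 6891 16 tp2695.df)))) (.node (.node (.leaf (.fwd 6907 32 tp407.df))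 (.leaf (.bwd 6939 36 tp2696.df))) (.leaf (.fwd 6975 50 tp2697.df)))))))))

theorem iiNE2B3H2BzIzB2H3B2EzF_c : iiNE2B3H2BzIzB2H3B2EzF.all (itB (ng 60 nnNE2B3H2BzIzB2H3B2EzF)) = true := by decide +kernel
theorem nbNE2B3H2BzIzB2H3B2EzF : nbB 60 7085 nnNE2B3H2BzIzB2H3B2EzF = true := by decide +kernel
theorem topNE2B3H2BzIzB2H3B2EzF : topY 7085 ttNE2B3H2BzIzB2H3B2EzF ceNE2B3H2BzIzB2H3B2EzF xNE2B3H2BzIzB2H3B2EzF iiNE2B3H2BzIzB2H3B2EzF = true := by decide +kernel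

end MPb6P
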