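import Pool.Agent.Lib.MP_b6d339_lc.Cw.YE2ByA3B2BzIzB3B2EzF
import Pool.Agent.Lib.MP_b6d339_lc.Cw.XL
import Pool.Agent.Lib.MP_b6d339_lc.Cw.T16
import Pool.Agent.Lib.MP_b6d339_lc.Cw.T17
import Pool.Agent.Lib.MP_b6d339_lc.Cw.T19
import Pool.Agent.Lib.MP_b6d339_lc.Cw.T20
import Pool.Agent.Lib.MP_b6d339_lc.Cw.T21
import Pool.Agent.Lib.MP_b6d339_lc.Cw.T22
import Pool.Agent.Lib.MP_b6d339_lc.Cw.T27
import Pool.Agent.Lib.MP_b6d339_lc.Cw.T3
import Pool.Agent.Lib.MP_b6d339_lc.Cw.T4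
import Pool.Agent.Lib.MP_b6d339_lc.Cw.T6
import Pool.Agent.Lib.MP_b6d339_lc.Cw.T7
import Pool.Agent.Lib.MP_b6d339_lc.Cw.T8

/-!
# Erdős 592, three levels: items
-/

namespace MPb6P

noncomputable def iiNE2ByA3B2BzIzB3B2EzF : BT Itm := (.node (.node (.node (.node (.node (.node (.node (.leaf (.fwd 0 61 tp2205.df)) (.leaf (.fwd 61 6 tp1576.df))) (.leaf (.fwd 67 33 tp2206.df))) (.node (.leaf (.fwd 100 59 tp2207.df)) (.leaf (.bwd 159 56 tp2208.df)))) (.node (.node (.node (.leaf (.fwd 215 41 tp2209.df)) (.leaf (.fwd 256 33 tp2210.df))) (.leaf (.fwd 289 49 tp2211.df))) (.node (.leaf (.fwd 338 21 tp295.df)) (.leaf (.bwd 359 25 tp361.df))))) (.node (.node (.node (.node (.leaf (.bwd 384 34 tp1664.df)) (.leaf (.bwd 418 13 tp1771.df))) (.leaf (.bwd 431 29 tp329.df))) (.node (.leaf (.bwd 460 31 tp2212.df)) (.leaf (.bwd 491 21 tp1577.df)))) (.node (.node (.node (.leaf (.fwd 512 24 tp2213.df))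 (.leaf (.fwd 536 29 tp2214.df))) (.leaf (.fwd 565 15 tp1786.df))) (.node (.leaf (.fwd 580 21 tp656.df)) (.leaf (.bwd 601 24 tp2215.df)))))) (.node (.node (.node (.node (.node (.leaf (.bwd 625 13 tp1387.df)) (.leaf (.fwd 638 18 tp622.df))) (.leaf (.fwd 656 37 tp2216.df))) (.node (.leaf (.fwd 693 16 tp2217.df)) (.leaf (.fwd 709 24 tp2218.df)))) (.node (.node (.node (.leaf (.bwd 733 6 tp1576.df)) (.leaf (.bwd 739 23 tp1785.df))) (.leaf (.fwd 762 13 tp2219.df))) (.node (.leaf (.bwd 775 14 tp1782.df)) (.leaf (.fwd 789 15 tp1787.df))))) (.node (.node (.node (.node (.leaf (.fwd 804 36 tp1606.df)) (.leaf (.bwd 840 51 tp1792.df))) (.leaf (.bwd 891 36 tp2220.df))) (.node (.leaf (.bwd 927 23 tp1580.df)) (.leaf (.bwd 950 19 tp1798.df)))) (.node (.node (.node (.leaf (.fwd 969 39 tp1744.df)) (.leaf (.fwd 1008 37 tp1822.df))) (.leaf (.fwd 1045 29 tp2221.df))) (.node (.leaf (.bwd 1074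 23 tp2222.df)) (.leaf (.fwd 1097 20 tp2223.df))))))) (.node (.node (.node (.node (.node (.node (.leaf (.fwd 1117 23 tp2224.df)) (.leaf (.fwd 1140 52 tp2225.df))) (.leaf (.bwd 1192 16 tp2226.df))) (.node (.leaf (.bwd 1208 12 tp1803.df)) (.leaf (.fwd 1220 22 tp2227.df)))) (.node (.node (.node (.leaf (.bwd 1242 36 tp2228.df)) (.leaf (.fwd 1278 31 tp2229.df))) (.leaf (.bwd 1309 29 tp1765.df))) (.node (.leaf (.fwd 1338 32 tp2230.df)) (.leaf (.fwd 1370 34 tp2231.df))))) (.node (.node (.node (.node (.leaf (.fwd 1404 27 tp2232.df)) (.leaf (.fwd 1431 31 tp2233.df))) (.leaf (.bwd 1462 18 tp1821.df))) (.node (.leaf (.fwd 1480 48 tp2234.df)) (.leaf (.bwd 1528 17 tp1823.df)))) (.node (.node (.node (.leaf (.fwd 1545 43 tp1776.df)) (.leaf (.fwd 1588 40 tp1829.df))) (.leaf (.fwd 1628 10 tp1781.df))) (.node (.leaf (.fwd 1638 24 tp2235.df)) (.leaf (.bwd 1662 49 tp1832.df)))))) (.node (.node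 (.node (.node (.node (.leaf (.bwd 1711 23 tp292.df)) (.leaf (.fwd 1734 16 tp1354.df))) (.leaf (.fwd 1750 27 tp2236.df))) (.node (.leaf (.fwd 1777 58 tp2237.df)) (.leaf (.fwd 1835 16 tp2238.df)))) (.node (.node (.node (.leaf (.fwd 1851 21 tp1388.df)) (.leaf (.fwd 1872 20 tp2239.df))) (.leaf (.fwd 1892 23 tp2240.df))) (.node (.leaf (.fwd 1915 21 tp2241.df)) (.leaf (.bwd 1936 19 tp2242.df))))) (.node (.node (.node (.node (.leaf (.bwd 1955 41 tp2243.df)) (.leaf (.fwd 1996 20 tp2244.df))) (.leaf (.bwd 2016 26 tp514.df))) (.node (.leaf (.bwd 2042 47 tp2245.df)) (.leaf (.fwd 2089 33 tp1848.df)))) (.node (.node (.leaf (.fwd 2122 39 tp2246.df)) (.leaf (.fwd 2161 38 tp2247.df))) (.node (.leaf (.bwd 2199 25 tp1855.df)) (.leaf (.fwd 2224 30 tp2248.df))))))))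

theorem iiNE2ByA3B2BzIzB3B2EzF_c : iiNE2ByA3B2BzIzB3B2EzF.all (itB (ng 61 nnNE2ByA3B2BzIzB3B2EzF)) = true := by decide +kernel
theorem nbNE2ByA3B2BzIzB3B2EzF : nbB 61 2315 nnNE2ByA3B2BzIzB3B2EzF = true := by decide +kernel
theorem topNE2ByA3B2BzIzB3B2EzF : topY 2315 ttNE2ByA3B2BzIzB3B2EzF ceNE2ByA3B2BzIzB3B2EzF xNE2ByA3B2BzIzB3B2EzF iiNE2ByA3B2BzIzB3B2EzF = true := by decide +kernel

end MPb6P
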