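import Pool.Agent.Lib.MP_b6d339_lc.Cw.YF2AzAzE2B3HzB2H3B2E
import Pool.Agent.Lib.MP_b6d339_lc.Cw.XL
import Pool.Agent.Lib.MP_b6d339_lc.Cw.T10
import Pool.Agent.Lib.MP_b6d339_lc.Cw.T11
import Pool.Agent.Lib.MP_b6d339_lc.Cw.T14
import Pool.Agent.Lib.MP_b6d339_lc.Cw.T16
import Pool.Agent.Lib.MP_b6d339_lc.Cw.T17
import Pool.Agent.Lib.MP_b6d339_lc.Cw.T18
import Pool.Agent.Lib.MP_b6d339_lc.Cw.T19
import Pool.Agent.Lib.MP_b6d339_lc.Cw.T20
import Pool.Agent.Lib.MP_b6d339_lc.Cw.T21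
import Pool.Agent.Lib.MP_b6d339_lc.Cw.T22
import Pool.Agent.Lib.MP_b6d339_lc.Cw.T23
import Pool.Agent.Lib.MP_b6d339_lc.Cw.T24
import Pool.Agent.Lib.MP_b6d339_lc.Cw.T25
import Pool.Agent.Lib.MP_b6d339_lc.Cw.T26
import Pool.Agent.Lib.MP_b6d339_lc.Cw.T28
import Pool.Agent.Lib.MP_b6d339_lc.Cw.T29
import Pool.Agent.Lib.MP_b6d339_lc.Cw.T3
import Pool.Agent.Lib.MP_b6d339_lc.Cw.T30
import Pool.Agent.Lib.MP_b6d339_lc.Cw.T31
import Pool.Agent.Lib.MP_b6d339_lc.Cw.T32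
import Pool.Agent.Lib.MP_b6d339_lc.Cw.T4
import Pool.Agent.Lib.MP_b6d339_lc.Cw.T5
import Pool.Agent.Lib.MP_b6d339_lc.Cw.T6
import Pool.Agent.Lib.MP_b6d339_lc.Cw.T7
import Pool.Agent.Lib.MP_b6d339_lc.Cw.T9

/-!
# Erdős 592, three levels: items
-/

namespace MPb6P

noncomputable def iiNF2AzAzE2B3HzB2H3B2E : BT Itm := (.node (.node (.node (.node (.node (.node (.node (.leaf (.fwd 0 23 tp292.df)) (.leaf (.fwd 23 30 tp2615.df))) (.node (.leaf (.bwd 53 45 tp2616.df)) (.leaf (.bwd 98 6 tp1576.df)))) (.node (.node (.leaf (.fwd 104 49 tp2617.df)) (.leaf (.bwd 153 48 tp537.df))) (.leaf (.fwd 201 30 tp2270.df)))) (.node (.node (.node (.leaf (.fwd 231 35 tp359.df)) (.leaf (.bwd 266 21 tp295.df))) (.leaf (.fwd 287 30 tp299.df))) (.node (.node (.leaf (.fwd 317 48 tp2434.df)) (.leaf (.bwd 365 25 tp361.df))) (.leaf (.fwd 390 23 tp366.df))))) (.node (.node (.node (.node (.leaf (.bwd 413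 40 tp2618.df)) (.leaf (.bwd 453 25 tp1913.df))) (.leaf (.bwd 478 31 tp2619.df))) (.node (.node (.leaf (.bwd 509 37 tp532.df)) (.leaf (.fwd 546 19 tp493.df))) (.leaf (.fwd 565 23 tp322.df)))) (.node (.node (.node (.leaf (.bwd 588 42 tp2547.df)) (.leaf (.bwd 630 25 tp433.df))) (.leaf (.bwd 655 28 tp806.df))) (.node (.node (.leaf (.bwd 683 18 tp1995.df)) (.leaf (.bwd 701 24 tp354.df))) (.leaf (.bwd 725 13 tp1387.df)))))) (.node (.node (.node (.node (.node (.leaf (.bwd 738 33 tp783.df)) (.leaf (.fwd 771 11 tp1768.df))) (.node (.leaf (.bwd 782 18 tp2415.df)) (.leaf (.fwd 800 17 tp608.df)))) (.node (.node (.leaf (.fwd 817 12 tp2310.df)) (.leaf (.bwd 829 27 tp815.df))) (.leaf (.bwd 856 22 tp827.df)))) (.node (.node (.node (.leaf (.bwd 878 19 tp2620.df)) (.leaf (.fwd 897 11 tp2441.df))) (.leaf (.fwd 908 17 tp2621.df))) (.node (.node (.leaf (.bwd 925 29 tp1197.df)) (.leaf (.fwd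 954 15 tp2027.df))) (.leaf (.fwd 969 25 tp1994.df))))) (.node (.node (.node (.node (.leaf (.fwd 994 14 tp2479.df)) (.leaf (.bwd 1008 15 tp2309.df))) (.leaf (.bwd 1023 16 tp1986.df))) (.node (.node (.leaf (.fwd 1039 40 tp2622.df)) (.leaf (.fwd 1079 29 tp1440.df))) (.leaf (.bwd 1108 37 tp2578.df)))) (.node (.node (.node (.leaf (.bwd 1145 15 tp2623.df)) (.leaf (.fwd 1160 43 tp2624.df))) (.leaf (.fwd 1203 42 tp1468.df))) (.node (.node (.leaf (.bwd 1245 33 tp2131.df)) (.leaf (.bwd 1278 31 tp2050.df))) (.leaf (.fwd 1309 40 tp2062.df))))))) (.node (.node (.node (.node (.node (.node (.leaf (.fwd 1349 45 tp2139.df)) (.leaf (.fwd 1394 37 tp2467.df))) (.node (.leaf (.fwd 1431 36 tp2625.df)) (.leaf (.fwd 1467 40 tp2471.df)))) (.node (.node (.leaf (.bwd 1507 10 tp1783.df)) (.leaf (.fwd 1517 25 tp1945.df))) (.leaf (.bwd 1542 26 tp2417.df)))) (.node (.node (.node (.leaf (.fwd 1568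 46 tp1659.df)) (.leaf (.bwd 1614 13 tp2459.df))) (.leaf (.fwd 1627 40 tp2138.df))) (.node (.node (.leaf (.fwd 1667 35 tp2306.df)) (.leaf (.fwd 1702 32 tp2140.df))) (.leaf (.bwd 1734 19 tp2462.df))))) (.node (.node (.node (.node (.leaf (.fwd 1753 45 tp2627.df)) (.leaf (.fwd 1798 18 tp2628.df))) (.leaf (.bwd 1816 23 tp366.df))) (.node (.node (.leaf (.fwd 1839 13 tp1387.df)) (.leaf (.fwd 1852 13 tp1771.df))) (.leaf (.fwd 1865 46 tp2629.df)))) (.node (.node (.node (.leaf (.fwd 1911 46 tp2630.df)) (.leaf (.bwd 1957 26 tp2556.df))) (.leaf (.fwd 1983 20 tp2119.df))) (.node (.node (.leaf (.fwd 2003 26 tp2631.df)) (.leaf (.fwd 2029 29 tp329.df))) (.leaf (.bwd 2058 30 tp316.df)))))) (.node (.node (.node (.node (.node (.leaf (.bwd 2088 12 tp2548.df)) (.leaf (.bwd 2100 16 tp2632.df))) (.leaf (.bwd 2116 41 tp2633.df))) (.node (.node (.leaf (.bwd 2157 15 tp1787.df)) (.leaf (.fwd 2172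 15 tp2634.df))) (.leaf (.fwd 2187 35 tp352.df)))) (.node (.node (.node (.leaf (.fwd 2222 29 tp1765.df)) (.leaf (.fwd 2251 29 tp2057.df))) (.leaf (.fwd 2280 28 tp344.df))) (.node (.node (.leaf (.bwd 2308 19 tp2039.df)) (.leaf (.bwd 2327 29 tp846.df))) (.leaf (.fwd 2356 28 tp342.df))))) (.node (.node (.node (.node (.leaf (.bwd 2384 33 tp2635.df)) (.leaf (.fwd 2417 28 tp2052.df))) (.leaf (.fwd 2445 25 tp1732.df))) (.node (.node (.leaf (.fwd 2470 17 tp2636.df)) (.leaf (.fwd 2487 22 tp2510.df))) (.leaf (.fwd 2509 21 tp2505.df)))) (.node (.node (.node (.leaf (.bwd 2530 33 tp2614.df)) (.leaf (.bwd 2563 28 tp342.df))) (.leaf (.bwd 2591 16 tp1354.df))) (.node (.node (.leaf (.fwd 2607 47 tp492.df)) (.leaf (.fwd 2654 41 tp962.df))) (.leaf (.bwd 2695 35 tp359.df))))))))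

theorem iiNF2AzAzE2B3HzB2H3B2E_c : iiNF2AzAzE2B3HzB2H3B2E.all (itB (ng 49 nnNF2AzAzE2B3HzB2H3B2E)) = true := by decide +kernel
theorem nbNF2AzAzE2B3HzB2H3B2E : nbB 49 2779 nnNF2AzAzE2B3HzB2H3B2E = true := by decide +kernel
theorem topNF2AzAzE2B3HzB2H3B2E : topY 2779 ttNF2AzAzE2B3HzB2H3B2E ceNF2AzAzE2B3HzB2H3B2E xNF2AzAzE2B3HzB2H3B2E iiNF2AzAzE2B3HzB2H3B2E = true := by decide +kernel

end MPb6P
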