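import Pool.Agent.Lib.MP_b6d339_lc.Cw.YF2AzE2A2Ax3xA2A2EzAyF
import Pool.Agent.Lib.MP_b6d339_lc.Cw.XL
import Pool.Agent.Lib.MP_b6d339_lc.Cw.T3
import Pool.Agent.Lib.MP_b6d339_lc.Cw.T4
import Pool.Agent.Lib.MP_b6d339_lc.Cw.T5
import Pool.Agent.Lib.MP_b6d339_lc.Cw.T6
import Pool.Agent.Lib.MP_b6d339_lc.Cw.T7
import Pool.Agent.Lib.MP_b6d339_lc.Cw.T8
import Pool.Agent.Lib.MP_b6d339_lc.Cw.T9

/-!
# Erdős 592, three levels: items
-/

namespace MPb6P

noncomputable def iiNF2AzE2A2Ax3xA2A2EzAyF : BT Itm := (.node (.node (.node (.node (.node (.node (.node (.node (.leaf (.bwd 0 17 tp608.df)) (.leaf (.bwd 17 11 tp520.df))) (.node (.leaf (.bwd 28 37 tp629.df)) (.leaf (.bwd 65 36 tp630.df)))) (.node (.node (.leaf (.fwd 101 38 tp362.df)) (.leaf (.bwd 139 27 tp331.df))) (.node (.leaf (.bwd 166 37 tp358.df)) (.leaf (.fwd 203 45 tp631.df))))) (.node (.node (.node (.leaf (.fwd 248 23 tp366.df)) (.leaf (.bwd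 271 22 tp408.df))) (.node (.leaf (.bwd 293 46 tp632.df)) (.leaf (.bwd 339 39 tp623.df)))) (.node (.node (.leaf (.fwd 378 22 tp334.df)) (.leaf (.fwd 400 40 tp351.df))) (.leaf (.fwd 440 14 tp633.df))))) (.node (.node (.node (.node (.leaf (.bwd 454 36 tp634.df)) (.leaf (.bwd 490 37 tp635.df))) (.node (.leaf (.bwd 527 29 tp477.df)) (.leaf (.fwd 556 22 tp636.df)))) (.node (.node (.leaf (.bwd 578 35 tp403.df)) (.leaf (.bwd 613 25 tp637.df))) (.node (.leaf (.fwd 638 35 tp638.df)) (.leaf (.bwd 673 23 tp366.df))))) (.node (.node (.node (.leaf (.fwd 696 32 tp639.df)) (.leaf (.fwd 728 31 tp640.df))) (.node (.leaf (.bwd 759 32 tp533.df)) (.leaf (.bwd 791 26 tp367.df)))) (.node (.node (.leaf (.fwd 817 27 tp341.df)) (.leaf (.bwd 844 41 tp534.df))) (.leaf (.fwd 885 36 tp641.df)))))) (.node (.node (.node (.node (.node (.leaf (.bwd 921 43 tp529.df)) (.leaf (.bwd 964 34 tp642.df))) (.node (.leaf (.bwd 998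 21 tp429.df)) (.leaf (.bwd 1019 25 tp643.df)))) (.node (.node (.leaf (.bwd 1044 35 tp644.df)) (.leaf (.fwd 1079 16 tp645.df))) (.node (.leaf (.bwd 1095 11 tp290.df)) (.leaf (.fwd 1106 35 tp472.df))))) (.node (.node (.node (.leaf (.fwd 1141 22 tp646.df)) (.leaf (.bwd 1163 26 tp647.df))) (.node (.leaf (.fwd 1189 24 tp648.df)) (.leaf (.bwd 1213 16 tp649.df)))) (.node (.node (.leaf (.fwd 1229 16 tp650.df)) (.leaf (.fwd 1245 28 tp385.df))) (.leaf (.bwd 1273 22 tp451.df))))) (.node (.node (.node (.node (.leaf (.bwd 1295 33 tp651.df)) (.leaf (.bwd 1328 23 tp652.df))) (.node (.leaf (.fwd 1351 14 tp653.df)) (.leaf (.fwd 1365 33 tp475.df)))) (.node (.node (.leaf (.bwd 1398 26 tp654.df)) (.leaf (.bwd 1424 18 tp462.df))) (.node (.leaf (.bwd 1442 21 tp655.df)) (.leaf (.bwd 1463 27 tp338.df))))) (.node (.node (.node (.leaf (.bwd 1490 21 tp656.df)) (.leaf (.fwd 1511 45 tp657.df))) (.node (.leaf (.fwd 1556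 26 tp658.df)) (.leaf (.bwd 1582 20 tp324.df)))) (.node (.node (.leaf (.bwd 1602 20 tp618.df)) (.leaf (.fwd 1622 29 tp329.df))) (.leaf (.fwd 1651 34 tp431.df))))))) (.node (.node (.node (.node (.node (.node (.leaf (.fwd 1685 25 tp361.df)) (.leaf (.fwd 1710 31 tp346.df))) (.node (.leaf (.fwd 1741 37 tp659.df)) (.leaf (.fwd 1778 51 tp660.df)))) (.node (.node (.leaf (.fwd 1829 27 tp331.df)) (.leaf (.fwd 1856 29 tp661.df))) (.node (.leaf (.fwd 1885 18 tp662.df)) (.leaf (.bwd 1903 40 tp416.df))))) (.node (.node (.node (.leaf (.fwd 1943 48 tp626.df)) (.leaf (.bwd 1991 27 tp481.df))) (.node (.leaf (.bwd 2018 25 tp392.df)) (.leaf (.bwd 2043 23 tp663.df)))) (.node (.node (.leaf (.fwd 2066 36 tp396.df)) (.leaf (.bwd 2102 43 tp664.df))) (.leaf (.fwd 2145 28 tp665.df))))) (.node (.node (.node (.node (.leaf (.bwd 2173 34 tp666.df)) (.leaf (.bwd 2207 24 tp589.df))) (.node (.leaf (.fwd 2231 24 tp667.df))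 (.leaf (.fwd 2255 23 tp668.df)))) (.node (.node (.leaf (.bwd 2278 36 tp669.df)) (.leaf (.fwd 2314 34 tp670.df))) (.node (.leaf (.fwd 2348 41 tp671.df)) (.leaf (.bwd 2389 29 tp398.df))))) (.node (.node (.node (.leaf (.fwd 2418 20 tp672.df)) (.leaf (.fwd 2438 39 tp673.df))) (.node (.leaf (.fwd 2477 20 tp674.df)) (.leaf (.fwd 2497 51 tp406.df)))) (.node (.node (.leaf (.fwd 2548 29 tp675.df)) (.leaf (.fwd 2577 27 tp676.df))) (.leaf (.fwd 2604 35 tp352.df)))))) (.node (.node (.node (.node (.node (.leaf (.fwd 2639 31 tp677.df)) (.leaf (.bwd 2670 32 tp397.df))) (.node (.leaf (.bwd 2702 39 tp678.df)) (.leaf (.bwd 2741 32 tp616.df)))) (.node (.node (.leaf (.fwd 2773 35 tp444.df)) (.leaf (.bwd 2808 35 tp619.df))) (.node (.leaf (.bwd 2843 29 tp504.df)) (.leaf (.bwd 2872 35 tp360.df))))) (.node (.node (.node (.leaf (.fwd 2907 39 tp678.df)) (.leaf (.fwd 2946 29 tp519.df))) (.node (.leaf (.fwd 2975 23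 tp679.df)) (.leaf (.fwd 2998 54 tp680.df)))) (.node (.node (.leaf (.bwd 3052 15 tp446.df)) (.leaf (.bwd 3067 20 tp614.df))) (.leaf (.fwd 3087 19 tp517.df))))) (.node (.node (.node (.node (.leaf (.fwd 3106 18 tp566.df)) (.leaf (.bwd 3124 27 tp681.df))) (.node (.leaf (.bwd 3151 24 tp382.df)) (.leaf (.fwd 3175 39 tp682.df)))) (.node (.node (.leaf (.bwd 3214 20 tp683.df)) (.leaf (.fwd 3234 39 tp345.df))) (.node (.leaf (.fwd 3273 30 tp617.df)) (.leaf (.fwd 3303 34 tp501.df))))) (.node (.node (.node (.leaf (.fwd 3337 27 tp684.df)) (.leaf (.bwd 3364 36 tp685.df))) (.node (.leaf (.bwd 3400 28 tp342.df)) (.leaf (.fwd 3428 38 tp587.df)))) (.node (.node (.leaf (.bwd 3466 22 tp502.df)) (.leaf (.fwd 3488 27 tp686.df))) (.leaf (.fwd 3515 38 tp687.df)))))))) (.node (.node (.node (.node (.node (.node (.node (.leaf (.bwd 3553 38 tp688.df)) (.leaf (.fwd 3591 29 tp689.df))) (.node (.leaf (.bwd 3620 35 tp690.df))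 (.leaf (.fwd 3655 22 tp691.df)))) (.node (.node (.leaf (.fwd 3677 29 tp343.df)) (.leaf (.fwd 3706 23 tp489.df))) (.node (.leaf (.fwd 3729 30 tp299.df)) (.leaf (.fwd 3759 17 tp692.df))))) (.node (.node (.node (.leaf (.fwd 3776 18 tp466.df)) (.leaf (.fwd 3794 28 tp344.df))) (.node (.leaf (.bwd 3822 24 tp693.df)) (.leaf (.fwd 3846 29 tp588.df)))) (.node (.node (.leaf (.fwd 3875 26 tp365.df)) (.leaf (.fwd 3901 37 tp410.df))) (.leaf (.fwd 3938 29 tp694.df))))) (.node (.node (.node (.node (.leaf (.fwd 3967 52 tp695.df)) (.leaf (.fwd 4019 40 tp434.df))) (.node (.leaf (.bwd 4059 28 tp555.df)) (.leaf (.fwd 4087 38 tp513.df)))) (.node (.node (.leaf (.fwd 4125 27 tp696.df)) (.leaf (.fwd 4152 23 tp565.df))) (.node (.leaf (.fwd 4175 30 tp697.df)) (.leaf (.bwd 4205 40 tp351.df))))) (.node (.node (.node (.leaf (.fwd 4245 30 tp698.df)) (.leaf (.fwd 4275 21 tp699.df))) (.node (.leaf (.bwd 4296 26 tp700.df))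 (.leaf (.fwd 4322 18 tp701.df)))) (.node (.node (.leaf (.fwd 4340 36 tp702.df)) (.leaf (.fwd 4376 32 tp369.df))) (.leaf (.bwd 4408 22 tp334.df)))))) (.node (.node (.node (.node (.node (.leaf (.fwd 4430 28 tp578.df)) (.leaf (.fwd 4458 38 tp348.df))) (.node (.leaf (.bwd 4496 32 tp703.df)) (.leaf (.bwd 4528 36 tp704.df)))) (.node (.node (.leaf (.fwd 4564 43 tp705.df)) (.leaf (.bwd 4607 29 tp706.df))) (.node (.leaf (.bwd 4636 28 tp551.df)) (.leaf (.fwd 4664 59 tp707.df))))) (.node (.node (.node (.leaf (.bwd 4723 38 tp708.df)) (.leaf (.bwd 4761 32 tp709.df))) (.node (.leaf (.bwd 4793 34 tp448.df)) (.leaf (.fwd 4827 31 tp710.df)))) (.node (.node (.leaf (.bwd 4858 28 tp711.df)) (.leaf (.fwd 4886 25 tp712.df))) (.leaf (.fwd 4911 31 tp713.df))))) (.node (.node (.node (.node (.leaf (.fwd 4942 37 tp714.df)) (.leaf (.fwd 4979 52 tp715.df))) (.node (.leaf (.fwd 5031 28 tp716.df)) (.leaf (.bwd 5059 40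 tp717.df)))) (.node (.node (.leaf (.bwd 5099 44 tp718.df)) (.leaf (.bwd 5143 24 tp719.df))) (.node (.leaf (.bwd 5167 28 tp720.df)) (.leaf (.bwd 5195 20 tp627.df))))) (.node (.node (.node (.leaf (.bwd 5215 18 tp465.df)) (.leaf (.fwd 5233 32 tp328.df))) (.node (.leaf (.bwd 5265 15 tp721.df)) (.leaf (.bwd 5280 23 tp723.df)))) (.node (.node (.leaf (.bwd 5303 33 tp724.df)) (.leaf (.fwd 5336 23 tp725.df))) (.leaf (.fwd 5359 29 tp726.df))))))) (.node (.node (.node (.node (.node (.node (.leaf (.fwd 5388 17 tp727.df)) (.leaf (.fwd 5405 49 tp729.df))) (.node (.leaf (.bwd 5454 29 tp730.df)) (.leaf (.fwd 5483 31 tp732.df)))) (.node (.node (.leaf (.fwd 5514 27 tp733.df)) (.leaf (.fwd 5541 30 tp571.df))) (.node (.leaf (.fwd 5571 12 tp735.df)) (.leaf (.bwd 5583 34 tp736.df))))) (.node (.node (.node (.leaf (.bwd 5617 20 tp737.df)) (.leaf (.bwd 5637 32 tp738.df))) (.node (.leaf (.fwd 5669 32 tp739.df)) (.leaf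 (.fwd 5701 33 tp740.df)))) (.node (.node (.leaf (.fwd 5734 21 tp741.df)) (.leaf (.bwd 5755 19 tp742.df))) (.leaf (.fwd 5774 23 tp743.df))))) (.node (.node (.node (.node (.leaf (.bwd 5797 22 tp339.df)) (.leaf (.bwd 5819 28 tp344.df))) (.node (.leaf (.bwd 5847 38 tp587.df)) (.leaf (.fwd 5885 41 tp744.df)))) (.node (.node (.leaf (.bwd 5926 25 tp745.df)) (.leaf (.fwd 5951 20 tp746.df))) (.node (.leaf (.bwd 5971 18 tp333.df)) (.leaf (.fwd 5989 36 tp747.df))))) (.node (.node (.node (.leaf (.fwd 6025 34 tp748.df)) (.leaf (.fwd 6059 26 tp749.df))) (.node (.leaf (.fwd 6085 20 tp750.df)) (.leaf (.fwd 6105 32 tp751.df)))) (.node (.node (.leaf (.fwd 6137 19 tp752.df)) (.leaf (.fwd 6156 31 tp753.df))) (.leaf (.fwd 6187 23 tp755.df)))))) (.node (.node (.node (.node (.node (.leaf (.bwd 6210 33 tp756.df)) (.leaf (.fwd 6243 26 tp700.df))) (.node (.leaf (.fwd 6269 41 tp757.df)) (.leaf (.fwd 6310 37 tp581.df))))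 (.node (.node (.leaf (.fwd 6347 49 tp758.df)) (.leaf (.fwd 6396 36 tp759.df))) (.node (.leaf (.fwd 6432 30 tp760.df)) (.leaf (.fwd 6462 30 tp761.df))))) (.node (.node (.node (.leaf (.bwd 6492 21 tp762.df)) (.leaf (.fwd 6513 31 tp764.df))) (.node (.leaf (.fwd 6544 25 tp765.df)) (.leaf (.fwd 6569 23 tp766.df)))) (.node (.node (.leaf (.bwd 6592 48 tp767.df)) (.leaf (.fwd 6640 22 tp768.df))) (.leaf (.bwd 6662 35 tp769.df))))) (.node (.node (.node (.node (.leaf (.fwd 6697 31 tp770.df)) (.leaf (.fwd 6728 29 tp771.df))) (.node (.leaf (.fwd 6757 27 tp772.df)) (.leaf (.fwd 6784 31 tp773.df)))) (.node (.node (.leaf (.fwd 6815 27 tp774.df)) (.leaf (.bwd 6842 42 tp775.df))) (.leaf (.fwd 6884 26 tp776.df)))) (.node (.node (.node (.leaf (.fwd 6910 25 tp778.df)) (.leaf (.fwd 6935 27 tp779.df))) (.node (.leaf (.bwd 6962 28 tp578.df)) (.leaf (.fwd 6990 43 tp454.df)))) (.node (.node (.leaf (.bwd 7033 44 tp780.df))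 (.leaf (.bwd 7077 19 tp781.df))) (.leaf (.fwd 7096 34 tp782.df)))))))))

theorem iiNF2AzE2A2Ax3xA2A2EzAyF_c : iiNF2AzE2A2Ax3xA2A2EzAyF.all (itB (ng 59 nnNF2AzE2A2Ax3xA2A2EzAyF)) = true := by decide +kernel
theorem nbNF2AzE2A2Ax3xA2A2EzAyF : nbB 59 7189 nnNF2AzE2A2Ax3xA2A2EzAyF = true := by decide +kernel
theorem topNF2AzE2A2Ax3xA2A2EzAyF : topY 7189 ttNF2AzE2A2Ax3xA2A2EzAyF ceNF2AzE2A2Ax3xA2A2EzAyF xNF2AzE2A2Ax3xA2A2EzAyF iiNF2AzE2A2Ax3xA2A2EzAyF = true := by decide +kernel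

end MPb6P
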