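import Pool.Agent.Lib.MP_b6d339_lc.Cw.YF2AzEyA2Ax3xA2AyEzAzF
import Pool.Agent.Lib.MP_b6d339_lc.Cw.XL
import Pool.Agent.Lib.MP_b6d339_lc.Cw.T11
import Pool.Agent.Lib.MP_b6d339_lc.Cw.T12
import Pool.Agent.Lib.MP_b6d339_lc.Cw.T13
import Pool.Agent.Lib.MP_b6d339_lc.Cw.T3
import Pool.Agent.Lib.MP_b6d339_lc.Cw.T4
import Pool.Agent.Lib.MP_b6d339_lc.Cw.T5
import Pool.Agent.Lib.MP_b6d339_lc.Cw.T6
import Pool.Agent.Lib.MP_b6d339_lc.Cw.T7
import Pool.Agent.Lib.MP_b6d339_lc.Cw.T8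

/-!
# Erdős 592, three levels: items
-/

namespace MPb6P

noncomputable def iiNF2AzEyA2Ax3xA2AyEzAzF : BT Itm := (.node (.node (.node (.node (.node (.node (.node (.leaf (.fwd 0 16 tp946.df)) (.leaf (.bwd 16 16 tp523.df))) (.leaf (.bwd 32 18 tp607.df))) (.node (.node (.leaf (.bwd 50 23 tp320.df)) (.leaf (.fwd 73 23 tp292.df))) (.leaf (.bwd 96 19 tp326.df)))) (.node (.node (.node (.leaf (.bwd 115 34 tp609.df)) (.leaf (.fwd 149 27 tp481.df))) (.leaf (.fwd 176 29 tp329.df))) (.node (.leaf (.fwd 205 17 tp425.df)) (.leaf (.fwd 222 20 tp614.df))))) (.node (.node (.node (.node (.leaf (.bwd 242 20 tp614.df)) (.leaf (.fwd 262 23 tp1025.df))) (.leaf (.fwd 285 33 tp475.df))) (.node (.leaf (.fwd 318 22 tp334.df)) (.leaf (.bwd 340 22 tp334.df)))) (.node (.node (.node (.leaf (.fwd 362 17 tp1042.df)) (.leaf (.bwd 379 36 tp1043.df))) (.leaf (.fwd 415 26 tp1044.df))) (.node (.leaf (.bwd 441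 17 tp337.df)) (.leaf (.bwd 458 27 tp338.df)))))) (.node (.node (.node (.node (.node (.leaf (.bwd 485 22 tp378.df)) (.leaf (.fwd 507 27 tp341.df))) (.leaf (.fwd 534 28 tp342.df))) (.node (.node (.leaf (.fwd 562 23 tp399.df)) (.leaf (.fwd 585 32 tp369.df))) (.leaf (.fwd 617 19 tp401.df)))) (.node (.node (.node (.leaf (.bwd 636 32 tp447.df)) (.leaf (.bwd 668 35 tp403.df))) (.leaf (.fwd 703 39 tp345.df))) (.node (.leaf (.fwd 742 31 tp346.df)) (.leaf (.fwd 773 25 tp347.df))))) (.node (.node (.node (.node (.leaf (.fwd 798 40 tp434.df)) (.leaf (.fwd 838 38 tp348.df))) (.leaf (.bwd 876 40 tp416.df))) (.node (.leaf (.bwd 916 31 tp349.df)) (.leaf (.bwd 947 32 tp616.df)))) (.node (.node (.node (.leaf (.bwd 979 37 tp376.df)) (.leaf (.fwd 1016 36 tp350.df))) (.leaf (.fwd 1052 35 tp352.df))) (.node (.leaf (.bwd 1087 24 tp354.df)) (.leaf (.fwd 1111 38 tp356.df))))))) (.node (.node (.node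 (.node (.node (.node (.leaf (.bwd 1149 19 tp371.df)) (.leaf (.bwd 1168 47 tp449.df))) (.leaf (.fwd 1215 48 tp1045.df))) (.node (.node (.leaf (.fwd 1263 15 tp577.df)) (.leaf (.bwd 1278 27 tp409.df))) (.leaf (.bwd 1305 14 tp633.df)))) (.node (.node (.node (.leaf (.bwd 1319 28 tp538.df)) (.leaf (.fwd 1347 25 tp361.df))) (.leaf (.bwd 1372 48 tp375.df))) (.node (.leaf (.bwd 1420 29 tp413.df)) (.leaf (.fwd 1449 44 tp364.df))))) (.node (.node (.node (.node (.leaf (.fwd 1493 23 tp366.df)) (.leaf (.fwd 1516 22 tp1046.df))) (.leaf (.bwd 1538 25 tp637.df))) (.node (.leaf (.bwd 1563 22 tp339.df)) (.leaf (.fwd 1585 39 tp678.df)))) (.node (.node (.node (.leaf (.pat 1624 pq90)) (.leaf (.bwd 1666 29 tp588.df))) (.leaf (.fwd 1695 28 tp578.df))) (.node (.leaf (.pat 1723 pq91)) (.leaf (.fwd 1767 40 tp351.df)))))) (.node (.node (.node (.node (.node (.leaf (.bwd 1807 20 tp324.df)) (.leaf (.fwd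 1827 39 tp1047.df))) (.leaf (.fwd 1866 22 tp1048.df))) (.node (.leaf (.fwd 1888 28 tp344.df)) (.leaf (.bwd 1916 33 tp363.df)))) (.node (.node (.node (.leaf (.fwd 1949 30 tp299.df)) (.leaf (.bwd 1979 22 tp408.df))) (.leaf (.bwd 2001 26 tp654.df))) (.node (.leaf (.fwd 2027 22 tp966.df)) (.leaf (.fwd 2049 12 tp1049.df))))) (.node (.node (.node (.node (.leaf (.bwd 2061 14 tp1050.df)) (.leaf (.fwd 2075 45 tp1031.df))) (.leaf (.fwd 2120 18 tp586.df))) (.node (.leaf (.fwd 2138 26 tp384.df)) (.leaf (.bwd 2164 26 tp1051.df)))) (.node (.node (.node (.leaf (.fwd 2190 27 tp518.df)) (.leaf (.fwd 2217 25 tp436.df))) (.leaf (.bwd 2242 33 tp981.df))) (.node (.leaf (.bwd 2275 19 tp1052.df)) (.leaf (.bwd 2294 29 tp944.df))))))))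

theorem iiNF2AzEyA2Ax3xA2AyEzAzF_c : iiNF2AzEyA2Ax3xA2AyEzAzF.all (itB (ng 48 nnNF2AzEyA2Ax3xA2AyEzAzF)) = true := by decide +kernel
theorem nbNF2AzEyA2Ax3xA2AyEzAzF : nbB 48 2371 nnNF2AzEyA2Ax3xA2AyEzAzF = true := by decide +kernel
theorem topNF2AzEyA2Ax3xA2AyEzAzF : topY 2371 ttNF2AzEyA2Ax3xA2AyEzAzF ceNF2AzEyA2Ax3xA2AyEzAzF xNF2AzEyA2Ax3xA2AyEzAzF iiNF2AzEyA2Ax3xA2AyEzAzF = true := by decide +kernel

end MPb6P
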