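import Pool.Agent.Lib.MP_b6d339_lc.Cw.YF2B3I3BzC2F
import Pool.Agent.Lib.MP_b6d339_lc.Cw.XL
import Pool.Agent.Lib.MP_b6d339_lc.Cw.T1
import Pool.Agent.Lib.MP_b6d339_lc.Cw.T2
import Pool.Agent.Lib.MP_b6d339_lc.Cw.T3

/-!
# Erdős 592, three levels: items
-/

namespace MPb6P

noncomputable def iiNF2B3I3BzC2F : BT Itm := (.node (.node (.node (.node (.node (.node (.node (.node (.leaf (.fwd 0 23 tp210.df)) (.leaf (.fwd 23 17 tp211.df))) (.leaf (.fwd 40 18 tp212.df))) (.node (.leaf (.fwd 58 23 tp213.df)) (.leaf (.fwd 81 10 tp214.df)))) (.node (.node (.node (.leaf (.fwd 91 20 tp215.df)) (.leaf (.fwd 111 13 tp216.df))) (.leaf (.bwd 124 23 tp217.df))) (.node (.leaf (.fwd 147 27 tp218.df)) (.leaf (.bwd 174 15 tp219.df))))) (.node (.node (.node (.node (.leaf (.bwd 189 46 tp127.df)) (.leaf (.bwd 235 25 tp220.df))) (.leaf (.fwd 260 22 tp221.df))) (.node (.leaf (.bwd 282 32 tp222.df)) (.leaf (.bwd 314 44 tp223.df)))) (.node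 (.node (.node (.leaf (.bwd 358 36 tp224.df)) (.leaf (.bwd 394 12 tp225.df))) (.leaf (.bwd 406 17 tp226.df))) (.node (.leaf (.bwd 423 18 tp227.df)) (.leaf (.fwd 441 24 tp228.df)))))) (.node (.node (.node (.node (.node (.leaf (.bwd 465 21 tp229.df)) (.leaf (.fwd 486 12 tp230.df))) (.leaf (.bwd 498 41 tp231.df))) (.node (.leaf (.bwd 539 13 tp232.df)) (.leaf (.fwd 552 19 tp233.df)))) (.node (.node (.node (.leaf (.fwd 571 57 tp234.df)) (.leaf (.fwd 628 13 tp235.df))) (.leaf (.bwd 641 13 tp236.df))) (.node (.leaf (.bwd 654 25 tp237.df)) (.leaf (.bwd 679 15 tp238.df))))) (.node (.node (.node (.node (.leaf (.bwd 694 19 tp239.df)) (.leaf (.bwd 713 19 tp240.df))) (.leaf (.bwd 732 16 tp241.df))) (.node (.leaf (.bwd 748 38 tp242.df)) (.leaf (.bwd 786 33 tp243.df)))) (.node (.node (.leaf (.bwd 819 39 tp244.df)) (.leaf (.bwd 858 33 tp245.df))) (.node (.leaf (.bwd 891 6 tp246.df)) (.leaf (.bwd 897 38 tp247.df))))))) (.node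 (.node (.node (.node (.node (.node (.leaf (.fwd 935 22 tp248.df)) (.leaf (.bwd 957 55 tp249.df))) (.leaf (.bwd 1012 18 tp250.df))) (.node (.leaf (.fwd 1030 42 tp251.df)) (.leaf (.fwd 1072 18 tp252.df)))) (.node (.node (.node (.leaf (.bwd 1090 32 tp253.df)) (.leaf (.fwd 1122 30 tp254.df))) (.leaf (.fwd 1152 17 tp255.df))) (.node (.leaf (.fwd 1169 25 tp256.df)) (.leaf (.fwd 1194 28 tp257.df))))) (.node (.node (.node (.node (.leaf (.bwd 1222 39 tp258.df)) (.leaf (.bwd 1261 27 tp259.df))) (.leaf (.bwd 1288 38 tp260.df))) (.node (.leaf (.bwd 1326 33 tp261.df)) (.leaf (.fwd 1359 33 tp262.df)))) (.node (.node (.node (.leaf (.fwd 1392 25 tp263.df)) (.leaf (.bwd 1417 47 tp264.df))) (.leaf (.bwd 1464 21 tp265.df))) (.node (.leaf (.bwd 1485 33 tp266.df)) (.leaf (.bwd 1518 44 tp267.df)))))) (.node (.node (.node (.node (.node (.leaf (.bwd 1562 21 tp268.df)) (.leaf (.bwd 1583 21 tp269.df))) (.leaf (.bwd 1604 22 tp270.df)))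 (.node (.leaf (.bwd 1626 21 tp271.df)) (.leaf (.bwd 1647 51 tp272.df)))) (.node (.node (.node (.leaf (.bwd 1698 56 tp273.df)) (.leaf (.bwd 1754 37 tp274.df))) (.leaf (.bwd 1791 27 tp275.df))) (.node (.leaf (.fwd 1818 18 tp276.df)) (.leaf (.fwd 1836 17 tp277.df))))) (.node (.node (.node (.node (.leaf (.pat 1853 pq0)) (.leaf (.pat 1889 pq1))) (.leaf (.pat 1923 pq2))) (.node (.leaf (.pat 1955 pq3)) (.leaf (.pat 1997 pq4)))) (.node (.node (.leaf (.pat 2039 pq5)) (.leaf (.pat 2077 pq6))) (.node (.leaf (.pat 2115 pq7)) (.leaf (.pat 2153 pq8)))))))) (.node (.node (.node (.node (.node (.node (.node (.leaf (.pat 2199 pq9)) (.leaf (.pat 2237 pq10))) (.leaf (.pat 2277 pq11))) (.node (.leaf (.pat 2313 pq12)) (.leaf (.pat 2357 pq13)))) (.node (.node (.node (.leaf (.pat 2393 pq14)) (.leaf (.pat 2431 pq15))) (.leaf (.pat 2471 pq16))) (.node (.leaf (.pat 2507 pq17)) (.leaf (.pat 2547 pq18))))) (.node (.node (.node (.node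 (.leaf (.pat 2585 pq19)) (.leaf (.pat 2625 pq20))) (.leaf (.pat 2661 pq21))) (.node (.leaf (.pat 2703 pq22)) (.leaf (.pat 2741 pq23)))) (.node (.node (.node (.leaf (.pat 2781 pq24)) (.leaf (.pat 2819 pq25))) (.leaf (.pat 2853 pq26))) (.node (.leaf (.pat 2901 pq27)) (.leaf (.pat 2941 pq28)))))) (.node (.node (.node (.node (.node (.leaf (.pat 2983 pq29)) (.leaf (.pat 3021 pq30))) (.leaf (.pat 3059 pq31))) (.node (.leaf (.pat 3097 pq32)) (.leaf (.pat 3139 pq33)))) (.node (.node (.node (.leaf (.pat 3177 pq34)) (.leaf (.pat 3221 pq35))) (.leaf (.pat 3263 pq36))) (.node (.leaf (.pat 3307 pq37)) (.leaf (.pat 3347 pq38))))) (.node (.node (.node (.node (.leaf (.pat 3381 pq39)) (.leaf (.pat 3421 pq40))) (.leaf (.pat 3463 pq41))) (.node (.leaf (.pat 3505 pq42)) (.leaf (.pat 3545 pq43)))) (.node (.node (.leaf (.pat 3579 pq44)) (.leaf (.pat 3627 pq45))) (.node (.leaf (.pat 3675 pq46)) (.leaf (.pat 3715 pq47))))))) (.node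 (.node (.node (.node (.node (.node (.leaf (.pat 3761 pq48)) (.leaf (.pat 3803 pq49))) (.leaf (.pat 3835 pq50))) (.node (.leaf (.pat 3875 pq51)) (.leaf (.pat 3909 pq52)))) (.node (.node (.node (.leaf (.pat 3953 pq53)) (.leaf (.pat 3999 pq54))) (.leaf (.pat 4041 pq55))) (.node (.leaf (.pat 4083 pq56)) (.leaf (.pat 4125 pq57))))) (.node (.node (.node (.node (.leaf (.pat 4161 pq58)) (.leaf (.pat 4201 pq59))) (.leaf (.pat 4237 pq60))) (.node (.leaf (.pat 4277 pq61)) (.leaf (.pat 4325 pq62)))) (.node (.node (.node (.leaf (.pat 4363 pq63)) (.leaf (.pat 4399 pq64))) (.leaf (.pat 4439 pq65))) (.node (.leaf (.pat 4481 pq66)) (.leaf (.pat 4521 pq67)))))) (.node (.node (.node (.node (.node (.leaf (.pat 4567 pq68)) (.leaf (.pat 4605 pq69))) (.leaf (.pat 4643 pq70))) (.node (.leaf (.pat 4689 pq71)) (.leaf (.pat 4733 pq72)))) (.node (.node (.node (.leaf (.pat 4765 pq73)) (.leaf (.pat 4801 pq74))) (.leaf (.pat 4837 pq75)))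 (.node (.leaf (.pat 4877 pq76)) (.leaf (.bwd 4915 18 tp278.df))))) (.node (.node (.node (.node (.leaf (.bwd 4933 14 tp279.df)) (.leaf (.bwd 4947 25 tp280.df))) (.leaf (.fwd 4972 13 tp98.df))) (.node (.leaf (.pat 4985 pq77)) (.leaf (.pat 5019 pq78)))) (.node (.node (.leaf (.pat 5055 pq79)) (.leaf (.pat 5099 pq80))) (.node (.leaf (.pat 5141 pq81)) (.leaf (.pat 5185 pq82)))))))))

theorem iiNF2B3I3BzC2F_c : iiNF2B3I3BzC2F.all (itB (ng 57 nnNF2B3I3BzC2F)) = true := by decide +kernel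
theorem nbNF2B3I3BzC2F : nbB 57 5284 nnNF2B3I3BzC2F = true := by decide +kernel
theorem topNF2B3I3BzC2F : topY 5284 ttNF2B3I3BzC2F ceNF2B3I3BzC2F xNF2B3I3BzC2F iiNF2B3I3BzC2F = true := by decide +kernel

end MPb6P
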