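import Pool.Agent.Lib.MP_b6d339_lc.Cw.YFyAzAzEyA2Ax3xA2AyEzAzA2F
import Pool.Agent.Lib.MP_b6d339_lc.Cw.XL
import Pool.Agent.Lib.MP_b6d339_lc.Cw.T3
import Pool.Agent.Lib.MP_b6d339_lc.Cw.T4
import Pool.Agent.Lib.MP_b6d339_lc.Cw.T5
import Pool.Agent.Lib.MP_b6d339_lc.Cw.T6
import Pool.Agent.Lib.MP_b6d339_lc.Cw.T7

/-!
# Erdős 592, three levels: items
-/

namespace MPb6P

noncomputable def iiNFyAzAzEyA2Ax3xA2AyEzAzA2F : BT Itm := (.node (.node (.node (.node (.node (.node (.node (.leaf (.fwd 0 43 tp524.df)) (.leaf (.bwd 43 43 tp524.df))) (.node (.leaf (.bwd 86 37 tp525.df)) (.leaf (.fwd 123 32 tp447.df)))) (.node (.node (.leaf (.fwd 155 23 tp526.df)) (.leaf (.fwd 178 22 tp527.df))) (.leaf (.fwd 200 35 tp403.df)))) (.node (.node (.node (.leaf (.bwd 235 35 tp403.df)) (.leaf (.fwd 270 23 tp292.df))) (.node (.leaf (.fwd 293 19 tp326.df)) (.leaf (.bwd 312 19 tp326.df)))) (.node (.node (.leaf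 (.fwd 331 27 tp331.df)) (.leaf (.bwd 358 27 tp331.df))) (.leaf (.fwd 385 45 tp490.df))))) (.node (.node (.node (.node (.leaf (.bwd 430 29 tp477.df)) (.leaf (.fwd 459 28 tp342.df))) (.node (.leaf (.bwd 487 28 tp342.df)) (.leaf (.bwd 515 22 tp334.df)))) (.node (.node (.leaf (.fwd 537 32 tp368.df)) (.leaf (.bwd 569 32 tp368.df))) (.leaf (.bwd 601 31 tp530.df)))) (.node (.node (.node (.leaf (.fwd 632 27 tp341.df)) (.leaf (.bwd 659 27 tp341.df))) (.leaf (.bwd 686 43 tp531.df))) (.node (.node (.leaf (.bwd 729 22 tp378.df)) (.leaf (.bwd 751 37 tp532.df))) (.leaf (.fwd 788 29 tp484.df)))))) (.node (.node (.node (.node (.node (.leaf (.bwd 817 29 tp484.df)) (.leaf (.fwd 846 46 tp552.df))) (.node (.leaf (.bwd 892 32 tp533.df)) (.leaf (.fwd 924 27 tp510.df)))) (.node (.node (.leaf (.bwd 951 28 tp553.df)) (.leaf (.bwd 979 37 tp372.df))) (.leaf (.fwd 1016 38 tp356.df)))) (.node (.node (.node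 (.leaf (.bwd 1054 40 tp554.df)) (.leaf (.bwd 1094 46 tp558.df))) (.node (.leaf (.fwd 1140 29 tp504.df)) (.leaf (.bwd 1169 34 tp535.df)))) (.node (.node (.leaf (.fwd 1203 22 tp536.df)) (.leaf (.bwd 1225 23 tp556.df))) (.leaf (.fwd 1248 48 tp375.df))))) (.node (.node (.node (.node (.leaf (.fwd 1296 32 tp369.df)) (.leaf (.fwd 1328 36 tp350.df))) (.node (.leaf (.bwd 1364 15 tp577.df)) (.leaf (.bwd 1379 35 tp359.df)))) (.node (.node (.leaf (.fwd 1414 25 tp361.df)) (.leaf (.bwd 1439 25 tp361.df))) (.leaf (.fwd 1464 44 tp364.df)))) (.node (.node (.node (.leaf (.bwd 1508 44 tp364.df)) (.leaf (.bwd 1552 33 tp435.df))) (.leaf (.bwd 1585 18 tp507.df))) (.node (.node (.leaf (.fwd 1603 29 tp398.df)) (.leaf (.fwd 1632 25 tp347.df))) (.leaf (.bwd 1657 35 tp360.df))))))) (.node (.node (.node (.node (.node (.node (.leaf (.fwd 1692 31 tp386.df)) (.leaf (.bwd 1723 46 tp550.df))) (.node (.leaf (.bwd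 1769 28 tp555.df)) (.leaf (.bwd 1797 29 tp452.df)))) (.node (.node (.leaf (.fwd 1826 23 tp366.df)) (.leaf (.bwd 1849 22 tp540.df))) (.leaf (.fwd 1871 19 tp478.df)))) (.node (.node (.node (.leaf (.bwd 1890 32 tp516.df)) (.leaf (.fwd 1922 35 tp541.df))) (.node (.leaf (.fwd 1957 34 tp494.df)) (.leaf (.fwd 1991 27 tp542.df)))) (.node (.node (.leaf (.fwd 2018 29 tp509.df)) (.leaf (.fwd 2047 23 tp543.df))) (.leaf (.fwd 2070 32 tp563.df))))) (.node (.node (.node (.node (.leaf (.fwd 2102 33 tp547.df)) (.leaf (.fwd 2135 34 tp499.df))) (.node (.leaf (.fwd 2169 32 tp539.df)) (.leaf (.bwd 2201 45 tp490.df)))) (.node (.node (.leaf (.fwd 2246 37 tp557.df)) (.leaf (.fwd 2283 28 tp578.df))) (.leaf (.bwd 2311 39 tp336.df)))) (.node (.node (.node (.leaf (.bwd 2350 27 tp542.df)) (.leaf (.fwd 2377 28 tp528.df))) (.leaf (.fwd 2405 41 tp534.df))) (.node (.node (.leaf (.bwd 2446 42 tp559.df)) (.leaf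 (.bwd 2488 28 tp579.df))) (.leaf (.fwd 2516 34 tp548.df)))))) (.node (.node (.node (.node (.node (.leaf (.bwd 2550 28 tp528.df)) (.leaf (.fwd 2578 23 tp565.df))) (.node (.leaf (.fwd 2601 18 tp566.df)) (.leaf (.fwd 2619 33 tp560.df)))) (.node (.node (.leaf (.fwd 2652 40 tp554.df)) (.leaf (.fwd 2692 26 tp580.df))) (.leaf (.bwd 2718 45 tp561.df)))) (.node (.node (.node (.leaf (.bwd 2763 27 tp567.df)) (.leaf (.bwd 2790 43 tp568.df))) (.node (.leaf (.bwd 2833 19 tp391.df)) (.leaf (.fwd 2852 28 tp344.df)))) (.node (.node (.leaf (.bwd 2880 37 tp581.df)) (.leaf (.fwd 2917 30 tp582.df))) (.leaf (.bwd 2947 22 tp583.df))))) (.node (.node (.node (.node (.leaf (.bwd 2969 29 tp519.df)) (.leaf (.bwd 2998 23 tp320.df))) (.node (.leaf (.fwd 3021 43 tp531.df)) (.leaf (.bwd 3064 22 tp536.df)))) (.node (.node (.leaf (.fwd 3086 17 tp584.df)) (.leaf (.fwd 3103 22 tp540.df))) (.leaf (.bwd 3125 33 tp585.df))))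 (.node (.node (.node (.leaf (.fwd 3158 18 tp586.df)) (.leaf (.bwd 3176 25 tp423.df))) (.leaf (.fwd 3201 29 tp572.df))) (.node (.node (.leaf (.fwd 3230 40 tp573.df)) (.leaf (.bwd 3270 26 tp419.df))) (.leaf (.bwd 3296 32 tp402.df))))))))

theorem iiNFyAzAzEyA2Ax3xA2AyEzAzA2F_c : iiNFyAzAzEyA2Ax3xA2AyEzAzA2F.all (itB (ng 48 nnNFyAzAzEyA2Ax3xA2AyEzAzA2F)) = true := by decide +kernel
theorem nbNFyAzAzEyA2Ax3xA2AyEzAzA2F : nbB 48 3376 nnNFyAzAzEyA2Ax3xA2AyEzAzA2F = true := by decide +kernel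
theorem topNFyAzAzEyA2Ax3xA2AyEzAzA2F : topY 3376 ttNFyAzAzEyA2Ax3xA2AyEzAzA2F ceNFyAzAzEyA2Ax3xA2AyEzAzA2F xNFyAzAzEyA2Ax3xA2AyEzAzA2F iiNFyAzAzEyA2Ax3xA2AyEzAzA2F = true := by decide +kernel

end MPb6P
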