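import Pool.Agent.Lib.MP_b6d339_lc.Cw.YFyAzE2A2Ax3xA2A2EzAyF
import Pool.Agent.Lib.MP_b6d339_lc.Cw.XL
import Pool.Agent.Lib.MP_b6d339_lc.Cw.T1
import Pool.Agent.Lib.MP_b6d339_lc.Cw.T10
import Pool.Agent.Lib.MP_b6d339_lc.Cw.T11
import Pool.Agent.Lib.MP_b6d339_lc.Cw.T12
import Pool.Agent.Lib.MP_b6d339_lc.Cw.T13
import Pool.Agent.Lib.MP_b6d339_lc.Cw.T14
import Pool.Agent.Lib.MP_b6d339_lc.Cw.T15
import Pool.Agent.Lib.MP_b6d339_lc.Cw.T3
import Pool.Agent.Lib.MP_b6d339_lc.Cw.T4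
import Pool.Agent.Lib.MP_b6d339_lc.Cw.T5
import Pool.Agent.Lib.MP_b6d339_lc.Cw.T6
import Pool.Agent.Lib.MP_b6d339_lc.Cw.T7
import Pool.Agent.Lib.MP_b6d339_lc.Cw.T8
import Pool.Agent.Lib.MP_b6d339_lc.Cw.T9

/-!
# Erdős 592, three levels: items
-/

namespace MPb6P

noncomputable def iiNFyAzE2A2Ax3xA2A2EzAyF : BT Itm := (.node (.node (.node (.node (.node (.node (.node (.node (.node (.leaf (.bwd 0 17 tp608.df)) (.leaf (.fwd 17 34 tp855.df))) (.leaf (.bwd 51 34 tp855.df))) (.node (.node (.leaf (.bwd 85 13 tp307.df)) (.leaf (.fwd 98 35 tp444.df))) (.leaf (.bwd 133 35 tp444.df)))) (.node (.node (.node (.leaf (.fwd 168 23 tp366.df)) (.leaf (.bwd 191 45 tp508.df))) (.leaf (.bwd 236 34 tp501.df))) (.node (.node (.leaf (.fwd 270 25 tp1124.df)) (.leaf (.fwd 295 34 tp501.df))) (.leaf (.fwd 329 37 tp525.df))))) (.node (.node (.node (.node (.leaf (.bwd 366 23 tp366.df)) (.leaf (.fwd 389 42 tp1125.df)))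 (.leaf (.bwd 431 28 tp342.df))) (.node (.node (.leaf (.bwd 459 37 tp358.df)) (.leaf (.bwd 496 26 tp367.df))) (.leaf (.fwd 522 26 tp367.df)))) (.node (.node (.node (.leaf (.fwd 548 40 tp351.df)) (.leaf (.fwd 588 28 tp342.df))) (.leaf (.bwd 616 11 tp290.df))) (.node (.leaf (.bwd 627 28 tp1126.df)) (.leaf (.fwd 655 25 tp361.df)))))) (.node (.node (.node (.node (.node (.leaf (.fwd 680 33 tp560.df)) (.leaf (.bwd 713 26 tp647.df))) (.leaf (.fwd 739 31 tp949.df))) (.node (.node (.leaf (.fwd 770 28 tp1126.df)) (.leaf (.fwd 798 22 tp536.df))) (.leaf (.bwd 820 36 tp1127.df)))) (.node (.node (.node (.leaf (.fwd 856 38 tp587.df)) (.leaf (.bwd 894 31 tp949.df))) (.leaf (.bwd 925 40 tp351.df))) (.node (.leaf (.bwd 965 32 tp984.df)) (.leaf (.fwd 997 37 tp358.df))))) (.node (.node (.node (.node (.leaf (.bwd 1034 27 tp331.df)) (.leaf (.fwd 1061 29 tp477.df))) (.leaf (.fwd 1090 25 tp319.df))) (.node (.node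 (.leaf (.bwd 1115 43 tp529.df)) (.leaf (.bwd 1158 25 tp319.df))) (.leaf (.fwd 1183 39 tp853.df)))) (.node (.node (.node (.leaf (.fwd 1222 28 tp496.df)) (.leaf (.bwd 1250 39 tp853.df))) (.leaf (.fwd 1289 29 tp484.df))) (.node (.leaf (.fwd 1318 22 tp334.df)) (.leaf (.bwd 1340 26 tp365.df))))))) (.node (.node (.node (.node (.node (.node (.leaf (.fwd 1366 32 tp495.df)) (.leaf (.bwd 1398 32 tp533.df))) (.leaf (.bwd 1430 19 tp326.df))) (.node (.node (.leaf (.bwd 1449 34 tp499.df)) (.leaf (.bwd 1483 38 tp348.df))) (.leaf (.fwd 1521 28 tp551.df)))) (.node (.node (.node (.leaf (.bwd 1549 29 tp504.df)) (.leaf (.fwd 1578 23 tp489.df))) (.leaf (.fwd 1601 27 tp1128.df))) (.node (.leaf (.fwd 1628 38 tp800.df)) (.leaf (.bwd 1666 29 tp1129.df))))) (.node (.node (.node (.node (.leaf (.bwd 1695 41 tp534.df)) (.leaf (.fwd 1736 24 tp589.df))) (.leaf (.fwd 1760 42 tp559.df))) (.node (.node (.leaf (.bwd 1802 27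 tp1130.df)) (.leaf (.fwd 1829 24 tp1131.df))) (.leaf (.fwd 1853 17 tp692.df)))) (.node (.node (.node (.leaf (.fwd 1870 32 tp984.df)) (.leaf (.bwd 1902 24 tp589.df))) (.leaf (.bwd 1926 24 tp810.df))) (.node (.leaf (.fwd 1950 31 tp713.df)) (.leaf (.bwd 1981 21 tp1132.df)))))) (.node (.node (.node (.node (.node (.leaf (.fwd 2002 24 tp648.df)) (.leaf (.bwd 2026 24 tp648.df))) (.leaf (.bwd 2050 27 tp1133.df))) (.node (.node (.leaf (.fwd 2077 29 tp1134.df)) (.leaf (.fwd 2106 21 tp1132.df))) (.leaf (.bwd 2127 23 tp489.df)))) (.node (.node (.node (.leaf (.fwd 2150 23 tp556.df)) (.leaf (.fwd 2173 24 tp353.df))) (.leaf (.fwd 2197 26 tp647.df))) (.node (.leaf (.fwd 2223 28 tp555.df)) (.leaf (.bwd 2251 23 tp652.df))))) (.node (.node (.node (.node (.leaf (.bwd 2274 14 tp633.df)) (.leaf (.fwd 2288 18 tp145.df))) (.leaf (.bwd 2306 22 tp1135.df))) (.node (.node (.leaf (.bwd 2328 26 tp432.df)) (.leaf (.bwd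 2354 33 tp1136.df))) (.leaf (.bwd 2387 18 tp662.df)))) (.node (.node (.node (.leaf (.bwd 2405 24 tp354.df)) (.leaf (.fwd 2429 24 tp1122.df))) (.leaf (.bwd 2453 25 tp312.df))) (.node (.leaf (.bwd 2478 36 tp1137.df)) (.leaf (.fwd 2514 34 tp839.df)))))))) (.node (.node (.node (.node (.node (.node (.node (.leaf (.bwd 2548 24 tp693.df)) (.leaf (.bwd 2572 25 tp596.df))) (.leaf (.fwd 2597 29 tp519.df))) (.node (.node (.leaf (.fwd 2626 20 tp614.df)) (.leaf (.fwd 2646 43 tp529.df))) (.leaf (.bwd 2689 38 tp587.df)))) (.node (.node (.node (.leaf (.bwd 2727 29 tp477.df)) (.leaf (.fwd 2756 11 tp290.df))) (.leaf (.fwd 2767 35 tp1138.df))) (.node (.leaf (.fwd 2802 25 tp1139.df)) (.leaf (.fwd 2827 21 tp1140.df))))) (.node (.node (.node (.node (.leaf (.fwd 2848 39 tp1141.df)) (.leaf (.fwd 2887 22 tp789.df))) (.leaf (.bwd 2909 28 tp344.df))) (.node (.node (.leaf (.fwd 2937 29 tp511.df)) (.leaf (.bwd 2966 49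 tp1142.df))) (.leaf (.fwd 3015 36 tp1061.df)))) (.node (.node (.node (.leaf (.bwd 3051 39 tp1143.df)) (.leaf (.fwd 3090 29 tp1144.df))) (.leaf (.fwd 3119 33 tp1136.df))) (.node (.leaf (.bwd 3152 31 tp1145.df)) (.leaf (.fwd 3183 28 tp344.df)))))) (.node (.node (.node (.node (.node (.leaf (.fwd 3211 37 tp1146.df)) (.leaf (.bwd 3248 38 tp1147.df))) (.leaf (.bwd 3286 30 tp1103.df))) (.node (.node (.leaf (.bwd 3316 31 tp863.df)) (.leaf (.fwd 3347 37 tp1148.df))) (.leaf (.bwd 3384 18 tp701.df)))) (.node (.node (.node (.leaf (.fwd 3402 15 tp1149.df)) (.leaf (.fwd 3417 30 tp299.df))) (.leaf (.fwd 3447 29 tp1150.df))) (.node (.leaf (.bwd 3476 22 tp536.df)) (.leaf (.fwd 3498 49 tp1142.df))))) (.node (.node (.node (.node (.leaf (.bwd 3547 17 tp1151.df)) (.leaf (.bwd 3564 38 tp1152.df))) (.leaf (.fwd 3602 28 tp385.df))) (.node (.node (.leaf (.bwd 3630 25 tp347.df)) (.leaf (.fwd 3655 47 tp492.df))) (.leaf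 (.fwd 3702 28 tp578.df)))) (.node (.node (.node (.leaf (.fwd 3730 37 tp1060.df)) (.leaf (.bwd 3767 24 tp897.df))) (.leaf (.bwd 3791 28 tp385.df))) (.node (.leaf (.fwd 3819 46 tp558.df)) (.leaf (.fwd 3865 39 tp1143.df))))))) (.node (.node (.node (.node (.node (.node (.leaf (.bwd 3904 16 tp1153.df)) (.leaf (.bwd 3920 30 tp571.df))) (.leaf (.bwd 3950 24 tp1154.df))) (.node (.node (.leaf (.bwd 3974 32 tp402.df)) (.leaf (.bwd 4006 24 tp382.df))) (.leaf (.fwd 4030 27 tp684.df)))) (.node (.node (.node (.leaf (.fwd 4057 29 tp588.df)) (.leaf (.bwd 4086 30 tp1065.df))) (.leaf (.bwd 4116 22 tp502.df))) (.node (.leaf (.fwd 4138 35 tp541.df)) (.leaf (.fwd 4173 34 tp499.df))))) (.node (.node (.node (.node (.leaf (.bwd 4207 37 tp532.df)) (.leaf (.fwd 4244 19 tp404.df))) (.leaf (.bwd 4263 31 tp530.df))) (.node (.node (.leaf (.fwd 4294 22 tp527.df)) (.leaf (.fwd 4316 35 tp1155.df))) (.leaf (.bwd 4351 31 tp1156.df))))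 (.node (.node (.node (.leaf (.bwd 4382 40 tp575.df)) (.leaf (.bwd 4422 37 tp525.df))) (.leaf (.fwd 4459 27 tp1133.df))) (.node (.leaf (.fwd 4486 26 tp700.df)) (.leaf (.fwd 4512 37 tp1157.df)))))) (.node (.node (.node (.node (.node (.leaf (.fwd 4549 35 tp638.df)) (.leaf (.fwd 4584 18 tp1158.df))) (.leaf (.fwd 4602 24 tp1024.df))) (.node (.node (.leaf (.bwd 4626 27 tp481.df)) (.leaf (.fwd 4653 43 tp531.df))) (.leaf (.fwd 4696 24 tp667.df)))) (.node (.node (.node (.leaf (.bwd 4720 29 tp519.df)) (.leaf (.bwd 4749 21 tp429.df))) (.leaf (.fwd 4770 27 tp331.df))) (.node (.leaf (.bwd 4797 43 tp664.df)) (.leaf (.bwd 4840 32 tp563.df))))) (.node (.node (.node (.node (.leaf (.bwd 4872 33 tp1159.df)) (.leaf (.fwd 4905 22 tp1160.df))) (.leaf (.bwd 4927 28 tp1161.df))) (.node (.node (.leaf (.bwd 4955 37 tp1148.df)) (.leaf (.fwd 4992 27 tp341.df))) (.leaf (.fwd 5019 24 tp974.df)))) (.node (.node (.node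 (.leaf (.fwd 5043 41 tp1162.df)) (.leaf (.fwd 5084 34 tp380.df))) (.leaf (.fwd 5118 33 tp1086.df))) (.node (.leaf (.fwd 5151 26 tp749.df)) (.leaf (.fwd 5177 33 tp1163.df))))))))) (.node (.node (.node (.node (.node (.node (.node (.node (.leaf (.fwd 5210 39 tp682.df)) (.leaf (.bwd 5249 30 tp1164.df))) (.leaf (.fwd 5279 23 tp565.df))) (.node (.node (.leaf (.fwd 5302 24 tp897.df)) (.leaf (.fwd 5326 54 tp1114.df))) (.leaf (.fwd 5380 21 tp741.df)))) (.node (.node (.node (.leaf (.fwd 5401 30 tp1103.df)) (.leaf (.bwd 5431 20 tp417.df))) (.leaf (.bwd 5451 42 tp559.df))) (.node (.leaf (.bwd 5493 28 tp555.df)) (.leaf (.fwd 5521 40 tp1165.df))))) (.node (.node (.node (.node (.leaf (.fwd 5561 30 tp1065.df)) (.leaf (.bwd 5591 40 tp1166.df))) (.leaf (.fwd 5631 27 tp518.df))) (.node (.node (.leaf (.bwd 5658 39 tp623.df)) (.leaf (.fwd 5697 32 tp533.df))) (.leaf (.fwd 5729 22 tp646.df)))) (.node (.node (.node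 (.leaf (.fwd 5751 33 tp1167.df)) (.leaf (.fwd 5784 33 tp606.df))) (.leaf (.bwd 5817 46 tp558.df))) (.node (.leaf (.fwd 5863 35 tp837.df)) (.leaf (.fwd 5898 21 tp1168.df)))))) (.node (.node (.node (.node (.node (.leaf (.fwd 5919 22 tp339.df)) (.leaf (.fwd 5941 24 tp810.df))) (.leaf (.bwd 5965 35 tp644.df))) (.node (.node (.leaf (.fwd 6000 31 tp640.df)) (.leaf (.fwd 6031 33 tp1169.df))) (.leaf (.fwd 6064 37 tp1170.df)))) (.node (.node (.node (.leaf (.bwd 6101 24 tp667.df)) (.leaf (.bwd 6125 28 tp665.df))) (.leaf (.fwd 6153 26 tp1171.df))) (.node (.leaf (.bwd 6179 28 tp1172.df)) (.leaf (.fwd 6207 22 tp502.df))))) (.node (.node (.node (.node (.leaf (.fwd 6229 34 tp736.df)) (.leaf (.bwd 6263 30 tp299.df))) (.leaf (.fwd 6293 39 tp623.df))) (.node (.node (.leaf (.bwd 6332 28 tp496.df)) (.leaf (.bwd 6360 33 tp1163.df))) (.leaf (.bwd 6393 40 tp1165.df)))) (.node (.node (.node (.leaf (.bwd 6433 33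 tp560.df)) (.leaf (.fwd 6466 33 tp1173.df))) (.leaf (.bwd 6499 21 tp1168.df))) (.node (.leaf (.bwd 6520 26 tp1174.df)) (.leaf (.fwd 6546 19 tp1175.df))))))) (.node (.node (.node (.node (.node (.node (.leaf (.fwd 6565 48 tp626.df)) (.leaf (.fwd 6613 26 tp1174.df))) (.leaf (.bwd 6639 30 tp503.df))) (.node (.node (.leaf (.fwd 6669 30 tp503.df)) (.leaf (.fwd 6699 36 tp1090.df))) (.leaf (.fwd 6735 31 tp1156.df)))) (.node (.node (.node (.leaf (.fwd 6766 35 tp1119.df)) (.leaf (.bwd 6801 41 tp1176.df))) (.leaf (.fwd 6842 34 tp1177.df))) (.node (.leaf (.fwd 6876 33 tp1178.df)) (.leaf (.bwd 6909 34 tp1177.df))))) (.node (.node (.node (.node (.leaf (.fwd 6943 33 tp1076.df)) (.leaf (.fwd 6976 27 tp1179.df))) (.leaf (.fwd 7003 28 tp412.df))) (.node (.node (.leaf (.bwd 7031 19 tp1180.df)) (.leaf (.bwd 7050 21 tp1140.df))) (.leaf (.bwd 7071 20 tp324.df)))) (.node (.node (.node (.leaf (.bwd 7091 22 tp789.df))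 (.leaf (.bwd 7113 22 tp334.df))) (.leaf (.fwd 7135 34 tp843.df))) (.node (.leaf (.fwd 7169 21 tp699.df)) (.leaf (.fwd 7190 37 tp532.df)))))) (.node (.node (.node (.node (.node (.leaf (.fwd 7227 28 tp1181.df)) (.leaf (.fwd 7255 35 tp359.df))) (.leaf (.bwd 7290 25 tp436.df))) (.node (.node (.leaf (.bwd 7315 36 tp1182.df)) (.leaf (.bwd 7351 44 tp1183.df))) (.leaf (.fwd 7395 30 tp1184.df)))) (.node (.node (.node (.leaf (.fwd 7425 41 tp1185.df)) (.leaf (.bwd 7466 27 tp510.df))) (.leaf (.fwd 7493 38 tp348.df))) (.node (.leaf (.bwd 7531 35 tp1119.df)) (.leaf (.fwd 7566 30 tp1186.df))))) (.node (.node (.node (.node (.leaf (.fwd 7596 29 tp1187.df)) (.leaf (.bwd 7625 31 tp1188.df))) (.leaf (.bwd 7656 23 tp565.df))) (.node (.node (.leaf (.bwd 7679 35 tp403.df)) (.leaf (.fwd 7714 40 tp1166.df))) (.leaf (.bwd 7754 31 tp713.df)))) (.node (.node (.node (.leaf (.fwd 7785 41 tp534.df)) (.leaf (.bwd 7826 48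 tp626.df))) (.leaf (.bwd 7874 29 tp509.df))) (.node (.leaf (.bwd 7903 27 tp1189.df)) (.leaf (.bwd 7930 33 tp1190.df)))))))) (.node (.node (.node (.node (.node (.node (.node (.leaf (.bwd 7963 31 tp1191.df)) (.leaf (.bwd 7994 22 tp827.df))) (.leaf (.bwd 8016 23 tp1192.df))) (.node (.node (.leaf (.fwd 8039 28 tp1193.df)) (.leaf (.fwd 8067 20 tp1194.df))) (.leaf (.bwd 8087 26 tp1195.df)))) (.node (.node (.node (.leaf (.fwd 8113 33 tp564.df)) (.leaf (.fwd 8146 25 tp1196.df))) (.leaf (.fwd 8171 36 tp759.df))) (.node (.leaf (.bwd 8207 29 tp1197.df)) (.leaf (.bwd 8236 43 tp568.df))))) (.node (.node (.node (.node (.leaf (.bwd 8279 19 tp1198.df)) (.leaf (.bwd 8298 32 tp703.df))) (.leaf (.fwd 8330 20 tp324.df))) (.node (.node (.leaf (.fwd 8350 20 tp1199.df)) (.leaf (.fwd 8370 32 tp1200.df))) (.leaf (.bwd 8402 33 tp1201.df)))) (.node (.node (.node (.leaf (.fwd 8435 40 tp1202.df)) (.leaf (.bwd 8475 31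 tp1203.df))) (.leaf (.bwd 8506 41 tp1204.df))) (.node (.leaf (.fwd 8547 39 tp952.df)) (.leaf (.fwd 8586 17 tp727.df)))))) (.node (.node (.node (.node (.node (.leaf (.fwd 8603 26 tp882.df)) (.leaf (.bwd 8629 30 tp1205.df))) (.leaf (.fwd 8659 28 tp1206.df))) (.node (.node (.leaf (.bwd 8687 21 tp762.df)) (.leaf (.bwd 8708 30 tp1207.df))) (.leaf (.bwd 8738 21 tp1208.df)))) (.node (.node (.node (.leaf (.fwd 8759 22 tp1209.df)) (.leaf (.fwd 8781 15 tp1210.df))) (.leaf (.bwd 8796 29 tp1211.df))) (.node (.leaf (.bwd 8825 18 tp1212.df)) (.leaf (.bwd 8843 15 tp1213.df))))) (.node (.node (.node (.node (.leaf (.fwd 8858 25 tp1214.df)) (.leaf (.bwd 8883 25 tp1215.df))) (.leaf (.bwd 8908 20 tp1216.df))) (.node (.node (.leaf (.bwd 8928 26 tp1217.df)) (.leaf (.fwd 8954 56 tp1218.df))) (.leaf (.fwd 9010 24 tp383.df)))) (.node (.node (.node (.leaf (.fwd 9034 20 tp1219.df)) (.leaf (.fwd 9054 32 tp703.df)))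 (.leaf (.fwd 9086 29 tp1220.df))) (.node (.leaf (.bwd 9115 21 tp1222.df)) (.leaf (.bwd 9136 26 tp1223.df))))))) (.node (.node (.node (.node (.node (.node (.leaf (.bwd 9162 35 tp1224.df)) (.leaf (.fwd 9197 39 tp1225.df))) (.leaf (.bwd 9236 33 tp724.df))) (.node (.node (.leaf (.fwd 9269 24 tp382.df)) (.leaf (.bwd 9293 37 tp1226.df))) (.leaf (.fwd 9330 25 tp1227.df)))) (.node (.node (.node (.leaf (.bwd 9355 26 tp1228.df)) (.leaf (.fwd 9381 33 tp1229.df))) (.leaf (.bwd 9414 40 tp1230.df))) (.node (.leaf (.bwd 9454 36 tp634.df)) (.leaf (.bwd 9490 29 tp1231.df))))) (.node (.node (.node (.node (.leaf (.fwd 9519 17 tp1232.df)) (.leaf (.bwd 9536 26 tp1233.df))) (.leaf (.bwd 9562 22 tp1234.df))) (.node (.node (.leaf (.fwd 9584 34 tp1235.df)) (.leaf (.bwd 9618 37 tp1236.df))) (.leaf (.bwd 9655 22 tp1237.df)))) (.node (.node (.node (.leaf (.bwd 9677 27 tp1238.df)) (.leaf (.bwd 9704 39 tp1239.df))) (.leaf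 (.fwd 9743 39 tp678.df))) (.node (.leaf (.bwd 9782 26 tp1240.df)) (.leaf (.fwd 9808 30 tp1241.df)))))) (.node (.node (.node (.node (.node (.leaf (.bwd 9838 42 tp1102.df)) (.leaf (.fwd 9880 24 tp1154.df))) (.leaf (.bwd 9904 42 tp775.df))) (.node (.node (.leaf (.fwd 9946 30 tp1242.df)) (.leaf (.fwd 9976 26 tp795.df))) (.leaf (.bwd 10002 35 tp1155.df)))) (.node (.node (.node (.leaf (.fwd 10037 34 tp1243.df)) (.leaf (.bwd 10071 33 tp1086.df))) (.leaf (.fwd 10104 25 tp1244.df))) (.node (.leaf (.fwd 10129 32 tp402.df)) (.leaf (.fwd 10161 18 tp300.df))))) (.node (.node (.node (.node (.leaf (.bwd 10179 35 tp1138.df)) (.leaf (.fwd 10214 15 tp1213.df))) (.leaf (.bwd 10229 38 tp1245.df))) (.node (.node (.leaf (.bwd 10267 26 tp807.df)) (.leaf (.bwd 10293 33 tp1246.df))) (.leaf (.bwd 10326 25 tp297.df)))) (.node (.node (.node (.leaf (.bwd 10351 32 tp1247.df)) (.leaf (.fwd 10383 24 tp1248.df))) (.leaf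 (.bwd 10407 35 tp1249.df))) (.node (.leaf (.bwd 10442 39 tp1141.df)) (.leaf (.bwd 10481 18 tp1158.df))))))))))

theorem iiNFyAzE2A2Ax3xA2A2EzAyF_c : iiNFyAzE2A2Ax3xA2A2EzAyF.all (itB (ng 56 nnNFyAzE2A2Ax3xA2A2EzAyF)) = true := by decide +kernel
theorem nbNFyAzE2A2Ax3xA2A2EzAyF : nbB 56 10555 nnNFyAzE2A2Ax3xA2A2EzAyF = true := by decide +kernel
theorem topNFyAzE2A2Ax3xA2A2EzAyF : topY 10555 ttNFyAzE2A2Ax3xA2A2EzAyF ceNFyAzE2A2Ax3xA2A2EzAyF xNFyAzE2A2Ax3xA2A2EzAyF iiNFyAzE2A2Ax3xA2A2EzAyF = true := by decide +kernel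

end MPb6P
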