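import Pool.Agent.Lib.MP_b6d339_lc.Cw.YFyAzEyA2Ax3xA2AyEzAyF
import Pool.Agent.Lib.MP_b6d339_lc.Cw.XL
import Pool.Agent.Lib.MP_b6d339_lc.Cw.T10
import Pool.Agent.Lib.MP_b6d339_lc.Cw.T11
import Pool.Agent.Lib.MP_b6d339_lc.Cw.T12
import Pool.Agent.Lib.MP_b6d339_lc.Cw.T13
import Pool.Agent.Lib.MP_b6d339_lc.Cw.T14
import Pool.Agent.Lib.MP_b6d339_lc.Cw.T15
import Pool.Agent.Lib.MP_b6d339_lc.Cw.T16
import Pool.Agent.Lib.MP_b6d339_lc.Cw.T17
import Pool.Agent.Lib.MP_b6d339_lc.Cw.T3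
import Pool.Agent.Lib.MP_b6d339_lc.Cw.T4
import Pool.Agent.Lib.MP_b6d339_lc.Cw.T5
import Pool.Agent.Lib.MP_b6d339_lc.Cw.T6
import Pool.Agent.Lib.MP_b6d339_lc.Cw.T7
import Pool.Agent.Lib.MP_b6d339_lc.Cw.T8
import Pool.Agent.Lib.MP_b6d339_lc.Cw.T9

/-!
# Erdős 592, three levels: items
-/

namespace MPb6P

noncomputable def iiNFyAzEyA2Ax3xA2AyEzAyF : BT Itm := (.node (.node (.node (.node (.node (.node (.node (.node (.leaf (.fwd 0 25 tp361.df)) (.leaf (.bwd 25 35 tp444.df))) (.node (.leaf (.fwd 60 35 tp444.df)) (.leaf (.fwd 95 40 tp351.df)))) (.node (.node (.leaf (.fwd 135 23 tp292.df)) (.leaf (.fwd 158 35 tp359.df))) (.node (.leaf (.bwd 193 22 tp527.df)) (.leaf (.fwd 215 37 tp1278.df))))) (.node (.node (.node (.leaf (.fwd 252 37 tp532.df)) (.leaf (.bwd 289 23 tp366.df))) (.node (.leaf (.fwd 312 28 tp342.df)) (.leaf (.bwd 340 25 tp361.df)))) (.node (.node (.leaf (.fwd 365 32 tp948.df))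 (.leaf (.bwd 397 41 tp534.df))) (.node (.leaf (.bwd 438 37 tp635.df)) (.leaf (.bwd 475 28 tp538.df)))))) (.node (.node (.node (.node (.leaf (.bwd 503 34 tp499.df)) (.leaf (.fwd 537 48 tp375.df))) (.node (.leaf (.fwd 585 28 tp538.df)) (.leaf (.fwd 613 32 tp495.df)))) (.node (.node (.leaf (.fwd 645 43 tp531.df)) (.leaf (.bwd 688 26 tp1360.df))) (.node (.leaf (.fwd 714 23 tp366.df)) (.leaf (.bwd 737 32 tp948.df))))) (.node (.node (.node (.leaf (.bwd 769 33 tp1163.df)) (.leaf (.fwd 802 33 tp1159.df))) (.node (.leaf (.fwd 835 35 tp638.df)) (.leaf (.bwd 870 32 tp402.df)))) (.node (.node (.leaf (.bwd 902 43 tp531.df)) (.leaf (.bwd 945 32 tp984.df))) (.leaf (.bwd 977 22 tp536.df)))))) (.node (.node (.node (.node (.node (.leaf (.bwd 999 29 tp694.df)) (.leaf (.fwd 1028 41 tp534.df))) (.node (.leaf (.fwd 1069 32 tp984.df)) (.leaf (.bwd 1101 19 tp326.df)))) (.node (.node (.leaf (.bwd 1120 37 tp410.df))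 (.leaf (.bwd 1157 24 tp648.df))) (.node (.leaf (.fwd 1181 19 tp326.df)) (.leaf (.fwd 1200 15 tp577.df))))) (.node (.node (.node (.leaf (.bwd 1215 29 tp588.df)) (.leaf (.bwd 1244 25 tp319.df))) (.node (.leaf (.bwd 1269 15 tp577.df)) (.leaf (.fwd 1284 26 tp514.df)))) (.node (.node (.leaf (.bwd 1310 30 tp1103.df)) (.leaf (.fwd 1340 28 tp551.df))) (.leaf (.bwd 1368 32 tp533.df))))) (.node (.node (.node (.node (.leaf (.fwd 1400 23 tp565.df)) (.leaf (.bwd 1423 23 tp565.df))) (.node (.leaf (.bwd 1446 33 tp435.df)) (.leaf (.bwd 1479 29 tp597.df)))) (.node (.node (.leaf (.fwd 1508 27 tp1130.df)) (.leaf (.bwd 1535 30 tp1361.df))) (.node (.leaf (.bwd 1565 19 tp1175.df)) (.leaf (.bwd 1584 15 tp1149.df))))) (.node (.node (.node (.leaf (.fwd 1599 27 tp1301.df)) (.leaf (.bwd 1626 28 tp342.df))) (.node (.leaf (.fwd 1654 24 tp810.df)) (.leaf (.fwd 1678 28 tp555.df)))) (.node (.node (.leaf (.fwd 1706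 29 tp519.df)) (.leaf (.bwd 1735 27 tp331.df))) (.leaf (.fwd 1762 20 tp324.df))))))) (.node (.node (.node (.node (.node (.node (.leaf (.fwd 1782 22 tp334.df)) (.leaf (.bwd 1804 33 tp1136.df))) (.node (.leaf (.fwd 1837 29 tp504.df)) (.leaf (.bwd 1866 22 tp636.df)))) (.node (.node (.leaf (.bwd 1888 24 tp1091.df)) (.leaf (.fwd 1912 32 tp1296.df))) (.node (.leaf (.bwd 1944 25 tp312.df)) (.leaf (.fwd 1969 35 tp1362.df))))) (.node (.node (.node (.leaf (.bwd 2004 30 tp289.df)) (.leaf (.bwd 2034 24 tp950.df))) (.node (.leaf (.fwd 2058 32 tp447.df)) (.leaf (.fwd 2090 24 tp589.df)))) (.node (.node (.leaf (.fwd 2114 35 tp1138.df)) (.leaf (.fwd 2149 23 tp755.df))) (.leaf (.fwd 2172 27 tp1363.df))))) (.node (.node (.node (.node (.leaf (.fwd 2199 29 tp511.df)) (.leaf (.bwd 2228 23 tp755.df))) (.node (.leaf (.fwd 2251 19 tp517.df)) (.leaf (.fwd 2270 28 tp344.df)))) (.node (.node (.leaf (.fwd 2298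 19 tp405.df)) (.leaf (.fwd 2317 27 tp1364.df))) (.node (.leaf (.fwd 2344 43 tp529.df)) (.leaf (.fwd 2387 27 tp341.df))))) (.node (.node (.node (.leaf (.bwd 2414 27 tp481.df)) (.leaf (.bwd 2441 23 tp489.df))) (.node (.leaf (.fwd 2464 22 tp527.df)) (.leaf (.fwd 2486 29 tp1280.df)))) (.node (.node (.leaf (.bwd 2515 32 tp1365.df)) (.leaf (.fwd 2547 29 tp597.df))) (.leaf (.bwd 2576 25 tp1288.df)))))) (.node (.node (.node (.node (.node (.leaf (.fwd 2601 44 tp1290.df)) (.leaf (.fwd 2645 24 tp693.df))) (.node (.leaf (.fwd 2669 23 tp489.df)) (.leaf (.bwd 2692 29 tp484.df)))) (.node (.node (.leaf (.fwd 2721 34 tp501.df)) (.leaf (.fwd 2755 33 tp1178.df))) (.node (.leaf (.fwd 2788 41 tp1107.df)) (.leaf (.bwd 2829 32 tp1366.df))))) (.node (.node (.node (.leaf (.bwd 2861 28 tp496.df)) (.leaf (.fwd 2889 23 tp556.df))) (.node (.leaf (.bwd 2912 40 tp1289.df)) (.leaf (.fwd 2952 35 tp1249.df)))) (.node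 (.node (.leaf (.fwd 2987 46 tp550.df)) (.leaf (.fwd 3033 37 tp1060.df))) (.leaf (.bwd 3070 21 tp762.df))))) (.node (.node (.node (.node (.leaf (.fwd 3091 32 tp533.df)) (.leaf (.bwd 3123 37 tp532.df))) (.node (.leaf (.bwd 3160 49 tp1367.df)) (.leaf (.bwd 3209 34 tp1368.df)))) (.node (.node (.leaf (.fwd 3243 49 tp1142.df)) (.leaf (.fwd 3292 25 tp319.df))) (.node (.leaf (.fwd 3317 37 tp525.df)) (.leaf (.fwd 3354 28 tp1369.df))))) (.node (.node (.node (.leaf (.bwd 3382 24 tp810.df)) (.leaf (.bwd 3406 43 tp905.df))) (.node (.leaf (.fwd 3449 35 tp1155.df)) (.leaf (.fwd 3484 25 tp1279.df)))) (.node (.node (.leaf (.bwd 3509 27 tp1133.df)) (.leaf (.fwd 3536 30 tp571.df))) (.leaf (.bwd 3566 32 tp569.df)))))))) (.node (.node (.node (.node (.node (.node (.node (.leaf (.bwd 3598 31 tp530.df)) (.leaf (.bwd 3629 37 tp525.df))) (.node (.leaf (.fwd 3666 27 tp1133.df)) (.leaf (.fwd 3693 37 tp1157.df))))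 (.node (.node (.leaf (.bwd 3730 20 tp324.df)) (.leaf (.bwd 3750 26 tp647.df))) (.node (.leaf (.fwd 3776 26 tp700.df)) (.leaf (.bwd 3802 24 tp589.df))))) (.node (.node (.node (.leaf (.fwd 3826 21 tp762.df)) (.leaf (.bwd 3847 32 tp703.df))) (.node (.leaf (.fwd 3879 39 tp682.df)) (.leaf (.fwd 3918 28 tp665.df)))) (.node (.node (.leaf (.bwd 3946 24 tp978.df)) (.leaf (.fwd 3970 27 tp331.df))) (.node (.leaf (.bwd 3997 29 tp519.df)) (.leaf (.fwd 4026 41 tp1162.df)))))) (.node (.node (.node (.node (.leaf (.fwd 4067 32 tp908.df)) (.leaf (.fwd 4099 38 tp587.df))) (.node (.leaf (.bwd 4137 20 tp737.df)) (.leaf (.bwd 4157 32 tp447.df)))) (.node (.node (.leaf (.bwd 4189 42 tp775.df)) (.leaf (.fwd 4231 22 tp536.df))) (.node (.leaf (.bwd 4253 27 tp1294.df)) (.leaf (.bwd 4280 41 tp1107.df))))) (.node (.node (.node (.leaf (.bwd 4321 23 tp556.df)) (.leaf (.fwd 4344 30 tp1292.df))) (.node (.leaf (.fwd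 4374 30 tp1103.df)) (.leaf (.fwd 4404 54 tp1114.df)))) (.node (.node (.leaf (.fwd 4458 30 tp1065.df)) (.leaf (.fwd 4488 36 tp1090.df))) (.leaf (.bwd 4524 46 tp550.df)))))) (.node (.node (.node (.node (.node (.leaf (.fwd 4570 34 tp494.df)) (.leaf (.bwd 4604 27 tp1301.df))) (.node (.leaf (.bwd 4631 33 tp1076.df)) (.leaf (.fwd 4664 34 tp380.df)))) (.node (.node (.leaf (.fwd 4698 34 tp535.df)) (.leaf (.fwd 4732 39 tp1141.df))) (.node (.leaf (.bwd 4771 33 tp606.df)) (.leaf (.fwd 4804 21 tp1140.df))))) (.node (.node (.node (.leaf (.fwd 4825 28 tp528.df)) (.leaf (.bwd 4853 43 tp529.df))) (.node (.leaf (.fwd 4896 18 tp662.df)) (.leaf (.bwd 4914 29 tp1082.df)))) (.node (.node (.leaf (.fwd 4943 33 tp1370.df)) (.leaf (.fwd 4976 40 tp1166.df))) (.leaf (.bwd 5016 31 tp713.df))))) (.node (.node (.node (.node (.leaf (.bwd 5047 37 tp1343.df)) (.leaf (.fwd 5084 42 tp559.df))) (.node (.leaf (.fwd 5126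 42 tp546.df)) (.leaf (.bwd 5168 28 tp665.df)))) (.node (.node (.leaf (.bwd 5196 27 tp510.df)) (.leaf (.bwd 5223 30 tp1065.df))) (.node (.leaf (.bwd 5253 30 tp299.df)) (.leaf (.bwd 5283 22 tp334.df))))) (.node (.node (.node (.leaf (.fwd 5305 24 tp1304.df)) (.leaf (.fwd 5329 37 tp1148.df))) (.node (.leaf (.bwd 5366 29 tp504.df)) (.leaf (.bwd 5395 19 tp1180.df)))) (.node (.node (.leaf (.fwd 5414 20 tp417.df)) (.leaf (.fwd 5434 31 tp530.df))) (.leaf (.fwd 5465 34 tp499.df))))))) (.node (.node (.node (.node (.node (.node (.leaf (.bwd 5499 40 tp351.df)) (.leaf (.fwd 5539 35 tp1371.df))) (.node (.leaf (.bwd 5574 35 tp1119.df)) (.leaf (.fwd 5609 27 tp1128.df)))) (.node (.node (.leaf (.fwd 5636 34 tp1298.df)) (.leaf (.bwd 5670 34 tp1298.df))) (.node (.leaf (.bwd 5704 27 tp341.df)) (.leaf (.bwd 5731 33 tp1190.df))))) (.node (.node (.node (.leaf (.fwd 5764 25 tp442.df)) (.leaf (.fwd 5789 47 tp492.df)))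 (.node (.leaf (.bwd 5836 43 tp568.df)) (.leaf (.fwd 5879 25 tp1196.df)))) (.node (.node (.leaf (.bwd 5904 14 tp1310.df)) (.leaf (.bwd 5918 22 tp827.df))) (.leaf (.fwd 5940 28 tp1193.df))))) (.node (.node (.node (.node (.leaf (.fwd 5968 39 tp1225.df)) (.leaf (.fwd 6007 18 tp461.df))) (.node (.leaf (.fwd 6025 24 tp1372.df)) (.leaf (.fwd 6049 31 tp880.df)))) (.node (.node (.leaf (.fwd 6080 40 tp1202.df)) (.leaf (.fwd 6120 38 tp1272.df))) (.node (.leaf (.bwd 6158 31 tp1203.df)) (.leaf (.bwd 6189 24 tp897.df))))) (.node (.node (.node (.leaf (.fwd 6213 27 tp1374.df)) (.leaf (.fwd 6240 29 tp1211.df))) (.node (.leaf (.fwd 6269 18 tp300.df)) (.leaf (.bwd 6287 19 tp404.df)))) (.node (.node (.leaf (.bwd 6306 28 tp555.df)) (.leaf (.fwd 6334 31 tp753.df))) (.leaf (.fwd 6365 26 tp886.df)))))) (.node (.node (.node (.node (.node (.leaf (.fwd 6391 39 tp678.df)) (.leaf (.fwd 6430 25 tp1227.df))) (.node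 (.leaf (.bwd 6455 35 tp1249.df)) (.leaf (.bwd 6490 41 tp1204.df)))) (.node (.node (.leaf (.fwd 6531 12 tp1314.df)) (.leaf (.fwd 6543 31 tp773.df))) (.node (.leaf (.fwd 6574 32 tp1375.df)) (.leaf (.bwd 6606 25 tp1026.df))))) (.node (.node (.node (.leaf (.fwd 6631 32 tp402.df)) (.leaf (.bwd 6663 17 tp1112.df))) (.node (.leaf (.bwd 6680 18 tp461.df)) (.leaf (.bwd 6698 40 tp575.df)))) (.node (.node (.leaf (.fwd 6738 29 tp1377.df)) (.leaf (.bwd 6767 36 tp747.df))) (.leaf (.fwd 6803 33 tp1163.df))))) (.node (.node (.node (.node (.leaf (.bwd 6836 25 tp1378.df)) (.leaf (.bwd 6861 32 tp1296.df))) (.node (.leaf (.bwd 6893 36 tp1379.df)) (.leaf (.bwd 6929 40 tp1166.df)))) (.node (.node (.leaf (.bwd 6969 22 tp1284.df)) (.leaf (.fwd 6991 24 tp1380.df))) (.node (.leaf (.bwd 7015 37 tp1236.df)) (.leaf (.bwd 7052 32 tp639.df))))) (.node (.node (.node (.leaf (.bwd 7084 25 tp1381.df)) (.leaf (.bwd 7109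 30 tp1382.df))) (.node (.leaf (.fwd 7139 33 tp1246.df)) (.leaf (.fwd 7172 24 tp1383.df)))) (.node (.node (.leaf (.bwd 7196 29 tp1384.df)) (.leaf (.bwd 7225 39 tp1225.df))) (.leaf (.bwd 7264 33 tp1339.df)))))))))

theorem iiNFyAzEyA2Ax3xA2AyEzAyF_c : iiNFyAzEyA2Ax3xA2AyEzAyF.all (itB (ng 54 nnNFyAzEyA2Ax3xA2AyEzAyF)) = true := by decide +kernel
theorem nbNFyAzEyA2Ax3xA2AyEzAyF : nbB 54 7351 nnNFyAzEyA2Ax3xA2AyEzAyF = true := by decide +kernel
theorem topNFyAzEyA2Ax3xA2AyEzAyF : topY 7351 ttNFyAzEyA2Ax3xA2AyEzAyF ceNFyAzEyA2Ax3xA2AyEzAyF xNFyAzEyA2Ax3xA2AyEzAyF iiNFyAzEyA2Ax3xA2AyEzAyF = true := by decide +kernel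

end MPb6P
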