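import Pool.Agent.Lib.MP_b6d339_lc.Cw.YFzAzE2A2Ax3xA2A2EzAyF
import Pool.Agent.Lib.MP_b6d339_lc.Cw.XL
import Pool.Agent.Lib.MP_b6d339_lc.Cw.T10
import Pool.Agent.Lib.MP_b6d339_lc.Cw.T11
import Pool.Agent.Lib.MP_b6d339_lc.Cw.T12
import Pool.Agent.Lib.MP_b6d339_lc.Cw.T13
import Pool.Agent.Lib.MP_b6d339_lc.Cw.T14
import Pool.Agent.Lib.MP_b6d339_lc.Cw.T15
import Pool.Agent.Lib.MP_b6d339_lc.Cw.T3
import Pool.Agent.Lib.MP_b6d339_lc.Cw.T4
import Pool.Agent.Lib.MP_b6d339_lc.Cw.T5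
import Pool.Agent.Lib.MP_b6d339_lc.Cw.T6
import Pool.Agent.Lib.MP_b6d339_lc.Cw.T7
import Pool.Agent.Lib.MP_b6d339_lc.Cw.T8
import Pool.Agent.Lib.MP_b6d339_lc.Cw.T9

/-!
# Erdős 592, three levels: items
-/

namespace MPb6P

noncomputable def iiNFzAzE2A2Ax3xA2A2EzAyF : BT Itm := (.node (.node (.node (.node (.node (.node (.node (.node (.leaf (.fwd 0 13 tp355.df)) (.leaf (.bwd 13 43 tp524.df))) (.node (.leaf (.fwd 56 37 tp525.df)) (.leaf (.bwd 93 37 tp525.df)))) (.node (.node (.leaf (.bwd 130 28 tp1126.df)) (.leaf (.bwd 158 21 tp295.df))) (.leaf (.bwd 179 22 tp527.df)))) (.node (.node (.node (.leaf (.fwd 201 19 tp371.df)) (.leaf (.fwd 220 34 tp505.df))) (.node (.leaf (.fwd 254 35 tp403.df)) (.leaf (.fwd 289 23 tp292.df)))) (.node (.node (.leaf (.fwd 312 21 tp424.df)) (.leaf (.fwd 333 19 tp326.df))) (.leaf (.bwd 352 20 tp614.df))))) (.node (.node (.node (.node (.leaf (.bwd 372 25 tp1250.df))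 (.leaf (.fwd 397 45 tp490.df))) (.node (.leaf (.bwd 442 23 tp320.df)) (.leaf (.bwd 465 24 tp332.df)))) (.node (.node (.leaf (.fwd 489 29 tp477.df)) (.leaf (.bwd 518 29 tp477.df))) (.leaf (.bwd 547 43 tp529.df)))) (.node (.node (.node (.leaf (.fwd 590 26 tp514.df)) (.leaf (.fwd 616 28 tp342.df))) (.node (.leaf (.fwd 644 25 tp488.df)) (.leaf (.fwd 669 38 tp688.df)))) (.node (.node (.leaf (.bwd 707 22 tp334.df)) (.leaf (.fwd 729 32 tp368.df))) (.leaf (.fwd 761 28 tp806.df)))))) (.node (.node (.node (.node (.node (.leaf (.fwd 789 32 tp984.df)) (.leaf (.bwd 821 26 tp367.df))) (.node (.leaf (.fwd 847 31 tp949.df)) (.leaf (.fwd 878 31 tp530.df)))) (.node (.node (.leaf (.fwd 909 27 tp481.df)) (.leaf (.fwd 936 23 tp489.df))) (.leaf (.bwd 959 23 tp489.df)))) (.node (.node (.node (.leaf (.fwd 982 30 tp698.df)) (.leaf (.fwd 1012 27 tp341.df))) (.node (.leaf (.bwd 1039 27 tp341.df)) (.leaf (.fwd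 1066 28 tp344.df)))) (.node (.node (.leaf (.fwd 1094 43 tp531.df)) (.leaf (.bwd 1137 43 tp531.df))) (.leaf (.fwd 1180 19 tp405.df))))) (.node (.node (.node (.node (.leaf (.fwd 1199 19 tp404.df)) (.leaf (.fwd 1218 22 tp378.df))) (.node (.leaf (.fwd 1240 40 tp351.df)) (.leaf (.bwd 1280 37 tp532.df)))) (.node (.node (.leaf (.fwd 1317 29 tp484.df)) (.leaf (.bwd 1346 29 tp484.df))) (.leaf (.fwd 1375 31 tp1156.df)))) (.node (.node (.node (.leaf (.bwd 1406 32 tp533.df)) (.leaf (.fwd 1438 27 tp510.df))) (.node (.leaf (.fwd 1465 29 tp519.df)) (.leaf (.fwd 1494 28 tp578.df)))) (.node (.node (.leaf (.fwd 1522 27 tp1128.df)) (.leaf (.bwd 1549 30 tp1184.df))) (.leaf (.bwd 1579 37 tp372.df))))))) (.node (.node (.node (.node (.node (.node (.leaf (.fwd 1616 38 tp587.df)) (.leaf (.fwd 1654 34 tp501.df))) (.node (.leaf (.bwd 1688 34 tp501.df)) (.leaf (.bwd 1722 31 tp349.df)))) (.node (.node (.leaf (.fwd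 1753 34 tp499.df)) (.leaf (.bwd 1787 34 tp499.df))) (.leaf (.fwd 1821 30 tp1065.df)))) (.node (.node (.node (.leaf (.bwd 1851 24 tp589.df)) (.leaf (.bwd 1875 40 tp554.df))) (.node (.leaf (.fwd 1915 41 tp534.df)) (.leaf (.bwd 1956 30 tp1103.df)))) (.node (.node (.leaf (.fwd 1986 29 tp504.df)) (.leaf (.bwd 2015 34 tp855.df))) (.leaf (.fwd 2049 39 tp853.df))))) (.node (.node (.node (.node (.leaf (.fwd 2088 30 tp1251.df)) (.leaf (.fwd 2118 40 tp784.df))) (.node (.leaf (.bwd 2158 40 tp784.df)) (.leaf (.fwd 2198 30 tp299.df)))) (.node (.node (.leaf (.bwd 2228 30 tp299.df)) (.leaf (.bwd 2258 38 tp687.df))) (.leaf (.bwd 2296 28 tp385.df)))) (.node (.node (.node (.leaf (.fwd 2324 22 tp536.df)) (.leaf (.fwd 2346 35 tp1119.df))) (.node (.leaf (.fwd 2381 38 tp348.df)) (.leaf (.fwd 2419 13 tp951.df)))) (.node (.node (.leaf (.bwd 2432 30 tp1252.df)) (.leaf (.fwd 2462 35 tp1253.df))) (.leaf (.fwd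 2497 32 tp369.df)))))) (.node (.node (.node (.node (.node (.leaf (.bwd 2529 32 tp369.df)) (.leaf (.fwd 2561 36 tp350.df))) (.node (.leaf (.bwd 2597 35 tp359.df)) (.leaf (.fwd 2632 25 tp361.df)))) (.node (.node (.leaf (.bwd 2657 25 tp361.df)) (.leaf (.bwd 2682 44 tp364.df))) (.leaf (.fwd 2726 24 tp648.df)))) (.node (.node (.node (.leaf (.bwd 2750 18 tp507.df)) (.leaf (.bwd 2768 19 tp327.df))) (.node (.leaf (.fwd 2787 23 tp335.df)) (.leaf (.bwd 2810 35 tp690.df)))) (.node (.node (.leaf (.fwd 2845 25 tp312.df)) (.leaf (.bwd 2870 32 tp340.df))) (.leaf (.fwd 2902 19 tp401.df))))) (.node (.node (.node (.node (.leaf (.fwd 2921 30 tp289.df)) (.leaf (.fwd 2951 31 tp1254.df))) (.node (.leaf (.fwd 2982 25 tp347.df)) (.leaf (.bwd 3007 37 tp376.df)))) (.node (.node (.leaf (.fwd 3044 24 tp353.df)) (.leaf (.bwd 3068 37 tp358.df))) (.leaf (.fwd 3105 26 tp365.df)))) (.node (.node (.node (.leaf (.bwd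 3131 31 tp386.df)) (.leaf (.bwd 3162 22 tp339.df))) (.node (.leaf (.bwd 3184 32 tp407.df)) (.leaf (.fwd 3216 14 tp633.df)))) (.node (.node (.leaf (.fwd 3230 34 tp1255.df)) (.leaf (.fwd 3264 29 tp511.df))) (.leaf (.fwd 3293 20 tp443.df)))))))) (.node (.node (.node (.node (.node (.node (.node (.leaf (.fwd 3313 34 tp1256.df)) (.leaf (.fwd 3347 35 tp1257.df))) (.node (.leaf (.fwd 3382 35 tp638.df)) (.leaf (.bwd 3417 36 tp634.df)))) (.node (.node (.leaf (.bwd 3453 28 tp555.df)) (.leaf (.fwd 3481 15 tp1213.df))) (.leaf (.fwd 3496 24 tp1091.df)))) (.node (.node (.node (.leaf (.bwd 3520 24 tp1091.df)) (.leaf (.fwd 3544 16 tp485.df))) (.node (.leaf (.fwd 3560 25 tp602.df)) (.leaf (.fwd 3585 23 tp366.df)))) (.node (.node (.leaf (.bwd 3608 23 tp366.df)) (.leaf (.fwd 3631 37 tp410.df))) (.leaf (.fwd 3668 18 tp566.df))))) (.node (.node (.node (.node (.leaf (.fwd 3686 23 tp1258.df)) (.leaf (.bwd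 3709 31 tp1188.df))) (.node (.leaf (.fwd 3740 18 tp1259.df)) (.leaf (.bwd 3758 38 tp1260.df)))) (.node (.node (.leaf (.fwd 3796 44 tp849.df)) (.leaf (.bwd 3840 46 tp632.df))) (.leaf (.fwd 3886 22 tp789.df)))) (.node (.node (.node (.leaf (.bwd 3908 11 tp390.df)) (.leaf (.fwd 3919 19 tp478.df))) (.node (.leaf (.fwd 3938 25 tp1214.df)) (.leaf (.bwd 3963 33 tp363.df)))) (.node (.node (.leaf (.bwd 3996 23 tp998.df)) (.leaf (.fwd 4019 35 tp541.df))) (.leaf (.fwd 4054 27 tp684.df)))))) (.node (.node (.node (.node (.node (.leaf (.fwd 4081 34 tp1177.df)) (.leaf (.fwd 4115 28 tp496.df))) (.node (.leaf (.fwd 4143 29 tp689.df)) (.leaf (.fwd 4172 34 tp494.df)))) (.node (.node (.leaf (.bwd 4206 27 tp542.df)) (.leaf (.bwd 4233 29 tp592.df))) (.leaf (.fwd 4262 32 tp1261.df)))) (.node (.node (.node (.leaf (.bwd 4294 36 tp1127.df)) (.leaf (.bwd 4330 32 tp881.df))) (.node (.leaf (.bwd 4362 42 tp559.df))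 (.leaf (.fwd 4404 26 tp1262.df)))) (.node (.node (.leaf (.bwd 4430 18 tp607.df)) (.leaf (.fwd 4448 24 tp1263.df))) (.leaf (.bwd 4472 36 tp704.df))))) (.node (.node (.node (.node (.leaf (.bwd 4508 23 tp1118.df)) (.leaf (.bwd 4531 39 tp623.df))) (.node (.leaf (.fwd 4570 25 tp596.df)) (.leaf (.fwd 4595 33 tp547.df)))) (.node (.node (.leaf (.bwd 4628 39 tp1264.df)) (.leaf (.bwd 4667 35 tp1265.df))) (.leaf (.bwd 4702 38 tp1266.df)))) (.node (.node (.node (.leaf (.pat 4740 pq92)) (.leaf (.pat 4790 pq93))) (.node (.leaf (.pat 4842 pq94)) (.leaf (.pat 4888 pq95)))) (.node (.node (.leaf (.bwd 4936 28 tp806.df)) (.leaf (.bwd 4964 28 tp342.df))) (.leaf (.fwd 4992 37 tp1157.df))))))) (.node (.node (.node (.node (.node (.node (.leaf (.fwd 5029 28 tp1267.df)) (.leaf (.bwd 5057 31 tp530.df))) (.node (.leaf (.bwd 5088 34 tp1256.df)) (.leaf (.bwd 5122 32 tp495.df)))) (.node (.node (.leaf (.fwd 5154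 20 tp417.df)) (.leaf (.fwd 5174 37 tp1060.df))) (.leaf (.fwd 5211 48 tp626.df)))) (.node (.node (.node (.leaf (.fwd 5259 34 tp1268.df)) (.leaf (.fwd 5293 25 tp319.df))) (.node (.leaf (.bwd 5318 33 tp606.df)) (.leaf (.fwd 5351 16 tp427.df)))) (.node (.node (.leaf (.bwd 5367 27 tp1269.df)) (.leaf (.bwd 5394 32 tp402.df))) (.leaf (.bwd 5426 35 tp1096.df))))) (.node (.node (.node (.node (.leaf (.fwd 5461 32 tp739.df)) (.leaf (.bwd 5493 34 tp858.df))) (.node (.leaf (.fwd 5527 33 tp1173.df)) (.leaf (.fwd 5560 32 tp539.df)))) (.node (.node (.leaf (.fwd 5592 39 tp1143.df)) (.leaf (.bwd 5631 38 tp1070.df))) (.leaf (.bwd 5669 29 tp504.df)))) (.node (.node (.node (.leaf (.bwd 5698 24 tp897.df)) (.leaf (.fwd 5722 22 tp1209.df))) (.node (.leaf (.fwd 5744 26 tp937.df)) (.leaf (.fwd 5770 23 tp1270.df)))) (.node (.node (.leaf (.fwd 5793 23 tp322.df)) (.leaf (.fwd 5816 18 tp611.df))) (.leaf (.bwd 5834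 34 tp1271.df)))))) (.node (.node (.node (.node (.node (.leaf (.bwd 5868 37 tp1033.df)) (.leaf (.fwd 5905 25 tp436.df))) (.node (.leaf (.fwd 5930 32 tp563.df)) (.leaf (.bwd 5962 11 tp290.df)))) (.node (.node (.leaf (.bwd 5973 45 tp561.df)) (.leaf (.pat 6018 pq96))) (.leaf (.fwd 6072 38 tp1272.df)))) (.node (.node (.node (.leaf (.fwd 6110 25 tp392.df)) (.leaf (.bwd 6135 29 tp519.df))) (.node (.leaf (.bwd 6164 23 tp426.df)) (.leaf (.bwd 6187 9 tp1009.df)))) (.node (.node (.leaf (.bwd 6196 17 tp727.df)) (.leaf (.bwd 6213 24 tp1131.df))) (.leaf (.bwd 6237 17 tp1109.df))))) (.node (.node (.node (.node (.leaf (.bwd 6254 16 tp1072.df)) (.leaf (.bwd 6270 30 tp1251.df))) (.node (.leaf (.fwd 6300 23 tp652.df)) (.leaf (.fwd 6323 23 tp377.df)))) (.node (.node (.leaf (.bwd 6346 38 tp1273.df)) (.leaf (.bwd 6384 18 tp1274.df))) (.leaf (.bwd 6402 28 tp1275.df)))) (.node (.node (.node (.leaf (.bwd 6430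 18 tp461.df)) (.leaf (.bwd 6448 24 tp1276.df))) (.leaf (.fwd 6472 17 tp1277.df))) (.node (.node (.leaf (.bwd 6489 22 tp731.df)) (.leaf (.bwd 6511 19 tp326.df))) (.leaf (.fwd 6530 29 tp572.df)))))))))

theorem iiNFzAzE2A2Ax3xA2A2EzAyF_c : iiNFzAzE2A2Ax3xA2A2EzAyF.all (itB (ng 48 nnNFzAzE2A2Ax3xA2A2EzAyF)) = true := by decide +kernel
theorem nbNFzAzE2A2Ax3xA2A2EzAyF : nbB 48 6607 nnNFzAzE2A2Ax3xA2A2EzAyF = true := by decide +kernel
theorem topNFzAzE2A2Ax3xA2A2EzAyF : topY 6607 ttNFzAzE2A2Ax3xA2A2EzAyF ceNFzAzE2A2Ax3xA2A2EzAyF xNFzAzE2A2Ax3xA2A2EzAyF iiNFzAzE2A2Ax3xA2A2EzAyF = true := by decide +kernel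

end MPb6P
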