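import Pool.Agent.Lib.MP_b6d339_lc.Cw.YFzE2B3H3B2E
import Pool.Agent.Lib.MP_b6d339_lc.Cw.XL
import Pool.Agent.Lib.MP_b6d339_lc.Cw.T1
import Pool.Agent.Lib.MP_b6d339_lc.Cw.T10
import Pool.Agent.Lib.MP_b6d339_lc.Cw.T11
import Pool.Agent.Lib.MP_b6d339_lc.Cw.T13
import Pool.Agent.Lib.MP_b6d339_lc.Cw.T14
import Pool.Agent.Lib.MP_b6d339_lc.Cw.T15
import Pool.Agent.Lib.MP_b6d339_lc.Cw.T16
import Pool.Agent.Lib.MP_b6d339_lc.Cw.T17
import Pool.Agent.Lib.MP_b6d339_lc.Cw.T19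
import Pool.Agent.Lib.MP_b6d339_lc.Cw.T2
import Pool.Agent.Lib.MP_b6d339_lc.Cw.T21
import Pool.Agent.Lib.MP_b6d339_lc.Cw.T22
import Pool.Agent.Lib.MP_b6d339_lc.Cw.T23
import Pool.Agent.Lib.MP_b6d339_lc.Cw.T24
import Pool.Agent.Lib.MP_b6d339_lc.Cw.T25
import Pool.Agent.Lib.MP_b6d339_lc.Cw.T26
import Pool.Agent.Lib.MP_b6d339_lc.Cw.T27
import Pool.Agent.Lib.MP_b6d339_lc.Cw.T3
import Pool.Agent.Lib.MP_b6d339_lc.Cw.T4
import Pool.Agent.Lib.MP_b6d339_lc.Cw.T5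
import Pool.Agent.Lib.MP_b6d339_lc.Cw.T6
import Pool.Agent.Lib.MP_b6d339_lc.Cw.T7
import Pool.Agent.Lib.MP_b6d339_lc.Cw.T8

/-!
# Erdős 592, three levels: items
-/

namespace MPb6P

noncomputable def iiNFzE2B3H3B2E : BT Itm := (.node (.node (.node (.node (.node (.node (.node (.node (.leaf (.fwd 0 15 tp1890.df)) (.leaf (.fwd 15 20 tp2043.df))) (.node (.leaf (.fwd 35 34 tp2044.df)) (.leaf (.bwd 69 21 tp2045.df)))) (.node (.node (.leaf (.bwd 90 18 tp1995.df)) (.leaf (.fwd 108 29 tp2046.df))) (.node (.leaf (.bwd 137 17 tp2047.df)) (.leaf (.bwd 154 24 tp2048.df))))) (.node (.node (.node (.leaf (.bwd 178 18 tp2049.df)) (.leaf (.fwd 196 11 tp1420.df))) (.node (.leaf (.bwd 207 31 tp1888.df)) (.leaf (.bwd 238 31 tp2050.df)))) (.node (.node (.leaf (.bwd 269 33 tp2051.df)) (.leaf (.fwd 302 28 tp2052.df))) (.node (.leaf (.fwd 330 26 tp2053.df)) (.leaf (.bwd 356 32 tp2054.df)))))) (.node (.node (.node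 (.node (.leaf (.fwd 388 24 tp2055.df)) (.leaf (.fwd 412 13 tp2056.df))) (.node (.leaf (.bwd 425 13 tp1741.df)) (.leaf (.fwd 438 29 tp2057.df)))) (.node (.node (.leaf (.bwd 467 22 tp636.df)) (.leaf (.bwd 489 28 tp2058.df))) (.node (.leaf (.bwd 517 19 tp2059.df)) (.leaf (.fwd 536 14 tp2060.df))))) (.node (.node (.node (.leaf (.bwd 550 28 tp2061.df)) (.leaf (.fwd 578 40 tp2062.df))) (.node (.leaf (.fwd 618 11 tp290.df)) (.leaf (.bwd 629 19 tp1734.df)))) (.node (.node (.leaf (.fwd 648 43 tp1813.df)) (.leaf (.fwd 691 15 tp1731.df))) (.node (.leaf (.bwd 706 17 tp1939.df)) (.leaf (.bwd 723 35 tp2063.df))))))) (.node (.node (.node (.node (.node (.leaf (.bwd 758 21 tp1817.df)) (.leaf (.fwd 779 15 tp2064.df))) (.node (.leaf (.bwd 794 29 tp2065.df)) (.leaf (.bwd 823 19 tp2066.df)))) (.node (.node (.leaf (.fwd 842 21 tp2067.df)) (.leaf (.bwd 863 32 tp2068.df))) (.node (.leaf (.bwd 895 33 tp2069.df))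 (.leaf (.bwd 928 31 tp2070.df))))) (.node (.node (.node (.leaf (.bwd 959 17 tp2071.df)) (.leaf (.fwd 976 31 tp2072.df))) (.node (.leaf (.bwd 1007 26 tp2073.df)) (.leaf (.bwd 1033 27 tp2074.df)))) (.node (.node (.leaf (.fwd 1060 23 tp2075.df)) (.leaf (.bwd 1083 17 tp317.df))) (.node (.leaf (.bwd 1100 22 tp827.df)) (.leaf (.bwd 1122 16 tp2076.df)))))) (.node (.node (.node (.node (.leaf (.bwd 1138 10 tp1781.df)) (.leaf (.fwd 1148 10 tp2077.df))) (.node (.leaf (.bwd 1158 17 tp2078.df)) (.leaf (.bwd 1175 11 tp520.df)))) (.node (.node (.leaf (.fwd 1186 29 tp2079.df)) (.leaf (.bwd 1215 14 tp2080.df))) (.node (.leaf (.fwd 1229 29 tp2081.df)) (.leaf (.bwd 1258 17 tp2082.df))))) (.node (.node (.node (.leaf (.bwd 1275 14 tp2083.df)) (.leaf (.bwd 1289 16 tp2084.df))) (.node (.leaf (.bwd 1305 28 tp2085.df)) (.leaf (.bwd 1333 16 tp2086.df)))) (.node (.node (.leaf (.bwd 1349 30 tp2087.df)) (.leaf (.bwd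 1379 25 tp613.df))) (.leaf (.bwd 1404 19 tp240.df))))))) (.node (.node (.node (.node (.node (.node (.leaf (.fwd 1423 22 tp302.df)) (.leaf (.fwd 1445 17 tp2088.df))) (.node (.leaf (.fwd 1462 22 tp2089.df)) (.leaf (.fwd 1484 31 tp2090.df)))) (.node (.node (.leaf (.fwd 1515 45 tp2091.df)) (.leaf (.bwd 1560 18 tp2092.df))) (.node (.leaf (.fwd 1578 22 tp2093.df)) (.leaf (.bwd 1600 29 tp2094.df))))) (.node (.node (.node (.leaf (.fwd 1629 25 tp1732.df)) (.leaf (.fwd 1654 28 tp2095.df))) (.node (.leaf (.fwd 1682 19 tp2040.df)) (.leaf (.fwd 1701 46 tp2096.df)))) (.node (.node (.leaf (.bwd 1747 28 tp1896.df)) (.leaf (.fwd 1775 25 tp1945.df))) (.node (.leaf (.bwd 1800 16 tp2097.df)) (.leaf (.bwd 1816 27 tp2098.df)))))) (.node (.node (.node (.node (.leaf (.fwd 1843 24 tp2099.df)) (.leaf (.fwd 1867 38 tp2100.df))) (.node (.leaf (.fwd 1905 15 tp2027.df)) (.leaf (.fwd 1920 37 tp2101.df)))) (.node (.node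 (.leaf (.bwd 1957 19 tp2102.df)) (.leaf (.fwd 1976 35 tp359.df))) (.node (.leaf (.fwd 2011 31 tp2103.df)) (.leaf (.fwd 2042 31 tp2104.df))))) (.node (.node (.node (.leaf (.fwd 2073 22 tp2105.df)) (.leaf (.bwd 2095 35 tp619.df))) (.node (.leaf (.fwd 2130 29 tp414.df)) (.leaf (.fwd 2159 33 tp2106.df)))) (.node (.node (.leaf (.fwd 2192 35 tp1891.df)) (.leaf (.fwd 2227 28 tp2107.df))) (.node (.leaf (.bwd 2255 29 tp2108.df)) (.leaf (.bwd 2284 26 tp2109.df))))))) (.node (.node (.node (.node (.node (.leaf (.bwd 2310 23 tp377.df)) (.leaf (.fwd 2333 42 tp1099.df))) (.node (.leaf (.bwd 2375 21 tp1733.df)) (.leaf (.bwd 2396 19 tp401.df)))) (.node (.node (.leaf (.fwd 2415 23 tp2110.df)) (.leaf (.fwd 2438 47 tp2111.df))) (.node (.leaf (.fwd 2485 29 tp2112.df)) (.leaf (.fwd 2514 28 tp2113.df))))) (.node (.node (.node (.leaf (.fwd 2542 27 tp2114.df)) (.leaf (.bwd 2569 25 tp2115.df))) (.node (.leaf (.fwd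 2594 24 tp2116.df)) (.leaf (.fwd 2618 24 tp2117.df)))) (.node (.node (.leaf (.bwd 2642 31 tp1999.df)) (.leaf (.bwd 2673 32 tp2118.df))) (.node (.leaf (.fwd 2705 30 tp299.df)) (.leaf (.fwd 2735 20 tp2119.df)))))) (.node (.node (.node (.node (.leaf (.fwd 2755 39 tp678.df)) (.leaf (.bwd 2794 33 tp2120.df))) (.node (.leaf (.fwd 2827 29 tp1082.df)) (.leaf (.bwd 2856 47 tp2121.df)))) (.node (.node (.leaf (.fwd 2903 34 tp2122.df)) (.leaf (.fwd 2937 35 tp2123.df))) (.node (.leaf (.pat 2972 pq134)) (.leaf (.bwd 3008 31 tp1299.df))))) (.node (.node (.node (.leaf (.bwd 3039 33 tp1169.df)) (.leaf (.bwd 3072 31 tp907.df))) (.node (.leaf (.pat 3103 pq135)) (.leaf (.pat 3139 pq136)))) (.node (.node (.leaf (.pat 3175 pq137)) (.leaf (.pat 3209 pq138))) (.leaf (.pat 3249 pq139)))))))) (.node (.node (.node (.node (.node (.node (.node (.leaf (.fwd 3279 25 tp2124.df)) (.leaf (.bwd 3304 16 tp2125.df))) (.node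 (.leaf (.fwd 3320 32 tp2126.df)) (.leaf (.bwd 3352 41 tp2127.df)))) (.node (.node (.leaf (.bwd 3393 23 tp1770.df)) (.leaf (.bwd 3416 30 tp2128.df))) (.node (.leaf (.fwd 3446 30 tp2129.df)) (.leaf (.bwd 3476 45 tp2130.df))))) (.node (.node (.node (.leaf (.bwd 3521 33 tp2131.df)) (.leaf (.bwd 3554 38 tp2132.df))) (.node (.leaf (.bwd 3592 22 tp2133.df)) (.leaf (.bwd 3614 19 tp2134.df)))) (.node (.node (.leaf (.pat 3633 pq140)) (.leaf (.pat 3679 pq141))) (.node (.leaf (.bwd 3727 24 tp1553.df)) (.leaf (.pat 3751 pq142)))))) (.node (.node (.node (.node (.leaf (.bwd 3791 29 tp846.df)) (.leaf (.pat 3820 pq143))) (.node (.leaf (.pat 3858 pq144)) (.leaf (.pat 3892 pq145)))) (.node (.node (.leaf (.pat 3930 pq146)) (.leaf (.pat 3966 pq147))) (.node (.leaf (.pat 4002 pq148)) (.leaf (.pat 4036 pq149))))) (.node (.node (.node (.leaf (.pat 4072 pq150)) (.leaf (.pat 4116 pq151))) (.node (.leaf (.pat 4154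 pq152)) (.leaf (.pat 4198 pq153)))) (.node (.node (.leaf (.pat 4244 pq154)) (.leaf (.pat 4282 pq155))) (.node (.leaf (.pat 4324 pq156)) (.leaf (.pat 4360 pq157))))))) (.node (.node (.node (.node (.node (.leaf (.pat 4396 pq158)) (.leaf (.pat 4436 pq159))) (.node (.leaf (.bwd 4478 16 tp1986.df)) (.leaf (.fwd 4494 39 tp2135.df)))) (.node (.node (.leaf (.fwd 4533 32 tp2136.df)) (.leaf (.bwd 4565 28 tp2137.df))) (.node (.leaf (.fwd 4593 40 tp2138.df)) (.leaf (.fwd 4633 45 tp2139.df))))) (.node (.node (.node (.leaf (.bwd 4678 36 tp1182.df)) (.leaf (.fwd 4714 32 tp2140.df))) (.node (.leaf (.bwd 4746 21 tp2141.df)) (.leaf (.fwd 4767 24 tp2142.df)))) (.node (.node (.leaf (.bwd 4791 19 tp2143.df)) (.leaf (.bwd 4810 18 tp2144.df))) (.node (.leaf (.bwd 4828 23 tp2145.df)) (.leaf (.bwd 4851 23 tp1749.df)))))) (.node (.node (.node (.node (.leaf (.bwd 4874 29 tp2146.df)) (.leaf (.bwd 4903 15 tp2147.df)))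 (.node (.leaf (.bwd 4918 19 tp2148.df)) (.leaf (.bwd 4937 35 tp1265.df)))) (.node (.node (.leaf (.bwd 4972 20 tp2149.df)) (.leaf (.bwd 4992 18 tp145.df))) (.node (.leaf (.fwd 5010 17 tp2150.df)) (.leaf (.fwd 5027 21 tp2151.df))))) (.node (.node (.node (.leaf (.bwd 5048 17 tp2152.df)) (.leaf (.bwd 5065 29 tp2018.df))) (.node (.leaf (.fwd 5094 25 tp2153.df)) (.leaf (.fwd 5119 27 tp2016.df)))) (.node (.node (.leaf (.fwd 5146 32 tp2154.df)) (.leaf (.bwd 5178 31 tp2156.df))) (.leaf (.bwd 5209 17 tp2157.df))))))) (.node (.node (.node (.node (.node (.node (.leaf (.bwd 5226 26 tp2022.df)) (.leaf (.fwd 5252 19 tp2158.df))) (.node (.leaf (.bwd 5271 17 tp2159.df)) (.leaf (.bwd 5288 18 tp2160.df)))) (.node (.node (.leaf (.bwd 5306 14 tp2161.df)) (.leaf (.fwd 5320 23 tp2162.df))) (.node (.leaf (.fwd 5343 42 tp2163.df)) (.leaf (.bwd 5385 21 tp2164.df))))) (.node (.node (.node (.leaf (.bwd 5406 19 tp2166.df))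 (.leaf (.bwd 5425 38 tp2167.df))) (.node (.leaf (.bwd 5463 29 tp2168.df)) (.leaf (.bwd 5492 18 tp2169.df)))) (.node (.node (.leaf (.fwd 5510 35 tp2170.df)) (.leaf (.pat 5545 pq160))) (.node (.leaf (.fwd 5595 51 tp2171.df)) (.leaf (.bwd 5646 11 tp1736.df)))))) (.node (.node (.node (.node (.leaf (.bwd 5657 41 tp2172.df)) (.leaf (.fwd 5698 29 tp2173.df))) (.node (.leaf (.bwd 5727 37 tp2174.df)) (.leaf (.fwd 5764 25 tp2175.df)))) (.node (.node (.leaf (.bwd 5789 27 tp1364.df)) (.leaf (.fwd 5816 41 tp2176.df))) (.node (.leaf (.fwd 5857 19 tp2177.df)) (.leaf (.pat 5876 pq161))))) (.node (.node (.node (.leaf (.bwd 5918 53 tp2178.df)) (.leaf (.fwd 5971 12 tp2179.df))) (.node (.leaf (.fwd 5983 29 tp2180.df)) (.leaf (.fwd 6012 23 tp2182.df)))) (.node (.node (.leaf (.pat 6035 pq162)) (.leaf (.bwd 6075 23 tp2183.df))) (.leaf (.fwd 6098 17 tp2184.df)))))) (.node (.node (.node (.node (.node (.leaf (.bwd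 6115 29 tp2185.df)) (.leaf (.fwd 6144 40 tp2186.df))) (.node (.leaf (.bwd 6184 42 tp2187.df)) (.leaf (.bwd 6226 32 tp2188.df)))) (.node (.node (.leaf (.bwd 6258 32 tp2189.df)) (.leaf (.fwd 6290 17 tp2190.df))) (.node (.leaf (.bwd 6307 39 tp2191.df)) (.leaf (.pat 6346 pq163))))) (.node (.node (.node (.leaf (.pat 6380 pq164)) (.leaf (.fwd 6416 23 tp2192.df))) (.node (.leaf (.pat 6439 pq165)) (.leaf (.pat 6483 pq166)))) (.node (.node (.leaf (.bwd 6523 58 tp2193.df)) (.leaf (.bwd 6581 21 tp2194.df))) (.node (.leaf (.pat 6602 pq167)) (.leaf (.pat 6642 pq168)))))) (.node (.node (.node (.node (.leaf (.pat 6684 pq169)) (.leaf (.bwd 6726 32 tp615.df))) (.node (.leaf (.bwd 6758 29 tp2196.df)) (.leaf (.bwd 6787 27 tp2197.df)))) (.node (.node (.leaf (.bwd 6814 26 tp2198.df)) (.leaf (.fwd 6840 45 tp2199.df))) (.node (.leaf (.pat 6885 pq170)) (.leaf (.bwd 6927 25 tp2200.df))))) (.node (.node (.node (.leaf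 (.pat 6952 pq171)) (.leaf (.fwd 7000 33 tp2201.df))) (.node (.leaf (.bwd 7033 18 tp2202.df)) (.leaf (.pat 7051 pq172)))) (.node (.node (.leaf (.fwd 7099 25 tp2203.df)) (.leaf (.bwd 7124 14 tp2204.df))) (.leaf (.pat 7138 pq173)))))))))

theorem iiNFzE2B3H3B2E_c : iiNFzE2B3H3B2E.all (itB (ng 58 nnNFzE2B3H3B2E)) = true := by decide +kernel
theorem nbNFzE2B3H3B2E : nbB 58 7242 nnNFzE2B3H3B2E = true := by decide +kernel
theorem topNFzE2B3H3B2E : topY 7242 ttNFzE2B3H3B2E ceNFzE2B3H3B2E xNFzE2B3H3B2E iiNFzE2B3H3B2E = true := by decide +kernel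

end MPb6P
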