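import Pool.Agent.Lib.MP_b6d339_lc.Pos.Lx
import Pool.Agent.Lib.MP_b6d339_lc.Cw.YFyAzE2A2Ax3xA2A2EzAyF_0
import Pool.Agent.Lib.MP_b6d339_lc.Cw.YFyAzE2A2Ax3xA2A2EzAyF_1

/-!
# Erdős 592, three levels: tables
-/

namespace MPb6P

noncomputable def nnNFyAzE2A2Ax3xA2A2EzAyF : BT Nat := (.node (.node nnNFyAzE2A2Ax3xA2A2EzAyF_0 nnNFyAzE2A2Ax3xA2A2EzAyF_1) (.node nnNFyAzE2A2Ax3xA2A2EzAyF_2 nnNFyAzE2A2Ax3xA2A2EzAyF_3))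
noncomputable def ttNFyAzE2A2Ax3xA2A2EzAyF : BT Nat := (.node (.node (.node (.node (.node ttNFyAzE2A2Ax3xA2A2EzAyF_0 ttNFyAzE2A2Ax3xA2A2EzAyF_1) (.node ttNFyAzE2A2Ax3xA2A2EzAyF_2 ttNFyAzE2A2Ax3xA2A2EzAyF_3)) (.node (.node ttNFyAzE2A2Ax3xA2A2EzAyF_4 ttNFyAzE2A2Ax3xA2A2EzAyF_5) (.node ttNFyAzE2A2Ax3xA2A2EzAyF_6 ttNFyAzE2A2Ax3xA2A2EzAyF_7))) (.node (.node (.node ttNFyAzE2A2Ax3xA2A2EzAyF_8 ttNFyAzE2A2Ax3xA2A2EzAyF_9) (.node ttNFyAzE2A2Ax3xA2A2EzAyF_10 ttNFyAzE2A2Ax3xA2A2EzAyF_11)) (.node (.node ttNFyAzE2A2Ax3xA2A2EzAyF_12 ttNFyAzE2A2Ax3xA2A2EzAyF_13) (.node ttNFyAzE2A2Ax3xA2A2EzAyF_14 ttNFyAzE2A2Ax3xA2A2EzAyF_15)))) (.node (.node (.node (.node ttNFyAzE2A2Ax3xA2A2EzAyF_16 ttNFyAzE2A2Ax3xA2A2EzAyF_17) (.node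 ttNFyAzE2A2Ax3xA2A2EzAyF_18 ttNFyAzE2A2Ax3xA2A2EzAyF_19)) (.node (.node ttNFyAzE2A2Ax3xA2A2EzAyF_20 ttNFyAzE2A2Ax3xA2A2EzAyF_21) (.node ttNFyAzE2A2Ax3xA2A2EzAyF_22 ttNFyAzE2A2Ax3xA2A2EzAyF_23))) (.node (.node (.node ttNFyAzE2A2Ax3xA2A2EzAyF_24 ttNFyAzE2A2Ax3xA2A2EzAyF_25) (.node ttNFyAzE2A2Ax3xA2A2EzAyF_26 ttNFyAzE2A2Ax3xA2A2EzAyF_27)) (.node (.node ttNFyAzE2A2Ax3xA2A2EzAyF_28 ttNFyAzE2A2Ax3xA2A2EzAyF_29) (.node ttNFyAzE2A2Ax3xA2A2EzAyF_30 ttNFyAzE2A2Ax3xA2A2EzAyF_31)))))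
noncomputable def ceNFyAzE2A2Ax3xA2A2EzAyF_0 : BT Nat := (.node (.node ceNFyAzE2A2Ax3xA2A2EzAyF_0_0 ceNFyAzE2A2Ax3xA2A2EzAyF_0_1) (.node ceNFyAzE2A2Ax3xA2A2EzAyF_0_2 ceNFyAzE2A2Ax3xA2A2EzAyF_0_3))
noncomputable def ceNFyAzE2A2Ax3xA2A2EzAyF_1 : BT Nat := (.node ceNFyAzE2A2Ax3xA2A2EzAyF_1_0 ceNFyAzE2A2Ax3xA2A2EzAyF_1_1)
noncomputable def ceNFyAzE2A2Ax3xA2A2EzAyF_2 : BT Nat := (.node ceNFyAzE2A2Ax3xA2A2EzAyF_2_0 ceNFyAzE2A2Ax3xA2A2EzAyF_2_1)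
noncomputable def ceNFyAzE2A2Ax3xA2A2EzAyF : BT Nat := (.node ceNFyAzE2A2Ax3xA2A2EzAyF_0 (.node ceNFyAzE2A2Ax3xA2A2EzAyF_1 ceNFyAzE2A2Ax3xA2A2EzAyF_2))
noncomputable def coNFyAzE2A2Ax3xA2A2EzAyF_0 : BT Nat := (.node (.node coNFyAzE2A2Ax3xA2A2EzAyF_0_0 coNFyAzE2A2Ax3xA2A2EzAyF_0_1) (.node coNFyAzE2A2Ax3xA2A2EzAyF_0_2 coNFyAzE2A2Ax3xA2A2EzAyF_0_3))
noncomputable def coNFyAzE2A2Ax3xA2A2EzAyF_1 : BT Nat := (.node coNFyAzE2A2Ax3xA2A2EzAyF_1_0 coNFyAzE2A2Ax3xA2A2EzAyF_1_1)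
noncomputable def coNFyAzE2A2Ax3xA2A2EzAyF_2 : BT Nat := (.node coNFyAzE2A2Ax3xA2A2EzAyF_2_0 coNFyAzE2A2Ax3xA2A2EzAyF_2_1)
noncomputable def coNFyAzE2A2Ax3xA2A2EzAyF : BT Nat := (.node coNFyAzE2A2Ax3xA2A2EzAyF_0 (.node coNFyAzE2A2Ax3xA2A2EzAyF_1 coNFyAzE2A2Ax3xA2A2EzAyF_2))

end MPb6P
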