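import Pool.Agent.Lib.MP_b6d339_lc.Cw.YF2AzEyA2Ax3xA2AyEzAzF
import Pool.Agent.Lib.MP_b6d339_lc.Cw.XL

/-!
# Erdős 592, three levels: checks of claims
-/

namespace MPb6P

theorem zoNF2AzEyA2Ax3xA2AyEzAzF_0 : cyO 48 2371 nnNF2AzEyA2Ax3xA2AyEzAzF ttNF2AzEyA2Ax3xA2AyEzAzF ceNF2AzEyA2Ax3xA2AyEzAzF xNF2AzEyA2Ax3xA2AyEzAzF coNF2AzEyA2Ax3xA2AyEzAzF_0 = true := by decide +kernel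

theorem zeNF2AzEyA2Ax3xA2AyEzAzF_0 : cyE 48 2371 nnNF2AzEyA2Ax3xA2AyEzAzF ttNF2AzEyA2Ax3xA2AyEzAzF coNF2AzEyA2Ax3xA2AyEzAzF xNF2AzEyA2Ax3xA2AyEzAzF ceNF2AzEyA2Ax3xA2AyEzAzF_0 = true := by decide +kernel

end MPb6P
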