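import Pool.Agent.Lib.MP_b6d339_lc.Cw.YFzAzAzE2A2Ax3xA2A2EzA2AyF
import Pool.Agent.Lib.MP_b6d339_lc.Cw.XL

/-!
# Erdős 592, three levels: checks of claims
-/

namespace MPb6P

theorem zoNFzAzAzE2A2Ax3xA2A2EzA2AyF_0 : cyO 49 3403 nnNFzAzAzE2A2Ax3xA2A2EzA2AyF ttNFzAzAzE2A2Ax3xA2A2EzA2AyF ceNFzAzAzE2A2Ax3xA2A2EzA2AyF xNFzAzAzE2A2Ax3xA2A2EzA2AyF coNFzAzAzE2A2Ax3xA2A2EzA2AyF_0 = true := by decide +kernel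

theorem zeNFzAzAzE2A2Ax3xA2A2EzA2AyF_0 : cyE 49 3403 nnNFzAzAzE2A2Ax3xA2A2EzA2AyF ttNFzAzAzE2A2Ax3xA2A2EzA2AyF coNFzAzAzE2A2Ax3xA2A2EzA2AyF xNFzAzAzE2A2Ax3xA2A2EzA2AyF ceNFzAzAzE2A2Ax3xA2A2EzA2AyF_0 = true := by decide +kernel

end MPb6P
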