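import Pool.Agent.Lib.MP_b6d339_lc.Cw.YFzE2B3H3B2E
import Pool.Agent.Lib.MP_b6d339_lc.Cw.XL

/-!
# Erdős 592, three levels: checks of claims
-/

namespace MPb6P

theorem zeNFzE2B3H3B2E_0 : cyE 58 7242 nnNFzE2B3H3B2E ttNFzE2B3H3B2E coNFzE2B3H3B2E xNFzE2B3H3B2E ceNFzE2B3H3B2E_0 = true := by decide +kernel

end MPb6P
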